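import Pool.Agent.Work.MP_7b0bad_ag.Bd.B01

/-! Bundle of small proof modules (one section per former module). -/

section

set_option autoImplicit false

namespace MP7b0bad

open Polynomial

theorem B7_coeff (K : Type) [Field K] (f : K[X]) (m : ℤ) :
    (atInf K f).coeff m = if m ≤ 0 then f.coeff (-m).toNat else 0 := by
  induction f using Polynomial.induction_on' with
  | add f g hf hg =>
    rw [map_add, HahnSeries.coeff_add, hf, hg, Polynomial.coeff_add]
    split_ifs <;> simp
  | monomial n a =>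
    have h1 : atInf K (monomial n a) = HahnSeries.single (-(n : ℤ)) a := by
      rw [atInf, coe_eval₂RingHom, eval₂_monomial, HahnSeries.single_pow, HahnSeries.C_apply,
        HahnSeries.single_mul_single]
      simp
    rw [h1, HahnSeries.coeff_single, Polynomial.coeff_monomial]
    by_cases h : m = -(n : ℤ)
    · subst h
      simp
    · rw [if_neg h]
      split_ifs with h2 h3
      · exfalso
        omega
      · rfl
      · rfl

theorem prf_B7 (hB3 : B3) : B7 := by
  intro K _ p _ _ f hf
  apply hB3 K p (atInf K f) f.natDegree hf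
  · rw [B7_coeff, if_pos (by omega)]
    have h0 : f ≠ 0 := by
      rintro rfl
      simp at hf
    simpa using h0
  · intro m hm
    rw [B7_coeff, if_pos (by omega)]
    exact Polynomial.coeff_eq_zero_of_natDegree_lt (by omega)

end MP7b0bad

end

section

set_option autoImplicit false

/-! Item B8: functoriality of AS. -/

namespace MP7b0bad

open Polynomial

theorem B8_eval {R S : Type} [CommRing R] [CommRing S] (p : ℕ) (f : R →+* S) (x : S) (a : R) :
    (asPoly p a).eval₂ f x = x ^ p - x - f a := by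
  simp [asPoly]

theorem prf_B8 (hB1 : B1) (hB4 : B4) : B8 := by
  intro A A' _ _ _ _ p hpf _ _ φ a
  have hroot : (asPoly p a).eval₂ ((AdjoinRoot.of (asPoly p (φ a))).comp φ)
      (asRoot p (φ a)) = 0 := by
    have h0 : (asPoly p (φ a)).eval₂ (AdjoinRoot.of (asPoly p (φ a))) (asRoot p (φ a)) = 0 :=
      AdjoinRoot.eval₂_root _
    rw [B8_eval] at h0 ⊢
    exact h0
  set Φ : AS p a →+* AS p (φ a) :=
    AdjoinRoot.lift ((AdjoinRoot.of (asPoly p (φ a))).comp φ) (asRoot p (φ a)) hroot with hΦ
  have h1 : ∀ x, Φ (AdjoinRoot.of _ x) = AdjoinRoot.of _ (φ x) := fun x =>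
    AdjoinRoot.lift_of hroot
  have h2 : Φ (asRoot p a) = asRoot p (φ a) := AdjoinRoot.lift_root hroot
  refine ⟨Φ, h1, h2, ?_, ?_⟩
  · have hcomp : (Φ.comp (asShift p a)).comp (AdjoinRoot.mk (asPoly p a)) =
        ((asShift p (φ a)).comp Φ).comp (AdjoinRoot.mk (asPoly p a)) := by
      refine Polynomial.ringHom_ext (fun x => ?_) ?_
      · change Φ (asShift p a (AdjoinRoot.of _ x)) = asShift p (φ a) (Φ (AdjoinRoot.of _ x))
        rw [asShift_of, h1, asShift_of]
      · change Φ (asShift p a (asRoot p a)) = asShift p (φ a) (Φ (asRoot p a))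
        rw [(hB1 A p a).1, h2, (hB1 A' p (φ a)).1, map_add, map_one, h2]
    intro z
    obtain ⟨g, rfl⟩ := AdjoinRoot.mk_surjective z
    exact congrArg (fun F : A[X] →+* AS p (φ a) => F g) hcomp
  · intro hinj
    rw [injective_iff_map_eq_zero]
    intro z hz
    obtain ⟨c, hc, -⟩ := hB4 A p a z
    have h3 : Φ z = ∑ l, AdjoinRoot.of _ (φ (c l)) * asRoot p (φ a) ^ (l : ℕ) := by
      rw [hc, map_sum]
      refine Finset.sum_congr rfl fun l _ => ?_
      rw [map_mul, map_pow, h1, h2]
    rw [hz] at h3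
    obtain ⟨d, -, hd⟩ := hB4 A' p (φ a) 0
    have e1 := hd (fun l => φ (c l)) h3
    have e2 := hd (fun _ => 0) (by simp)
    have e3 : ∀ l, c l = 0 := fun l => by
      have : φ (c l) = 0 := congrFun (e1.trans e2.symm) l
      exact hinj (by rw [this, map_zero])
    rw [hc]
    refine Finset.sum_eq_zero fun l _ => ?_
    rw [e3 l, map_zero, zero_mul]

end MP7b0bad

end

section

set_option autoImplicit false

/-!
# Item C1: discs
-/

namespace MP7b0bad

open Polynomial

/-- `k[[w]] → k((w))((T))` -/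
noncomputable def C1_emb (k : Type) [Field k] : PowerSeries k →+* Fk k :=
  (HahnSeries.C : LaurentSeries k →+* Fk k).comp (HahnSeries.ofPowerSeries ℤ k)

theorem C1_emb_mem (k : Type) [Field k] (f : PowerSeries k) : C1_emb k f ∈ Rr k := by
  intro j i hi
  have h1 : C1_emb k f = HahnSeries.C ((f : PowerSeries k) : LaurentSeries k) := rfl
  rw [h1, HahnSeries.C_apply, HahnSeries.coeff_single]
  split_ifs
  · rw [PowerSeries.coeff_coe, if_pos hi]
  · simp

theorem C1_emb_C (k : Type) [Field k] (c : k) : C1_emb k (PowerSeries.C c) = kF k c := by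
  unfold C1_emb kF
  simp [HahnSeries.ofPowerSeries_C]

theorem C1_emb_X (k : Type) [Field k] : C1_emb k PowerSeries.X = Ww k := by
  unfold C1_emb Ww
  simp [HahnSeries.ofPowerSeries_X]

theorem C1_hensel (k : Type) [Field k] (N : ℕ) (a : Fin N → k) (ha : Function.Injective a)
    (i : Fin N) : ∃ x : PowerSeries k,
      (∏ i, (X - C (a i))).eval₂ (PowerSeries.C : k →+* PowerSeries k) x = PowerSeries.X ∧
      PowerSeries.constantCoeff x = a i := by
  set W : k[X] := ∏ i, (X - C (a i)) with hW
  have hWm : W.Monic := monic_prod_of_monic _ _ fun i _ => monic_X_sub_C _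
  have hWd : W.natDegree = N := by
    rw [hW, natDegree_prod_of_monic _ _ fun i _ => monic_X_sub_C _]
    simp
  have hN : 0 < N := lt_of_le_of_lt (Nat.zero_le _) i.2
  have hWi : W.eval (a i) = 0 := by
    rw [hW, eval_prod]
    exact Finset.prod_eq_zero (Finset.mem_univ i) (by simp)
  have hWi' : (derivative W).eval (a i) ≠ 0 := by
    have hs : W.Separable := by
      rw [hW]
      exact separable_prod_X_sub_C_iff.2 ha
    obtain ⟨u, v, huv⟩ := hs
    intro h0
    have := congrArg (eval (a i)) huv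
    simp [hWi, h0] at this
  set f : (PowerSeries k)[X] := W.map (PowerSeries.C : k →+* PowerSeries k) - C PowerSeries.X
    with hf
  have hfm : f.Monic := by
    refine Monic.sub_of_left (hWm.map _) ?_
    have h1 : (W.map (PowerSeries.C : k →+* PowerSeries k)).degree = (N : ℕ) := by
      rw [hWm.degree_map, degree_eq_natDegree hWm.ne_zero, hWd]
    rw [h1]
    refine lt_of_le_of_lt degree_C_le ?_
    exact_mod_cast hN
  have hev : f.eval (PowerSeries.C (a i)) = - PowerSeries.X := by
    rw [hf, eval_sub, eval_C, eval_map, eval₂_at_apply, hWi]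
    simp
  have hder : (derivative f).eval (PowerSeries.C (a i)) =
      PowerSeries.C ((derivative W).eval (a i)) := by
    rw [hf, derivative_sub, derivative_C, sub_zero, derivative_map, eval_map, eval₂_at_apply]
  obtain ⟨x, hx1, hx2⟩ := HenselianRing.is_henselian
    (I := (Ideal.span {PowerSeries.X} : Ideal (PowerSeries k))) f hfm (PowerSeries.C (a i))
    (by
      rw [hev]
      exact (Ideal.neg_mem_iff _).2 (Ideal.mem_span_singleton_self _))
    (by
      rw [hder]
      exact ((IsUnit.mk0 _ hWi').map (PowerSeries.C : k →+* PowerSeries k)).map _)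
  refine ⟨x, ?_, ?_⟩
  · have h1 : f.eval x = 0 := hx1
    rw [hf, eval_sub, eval_C, eval_map] at h1
    exact sub_eq_zero.1 h1
  · rw [Ideal.mem_span_singleton, PowerSeries.X_dvd_iff] at hx2
    rw [map_sub, PowerSeries.constantCoeff_C] at hx2
    exact sub_eq_zero.1 hx2

theorem prf_C1 : C1 := by
  intro k _ _ N
  have : Infinite k := IsAlgClosed.instInfinite
  obtain ⟨a, ha⟩ : ∃ a : Fin N → k, Function.Injective a :=
    ⟨fun i => Infinite.natEmbedding k i.val, fun i j h => by
      have := (Infinite.natEmbedding k).injective h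
      exact Fin.ext this⟩
  choose x hx1 hx2 using C1_hensel k N a ha
  have hunit : ∀ i j, i ≠ j → IsUnit (x i - x j) := by
    intro i j hij
    rw [PowerSeries.isUnit_iff_constantCoeff, map_sub, hx2, hx2]
    exact IsUnit.mk0 _ (sub_ne_zero.2 fun h => hij (ha h))
  refine ⟨∏ i, (X - C (a i)), fun i => C1_emb k (x i), ?_, ?_, ?_, ?_, ?_, ?_⟩
  · exact monic_prod_of_monic _ _ fun i _ => monic_X_sub_C _
  · rw [natDegree_prod_of_monic _ _ fun i _ => monic_X_sub_C _]
    simp
  · exact fun i => C1_emb_mem k _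
  · intro i
    rw [← C1_emb_X, ← hx1 i, hom_eval₂]
    congr 1
    ext c
    simp [C1_emb_C]
  · intro i j hij
    rw [← map_sub]
    exact ((hunit i j hij).map (C1_emb k)).ne_zero
  · intro i j hij
    obtain ⟨u, hu⟩ := hunit i j hij
    rw [← map_sub, ← hu]
    have h1 : (C1_emb k (u : PowerSeries k))⁻¹ = C1_emb k ((u⁻¹ : (PowerSeries k)ˣ) : PowerSeries k) := by
      refine inv_eq_of_mul_eq_one_right ?_
      rw [← map_mul]
      simp
    rw [h1]
    exact C1_emb_mem k _

end MP7b0bad

end

section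

set_option autoImplicit false

namespace MP7b0bad

open Polynomial

theorem C2_XX (k : Type) [Field k] : XX k =
    jj k (C (HahnSeries.single (-1 : ℤ) (1 : k)) * X) := by
  have h1 : (Tt k)⁻¹ = HahnSeries.single (-1 : ℤ) (1 : LaurentSeries k) := by
    rw [Tt, HahnSeries.inv_single]
    simp
  have h2 : KF k (HahnSeries.single (-1 : ℤ) (1 : k)) =
      HahnSeries.single (-1 : ℤ) (1 : LaurentSeries k) := by
    ext n : 2
    show HahnSeries.C ((HahnSeries.single (-1 : ℤ) (1 : k)).coeff n) = _
    rw [HahnSeries.coeff_single, HahnSeries.coeff_single]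
    split_ifs
    · exact map_one _
    · exact map_zero _
  rw [XX, h1, jj, coe_eval₂RingHom, eval₂_mul, eval₂_C, eval₂_X, h2, mul_comm]

theorem C2_charP (k : Type) [Field k] (p : ℕ) [CharP k p] : CharP (Fk k) p := by
  have h1 : CharP (LaurentSeries k) p :=
    charP_of_injective_ringHom (f := (HahnSeries.C : k →+* LaurentSeries k))
      HahnSeries.C_injective p
  exact charP_of_injective_ringHom (f := (HahnSeries.C : LaurentSeries k →+* Fk k))
      HahnSeries.C_injective p

theorem C2_ext {A A' : Type} [CommRing A] [CommRing A'] [Nontrivial A] [Nontrivial A'] (p : ℕ)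
    [Fact p.Prime] [CharP A p] [CharP A' p] (hB8 : B8) (φ : A →+* A') (hφ : Function.Injective φ)
    (a : A) (a' : A') (h : φ a = a') :
    ∃ Φ : AS p a →+* AS p a', (∀ x, Φ (AdjoinRoot.of _ x) = AdjoinRoot.of _ (φ x)) ∧
      Φ (asRoot p a) = asRoot p a' ∧ (∀ z, Φ (asShift p a z) = asShift p a' (Φ z)) ∧
      Function.Injective Φ := by
  subst h
  obtain ⟨Φ, h1, h2, h3, h4⟩ := hB8 A A' p φ a
  exact ⟨Φ, h1, h2, h3, h4 hφ⟩

theorem prf_C2 (hA8 : A8) (hB1 : B1) (hB2 : B2) (hB4 : B4) (hB7 : B7) (hB8 : B8) (hC2c : C2c) :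
    C2 := by
  intro k _ p hpf _ M N W ξ hD hM hN
  have hN0 : 0 < N := by
    rcases Nat.eq_zero_or_pos N with h | h
    · exact absurd (h ▸ dvd_zero p) hN
    · exact h
  obtain ⟨A1, _, o, x1, a, aI, ha_o, ha_x, ha_inj, haI_inj, haI_x, haI_jj, hspan⟩ :=
    hC2c k N W ξ hD hN0
  have hcF : CharP (Fk k) p := C2_charP k p
  have hdom : IsDomain A1 := haI_inj.isDomain aI
  have hcA : CharP A1 p := RingHom.charP aI haI_inj p
  have hX : XX k ∈ Ss k := by
    rw [C2_XX]
    exact ((hA8 k).2.1 _).2
  set c0 : A1 := o ⟨XX k, hX⟩ ^ M with hc0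
  have ha_c0 : ∀ i, a i c0 = XX k ^ M := by
    intro i
    rw [hc0, map_pow, ha_o]
  have haI_c0 : aI c0 = atInf (LaurentSeries k) (fW k W M) := by
    have h1 : (⟨XX k, hX⟩ : Ss k) = ⟨jj k (C (HahnSeries.single (-1 : ℤ) (1 : k)) * X),
        C2_XX k ▸ hX⟩ := Subtype.ext (C2_XX k)
    rw [hc0, map_pow, h1, haI_jj, fW, map_pow (atInf (LaurentSeries k)), mul_comp, C_comp, X_comp]
  have hΦ : ∀ i, ∃ Φ : AS p c0 →+* Qk k p M,
      (∀ x, Φ (AdjoinRoot.of _ x) = AdjoinRoot.of _ (a i x)) ∧
      Φ (asRoot p c0) = asRoot p (XX k ^ M) ∧ (∀ z, Φ (asShift p c0 z) = tQ k p M (Φ z)) ∧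
      Function.Injective Φ := fun i => C2_ext p hB8 (a i) (ha_inj i) c0 _ (ha_c0 i)
  choose Φ h1 h2 h3 h4 using hΦ
  obtain ⟨Ψ, g1, g2, g3, g4⟩ := C2_ext p hB8 aI haI_inj c0 _ haI_c0
  refine ⟨{
    A := AS p c0
    ofS := (AdjoinRoot.of (asPoly p c0)).comp o
    τ := asShift p c0
    x := AdjoinRoot.of (asPoly p c0) x1
    y := asRoot p c0
    a := Φ
    aInf := Ψ
    a_ofS := ?_
    a_x := ?_
    a_y := h2
    a_τ := h3
    a_inj := h4
    aInf_inj := g4
    aInf_τ := g3
    aInf_x := ?_
    aInf_K := ?_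
    τ_ofS := ?_
    τ_x := ?_
    τ_y := (hB1 A1 p c0).1
    span := ?_
    fixed := ?_ }⟩
  · intro i s
    rw [RingHom.comp_apply, h1, ha_o]
  · intro i
    rw [h1, ha_x]
  · rw [g1, haI_x]
  · intro c h
    rw [RingHom.comp_apply, g1]
    have e : KF k c = jj k (C c) := by
      rw [jj, coe_eval₂RingHom, eval₂_C]
    have e2 : (⟨KF k c, h⟩ : Ss k) = ⟨jj k (C c), e ▸ h⟩ := Subtype.ext e
    rw [e2, haI_jj, C_comp, atInf, coe_eval₂RingHom, eval₂_C]
  · intro s
    exact asShift_of p c0 _
  · exact asShift_of p c0 _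
  · intro α
    obtain ⟨e, he, -⟩ := hB4 A1 p c0 α
    choose d hd using fun l => hspan (e l)
    refine ⟨fun j l => d l j, ?_⟩
    rw [he, Finset.sum_comm]
    refine Finset.sum_congr rfl fun l _ => ?_
    conv_lhs => rw [hd l]
    rw [map_sum, Finset.sum_mul]
    refine Finset.sum_congr rfl fun j _ => ?_
    rw [map_mul, map_pow, RingHom.comp_apply]
  · intro α hα
    obtain ⟨e, he⟩ := hB2 A1 p c0 α hα
    obtain ⟨d, hd⟩ := hspan e
    refine ⟨d, ?_⟩
    rw [← he, hd, map_sum]
    refine Finset.sum_congr rfl fun j _ => ?_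
    rw [map_mul, map_pow, RingHom.comp_apply]

end MP7b0bad

end

section

set_option autoImplicit false

namespace MP7b0bad

open Polynomial

theorem C2a_mem {F : Type} [Field F] (R : Subring F) {N : ℕ} (ξ v : Fin N → F)
    (hξ : ∀ i, ξ i ∈ R) (hu : ∀ i j, i ≠ j → (ξ i - ξ j)⁻¹ ∈ R) (hv : ∀ i, v i ∈ R) (n : ℕ) :
    (Lagrange.interpolate Finset.univ ξ v).coeff n ∈ R := by
  have key : Lagrange.interpolate Finset.univ ξ v ∈ Polynomial.lifts R.subtype := by
    rw [Lagrange.interpolate_apply]
    refine Subsemiring.sum_mem _ fun i _ => Subsemiring.mul_mem _ ?_ ?_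
    · exact Polynomial.C_mem_lifts R.subtype (⟨v i, hv i⟩ : R)
    · unfold Lagrange.basis
      refine Subsemiring.prod_mem _ fun j hj => ?_
      unfold Lagrange.basisDivisor
      have hij : i ≠ j := fun h => (Finset.mem_erase.1 hj).1 h.symm
      refine Subsemiring.mul_mem _ ?_ ?_
      · exact Polynomial.C_mem_lifts R.subtype (⟨_, hu i j hij⟩ : R)
      · rw [sub_eq_add_neg, ← C_neg]
        refine Subsemiring.add_mem _ (Polynomial.X_mem_lifts _) ?_
        exact Polynomial.C_mem_lifts R.subtype (⟨-ξ j, R.neg_mem (hξ j)⟩ : R)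
  rw [Polynomial.lifts_iff_coeff_lifts] at key
  obtain ⟨r, hr⟩ := key n
  rw [← hr]
  exact r.2

theorem C2a_poly {F : Type} [Field F] {N : ℕ} (ξ : Fin N → F) (hinj : Function.Injective ξ)
    (v c : Fin N → F) (h : ∀ i, v i = ∑ j, c j * ξ i ^ (j : ℕ)) (j : Fin N) :
    c j = (Lagrange.interpolate Finset.univ ξ v).coeff j := by
  have h1 : ∑ j : Fin N, C (c j) * (X : F[X]) ^ (j : ℕ) = Lagrange.interpolate Finset.univ ξ v := by
    apply Lagrange.eq_interpolate_of_eval_eq
    · exact hinj.injOn
    · rw [Finset.card_univ, Fintype.card_fin]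
      apply lt_of_le_of_lt (Polynomial.degree_sum_le _ _)
      rw [Finset.sup_lt_iff]
      · intro j _
        refine lt_of_le_of_lt (Polynomial.degree_C_mul_X_pow_le _ _) ?_
        exact_mod_cast j.2
      · exact WithBot.bot_lt_coe _
    · intro i _
      rw [h i]
      simp [Polynomial.eval_finsetSum]
  rw [← h1, Polynomial.finsetSum_coeff, Finset.sum_eq_single j]
  · simp
  · intro l _ hl
    rw [Polynomial.coeff_C_mul_X_pow, if_neg]
    intro h
    exact hl (Fin.ext h.symm)
  · intro h
    exact absurd (Finset.mem_univ _) h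

theorem prf_C2a : C2a := by
  intro k _ N W ξ hD
  have hinj : Function.Injective ξ := by
    intro i j hij
    by_contra hne
    exact hD.ne i j hne (sub_eq_zero.2 hij)
  refine ⟨fun v => ⟨fun j => (Lagrange.interpolate Finset.univ ξ v).coeff j, ?_, ?_⟩, ?_⟩
  · intro i
    have h1 := Lagrange.eval_interpolate_at_node (s := Finset.univ) (v := ξ) v hinj.injOn
      (Finset.mem_univ i)
    rw [← h1, Polynomial.eval_eq_sum_range' (n := N), Finset.sum_range]
    · have h2 := Lagrange.degree_interpolate_lt (s := Finset.univ) (v := ξ) v hinj.injOn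
      rw [Finset.card_univ, Fintype.card_fin] at h2
      by_cases h0 : Lagrange.interpolate Finset.univ ξ v = 0
      · rw [h0]
        simpa using i.pos
      · exact (Polynomial.natDegree_lt_iff_degree_lt h0).2 h2
  · intro c hc
    funext j
    exact C2a_poly ξ hinj v c hc j
  · intro c hc j
    rw [C2a_poly ξ hinj (fun i => ∑ j, c j * ξ i ^ (j : ℕ)) c (fun i => rfl) j]
    exact C2a_mem (Rr k) ξ _ hD.mem hD.unit hc _

end MP7b0bad

end

section

set_option autoImplicit false

/-!
# C2b: expansion of the elements of `S` in `1 / x`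
-/

namespace MP7b0bad

open Polynomial

theorem C2b_atInf_C (K : Type) [Field K] (a : K) : atInf K (C a) = HahnSeries.C a := by
  simp [atInf]

theorem C2b_atInf_X (K : Type) [Field K] :
    atInf K X = HahnSeries.single (-1 : ℤ) (1 : K) := by
  simp [atInf]

theorem C2b_atInf_monomial (K : Type) [Field K] (n : ℕ) (a : K) :
    atInf K (monomial n a) = HahnSeries.single (-(n : ℤ)) a := by
  rw [← C_mul_X_pow_eq_monomial, map_mul, map_pow, C2b_atInf_C, C2b_atInf_X,
    HahnSeries.single_pow, one_pow, HahnSeries.C_apply, HahnSeries.single_mul_single]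
  congr 1
  · simp
  · simp

theorem C2b_atInf_coeff (K : Type) [Field K] (P : K[X]) (m : ℤ) :
    (atInf K P).coeff m = if m ≤ 0 then P.coeff (-m).toNat else 0 := by
  induction P using Polynomial.induction_on' with
  | add p q hp hq =>
    rw [map_add, HahnSeries.coeff_add, hp, hq]
    split_ifs
    · rw [coeff_add]
    · rw [add_zero]
  | monomial n a =>
    rw [C2b_atInf_monomial, HahnSeries.coeff_single, coeff_monomial]
    split_ifs with h1 h2 h3 h4
    · rfl
    · exact absurd (by omega : n = (-m).toNat) h3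
    · exact absurd (by omega : m ≤ 0) h2
    · exact absurd (by omega : m = -(n : ℤ)) h1
    · rfl
    · rfl

theorem C2b_KF_coeff (k : Type) [Field k] (a : LaurentSeries k) (j : ℤ) :
    (KF k a).coeff j = HahnSeries.single (0 : ℤ) (a.coeff j) := rfl

theorem C2b_single_inv (K : Type) [Field K] :
    (HahnSeries.single (1 : ℤ) (1 : K))⁻¹ = HahnSeries.single (-1 : ℤ) (1 : K) := by
  rw [HahnSeries.inv_single]
  simp

/-- order of the inverse of the expansion of a monic polynomial -/
theorem C2b_order {K : Type} [Field K] (P : K[X]) (hP : P.Monic) :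
    (atInf K P)⁻¹.coeff (P.natDegree : ℤ) ≠ 0 ∧
      ∀ m : ℤ, m < (P.natDegree : ℤ) → (atInf K P)⁻¹.coeff m = 0 := by
  have h1 : (atInf K P).coeff (-(P.natDegree : ℤ)) = 1 := by
    rw [C2b_atInf_coeff, if_pos (by omega)]
    rw [neg_neg, Int.toNat_natCast]
    exact hP
  have h0 : atInf K P ≠ 0 := by
    intro h
    rw [h] at h1
    simp at h1
  have h2 : (atInf K P).order = -(P.natDegree : ℤ) := by
    apply le_antisymm
    · exact HahnSeries.order_le_of_coeff_ne_zero (by rw [h1]; exact one_ne_zero)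
    · by_contra hc
      have h3 := not_le.1 hc
      apply HahnSeries.coeff_order_eq_zero.not.2 h0
      rw [C2b_atInf_coeff]
      split_ifs
      · apply coeff_eq_zero_of_natDegree_lt
        omega
      · rfl
  have hi : (atInf K P)⁻¹ ≠ 0 := inv_ne_zero h0
  have h3 : (atInf K P)⁻¹.order = (P.natDegree : ℤ) := by
    have h4 := HahnSeries.order_mul h0 hi
    rw [mul_inv_cancel₀ h0, HahnSeries.order_one, h2] at h4
    omega
  constructor
  · rw [← h3]
    exact HahnSeries.coeff_order_eq_zero.not.2 hi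
  · intro m hm
    exact HahnSeries.coeff_eq_zero_of_lt_order (by rw [h3]; exact hm)

theorem prf_C2b (hA2 : A2) (hC2s : C2s) (hA8 : A8) : C2b := by
  intro k _ W hW hN
  obtain ⟨l2, hl2⟩ := hA2 k
  set W' : (LaurentSeries k)[X] := W.map (HahnSeries.C : k →+* LaurentSeries k) with hW'
  have hdeg : W'.natDegree = W.natDegree :=
    natDegree_map_eq_of_injective HahnSeries.C_injective W
  obtain ⟨hg1, hg2⟩ := C2b_order W' (hW.map _)
  rw [hdeg] at hg1 hg2
  obtain ⟨σ, hσC, hσX, hσo⟩ := hC2s (LaurentSeries k) (atInf (LaurentSeries k) W')⁻¹ W.natDegree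
    hN hg1 hg2
  have hS : ∀ f, jj k f ∈ Ss k := fun f => ((hA8 k).2.1 f).2
  -- the first map
  have e1 : l2.comp ((jj k).codRestrict (Ss k) hS) = atInf (LaurentSeries k) := by
    refine Polynomial.ringHom_ext (fun a => ?_) ?_
    · rw [C2b_atInf_C]
      ext m j
      rw [RingHom.comp_apply, hl2]
      simp only [RingHom.codRestrict_apply, jj, coe_eval₂RingHom, eval₂_C]
      rw [C2b_KF_coeff, HahnSeries.C_apply, HahnSeries.coeff_single, HahnSeries.coeff_single]
      by_cases hm : m = 0
      · subst hm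
        simp
      · rw [if_neg hm, if_neg (by omega)]
        simp
    · rw [C2b_atInf_X]
      ext m j
      rw [RingHom.comp_apply, hl2]
      simp only [RingHom.codRestrict_apply, jj, coe_eval₂RingHom, eval₂_X]
      simp only [Ww, HahnSeries.C_apply, HahnSeries.coeff_single]
      by_cases hm : m = -1
      · subst hm
        by_cases hj : j = 0
        · subst hj
          simp
        · rw [if_neg hj, if_pos rfl, HahnSeries.coeff_one, if_neg hj]
          simp
      · rw [if_neg hm]
        by_cases hj : j = 0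
        · subst hj
          rw [if_pos rfl, HahnSeries.coeff_single, if_neg (by omega)]
          simp
        · rw [if_neg hj]
          simp
  have e2 : σ.comp (atInf (LaurentSeries k)) =
      (atInf (LaurentSeries k)).comp (compRingHom W') := by
    refine Polynomial.ringHom_ext (fun a => ?_) ?_
    · rw [RingHom.comp_apply, RingHom.comp_apply, C2b_atInf_C, hσC, coe_compRingHom_apply, C_comp,
        C2b_atInf_C]
    · rw [RingHom.comp_apply, RingHom.comp_apply, C2b_atInf_X, coe_compRingHom_apply, X_comp,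
        ← C2b_single_inv, map_inv₀, hσX, inv_inv]
  refine ⟨σ.comp l2, fun f h => ?_, fun s hs => ?_⟩
  · have h1 := RingHom.congr_fun e1 f
    have h2 := RingHom.congr_fun e2 f
    rw [RingHom.comp_apply, RingHom.comp_apply, coe_compRingHom_apply] at h2
    rw [← h2, ← h1]
    rfl
  · have h1 : l2 s ≠ 0 := by
      intro h0
      apply hs
      apply Subtype.ext
      ext j i
      have h2 := hl2 s (-i) j
      rw [h0, neg_neg] at h2
      rw [← h2]
      simp
    obtain ⟨h2, h3⟩ := hσo _ h1
    exact ⟨h2, ⟨_, h3⟩⟩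

end MP7b0bad

end

section

set_option autoImplicit false

namespace MP7b0bad

open Polynomial

/-- spanning of `A[X]/(P)` by powers of the root -/
theorem C2c_span {A : Type} [CommRing A] [Nontrivial A] (P : A[X]) (hP : P.Monic) (N : ℕ)
    (hN : P.natDegree = N) (hN0 : 0 < N) (α : AdjoinRoot P) :
    ∃ c : Fin N → A, α = ∑ j, AdjoinRoot.of P (c j) * AdjoinRoot.root P ^ (j : ℕ) := by
  obtain ⟨f, rfl⟩ := AdjoinRoot.mk_surjective α
  refine ⟨fun j => (f %ₘ P).coeff j, ?_⟩
  have h1 : AdjoinRoot.mk P f = AdjoinRoot.mk P (f %ₘ P) := by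
    rw [AdjoinRoot.mk_eq_mk, modByMonic_eq_sub_mul_div]
    exact ⟨f /ₘ P, by ring⟩
  have h2 : (f %ₘ P).natDegree < N := by
    by_cases h0 : f %ₘ P = 0
    · rw [h0]
      simpa using hN0
    · have h3 := Polynomial.degree_modByMonic_lt f hP
      rw [Polynomial.degree_eq_natDegree hP.ne_zero, hN] at h3
      exact (Polynomial.natDegree_lt_iff_degree_lt h0).2 h3
  rw [h1]
  conv_lhs => rw [Polynomial.as_sum_range' _ N h2]
  rw [map_sum, Finset.sum_range]
  refine Finset.sum_congr rfl fun j _ => ?_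
  rw [← C_mul_X_pow_eq_monomial, map_mul, map_pow, AdjoinRoot.mk_C, AdjoinRoot.mk_X]

/-- a sum of series with distinct orders is nonzero -/
theorem C2c_indep {E : Type} [Field E] (N : ℕ) (s : Fin N → LaurentSeries E)
    (hs : ∀ j, s j ≠ 0 → (N : ℤ) ∣ (s j).order)
    (h : ∑ j, s j * (HahnSeries.single (-1 : ℤ) (1 : E)) ^ (j : ℕ) = 0) : ∀ j, s j = 0 := by
  classical
  by_contra hcon
  push Not at hcon
  obtain ⟨j1, hj1⟩ := hcon
  have hsing : (HahnSeries.single (-1 : ℤ) (1 : E)) ≠ 0 := HahnSeries.single_ne_zero one_ne_zero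
  have hord : ∀ j, s j ≠ 0 → (s j * (HahnSeries.single (-1 : ℤ) (1 : E)) ^ (j : ℕ)).order =
      (s j).order - (j : ℕ) := by
    intro j hj
    rw [HahnSeries.order_mul hj (pow_ne_zero _ hsing), HahnSeries.order_pow,
      HahnSeries.order_single one_ne_zero]
    simp [sub_eq_add_neg]
  obtain ⟨j0, hj0, hmin⟩ := Finset.exists_min_image (Finset.univ.filter fun j => s j ≠ 0)
    (fun j => (s j).order - ((j : ℕ) : ℤ)) ⟨j1, by simp [hj1]⟩
  rw [Finset.mem_filter] at hj0
  have h1 : (∑ j, s j * (HahnSeries.single (-1 : ℤ) (1 : E)) ^ (j : ℕ)).coeff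
      ((s j0).order - ((j0 : ℕ) : ℤ)) =
      (s j0 * (HahnSeries.single (-1 : ℤ) (1 : E)) ^ (j0 : ℕ)).coeff
      ((s j0).order - ((j0 : ℕ) : ℤ)) := by
    rw [HahnSeries.coeff_sum, Finset.sum_eq_single j0]
    · intro j _ hj
      by_cases hsj : s j = 0
      · rw [hsj]; simp
      · apply HahnSeries.coeff_eq_zero_of_lt_order
        rw [hord j hsj]
        have h2 := hmin j (by simp [hsj])
        rcases lt_or_eq_of_le h2 with h3 | h3
        · exact h3
        · exfalso
          obtain ⟨a, ha⟩ := hs j hsj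
          obtain ⟨b, hb⟩ := hs j0 hj0.2
          rw [ha, hb] at h3
          have h4 : (N : ℤ) ∣ ((j0 : ℕ) : ℤ) - ((j : ℕ) : ℤ) := ⟨b - a, by linarith⟩
          have h5 : |((j0 : ℕ) : ℤ) - ((j : ℕ) : ℤ)| < N := by
            have := j.2
            have := j0.2
            rw [abs_lt]
            constructor <;> omega
          have h6 := Int.eq_zero_of_abs_lt_dvd h4 h5
          apply hj
          apply Fin.ext
          omega
    · intro h
      exact absurd (Finset.mem_univ _) h
  rw [h, ← hord j0 hj0.2] at h1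
  have h7 := HahnSeries.coeff_order_eq_zero.1 h1.symm
  rcases mul_eq_zero.1 h7 with h8 | h8
  · exact hj0.2 h8
  · exact pow_ne_zero _ hsing h8

theorem prf_C2c (hC2b : C2b) (hA8 : A8) : C2c := by
  intro k _ N W ξ hD hN
  classical
  obtain ⟨l, hl, hlo⟩ := hC2b k W hD.monic (by rw [hD.deg]; exact hN)
  obtain ⟨_, hjm, _⟩ := hA8 k
  have hjC : ∀ c : k, jj k (C (HahnSeries.C c)) = kF k c := by
    intro c
    unfold jj kF
    simp only [coe_eval₂RingHom, eval₂_C, RingHom.comp_apply]
    ext j i
    show ((HahnSeries.map (HahnSeries.C c) (HahnSeries.C : k →+* LaurentSeries k)).coeff j).coeff i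
      = _
    rw [HahnSeries.map_coeff]
    by_cases hj : j = 0
    · subst hj
      simp [HahnSeries.C_apply, HahnSeries.coeff_single]
    · simp [HahnSeries.C_apply, HahnSeries.coeff_single, hj]
  have hjX : jj k X = Ww k := by
    unfold jj
    simp
  have hkF : ∀ c : k, kF k c ∈ Ss k := fun c => by
    rw [← hjC c]
    exact (hjm _).2
  have hWw : Ww k ∈ Ss k := by
    rw [← hjX]
    exact (hjm _).2
  let φ : k →+* Ss k := (kF k).codRestrict (Ss k) hkF
  let w : Ss k := ⟨Ww k, hWw⟩
  let P : (Ss k)[X] := W.map φ - C w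
  have hWm : (W.map φ).Monic := hD.monic.map φ
  have hWd : (W.map φ).natDegree = N := by
    rw [hD.monic.natDegree_map φ, hD.deg]
  have hdeg : (C w : (Ss k)[X]).degree < (W.map φ).degree := by
    rw [Polynomial.degree_eq_natDegree hWm.ne_zero, hWd]
    refine lt_of_le_of_lt Polynomial.degree_C_le ?_
    exact_mod_cast hN
  have hPm : P.Monic := hWm.sub_of_left hdeg
  have hPd : P.natDegree = N := by
    have : P.degree = (W.map φ).degree := Polynomial.degree_sub_eq_left_of_degree_lt hdeg
    rw [Polynomial.natDegree_eq_of_degree_eq this, hWd]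
  -- the maps
  have hroot : ∀ i, P.eval₂ (Ss k).subtype (ξ i) = 0 := by
    intro i
    show (W.map φ - C w).eval₂ (Ss k).subtype (ξ i) = 0
    rw [eval₂_sub, eval₂_map, eval₂_C]
    have : (Ss k).subtype.comp φ = kF k := by
      ext c
      rfl
    rw [this, hD.root i]
    show Ww k - Ww k = 0
    ring
  have hlφ : ∀ c : k, l (φ c) = HahnSeries.C (HahnSeries.C c) := by
    intro c
    have h1 : φ c = ⟨jj k (C (HahnSeries.C c)), (hjm _).2⟩ := Subtype.ext (hjC c).symm
    rw [h1, hl]
    rw [C_comp]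
    unfold atInf
    simp
  have hlw : l w = atInf (LaurentSeries k) (W.map (HahnSeries.C : k →+* LaurentSeries k)) := by
    have h1 : w = ⟨jj k X, (hjm _).2⟩ := Subtype.ext hjX.symm
    rw [h1, hl, X_comp]
  have hrootI : P.eval₂ l (atInf (LaurentSeries k) X) = 0 := by
    show (W.map φ - C w).eval₂ l (atInf (LaurentSeries k) X) = 0
    rw [eval₂_sub, eval₂_map, eval₂_C, hlw]
    have h1 : W.map (HahnSeries.C : k →+* LaurentSeries k) =
        W.eval₂ ((C : LaurentSeries k →+* (LaurentSeries k)[X]).comp HahnSeries.C) X := rfl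
    rw [h1, hom_eval₂]
    have h2 : l.comp φ = (atInf (LaurentSeries k)).comp
        ((C : LaurentSeries k →+* (LaurentSeries k)[X]).comp HahnSeries.C) := by
      ext c : 1
      rw [RingHom.comp_apply, hlφ c]
      unfold atInf
      simp
    rw [h2, sub_self]
  let a : Fin N → AdjoinRoot P →+* Fk k := fun i => AdjoinRoot.lift (Ss k).subtype (ξ i) (hroot i)
  let aI : AdjoinRoot P →+* LaurentSeries (LaurentSeries k) :=
    AdjoinRoot.lift l (atInf (LaurentSeries k) X) hrootI
  have hspan := C2c_span P hPm N hPd hN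
  have haI : Function.Injective aI := by
    rw [injective_iff_map_eq_zero]
    intro α hα
    obtain ⟨c, rfl⟩ := hspan α
    have hX : atInf (LaurentSeries k) X = HahnSeries.single (-1 : ℤ) (1 : LaurentSeries k) := by
      unfold atInf
      simp
    have h1 : ∑ j, l (c j) * (HahnSeries.single (-1 : ℤ) (1 : LaurentSeries k)) ^ (j : ℕ) = 0 := by
      rw [← hα, map_sum]
      refine Finset.sum_congr rfl fun j _ => ?_
      rw [map_mul, map_pow]
      show _ = AdjoinRoot.lift l (atInf (LaurentSeries k) X) hrootI (AdjoinRoot.of P (c j)) *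
        AdjoinRoot.lift l (atInf (LaurentSeries k) X) hrootI (AdjoinRoot.root P) ^ (j : ℕ)
      rw [AdjoinRoot.lift_of, AdjoinRoot.lift_root, hX]
    have h2 := C2c_indep N (fun j => l (c j)) (fun j hj => ?_) h1
    · refine Finset.sum_eq_zero fun j _ => ?_
      have h3 : c j = 0 := by
        by_contra h4
        exact (hlo (c j) h4).1 (h2 j)
      rw [h3, map_zero, zero_mul]
    · have h3 : c j ≠ 0 := by
        intro h4
        apply hj
        simp [h4]
      have h5 := (hlo (c j) h3).2
      rwa [hD.deg] at h5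
  have : IsDomain (AdjoinRoot P) := haI.isDomain aI
  have ha : ∀ i, Function.Injective (a i) := by
    intro i
    rw [injective_iff_map_eq_zero]
    intro α hα
    by_contra hne
    have hfin : Module.Finite (Ss k) (AdjoinRoot P) := hPm.finite_adjoinRoot
    have hint : IsIntegral (Ss k) α := Algebra.IsIntegral.isIntegral α
    have h1 := Ideal.comap_ne_bot_of_integral_mem (I := RingHom.ker (a i)) hne
      ((RingHom.mem_ker).2 hα) hint
    apply h1
    rw [eq_bot_iff]
    intro r hr
    rw [Ideal.mem_comap, RingHom.mem_ker, AdjoinRoot.algebraMap_eq] at hr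
    have h2 : a i (AdjoinRoot.of P r) = (r : Fk k) := by
      show AdjoinRoot.lift (Ss k).subtype (ξ i) (hroot i) (AdjoinRoot.of P r) = _
      rw [AdjoinRoot.lift_of]
      rfl
    rw [h2] at hr
    rw [Ideal.mem_bot]
    exact Subtype.ext hr
  refine ⟨AdjoinRoot P, inferInstance, AdjoinRoot.of P, AdjoinRoot.root P, a, aI, ?_, ?_, ha, haI,
    ?_, ?_, hspan⟩
  · intro i s
    show AdjoinRoot.lift (Ss k).subtype (ξ i) (hroot i) (AdjoinRoot.of P s) = _
    rw [AdjoinRoot.lift_of]
    rfl
  · intro i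
    exact AdjoinRoot.lift_root _
  · exact AdjoinRoot.lift_root _
  · intro f h
    show AdjoinRoot.lift l (atInf (LaurentSeries k) X) hrootI (AdjoinRoot.of P _) = _
    rw [AdjoinRoot.lift_of]
    exact hl f h

end MP7b0bad

end

section

set_option autoImplicit false

namespace MP7b0bad

open Polynomial

theorem C2s_ofPS_nonneg {E : Type} [Field E] (v : PowerSeries E) (i : ℤ) (hi : i < 0) :
    (HahnSeries.ofPowerSeries ℤ E v).coeff i = 0 := by
  have h := PowerSeries.coeff_coe (R := E) v i
  rw [h, if_pos hi]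

theorem C2s_order_unit {E : Type} [Field E] (v : PowerSeries E) (hv : IsUnit v) :
    (HahnSeries.ofPowerSeries ℤ E v) ≠ 0 ∧ (HahnSeries.ofPowerSeries ℤ E v).order = 0 := by
  have h0 : PowerSeries.coeff 0 v ≠ 0 := by
    rw [PowerSeries.coeff_zero_eq_constantCoeff_apply]
    exact (PowerSeries.isUnit_iff_constantCoeff.1 hv).ne_zero
  have h1 : (HahnSeries.ofPowerSeries ℤ E v).coeff 0 ≠ 0 := by
    have := LaurentSeries.coeff_coe_powerSeries (R := E) v 0
    rw [Nat.cast_zero] at this
    rw [this]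
    exact h0
  have h2 : (HahnSeries.ofPowerSeries ℤ E v) ≠ 0 := by
    intro h
    rw [h] at h1
    exact h1 rfl
  refine ⟨h2, le_antisymm (HahnSeries.order_le_of_coeff_ne_zero h1) ?_⟩
  by_contra hlt
  push Not at hlt
  have h3 := C2s_ofPS_nonneg v _ hlt
  exact (HahnSeries.coeff_order_eq_zero.not.2 h2) h3

theorem C2s_order_of {E : Type} [Field E] (g : LaurentSeries E) (n : ℤ) (h1 : g.coeff n ≠ 0)
    (h2 : ∀ m : ℤ, m < n → g.coeff m = 0) : g.order = n := by
  have h0 : g ≠ 0 := by
    intro h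
    rw [h] at h1
    exact h1 rfl
  refine le_antisymm (HahnSeries.order_le_of_coeff_ne_zero h1) ?_
  by_contra hlt
  push Not at hlt
  exact (HahnSeries.coeff_order_eq_zero.not.2 h0) (h2 _ hlt)

theorem prf_C2s : C2s := by
  intro E _ g n hn hg1 hg2
  have hgo : g.order = n := C2s_order_of g n hg1 hg2
  have hg0 : g ≠ 0 := by
    intro h
    rw [h] at hg1
    exact hg1 rfl
  -- the power series
  have hps : HahnSeries.ofPowerSeries ℤ E (PowerSeries.mk fun i => g.coeff (i : ℤ)) = g := by
    ext m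
    have h := PowerSeries.coeff_coe (R := E) (PowerSeries.mk fun i => g.coeff (i : ℤ)) m
    rw [h]
    split_ifs with hm
    · exact (hg2 m (by omega)).symm
    · rw [PowerSeries.coeff_mk, Int.natAbs_of_nonneg (by omega)]
  have hs : PowerSeries.HasSubst (PowerSeries.mk fun i => g.coeff (i : ℤ)) := by
    apply PowerSeries.HasSubst.of_constantCoeff_zero'
    rw [← PowerSeries.coeff_zero_eq_constantCoeff_apply, PowerSeries.coeff_mk]
    exact hg2 _ (by push_cast; omega)
  let f : PowerSeries E →+* LaurentSeries E :=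
    (HahnSeries.ofPowerSeries ℤ E).comp (PowerSeries.substAlgHom (R := E) hs).toRingHom
  have hfX : f PowerSeries.X = g := by
    change HahnSeries.ofPowerSeries ℤ E (PowerSeries.substAlgHom (R := E) hs PowerSeries.X) = g
    rw [PowerSeries.substAlgHom_X]
    exact hps
  have hfC : ∀ c : E, f (PowerSeries.C c) = HahnSeries.C c := by
    intro c
    change HahnSeries.ofPowerSeries ℤ E
      (PowerSeries.substAlgHom (R := E) hs (algebraMap E (PowerSeries E) c)) = _
    rw [AlgHom.commutes]
    exact HahnSeries.ofPowerSeries_C c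
  have hfu : ∀ y : Submonoid.powers (PowerSeries.X : PowerSeries E), IsUnit (f y) := by
    rintro ⟨y, k, rfl⟩
    rw [isUnit_iff_ne_zero]
    change f (PowerSeries.X ^ k) ≠ 0
    rw [map_pow, hfX]
    exact pow_ne_zero _ hg0
  let σ : LaurentSeries E →+* LaurentSeries E := IsLocalization.lift hfu
  have hσ : ∀ v : PowerSeries E, σ (HahnSeries.ofPowerSeries ℤ E v) = f v := fun v =>
    IsLocalization.lift_eq hfu v
  have hσX : σ (HahnSeries.single (1 : ℤ) (1 : E)) = g := by
    rw [← HahnSeries.ofPowerSeries_X, hσ, hfX]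
  refine ⟨σ, ?_, hσX, ?_⟩
  · intro c
    rw [← HahnSeries.ofPowerSeries_C (Γ := ℤ) c, hσ, hfC, HahnSeries.ofPowerSeries_C]
  · intro a ha
    have hu : IsUnit a.powerSeriesPart := by
      rw [PowerSeries.isUnit_iff_constantCoeff, isUnit_iff_ne_zero,
        ← PowerSeries.coeff_zero_eq_constantCoeff_apply, LaurentSeries.powerSeriesPart_coeff]
      simp only [Nat.cast_zero, add_zero]
      exact HahnSeries.coeff_order_eq_zero.not.2 ha
    have h1 : σ (HahnSeries.ofPowerSeries ℤ E a.powerSeriesPart) ≠ 0 ∧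
        (σ (HahnSeries.ofPowerSeries ℤ E a.powerSeriesPart)).order = 0 := by
      rw [hσ]
      exact C2s_order_unit _ (hu.map (PowerSeries.substAlgHom (R := E) hs).toRingHom)
    have h2 := LaurentSeries.single_order_mul_powerSeriesPart a
    have hσa : σ a ≠ 0 := by
      rw [map_ne_zero_iff σ σ.injective]
      exact ha
    refine ⟨hσa, ?_⟩
    have hgk : ∀ k : ℕ, (g ^ k).order = k * (n : ℤ) := by
      intro k
      rw [HahnSeries.order_pow, hgo, nsmul_eq_mul]
    rcases le_or_gt 0 a.order with h3 | h3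
    · obtain ⟨k, hk⟩ := Int.eq_ofNat_of_zero_le h3
      have h4 : a = HahnSeries.single (1 : ℤ) (1 : E) ^ k *
          HahnSeries.ofPowerSeries ℤ E a.powerSeriesPart := by
        rw [← RatFunc.single_one_eq_pow, ← hk]
        exact h2.symm
      have h5 : σ a = g ^ k * σ (HahnSeries.ofPowerSeries ℤ E a.powerSeriesPart) := by
        conv_lhs => rw [h4]
        rw [map_mul, map_pow, hσX]
      rw [h5, HahnSeries.order_mul (pow_ne_zero _ hg0) h1.1, h1.2, hgk, hk]
      ring
    · obtain ⟨k, hk⟩ := Int.eq_ofNat_of_zero_le (show 0 ≤ -a.order by omega)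
      have h4 : a * HahnSeries.single (1 : ℤ) (1 : E) ^ k =
          HahnSeries.ofPowerSeries ℤ E a.powerSeriesPart := by
        rw [← RatFunc.single_one_eq_pow, ← hk]
        conv_lhs => rw [← h2]
        rw [mul_comm, ← mul_assoc, HahnSeries.single_mul_single]
        simp
      have h5 : σ a * g ^ k = σ (HahnSeries.ofPowerSeries ℤ E a.powerSeriesPart) := by
        rw [← h4, map_mul, map_pow, hσX]
      have h6 := h1.2
      rw [← h5, HahnSeries.order_mul hσa (pow_ne_zero _ hg0), hgk] at h6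
      have h7 : a.order = -(k : ℤ) := by omega
      rw [h7]
      linarith

end MP7b0bad

end

section

set_option autoImplicit false

namespace MP7b0bad

open Polynomial

/-- The candidates for the basis vectors. -/
noncomputable def C3_E (k : Type) [Field k] (p M N : ℕ) (ξ : Fin N → Fk k) (jl : Fin N × Fin p) :
    Fin N → Qk k p M :=
  fun i => oQ k p M (ξ i) ^ (jl.1 : ℕ) * asRoot p (XX k ^ M) ^ (jl.2 : ℕ)

/-- Linear combinations of the candidates. -/
noncomputable def C3_L (k : Type) [Field k] (p M N : ℕ) (ξ : Fin N → Fk k) :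
    (Fin N × Fin p → Fk k) →ₗ[Fk k] (Fin N → Qk k p M) :=
  Fintype.linearCombination (Fk k) (C3_E k p M N ξ)

theorem C3_L_apply (k : Type) [Field k] (p M N : ℕ) (ξ : Fin N → Fk k)
    (c : Fin N × Fin p → Fk k) (i : Fin N) :
    C3_L k p M N ξ c i = ∑ j, ∑ l, oQ k p M (c (j, l)) * oQ k p M (ξ i) ^ (j : ℕ) *
      asRoot p (XX k ^ M) ^ (l : ℕ) := by
  unfold C3_L
  rw [Fintype.linearCombination_apply, Finset.sum_apply, Fintype.sum_prod_type]
  refine Finset.sum_congr rfl fun j _ => Finset.sum_congr rfl fun l _ => ?_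
  rw [Pi.smul_apply]
  have h2 : ∀ (r : Fk k) (q : Qk k p M), r • q = oQ k p M r * q := fun r q => Algebra.smul_def r q
  rw [h2, C3_E, mul_assoc]

theorem C3_L_apply' (k : Type) [Field k] (p M N : ℕ) (ξ : Fin N → Fk k)
    (c : Fin N × Fin p → Fk k) (i : Fin N) :
    C3_L k p M N ξ c i = ∑ l, oQ k p M (∑ j, c (j, l) * ξ i ^ (j : ℕ)) *
      asRoot p (XX k ^ M) ^ (l : ℕ) := by
  rw [C3_L_apply, Finset.sum_comm]
  refine Finset.sum_congr rfl fun l _ => ?_
  rw [map_sum, Finset.sum_mul]
  refine Finset.sum_congr rfl fun j _ => ?_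
  rw [map_mul, map_pow]

theorem C3_bij (hB4 : B4) (hC2a : C2a) (k : Type) [Field k] (p : ℕ) [Fact p.Prime] (M N : ℕ)
    (W : k[X]) (ξ : Fin N → Fk k) (hD : Discs k N W ξ) :
    Function.Bijective (C3_L k p M N ξ) := by
  obtain ⟨h1, -⟩ := hC2a k N W ξ hD
  have h4 := hB4 (Fk k) p (XX k ^ M)
  constructor
  · intro c c' hcc
    have h5 : ∀ i l, ∑ j, c (j, l) * ξ i ^ (j : ℕ) = ∑ j, c' (j, l) * ξ i ^ (j : ℕ) := by
      intro i l
      have h6 := (h4 (C3_L k p M N ξ c i)).unique (C3_L_apply' k p M N ξ c i)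
        (by rw [hcc]; exact C3_L_apply' k p M N ξ c' i)
      exact congrFun h6 l
    funext ⟨j, l⟩
    have h7 := (h1 fun i => ∑ j, c (j, l) * ξ i ^ (j : ℕ)).unique (y₁ := fun j => c (j, l))
      (y₂ := fun j => c' (j, l)) (fun i => rfl) (fun i => h5 i l)
    exact congrFun h7 j
  · intro v
    choose b hb _ using fun i => h4 (v i)
    choose c hc _ using fun l => h1 fun i => b i l
    refine ⟨fun jl => c jl.2 jl.1, ?_⟩
    funext i
    rw [C3_L_apply', hb i]
    refine Finset.sum_congr rfl fun l _ => ?_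
    rw [hc l i]

theorem prf_C3 (hB4 : B4) (hC2a : C2a) : C3 := by
  intro k _ p _ _ M N W ξ hD D
  have hbij := C3_bij hB4 hC2a k p M N W ξ hD
  set Le := LinearEquiv.ofBijective (C3_L k p M N ξ) hbij with hLe
  refine ⟨Module.Basis.ofEquivFun Le.symm, ?_⟩
  intro v
  have hrepr : ∀ jl, (Module.Basis.ofEquivFun Le.symm).repr v jl = Le.symm v jl := fun jl => by
    rw [Module.Basis.ofEquivFun_repr_apply]
  have ha : ∀ (i : Fin N) (c : Fin N → Fin p → Ss k),
      D.a i (∑ j, ∑ l, D.ofS (c j l) * D.x ^ (j : ℕ) * D.y ^ (l : ℕ)) =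
        C3_L k p M N ξ (fun jl => (c jl.1 jl.2 : Fk k)) i := by
    intro i c
    rw [C3_L_apply, map_sum]
    refine Finset.sum_congr rfl fun j _ => ?_
    rw [map_sum]
    refine Finset.sum_congr rfl fun l _ => ?_
    rw [map_mul, map_mul, map_pow, map_pow, D.a_ofS, D.a_x, D.a_y]
  constructor
  · rintro ⟨α, hα⟩ jl
    obtain ⟨c, hc⟩ := D.span α
    have h1 : Le (fun jl => (c jl.1 jl.2 : Fk k)) = v := by
      funext i
      rw [hLe, LinearEquiv.ofBijective_apply, ← ha i c, ← hc, hα i]
    rw [hrepr, ← h1, LinearEquiv.symm_apply_apply]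
    exact (c jl.1 jl.2).2
  · intro h
    refine ⟨∑ j, ∑ l, D.ofS ⟨Le.symm v (j, l), by rw [← hrepr]; exact h _⟩ * D.x ^ (j : ℕ) *
      D.y ^ (l : ℕ), fun i => ?_⟩
    rw [ha i]
    have h1 : Le (Le.symm v) i = v i := by rw [LinearEquiv.apply_symm_apply]
    rw [hLe, LinearEquiv.ofBijective_apply, ← hLe] at h1
    exact h1

end MP7b0bad

end

section

set_option autoImplicit false

namespace MP7b0bad

/-- functions of the form `γ ↦ ∑ r_m ι(γ⁻¹ b_m)` with a finite index type -/
def D1_P {k : Type} [Field k] {p M : ℕ} {H : Type} [Group H] {t : H}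
    (c : BaseCover k p M H t) (u : H → Qk k p M) : Prop :=
  ∃ (I : Type) (_ : Fintype I) (r : I → Fk k) (b : I → c.B), (∀ m, r m ∈ Rr k) ∧
    ∀ γ : H, u γ = ∑ m, oQ k p M (r m) * c.ι (γ⁻¹ • b m)

theorem D1_P_of_mem {k : Type} [Field k] {p M : ℕ} {H : Type} [Group H] {t : H}
    (c : BaseCover k p M H t) (u : H → Qk k p M) (hu : u ∈ RM c) : D1_P c u := by
  unfold RM at hu
  induction hu using Subring.closure_induction with
  | mem x hx =>
    rcases hx with ⟨r, hr, rfl⟩ | ⟨b, rfl⟩
    · refine ⟨Unit, inferInstance, fun _ => r, fun _ => 1, fun _ => hr, fun γ => ?_⟩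
      simp [smul_one]
    · refine ⟨Unit, inferInstance, fun _ => 1, fun _ => b, fun _ => (Rr k).one_mem, fun γ => ?_⟩
      simp [hat]
  | zero =>
    refine ⟨Empty, inferInstance, fun x => x.elim, fun x => x.elim, fun x => x.elim, fun γ => ?_⟩
    simp
  | one =>
    refine ⟨Unit, inferInstance, fun _ => 1, fun _ => 1, fun _ => (Rr k).one_mem, fun γ => ?_⟩
    simp [smul_one]
  | add x y _ _ hx hy =>
    obtain ⟨I, _, r, b, h1, h2⟩ := hx
    obtain ⟨J, _, s, d, h3, h4⟩ := hy
    refine ⟨I ⊕ J, inferInstance, Sum.elim r s, Sum.elim b d, ?_, fun γ => ?_⟩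
    · rintro (m | m)
      · exact h1 m
      · exact h3 m
    · rw [Pi.add_apply, h2, h4, Fintype.sum_sum_type]
      rfl
  | neg x _ hx =>
    obtain ⟨I, _, r, b, h1, h2⟩ := hx
    refine ⟨I, inferInstance, fun m => - r m, b, fun m => (Rr k).neg_mem (h1 m), fun γ => ?_⟩
    rw [Pi.neg_apply, h2, ← Finset.sum_neg_distrib]
    refine Finset.sum_congr rfl fun m _ => ?_
    rw [map_neg, neg_mul]
  | mul x y _ _ hx hy =>
    obtain ⟨I, _, r, b, h1, h2⟩ := hx
    obtain ⟨J, _, s, d, h3, h4⟩ := hy
    refine ⟨I × J, inferInstance, fun m => r m.1 * s m.2, fun m => b m.1 * d m.2,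
      fun m => (Rr k).mul_mem (h1 m.1) (h3 m.2), fun γ => ?_⟩
    rw [Pi.mul_apply, h2, h4, Finset.sum_mul_sum, Fintype.sum_prod_type]
    refine Finset.sum_congr rfl fun i _ => Finset.sum_congr rfl fun j _ => ?_
    rw [map_mul, smul_mul', map_mul]
    ring

theorem D1_mem_of_P {k : Type} [Field k] {p M : ℕ} {H : Type} [Group H] {t : H}
    (c : BaseCover k p M H t) (u : H → Qk k p M) (hu : D1_P c u) : u ∈ RM c := by
  obtain ⟨I, _, r, b, h1, h2⟩ := hu
  have : u = ∑ m, (fun _ => oQ k p M (r m)) * hat c (b m) := by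
    funext γ
    rw [h2, Finset.sum_apply]
    rfl
  rw [this]
  refine Subring.sum_mem _ fun m _ => Subring.mul_mem _ ?_ ?_
  · exact Subring.subset_closure (Or.inl ⟨r m, h1 m, rfl⟩)
  · exact Subring.subset_closure (Or.inr ⟨b m, rfl⟩)

theorem prf_D1 : D1 := by
  intro k _ p M H _ t c u
  constructor
  · intro hu
    obtain ⟨I, _, r, b, h1, h2⟩ := D1_P_of_mem c u hu
    refine ⟨Fintype.card I, fun m => r ((Fintype.equivFin I).symm m),
      fun m => b ((Fintype.equivFin I).symm m), fun m => h1 _, fun γ => ?_⟩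
    rw [h2]
    exact (Equiv.sum_comp (Fintype.equivFin I).symm
      (fun m => oQ k p M (r m) * c.ι (γ⁻¹ • b m))).symm
  · rintro ⟨n, r, b, h1, h2⟩
    exact D1_mem_of_P c u ⟨Fin n, inferInstance, r, b, h1, h2⟩

end MP7b0bad

end

section

set_option autoImplicit false

namespace MP7b0bad

theorem prf_D1b (hD1 : D1) : D1b := by
  intro k _ p M H _ t c u hu
  obtain ⟨n, r, b, hr, hb⟩ := (hD1 k p M H t c u).1 hu
  constructor
  · intro γ
    rw [hb, hb, map_sum]
    refine Finset.sum_congr rfl fun m _ => ?_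
    rw [map_mul, ← c.ι_t, smul_smul, mul_inv_rev, mul_inv_cancel_left]
    congr 1
    exact asShift_of _ _ _
  · intro δ
    refine (hD1 k p M H t c _).2 ⟨n, r, fun m => δ⁻¹ • b m, hr, fun γ => ?_⟩
    rw [hb]
    refine Finset.sum_congr rfl fun m _ => ?_
    rw [smul_smul, mul_inv_rev]

end MP7b0bad

end

section

set_option autoImplicit false

namespace MP7b0bad

open Polynomial

theorem D2_kF_mem (k : Type) [Field k] (c : k) : kF k c ∈ Rr k := by
  intro j i hi
  change ((HahnSeries.C (HahnSeries.C c : LaurentSeries k) : Fk k).coeff j).coeff i = 0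
  rw [HahnSeries.C_apply (HahnSeries.C c : LaurentSeries k), HahnSeries.coeff_single]
  split_ifs
  · rw [HahnSeries.C_apply, HahnSeries.coeff_single, if_neg (by omega)]
  · simp

theorem D2_XX_mem (k : Type) [Field k] : XX k ∈ Rr k := by
  have hW : Ww k ∈ Rr k := by
    intro j i hi
    unfold Ww
    rw [HahnSeries.C_apply, HahnSeries.coeff_single]
    split_ifs
    · rw [HahnSeries.coeff_single, if_neg (by omega)]
    · simp
  have hT : (Tt k)⁻¹ ∈ Rr k := by
    have h : (Tt k)⁻¹ = HahnSeries.single (-1 : ℤ) (1 : LaurentSeries k) := by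
      rw [Tt, HahnSeries.inv_single]
      simp
    rw [h]
    intro j i hi
    rw [HahnSeries.coeff_single]
    split_ifs
    · rw [HahnSeries.coeff_one, if_neg (by omega)]
    · simp
  exact (Rr k).mul_mem hW hT

theorem D2_toX_mem (k : Type) [Field k] (a : k[X]) : toX k a ∈ Rr k := by
  change eval₂ (kF k) (XX k) a ∈ Rr k
  rw [eval₂_eq_sum, Polynomial.sum]
  exact Subring.sum_mem _ fun n _ =>
    (Rr k).mul_mem (D2_kF_mem k _) ((Rr k).pow_mem (D2_XX_mem k) n)

theorem D2_charP (k : Type) [Field k] (p : ℕ) [CharP k p] : CharP (Fk k) p :=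
  charP_of_injective_ringHom (kF k).injective p

theorem D2_oQ_inj (k : Type) [Field k] (p : ℕ) [Fact p.Prime] (M : ℕ) :
    Function.Injective (oQ k p M) := by
  apply AdjoinRoot.of.injective_of_degree_ne_zero
  have hp : 1 < p := (Fact.out : p.Prime).one_lt
  have h1 : (asPoly p (XX k ^ M)) = X ^ p - (X + C (XX k ^ M)) := by
    unfold asPoly
    ring
  have h2 : (X + C (XX k ^ M)).degree < (X ^ p : (Fk k)[X]).degree := by
    rw [degree_X_pow, degree_X_add_C]
    exact_mod_cast hp
  rw [h1, degree_sub_eq_left_of_degree_lt h2, degree_X_pow]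
  have : p ≠ 0 := by omega
  exact_mod_cast this

section

variable {k : Type} [Field k] {p M : ℕ} {H : Type} [Group H] {t : H}

theorem D2_smul (c : BaseCover k p M H t) (γ : H) (a : k[X]) (b : c.B) :
    c.ι (γ • (a • b)) = oQ k p M (toX k a) * c.ι (γ • b) := by
  rw [Algebra.smul_def, smul_mul', c.comm, map_mul, c.ι_alg]

theorem D2_sum (c : BaseCover k p M H t) {n : ℕ} (β : Module.Basis (Fin n) k[X] c.B) (γ : H)
    (b : c.B) :
    c.ι (γ • b) = ∑ l, oQ k p M (toX k (β.repr b l)) * c.ι (γ • β l) := by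
  conv_lhs => rw [← β.sum_repr b]
  rw [Finset.smul_sum, map_sum]
  exact Finset.sum_congr rfl fun l _ => D2_smul c γ _ _

end

open Classical in
theorem prf_D2 (hB2 : B2) (hD1 : D1) (hE2 : E2) : D2 := by
  intro k _ p _ _ M H _ _ t c hM hord
  have hcp := D2_charP k p
  have hdom := c.dom
  have hfin := c.fin
  have := Fintype.ofFinite H
  have htf : Module.IsTorsionFree k[X] c.B :=
    Module.isTorsionFree_iff_algebraMap_injective.2 c.inj
  obtain ⟨n, β⟩ := Module.basisOfFiniteTypeTorsionFree' (R := k[X]) (M := c.B)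
  obtain ⟨N, x, y, hxy⟩ := hE2 H c.B c.unr
  -- traces
  have htr : ∀ b : c.B, ∃ a : k[X], algebraMap k[X] c.B a = ∑ γ : H, γ • b := by
    intro b
    refine c.inv _ fun g => ?_
    rw [Finset.smul_sum]
    simp only [smul_smul]
    exact Equiv.sum_comp (Equiv.mulLeft g) fun γ => γ • b
  choose Tr hTr using htr
  have hinj := D2_oQ_inj k p M
  -- reproducing formula
  have hrep : ∀ b : c.B, b = ∑ m, Tr (b * y m) • x m := by
    intro b
    simp only [Algebra.smul_def, hTr]
    have h1 : ∀ m, (∑ γ : H, γ • (b * y m)) * x m = ∑ γ : H, (γ • b) * (x m * (γ • y m)) := by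
      intro m
      rw [Finset.sum_mul]
      refine Finset.sum_congr rfl fun γ _ => ?_
      rw [smul_mul']
      ring
    simp only [h1]
    rw [Finset.sum_comm]
    simp only [← Finset.mul_sum, hxy]
    simp
  -- uniqueness
  have hU : ∀ r : Fin n → Fk k, (∀ γ : H, ∑ l, oQ k p M (r l) * c.ι (γ⁻¹ • β l) = 0) →
      ∀ l, r l = 0 := by
    intro r hr q
    have h1 : ∀ m, ∑ l, r l * toX k (Tr (β l * y m)) = 0 := by
      intro m
      apply hinj
      rw [map_zero, map_sum]
      have h2 : ∑ γ : H, (∑ l, oQ k p M (r l) * c.ι (γ⁻¹ • β l)) * c.ι (γ⁻¹ • y m) = 0 := by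
        refine Finset.sum_eq_zero fun γ _ => ?_
        rw [hr γ, zero_mul]
      rw [← h2]
      simp only [Finset.sum_mul]
      rw [Finset.sum_comm]
      refine Finset.sum_congr rfl fun l _ => ?_
      rw [map_mul, ← c.ι_alg, hTr, map_sum, Finset.mul_sum]
      refine (Equiv.sum_comp (Equiv.inv H) fun γ =>
        oQ k p M (r l) * c.ι (γ • (β l * y m))).symm.trans ?_
      refine Finset.sum_congr rfl fun γ _ => ?_
      rw [Equiv.inv_apply, smul_mul', map_mul, mul_assoc]
    have h3 : ∀ l, ∑ m, Tr (β l * y m) * β.repr (x m) q = if l = q then 1 else 0 := by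
      intro l
      have h4 := congrArg (fun b => β.repr b q) (hrep (β l))
      simp only [map_sum, map_smul, Module.Basis.repr_self, Finsupp.coe_finsetSum,
        Finset.sum_apply, Finsupp.smul_apply, smul_eq_mul, Finsupp.single_apply] at h4
      rw [← h4]
    have h5 : ∑ m, toX k (β.repr (x m) q) * ∑ l, r l * toX k (Tr (β l * y m)) = 0 := by
      refine Finset.sum_eq_zero fun m _ => ?_
      rw [h1 m, mul_zero]
    have h6 : ∑ m, toX k (β.repr (x m) q) * ∑ l, r l * toX k (Tr (β l * y m)) =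
        ∑ l, r l * toX k (∑ m, Tr (β l * y m) * β.repr (x m) q) := by
      simp only [Finset.mul_sum, map_sum, map_mul]
      rw [Finset.sum_comm]
      refine Finset.sum_congr rfl fun l _ => Finset.sum_congr rfl fun m _ => ?_
      ring
    rw [h6] at h5
    simp only [h3] at h5
    rw [Finset.sum_eq_single q] at h5
    · simpa using h5
    · intro l _ hl
      rw [if_neg hl, map_zero, mul_zero]
    · intro h
      exact absurd (Finset.mem_univ q) h
  -- uniqueness of coordinates
  have hU' : ∀ r r' : Fin n → Fk k, (∀ γ : H, ∑ l, oQ k p M (r l) * c.ι (γ⁻¹ • β l) =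
      ∑ l, oQ k p M (r' l) * c.ι (γ⁻¹ • β l)) → r = r' := by
    intro r r' h
    funext l
    have := hU (fun l => r l - r' l) (fun γ => by
      simp only [map_sub, sub_mul, Finset.sum_sub_distrib]
      rw [h γ, sub_self]) l
    exact sub_eq_zero.1 this
  refine ⟨n, β, ?_, ?_⟩
  · intro u hu
    -- the coefficients
    have hcm : ∀ m, ∃ r : Fk k, oQ k p M r = ∑ γ : H, u γ * c.ι (γ⁻¹ • y m) := by
      intro m
      refine hB2 (Fk k) p (XX k ^ M) _ ?_
      change tQ k p M _ = _
      rw [map_sum]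
      have h1 : ∀ γ : H, tQ k p M (u γ * c.ι (γ⁻¹ • y m)) =
          tQ k p M (u γ) * c.ι ((γ * t⁻¹)⁻¹ • y m) := by
        intro γ
        rw [map_mul, ← c.ι_t, smul_smul, mul_inv_rev, inv_inv]
      simp only [h1]
      refine (Equiv.sum_comp (Equiv.mulRight t) fun γ =>
        tQ k p M (u γ) * c.ι ((γ * t⁻¹)⁻¹ • y m)).symm.trans ?_
      refine Finset.sum_congr rfl fun γ _ => ?_
      rw [Equiv.coe_mulRight, hu γ, mul_inv_cancel_right]
    choose r' hr' using hcm
    have hex : ∀ γ, u γ = ∑ l, oQ k p M (∑ m, r' m * toX k (β.repr (x m) l)) *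
        c.ι (γ⁻¹ • β l) := by
      intro γ
      have h1 : ∑ l, oQ k p M (∑ m, r' m * toX k (β.repr (x m) l)) * c.ι (γ⁻¹ • β l) =
          ∑ m, oQ k p M (r' m) * c.ι (γ⁻¹ • x m) := by
        simp only [D2_sum c β γ⁻¹ (x _), map_sum, map_mul, Finset.sum_mul, Finset.mul_sum]
        rw [Finset.sum_comm]
        refine Finset.sum_congr rfl fun m _ => Finset.sum_congr rfl fun l _ => ?_
        ring
      rw [h1]
      simp only [hr', Finset.sum_mul]
      rw [Finset.sum_comm]
      have h2 : ∀ δ : H, ∑ m, u δ * c.ι (δ⁻¹ • y m) * c.ι (γ⁻¹ • x m) =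
          u δ * c.ι (γ⁻¹ • (if γ * δ⁻¹ = 1 then (1 : c.B) else 0)) := by
        intro δ
        rw [← hxy (γ * δ⁻¹), Finset.smul_sum, map_sum, Finset.mul_sum]
        refine Finset.sum_congr rfl fun m _ => ?_
        rw [smul_mul', smul_smul, map_mul, ← mul_assoc γ⁻¹, inv_mul_cancel, one_mul]
        ring
      simp only [h2]
      rw [Finset.sum_eq_single γ]
      · rw [mul_inv_cancel, if_pos rfl, smul_one, map_one, mul_one]
      · intro δ _ hδ
        rw [if_neg, smul_zero, map_zero, mul_zero]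
        intro h
        exact hδ (mul_inv_eq_one.1 h).symm
      · intro h
        exact absurd (Finset.mem_univ γ) h
    refine ⟨fun l => ∑ m, r' m * toX k (β.repr (x m) l), hex, ?_⟩
    intro s hs
    exact hU' _ _ fun γ => (hs γ).symm.trans (hex γ)
  · intro r
    constructor
    · intro h
      obtain ⟨m', s, b, hs, hb⟩ := (hD1 k p M H t c _).1 h
      have h1 : r = fun l => ∑ m, s m * toX k (β.repr (b m) l) := by
        refine hU' _ _ fun γ => ?_
        rw [hb γ]
        simp only [D2_sum c β γ⁻¹ (b _), map_sum, map_mul, Finset.sum_mul, Finset.mul_sum]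
        rw [Finset.sum_comm]
        refine Finset.sum_congr rfl fun m _ => Finset.sum_congr rfl fun l _ => ?_
        ring
      intro l
      rw [h1]
      exact Subring.sum_mem _ fun m _ => (Rr k).mul_mem (hs m) (D2_toX_mem k _)
    · intro h
      exact (hD1 k p M H t c _).2 ⟨n, r, β, h, fun γ => rfl⟩

end MP7b0bad

end

section

set_option autoImplicit false

namespace MP7b0bad

open Polynomial

/-- multiplication matrices in a ring which is the image of `B ⊗ R` -/
theorem D3_mul {P B R A I : Type} [CommRing P] [CommRing B] [Algebra P B] [CommRing R]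
    [CommRing A] [Fintype I] (β : Module.Basis I P B) (τ : P →+* R) (φ : R →+* A) (ι : B →+* A)
    (h : ∀ a, ι (algebraMap P B a) = φ (τ a)) (r : I → R) (q : I) :
    (∑ l, φ (r l) * ι (β l)) * ι (β q) =
      ∑ s, φ (∑ l, r l * τ (β.repr (β l * β q) s)) * ι (β s) := by
  have h1 : ∀ l, ι (β l) * ι (β q) = ∑ s, φ (τ (β.repr (β l * β q) s)) * ι (β s) := by
    intro l
    rw [← map_mul]
    conv_lhs => rw [← β.sum_repr (β l * β q)]
    rw [map_sum]
    refine Finset.sum_congr rfl fun s _ => ?_
    rw [Algebra.smul_def, map_mul, h]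
  rw [Finset.sum_mul]
  have h2 : ∀ l, φ (r l) * ι (β l) * ι (β q) =
      ∑ s, φ (r l * τ (β.repr (β l * β q) s)) * ι (β s) := by
    intro l
    rw [mul_assoc, h1, Finset.mul_sum]
    refine Finset.sum_congr rfl fun s _ => ?_
    rw [map_mul φ, mul_assoc]
  simp only [h2]
  rw [Finset.sum_comm]
  refine Finset.sum_congr rfl fun s _ => ?_
  rw [map_sum, Finset.sum_mul]

/-- the main argument: linear independence over `R` -/
theorem D3_indep {P B R Q L I : Type} [CommRing P] [CommRing B] [Algebra P B] [CommRing R]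
    [IsDomain R] [CommRing Q] [IsDomain Q] [CommRing L] [IsDomain L] [Fintype I]
    (β : Module.Basis I P B) (τ : P →+* R) (φ : R →+* Q) (ι : B →+* Q) (φ' : R →+* L)
    (ι' : B →+* L) (hφ : Function.Injective φ)
    (h : ∀ a, ι (algebraMap P B a) = φ (τ a)) (h' : ∀ a, ι' (algebraMap P B a) = φ' (τ a))
    (hinj : ∀ r : I → R, ∑ l, φ' (r l) * ι' (β l) = 0 → r = 0)
    (r : I → R) (hr : ∑ l, φ (r l) * ι (β l) = 0) : r = 0 := by
  classical
  set m : Matrix I I R := fun s q => ∑ l, r l * τ (β.repr (β l * β q) s) with hm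
  have h1 : m.det = 0 := by
    have hne : (fun s => ι (β s)) ≠ 0 := by
      intro h0
      have : ι 1 = 0 := by
        rw [← β.sum_repr 1, map_sum]
        refine Finset.sum_eq_zero fun s _ => ?_
        rw [Algebra.smul_def, map_mul]
        have : ι (β s) = 0 := congrFun h0 s
        rw [this, mul_zero]
      rw [map_one] at this
      exact one_ne_zero this
    have h2 : (m.map φ).transpose.det = 0 := by
      refine Matrix.exists_mulVec_eq_zero_iff.1 ⟨_, hne, ?_⟩
      funext q
      have := D3_mul β τ φ ι h r q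
      rw [hr, zero_mul] at this
      rw [Matrix.mulVec, dotProduct, Pi.zero_apply, this]
      rfl
    rw [Matrix.det_transpose] at h2
    have h3 : φ m.det = 0 := by
      rw [RingHom.map_det]
      exact h2
    rwa [map_eq_zero_iff φ hφ] at h3
  obtain ⟨v, hv0, hv⟩ := Matrix.exists_mulVec_eq_zero_iff.2 h1
  have h4 : (∑ l, φ' (r l) * ι' (β l)) * (∑ q, φ' (v q) * ι' (β q)) = 0 := by
    rw [Finset.mul_sum]
    have h5 : ∀ q, (∑ l, φ' (r l) * ι' (β l)) * (φ' (v q) * ι' (β q)) =
        ∑ s, φ' (m s q * v q) * ι' (β s) := by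
      intro q
      have := D3_mul β τ φ' ι' h' r q
      have e : (∑ l, φ' (r l) * ι' (β l)) * (φ' (v q) * ι' (β q)) =
          φ' (v q) * ((∑ l, φ' (r l) * ι' (β l)) * ι' (β q)) := by ring
      rw [e, this, Finset.mul_sum]
      refine Finset.sum_congr rfl fun s _ => ?_
      rw [map_mul]
      ring
    simp only [h5]
    rw [Finset.sum_comm]
    refine Finset.sum_eq_zero fun s _ => ?_
    rw [← Finset.sum_mul, ← map_sum]
    have : ∑ q, m s q * v q = 0 := congrFun hv s
    rw [this, map_zero, zero_mul]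
  rcases mul_eq_zero.1 h4 with h6 | h6
  · exact hinj r h6
  · exact absurd (hinj v h6) hv0

/-- the map of Laurent series induced by a map of the coefficients -/
noncomputable def D3_map {A B : Type} [CommRing A] [CommRing B] (f : A →+* B) :
    LaurentSeries A →+* LaurentSeries B where
  toFun a := a.map f
  map_one' := by
    ext n
    simp [HahnSeries.coeff_one, apply_ite f]
  map_mul' a b := HahnSeries.map_mul f.toNonUnitalRingHom
  map_zero' := by ext; simp
  map_add' a b := by ext; simp

theorem D3_map_coeff {A B : Type} [CommRing A] [CommRing B] (f : A →+* B) (a : LaurentSeries A)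
    (n : ℤ) : (D3_map f a).coeff n = f (a.coeff n) := rfl

theorem D3_coeff_C {A : Type} [CommRing A] (a : A) (n : ℤ) :
    (HahnSeries.C a : LaurentSeries A).coeff n = if n = 0 then a else 0 := by
  rw [HahnSeries.C_apply, HahnSeries.coeff_single]
  split_ifs <;> rfl

theorem D3_kF_mem (k : Type) [Field k] (c : k) : kF k c ∈ Rr k := by
  intro j i hi
  unfold kF
  rw [RingHom.comp_apply, D3_coeff_C]
  split_ifs
  · rw [D3_coeff_C, if_neg (by omega)]
  · simp

theorem D3_XX (k : Type) [Field k] :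
    XX k = HahnSeries.single (-1 : ℤ) (HahnSeries.single (1 : ℤ) (1 : k)) := by
  rw [XX, Ww, Tt, HahnSeries.inv_single, HahnSeries.C_apply, HahnSeries.single_mul_single]
  simp

theorem D3_XX_coeff (k : Type) [Field k] (j i : ℤ) :
    ((XX k).coeff j).coeff i = if j = -1 ∧ i = 1 then 1 else 0 := by
  rw [D3_XX, HahnSeries.coeff_single]
  by_cases h : j = -1
  · rw [if_pos h, HahnSeries.coeff_single]
    simp [h]
  · rw [if_neg h]
    simp [h]

theorem D3_XX_mem (k : Type) [Field k] : XX k ∈ Rr k := by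
  intro j i hi
  rw [D3_XX_coeff, if_neg (by omega)]

theorem D3_toX_mem (k : Type) [Field k] (a : k[X]) : toX k a ∈ Rr k := by
  induction a using Polynomial.induction_on' with
  | add a b ha hb => rw [map_add]; exact (Rr k).add_mem ha hb
  | monomial n c =>
    have : toX k (monomial n c) = kF k c * XX k ^ n := by
      unfold toX
      simp
    rw [this]
    exact (Rr k).mul_mem (D3_kF_mem k c) ((Rr k).pow_mem (D3_XX_mem k) n)

theorem D3_chi {k : Type} [Field k] (χ : Rr k →+* LaurentSeries k[X])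
    (hχ : ∀ (r : Rr k) (n : ℤ) (i : ℕ),
      ((χ r).coeff n).coeff i = ((r : Fk k).coeff (n - (i : ℤ))).coeff (i : ℤ)) (a : k[X]) :
    χ ((toX k).codRestrict (Rr k) (D3_toX_mem k) a) = HahnSeries.C a := by
  have : χ.comp ((toX k).codRestrict (Rr k) (D3_toX_mem k)) = HahnSeries.C := by
    refine Polynomial.ringHom_ext (fun c => ?_) ?_
    · ext n i
      rw [RingHom.comp_apply, hχ]
      have e : (((toX k).codRestrict (Rr k) (D3_toX_mem k) (C c) : Rr k) : Fk k) = kF k c := by
        simp [toX]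
      rw [e, kF, RingHom.comp_apply, D3_coeff_C, D3_coeff_C]
      by_cases h : i = 0
      · subst h
        by_cases hn : n = 0
        · subst hn
          simp
        · simp [hn]
      · by_cases hn : n = 0
        · subst hn
          rw [if_neg (by omega), if_pos rfl, Polynomial.coeff_C, if_neg h]
          simp
        · rw [if_neg hn]
          split_ifs with h2
          · rw [D3_coeff_C, if_neg (by omega)]
            simp
          · simp
    · ext n i
      rw [RingHom.comp_apply, hχ]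
      have e : (((toX k).codRestrict (Rr k) (D3_toX_mem k) X : Rr k) : Fk k) = XX k := by
        simp [toX]
      rw [e, D3_XX_coeff, D3_coeff_C]
      by_cases hn : n = 0
      · subst hn
        rw [if_pos rfl, Polynomial.coeff_X]
        by_cases h : i = 1
        · subst h
          simp
        · rw [if_neg (by omega), if_neg (by omega)]
      · rw [if_neg hn, if_neg (by omega)]
        simp
  exact RingHom.congr_fun this a

theorem D3_chi_inj {k : Type} [Field k] (χ : Rr k →+* LaurentSeries k[X])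
    (hχ : ∀ (r : Rr k) (n : ℤ) (i : ℕ),
      ((χ r).coeff n).coeff i = ((r : Fk k).coeff (n - (i : ℤ))).coeff (i : ℤ)) (r : Rr k)
    (h : χ r = 0) : r = 0 := by
  apply Subtype.ext
  ext j i
  by_cases hi : i < 0
  · rw [r.2 j i hi]
    simp
  · obtain ⟨i, rfl⟩ := Int.eq_ofNat_of_zero_le (not_lt.1 hi)
    have := hχ r (j + i) i
    rw [h] at this
    simp only [HahnSeries.coeff_zero, Polynomial.coeff_zero, add_sub_cancel_right] at this
    rw [← this]
    simp

theorem prf_D3 (hA3 : A3) (hB6 : B6) (hD1 : D1) (_ : D2) : D3 := by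
  intro k _ p _ _ M H _ _ t c hM ht u hu ⟨γ₀, hγ₀⟩
  obtain ⟨χ, hχ⟩ := hA3 k
  have hirr : Fact (Irreducible (asPoly p (XX k ^ M))) := ⟨hB6 k p M hM⟩
  have hdom : IsDomain (Qk k p M) := AdjoinRoot.isDomain_of_prime hirr.out.prime
  have := c.dom
  have := c.fin
  have htf : Module.IsTorsionFree k[X] c.B :=
    Module.isTorsionFree_iff_algebraMap_injective.2 c.inj
  have hfree : Module.Free k[X] c.B := Module.free_of_finite_type_torsion_free'
  obtain ⟨n, r, b, hr, hb⟩ := (hD1 k p M H t c u).1 hu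
  let β := Module.Free.chooseBasis k[X] c.B
  let g : c.B ≃ₗ[k[X]] c.B :=
    { toFun := fun x => γ₀⁻¹ • x
      invFun := fun x => γ₀ • x
      left_inv := fun x => by simp
      right_inv := fun x => by simp
      map_add' := fun x y => smul_add _ _ _
      map_smul' := fun a x => by
        rw [Algebra.smul_def, smul_mul', c.comm, RingHom.id_apply, Algebra.smul_def] }
  let β' := β.map g
  have hβ' : ∀ l, β' l = γ₀⁻¹ • β l := fun l => by
    simp only [β', Module.Basis.map_apply]
    rfl
  let τ : k[X] →+* Rr k := (toX k).codRestrict (Rr k) (D3_toX_mem k)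
  have hτ : ∀ a, ((τ a : Rr k) : Fk k) = toX k a := fun a => rfl
  -- the coordinates
  have key : ∀ γ : H, u γ = ∑ l, oQ k p M
      ((∑ m, (⟨r m, hr m⟩ : Rr k) * τ (β.repr (b m) l) : Rr k) : Fk k) * c.ι (γ⁻¹ • β l) := by
    intro γ
    rw [hb]
    have h1 : ∀ m, c.ι (γ⁻¹ • b m) =
        ∑ l, oQ k p M (toX k (β.repr (b m) l)) * c.ι (γ⁻¹ • β l) := by
      intro m
      conv_lhs => rw [← β.sum_repr (b m)]
      rw [Finset.smul_sum, map_sum]
      refine Finset.sum_congr rfl fun l _ => ?_
      rw [Algebra.smul_def, smul_mul', c.comm, map_mul, c.ι_alg]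
    have h2 : ∀ l, oQ k p M
        ((∑ m, (⟨r m, hr m⟩ : Rr k) * τ (β.repr (b m) l) : Rr k) : Fk k) * c.ι (γ⁻¹ • β l)
        = ∑ m, oQ k p M (r m) * (oQ k p M (toX k (β.repr (b m) l)) * c.ι (γ⁻¹ • β l)) := by
      intro l
      have e : ((∑ m, (⟨r m, hr m⟩ : Rr k) * τ (β.repr (b m) l) : Rr k) : Fk k)
          = ∑ m, r m * toX k (β.repr (b m) l) := by
        rw [AddSubmonoidClass.coe_finsetSum]
        rfl
      rw [e, map_sum, Finset.sum_mul]
      refine Finset.sum_congr rfl fun m _ => ?_
      rw [map_mul, mul_assoc]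
    simp only [h1, h2]
    rw [Finset.sum_comm]
    refine Finset.sum_congr rfl fun m _ => ?_
    rw [Finset.mul_sum]
  have hz := key γ₀
  rw [hγ₀] at hz
  have hzero := D3_indep (I := Module.Free.ChooseBasisIndex k[X] c.B) β' τ
    ((oQ k p M).comp (Rr k).subtype) c.ι
    ((D3_map (algebraMap k[X] c.B)).comp χ) (HahnSeries.C : c.B →+* LaurentSeries c.B)
    (by
      intro x y hxy
      apply Subtype.ext
      exact (oQ k p M).injective hxy)
    (fun a => c.ι_alg a)
    (fun a => by
      rw [RingHom.comp_apply, D3_chi χ hχ]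
      ext n
      rw [D3_map_coeff, D3_coeff_C, D3_coeff_C]
      split_ifs <;> simp)
    (by
      intro r hr
      funext l
      apply D3_chi_inj χ hχ
      refine HahnSeries.ext (funext fun n => ?_)
      have h1 : ∑ l, (χ (r l)).coeff n • β' l = 0 := by
        have h2 := congrArg (fun f : LaurentSeries c.B => f.coeff n) hr
        simp only [HahnSeries.coeff_sum, HahnSeries.coeff_zero] at h2
        rw [← h2]
        refine Finset.sum_congr rfl fun l _ => ?_
        rw [mul_comm, HahnSeries.C_mul_eq_smul, HahnSeries.coeff_smul, RingHom.comp_apply,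
          D3_map_coeff, Algebra.smul_def, smul_eq_mul, mul_comm]
      have h3 := Fintype.linearIndependent_iff.1 β'.linearIndependent _ h1 l
      rw [h3]
      simp)
    (fun l => ∑ m, (⟨r m, hr m⟩ : Rr k) * τ (β.repr (b m) l))
    (by
      rw [hz]
      refine Finset.sum_congr rfl fun l _ => ?_
      rw [hβ']
      rfl)
  funext γ
  rw [key γ]
  refine Finset.sum_eq_zero fun l _ => ?_
  have := congrFun hzero l
  simp only [Pi.zero_apply] at this
  rw [this]
  simp

end MP7b0bad

end

section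

set_option autoImplicit false

/-!
# D4: constants in `RM` (helper26)
-/

namespace MP7b0bad

open Polynomial

theorem D4_Tinv_mem (k : Type) [Field k] : (Tt k)⁻¹ ∈ Rr k := by
  have h : (Tt k)⁻¹ = HahnSeries.single (-1 : ℤ) (1 : LaurentSeries k) := by
    rw [Tt, HahnSeries.inv_single]
    simp
  rw [h]
  intro j i hi
  rw [HahnSeries.coeff_single]
  split_ifs
  · rw [HahnSeries.coeff_one, if_neg (by omega)]
  · simp

theorem D4_C_mem (k : Type) [Field k] (a : LaurentSeries k) (ha : ∀ i : ℤ, i < 0 → a.coeff i = 0) :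
    (HahnSeries.C a : Fk k) ∈ Rr k := by
  intro j i hi
  by_cases hj : j = 0
  · subst hj
    have : (HahnSeries.C a : Fk k).coeff 0 = a := by simp
    rw [this, ha i hi]
  · have : (HahnSeries.C a : Fk k).coeff j = 0 := by
      rw [HahnSeries.C_apply, HahnSeries.coeff_single_of_ne hj]
    rw [this]
    rfl

theorem D4_W_mem (k : Type) [Field k] : Ww k ∈ Rr k := by
  refine D4_C_mem k _ fun i hi => ?_
  rw [HahnSeries.coeff_single_of_ne (by omega)]

theorem D4_kF_mem (k : Type) [Field k] (a : k) : kF k a ∈ Rr k := by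
  refine D4_C_mem k _ fun i hi => ?_
  rw [HahnSeries.C_apply, HahnSeries.coeff_single_of_ne (by omega)]

theorem D4_toX_mem (k : Type) [Field k] (a : k[X]) : toX k a ∈ Rr k := by
  have hX : XX k ∈ Rr k := (Rr k).mul_mem (D4_W_mem k) (D4_Tinv_mem k)
  unfold toX
  rw [coe_eval₂RingHom, eval₂_eq_sum_range]
  exact (Rr k).sum_mem fun i _ => (Rr k).mul_mem (D4_kF_mem k _) ((Rr k).pow_mem hX _)

theorem D4_oQ_inj (k : Type) [Field k] (p M : ℕ) [Fact p.Prime] : Function.Injective (oQ k p M) := by
  have hp : 1 < p := (Fact.out : p.Prime).one_lt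
  have hd : (asPoly p (XX k ^ M)).degree ≠ 0 := by
    have h1 : (X + C (XX k ^ M) : (Fk k)[X]).degree < ((p : ℕ) : WithBot ℕ) := by
      rw [degree_X_add_C]
      exact_mod_cast hp
    have h2 : asPoly p (XX k ^ M) = X ^ p - (X + C (XX k ^ M)) := by
      unfold asPoly
      ring
    have h3 : (asPoly p (XX k ^ M)).degree = p := by
      rw [h2, degree_sub_eq_left_of_degree_lt, degree_X_pow]
      rw [degree_X_pow]
      exact h1
    rw [h3]
    intro h
    have : p = 0 := by exact_mod_cast h
    omega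
  have : Nontrivial (AdjoinRoot (asPoly p (XX k ^ M))) := AdjoinRoot.nontrivial _ hd
  exact RingHom.injective _

section

variable {k : Type} [Field k] {p M : ℕ} {H : Type} [Group H] [Finite H] {t : H}

/-- the sum over the group -/
noncomputable def D4_S (c : BaseCover k p M H t) (b : c.B) : c.B := ∑ᶠ γ : H, γ • b

theorem D4_S_eq [Fintype H] (c : BaseCover k p M H t) (b : c.B) : D4_S c b = ∑ γ : H, γ • b :=
  finsum_eq_sum_of_fintype _

theorem D4_tr (c : BaseCover k p M H t) (b : c.B) : ∃ a : k[X], algebraMap k[X] c.B a = D4_S c b := by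
  have := Fintype.ofFinite H
  refine c.inv _ fun g => ?_
  rw [D4_S_eq, Finset.smul_sum]
  simp_rw [← mul_smul]
  exact Fintype.sum_equiv (Equiv.mulLeft g) _ _ fun γ => rfl

theorem D4_smul (c : BaseCover k p M H t) (γ : H) (a : k[X]) (b : c.B) :
    γ • (a • b) = a • (γ • b) := by
  rw [Algebra.smul_def, Algebra.smul_def, smul_mul', c.comm]

/-- an element of trace `1` -/
theorem D4_theta (hE2 : E2) (c : BaseCover k p M H t) : ∃ θ : c.B, D4_S c θ = 1 := by
  classical
  have := Fintype.ofFinite H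
  obtain ⟨n, x, y, hxy⟩ := hE2 H c.B c.unr
  let I : Ideal k[X] :=
    { carrier := {a | ∃ b : c.B, algebraMap k[X] c.B a = D4_S c b}
      zero_mem' := ⟨0, by rw [D4_S_eq]; simp⟩
      add_mem' := by
        rintro a a' ⟨b, hb⟩ ⟨b', hb'⟩
        refine ⟨b + b', ?_⟩
        rw [map_add, hb, hb', D4_S_eq, D4_S_eq, D4_S_eq, ← Finset.sum_add_distrib]
        exact Finset.sum_congr rfl fun γ _ => (smul_add γ b b').symm
      smul_mem' := by
        rintro a a' ⟨b, hb⟩
        refine ⟨a • b, ?_⟩
        rw [smul_eq_mul, map_mul, hb, D4_S_eq, D4_S_eq, Finset.mul_sum]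
        refine Finset.sum_congr rfl fun γ _ => ?_
        rw [D4_smul, Algebra.smul_def] }
  have hfin : Module.Finite k[X] c.B := c.fin
  have hle : (⊤ : Submodule k[X] c.B) ≤ I • (⊤ : Submodule k[X] c.B) := by
    intro b _
    have hb : b = ∑ m, (Classical.choose (D4_tr c (b * y m))) • x m := by
      have h1 : ∀ m, (Classical.choose (D4_tr c (b * y m))) • x m =
          ∑ γ : H, (γ • b) * (x m * (γ • y m)) := by
        intro m
        rw [Algebra.smul_def, Classical.choose_spec (D4_tr c (b * y m)), D4_S_eq, Finset.sum_mul]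
        refine Finset.sum_congr rfl fun γ _ => ?_
        rw [smul_mul']
        ring
      simp_rw [h1]
      rw [Finset.sum_comm]
      simp_rw [← Finset.mul_sum, hxy]
      simp
    rw [hb]
    refine Submodule.sum_mem _ fun m _ => ?_
    exact Submodule.smul_mem_smul ⟨_, Classical.choose_spec (D4_tr c (b * y m))⟩ trivial
  obtain ⟨r, hr, hr0⟩ := Submodule.exists_sub_one_mem_and_smul_eq_zero_of_fg_of_le_smul I ⊤
    hfin.fg_top hle
  have h1 : algebraMap k[X] c.B r = 0 := by
    have := hr0 1 trivial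
    rwa [Algebra.smul_def, mul_one] at this
  have h2 : r = 0 := c.inj (by rw [h1, map_zero])
  rw [h2, zero_sub] at hr
  have h3 : (1 : k[X]) ∈ I := by
    have := I.neg_mem hr
    rwa [neg_neg] at this
  obtain ⟨θ, hθ⟩ := h3
  exact ⟨θ, by rw [← hθ, map_one]⟩

end

theorem prf_D4 (hD1 : D1) (_hD2 : D2) (_hD3 : D3) (hE2 : E2) : D4 := by
  classical
  intro k _ p _ _ M H _ _ t c _ _ x hx
  have := Fintype.ofFinite H
  obtain ⟨θ, hθ⟩ := D4_theta hE2 c
  have h1 : (fun _ => oQ k p M x) * hat c θ ∈ RM c :=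
    (RM c).mul_mem hx (Subring.subset_closure (Or.inr ⟨θ, rfl⟩))
  obtain ⟨n, r, b, hr, h2⟩ := (hD1 k p M H t c _).1 h1
  have hinv : ∀ b : c.B, ∑ γ : H, γ⁻¹ • b = D4_S c b := by
    intro b
    rw [D4_S_eq]
    exact Fintype.sum_equiv (Equiv.inv H) _ _ fun γ => rfl
  have h3 : oQ k p M x = ∑ m, oQ k p M (r m) * oQ k p M (toX k (Classical.choose (D4_tr c (b m)))) := by
    have e1 : ∑ γ : H, ((fun _ => oQ k p M x) * hat c θ : H → Qk k p M) γ = oQ k p M x := by
      have : ∀ γ : H, ((fun _ => oQ k p M x) * hat c θ : H → Qk k p M) γ =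
          oQ k p M x * c.ι (γ⁻¹ • θ) := fun γ => rfl
      simp_rw [this]
      rw [← Finset.mul_sum, ← map_sum, hinv, hθ, map_one, mul_one]
    rw [← e1]
    simp_rw [h2]
    rw [Finset.sum_comm]
    refine Finset.sum_congr rfl fun m _ => ?_
    rw [← Finset.mul_sum, ← map_sum, hinv, ← c.ι_alg, Classical.choose_spec (D4_tr c (b m))]
  simp_rw [← map_mul] at h3
  rw [← map_sum] at h3
  rw [D4_oQ_inj k p M h3]
  exact (Rr k).sum_mem fun m _ => (Rr k).mul_mem (hr m) (D4_toX_mem k _)

end MP7b0bad

end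

section

set_option autoImplicit false

/-!
# D5: certificate over `R`
-/

namespace MP7b0bad

open Polynomial

theorem D5_mem {k : Type} [Field k] {p M : ℕ} {H : Type} [Group H] {t : H}
    (c : BaseCover k p M H t) (b : c.B) : hat c b ∈ RM c :=
  Subring.subset_closure (Or.inr ⟨b, rfl⟩)

theorem prf_D5 : D5 := by
  intro k _ p M H _ t c σ hσ
  have h1 : (1 : c.B) ∈ Ideal.span {x : c.B | ∃ b : c.B, x = b - σ • b} := by
    rw [c.unr σ hσ]
    trivial
  obtain ⟨n, f, g, hfg⟩ := Submodule.mem_span_set'.mp h1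
  choose b hb using fun m : Fin n => (g m).2
  refine ⟨n, fun m => hat c (f m), fun m => hat c (b m),
    fun m => ⟨D5_mem c _, D5_mem c _⟩, fun γ => ?_⟩
  have h2 : ∀ m, hat c (f m) γ * (hat c (b m) γ - hat c (b m) (σ⁻¹ * γ)) =
      c.ι (γ⁻¹ • (f m * (g m : c.B))) := by
    intro m
    unfold hat
    rw [hb m, smul_mul', smul_sub, map_mul, map_sub, mul_inv_rev, inv_inv, mul_smul]
  simp only [h2]
  rw [← map_sum, ← Finset.smul_sum]
  have h3 : ∑ m, f m * (g m : c.B) = 1 := by
    rw [← hfg]
    rfl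
  rw [h3, smul_one, map_one]

end MP7b0bad

end

section

set_option autoImplicit false

namespace MP7b0bad

open Polynomial

theorem prf_E1 : E1 := by
  intro K _ G _ _ B _ _ _ _ hinj hcomm hfin hinv hfaith
  have h1 : FaithfulSMul K[X] B := (faithfulSMul_iff_algebraMap_injective _ _).2 hinj
  have h2 : IsGaloisGroup G K[X] B := by
    refine ⟨⟨fun {g g'} h => ?_⟩, ⟨fun g a b => ?_⟩, ⟨fun b h => ?_⟩⟩
    · by_contra hne
      obtain ⟨b, hb⟩ := hfaith (g'⁻¹ * g) (by
        intro h0
        exact hne (inv_mul_eq_one.1 h0).symm)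
      apply hb
      rw [mul_smul, h b, inv_smul_smul]
    · rw [Algebra.smul_def, Algebra.smul_def, smul_mul', hcomm]
    · exact hinv b h
  have h3 : Module.IsTorsionFree K[X] B := inferInstance
  exact ⟨Module.free_of_finite_type_torsion_free', (IsGaloisGroup.card_eq_finrank' G K[X] B).symm⟩

end MP7b0bad

end
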