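import Mathlib

/-! Bundle of small proof modules (one section per former module). -/

section

set_option autoImplicit false

namespace MP7b0bad

open Polynomial

/-! ## The property to be proved (exactly the existence statement in S00269) -/

/-- `G₀` is an inertia group over infinity of a `G`-Galois cover of the line over `k` that is
unramified outside infinity. -/
def Occurs (k : Type) [Field k] (G : Type) [Group G] (G₀ : Subgroup G) : Prop :=
  ∃ (L : Type) (_ : Field L) (_ : Algebra (RatFunc k) L),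
    FiniteDimensional (RatFunc k) L ∧ IsGalois (RatFunc k) L ∧
    ∃ φ : G ≃* (L ≃ₐ[RatFunc k] L),
      (∀ A : ValuationSubring L,
        (∀ c : k, algebraMap (RatFunc k) L (algebraMap k (RatFunc k) c) ∈ A) →
        algebraMap (RatFunc k) L RatFunc.X ∈ A →
        ValuationSubring.inertiaSubgroup (RatFunc k) A = ⊥) ∧
      ∃ A : ValuationSubring L,
        (∀ c : k, algebraMap (RatFunc k) L (algebraMap k (RatFunc k) c) ∈ A) ∧
        algebraMap (RatFunc k) L RatFunc.X ∉ A ∧
        (ValuationSubring.inertiaSubgroup (RatFunc k) A).map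
            (ValuationSubring.decompositionSubgroup (RatFunc k) A).subtype
          = G₀.map φ.toMonoidHom

/-! ## Artin-Schreier algebras -/

/-- `Y^p - Y - a` -/
noncomputable def asPoly {A : Type} [CommRing A] (p : ℕ) (a : A) : A[X] := X ^ p - X - C a

/-- `A[Y]/(Y^p - Y - a)` -/
abbrev AS {A : Type} [CommRing A] (p : ℕ) (a : A) : Type := AdjoinRoot (asPoly p a)

/-- the class of `Y` -/
noncomputable abbrev asRoot {A : Type} [CommRing A] (p : ℕ) (a : A) : AS p a :=
  AdjoinRoot.root (asPoly p a)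

open Classical in
/-- the automorphism `Y ↦ Y + 1` (the identity if this is not well defined) -/
noncomputable def asShift {A : Type} [CommRing A] (p : ℕ) (a : A) : AS p a →+* AS p a :=
  if h : (asPoly p a).eval₂ (AdjoinRoot.of (asPoly p a)) (asRoot p a + 1) = 0 then
    AdjoinRoot.lift (AdjoinRoot.of (asPoly p a)) (asRoot p a + 1) h
  else RingHom.id _

/-! ## Part III: certificates over `k` -/

/-- `j / x^d` is small at infinity: it is a root of a monic polynomial over `A(x)` all of whose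
other coefficients have negative degree. -/
def Small (A : Type) {B : Type} [CommRing A] [CommRing B] [Algebra A[X] B] (d : ℕ) (j : B) : Prop :=
  ∃ (n : ℕ) (c : Fin n → A[X]), 0 < n ∧ (∀ i : Fin n, (c i).degree < (((i : ℕ) + 1) * d : ℕ)) ∧
    j ^ n + ∑ i : Fin n, algebraMap A[X] B (c i) * j ^ (n - 1 - (i : ℕ)) = 0

/-- Certificate over `k`. -/
structure Cover2 (k : Type) [Field k] (p : ℕ) (G : Type) [Group G] (I : Subgroup G)
    (B : Type) [CommRing B] [Algebra k[X] B] [MulSemiringAction G B] : Prop where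
  comm : ∀ (g : G) (a : k[X]), g • algebraMap k[X] B a = algebraMap k[X] B a
  fin : Module.Finite k[X] B
  free : Module.Free k[X] B
  rank : Module.finrank k[X] B = Nat.card G
  unr : ∀ σ : G, σ ≠ 1 → Ideal.span {x : B | ∃ b : B, x = b - σ • b} = ⊤
  irr : ∃ (θ : B) (f : k[X][X]), f.Monic ∧ f.natDegree = Nat.card G ∧ Irreducible f ∧
    aeval θ f = 0
  infty : ∃ (f : k[X]) (d : ℕ) (β γ : B), 0 < f.natDegree ∧ ¬ p ∣ f.natDegree ∧
    Small k (2 * d) (β ^ 2 - algebraMap k[X] B (X ^ d) * β) ∧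
    (∀ g : G, g ∉ I → Small k (2 * d) (β * (g • β))) ∧
    (∃ s : Finset G, Small k d (∑ g ∈ s, g • β - algebraMap k[X] B (X ^ d))) ∧
    Small k ((p + 1) * d)
      (β * (γ ^ p - algebraMap k[X] B (X ^ ((p - 1) * d)) * γ - algebraMap k[X] B (f * X ^ (p * d))))

/-! ## Part II: covers over a big field `K` -/

/-- expansion at infinity: `x ↦ ξ⁻¹` in `K((ξ))` -/
noncomputable def atInf (K : Type) [Field K] : K[X] →+* LaurentSeries K :=
  eval₂RingHom (HahnSeries.C : K →+* LaurentSeries K) (HahnSeries.single (-1 : ℤ) (1 : K))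

/-- A `G`-cover of the line over `K`, unramified outside infinity, connected, whose local
extension at infinity is the Artin-Schreier extension `Y^p - Y = f`. -/
structure Cover1 (K : Type) [Field K] (p : ℕ) (G : Type) [Group G] (t : G) (f : K[X])
    (B : Type) [CommRing B] [Algebra K[X] B] [MulSemiringAction G B] : Prop where
  dom : IsDomain B
  inj : Function.Injective (algebraMap K[X] B)
  comm : ∀ (g : G) (a : K[X]), g • algebraMap K[X] B a = algebraMap K[X] B a
  fin : Module.Finite K[X] B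
  inv : ∀ b : B, (∀ g : G, g • b = b) → ∃ a : K[X], algebraMap K[X] B a = b
  unr : ∀ σ : G, σ ≠ 1 → Ideal.span {x : B | ∃ b : B, x = b - σ • b} = ⊤
  emb : ∃ ι : B →+* AS p (atInf K f),
    (∀ a : K[X], ι (algebraMap K[X] B a) = AdjoinRoot.of _ (atInf K a)) ∧
    ∀ b : B, ι (t • b) = asShift p (atInf K f) (ι b)

/-- `q ∈ ξ^m O` where `O = ⊕_{l<p} K[[ξ]] (ξ^D Y)^l`, `D = deg f` -/
def Bd {K : Type} [Field K] (p : ℕ) (f : K[X]) (m : ℤ) (q : AS p (atInf K f)) : Prop :=
  ∃ a : Fin p → LaurentSeries K, (∀ (l : Fin p) (n : ℤ), n < m → (a l).coeff n = 0) ∧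
    q = ∑ l : Fin p, AdjoinRoot.of _ (a l) *
      (AdjoinRoot.of _ (HahnSeries.single (f.natDegree : ℤ) (1 : K)) * asRoot p (atInf K f)) ^ (l : ℕ)

/-! ## Part I: the patching rings -/

/-- `k((w))((T))` -/
abbrev Fk (k : Type) [Field k] : Type := LaurentSeries (LaurentSeries k)

/-- `T` -/
noncomputable def Tt (k : Type) [Field k] : Fk k := HahnSeries.single (1 : ℤ) (1 : LaurentSeries k)

/-- `w` -/
noncomputable def Ww (k : Type) [Field k] : Fk k :=
  HahnSeries.C (HahnSeries.single (1 : ℤ) (1 : k))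

/-- `X = w / T` -/
noncomputable def XX (k : Type) [Field k] : Fk k := Ww k * (Tt k)⁻¹

/-- `k → k((w))((T))` -/
noncomputable def kF (k : Type) [Field k] : k →+* Fk k :=
  (HahnSeries.C : LaurentSeries k →+* Fk k).comp (HahnSeries.C : k →+* LaurentSeries k)

/-- `K = k((T)) → k((w))((T))` -/
noncomputable def KF (k : Type) [Field k] : LaurentSeries k →+* Fk k where
  toFun a := a.map (HahnSeries.C : k →+* LaurentSeries k)
  map_one' := by
    ext n m
    simp [HahnSeries.coeff_one]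
  map_mul' a b := HahnSeries.map_mul (HahnSeries.C : k →+* LaurentSeries k).toNonUnitalRingHom
  map_zero' := by ext; simp
  map_add' a b := by ext; simp

/-- `K[w] → k((w))((T))` -/
noncomputable def jj (k : Type) [Field k] : (LaurentSeries k)[X] →+* Fk k :=
  eval₂RingHom (KF k) (Ww k)

/-- `k[X] → k((w))((T))`, `X ↦ w / T` -/
noncomputable def toX (k : Type) [Field k] : k[X] →+* Fk k := eval₂RingHom (kF k) (XX k)

/-- coefficients of products of Laurent series with supports bounded below -/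
theorem mul_coeff_neg {k : Type} [Field k] (a b : LaurentSeries k) (A B : ℤ)
    (ha : ∀ i : ℤ, i < A → a.coeff i = 0) (hb : ∀ i : ℤ, i < B → b.coeff i = 0) (n : ℤ)
    (hn : n < A + B) : (a * b).coeff n = 0 := by
  rw [HahnSeries.coeff_mul]
  refine Finset.sum_eq_zero fun ij hij => ?_
  simp only [Finset.mem_antidiagonal, HahnSeries.mem_support] at hij
  obtain ⟨h1, h2, h3⟩ := hij
  exfalso
  have h4 : A ≤ ij.1 := by by_contra h; exact h1 (ha _ (not_le.1 h))
  have h5 : B ≤ ij.2 := by by_contra h; exact h2 (hb _ (not_le.1 h))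
  omega

/-- coefficients of products of Laurent series with supports bounded above -/
theorem mul_coeff_pos {k : Type} [Field k] (a b : LaurentSeries k) (A B : ℤ)
    (ha : ∀ i : ℤ, A < i → a.coeff i = 0) (hb : ∀ i : ℤ, B < i → b.coeff i = 0) (n : ℤ)
    (hn : A + B < n) : (a * b).coeff n = 0 := by
  rw [HahnSeries.coeff_mul]
  refine Finset.sum_eq_zero fun ij hij => ?_
  simp only [Finset.mem_antidiagonal, HahnSeries.mem_support] at hij
  obtain ⟨h1, h2, h3⟩ := hij
  exfalso
  have h4 : ij.1 ≤ A := by by_contra h; exact h1 (ha _ (not_le.1 h))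
  have h5 : ij.2 ≤ B := by by_contra h; exact h2 (hb _ (not_le.1 h))
  omega

theorem coeff2_mul {k : Type} [Field k] (a b : Fk k) (i : ℤ)
    (h : ∀ m n : ℤ, (a.coeff m * b.coeff n).coeff i = 0) (j : ℤ) : ((a * b).coeff j).coeff i = 0 := by
  rw [HahnSeries.coeff_mul, HahnSeries.coeff_sum]
  exact Finset.sum_eq_zero fun ij _ => h _ _

theorem one_coeff2 {k : Type} [Field k] (j i : ℤ) (hi : i ≠ 0) :
    ((1 : Fk k).coeff j).coeff i = 0 := by
  rw [HahnSeries.coeff_one]
  split_ifs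
  · rw [HahnSeries.coeff_one, if_neg hi]
  · simp

/-- `R = k[[w]]((T))`: power series in `w` -/
noncomputable def Rr (k : Type) [Field k] : Subring (Fk k) where
  carrier := {a | ∀ j i : ℤ, i < 0 → (a.coeff j).coeff i = 0}
  one_mem' := fun j i hi => one_coeff2 j i (by omega)
  mul_mem' := fun {a b} ha hb j i hi => coeff2_mul a b i
    (fun m n => mul_coeff_neg _ _ 0 0 (fun i h => ha m i h) (fun i h => hb n i h) i (by omega)) j
  zero_mem' := fun j i _ => by simp
  add_mem' := fun {a b} ha hb j i hi => by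
    have h1 := ha j i hi
    have h2 := hb j i hi
    simp [h1, h2]
  neg_mem' := fun {a} ha j i hi => by
    have h1 := ha j i hi
    simp [h1]

/-- `S`: the `w`-degrees of the coefficients are bounded above (functions near `w = ∞`, with
poles allowed at `w = ∞`) -/
noncomputable def Ss (k : Type) [Field k] : Subring (Fk k) where
  carrier := {a | ∃ D : ℤ, ∀ j i : ℤ, D < i → (a.coeff j).coeff i = 0}
  one_mem' := ⟨0, fun j i hi => one_coeff2 j i (by omega)⟩
  mul_mem' := by
    rintro a b ⟨D, ha⟩ ⟨E, hb⟩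
    exact ⟨D + E, fun j i hi => coeff2_mul a b i
      (fun m n => mul_coeff_pos _ _ D E (fun i h => ha m i h) (fun i h => hb n i h) i hi) j⟩
  zero_mem' := ⟨0, fun j i _ => by simp⟩
  add_mem' := by
    rintro a b ⟨D, ha⟩ ⟨E, hb⟩
    refine ⟨max D E, fun j i hi => ?_⟩
    have h1 := ha j i (lt_of_le_of_lt (le_max_left _ _) hi)
    have h2 := hb j i (lt_of_le_of_lt (le_max_right _ _) hi)
    simp [h1, h2]
  neg_mem' := by
    rintro a ⟨D, ha⟩
    refine ⟨D, fun j i hi => ?_⟩
    have h1 := ha j i hi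
    simp [h1]

/-- `Q = F[Y]/(Y^p - Y - X^M)`, `X = w / T` -/
abbrev Qk (k : Type) [Field k] (p M : ℕ) : Type := AS p (XX k ^ M)

/-- the automorphism `Y ↦ Y + 1` of `Q` -/
noncomputable abbrev tQ (k : Type) [Field k] (p M : ℕ) : Qk k p M →+* Qk k p M :=
  asShift p (XX k ^ M)

/-- `F → Q` -/
noncomputable abbrev oQ (k : Type) [Field k] (p M : ℕ) : Fk k →+* Qk k p M :=
  AdjoinRoot.of (asPoly p (XX k ^ M))

theorem Tt_inv_mem (k : Type) [Field k] : (Tt k)⁻¹ ∈ Ss k := by
  have h : (Tt k)⁻¹ = HahnSeries.single (-1 : ℤ) (1 : LaurentSeries k) := by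
    rw [Tt, HahnSeries.inv_single]
    simp
  rw [h]
  refine ⟨0, fun j i hi => ?_⟩
  rw [HahnSeries.coeff_single]
  split_ifs
  · rw [HahnSeries.coeff_one, if_neg (by omega)]
  · simp

/-- `f = (W(x) / T)^M`, a polynomial over `K = k((T))` -/
noncomputable def fW (k : Type) [Field k] (W : k[X]) (M : ℕ) : (LaurentSeries k)[X] :=
  (C (HahnSeries.single (-1 : ℤ) (1 : k)) * W.map (HahnSeries.C : k →+* LaurentSeries k)) ^ M

/-- `N` discs: a polynomial `W ∈ k[x]` of degree `N` and the roots `ξ_i ∈ k[[w]]` of `W(ξ) = w`,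
with differences units of `k[[w]]`. -/
structure Discs (k : Type) [Field k] (N : ℕ) (W : k[X]) (ξ : Fin N → Fk k) : Prop where
  monic : W.Monic
  deg : W.natDegree = N
  mem : ∀ i, ξ i ∈ Rr k
  root : ∀ i, W.eval₂ (kF k) (ξ i) = Ww k
  ne : ∀ i j, i ≠ j → ξ i - ξ j ≠ 0
  unit : ∀ i j, i ≠ j → (ξ i - ξ j)⁻¹ ∈ Rr k

/-- The ring `S[x, y]`, `W(x) = w`, `y^p - y = (w/T)^M`, with its maps to the `N` copies of `Q` and
to the local field at infinity. -/
structure SData (k : Type) [Field k] (p M N : ℕ) (W : k[X]) (ξ : Fin N → Fk k) where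
  A : Type
  [ringA : CommRing A]
  ofS : Ss k →+* A
  τ : A →+* A
  x : A
  y : A
  a : Fin N → A →+* Qk k p M
  aInf : A →+* AS p (atInf (LaurentSeries k) (fW k W M))
  a_ofS : ∀ i s, a i (ofS s) = oQ k p M (s : Fk k)
  a_x : ∀ i, a i x = oQ k p M (ξ i)
  a_y : ∀ i, a i y = asRoot p (XX k ^ M)
  a_τ : ∀ i α, a i (τ α) = tQ k p M (a i α)
  a_inj : ∀ i, Function.Injective (a i)
  aInf_inj : Function.Injective aInf
  aInf_τ : ∀ α, aInf (τ α) = asShift p _ (aInf α)
  aInf_x : aInf x = AdjoinRoot.of _ (atInf (LaurentSeries k) X)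
  aInf_K : ∀ (c : LaurentSeries k) (h : KF k c ∈ Ss k),
    aInf (ofS ⟨KF k c, h⟩) = AdjoinRoot.of _ (HahnSeries.C c)
  τ_ofS : ∀ s, τ (ofS s) = ofS s
  τ_x : τ x = x
  τ_y : τ y = y + 1
  span : ∀ α : A, ∃ c : Fin N → Fin p → Ss k, α = ∑ j, ∑ l, ofS (c j l) * x ^ (j : ℕ) * y ^ (l : ℕ)
  fixed : ∀ α : A, τ α = α → ∃ c : Fin N → Ss k, α = ∑ j, ofS (c j) * x ^ (j : ℕ)

attribute [instance] SData.ringA

/-- A cover of the `X`-line over `k` with group `H`, unramified outside infinity, connected, with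
the local extension `Y^p - Y = X^M` at infinity (pulled back to `F` by `X = w/T`). -/
structure BaseCover (k : Type) [Field k] (p M : ℕ) (H : Type) [Group H] (t : H) where
  B : Type
  [ringB : CommRing B]
  [algB : Algebra k[X] B]
  [actB : MulSemiringAction H B]
  dom : IsDomain B
  inj : Function.Injective (algebraMap k[X] B)
  comm : ∀ (g : H) (a : k[X]), g • algebraMap k[X] B a = algebraMap k[X] B a
  fin : Module.Finite k[X] B
  inv : ∀ b : B, (∀ g : H, g • b = b) → ∃ a : k[X], algebraMap k[X] B a = b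
  unr : ∀ σ : H, σ ≠ 1 → Ideal.span {x : B | ∃ b : B, x = b - σ • b} = ⊤
  ι : B →+* Qk k p M
  ι_alg : ∀ a : k[X], ι (algebraMap k[X] B a) = oQ k p M (toX k a)
  ι_t : ∀ b : B, ι (t • b) = tQ k p M (ι b)

attribute [instance] BaseCover.ringB BaseCover.algB BaseCover.actB

/-- The function `γ ↦ ι(γ⁻¹ b)` on `H`. -/
noncomputable def hat {k : Type} [Field k] {p M : ℕ} {H : Type} [Group H] {t : H}
    (c : BaseCover k p M H t) (b : c.B) : H → Qk k p M := fun γ => c.ι (γ⁻¹ • b)

/-- The ring of functions `γ ↦ Σ_m r_m ι(γ⁻¹ b_m)` on `H`, `r_m ∈ R`. -/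
noncomputable def RM {k : Type} [Field k] {p M : ℕ} {H : Type} [Group H] {t : H}
    (c : BaseCover k p M H t) : Subring (H → Qk k p M) :=
  Subring.closure ({u | ∃ r ∈ Rr k, u = fun _ => oQ k p M r} ∪ {u | ∃ b : c.B, u = hat c b})

theorem asShift_of {A : Type} [CommRing A] (p : ℕ) (a x : A) :
    asShift p a (AdjoinRoot.of _ x) = AdjoinRoot.of _ x := by
  unfold asShift
  split_ifs with h
  · simp
  · simp

/-- The ambient ring of functions on `G` with values in `Q^N`. -/
abbrev WW (k : Type) [Field k] (p M N : ℕ) (G : Type) : Type := G → Fin N → Qk k p M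

/-- Equivariant functions: `v(g t) = t⁻¹ v(g)`. -/
noncomputable def EqG (k : Type) [Field k] (p M N : ℕ) {G : Type} [Group G] (t : G) :
    Subring (WW k p M N G) where
  carrier := {v | ∀ g i, tQ k p M (v (g * t) i) = v g i}
  one_mem' := fun g i => by simp
  mul_mem' := fun {u v} hu hv g i => by simp [hu g i, hv g i]
  zero_mem' := fun g i => by simp
  add_mem' := fun {u v} hu hv g i => by simp [hu g i, hv g i]
  neg_mem' := fun {u} hu g i => by simp [hu g i]

/-- Functions with values in `S[x, y]`. -/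
noncomputable def InS {k : Type} [Field k] {p M N : ℕ} {W : k[X]} {ξ : Fin N → Fk k}
    (D : SData k p M N W ξ) (G : Type) : Subring (WW k p M N G) where
  carrier := {v | ∀ g, ∃ α : D.A, ∀ i, D.a i α = v g i}
  one_mem' := fun g => ⟨1, fun i => by simp⟩
  mul_mem' := fun {u v} hu hv g => by
    obtain ⟨α, hα⟩ := hu g
    obtain ⟨β, hβ⟩ := hv g
    exact ⟨α * β, fun i => by simp [hα i, hβ i]⟩
  zero_mem' := fun g => ⟨0, fun i => by simp⟩
  add_mem' := fun {u v} hu hv g => by
    obtain ⟨α, hα⟩ := hu g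
    obtain ⟨β, hβ⟩ := hv g
    exact ⟨α + β, fun i => by simp [hα i, hβ i]⟩
  neg_mem' := fun {u} hu g => by
    obtain ⟨α, hα⟩ := hu g
    exact ⟨-α, fun i => by simp [hα i]⟩

/-- Functions whose restrictions to the cosets of `H_i` are in `RM`. -/
noncomputable def InR {k : Type} [Field k] {p M N : ℕ} {G : Type} [Group G] {t : G}
    {H : Fin N → Subgroup G} {ht : ∀ i, t ∈ H i} (c : ∀ i, BaseCover k p M (H i) ⟨t, ht i⟩) :
    Subring (WW k p M N G) where
  carrier := {v | ∀ i g, (fun γ : H i => v (g * γ) i) ∈ RM (c i)}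
  one_mem' := fun i g => (RM (c i)).one_mem
  mul_mem' := fun {u v} hu hv i g => (RM (c i)).mul_mem (hu i g) (hv i g)
  zero_mem' := fun i g => (RM (c i)).zero_mem
  add_mem' := fun {u v} hu hv i g => (RM (c i)).add_mem (hu i g) (hv i g)
  neg_mem' := fun {u} hu i g => (RM (c i)).neg_mem (hu i g)

/-- The equivariant functions as a vector space over `F = k((w))((T))`. -/
noncomputable def VG (k : Type) [Field k] (p M N : ℕ) {G : Type} [Group G] (t : G) :
    Submodule (Fk k) (WW k p M N G) where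
  carrier := {v | v ∈ EqG k p M N t}
  add_mem' := fun {u v} hu hv => (EqG k p M N t).add_mem hu hv
  zero_mem' := (EqG k p M N t).zero_mem
  smul_mem' := fun r v hv g i => by
    have h1 := hv g i
    have h2 : ∀ q : Qk k p M, r • q = oQ k p M r * q := fun q => Algebra.smul_def r q
    simp only [Pi.smul_apply]
    rw [h2, h2, map_mul, h1, tQ, oQ, asShift_of]

/-- Left translation of functions. -/
def tr {k : Type} [Field k] {p M N : ℕ} {G : Type} [Group G] (σ : G) (v : WW k p M N G) :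
    WW k p M N G := fun g => v (σ⁻¹ * g)

/-- `K[x] → ` constant functions, `x ↦ (ξ_i)_i` -/
noncomputable def cst (k : Type) [Field k] (p M N : ℕ) (ξ : Fin N → Fk k) (G : Type) :
    (LaurentSeries k)[X] →+* WW k p M N G :=
  Pi.ringHom fun _ => Pi.ringHom fun i => (oQ k p M).comp (eval₂RingHom (KF k) (ξ i))

/-- The patched ring. -/
noncomputable def BB {k : Type} [Field k] {p M N : ℕ} {W : k[X]} {ξ : Fin N → Fk k}
    (D : SData k p M N W ξ) {G : Type} [Group G] {t : G}
    {H : Fin N → Subgroup G} {ht : ∀ i, t ∈ H i} (c : ∀ i, BaseCover k p M (H i) ⟨t, ht i⟩) :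
    Subring (WW k p M N G) := EqG k p M N t ⊓ InS D G ⊓ InR c

/-- Entries in a subring. -/
def MatIn {F : Type} [Field F] (R : Subring F) {r : ℕ} (m : Matrix (Fin r) (Fin r) F) : Prop :=
  ∀ i j, m i j ∈ R

end MP7b0bad

end

section

set_option autoImplicit false

namespace MP7b0bad

open Polynomial

/-! ## Group A: the rings `R`, `S` in `F = k((w))((T))` -/

/-- Two-variable power series (outer variable `w`, inner variable `T`) inside `F`. -/
def A1a : Prop := ∀ (k : Type) [Field k], ∃ e : PowerSeries (PowerSeries k) →+* Fk k,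
  (∀ (f : PowerSeries (PowerSeries k)) (j i : ℕ),
    ((e f).coeff (j : ℤ)).coeff (i : ℤ) = PowerSeries.coeff j (PowerSeries.coeff i f)) ∧
  (∀ (f : PowerSeries (PowerSeries k)) (j i : ℤ), (j < 0 ∨ i < 0) → ((e f).coeff j).coeff i = 0) ∧
  ∀ a : Fk k, (∀ j i : ℤ, (j < 0 ∨ i < 0) → (a.coeff j).coeff i = 0) → ∃ f, e f = a

/-- Weierstrass preparation and division in `R = k[[w]]((T))`. -/
def A1 : Prop := ∀ (k : Type) [Field k] (d : Fk k), d ∈ Rr k → d ≠ 0 →
  ∃ (P : (LaurentSeries k)[X]) (u u' q : Fk k), P.Monic ∧ u ∈ Rr k ∧ u' ∈ Rr k ∧ u * u' = 1 ∧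
    d = u * jj k P ∧ q ∈ Ss k ∧ q * jj k P = 1 ∧
    ∀ g ∈ Rr k, ∃ (e : Fk k) (r : (LaurentSeries k)[X]), e ∈ Rr k ∧ g = e * jj k P + jj k r

/-- Expansion of elements of `S` at `w = ∞` (outer variable `v = 1/w`, inner variable `T`). -/
def A2 : Prop := ∀ (k : Type) [Field k], ∃ l : Ss k →+* LaurentSeries (LaurentSeries k),
  ∀ (s : Ss k) (m j : ℤ), ((l s).coeff m).coeff j = ((s : Fk k).coeff j).coeff (-m)

/-- The substitution `w = X T` in elements of `R`. -/
def A3 : Prop := ∀ (k : Type) [Field k], ∃ χ : Rr k →+* LaurentSeries k[X],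
  ∀ (r : Rr k) (n : ℤ) (i : ℕ),
    ((χ r).coeff n).coeff i = ((r : Fk k).coeff (n - (i : ℤ))).coeff (i : ℤ)

/-- Factorisation of matrices that are `1` modulo `T`. -/
def A4 : Prop := ∀ (k : Type) [Field k] (r : ℕ) (c : Matrix (Fin r) (Fin r) (Fk k)),
  (∀ (i j : Fin r) (n : ℤ), n ≤ 0 → (c i j - (1 : Matrix (Fin r) (Fin r) (Fk k)) i j).coeff n = 0) →
  ∃ s s' ρ ρ' : Matrix (Fin r) (Fin r) (Fk k), MatIn (Ss k) s ∧ MatIn (Ss k) s' ∧
    MatIn (Rr k) ρ ∧ MatIn (Rr k) ρ' ∧ s * s' = 1 ∧ ρ * ρ' = 1 ∧ c = s * ρ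

/-- Truncation. -/
def A5 : Prop := ∀ (k : Type) [Field k] (r : ℕ) (g g' : Matrix (Fin r) (Fin r) (Fk k)), g * g' = 1 →
  ∃ (c h : Matrix (Fin r) (Fin r) (Fk k)) (e : ℕ),
    (∀ (i j : Fin r) (n : ℤ), n ≤ 0 →
      (c i j - (1 : Matrix (Fin r) (Fin r) (Fk k)) i j).coeff n = 0) ∧
    g = c * h ∧ MatIn (Rr k) ((Ww k ^ e) • h) ∧ h.det ≠ 0

/-- Lattices over `R`. -/
def A6 : Prop := ∀ (k : Type) [Field k] (r : ℕ) (h : Matrix (Fin r) (Fin r) (Fk k)),
  MatIn (Rr k) h → h.det ≠ 0 →
  ∃ m m' ρ ρ' : Matrix (Fin r) (Fin r) (Fk k), MatIn (Ss k) m ∧ MatIn (Ss k) m' ∧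
    MatIn (Rr k) ρ ∧ MatIn (Rr k) ρ' ∧ m * m' = 1 ∧ ρ * ρ' = 1 ∧ h = m * ρ

/-- The factorisation theorem `GL_r(F) = GL_r(S) GL_r(R)`. -/
def PL : Prop := ∀ (k : Type) [Field k] (r : ℕ) (g g' : Matrix (Fin r) (Fin r) (Fk k)), g * g' = 1 →
  ∃ s s' ρ ρ' : Matrix (Fin r) (Fin r) (Fk k), MatIn (Ss k) s ∧ MatIn (Ss k) s' ∧
    MatIn (Rr k) ρ ∧ MatIn (Rr k) ρ' ∧ s * s' = 1 ∧ ρ * ρ' = 1 ∧ g = s * ρ

/-- `R ∩ S = K[w]`. -/
def A8 : Prop := ∀ (k : Type) [Field k], Function.Injective (jj k) ∧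
  (∀ f, jj k f ∈ Rr k ∧ jj k f ∈ Ss k) ∧ ∀ a ∈ Rr k, a ∈ Ss k → ∃ f, jj k f = a

/-- Descent of the solvability of linear systems from `R` and `S` to `K[w]`. -/
def LD : Prop := ∀ (k : Type) [Field k] (r n : ℕ) (u : Fin n → Fin r → (LaurentSeries k)[X])
  (v : Fin r → (LaurentSeries k)[X]),
  (∃ a : Fin n → Fk k, (∀ i, a i ∈ Rr k) ∧ ∀ l, jj k (v l) = ∑ i, a i * jj k (u i l)) →
  (∃ b : Fin n → Fk k, (∀ i, b i ∈ Ss k) ∧ ∀ l, jj k (v l) = ∑ i, b i * jj k (u i l)) →
  ∃ c : Fin n → (LaurentSeries k)[X], ∀ l, v l = ∑ i, c i * u i l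

/-- Patching of lattices. -/
def PB : Prop := ∀ (k : Type) [Field k] (V : Type) [AddCommGroup V] [Module (Fk k) V]
  (ι ι' : Type) [Fintype ι] [Fintype ι'] (e : Module.Basis ι (Fk k) V)
  (f : Module.Basis ι' (Fk k) V),
  ∃ b : Module.Basis ι (Fk k) V,
    (∀ v, (∀ i, b.repr v i ∈ Ss k) ↔ (∀ i, e.repr v i ∈ Ss k)) ∧
    (∀ v, (∀ i, b.repr v i ∈ Rr k) ↔ (∀ i, f.repr v i ∈ Rr k))

/-! ## Group B: Artin-Schreier algebras -/

def B1 : Prop := ∀ (A : Type) [CommRing A] (p : ℕ) [Fact p.Prime] [CharP A p] (a : A),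
  asShift p a (asRoot p a) = asRoot p a + 1 ∧ ∀ z, (asShift p a)^[p] z = z

def B2 : Prop := ∀ (A : Type) [CommRing A] [IsDomain A] (p : ℕ) [Fact p.Prime] [CharP A p] (a : A)
  (z : AS p a), asShift p a z = z → ∃ x : A, AdjoinRoot.of _ x = z

def B3 : Prop := ∀ (E : Type) [Field E] (p : ℕ) [Fact p.Prime] [CharP E p] (a : LaurentSeries E)
  (n : ℕ), ¬ p ∣ n → a.coeff (-(n : ℤ)) ≠ 0 → (∀ m : ℤ, m < -(n : ℤ) → a.coeff m = 0) →
  Irreducible (asPoly p a)

def B4 : Prop := ∀ (A : Type) [CommRing A] [Nontrivial A] (p : ℕ) [Fact p.Prime] (a : A)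
  (z : AS p a), ∃! c : Fin p → A, z = ∑ l, AdjoinRoot.of _ (c l) * asRoot p a ^ (l : ℕ)

def B5a : Prop := ∀ (k : Type) [Field k] (p : ℕ) [Fact p.Prime] [CharP k p] (M : ℕ), ¬ p ∣ M →
  ∃ (z ε : Qk k p M), z * asRoot p (XX k ^ M) = 1 ∧ ε ^ M = 1 - z ^ (p - 1)

/-- The root `Y` of the Artin-Schreier polynomial is an `M`-th power in `Q`. -/
def B5 : Prop := ∀ (k : Type) [Field k] [IsAlgClosed k] (p : ℕ) [Fact p.Prime] [CharP k p] (M : ℕ),
  ¬ p ∣ M → ∃ ω : Qk k p M, ω ^ M = asRoot p (XX k ^ M) ∧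
    ∏ j ∈ Finset.range p, (tQ k p M)^[j] ω = oQ k p M (XX k)

def B6 : Prop := ∀ (k : Type) [Field k] (p : ℕ) [Fact p.Prime] [CharP k p] (M : ℕ), ¬ p ∣ M →
  Irreducible (asPoly p (XX k ^ M))

def B7 : Prop := ∀ (K : Type) [Field K] (p : ℕ) [Fact p.Prime] [CharP K p] (f : K[X]),
  ¬ p ∣ f.natDegree → Irreducible (asPoly p (atInf K f))

/-- Functoriality. -/
def B8 : Prop := ∀ (A A' : Type) [CommRing A] [CommRing A'] [Nontrivial A] [Nontrivial A'] (p : ℕ)
  [Fact p.Prime] [CharP A p] [CharP A' p] (φ : A →+* A') (a : A),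
  ∃ Φ : AS p a →+* AS p (φ a), (∀ x, Φ (AdjoinRoot.of _ x) = AdjoinRoot.of _ (φ x)) ∧
    Φ (asRoot p a) = asRoot p (φ a) ∧ (∀ z, Φ (asShift p a z) = asShift p (φ a) (Φ z)) ∧
    (Function.Injective φ → Function.Injective Φ)

/-! ## Group C: the discs and the ring `S[x, y]` -/

def C1 : Prop := ∀ (k : Type) [Field k] [IsAlgClosed k] (N : ℕ),
  ∃ (W : k[X]) (ξ : Fin N → Fk k), Discs k N W ξ

def C2a : Prop := ∀ (k : Type) [Field k] (N : ℕ) (W : k[X]) (ξ : Fin N → Fk k), Discs k N W ξ →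
  (∀ v : Fin N → Fk k, ∃! c : Fin N → Fk k, ∀ i, v i = ∑ j, c j * ξ i ^ (j : ℕ)) ∧
  ∀ c : Fin N → Fk k, (∀ i, ∑ j, c j * ξ i ^ (j : ℕ) ∈ Rr k) → ∀ j, c j ∈ Rr k

/-- Substitution in Laurent series. -/
def C2s : Prop := ∀ (E : Type) [Field E] (g : LaurentSeries E) (n : ℕ), 0 < n →
  g.coeff (n : ℤ) ≠ 0 → (∀ m : ℤ, m < (n : ℤ) → g.coeff m = 0) →
  ∃ σ : LaurentSeries E →+* LaurentSeries E, (∀ c, σ (HahnSeries.C c) = HahnSeries.C c) ∧
    σ (HahnSeries.single (1 : ℤ) (1 : E)) = g ∧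
    ∀ a, a ≠ 0 → σ a ≠ 0 ∧ (σ a).order = n * a.order

def C2b : Prop := ∀ (k : Type) [Field k] (W : k[X]), W.Monic → 0 < W.natDegree →
  ∃ l : Ss k →+* LaurentSeries (LaurentSeries k),
    (∀ (f : (LaurentSeries k)[X]) (h : jj k f ∈ Ss k), l ⟨jj k f, h⟩ =
      atInf (LaurentSeries k) (f.comp (W.map (HahnSeries.C : k →+* LaurentSeries k)))) ∧
    ∀ s, s ≠ 0 → l s ≠ 0 ∧ (W.natDegree : ℤ) ∣ (l s).order

/-- The ring `S[x]`. -/
def C2c : Prop := ∀ (k : Type) [Field k] (N : ℕ) (W : k[X]) (ξ : Fin N → Fk k), Discs k N W ξ →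
  0 < N → ∃ (A1 : Type) (_ : CommRing A1) (o : Ss k →+* A1) (x : A1) (a : Fin N → A1 →+* Fk k)
    (aI : A1 →+* LaurentSeries (LaurentSeries k)),
    (∀ i s, a i (o s) = (s : Fk k)) ∧ (∀ i, a i x = ξ i) ∧ (∀ i, Function.Injective (a i)) ∧
    Function.Injective aI ∧ aI x = atInf (LaurentSeries k) X ∧
    (∀ (f : (LaurentSeries k)[X]) (h : jj k f ∈ Ss k), aI (o ⟨jj k f, h⟩) =
      atInf (LaurentSeries k) (f.comp (W.map (HahnSeries.C : k →+* LaurentSeries k)))) ∧
    ∀ α, ∃ c : Fin N → Ss k, α = ∑ j, o (c j) * x ^ (j : ℕ)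

def C2 : Prop := ∀ (k : Type) [Field k] (p : ℕ) [Fact p.Prime] [CharP k p] (M N : ℕ) (W : k[X])
  (ξ : Fin N → Fk k), Discs k N W ξ → ¬ p ∣ M → ¬ p ∣ N → Nonempty (SData k p M N W ξ)

def C3 : Prop := ∀ (k : Type) [Field k] (p : ℕ) [Fact p.Prime] [CharP k p] (M N : ℕ) (W : k[X])
  (ξ : Fin N → Fk k), Discs k N W ξ → ∀ D : SData k p M N W ξ,
  ∃ e : Module.Basis (Fin N × Fin p) (Fk k) (Fin N → Qk k p M),
    ∀ v, (∃ α : D.A, ∀ i, D.a i α = v i) ↔ ∀ jl, e.repr v jl ∈ Ss k

/-! ## Group D: the rings `RM` -/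

section
variable {k : Type} [Field k] {p M : ℕ} {H : Type} [Group H] {t : H}

def D1 : Prop := ∀ (k : Type) [Field k] (p M : ℕ) (H : Type) [Group H] (t : H)
  (c : BaseCover k p M H t) (u : H → Qk k p M), u ∈ RM c ↔
    ∃ (n : ℕ) (r : Fin n → Fk k) (b : Fin n → c.B), (∀ m, r m ∈ Rr k) ∧
      ∀ γ : H, u γ = ∑ m, oQ k p M (r m) * c.ι (γ⁻¹ • b m)

/-- members of `RM` are equivariant; left translates of members of `RM` are in `RM` -/
def D1b : Prop := ∀ (k : Type) [Field k] (p M : ℕ) (H : Type) [Group H] (t : H)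
  (c : BaseCover k p M H t) (u : H → Qk k p M), u ∈ RM c →
    (∀ γ, tQ k p M (u (γ * t)) = u γ) ∧ ∀ δ : H, (fun γ => u (δ * γ)) ∈ RM c

def D2 : Prop := ∀ (k : Type) [Field k] (p : ℕ) [Fact p.Prime] [CharP k p] (M : ℕ) (H : Type)
  [Group H] [Finite H] (t : H) (c : BaseCover k p M H t), ¬ p ∣ M → orderOf t = p →
  ∃ (n : ℕ) (β : Fin n → c.B),
    (∀ u : H → Qk k p M, (∀ γ, tQ k p M (u (γ * t)) = u γ) →
      ∃! r : Fin n → Fk k, ∀ γ, u γ = ∑ l, oQ k p M (r l) * c.ι (γ⁻¹ • β l)) ∧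
    ∀ r : Fin n → Fk k, (fun γ : H => ∑ l, oQ k p M (r l) * c.ι (γ⁻¹ • β l)) ∈ RM c ↔
      ∀ l, r l ∈ Rr k

def D3 : Prop := ∀ (k : Type) [Field k] (p : ℕ) [Fact p.Prime] [CharP k p] (M : ℕ) (H : Type)
  [Group H] [Finite H] (t : H) (c : BaseCover k p M H t), ¬ p ∣ M → orderOf t = p →
  ∀ u ∈ RM c, (∃ γ, u γ = 0) → u = 0

def D4 : Prop := ∀ (k : Type) [Field k] (p : ℕ) [Fact p.Prime] [CharP k p] (M : ℕ) (H : Type)
  [Group H] [Finite H] (t : H) (c : BaseCover k p M H t), ¬ p ∣ M → orderOf t = p →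
  ∀ x : Fk k, (fun _ => oQ k p M x) ∈ RM c → x ∈ Rr k

def D5 : Prop := ∀ (k : Type) [Field k] (p M : ℕ) (H : Type) [Group H] (t : H)
  (c : BaseCover k p M H t) (σ : H), σ ≠ 1 →
  ∃ (n : ℕ) (α β : Fin n → H → Qk k p M), (∀ m, α m ∈ RM c ∧ β m ∈ RM c) ∧
    ∀ γ, ∑ m, α m γ * (β m γ - β m (σ⁻¹ * γ)) = 1

end

/-! ## Group V: patching -/

def V1 : Prop := ∀ (k : Type) [Field k] (p : ℕ) [Fact p.Prime] [CharP k p] (M N : ℕ) (W : k[X])
  (ξ : Fin N → Fk k) (D : SData k p M N W ξ) (G : Type) [Group G] [Finite G] (t : G),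
  Discs k N W ξ → ¬ p ∣ M → orderOf t = p →
  ∃ (ι : Type) (_ : Fintype ι) (e : Module.Basis ι (Fk k) (VG k p M N t)),
    ∀ v : VG k p M N t, (v : WW k p M N G) ∈ InS D G ↔ ∀ i, e.repr v i ∈ Ss k

def V2 : Prop := ∀ (k : Type) [Field k] (p : ℕ) [Fact p.Prime] [CharP k p] (M N : ℕ)
  (G : Type) [Group G] [Finite G] (t : G) (H : Fin N → Subgroup G) (ht : ∀ i, t ∈ H i)
  (c : ∀ i, BaseCover k p M (H i) ⟨t, ht i⟩), ¬ p ∣ M → orderOf t = p →
  ∃ (ι : Type) (_ : Fintype ι) (e : Module.Basis ι (Fk k) (VG k p M N t)),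
    ∀ v : VG k p M N t, (v : WW k p M N G) ∈ InR c ↔ ∀ i, e.repr v i ∈ Rr k

/-- a common basis -/
def V3 : Prop := ∀ (k : Type) [Field k] (p : ℕ) [Fact p.Prime] [CharP k p] (M N : ℕ) (W : k[X])
  (ξ : Fin N → Fk k) (D : SData k p M N W ξ) (G : Type) [Group G] [Finite G] (t : G)
  (H : Fin N → Subgroup G) (ht : ∀ i, t ∈ H i) (c : ∀ i, BaseCover k p M (H i) ⟨t, ht i⟩),
  Discs k N W ξ → ¬ p ∣ M → orderOf t = p →
  ∃ (n : ℕ) (b : Fin n → WW k p M N G), (∀ l, b l ∈ BB D c) ∧
    (∀ v ∈ EqG k p M N t ⊓ InS D G, ∃ s : Fin n → Fk k, (∀ l, s l ∈ Ss k) ∧ v = ∑ l, s l • b l) ∧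
    (∀ v ∈ EqG k p M N t ⊓ InR c, ∃ s : Fin n → Fk k, (∀ l, s l ∈ Rr k) ∧ v = ∑ l, s l • b l) ∧
    (∀ a : Fin n → Fk k, ∑ l, a l • b l = 0 → a = 0) ∧
    ∀ v ∈ BB D c, ∃ f : Fin n → (LaurentSeries k)[X], v = ∑ l, jj k (f l) • b l

def V4S : Prop := ∀ (k : Type) [Field k] (p : ℕ) [Fact p.Prime] [CharP k p] (M N : ℕ) (W : k[X])
  (ξ : Fin N → Fk k) (D : SData k p M N W ξ) (G : Type) [Group G] [Finite G] (t σ : G),
  orderOf t = p → σ ≠ 1 →
  ∃ (n : ℕ) (α β : Fin n → WW k p M N G),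
    (∀ m, α m ∈ EqG k p M N t ⊓ InS D G ∧ β m ∈ EqG k p M N t ⊓ InS D G) ∧
    ∑ m, α m * (β m - tr σ (β m)) = 1

def V4R : Prop := ∀ (k : Type) [Field k] (p : ℕ) [Fact p.Prime] [CharP k p] (M N : ℕ)
  (G : Type) [Group G] [Finite G] (t σ : G)
  (H : Fin N → Subgroup G) (ht : ∀ i, t ∈ H i) (c : ∀ i, BaseCover k p M (H i) ⟨t, ht i⟩),
  orderOf t = p → σ ≠ 1 →
  ∃ (n : ℕ) (α β : Fin n → WW k p M N G),
    (∀ m, α m ∈ EqG k p M N t ⊓ InR c ∧ β m ∈ EqG k p M N t ⊓ InR c) ∧
    ∑ m, α m * (β m - tr σ (β m)) = 1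

def V5 : Prop := ∀ (k : Type) [Field k] (p : ℕ) [Fact p.Prime] [CharP k p] (M N : ℕ) (W : k[X])
  (ξ : Fin N → Fk k) (D : SData k p M N W ξ) (G : Type) [Group G] [Finite G] (t σ : G)
  (H : Fin N → Subgroup G) (ht : ∀ i, t ∈ H i) (c : ∀ i, BaseCover k p M (H i) ⟨t, ht i⟩),
  Discs k N W ξ → ¬ p ∣ M → orderOf t = p → σ ≠ 1 →
  ∃ (n : ℕ) (α β : Fin n → WW k p M N G), (∀ m, α m ∈ BB D c ∧ β m ∈ BB D c) ∧
    ∑ m, α m * (β m - tr σ (β m)) = 1

/-- elements of the patched ring that vanish somewhere are zero -/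
def V6 : Prop := ∀ (k : Type) [Field k] (p : ℕ) [Fact p.Prime] [CharP k p] (M N : ℕ) (W : k[X])
  (ξ : Fin N → Fk k) (D : SData k p M N W ξ) (G : Type) [Group G] [Finite G] (t : G)
  (H : Fin N → Subgroup G) (ht : ∀ i, t ∈ H i) (c : ∀ i, BaseCover k p M (H i) ⟨t, ht i⟩),
  ¬ p ∣ M → orderOf t = p → (⨆ i, H i) = ⊤ →
  ∀ v ∈ BB D c, (∃ g i, v g i = 0) → v = 0

/-- invariants of the patched ring -/
def V7 : Prop := ∀ (k : Type) [Field k] (p : ℕ) [Fact p.Prime] [CharP k p] (M N : ℕ) (W : k[X])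
  (ξ : Fin N → Fk k) (D : SData k p M N W ξ) (G : Type) [Group G] [Finite G] (t : G)
  (H : Fin N → Subgroup G) (ht : ∀ i, t ∈ H i) (c : ∀ i, BaseCover k p M (H i) ⟨t, ht i⟩),
  Discs k N W ξ → 0 < N → ¬ p ∣ M → orderOf t = p →
  ∀ v ∈ BB D c, (∀ σ : G, tr σ v = v) →
    ∃ f : (LaurentSeries k)[X], v = fun _ i => oQ k p M (f.eval₂ (KF k) (ξ i))

def TI1 : Prop := ∀ (k : Type) [Field k] (p : ℕ) [Fact p.Prime] [CharP k p] (M N : ℕ) (W : k[X])
  (ξ : Fin N → Fk k) (D : SData k p M N W ξ) (G : Type) [Group G] (t : G)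
  (H : Fin N → Subgroup G) (ht : ∀ i, t ∈ H i) (c : ∀ i, BaseCover k p M (H i) ⟨t, ht i⟩),
  Discs k N W ξ → (∀ f, cst k p M N ξ G f ∈ BB D c) ∧ ∀ (σ : G), ∀ v ∈ BB D c, tr σ v ∈ BB D c

/-- finiteness over `K[x]` -/
def TI3 : Prop := ∀ (k : Type) [Field k] (p : ℕ) [Fact p.Prime] [CharP k p] (M N : ℕ) (W : k[X])
  (ξ : Fin N → Fk k) (D : SData k p M N W ξ) (G : Type) [Group G] [Finite G] (t : G)
  (H : Fin N → Subgroup G) (ht : ∀ i, t ∈ H i) (c : ∀ i, BaseCover k p M (H i) ⟨t, ht i⟩),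
  Discs k N W ξ → ¬ p ∣ M → orderOf t = p →
  ∃ (n : ℕ) (b : Fin n → WW k p M N G), (∀ l, b l ∈ BB D c) ∧
    ∀ v ∈ BB D c, ∃ f : Fin n → (LaurentSeries k)[X], v = ∑ l, cst k p M N ξ G (f l) * b l

/-- the embedding into the local field at infinity -/
def TI4 : Prop := ∀ (k : Type) [Field k] (p : ℕ) [Fact p.Prime] [CharP k p] (M N : ℕ) (W : k[X])
  (ξ : Fin N → Fk k) (D : SData k p M N W ξ) (G : Type) [Group G] (t : G)
  (H : Fin N → Subgroup G) (ht : ∀ i, t ∈ H i) (c : ∀ i, BaseCover k p M (H i) ⟨t, ht i⟩),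
  Discs k N W ξ → 0 < N →
  ∃ ι : BB D c →+* AS p (atInf (LaurentSeries k) (fW k W M)),
    (∀ (f : (LaurentSeries k)[X]) (h : cst k p M N ξ G f ∈ BB D c),
      ι ⟨cst k p M N ξ G f, h⟩ = AdjoinRoot.of _ (atInf (LaurentSeries k) f)) ∧
    ∀ (v : WW k p M N G) (h : v ∈ BB D c) (h' : tr t v ∈ BB D c),
      ι ⟨tr t v, h'⟩ = asShift p _ (ι ⟨v, h⟩)

/-- Theorem I -/
def TI : Prop := ∀ (k : Type) [Field k] [IsAlgClosed k] (p : ℕ) [Fact p.Prime] [CharP k p]
  (M N : ℕ) (G : Type) [Group G] [Finite G] (t : G)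
  (H : Fin N → Subgroup G) (ht : ∀ i, t ∈ H i) (_ : ∀ i, BaseCover k p M (H i) ⟨t, ht i⟩),
  ¬ p ∣ M → ¬ p ∣ N → orderOf t = p → (⨆ i, H i) = ⊤ →
  ∃ (f : (LaurentSeries k)[X]) (B : Type) (_ : CommRing B) (_ : Algebra (LaurentSeries k)[X] B)
    (_ : MulSemiringAction G B), 0 < f.natDegree ∧ ¬ p ∣ f.natDegree ∧
    Cover1 (LaurentSeries k) p G t f B

/-! ## Group E: from `K` to `k` -/

def E1 : Prop := ∀ (K : Type) [Field K] (G : Type) [Group G] [Finite G] (B : Type) [CommRing B]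
  [IsDomain B] [Algebra K[X] B] [MulSemiringAction G B],
  Function.Injective (algebraMap K[X] B) →
  (∀ (g : G) (a : K[X]), g • algebraMap K[X] B a = algebraMap K[X] B a) →
  Module.Finite K[X] B →
  (∀ b : B, (∀ g : G, g • b = b) → ∃ a : K[X], algebraMap K[X] B a = b) →
  (∀ σ : G, σ ≠ 1 → ∃ b : B, σ • b ≠ b) →
  Module.Free K[X] B ∧ Module.finrank K[X] B = Nat.card G

open Classical in
def E2 : Prop := ∀ (G : Type) [Group G] [Finite G] (B : Type) [CommRing B] [MulSemiringAction G B],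
  (∀ σ : G, σ ≠ 1 → Ideal.span {x : B | ∃ b : B, x = b - σ • b} = ⊤) →
  ∃ (n : ℕ) (x y : Fin n → B), ∀ σ : G, ∑ m, x m * (σ • y m) = if σ = 1 then 1 else 0

def E3 : Prop := ∀ (K : Type) [Field K] (p : ℕ) [Fact p.Prime] [CharP K p] (f : K[X]),
  (∀ m m' q, m' ≤ m → Bd p f m q → Bd p f m' q) ∧
  (∀ m q q', Bd p f m q → Bd p f m q' → Bd p f m (q + q')) ∧
  (∀ m q, Bd p f m q → Bd p f m (-q)) ∧
  (∀ m m' q q', Bd p f m q → Bd p f m' q' → Bd p f (m + m') (q * q')) ∧
  (∀ q, ∃ m, Bd p f m q) ∧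
  (∀ (m : ℤ) (a : LaurentSeries K),
    Bd p f m (AdjoinRoot.of _ a) ↔ ∀ n : ℤ, n < m → a.coeff n = 0)

/-- approximation of elements of `Ind(Q_∞)` by elements of `B[1/x]` -/
def E4 : Prop := ∀ (K : Type) [Field K] (p : ℕ) [Fact p.Prime] [CharP K p] (G : Type) [Group G]
  [Finite G] (t : G) (f : K[X]) (B : Type) [CommRing B] [Algebra K[X] B] [MulSemiringAction G B]
  (ι : B →+* AS p (atInf K f)),
  orderOf t = p → ¬ p ∣ f.natDegree →
  (∀ (g : G) (a : K[X]), g • algebraMap K[X] B a = algebraMap K[X] B a) →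
  (∀ σ : G, σ ≠ 1 → Ideal.span {x : B | ∃ b : B, x = b - σ • b} = ⊤) →
  (∀ a : K[X], ι (algebraMap K[X] B a) = AdjoinRoot.of _ (atInf K a)) →
  (∀ b : B, ι (t • b) = asShift p (atInf K f) (ι b)) →
  ∀ v : G → AS p (atInf K f), (∀ g, v (t * g) = asShift p (atInf K f) (v g)) →
  ∀ m : ℤ, ∃ d₀ : ℕ, ∀ d : ℕ, d₀ ≤ d → ∃ b : B, ∀ g : G,
    Bd p f (m - d) (ι (g • b) - AdjoinRoot.of _ (HahnSeries.single (-(d : ℤ)) (1 : K)) * v g)

def E5 : Prop := ∀ (K : Type) [Field K] (p : ℕ) [Fact p.Prime] [CharP K p] (G : Type) [Group G]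
  [Finite G] (f : K[X]) (B : Type) [CommRing B] [Algebra K[X] B] [MulSemiringAction G B]
  (ι : B →+* AS p (atInf K f)),
  (∀ (g : G) (a : K[X]), g • algebraMap K[X] B a = algebraMap K[X] B a) →
  (∀ b : B, (∀ g : G, g • b = b) → ∃ a : K[X], algebraMap K[X] B a = b) →
  (∀ a : K[X], ι (algebraMap K[X] B a) = AdjoinRoot.of _ (atInf K a)) →
  ∀ (j : B) (d : ℕ), (∀ g : G, Bd p f (1 - d) (ι (g • j))) → Small K d j

def E6 : Prop := ∀ (K : Type) [Field K] (p : ℕ) [Fact p.Prime] [CharP K p] (G : Type) [Group G]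
  [Finite G] (t : G) (f : K[X]) (B : Type) [CommRing B] [Algebra K[X] B] [MulSemiringAction G B],
  orderOf t = p → ¬ p ∣ f.natDegree → Cover1 K p G t f B →
  ∃ (d : ℕ) (β γ : B),
    Small K (2 * d) (β ^ 2 - algebraMap K[X] B (X ^ d) * β) ∧
    (∀ g : G, g ∉ Subgroup.zpowers t → Small K (2 * d) (β * (g • β))) ∧
    (∃ s : Finset G, Small K d (∑ g ∈ s, g • β - algebraMap K[X] B (X ^ d))) ∧
    Small K ((p + 1) * d)
      (β * (γ ^ p - algebraMap K[X] B (X ^ ((p - 1) * d)) * γ - algebraMap K[X] B (f * X ^ (p * d))))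

def E7 : Prop := ∀ (K : Type) [Field K] (p : ℕ) [Fact p.Prime] [CharP K p] (G : Type) [Group G]
  [Finite G] (t : G) (f : K[X]) (B : Type) [CommRing B] [Algebra K[X] B] [MulSemiringAction G B],
  ¬ p ∣ f.natDegree → Cover1 K p G t f B →
  ∃ (θ : B) (F : K[X][X]), F.Monic ∧ F.natDegree = Nat.card G ∧ aeval θ F = 0 ∧
    ∀ (Ω : Type) [Field Ω] [Algebra K Ω],
      Irreducible (F.map (mapRingHom (algebraMap K Ω)))

def E8 : Prop := ∀ (k K : Type) [Field k] [Field K] [Algebra k K] (G : Type) [Group G] [Finite G]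
  (B : Type) [CommRing B] [Algebra K[X] B] [MulSemiringAction G B],
  (∀ (g : G) (a : K[X]), g • algebraMap K[X] B a = algebraMap K[X] B a) →
  Module.Finite K[X] B → Module.Free K[X] B →
  ∀ (ZB : Finset B) (ZK : Finset K), ∃ R' : Subalgebra k K, R'.FG ∧ (∀ z ∈ ZK, z ∈ R') ∧
    ∃ (B' : Type) (_ : CommRing B') (_ : Algebra (R')[X] B') (_ : MulSemiringAction G B')
      (incl : B' →+* B), Function.Injective incl ∧
      (∀ a : (R')[X], incl (algebraMap (R')[X] B' a) =
        algebraMap K[X] B (a.map (algebraMap R' K))) ∧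
      (∀ (g : G) (b : B'), incl (g • b) = g • incl b) ∧
      Module.Free (R')[X] B' ∧ Module.Finite (R')[X] B' ∧
      Module.finrank (R')[X] B' = Module.finrank K[X] B ∧ ∀ z ∈ ZB, ∃ z', incl z' = z

def E9 : Prop := ∀ (k : Type) [Field k] [IsAlgClosed k] (R : Type) [CommRing R] [IsDomain R]
  [Algebra k R], Algebra.FiniteType k R → ∀ (Ω : Type) [Field Ω] [IsAlgClosed Ω] [Algebra R Ω],
  Function.Injective (algebraMap R Ω) → ∀ F : R[X][X], F.Monic → 0 < F.natDegree →
  Irreducible (F.map (mapRingHom (algebraMap R Ω))) → ∀ h : R, h ≠ 0 →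
  ∃ φ : R →ₐ[k] k, φ h ≠ 0 ∧ Irreducible (F.map (mapRingHom (φ : R →+* k)))

def E10 : Prop := ∀ (R k : Type) [CommRing R] [CommRing k] [Nontrivial k] (φ : R →+* k)
  (G : Type) [Group G] (B' : Type) [CommRing B'] [Algebra R[X] B'] [MulSemiringAction G B'],
  (∀ (g : G) (a : R[X]), g • algebraMap R[X] B' a = algebraMap R[X] B' a) →
  Module.Free R[X] B' → Module.Finite R[X] B' →
  ∃ (B'' : Type) (_ : CommRing B'') (_ : Algebra k[X] B'') (_ : MulSemiringAction G B'')
    (q : B' →+* B''), (∀ a : R[X], q (algebraMap R[X] B' a) = algebraMap k[X] B'' (a.map φ)) ∧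
    (∀ (g : G) (b : B'), q (g • b) = g • q b) ∧
    (∀ (g : G) (a : k[X]), g • algebraMap k[X] B'' a = algebraMap k[X] B'' a) ∧
    Module.Free k[X] B'' ∧ Module.Finite k[X] B'' ∧
    Module.finrank k[X] B'' = Module.finrank R[X] B'

/-- Theorem II -/
def TII : Prop := ∀ (k : Type) [Field k] [IsAlgClosed k] (p : ℕ) [Fact p.Prime] [CharP k p]
  (K : Type) [Field K] [Algebra k K] (G : Type) [Group G] [Finite G] (t : G) (f : K[X])
  (B : Type) [CommRing B] [Algebra K[X] B] [MulSemiringAction G B],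
  orderOf t = p → 0 < f.natDegree → ¬ p ∣ f.natDegree → Cover1 K p G t f B →
  ∃ (B' : Type) (_ : CommRing B') (_ : Algebra k[X] B') (_ : MulSemiringAction G B'),
    Cover2 k p G (Subgroup.zpowers t) B'

/-! ## Group F: from certificates over `k` to covers -/

def F1 : Prop := ∀ (k : Type) [Field k] (p : ℕ) (G : Type) [Group G] [Finite G] (I : Subgroup G)
  (B : Type) [CommRing B] [Algebra k[X] B] [MulSemiringAction G B], Cover2 k p G I B →
  ∃ (L : Type) (_ : Field L) (_ : Algebra (RatFunc k) L) (ι : B →+* L), Function.Injective ι ∧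
    (∀ a : k[X], ι (algebraMap k[X] B a) =
      algebraMap (RatFunc k) L (algebraMap k[X] (RatFunc k) a)) ∧
    FiniteDimensional (RatFunc k) L ∧ IsGalois (RatFunc k) L ∧
    ∃ φ : G ≃* (L ≃ₐ[RatFunc k] L), ∀ (g : G) (b : B), φ g (ι b) = ι (g • b)

/-- `A` is a place over infinity -/
def AtInfty {k : Type} [Field k] {L : Type} [Field L] [Algebra (RatFunc k) L]
    (A : ValuationSubring L) : Prop :=
  (∀ c : k, algebraMap (RatFunc k) L (algebraMap k (RatFunc k) c) ∈ A) ∧
    algebraMap (RatFunc k) L RatFunc.X ∉ A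

def F2 : Prop := ∀ (k : Type) [Field k] (G : Type) [Group G] (B : Type) [CommRing B]
  [Algebra k[X] B] [MulSemiringAction G B] (L : Type) [Field L] [Algebra (RatFunc k) L]
  (ι : B →+* L) (φ : G ≃* (L ≃ₐ[RatFunc k] L)),
  Module.Finite k[X] B →
  (∀ a : k[X], ι (algebraMap k[X] B a) =
    algebraMap (RatFunc k) L (algebraMap k[X] (RatFunc k) a)) →
  (∀ (g : G) (b : B), φ g (ι b) = ι (g • b)) →
  (∀ σ : G, σ ≠ 1 → Ideal.span {x : B | ∃ b : B, x = b - σ • b} = ⊤) →
  ∀ A : ValuationSubring L,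
    (∀ c : k, algebraMap (RatFunc k) L (algebraMap k (RatFunc k) c) ∈ A) →
    algebraMap (RatFunc k) L RatFunc.X ∈ A →
    ValuationSubring.inertiaSubgroup (RatFunc k) A = ⊥

def F3 : Prop := ∀ (k : Type) [Field k] (L : Type) [Field L] [Algebra (RatFunc k) L]
  (A : ValuationSubring L), AtInfty (k := k) A → ∀ r : RatFunc k, r ≠ 0 →
    (algebraMap (RatFunc k) L r ∈ A ↔ r.intDegree ≤ 0) ∧
    (algebraMap (RatFunc k) L r ∈ A.nonunits ↔ r.intDegree < 0)

def F4 : Prop := ∀ (k : Type) [Field k] (L : Type) [Field L] [Algebra (RatFunc k) L],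
  ∃ A : ValuationSubring L, AtInfty (k := k) A

def F5 : Prop := ∀ (k : Type) [Field k] (L : Type) [Field L] [Algebra (RatFunc k) L]
  (A : ValuationSubring L), AtInfty (k := k) A →
  ∀ (B : Type) [CommRing B] [Algebra k[X] B] (ι : B →+* L),
  (∀ a : k[X], ι (algebraMap k[X] B a) =
    algebraMap (RatFunc k) L (algebraMap k[X] (RatFunc k) a)) →
  ∀ (d : ℕ) (j : B), Small k d j →
    ι j / algebraMap (RatFunc k) L (RatFunc.X ^ d) ∈ A.nonunits

def F6 : Prop := ∀ (k : Type) [Field k] [IsAlgClosed k] (L : Type) [Field L]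
  [Algebra (RatFunc k) L] [FiniteDimensional (RatFunc k) L] (A : ValuationSubring L),
  AtInfty (k := k) A → ∀ b ∈ A, ∃ c : k,
    b - algebraMap (RatFunc k) L (algebraMap k (RatFunc k) c) ∈ A.nonunits

open Pointwise in
def F7 : Prop := ∀ (k : Type) [Field k] [IsAlgClosed k] (L : Type) [Field L]
  [Algebra (RatFunc k) L] [FiniteDimensional (RatFunc k) L] [IsGalois (RatFunc k) L]
  (A : ValuationSubring L), AtInfty (k := k) A →
  (∀ σ : L ≃ₐ[RatFunc k] L, σ ≠ 1 → σ • A ≠ A) →
  ∀ γ : L, ∃ r : RatFunc k, γ - algebraMap (RatFunc k) L r ∈ A.nonunits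

/-- the place over infinity with the right inertia group -/
def F8 : Prop := ∀ (k : Type) [Field k] [IsAlgClosed k] (p : ℕ) [Fact p.Prime] [CharP k p]
  (G : Type) [Group G] [Finite G] (I : Subgroup G) (B : Type) [CommRing B] [Algebra k[X] B]
  [MulSemiringAction G B], Cover2 k p G I B → Nat.card I = p →
  ∀ (L : Type) [Field L] [Algebra (RatFunc k) L] [FiniteDimensional (RatFunc k) L]
    [IsGalois (RatFunc k) L] (ι : B →+* L) (φ : G ≃* (L ≃ₐ[RatFunc k] L)),
  (∀ a : k[X], ι (algebraMap k[X] B a) =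
    algebraMap (RatFunc k) L (algebraMap k[X] (RatFunc k) a)) →
  (∀ (g : G) (b : B), φ g (ι b) = ι (g • b)) →
  ∃ A : ValuationSubring L, AtInfty (k := k) A ∧
    (ValuationSubring.inertiaSubgroup (RatFunc k) A).map
      (ValuationSubring.decompositionSubgroup (RatFunc k) A).subtype = I.map φ.toMonoidHom

/-- Theorem III -/
def TIII : Prop := ∀ (k : Type) [Field k] [IsAlgClosed k] (p : ℕ) [Fact p.Prime] [CharP k p]
  (G : Type) [Group G] [Finite G] (I : Subgroup G) (B : Type) [CommRing B] [Algebra k[X] B]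
  [MulSemiringAction G B], Cover2 k p G I B → Nat.card I = p → Occurs k G I

/-! ## Group H: the base covers, `p = 2` -/

/-- The Fermat ring `k[u][v]/(v^M + u^M - 1)`. -/
abbrev Fer (k : Type) [Field k] (M : ℕ) : Type :=
  AdjoinRoot ((X : k[X][X]) ^ M - C (1 - X ^ M))

/-- `u` -/
noncomputable def fu (k : Type) [Field k] (M : ℕ) : Fer k M := AdjoinRoot.of _ (X : k[X])

/-- `v` -/
noncomputable def fv (k : Type) [Field k] (M : ℕ) : Fer k M := AdjoinRoot.root _

/-- `k[X] → Fer`, `X ↦ u v` -/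
noncomputable def ferAlg (k : Type) [Field k] (M : ℕ) : k[X] →+* Fer k M :=
  eval₂RingHom ((AdjoinRoot.of _).comp (C : k →+* k[X])) (fu k M * fv k M)

def H1a : Prop := ∀ (k : Type) [Field k] (M : ℕ), 0 < M → (M : k) ≠ 0 → IsDomain (Fer k M)

/-- generators over `k[uv]` -/
def H1b : Prop := ∀ (k : Type) [Field k] (M : ℕ), 0 < M →
  ∀ z : Fer k M, ∃ (a b : Fin M → k[X]), z = ∑ j : Fin M, ferAlg k M (a j) * fu k M ^ (j : ℕ) +
    ∑ j : Fin M, ferAlg k M (b j) * fv k M ^ ((j : ℕ) + 1)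

/-- maps out of the Fermat ring -/
def H1c : Prop := ∀ (k : Type) [Field k] (M : ℕ) (A : Type) [CommRing A] (f : k →+* A) (u v : A),
  v ^ M = 1 - u ^ M → ∃! g : Fer k M →+* A,
    (∀ c : k, g (ferAlg k M (C c)) = f c) ∧ g (fu k M) = u ∧ g (fv k M) = v

/-- the action of the dihedral group on the Fermat ring -/
def H1d : Prop := ∀ (k : Type) [Field k] (M : ℕ) (ζ : k), 0 < M → ζ ^ M = 1 →
  ∃ ρ : DihedralGroup M →* RingAut (Fer k M),
    (∀ i : ZMod M, ρ (DihedralGroup.r i) (fu k M) = ferAlg k M (C (ζ ^ i.val)) * fu k M ∧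
      ρ (DihedralGroup.r i) (fv k M) = ferAlg k M (C (ζ ^ (-i).val)) * fv k M) ∧
    ρ (DihedralGroup.sr 0) (fu k M) = fv k M ∧ ρ (DihedralGroup.sr 0) (fv k M) = fu k M ∧
    ∀ (g : DihedralGroup M) (a : k[X]), ρ g (ferAlg k M a) = ferAlg k M a

/-- the Fermat ring inside the local field `Q` -/
def H1e : Prop := ∀ (k : Type) [Field k] [IsAlgClosed k] [CharP k 2] (M : ℕ), ¬ 2 ∣ M →
  ∃ ι : Fer k M →+* Qk k 2 M, (∀ a, ι (ferAlg k M a) = oQ k 2 M (toX k a)) ∧
    ι (fv k M) = tQ k 2 M (ι (fu k M)) ∧ ι (fu k M) = tQ k 2 M (ι (fv k M)) ∧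
    ι (fu k M) ^ M = asRoot 2 (XX k ^ M)

def H1 : Prop := ∀ (k : Type) [Field k] [IsAlgClosed k] [CharP k 2] (M : ℕ), ¬ 2 ∣ M →
  Nonempty (BaseCover k 2 M (DihedralGroup M) (DihedralGroup.sr 0))

def H2 : Prop := ∀ (k : Type) [Field k] (p M : ℕ) [Fact p.Prime] [CharP k p] (Γ : Type) [Group Γ]
  [Finite Γ] (t : Γ) (G : Type) [Group G] (ψ : Γ →* G), ¬ p ∣ Nat.card ψ.ker →
  Nonempty (BaseCover k p M Γ t) → Nonempty (BaseCover k p M ψ.range ⟨ψ t, ⟨t, rfl⟩⟩)

def H3 : Prop := ∀ (k : Type) [Field k] [IsAlgClosed k] [CharP k 2] (M : ℕ), ¬ 2 ∣ M →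
  ∀ (G : Type) [Group G] [Finite G] (t a : G) (H : Subgroup G) (ht : t ∈ H), orderOf t = 2 →
  a ^ M = 1 → t * a * t⁻¹ = a⁻¹ → H = Subgroup.closure {t, a} →
  Nonempty (BaseCover k 2 M H ⟨t, ht⟩)

/-- The main theorem for `p = 2`. -/
def Main2 : Prop := ∀ (k : Type) [Field k] [IsAlgClosed k] [CharP k 2] (G : Type) [Group G]
  [Finite G] (t : G), orderOf t = 2 →
  Subgroup.closure ({t} ∪ {a : G | Odd (orderOf a) ∧ t * a * t⁻¹ = a⁻¹}) = ⊤ →
  Occurs k G (Subgroup.zpowers t)

/-! ## Group J: group theory -/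

/-- the subgroup generated by `t` and the elements of odd order inverted by `t` -/
def Ht {G : Type} [Group G] (t : G) : Subgroup G :=
  Subgroup.closure ({t} ∪ {a : G | Odd (orderOf a) ∧ t * a * t⁻¹ = a⁻¹})

def J1 : Prop := ∀ (G : Type) [Group G] [Finite G] (t : G), Group.IsSolvable G → orderOf t = 2 →
  Subgroup.normalClosure {t} = ⊤ → Ht t = ⊤

def J2 : Prop := ∀ (n : ℕ) (t : Equiv.Perm (Fin n)), orderOf t = 2 →
  Subgroup.normalClosure {t} = ⊤ → Ht t = ⊤

def J3 : Prop := ∀ (n : ℕ) (t : alternatingGroup (Fin n)), orderOf t = 2 →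
  Subgroup.normalClosure {t} = ⊤ → Ht t = ⊤

end MP7b0bad

end

section

set_option autoImplicit false

namespace MP7b0bad

open Polynomial IsLocalRing

theorem A1_ofPS_neg {k : Type} [Field k] (a : PowerSeries k) (j : ℤ) (hj : j < 0) :
    (HahnSeries.ofPowerSeries ℤ k a).coeff j = 0 := by
  rw [HahnSeries.ofPowerSeries_apply, HahnSeries.embDomain_of_notMem_range]
  rintro ⟨n, hn⟩
  simp only [Nat.castOrderEmbedding_apply] at hn
  omega

theorem A1_T_mul {k : Type} [Field k] (n : ℤ) (x : Fk k) (j : ℤ) :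
    (HahnSeries.single n (1 : LaurentSeries k) * x).coeff j = x.coeff (j - n) := by
  rw [HahnSeries.coeff_single_mul, one_mul]

theorem A1_T_mem {k : Type} [Field k] (n : ℤ) :
    (HahnSeries.single n (1 : LaurentSeries k) : Fk k) ∈ Rr k := by
  intro j i hi
  rw [HahnSeries.coeff_single]
  split_ifs
  · rw [HahnSeries.coeff_one, if_neg (by omega)]
  · simp

theorem A1_T_inv {k : Type} [Field k] (n : ℤ) :
    (HahnSeries.single n (1 : LaurentSeries k) : Fk k) *
      HahnSeries.single (-n) (1 : LaurentSeries k) = 1 := by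
  rw [HahnSeries.single_mul_single, add_neg_cancel, one_mul]
  rfl

theorem A1_KF_coeff {k : Type} [Field k] (a : LaurentSeries k) (j i : ℤ) :
    ((KF k a).coeff j).coeff i = if i = 0 then a.coeff j else 0 := by
  have h1 : (KF k a).coeff j = HahnSeries.C (a.coeff j) := rfl
  rw [h1, HahnSeries.C_apply, HahnSeries.coeff_single]
  by_cases hi : i = 0
  · rw [if_pos hi, if_pos hi]
  · rw [if_neg hi, if_neg hi]

theorem A1_KF_T {k : Type} [Field k] (n : ℤ) :
    KF k (HahnSeries.single n (1 : k)) = HahnSeries.single n (1 : LaurentSeries k) := by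
  ext j i
  rw [A1_KF_coeff, HahnSeries.coeff_single, HahnSeries.coeff_single]
  by_cases hj : j = n
  · rw [if_pos hj, if_pos hj, HahnSeries.coeff_one]
    by_cases hi : i = 0
    · rw [if_pos hi, if_pos hi]
    · rw [if_neg hi, if_neg hi]
  · rw [if_neg hj, if_neg hj]
    simp

theorem A1_W_coeff {k : Type} [Field k] (m : ℤ) (x : Fk k) (j i : ℤ) :
    (((HahnSeries.C (HahnSeries.single m (1 : k)) : Fk k) * x).coeff j).coeff i =
      (x.coeff j).coeff (i - m) := by
  rw [HahnSeries.C_apply, HahnSeries.coeff_single_zero_mul, HahnSeries.coeff_single_mul, one_mul]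

theorem A1_W_pow {k : Type} [Field k] (n : ℕ) :
    Ww k ^ n = HahnSeries.C (HahnSeries.single (n : ℤ) (1 : k)) := by
  unfold Ww
  rw [← map_pow, HahnSeries.single_pow, one_pow, nsmul_eq_mul, mul_one]

/-- The ideal-like set of small elements. -/
theorem A1_small_sum {k : Type} [Field k] {ι : Type} (s : Finset ι) (f : ι → Fk k)
    (h : ∀ a ∈ s, (∀ j : ℤ, j ≤ 0 → (f a).coeff j = 0) ∧
      ∀ j i : ℤ, 0 < i → ((f a).coeff j).coeff i = 0) :
    (∀ j : ℤ, j ≤ 0 → (∑ a ∈ s, f a).coeff j = 0) ∧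
      ∀ j i : ℤ, 0 < i → ((∑ a ∈ s, f a).coeff j).coeff i = 0 := by
  constructor
  · intro j hj
    rw [HahnSeries.coeff_sum]
    exact Finset.sum_eq_zero fun a ha => (h a ha).1 j hj
  · intro j i hi
    rw [HahnSeries.coeff_sum, HahnSeries.coeff_sum]
    exact Finset.sum_eq_zero fun a ha => (h a ha).2 j i hi

/-- The inverse of `1 + eps`. -/
theorem A1_inv {k : Type} [Field k] (ε g : Fk k) (h1 : ∀ j : ℤ, j ≤ 0 → ε.coeff j = 0)
    (h2 : ∀ j i : ℤ, 0 < i → (ε.coeff j).coeff i = 0) (hg : g = 1 - ε * g) :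
    ∀ j i : ℤ, 0 < i → (g.coeff j).coeff i = 0 := by
  have key : ∀ n : ℕ, ∀ j : ℤ, j < g.order + n → ∀ i : ℤ, 0 < i → (g.coeff j).coeff i = 0 := by
    intro n
    induction n with
    | zero =>
      intro j hj i _
      have h0 : g.coeff j = 0 := HahnSeries.coeff_eq_zero_of_lt_order (by simpa using hj)
      rw [h0]
      simp
    | succ n ih =>
      intro j hj i hi
      have h3 : (g.coeff j).coeff i = ((1 : Fk k).coeff j).coeff i - ((ε * g).coeff j).coeff i := by
        conv_lhs => rw [hg]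
        simp
      rw [h3, one_coeff2 j i (by omega), zero_sub, neg_eq_zero, HahnSeries.coeff_mul,
        HahnSeries.coeff_sum]
      refine Finset.sum_eq_zero fun ab hab => ?_
      simp only [Finset.mem_antidiagonal, HahnSeries.mem_support] at hab
      obtain ⟨ha, hb, hs⟩ := hab
      have ha1 : 1 ≤ ab.1 := by
        by_contra hlt
        exact ha (h1 _ (by omega))
      refine mul_coeff_pos _ _ 0 0 (fun i hi => h2 _ _ hi) (fun i hi => ih ab.2 ?_ i hi) i (by omega)
      push_cast at hj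
      omega
  intro j i hi
  obtain ⟨n, hn⟩ : ∃ n : ℕ, j < g.order + n := ⟨(j - g.order + 1).toNat, by omega⟩
  exact key n j hn i hi

theorem A1_Winv_mem (k : Type) [Field k] (n : ℕ) :
    (HahnSeries.C (HahnSeries.single (-(n : ℤ)) (1 : k)) : Fk k) ∈ Ss k := by
  refine ⟨0, fun j i hi => ?_⟩
  rw [HahnSeries.C_apply, HahnSeries.coeff_single]
  split_ifs
  · rw [HahnSeries.coeff_single, if_neg (by omega)]
  · simp

/-- A distinguished polynomial is a unit of `S`. -/
theorem A1_unit {k : Type} [Field k] (P : (PowerSeries k)[X]) (hP : P.Monic)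
    (hl : ∀ n, n < P.natDegree → PowerSeries.constantCoeff (P.coeff n) = 0) :
    ∃ q ∈ Ss k, q * jj k (P.map (HahnSeries.ofPowerSeries ℤ k)) = 1 := by
  obtain ⟨n, hn⟩ : ∃ n, n = P.natDegree := ⟨_, rfl⟩
  obtain ⟨V, hV⟩ : ∃ V : Fk k, V = HahnSeries.C (HahnSeries.single (-(n : ℤ)) (1 : k)) := ⟨_, rfl⟩
  have hVW : V * Ww k ^ n = 1 := by
    rw [hV, A1_W_pow, ← map_mul, HahnSeries.single_mul_single, neg_add_cancel, one_mul]
    exact map_one _
  obtain ⟨ε, hε⟩ : ∃ ε : Fk k, ε = ∑ i ∈ Finset.range n,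
      V * (KF k (HahnSeries.ofPowerSeries ℤ k (P.coeff i)) * Ww k ^ i) := ⟨_, rfl⟩
  have hPj : jj k (P.map (HahnSeries.ofPowerSeries ℤ k)) = Ww k ^ n +
      ∑ i ∈ Finset.range n, KF k (HahnSeries.ofPowerSeries ℤ k (P.coeff i)) * Ww k ^ i := by
    conv_lhs => rw [hP.as_sum]
    rw [← hn]
    simp only [jj, Polynomial.map_add, Polynomial.map_pow, Polynomial.map_X, Polynomial.map_sum,
      Polynomial.map_mul, Polynomial.map_C, Polynomial.coe_eval₂RingHom, Polynomial.eval₂_add,
      Polynomial.eval₂_pow, Polynomial.eval₂_X, Polynomial.eval₂_finsetSum, Polynomial.eval₂_mul,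
      Polynomial.eval₂_C]
  have hVP : V * jj k (P.map (HahnSeries.ofPowerSeries ℤ k)) = 1 + ε := by
    rw [hPj, mul_add, hVW, hε, Finset.mul_sum]
  have hsm : (∀ j : ℤ, j ≤ 0 → ε.coeff j = 0) ∧ ∀ j i : ℤ, 0 < i → (ε.coeff j).coeff i = 0 := by
    rw [hε]
    refine A1_small_sum _ _ fun i hi => ?_
    have hi' : i < n := Finset.mem_range.1 hi
    have hc : ∀ j l : ℤ, ((V * (KF k (HahnSeries.ofPowerSeries ℤ k (P.coeff i)) *
        Ww k ^ i)).coeff j).coeff l = if l + n - i = 0 then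
          (HahnSeries.ofPowerSeries ℤ k (P.coeff i)).coeff j else 0 := by
      intro j l
      rw [hV, A1_W_coeff, A1_W_pow, mul_comm, A1_W_coeff, A1_KF_coeff]
      congr 1
      rw [show l - -(n : ℤ) - (i : ℤ) = l + n - i by ring]
    constructor
    · intro j hj
      ext l
      rw [hc]
      split_ifs
      · rcases hj.lt_or_eq with hj | rfl
        · rw [A1_ofPS_neg _ _ hj]
          simp
        · have := hl i (by omega)
          rw [← PowerSeries.coeff_zero_eq_constantCoeff_apply] at this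
          have h2 := HahnSeries.ofPowerSeries_apply_coeff (Γ := ℤ) (P.coeff i) 0
          rw [Nat.cast_zero] at h2
          rw [h2, this]
          simp
      · simp
    · intro j l hl
      rw [hc, if_neg (by omega)]
  have hne : (1 + ε) ≠ 0 := by
    intro h0
    have h1 : (1 + ε).coeff 0 = 1 := by
      rw [HahnSeries.coeff_add, hsm.1 0 le_rfl, add_zero]
      simp
    rw [h0] at h1
    simp at h1
  have hg : (1 + ε)⁻¹ = 1 - ε * (1 + ε)⁻¹ := by
    have := mul_inv_cancel₀ hne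
    linear_combination this
  have hgS : (1 + ε)⁻¹ ∈ Ss k := ⟨0, A1_inv ε _ hsm.1 hsm.2 hg⟩
  refine ⟨(1 + ε)⁻¹ * V, (Ss k).mul_mem hgS ?_, ?_⟩
  · rw [hV]
    exact A1_Winv_mem k n
  · rw [mul_assoc, hVP, inv_mul_cancel₀ hne]

theorem prf_A1 (hA1a : A1a) : A1 := by
  intro k _ d hd hd0
  obtain ⟨e, he1, he2, he3⟩ := hA1a k
  have hcomp : IsAdicComplete (maximalIdeal (PowerSeries k)) (PowerSeries k) := by
    rw [PowerSeries.maximalIdeal_eq_span_X]
    infer_instance
  -- `e` on polynomials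
  have hpoly : ∀ f : (PowerSeries k)[X], e (f : PowerSeries (PowerSeries k)) =
      jj k (f.map (HahnSeries.ofPowerSeries ℤ k)) := by
    have h1 : e.comp (Polynomial.coeToPowerSeries.ringHom (R := PowerSeries k)) =
        (jj k).comp (mapRingHom (HahnSeries.ofPowerSeries ℤ k)) := by
      refine Polynomial.ringHom_ext (fun a => ?_) ?_
      · have h2 : (jj k).comp (mapRingHom (HahnSeries.ofPowerSeries ℤ k)) (C a) =
            KF k (HahnSeries.ofPowerSeries ℤ k a) := by
          simp [jj]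
        rw [h2]
        have h3 : e.comp (Polynomial.coeToPowerSeries.ringHom (R := PowerSeries k)) (C a) =
            e (PowerSeries.C a) := by
          simp
        rw [h3]
        ext j i
        rw [A1_KF_coeff]
        rcases lt_or_ge j 0 with hj | hj
        · rw [he2 _ _ _ (Or.inl hj), A1_ofPS_neg _ _ hj]
          simp
        rcases lt_or_ge i 0 with hi | hi
        · rw [he2 _ _ _ (Or.inr hi), if_neg (by omega)]
        · obtain ⟨j, rfl⟩ := Int.eq_ofNat_of_zero_le hj
          obtain ⟨i, rfl⟩ := Int.eq_ofNat_of_zero_le hi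
          rw [he1, PowerSeries.coeff_C, HahnSeries.ofPowerSeries_apply_coeff]
          by_cases h0 : i = 0
          · subst h0
            simp
          · rw [if_neg h0, if_neg (by exact_mod_cast h0)]
            simp
      · have h2 : (jj k).comp (mapRingHom (HahnSeries.ofPowerSeries ℤ k)) X = Ww k := by
          simp [jj]
        have h3 : e.comp (Polynomial.coeToPowerSeries.ringHom (R := PowerSeries k)) X =
            e PowerSeries.X := by
          simp
        rw [h2, h3]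
        ext j i
        have h4 : ((Ww k).coeff j).coeff i = if j = 0 then (if i = 1 then 1 else 0) else 0 := by
          unfold Ww
          rw [HahnSeries.C_apply, HahnSeries.coeff_single]
          by_cases hj : j = 0
          · rw [if_pos hj, if_pos hj, HahnSeries.coeff_single]
            by_cases hi : i = 1
            · rw [if_pos hi, if_pos hi]
            · rw [if_neg hi, if_neg hi]
          · rw [if_neg hj, if_neg hj]
            simp
        rw [h4]
        rcases lt_or_ge j 0 with hj | hj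
        · rw [he2 _ _ _ (Or.inl hj), if_neg (by omega)]
        rcases lt_or_ge i 0 with hi | hi
        · rw [he2 _ _ _ (Or.inr hi), if_neg (show ¬ i = 1 by omega)]
          split_ifs <;> rfl
        · obtain ⟨j, rfl⟩ := Int.eq_ofNat_of_zero_le hj
          obtain ⟨i, rfl⟩ := Int.eq_ofNat_of_zero_le hi
          rw [he1, PowerSeries.coeff_X]
          by_cases h1 : i = 1
          · subst h1
            rw [if_pos rfl, PowerSeries.coeff_one]
            by_cases h0 : j = 0
            · subst h0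
              simp
            · rw [if_neg h0, if_neg (by exact_mod_cast h0)]
          · rw [if_neg h1, if_neg (show ¬ ((i : ℕ) : ℤ) = 1 by exact_mod_cast h1)]
            simp
    intro f
    have := congrArg (fun g => g f) h1
    simpa using this
  have heR : ∀ f, e f ∈ Rr k := fun f j i hi => he2 f j i (Or.inr hi)
  -- every element of `R` is `T^c e(g0)`
  have hrep : ∀ g ∈ Rr k, ∃ g0, e g0 = HahnSeries.single (-g.order) (1 : LaurentSeries k) * g := by
    intro g hg
    refine he3 _ fun j i hji => ?_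
    rw [A1_T_mul]
    rcases lt_or_ge j 0 with hj | hj
    · have h0 : g.coeff (j - -g.order) = 0 :=
        HahnSeries.coeff_eq_zero_of_lt_order (by omega)
      rw [h0]
      simp
    · exact hg _ _ (by omega)
  obtain ⟨d0, hd0e⟩ := hrep d hd
  have hTd : ∀ g : Fk k, HahnSeries.single g.order (1 : LaurentSeries k) *
      (HahnSeries.single (-g.order) (1 : LaurentSeries k) * g) = g := by
    intro g
    rw [← mul_assoc, A1_T_inv, one_mul]
  -- the reduction of `d0` is nonzero
  have hres : d0.map (residue (PowerSeries k)) ≠ 0 := by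
    intro h0
    have h1 : (e d0).coeff 0 ≠ 0 := by
      rw [hd0e, A1_T_mul, sub_neg_eq_add, zero_add]
      exact fun hz => hd0 (HahnSeries.coeff_order_eq_zero.1 hz)
    apply h1
    ext i
    rcases lt_or_ge i 0 with hi | hi
    · rw [he2 _ _ _ (Or.inr hi)]
      simp
    · obtain ⟨i, rfl⟩ := Int.eq_ofNat_of_zero_le hi
      have h2 := he1 d0 0 i
      rw [Nat.cast_zero] at h2
      rw [h2]
      have h3 : residue (PowerSeries k) (PowerSeries.coeff i d0) = 0 := by
        rw [← PowerSeries.coeff_map, h0, map_zero]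
      rw [residue_eq_zero_iff, PowerSeries.maximalIdeal_eq_span_X, Ideal.mem_span_singleton,
        PowerSeries.X_dvd_iff, ← PowerSeries.coeff_zero_eq_constantCoeff_apply] at h3
      rw [h3]
      simp
  obtain ⟨P0, h0, hW⟩ := PowerSeries.exists_isWeierstrassFactorization hres
  obtain ⟨h0', hh⟩ := hW.isUnit.exists_right_inv
  have hP0m : P0.Monic := hW.isDistinguishedAt.monic
  obtain ⟨q, hq, hqP⟩ := A1_unit P0 hP0m (fun n hn => by
    have h3 := hW.isDistinguishedAt.mem hn
    rwa [PowerSeries.maximalIdeal_eq_span_X, Ideal.mem_span_singleton,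
        PowerSeries.X_dvd_iff] at h3)
  refine ⟨P0.map (HahnSeries.ofPowerSeries ℤ k),
    HahnSeries.single d.order (1 : LaurentSeries k) * e h0,
    HahnSeries.single (-d.order) (1 : LaurentSeries k) * e h0', q, hP0m.map _,
    (Rr k).mul_mem (A1_T_mem _) (heR _), (Rr k).mul_mem (A1_T_mem _) (heR _), ?_, ?_, hq, hqP, ?_⟩
  · have h1 : e h0 * e h0' = 1 := by rw [← map_mul, hh, map_one]
    have h2 := A1_T_inv (k := k) d.order
    linear_combination (HahnSeries.single d.order (1 : LaurentSeries k) *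
      HahnSeries.single (-d.order) (1 : LaurentSeries k)) * h1 + h2
  · rw [← hpoly, mul_assoc, ← map_mul, mul_comm h0, ← hW.eq_mul, hd0e, hTd]
  · intro g hg
    obtain ⟨g0, hg0⟩ := hrep g hg
    obtain ⟨q0, r0, hdv⟩ := g0.exists_isWeierstrassDivision hres
    have h1 := hdv.eq_mul_add
    refine ⟨HahnSeries.single g.order (1 : LaurentSeries k) * e (h0 * q0),
      C (HahnSeries.single g.order (1 : k)) * r0.map (HahnSeries.ofPowerSeries ℤ k),
      (Rr k).mul_mem (A1_T_mem _) (heR _), ?_⟩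
    have h2 : jj k (C (HahnSeries.single g.order (1 : k)) *
        r0.map (HahnSeries.ofPowerSeries ℤ k)) =
        HahnSeries.single g.order (1 : LaurentSeries k) * e r0 := by
      rw [map_mul, ← hpoly]
      congr 1
      rw [← A1_KF_T]
      simp [jj]
    rw [h2, ← hpoly, mul_assoc, ← map_mul, ← mul_add, ← map_add]
    have h3 : h0 * q0 * (P0 : PowerSeries (PowerSeries k)) + r0 = g0 := by
      rw [h1, hW.eq_mul]
      ring
    rw [h3, hg0, hTd]

end MP7b0bad

end

section

set_option autoImplicit false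

namespace MP7b0bad

/-- Exchange of the two variables. -/
noncomputable def A1a_swap (k : Type) [Field k] :
    PowerSeries (PowerSeries k) →+* PowerSeries (PowerSeries k) where
  toFun f := PowerSeries.mk fun j => PowerSeries.mk fun i =>
    PowerSeries.coeff j (PowerSeries.coeff i f)
  map_one' := by
    ext j i
    rw [PowerSeries.coeff_mk, PowerSeries.coeff_mk, PowerSeries.coeff_one, PowerSeries.coeff_one]
    by_cases hi : i = 0 <;> by_cases hj : j = 0 <;> simp [hi, hj, PowerSeries.coeff_one]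
  map_mul' f g := by
    ext j i
    rw [PowerSeries.coeff_mk, PowerSeries.coeff_mk, PowerSeries.coeff_mul, map_sum,
      PowerSeries.coeff_mul, map_sum]
    simp only [PowerSeries.coeff_mul, PowerSeries.coeff_mk]
    exact Finset.sum_comm
  map_zero' := by
    ext j i
    simp
  map_add' f g := by
    ext j i
    simp

theorem A1a_coeff_swap (k : Type) [Field k] (f : PowerSeries (PowerSeries k)) (j i : ℕ) :
    PowerSeries.coeff i (PowerSeries.coeff j (A1a_swap k f)) =
      PowerSeries.coeff j (PowerSeries.coeff i f) := by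
  unfold A1a_swap
  simp only [RingHom.coe_mk, MonoidHom.coe_mk, OneHom.coe_mk, PowerSeries.coeff_mk]

/-- The embedding. -/
noncomputable def A1a_e (k : Type) [Field k] : PowerSeries (PowerSeries k) →+* Fk k :=
  (HahnSeries.ofPowerSeries ℤ (LaurentSeries k)).comp
    ((PowerSeries.map (HahnSeries.ofPowerSeries ℤ k)).comp (A1a_swap k))

theorem A1a_coeff_neg {R : Type} [Semiring R] (f : PowerSeries R) (n : ℤ) (hn : n < 0) :
    (HahnSeries.ofPowerSeries ℤ R f).coeff n = 0 := by
  rw [PowerSeries.coeff_coe, if_pos hn]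

theorem A1a_e_coeff (k : Type) [Field k] (f : PowerSeries (PowerSeries k)) (j : ℕ) :
    (A1a_e k f).coeff (j : ℤ) =
      HahnSeries.ofPowerSeries ℤ k (PowerSeries.coeff j (A1a_swap k f)) := by
  unfold A1a_e
  rw [RingHom.comp_apply, RingHom.comp_apply, HahnSeries.ofPowerSeries_apply_coeff,
    PowerSeries.coeff_map]

theorem A1a_e_nat (k : Type) [Field k] (f : PowerSeries (PowerSeries k)) (j i : ℕ) :
    ((A1a_e k f).coeff (j : ℤ)).coeff (i : ℤ) = PowerSeries.coeff j (PowerSeries.coeff i f) := by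
  rw [A1a_e_coeff, HahnSeries.ofPowerSeries_apply_coeff, A1a_coeff_swap]

theorem A1a_e_neg (k : Type) [Field k] (f : PowerSeries (PowerSeries k)) (j i : ℤ)
    (h : j < 0 ∨ i < 0) : ((A1a_e k f).coeff j).coeff i = 0 := by
  rcases lt_or_ge j 0 with hj | hj
  · have : (A1a_e k f).coeff j = 0 := A1a_coeff_neg _ j hj
    rw [this, HahnSeries.coeff_zero]
  · obtain ⟨n, rfl⟩ := Int.eq_ofNat_of_zero_le hj
    have hi : i < 0 := by omega
    rw [A1a_e_coeff, A1a_coeff_neg _ i hi]

theorem prf_A1a : A1a := by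
  intro k _
  refine ⟨A1a_e k, A1a_e_nat k, A1a_e_neg k, ?_⟩
  intro a ha
  refine ⟨PowerSeries.mk fun i => PowerSeries.mk fun j => (a.coeff (j : ℤ)).coeff (i : ℤ), ?_⟩
  ext j i
  by_cases h : j < 0 ∨ i < 0
  · rw [A1a_e_neg k _ j i h, ha j i h]
  · push Not at h
    obtain ⟨j', rfl⟩ := Int.eq_ofNat_of_zero_le h.1
    obtain ⟨i', rfl⟩ := Int.eq_ofNat_of_zero_le h.2
    rw [A1a_e_nat, PowerSeries.coeff_mk, PowerSeries.coeff_mk]

end MP7b0bad

end

section

set_option autoImplicit false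

/-!
# A2: expansion of `S` at `w = ∞` (helper26)
-/

namespace MP7b0bad

open Finset

theorem A2_mul_coeff {R : Type} [CommRing R] (a b : LaurentSeries R) (n : ℤ) (T : Finset ℤ)
    (hT : ∀ i : ℤ, a.coeff i ≠ 0 → b.coeff (n - i) ≠ 0 → i ∈ T) :
    (a * b).coeff n = ∑ i ∈ T, a.coeff i * b.coeff (n - i) := by
  rw [HahnSeries.coeff_mul]
  refine Finset.sum_bij_ne_zero (fun ij _ _ => ij.1) ?_ ?_ ?_ ?_
  · intro ij h1 _
    simp only [Finset.mem_antidiagonal, HahnSeries.mem_support] at h1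
    obtain ⟨h2, h3, h4⟩ := h1
    refine hT _ h2 ?_
    rwa [← h4, add_sub_cancel_left]
  · intro ij h1 _ ij' h1' _ he
    simp only [Finset.mem_antidiagonal, HahnSeries.mem_support] at h1 h1'
    obtain ⟨_, _, h4⟩ := h1
    obtain ⟨_, _, h4'⟩ := h1'
    ext
    · exact he
    · omega
  · intro i _ hi
    have h1 : a.coeff i ≠ 0 := left_ne_zero_of_mul hi
    have h2 : b.coeff (n - i) ≠ 0 := right_ne_zero_of_mul hi
    refine ⟨(i, n - i), ?_, hi, rfl⟩
    simp only [Finset.mem_antidiagonal, HahnSeries.mem_support]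
    exact ⟨h1, h2, by omega⟩
  · intro ij h1 _
    simp only [Finset.mem_antidiagonal, HahnSeries.mem_support] at h1
    obtain ⟨_, _, h4⟩ := h1
    rw [← h4, add_sub_cancel_left]

variable {k : Type} [Field k]

/-- the inner series -/
noncomputable def A2_in (a : Fk k) (m : ℤ) : LaurentSeries k :=
  HahnSeries.ofSuppBddBelow (fun j => (a.coeff j).coeff (-m)) ⟨a.order, by
    intro j hj
    by_contra h
    apply hj
    show (a.coeff j).coeff (-m) = 0
    rw [HahnSeries.coeff_eq_zero_of_lt_order (not_le.1 h)]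
    simp⟩

theorem A2_in_coeff (a : Fk k) (m j : ℤ) : (A2_in a m).coeff j = (a.coeff j).coeff (-m) := rfl

/-- the expansion -/
noncomputable def A2_l (s : Ss k) : LaurentSeries (LaurentSeries k) :=
  HahnSeries.ofSuppBddBelow (fun m => A2_in (s : Fk k) m) (by
    obtain ⟨D, hD⟩ := s.2
    refine ⟨-D, ?_⟩
    intro m hm
    by_contra h
    apply hm
    show A2_in (s : Fk k) m = 0
    ext j
    rw [A2_in_coeff, hD j (-m) (by omega)]
    rfl)

theorem A2_l_coeff (s : Ss k) (m j : ℤ) :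
    ((A2_l s).coeff m).coeff j = ((s : Fk k).coeff j).coeff (-m) := rfl

theorem prf_A2 : A2 := by
  intro k _
  refine ⟨{ toFun := A2_l, map_one' := ?_, map_mul' := ?_, map_zero' := ?_, map_add' := ?_ },
    fun s m j => rfl⟩
  · ext m j
    rw [A2_l_coeff]
    by_cases hm : m = 0
    · subst hm
      by_cases hj : j = 0
      · subst hj
        simp [HahnSeries.coeff_one]
      · simp [HahnSeries.coeff_one, hj]
    · by_cases hj : j = 0
      · subst hj
        simp [HahnSeries.coeff_one, hm]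
      · simp [HahnSeries.coeff_one, hj, hm]
  · intro s s'
    ext m j
    rw [A2_l_coeff]
    obtain ⟨D, hD⟩ := s.2
    obtain ⟨D', hD'⟩ := s'.2
    set A := (s : Fk k).order with hA
    set A' := (s' : Fk k).order with hA'
    have hA0 : ∀ j, j < A → (s : Fk k).coeff j = 0 := fun j hj =>
      HahnSeries.coeff_eq_zero_of_lt_order hj
    have hA0' : ∀ j, j < A' → (s' : Fk k).coeff j = 0 := fun j hj =>
      HahnSeries.coeff_eq_zero_of_lt_order hj
    have e1 : ((s * s' : Ss k) : Fk k) = (s : Fk k) * s' := rfl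
    rw [e1, A2_mul_coeff (s : Fk k) s' j (Finset.Icc A (j - A')) (by
      intro i h1 h2
      rw [Finset.mem_Icc]
      constructor
      · by_contra h
        exact h1 (hA0 i (not_le.1 h))
      · by_contra h
        exact h2 (hA0' _ (by omega)))]
    rw [A2_mul_coeff (A2_l s) (A2_l s') m (Finset.Icc (-D) (m + D')) (by
      intro i h1 h2
      rw [Finset.mem_Icc]
      constructor
      · by_contra h
        apply h1
        ext j
        rw [A2_l_coeff, hD j (-i) (by omega)]
        rfl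
      · by_contra h
        apply h2
        ext j
        rw [A2_l_coeff, hD' j (-(m - i)) (by omega)]
        rfl)]
    rw [HahnSeries.coeff_sum, HahnSeries.coeff_sum]
    have e2 : ∀ j1, ((s : Fk k).coeff j1 * (s' : Fk k).coeff (j - j1)).coeff (-m) =
        ∑ i ∈ Finset.Icc (-m - D') D, ((s : Fk k).coeff j1).coeff i *
          ((s' : Fk k).coeff (j - j1)).coeff (-m - i) := by
      intro j1
      refine A2_mul_coeff _ _ _ _ ?_
      intro i h1 h2
      rw [Finset.mem_Icc]
      constructor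
      · by_contra h
        exact h2 (hD' _ _ (by omega))
      · by_contra h
        exact h1 (hD _ _ (by omega))
    have e3 : ∀ m1, ((A2_l s).coeff m1 * (A2_l s').coeff (m - m1)).coeff j =
        ∑ j1 ∈ Finset.Icc A (j - A'), ((s : Fk k).coeff j1).coeff (-m1) *
          ((s' : Fk k).coeff (j - j1)).coeff (-(m - m1)) := by
      intro m1
      refine A2_mul_coeff _ _ _ _ ?_
      intro i h1 h2
      rw [Finset.mem_Icc]
      constructor
      · by_contra h
        apply h1
        rw [A2_l_coeff, hA0 i (not_le.1 h)]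
        rfl
      · by_contra h
        apply h2
        rw [A2_l_coeff, hA0' _ (by omega)]
        rfl
    simp_rw [e2, e3]
    rw [Finset.sum_comm]
    refine Finset.sum_bij' (fun i _ => -i) (fun i _ => -i) ?_ ?_ ?_ ?_ ?_
    · intro i hi
      rw [Finset.mem_Icc] at hi ⊢
      omega
    · intro i hi
      rw [Finset.mem_Icc] at hi ⊢
      omega
    · intro i _
      exact neg_neg i
    · intro i _
      exact neg_neg i
    · intro i _
      refine Finset.sum_congr rfl fun j1 _ => ?_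
      have h1 : - -i = i := neg_neg i
      have h2 : -(m - -i) = -m - i := by ring
      rw [h1, h2]
  · ext m j
    rw [A2_l_coeff]
    simp
  · intro s s'
    ext m j
    rw [A2_l_coeff]
    show (((s : Fk k) + (s' : Fk k)).coeff j).coeff (-m) = _
    rw [HahnSeries.coeff_add, HahnSeries.coeff_add, HahnSeries.coeff_add, HahnSeries.coeff_add,
      A2_l_coeff, A2_l_coeff]

end MP7b0bad

end

section

set_option autoImplicit false

namespace MP7b0bad

open Polynomial

theorem A3_mulZ {R : Type} [CommRing R] (a b : HahnSeries ℤ R) (A B m : ℤ)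
    (hA : ∀ j : ℤ, j < A → a.coeff j = 0) (hB : ∀ j : ℤ, j < B → b.coeff j = 0) :
    (a * b).coeff m = ∑ j ∈ Finset.Icc A (m - B), a.coeff j * b.coeff (m - j) := by
  rw [HahnSeries.coeff_mul]
  refine Finset.sum_bij_ne_zero (fun ij _ _ => ij.1) ?_ ?_ ?_ ?_
  · intro ij h h0
    rw [Finset.mem_antidiagonal] at h
    have h1 : A ≤ ij.1 := by
      by_contra hc
      exact h.1 (hA _ (not_le.1 hc))
    have h2 : B ≤ ij.2 := by
      by_contra hc
      exact h.2.1 (hB _ (not_le.1 hc))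
    rw [Finset.mem_Icc]
    omega
  · intro ij h h0 ij' h' h0' he
    rw [Finset.mem_antidiagonal] at h h'
    apply Prod.ext
    · exact he
    · omega
  · intro j hj h0
    refine ⟨(j, m - j), ?_, h0, rfl⟩
    rw [Finset.mem_antidiagonal]
    exact ⟨left_ne_zero_of_mul h0, right_ne_zero_of_mul h0, by simp⟩
  · intro ij h h0
    rw [Finset.mem_antidiagonal] at h
    have : ij.2 = m - ij.1 := by omega
    rw [this]

theorem A3_mulN {k : Type} [Field k] (u v : LaurentSeries k)
    (hu : ∀ j : ℤ, j < 0 → u.coeff j = 0) (hv : ∀ j : ℤ, j < 0 → v.coeff j = 0) (i : ℕ) :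
    (u * v).coeff (i : ℤ) =
      ∑ p ∈ Finset.HasAntidiagonal.antidiagonal i, u.coeff (p.1 : ℤ) * v.coeff (p.2 : ℤ) := by
  rw [A3_mulZ u v 0 0 i hu hv]
  symm
  refine Finset.sum_bij (fun p _ => (p.1 : ℤ)) ?_ ?_ ?_ ?_
  · intro p hp
    rw [Finset.HasAntidiagonal.mem_antidiagonal] at hp
    rw [Finset.mem_Icc]
    omega
  · intro p hp q hq he
    rw [Finset.HasAntidiagonal.mem_antidiagonal] at hp hq
    apply Prod.ext
    · exact_mod_cast he
    · omega
  · intro j hj
    rw [Finset.mem_Icc] at hj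
    refine ⟨(j.toNat, i - j.toNat), ?_, ?_⟩
    · rw [Finset.HasAntidiagonal.mem_antidiagonal]
      simp only
      omega
    · simp only
      omega
  · intro p hp
    rw [Finset.HasAntidiagonal.mem_antidiagonal] at hp
    have : (i : ℤ) - (p.1 : ℤ) = (p.2 : ℤ) := by omega
    rw [this]

theorem A3_shift {k : Type} [Field k] (F : ℤ → k) (A C D : ℤ) (c : ℕ)
    (h1 : ∀ j : ℤ, j < A → F j = 0) (h2 : ∀ j : ℤ, C < j → F j = 0) (hD : C + c ≤ D) :
    ∑ s ∈ Finset.Icc A D, F (s - c) = ∑ j ∈ Finset.Icc A C, F j := by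
  symm
  refine Finset.sum_bij_ne_zero (fun j _ _ => j + c) ?_ ?_ ?_ ?_
  · intro j hj _
    rw [Finset.mem_Icc] at hj ⊢
    omega
  · intro j _ _ j' _ _ he
    omega
  · intro s hs h0
    have h3 : A ≤ s - c := by
      by_contra hc
      exact h0 (h1 _ (not_le.1 hc))
    have h4 : s - c ≤ C := by
      by_contra hc
      exact h0 (h2 _ (not_le.1 hc))
    exact ⟨s - c, Finset.mem_Icc.2 ⟨h3, h4⟩, h0, by simp⟩
  · intro j _ _
    simp

/-- the polynomial coefficient -/
noncomputable def A3_c {k : Type} [Field k] (r : Fk k) (n : ℤ) : k[X] :=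
  ∑ i ∈ Finset.range (n - r.order + 1).toNat, monomial i ((r.coeff (n - (i : ℤ))).coeff (i : ℤ))

theorem A3_c_coeff {k : Type} [Field k] (r : Fk k) (n : ℤ) (i : ℕ) :
    (A3_c r n).coeff i = (r.coeff (n - (i : ℤ))).coeff (i : ℤ) := by
  unfold A3_c
  rw [finsetSum_coeff]
  simp only [coeff_monomial, Finset.sum_ite_eq', Finset.mem_range]
  split_ifs with h
  · rfl
  · rw [HahnSeries.coeff_eq_zero_of_lt_order (x := r) (by omega)]
    simp

theorem A3_c_zero {k : Type} [Field k] (r : Fk k) (n : ℤ) (h : n < r.order) : A3_c r n = 0 := by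
  unfold A3_c
  rw [Int.toNat_eq_zero.2 (by omega)]
  simp

/-- the Laurent series -/
noncomputable def A3_s {k : Type} [Field k] (r : Fk k) : LaurentSeries k[X] :=
  HahnSeries.ofSuppBddBelow (A3_c r) ⟨r.order, fun n hn => by
    by_contra hc
    exact hn (A3_c_zero r n (not_le.1 hc))⟩

theorem A3_s_coeff {k : Type} [Field k] (r : Fk k) (n : ℤ) (i : ℕ) :
    ((A3_s r).coeff n).coeff i = (r.coeff (n - (i : ℤ))).coeff (i : ℤ) := by
  change (A3_c r n).coeff i = _
  exact A3_c_coeff r n i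

theorem A3_mul {k : Type} [Field k] (a b : Fk k) (ha : a ∈ Rr k) (hb : b ∈ Rr k) :
    A3_s (a * b) = A3_s a * A3_s b := by
  ext n i
  rw [A3_s_coeff]
  have hA : ∀ j : ℤ, j < a.order → a.coeff j = 0 :=
    fun j hj => HahnSeries.coeff_eq_zero_of_lt_order hj
  have hB : ∀ j : ℤ, j < b.order → b.coeff j = 0 :=
    fun j hj => HahnSeries.coeff_eq_zero_of_lt_order hj
  rw [A3_mulZ a b a.order b.order _ hA hB, HahnSeries.coeff_sum]
  rw [A3_mulZ (A3_s a) (A3_s b) a.order b.order n (fun j hj => A3_c_zero a j hj)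
    (fun j hj => A3_c_zero b j hj), finsetSum_coeff]
  have h1 : ∀ j : ℤ, (a.coeff j * b.coeff (n - (i : ℤ) - j)).coeff (i : ℤ) =
      ∑ p ∈ Finset.HasAntidiagonal.antidiagonal i, (a.coeff j).coeff (p.1 : ℤ) *
        (b.coeff (n - (i : ℤ) - j)).coeff (p.2 : ℤ) :=
    fun j => A3_mulN _ _ (fun l hl => ha j l hl) (fun l hl => hb _ l hl) i
  have h2 : ∀ s : ℤ, ((A3_s a).coeff s * (A3_s b).coeff (n - s)).coeff i =
      ∑ p ∈ Finset.HasAntidiagonal.antidiagonal i, (a.coeff (s - (p.1 : ℤ))).coeff (p.1 : ℤ) *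
        (b.coeff (n - s - (p.2 : ℤ))).coeff (p.2 : ℤ) := by
    intro s
    rw [coeff_mul]
    exact Finset.sum_congr rfl fun p _ => by rw [A3_s_coeff, A3_s_coeff]
  rw [Finset.sum_congr rfl fun j _ => h1 j, Finset.sum_congr rfl fun s _ => h2 s,
    Finset.sum_comm, Finset.sum_comm (s := Finset.Icc a.order (n - b.order))]
  refine Finset.sum_congr rfl fun p hp => ?_
  rw [Finset.HasAntidiagonal.mem_antidiagonal] at hp
  rw [← A3_shift (fun j => (a.coeff j).coeff (p.1 : ℤ) *
    (b.coeff (n - (i : ℤ) - j)).coeff (p.2 : ℤ)) a.order (n - (i : ℤ) - b.order) (n - b.order) p.1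
    (fun j hj => by rw [hA j hj]; simp) (fun j hj => by rw [hB _ (by omega)]; simp) (by omega)]
  refine Finset.sum_congr rfl fun s _ => ?_
  have h3 : n - (i : ℤ) - (s - (p.1 : ℤ)) = n - s - (p.2 : ℤ) := by omega
  simp only [h3]

theorem prf_A3 : A3 := by
  intro k _
  refine ⟨{ toFun := fun r => A3_s (r : Fk k), map_one' := ?_, map_mul' := ?_, map_zero' := ?_,
            map_add' := ?_ }, fun r n i => A3_s_coeff _ n i⟩
  · ext n i
    rw [A3_s_coeff]
    change ((1 : Fk k).coeff (n - (i : ℤ))).coeff (i : ℤ) = _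
    rw [HahnSeries.coeff_one, HahnSeries.coeff_one]
    by_cases hi : i = 0
    · subst hi
      by_cases hn : n = 0
      · simp [hn]
      · simp [hn]
    · by_cases hn : n = 0
      · have h1 : n - (i : ℤ) ≠ 0 := by omega
        rw [if_neg h1, if_pos hn, coeff_one, if_neg hi]
        simp
      · rw [if_neg hn]
        split_ifs with h1
        · rw [HahnSeries.coeff_one, if_neg (by omega)]
          simp
        · simp
  · intro a b
    exact A3_mul _ _ a.2 b.2
  · ext n i
    rw [A3_s_coeff]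
    simp
  · intro a b
    ext n i
    rw [A3_s_coeff, HahnSeries.coeff_add, coeff_add, A3_s_coeff, A3_s_coeff]
    simp

end MP7b0bad

end

section

set_option autoImplicit false

/-!
MP_7b0bad_ag, item A4 (helper67): factorisation of matrices congruent to 1 modulo `T`.
-/

namespace MP7b0bad

/-- negative part of a Laurent series -/
noncomputable def A4_neg {k : Type} [Field k] (a : LaurentSeries k) : LaurentSeries k :=
  HahnSeries.truncLT (0 : ℤ) a

/-- nonpositive support -/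
noncomputable def A4_Neg (k : Type) [Field k] : Subring (LaurentSeries k) where
  carrier := {a | ∀ m : ℤ, 0 < m → a.coeff m = 0}
  one_mem' := fun m hm => by rw [HahnSeries.coeff_one, if_neg (by omega)]
  mul_mem' := fun {a b} ha hb m hm => mul_coeff_pos a b 0 0 ha hb m (by omega)
  zero_mem' := fun m _ => by simp
  add_mem' := fun {a b} ha hb m hm => by
    have h1 := ha m hm
    have h2 := hb m hm
    simp [h1, h2]
  neg_mem' := fun {a} ha m hm => by
    have h1 := ha m hm
    simp [h1]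

/-- nonnegative support -/
noncomputable def A4_Pos (k : Type) [Field k] : Subring (LaurentSeries k) where
  carrier := {a | ∀ m : ℤ, m < 0 → a.coeff m = 0}
  one_mem' := fun m hm => by rw [HahnSeries.coeff_one, if_neg (by omega)]
  mul_mem' := fun {a b} ha hb m hm => mul_coeff_neg a b 0 0 ha hb m (by omega)
  zero_mem' := fun m _ => by simp
  add_mem' := fun {a b} ha hb m hm => by
    have h1 := ha m hm
    have h2 := hb m hm
    simp [h1, h2]
  neg_mem' := fun {a} ha m hm => by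
    have h1 := ha m hm
    simp [h1]

theorem A4_neg_mem {k : Type} [Field k] (a : LaurentSeries k) : A4_neg a ∈ A4_Neg k := by
  intro m hm
  exact HahnSeries.coeff_truncLT_of_le (by omega) a

theorem A4_pos_mem {k : Type} [Field k] (a : LaurentSeries k) : a - A4_neg a ∈ A4_Pos k := by
  intro m hm
  rw [HahnSeries.coeff_sub, A4_neg, HahnSeries.coeff_truncLT_of_lt hm, sub_self]

/-- from power series over matrices to matrices over `F` -/
noncomputable def A4_Phi {k : Type} [Field k] {r : ℕ}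
    (f : PowerSeries (Matrix (Fin r) (Fin r) (LaurentSeries k))) :
    Matrix (Fin r) (Fin r) (Fk k) :=
  Matrix.of fun i j => HahnSeries.ofPowerSeries ℤ (LaurentSeries k)
    (PowerSeries.mk fun n => PowerSeries.coeff n f i j)

theorem A4_Phi_apply {k : Type} [Field k] {r : ℕ}
    (f : PowerSeries (Matrix (Fin r) (Fin r) (LaurentSeries k))) (i j : Fin r) :
    A4_Phi f i j = HahnSeries.ofPowerSeries ℤ (LaurentSeries k)
    (PowerSeries.mk fun n => PowerSeries.coeff n f i j) := rfl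

theorem A4_Phi_coeff {k : Type} [Field k] {r : ℕ}
    (f : PowerSeries (Matrix (Fin r) (Fin r) (LaurentSeries k))) (i j : Fin r) (n : ℤ) :
    (A4_Phi f i j).coeff n = if n < 0 then 0 else PowerSeries.coeff n.natAbs f i j := by
  rw [A4_Phi_apply, PowerSeries.coeff_coe, PowerSeries.coeff_mk]

theorem A4_Phi_one {k : Type} [Field k] {r : ℕ} :
    A4_Phi (1 : PowerSeries (Matrix (Fin r) (Fin r) (LaurentSeries k))) = 1 := by
  ext i j n
  congr 1
  rw [A4_Phi_coeff, Matrix.one_apply]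
  by_cases hn : n < 0
  · rw [if_pos hn]
    split_ifs
    · rw [HahnSeries.coeff_one, if_neg (by omega)]
    · rw [HahnSeries.coeff_zero]
  · rw [if_neg hn, PowerSeries.coeff_one]
    by_cases h0 : n = 0
    · subst h0
      simp only [Int.natAbs_zero, if_true, Matrix.one_apply]
      split_ifs
      · rw [HahnSeries.coeff_one, if_pos rfl]
      · rw [HahnSeries.coeff_zero]
    · rw [if_neg (by omega), Matrix.zero_apply]
      split_ifs
      · rw [HahnSeries.coeff_one, if_neg h0]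
      · rw [HahnSeries.coeff_zero]

theorem A4_Phi_mul {k : Type} [Field k] {r : ℕ}
    (f g : PowerSeries (Matrix (Fin r) (Fin r) (LaurentSeries k))) :
    A4_Phi (f * g) = A4_Phi f * A4_Phi g := by
  ext1 i j
  rw [Matrix.mul_apply, A4_Phi_apply]
  have h : ∀ l : Fin r, A4_Phi f i l * A4_Phi g l j =
      HahnSeries.ofPowerSeries ℤ (LaurentSeries k)
        ((PowerSeries.mk fun n => PowerSeries.coeff n f i l) *
          (PowerSeries.mk fun n => PowerSeries.coeff n g l j)) := by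
    intro l
    rw [A4_Phi_apply, A4_Phi_apply, map_mul]
  rw [Finset.sum_congr rfl (fun l _ => h l), ← map_sum]
  congr 1
  ext1 n
  rw [PowerSeries.coeff_mk, PowerSeries.coeff_mul, Matrix.sum_apply, map_sum]
  simp only [PowerSeries.coeff_mul, PowerSeries.coeff_mk, Matrix.mul_apply]
  rw [Finset.sum_comm]

theorem A4_Phi_sub {k : Type} [Field k] {r : ℕ}
    (f g : PowerSeries (Matrix (Fin r) (Fin r) (LaurentSeries k))) :
    A4_Phi (f - g) = A4_Phi f - A4_Phi g := by
  ext i j n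
  congr 1
  rw [Matrix.sub_apply, HahnSeries.coeff_sub, A4_Phi_coeff, A4_Phi_coeff, A4_Phi_coeff]
  split_ifs
  · simp
  · rw [map_sub, Matrix.sub_apply]

/-- every matrix over `F` with nonnegative `T`-support comes from a power series -/
theorem A4_Phi_surj {k : Type} [Field k] {r : ℕ} (c : Matrix (Fin r) (Fin r) (Fk k))
    (hc : ∀ (i j : Fin r) (n : ℤ), n < 0 → (c i j).coeff n = 0) :
    c = A4_Phi (PowerSeries.mk fun n => Matrix.of fun i j => (c i j).coeff (n : ℤ)) := by
  ext i j n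
  congr 1
  rw [A4_Phi_coeff, PowerSeries.coeff_mk, Matrix.of_apply]
  by_cases hn : n < 0
  · rw [if_pos hn, hc i j n hn]
  · rw [if_neg hn]
    congr 1
    omega

/-- entries in a subring -/
def A4_Mat {L : Type} [Ring L] (S : Subring L) {r : ℕ} (m : Matrix (Fin r) (Fin r) L) : Prop :=
  ∀ i j, m i j ∈ S

theorem A4_Mat_one {L : Type} [Ring L] (S : Subring L) {r : ℕ} :
    A4_Mat S (1 : Matrix (Fin r) (Fin r) L) := by
  intro i j
  rw [Matrix.one_apply]
  split_ifs
  · exact S.one_mem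
  · exact S.zero_mem

theorem A4_Mat_mul {L : Type} [Ring L] (S : Subring L) {r : ℕ} {a b : Matrix (Fin r) (Fin r) L}
    (ha : A4_Mat S a) (hb : A4_Mat S b) : A4_Mat S (a * b) := by
  intro i j
  rw [Matrix.mul_apply]
  exact S.sum_mem fun l _ => S.mul_mem (ha i l) (hb l j)

theorem A4_Mat_neg {L : Type} [Ring L] (S : Subring L) {r : ℕ} {a : Matrix (Fin r) (Fin r) L}
    (ha : A4_Mat S a) : A4_Mat S (-a) := fun i j => S.neg_mem (ha i j)

theorem A4_Mat_zero {L : Type} [Ring L] (S : Subring L) {r : ℕ} :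
    A4_Mat S (0 : Matrix (Fin r) (Fin r) L) := fun _ _ => S.zero_mem

theorem A4_Mat_sum {L : Type} [Ring L] (S : Subring L) {r : ℕ} {ι : Type} (s : Finset ι)
    (f : ι → Matrix (Fin r) (Fin r) L) (h : ∀ x ∈ s, A4_Mat S (f x)) :
    A4_Mat S (∑ x ∈ s, f x) := by
  intro i j
  rw [Matrix.sum_apply]
  exact S.sum_mem fun x hx => h x hx i j

/-- the inverse of a power series with constant coefficient `1` and coefficients in `S` -/
theorem A4_inv_mem {L : Type} [Ring L] (S : Subring L) {r : ℕ}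
    (f : PowerSeries (Matrix (Fin r) (Fin r) L)) (hf : ∀ n, A4_Mat S (PowerSeries.coeff n f))
    (n : ℕ) : A4_Mat S (PowerSeries.coeff n (PowerSeries.invOfUnit f 1)) := by
  induction n using Nat.strong_induction_on with
  | _ n ih =>
    rw [PowerSeries.coeff_invOfUnit]
    split_ifs with h0
    · rw [inv_one, Units.val_one]
      exact A4_Mat_one S
    · rw [inv_one, Units.val_one, neg_mul, one_mul]
      refine A4_Mat_neg S (A4_Mat_sum S _ _ fun x _ => ?_)
      split_ifs with hx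
      · exact A4_Mat_mul S (hf _) (ih _ hx)
      · exact A4_Mat_zero S

theorem A4_inv {L : Type} [Ring L] {r : ℕ}
    (f : PowerSeries (Matrix (Fin r) (Fin r) L)) (hf : PowerSeries.coeff 0 f = 1) :
    f * PowerSeries.invOfUnit f 1 = 1 :=
  PowerSeries.mul_invOfUnit f 1 (by
    rw [← PowerSeries.coeff_zero_eq_constantCoeff_apply, hf, Units.val_one])

/-- the recursion -/
noncomputable def A4_up {k : Type} [Field k] {r : ℕ}
    (c : ℕ → Matrix (Fin r) (Fin r) (LaurentSeries k)) :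
    ℕ → Matrix (Fin r) (Fin r) (LaurentSeries k) × Matrix (Fin r) (Fin r) (LaurentSeries k)
  | 0 => (1, 1)
  | (n + 1) =>
    let x : Matrix (Fin r) (Fin r) (LaurentSeries k) :=
      c (n + 1) - ∑ l : Fin n, (A4_up c ((l : ℕ) + 1)).1 * (A4_up c (n - (l : ℕ))).2
    (Matrix.of fun i j => A4_neg (x i j), Matrix.of fun i j => x i j - A4_neg (x i j))
  termination_by n => n
  decreasing_by
    · have := l.2; omega
    · omega

theorem A4_up_zero {k : Type} [Field k] {r : ℕ}
    (c : ℕ → Matrix (Fin r) (Fin r) (LaurentSeries k)) : A4_up c 0 = (1, 1) := by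
  rw [A4_up]

theorem A4_up_succ {k : Type} [Field k] {r : ℕ}
    (c : ℕ → Matrix (Fin r) (Fin r) (LaurentSeries k)) (n : ℕ) :
    (A4_up c (n + 1)).1 + (A4_up c (n + 1)).2 =
      c (n + 1) - ∑ l : Fin n, (A4_up c ((l : ℕ) + 1)).1 * (A4_up c (n - (l : ℕ))).2 := by
  conv_lhs => rw [A4_up]
  ext1 i j
  rw [Matrix.add_apply]
  exact add_sub_cancel _ _

theorem A4_up_neg {k : Type} [Field k] {r : ℕ}
    (c : ℕ → Matrix (Fin r) (Fin r) (LaurentSeries k)) (n : ℕ) :
    A4_Mat (A4_Neg k) (A4_up c n).1 := by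
  cases n with
  | zero => rw [A4_up_zero]; exact A4_Mat_one _
  | succ n =>
    rw [A4_up]
    intro i j
    exact A4_neg_mem _

theorem A4_up_pos {k : Type} [Field k] {r : ℕ}
    (c : ℕ → Matrix (Fin r) (Fin r) (LaurentSeries k)) (n : ℕ) :
    A4_Mat (A4_Pos k) (A4_up c n).2 := by
  cases n with
  | zero => rw [A4_up_zero]; exact A4_Mat_one _
  | succ n =>
    rw [A4_up]
    intro i j
    exact A4_pos_mem _

theorem A4_up_mul {k : Type} [Field k] {r : ℕ}
    (c : ℕ → Matrix (Fin r) (Fin r) (LaurentSeries k)) (h0 : c 0 = 1) :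
    (PowerSeries.mk fun n => (A4_up c n).1) * (PowerSeries.mk fun n => (A4_up c n).2)
      = PowerSeries.mk c := by
  ext1 n
  rw [PowerSeries.coeff_mul, PowerSeries.coeff_mk]
  simp only [PowerSeries.coeff_mk]
  rw [Finset.Nat.sum_antidiagonal_eq_sum_range_succ_mk]
  cases n with
  | zero =>
    rw [Finset.sum_range_one, Nat.sub_zero, A4_up_zero, h0, mul_one]
  | succ n =>
    rw [Finset.sum_range_succ, Finset.sum_range_succ', Nat.sub_self, Nat.sub_zero, A4_up_zero,
      one_mul, mul_one]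
    have h := A4_up_succ c n
    have h1 : ∑ l ∈ Finset.range n, (A4_up c (l + 1)).1 * (A4_up c (n + 1 - (l + 1))).2 =
        ∑ l : Fin n, (A4_up c ((l : ℕ) + 1)).1 * (A4_up c (n - (l : ℕ))).2 := by
      rw [Finset.sum_range]
      refine Finset.sum_congr rfl fun l _ => ?_
      rw [show n + 1 - ((l : ℕ) + 1) = n - (l : ℕ) by omega]
    rw [h1, add_assoc, add_comm (A4_up c (n + 1)).2, h]
    abel

theorem A4_in_S {k : Type} [Field k] {r : ℕ}
    (f : PowerSeries (Matrix (Fin r) (Fin r) (LaurentSeries k)))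
    (hf : ∀ n, A4_Mat (A4_Neg k) (PowerSeries.coeff n f)) : MatIn (Ss k) (A4_Phi f) := by
  intro i j
  refine ⟨0, fun n m hm => ?_⟩
  rw [A4_Phi_coeff]
  split_ifs
  · simp
  · exact hf _ i j m hm

theorem A4_in_R {k : Type} [Field k] {r : ℕ}
    (f : PowerSeries (Matrix (Fin r) (Fin r) (LaurentSeries k)))
    (hf : ∀ n, A4_Mat (A4_Pos k) (PowerSeries.coeff n f)) : MatIn (Rr k) (A4_Phi f) := by
  intro i j n m hm
  rw [A4_Phi_coeff]
  split_ifs
  · simp
  · exact hf _ i j m hm

theorem prf_A4 : A4 := by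
  intro k _ r c hc
  have hc1 : ∀ (i j : Fin r) (n : ℤ), n < 0 → (c i j).coeff n = 0 := by
    intro i j n hn
    have h := hc i j n hn.le
    rw [HahnSeries.coeff_sub, Matrix.one_apply] at h
    split_ifs at h
    · rw [HahnSeries.coeff_one, if_neg (by omega), sub_zero] at h
      exact h
    · rw [HahnSeries.coeff_zero, sub_zero] at h
      exact h
  have hc0 : (Matrix.of fun i j => (c i j).coeff ((0 : ℕ) : ℤ)) =
      (1 : Matrix (Fin r) (Fin r) (LaurentSeries k)) := by
    ext1 i j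
    have h := hc i j 0 le_rfl
    rw [HahnSeries.coeff_sub, Matrix.one_apply] at h
    rw [Matrix.of_apply, Matrix.one_apply, Nat.cast_zero]
    split_ifs at h ⊢
    · rw [HahnSeries.coeff_one, if_pos rfl] at h
      exact sub_eq_zero.1 h
    · rw [HahnSeries.coeff_zero, sub_zero] at h
      exact h
  set C : ℕ → Matrix (Fin r) (Fin r) (LaurentSeries k) :=
    fun n => Matrix.of fun i j => (c i j).coeff (n : ℤ) with hC
  have hcC : c = A4_Phi (PowerSeries.mk C) := A4_Phi_surj c hc1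
  have hmul := A4_up_mul C hc0
  set s : PowerSeries (Matrix (Fin r) (Fin r) (LaurentSeries k)) :=
    PowerSeries.mk fun n => (A4_up C n).1 with hs
  set ρ : PowerSeries (Matrix (Fin r) (Fin r) (LaurentSeries k)) :=
    PowerSeries.mk fun n => (A4_up C n).2 with hρ
  have hs1 : ∀ n, A4_Mat (A4_Neg k) (PowerSeries.coeff n s) := by
    intro n
    rw [hs, PowerSeries.coeff_mk]
    exact A4_up_neg C n
  have hρ1 : ∀ n, A4_Mat (A4_Pos k) (PowerSeries.coeff n ρ) := by
    intro n
    rw [hρ, PowerSeries.coeff_mk]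
    exact A4_up_pos C n
  have hs0 : PowerSeries.coeff 0 s = 1 := by
    rw [hs, PowerSeries.coeff_mk, A4_up_zero]
  have hρ0 : PowerSeries.coeff 0 ρ = 1 := by
    rw [hρ, PowerSeries.coeff_mk, A4_up_zero]
  refine ⟨A4_Phi s, A4_Phi (PowerSeries.invOfUnit s 1), A4_Phi ρ,
    A4_Phi (PowerSeries.invOfUnit ρ 1), A4_in_S s hs1, A4_in_S _ (A4_inv_mem _ s hs1),
    A4_in_R ρ hρ1, A4_in_R _ (A4_inv_mem _ ρ hρ1), ?_, ?_, ?_⟩
  · rw [← A4_Phi_mul, A4_inv s hs0, A4_Phi_one]
  · rw [← A4_Phi_mul, A4_inv ρ hρ0, A4_Phi_one]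
  · rw [← A4_Phi_mul, hmul]
    exact hcC

end MP7b0bad

end

section

set_option autoImplicit false

namespace MP7b0bad

open Polynomial Matrix

/-- The module of the polynomial vectors in `h R^r`. -/
noncomputable def A6_N {k : Type} [Field k] {r : ℕ} (h : Matrix (Fin r) (Fin r) (Fk k))
    (hj : ∀ f, jj k f ∈ Rr k) : Submodule (LaurentSeries k)[X] (Fin r → (LaurentSeries k)[X]) where
  carrier := {a | ∃ y : Fin r → Fk k, (∀ i, y i ∈ Rr k) ∧ ∀ i, jj k (a i) = ∑ j, h i j * y j}
  zero_mem' := ⟨0, fun i => (Rr k).zero_mem, fun i => by simp⟩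
  add_mem' := by
    rintro a b ⟨y, hy, hya⟩ ⟨z, hz, hzb⟩
    refine ⟨y + z, fun i => (Rr k).add_mem (hy i) (hz i), fun i => ?_⟩
    rw [Pi.add_apply, map_add, hya, hzb, ← Finset.sum_add_distrib]
    refine Finset.sum_congr rfl fun j _ => ?_
    rw [Pi.add_apply]
    ring
  smul_mem' := by
    rintro c a ⟨y, hy, hya⟩
    refine ⟨fun i => jj k c * y i, fun i => (Rr k).mul_mem (hj c) (hy i), fun i => ?_⟩
    rw [Pi.smul_apply, smul_eq_mul, map_mul, hya, Finset.mul_sum]
    refine Finset.sum_congr rfl fun j _ => ?_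
    ring

theorem A6_basis {k : Type} [Field k] {r : ℕ} (N : Submodule (LaurentSeries k)[X]
    (Fin r → (LaurentSeries k)[X])) (P : (LaurentSeries k)[X]) (hP : P ≠ 0)
    (hN : ∀ a : Fin r → (LaurentSeries k)[X], P • a ∈ N) :
    Nonempty (Module.Basis (Fin r) (LaurentSeries k)[X] N) := by
  let f : (Fin r → (LaurentSeries k)[X]) →ₗ[(LaurentSeries k)[X]] N :=
    { toFun := fun a => ⟨P • a, hN a⟩
      map_add' := fun a b => Subtype.ext (smul_add _ _ _)
      map_smul' := fun c a => Subtype.ext (by simp [smul_comm P c a]) }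
  have hf : Function.Injective f := by
    intro a b hab
    have h1 : P • a = P • b := congrArg Subtype.val hab
    funext i
    have h2 := congrFun h1 i
    simp only [Pi.smul_apply, smul_eq_mul] at h2
    exact mul_left_cancel₀ hP h2
  have h1 : r ≤ Module.finrank (LaurentSeries k)[X] N := by
    have := LinearMap.finrank_le_finrank_of_injective hf
    simpa using this
  have h2 : Module.finrank (LaurentSeries k)[X] N ≤ r := by
    have := Submodule.finrank_le N
    simpa using this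
  obtain ⟨n, ⟨b⟩⟩ := Submodule.nonempty_basis_of_pid
    (Pi.basisFun (LaurentSeries k)[X] (Fin r)) N
  have h3 : Module.finrank (LaurentSeries k)[X] N = n := by
    rw [Module.finrank_eq_card_basis b, Fintype.card_fin]
  have h4 : n = r := by omega
  exact ⟨b.reindex (finCongr h4)⟩

theorem prf_A6 (hA1 : A1) (hA8 : A8) : A6 := by
  intro k _ r h hh hdet
  obtain ⟨hinj, hj, -⟩ := hA8 k
  have hdR : h.det ∈ Rr k := by
    rw [Matrix.det_apply]
    refine (Rr k).sum_mem fun σ _ => ?_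
    rw [Units.smul_def]
    exact (Rr k).zsmul_mem ((Rr k).prod_mem fun i _ => hh _ _) _
  obtain ⟨P, u, u', q, hPm, hu, hu', huu, hd, hq, hqP, hdiv⟩ := hA1 k h.det hdR hdet
  have hadj : ∀ i j, h.adjugate i j ∈ Rr k := by
    intro i j
    rw [Matrix.adjugate_apply, Matrix.det_apply]
    refine (Rr k).sum_mem fun σ _ => ?_
    rw [Units.smul_def]
    refine (Rr k).zsmul_mem ((Rr k).prod_mem fun l _ => ?_) _
    rw [Matrix.updateRow_apply]
    split_ifs
    · rw [Pi.single_apply]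
      split_ifs
      · exact (Rr k).one_mem
      · exact (Rr k).zero_mem
    · exact hh _ _
  -- `P z` is in `h R^r`
  have hPz : ∀ z : Fin r → Fk k, (∀ i, z i ∈ Rr k) → ∃ y : Fin r → Fk k, (∀ i, y i ∈ Rr k) ∧
      ∀ i, jj k P * z i = ∑ j, h i j * y j := by
    intro z hz
    refine ⟨fun j => ∑ l, h.adjugate j l * (u' * z l), fun j => (Rr k).sum_mem fun l _ =>
      (Rr k).mul_mem (hadj j l) ((Rr k).mul_mem hu' (hz l)), fun i => ?_⟩
    have h1 : ∀ l, ∑ j, h i j * h.adjugate j l = h.det * (1 : Matrix (Fin r) (Fin r) (Fk k)) i l := by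
      intro l
      have h2 := congrFun (congrFun (Matrix.mul_adjugate h) i) l
      rw [Matrix.mul_apply] at h2
      rw [h2, Matrix.smul_apply, smul_eq_mul]
    calc jj k P * z i = h.det * (u' * z i) := by
          rw [hd]
          linear_combination (-(jj k P) * z i) * huu
      _ = ∑ l, (∑ j, h i j * h.adjugate j l) * (u' * z l) := by
          simp_rw [h1]
          rw [Finset.sum_eq_single i]
          · rw [Matrix.one_apply_eq, mul_one]
          · intro b _ hb
            rw [Matrix.one_apply_ne (Ne.symm hb)]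
            ring
          · intro hi
            exact absurd (Finset.mem_univ i) hi
      _ = ∑ j, h i j * ∑ l, h.adjugate j l * (u' * z l) := by
          simp_rw [Finset.sum_mul, Finset.mul_sum]
          rw [Finset.sum_comm]
          refine Finset.sum_congr rfl fun j _ => Finset.sum_congr rfl fun l _ => ?_
          ring
  obtain ⟨N, hNd⟩ : ∃ N, N = A6_N h (fun f => (hj f).1) := ⟨_, rfl⟩
  have hNmem : ∀ a, a ∈ N ↔ ∃ y : Fin r → Fk k, (∀ i, y i ∈ Rr k) ∧
      ∀ i, jj k (a i) = ∑ j, h i j * y j := by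
    intro a
    rw [hNd]
    rfl
  have hPN : ∀ a : Fin r → (LaurentSeries k)[X], P • a ∈ N := by
    intro a
    rw [hNmem]
    obtain ⟨y, hy, h1⟩ := hPz (fun i => jj k (a i)) (fun i => (hj _).1)
    refine ⟨y, hy, fun i => ?_⟩
    rw [Pi.smul_apply, smul_eq_mul, map_mul, h1 i]
  obtain ⟨b⟩ := A6_basis N P hPm.ne_zero hPN
  -- coordinates
  have hco : ∀ a ∈ N, ∃ c : Fin r → (LaurentSeries k)[X],
      ∀ i, jj k (a i) = ∑ l, jj k ((b l : Fin r → (LaurentSeries k)[X]) i) * jj k (c l) := by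
    intro a ha
    refine ⟨fun l => b.repr ⟨a, ha⟩ l, fun i => ?_⟩
    have h1 := b.sum_repr ⟨a, ha⟩
    have h2 := congrArg (fun z : N => (z : Fin r → (LaurentSeries k)[X]) i) h1
    simp only [Submodule.coe_sum, Submodule.coe_smul, Finset.sum_apply, Pi.smul_apply,
      smul_eq_mul] at h2
    rw [← h2, map_sum]
    refine Finset.sum_congr rfl fun l _ => ?_
    rw [map_mul, mul_comm]
  obtain ⟨m, hmd⟩ : ∃ m : Matrix (Fin r) (Fin r) (Fk k),
      m = fun i l => jj k ((b l : Fin r → (LaurentSeries k)[X]) i) := ⟨_, rfl⟩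
  have hmS : MatIn (Ss k) m := by
    intro i j
    rw [hmd]
    exact (hj _).2
  -- (1)
  have h1 : ∀ l, ∃ y : Fin r → Fk k, (∀ i, y i ∈ Rr k) ∧ ∀ i, m i l = ∑ j, h i j * y j := by
    intro l
    obtain ⟨y, hy, h2⟩ := (hNmem _).1 (b l).2
    exact ⟨y, hy, fun i => by rw [hmd]; exact h2 i⟩
  choose Y1 hY1 hY1' using h1
  -- (3)
  have h3 : ∀ t : Fin r, ∃ c : Fin r → (LaurentSeries k)[X],
      ∀ i, jj k P * (1 : Matrix (Fin r) (Fin r) (Fk k)) i t = ∑ l, m i l * jj k (c l) := by
    intro t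
    obtain ⟨c, hc⟩ := hco _ (hPN (Pi.single t 1))
    refine ⟨c, fun i => ?_⟩
    rw [hmd]
    rw [← hc i, Pi.smul_apply, smul_eq_mul, map_mul, Pi.single_apply, Matrix.one_apply]
    congr 1
    split_ifs <;> simp
  choose c' hc' using h3
  -- (2)
  have h2 : ∀ t : Fin r, ∃ y : Fin r → Fk k, (∀ i, y i ∈ Rr k) ∧ ∀ i, h i t = ∑ l, m i l * y l := by
    intro t
    have h4 : ∀ i, ∃ (e : Fk k) (a : (LaurentSeries k)[X]), e ∈ Rr k ∧
        h i t = e * jj k P + jj k a := fun i => hdiv (h i t) (hh i t)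
    choose z a hz hza using h4
    obtain ⟨y, hy, hyz⟩ := hPz z hz
    have haN : a ∈ N := by
      rw [hNmem]
      refine ⟨fun j => (1 : Matrix (Fin r) (Fin r) (Fk k)) j t - y j, fun j => ?_, fun i => ?_⟩
      · refine (Rr k).sub_mem ?_ (hy j)
        rw [Matrix.one_apply]
        split_ifs
        · exact (Rr k).one_mem
        · exact (Rr k).zero_mem
      · have h5 : jj k (a i) = h i t - jj k P * z i := by
          rw [hza i]
          ring
        rw [h5, hyz i]
        simp_rw [mul_sub]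
        rw [Finset.sum_sub_distrib]
        congr 1
        rw [Finset.sum_eq_single t]
        · rw [Matrix.one_apply_eq, mul_one]
        · intro s _ hs
          rw [Matrix.one_apply_ne hs, mul_zero]
        · intro hi
          exact absurd (Finset.mem_univ t) hi
    obtain ⟨c, hc⟩ := hco a haN
    refine ⟨fun l => jj k (c l) + ∑ s, z s * jj k (c' s l), fun l => (Rr k).add_mem (hj _).1
      ((Rr k).sum_mem fun s _ => (Rr k).mul_mem (hz s) (hj _).1), fun i => ?_⟩
    have h6 : z i * jj k P = ∑ s, z s * (jj k P * (1 : Matrix (Fin r) (Fin r) (Fk k)) i s) := by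
      rw [Finset.sum_eq_single i]
      · rw [Matrix.one_apply_eq, mul_one]
      · intro s _ hs
        rw [Matrix.one_apply_ne (Ne.symm hs)]
        ring
      · intro hi
        exact absurd (Finset.mem_univ i) hi
    rw [hza i, h6, hc i]
    simp_rw [hc', Finset.mul_sum]
    rw [Finset.sum_comm, add_comm, ← Finset.sum_add_distrib]
    refine Finset.sum_congr rfl fun l _ => ?_
    rw [mul_add, Finset.mul_sum]
    congr 1
    · rw [hmd]
    · refine Finset.sum_congr rfl fun s _ => ?_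
      ring
  choose Y2 hY2 hY2' using h2
  obtain ⟨M1, hM1⟩ : ∃ M1 : Matrix (Fin r) (Fin r) (Fk k), M1 = fun i j => Y1 j i := ⟨_, rfl⟩
  obtain ⟨M2, hM2⟩ : ∃ M2 : Matrix (Fin r) (Fin r) (Fk k), M2 = fun i j => Y2 j i := ⟨_, rfl⟩
  obtain ⟨M3, hM3⟩ : ∃ M3 : Matrix (Fin r) (Fin r) (Fk k), M3 = fun l t => q * jj k (c' t l) :=
    ⟨_, rfl⟩
  have e1 : m = h * M1 := by
    ext1 i l
    rw [Matrix.mul_apply, hM1, hY1' l i]
  have e2 : h = m * M2 := by
    ext1 i l
    rw [Matrix.mul_apply, hM2, ← hY2' l i]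
  have e3 : m * M3 = 1 := by
    ext1 i t
    rw [Matrix.mul_apply, hM3]
    have h7 : ∑ l, m i l * (q * jj k (c' t l)) = q * ∑ l, m i l * jj k (c' t l) := by
      rw [Finset.mul_sum]
      refine Finset.sum_congr rfl fun l _ => ?_
      ring
    rw [h7, ← hc' t i, ← mul_assoc, hqP, one_mul]
  have hunit : IsUnit h := by
    rw [Matrix.isUnit_iff_isUnit_det]
    exact isUnit_iff_ne_zero.2 hdet
  have e4 : M1 * M2 = 1 := by
    have h8 : h * (M1 * M2) = h * 1 := by
      rw [← Matrix.mul_assoc, ← e1, ← e2, Matrix.mul_one]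
    exact hunit.mul_left_cancel h8
  refine ⟨m, M3, M2, M1, hmS, ?_, ?_, ?_, e3, mul_eq_one_comm.1 e4, e2⟩
  · intro i j
    rw [hM3]
    exact (Ss k).mul_mem hq (hj _).2
  · intro i j
    rw [hM2]
    exact hY2 j i
  · intro i j
    rw [hM1]
    exact hY1 j i

end MP7b0bad

end

section

set_option autoImplicit false

namespace MP7b0bad

open Polynomial

theorem A8_Ww_pow (k : Type) [Field k] (n : ℕ) :
    Ww k ^ n = HahnSeries.C (HahnSeries.single (n : ℤ) (1 : k)) := by
  rw [Ww, ← map_pow, HahnSeries.single_pow]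
  simp

theorem A8_mono (k : Type) [Field k] (a : LaurentSeries k) (n : ℕ) (j i : ℤ) :
    ((KF k a * Ww k ^ n).coeff j).coeff i = if i = n then a.coeff j else 0 := by
  rw [A8_Ww_pow, mul_comm, HahnSeries.C_mul_eq_smul, HahnSeries.coeff_smul]
  have h : (KF k a).coeff j = HahnSeries.C (a.coeff j) := rfl
  rw [h, smul_eq_mul, HahnSeries.C_apply, HahnSeries.single_mul_single, HahnSeries.coeff_single]
  simp

theorem A8_coeff (k : Type) [Field k] (f : (LaurentSeries k)[X]) (j i : ℤ) :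
    ((jj k f).coeff j).coeff i = if 0 ≤ i then (f.coeff i.toNat).coeff j else 0 := by
  induction f using Polynomial.induction_on' with
  | add f g hf hg =>
    rw [map_add, HahnSeries.coeff_add, HahnSeries.coeff_add, hf, hg, Polynomial.coeff_add,
      HahnSeries.coeff_add]
    split_ifs <;> simp
  | monomial n a =>
    have h1 : jj k (monomial n a) = KF k a * Ww k ^ n := by
      rw [jj, coe_eval₂RingHom, eval₂_monomial]
    rw [h1, A8_mono, Polynomial.coeff_monomial]
    by_cases h : i = n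
    · subst h
      simp
    · rw [if_neg h]
      split_ifs with h2 h3
      · exfalso
        omega
      · simp
      · rfl

theorem prf_A8 : A8 := by
  intro k _
  refine ⟨?_, ?_, ?_⟩
  · rw [injective_iff_map_eq_zero]
    intro f hf
    ext i j
    have h := A8_coeff k f j i
    rw [hf] at h
    simpa using h.symm
  · intro f
    refine ⟨fun j i hi => ?_, f.natDegree, fun j i hi => ?_⟩
    · rw [A8_coeff, if_neg (by omega)]
    · rw [A8_coeff, if_pos (by omega), Polynomial.coeff_eq_zero_of_natDegree_lt (by omega)]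
      simp
  · rintro a ha ⟨D, hD⟩
    -- the coefficients
    have hb : ∀ i : ℤ, BddBelow (Function.support fun j : ℤ => (a.coeff j).coeff i) := by
      intro i
      refine ⟨a.order, fun j hj => ?_⟩
      by_contra hlt
      apply hj
      show (a.coeff j).coeff i = 0
      rw [HahnSeries.coeff_eq_zero_of_lt_order (not_le.1 hlt)]
      simp
    refine ⟨∑ i ∈ Finset.range (D.toNat + 1), Polynomial.monomial i
      (HahnSeries.ofSuppBddBelow (fun j : ℤ => (a.coeff j).coeff (i : ℤ)) (hb i)), ?_⟩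
    ext j i
    rw [A8_coeff]
    by_cases hi : 0 ≤ i
    · rw [if_pos hi, Polynomial.finsetSum_coeff]
      simp only [Polynomial.coeff_monomial]
      rw [Finset.sum_ite_eq']
      split_ifs with h
      · show (a.coeff j).coeff ((i.toNat : ℕ) : ℤ) = _
        rw [Int.toNat_of_nonneg hi]
      · rw [hD j i (by
          rw [Finset.mem_range] at h
          omega)]
        simp
    · rw [if_neg hi, ha j i (by omega)]

end MP7b0bad

end

section

set_option autoImplicit false

/-! Item B1: the shift Y -> Y+1. -/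

namespace MP7b0bad

open Polynomial

theorem B1_eval2 {R S : Type} [CommRing R] [CommRing S] (p : ℕ) (f : R →+* S) (x : S) (a : R) :
    (asPoly p a).eval₂ f x = x ^ p - x - f a := by
  simp [asPoly]

theorem B1_eval {A : Type} [CommRing A] {p : ℕ} (hp : p.Prime) [CharP A p] (a : A) :
    (asPoly p a).eval₂ (AdjoinRoot.of (asPoly p a)) (asRoot p a + 1) = 0 := by
  have h0 : (asPoly p a).eval₂ (AdjoinRoot.of (asPoly p a)) (asRoot p a) = 0 :=
    AdjoinRoot.eval₂_root _
  have hp0 : ((p : ℕ) : AS p a) = 0 := by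
    have h1 : AdjoinRoot.of (asPoly p a) ((p : ℕ) : A) = ((p : ℕ) : AS p a) := map_natCast _ p
    rw [← h1, CharP.cast_eq_zero A p, map_zero]
  obtain ⟨r, hr⟩ := exists_add_pow_prime_eq hp (asRoot p a) 1
  rw [hp0, zero_mul, zero_mul, zero_mul, add_zero, one_pow] at hr
  rw [B1_eval2] at h0 ⊢
  rw [hr]
  linear_combination h0

theorem B1_root {A : Type} [CommRing A] {p : ℕ} (hp : p.Prime) [CharP A p] (a : A) :
    asShift p a (asRoot p a) = asRoot p a + 1 := by
  unfold asShift
  rw [dif_pos (B1_eval hp a)]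
  exact AdjoinRoot.lift_root _

theorem prf_B1 : B1 := by
  intro A _ p hpf _ a
  have hp : p.Prime := hpf.out
  refine ⟨B1_root hp a, fun z => ?_⟩
  have hiter : ∀ n : ℕ, ((asShift p a) ^ n) (asRoot p a) = asRoot p a + (n : AS p a) := by
    intro n
    induction n with
    | zero => simp
    | succ n ih =>
      rw [pow_succ']
      change asShift p a (((asShift p a) ^ n) (asRoot p a)) = _
      rw [ih, map_add, B1_root hp a, map_natCast]
      push_cast
      ring
  have hof : ∀ (n : ℕ) (x : A), ((asShift p a) ^ n) (AdjoinRoot.of _ x) = AdjoinRoot.of _ x := by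
    intro n x
    induction n with
    | zero => simp
    | succ n ih =>
      rw [pow_succ']
      change asShift p a (((asShift p a) ^ n) (AdjoinRoot.of _ x)) = _
      rw [ih, asShift_of]
  have hp0 : ((p : ℕ) : AS p a) = 0 := by
    have h1 : AdjoinRoot.of (asPoly p a) ((p : ℕ) : A) = ((p : ℕ) : AS p a) := map_natCast _ p
    rw [← h1, CharP.cast_eq_zero A p, map_zero]
  have hcomp : ((asShift p a) ^ p).comp (AdjoinRoot.mk (asPoly p a)) =
      AdjoinRoot.mk (asPoly p a) := by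
    refine Polynomial.ringHom_ext (fun x => ?_) ?_
    · exact hof p x
    · change ((asShift p a) ^ p) (asRoot p a) = asRoot p a
      rw [hiter p, hp0, add_zero]
  obtain ⟨g, rfl⟩ := AdjoinRoot.mk_surjective z
  rw [← RingHom.coe_pow]
  exact congrArg (fun F : A[X] →+* AS p a => F g) hcomp

end MP7b0bad

end

section

set_option autoImplicit false

/-! Item B2: invariants of the shift. -/

namespace MP7b0bad

open Polynomial

theorem prf_B2 (hB1 : B1) (_hB4 : B4) : B2 := by
  classical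
  intro A _ _ p hpf _ a z hz
  have hp : p.Prime := hpf.out
  have e : asPoly p a = X ^ p - (X + C a) := by unfold asPoly; ring
  have hmon : (asPoly p a).Monic := by
    rw [e]
    refine (monic_X_pow p).sub_of_left ?_
    rw [degree_X_pow, degree_X_add_C]
    exact_mod_cast hp.one_lt
  have hdeg : (asPoly p a).natDegree = p := by
    rw [e, natDegree_sub_eq_left_of_natDegree_lt, natDegree_X_pow]
    rw [natDegree_X_add_C, natDegree_X_pow]
    exact hp.one_lt
  obtain ⟨g, rfl⟩ := AdjoinRoot.mk_surjective z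
  set r := g %ₘ asPoly p a with hr
  have hmk : AdjoinRoot.mk (asPoly p a) r = AdjoinRoot.mk (asPoly p a) g := by
    rw [AdjoinRoot.mk_eq_mk]
    have h1 := modByMonic_add_div g (asPoly p a)
    refine ⟨-(g /ₘ asPoly p a), ?_⟩
    rw [hr]
    linear_combination h1
  have hrdeg : r.natDegree < p := by
    have h1 := natDegree_modByMonic_lt g hmon (fun h => by
      rw [h, natDegree_one] at hdeg
      exact hp.ne_zero hdeg.symm)
    rwa [hdeg] at h1
  rw [← hmk] at hz ⊢
  -- the shift of mk r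
  have hshift : asShift p a (AdjoinRoot.mk (asPoly p a) r) =
      AdjoinRoot.mk (asPoly p a) (r.comp (X + 1)) := by
    have h1 : (asShift p a).comp (AdjoinRoot.mk (asPoly p a)) =
        (AdjoinRoot.mk (asPoly p a)).comp (compRingHom (X + 1)) := by
      refine Polynomial.ringHom_ext (fun x => ?_) ?_
      · simp only [RingHom.comp_apply, coe_compRingHom_apply, C_comp]
        exact asShift_of p a x
      · simp only [RingHom.comp_apply, coe_compRingHom_apply, X_comp, map_add, map_one]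
        exact (hB1 A p a).1
    exact congrArg (fun F : A[X] →+* AS p a => F r) h1
  rw [hshift, AdjoinRoot.mk_eq_mk] at hz
  have hcomp : r.comp (X + 1) = r := by
    by_contra hne
    have h0 : r.comp (X + 1) - r ≠ 0 := sub_ne_zero.2 hne
    refine hmon.not_dvd_of_natDegree_lt h0 ?_ hz
    rw [hdeg]
    refine lt_of_le_of_lt (natDegree_sub_le _ _) (max_lt ?_ hrdeg)
    have h2 : (X + 1 : A[X]).natDegree = 1 := by
      have : (X + 1 : A[X]) = X + C 1 := by simp
      rw [this, natDegree_X_add_C]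
    calc (r.comp (X + 1)).natDegree ≤ r.natDegree * (X + 1 : A[X]).natDegree := natDegree_comp_le
      _ = r.natDegree := by rw [h2, mul_one]
      _ < p := hrdeg
  have heval : ∀ n : ℕ, r.eval (n : A) = r.eval 0 := by
    intro n
    induction n with
    | zero => simp
    | succ n ih =>
      have h1 : (r.comp (X + 1)).eval (n : A) = r.eval ((n : A) + 1) := by
        rw [eval_comp]
        simp
      rw [Nat.cast_succ, ← h1, hcomp, ih]
  have hq : r - C (r.eval 0) = 0 := by
    refine eq_zero_of_natDegree_lt_card_of_eval_eq_zero' _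
      ((Finset.range p).image (fun n : ℕ => (n : A))) ?_ ?_
    · intro x hx
      obtain ⟨n, -, rfl⟩ := Finset.mem_image.1 hx
      rw [eval_sub, eval_C, heval n, sub_self]
    · rw [Finset.card_image_of_injOn, Finset.card_range, natDegree_sub_C]
      · exact hrdeg
      · intro x hx y hy hxy
        exact CharP.natCast_injOn_Iio A p (by simpa using hx) (by simpa using hy) hxy
  refine ⟨r.eval 0, ?_⟩
  have h3 : r = C (r.eval 0) := sub_eq_zero.1 hq
  conv_rhs => rw [h3]
  rfl

end MP7b0bad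

end

section

set_option autoImplicit false

namespace MP7b0bad

open Polynomial

/-- Artin-Schreier polynomials without root are irreducible. -/
theorem B3_irr {k : Type} [Field k] (p : ℕ) [hp : Fact p.Prime] [CharP k p] (a : k)
    (h : ∀ b : k, b ^ p - b ≠ a) : Irreducible (asPoly p a) := by
  have hp1 : 1 < p := hp.out.one_lt
  have hdeg : (X ^ p - X - C a : k[X]).natDegree = p := by
    rw [sub_sub, natDegree_sub_eq_left_of_natDegree_lt]
    · exact natDegree_X_pow p
    · rw [natDegree_X_add_C, natDegree_X_pow]; exact hp1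
  have hmon : (X ^ p - X - C a : k[X]).Monic := by
    rw [sub_sub]
    refine monic_X_pow_sub ?_
    rw [degree_X_add_C]
    exact_mod_cast hp1
  have hne : (X ^ p - X - C a : k[X]) ≠ 1 := by
    intro h1
    rw [h1, natDegree_one] at hdeg
    omega
  unfold asPoly
  rw [hmon.irreducible_iff_lt_natDegree_lt hne]
  intro q hq hqd hdvd
  rw [hdeg] at hqd
  simp only [Finset.mem_Ioc] at hqd
  set K := AlgebraicClosure k
  have : CharP K p := charP_of_injective_algebraMap (algebraMap k K).injective p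
  have hsplit : (q.map (algebraMap k K)).Splits := IsAlgClosed.splits _
  have hqm : (q.map (algebraMap k K)).Monic := hq.map _
  have hsum := hsplit.nextCoeff_eq_neg_sum_roots_of_monic hqm
  have hcard : (q.map (algebraMap k K)).roots.card = q.natDegree := by
    rw [← hsplit.natDegree_eq_card_roots, natDegree_map]
  set R := (q.map (algebraMap k K)).roots
  have hroot : ∀ β ∈ R, frobenius K p β = β + algebraMap k K a := by
    intro β hβ
    have h1 : (q.map (algebraMap k K)).IsRoot β := isRoot_of_mem_roots hβ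
    have h2 : ((X ^ p - X - C a : k[X]).map (algebraMap k K)).eval β = 0 := by
      obtain ⟨g, hg⟩ := hdvd
      rw [hg, Polynomial.map_mul, eval_mul, h1.eq_zero, zero_mul]
    simp only [Polynomial.map_sub, Polynomial.map_pow, map_X, map_C, eval_sub, eval_pow, eval_X,
      eval_C] at h2
    rw [frobenius_def]
    linear_combination h2
  have hfr : frobenius K p R.sum = R.sum + (q.natDegree : K) * algebraMap k K a := by
    rw [map_multiset_sum, Multiset.map_congr rfl hroot, Multiset.sum_map_add,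
      Multiset.map_id', Multiset.map_const', Multiset.sum_replicate, hcard, nsmul_eq_mul]
  have hd0 : (q.natDegree : k) ≠ 0 := by
    rw [Ne, CharP.cast_eq_zero_iff k p]
    intro hpd
    have := Nat.le_of_dvd hqd.1 hpd
    omega
  set s : k := -q.nextCoeff
  have hs : algebraMap k K s = R.sum := by
    rw [map_neg, ← nextCoeff_map (algebraMap k K).injective, hsum, neg_neg]
  have hs2 : s ^ p = s + (q.natDegree : k) * a := by
    apply (algebraMap k K).injective
    rw [map_pow, map_add, map_mul, map_natCast, hs]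
    exact hfr
  have hdp : (q.natDegree : k) ^ p = (q.natDegree : k) := by
    have := map_natCast (frobenius k p) q.natDegree
    rwa [frobenius_def] at this
  apply h (s / (q.natDegree : k))
  rw [div_pow, hdp, hs2]
  field_simp
  ring

theorem prf_B3 : B3 := by
  intro E _ p hp _ a n hpn ha hlow
  have hinj : Function.Injective (HahnSeries.C : E →+* LaurentSeries E) := HahnSeries.C_injective
  have : CharP (LaurentSeries E) p := charP_of_injective_ringHom hinj p
  apply B3_irr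
  intro b hb
  have hn0 : 0 < n := by
    rcases Nat.eq_zero_or_pos n with h | h
    · exact absurd (h ▸ dvd_zero p) hpn
    · exact h
  have hp1 : 1 < p := hp.out.one_lt
  by_cases hb0 : b = 0
  · subst hb0
    rw [zero_pow hp.out.ne_zero, sub_zero] at hb
    rw [← hb] at ha
    simp at ha
  have hbp : (b ^ p) ≠ 0 := pow_ne_zero _ hb0
  have hord : (b ^ p).order = (p : ℤ) * b.order := by
    rw [HahnSeries.order_pow, nsmul_eq_mul]
  rcases le_or_gt 0 b.order with ho | ho
  · apply ha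
    rw [← hb, HahnSeries.coeff_sub]
    rw [HahnSeries.coeff_eq_zero_of_lt_order (by rw [hord]; nlinarith),
      HahnSeries.coeff_eq_zero_of_lt_order (by omega), sub_zero]
  · have h1 : (p : ℤ) * b.order < b.order := by nlinarith
    have h2 : a.coeff ((p : ℤ) * b.order) ≠ 0 := by
      rw [← hb, HahnSeries.coeff_sub, HahnSeries.coeff_eq_zero_of_lt_order h1, sub_zero, ← hord]
      exact HahnSeries.coeff_order_eq_zero.not.2 hbp
    have h3 : -(n : ℤ) ≤ (p : ℤ) * b.order := by
      by_contra hlt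
      exact h2 (hlow _ (not_le.1 hlt))
    have h4 : (p : ℤ) * b.order ≤ -(n : ℤ) := by
      by_contra hlt
      rw [not_le] at hlt
      apply ha
      rw [← hb, HahnSeries.coeff_sub, HahnSeries.coeff_eq_zero_of_lt_order (by rw [hord]; exact hlt),
        HahnSeries.coeff_eq_zero_of_lt_order (hlt.trans h1), sub_zero]
    apply hpn
    have h5 : (n : ℤ) = (p : ℤ) * (-b.order) := by linarith
    have h6 : (p : ℤ) ∣ (n : ℤ) := ⟨_, h5⟩
    exact_mod_cast h6

end MP7b0bad

end

section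

set_option autoImplicit false

/-! Item B4: coordinates in AS p a. -/

namespace MP7b0bad

open Polynomial

theorem B4_monic {A : Type} [CommRing A] [Nontrivial A] {p : ℕ} (hp : 1 < p) (a : A) :
    (asPoly p a).Monic ∧ (asPoly p a).natDegree = p := by
  have e : asPoly p a = X ^ p - (X + C a) := by unfold asPoly; ring
  have h1 : (X + C a : A[X]).degree < p := by
    rw [degree_X_add_C]
    exact_mod_cast hp
  have h2 : (X + C a : A[X]).natDegree < (X ^ p : A[X]).natDegree := by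
    rw [natDegree_X_add_C, natDegree_X_pow]
    exact hp
  rw [e]
  refine ⟨?_, ?_⟩
  · refine (monic_X_pow p).sub_of_left ?_
    rw [degree_X_pow]
    exact h1
  · rw [natDegree_sub_eq_left_of_natDegree_lt h2, natDegree_X_pow]

theorem prf_B4 : B4 := by
  intro A _ _ p hp a z
  obtain ⟨hmon, hdeg⟩ := B4_monic (A := A) hp.out.one_lt a
  set pb := AdjoinRoot.powerBasis' hmon with hpb
  have hdim : pb.dim = p := hdeg
  set b := pb.basis.reindex (finCongr hdim) with hb
  have hbl : ∀ l : Fin p, b l = asRoot p a ^ (l : ℕ) := by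
    intro l
    rw [hb, Module.Basis.reindex_apply, pb.basis_eq_pow]
    rfl
  have hsmul : ∀ (x : A) (l : Fin p), x • b l = AdjoinRoot.of _ x * asRoot p a ^ (l : ℕ) := by
    intro x l
    rw [Algebra.smul_def, hbl]
    rfl
  refine ⟨fun l => b.repr z l, ?_, ?_⟩
  · simp only
    conv_lhs => rw [← b.sum_repr z]
    exact Finset.sum_congr rfl fun l _ => hsmul _ _
  · intro c hc
    have h1 : z = ∑ l, c l • b l := by
      rw [hc]
      exact Finset.sum_congr rfl fun l _ => (hsmul _ _).symm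
    funext l
    have h2 : b.repr z = Finsupp.equivFunOnFinite.symm c := by
      rw [h1]
      ext l
      rw [b.repr_sum_self]
      rfl
    rw [h2]
    rfl

end MP7b0bad

end

section

set_option autoImplicit false

namespace MP7b0bad

open Polynomial

/-- `∏_{j < p} (y + j) = y ^ p - y` in characteristic `p` -/
theorem B5_prod {A : Type} [CommRing A] (p : ℕ) [Fact p.Prime] [CharP A p] (y : A) :
    ∏ j ∈ Finset.range p, (y + (j : A)) = y ^ p - y := by
  have hp : 1 < p := (Fact.out : p.Prime).one_lt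
  have h1 : (∏ a : ZMod p, (X - C a) : (ZMod p)[X]) = X ^ p - X := by
    have h2 : (X ^ p - X : (ZMod p)[X]).roots = Finset.univ.val := by
      have := FiniteField.roots_X_pow_card_sub_X (ZMod p)
      rwa [ZMod.card] at this
    have h3 : (X ^ p - X : (ZMod p)[X]).Monic := by
      apply Polynomial.monic_X_pow_sub
      rw [Polynomial.degree_X]
      exact_mod_cast hp
    have h4 : (X ^ p - X : (ZMod p)[X]).natDegree = p :=
      FiniteField.X_pow_card_sub_X_natDegree_eq _ hp
    have h5 := Polynomial.prod_multiset_X_sub_C_of_monic_of_roots_card_eq h3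
      (by rw [h2, h4, ← Finset.card_def, Finset.card_univ, ZMod.card])
    rw [h2] at h5
    rw [← h5]
    rfl
  have h6 := congrArg (eval₂ (ZMod.castHom (dvd_refl p) A) (-y)) h1
  rw [eval₂_sub, eval₂_X_pow, eval₂_X, Polynomial.eval₂_finsetProd] at h6
  simp only [eval₂_sub, eval₂_X, eval₂_C] at h6
  have h7 : ∏ a : ZMod p, (-y - ZMod.castHom (dvd_refl p) A a) =
      ∏ j ∈ Finset.range p, (-y - (j : A)) := by
    symm
    refine Finset.prod_bij (fun j _ => (j : ZMod p)) (fun _ _ => Finset.mem_univ _) ?_ ?_ ?_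
    · intro a ha b hb hab
      rw [Finset.mem_range] at ha hb
      have := (ZMod.natCast_eq_natCast_iff' a b p).1 hab
      rwa [Nat.mod_eq_of_lt ha, Nat.mod_eq_of_lt hb] at this
    · intro b _
      exact ⟨b.val, Finset.mem_range.2 (ZMod.val_lt b), ZMod.natCast_zmod_val b⟩
    · intro a _
      rw [map_natCast]
  rw [h7] at h6
  have h8 : ∏ j ∈ Finset.range p, (-y - (j : A)) = (-1) ^ p * ∏ j ∈ Finset.range p, (y + (j : A)) := by
    rw [← Finset.card_range p, ← Finset.prod_const, Finset.card_range, ← Finset.prod_mul_distrib]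
    refine Finset.prod_congr rfl fun j _ => ?_
    ring
  have h9 : ((-1 : A)) ^ p = -1 := by
    rcases (Fact.out : p.Prime).eq_two_or_odd' with h | h
    · subst h
      have h10 : (2 : A) = 0 := by
        have := CharP.cast_eq_zero A 2
        exact_mod_cast this
      have : (1 : A) = -1 := by
        rw [eq_neg_iff_add_eq_zero, one_add_one_eq_two, h10]
      rw [neg_one_sq, ← this]
    · exact h.neg_one_pow
  have h10 : (-y) ^ p = - y ^ p := by
    rw [neg_pow, h9]
    ring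
  rw [h8, h9, h10] at h6
  have : -(∏ j ∈ Finset.range p, (y + (j : A))) = -(y ^ p - y) := by
    rw [← neg_one_mul, h6]
    ring
  exact neg_injective this

theorem prf_B5 (hB1 : B1) (hB2 : B2) (hB5a : B5a) (hB6 : B6) : B5 := by
  intro k _ _ p _ _ M hM
  classical
  have hpp : p.Prime := Fact.out
  have hM0 : M ≠ 0 := by
    rintro rfl
    exact hM (dvd_zero p)
  have hMk : (M : k) ≠ 0 := by
    rw [Ne, CharP.cast_eq_zero_iff k p]
    exact hM
  have hkF : Function.Injective (kF k) := (kF k).injective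
  have : CharP (Fk k) p := charP_of_injective_ringHom hkF p
  have : Fact (Irreducible (asPoly p (XX k ^ M))) := ⟨hB6 k p M hM⟩
  letI : Field (Qk k p M) := AdjoinRoot.instField
  have hoQ : Function.Injective (oQ k p M) := (oQ k p M).injective
  have : CharP (Qk k p M) p := charP_of_injective_ringHom hoQ p
  obtain ⟨z, ε, hz, hε⟩ := hB5a k p M hM
  obtain ⟨hty, htp⟩ := hB1 (Fk k) p (XX k ^ M)
  set y : Qk k p M := asRoot p (XX k ^ M) with hydef
  set X' : Qk k p M := oQ k p M (XX k) with hX'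
  set τ : Qk k p M →+* Qk k p M := tQ k p M with hτ
  have hy : y ^ p - y = X' ^ M := by
    have h := AdjoinRoot.eval₂_root (asPoly p (XX k ^ M))
    rw [asPoly, eval₂_sub, eval₂_sub, eval₂_pow, eval₂_X, eval₂_C] at h
    rw [hX', ← map_pow]
    exact sub_eq_zero.1 h
  have hXX : XX k ≠ 0 := by
    rw [XX, Ww, Tt]
    simp
  have hX'0 : X' ≠ 0 := by
    rw [hX']
    exact (map_ne_zero_iff _ hoQ).2 hXX
  have hy0 : y ≠ 0 := right_ne_zero_of_mul_eq_one hz
  have h1 : y ^ p * ε ^ M = X' ^ M := by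
    have hyp : y ^ p = y ^ (p - 1) * y := by
      rw [← pow_succ, Nat.sub_add_cancel hpp.one_le]
    have hzp : z ^ (p - 1) * y ^ (p - 1) = 1 := by rw [← mul_pow, hz, one_pow]
    rw [hε, ← hy, mul_sub, mul_one]
    congr 1
    rw [hyp]
    calc y ^ (p - 1) * y * z ^ (p - 1) = (z ^ (p - 1) * y ^ (p - 1)) * y := by ring
      _ = y := by rw [hzp, one_mul]
  have hε0 : ε ≠ 0 := by
    rintro h
    rw [h, zero_pow hM0, mul_zero] at h1
    exact (pow_ne_zero M hX'0) h1.symm
  set u : Qk k p M := X' * ε⁻¹ with hu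
  have hu0 : u ≠ 0 := mul_ne_zero hX'0 (inv_ne_zero hε0)
  have huM : u ^ M = y ^ p := by
    rw [hu, mul_pow, ← h1, inv_pow, mul_assoc, mul_inv_cancel₀ (pow_ne_zero M hε0), mul_one]
  have hcop : IsCoprime (p : ℤ) (M : ℤ) :=
    Nat.isCoprime_iff_coprime.2 ((Nat.Prime.coprime_iff_not_dvd hpp).2 hM)
  obtain ⟨a, b, hab⟩ := hcop
  set ω0 : Qk k p M := u ^ a * y ^ b with hω0
  have hω00 : ω0 ≠ 0 := mul_ne_zero (zpow_ne_zero _ hu0) (zpow_ne_zero _ hy0)
  have hω0M : ω0 ^ M = y := by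
    have e1 : (u ^ a) ^ M = y ^ (a * (p : ℤ)) := by
      rw [← zpow_natCast (u ^ a) M, ← zpow_mul, mul_comm a (M : ℤ), zpow_mul, zpow_natCast, huM,
        ← zpow_natCast y p, ← zpow_mul, mul_comm]
    have e2 : (y ^ b) ^ M = y ^ (b * (M : ℤ)) := by
      rw [← zpow_natCast (y ^ b) M, ← zpow_mul]
    rw [hω0, mul_pow, e1, e2, ← zpow_add₀ hy0, hab, zpow_one]
  -- the norm
  have hfix : τ (∏ j ∈ Finset.range p, τ^[j] ω0) = ∏ j ∈ Finset.range p, τ^[j] ω0 := by
    have e1 : τ (∏ j ∈ Finset.range p, τ^[j] ω0) = ∏ j ∈ Finset.range p, τ^[j + 1] ω0 := by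
      rw [map_prod]
      refine Finset.prod_congr rfl fun j _ => ?_
      rw [Function.iterate_succ_apply']
    have e2 : (∏ j ∈ Finset.range p, τ^[j + 1] ω0) * ω0 =
        (∏ j ∈ Finset.range p, τ^[j] ω0) * ω0 := by
      have e3 := Finset.prod_range_succ' (fun j => τ^[j] ω0) p
      rw [Finset.prod_range_succ] at e3
      have e4 : τ^[p] ω0 = ω0 := htp ω0
      rw [e4] at e3
      exact e3.symm
    rw [e1]
    exact mul_right_cancel₀ hω00 e2
  obtain ⟨x0, hx0⟩ := hB2 (Fk k) p (XX k ^ M) _ hfix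
  have hity : ∀ j : ℕ, τ^[j] y = y + (j : Qk k p M) := by
    intro j
    induction j with
    | zero => simp
    | succ j ih =>
      rw [Function.iterate_succ_apply', ih, map_add, map_natCast, hty]
      push_cast
      ring
  have hx0M : x0 ^ M = XX k ^ M := by
    apply hoQ
    rw [map_pow, map_pow]
    show (AdjoinRoot.of _ x0) ^ M = X' ^ M
    rw [hx0, ← Finset.prod_pow, ← hy, ← B5_prod p y]
    refine Finset.prod_congr rfl fun j _ => ?_
    rw [← hity j, ← hω0M, ← RingHom.coe_pow, map_pow]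
  -- roots of unity
  have : NeZero (M : k) := ⟨hMk⟩
  have : NeZero M := ⟨hM0⟩
  obtain ⟨ζ, hζ⟩ : ∃ ζ : k, IsPrimitiveRoot ζ M :=
    HasEnoughRootsOfUnity.exists_primitiveRoot k M
  have hζF : IsPrimitiveRoot (kF k ζ) M := hζ.map_of_injective hkF
  obtain ⟨i, _, hi⟩ := hζF.eq_pow_of_pow_eq_one (ξ := x0 / XX k)
    (by rw [div_pow, hx0M, div_self (pow_ne_zero M hXX)])
  set c : k := ζ ^ i with hc
  have hcM : c ^ M = 1 := by
    rw [hc, ← pow_mul, mul_comm, pow_mul, hζ.pow_eq_one, one_pow]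
  have hc0 : c ≠ 0 := by
    rintro h
    rw [h, zero_pow hM0] at hcM
    exact zero_ne_one hcM
  have hxc : x0 = kF k c * XX k := by
    rw [hc, map_pow, hi, div_mul_cancel₀ _ hXX]
  set η : k := c ^ (-a) with hη
  have hηM : η ^ M = 1 := by
    rw [hη, ← zpow_natCast, ← zpow_mul, mul_comm, zpow_mul, zpow_natCast, hcM, one_zpow]
  have hηp : η ^ p * c = 1 := by
    have e1 : η ^ p * c = c ^ (-a * (p : ℤ) + 1) := by
      rw [zpow_add₀ hc0, zpow_one, hη, ← zpow_natCast (c ^ (-a)) p, ← zpow_mul]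
    have e2 : -a * (p : ℤ) + 1 = (M : ℤ) * b := by linarith
    rw [e1, e2, zpow_mul, zpow_natCast, hcM, one_zpow]
  have hτc : ∀ j : ℕ, τ^[j] (oQ k p M (kF k η)) = oQ k p M (kF k η) := by
    intro j
    induction j with
    | zero => rfl
    | succ j ih =>
      rw [Function.iterate_succ_apply', ih]
      exact asShift_of p _ _
  refine ⟨oQ k p M (kF k η) * ω0, ?_, ?_⟩
  · rw [mul_pow, ← map_pow, ← map_pow, hηM, map_one, map_one, one_mul, hω0M]
  · have e1 : ∀ j ∈ Finset.range p, τ^[j] (oQ k p M (kF k η) * ω0) =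
        oQ k p M (kF k η) * τ^[j] ω0 := by
      intro j _
      rw [← RingHom.coe_pow, map_mul, RingHom.coe_pow, hτc j]
    show ∏ j ∈ Finset.range p, τ^[j] (oQ k p M (kF k η) * ω0) = X'
    rw [Finset.prod_congr rfl e1, Finset.prod_mul_distrib, Finset.prod_const, Finset.card_range,
      ← hx0]
    show oQ k p M (kF k η) ^ p * oQ k p M x0 = X'
    rw [hxc, ← map_pow, ← map_pow, ← map_mul, ← mul_assoc, ← map_mul, hηp, map_one, one_mul]

end MP7b0bad

end

section

set_option autoImplicit false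

namespace MP7b0bad

open Polynomial

/-! ### power series are complete -/

theorem B5a_mem {R : Type} [CommRing R] (n : ℕ) (a b : PowerSeries R) :
    a ≡ b [SMOD ((Ideal.span {(PowerSeries.X : PowerSeries R)}) ^ n • ⊤ :
      Submodule (PowerSeries R) (PowerSeries R))] ↔
    ∀ m, m < n → PowerSeries.coeff m a = PowerSeries.coeff m b := by
  rw [SModEq.sub_mem, Ideal.smul_eq_mul, Ideal.mul_top, Ideal.span_singleton_pow,
    Ideal.mem_span_singleton, PowerSeries.X_pow_dvd_iff]
  constructor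
  · intro h m hm
    have := h m hm
    rwa [map_sub, sub_eq_zero] at this
  · intro h m hm
    rw [map_sub, h m hm, sub_self]

theorem B5a_complete (R : Type) [CommRing R] :
    IsAdicComplete (Ideal.span {(PowerSeries.X : PowerSeries R)}) (PowerSeries R) where
  haus' := by
    intro x hx
    ext n
    exact (B5a_mem (n + 1) x 0).1 (hx (n + 1)) n (Nat.lt_succ_self n)
  prec' := by
    intro f hf
    refine ⟨PowerSeries.mk fun i => PowerSeries.coeff i (f (i + 1)), fun n => ?_⟩
    rw [B5a_mem]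
    intro m hm
    rw [PowerSeries.coeff_mk]
    exact ((B5a_mem (m + 1) _ _).1 (hf (m := m + 1) (n := n) hm) m (Nat.lt_succ_self m)).symm

/-- an `M`-th root of `1 - X ^ (p - 1)` -/
theorem B5a_root (k : Type) [Field k] (p : ℕ) (hp : 2 ≤ p) (M : ℕ) (hM0 : M ≠ 0)
    (hM : (M : k) ≠ 0) :
    ∃ e : PowerSeries k, e ^ M = 1 - PowerSeries.X ^ (p - 1) := by
  have hc := B5a_complete k
  have hh : HenselianRing (PowerSeries k) (Ideal.span {(PowerSeries.X : PowerSeries k)}) :=
    inferInstance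
  obtain ⟨a, ha, _⟩ := hh.is_henselian
    (Polynomial.X ^ M - Polynomial.C (1 - PowerSeries.X ^ (p - 1) : PowerSeries k))
    (Polynomial.monic_X_pow_sub_C _ hM0) 1
    (by
      rw [Polynomial.eval_sub, Polynomial.eval_pow, Polynomial.eval_X, Polynomial.eval_C, one_pow,
        sub_sub_cancel]
      exact Ideal.pow_mem_of_mem _ (Ideal.mem_span_singleton_self _) _ (by omega))
    (by
      have h1 : Polynomial.eval 1 (Polynomial.derivative (Polynomial.X ^ M -
          Polynomial.C (1 - PowerSeries.X ^ (p - 1) : PowerSeries k))) =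
          PowerSeries.C (M : k) := by
        rw [Polynomial.derivative_sub, Polynomial.derivative_C, sub_zero,
          Polynomial.derivative_X_pow, Polynomial.eval_mul, Polynomial.eval_pow, Polynomial.eval_X,
          one_pow, mul_one]
        simp
      rw [h1]
      exact ((isUnit_iff_ne_zero.2 hM).map (PowerSeries.C (R := k))).map _)
  refine ⟨a, ?_⟩
  rw [Polynomial.IsRoot, Polynomial.eval_sub, Polynomial.eval_pow, Polynomial.eval_X,
    Polynomial.eval_C] at ha
  exact sub_eq_zero.1 ha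

/-- the same modulo a distinguished polynomial -/
theorem B5a_poly (k A : Type) [Field k] [CommRing A] [Algebra k A] (I : Ideal A)
    [IsAdicComplete I A] (p : ℕ) (hp : 2 ≤ p) (M : ℕ) (hM0 : M ≠ 0) (hM : (M : k) ≠ 0)
    (g : A[X]) (hg : g.IsDistinguishedAt I) :
    ∃ e b : A[X], e ^ M - (1 - X ^ (p - 1)) = b * g := by
  obtain ⟨e0, he0⟩ := B5a_root k p hp M hM0 hM
  set e1 : PowerSeries A := PowerSeries.map (algebraMap k A) e0 with he1
  have h1 : e1 ^ M = 1 - PowerSeries.X ^ (p - 1) := by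
    rw [he1, ← map_pow, he0]
    simp
  set E := hg.algEquivQuotient with hE
  obtain ⟨e, he⟩ := Ideal.Quotient.mk_surjective (E.symm (Ideal.Quotient.mk _ e1))
  have h2 : E (Ideal.Quotient.mk _ e) = Ideal.Quotient.mk _ e1 := by
    rw [he, AlgEquiv.apply_symm_apply]
  have h3 : E (Ideal.Quotient.mk _ (X : A[X])) = Ideal.Quotient.mk _ (PowerSeries.X) := by
    rw [hE, Polynomial.IsDistinguishedAt.algEquivQuotient_apply]
    simp
  have h4 : E (Ideal.Quotient.mk _ (e ^ M - (1 - X ^ (p - 1)))) = 0 := by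
    have h6 : E (Ideal.Quotient.mk _ (e ^ M - (1 - X ^ (p - 1)))) =
        E (Ideal.Quotient.mk _ e) ^ M - (1 - E (Ideal.Quotient.mk _ (X : A[X])) ^ (p - 1)) := by
      simp only [map_sub, map_pow, map_one]
    rw [h6, h2, h3, ← map_pow, h1, map_sub, map_one, map_pow, sub_self]
  have h5 : (Ideal.Quotient.mk (Ideal.span {g}) (e ^ M - (1 - X ^ (p - 1)))) = 0 := by
    apply E.injective
    rw [h4, map_zero]
  rw [Ideal.Quotient.eq_zero_iff_mem, Ideal.mem_span_singleton'] at h5
  obtain ⟨b, hb⟩ := h5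
  exact ⟨e, b, hb.symm⟩

theorem B5a_XX_pow (k : Type) [Field k] (M : ℕ) :
    XX k ^ M = HahnSeries.single (-(M : ℤ)) (HahnSeries.single (M : ℤ) (1 : k)) := by
  have h : (Tt k)⁻¹ = HahnSeries.single (-1 : ℤ) (1 : LaurentSeries k) := by
    rw [Tt, HahnSeries.inv_single]
    simp
  rw [XX, h, Ww, HahnSeries.C_apply, HahnSeries.single_mul_single, HahnSeries.single_pow]
  simp

theorem prf_B5a : B5a := by
  intro k _ p _ _ M hM
  have hp : 2 ≤ p := (Fact.out : p.Prime).two_le
  have hM0 : M ≠ 0 := by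
    rintro rfl
    exact hM (dvd_zero p)
  have hMk : (M : k) ≠ 0 := by
    rw [Ne, CharP.cast_eq_zero_iff k p]
    exact hM
  -- the ring `E[[T]]`
  let E := LaurentSeries k
  let A := PowerSeries E
  let J : Ideal A := Ideal.span {(PowerSeries.X : PowerSeries E)}
  have : IsAdicComplete J A := B5a_complete E
  let θ : A := PowerSeries.X ^ M * PowerSeries.C (HahnSeries.single (-(M : ℤ)) (1 : k) : E)
  have hθ : θ ∈ J := by
    refine Ideal.mul_mem_right _ _ ?_
    exact Ideal.pow_mem_of_mem _ (Ideal.mem_span_singleton_self _) _ (Nat.pos_of_ne_zero hM0)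
  let g : A[X] := X ^ p + (C θ * X ^ (p - 1) - C θ)
  have hdeg : (C θ * X ^ (p - 1) - C θ : A[X]).degree < p := by
    refine lt_of_le_of_lt (Polynomial.degree_sub_le _ _) (max_lt ?_ ?_)
    · refine lt_of_le_of_lt (Polynomial.degree_C_mul_X_pow_le _ _) ?_
      exact_mod_cast (by omega : p - 1 < p)
    · refine lt_of_le_of_lt Polynomial.degree_C_le ?_
      exact_mod_cast (by omega : 0 < p)
  have hgm : g.Monic := Polynomial.monic_X_pow_add hdeg
  have hgd : g.natDegree = p := by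
    have h : g.degree = p := by
      show (X ^ p + (C θ * X ^ (p - 1) - C θ)).degree = ((p : ℕ) : WithBot ℕ)
      rw [Polynomial.degree_add_eq_left_of_degree_lt, Polynomial.degree_X_pow]
      rwa [Polynomial.degree_X_pow]
    exact Polynomial.natDegree_eq_of_degree_eq_some h
  have hg : g.IsDistinguishedAt J := by
    refine ⟨⟨?_⟩, hgm⟩
    intro n hn
    rw [hgd] at hn
    show (X ^ p + (C θ * X ^ (p - 1) - C θ)).coeff n ∈ J
    rw [Polynomial.coeff_add, Polynomial.coeff_X_pow, if_neg (by omega), zero_add,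
      Polynomial.coeff_sub, Polynomial.coeff_C_mul, Polynomial.coeff_C]
    refine J.sub_mem (J.mul_mem_right _ hθ) ?_
    split_ifs
    · exact hθ
    · exact J.zero_mem
  obtain ⟨e, b, heb⟩ := B5a_poly k A J p hp M hM0 hMk g hg
  -- evaluation
  let y : Qk k p M := asRoot p (XX k ^ M)
  have hy : y ^ p - y = oQ k p M (XX k ^ M) := by
    have h := AdjoinRoot.eval₂_root (asPoly p (XX k ^ M))
    rw [asPoly, eval₂_sub, eval₂_sub, eval₂_pow, eval₂_X, eval₂_C] at h
    exact sub_eq_zero.1 h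
  have hXX : XX k ^ M ≠ 0 := by
    rw [B5a_XX_pow]
    simp
  let φ : A →+* Qk k p M := (oQ k p M).comp (HahnSeries.ofPowerSeries ℤ E)
  have hφθ : φ θ = oQ k p M (XX k ^ M)⁻¹ := by
    show oQ k p M (HahnSeries.ofPowerSeries ℤ E θ) = _
    congr 1
    apply eq_inv_of_mul_eq_one_right
    show XX k ^ M * HahnSeries.ofPowerSeries ℤ E
      (PowerSeries.X ^ M * PowerSeries.C (HahnSeries.single (-(M : ℤ)) (1 : k) : E)) = 1
    rw [map_mul, HahnSeries.ofPowerSeries_X_pow, HahnSeries.ofPowerSeries_C, HahnSeries.C_apply,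
      HahnSeries.single_mul_single, B5a_XX_pow, HahnSeries.single_mul_single]
    simp
  set u : Qk k p M := oQ k p M (XX k ^ M)⁻¹ with hu
  have hux : u * oQ k p M (XX k ^ M) = 1 := by
    rw [hu, ← map_mul, inv_mul_cancel₀ hXX, map_one]
  let z : Qk k p M := (y ^ (p - 1) - 1) * u
  have hyp : y ^ p = y ^ (p - 1) * y := by
    rw [← pow_succ, Nat.sub_add_cancel (by omega)]
  have hzy : z * y = 1 := by
    show (y ^ (p - 1) - 1) * u * y = 1
    calc (y ^ (p - 1) - 1) * u * y = u * (y ^ (p - 1) * y - y) := by ring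
      _ = u * (y ^ p - y) := by rw [hyp]
      _ = 1 := by rw [hy, hux]
  have hzp : z ^ p = z ^ (p - 1) * z := by
    rw [← pow_succ, Nat.sub_add_cancel (by omega)]
  have hz : z ^ p + (u * z ^ (p - 1) - u) = 0 := by
    have h1 : z ^ (p - 1) * y ^ (p - 1) = 1 := by rw [← mul_pow, hzy, one_pow]
    -- z ^ p = z ^ p * (y ^ p - y) * u
    have h2 : z ^ p * (y ^ p - y) = 1 - z ^ (p - 1) := by
      have h3 : z ^ p * y ^ p = 1 := by rw [← mul_pow, hzy, one_pow]
      rw [mul_sub, h3, hzp, mul_assoc, hzy, mul_one]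
    have h4 : z ^ p = u * (1 - z ^ (p - 1)) := by
      rw [← h2, hy]
      calc z ^ p = z ^ p * (u * oQ k p M (XX k ^ M)) := by rw [hux, mul_one]
        _ = _ := by ring
    rw [h4]
    ring
  have hev : ∀ f : A[X], eval₂ φ z f = eval₂RingHom φ z f := fun f => rfl
  refine ⟨z, eval₂ φ z e, hzy, ?_⟩
  have h6 := congrArg (eval₂RingHom φ z) heb
  have h7 : eval₂RingHom φ z g = 0 := by
    show eval₂ φ z (X ^ p + (C θ * X ^ (p - 1) - C θ)) = 0
    rw [eval₂_add, eval₂_sub, eval₂_mul, eval₂_X_pow, eval₂_X_pow, eval₂_C, hφθ]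
    exact hz
  rw [map_mul, h7, mul_zero, map_sub, map_pow, map_sub, map_one, map_pow] at h6
  have h8 : eval₂RingHom φ z X = z := by
    show eval₂ φ z X = z
    rw [eval₂_X]
  rw [h8] at h6
  exact sub_eq_zero.1 h6

end MP7b0bad

end

section

set_option autoImplicit false

namespace MP7b0bad

open Polynomial

theorem B6_XX_pow (k : Type) [Field k] (M : ℕ) :
    XX k ^ M = HahnSeries.single (-(M : ℤ)) (HahnSeries.single (M : ℤ) (1 : k)) := by
  have h : (Tt k)⁻¹ = HahnSeries.single (-1 : ℤ) (1 : LaurentSeries k) := by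
    rw [Tt, HahnSeries.inv_single]
    simp
  rw [XX, h, Ww, HahnSeries.C_apply, HahnSeries.single_mul_single, HahnSeries.single_pow]
  simp

theorem prf_B6 (hB3 : B3) : B6 := by
  intro k _ p _ _ M hM
  have : CharP (LaurentSeries k) p :=
    charP_of_injective_ringHom (f := (HahnSeries.C : k →+* LaurentSeries k))
      HahnSeries.C_injective p
  have h0 : (HahnSeries.single (M : ℤ) (1 : k) : LaurentSeries k) ≠ 0 := by
    simp
  apply hB3 (LaurentSeries k) p (XX k ^ M) M hM
  · rw [B6_XX_pow, HahnSeries.coeff_single_same]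
    exact h0
  · intro m hm
    rw [B6_XX_pow, HahnSeries.coeff_single_of_ne (by omega)]

end MP7b0bad

end
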