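import Pool.Agent.Work.MP_7b0bad_ag.Bd.B01

/-! Bundle of small proof modules (one section per former module). -/

section

set_option autoImplicit false

/-!
# Item E10: base change of the model
-/

namespace MP7b0bad

open Polynomial TensorProduct

section

variable {S T : Type} [CommRing S] [CommRing T] [Algebra S T] {G : Type} [Group G] {B : Type}
  [CommRing B] [Algebra S B] [MulSemiringAction G B]

/-- the action on `B` as an algebra homomorphism -/
def E10_sig (hc : ∀ (g : G) (a : S), g • algebraMap S B a = algebraMap S B a) (g : G) : B →ₐ[S] B :=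
  { MulSemiringAction.toRingHom G B g with commutes' := fun a => hc g a }

theorem E10_sig_apply (hc : ∀ (g : G) (a : S), g • algebraMap S B a = algebraMap S B a) (g : G)
    (b : B) : E10_sig hc g b = g • b := rfl

/-- the action on the tensor product -/
noncomputable def E10_act (hc : ∀ (g : G) (a : S), g • algebraMap S B a = algebraMap S B a)
    (g : G) : T ⊗[S] B →ₐ[T] T ⊗[S] B :=
  Algebra.TensorProduct.map (AlgHom.id T T) (E10_sig hc g)

theorem E10_act_tmul (hc : ∀ (g : G) (a : S), g • algebraMap S B a = algebraMap S B a)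
    (g : G) (x : T) (b : B) : E10_act (T := T) hc g (x ⊗ₜ b) = x ⊗ₜ (g • b) := by
  unfold E10_act
  rw [Algebra.TensorProduct.map_tmul, E10_sig_apply]
  rfl

/-- the action on the tensor product -/
@[reducible] noncomputable def E10_msa (hc : ∀ (g : G) (a : S), g • algebraMap S B a = algebraMap S B a) :
    MulSemiringAction G (T ⊗[S] B) where
  smul g x := E10_act hc g x
  one_smul x := by
    show E10_act hc 1 x = x
    induction x using TensorProduct.induction_on with
    | zero => rw [map_zero]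
    | tmul x b => rw [E10_act_tmul, one_smul]
    | add x y hx hy => rw [map_add, hx, hy]
  mul_smul g h x := by
    show E10_act hc (g * h) x = E10_act hc g (E10_act hc h x)
    induction x using TensorProduct.induction_on with
    | zero => rw [map_zero, map_zero, map_zero]
    | tmul x b => rw [E10_act_tmul, E10_act_tmul, E10_act_tmul, mul_smul]
    | add x y hx hy => rw [map_add, hx, hy, map_add, map_add]
  smul_zero g := map_zero (E10_act hc g)
  smul_add g x y := map_add (E10_act hc g) x y
  smul_one g := map_one (E10_act hc g)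
  smul_mul g x y := map_mul (E10_act hc g) x y

end

theorem prf_E10 : E10 := by
  intro R k _ _ _ φ G _ B' _ _ _ hc hfree hfin
  let : Algebra R[X] k[X] := (mapRingHom φ).toAlgebra
  have : Nontrivial R := φ.domain_nontrivial
  let _ := E10_msa (T := k[X]) hc
  refine ⟨k[X] ⊗[R[X]] B', inferInstance, inferInstance, inferInstance,
    (Algebra.TensorProduct.includeRight : B' →ₐ[R[X]] k[X] ⊗[R[X]] B').toRingHom, ?_, ?_, ?_, ?_, ?_, ?_⟩
  · intro a
    exact (Algebra.TensorProduct.includeRight : B' →ₐ[R[X]] k[X] ⊗[R[X]] B').commutes a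
  · intro g b
    exact (E10_act_tmul hc g (1 : k[X]) b).symm
  · intro g a
    exact (E10_act (T := k[X]) hc g).commutes a
  · infer_instance
  · infer_instance
  · exact Module.finrank_baseChange

end MP7b0bad

end

section

set_option autoImplicit false

namespace MP7b0bad

open Polynomial

/-- families that are `1` at `1` and `0` on `S` -/
def E2_good (G : Type) [Group G] (B : Type) [CommRing B] [MulSemiringAction G B]
    (S : Finset G) : Prop :=
  ∃ (ι : Type) (_ : Fintype ι) (x y : ι → B), ∑ m, x m * y m = 1 ∧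
    ∀ τ ∈ S, ∑ m, x m * (τ • y m) = 0

theorem E2_one (G : Type) [Group G] (B : Type) [CommRing B] [MulSemiringAction G B] (σ : G)
    (h : Ideal.span {x : B | ∃ b : B, x = b - σ • b} = ⊤) : E2_good G B {σ} := by
  have h1 : (1 : B) ∈ Ideal.span {x : B | ∃ b : B, x = b - σ • b} := by
    rw [h]
    trivial
  obtain ⟨n, a, g, hg⟩ := (Submodule.mem_span_set' (R := B)).1 h1
  choose b hb using fun i => (g i).2
  refine ⟨Option (Fin n), inferInstance, fun o => o.elim (1 - ∑ j, a j * b j) a,
    fun o => o.elim 1 b, ?_, ?_⟩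
  · rw [Fintype.sum_option]
    simp
  · intro τ hτ
    rw [Finset.mem_singleton] at hτ
    subst hτ
    rw [Fintype.sum_option]
    simp only [Option.elim, smul_one, mul_one]
    have h2 : ∑ i, a i * (b i - τ • b i) = 1 := by
      rw [← hg]
      refine Finset.sum_congr rfl fun i _ => ?_
      rw [smul_eq_mul, hb i]
    have h3 : ∑ i, a i * (b i - τ • b i) = ∑ i, a i * b i - ∑ i, a i * τ • b i := by
      rw [← Finset.sum_sub_distrib]
      exact Finset.sum_congr rfl fun i _ => mul_sub _ _ _
    rw [h3] at h2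
    linear_combination -h2

theorem E2_union (G : Type) [Group G] [DecidableEq G] (B : Type) [CommRing B]
    [MulSemiringAction G B] (S S' : Finset G) (h : E2_good G B S) (h' : E2_good G B S') :
    E2_good G B (S ∪ S') := by
  obtain ⟨ι, _, x, y, h1, h2⟩ := h
  obtain ⟨ι', _, x', y', h1', h2'⟩ := h'
  have key : ∀ τ : G, ∑ m : ι × ι', (x m.1 * x' m.2) * (τ • (y m.1 * y' m.2)) =
      (∑ m, x m * (τ • y m)) * ∑ m, x' m * (τ • y' m) := by
    intro τ
    rw [Finset.sum_mul_sum, Fintype.sum_prod_type]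
    refine Finset.sum_congr rfl fun i _ => Finset.sum_congr rfl fun j _ => ?_
    rw [smul_mul']
    ring
  refine ⟨ι × ι', inferInstance, fun m => x m.1 * x' m.2, fun m => y m.1 * y' m.2, ?_, ?_⟩
  · have := key 1
    simp only [one_smul] at this
    rw [this, h1, h1', one_mul]
  · intro τ hτ
    rw [key]
    rcases Finset.mem_union.1 hτ with h3 | h3
    · rw [h2 τ h3, zero_mul]
    · rw [h2' τ h3, mul_zero]

theorem prf_E2 : E2 := by
  classical
  intro G _ _ B _ _ h
  haveI := Fintype.ofFinite G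
  have key : ∀ S : Finset G, (∀ σ ∈ S, σ ≠ 1) → E2_good G B S := by
    intro S
    induction S using Finset.induction_on with
    | empty =>
      intro _
      refine ⟨Unit, inferInstance, fun _ => 1, fun _ => 1, by simp, ?_⟩
      intro τ hτ
      simp at hτ
    | insert σ S hσ ih =>
      intro hS
      rw [Finset.insert_eq]
      exact E2_union G B _ _ (E2_one G B σ (h σ (hS σ (Finset.mem_insert_self σ S))))
        (ih fun τ hτ => hS τ (Finset.mem_insert_of_mem hτ))
  obtain ⟨ι, _, x, y, h1, h2⟩ := key (Finset.univ.filter (fun σ => σ ≠ 1)) (fun σ hσ =>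
    (Finset.mem_filter.1 hσ).2)
  let e := Fintype.equivFin ι
  refine ⟨Fintype.card ι, fun m => x (e.symm m), fun m => y (e.symm m), fun σ => ?_⟩
  rw [Equiv.sum_comp e.symm (fun m => x m * (σ • y m))]
  split_ifs with hσ
  · rw [hσ]
    simp only [one_smul]
    exact h1
  · exact h2 σ (Finset.mem_filter.2 ⟨Finset.mem_univ _, hσ⟩)

end MP7b0bad

end

section

set_option autoImplicit false

namespace MP7b0bad

open Polynomial

/-- the coefficients of `atInf` -/
theorem E3_atInf_coeff (K : Type) [Field K] (f : K[X]) (n : ℤ) :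
    (atInf K f).coeff n = if n ≤ 0 then f.coeff (-n).toNat else 0 := by
  have h1 : atInf K f = ∑ i ∈ Finset.range (f.natDegree + 1),
      HahnSeries.single (-(i : ℤ)) (f.coeff i) := by
    unfold atInf
    rw [coe_eval₂RingHom, eval₂_eq_sum_range]
    refine Finset.sum_congr rfl fun i _ => ?_
    rw [HahnSeries.single_pow, one_pow, HahnSeries.C_apply, HahnSeries.single_mul_single,
      zero_add, mul_one]
    congr 1
    simp
  rw [h1, HahnSeries.coeff_sum]
  by_cases hn : n ≤ 0
  · rw [if_pos hn]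
    have h2 : ∀ i : ℕ, (HahnSeries.single (-(i : ℤ)) (f.coeff i) : LaurentSeries K).coeff n =
        if i = (-n).toNat then f.coeff i else 0 := by
      intro i
      rw [HahnSeries.coeff_single]
      by_cases h3 : i = (-n).toNat
      · rw [if_pos h3, if_pos (by omega)]
      · rw [if_neg h3, if_neg (by omega)]
    rw [Finset.sum_congr rfl fun i _ => h2 i, Finset.sum_ite_eq']
    split_ifs with h4
    · rfl
    · rw [Finset.mem_range, not_lt] at h4
      exact (coeff_eq_zero_of_natDegree_lt (by omega)).symm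
  · rw [if_neg hn]
    refine Finset.sum_eq_zero fun i _ => ?_
    rw [HahnSeries.coeff_single, if_neg (by omega)]

/-- zero coefficients below `m` -/
def E3_ge {K : Type} [Field K] (m : ℤ) (a : LaurentSeries K) : Prop := ∀ n : ℤ, n < m → a.coeff n = 0

theorem E3_ge_mul {K : Type} [Field K] {m m' : ℤ} {a b : LaurentSeries K} (ha : E3_ge m a)
    (hb : E3_ge m' b) : E3_ge (m + m') (a * b) := fun n hn => mul_coeff_neg a b m m' ha hb n hn

theorem E3_ge_mono {K : Type} [Field K] {m m' : ℤ} (h : m' ≤ m) {a : LaurentSeries K}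
    (ha : E3_ge m a) : E3_ge m' a := fun n hn => ha n (lt_of_lt_of_le hn h)

theorem E3_ge_single {K : Type} [Field K] (m : ℤ) (c : K) :
    E3_ge m (HahnSeries.single m c : LaurentSeries K) := by
  intro n hn
  rw [HahnSeries.coeff_single, if_neg hn.ne]

theorem E3_ge_zero {K : Type} [Field K] (m : ℤ) : E3_ge m (0 : LaurentSeries K) := fun n _ => by
  simp

theorem E3_ge_atInf {K : Type} [Field K] (f : K[X]) : E3_ge (-(f.natDegree : ℤ)) (atInf K f) := by
  intro n hn
  rw [E3_atInf_coeff]
  split_ifs with h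
  · exact coeff_eq_zero_of_natDegree_lt (by omega)
  · rfl

theorem E3_exists_ge {K : Type} [Field K] (a : LaurentSeries K) : ∃ m : ℤ, E3_ge m a := by
  by_cases h : a = 0
  · exact ⟨0, by rw [h]; exact E3_ge_zero 0⟩
  · refine ⟨a.order, fun n hn => ?_⟩
    exact HahnSeries.coeff_eq_zero_of_lt_order hn

section

variable {K : Type} [Field K] {p : ℕ} {f : K[X]}

/-- the modified root -/
noncomputable abbrev E3_Y (p : ℕ) (f : K[X]) : AS p (atInf K f) :=
  AdjoinRoot.of _ (HahnSeries.single (f.natDegree : ℤ) (1 : K)) * asRoot p (atInf K f)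

theorem E3_add {m : ℤ} {q q' : AS p (atInf K f)} (h : Bd p f m q) (h' : Bd p f m q') :
    Bd p f m (q + q') := by
  obtain ⟨a, h1, h2⟩ := h
  obtain ⟨b, h3, h4⟩ := h'
  refine ⟨fun l => a l + b l, fun l n hn => ?_, ?_⟩
  · rw [HahnSeries.coeff_add, h1 l n hn, h3 l n hn, add_zero]
  · rw [h2, h4, ← Finset.sum_add_distrib]
    refine Finset.sum_congr rfl fun l _ => ?_
    rw [map_add, add_mul]

theorem E3_zero (m : ℤ) : Bd p f m 0 := by
  refine ⟨fun _ => 0, fun l n _ => by simp, ?_⟩
  simp

theorem E3_sum {ι : Type} {m : ℤ} (s : Finset ι) (q : ι → AS p (atInf K f))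
    (h : ∀ i ∈ s, Bd p f m (q i)) : Bd p f m (∑ i ∈ s, q i) := by
  classical
  induction s using Finset.induction_on with
  | empty =>
    rw [Finset.sum_empty]
    exact E3_zero m
  | insert i s hi ih =>
    rw [Finset.sum_insert hi]
    exact E3_add (h i (Finset.mem_insert_self i s))
      (ih fun j hj => h j (Finset.mem_insert_of_mem hj))

theorem E3_mono {m m' : ℤ} {q : AS p (atInf K f)} (hm : m' ≤ m) (h : Bd p f m q) :
    Bd p f m' q := by
  obtain ⟨a, h1, h2⟩ := h
  exact ⟨a, fun l n hn => h1 l n (lt_of_lt_of_le hn hm), h2⟩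

/-- multiplication by a Laurent series -/
theorem E3_of_mul {m m' : ℤ} {q : AS p (atInf K f)} {a : LaurentSeries K} (ha : E3_ge m' a)
    (h : Bd p f m q) : Bd p f (m' + m) (AdjoinRoot.of _ a * q) := by
  obtain ⟨b, h1, h2⟩ := h
  refine ⟨fun l => a * b l, fun l => E3_ge_mul ha (h1 l), ?_⟩
  rw [h2, Finset.mul_sum]
  refine Finset.sum_congr rfl fun l _ => ?_
  rw [map_mul, mul_assoc]

/-- a single power -/
theorem E3_pow {m : ℤ} (l : ℕ) (hl : l < p) {a : LaurentSeries K} (ha : E3_ge m a) :
    Bd p f m (AdjoinRoot.of _ a * E3_Y p f ^ l) := by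
  classical
  refine ⟨fun j => if j = ⟨l, hl⟩ then a else 0, fun j n hn => ?_, ?_⟩
  · beta_reduce
    split_ifs
    · exact ha n hn
    · simp
  · rw [Finset.sum_eq_single (⟨l, hl⟩ : Fin p)]
    · beta_reduce
      rw [if_pos rfl]
    · intro j _ hj
      beta_reduce
      rw [if_neg hj, map_zero, zero_mul]
    · intro h
      exact absurd (Finset.mem_univ _) h

theorem E3_eval {A S : Type} [CommRing A] [CommRing S] (g : A →+* S) (r : S) (a : A) (p : ℕ) :
    (asPoly p a).eval₂ g r = r ^ p - r - g a := by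
  simp [asPoly]

theorem E3_root_pow {A : Type} [CommRing A] (a : A) :
    asRoot p a ^ p = asRoot p a + AdjoinRoot.of _ a := by
  have h := AdjoinRoot.eval₂_root (asPoly p a)
  rw [E3_eval] at h
  linear_combination h

theorem E3_Y_pow (hp : 1 ≤ p) : E3_Y p f ^ p =
    AdjoinRoot.of _ (HahnSeries.single (((p - 1 : ℕ) : ℤ) * f.natDegree) (1 : K)) * E3_Y p f ^ 1 +
      AdjoinRoot.of _ (HahnSeries.single ((p : ℤ) * f.natDegree) (1 : K) * atInf K f) *
        E3_Y p f ^ 0 := by
  have h1 : ∀ j : ℕ, (HahnSeries.single (f.natDegree : ℤ) (1 : K)) ^ j =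
      HahnSeries.single ((j : ℤ) * f.natDegree) (1 : K) := by
    intro j
    rw [HahnSeries.single_pow, one_pow, nsmul_eq_mul]
  rw [pow_one, pow_zero, mul_one, ← h1, ← h1, mul_pow, E3_root_pow, map_mul, map_pow, map_pow]
  obtain ⟨j, rfl⟩ : ∃ j, p = j + 1 := ⟨p - 1, by omega⟩
  rw [Nat.add_sub_cancel]
  ring

/-- multiplication by `Y` -/
theorem E3_Y_mul (hp : 2 ≤ p) {m : ℤ} {q : AS p (atInf K f)} (h : Bd p f m q) :
    Bd p f m (E3_Y p f * q) := by
  obtain ⟨a, h1, h2⟩ := h
  rw [h2, Finset.mul_sum]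
  refine E3_sum _ _ fun l _ => ?_
  have h3 : E3_Y p f * (AdjoinRoot.of _ (a l) * E3_Y p f ^ (l : ℕ)) =
      AdjoinRoot.of _ (a l) * E3_Y p f ^ ((l : ℕ) + 1) := by ring
  change Bd p f m (E3_Y p f * (AdjoinRoot.of _ (a l) * E3_Y p f ^ (l : ℕ)))
  rw [h3]
  by_cases hl : (l : ℕ) + 1 < p
  · exact E3_pow _ hl (h1 l)
  · have h4 : (l : ℕ) + 1 = p := by omega
    rw [h4, E3_Y_pow (by omega)]
    have h5 : Bd p f 0
        (AdjoinRoot.of _ (HahnSeries.single (((p - 1 : ℕ) : ℤ) * f.natDegree) (1 : K)) *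
          E3_Y p f ^ 1) :=
      E3_pow 1 (by omega) (E3_ge_mono (by positivity) (E3_ge_single _ 1))
    have h6 : Bd p f 0
        (AdjoinRoot.of _ (HahnSeries.single ((p : ℤ) * f.natDegree) (1 : K) * atInf K f) *
          E3_Y p f ^ 0) := by
      refine E3_pow 0 (by omega) (E3_ge_mono ?_ (E3_ge_mul (E3_ge_single _ 1) (E3_ge_atInf f)))
      have : (1 : ℤ) * f.natDegree ≤ (p : ℤ) * f.natDegree :=
        mul_le_mul_of_nonneg_right (by omega) (by positivity)
      linarith
    have h7 := E3_of_mul (h1 l) (E3_add h5 h6)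
    rwa [add_zero] at h7

theorem E3_Y_pow_mul (hp : 2 ≤ p) {m : ℤ} {q : AS p (atInf K f)} (h : Bd p f m q) (j : ℕ) :
    Bd p f m (E3_Y p f ^ j * q) := by
  induction j with
  | zero => rwa [pow_zero, one_mul]
  | succ j ih =>
    rw [pow_succ', mul_assoc]
    exact E3_Y_mul hp ih

theorem E3_mul (hp : 2 ≤ p) {m m' : ℤ} {q q' : AS p (atInf K f)} (h : Bd p f m q)
    (h' : Bd p f m' q') : Bd p f (m + m') (q * q') := by
  obtain ⟨a, h1, h2⟩ := h
  rw [h2, Finset.sum_mul]
  refine E3_sum _ _ fun l _ => ?_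
  rw [mul_assoc]
  exact E3_of_mul (h1 l) (E3_Y_pow_mul hp h' l)

end

theorem prf_E3 (hB4 : B4) : E3 := by
  intro K _ p hp _ f
  have hp2 : 2 ≤ p := hp.out.two_le
  refine ⟨fun m m' q hm h => E3_mono hm h, fun m q q' h h' => E3_add h h', ?_,
    fun m m' q q' h h' => E3_mul hp2 h h', ?_, ?_⟩
  · rintro m q ⟨a, h1, h2⟩
    refine ⟨fun l => -(a l), fun l n hn => ?_, ?_⟩
    · rw [HahnSeries.coeff_neg, h1 l n hn, neg_zero]
    · rw [h2, ← Finset.sum_neg_distrib]
      refine Finset.sum_congr rfl fun l _ => ?_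
      rw [map_neg, neg_mul]
  · intro q
    obtain ⟨c, hc, -⟩ := hB4 (LaurentSeries K) p (atInf K f) q
    choose m hm using fun l => E3_exists_ge (c l * HahnSeries.single (-((l : ℕ) : ℤ) *
      (f.natDegree : ℤ)) (1 : K))
    have hM : ∃ M : ℤ, ∀ l, M ≤ m l := by
      refine ⟨-∑ l, |m l|, fun l => ?_⟩
      have h1 := Finset.single_le_sum (f := fun l => |m l|) (fun i _ => abs_nonneg _)
        (Finset.mem_univ l)
      have h2 := neg_abs_le (m l)
      linarith
    obtain ⟨M, hM⟩ := hM
    refine ⟨M, fun l => c l * HahnSeries.single (-((l : ℕ) : ℤ) * (f.natDegree : ℤ)) (1 : K),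
      fun l => E3_ge_mono (hM l) (hm l), ?_⟩
    rw [hc]
    refine Finset.sum_congr rfl fun l _ => ?_
    rw [mul_pow, ← map_pow, HahnSeries.single_pow, one_pow, ← mul_assoc, ← map_mul, mul_assoc,
      HahnSeries.single_mul_single, mul_one, nsmul_eq_mul]
    have h3 : -((l : ℕ) : ℤ) * (f.natDegree : ℤ) + ((l : ℕ) : ℤ) * (f.natDegree : ℤ) = 0 := by ring
    rw [h3]
    congr 2
    exact (mul_one (c l)).symm
  · intro m a
    constructor
    · rintro ⟨b, h1, h2⟩
      obtain ⟨c, -, hc⟩ := hB4 (LaurentSeries K) p (atInf K f) (AdjoinRoot.of _ a)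
      have h3 := hc (fun l => b l * HahnSeries.single (((l : ℕ) : ℤ) * (f.natDegree : ℤ)) (1 : K))
        (by
          rw [h2]
          refine Finset.sum_congr rfl fun l _ => ?_
          rw [mul_pow, ← map_pow, HahnSeries.single_pow, one_pow, ← mul_assoc, ← map_mul,
            nsmul_eq_mul])
      have h4 := hc (fun l => if (l : ℕ) = 0 then a else 0) (by
        beta_reduce
        rw [Finset.sum_eq_single (⟨0, by omega⟩ : Fin p)]
        · simp
        · intro j _ hj
          have : (j : ℕ) ≠ 0 := fun h => hj (Fin.ext h)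
          rw [if_neg this, map_zero, zero_mul]
        · intro h
          exact absurd (Finset.mem_univ _) h)
      have h5 := congrFun (h3.trans h4.symm) (⟨0, by omega⟩ : Fin p)
      simp only [Nat.cast_zero, zero_mul, if_true] at h5
      have h6 : b ⟨0, by omega⟩ = a := by
        rw [← h5]
        exact (mul_one _).symm
      rw [← h6]
      exact h1 _
    · intro h
      have h1 := E3_pow (p := p) (f := f) 0 (by omega) (show E3_ge m a from h)
      rwa [pow_zero, mul_one] at h1

end MP7b0bad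

end

section

set_option autoImplicit false

namespace MP7b0bad

open Polynomial

theorem E4_atInf_coeff {K : Type} [Field K] (P : K[X]) (n : ℤ) :
    (atInf K P).coeff n = if n ≤ 0 then P.coeff (-n).toNat else 0 := by
  induction P using Polynomial.induction_on' with
  | add P Q hP hQ =>
    rw [map_add, HahnSeries.coeff_add, hP, hQ, coeff_add]
    split_ifs <;> simp
  | monomial i c =>
    have h1 : atInf K (monomial i c) = HahnSeries.single (-(i : ℤ)) c := by
      rw [atInf, coe_eval₂RingHom, eval₂_monomial, HahnSeries.single_pow, HahnSeries.C_apply,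
        HahnSeries.single_mul_single]
      simp
    rw [h1, HahnSeries.coeff_single, coeff_monomial]
    by_cases hn : n = -(i : ℤ)
    · rw [if_pos hn, if_pos (by omega), if_pos (by omega)]
    · rw [if_neg hn]
      split_ifs with h2 h3
      · exfalso
        omega
      · rfl
      · rfl

/-- truncation -/
noncomputable def E4_tr {K : Type} [Field K] (e : LaurentSeries K) (N : ℤ) : LaurentSeries K :=
  HahnSeries.ofSuppBddBelow (fun n => if n < N then e.coeff n else 0) ⟨e.order, fun n hn => by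
    by_contra hc
    apply hn
    change (if n < N then e.coeff n else 0) = 0
    rw [HahnSeries.coeff_eq_zero_of_lt_order (not_le.1 hc)]
    simp⟩

theorem E4_tr_coeff {K : Type} [Field K] (e : LaurentSeries K) (N n : ℤ) :
    (E4_tr e N).coeff n = if n < N then e.coeff n else 0 := rfl

/-- the polynomial -/
noncomputable def E4_P {K : Type} [Field K] (e : LaurentSeries K) (N : ℤ) (d : ℕ) : K[X] :=
  ∑ i ∈ Finset.range ((d : ℤ) - e.order + 1).toNat, monomial i ((E4_tr e N).coeff (d - (i : ℤ)))

theorem E4_P_coeff {K : Type} [Field K] (e : LaurentSeries K) (N : ℤ) (d i : ℕ) :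
    (E4_P e N d).coeff i = (E4_tr e N).coeff (d - (i : ℤ)) := by
  unfold E4_P
  rw [finsetSum_coeff]
  simp only [coeff_monomial, Finset.sum_ite_eq', Finset.mem_range]
  split_ifs with h
  · rfl
  · rw [E4_tr_coeff, HahnSeries.coeff_eq_zero_of_lt_order (x := e) (by omega)]
    simp

theorem E4_atInf_P {K : Type} [Field K] (e : LaurentSeries K) (N : ℤ) (d : ℕ) (hd : N ≤ d) :
    atInf K (E4_P e N d) = HahnSeries.single (-(d : ℤ)) (1 : K) * E4_tr e N := by
  ext n
  rw [E4_atInf_coeff, HahnSeries.coeff_single_mul, one_mul]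
  split_ifs with h
  · rw [E4_P_coeff]
    congr 1
    omega
  · rw [E4_tr_coeff, if_neg (by omega)]

theorem E4_sum {K : Type} [Field K] (p : ℕ) [Fact p.Prime] [CharP K p] (hE3 : E3) (f : K[X])
    (m : ℤ) {ι : Type} (s : Finset ι) (q : ι → AS p (atInf K f)) (h : ∀ j ∈ s, Bd p f m (q j)) :
    Bd p f m (∑ j ∈ s, q j) := by
  classical
  obtain ⟨_, h2, _, _, _, h6⟩ := hE3 K p f
  induction s using Finset.induction_on with
  | empty =>
    rw [Finset.sum_empty, ← map_zero (AdjoinRoot.of (asPoly p (atInf K f)))]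
    exact (h6 m 0).2 fun n _ => rfl
  | insert j s hj ih =>
    rw [Finset.sum_insert hj]
    exact h2 _ _ _ (h j (Finset.mem_insert_self _ _))
      (ih fun i hi => h i (Finset.mem_insert_of_mem hi))

theorem prf_E4 (hB2 : B2) (hE2 : E2) (hE3 : E3) : E4 := by
  intro K _ p _ _ G _ _ t f B _ _ _ ι _ _ hcomm hunr hιa hιt v hv m
  classical
  have : Fintype G := Fintype.ofFinite G
  obtain ⟨k, x, y, hxy⟩ := hE2 G B hunr
  have : CharP (LaurentSeries K) p :=
    charP_of_injective_ringHom (f := (HahnSeries.C : K →+* LaurentSeries K))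
      HahnSeries.C_injective p
  -- the coefficients
  have hc : ∀ j : Fin k, ∃ e : LaurentSeries K,
      AdjoinRoot.of (asPoly p (atInf K f)) e = ∑ σ : G, v σ * ι (σ • y j) := by
    intro j
    apply hB2 (LaurentSeries K) p (atInf K f)
    rw [map_sum]
    conv_rhs => rw [← Equiv.sum_comp (Equiv.mulLeft t)]
    refine Finset.sum_congr rfl fun σ _ => ?_
    rw [map_mul, Equiv.coe_mulLeft, hv, mul_smul, hιt]
  choose e he using hc
  have hrec : ∀ g : G, ∑ j, AdjoinRoot.of (asPoly p (atInf K f)) (e j) * ι (g • x j) = v g := by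
    intro g
    have h1 : ∀ j, AdjoinRoot.of (asPoly p (atInf K f)) (e j) * ι (g • x j) =
        ∑ σ : G, v σ * ι ((g • x j) * (σ • y j)) := by
      intro j
      rw [he, Finset.sum_mul]
      refine Finset.sum_congr rfl fun σ _ => ?_
      rw [map_mul]
      ring
    rw [Finset.sum_congr rfl fun j _ => h1 j, Finset.sum_comm]
    have h2 : ∀ σ : G, ∑ j, v σ * ι ((g • x j) * (σ • y j)) =
        if σ = g then v σ else 0 := by
      intro σ
      have h3 : ∑ j, (g • x j) * (σ • y j) = g • ∑ j, x j * ((g⁻¹ * σ) • y j) := by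
        rw [Finset.smul_sum]
        refine Finset.sum_congr rfl fun j _ => ?_
        rw [smul_mul', ← mul_smul, mul_inv_cancel_left]
      rw [← Finset.mul_sum, ← map_sum, h3, hxy]
      by_cases h : σ = g
      · rw [if_pos h, if_pos (by rw [h, inv_mul_cancel]), smul_one, map_one, mul_one]
      · rw [if_neg h, if_neg (fun h' => h (by
          have := inv_mul_eq_one.1 h'
          exact this.symm)), smul_zero, map_zero, mul_zero]
    rw [Finset.sum_congr rfl fun σ _ => h2 σ]
    simp
  obtain ⟨h1, h2, h3, h4, h5, h6⟩ := hE3 K p f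
  -- a uniform bound
  have hCC : ∃ C : ℤ, ∀ (g : G) (j : Fin k), Bd p f (-C) (ι (g • x j)) := by
    choose M hM using fun (gj : G × Fin k) => h5 (ι (gj.1 • x gj.2))
    refine ⟨∑ gj, |M gj|, fun g j => h1 (M (g, j)) _ _ ?_ (hM (g, j))⟩
    have h7 : |M (g, j)| ≤ ∑ gj, |M gj| :=
      Finset.single_le_sum (f := fun gj => |M gj|) (fun _ _ => abs_nonneg _) (Finset.mem_univ _)
    have h8 := neg_abs_le (M (g, j))
    linarith
  obtain ⟨C, hC⟩ := hCC
  refine ⟨(m + C).toNat, fun d hd => ⟨∑ j, algebraMap K[X] B (E4_P (e j) (m + C) d) * x j, ?_⟩⟩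
  intro g
  have hd' : m + C ≤ d := by omega
  have h7 : ι (g • ∑ j, algebraMap K[X] B (E4_P (e j) (m + C) d) * x j) =
      ∑ j, AdjoinRoot.of (asPoly p (atInf K f))
        (HahnSeries.single (-(d : ℤ)) (1 : K) * E4_tr (e j) (m + C)) * ι (g • x j) := by
    rw [Finset.smul_sum, map_sum]
    refine Finset.sum_congr rfl fun j _ => ?_
    rw [smul_mul', hcomm, map_mul, hιa, E4_atInf_P _ _ _ hd']
  have h8 : ι (g • ∑ j, algebraMap K[X] B (E4_P (e j) (m + C) d) * x j) -
      AdjoinRoot.of (asPoly p (atInf K f)) (HahnSeries.single (-(d : ℤ)) (1 : K)) * v g =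
      ∑ j, AdjoinRoot.of (asPoly p (atInf K f))
        (HahnSeries.single (-(d : ℤ)) (1 : K) * (E4_tr (e j) (m + C) - e j)) * ι (g • x j) := by
    rw [h7, ← hrec g, Finset.mul_sum, ← Finset.sum_sub_distrib]
    refine Finset.sum_congr rfl fun j _ => ?_
    rw [mul_sub, map_sub, map_mul, map_mul]
    ring
  rw [h8]
  refine E4_sum p hE3 f _ _ _ fun j _ => ?_
  have h9 : m - (d : ℤ) = (-(d : ℤ) + (m + C)) + -C := by ring
  rw [h9]
  refine h4 _ _ _ _ ((h6 _ _).2 fun n hn => ?_) (hC g j)
  rw [HahnSeries.coeff_single_mul, one_mul, HahnSeries.coeff_sub, E4_tr_coeff,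
    if_pos (by omega), sub_self]

end MP7b0bad

end

section

set_option autoImplicit false

namespace MP7b0bad

open Polynomial

theorem E6_atInf_X (K : Type) [Field K] (d : ℕ) :
    atInf K (X ^ d) = HahnSeries.single (-(d : ℤ)) (1 : K) := by
  unfold atInf
  rw [map_pow, coe_eval₂RingHom, eval₂_X, HahnSeries.single_pow, one_pow]
  congr 1
  simp

theorem E6_atInf_coeff (K : Type) [Field K] (f : K[X]) (n : ℤ) (hn : n < -(f.natDegree : ℤ)) :
    (atInf K f).coeff n = 0 := by
  unfold atInf
  rw [coe_eval₂RingHom, eval₂_eq_sum_range, HahnSeries.coeff_sum]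
  refine Finset.sum_eq_zero fun i hi => ?_
  rw [Finset.mem_range] at hi
  rw [HahnSeries.single_pow, HahnSeries.C_apply, HahnSeries.single_mul_single,
    HahnSeries.coeff_single, if_neg]
  simp only [smul_neg, nsmul_eq_mul, mul_one, zero_add]
  omega

theorem E6_of_inj (K : Type) [Field K] (p : ℕ) [Fact p.Prime] (a : LaurentSeries K) :
    Function.Injective (AdjoinRoot.of (asPoly p a)) := by
  apply AdjoinRoot.of.injective_of_degree_ne_zero
  have hp : 1 < p := (Fact.out : p.Prime).one_lt
  have h1 : (asPoly p a) = X ^ p - (X + C a) := by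
    unfold asPoly
    ring
  have h2 : (X + C a).degree < (X ^ p : (LaurentSeries K)[X]).degree := by
    rw [degree_X_pow, degree_X_add_C]
    exact_mod_cast hp
  rw [h1, degree_sub_eq_left_of_degree_lt h2, degree_X_pow]
  have : p ≠ 0 := by omega
  exact_mod_cast this

theorem E6_charP (K : Type) [Field K] (p : ℕ) [Fact p.Prime] [CharP K p] (a : LaurentSeries K) :
    CharP (AS p a) p := by
  have h1 : Function.Injective ((AdjoinRoot.of (asPoly p a)).comp
      (HahnSeries.C : K →+* LaurentSeries K)) :=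
    (E6_of_inj K p a).comp (HahnSeries.C : K →+* LaurentSeries K).injective
  exact charP_of_injective_ringHom h1 p

theorem E6_root (K : Type) [Field K] (p : ℕ) [Fact p.Prime] [CharP K p] (a : LaurentSeries K)
    (j : ℕ) : (asRoot p a + (j : AS p a)) ^ p - (asRoot p a + (j : AS p a)) - AdjoinRoot.of _ a = 0 := by
  have hcp := E6_charP K p a
  have h1 := AdjoinRoot.eval₂_root (asPoly p a)
  unfold asPoly at h1
  rw [eval₂_sub, eval₂_sub, eval₂_pow, eval₂_X, eval₂_C] at h1
  have h2 : ((j : AS p a)) ^ p = j := map_natCast (frobenius (AS p a) p) j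
  rw [add_pow_char, h2]
  have h3 : asRoot p a ^ p - asRoot p a - AdjoinRoot.of (asPoly p a) a = 0 := h1
  linear_combination h3

section

variable {K : Type} [Field K] {p : ℕ} [Fact p.Prime] [CharP K p] {f : K[X]}

theorem E6_zero (hE3 : E3) (m : ℤ) : Bd p f m (0 : AS p (atInf K f)) := by
  have h := (hE3 K p f).2.2.2.2.2 m 0
  rw [map_zero] at h
  exact h.2 fun n _ => by simp

theorem E6_one (hE3 : E3) : Bd p f 0 (1 : AS p (atInf K f)) := by
  have h := (hE3 K p f).2.2.2.2.2 0 1
  rw [map_one] at h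
  refine h.2 fun n hn => ?_
  rw [HahnSeries.coeff_one, if_neg (by omega)]

theorem E6_pow (hE3 : E3) {m : ℤ} {q : AS p (atInf K f)} (hq : Bd p f m q) (n : ℕ) :
    Bd p f (n * m) (q ^ n) := by
  induction n with
  | zero => simpa using E6_one hE3
  | succ n ih =>
    have := (hE3 K p f).2.2.2.1 _ _ _ _ ih hq
    rw [pow_succ]
    convert this using 1
    push_cast
    ring

theorem E6_sum (hE3 : E3) {m : ℤ} {α : Type} (s : Finset α) (q : α → AS p (atInf K f))
    (hq : ∀ a ∈ s, Bd p f m (q a)) : Bd p f m (∑ a ∈ s, q a) := by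
  classical
  induction s using Finset.induction_on with
  | empty => simpa using E6_zero hE3 m
  | insert a s ha ih =>
    rw [Finset.sum_insert ha]
    exact (hE3 K p f).2.1 _ _ _ (hq a (Finset.mem_insert_self _ _))
      (ih fun b hb => hq b (Finset.mem_insert_of_mem hb))

theorem E6_sub (hE3 : E3) {m : ℤ} {q q' : AS p (atInf K f)} (hq : Bd p f m q)
    (hq' : Bd p f m q') : Bd p f m (q - q') := by
  rw [sub_eq_add_neg]
  exact (hE3 K p f).2.1 _ _ _ hq ((hE3 K p f).2.2.1 _ _ hq')

theorem E6_X (hE3 : E3) (d : ℕ) :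
    Bd p f (-(d : ℤ)) (AdjoinRoot.of (asPoly p (atInf K f)) (atInf K (X ^ d))) := by
  refine ((hE3 K p f).2.2.2.2.2 _ _).2 fun n hn => ?_
  rw [E6_atInf_X, HahnSeries.coeff_single, if_neg (by omega)]

theorem E6_f (hE3 : E3) :
    Bd p f (-(f.natDegree : ℤ)) (AdjoinRoot.of (asPoly p (atInf K f)) (atInf K f)) :=
  ((hE3 K p f).2.2.2.2.2 _ _).2 fun n hn => E6_atInf_coeff K f n hn

end

open Classical in
theorem prf_E6 (hB1 : B1) (hE3 : E3) (hE4 : E4) (hE5 : E5) : E6 := by
  intro K _ p _ _ G _ _ t f B _ _ _ hord hdeg hcov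
  have hp : p.Prime := Fact.out
  have hcp := E6_charP K p (atInf K f)
  have hcpL : CharP (LaurentSeries K) p :=
    charP_of_injective_ringHom (HahnSeries.C : K →+* LaurentSeries K).injective p
  obtain ⟨ι, hι, hιt⟩ := hcov.emb
  have : Fintype G := Fintype.ofFinite G
  set I := Subgroup.zpowers t with hI
  set o := AdjoinRoot.of (asPoly p (atInf K f)) with ho
  obtain ⟨hmono, hadd, hneg, hmul, -, -⟩ := hE3 K p f
  -- the functions e and y
  set e : G → AS p (atInf K f) := fun g => if g ∈ I then 1 else 0 with he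
  have hpow : ∀ g ∈ I, ∃ j : ℕ, t ^ j = g := by
    intro g hg
    have h1 := mem_powers_iff_mem_zpowers.2 hg
    obtain ⟨j, hj⟩ := h1
    exact ⟨j, hj⟩
  have hpowI : ∀ j : ℕ, t ^ j ∈ I := fun j => Subgroup.npow_mem_zpowers t j
  set y : G → AS p (atInf K f) := fun g =>
    if h : ∃ j : ℕ, t ^ j = g then asRoot p (atInf K f) + (h.choose : AS p (atInf K f)) else 0 with hy
  have hyj : ∀ j : ℕ, y (t ^ j) = asRoot p (atInf K f) + (j : AS p (atInf K f)) := by
    intro j
    have hex : ∃ i : ℕ, t ^ i = t ^ j := ⟨j, rfl⟩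
    have h1 : y (t ^ j) = asRoot p (atInf K f) + (hex.choose : AS p (atInf K f)) := by
      simp only [hy]
      rw [dif_pos hex]
    rw [h1]
    congr 1
    rw [CharP.natCast_eq_natCast (AS p (atInf K f)) p, ← hord]
    exact pow_eq_pow_iff_modEq.1 hex.choose_spec
  have hy0 : ∀ g, g ∉ I → y g = 0 := by
    intro g hg
    simp only [hy]
    rw [dif_neg]
    rintro ⟨j, hj⟩
    exact hg (hj ▸ hpowI j)
  have htI : ∀ g, t * g ∈ I ↔ g ∈ I := fun g =>
    Subgroup.mul_mem_cancel_left I (Subgroup.mem_zpowers t)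
  have het : ∀ g, e (t * g) = asShift p (atInf K f) (e g) := by
    intro g
    simp only [he, htI]
    split_ifs <;> simp
  have hyt : ∀ g, y (t * g) = asShift p (atInf K f) (y g) := by
    intro g
    by_cases hg : g ∈ I
    · obtain ⟨j, rfl⟩ := hpow g hg
      rw [← pow_succ', hyj, hyj, map_add, map_natCast,
        (hB1 (LaurentSeries K) p (atInf K f)).1]
      push_cast
      ring
    · rw [hy0 g hg, hy0 _ (fun h => hg ((htI g).1 h)), map_zero]
  -- approximations
  set m : ℤ := f.natDegree + 2 with hm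
  obtain ⟨d1, hd1⟩ := hE4 K p G t f B ι hord hdeg hcov.comm hcov.unr hι hιt e het m
  obtain ⟨d2, hd2⟩ := hE4 K p G t f B ι hord hdeg hcov.comm hcov.unr hι hιt y hyt m
  set d := max d1 d2 with hd
  obtain ⟨β, hβ⟩ := hd1 d (le_max_left _ _)
  obtain ⟨γ, hγ⟩ := hd2 d (le_max_right _ _)
  rw [← E6_atInf_X] at hβ hγ
  set x := o (atInf K (X ^ d)) with hx
  set E : G → AS p (atInf K f) := fun g => ι (g • β) - x * e g with hE
  set E' : G → AS p (atInf K f) := fun g => ι (g • γ) - x * y g with hE'
  have hEb : ∀ g, Bd p f (m - d) (E g) := hβ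
  have hE'b : ∀ g, Bd p f (m - d) (E' g) := hγ
  have hβg : ∀ g, ι (g • β) = x * e g + E g := fun g => by simp only [hE]; ring
  have hγg : ∀ g, ι (g • γ) = x * y g + E' g := fun g => by simp only [hE']; ring
  have hxb : Bd p f (-(d : ℤ)) x := E6_X hE3 d
  have heb : ∀ g, Bd p f 0 (e g) := by
    intro g
    simp only [he]
    split_ifs
    · exact E6_one hE3
    · exact E6_zero hE3 0
  have hesq : ∀ g, e g * e g = e g := by
    intro g
    simp only [he]
    split_ifs <;> simp
  have hm2 : (2 : ℤ) ≤ m := by rw [hm]; omega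
  have hmD : (f.natDegree : ℤ) + 2 ≤ m := le_of_eq hm.symm
  have hsm := hE5 K p G f B ι hcov.comm hcov.inv hι
  have hgo : ∀ (g : G) (a : K[X]) (b : B), ι (g • (algebraMap K[X] B a * b)) =
      o (atInf K a) * ι (g • b) := by
    intro g a b
    rw [smul_mul', hcov.comm, map_mul, hι]
  have hgo' : ∀ (g : G) (a : K[X]), ι (g • algebraMap K[X] B a) = o (atInf K a) := by
    intro g a
    rw [hcov.comm, hι]
  refine ⟨d, β, γ, ?_, ?_, ?_, ?_⟩
  · -- (1)
    refine hsm _ _ fun g => ?_
    have h1 : ι (g • (β ^ 2 - algebraMap K[X] B (X ^ d) * β)) =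
        (x * e g + x * e g) * E g + E g * E g - x * E g := by
      rw [smul_sub, map_sub, hgo, smul_pow', map_pow, hβg]
      have := hesq g
      linear_combination (x * x) * this
    rw [h1]
    have hxe : Bd p f (-(d : ℤ)) (x * e g) := by
      have := hmul _ _ _ _ hxb (heb g)
      rwa [add_zero] at this
    refine E6_sub hE3 (hadd _ _ _ ?_ ?_) ?_
    · refine hmono _ _ _ ?_ (hmul _ _ _ _ (hadd _ _ _ hxe hxe) (hEb g))
      push_cast
      omega
    · refine hmono _ _ _ ?_ (hmul _ _ _ _ (hEb g) (hEb g))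
      push_cast
      omega
    · refine hmono _ _ _ ?_ (hmul _ _ _ _ hxb (hEb g))
      push_cast
      omega
  · -- (2)
    intro g0 hg0
    refine hsm _ _ fun g => ?_
    have hee : e g * e (g * g0) = 0 := by
      simp only [he]
      by_cases hg : g ∈ I
      · rw [if_neg (fun h => hg0 ((Subgroup.mul_mem_cancel_left I hg).1 h)), mul_zero]
      · rw [if_neg hg, zero_mul]
    have h1 : ι (g • (β * (g0 • β))) =
        x * e g * E (g * g0) + (E g * (x * e (g * g0)) + E g * E (g * g0)) := by
      rw [smul_mul', smul_smul, map_mul, hβg, hβg]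
      linear_combination (x * x) * hee
    rw [h1]
    have hxe : ∀ g, Bd p f (-(d : ℤ)) (x * e g) := by
      intro g
      have := hmul _ _ _ _ hxb (heb g)
      rwa [add_zero] at this
    refine hadd _ _ _ ?_ (hadd _ _ _ ?_ ?_)
    · refine hmono _ _ _ ?_ (hmul _ _ _ _ (hxe g) (hEb (g * g0)))
      push_cast
      omega
    · refine hmono _ _ _ ?_ (hmul _ _ _ _ (hEb g) (hxe (g * g0)))
      push_cast
      omega
    · refine hmono _ _ _ ?_ (hmul _ _ _ _ (hEb g) (hEb (g * g0)))
      push_cast
      omega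
  · -- (3)
    refine ⟨Finset.univ.image (fun q : G ⧸ I => q.out), ?_⟩
    refine hsm _ _ fun h => ?_
    have hinj : Set.InjOn (fun q : G ⧸ I => q.out) (Finset.univ : Finset (G ⧸ I)) := by
      intro q _ q' _ hqq
      rw [← QuotientGroup.out_eq' q, ← QuotientGroup.out_eq' q']
      exact congrArg _ hqq
    rw [Finset.sum_image hinj]
    have h1 : ∑ q : G ⧸ I, e (h * q.out) = 1 := by
      have h2 : ∀ q : G ⧸ I, e (h * q.out) = if q = QuotientGroup.mk h⁻¹ then 1 else 0 := by
        intro q
        simp only [he]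
        have h3 : h * q.out ∈ I ↔ q = QuotientGroup.mk h⁻¹ := by
          constructor
          · intro h4
            rw [← QuotientGroup.out_eq' q]
            refine (QuotientGroup.eq.2 ?_).symm
            rwa [inv_inv]
          · intro h4
            have h5 : (QuotientGroup.mk h⁻¹ : G ⧸ I) = QuotientGroup.mk q.out := by
              rw [QuotientGroup.out_eq', h4]
            have h6 := QuotientGroup.eq.1 h5
            rwa [inv_inv] at h6
        simp only [h3]
      simp only [h2]
      rw [Finset.sum_ite_eq' Finset.univ, if_pos (Finset.mem_univ _)]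
    have h7 : ι (h • (∑ q : G ⧸ I, q.out • β - algebraMap K[X] B (X ^ d))) =
        ∑ q : G ⧸ I, E (h * q.out) := by
      rw [smul_sub, Finset.smul_sum, map_sub, map_sum, hgo']
      simp only [smul_smul, hβg, Finset.sum_add_distrib, ← Finset.mul_sum, h1, mul_one]
      ring
    rw [h7]
    refine E6_sum hE3 _ _ fun q _ => hmono _ _ _ ?_ (hEb _)
    omega
  · -- (4)
    refine hsm _ _ fun g => ?_
    have hxp : o (atInf K (X ^ (p * d))) = x ^ p := by
      rw [hx, ← map_pow, ← map_pow, ← pow_mul, mul_comm d p]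
    have hxp1 : o (atInf K (X ^ ((p - 1) * d))) * x = x ^ p := by
      rw [hx, ← map_mul, ← map_mul, ← pow_add, ← hxp]
      congr 3
      obtain ⟨q, hq⟩ : ∃ q, p = q + 1 := ⟨p - 1, by have := hp.pos; omega⟩
      rw [hq]
      simp only [Nat.add_sub_cancel]
      ring
    set z := o (atInf K (X ^ ((p - 1) * d))) with hz
    have hzb : Bd p f (-(((p - 1) * d : ℕ) : ℤ)) z := E6_X hE3 _
    have hxpb : Bd p f (-((p * d : ℕ) : ℤ)) (x ^ p) := by
      rw [← hxp]
      exact E6_X hE3 _
    have h1 : ι (g • (β * (γ ^ p - algebraMap K[X] B (X ^ ((p - 1) * d)) * γ -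
        algebraMap K[X] B (f * X ^ (p * d))))) =
        (x * e g + E g) * (x ^ p * (y g ^ p - y g - o (atInf K f)) +
          (E' g ^ p - z * E' g)) := by
      rw [smul_mul', smul_sub, smul_sub, map_mul, map_sub, map_sub, hgo, hgo', smul_pow', map_pow,
        hβg, hγg, add_pow_char, mul_pow, map_mul (atInf K), map_mul o, hxp, ← hz]
      linear_combination (-(x * e g + E g) * y g) * hxp1
    rw [h1]
    have hp1 : ((((p - 1) * d : ℕ) : ℤ)) = (p : ℤ) * d - d := by
      have := hp.pos
      push_cast [Nat.cast_sub (show 1 ≤ p by omega)]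
      ring
    have hp2 : (0 : ℤ) ≤ (p : ℤ) - 1 := by
      have := hp.pos
      omega
    rw [hp1] at hzb
    have hbr : Bd p f (m - p * d) (E' g ^ p - z * E' g) := by
      refine E6_sub hE3 ?_ ?_
      · refine hmono _ _ _ ?_ (E6_pow hE3 (hE'b g) p)
        nlinarith [mul_nonneg hp2 (show (0 : ℤ) ≤ m by omega)]
      · refine hmono _ _ _ ?_ (hmul _ _ _ _ hzb (hE'b g))
        linarith
    by_cases hg : g ∈ I
    · have h2 : y g ^ p - y g - o (atInf K f) = 0 := by
        obtain ⟨j, rfl⟩ := hpow g hg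
        rw [hyj]
        exact E6_root K p (atInf K f) j
      rw [h2, mul_zero, zero_add, add_mul (x * e g)]
      have hxe : Bd p f (-(d : ℤ)) (x * e g) := by
        have := hmul _ _ _ _ hxb (heb g)
        rwa [add_zero] at this
      refine hadd _ _ _ ?_ ?_
      · refine hmono _ _ _ ?_ (hmul _ _ _ _ hxe hbr)
        push_cast
        linarith
      · refine hmono _ _ _ ?_ (hmul _ _ _ _ (hEb g) hbr)
        push_cast
        linarith
    · have h2 : e g = 0 := by
        simp only [he]
        rw [if_neg hg]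
      rw [h2, hy0 g hg, zero_pow hp.ne_zero, mul_zero, zero_add, mul_add]
      refine hadd _ _ _ ?_ ?_
      · have h3 : E g * (x ^ p * (0 - 0 - o (atInf K f))) = -(E g * (x ^ p * o (atInf K f))) := by
          ring
        rw [h3]
        refine hneg _ _ (hmono _ _ _ ?_
          (hmul _ _ _ _ (hEb g) (hmul _ _ _ _ hxpb (E6_f hE3))))
        push_cast
        linarith
      · refine hmono _ _ _ ?_ (hmul _ _ _ _ (hEb g) hbr)
        push_cast
        linarith

end MP7b0bad

end

section

set_option autoImplicit false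

/-!
# Item E7: a primitive element with geometrically irreducible polynomial
-/

namespace MP7b0bad

open Polynomial

/-! ## expansion at infinity -/

theorem E7_atInf_monomial (K : Type) [Field K] (n : ℕ) (c : K) :
    atInf K (monomial n c) = HahnSeries.single (-(n : ℤ)) c := by
  unfold atInf
  rw [coe_eval₂RingHom, eval₂_monomial, HahnSeries.single_pow, HahnSeries.C_apply,
    HahnSeries.single_mul_single]
  congr 1
  · simp
  · simp

theorem E7_atInf_coeff (K : Type) [Field K] (a : K[X]) (m : ℤ) :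
    (atInf K a).coeff m = if m ≤ 0 then a.coeff (-m).toNat else 0 := by
  induction a using Polynomial.induction_on' with
  | add a b ha hb =>
    rw [map_add, HahnSeries.coeff_add, ha, hb]
    split_ifs
    · rw [coeff_add]
    · rw [add_zero]
  | monomial n c =>
    rw [E7_atInf_monomial, HahnSeries.coeff_single, coeff_monomial]
    by_cases h1 : m = -(n : ℤ)
    · subst h1
      simp
    · rw [if_neg h1]
      split_ifs with h2 h3
      · exfalso
        omega
      · rfl
      · rfl

theorem E7_atInf_inj (K : Type) [Field K] : Function.Injective (atInf K) := by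
  intro a b h
  ext n
  have h1 := congrArg (fun x => HahnSeries.coeff x (-(n : ℤ))) h
  simp only [E7_atInf_coeff] at h1
  simpa using h1

/-! ## functionals -/

/-- coefficientwise map of Laurent series -/
noncomputable def E7_phi (K Ω : Type) [Field K] [Field Ω] [Algebra K Ω] :
    LaurentSeries K →+* LaurentSeries Ω where
  toFun a := a.map (algebraMap K Ω)
  map_one' := by
    ext n
    simp only [HahnSeries.map_coeff, HahnSeries.coeff_one]
    split_ifs
    · simp
    · simp
  map_mul' a b := HahnSeries.map_mul (algebraMap K Ω).toNonUnitalRingHom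
  map_zero' := by ext; simp
  map_add' a b := by ext; simp

theorem E7_phi_coeff (K Ω : Type) [Field K] [Field Ω] [Algebra K Ω] (a : LaurentSeries K) (n : ℤ) :
    (E7_phi K Ω a).coeff n = algebraMap K Ω (a.coeff n) := rfl

theorem E7_phi_atInf (K Ω : Type) [Field K] [Field Ω] [Algebra K Ω] (a : K[X]) :
    E7_phi K Ω (atInf K a) = atInf Ω (a.map (algebraMap K Ω)) := by
  ext n
  rw [E7_phi_coeff, E7_atInf_coeff, E7_atInf_coeff]
  split_ifs
  · rw [coeff_map]
  · rw [map_zero]

theorem E7_ell_mul (K Ω : Type) [Field K] [Field Ω] [Algebra K Ω] (ℓ : Ω →ₗ[K] K)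
    (a : LaurentSeries Ω) (b : LaurentSeries K) :
    (a * E7_phi K Ω b).map ℓ = a.map ℓ * b := by
  ext n
  have h1 : (E7_phi K Ω b).support ⊆ b.support := by
    intro m hm
    rw [HahnSeries.mem_support, E7_phi_coeff] at hm
    rw [HahnSeries.mem_support]
    intro h
    exact hm (by rw [h, map_zero])
  have h2 : (a.map ℓ).support ⊆ a.support := by
    intro m hm
    rw [HahnSeries.mem_support, HahnSeries.map_coeff] at hm
    rw [HahnSeries.mem_support]
    intro h
    exact hm (by rw [h, map_zero])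
  rw [HahnSeries.map_coeff, HahnSeries.coeff_mul_right' b.isPWO_support h1,
    HahnSeries.coeff_mul_left' a.isPWO_support h2, map_sum]
  refine Finset.sum_congr rfl fun ij _ => ?_
  rw [E7_phi_coeff, HahnSeries.map_coeff, mul_comm (a.coeff ij.1), ← Algebra.smul_def, map_smul,
    smul_eq_mul, mul_comm]

/-- coefficientwise application of a functional to a polynomial -/
theorem E7_poly (K Ω : Type) [Field K] [Field Ω] [Algebra K Ω] (ℓ : Ω →ₗ[K] K) (a : Polynomial Ω) :
    ∃ b : K[X], ∀ n, b.coeff n = ℓ (a.coeff n) := by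
  refine ⟨∑ i ∈ a.support, monomial i (ℓ (a.coeff i)), fun n => ?_⟩
  rw [finsetSum_coeff]
  simp only [coeff_monomial]
  rw [Finset.sum_ite_eq']
  split_ifs with h
  · rfl
  · rw [notMem_support_iff.1 h, map_zero]

theorem E7_ell_atInf (K Ω : Type) [Field K] [Field Ω] [Algebra K Ω] (ℓ : Ω →ₗ[K] K) (a : Polynomial Ω)
    (b : K[X]) (h : ∀ n, b.coeff n = ℓ (a.coeff n)) :
    (atInf Ω a).map ℓ = atInf K b := by
  ext n
  rw [HahnSeries.map_coeff, E7_atInf_coeff, E7_atInf_coeff]
  split_ifs
  · rw [h]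
  · rw [map_zero]

/-! ## the primitive element -/

theorem E7_theta (K : Type) [Field K] (G : Type) [Group G] (B : Type) [CommRing B] [IsDomain B]
    [Algebra K[X] B] [MulSemiringAction G B]
    (hinj : Function.Injective (algebraMap K[X] B))
    (hcomm : ∀ (g : G) (a : K[X]), g • algebraMap K[X] B a = algebraMap K[X] B a)
    (hf : ∀ g : G, g ≠ 1 → ∃ b : B, g • b ≠ b) (s : Finset G) (hs : ∀ g ∈ s, g ≠ 1) :
    ∃ θ : B, ∀ g ∈ s, g • θ ≠ θ := by
  classical
  induction s using Finset.induction_on with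
  | empty => exact ⟨0, by simp⟩
  | insert g s hg ih =>
    obtain ⟨θ, hθ⟩ := ih fun h hh => hs h (Finset.mem_insert_of_mem hh)
    obtain ⟨b, hb⟩ := hf g (hs g (Finset.mem_insert_self _ _))
    -- the bad multipliers
    have hbad : ∀ h ∈ insert g s, {a : K[X] | h • (θ + algebraMap K[X] B a * b) =
        θ + algebraMap K[X] B a * b}.Subsingleton := by
      intro h hh a ha a' ha'
      simp only [Set.mem_ofPred_eq, smul_add, smul_mul', hcomm] at ha ha'
      have h1 : (algebraMap K[X] B (a - a')) * (h • b - b) = 0 := by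
        rw [map_sub]
        linear_combination ha - ha'
      rcases mul_eq_zero.1 h1 with h2 | h2
      · exact sub_eq_zero.1 (hinj (by rw [h2, map_zero]))
      · exfalso
        have h3 : h • b = b := sub_eq_zero.1 h2
        rw [h3] at ha
        have h4 : h • θ = θ := add_right_cancel ha
        rcases Finset.mem_insert.1 hh with rfl | hh'
        · exact hb h3
        · exact hθ h hh' h4
    have hfin : (⋃ h ∈ (insert g s : Finset G), {a : K[X] | h • (θ + algebraMap K[X] B a * b) =
        θ + algebraMap K[X] B a * b}).Finite :=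
      Set.Finite.biUnion (Finset.finite_toSet _) fun h hh => (hbad h hh).finite
    obtain ⟨a, ha⟩ := hfin.infinite_compl.nonempty
    refine ⟨θ + algebraMap K[X] B a * b, fun h hh heq => ha ?_⟩
    exact Set.mem_biUnion hh heq

theorem E7_map_sum (K Ω : Type) [Field K] [Field Ω] [Algebra K Ω] (ℓ : Ω →ₗ[K] K) (s : Finset ℕ)
    (a : ℕ → LaurentSeries Ω) : (∑ i ∈ s, a i).map ℓ = ∑ i ∈ s, (a i).map ℓ := by
  ext n
  rw [HahnSeries.map_coeff, HahnSeries.coeff_sum, HahnSeries.coeff_sum, map_sum]
  rfl

theorem prf_E7 (hB4 : B4) (hB7 : B7) (hB8 : B8) : E7 := by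
  intro K _ p _ _ G _ _ t f B _ _ _ hpf hc
  classical
  have := hc.dom
  have : Fintype G := Fintype.ofFinite G
  -- the action is faithful
  have hf : ∀ g : G, g ≠ 1 → ∃ b : B, g • b ≠ b := by
    intro g hg
    by_contra hcon
    push Not at hcon
    have h1 := hc.unr g hg
    have h2 : Ideal.span {x : B | ∃ b : B, x = b - g • b} ≤ ⊥ := by
      rw [Ideal.span_le]
      rintro x ⟨b, rfl⟩
      simp [hcon b]
    rw [h1] at h2
    have h3 : (1 : B) ∈ (⊥ : Ideal B) := h2 Submodule.mem_top
    rw [Ideal.mem_bot] at h3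
    exact one_ne_zero h3
  obtain ⟨θ, hθ⟩ := E7_theta K G B hc.inj hc.comm hf (Finset.univ.filter (fun g : G => g ≠ 1))
    (fun g hg => (Finset.mem_filter.1 hg).2)
  have hθ' : Function.Injective (fun g : G => g • θ) := by
    intro g h hgh
    by_contra hne
    have h1 : h⁻¹ * g ≠ 1 := fun h1 => hne (by rw [inv_mul_eq_one] at h1; exact h1.symm)
    refine hθ (h⁻¹ * g) (Finset.mem_filter.2 ⟨Finset.mem_univ _, h1⟩) ?_
    have h2 : g • θ = h • θ := hgh
    rw [mul_smul, h2, inv_smul_smul]
  -- the characteristic polynomial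
  have hlift : MulSemiringAction.charpoly G θ ∈ lifts (algebraMap K[X] B) := by
    rw [lifts_iff_coeff_lifts]
    intro n
    obtain ⟨a, ha⟩ := hc.inv ((MulSemiringAction.charpoly G θ).coeff n)
      (fun g => MulSemiringAction.smul_coeff_charpoly θ n g)
    exact ⟨a, ha⟩
  obtain ⟨F, hF1, hF2, hF3⟩ := lifts_and_natDegree_eq_and_monic hlift
    (MulSemiringAction.monic_charpoly G θ)
  have hFdeg : F.natDegree = Nat.card G := by
    rw [hF2, MulSemiringAction.charpoly_eq, natDegree_prod_of_monic _ _ fun i _ => monic_X_sub_C _]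
    simp
  have hFθ : aeval θ F = 0 := by
    rw [aeval_def, eval₂_eq_eval_map, hF1]
    exact MulSemiringAction.eval_charpoly G θ
  -- no polynomial of smaller degree
  have h3 : ∀ c : K[X][X], c ≠ 0 → c.natDegree < Nat.card G → aeval θ c ≠ 0 := by
    intro c hc0 hcd h0
    have h1 : ∀ g : G, (c.map (algebraMap K[X] B)).eval (g • θ) = 0 := by
      intro g
      rw [eval_map, eval₂_eq_sum_range]
      have h2 : g • (aeval θ c) = 0 := by rw [h0, smul_zero]
      rw [aeval_def, eval₂_eq_sum_range, Finset.smul_sum] at h2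
      rw [← h2]
      refine Finset.sum_congr rfl fun i _ => ?_
      rw [smul_mul', hc.comm, smul_pow']
    have h2 := eq_zero_of_natDegree_lt_card_of_eval_eq_zero (c.map (algebraMap K[X] B)) hθ' h1
      (by rw [natDegree_map_eq_of_injective hc.inj, ← Nat.card_eq_fintype_card]; exact hcd)
    exact hc0 (Polynomial.map_injective _ hc.inj (by rw [h2, Polynomial.map_zero]))
  -- the embedding
  obtain ⟨ι, hι1, -⟩ := hc.emb
  have : CharP (LaurentSeries K) p := charP_of_injective_ringHom
    (f := (HahnSeries.C : K →+* LaurentSeries K)) HahnSeries.C_injective p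
  have := Fact.mk (hB7 K p f hpf)
  have hιi : ∀ b, ι b = 0 → b = 0 := by
    intro b hb
    obtain ⟨a, ha⟩ := hc.inv (∏ g : G, g • b) (fun g => by
      rw [Finset.smul_prod_perm])
    have h1 : ι (algebraMap K[X] B a) = 0 := by
      rw [ha, map_prod]
      refine Finset.prod_eq_zero (Finset.mem_univ (1 : G)) ?_
      rw [one_smul, hb]
    rw [hι1] at h1
    have h2 : atInf K a = 0 := (AdjoinRoot.of (asPoly p (atInf K f))).injective (by
      rw [h1, map_zero])
    have h4 : a = 0 := E7_atInf_inj K (by rw [h2, map_zero])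
    rw [h4, map_zero] at ha
    obtain ⟨g, -, hg⟩ := Finset.prod_eq_zero_iff.1 ha.symm
    exact (smul_eq_zero_iff_eq g).1 hg
  refine ⟨θ, F, hF3, hFdeg, hFθ, ?_⟩
  intro Ω _ _
  have : CharP Ω p := charP_of_injective_algebraMap (algebraMap K Ω).injective p
  have : CharP (LaurentSeries Ω) p := charP_of_injective_ringHom
    (f := (HahnSeries.C : Ω →+* LaurentSeries Ω)) HahnSeries.C_injective p
  obtain ⟨Φ, hΦ1, hΦ2, -, -⟩ := hB8 (LaurentSeries K) (LaurentSeries Ω) p (E7_phi K Ω) (atInf K f)
  have hirr2 : Irreducible (asPoly p (E7_phi K Ω (atInf K f))) := by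
    rw [E7_phi_atInf]
    exact hB7 Ω p (f.map (algebraMap K Ω)) (by rwa [natDegree_map])
  have := Fact.mk hirr2
  have hm : (F.map (mapRingHom (algebraMap K Ω))).Monic := hF3.map _
  have hd : (F.map (mapRingHom (algebraMap K Ω))).natDegree = Nat.card G := by
    rw [hF3.natDegree_map, hFdeg]
  have hcard : 0 < Nat.card G := Nat.card_pos
  -- the key claim
  have key : ∀ h : Polynomial (Polynomial Ω), h.Monic →
      h.eval₂ ((AdjoinRoot.of (asPoly p (E7_phi K Ω (atInf K f)))).comp (atInf Ω)) (Φ (ι θ)) = 0 →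
      Nat.card G ≤ h.natDegree := by
    intro h hhm hh0
    by_contra hlt
    push Not at hlt
    obtain ⟨ℓ, hℓ⟩ : ∃ ℓ : Ω →ₗ[K] K, ℓ 1 = 1 := by
      obtain ⟨g, hg⟩ := LinearMap.exists_leftInverse_of_injective (Algebra.linearMap K Ω)
        (LinearMap.ker_eq_bot.2 (algebraMap K Ω).injective)
      refine ⟨g, ?_⟩
      have := LinearMap.congr_fun hg 1
      simpa using this
    choose hX hhX using E7_poly K Ω ℓ
    set h' : K[X][X] := ∑ i ∈ Finset.range (h.natDegree + 1), monomial i (hX (h.coeff i)) with hh'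
    have hcoef : h'.coeff h.natDegree = hX 1 := by
      rw [hh', finsetSum_coeff]
      simp only [coeff_monomial]
      rw [Finset.sum_ite_eq', if_pos (Finset.self_mem_range_succ _)]
      rw [hhm.coeff_natDegree]
    have hne : h' ≠ 0 := by
      intro h0
      rw [h0, coeff_zero] at hcoef
      have h1 := hhX 1 0
      rw [← hcoef, coeff_zero, coeff_one_zero, hℓ] at h1
      exact zero_ne_one h1
    have hd' : h'.natDegree < Nat.card G := by
      refine lt_of_le_of_lt ?_ hlt
      refine natDegree_sum_le_of_forall_le _ _ fun i hi => ?_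
      refine le_trans (natDegree_monomial_le _) ?_
      rw [Finset.mem_range] at hi
      omega
    refine h3 h' hne hd' (hιi _ ?_)
    -- coordinates
    choose T hT using fun i : ℕ => (hB4 (LaurentSeries K) p (atInf K f) (ι θ ^ i)).exists
    have hT2 : ∀ i, Φ (ι θ) ^ i = ∑ l : Fin p, AdjoinRoot.of _ (E7_phi K Ω (T i l)) *
        asRoot p (E7_phi K Ω (atInf K f)) ^ (l : ℕ) := by
      intro i
      rw [← map_pow, hT i, map_sum]
      refine Finset.sum_congr rfl fun l _ => ?_
      rw [map_mul, map_pow, hΦ1, hΦ2]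
    have e2 : ∀ l, ∑ i ∈ Finset.range (h.natDegree + 1),
        atInf Ω (h.coeff i) * E7_phi K Ω (T i l) = 0 := by
      have hu := (hB4 (LaurentSeries Ω) p (E7_phi K Ω (atInf K f)) 0).unique
        (y₁ := fun l => ∑ i ∈ Finset.range (h.natDegree + 1),
          atInf Ω (h.coeff i) * E7_phi K Ω (T i l)) (y₂ := fun _ => 0) ?_ ?_
      · intro l
        exact congrFun hu l
      · rw [eval₂_eq_sum_range] at hh0
        rw [← hh0]
        simp only [map_sum, map_mul, Finset.sum_mul]
        rw [Finset.sum_comm]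
        refine Finset.sum_congr rfl fun i _ => ?_
        rw [hT2, Finset.mul_sum]
        refine Finset.sum_congr rfl fun l _ => ?_
        rw [RingHom.comp_apply, mul_assoc]
      · simp
    have e3 : ∀ l, ∑ i ∈ Finset.range (h.natDegree + 1),
        atInf K (hX (h.coeff i)) * T i l = 0 := by
      intro l
      have h1 := congrArg (fun x : LaurentSeries Ω => x.map ℓ) (e2 l)
      rw [E7_map_sum] at h1
      simp only [E7_ell_mul] at h1
      have h2 : ((0 : LaurentSeries Ω).map ℓ : LaurentSeries K) = 0 := by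
        ext n
        simp
      rw [h2] at h1
      rw [← h1]
      refine Finset.sum_congr rfl fun i _ => ?_
      rw [E7_ell_atInf K Ω ℓ (h.coeff i) (hX (h.coeff i)) (hhX _)]
    rw [hh', map_sum, map_sum]
    have h5 : ∀ i ∈ Finset.range (h.natDegree + 1), ι (aeval θ (monomial i (hX (h.coeff i)))) =
        ∑ l : Fin p, AdjoinRoot.of _ (atInf K (hX (h.coeff i)) * T i l) *
          asRoot p (atInf K f) ^ (l : ℕ) := by
      intro i _
      rw [aeval_monomial, map_mul, hι1, map_pow, hT i, Finset.mul_sum]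
      refine Finset.sum_congr rfl fun l _ => ?_
      rw [map_mul, mul_assoc]
    rw [Finset.sum_congr rfl h5, Finset.sum_comm]
    refine Finset.sum_eq_zero fun l _ => ?_
    rw [← Finset.sum_mul, ← map_sum, e3 l, map_zero, zero_mul]
  rw [hm.irreducible_iff_natDegree]
  refine ⟨?_, ?_⟩
  · intro h1
    rw [h1, natDegree_one] at hd
    omega
  · intro f₁ g₁ hf₁ hg₁ hfg
    have h0 : (F.map (mapRingHom (algebraMap K Ω))).eval₂
        ((AdjoinRoot.of (asPoly p (E7_phi K Ω (atInf K f)))).comp (atInf Ω)) (Φ (ι θ)) = 0 := by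
      rw [eval₂_map]
      have h1 : ((AdjoinRoot.of (asPoly p (E7_phi K Ω (atInf K f)))).comp (atInf Ω)).comp
          (mapRingHom (algebraMap K Ω)) = Φ.comp (ι.comp (algebraMap K[X] B)) := by
        refine RingHom.ext fun a => ?_
        simp only [RingHom.comp_apply, coe_mapRingHom]
        rw [hι1, hΦ1, E7_phi_atInf K Ω a]
      rw [h1, ← hom_eval₂, ← hom_eval₂]
      rw [aeval_def] at hFθ
      rw [hFθ, map_zero, map_zero]
    rw [← hfg, eval₂_mul] at h0
    have hdeg : f₁.natDegree + g₁.natDegree = Nat.card G := by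
      rw [← hf₁.natDegree_mul hg₁, hfg, hd]
    rcases mul_eq_zero.1 h0 with h | h
    · right
      have := key f₁ hf₁ h
      omega
    · left
      have := key g₁ hg₁ h
      omega

end MP7b0bad

end

section

set_option autoImplicit false

namespace MP7b0bad

open Polynomial

/-- polynomials with coefficients in `R'` -/
noncomputable def E8_P {k K : Type} [Field k] [Field K] [Algebra k K] (R' : Subalgebra k K) :
    Subring K[X] := (Polynomial.mapRingHom (algebraMap R' K)).range

theorem E8_mem_P {k K : Type} [Field k] [Field K] [Algebra k K] (R' : Subalgebra k K) (f : K[X])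
    (hf : ∀ n, f.coeff n ∈ R') : f ∈ E8_P R' := by
  rw [E8_P, RingHom.mem_range]
  have h : f ∈ Polynomial.lifts (algebraMap R' K) := by
    rw [Polynomial.lifts_iff_coeff_lifts]
    intro n
    exact ⟨⟨f.coeff n, hf n⟩, rfl⟩
  rw [Polynomial.mem_lifts] at h
  obtain ⟨q, hq⟩ := h
  exact ⟨q, hq⟩

theorem E8_map_mem {k K : Type} [Field k] [Field K] [Algebra k K] (R' : Subalgebra k K)
    (a : R'[X]) : a.map (algebraMap R' K) ∈ E8_P R' := ⟨a, rfl⟩

/-- the subring of elements with coordinates in `R'[X]` -/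
noncomputable def E8_B {k K : Type} [Field k] [Field K] [Algebra k K] {B : Type} [CommRing B]
    [Algebra K[X] B] {n : ℕ} (b : Module.Basis (Fin n) K[X] B) (R' : Subalgebra k K)
    (h1 : ∀ i, b.repr 1 i ∈ E8_P R') (hm : ∀ i j l, b.repr (b i * b j) l ∈ E8_P R') :
    Subring B where
  carrier := {y | ∀ i, b.repr y i ∈ E8_P R'}
  one_mem' := h1
  zero_mem' := fun i => by
    rw [map_zero]
    exact (E8_P R').zero_mem
  add_mem' := fun {x y} hx hy i => by
    rw [map_add]
    exact (E8_P R').add_mem (hx i) (hy i)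
  neg_mem' := fun {x} hx i => by
    rw [map_neg]
    exact (E8_P R').neg_mem (hx i)
  mul_mem' := fun {x y} hx hy l => by
    have h : x * y = ∑ i, ∑ j, (b.repr x i * b.repr y j) • (b i * b j) := by
      conv_lhs => rw [← b.sum_repr x, ← b.sum_repr y]
      rw [Finset.sum_mul_sum]
      refine Finset.sum_congr rfl fun i _ => Finset.sum_congr rfl fun j _ => ?_
      rw [smul_mul_smul_comm]
    rw [h]
    simp only [map_sum, map_smul, Finsupp.coe_finset_sum, Finset.sum_apply, Finsupp.smul_apply,
      smul_eq_mul]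
    refine (E8_P R').sum_mem fun i _ => (E8_P R').sum_mem fun j _ => ?_
    exact (E8_P R').mul_mem ((E8_P R').mul_mem (hx i) (hy j)) (hm i j l)

theorem prf_E8 : E8 := by
  intro k K _ _ _ G _ _ B _ _ _ hcomm hfin hfree ZB ZK
  classical
  haveI := hfin
  haveI := hfree
  haveI : Fintype G := Fintype.ofFinite G
  set n := Module.finrank K[X] B with hn
  let b : Module.Basis (Fin n) K[X] B := Module.finBasis K[X] B
  let Z : Finset B := ZB ∪ {1} ∪ Finset.univ.image (fun ij : Fin n × Fin n => b ij.1 * b ij.2) ∪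
    Finset.univ.image (fun gi : G × Fin n => gi.1 • b gi.2)
  let T : Finset K := ZK ∪ Z.biUnion (fun z => Finset.univ.biUnion fun i => (b.repr z i).coeffs)
  let R' : Subalgebra k K := Algebra.adjoin k (T : Set K)
  have hT : ∀ z ∈ T, z ∈ R' := fun z hz => Algebra.subset_adjoin hz
  have hZ : ∀ z ∈ Z, ∀ i, b.repr z i ∈ E8_P R' := by
    intro z hz i
    refine E8_mem_P R' _ fun m => ?_
    by_cases h0 : (b.repr z i).coeff m = 0
    · rw [h0]; exact R'.zero_mem
    · apply hT
      refine Finset.mem_union_right _ (Finset.mem_biUnion.2 ⟨z, hz, Finset.mem_biUnion.2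
        ⟨i, Finset.mem_univ _, ?_⟩⟩)
      exact Polynomial.coeff_mem_coeffs h0
  have h1 : ∀ i, b.repr 1 i ∈ E8_P R' := hZ 1 (by simp [Z])
  have hm : ∀ i j l, b.repr (b i * b j) l ∈ E8_P R' := fun i j => hZ _ (by
    refine Finset.mem_union_left _ (Finset.mem_union_right _ (Finset.mem_image.2 ⟨(i, j), ?_, rfl⟩))
    exact Finset.mem_univ _)
  have hg : ∀ (g : G) (i l), b.repr (g • b i) l ∈ E8_P R' := fun g i => hZ _ (by
    refine Finset.mem_union_right _ (Finset.mem_image.2 ⟨(g, i), ?_, rfl⟩)
    exact Finset.mem_univ _)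
  have hgB : ∀ (g : G) (y : B), y ∈ E8_B b R' h1 hm → g • y ∈ E8_B b R' h1 hm := by
    intro g y hy l
    have h : g • y = ∑ i, b.repr y i • (g • b i) := by
      conv_lhs => rw [← b.sum_repr y]
      rw [Finset.smul_sum]
      refine Finset.sum_congr rfl fun i _ => ?_
      rw [Algebra.smul_def, Algebra.smul_def, smul_mul', hcomm]
    rw [h]
    simp only [map_sum, map_smul, Finsupp.coe_finset_sum, Finset.sum_apply, Finsupp.smul_apply,
      smul_eq_mul]
    exact (E8_P R').sum_mem fun i _ => (E8_P R').mul_mem (hy i) (hg g i l)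
  have halg : ∀ a : R'[X], algebraMap K[X] B (a.map (algebraMap R' K)) ∈ E8_B b R' h1 hm := by
    intro a i
    rw [Algebra.algebraMap_eq_smul_one, map_smul, Finsupp.smul_apply, smul_eq_mul]
    exact (E8_P R').mul_mem (E8_map_mem R' a) (h1 i)
  refine ⟨R', Subalgebra.fg_adjoin_finset T, fun z hz => hT z (Finset.mem_union_left _ hz), ?_⟩
  let B' := E8_B b R' h1 hm
  let φ : R'[X] →+* B' :=
    ((algebraMap K[X] B).comp (Polynomial.mapRingHom (algebraMap R' K))).codRestrict B' halg
  letI alg : Algebra R'[X] B' := φ.toAlgebra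
  letI act : MulSemiringAction G B' :=
    { smul := fun g y => ⟨g • (y : B), hgB g y y.2⟩
      one_smul := fun y => Subtype.ext (one_smul G (y : B))
      mul_smul := fun g h y => Subtype.ext (mul_smul g h (y : B))
      smul_zero := fun g => Subtype.ext (smul_zero g)
      smul_add := fun g x y => Subtype.ext (smul_add g (x : B) (y : B))
      smul_one := fun g => Subtype.ext (smul_one g)
      smul_mul := fun g x y => Subtype.ext (smul_mul' g (x : B) (y : B)) }
  have hbm : ∀ i, b i ∈ B' := by
    intro i l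
    rw [b.repr_self, Finsupp.single_apply]
    split_ifs
    · exact (E8_P R').one_mem
    · exact (E8_P R').zero_mem
  let b' : Fin n → B' := fun i => ⟨b i, hbm i⟩
  let Φ : (Fin n → R'[X]) →ₗ[R'[X]] B' := Fintype.linearCombination R'[X] b'
  have hΦ : ∀ c, ((Φ c : B') : B) = ∑ i, (c i).map (algebraMap R' K) • b i := by
    intro c
    have h : Φ c = ∑ i, c i • b' i := Fintype.linearCombination_apply _ _ _
    rw [h, AddSubmonoidClass.coe_finset_sum]
    refine Finset.sum_congr rfl fun i _ => ?_
    rw [Algebra.smul_def, Algebra.smul_def]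
    rfl
  have hinjmap : Function.Injective (algebraMap R' K) := Subtype.val_injective
  have hbij : Function.Bijective Φ := by
    constructor
    · rw [injective_iff_map_eq_zero]
      intro c hc
      have h := hΦ c
      rw [hc] at h
      have h2 := (Fintype.linearIndependent_iff.1 b.linearIndependent) _ h.symm
      funext i
      have h3 := h2 i
      rw [Polynomial.map_eq_zero_iff hinjmap] at h3
      exact h3
    · intro y
      have hy : ∀ i, ∃ a : R'[X], a.map (algebraMap R' K) = b.repr y i := fun i => y.2 i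
      choose c hc using hy
      refine ⟨c, Subtype.ext ?_⟩
      rw [hΦ]
      conv_rhs => rw [← b.sum_repr (y : B)]
      exact Finset.sum_congr rfl fun i _ => by rw [hc i]
  let E : (Fin n → R'[X]) ≃ₗ[R'[X]] B' := LinearEquiv.ofBijective Φ hbij
  refine ⟨B', inferInstance, alg, act, B'.subtype, Subtype.val_injective, fun a => rfl,
    fun g y => rfl, Module.Free.of_equiv E, Module.Finite.equiv E, ?_, ?_⟩
  · rw [← LinearEquiv.finrank_eq E, Module.finrank_fin_fun]
  · intro z hz
    exact ⟨⟨z, hZ z (by simp [Z, hz])⟩, rfl⟩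

end MP7b0bad

end

section

set_option autoImplicit false

namespace MP7b0bad

open Polynomial

/-- Nullstellensatz: an ideal without zeros in `Ω` contains a nonzero constant. -/
theorem E9_null {R : Type} [CommRing R] [IsDomain R] {Ω : Type} [Field Ω] [IsAlgClosed Ω]
    [Algebra R Ω] (hinj : Function.Injective (algebraMap R Ω)) {σ : Type} [Finite σ]
    (I : Ideal (MvPolynomial σ R))
    (hI : ∀ x : σ → Ω, ∃ f ∈ I, MvPolynomial.aeval x f ≠ 0) :
    ∃ r : R, r ≠ 0 ∧ MvPolynomial.C r ∈ I := by
  classical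
  by_contra hcon
  push Not at hcon
  let alg0 : Algebra (FractionRing R) Ω := (IsFractionRing.lift hinj).toAlgebra
  have : IsScalarTower R (FractionRing R) Ω := IsScalarTower.of_algebraMap_eq fun x => by
    change _ = IsFractionRing.lift hinj (algebraMap R (FractionRing R) x)
    rw [IsFractionRing.lift_algebraMap]
  let alg1 : Algebra (MvPolynomial σ R) (MvPolynomial σ (FractionRing R)) :=
    MvPolynomial.algebraMvPolynomial
  have hloc : IsLocalization ((nonZeroDivisors R).map (MvPolynomial.C (σ := σ)))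
      (MvPolynomial σ (FractionRing R)) := MvPolynomial.isLocalization _ _
  have hdisj : Disjoint (((nonZeroDivisors R).map (MvPolynomial.C (σ := σ)) :
      Submonoid (MvPolynomial σ R)) : Set (MvPolynomial σ R)) (I : Set (MvPolynomial σ R)) := by
    rw [Set.disjoint_left]
    rintro _ ⟨r, hr, rfl⟩ hmem
    exact hcon r (nonZeroDivisors.ne_zero hr) hmem
  have hne : I.map (algebraMap (MvPolynomial σ R) (MvPolynomial σ (FractionRing R))) ≠ ⊤ :=
    (IsLocalization.map_algebraMap_ne_top_iff_disjoint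
      ((nonZeroDivisors R).map (MvPolynomial.C (σ := σ))) _ I).2 hdisj
  obtain ⟨m, hm, hle⟩ := Ideal.exists_le_maximal _ hne
  let := Ideal.Quotient.field m
  have hfin : Module.Finite (FractionRing R) (MvPolynomial σ (FractionRing R) ⧸ m) :=
    finite_of_finite_type_of_isJacobsonRing (FractionRing R) _
  let g : (MvPolynomial σ (FractionRing R) ⧸ m) →ₐ[FractionRing R] Ω := IsAlgClosed.lift
  let x : σ → Ω := fun i => g (Ideal.Quotient.mk m (MvPolynomial.X i))
  obtain ⟨f, hf, hfx⟩ := hI x
  apply hfx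
  have h1 : ∀ p : MvPolynomial σ R, MvPolynomial.aeval x p =
      g (Ideal.Quotient.mk m (algebraMap (MvPolynomial σ R) (MvPolynomial σ (FractionRing R)) p)) := by
    intro p
    induction p using MvPolynomial.induction_on with
    | C a =>
      rw [MvPolynomial.algebraMap_def, MvPolynomial.map_C, MvPolynomial.aeval_C]
      have : (Ideal.Quotient.mk m) (MvPolynomial.C ((algebraMap R (FractionRing R)) a)) =
          algebraMap (FractionRing R) _ (algebraMap R (FractionRing R) a) := rfl
      rw [this, AlgHom.commutes, ← IsScalarTower.algebraMap_apply]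
    | add p q hp hq => rw [map_add, map_add, map_add, map_add, hp, hq]
    | mul_X p i hp =>
      rw [map_mul, map_mul, map_mul, map_mul, hp, MvPolynomial.aeval_X]
      congr 1
      rw [MvPolynomial.algebraMap_def, MvPolynomial.map_X]
  rw [h1 f]
  have h2 : algebraMap (MvPolynomial σ R) (MvPolynomial σ (FractionRing R)) f ∈ m :=
    hle (Ideal.mem_map_of_mem _ hf)
  rw [Ideal.Quotient.eq_zero_iff_mem.2 h2, map_zero]

theorem E9_point (k R : Type) [Field k] [IsAlgClosed k] [CommRing R] [IsDomain R] [Algebra k R]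
    [Algebra.FiniteType k R] (h : R) (hne : h ≠ 0) : ∃ φ : R →ₐ[k] k, φ h ≠ 0 := by
  have hJ : IsJacobsonRing R := isJacobsonRing_of_finiteType (A := k)
  have h1 : (⊥ : Ideal R).jacobson = ⊥ :=
    hJ.out (Ideal.isPrime_bot (α := R)).isRadical
  have h2 : h ∉ (⊥ : Ideal R).jacobson := by rw [h1]; simpa using hne
  rw [Ideal.jacobson, Ideal.mem_sInf] at h2
  push Not at h2
  obtain ⟨m, ⟨-, hm⟩, hhm⟩ := h2
  let := Ideal.Quotient.field m
  have hfin : Module.Finite k (R ⧸ m) := finite_of_finite_type_of_isJacobsonRing k _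
  have hbij := IsAlgClosed.algebraMap_bijective_of_isIntegral (k := k) (K := R ⧸ m)
  let e : k ≃ₐ[k] (R ⧸ m) := AlgEquiv.ofBijective (Algebra.ofId k (R ⧸ m)) hbij
  refine ⟨(e.symm : (R ⧸ m) →ₐ[k] k).comp (Ideal.Quotient.mkₐ k m), ?_⟩
  intro h0
  have h3 : e.symm (Ideal.Quotient.mk m h) = 0 := h0
  rw [map_eq_zero_iff _ e.symm.injective, Ideal.Quotient.eq_zero_iff_mem] at h3
  exact hhm h3

/-- the generic monic polynomial of degree `j` in the outer variable. -/
noncomputable def E9_mk {S : Type} [CommRing S] (d j : ℕ) (v : Fin (d + 1) × Fin j → S) : S[X][X] :=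
  X ^ j + ∑ b : Fin j, C (∑ a : Fin (d + 1), C (v (a, b)) * X ^ (a : ℕ)) * X ^ (b : ℕ)

theorem E9_mk_map {S S' : Type} [CommRing S] [CommRing S'] (ψ : S →+* S') (d j : ℕ)
    (v : Fin (d + 1) × Fin j → S) :
    (E9_mk d j v).map (mapRingHom ψ) = E9_mk d j (fun i => ψ (v i)) := by
  simp [E9_mk, Polynomial.map_sum]

theorem E9_mk_monic {S : Type} [CommRing S] (d j : ℕ) (v : Fin (d + 1) × Fin j → S) :
    (E9_mk d j v).Monic := by
  unfold E9_mk
  exact monic_X_pow_add (degree_sum_fin_lt _)

theorem E9_mk_natDegree {S : Type} [CommRing S] [Nontrivial S] (d j : ℕ)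
    (v : Fin (d + 1) × Fin j → S) : (E9_mk d j v).natDegree = j := by
  have h1 : (E9_mk d j v).degree = j := by
    unfold E9_mk
    have h2 := degree_sum_fin_lt (R := S[X]) (n := j)
      (fun b => ∑ a : Fin (d + 1), C (v (a, b)) * X ^ (a : ℕ))
    rw [degree_add_eq_left_of_degree_lt, degree_X_pow]
    rw [degree_X_pow]
    exact h2
  exact natDegree_eq_of_degree_eq_some h1

theorem E9_mk_surj {S : Type} [CommRing S] (d j : ℕ) (g : S[X][X]) (hg : g.Monic)
    (hj : g.natDegree = j) (hd : ∀ i, (g.coeff i).natDegree ≤ d) :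
    ∃ v : Fin (d + 1) × Fin j → S, E9_mk d j v = g := by
  refine ⟨fun ab => (g.coeff ab.2).coeff ab.1, ?_⟩
  have h1 := hg.as_sum
  conv_rhs => rw [h1]
  unfold E9_mk
  rw [hj, Finset.sum_range (fun i => C (g.coeff i) * X ^ i)]
  congr 1
  refine Finset.sum_congr rfl fun b _ => ?_
  congr 2
  have h2 := as_sum_range_C_mul_X_pow' (p := g.coeff b) (n := d + 1)
    (Nat.lt_succ_of_le (hd b))
  conv_rhs => rw [h2]
  rw [Finset.sum_range (fun i => C ((g.coeff (b : ℕ)).coeff i) * X ^ i)]

theorem E9_swap_coeff {S : Type} [CommRing S] (p : S[X][X]) (a b : ℕ) :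
    ((Bivariate.swap p).coeff a).coeff b = (p.coeff b).coeff a := by
  induction p using Polynomial.induction_on' with
  | add p q hp hq => simp only [map_add, coeff_add, hp, hq]
  | monomial n f =>
    induction f using Polynomial.induction_on' with
    | add p q hp hq => simp only [map_add, coeff_add, hp, hq]
    | monomial m c =>
      rw [Bivariate.swap_monomial_monomial]
      simp only [coeff_monomial]
      by_cases h1 : m = a <;> by_cases h2 : n = b <;> simp [h1, h2, coeff_monomial]

theorem E9_swap_le {S : Type} [CommRing S] (p : S[X][X]) (d : ℕ) :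
    (Bivariate.swap p).natDegree ≤ d ↔ ∀ i, (p.coeff i).natDegree ≤ d := by
  simp only [natDegree_le_iff_coeff_eq_zero]
  constructor
  · intro h i N hN
    rw [← E9_swap_coeff, h N hN, coeff_zero]
  · intro h N hN
    ext b
    rw [E9_swap_coeff, h b N hN, coeff_zero]

/-- the generic factorisation of type `(j, m)` -/
noncomputable def E9_E {R : Type} [CommRing R] (F : R[X][X]) (d j m : ℕ) :
    (MvPolynomial ((Fin (d + 1) × Fin j) ⊕ (Fin (d + 1) × Fin m)) R)[X][X] :=
  E9_mk d j (fun i => MvPolynomial.X (Sum.inl i)) * E9_mk d m (fun i => MvPolynomial.X (Sum.inr i))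
    - F.map (mapRingHom MvPolynomial.C)

theorem E9_E_map {R S : Type} [CommRing R] [CommRing S] (ψ : R →+* S) (F : R[X][X]) (d j m : ℕ)
    (v : (Fin (d + 1) × Fin j) ⊕ (Fin (d + 1) × Fin m) → S) :
    (E9_E F d j m).map (mapRingHom (MvPolynomial.eval₂Hom ψ v)) =
      E9_mk d j (fun i => v (Sum.inl i)) * E9_mk d m (fun i => v (Sum.inr i))
        - F.map (mapRingHom ψ) := by
  have h1 : (mapRingHom (MvPolynomial.eval₂Hom ψ v)).comp
      (mapRingHom (MvPolynomial.C (σ := (Fin (d + 1) × Fin j) ⊕ (Fin (d + 1) × Fin m)))) =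
      mapRingHom ψ := by
    rw [mapRingHom_comp, MvPolynomial.eval₂Hom_comp_C]
  rw [E9_E, Polynomial.map_sub, Polynomial.map_mul, E9_mk_map, E9_mk_map, Polynomial.map_map, h1]
  simp only [MvPolynomial.eval₂Hom_X']

/-- the ideal of the factorisations -/
noncomputable def E9_J {R : Type} [CommRing R] (F : R[X][X]) (d j m : ℕ) :
    Ideal (MvPolynomial ((Fin (d + 1) × Fin j) ⊕ (Fin (d + 1) × Fin m)) R) :=
  Ideal.span (Set.range fun p : ℕ × ℕ => ((E9_E F d j m).coeff p.1).coeff p.2)

theorem E9_J1 {R : Type} [CommRing R] [IsDomain R] {Ω : Type} [Field Ω] [IsAlgClosed Ω]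
    [Algebra R Ω] (hinj : Function.Injective (algebraMap R Ω)) (F : R[X][X])
    (hirr : Irreducible (F.map (mapRingHom (algebraMap R Ω)))) (d j m : ℕ) (hj : 0 < j)
    (hm : 0 < m) : ∃ r : R, r ≠ 0 ∧ MvPolynomial.C r ∈ E9_J F d j m := by
  refine E9_null (Ω := Ω) hinj (E9_J F d j m) ?_
  intro x
  by_contra hcon
  push Not at hcon
  have hz : (E9_E F d j m).map (mapRingHom (MvPolynomial.eval₂Hom (algebraMap R Ω) x)) = 0 := by
    ext a b
    rw [coeff_map, coe_mapRingHom, coeff_map]
    simp only [coeff_zero]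
    have := hcon (((E9_E F d j m).coeff a).coeff b) (Ideal.subset_span ⟨(a, b), rfl⟩)
    rw [MvPolynomial.aeval_def] at this
    exact this
  rw [E9_E_map, sub_eq_zero] at hz
  rcases hirr.isUnit_or_isUnit hz.symm with hu | hu
  · have := (E9_mk_monic d j (fun i => x (Sum.inl i))).eq_one_of_isUnit hu
    have h2 := E9_mk_natDegree d j (fun i => x (Sum.inl i))
    rw [this, natDegree_one] at h2
    omega
  · have := (E9_mk_monic d m (fun i => x (Sum.inr i))).eq_one_of_isUnit hu
    have h2 := E9_mk_natDegree d m (fun i => x (Sum.inr i))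
    rw [this, natDegree_one] at h2
    omega

theorem E9_J2 {R k : Type} [CommRing R] [CommRing k] (φ : R →+* k) (F : R[X][X]) (d j m : ℕ)
    (f g : k[X][X]) (hf : f.Monic) (hg : g.Monic) (hfj : f.natDegree = j) (hgm : g.natDegree = m)
    (hfd : ∀ i, (f.coeff i).natDegree ≤ d) (hgd : ∀ i, (g.coeff i).natDegree ≤ d)
    (hfg : f * g = F.map (mapRingHom φ)) (r : R) (hr : MvPolynomial.C r ∈ E9_J F d j m) :
    φ r = 0 := by
  obtain ⟨v1, hv1⟩ := E9_mk_surj d j f hf hfj hfd
  obtain ⟨v2, hv2⟩ := E9_mk_surj d m g hg hgm hgd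
  have hz := E9_E_map φ F d j m (Sum.elim v1 v2)
  simp only [Sum.elim_inl, Sum.elim_inr] at hz
  have hv1' : E9_mk d j (fun i => v1 i) = f := hv1
  have hv2' : E9_mk d m (fun i => v2 i) = g := hv2
  rw [hv1', hv2', hfg, sub_self] at hz
  have hker : E9_J F d j m ≤ RingHom.ker (MvPolynomial.eval₂Hom φ (Sum.elim v1 v2)) := by
    rw [E9_J, Ideal.span_le]
    rintro _ ⟨⟨a, b⟩, rfl⟩
    rw [SetLike.mem_coe, RingHom.mem_ker]
    have := congrArg (fun q => (q.coeff a).coeff b) hz
    simpa [coeff_map] using this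
  have hfin := hker hr
  rw [RingHom.mem_ker, MvPolynomial.eval₂Hom_C] at hfin
  exact hfin

theorem prf_E9 : E9 := by
  intro k _ _ R _ _ _ hft Ω _ _ _ hinj F hF hn hirr h hh
  have := hft
  obtain ⟨d, hd⟩ : ∃ d, ∀ i, (F.coeff i).natDegree ≤ d :=
    ⟨_, (E9_swap_le F _).1 le_rfl⟩
  have hJ : ∀ j : ℕ, ∃ r : R, r ≠ 0 ∧
      (0 < j → j < F.natDegree → MvPolynomial.C r ∈ E9_J F d j (F.natDegree - j)) := by
    intro j
    by_cases hj : 0 < j ∧ j < F.natDegree
    · obtain ⟨r, hr, hrJ⟩ := E9_J1 hinj F hirr d j (F.natDegree - j) hj.1 (by omega)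
      exact ⟨r, hr, fun _ _ => hrJ⟩
    · exact ⟨1, one_ne_zero, fun h1 h2 => absurd ⟨h1, h2⟩ hj⟩
  choose r hr hrJ using hJ
  obtain ⟨φ, hφ⟩ := E9_point k R (h * ∏ j ∈ Finset.range F.natDegree, r j)
    (mul_ne_zero hh (Finset.prod_ne_zero_iff.2 fun j _ => hr j))
  rw [map_mul] at hφ
  have hφh : φ h ≠ 0 := left_ne_zero_of_mul hφ
  have hφr : ∀ j < F.natDegree, φ (r j) ≠ 0 := by
    intro j hj h0
    apply right_ne_zero_of_mul hφ
    rw [map_prod]
    exact Finset.prod_eq_zero (Finset.mem_range.2 hj) h0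
  refine ⟨φ, hφh, ?_⟩
  have hmon : (F.map (mapRingHom (φ : R →+* k))).Monic := hF.map _
  have hdeg : (F.map (mapRingHom (φ : R →+* k))).natDegree = F.natDegree := hF.natDegree_map _
  have hne1 : F.map (mapRingHom (φ : R →+* k)) ≠ 1 := by
    intro h1
    rw [h1, natDegree_one] at hdeg
    omega
  rw [irreducible_of_monic hmon hne1]
  intro f g hf hg hfg
  by_contra hcon
  push Not at hcon
  have hf0 : 0 < f.natDegree := Nat.pos_of_ne_zero fun h0 => hcon.1 (hf.natDegree_eq_zero.1 h0)
  have hg0 : 0 < g.natDegree := Nat.pos_of_ne_zero fun h0 => hcon.2 (hg.natDegree_eq_zero.1 h0)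
  have hsum : f.natDegree + g.natDegree = F.natDegree := by
    rw [← hf.natDegree_mul hg, hfg, hdeg]
  have hsw : (Bivariate.swap f).natDegree + (Bivariate.swap g).natDegree ≤ d := by
    rw [← natDegree_mul, ← map_mul, hfg, E9_swap_le]
    · intro i
      rw [coeff_map]
      exact (natDegree_map_le).trans (hd i)
    · rw [map_ne_zero_iff _ (AlgEquiv.injective _)]; exact hf.ne_zero
    · rw [map_ne_zero_iff _ (AlgEquiv.injective _)]; exact hg.ne_zero
  exact hφr f.natDegree (by omega) (E9_J2 (φ : R →+* k) F d f.natDegree (F.natDegree - f.natDegree)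
    f g hf hg rfl (by omega) ((E9_swap_le f d).1 (by omega)) ((E9_swap_le g d).1 (by omega)) hfg
    (r f.natDegree) (hrJ f.natDegree hf0 (by omega)))

end MP7b0bad

end

section

set_option autoImplicit false

namespace MP7b0bad

open Polynomial TensorProduct

theorem prf_F1 : F1 := by
  intro k _ p G _ _ I B _ _ _ hc
  classical
  have hcomm : SMulCommClass G k[X] B := ⟨fun g a b => by
    rw [Algebra.smul_def, Algebra.smul_def, smul_mul', hc.comm]⟩
  have hfin := hc.fin
  have hfree := hc.free
  obtain ⟨θ, f, hfm, hfd, hfi, hθ⟩ := hc.irr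
  have hG : 0 < Nat.card G := Nat.card_pos
  have hBn : Nontrivial B := by
    by_contra hn
    rw [not_nontrivial_iff_subsingleton] at hn
    have h1 := hc.rank
    rw [Module.finrank_zero_of_subsingleton] at h1
    omega
  -- the tensor product
  let K := RatFunc k
  let L0 := K ⊗[k[X]] B
  have hL0n : Module.finrank K L0 = Nat.card G := by
    rw [← hc.rank]
    exact Module.finrank_baseChange
  have hL0nt : Nontrivial L0 := by
    apply Module.nontrivial_of_finrank_pos (R := K)
    rw [hL0n]
    exact hG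
  let f' : K[X] := f.map (algebraMap k[X] K)
  have hf'm : f'.Monic := hfm.map _
  have hf'd : f'.natDegree = Nat.card G := by
    rw [← hfd]
    exact hfm.natDegree_map _
  have hf'i : Irreducible f' := (hfm.irreducible_iff_irreducible_map_fraction_map (K := K)).1 hfi
  have hfact : Fact (Irreducible f') := ⟨hf'i⟩
  let L := AdjoinRoot f'
  have hev : aeval (Algebra.TensorProduct.includeRight (R := k[X]) (A := K) θ : L0) f' = 0 := by
    show aeval _ (f.map (algebraMap k[X] K)) = 0
    rw [aeval_map_algebraMap]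
    have h1 := Polynomial.aeval_algHom_apply
      (Algebra.TensorProduct.includeRight : B →ₐ[k[X]] L0) θ f
    rw [h1, hθ, map_zero]
  let e0 : L →ₐ[K] L0 := AdjoinRoot.liftAlgHom f' (Algebra.ofId K L0)
    (Algebra.TensorProduct.includeRight (R := k[X]) (A := K) θ : L0) (by simpa [aeval_def] using hev)
  have hLfin : Module.Finite K L := hf'm.finite_adjoinRoot
  have hLd : Module.finrank K L = Nat.card G := by
    rw [← hf'd]
    exact (AdjoinRoot.powerBasis' hf'm).finrank
  have he0 : Function.Injective e0 := e0.toRingHom.injective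
  have he0s : Function.Surjective e0 := by
    have h1 := LinearMap.injective_iff_surjective_of_finrank_eq_finrank (f := e0.toLinearMap)
      (by rw [hLd, hL0n])
    exact h1.1 he0
  let e : L ≃ₐ[K] L0 := AlgEquiv.ofBijective e0 ⟨he0, he0s⟩
  let iB : B →+* L0 := (Algebra.TensorProduct.includeRight : B →ₐ[k[X]] L0).toRingHom
  have hiB : Function.Injective iB := by
    apply Algebra.TensorProduct.includeRight_injective
    exact IsFractionRing.injective k[X] K
  let ι : B →+* L := (e.symm : L0 →+* L).comp iB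
  let ρ0 : G → L0 ≃ₐ[K] L0 := fun g =>
    Algebra.TensorProduct.congr AlgEquiv.refl (MulSemiringAction.toAlgEquiv k[X] B g)
  have hρ0t : ∀ g (x : K) (b : B), ρ0 g (x ⊗ₜ b) = x ⊗ₜ (g • b) := by
    intro g x b
    rfl
  let ρ : G →* (L ≃ₐ[K] L) := MonoidHom.mk' (fun g => (e.trans (ρ0 g)).trans e.symm) (by
    intro a b
    apply AlgEquiv.ext
    intro x
    show e.symm (ρ0 (a * b) (e x)) = e.symm (ρ0 a (e (e.symm (ρ0 b (e x)))))
    rw [AlgEquiv.apply_symm_apply]
    congr 1
    generalize e x = y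
    induction y using TensorProduct.induction_on with
    | zero => simp
    | tmul x b => rw [hρ0t, hρ0t, hρ0t, mul_smul]
    | add x y hx hy => rw [map_add, map_add, map_add, hx, hy])
  have hρι : ∀ g b, ρ g (ι b) = ι (g • b) := by
    intro g b
    show e.symm (ρ0 g (e (e.symm (iB b)))) = e.symm (iB (g • b))
    rw [AlgEquiv.apply_symm_apply]
    rfl
  have hιinj : Function.Injective ι := e.symm.injective.comp hiB
  have hρinj : Function.Injective ρ := by
    rw [injective_iff_map_eq_one]
    intro σ hσ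
    by_contra hne
    have h1 : {x : B | ∃ b : B, x = b - σ • b} ⊆ {0} := by
      rintro x ⟨b, rfl⟩
      have h2 := hρι σ b
      rw [hσ] at h2
      have h3 : b = σ • b := hιinj h2
      rw [Set.mem_singleton_iff, ← h3, sub_self]
    have h2 := hc.unr σ hne
    have h3 : (⊤ : Ideal B) ≤ Ideal.span {0} := by
      rw [← h2]
      exact Ideal.span_mono h1
    rw [Ideal.span_singleton_eq_bot.2 rfl] at h3
    have h4 : (1 : B) ∈ (⊥ : Ideal B) := h3 (Submodule.mem_top)
    exact one_ne_zero (Ideal.mem_bot.1 h4)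
  have hle : Nat.card (L ≃ₐ[K] L) ≤ Module.finrank K L := by
    rw [Nat.card_eq_fintype_card]
    exact AlgEquiv.card_le
  have hge : Nat.card G ≤ Nat.card (L ≃ₐ[K] L) := Nat.card_le_card_of_injective ρ hρinj
  have hcard : Nat.card (L ≃ₐ[K] L) = Module.finrank K L := by omega
  have hgal : IsGalois K L := IsGalois.of_card_aut_eq_finrank K L hcard
  have hbij : Function.Bijective ρ := by
    rw [Nat.bijective_iff_injective_and_card]
    exact ⟨hρinj, by omega⟩
  refine ⟨L, inferInstance, inferInstance, ι, hιinj, ?_, hLfin, hgal,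
    MulEquiv.ofBijective ρ hbij, hρι⟩
  intro a
  show e.symm (iB (algebraMap k[X] B a)) = algebraMap K L (algebraMap k[X] K a)
  rw [← AlgEquiv.commutes e.symm]
  congr 1
  show Algebra.TensorProduct.includeRight (algebraMap k[X] B a) = _
  rw [AlgHom.commutes]
  rfl

end MP7b0bad

end

section

set_option autoImplicit false

/-!
# Item F2: finite places are unramified
-/

namespace MP7b0bad

open Polynomial

theorem F2_int {L : Type} [Field L] (A : ValuationSubring L) {B R : Type} [CommRing B] [CommRing R]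
    [Algebra R B] (ι : B →+* L) (h1 : ∀ a : R, ι (algebraMap R B a) ∈ A) (b : B)
    (hb : IsIntegral R b) : ι b ∈ A := by
  obtain ⟨P, hPm, hP⟩ := hb
  let j : R →+* A := (ι.comp (algebraMap R B)).codRestrict A.toSubring h1
  have h2 : IsIntegral A (ι b) := by
    refine ⟨P.map j, hPm.map _, ?_⟩
    have h3 : (algebraMap A L).comp j = ι.comp (algebraMap R B) := RingHom.ext fun a => rfl
    rw [eval₂_map, h3, ← hom_eval₂, hP, map_zero]
  obtain ⟨y, hy⟩ := IsIntegrallyClosed.isIntegral_iff.1 h2
  rw [← hy]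
  exact y.2

theorem prf_F2 : F2 := by
  intro k _ G _ B _ _ _ L _ _ ι φ hfin hι hφ hunr A hk hX
  have h1 : ∀ a : k[X], ι (algebraMap k[X] B a) ∈ A := by
    intro a
    rw [hι]
    induction a using Polynomial.induction_on' with
    | add a b ha hb =>
      rw [map_add, map_add]
      exact add_mem ha hb
    | monomial n c =>
      rw [← C_mul_X_pow_eq_monomial, map_mul, map_mul, map_pow, map_pow]
      refine mul_mem ?_ (pow_mem ?_ n)
      · have h := hk c
        have h2 : algebraMap k (RatFunc k) c = algebraMap k[X] (RatFunc k) (C c) := by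
          rw [IsScalarTower.algebraMap_apply k k[X] (RatFunc k)]
          rfl
        rwa [h2] at h
      · have h := hX
        rw [← RatFunc.algebraMap_X] at h
        exact h
  have h2 : ∀ b : B, ι b ∈ A := fun b => F2_int A ι h1 b (IsIntegral.of_finite k[X] b)
  rw [Subgroup.eq_bot_iff_forall]
  intro s hs
  by_contra hne
  have hg : φ.symm s.1 ≠ 1 := by
    intro h
    apply hne
    have h3 : s.1 = 1 := by
      rw [← φ.apply_symm_apply s.1, h, map_one]
    exact Subtype.ext h3
  have hs' : ∀ r : A, IsLocalRing.residue A (s • r) = IsLocalRing.residue A r := by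
    intro r
    rw [IsLocalRing.ResidueField.residue_smul]
    have h3 : MulSemiringAction.toRingAut (A.decompositionSubgroup (RatFunc k))
        (IsLocalRing.ResidueField A) s = 1 := hs
    have h4 := RingEquiv.congr_fun h3 (IsLocalRing.residue A r)
    exact h4
  let ιA : B →+* A := ι.codRestrict A.toSubring h2
  have hle : Ideal.span {x : B | ∃ b : B, x = b - φ.symm s.1 • b} ≤
      (IsLocalRing.maximalIdeal A).comap ιA := by
    rw [Ideal.span_le]
    rintro x ⟨b, rfl⟩
    show ιA (b - φ.symm s.1 • b) ∈ IsLocalRing.maximalIdeal A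
    have h3 : ιA (φ.symm s.1 • b) = s • ιA b := by
      apply Subtype.ext
      show ι (φ.symm s.1 • b) = s.1 (ι b)
      rw [← hφ, φ.apply_symm_apply]
    rw [map_sub, h3, ← IsLocalRing.residue_eq_zero_iff, map_sub, hs', sub_self]
  rw [hunr _ hg] at hle
  have h3 : (1 : B) ∈ (IsLocalRing.maximalIdeal A).comap ιA := hle Submodule.mem_top
  rw [Ideal.mem_comap, map_one] at h3
  exact (Ideal.ne_top_iff_one _).1 (IsLocalRing.maximalIdeal.isMaximal A).ne_top h3

end MP7b0bad

end

section

set_option autoImplicit false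

namespace MP7b0bad

open Polynomial

section

variable {k : Type} [Field k] {L : Type} [Field L] [Algebra (RatFunc k) L]
  {A : ValuationSubring L}

/-- the value of `x` is larger than one -/
theorem F3_X (hA : AtInfty (k := k) A) :
    1 < A.valuation (algebraMap (RatFunc k) L RatFunc.X) := by
  have h := hA.2
  rw [← A.valuation_le_one_iff, not_le] at h
  exact h

theorem F3_C (hA : AtInfty (k := k) A) (c : k) (hc : c ≠ 0) :
    A.valuation (algebraMap (RatFunc k) L (algebraMap k (RatFunc k) c)) = 1 := by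
  have h1 : A.valuation (algebraMap (RatFunc k) L (algebraMap k (RatFunc k) c)) ≤ 1 :=
    (A.valuation_le_one_iff _).2 (hA.1 c)
  have h2 : A.valuation (algebraMap (RatFunc k) L (algebraMap k (RatFunc k) c⁻¹)) ≤ 1 :=
    (A.valuation_le_one_iff _).2 (hA.1 c⁻¹)
  have h3 : A.valuation (algebraMap (RatFunc k) L (algebraMap k (RatFunc k) c)) *
      A.valuation (algebraMap (RatFunc k) L (algebraMap k (RatFunc k) c⁻¹)) = 1 := by
    rw [← map_mul, ← map_mul, ← map_mul, mul_inv_cancel₀ hc, map_one, map_one, map_one]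
  refine le_antisymm h1 ?_
  rw [← h3]
  exact mul_le_of_le_one_right' h2

/-- the value of a monomial -/
theorem F3_mon (hA : AtInfty (k := k) A) (m : ℕ) (c : k) (hc : c ≠ 0) :
    A.valuation (algebraMap (RatFunc k) L (algebraMap k[X] (RatFunc k) (monomial m c))) =
      A.valuation (algebraMap (RatFunc k) L RatFunc.X) ^ m := by
  rw [← C_mul_X_pow_eq_monomial, map_mul, map_mul, map_mul, map_pow, map_pow, map_pow,
    RatFunc.algebraMap_X]
  have h : (algebraMap k[X] (RatFunc k)) (C c) = algebraMap k (RatFunc k) c := by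
    rw [RatFunc.algebraMap_C]
    rfl
  rw [h, F3_C hA c hc, one_mul]

/-- polynomials of degree less than `n` -/
theorem F3_lt (hA : AtInfty (k := k) A) (n : ℕ) (q : k[X]) (hq : q.degree < n) :
    A.valuation (algebraMap (RatFunc k) L (algebraMap k[X] (RatFunc k) q)) <
      A.valuation (algebraMap (RatFunc k) L RatFunc.X) ^ n := by
  have hX := F3_X hA
  have hX0 : A.valuation (algebraMap (RatFunc k) L RatFunc.X) ≠ 0 := (zero_lt_one.trans hX).ne'
  by_cases h0 : q = 0
  · rw [h0, map_zero, map_zero, map_zero]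
    exact zero_lt_iff.2 (pow_ne_zero _ hX0)
  rw [q.as_sum_support, map_sum, map_sum]
  refine Valuation.map_sum_lt _ (pow_ne_zero _ hX0) fun i hi => ?_
  rw [F3_mon hA i _ (mem_support_iff.1 hi)]
  refine pow_lt_pow_right₀ hX ?_
  have h1 := le_degree_of_ne_zero (mem_support_iff.1 hi)
  exact_mod_cast h1.trans_lt hq

/-- the value of a polynomial -/
theorem F3_poly (hA : AtInfty (k := k) A) (q : k[X]) (hq : q ≠ 0) :
    A.valuation (algebraMap (RatFunc k) L (algebraMap k[X] (RatFunc k) q)) =
      A.valuation (algebraMap (RatFunc k) L RatFunc.X) ^ q.natDegree := by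
  have h1 := F3_mon hA q.natDegree q.leadingCoeff (leadingCoeff_ne_zero.2 hq)
  have h2 : A.valuation (algebraMap (RatFunc k) L (algebraMap k[X] (RatFunc k) q.eraseLead)) <
      A.valuation (algebraMap (RatFunc k) L RatFunc.X) ^ q.natDegree := by
    refine F3_lt hA _ _ ?_
    rw [← degree_eq_natDegree hq]
    exact degree_eraseLead_lt hq
  have h3 : q = q.eraseLead + monomial q.natDegree q.leadingCoeff :=
    (eraseLead_add_monomial_natDegree_leadingCoeff q).symm
  conv_lhs => rw [h3, map_add, map_add]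
  rw [Valuation.map_add_eq_of_lt_right, h1]
  rw [h1]
  exact h2

/-- the value of a rational function -/
theorem F3_val (hA : AtInfty (k := k) A) (r : RatFunc k) (hr : r ≠ 0) :
    A.valuation (algebraMap (RatFunc k) L r) =
      A.valuation (algebraMap (RatFunc k) L RatFunc.X) ^ r.intDegree := by
  have hX := F3_X hA
  have hX0 : A.valuation (algebraMap (RatFunc k) L RatFunc.X) ≠ 0 := (zero_lt_one.trans hX).ne'
  conv_lhs => rw [← RatFunc.num_div_denom r, map_div₀, map_div₀]
  rw [F3_poly hA _ (RatFunc.num_ne_zero hr), F3_poly hA _ (RatFunc.denom_ne_zero r),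
    RatFunc.intDegree, zpow_sub₀ hX0, zpow_natCast, zpow_natCast]

end

theorem prf_F3 : F3 := by
  intro k _ L _ _ A hA r hr
  have hX := F3_X hA
  have hX0 : A.valuation (algebraMap (RatFunc k) L RatFunc.X) ≠ 0 := (zero_lt_one.trans hX).ne'
  have h := F3_val hA r hr
  constructor
  · rw [← A.valuation_le_one_iff, h]
    exact zpow_le_one_iff_right₀ hX
  · rw [A.mem_nonunits_iff, h]
    exact zpow_lt_one_iff_right₀ hX

end MP7b0bad

end

section

set_option autoImplicit false

namespace MP7b0bad

open Polynomial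

theorem prf_F4 : F4 := by
  intro k _ L _ _
  have hxx : algebraMap (RatFunc k) L RatFunc.X ≠ 0 := by
    rw [Ne, map_eq_zero]
    exact RatFunc.X_ne_zero
  set x : L := algebraMap (RatFunc k) L RatFunc.X with hx
  set i : k →+* L := (algebraMap (RatFunc k) L).comp (algebraMap k (RatFunc k)) with hi
  set ρ : k[X] →+* L := eval₂RingHom i x⁻¹ with hρ
  have hψ : ∀ q : k[X], eval₂ i x q = algebraMap (RatFunc k) L (algebraMap k[X] (RatFunc k) q) := by
    intro q
    rw [← coe_eval₂RingHom, ← RingHom.comp_apply]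
    congr 1
    refine Polynomial.ringHom_ext (fun c => ?_) ?_
    · simp only [coe_eval₂RingHom, eval₂_C, hi, RingHom.comp_apply, RatFunc.algebraMap_C]
      rfl
    · simp [hx, RatFunc.algebraMap_X]
  have hinj : ∀ q : k[X], ρ q = 0 → q = 0 := by
    intro q hq
    by_contra h0
    let _ : Invertible x⁻¹ := invertibleOfNonzero (inv_ne_zero hxx)
    have h1 := (eval₂_reverse_eq_zero_iff i x⁻¹ q).2 (by simpa [hρ] using hq)
    rw [invOf_eq_inv, inv_inv, hψ, map_eq_zero] at h1
    have h2 : q.reverse = 0 := by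
      have := RatFunc.algebraMap_injective k (h1.trans (map_zero _).symm)
      exact this
    exact h0 (by simpa using h2)
  let S : Subring L := ρ.range
  have hxS : x⁻¹ ∈ S := ⟨X, by simp [hρ]⟩
  have hI : Ideal.span {(⟨x⁻¹, hxS⟩ : S)} ≠ ⊤ := by
    intro h
    rw [Ideal.eq_top_iff_one, Ideal.mem_span_singleton'] at h
    obtain ⟨⟨a, q, rfl⟩, ha⟩ := h
    have h1 : ρ q * x⁻¹ = 1 := congrArg Subtype.val ha
    have h2 : ρ (q * X - 1) = 0 := by
      rw [map_sub, map_mul, map_one]
      have : ρ X = x⁻¹ := by simp [hρ]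
      rw [this, h1, sub_self]
    have h3 := hinj _ h2
    have h4 := congrArg (fun p : k[X] => p.coeff 0) h3
    simp at h4
  obtain ⟨B, hB1, hB2⟩ := Ideal.image_subset_nonunits_valuationSubring _ hI
  refine ⟨B, fun c => ?_, ?_⟩
  · apply hB1
    exact ⟨C c, by simp [hρ, hi]⟩
  · have h1 : x⁻¹ ∈ B.nonunits := by
      apply hB2
      exact ⟨⟨x⁻¹, hxS⟩, Ideal.subset_span rfl, rfl⟩
    rw [B.inv_mem_nonunits_iff] at h1
    rcases h1 with h1 | h1
    · exact absurd h1 hxx
    · exact h1

end MP7b0bad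

end

section

set_option autoImplicit false

namespace MP7b0bad

open Polynomial Pointwise

/-- two terms of a vanishing sum have the same value -/
theorem F7_two_terms {ι L Γ : Type} [Field L] [LinearOrderedCommGroupWithZero Γ]
    (v : Valuation L Γ) (S : Finset ι) (f : ι → L) (hS : S.Nonempty) (hf : ∀ i ∈ S, f i ≠ 0)
    (h : ∑ i ∈ S, f i = 0) : ∃ i ∈ S, ∃ j ∈ S, i ≠ j ∧ v (f i) = v (f j) := by
  classical
  obtain ⟨i, hi, hmax⟩ := S.exists_max_image (fun i => v (f i)) hS
  by_contra hcon
  push Not at hcon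
  have hne : v (f i) ≠ 0 := (Valuation.ne_zero_iff v).2 (hf i hi)
  have hlt : ∀ j ∈ S.erase i, v (f j) < v (f i) := fun j hj => by
    obtain ⟨h1, h2⟩ := Finset.mem_erase.1 hj
    exact lt_of_le_of_ne (hmax j h2) (fun h3 => hcon i hi j h2 (Ne.symm h1) h3.symm)
  have h2 : v (∑ j ∈ S.erase i, f j) < v (f i) := Valuation.map_sum_lt v hne hlt
  have h3 : f i = -∑ j ∈ S.erase i, f j := by
    rw [← Finset.add_sum_erase S f hi] at h
    exact eq_neg_of_add_eq_zero_left h
  have h4 : v (f i) = v (∑ j ∈ S.erase i, f j) := by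
    conv_lhs => rw [h3]
    rw [Valuation.map_neg]
  exact absurd h4 (ne_of_gt h2)

theorem F7_torsion {K L Γ : Type} [Field K] [Field L] [Algebra K L] [FiniteDimensional K L]
    [LinearOrderedCommGroupWithZero Γ] (v : Valuation L Γ) (z : L) (hz : z ≠ 0) :
    ∃ (m : ℕ) (c : K), 0 < m ∧ c ≠ 0 ∧ v z ^ m = v (algebraMap K L c) := by
  obtain ⟨P, hP, hPz⟩ := Algebra.IsAlgebraic.isAlgebraic (R := K) z
  have h1 : ∑ i ∈ P.support, algebraMap K L (P.coeff i) * z ^ i = 0 := by
    rw [← hPz, aeval_def, eval₂_eq_sum, Polynomial.sum_def]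
  obtain ⟨i, hi, j, hj, hij, hv⟩ := F7_two_terms v P.support
    (fun i => algebraMap K L (P.coeff i) * z ^ i) (support_nonempty.2 hP) (fun i hi => by
      refine mul_ne_zero ?_ (pow_ne_zero _ hz)
      rw [Ne, map_eq_zero]
      exact mem_support_iff.1 hi) h1
  have key : ∀ i j : ℕ, P.coeff i ≠ 0 → P.coeff j ≠ 0 → i < j →
      v (algebraMap K L (P.coeff i) * z ^ i) = v (algebraMap K L (P.coeff j) * z ^ j) →
      ∃ (m : ℕ) (c : K), 0 < m ∧ c ≠ 0 ∧ v z ^ m = v (algebraMap K L c) := by
    intro i j hi hj hij hv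
    refine ⟨j - i, P.coeff i / P.coeff j, by omega, div_ne_zero hi hj, ?_⟩
    have hvz : v z ≠ 0 := (Valuation.ne_zero_iff v).2 hz
    have hvj : v (algebraMap K L (P.coeff j)) ≠ 0 := (Valuation.ne_zero_iff v).2 (by
      rw [Ne, map_eq_zero]; exact hj)
    rw [map_div₀, map_div₀, eq_div_iff hvj]
    rw [map_mul, map_mul, map_pow, map_pow] at hv
    have h2 : v z ^ j = v z ^ (j - i) * v z ^ i := by
      rw [← pow_add]; congr 1; omega
    rw [h2, ← mul_assoc] at hv
    have h3 := mul_right_cancel₀ (pow_ne_zero i hvz) hv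
    rw [h3, mul_comm]
  rcases lt_or_gt_of_ne hij with h | h
  · exact key i j (mem_support_iff.1 hi) (mem_support_iff.1 hj) h hv
  · exact key j i (mem_support_iff.1 hj) (mem_support_iff.1 hi) h hv.symm

section place

variable {k : Type} [Field k] {L : Type} [Field L] [Algebra (RatFunc k) L]

theorem F7_X_ne : algebraMap (RatFunc k) L RatFunc.X ≠ 0 := by
  rw [Ne, map_eq_zero]
  exact RatFunc.X_ne_zero

theorem F7_one_lt (A : ValuationSubring L) (hA : AtInfty (k := k) A) :
    1 < A.valuation (algebraMap (RatFunc k) L RatFunc.X) := by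
  rw [← not_le, A.valuation_le_one_iff]
  exact hA.2

/-- small elements: a power is at most `1/x`. -/
theorem F7_small (hF3 : F3) [FiniteDimensional (RatFunc k) L] (A : ValuationSubring L)
    (hA : AtInfty (k := k) A) (z : L) (hz : A.valuation z < 1) :
    ∃ m : ℕ, A.valuation z ^ m ≤ (A.valuation (algebraMap (RatFunc k) L RatFunc.X))⁻¹ := by
  by_cases hz0 : z = 0
  · refine ⟨1, ?_⟩
    rw [hz0, map_zero]
    simp
  obtain ⟨m, c, hm, hc, h⟩ := F7_torsion (K := RatFunc k) A.valuation z hz0
  refine ⟨m, ?_⟩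
  have h1 : A.valuation (algebraMap (RatFunc k) L c) < 1 := by
    rw [← h]
    exact pow_lt_one₀ zero_le hz (by omega)
  have h2 : c.intDegree < 0 := ((hF3 k L A hA c hc).2).1 (A.mem_nonunits_iff.2 h1)
  have h3 : (c * RatFunc.X).intDegree ≤ 0 := by
    rw [RatFunc.intDegree_mul hc RatFunc.X_ne_zero, RatFunc.intDegree_X]
    omega
  have h4 := ((hF3 k L A hA (c * RatFunc.X) (mul_ne_zero hc RatFunc.X_ne_zero)).1).2 h3
  rw [← A.valuation_le_one_iff, map_mul, map_mul, ← h] at h4
  have h5 : A.valuation (algebraMap (RatFunc k) L RatFunc.X) ≠ 0 :=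
    (Valuation.ne_zero_iff _).2 F7_X_ne
  rw [← one_div, le_div_iff₀ (zero_lt_iff.2 h5)]
  exact h4

theorem F7_bounded (hF3 : F3) [FiniteDimensional (RatFunc k) L] (A : ValuationSubring L)
    (hA : AtInfty (k := k) A) (z : L) :
    ∃ m : ℕ, ∀ n : ℕ, m ≤ n →
      A.valuation z < A.valuation (algebraMap (RatFunc k) L RatFunc.X) ^ n := by
  have hX := F7_one_lt A hA
  have mono : ∀ m n : ℕ, m ≤ n → A.valuation (algebraMap (RatFunc k) L RatFunc.X) ^ m ≤
      A.valuation (algebraMap (RatFunc k) L RatFunc.X) ^ n := fun m n h =>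
    pow_le_pow_right₀ hX.le h
  suffices hs : ∃ m : ℕ, A.valuation z < A.valuation (algebraMap (RatFunc k) L RatFunc.X) ^ m by
    obtain ⟨m, hm⟩ := hs
    exact ⟨m, fun n hn => lt_of_lt_of_le hm (mono m n hn)⟩
  by_cases hz1 : A.valuation z ≤ 1
  · exact ⟨1, by rw [pow_one]; exact lt_of_le_of_lt hz1 hX⟩
  have hz1 : 1 < A.valuation z := not_le.1 hz1
  have hz0 : z ≠ 0 := by
    rintro rfl
    rw [map_zero] at hz1
    exact absurd hz1 (not_lt.2 zero_le)
  obtain ⟨m, c, hm, hc, h⟩ := F7_torsion (K := RatFunc k) A.valuation z hz0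
  refine ⟨c.intDegree.toNat + 1, ?_⟩
  have h5 : A.valuation (algebraMap (RatFunc k) L RatFunc.X) ≠ 0 :=
    (Valuation.ne_zero_iff _).2 F7_X_ne
  have hXn : (RatFunc.X : RatFunc k) ^ c.intDegree.toNat ≠ 0 := pow_ne_zero _ RatFunc.X_ne_zero
  have hdeg : ∀ n : ℕ, ((RatFunc.X : RatFunc k) ^ n).intDegree = n := by
    intro n
    induction n with
    | zero => simp [RatFunc.intDegree_one]
    | succ n ih =>
      rw [pow_succ, RatFunc.intDegree_mul (pow_ne_zero _ RatFunc.X_ne_zero) RatFunc.X_ne_zero, ih,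
        RatFunc.intDegree_X]
      push_cast
      ring
  have h3 : (c / RatFunc.X ^ c.intDegree.toNat).intDegree ≤ 0 := by
    rw [div_eq_mul_inv, RatFunc.intDegree_mul hc (inv_ne_zero hXn), RatFunc.intDegree_inv, hdeg]
    have := Int.self_le_toNat c.intDegree
    omega
  have h4 := ((hF3 k L A hA _ (div_ne_zero hc hXn)).1).2 h3
  rw [← A.valuation_le_one_iff, map_div₀, map_div₀, ← h, map_pow, map_pow,
    div_le_one₀ (zero_lt_iff.2 (pow_ne_zero _ h5))] at h4
  calc A.valuation z ≤ A.valuation z ^ m := le_self_pow₀ hz1.le (by omega)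
    _ ≤ A.valuation (algebraMap (RatFunc k) L RatFunc.X) ^ c.intDegree.toNat := h4
    _ < _ := pow_lt_pow_right₀ hX (by omega)

/-- the places `A` and `σ • A` are incomparable -/
theorem F7_incomparable [FiniteDimensional (RatFunc k) L] (A : ValuationSubring L)
    (σ : L ≃ₐ[RatFunc k] L) (hσ : σ • A ≠ A) :
    ∃ u : L, 1 < A.valuation u ∧ A.valuation (σ⁻¹ u) < 1 := by
  have hfin : ∃ n : ℕ, σ ^ (n + 1) = 1 := by
    refine ⟨orderOf σ - 1, ?_⟩
    rw [Nat.sub_add_cancel (orderOf_pos σ)]
    exact pow_orderOf_eq_one σ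
  obtain ⟨n, hσn⟩ := hfin
  have mono : ∀ B C : ValuationSubring L, B ≤ C → σ • B ≤ σ • C := fun B C h =>
    ValuationSubring.pointwise_smul_le_pointwise_smul_iff.2 h
  have hn : σ • (σ ^ n • A) = A := by
    rw [← mul_smul, ← pow_succ', hσn, one_smul]
  have h1 : ¬ A ≤ σ • A := by
    intro h
    have h2 : ∀ m : ℕ, A ≤ σ ^ m • A := by
      intro m
      induction m with
      | zero => rw [pow_zero, one_smul]
      | succ m ih =>
        rw [pow_succ', mul_smul]
        exact h.trans (mono _ _ ih)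
    have h3 := mono _ _ (h2 n)
    rw [hn] at h3
    exact hσ (le_antisymm h3 h)
  have h2 : ¬ σ • A ≤ A := by
    intro h
    have h2 : ∀ m : ℕ, σ ^ m • A ≤ A := by
      intro m
      induction m with
      | zero => rw [pow_zero, one_smul]
      | succ m ih =>
        rw [pow_succ', mul_smul]
        exact (mono _ _ ih).trans h
    have h3 := mono _ _ (h2 n)
    rw [hn] at h3
    exact hσ (le_antisymm h h3)
  obtain ⟨a, ha, ha'⟩ := SetLike.not_le_iff_exists.1 h1
  obtain ⟨b, hb, hb'⟩ := SetLike.not_le_iff_exists.1 h2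
  rw [ValuationSubring.mem_pointwise_smul_iff_inv_smul_mem, ← A.valuation_le_one_iff, not_le] at ha'
  rw [ValuationSubring.mem_pointwise_smul_iff_inv_smul_mem, ← A.valuation_le_one_iff] at hb
  rw [← A.valuation_le_one_iff] at ha
  rw [← A.valuation_le_one_iff, not_le] at hb'
  have ha0 : a ≠ 0 := by
    rintro rfl
    rw [smul_zero, map_zero] at ha'
    exact absurd ha' (not_lt.2 zero_le)
  have ha1 : A.valuation a ≠ 0 := (Valuation.ne_zero_iff _).2 ha0
  refine ⟨b / a, ?_, ?_⟩
  · rw [map_div₀, one_lt_div₀ (zero_lt_iff.2 ha1)]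
    exact lt_of_le_of_lt ha hb'
  · have ha'' : 1 < A.valuation (σ⁻¹ a) := ha'
    have hb'' : A.valuation (σ⁻¹ b) ≤ 1 := hb
    rw [map_div₀, map_div₀, div_lt_one₀ (lt_trans zero_lt_one ha'')]
    exact lt_of_le_of_lt hb'' ha''

end place

/-- The auxiliary element. -/
theorem F7_elt (hF3 : F3) {k : Type} [Field k] [IsAlgClosed k] {L : Type} [Field L]
    [Algebra (RatFunc k) L] [FiniteDimensional (RatFunc k) L]
    (A : ValuationSubring L) (hA : AtInfty (k := k) A) (σ : L ≃ₐ[RatFunc k] L) (hσ : σ • A ≠ A)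
    (s : ℕ) : ∃ e : L, (∀ τ : L ≃ₐ[RatFunc k] L, A.valuation (τ e) ≤ 1) ∧
      A.valuation (e - 1) ≤ (A.valuation (algebraMap (RatFunc k) L RatFunc.X))⁻¹ ^ s ∧
      A.valuation (σ⁻¹ e) ≤ (A.valuation (algebraMap (RatFunc k) L RatFunc.X))⁻¹ ^ s := by
  classical
  obtain ⟨u, hu, hu'⟩ := F7_incomparable A σ hσ
  have hu0 : u ≠ 0 := by
    rintro rfl
    rw [map_zero] at hu
    exact absurd hu (not_lt.2 zero_le)
  have hui : A.valuation u⁻¹ < 1 := by
    rw [map_inv₀]
    exact inv_lt_one_of_one_lt₀ hu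
  obtain ⟨m₁, hm₁⟩ := F7_small hF3 A hA u⁻¹ hui
  obtain ⟨m₂, hm₂⟩ := F7_small hF3 A hA (σ⁻¹ u) hu'
  set N := (m₁ + m₂) * s + 1 with hN
  set w := u ^ N with hw
  have hX := F7_one_lt A hA
  have hc : ∀ c : k, c ≠ 0 →
      A.valuation (algebraMap (RatFunc k) L (algebraMap k (RatFunc k) c)) = 1 := by
    intro c hc
    apply le_antisymm
    · exact (A.valuation_le_one_iff _).2 (hA.1 c)
    · have h1 := (A.valuation_le_one_iff _).2 (hA.1 c⁻¹)
      rw [map_inv₀, map_inv₀, map_inv₀, inv_le_one₀] at h1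
      · exact h1
      · rw [zero_lt_iff, Valuation.ne_zero_iff, Ne, map_eq_zero, map_eq_zero]
        exact hc
  -- for every `τ` at most one bad constant
  have hbad : ∀ τ : L ≃ₐ[RatFunc k] L, ∃ b : k, ∀ c : k, c ≠ b →
      1 ≤ A.valuation (algebraMap (RatFunc k) L (algebraMap k (RatFunc k) c) + τ w) := by
    intro τ
    by_cases h : ∃ b : k, A.valuation (algebraMap (RatFunc k) L (algebraMap k (RatFunc k) b) + τ w) < 1
    · obtain ⟨b, hb⟩ := h
      refine ⟨b, fun c hcb => ?_⟩
      by_contra hlt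
      rw [not_le] at hlt
      have h2 := Valuation.map_sub_lt A.valuation hlt hb
      have h3 : algebraMap (RatFunc k) L (algebraMap k (RatFunc k) c) + τ w -
          (algebraMap (RatFunc k) L (algebraMap k (RatFunc k) b) + τ w) =
          algebraMap (RatFunc k) L (algebraMap k (RatFunc k) (c - b)) := by
        rw [map_sub, map_sub]; ring
      rw [h3, hc _ (sub_ne_zero.2 hcb)] at h2
      exact lt_irrefl _ h2
    · push Not at h
      exact ⟨0, fun c _ => h c⟩
  choose bad hbad using hbad
  obtain ⟨c, hcS⟩ := Infinite.exists_notMem_finset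
    (insert (0 : k) (Finset.univ.image bad))
  rw [Finset.mem_insert, not_or, Finset.mem_image] at hcS
  obtain ⟨hc0, hcS⟩ := hcS
  have hgood : ∀ τ : L ≃ₐ[RatFunc k] L,
      1 ≤ A.valuation (algebraMap (RatFunc k) L (algebraMap k (RatFunc k) c) + τ w) :=
    fun τ => hbad τ c (fun h => hcS ⟨τ, Finset.mem_univ _, h.symm⟩)
  set C := algebraMap (RatFunc k) L (algebraMap k (RatFunc k) c) with hC
  have hvC : A.valuation C = 1 := hc c hc0
  have hτC : ∀ τ : L ≃ₐ[RatFunc k] L, τ C = C := fun τ => τ.commutes _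
  have hCw : C + w ≠ 0 := by
    intro h
    have := hgood 1
    rw [AlgEquiv.one_apply, h, map_zero] at this
    exact absurd this (not_le.2 zero_lt_one)
  have hpow : ∀ (z : L) (m : ℕ), m ≤ m₁ + m₂ → A.valuation z ≤ 1 → A.valuation z ^ m ≤
      (A.valuation (algebraMap (RatFunc k) L RatFunc.X))⁻¹ → A.valuation z ^ N ≤
      (A.valuation (algebraMap (RatFunc k) L RatFunc.X))⁻¹ ^ s := by
    intro z m hm hz1 hz
    calc A.valuation z ^ N ≤ A.valuation z ^ (m * s) := by
          refine pow_le_pow_of_le_one zero_le hz1 ?_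
          rw [hN]
          nlinarith
      _ = (A.valuation z ^ m) ^ s := pow_mul _ _ _
      _ ≤ _ := pow_le_pow_left₀ zero_le hz s
  refine ⟨w / (C + w), fun τ => ?_, ?_, ?_⟩
  · rw [map_div₀, map_add, hτC, map_div₀]
    have h1 := hgood τ
    rw [div_le_one₀ (lt_of_lt_of_le zero_lt_one h1)]
    rcases le_or_gt (A.valuation (τ w)) 1 with h | h
    · exact h.trans h1
    · rw [Valuation.map_add_eq_of_lt_right _ (by rw [hvC]; exact h)]
  · have h1 : w / (C + w) - 1 = - (C / (C + w)) := by
      field_simp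
      ring
    have h2 : 1 < A.valuation w := by
      rw [hw, map_pow]
      exact one_lt_pow₀ hu (by omega)
    rw [h1, Valuation.map_neg, map_div₀, hvC, Valuation.map_add_eq_of_lt_right _ (by rw [hvC]; exact h2),
      one_div, ← map_inv₀, hw, ← inv_pow, map_pow]
    exact hpow _ m₁ (by omega) hui.le hm₁
  · have h2 : A.valuation (σ⁻¹ w) < 1 := by
      rw [hw, map_pow, map_pow]
      exact pow_lt_one₀ zero_le hu' (by omega)
    rw [map_div₀, map_add, hτC, map_div₀,
      Valuation.map_add_eq_of_lt_left _ (by rw [hvC]; exact h2), hvC, div_one, hw, map_pow, map_pow]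
    exact hpow _ m₂ (by omega) hu'.le hm₂

theorem prf_F7 (hF3 : F3) (_ : F6) : F7 := by
  intro k _ _ L _ _ _ _ A hA hdec γ
  classical
  have hX := F7_one_lt A hA
  have hX0 : A.valuation (algebraMap (RatFunc k) L RatFunc.X) ≠ 0 :=
    (Valuation.ne_zero_iff _).2 F7_X_ne
  -- bound on the conjugates of `γ`
  choose m hm using fun τ : L ≃ₐ[RatFunc k] L => F7_bounded hF3 A hA (τ γ)
  set s := ∑ τ, m τ with hs
  have hγ : ∀ τ : L ≃ₐ[RatFunc k] L, A.valuation (τ γ) <
      A.valuation (algebraMap (RatFunc k) L RatFunc.X) ^ s := fun τ =>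
    hm τ s (Finset.single_le_sum (f := m) (fun _ _ => Nat.zero_le _) (Finset.mem_univ τ))
  -- the element β
  have hβ : ∀ S : Finset (L ≃ₐ[RatFunc k] L), (∀ σ ∈ S, σ ≠ 1) → ∃ β : L,
      (∀ τ : L ≃ₐ[RatFunc k] L, A.valuation (τ β) ≤ 1) ∧
      A.valuation (β - 1) ≤ (A.valuation (algebraMap (RatFunc k) L RatFunc.X))⁻¹ ^ s ∧
      ∀ σ ∈ S, A.valuation (σ⁻¹ β) ≤
        (A.valuation (algebraMap (RatFunc k) L RatFunc.X))⁻¹ ^ s := by
    intro S
    induction S using Finset.induction_on with
    | empty =>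
      intro _
      refine ⟨1, fun τ => ?_, ?_, fun σ hσ => absurd hσ (Finset.notMem_empty σ)⟩
      · rw [map_one, map_one]
      · rw [sub_self, map_zero]; exact zero_le
    | insert σ S hσS ih =>
      intro hS
      obtain ⟨β, h1, h2, h3⟩ := ih (fun τ hτ => hS τ (Finset.mem_insert_of_mem hτ))
      obtain ⟨e, g1, g2, g3⟩ := F7_elt hF3 A hA σ (hdec σ (hS σ (Finset.mem_insert_self _ _))) s
      refine ⟨e * β, fun τ => ?_, ?_, fun τ hτ => ?_⟩
      · rw [map_mul, map_mul]
        exact mul_le_one' (g1 τ) (h1 τ)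
      · have h4 : e * β - 1 = e * (β - 1) + (e - 1) := by ring
        rw [h4]
        refine Valuation.map_add_le _ ?_ g2
        rw [map_mul]
        have g4 := g1 1
        rw [AlgEquiv.one_apply] at g4
        calc A.valuation e * A.valuation (β - 1) ≤ 1 * A.valuation (β - 1) :=
              mul_le_mul_left g4 _
          _ ≤ _ := by rw [one_mul]; exact h2
      · rw [map_mul, map_mul]
        rcases Finset.mem_insert.1 hτ with rfl | hτ
        · calc A.valuation (τ⁻¹ e) * A.valuation (τ⁻¹ β) ≤ _ * 1 :=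
              mul_le_mul' g3 (h1 _)
            _ = _ := mul_one _
        · calc A.valuation (τ⁻¹ e) * A.valuation (τ⁻¹ β) ≤ 1 * _ :=
              mul_le_mul' (g1 _) (h3 τ hτ)
            _ = _ := one_mul _
  obtain ⟨β, hβ1, hβ2, hβ3⟩ := hβ (Finset.univ.erase 1) (fun σ hσ => Finset.ne_of_mem_erase hσ)
  refine ⟨Algebra.trace (RatFunc k) L (β * γ), ?_⟩
  rw [A.mem_nonunits_iff, trace_eq_sum_automorphisms,
    ← Finset.add_sum_erase _ _ (Finset.mem_univ (1 : L ≃ₐ[RatFunc k] L))]
  have h1 : γ - ((1 : L ≃ₐ[RatFunc k] L) (β * γ) + ∑ τ ∈ Finset.univ.erase (1 : L ≃ₐ[RatFunc k] L),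
      τ (β * γ)) = -((β - 1) * γ) - ∑ τ ∈ Finset.univ.erase (1 : L ≃ₐ[RatFunc k] L), τ (β * γ) := by
    rw [AlgEquiv.one_apply]; ring
  have key : ∀ (b c : L), A.valuation b ≤ (A.valuation (algebraMap (RatFunc k) L RatFunc.X))⁻¹ ^ s →
      A.valuation c < A.valuation (algebraMap (RatFunc k) L RatFunc.X) ^ s →
      A.valuation (b * c) < 1 := by
    intro b c hb hc
    rw [map_mul]
    have hXs : A.valuation (algebraMap (RatFunc k) L RatFunc.X) ^ s ≠ 0 := pow_ne_zero _ hX0
    calc A.valuation b * A.valuation c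
        ≤ (A.valuation (algebraMap (RatFunc k) L RatFunc.X))⁻¹ ^ s * A.valuation c :=
          mul_le_mul_left hb _
      _ < (A.valuation (algebraMap (RatFunc k) L RatFunc.X))⁻¹ ^ s *
          A.valuation (algebraMap (RatFunc k) L RatFunc.X) ^ s := by
          refine mul_lt_mul_of_pos_left hc ?_
          rw [zero_lt_iff]
          exact pow_ne_zero _ (inv_ne_zero hX0)
      _ = 1 := by rw [inv_pow, inv_mul_cancel₀ hXs]
  rw [h1]
  refine Valuation.map_sub_lt _ ?_ (Valuation.map_sum_lt _ one_ne_zero fun τ hτ => ?_)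
  · rw [Valuation.map_neg]
    have hγ1 := hγ 1
    rw [AlgEquiv.one_apply] at hγ1
    exact key _ _ hβ2 hγ1
  · rw [map_mul]
    have hτ1 : τ⁻¹ ∈ Finset.univ.erase (1 : L ≃ₐ[RatFunc k] L) := by
      rw [Finset.mem_erase]
      refine ⟨?_, Finset.mem_univ _⟩
      rw [Ne, inv_eq_one]
      exact Finset.ne_of_mem_erase hτ
    have hβτ := hβ3 _ hτ1
    rw [inv_inv] at hβτ
    exact key _ _ hβτ (hγ τ)

end MP7b0bad

end

section

set_option autoImplicit false

namespace MP7b0bad

open Polynomial Pointwise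

theorem F8_arith (k : Type) [Field k] (p : ℕ) (hp : p.Prime) (f : k[X]) (hf : 0 < f.natDegree)
    (hpf : ¬ p ∣ f.natDegree) (r : RatFunc k)
    (h : r ^ p - r - algebraMap k[X] (RatFunc k) f = 0 ∨
      (r ^ p - r - algebraMap k[X] (RatFunc k) f).intDegree < 0) : False := by
  classical
  have hf0 : f ≠ 0 := by
    rintro rfl
    simp at hf
  have hF : RatFunc.inftyValuation k (algebraMap k[X] (RatFunc k) f) =
      WithZero.exp (f.natDegree : ℤ) := RatFunc.inftyValuation.polynomial k hf0
  set w := RatFunc.inftyValuation k with hw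
  set F := algebraMap k[X] (RatFunc k) f with hFdef
  have hone : (1 : WithZero (Multiplicative ℤ)) = WithZero.exp (0 : ℤ) := WithZero.exp_zero.symm
  have h1 : w (r ^ p - r - F) < 1 := by
    rcases h with h | h
    · rw [h, map_zero]
      exact zero_lt_one
    · by_cases h0 : r ^ p - r - F = 0
      · rw [h0, map_zero]
        exact zero_lt_one
      · have : w (r ^ p - r - F) = WithZero.exp (r ^ p - r - F).intDegree :=
          RatFunc.inftyValuation_of_nonzero k h0
        rw [this, hone]
        exact WithZero.exp_lt_exp.2 h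
  have hF1 : 1 < w F := by
    rw [hF, hone]
    exact WithZero.exp_lt_exp.2 (by exact_mod_cast hf)
  have h2 : w (r ^ p - r) = w F := by
    have h3 : w (r ^ p - r - F) < w F := h1.trans hF1
    exact w.map_eq_of_sub_lt h3
  by_cases hr : w r ≤ 1
  · have h4 : w (r ^ p - r) ≤ 1 := by
      refine w.map_sub_le ?_ hr
      rw [map_pow]
      exact pow_le_one' hr _
    rw [h2] at h4
    exact absurd hF1 (not_lt.2 h4)
  · have hr' : 1 < w r := not_le.1 hr
    have hr0 : r ≠ 0 := by
      rintro rfl
      rw [map_zero] at hr'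
      exact absurd hr' (not_lt.2 zero_le_one)
    have h5 : w r < w r ^ p := by
      have h6 : w r ^ 1 < w r ^ p := pow_lt_pow_right₀ hr' hp.one_lt
      rwa [pow_one] at h6
    have h7 : w (r ^ p - r) = w r ^ p := by
      rw [← map_pow] at h5 ⊢
      exact w.map_sub_eq_of_lt_left h5
    have h8 : w r = WithZero.exp r.intDegree := RatFunc.inftyValuation_of_nonzero k hr0
    rw [h2, hF, h8, ← WithZero.exp_nsmul, WithZero.exp_inj] at h7
    apply hpf
    have h9 : (p : ℤ) ∣ (f.natDegree : ℤ) := ⟨r.intDegree, by rw [h7]; simp⟩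
    exact_mod_cast h9

theorem F8_dec {K L : Type} [Field K] [Field L] [Algebra K L] (A : ValuationSubring L)
    (σ : L ≃ₐ[K] L) (h : σ • A = A) (x : L) : A.valuation x < 1 → A.valuation (σ x) < 1 := by
  intro hx
  rw [← ValuationSubring.mem_nonunits_iff] at hx ⊢
  rw [ValuationSubring.mem_nonunits_iff_or] at hx ⊢
  rcases hx with hx | hx
  · left
    rw [hx, map_zero]
  · right
    intro h1
    apply hx
    have h2 : σ (x⁻¹) ∈ σ • A := by
      rw [h, map_inv₀]
      exact h1
    exact ValuationSubring.smul_mem_pointwise_smul_iff.1 h2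

theorem F8_mem {K L : Type} [Field K] [Field L] [Algebra K L] (A : ValuationSubring L)
    (σ : L ≃ₐ[K] L) (x : L) : x ∈ (σ⁻¹ • A).nonunits ↔ A.valuation (σ x) < 1 := by
  rw [← ValuationSubring.mem_nonunits_iff, ValuationSubring.mem_nonunits_iff_or,
    ValuationSubring.mem_nonunits_iff_or, ValuationSubring.mem_inv_pointwise_smul_iff]
  have h1 : σ • (x⁻¹ : L) = (σ x)⁻¹ := map_inv₀ σ x
  rw [h1]
  have h2 : x = 0 ↔ σ x = 0 := (map_eq_zero_iff σ σ.injective).symm
  rw [h2]

theorem F8_atInfty {k L : Type} [Field k] [Field L] [Algebra (RatFunc k) L]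
    (A : ValuationSubring L) (σ : L ≃ₐ[RatFunc k] L) (h : AtInfty (k := k) A) :
    AtInfty (k := k) (σ⁻¹ • A) := by
  refine ⟨fun c => ?_, fun hX => ?_⟩
  · rw [ValuationSubring.mem_inv_pointwise_smul_iff]
    have : σ • algebraMap (RatFunc k) L (algebraMap k (RatFunc k) c) =
      algebraMap (RatFunc k) L (algebraMap k (RatFunc k) c) := σ.commutes _
    rw [this]
    exact h.1 c
  · rw [ValuationSubring.mem_inv_pointwise_smul_iff] at hX
    have : σ • algebraMap (RatFunc k) L RatFunc.X = algebraMap (RatFunc k) L RatFunc.X :=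
      σ.commutes _
    rw [this] at hX
    exact h.2 hX

theorem F8_idem {L : Type} [Field L] (A : ValuationSubring L) (z : L)
    (h : A.valuation (z ^ 2 - z) < 1) : A.valuation z < 1 ∨ A.valuation (z - 1) < 1 := by
  set v := A.valuation with hv
  by_contra hcon
  push Not at hcon
  obtain ⟨h1, h2⟩ := hcon
  have e : z ^ 2 - z = z * (z - 1) := by ring
  rw [e, map_mul] at h
  exact absurd h (not_lt.2 (one_le_mul h1 h2))

theorem prf_F8 (hF3 : F3) (hF4 : F4) (hF5 : F5) (hF6 : F6) (hF7 : F7) : F8 := by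
  classical
  intro k _ _ p hpf _ G _ _ I B _ _ _ hC hI L _ _ _ _ ι φ hι hφ
  have hp : p.Prime := hpf.out
  obtain ⟨f, d, β, γ, hf, hpd, S1, S2, ⟨s, S3⟩, S4⟩ := hC.infty
  set y := algebraMap (RatFunc k) L (RatFunc.X ^ d) with hy
  have hy0 : y ≠ 0 := by
    rw [hy, ne_eq, map_eq_zero]
    exact pow_ne_zero _ RatFunc.X_ne_zero
  have hXn : ∀ n : ℕ, ι (algebraMap k[X] B (X ^ n)) =
      algebraMap (RatFunc k) L (RatFunc.X ^ n) := by
    intro n
    rw [hι, map_pow (algebraMap k[X] (RatFunc k)), RatFunc.algebraMap_X]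
  have hXy : ∀ n : ℕ, algebraMap (RatFunc k) L (RatFunc.X ^ (n * d)) = y ^ n := by
    intro n
    rw [hy, ← map_pow, ← pow_mul, mul_comm]
  set b := ι β / y with hb
  set c := ι γ / y with hc
  have hφy : ∀ g : G, φ g y = y := fun g => (φ g).commutes _
  have hφb : ∀ g : G, φ g b = ι (g • β) / y := by
    intro g
    rw [hb, map_div₀, hφy, hφ]
  have P1 : ∀ A : ValuationSubring L, AtInfty (k := k) A → A.valuation (b ^ 2 - b) < 1 := by
    intro A hA
    have h := hF5 k L A hA B ι hι _ _ S1
    rw [ValuationSubring.mem_nonunits_iff, hXy, map_sub, map_mul, map_pow, hXn, ← hy] at h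
    have e : b ^ 2 - b = (ι β ^ 2 - y * ι β) / y ^ 2 := by
      rw [hb]
      field_simp
    rw [e]
    exact h
  have P2 : ∀ A : ValuationSubring L, AtInfty (k := k) A → ∀ g : G, g ∉ I →
      A.valuation (b * φ g b) < 1 := by
    intro A hA g hg
    have h := hF5 k L A hA B ι hι _ _ (S2 g hg)
    rw [ValuationSubring.mem_nonunits_iff, hXy, map_mul] at h
    have e : b * φ g b = (ι β * ι (g • β)) / y ^ 2 := by
      rw [hφb, hb]
      field_simp
    rw [e]
    exact h
  have P3 : ∀ A : ValuationSubring L, AtInfty (k := k) A →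
      A.valuation (∑ g ∈ s, φ g b - 1) < 1 := by
    intro A hA
    have h := hF5 k L A hA B ι hι _ _ S3
    rw [ValuationSubring.mem_nonunits_iff, map_sub, map_sum, hXn, ← hy] at h
    have e : ∑ g ∈ s, φ g b - 1 = (∑ g ∈ s, ι (g • β) - y) / y := by
      rw [sub_div, div_self hy0, Finset.sum_div]
      congr 1
      exact Finset.sum_congr rfl fun g _ => hφb g
    rw [e]
    exact h
  set F := algebraMap (RatFunc k) L (algebraMap k[X] (RatFunc k) f) with hFd
  have P4 : ∀ A : ValuationSubring L, AtInfty (k := k) A →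
      A.valuation (b * (c ^ p - c - F)) < 1 := by
    intro A hA
    have h := hF5 k L A hA B ι hι _ _ S4
    rw [ValuationSubring.mem_nonunits_iff, hXy, map_mul, map_sub, map_sub, map_mul, map_pow, hXn,
      hXy, map_mul (algebraMap k[X] B), map_mul, hXn, hXy, hι f, ← hFd] at h
    have e : b * (c ^ p - c - F) =
        (ι β * (ι γ ^ p - y ^ (p - 1) * ι γ - F * y ^ p)) / y ^ (p + 1) := by
      obtain ⟨q, hq⟩ : ∃ q, p = q + 1 := ⟨p - 1, by have := hp.one_lt; omega⟩
      rw [hb, hc, hq, Nat.add_sub_cancel, div_pow]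
      field_simp
      ring
    rw [e]
    exact h
  -- a place with `b ≡ 1`
  obtain ⟨A0, hA0⟩ := hF4 k L
  have Q1 : ∀ g : G, A0.valuation ((φ g b) ^ 2 - φ g b) < 1 := by
    intro g
    have h := P1 _ (F8_atInfty A0 (φ g) hA0)
    rw [← ValuationSubring.mem_nonunits_iff, F8_mem, map_sub, map_pow] at h
    exact h
  obtain ⟨g0, hg0⟩ : ∃ g : G, A0.valuation (φ g b - 1) < 1 := by
    by_contra hcon
    push Not at hcon
    have h1 : ∀ g ∈ s, A0.valuation (φ g b) < 1 := by
      intro g _
      rcases F8_idem A0 _ (Q1 g) with h | h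
      · exact h
      · exact absurd h (not_lt.2 (hcon g))
    have h2 : A0.valuation (∑ g ∈ s, φ g b) < 1 := A0.valuation.map_sum_lt one_ne_zero h1
    have h3 := P3 A0 hA0
    have h4 : A0.valuation (∑ g ∈ s, φ g b - (∑ g ∈ s, φ g b - 1)) < 1 :=
      A0.valuation.map_sub_lt h2 h3
    rw [sub_sub_cancel, map_one] at h4
    exact lt_irrefl _ h4
  set A : ValuationSubring L := (φ g0)⁻¹ • A0 with hAdef
  have hA : AtInfty (k := k) A := F8_atInfty A0 (φ g0) hA0
  have hb1 : A.valuation (b - 1) < 1 := by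
    rw [← ValuationSubring.mem_nonunits_iff, hAdef, F8_mem, map_sub, map_one]
    exact hg0
  have hvb : A.valuation b = 1 := by
    have h := A.valuation.map_one_add_of_lt hb1
    rwa [add_sub_cancel] at h
  -- the decomposition group is contained in `I`
  have hDI : ∀ h : G, φ h • A = A → h ∈ I := by
    intro h hh
    by_contra hn
    have h1 := P2 A hA h hn
    have h2 := F8_dec A (φ h) hh _ hb1
    rw [map_sub, map_one] at h2
    have h3 : A.valuation (φ h b) = 1 := by
      have h := A.valuation.map_one_add_of_lt h2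
      rwa [add_sub_cancel] at h
    rw [map_mul, hvb, h3, one_mul] at h1
    exact lt_irrefl _ h1
  have hdec : ∃ σ : L ≃ₐ[RatFunc k] L, σ ≠ 1 ∧ σ • A = A := by
    by_contra hcon
    push Not at hcon
    obtain ⟨r, hr⟩ := hF7 k L A hA hcon c
    rw [ValuationSubring.mem_nonunits_iff] at hr
    have h1 := P4 A hA
    rw [map_mul, hvb, one_mul] at h1
    have : CharP (RatFunc k) p := charP_of_injective_algebraMap (algebraMap k (RatFunc k)).injective p
    have : CharP L p := charP_of_injective_algebraMap (algebraMap (RatFunc k) L).injective p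
    have e : algebraMap (RatFunc k) L (r ^ p - r - algebraMap k[X] (RatFunc k) f) =
        (c ^ p - c - F) - ((c - algebraMap (RatFunc k) L r) ^ p -
          (c - algebraMap (RatFunc k) L r)) := by
      rw [sub_pow_char]
      simp only [map_sub, map_pow, ← hFd]
      ring
    have h2 : A.valuation (algebraMap (RatFunc k) L
        (r ^ p - r - algebraMap k[X] (RatFunc k) f)) < 1 := by
      rw [e]
      refine A.valuation.map_sub_lt h1 (A.valuation.map_sub_lt ?_ hr)
      rw [map_pow]
      exact pow_lt_one₀ zero_le hr hp.ne_zero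
    refine F8_arith k p hp f hf hpd r ?_
    by_cases h0 : r ^ p - r - algebraMap k[X] (RatFunc k) f = 0
    · exact Or.inl h0
    · exact Or.inr ((hF3 k L A hA _ h0).2.1 h2)
  obtain ⟨σ, hσ1, hσA⟩ := hdec
  refine ⟨A, hA, ?_⟩
  -- the decomposition group is the image of `I`
  have hle : ValuationSubring.decompositionSubgroup (RatFunc k) A ≤ I.map φ.toMonoidHom := by
    intro τ hτ
    refine ⟨φ.symm τ, hDI _ ?_, ?_⟩
    · rw [MulEquiv.apply_symm_apply]
      exact hτ
    · exact φ.apply_symm_apply τ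
  have hcard : Nat.card (I.map φ.toMonoidHom) = p := by
    rw [← hI]
    exact Nat.card_congr (I.equivMapOfInjective φ.toMonoidHom φ.injective).toEquiv.symm
  have hDeq : ValuationSubring.decompositionSubgroup (RatFunc k) A = I.map φ.toMonoidHom := by
    have : Fact (Nat.card (I.map φ.toMonoidHom)).Prime := ⟨hcard ▸ hp⟩
    rcases ((ValuationSubring.decompositionSubgroup (RatFunc k) A).subgroupOf
      (I.map φ.toMonoidHom)).eq_bot_or_eq_top_of_prime_card with h | h
    · exfalso
      rw [Subgroup.subgroupOf_eq_bot, disjoint_iff, inf_eq_left.2 hle] at h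
      have h2 : σ ∈ ValuationSubring.decompositionSubgroup (RatFunc k) A := hσA
      rw [h, Subgroup.mem_bot] at h2
      exact hσ1 h2
    · rw [Subgroup.subgroupOf_eq_top] at h
      exact le_antisymm hle h
  have htop : ValuationSubring.inertiaSubgroup (RatFunc k) A = ⊤ := by
    rw [eq_top_iff]
    intro τ _
    rw [ValuationSubring.inertiaSubgroup, MonoidHom.mem_ker]
    ext z
    obtain ⟨a, rfl⟩ := IsLocalRing.residue_surjective z
    show τ • IsLocalRing.residue A a = IsLocalRing.residue A a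
    rw [← IsLocalRing.ResidueField.residue_smul, ← sub_eq_zero, ← map_sub,
      IsLocalRing.residue_eq_zero_iff, ValuationSubring.valuation_lt_one_iff]
    obtain ⟨c0, hc0⟩ := hF6 k L A hA (a : L) a.2
    rw [ValuationSubring.mem_nonunits_iff] at hc0
    have h1 := F8_dec A (τ : L ≃ₐ[RatFunc k] L) τ.2 _ hc0
    rw [map_sub, AlgEquiv.commutes] at h1
    have h2 := A.valuation.map_sub_lt h1 hc0
    rw [sub_sub_sub_cancel_right] at h2
    exact h2
  rw [htop, ← MonoidHom.range_eq_map, Subgroup.range_subtype, hDeq]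

end MP7b0bad

end

section

set_option autoImplicit false

namespace MP7b0bad

open Subgroup
open scoped commutatorElement

theorem J1_inv {G : Type} [Group G] {t : G} (ht : orderOf t = 2) : t⁻¹ = t := by
  have h : t * t = 1 := by
    have := pow_orderOf_eq_one t
    rw [ht, pow_two] at this
    exact this
  exact inv_eq_of_mul_eq_one_left h

theorem J1_conj_pow {G : Type} [Group G] (t ρ : G) (h : t * ρ * t⁻¹ = ρ⁻¹) (e : ℕ) :
    t * ρ ^ e * t⁻¹ = (ρ ^ e)⁻¹ := by
  have : t * ρ ^ e * t⁻¹ = (t * ρ * t⁻¹) ^ e := by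
    rw [conj_pow]
  rw [this, h, inv_pow]

/-- lifting of an odd order element inverted by the image of `t` -/
theorem J1_lift {G Q : Type} [Group G] [Finite G] [Group Q] (f : G →* Q)
    (hf : Function.Surjective f) {t : G} (ht : orderOf t = 2) (w : Q) (hw : Odd (orderOf w))
    (hinv : f t * w * (f t)⁻¹ = w⁻¹) :
    ∃ a : G, Odd (orderOf a) ∧ t * a * t⁻¹ = a⁻¹ ∧ f a = w := by
  classical
  have hti := J1_inv ht
  have htt : t * t = 1 := by
    nth_rewrite 1 [← hti]; simp
  obtain ⟨r, hr⟩ := hw
  -- v^2 = w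
  obtain ⟨v, hv⟩ := hf (w ^ (r + 1))
  have hvv : f v * f v = w := by
    rw [hv, ← pow_add]
    have : r + 1 + (r + 1) = orderOf w + 1 := by omega
    rw [this, pow_succ, pow_orderOf_eq_one, one_mul]
  set ρ : G := v * t * v⁻¹ * t with hρ
  have hfρ : f ρ = w := by
    have h1 : f t * (f v)⁻¹ * (f t)⁻¹ = f v := by
      have h2 : f t * (f v) * (f t)⁻¹ = (f v)⁻¹ := by
        rw [hv, J1_conj_pow _ _ hinv]
      have h3 : (f t * (f v) * (f t)⁻¹)⁻¹ = f v := by rw [h2, inv_inv]
      calc f t * (f v)⁻¹ * (f t)⁻¹ = (f t * (f v) * (f t)⁻¹)⁻¹ := by group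
        _ = f v := h3
    have h4 : (f t)⁻¹ = f t := by rw [← map_inv, hti]
    rw [h4] at h1
    calc f ρ = f v * (f t * (f v)⁻¹ * f t) := by
          rw [hρ]; simp only [map_mul, map_inv, mul_assoc]
      _ = w := by rw [h1, hvv]
  have hρinv : t * ρ * t⁻¹ = ρ⁻¹ := by
    rw [hρ]
    simp only [mul_inv_rev, inv_inv, hti]
    calc t * (v * t * v⁻¹ * t) * t = t * (v * t * v⁻¹) * (t * t) := by group
      _ = t * (v * (t * v⁻¹)) := by rw [htt, mul_one]; group
  have hfin : IsOfFinOrder ρ := isOfFinOrder_of_finite ρ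
  have hn0 : orderOf ρ ≠ 0 := (orderOf_pos ρ).ne'
  obtain ⟨b, n', hn', hfac⟩ := Nat.exists_eq_two_pow_mul_odd hn0
  have hcop : Nat.Coprime (2 ^ b) n' := Nat.Coprime.pow_left b (Nat.coprime_two_left.2 hn')
  obtain ⟨e, he0, he1⟩ := Nat.chineseRemainder hcop 0 1
  refine ⟨ρ ^ e, ?_, J1_conj_pow _ _ hρinv e, ?_⟩
  · have h1 : orderOf (ρ ^ e) ∣ n' := by
      apply orderOf_dvd_of_pow_eq_one
      rw [← pow_mul]
      apply orderOf_dvd_iff_pow_eq_one.1
      rw [hfac]
      exact Nat.mul_dvd_mul ((Nat.modEq_zero_iff_dvd).1 he0) dvd_rfl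
    exact Odd.of_dvd_nat hn' h1
  · rw [map_pow, hfρ]
    have h1 : orderOf w ∣ orderOf ρ := by
      rw [← hfρ]; exact orderOf_map_dvd f ρ
    have h2 : orderOf w ∣ n' := by
      rw [hfac] at h1
      have h3 : Nat.Coprime (orderOf w) (2 ^ b) :=
        Nat.Coprime.pow_right b ((Nat.coprime_two_right).2 ⟨r, hr⟩)
      exact h3.dvd_of_dvd_mul_left h1
    have h4 : e ≡ 1 [MOD orderOf w] := he1.of_dvd h2
    rw [(pow_inj_mod.2 _ : w ^ e = w ^ 1), pow_one]
    exact h4

theorem J1_main : ∀ (n : ℕ) (G : Type) [Group G] [Finite G] (t : G), Nat.card G = n →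
    Group.IsSolvable G → orderOf t = 2 → Subgroup.normalClosure {t} = ⊤ → Ht t = ⊤ := by
  intro n
  induction n using Nat.strong_induction_on with
  | _ n ih =>
  intro G _ _ t hn hs ht hc
  classical
  have hti := J1_inv ht
  have htH : t ∈ Ht t := subset_closure (Or.inl rfl)
  have hodd : ∀ a : G, Odd (orderOf a) → t * a * t⁻¹ = a⁻¹ → a ∈ Ht t :=
    fun a h1 h2 => subset_closure (Or.inr ⟨h1, h2⟩)
  -- `H ⊔ N = ⊤` for nontrivial normal `N`
  have key : ∀ N : Subgroup G, N.Normal → N ≠ ⊥ → Ht t ⊔ N = ⊤ := by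
    intro N hN hNb
    by_cases htN : t ∈ N
    · have : normalClosure {t} ≤ N := normalClosure_le_normal (by simpa using htN)
      rw [hc] at this
      rw [eq_top_iff]
      exact this.trans le_sup_right
    have hlt : Nat.card (G ⧸ N) < n := by
      rw [← hn, N.card_eq_card_quotient_mul_card_subgroup]
      have h1 : 1 < Nat.card N := by
        rw [← not_le]
        intro h
        exact hNb (Subgroup.card_le_one_iff_eq_bot N |>.1 h)
      have h2 : 0 < Nat.card (G ⧸ N) := Nat.card_pos
      exact lt_mul_of_one_lt_right h2 h1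
    let π : G →* G ⧸ N := QuotientGroup.mk' N
    have hπ : Function.Surjective π := QuotientGroup.mk'_surjective N
    have ho : orderOf (π t) = 2 := by
      rw [orderOf_eq_prime_iff]
      constructor
      · rw [← map_pow, ← ht, pow_orderOf_eq_one, map_one]
      · intro h
        exact htN ((QuotientGroup.eq_one_iff t).1 h)
    have hnc : normalClosure {π t} = ⊤ := by
      have h1 := Subgroup.map_normalClosure {t} π hπ
      rw [hc, Subgroup.map_top_of_surjective π hπ] at h1
      rw [h1]
      simp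
    have hsol : Group.IsSolvable (G ⧸ N) := Group.isSolvable_of_surjective hπ
    have h1 := ih _ hlt (G ⧸ N) (π t) rfl hsol ho hnc
    have h2 : Ht (π t) ≤ (Ht t).map π := by
      refine (closure_le _).2 ?_
      rintro w (hw | ⟨hw1, hw2⟩)
      · rw [Set.mem_singleton_iff] at hw
        exact ⟨t, htH, hw.symm⟩
      · obtain ⟨a, ha1, ha2, ha3⟩ := J1_lift π hπ ht w hw1 hw2
        exact ⟨a, hodd a ha1 ha2, ha3⟩
    rw [h1, top_le_iff] at h2
    rw [eq_top_iff]
    intro g _
    have h3 : π g ∈ (Ht t).map π := by rw [h2]; trivial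
    obtain ⟨h, hh, hhg⟩ := h3
    have h4 : h⁻¹ * g ∈ N := (QuotientGroup.eq).1 hhg
    have h5 : g = h * (h⁻¹ * g) := by group
    rw [h5]
    exact mul_mem (mem_sup_left hh) (mem_sup_right h4)
  -- if `H` is normal then `H = ⊤`
  have hnormal : (Ht t).Normal → Ht t = ⊤ := by
    intro h
    rw [eq_top_iff, ← hc]
    exact normalClosure_le_normal (by simpa using htH)
  -- a nontrivial abelian normal subgroup
  obtain ⟨E, hEn, hEb, hEc⟩ : ∃ E : Subgroup G, E.Normal ∧ E ≠ ⊥ ∧
      ∀ x ∈ E, ∀ y ∈ E, x * y = y * x := by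
    have hex := hs.solvable
    obtain ⟨m, hm1, hmin⟩ : ∃ m, derivedSeries G m = ⊥ ∧ ∀ j, derivedSeries G j = ⊥ → m ≤ j :=
      ⟨Nat.find hex, Nat.find_spec hex, fun j hj => Nat.find_min' hex hj⟩
    have hm0 : m ≠ 0 := by
      intro h0
      rw [h0, derivedSeries_zero] at hm1
      have h2 : t ∈ (⊥ : Subgroup G) := hm1 ▸ mem_top t
      rw [mem_bot] at h2
      rw [h2, orderOf_one] at ht
      omega
    obtain ⟨m', rfl⟩ : ∃ m', m = m' + 1 := ⟨m - 1, by omega⟩
    refine ⟨derivedSeries G m', derivedSeries_normal G m', ?_, ?_⟩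
    · intro h
      have := hmin _ h
      omega
    · intro x hx y hy
      have h3 : ⁅x, y⁆ ∈ derivedSeries G (m' + 1) := by
        rw [derivedSeries_succ]
        exact commutator_mem_commutator hx hy
      rw [hm1, mem_bot, commutatorElement_eq_one_iff_mul_comm] at h3
      exact h3
  by_cases hHE : Ht t ⊓ E = ⊥
  · -- the complement case
    have hHE' : Ht t ⊔ E = ⊤ := key E hEn hEb
    by_cases hfix : ∃ e ∈ E, e ≠ 1 ∧ t * e = e * t
    · obtain ⟨e, he, he1, hte⟩ := hfix
      -- `e` normalises `H`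
      have hte' : e * t * e⁻¹ = t := by rw [← hte]; group
      have hnorm : ∀ h ∈ Ht t, e * h * e⁻¹ ∈ Ht t := by
        intro h hh
        refine closure_induction (p := fun h _ => e * h * e⁻¹ ∈ Ht t) ?_ ?_ ?_ ?_ hh
        · rintro x (hx | ⟨hx1, hx2⟩)
          · rw [Set.mem_singleton_iff] at hx
            rw [hx, hte']; exact htH
          · apply hodd
            · have : orderOf (e * x * e⁻¹) = orderOf x := by
                have := orderOf_injective (MulAut.conj e).toMonoidHom (MulAut.conj e).injective x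
                simpa using this
              rw [this]; exact hx1
            · calc t * (e * x * e⁻¹) * t⁻¹ = (t * e) * x * (t * e)⁻¹ := by group
                _ = e * (t * x * t⁻¹) * e⁻¹ := by rw [hte]; group
                _ = (e * x * e⁻¹)⁻¹ := by rw [hx2]; group
        · simp
        · intro x y _ _ hx hy
          have : e * (x * y) * e⁻¹ = (e * x * e⁻¹) * (e * y * e⁻¹) := by group
          rw [this]; exact mul_mem hx hy
        · intro x _ hx
          have : e * x⁻¹ * e⁻¹ = (e * x * e⁻¹)⁻¹ := by group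
          rw [this]; exact inv_mem hx
      have hcomm : ∀ h ∈ Ht t, e * h = h * e := by
        intro h hh
        have h1 : e * h * e⁻¹ * h⁻¹ ∈ Ht t ⊓ E := by
          refine Subgroup.mem_inf.2 ⟨mul_mem (hnorm h hh) (inv_mem hh), ?_⟩
          have : e * h * e⁻¹ * h⁻¹ = e * (h * e⁻¹ * h⁻¹) := by group
          rw [this]
          exact mul_mem he (hEn.conj_mem _ (inv_mem he) h)
        rw [hHE, mem_bot] at h1
        have h2 : e * h * e⁻¹ = h := by
          have := mul_inv_eq_one.1 h1
          exact this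
        rw [mul_inv_eq_iff_eq_mul] at h2
        exact h2
      have hcent : e ∈ center G := by
        rw [mem_center_iff]
        intro g
        have hg : g ∈ Ht t ⊔ E := by rw [hHE']; trivial
        have h1 : Ht t ⊔ E ≤ centralizer {e} := by
          refine sup_le (fun h hh => ?_) (fun h hh => ?_)
          · rw [mem_centralizer_singleton_iff]; exact (hcomm h hh).symm
          · rw [mem_centralizer_singleton_iff]; exact hEc h hh e he
        have := h1 hg
        rw [mem_centralizer_singleton_iff] at this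
        exact this
      have hZ : center G ≠ ⊥ := by
        intro h
        rw [h, mem_bot] at hcent
        exact he1 hcent
      have h1 := key (center G) inferInstance hZ
      apply hnormal
      refine ⟨fun x hx g => ?_⟩
      have hg : g ∈ Ht t ⊔ center G := by rw [h1]; trivial
      have h2 : Ht t ⊔ center G ≤ normalizer (Ht t : Set G) := by
        refine sup_le le_normalizer (fun z hz => ?_)
        rw [mem_normalizer_iff]
        intro y
        have h4 : z * y * z⁻¹ = y := by
          rw [mem_center_iff] at hz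
          rw [← hz y]; group
        rw [h4]
      have h3 := h2 hg
      rw [mem_normalizer_iff] at h3
      exact (h3 x).1 hx
    · -- `t` inverts `E`
      exfalso
      push Not at hfix
      have hinv : ∀ e ∈ E, t * e * t⁻¹ = e⁻¹ := by
        intro e he
        have hE2 : t * e * t⁻¹ ∈ E := hEn.conj_mem e he t
        by_contra hne
        have h1 : e * (t * e * t⁻¹) ≠ 1 := by
          intro h
          exact hne (eq_inv_of_mul_eq_one_right h)
        refine hfix _ (mul_mem he hE2) h1 ?_
        have h2 : e * (t * e * t⁻¹) = (t * e * t⁻¹) * e := hEc _ he _ hE2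
        have htt : t * t = 1 := by nth_rewrite 1 [← hti]; simp
        calc t * (e * (t * e * t⁻¹)) = t * e * t * e * t⁻¹ := by group
          _ = (t * e * t⁻¹) * e * t := by rw [hti]
          _ = e * (t * e * t⁻¹) * t := by rw [← h2]
      have hoddE : ∀ e ∈ E, Odd (orderOf e) := by
        intro e he
        by_contra hev
        rw [Nat.not_odd_iff_even] at hev
        obtain ⟨r, hr⟩ := hev
        have hr0 : 0 < orderOf e := orderOf_pos e
        have hrpos : 0 < r := by omega
        have h1 : e ^ r ≠ 1 := by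
          intro h
          have := Nat.le_of_dvd hrpos (orderOf_dvd_of_pow_eq_one h)
          omega
        have h2 : (e ^ r)⁻¹ = e ^ r := by
          rw [inv_eq_iff_mul_eq_one, ← pow_add, ← hr, pow_orderOf_eq_one]
        have h3 := hinv (e ^ r) (pow_mem he r)
        rw [h2, mul_inv_eq_iff_eq_mul] at h3
        exact hfix _ (pow_mem he r) h1 h3
      have hEH : E ≤ Ht t := fun e he => hodd e (hoddE e he) (hinv e he)
      rw [inf_eq_right.2 hEH] at hHE
      exact hEb hHE
  · -- `H ∩ E` is a nontrivial normal subgroup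
    have hHE' : Ht t ⊔ E = ⊤ := key E hEn hEb
    have hN : (Ht t ⊓ E).Normal := by
      refine ⟨fun x hx g => ?_⟩
      have hg : g ∈ Ht t ⊔ E := by rw [hHE']; trivial
      have h2 : Ht t ⊔ E ≤ normalizer ((Ht t ⊓ E : Subgroup G) : Set G) := by
        refine sup_le (fun z hz => ?_) (fun z hz => ?_)
        · rw [mem_normalizer_iff]
          intro y
          constructor
          · intro h34
            obtain ⟨h3, h4⟩ := Subgroup.mem_inf.1 h34
            exact Subgroup.mem_inf.2 ⟨mul_mem (mul_mem hz h3) (inv_mem hz), hEn.conj_mem y h4 z⟩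
          · intro h34
            obtain ⟨h3, h4⟩ := Subgroup.mem_inf.1 h34
            have h5 : y = z⁻¹ * (z * y * z⁻¹) * z := by group
            refine Subgroup.mem_inf.2 ⟨?_, ?_⟩
            · rw [h5]; exact mul_mem (mul_mem (inv_mem hz) h3) hz
            · have := hEn.conj_mem _ h4 z⁻¹
              rw [inv_inv] at this
              rw [h5]; exact this
        · rw [mem_normalizer_iff]
          intro y
          constructor
          · rintro ⟨h3, h4⟩
            have : z * y * z⁻¹ = y := by rw [hEc z hz y h4]; group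
            rw [this]; exact ⟨h3, h4⟩
          · rintro ⟨h3, h4⟩
            have h5 : y ∈ E := by
              have := hEn.conj_mem _ h4 z⁻¹
              rw [inv_inv] at this
              have h6 : y = z⁻¹ * (z * y * z⁻¹) * z := by group
              rw [h6]; exact this
            have : z * y * z⁻¹ = y := by rw [hEc z hz y h5]; group
            rw [this] at h3; exact ⟨h3, h5⟩
      have h3 := h2 hg
      rw [mem_normalizer_iff] at h3
      exact (h3 x).1 hx
    have h1 := key _ hN hHE
    rw [← h1]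
    exact (sup_eq_left.2 inf_le_left).symm

theorem prf_J1 : J1 := fun G _ _ t hs ht hc => J1_main _ G t rfl hs ht hc

end MP7b0bad

end

section

set_option autoImplicit false

/-!
# LD: descent of the solvability of linear systems from `R` and `S` to `K[w]`
-/

namespace MP7b0bad

open Polynomial

/-- A linear functional with coefficients in `A`, extended along `φ`. -/
theorem LD_functional {A F : Type} [CommRing A] [CommRing F] (φ : A →+* F) {r : ℕ}
    (lam : (Fin r → A) →ₗ[A] A) (x : Fin r → A) :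
    φ (lam x) = ∑ j, φ (lam (Pi.single j 1)) * φ (x j) := by
  have h1 : x = ∑ j, x j • (Pi.single j 1 : Fin r → A) := by
    funext i
    simp [Finset.sum_apply, Pi.single_apply]
  conv_lhs => rw [h1]
  rw [map_sum, map_sum]
  refine Finset.sum_congr rfl fun j _ => ?_
  rw [map_smul, smul_eq_mul, map_mul, mul_comm]

/-- A functional applied to a linear relation over the big ring. -/
theorem LD_relation {A F : Type} [CommRing A] [CommRing F] (φ : A →+* F) {r n : ℕ}
    (lam : (Fin r → A) →ₗ[A] A) (u : Fin n → Fin r → A) (v : Fin r → A) (a : Fin n → F)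
    (h : ∀ l, φ (v l) = ∑ i, a i * φ (u i l)) : φ (lam v) = ∑ i, a i * φ (lam (u i)) := by
  rw [LD_functional φ lam v]
  simp only [LD_functional φ lam (u _), h, Finset.mul_sum]
  rw [Finset.sum_comm]
  refine Finset.sum_congr rfl fun i _ => Finset.sum_congr rfl fun j _ => ?_
  ring

theorem prf_LD (hA8 : A8) : LD := by
  intro k _ r n u v hR hS
  obtain ⟨a, ha, hav⟩ := hR
  obtain ⟨b, hb, hbv⟩ := hS
  obtain ⟨hinj, hmem, hint⟩ := hA8 k
  obtain ⟨s, snf⟩ := Submodule.smithNormalForm (Pi.basisFun (LaurentSeries k)[X] (Fin r))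
    (Submodule.span (LaurentSeries k)[X] (Set.range u))
  set N := Submodule.span (LaurentSeries k)[X] (Set.range u) with hN
  have hu : ∀ i, u i ∈ N := fun i => Submodule.subset_span ⟨i, rfl⟩
  have hv : v ∈ N := by
    rw [← snf.bM.sum_repr v]
    refine N.sum_mem fun l _ => ?_
    by_cases hl : l ∈ Set.range snf.f
    · obtain ⟨q, rfl⟩ := hl
      have hcoord : ∀ i, snf.bM.coord (snf.f q) (u i) =
          snf.a q * snf.bN.repr ⟨u i, hu i⟩ q := by
        intro i
        have := snf.repr_apply_embedding_eq_repr_smul (m := ⟨u i, hu i⟩) (i := q)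
        rw [map_smul, Finsupp.smul_apply, smul_eq_mul] at this
        exact this
      have e1 := LD_relation (jj k) (snf.bM.coord (snf.f q)) u v a hav
      have e2 := LD_relation (jj k) (snf.bM.coord (snf.f q)) u v b hbv
      set ρ : Fk k := ∑ i, a i * jj k (snf.bN.repr ⟨u i, hu i⟩ q) with hρ
      set σ : Fk k := ∑ i, b i * jj k (snf.bN.repr ⟨u i, hu i⟩ q) with hσ
      have e3 : jj k (snf.bM.coord (snf.f q) v) = ρ * jj k (snf.a q) := by
        rw [e1, hρ, Finset.sum_mul]
        refine Finset.sum_congr rfl fun i _ => ?_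
        rw [hcoord i, map_mul]
        ring
      have e4 : jj k (snf.bM.coord (snf.f q) v) = σ * jj k (snf.a q) := by
        rw [e2, hσ, Finset.sum_mul]
        refine Finset.sum_congr rfl fun i _ => ?_
        rw [hcoord i, map_mul]
        ring
      have ha0 : snf.a q ≠ 0 := by
        intro h0
        have h1 := snf.snf q
        rw [h0, zero_smul] at h1
        exact snf.bN.ne_zero q (Subtype.ext h1)
      have hja : jj k (snf.a q) ≠ 0 := fun h => ha0 (hinj (by rw [h, map_zero]))
      have hρσ : ρ = σ := mul_right_cancel₀ hja (e3.symm.trans e4)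
      have hρR : ρ ∈ Rr k := (Rr k).sum_mem fun i _ => (Rr k).mul_mem (ha i) (hmem _).1
      have hρS : ρ ∈ Ss k := by
        rw [hρσ]
        exact (Ss k).sum_mem fun i _ => (Ss k).mul_mem (hb i) (hmem _).2
      obtain ⟨c, hc⟩ := hint ρ hρR hρS
      have e5 : snf.bM.coord (snf.f q) v = c * snf.a q := by
        apply hinj
        rw [e3, ← hc, map_mul]
      have e6 : snf.bM.repr v (snf.f q) = c * snf.a q := e5
      rw [e6, mul_smul, ← snf.snf q]
      exact N.smul_mem c (snf.bN q).2
    · have e1 := LD_relation (jj k) (snf.bM.coord l) u v a hav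
      have e2 : ∀ i, snf.bM.coord l (u i) = 0 := fun i =>
        snf.repr_eq_zero_of_notMem_range (m := ⟨u i, hu i⟩) hl
      have e3 : jj k (snf.bM.coord l v) = 0 := by
        rw [e1]
        exact Finset.sum_eq_zero fun i _ => by rw [e2 i, map_zero, mul_zero]
      have e4 : snf.bM.repr v l = 0 := by
        have : snf.bM.coord l v = 0 := hinj (by rw [e3, map_zero])
        exact this
      rw [e4, zero_smul]
      exact N.zero_mem
  obtain ⟨c, hc⟩ := (Submodule.mem_span_range_iff_exists_fun _).1 hv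
  refine ⟨c, fun l => ?_⟩
  rw [← hc, Finset.sum_apply]
  rfl

end MP7b0bad

end
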