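import Pool.Agent.Work.MP_7b0bad_ag.Bd.B01

/-! Bundle of small proof modules (one section per former module). -/

section

/-!
Symmetric groups: an involution together with the elements of odd order inverted by it.
-/

namespace MP7b0bad

open Equiv Equiv.Perm

theorem J2_via_swap {α β : Type} [DecidableEq α] [DecidableEq β] (ι : α ↪ β) (i j : α) :
    viaEmbeddingHom ι (swap i j) = swap (ι i) (ι j) := by
  rw [viaEmbeddingHom_apply]
  ext y
  by_cases hy : y ∈ Set.range ι
  · obtain ⟨x, rfl⟩ := hy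
    rw [viaEmbedding_apply]
    exact (ι.injective.swap_apply i j x).symm
  · rw [viaEmbedding_apply_of_notMem _ _ _ hy, swap_apply_of_ne_of_ne]
    · rintro rfl; exact hy ⟨i, rfl⟩
    · rintro rfl; exact hy ⟨j, rfl⟩

/-- `H` contains every element of odd order inverted by `t`. -/
def J2_P {α : Type} (t : Perm α) (H : Subgroup (Perm α)) : Prop :=
  ∀ w : Perm α, Odd (orderOf w) → t * w * t⁻¹ = w⁻¹ → w ∈ H

theorem J2_tr {α : Type} {k : ℕ} {t : Perm α} {H : Subgroup (Perm α)} (hH : J2_P t H)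
    (ht : ∀ x, t (t x) = x)
    (ι : Fin k ↪ α) (t0 : Perm (Fin k)) (h : ∀ i, t (ι i) = ι (t0 i)) (w : Perm (Fin k))
    (h3 : w ^ 3 = 1) (hw : t0 * w = w⁻¹ * t0) : viaEmbeddingHom ι w ∈ H := by
  apply hH
  · have h1 : orderOf (viaEmbeddingHom ι w) ∣ 3 := by
      apply orderOf_dvd_of_pow_eq_one
      rw [← map_pow, h3, map_one]
    have h2 : orderOf (viaEmbeddingHom ι w) = 1 ∨ orderOf (viaEmbeddingHom ι w) = 3 :=
      (Nat.dvd_prime Nat.prime_three).mp h1
    rcases h2 with h2 | h2 <;> rw [h2] <;> decide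
  · rw [mul_inv_eq_iff_eq_mul, ← map_inv]
    ext y
    rw [Perm.mul_apply, Perm.mul_apply, viaEmbeddingHom_apply, viaEmbeddingHom_apply]
    by_cases hy : y ∈ Set.range ι
    · obtain ⟨x, rfl⟩ := hy
      rw [viaEmbedding_apply, h, h, viaEmbedding_apply]
      have := congrArg (fun p : Perm (Fin k) => p x) hw
      simp only [Perm.mul_apply] at this
      rw [this]
    · have hy' : t y ∉ Set.range ι := by
        rintro ⟨x, hx⟩
        apply hy
        refine ⟨t0 x, ?_⟩
        rw [← h, hx, ht]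
      rw [viaEmbedding_apply_of_notMem _ _ _ hy, viaEmbedding_apply_of_notMem _ _ _ hy']

/-- The embedding given by an injective vector. -/
def J2_emb {α : Type} {k : ℕ} (v : Fin k → α) (hv : Function.Injective v) : Fin k ↪ α := ⟨v, hv⟩

theorem J2_inj3 {α : Type} {a b c : α} (h1 : a ≠ b) (h2 : a ≠ c) (h3 : b ≠ c) :
    Function.Injective ![a, b, c] := by
  intro i j hij
  fin_cases i <;> fin_cases j <;> simp_all [eq_comm]

theorem J2_inj5 {α : Type} {a b c d e : α} (h1 : a ≠ b) (h2 : a ≠ c) (h3 : a ≠ d) (h4 : a ≠ e)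
    (h5 : b ≠ c) (h6 : b ≠ d) (h7 : b ≠ e) (h8 : c ≠ d) (h9 : c ≠ e) (h10 : d ≠ e) :
    Function.Injective ![a, b, c, d, e] := by
  intro i j hij
  fin_cases i <;> fin_cases j <;> simp_all [eq_comm]

theorem J2_inj6 {α : Type} {a b c d e f : α} (h1 : a ≠ b) (h2 : a ≠ c) (h3 : a ≠ d) (h4 : a ≠ e)
    (h5 : b ≠ c) (h6 : b ≠ d) (h7 : b ≠ e) (h8 : c ≠ d) (h9 : c ≠ e) (h10 : d ≠ e)
    (g1 : a ≠ f) (g2 : b ≠ f) (g3 : c ≠ f) (g4 : d ≠ f) (g5 : e ≠ f) :
    Function.Injective ![a, b, c, d, e, f] := by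
  intro i j hij
  fin_cases i <;> fin_cases j <;> simp_all [eq_comm]

theorem J2_cyc {α : Type} [DecidableEq α] {t : Perm α} {H : Subgroup (Perm α)}
    (hH : J2_P t H) (ht : ∀ x, t (t x) = x) {a : α} (ha : t a ≠ a)
    (hP : ∀ c, c ≠ a → c ≠ t a → t c ≠ c → ∃ e, e ≠ a ∧ e ≠ t a ∧ e ≠ c ∧ e ≠ t c)
    {x : α} (hxa : x ≠ a) (hxb : x ≠ t a) : swap a (t a) * swap (t a) x ∈ H := by
  by_cases hx : t x = x
  · -- three points
    have hv : Function.Injective ![a, t a, x] := J2_inj3 ha.symm hxa.symm hxb.symm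
    have key := J2_tr hH ht (J2_emb _ hv) (swap 0 1) (by
      intro i
      fin_cases i
      exacts [rfl, ht a, hx]) (swap 0 1 * swap 1 2)
      (by decide) (by decide)
    rw [map_mul, J2_via_swap, J2_via_swap] at key
    exact key
  · obtain ⟨e, he1, he2, he3, he4⟩ := hP x hxa hxb hx
    have hb1 : t x ≠ a := by
      intro h; apply hxb; rw [← h, ht]
    have hb2 : t x ≠ t a := fun h => hxa (t.injective h)
    by_cases he : t e = e
    · -- five points
      have hv : Function.Injective ![a, t a, x, t x, e] :=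
        J2_inj5 ha.symm hxa.symm hb1.symm he1.symm hxb.symm hb2.symm he2.symm (Ne.symm hx)
          he3.symm he4.symm
      have h0 : ∀ i, t (J2_emb _ hv i) = J2_emb _ hv ((swap 0 1 * swap 2 3 : Perm (Fin 5)) i) := by
        intro i
        fin_cases i
        exacts [rfl, ht a, rfl, ht x, he]
      have k1 := J2_tr hH ht (J2_emb _ hv) (swap 0 1 * swap 2 3) h0 (swap 0 1 * swap 1 4)
        (by decide) (by decide)
      have k2 := J2_tr hH ht (J2_emb _ hv) (swap 0 1 * swap 2 3) h0 (swap 2 3 * swap 3 4)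
        (by decide) (by decide)
      have k3 := H.mul_mem (H.mul_mem k2 k1) (H.inv_mem k2)
      rw [← map_inv, ← map_mul, ← map_mul] at k3
      have e0 : (swap 2 3 * swap 3 4 * (swap 0 1 * swap 1 4) * (swap 2 3 * swap 3 4)⁻¹ :
        Perm (Fin 5)) = swap 0 1 * swap 1 2 := by decide
      rw [e0, map_mul, J2_via_swap, J2_via_swap] at k3
      exact k3
    · -- six points
      have hc1 : t e ≠ a := by intro h; apply he2; rw [← h, ht]
      have hc2 : t e ≠ t a := fun h => he1 (t.injective h)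
      have hc3 : t e ≠ x := by intro h; apply he4; rw [← h, ht]
      have hc4 : t e ≠ t x := fun h => he3 (t.injective h)
      have hv : Function.Injective ![a, t a, x, t x, e, t e] :=
        J2_inj6 ha.symm hxa.symm hb1.symm he1.symm hxb.symm hb2.symm he2.symm (Ne.symm hx)
          he3.symm he4.symm hc1.symm hc2.symm hc3.symm hc4.symm (Ne.symm he)
      have h0 : ∀ i, t (J2_emb _ hv i) =
          J2_emb _ hv ((swap 0 1 * swap 2 3 * swap 4 5 : Perm (Fin 6)) i) := by
        intro i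
        fin_cases i
        exacts [rfl, ht a, rfl, ht x, rfl, ht e]
      have k1 := J2_tr hH ht (J2_emb _ hv) (swap 0 1 * swap 2 3 * swap 4 5) h0
        (swap 0 4 * swap 4 2 * (swap 1 3 * swap 3 5)) (by decide) (by decide)
      have k2 := J2_tr hH ht (J2_emb _ hv) (swap 0 1 * swap 2 3 * swap 4 5) h0
        (swap 0 2 * swap 2 5 * (swap 1 4 * swap 4 3)) (by decide) (by decide)
      have k3 := J2_tr hH ht (J2_emb _ hv) (swap 0 1 * swap 2 3 * swap 4 5) h0
        (swap 0 3 * swap 3 5 * (swap 1 4 * swap 4 2)) (by decide) (by decide)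
      have k4 := J2_tr hH ht (J2_emb _ hv) (swap 0 1 * swap 2 3 * swap 4 5) h0
        (swap 0 4 * swap 4 3 * (swap 1 2 * swap 2 5)) (by decide) (by decide)
      have k5 := H.mul_mem (H.mul_mem (H.mul_mem k1 k2) k3) k4
      rw [← map_mul, ← map_mul, ← map_mul] at k5
      have e0 : (swap 0 4 * swap 4 2 * (swap 1 3 * swap 3 5) *
          (swap 0 2 * swap 2 5 * (swap 1 4 * swap 4 3)) *
          (swap 0 3 * swap 3 5 * (swap 1 4 * swap 4 2)) *
          (swap 0 4 * swap 4 3 * (swap 1 2 * swap 2 5)) : Perm (Fin 6)) =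
          swap 0 1 * swap 1 2 := by decide
      rw [e0, map_mul, J2_via_swap, J2_via_swap] at k5
      exact k5

/-- The three-cycles through two fixed points generate all three-cycles. -/
theorem J2_all {α : Type} [DecidableEq α] {H : Subgroup (Perm α)} {a b : α} (hab : a ≠ b)
    (h : ∀ x, x ≠ a → x ≠ b → swap a b * swap b x ∈ H) {x y z : α} (hxy : x ≠ y)
    (hxz : x ≠ z) (hyz : y ≠ z) : swap x y * swap y z ∈ H := by
  -- two points outside
  have two : ∀ y z, y ≠ a → y ≠ b → z ≠ a → z ≠ b → y ≠ z →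
      swap a y * swap y z ∈ H ∧ swap b y * swap y z ∈ H := by
    intro y z ya yb za zb yz
    have hv : Function.Injective ![a, b, y, z] := by
      intro i j hij
      fin_cases i <;> fin_cases j <;> simp_all [eq_comm]
    have k1 := h y ya yb
    have k2 := h z za zb
    have t1 := J2_via_swap (J2_emb _ hv)
    have m1 : swap a b * swap b y = viaEmbeddingHom (J2_emb _ hv) (swap 0 1 * swap 1 2) := by
      rw [map_mul, t1, t1]; rfl
    have m2 : swap a b * swap b z = viaEmbeddingHom (J2_emb _ hv) (swap 0 1 * swap 1 3) := by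
      rw [map_mul, t1, t1]; rfl
    have m3 : swap a y * swap y z = viaEmbeddingHom (J2_emb _ hv) (swap 0 2 * swap 2 3) := by
      rw [map_mul, t1, t1]; rfl
    have m4 : swap b y * swap y z = viaEmbeddingHom (J2_emb _ hv) (swap 1 2 * swap 2 3) := by
      rw [map_mul, t1, t1]; rfl
    have e3 : (swap 0 2 * swap 2 3 : Perm (Fin 4)) =
      (swap 0 1 * swap 1 3) * (swap 0 1 * swap 1 2)⁻¹ := by decide
    have e4 : (swap 1 2 * swap 2 3 : Perm (Fin 4)) =
      (swap 0 1 * swap 1 3)⁻¹ * (swap 0 1 * swap 1 2) := by decide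
    rw [m1] at k1
    rw [m2] at k2
    constructor
    · rw [m3, e3, map_mul, map_inv]
      exact H.mul_mem k2 (H.inv_mem k1)
    · rw [m4, e4, map_mul, map_inv]
      exact H.mul_mem (H.inv_mem k2) k1
  -- rotation of a three-cycle
  have rot : ∀ x y z : α, x ≠ y → x ≠ z → y ≠ z → swap x y * swap y z ∈ H →
      swap y z * swap z x ∈ H := by
    intro x y z xy xz yz hh
    have hv : Function.Injective ![x, y, z] := by
      intro i j hij
      fin_cases i <;> fin_cases j <;> simp_all [eq_comm]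
    have t1 := J2_via_swap (J2_emb _ hv)
    have m1 : swap x y * swap y z = viaEmbeddingHom (J2_emb _ hv) (swap 0 1 * swap 1 2) := by
      rw [map_mul, t1, t1]; rfl
    have m2 : swap y z * swap z x = viaEmbeddingHom (J2_emb _ hv) (swap 1 2 * swap 2 0) := by
      rw [map_mul, t1, t1]; rfl
    have e : (swap 0 1 * swap 1 2 : Perm (Fin 3)) = swap 1 2 * swap 2 0 := by decide
    rw [m2, ← e, ← m1]
    exact hh
  have inv : ∀ x y z : α, x ≠ y → x ≠ z → y ≠ z → swap x y * swap y z ∈ H →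
      swap x z * swap z y ∈ H := by
    intro x y z xy xz yz hh
    have hv : Function.Injective ![x, y, z] := by
      intro i j hij
      fin_cases i <;> fin_cases j <;> simp_all [eq_comm]
    have t1 := J2_via_swap (J2_emb _ hv)
    have m1 : swap x y * swap y z = viaEmbeddingHom (J2_emb _ hv) (swap 0 1 * swap 1 2) := by
      rw [map_mul, t1, t1]; rfl
    have m2 : swap x z * swap z y = viaEmbeddingHom (J2_emb _ hv) (swap 0 2 * swap 2 1) := by
      rw [map_mul, t1, t1]; rfl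
    have e : (swap 0 2 * swap 2 1 : Perm (Fin 3)) = (swap 0 1 * swap 1 2)⁻¹ := by decide
    rw [m2, e, map_inv, ← m1]
    exact H.inv_mem hh
  -- a three-cycle with `a` in first place
  have fa : ∀ y z, y ≠ a → z ≠ a → y ≠ z → swap a y * swap y z ∈ H := by
    intro y z ya za yz
    by_cases yb : y = b
    · subst yb; exact h z za yz.symm
    · by_cases zb : z = b
      · subst zb
        exact inv a z y za.symm ya.symm yz.symm (h y ya yb)
      · exact (two y z ya yb za zb yz).1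
  have fb : ∀ y z, y ≠ b → z ≠ b → y ≠ z → swap b y * swap y z ∈ H := by
    intro y z yb zb yz
    by_cases ya : y = a
    · subst ya
      -- (b a z) is a rotation of (a z b)
      have h1 := fa z b yz.symm hab.symm zb
      exact rot z b y zb yz.symm hab.symm (rot y z b yz hab zb h1)
    · by_cases za : z = a
      · subst za
        have h1 := fa b y hab.symm ya yb.symm
        exact rot z b y hab yz.symm yb.symm h1
      · exact (two y z ya yb za zb yz).2
  by_cases hxa : x = a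
  · subst hxa; exact fa y z hxy.symm hxz.symm hyz
  by_cases hya : y = a
  · subst hya
    exact rot z x y hxz.symm hyz.symm hxy
      (rot y z x hyz hxy.symm hxz.symm (fa z x hyz.symm hxy hxz.symm))
  by_cases hza : z = a
  · subst hza
    exact rot z x y hxz.symm hyz.symm hxy (fa x y hxz hyz hxy)
  by_cases hxb : x = b
  · subst hxb; exact fb y z hxy.symm hxz.symm hyz
  by_cases hyb : y = b
  · subst hyb
    exact rot z x y hxz.symm hyz.symm hxy
      (rot y z x hyz hxy.symm hxz.symm (fb z x hyz.symm hxy hxz.symm))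
  by_cases hzb : z = b
  · subst hzb
    exact rot z x y hxz.symm hyz.symm hxy (fb x y hxz hyz hxy)
  -- no point is `a` or `b`
  have k1 := fa x y hxa hya hxy
  have k2 := fa y z hya hza hyz
  have hv : Function.Injective ![a, x, y, z] := by
    intro i j hij
    fin_cases i <;> fin_cases j <;> simp_all [eq_comm]
  have t1 := J2_via_swap (J2_emb _ hv)
  have m1 : swap a x * swap x y = viaEmbeddingHom (J2_emb _ hv) (swap 0 1 * swap 1 2) := by
    rw [map_mul, t1, t1]; rfl
  have m2 : swap a y * swap y z = viaEmbeddingHom (J2_emb _ hv) (swap 0 2 * swap 2 3) := by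
    rw [map_mul, t1, t1]; rfl
  have m3 : swap x y * swap y z = viaEmbeddingHom (J2_emb _ hv) (swap 1 2 * swap 2 3) := by
    rw [map_mul, t1, t1]; rfl
  have e : (swap 1 2 * swap 2 3 : Perm (Fin 4)) =
    (swap 0 1 * swap 1 2) * (swap 0 2 * swap 2 3) := by decide
  rw [m3, e, map_mul, ← m1, ← m2]
  exact H.mul_mem k1 k2

theorem J2_alt {α : Type} [Fintype α] [DecidableEq α] {t : Perm α} {H : Subgroup (Perm α)}
    (hH : J2_P t H) (ht : ∀ x, t (t x) = x) {a : α} (ha : t a ≠ a)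
    (hP : ∀ c, c ≠ a → c ≠ t a → t c ≠ c → ∃ e, e ≠ a ∧ e ≠ t a ∧ e ≠ c ∧ e ≠ t c) :
    alternatingGroup α ≤ H := by
  rw [← closure_three_cycles_eq_alternating, Subgroup.closure_le]
  intro g hg
  have hg3 : g.IsThreeCycle := hg
  obtain ⟨c, hc⟩ := hg3.isCycle.nonempty_support
  have h1 := (hg3.eq_swap_mul_swap_iff_mem_support (a := c)).mpr hc
  have h2 := (hg3.nodup_iff_mem_support (a := c)).mpr hc
  simp only [List.nodup_cons, List.mem_cons, List.not_mem_nil, or_false, not_or] at h2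
  rw [h1]
  exact J2_all ha.symm (fun x hx1 hx2 => J2_cyc hH ht ha hP hx1 hx2) h2.1.1 h2.1.2 h2.2.1

theorem prf_J2 : J2 := by
  intro n t ht2 hnc
  have htt : t * t = 1 := by rw [← pow_two, ← ht2, pow_orderOf_eq_one]
  have ht : ∀ x, t (t x) = x := fun x => by
    have := congrArg (fun p : Perm (Fin n) => p x) htt
    simpa using this
  have ht1 : t ≠ 1 := by
    rintro rfl
    rw [orderOf_one] at ht2
    omega
  obtain ⟨a, ha⟩ : ∃ a, t a ≠ a := by
    by_contra hcon
    push Not at hcon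
    exact ht1 (Equiv.ext hcon)
  have hn : Nontrivial (Fin n) := ⟨⟨_, _, ha⟩⟩
  -- `t` is odd
  have hodd : t ∉ alternatingGroup (Fin n) := by
    intro hmem
    have h1 : Subgroup.normalClosure {t} ≤ alternatingGroup (Fin n) :=
      Subgroup.normalClosure_le_normal (by simpa using hmem)
    rw [hnc, top_le_iff] at h1
    have h2 : swap a (t a) ∈ alternatingGroup (Fin n) := by rw [h1]; trivial
    rw [mem_alternatingGroup, sign_swap ha.symm] at h2
    exact absurd h2 (by decide)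
  have hH : J2_P t (Ht t) := fun w hw1 hw2 => Subgroup.subset_closure (Or.inr ⟨hw1, hw2⟩)
  have htH : t ∈ Ht t := Subgroup.subset_closure (Or.inl rfl)
  have hsign : sign t = -1 := by
    rcases Int.units_eq_one_or (sign t) with h | h
    · exact absurd (mem_alternatingGroup.mpr h) hodd
    · exact h
  have halt : alternatingGroup (Fin n) ≤ Ht t := by
    apply J2_alt hH ht ha
    intro c hc1 hc2 hc3
    by_contra hcon
    push Not at hcon
    have key : t = swap a (t a) * swap c (t c) := by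
      have hd1 : t c ≠ a := by intro h; apply hc2; rw [← h, ht]
      have hd2 : t c ≠ t a := fun h => hc1 (t.injective h)
      ext e
      by_cases h1 : e = a
      · subst h1; rw [Perm.mul_apply, swap_apply_of_ne_of_ne hc1.symm hd1.symm, swap_apply_left]
      by_cases h2 : e = t a
      · subst h2
        rw [Perm.mul_apply, swap_apply_of_ne_of_ne hc2.symm hd2.symm, swap_apply_right, ht]
      by_cases h3 : e = c
      · subst h3
        rw [Perm.mul_apply, swap_apply_left, swap_apply_of_ne_of_ne hd1 hd2]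
      · have h4 := hcon e h1 h2 h3
        subst h4
        rw [Perm.mul_apply, swap_apply_right, swap_apply_of_ne_of_ne hc1 hc2, ht]
    have : sign t = 1 := by
      rw [key, Perm.sign_mul, sign_swap ha.symm, sign_swap (Ne.symm hc3)]
      decide
    rw [hsign] at this
    exact absurd this (by decide)
  rw [eq_top_iff]
  intro g _
  rcases Int.units_eq_one_or (sign g) with h | h
  · exact halt (mem_alternatingGroup.mpr h)
  · have h1 : t * g ∈ Ht t := halt (mem_alternatingGroup.mpr (by rw [Perm.sign_mul, hsign, h]; decide))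
    have h2 := (Ht t).mul_mem ((Ht t).inv_mem htH) h1
    rwa [inv_mul_cancel_left] at h2

end MP7b0bad

end

section

set_option autoImplicit false

namespace MP7b0bad

theorem PB_mulVec_mem {F : Type} [Field F] {r : ℕ} (S : Subring F) (m : Matrix (Fin r) (Fin r) F)
    (hm : ∀ i j, m i j ∈ S) (v : Fin r → F) (hv : ∀ i, v i ∈ S) (i : Fin r) :
    (m.mulVec v) i ∈ S := by
  rw [Matrix.mulVec, dotProduct]
  exact Subring.sum_mem _ fun j _ => S.mul_mem (hm i j) (hv j)

theorem prf_PB (hPL : PL) : PB := by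
  intro k _ V _ _ ι ι' _ _ e f
  classical
  set r := Fintype.card ι with hr
  set σ : ι ≃ Fin r := Fintype.equivFin ι with hσ
  set τ : ι' ≃ Fin r := (e.indexEquiv f).symm.trans σ with hτ
  set e' := e.reindex σ with he'
  set f' := f.reindex τ with hf'
  obtain ⟨s, s', ρ, ρ', hs, hs', hρ, hρ', hss', hρρ', hg⟩ :=
    hPL k r (e'.toMatrix f') (f'.toMatrix e') (e'.toMatrix_mul_toMatrix_flip f')
  have hs's : s' * s = 1 := mul_eq_one_comm.1 hss'
  have hρ'ρ : ρ' * ρ = 1 := mul_eq_one_comm.1 hρρ'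
  let E : V ≃ₗ[Fk k] (Fin r → Fk k) := e'.equivFun.trans (Matrix.toLin'OfInv hss' hs's)
  have hE : ∀ v, E v = s'.mulVec (e'.repr v) := by
    intro v
    rfl
  set b' : Module.Basis (Fin r) (Fk k) V := Module.Basis.ofEquivFun E with hb'
  have hb'r : ∀ v i, b'.repr v i = (s'.mulVec (e'.repr v)) i := by
    intro v i
    rw [← hE]
    rfl
  have hb'r' : ∀ v, (b'.repr v : Fin r → Fk k) = s'.mulVec (e'.repr v) := fun v =>
    funext (hb'r v)
  have he : ∀ v, (e'.repr v : Fin r → Fk k) = s.mulVec (b'.repr v) := by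
    intro v
    rw [hb'r', Matrix.mulVec_mulVec, hss', Matrix.one_mulVec]
  have hfe : ∀ v, (e'.repr v : Fin r → Fk k) = (s * ρ).mulVec (f'.repr v) := by
    intro v
    rw [← hg, Module.Basis.toMatrix_mulVec_repr]
  have hbf : ∀ v, (b'.repr v : Fin r → Fk k) = ρ.mulVec (f'.repr v) := by
    intro v
    rw [hb'r', hfe, Matrix.mulVec_mulVec, ← Matrix.mul_assoc, hs's, Matrix.one_mul]
  have hfb : ∀ v, (f'.repr v : Fin r → Fk k) = ρ'.mulVec (b'.repr v) := by
    intro v
    rw [hbf, Matrix.mulVec_mulVec, hρ'ρ, Matrix.one_mulVec]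
  have key : ∀ (κ : Type) (c : Module.Basis κ (Fk k) V) (θ : κ ≃ Fin r) (S : Subring (Fk k)) (v : V),
      (∀ i, (c.reindex θ).repr v i ∈ S) ↔ ∀ i, c.repr v i ∈ S := by
    intro κ c θ S v
    constructor
    · intro h i
      have := h (θ i)
      rwa [Module.Basis.repr_reindex_apply, Equiv.symm_apply_apply] at this
    · intro h i
      rw [Module.Basis.repr_reindex_apply]
      exact h _
  refine ⟨b'.reindex σ.symm, fun v => ?_, fun v => ?_⟩
  · rw [← key ι e σ (Ss k) v]
    have h1 : (∀ i, (b'.reindex σ.symm).repr v i ∈ Ss k) ↔ ∀ i, b'.repr v i ∈ Ss k := by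
      constructor
      · intro h i
        have := h (σ.symm i)
        rwa [Module.Basis.repr_reindex_apply, Equiv.symm_symm, Equiv.apply_symm_apply] at this
      · intro h i
        rw [Module.Basis.repr_reindex_apply]
        exact h _
    rw [h1]
    constructor
    · intro h i
      change e'.repr v i ∈ Ss k
      rw [he v]
      exact PB_mulVec_mem _ _ hs _ h i
    · intro h i
      rw [hb'r' v]
      exact PB_mulVec_mem _ _ hs' _ h i
  · rw [← key ι' f τ (Rr k) v]
    have h1 : (∀ i, (b'.reindex σ.symm).repr v i ∈ Rr k) ↔ ∀ i, b'.repr v i ∈ Rr k := by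
      constructor
      · intro h i
        have := h (σ.symm i)
        rwa [Module.Basis.repr_reindex_apply, Equiv.symm_symm, Equiv.apply_symm_apply] at this
      · intro h i
        rw [Module.Basis.repr_reindex_apply]
        exact h _
    rw [h1]
    constructor
    · intro h i
      change f'.repr v i ∈ Rr k
      rw [hfb v]
      exact PB_mulVec_mem _ _ hρ' _ h i
    · intro h i
      rw [hbf v]
      exact PB_mulVec_mem _ _ hρ _ h i

end MP7b0bad

end

section

set_option autoImplicit false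

namespace MP7b0bad

open Polynomial Matrix

theorem PL_mul {k : Type} [Field k] {A : Subring (Fk k)} {r : ℕ}
    {a b : Matrix (Fin r) (Fin r) (Fk k)} (ha : MatIn A a) (hb : MatIn A b) : MatIn A (a * b) := by
  intro i j
  rw [Matrix.mul_apply]
  exact A.sum_mem fun l _ => A.mul_mem (ha i l) (hb l j)

theorem PL_smul {k : Type} [Field k] {A : Subring (Fk k)} {r : ℕ} {x : Fk k}
    {a : Matrix (Fin r) (Fin r) (Fk k)} (hx : x ∈ A) (ha : MatIn A a) : MatIn A (x • a) := by
  intro i j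
  rw [Matrix.smul_apply, smul_eq_mul]
  exact A.mul_mem hx (ha i j)

theorem PL_smul_mul_smul {k : Type} [Field k] {r : ℕ} (x y : Fk k)
    (a b : Matrix (Fin r) (Fin r) (Fk k)) : (x • a) * (y • b) = (x * y) • (a * b) := by
  ext1 i j
  rw [Matrix.mul_apply, Matrix.smul_apply, Matrix.mul_apply, smul_eq_mul, Finset.mul_sum]
  refine Finset.sum_congr rfl fun l _ => ?_
  rw [Matrix.smul_apply, Matrix.smul_apply, smul_eq_mul, smul_eq_mul]
  ring

theorem PL_one_smul {k : Type} [Field k] {r : ℕ} (a : Matrix (Fin r) (Fin r) (Fk k)) :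
    (1 : Fk k) • a = a := by
  ext1 i j
  rw [Matrix.smul_apply, smul_eq_mul, one_mul]

theorem PL_smul_mul {k : Type} [Field k] {r : ℕ} (x : Fk k)
    (a b : Matrix (Fin r) (Fin r) (Fk k)) : (x • a) * b = x • (a * b) := by
  have := PL_smul_mul_smul x 1 a b
  rwa [PL_one_smul, mul_one] at this

theorem PL_mul_smul {k : Type} [Field k] {r : ℕ} (x : Fk k)
    (a b : Matrix (Fin r) (Fin r) (Fk k)) : a * (x • b) = x • (a * b) := by
  have := PL_smul_mul_smul 1 x a b
  rwa [PL_one_smul, one_mul] at this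

theorem PL_smul_smul {k : Type} [Field k] {r : ℕ} (x y : Fk k)
    (a : Matrix (Fin r) (Fin r) (Fk k)) : x • (y • a) = (x * y) • a := by
  ext1 i j
  rw [Matrix.smul_apply, Matrix.smul_apply, Matrix.smul_apply, smul_eq_mul, smul_eq_mul,
    smul_eq_mul, mul_assoc]

theorem PL_W_ne (k : Type) [Field k] : Ww k ≠ 0 := by
  unfold Ww
  rw [Ne, map_eq_zero]
  simp

theorem PL_W_mem (k : Type) [Field k] : Ww k ∈ Ss k := by
  refine ⟨1, fun j i hi => ?_⟩
  unfold Ww
  rw [HahnSeries.C_apply, HahnSeries.coeff_single]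
  split_ifs
  · rw [HahnSeries.coeff_single, if_neg (by omega)]
  · simp

theorem PL_Winv (k : Type) [Field k] : (Ww k)⁻¹ = HahnSeries.C (HahnSeries.single (-1 : ℤ) (1 : k)) := by
  unfold Ww
  rw [← map_inv₀, HahnSeries.inv_single]
  simp

theorem PL_Winv_mem (k : Type) [Field k] : (Ww k)⁻¹ ∈ Ss k := by
  rw [PL_Winv]
  refine ⟨-1, fun j i hi => ?_⟩
  rw [HahnSeries.C_apply, HahnSeries.coeff_single]
  split_ifs
  · rw [HahnSeries.coeff_single, if_neg (by omega)]
  · simp

theorem prf_PL (hA4 : A4) (hA5 : A5) (hA6 : A6) : PL := by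
  intro k _ r g g' hg
  obtain ⟨c, h, e, hc, hgc, hh, hdet⟩ := hA5 k r g g' hg
  obtain ⟨s1, s1', ρ1, ρ1', hs1, hs1', hρ1, hρ1', hss, hρρ, hcs⟩ := hA4 k r c hc
  have hW : Ww k ^ e ≠ 0 := pow_ne_zero _ (PL_W_ne k)
  have hρdet : ρ1.det ≠ 0 := by
    intro h0
    have := congrArg Matrix.det hρρ
    rw [Matrix.det_mul, h0, zero_mul, Matrix.det_one] at this
    exact zero_ne_one this
  have h1 : (ρ1 * (Ww k ^ e • h)).det ≠ 0 := by
    rw [Matrix.det_mul, Matrix.det_smul]
    exact mul_ne_zero hρdet (mul_ne_zero (pow_ne_zero _ hW) hdet)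
  obtain ⟨m, m', ρ, ρ', hm, hm', hρ, hρ', hmm, hρρ', hh1⟩ :=
    hA6 k r (ρ1 * (Ww k ^ e • h)) (PL_mul hρ1 hh) h1
  refine ⟨s1 * ((Ww k ^ e)⁻¹ • m), (Ww k ^ e • m') * s1', ρ, ρ', ?_, ?_, hρ, hρ', ?_, hρρ', ?_⟩
  · refine PL_mul hs1 (PL_smul ?_ hm)
    rw [← inv_pow]
    exact (Ss k).pow_mem (PL_Winv_mem k) e
  · exact PL_mul (PL_smul ((Ss k).pow_mem (PL_W_mem k) e) hm') hs1'
  · have e1 : s1 * ((Ww k ^ e)⁻¹ • m) * ((Ww k ^ e • m') * s1') =
        s1 * (((Ww k ^ e)⁻¹ • m) * (Ww k ^ e • m')) * s1' := by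
      simp only [Matrix.mul_assoc]
    rw [e1, PL_smul_mul_smul, inv_mul_cancel₀ hW, PL_one_smul, hmm, Matrix.mul_one, hss]
  · rw [hgc, hcs, Matrix.mul_assoc s1, Matrix.mul_assoc s1, PL_smul_mul, ← hh1,
      PL_mul_smul, PL_mul_smul, PL_mul_smul, PL_smul_smul, inv_mul_cancel₀ hW, PL_one_smul]

end MP7b0bad

end

section

set_option autoImplicit false

namespace MP7b0bad

open Polynomial

/-! ## Group HP: the base covers for general `p`: the curve `u_c^M = y + c`, `c ∈ F_p`,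
with `X = ∏ u_c`, so that `y^p - y = X^M`. -/

/-- the ideal of relations `u_c^M = u_0^M + c` -/
noncomputable def fpI (k : Type) [Field k] (p M : ℕ) : Ideal (MvPolynomial (ZMod p) k) :=
  Ideal.span (Set.range fun c : ZMod p =>
    MvPolynomial.X c ^ M - MvPolynomial.X 0 ^ M - MvPolynomial.C ((c.val : ℕ) : k))

/-- the ring `k[u_c : c ∈ F_p] / (u_c^M = u_0^M + c)` -/
abbrev FP (k : Type) [Field k] (p M : ℕ) : Type := MvPolynomial (ZMod p) k ⧸ fpI k p M

noncomputable def fpu (k : Type) [Field k] (p M : ℕ) (c : ZMod p) : FP k p M :=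
  Ideal.Quotient.mk _ (MvPolynomial.X c)

noncomputable def fpC (k : Type) [Field k] (p M : ℕ) : k →+* FP k p M :=
  (Ideal.Quotient.mk (fpI k p M)).comp MvPolynomial.C

/-- `k[X] → FP`, `X ↦ ∏ u_c` -/
noncomputable def fpAlg (k : Type) [Field k] (p M : ℕ) [NeZero p] : k[X] →+* FP k p M :=
  eval₂RingHom (fpC k p M) (∏ c : ZMod p, fpu k p M c)

/-- the group `(Z/M)^{F_p} ⋊ F_p` -/
abbrev GP (p M : ℕ) : Type :=
  RegularWreathProduct (Multiplicative (ZMod M)) (Multiplicative (ZMod p))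

/-- the element `t` of `GP` -/
def tP (p M : ℕ) : GP p M := RegularWreathProduct.inl (Multiplicative.ofAdd (1 : ZMod p))

/-- the coordinate `n_c` of an element of `GP` -/
def nP {p M : ℕ} (g : GP p M) (c : ZMod p) : ZMod M :=
  Multiplicative.toAdd (g.left (Multiplicative.ofAdd c))

/-- the component in `F_p` -/
def qP {p M : ℕ} (g : GP p M) : ZMod p := Multiplicative.toAdd g.right

/-- universal property -/
def HP1 : Prop := ∀ (k : Type) [Field k] (p M : ℕ) (A : Type) [CommRing A] (f : k →+* A)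
  (u : ZMod p → A), (∀ c, u c ^ M = u 0 ^ M + f ((c.val : ℕ) : k)) →
  ∃! g : FP k p M →+* A, (∀ x, g (fpC k p M x) = f x) ∧ ∀ c, g (fpu k p M c) = u c

/-- a field with independent monomials -/
def HP2a : Prop := ∀ (k : Type) [Field k] [IsAlgClosed k] (p : ℕ) [Fact p.Prime] [CharP k p]
  (M : ℕ), ¬ p ∣ M →
  ∃ (L : Type) (_ : Field L) (f : k →+* L) (u : ZMod p → L),
    (∀ c, u c ^ M = u 0 ^ M + f ((c.val : ℕ) : k)) ∧
    ∀ a : (ZMod p → Fin M) → k[X],
      ∑ e, (a e).eval₂ f (u 0 ^ M) * ∏ c, u c ^ (e c : ℕ) = 0 → a = 0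

/-- generators over `k[y]`, `y = u_0^M` -/
def HP3a : Prop := ∀ (k : Type) [Field k] (p : ℕ) [Fact p.Prime] [CharP k p] (M : ℕ), 0 < M →
  ∀ z : FP k p M, ∃ a : (ZMod p → Fin M) → k[X],
    z = ∑ e, (a e).eval₂ (fpC k p M) (fpu k p M 0 ^ M) * ∏ c, fpu k p M c ^ (e c : ℕ)

def HP2 : Prop := ∀ (k : Type) [Field k] [IsAlgClosed k] (p : ℕ) [Fact p.Prime] [CharP k p]
  (M : ℕ), ¬ p ∣ M → IsDomain (FP k p M)

/-- the Artin-Schreier equation and finiteness over `k[X]` -/
def HP3 : Prop := ∀ (k : Type) [Field k] (p : ℕ) [Fact p.Prime] [CharP k p] (M : ℕ), 0 < M →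
  (fpu k p M 0 ^ M) ^ p - fpu k p M 0 ^ M = (∏ c : ZMod p, fpu k p M c) ^ M ∧
  ∃ (n : ℕ) (b : Fin n → FP k p M), ∀ z, ∃ a : Fin n → k[X], z = ∑ i, fpAlg k p M (a i) * b i

/-- the action of `GP`: `(n, q) : u_c ↦ ζ^(n_(c+q) - n_(c+q-1)) u_(c+q)` -/
def HP4 : Prop := ∀ (k : Type) [Field k] (p : ℕ) [Fact p.Prime] [CharP k p] (M : ℕ) (ζ : k), 0 < M →
  ζ ^ M = 1 → ∃ ρ : GP p M →* RingAut (FP k p M),
    (∀ (g : GP p M) (c : ZMod p), ρ g (fpu k p M c) =
      fpC k p M (ζ ^ (nP g (c + qP g) - nP g (c + qP g - 1)).val) * fpu k p M (c + qP g)) ∧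
    ∀ (g : GP p M) (a : k[X]), ρ g (fpAlg k p M a) = fpAlg k p M a

/-- inside the local field `Q` -/
def HP7 : Prop := ∀ (k : Type) [Field k] [IsAlgClosed k] (p : ℕ) [Fact p.Prime] [CharP k p]
  (M : ℕ), ¬ p ∣ M → ∃ ι : FP k p M →+* Qk k p M,
    (∀ a, ι (fpAlg k p M a) = oQ k p M (toX k a)) ∧
    (∀ c : ZMod p, ι (fpu k p M (c + 1)) = tQ k p M (ι (fpu k p M c))) ∧
    ι (fpu k p M 0) ^ M = asRoot p (XX k ^ M) ∧ ∀ x : k, ι (fpC k p M x) = oQ k p M (kF k x)

/-- every element of `GP` acts trivially or without fixed points -/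
def HP5 : Prop := ∀ (k : Type) [Field k] (p : ℕ) [Fact p.Prime] [CharP k p] (M : ℕ) (ζ : k), 0 < M →
  IsPrimitiveRoot ζ M → ∀ ρ : GP p M →* RingAut (FP k p M),
  (∀ (g : GP p M) (c : ZMod p), ρ g (fpu k p M c) =
      fpC k p M (ζ ^ (nP g (c + qP g) - nP g (c + qP g - 1)).val) * fpu k p M (c + qP g)) →
  (∀ (g : GP p M) (x : k), ρ g (fpC k p M x) = fpC k p M x) →
  ∀ g : GP p M, ((∀ b, ρ g b = b) ∧ qP g = 0 ∧ ∀ c, nP g c = nP g 0) ∨
    Ideal.span {x : FP k p M | ∃ b, x = b - ρ g b} = ⊤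

/-- invariants of `GP` -/
def HP6 : Prop := ∀ (k : Type) [Field k] [IsAlgClosed k] (p : ℕ) [Fact p.Prime] [CharP k p] (M : ℕ)
  (ζ : k), ¬ p ∣ M → IsPrimitiveRoot ζ M → ∀ ρ : GP p M →* RingAut (FP k p M),
  (∀ (g : GP p M) (c : ZMod p), ρ g (fpu k p M c) =
      fpC k p M (ζ ^ (nP g (c + qP g) - nP g (c + qP g - 1)).val) * fpu k p M (c + qP g)) →
  (∀ (g : GP p M) (a : k[X]), ρ g (fpAlg k p M a) = fpAlg k p M a) →
  ∀ z, (∀ g, ρ g z = z) → ∃ a, fpAlg k p M a = z

/-- dual families -/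
def E2g : Prop := ∀ (G : Type) [Group G] (B : Type) [CommRing B] [MulSemiringAction G B]
  (S : Set G), S.Finite →
  (∀ σ ∈ S, Ideal.span {x : B | ∃ b : B, x = b - σ • b} = ⊤) →
  ∃ (n : ℕ) (x y : Fin n → B), (∀ σ ∈ S, ∑ m, x m * (σ • y m) = 0) ∧ ∑ m, x m * y m = 1

/-- quotients of a cover on which a subgroup acts trivially -/
def HQ : Prop := ∀ (k : Type) [Field k] (p M : ℕ) [Fact p.Prime] [CharP k p] (Γ : Type) [Group Γ]
  [Finite Γ] (t : Γ) (B : Type) [CommRing B] [IsDomain B] [Algebra k[X] B] [MulSemiringAction Γ B]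
  (ι : B →+* Qk k p M) (G : Type) [Group G] (ψ : Γ →* G),
  Function.Injective (algebraMap k[X] B) →
  (∀ (g : Γ) (a : k[X]), g • algebraMap k[X] B a = algebraMap k[X] B a) →
  Module.Finite k[X] B →
  (∀ b : B, (∀ g : Γ, g • b = b) → ∃ a : k[X], algebraMap k[X] B a = b) →
  (∀ σ : Γ, ((∀ b : B, σ • b = b) ∧ ψ σ = 1) ∨ Ideal.span {x : B | ∃ b : B, x = b - σ • b} = ⊤) →
  (∀ a : k[X], ι (algebraMap k[X] B a) = oQ k p M (toX k a)) →
  (∀ b : B, ι (t • b) = tQ k p M (ι b)) →
  ¬ p ∣ Nat.card ψ.ker →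
  Nonempty (BaseCover k p M ψ.range ⟨ψ t, ⟨t, rfl⟩⟩)

/-- good elements: the conjugates under `t` commute and have product `1` -/
def Good {G : Type} [Group G] (p : ℕ) (t a : G) : Prop :=
  (∀ i j : ℕ, Commute (t ^ i * a * (t ^ i)⁻¹) (t ^ j * a * (t ^ j)⁻¹)) ∧
    ((List.range p).map fun i => t ^ i * a * (t ^ i)⁻¹).prod = 1

/-- the homomorphism from `GP` given by a good element -/
def HP8a : Prop := ∀ (p : ℕ) [Fact p.Prime] (M : ℕ), ¬ p ∣ M → ∀ (G : Type) [Group G] (t a : G),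
  orderOf t = p → a ^ M = 1 → Good p t a →
  ∃ ψ : GP p M →* G, ψ (tP p M) = t ∧ ψ.range = Subgroup.closure {t, a} ∧
    ¬ p ∣ Nat.card ψ.ker ∧
    ∀ g : GP p M, qP g = 0 → (∀ c, nP g c = nP g 0) → ψ g = 1

def HP8 : Prop := ∀ (k : Type) [Field k] [IsAlgClosed k] (p : ℕ) [Fact p.Prime] [CharP k p]
  (M : ℕ), ¬ p ∣ M → ∀ (G : Type) [Group G] [Finite G] (t a : G) (H : Subgroup G) (ht : t ∈ H),
  orderOf t = p → a ^ M = 1 → Good p t a → H = Subgroup.closure {t, a} →
  Nonempty (BaseCover k p M H ⟨t, ht⟩)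

/-- The main theorem. -/
def MainP : Prop := ∀ (k : Type) [Field k] [IsAlgClosed k] (p : ℕ) [Fact p.Prime] [CharP k p]
  (G : Type) [Group G] [Finite G] (t : G), orderOf t = p →
  Subgroup.closure ({t} ∪ {a : G | ¬ p ∣ orderOf a ∧ Good p t a}) = ⊤ →
  Occurs k G (Subgroup.zpowers t)

/-- The criterion holds for `SL_n(F_q)`, `p ∣ q - 1`, and every noncentral element of order `p`. -/
def J4 : Prop := ∀ (q : Type) [Field q] [Finite q] (p : ℕ) [Fact p.Prime] (n : ℕ),
  p ∣ Nat.card q - 1 → ∀ t : Matrix.SpecialLinearGroup (Fin n) q, orderOf t = p →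
  t ∉ Subgroup.center (Matrix.SpecialLinearGroup (Fin n) q) →
  Subgroup.closure ({t} ∪ {a : Matrix.SpecialLinearGroup (Fin n) q |
    ¬ p ∣ orderOf a ∧ Good p t a}) = ⊤

end MP7b0bad

end

section

set_option autoImplicit false

/-! Item TI1: constants and translations in BB. -/

namespace MP7b0bad

open Polynomial

theorem TI1_KF_coeff (k : Type) [Field k] (c : LaurentSeries k) (j i : ℤ) (hi : i ≠ 0) :
    ((KF k c).coeff j).coeff i = 0 := by
  change (HahnSeries.C (c.coeff j) : LaurentSeries k).coeff i = 0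
  rw [HahnSeries.C_apply, HahnSeries.coeff_single_of_ne hi]

theorem TI1_KF_Ss (k : Type) [Field k] (c : LaurentSeries k) : KF k c ∈ Ss k :=
  ⟨0, fun j i hi => TI1_KF_coeff k c j i (by omega)⟩

theorem TI1_KF_Rr (k : Type) [Field k] (c : LaurentSeries k) : KF k c ∈ Rr k :=
  fun j i hi => TI1_KF_coeff k c j i (by omega)

theorem TI1_eval_Rr (k : Type) [Field k] (f : (LaurentSeries k)[X]) {x : Fk k} (hx : x ∈ Rr k) :
    f.eval₂ (KF k) x ∈ Rr k := by
  rw [eval₂_eq_sum_range]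
  exact Subring.sum_mem _ fun n _ =>
    (Rr k).mul_mem (TI1_KF_Rr k _) ((Rr k).pow_mem hx n)

/-- `K → S` -/
noncomputable def TI1_KS (k : Type) [Field k] : LaurentSeries k →+* Ss k :=
  (KF k).codRestrict (Ss k) (TI1_KF_Ss k)

theorem TI1_a {k : Type} [Field k] {p M N : ℕ} {W : k[X]} {ξ : Fin N → Fk k}
    (D : SData k p M N W ξ) (f : (LaurentSeries k)[X]) (i : Fin N) :
    D.a i (f.eval₂ (D.ofS.comp (TI1_KS k)) D.x) = oQ k p M (f.eval₂ (KF k) (ξ i)) := by
  have h : (D.a i).comp (D.ofS.comp (TI1_KS k)) = (oQ k p M).comp (KF k) := by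
    ext c
    exact D.a_ofS i (TI1_KS k c)
  rw [hom_eval₂, hom_eval₂, h, D.a_x]

theorem prf_TI1 : TI1 := by
  intro k _ p _ _ M N W ξ D G _ t H ht c hD
  refine ⟨fun f => ⟨⟨?_, ?_⟩, ?_⟩, ?_⟩
  · intro g i
    exact asShift_of p _ _
  · intro g
    exact ⟨f.eval₂ (D.ofS.comp (TI1_KS k)) D.x, fun i => TI1_a D f i⟩
  · intro i g
    exact Subring.subset_closure (Or.inl ⟨f.eval₂ (KF k) (ξ i), TI1_eval_Rr k f (hD.mem i), rfl⟩)
  · rintro σ v ⟨⟨h1, h2⟩, h3⟩
    refine ⟨⟨?_, ?_⟩, ?_⟩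
    · intro g i
      change tQ k p M (v (σ⁻¹ * (g * t)) i) = v (σ⁻¹ * g) i
      rw [← mul_assoc]
      exact h1 (σ⁻¹ * g) i
    · intro g
      exact h2 (σ⁻¹ * g)
    · intro i g
      have h4 : (fun γ : H i => v (σ⁻¹ * g * γ) i) ∈ RM (c i) := h3 i (σ⁻¹ * g)
      have h5 : (fun γ : H i => tr σ v (g * γ) i) = fun γ : H i => v (σ⁻¹ * g * γ) i := by
        funext γ
        change v (σ⁻¹ * (g * γ)) i = v (σ⁻¹ * g * γ) i
        rw [mul_assoc]
      rw [h5]
      exact h4

end MP7b0bad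

end

section

set_option autoImplicit false

namespace MP7b0bad

open Polynomial

theorem TI3_KF_C (k : Type) [Field k] :
    (KF k).comp (HahnSeries.C : k →+* LaurentSeries k) = kF k := by
  refine RingHom.ext fun a => ?_
  change (HahnSeries.C a : LaurentSeries k).map (HahnSeries.C : k →+* LaurentSeries k) =
    HahnSeries.C (HahnSeries.C a)
  exact HahnSeries.map_C a _

theorem TI3_eval {k : Type} [Field k] {N : ℕ} {W : k[X]} {ξ : Fin N → Fk k} (hξ : Discs k N W ξ)
    (f : (LaurentSeries k)[X]) (i : Fin N) :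
    (f.comp (W.map (HahnSeries.C : k →+* LaurentSeries k))).eval₂ (KF k) (ξ i) = jj k f := by
  rw [eval₂_comp, eval₂_map, TI3_KF_C, hξ.root i]
  rfl

theorem prf_TI3 (_hTI1 : TI1) (hV3 : V3) : TI3 := by
  intro k _ p _ _ M N W ξ D G _ _ t H ht c hξ hM hord
  obtain ⟨n, b, hb, -, -, -, hv⟩ := hV3 k p M N W ξ D G t H ht c hξ hM hord
  refine ⟨n, b, hb, fun v hvB => ?_⟩
  obtain ⟨f, hf⟩ := hv v hvB
  refine ⟨fun l => (f l).comp (W.map (HahnSeries.C : k →+* LaurentSeries k)), ?_⟩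
  rw [hf]
  refine Finset.sum_congr rfl fun l _ => ?_
  funext g i
  have h1 : cst k p M N ξ G ((f l).comp (W.map (HahnSeries.C : k →+* LaurentSeries k))) g i =
      oQ k p M (jj k (f l)) := by
    rw [← TI3_eval hξ (f l) i]
    rfl
  rw [Pi.mul_apply, Pi.mul_apply, h1]
  exact Algebra.smul_def (jj k (f l)) (b l g i)

end MP7b0bad

end

section

set_option autoImplicit false

namespace MP7b0bad

open Polynomial

theorem TII_unr {G B : Type} [Group G] [CommRing B] [MulSemiringAction G B] (σ : G)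
    (h : Ideal.span {x : B | ∃ b : B, x = b - σ • b} = ⊤) :
    ∃ (n : ℕ) (a b : Fin n → B), ∑ j, a j * (b j - σ • b j) = 1 := by
  have h1 : (1 : B) ∈ Ideal.span {x : B | ∃ b : B, x = b - σ • b} := h ▸ Submodule.mem_top
  rw [Ideal.span, Submodule.mem_span_set'] at h1
  obtain ⟨n, a, g, hg⟩ := h1
  choose b hb using fun i => (g i).2
  refine ⟨n, a, b, ?_⟩
  rw [← hg]
  refine Finset.sum_congr rfl fun j _ => ?_
  rw [← hb j]
  rfl

theorem TII_unr' {G B : Type} [Group G] [CommRing B] [MulSemiringAction G B] (σ : G)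
    (n : ℕ) (a b : Fin n → B) (h : ∑ j, a j * (b j - σ • b j) = 1) :
    Ideal.span {x : B | ∃ b : B, x = b - σ • b} = ⊤ := by
  rw [Ideal.eq_top_iff_one, ← h]
  exact Ideal.sum_mem _ fun j _ => Ideal.mul_mem_left _ _ (Ideal.subset_span ⟨b j, rfl⟩)

theorem TII_lift {K R' : Type} [Field K] [CommRing R'] [Algebra R' K] (c : K[X])
    (h : ∀ z ∈ c.coeffs, ∃ z' : R', algebraMap R' K z' = z) :
    ∃ c' : R'[X], c'.map (algebraMap R' K) = c := by
  have h1 : c ∈ Polynomial.lifts (algebraMap R' K) := by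
    rw [lifts_iff_coeff_lifts]
    intro n
    by_cases hn : c.coeff n = 0
    · exact ⟨0, by rw [map_zero, hn]⟩
    · exact h _ (coeff_mem_coeffs hn)
  exact (mem_lifts _).1 h1

theorem TII_small (k : Type) [Field k] {K : Type} [Field K] [Algebra k K] {B : Type} [CommRing B]
    [Algebra K[X] B] {d : ℕ} {j : B} (h : Small K d j) :
    ∃ Z : Finset K, ∀ (R' : Subalgebra k K), (∀ z ∈ Z, z ∈ R') →
      ∀ (B' : Type) [CommRing B'] [Algebra (R')[X] B'] (incl : B' →+* B),
      Function.Injective incl →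
      (∀ a : (R')[X], incl (algebraMap (R')[X] B' a) =
        algebraMap K[X] B (a.map (algebraMap R' K))) →
      ∀ j', incl j' = j → Small R' d j' := by
  classical
  obtain ⟨n, c, hn, hdeg, hrel⟩ := h
  refine ⟨Finset.univ.biUnion fun i => (c i).coeffs, ?_⟩
  intro R' hZ B' _ _ incl hinj halg j' hj'
  have h1 : ∀ i, ∃ c' : (R')[X], c'.map (algebraMap R' K) = c i := by
    intro i
    refine TII_lift _ fun z hz => ⟨⟨z, hZ z ?_⟩, rfl⟩
    exact Finset.mem_biUnion.2 ⟨i, Finset.mem_univ _, hz⟩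
  choose c' hc' using h1
  refine ⟨n, c', hn, fun i => ?_, ?_⟩
  · have h2 := hdeg i
    rw [← hc' i, degree_map_eq_of_injective (FaithfulSMul.algebraMap_injective R' K)] at h2
    exact h2
  · apply hinj
    rw [map_add, map_pow, hj', map_sum, map_zero, ← hrel]
    congr 1
    refine Finset.sum_congr rfl fun i _ => ?_
    rw [map_mul, map_pow, hj', halg, hc']

theorem TII_small' {R k : Type} [CommRing R] [CommRing k] (φ : R →+* k) {B' B'' : Type}
    [CommRing B'] [CommRing B''] [Algebra R[X] B'] [Algebra k[X] B''] (q : B' →+* B'')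
    (hq : ∀ a : R[X], q (algebraMap R[X] B' a) = algebraMap k[X] B'' (a.map φ)) {d : ℕ} {j : B'}
    (h : Small R d j) : Small k d (q j) := by
  obtain ⟨n, c, hn, hdeg, hrel⟩ := h
  refine ⟨n, fun i => (c i).map φ, hn, fun i => lt_of_le_of_lt degree_map_le (hdeg i), ?_⟩
  have h1 := congrArg q hrel
  rw [map_add, map_pow, map_sum, map_zero] at h1
  rw [← h1]
  congr 1
  refine Finset.sum_congr rfl fun i _ => ?_
  rw [map_mul, map_pow, hq]

theorem prf_TII (hE1 : E1) (hE6 : E6) (hE7 : E7) (hE8 : E8) (hE9 : E9) (hE10 : E10) : TII := by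
  classical
  intro k _ _ p _ _ K _ _ G _ _ t f B _ _ _ ht hf0 hfp hB
  have hchar : CharP K p := charP_of_injective_algebraMap (algebraMap k K).injective p
  have hdom := hB.dom
  obtain ⟨hfree, hrank⟩ := hE1 K G B hB.inj hB.comm hB.fin hB.inv (by
    intro σ hσ
    by_contra hcon
    push Not at hcon
    have h1 := hB.unr σ hσ
    have h2 : {x : B | ∃ b : B, x = b - σ • b} = {0} := by
      ext x
      constructor
      · rintro ⟨b, hb⟩
        rw [hcon b, sub_self] at hb
        exact hb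
      · rintro rfl
        exact ⟨0, by simp⟩
    rw [h2] at h1
    have h3 : (Ideal.span {(0 : B)}) = ⊥ := by simp
    rw [h3] at h1
    exact bot_ne_top h1)
  obtain ⟨d, β, γ, hS1, hS2, ⟨s, hS3⟩, hS4⟩ := hE6 K p G t f B ht hfp hB
  obtain ⟨θ, F, hFm, hFd, hFθ, hFirr⟩ := hE7 K p G t f B hfp hB
  -- the finite sets
  choose! nu au bu hu using fun σ (hσ : σ ≠ 1) => TII_unr σ (hB.unr σ hσ)
  obtain ⟨Z1, hZ1⟩ := TII_small k hS1
  obtain ⟨Z3, hZ3⟩ := TII_small k hS3
  obtain ⟨Z4, hZ4⟩ := TII_small k hS4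
  choose! Z2 hZ2 using fun g (hg : g ∉ Subgroup.zpowers t) => TII_small k (hS2 g hg)
  have := Fintype.ofFinite G
  set ZB : Finset B := {θ, β, γ} ∪
    Finset.univ.biUnion (fun σ : G => Finset.univ.image (au σ) ∪ Finset.univ.image (bu σ)) with hZB
  set ZK : Finset K := f.coeffs ∪ F.coeffs.biUnion (fun c => c.coeffs) ∪ Z1 ∪ Z3 ∪ Z4 ∪
    Finset.univ.biUnion Z2 with hZK
  obtain ⟨R', hR'fg, hR'Z, B', _, _, _, incl, hinj, halg, hact, hfree', hfin', hrank', hBZ⟩ :=
    hE8 k K G B hB.comm hB.fin hfree ZB ZK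
  obtain ⟨θ', hθ'⟩ := hBZ θ (by simp [hZB])
  obtain ⟨β', hβ'⟩ := hBZ β (by simp [hZB])
  obtain ⟨γ', hγ'⟩ := hBZ γ (by simp [hZB])
  have hau : ∀ σ i, ∃ z', incl z' = au σ i := fun σ i => hBZ _ (by
    rw [hZB]
    refine Finset.mem_union_right _ (Finset.mem_biUnion.2 ⟨σ, Finset.mem_univ _, ?_⟩)
    exact Finset.mem_union_left _ (Finset.mem_image_of_mem _ (Finset.mem_univ _)))
  have hbu : ∀ σ i, ∃ z', incl z' = bu σ i := fun σ i => hBZ _ (by
    rw [hZB]
    refine Finset.mem_union_right _ (Finset.mem_biUnion.2 ⟨σ, Finset.mem_univ _, ?_⟩)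
    exact Finset.mem_union_right _ (Finset.mem_image_of_mem _ (Finset.mem_univ _)))
  choose au' hau' using hau
  choose bu' hbu' using hbu
  have hKf : ∀ z ∈ f.coeffs, z ∈ R' := fun z hz => hR'Z z (by simp only [hZK, Finset.mem_union]; tauto)
  have hKF : ∀ c ∈ F.coeffs, ∀ z ∈ c.coeffs, z ∈ R' := fun c hc z hz => hR'Z z (by
    rw [hZK]
    exact Finset.mem_union_left _ (Finset.mem_union_left _ (Finset.mem_union_left _
      (Finset.mem_union_left _ (Finset.mem_union_right _ (Finset.mem_biUnion.2 ⟨c, hc, hz⟩))))))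
  have hK1 : ∀ z ∈ Z1, z ∈ R' := fun z hz => hR'Z z (by simp only [hZK, Finset.mem_union]; tauto)
  have hK3 : ∀ z ∈ Z3, z ∈ R' := fun z hz => hR'Z z (by simp only [hZK, Finset.mem_union]; tauto)
  have hK4 : ∀ z ∈ Z4, z ∈ R' := fun z hz => hR'Z z (by simp only [hZK, Finset.mem_union]; tauto)
  have hK2 : ∀ g, ∀ z ∈ Z2 g, z ∈ R' := fun g z hz => hR'Z z (by
    rw [hZK]
    exact Finset.mem_union_right _ (Finset.mem_biUnion.2 ⟨g, Finset.mem_univ _, hz⟩))
  have hRK : Function.Injective (algebraMap R' K) := FaithfulSMul.algebraMap_injective R' K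
  obtain ⟨f', hf'⟩ := TII_lift (R' := R') f fun z hz => ⟨⟨z, hKf z hz⟩, rfl⟩
  have hf'd : f'.natDegree = f.natDegree := by
    rw [← hf', natDegree_map_eq_of_injective hRK]
  have hfl : f'.leadingCoeff ≠ 0 := by
    rw [Ne, leadingCoeff_eq_zero]
    rintro rfl
    rw [natDegree_zero] at hf'd
    omega
  -- lift of F
  have hFl : F ∈ Polynomial.lifts (mapRingHom (algebraMap R' K)) := by
    rw [lifts_iff_coeff_lifts]
    intro n
    by_cases hn : F.coeff n = 0
    · exact ⟨0, by rw [map_zero, hn]⟩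
    · obtain ⟨c', hc'⟩ := TII_lift (R' := R') (F.coeff n) fun z hz =>
        ⟨⟨z, hKF _ (coeff_mem_coeffs hn) z hz⟩, rfl⟩
      exact ⟨c', hc'⟩
  obtain ⟨F', hF', hF'd, hF'm⟩ := lifts_and_natDegree_eq_and_monic hFl hFm
  have hcard : 0 < Nat.card G := Nat.card_pos
  have hF'd0 : 0 < F'.natDegree := by rw [hF'd, hFd]; exact hcard
  -- identities in B'
  have hθ0 : aeval θ' F' = 0 := by
    apply hinj
    rw [map_zero, aeval_def, hom_eval₂, hθ', ← hFθ, ← hF', aeval_def, eval₂_map]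
    congr 1
    ext a
    · simp [halg]
    · simp [halg]
  have hu' : ∀ σ, σ ≠ 1 → ∑ j, au' σ j * (bu' σ j - σ • bu' σ j) = 1 := by
    intro σ hσ
    apply hinj
    rw [map_one, ← hu σ hσ, map_sum]
    refine Finset.sum_congr rfl fun j _ => ?_
    rw [map_mul, map_sub, hact, hau', hbu']
  have halgX : ∀ n : ℕ, incl (algebraMap (R')[X] B' (X ^ n)) = algebraMap K[X] B (X ^ n) := by
    intro n
    rw [halg]
    simp
  have hS1' : Small R' (2 * d) (β' ^ 2 - algebraMap (R')[X] B' (X ^ d) * β') := by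
    refine hZ1 R' hK1 B' incl hinj halg _ ?_
    rw [map_sub, map_mul, map_pow, hβ', halgX]
  have hS2' : ∀ g : G, g ∉ Subgroup.zpowers t → Small R' (2 * d) (β' * (g • β')) := by
    intro g hg
    refine hZ2 g hg R' (hK2 g) B' incl hinj halg _ ?_
    rw [map_mul, hact, hβ']
  have hS3' : Small R' d (∑ g ∈ s, g • β' - algebraMap (R')[X] B' (X ^ d)) := by
    refine hZ3 R' hK3 B' incl hinj halg _ ?_
    rw [map_sub, map_sum, halgX]
    simp only [hact, hβ']
  have hS4' : Small R' ((p + 1) * d)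
      (β' * (γ' ^ p - algebraMap (R')[X] B' (X ^ ((p - 1) * d)) * γ' -
        algebraMap (R')[X] B' (f' * X ^ (p * d)))) := by
    refine hZ4 R' hK4 B' incl hinj halg _ ?_
    rw [map_mul, map_sub, map_sub, map_mul, map_pow, hβ', hγ', halgX, halg]
    simp [hf']
  -- specialisation
  have hft : Algebra.FiniteType k R' := (Subalgebra.fg_iff_finiteType R').1 hR'fg
  obtain ⟨φ, hφ1, hφ2⟩ := hE9 k R' hft (AlgebraicClosure K)
    (by
      rw [IsScalarTower.algebraMap_eq R' K (AlgebraicClosure K)]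
      exact (algebraMap K (AlgebraicClosure K)).injective.comp hRK)
    F' hF'm hF'd0
    (by
      have h1 := hFirr (AlgebraicClosure K)
      rw [← hF', map_map] at h1
      have h2 : (mapRingHom (algebraMap K (AlgebraicClosure K))).comp
          (mapRingHom (algebraMap R' K)) = mapRingHom (algebraMap R' (AlgebraicClosure K)) := by
        rw [IsScalarTower.algebraMap_eq R' K (AlgebraicClosure K), mapRingHom_comp]
      rw [h2] at h1
      exact h1)
    f'.leadingCoeff hfl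
  obtain ⟨B'', _, _, _, q, hq1, hq2, hq3, hq4, hq5, hq6⟩ := hE10 R' k (φ : R' →+* k) G B'
    (by
      intro g a
      apply hinj
      rw [hact, halg, hB.comm])
    hfree' hfin'
  have hqX : ∀ n : ℕ, q (algebraMap (R')[X] B' (X ^ n)) = algebraMap k[X] B'' (X ^ n) := by
    intro n
    rw [hq1]
    simp
  refine ⟨B'', inferInstance, inferInstance, inferInstance, hq3, hq5, hq4, ?_, ?_, ?_, ?_⟩
  · rw [hq6, hrank', hrank]
  · intro σ hσ
    refine TII_unr' σ (nu σ) (fun j => q (au' σ j)) (fun j => q (bu' σ j)) ?_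
    have h1 := congrArg q (hu' σ hσ)
    rw [map_one, map_sum] at h1
    rw [← h1]
    refine Finset.sum_congr rfl fun j _ => ?_
    rw [map_mul, map_sub, hq2]
  · refine ⟨q θ', F'.map (mapRingHom (φ : R' →+* k)), hF'm.map _, ?_, hφ2, ?_⟩
    · rw [hF'm.natDegree_map, hF'd, hFd]
    · have h1 := congrArg q hθ0
      rw [map_zero, aeval_def, hom_eval₂] at h1
      rw [aeval_def, eval₂_map, ← h1]
      congr 1
      ext a
      · simp [hq1]
      · simp [hq1]
  · have hnd : (f'.map (φ : R' →+* k)).natDegree = f.natDegree := by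
      rw [← hf'd]
      exact natDegree_map_of_leadingCoeff_ne_zero _ hφ1
    refine ⟨f'.map (φ : R' →+* k), d, q β', q γ', ?_, ?_, ?_, ?_, ?_, ?_⟩
    · rw [hnd]
      exact hf0
    · rw [hnd]
      exact hfp
    · have h1 := TII_small' (φ : R' →+* k) q hq1 hS1'
      rw [map_sub, map_mul, map_pow, hqX] at h1
      exact h1
    · intro g hg
      have h1 := TII_small' (φ : R' →+* k) q hq1 (hS2' g hg)
      rw [map_mul, hq2] at h1
      exact h1
    · refine ⟨s, ?_⟩
      have h1 := TII_small' (φ : R' →+* k) q hq1 hS3'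
      rw [map_sub, map_sum, hqX] at h1
      simp only [hq2] at h1
      exact h1
    · have h1 := TII_small' (φ : R' →+* k) q hq1 hS4'
      rw [map_mul, map_sub, map_sub, map_mul, map_pow, hqX, hq1] at h1
      simpa using h1

end MP7b0bad

end

section

set_option autoImplicit false

namespace MP7b0bad

open Polynomial

theorem prf_TIII (hF1 : F1) (hF2 : F2) (hF8 : F8) : TIII := by
  intro k _ _ p _ _ G _ _ I B _ _ _ hC hI
  obtain ⟨L, iF, iA, ι, hinj, hι, hfd, hgal, φ, hφ⟩ := hF1 k p G I B hC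
  refine ⟨L, iF, iA, hfd, hgal, φ, ?_, ?_⟩
  · exact hF2 k G B L ι φ hC.fin hι hφ hC.unr
  · obtain ⟨A, hA, hA'⟩ := hF8 k p G I B hC hI L ι φ hι hφ
    exact ⟨A, hA.1, hA.2, hA'⟩

end MP7b0bad

end

section

set_option autoImplicit false

namespace MP7b0bad

open Polynomial

theorem V1_charP (k : Type) [Field k] (p : ℕ) [CharP k p] : CharP (Fk k) p :=
  charP_of_injective_ringHom (kF k).injective p

theorem V1_iter {α : Type} (T : α → α) (p : ℕ) (hT : ∀ z, T^[p] z = z) (a b : ℕ)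
    (h : a ≡ b [MOD p]) (z : α) : T^[a] z = T^[b] z := by
  have h1 : ∀ n, T^[n] z = T^[n % p] z := by
    intro n
    have h2 : T^[p] = id := funext hT
    conv_lhs => rw [← Nat.mod_add_div n p]
    rw [Function.iterate_add, Function.iterate_mul, h2, Function.iterate_id]
    rfl
  rw [h1 a, h1 b, h]

/-- the linear equivalence of `VG` with functions on representatives -/
noncomputable def V1_equiv (k : Type) [Field k] (p M N : ℕ) {G : Type} [Group G] (t : G)
    (hT : ∀ z, (tQ k p M)^[p] z = z) (ht : orderOf t = p)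
    (nn : G → ℕ) (r : G ⧸ Subgroup.zpowers t → G)
    (hr : ∀ c, (QuotientGroup.mk (r c) : G ⧸ Subgroup.zpowers t) = c)
    (hn : ∀ g, g * t ^ nn g = r (QuotientGroup.mk g)) :
    VG k p M N t ≃ₗ[Fk k] ((G ⧸ Subgroup.zpowers t) → Fin N → Qk k p M) where
  toFun v := fun c => (v : WW k p M N G) (r c)
  map_add' _ _ := rfl
  map_smul' _ _ := rfl
  invFun w := ⟨fun g i => (tQ k p M)^[nn g] (w (QuotientGroup.mk g) i), by
    intro g i
    have h1 : (QuotientGroup.mk (g * t) : G ⧸ Subgroup.zpowers t) = QuotientGroup.mk g := by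
      rw [QuotientGroup.eq]
      rw [mul_inv_rev, inv_mul_cancel_right]
      exact Subgroup.inv_mem _ (Subgroup.mem_zpowers t)
    have h2 : t ^ (nn (g * t) + 1) = t ^ nn g := by
      have h3 := hn (g * t)
      rw [h1, ← hn g, mul_assoc, ← pow_succ'] at h3
      exact mul_left_cancel h3
    rw [pow_eq_pow_iff_modEq, ht] at h2
    have h4 := V1_iter (tQ k p M) p hT _ _ h2 (w (QuotientGroup.mk g) i)
    beta_reduce
    rw [← h4, h1, Function.iterate_succ_apply']⟩
  left_inv v := by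
    have key : ∀ (n : ℕ) (g : G) (i : Fin N), (tQ k p M)^[n] ((v : WW k p M N G) (g * t ^ n) i) =
        (v : WW k p M N G) g i := by
      intro n
      induction n with
      | zero =>
        intro g i
        simp
      | succ n ih =>
        intro g i
        have h1 : (v : WW k p M N G) ∈ EqG k p M N t := v.2
        rw [Function.iterate_succ_apply, pow_succ, ← mul_assoc, h1 (g * t ^ n) i]
        exact ih g i
    apply Subtype.ext
    funext g i
    change (tQ k p M)^[nn g] ((v : WW k p M N G) (r (QuotientGroup.mk g)) i) = _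
    rw [← hn g]
    exact key _ _ _
  right_inv w := by
    funext c i
    change (tQ k p M)^[nn (r c)] (w (QuotientGroup.mk (r c)) i) = w c i
    have h1 := hn (r c)
    rw [hr c] at h1
    have h2 : t ^ nn (r c) = t ^ 0 := by
      rw [pow_zero]
      exact mul_eq_left.1 h1
    rw [pow_eq_pow_iff_modEq, ht] at h2
    rw [hr c, V1_iter (tQ k p M) p hT _ _ h2]
    rfl

theorem prf_V1 (hB1 : B1) (hC3 : C3) : V1 := by
  classical
  intro k _ p hp _ M N W ξ D G _ _ t hD hM ht
  have := V1_charP k p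
  obtain ⟨b, hb⟩ := hC3 k p M N W ξ hD D
  have hT : ∀ z, (tQ k p M)^[p] z = z := (hB1 (Fk k) p (XX k ^ M)).2
  have hfin : Finite (G ⧸ Subgroup.zpowers t) := inferInstance
  have hfin' := Fintype.ofFinite (G ⧸ Subgroup.zpowers t)
  have hex : ∀ g : G, ∃ n : ℕ, g * t ^ n =
      Quotient.out (QuotientGroup.mk g : G ⧸ Subgroup.zpowers t) := by
    intro g
    have h1 : (QuotientGroup.mk g : G ⧸ Subgroup.zpowers t) =
        QuotientGroup.mk (Quotient.out (QuotientGroup.mk g : G ⧸ Subgroup.zpowers t)) :=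
      (QuotientGroup.out_eq' _).symm
    rw [QuotientGroup.eq] at h1
    rw [← mem_powers_iff_mem_zpowers] at h1
    obtain ⟨n, hn⟩ := h1
    refine ⟨n, ?_⟩
    simp only at hn
    rw [hn, mul_inv_cancel_left]
  choose nn hn using hex
  let Ψ := V1_equiv k p M N t hT ht nn Quotient.out (fun c => QuotientGroup.out_eq' c) hn
  refine ⟨(Σ _ : G ⧸ Subgroup.zpowers t, Fin N × Fin p), inferInstance,
    (Pi.basis fun _ => b).map Ψ.symm, fun v => ?_⟩
  have h1 : ∀ c : G ⧸ Subgroup.zpowers t, (∀ jl, b.repr (Ψ v c) jl ∈ Ss k) ↔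
      ∃ α : D.A, ∀ i, D.a i α = (v : WW k p M N G) (Quotient.out c) i :=
    fun c => (hb (Ψ v c)).symm
  have h2 : (∀ i, (((Pi.basis fun _ : G ⧸ Subgroup.zpowers t => b).map Ψ.symm).repr v) i ∈ Ss k) ↔
      ∀ c, ∀ jl, b.repr (Ψ v c) jl ∈ Ss k := by
    constructor
    · intro h c jl
      have := h ⟨c, jl⟩
      rw [Module.Basis.map_repr] at this
      simpa using this
    · rintro h ⟨c, jl⟩
      rw [Module.Basis.map_repr]
      simpa using h c jl
  rw [h2]
  constructor
  · intro h c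
    rw [h1]
    exact h _
  · intro h g
    obtain ⟨α, hα⟩ := (h1 (QuotientGroup.mk g)).1 (h _)
    have hτ : ∀ (n : ℕ) (i : Fin N), D.a i (D.τ^[n] α) = (tQ k p M)^[n] (D.a i α) := by
      intro n i
      induction n with
      | zero => rfl
      | succ n ih => rw [Function.iterate_succ_apply', Function.iterate_succ_apply', D.a_τ, ih]
    refine ⟨D.τ^[nn g] α, fun i => ?_⟩
    rw [hτ, hα]
    have h3 : ((Ψ.symm (Ψ v) : VG k p M N t) : WW k p M N G) g i = (v : WW k p M N G) g i := by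
      rw [Ψ.symm_apply_apply]
    exact h3

end MP7b0bad

end

section

set_option autoImplicit false

namespace MP7b0bad

open Polynomial

section

variable {k : Type} [Field k] {p M N : ℕ} {G : Type} [Group G] {t : G}
  {H : Fin N → Subgroup G} {ht : ∀ i, t ∈ H i} (c : ∀ i, BaseCover k p M (H i) ⟨t, ht i⟩)
  {n : Fin N → ℕ} (β : ∀ i, Fin (n i) → (c i).B)
  (r : ∀ i, G ⧸ H i → G)
  (hr : ∀ i (g : G), (r i (QuotientGroup.mk g))⁻¹ * g ∈ H i)

/-- the element of `H i` with `g = r γ` -/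
def V2_gam (i : Fin N) (g : G) : H i := ⟨(r i (QuotientGroup.mk g))⁻¹ * g, hr i g⟩

/-- the function with given coordinates -/
noncomputable def V2_fun (a : (Σ i, (G ⧸ H i) × Fin (n i)) → Fk k) : WW k p M N G :=
  fun g i => ∑ l, oQ k p M (a ⟨i, (QuotientGroup.mk g, l)⟩) *
    (c i).ι ((V2_gam r hr i g)⁻¹ • β i l)

theorem V2_mem (a : (Σ i, (G ⧸ H i) × Fin (n i)) → Fk k) :
    V2_fun c β r hr a ∈ VG k p M N t := by
  intro g i
  have h1 : (QuotientGroup.mk (g * t) : G ⧸ H i) = QuotientGroup.mk g := by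
    rw [QuotientGroup.eq, mul_inv_rev, inv_mul_cancel_right]
    exact (H i).inv_mem (ht i)
  have h2 : V2_gam r hr i (g * t) = V2_gam r hr i g * ⟨t, ht i⟩ := by
    apply Subtype.ext
    change (r i (QuotientGroup.mk (g * t)))⁻¹ * (g * t) = (r i (QuotientGroup.mk g))⁻¹ * g * t
    rw [h1, mul_assoc]
  unfold V2_fun
  rw [map_sum]
  refine Finset.sum_congr rfl fun l _ => ?_
  rw [h1, h2, map_mul, ← (c i).ι_t, mul_inv_rev, mul_smul, smul_inv_smul]
  congr 1
  exact asShift_of p _ _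

/-- the linear map from coordinates to equivariant functions -/
noncomputable def V2_lin : ((Σ i, (G ⧸ H i) × Fin (n i)) → Fk k) →ₗ[Fk k] VG k p M N t where
  toFun a := ⟨V2_fun c β r hr a, V2_mem c β r hr a⟩
  map_add' a b := by
    apply Subtype.ext
    funext g i
    change V2_fun c β r hr (a + b) g i = V2_fun c β r hr a g i + V2_fun c β r hr b g i
    unfold V2_fun
    rw [← Finset.sum_add_distrib]
    refine Finset.sum_congr rfl fun l _ => ?_
    rw [Pi.add_apply, map_add, add_mul]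
  map_smul' x a := by
    apply Subtype.ext
    funext g i
    change V2_fun c β r hr (x • a) g i = x • V2_fun c β r hr a g i
    have h2 : ∀ q : Qk k p M, x • q = oQ k p M x * q := fun q => Algebra.smul_def x q
    rw [h2]
    unfold V2_fun
    rw [Finset.mul_sum]
    refine Finset.sum_congr rfl fun l _ => ?_
    rw [Pi.smul_apply, smul_eq_mul, map_mul, mul_assoc]

end

theorem prf_V2 (_hB1 : B1) (hD1b : D1b) (hD2 : D2) : V2 := by
  classical
  intro k _ p hp _ M N G _ _ t H ht c hM hord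
  have hfin : ∀ i, Finite (H i) := fun i => inferInstance
  have hordi : ∀ i, orderOf (⟨t, ht i⟩ : H i) = p := fun i => by
    rw [← hord]
    exact Subgroup.orderOf_mk t (ht i)
  choose n β hβ1 hβ2 using fun i => hD2 k p M (H i) ⟨t, ht i⟩ (c i) hM (hordi i)
  have hfinq : ∀ i, Finite (G ⧸ H i) := fun i => inferInstance
  have hfintq : ∀ i, Fintype (G ⧸ H i) := fun i => Fintype.ofFinite _
  let r : ∀ i, G ⧸ H i → G := fun i => Quotient.out
  have hr0 : ∀ i (x : G ⧸ H i), (QuotientGroup.mk (r i x) : G ⧸ H i) = x :=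
    fun i x => QuotientGroup.out_eq' x
  have hr : ∀ i (g : G), (r i (QuotientGroup.mk g))⁻¹ * g ∈ H i := by
    intro i g
    rw [← QuotientGroup.eq]
    exact hr0 i _
  let Θ := V2_lin c β r hr
  -- values of `Θ a` on a coset
  have hval : ∀ (a : (Σ i, (G ⧸ H i) × Fin (n i)) → Fk k) (i : Fin N) (x : G ⧸ H i) (γ : H i),
      ((Θ a : VG k p M N t) : WW k p M N G) (r i x * γ) i =
        ∑ l, oQ k p M (a ⟨i, (x, l)⟩) * (c i).ι (γ⁻¹ • β i l) := by
    intro a i x γ
    have h1 : (QuotientGroup.mk (r i x * γ) : G ⧸ H i) = x := by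
      rw [← hr0 i x, QuotientGroup.eq, hr0 i x, mul_inv_rev, inv_mul_cancel_right]
      exact (H i).inv_mem γ.2
    have h2 : V2_gam r hr i (r i x * γ) = γ := by
      apply Subtype.ext
      change (r i (QuotientGroup.mk (r i x * γ)))⁻¹ * (r i x * γ) = γ
      rw [h1, inv_mul_cancel_left]
    change V2_fun c β r hr a (r i x * γ) i = _
    unfold V2_fun
    rw [h1, h2]
  have hsurj : Function.Surjective Θ := by
    intro v
    have hv : ∀ g i, tQ k p M ((v : WW k p M N G) (g * t) i) = (v : WW k p M N G) g i := v.2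
    choose a ha _ using fun (i : Fin N) (x : G ⧸ H i) =>
      hβ1 i (fun γ => (v : WW k p M N G) (r i x * γ) i) (fun γ => by
        have := hv (r i x * γ) i
        rw [mul_assoc] at this
        exact this)
    refine ⟨fun s => a s.1 s.2.1 s.2.2, ?_⟩
    apply Subtype.ext
    funext g i
    have h1 : g = r i (QuotientGroup.mk g) * (⟨_, hr i g⟩ : H i) := by
      change g = r i (QuotientGroup.mk g) * ((r i (QuotientGroup.mk g))⁻¹ * g)
      rw [mul_inv_cancel_left]
    conv_lhs => rw [h1]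
    rw [hval]
    have h2 := ha i (QuotientGroup.mk g) ⟨_, hr i g⟩
    rw [← h1] at h2
    exact h2.symm
  have hinj : Function.Injective Θ := by
    intro a b hab
    funext s
    obtain ⟨i, x, l⟩ := s
    have hv : ∀ g i, tQ k p M (((Θ a : VG k p M N t) : WW k p M N G) (g * t) i) =
        ((Θ a : VG k p M N t) : WW k p M N G) g i := (Θ a).2
    obtain ⟨a', -, huniq⟩ := hβ1 i
      (fun γ => ((Θ a : VG k p M N t) : WW k p M N G) (r i x * γ) i) (fun γ => by
        have := hv (r i x * γ) i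
        rw [mul_assoc] at this
        exact this)
    have h1 := huniq (fun l => a ⟨i, (x, l)⟩) (fun γ => hval a i x γ)
    have h2 := huniq (fun l => b ⟨i, (x, l)⟩) (fun γ => by
      beta_reduce
      rw [hab]
      exact hval b i x γ)
    exact congrFun (h1.trans h2.symm) l
  let Ψ : VG k p M N t ≃ₗ[Fk k] ((Σ i, (G ⧸ H i) × Fin (n i)) → Fk k) :=
    (LinearEquiv.ofBijective Θ ⟨hinj, hsurj⟩).symm
  refine ⟨(Σ i, (G ⧸ H i) × Fin (n i)), inferInstance, Module.Basis.ofEquivFun Ψ, fun v => ?_⟩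
  have hrepr : ∀ s, (Module.Basis.ofEquivFun Ψ).repr v s = Ψ v s := by
    intro s
    rw [Module.Basis.ofEquivFun_repr_apply]
  simp only [hrepr]
  have hΨ : Θ (Ψ v) = v := (LinearEquiv.ofBijective Θ ⟨hinj, hsurj⟩).apply_symm_apply v
  have hcos : ∀ (i : Fin N) (x : G ⧸ H i), (fun γ : H i => (v : WW k p M N G) (r i x * γ) i) =
      fun γ : H i => ∑ l, oQ k p M (Ψ v ⟨i, (x, l)⟩) * (c i).ι (γ⁻¹ • β i l) := by
    intro i x
    funext γ
    conv_lhs => rw [← hΨ]
    exact hval _ i x γ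
  constructor
  · rintro h ⟨i, x, l⟩
    have h1 := h i (r i x)
    rw [hcos] at h1
    exact (hβ2 i _).1 h1 l
  · intro h i g
    have h1 : (fun γ : H i => (v : WW k p M N G) (r i (QuotientGroup.mk g) * γ) i) ∈ RM (c i) := by
      rw [hcos]
      exact (hβ2 i _).2 fun l => h ⟨i, (QuotientGroup.mk g, l)⟩
    have h2 := (hD1b k p M (H i) ⟨t, ht i⟩ (c i) _ h1).2 ⟨_, hr i g⟩
    have h3 : (fun γ : H i => (v : WW k p M N G) (g * γ) i) = fun γ : H i =>
        (v : WW k p M N G) (r i (QuotientGroup.mk g) *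
          (((⟨_, hr i g⟩ : H i) * γ : H i) : G)) i := by
      funext γ
      have h4 : g * (γ : G) = r i (QuotientGroup.mk g) *
          (((⟨_, hr i g⟩ : H i) * γ : H i) : G) := by
        change g * (γ : G) = r i (QuotientGroup.mk g) * ((r i (QuotientGroup.mk g))⁻¹ * g * γ)
        rw [mul_assoc, mul_inv_cancel_left]
      rw [← h4]
    rw [h3]
    exact h2

end MP7b0bad

end

section

set_option autoImplicit false

namespace MP7b0bad

open Polynomial

theorem prf_V3 (hA8 : A8) (hPB : PB) (hV1 : V1) (hV2 : V2) : V3 := by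
  intro k _ p _ _ M N W ξ D G _ _ t H ht c hξ hM hord
  classical
  obtain ⟨ι, _, e, he⟩ := hV1 k p M N W ξ D G t hξ hM hord
  obtain ⟨ι', _, f, hf⟩ := hV2 k p M N G t H ht c hM hord
  obtain ⟨b, hS, hR⟩ := hPB k (VG k p M N t) ι ι' e f
  have hself : ∀ (S : Subring (Fk k)) (l i : ι), b.repr (b l) i ∈ S := by
    intro S l i
    rw [Module.Basis.repr_self, Finsupp.single_apply]
    split_ifs
    · exact S.one_mem
    · exact S.zero_mem
  set θ : ι ≃ Fin (Fintype.card ι) := Fintype.equivFin ι with hθ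
  -- expansion
  have hexp : ∀ v : VG k p M N t, (v : WW k p M N G) =
      ∑ l : Fin (Fintype.card ι), b.repr v (θ.symm l) • (b (θ.symm l) : WW k p M N G) := by
    intro v
    have h1 : ∑ i, b.repr v i • (b i : WW k p M N G) = (v : WW k p M N G) := by
      have h2 := congrArg (Submodule.subtype (VG k p M N t)) (b.sum_repr v)
      rw [map_sum] at h2
      simpa using h2
    rw [← h1]
    exact (Equiv.sum_comp θ.symm fun i => b.repr v i • (b i : WW k p M N G)).symm
  refine ⟨Fintype.card ι, fun l => (b (θ.symm l) : WW k p M N G), ?_, ?_, ?_, ?_, ?_⟩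
  · intro l
    refine ⟨⟨(b (θ.symm l)).2, ?_⟩, ?_⟩
    · exact (he _).2 ((hS _).1 fun i => hself _ _ i)
    · exact (hf _).2 ((hR _).1 fun i => hself _ _ i)
  · intro v hv
    have hcoord := (hS ⟨v, hv.1⟩).2 ((he ⟨v, hv.1⟩).1 hv.2)
    exact ⟨fun l => b.repr ⟨v, hv.1⟩ (θ.symm l), fun l => hcoord _, hexp ⟨v, hv.1⟩⟩
  · intro v hv
    have hcoord := (hR ⟨v, hv.1⟩).2 ((hf ⟨v, hv.1⟩).1 hv.2)
    exact ⟨fun l => b.repr ⟨v, hv.1⟩ (θ.symm l), fun l => hcoord _, hexp ⟨v, hv.1⟩⟩
  · intro a ha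
    have h0 : ∑ i, a (θ i) • b i = 0 := by
      apply Subtype.ext
      have h3 : ((∑ i, a (θ i) • b i : VG k p M N t) : WW k p M N G) =
          ∑ i, a (θ i) • (b i : WW k p M N G) := by
        have h2 := map_sum (Submodule.subtype (VG k p M N t)) (fun i => a (θ i) • b i) Finset.univ
        simpa using h2
      rw [h3]
      have h4 := Equiv.sum_comp θ.symm fun i => a (θ i) • (b i : WW k p M N G)
      simp only [Equiv.apply_symm_apply] at h4
      rw [← h4]
      exact ha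
    have h5 := b.repr_sum_self (fun i => a (θ i))
    rw [h0] at h5
    funext l
    have := congrFun h5 (θ.symm l)
    rw [Equiv.apply_symm_apply] at this
    rw [← this]
    simp
  · intro v hv
    have hc1 := (hS ⟨v, hv.1.1⟩).2 ((he ⟨v, hv.1.1⟩).1 hv.1.2)
    have hc2 := (hR ⟨v, hv.1.1⟩).2 ((hf ⟨v, hv.1.1⟩).1 hv.2)
    have h6 : ∀ l : Fin (Fintype.card ι), ∃ g : (LaurentSeries k)[X],
        jj k g = b.repr ⟨v, hv.1.1⟩ (θ.symm l) :=
      fun l => (hA8 k).2.2 _ (hc2 _) (hc1 _)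
    choose g hg using h6
    refine ⟨g, ?_⟩
    simp only [hg]
    exact hexp ⟨v, hv.1.1⟩

end MP7b0bad

end

section

set_option autoImplicit false

/-!
# V4R: certificate over `R` (helper26)
-/

namespace MP7b0bad

section

variable {k : Type} [Field k] {p M N : ℕ} {G : Type} [Group G]

open Classical in
/-- a function supported on one coset at one index -/
noncomputable def V4R_ind (H0 : Subgroup G) (i0 : Fin N) (q : G ⧸ H0) (f : G → Qk k p M) :
    WW k p M N G :=
  fun g i => if i = i0 ∧ (QuotientGroup.mk g : G ⧸ H0) = q then f g else 0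

theorem V4R_ind_EqG {t : G} (H0 : Subgroup G) (ht : t ∈ H0) (i0 : Fin N) (q : G ⧸ H0)
    (f : G → Qk k p M)
    (hf : ∀ g, (QuotientGroup.mk g : G ⧸ H0) = q → tQ k p M (f (g * t)) = f g) :
    V4R_ind H0 i0 q f ∈ EqG k p M N t := by
  intro g i
  unfold V4R_ind
  rw [QuotientGroup.mk_mul_of_mem g ht]
  split_ifs with h
  · exact hf g h.2
  · exact map_zero _

theorem V4R_ind_pos {H0 : Subgroup G} {i0 : Fin N} {q : G ⧸ H0} {f : G → Qk k p M} {g : G}
    {i : Fin N} (h : i = i0 ∧ (QuotientGroup.mk g : G ⧸ H0) = q) :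
    V4R_ind H0 i0 q f g i = f g := if_pos h

theorem V4R_ind_neg {H0 : Subgroup G} {i0 : Fin N} {q : G ⧸ H0} {f : G → Qk k p M} {g : G}
    {i : Fin N} (h : ¬ (i = i0 ∧ (QuotientGroup.mk g : G ⧸ H0) = q)) :
    V4R_ind H0 i0 q f g i = 0 := if_neg h

theorem V4R_ind_InR {t : G} {H : Fin N → Subgroup G} {ht : ∀ i, t ∈ H i}
    (c : ∀ i, BaseCover k p M (H i) ⟨t, ht i⟩) (i0 : Fin N) (q : G ⧸ H i0) (f : G → Qk k p M)
    (hf : ∀ g, (QuotientGroup.mk g : G ⧸ H i0) = q →
      (fun γ : H i0 => f (g * γ)) ∈ RM (c i0)) :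
    V4R_ind (H i0) i0 q f ∈ InR c := by
  intro i g
  by_cases hi : i = i0
  · subst hi
    by_cases hg : (QuotientGroup.mk g : G ⧸ H i) = q
    · have e : (fun γ : H i => V4R_ind (H i) i q f (g * (γ : G)) i) = fun γ : H i => f (g * γ) := by
        funext γ
        exact V4R_ind_pos ⟨rfl, by rw [QuotientGroup.mk_mul_of_mem g γ.2, hg]⟩
      rw [e]
      exact hf g hg
    · have e : (fun γ : H i => V4R_ind (H i) i q f (g * (γ : G)) i) = (0 : H i → Qk k p M) := by
        funext γ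
        exact V4R_ind_neg (fun h => hg (by rw [← h.2, QuotientGroup.mk_mul_of_mem g γ.2]))
      rw [e]
      exact (RM (c i)).zero_mem
  · have e : (fun γ : H i => V4R_ind (H i0) i0 q f (g * (γ : G)) i) = (0 : H i → Qk k p M) := by
      funext γ
      exact V4R_ind_neg (fun h => hi h.1)
    rw [e]
    exact (RM (c i)).zero_mem

open Classical in
/-- extension of a function on `H0` to the coset `s H0` -/
noncomputable def V4R_ext (H0 : Subgroup G) (s : G) (a : H0 → Qk k p M) : G → Qk k p M :=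
  fun g => if h : s⁻¹ * g ∈ H0 then a ⟨s⁻¹ * g, h⟩ else 0

theorem V4R_mem {H0 : Subgroup G} {q : G ⧸ H0} {g : G}
    (hg : (QuotientGroup.mk g : G ⧸ H0) = q) : q.out⁻¹ * g ∈ H0 := by
  refine QuotientGroup.eq.1 ?_
  rw [QuotientGroup.out_eq', hg]

theorem V4R_ext_eq {H0 : Subgroup G} {q : G ⧸ H0} {g : G} (a : H0 → Qk k p M)
    (hg : (QuotientGroup.mk g : G ⧸ H0) = q) :
    V4R_ext H0 q.out a g = a ⟨q.out⁻¹ * g, V4R_mem hg⟩ := by
  unfold V4R_ext
  rw [dif_pos (V4R_mem hg)]

theorem V4R_ext_EqG (hD1b : D1b) {t : G} {H : Fin N → Subgroup G} {ht : ∀ i, t ∈ H i}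
    (c : ∀ i, BaseCover k p M (H i) ⟨t, ht i⟩) (i0 : Fin N) (q : G ⧸ H i0)
    (a : H i0 → Qk k p M) (ha : a ∈ RM (c i0)) :
    V4R_ind (H i0) i0 q (V4R_ext (H i0) q.out a) ∈ EqG k p M N t ⊓ InR c := by
  obtain ⟨h1, h2⟩ := hD1b k p M (H i0) ⟨t, ht i0⟩ (c i0) a ha
  refine ⟨V4R_ind_EqG (H i0) (ht i0) i0 q _ fun g hg => ?_, V4R_ind_InR c i0 q _ fun g hg => ?_⟩
  · have hg' : (QuotientGroup.mk (g * t) : G ⧸ H i0) = q := by
      rw [QuotientGroup.mk_mul_of_mem g (ht i0), hg]
    rw [V4R_ext_eq a hg, V4R_ext_eq a hg', ← h1 ⟨q.out⁻¹ * g, V4R_mem hg⟩]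
    congr 2
    apply Subtype.ext
    show q.out⁻¹ * (g * t) = q.out⁻¹ * g * t
    rw [mul_assoc]
  · have h3 := h2 ⟨q.out⁻¹ * g, V4R_mem hg⟩
    have e : (fun γ : H i0 => V4R_ext (H i0) q.out a (g * (γ : G))) =
        fun γ : H i0 => a (⟨q.out⁻¹ * g, V4R_mem hg⟩ * γ) := by
      funext γ
      have hg' : (QuotientGroup.mk (g * (γ : G)) : G ⧸ H i0) = q := by
        rw [QuotientGroup.mk_mul_of_mem g γ.2, hg]
      rw [V4R_ext_eq a hg']
      congr 1
      apply Subtype.ext
      show q.out⁻¹ * (g * (γ : G)) = q.out⁻¹ * g * γ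
      rw [mul_assoc]
    rw [e]
    exact h3

end

theorem prf_V4R (hD5 : D5) (hD1b : D1b) : V4R := by
  classical
  intro k _ p _ _ M N G _ _ t σ H ht c _ hσ
  -- the constant functions
  have hone : ∀ (i : Fin N) (q : G ⧸ H i), V4R_ind (H i) i q (fun _ => (1 : Qk k p M)) ∈
      EqG k p M N t ⊓ InR c := by
    intro i q
    refine ⟨V4R_ind_EqG (H i) (ht i) i q _ fun g _ => map_one _, V4R_ind_InR c i q _ fun g _ => ?_⟩
    exact (RM (c i)).one_mem
  have hσq : ∀ (i : Fin N) (q : G ⧸ H i) (g : G), (QuotientGroup.mk g : G ⧸ H i) = q →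
      (QuotientGroup.mk (σ⁻¹ * g) : G ⧸ H i) = QuotientGroup.mk (σ⁻¹ * q.out) := by
    intro i q g hg
    rw [QuotientGroup.eq]
    have h1 : (σ⁻¹ * g)⁻¹ * (σ⁻¹ * q.out) = (q.out⁻¹ * g)⁻¹ := by group
    rw [h1]
    exact (H i).inv_mem (V4R_mem hg)
  have key : ∀ (i : Fin N) (q : G ⧸ H i), ∃ (n : ℕ) (α β : Fin n → WW k p M N G),
      (∀ m, α m ∈ EqG k p M N t ⊓ InR c ∧ β m ∈ EqG k p M N t ⊓ InR c) ∧
      ∑ m, α m * (β m - tr σ (β m)) = V4R_ind (H i) i q (fun _ => (1 : Qk k p M)) := by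
    intro i q
    by_cases hq : (QuotientGroup.mk (σ⁻¹ * q.out) : G ⧸ H i) = q
    · -- the coset is fixed
      have hmem : q.out⁻¹ * (σ⁻¹ * q.out) ∈ H i := V4R_mem hq
      obtain ⟨γ0, hγ0⟩ : ∃ γ0 : H i, γ0⁻¹ = ⟨q.out⁻¹ * (σ⁻¹ * q.out), hmem⟩ := ⟨_, inv_inv _⟩
      have hne : γ0 ≠ 1 := by
        intro h
        rw [h, inv_one] at hγ0
        have h1 : (1 : G) = q.out⁻¹ * (σ⁻¹ * q.out) := congrArg Subtype.val hγ0
        apply hσ
        have h2 : σ⁻¹ * q.out = q.out := (inv_mul_eq_one.1 h1.symm).symm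
        have h3 : σ⁻¹ = 1 := mul_eq_right.1 h2
        exact inv_eq_one.1 h3
      obtain ⟨n, α, β, hαβ, hsum⟩ := hD5 k p M (H i) ⟨t, ht i⟩ (c i) γ0 hne
      refine ⟨n, fun m => V4R_ind (H i) i q (V4R_ext (H i) q.out (α m)),
        fun m => V4R_ind (H i) i q (V4R_ext (H i) q.out (β m)),
        fun m => ⟨V4R_ext_EqG hD1b c i q _ (hαβ m).1, V4R_ext_EqG hD1b c i q _ (hαβ m).2⟩, ?_⟩
      funext g i'
      rw [Finset.sum_apply, Finset.sum_apply]
      show ∑ m, V4R_ind (H i) i q (V4R_ext (H i) q.out (α m)) g i' *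
        (V4R_ind (H i) i q (V4R_ext (H i) q.out (β m)) g i' -
          V4R_ind (H i) i q (V4R_ext (H i) q.out (β m)) (σ⁻¹ * g) i') = _
      by_cases h : i' = i ∧ (QuotientGroup.mk g : G ⧸ H i) = q
      · have hg' : (QuotientGroup.mk (σ⁻¹ * g) : G ⧸ H i) = q := by rw [hσq i q g h.2, hq]
        rw [V4R_ind_pos h]
        simp_rw [V4R_ind_pos h, V4R_ind_pos (show i' = i ∧
          (QuotientGroup.mk (σ⁻¹ * g) : G ⧸ H i) = q from
          ⟨h.1, hg'⟩), V4R_ext_eq _ h.2, V4R_ext_eq _ hg']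
        have h5 := hsum ⟨q.out⁻¹ * g, V4R_mem h.2⟩
        rw [← h5]
        refine Finset.sum_congr rfl fun m _ => ?_
        congr 3
        rw [hγ0]
        apply Subtype.ext
        show q.out⁻¹ * (σ⁻¹ * g) = q.out⁻¹ * (σ⁻¹ * q.out) * (q.out⁻¹ * g)
        group
      · rw [V4R_ind_neg h]
        simp_rw [V4R_ind_neg h, zero_mul]
        exact Finset.sum_const_zero
    · refine ⟨1, fun _ => V4R_ind (H i) i q (fun _ => (1 : Qk k p M)),
        fun _ => V4R_ind (H i) i q (fun _ => (1 : Qk k p M)), fun _ => ⟨hone i q, hone i q⟩, ?_⟩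
      rw [Fin.sum_univ_one]
      funext g i'
      show V4R_ind (H i) i q (fun _ => (1 : Qk k p M)) g i' *
        (V4R_ind (H i) i q (fun _ => (1 : Qk k p M)) g i' -
          V4R_ind (H i) i q (fun _ => (1 : Qk k p M)) (σ⁻¹ * g) i') =
        V4R_ind (H i) i q (fun _ => (1 : Qk k p M)) g i'
      by_cases h : i' = i ∧ (QuotientGroup.mk g : G ⧸ H i) = q
      · have hg' : ¬ (i' = i ∧ (QuotientGroup.mk (σ⁻¹ * g) : G ⧸ H i) = q) := by
          rintro ⟨-, h'⟩
          exact hq (by rw [← hσq i q g h.2, h'])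
        rw [V4R_ind_pos h, V4R_ind_neg hg', sub_zero, mul_one]
      · rw [V4R_ind_neg h, zero_mul]
  choose n α β hm hsum using key
  have hF : ∀ i, Finite (G ⧸ H i) := fun i => inferInstance
  have : ∀ i, Fintype (G ⧸ H i) := fun i => Fintype.ofFinite _
  let ι := Σ (x : Σ i : Fin N, G ⧸ H i), Fin (n x.1 x.2)
  refine ⟨Fintype.card ι, fun m => α _ _ ((Fintype.equivFin ι).symm m).2,
    fun m => β _ _ ((Fintype.equivFin ι).symm m).2, fun m => hm _ _ _, ?_⟩
  rw [Equiv.sum_comp (Fintype.equivFin ι).symm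
    (fun x : ι => α _ _ x.2 * (β _ _ x.2 - tr σ (β _ _ x.2)))]
  rw [Fintype.sum_sigma]
  have h1 : ∀ x : Σ i : Fin N, G ⧸ H i, ∑ y : Fin (n x.1 x.2), α x.1 x.2 y *
      (β x.1 x.2 y - tr σ (β x.1 x.2 y)) = V4R_ind (H x.1) x.1 x.2 (fun _ => (1 : Qk k p M)) :=
    fun x => hsum x.1 x.2
  rw [Finset.sum_congr rfl fun x _ => h1 x, Fintype.sum_sigma]
  funext g i
  rw [Finset.sum_apply, Finset.sum_apply]
  simp_rw [Finset.sum_apply]
  rw [Finset.sum_eq_single i]
  · rw [Finset.sum_eq_single (QuotientGroup.mk g : G ⧸ H i)]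
    · rw [V4R_ind_pos ⟨rfl, rfl⟩]
      rfl
    · intro q _ hq
      rw [V4R_ind_neg (fun h => hq h.2.symm)]
    · intro h
      exact absurd (Finset.mem_univ _) h
  · intro i' _ hi'
    refine Finset.sum_eq_zero fun q _ => ?_
    rw [V4R_ind_neg (fun h => hi' h.1.symm)]
  · intro h
    exact absurd (Finset.mem_univ _) h

end MP7b0bad

end

section

set_option autoImplicit false

/-!
# V4S: certificate over `S`
-/

namespace MP7b0bad

open Polynomial

theorem V4S_natCast {R : Type} [CommRing R] {p a b : ℕ} (hp : (p : R) = 0)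
    (h : a ≡ b [MOD p]) : (a : R) = b := by
  obtain ⟨c, hc⟩ := Nat.modEq_iff_dvd.1 h
  have h1 : ((b : ℤ) - a : ℤ) = (p : ℤ) * c := hc
  have h2 := congrArg (Int.cast : ℤ → R) h1
  push_cast at h2
  rw [hp, zero_mul] at h2
  exact (sub_eq_zero.1 h2).symm

theorem V4S_ex {G : Type} [Group G] [Finite G] (t g : G) :
    ∃ j : ℕ, (QuotientGroup.mk g : G ⧸ Subgroup.zpowers t).out * t ^ j = g := by
  have h : (QuotientGroup.mk g : G ⧸ Subgroup.zpowers t).out⁻¹ * g ∈ Subgroup.zpowers t :=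
    QuotientGroup.eq.1 (QuotientGroup.out_eq' _)
  rw [← mem_powers_iff_mem_zpowers] at h
  obtain ⟨j, hj⟩ := h
  exact ⟨j, by rw [show t ^ j = _ from hj, mul_inv_cancel_left]⟩

/-- the exponent of `t` -/
noncomputable def V4S_jf {G : Type} [Group G] [Finite G] (t g : G) : ℕ :=
  Classical.choose (V4S_ex t g)

theorem V4S_spec {G : Type} [Group G] [Finite G] (t g : G) :
    (QuotientGroup.mk g : G ⧸ Subgroup.zpowers t).out * t ^ V4S_jf t g = g :=
  Classical.choose_spec (V4S_ex t g)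

theorem V4S_pow {G : Type} [Group G] [Finite G] {t g : G} {q : G ⧸ Subgroup.zpowers t}
    (hq : (QuotientGroup.mk g : G ⧸ Subgroup.zpowers t) = q) :
    t ^ V4S_jf t g = q.out⁻¹ * g := by
  have h := V4S_spec t g
  rw [hq] at h
  rw [eq_inv_mul_iff_mul_eq]
  exact h

theorem V4S_mk_t {G : Type} [Group G] (t g : G) :
    (QuotientGroup.mk (g * t) : G ⧸ Subgroup.zpowers t) = QuotientGroup.mk g :=
  QuotientGroup.mk_mul_of_mem g (Subgroup.mem_zpowers t)

theorem V4S_mk_σ {G : Type} [Group G] [Finite G] {t g σ : G} {q : G ⧸ Subgroup.zpowers t}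
    (hq : (QuotientGroup.mk g : G ⧸ Subgroup.zpowers t) = q) :
    (QuotientGroup.mk (σ⁻¹ * g) : G ⧸ Subgroup.zpowers t) =
      QuotientGroup.mk (σ⁻¹ * q.out) := by
  have h := V4S_spec t g
  rw [hq] at h
  conv_lhs => rw [← h, ← mul_assoc]
  exact QuotientGroup.mk_mul_of_mem _ (Subgroup.pow_mem _ (Subgroup.mem_zpowers t) _)

section

variable {k : Type} [Field k] {p M N : ℕ} {W : k[X]} {ξ : Fin N → Fk k}
  (D : SData k p M N W ξ) {G : Type} [Group G]

open Classical in
/-- a function supported on one coset -/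
noncomputable def V4S_ind (k : Type) [Field k] (p M N : ℕ) {G : Type} [Group G] (t : G)
    (q : G ⧸ Subgroup.zpowers t) (f : G → Qk k p M) : WW k p M N G :=
  fun g _ => if (QuotientGroup.mk g : G ⧸ Subgroup.zpowers t) = q then f g else 0

theorem V4S_ind_EqG (t : G) (q : G ⧸ Subgroup.zpowers t) (f : G → Qk k p M)
    (hf : ∀ g, (QuotientGroup.mk g : G ⧸ Subgroup.zpowers t) = q → tQ k p M (f (g * t)) = f g) :
    V4S_ind k p M N t q f ∈ EqG k p M N t := by
  intro g i
  unfold V4S_ind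
  rw [V4S_mk_t]
  split_ifs with h
  · exact hf g h
  · exact map_zero _

theorem V4S_ind_InS (t : G) (q : G ⧸ Subgroup.zpowers t) (f : G → Qk k p M)
    (hf : ∀ g, ∃ α : D.A, ∀ i, D.a i α = f g) :
    V4S_ind k p M N t q f ∈ InS D G := by
  intro g
  unfold V4S_ind
  split_ifs with h
  · exact hf g
  · exact ⟨0, fun i => map_zero _⟩

end

theorem prf_V4S (hB1 : B1) : V4S := by
  classical
  intro k _ p hpF _ M N W ξ D G _ _ t σ ht hσ
  have hchar : CharP (Fk k) p := charP_of_injective_ringHom (kF k).injective p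
  have hp0 : ((p : ℕ) : Qk k p M) = 0 := by
    have h1 : ((p : ℕ) : Fk k) = 0 := CharP.cast_eq_zero (Fk k) p
    have h2 := congrArg (oQ k p M) h1
    rw [map_natCast, map_zero] at h2
    exact h2
  have hroot : tQ k p M (asRoot p (XX k ^ M)) = asRoot p (XX k ^ M) + 1 :=
    (hB1 (Fk k) p (XX k ^ M)).1
  set ι := G ⧸ Subgroup.zpowers t with hι
  -- the constant functions
  have hnat : ∀ (q : ι) (n : ℕ), V4S_ind k p M N t q (fun _ => (n : Qk k p M)) ∈
      EqG k p M N t ⊓ InS D G := by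
    intro q n
    refine ⟨V4S_ind_EqG t q _ (fun g _ => map_natCast _ n), V4S_ind_InS D t q _ fun g =>
      ⟨(n : D.A), fun i => map_natCast _ n⟩⟩
  have key : ∀ q : ι, ∃ α β : WW k p M N G, α ∈ EqG k p M N t ⊓ InS D G ∧
      β ∈ EqG k p M N t ⊓ InS D G ∧
      α * (β - tr σ β) = V4S_ind k p M N t q (fun _ => ((1 : ℕ) : Qk k p M)) := by
    intro q
    by_cases hq : (QuotientGroup.mk (σ⁻¹ * q.out) : ι) = q
    · -- the coset is fixed
      set m : ℕ := V4S_jf t (σ⁻¹ * q.out) with hm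
      have htm : t ^ m = q.out⁻¹ * (σ⁻¹ * q.out) := V4S_pow hq
      have hm0 : ¬ p ∣ m := by
        intro hd
        rw [← ht, orderOf_dvd_iff_pow_eq_one, htm] at hd
        apply hσ
        have h1 : σ⁻¹ * q.out = q.out := by
          rw [inv_mul_eq_one] at hd
          exact hd.symm
        have h2 : σ⁻¹ = 1 := mul_eq_right.1 h1
        exact inv_eq_one.1 h2
      have hmz : (m : ZMod p) ≠ 0 := by
        rw [Ne, ZMod.natCast_eq_zero_iff]
        exact hm0
      set m' : ℕ := ((m : ZMod p)⁻¹).val with hm'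
      have hmm : m' * m ≡ 1 [MOD p] := by
        rw [← ZMod.natCast_eq_natCast_iff]
        push_cast
        rw [hm', ZMod.natCast_zmod_val, inv_mul_cancel₀ hmz]
      have hmQ : (m' : Qk k p M) * (m : Qk k p M) = 1 := by
        have h1 := V4S_natCast hp0 hmm
        push_cast at h1
        exact h1
      refine ⟨V4S_ind k p M N t q (fun _ => (m' : Qk k p M)),
        V4S_ind k p M N t q (fun g => asRoot p (XX k ^ M) - (V4S_jf t g : Qk k p M)),
        hnat q m', ⟨V4S_ind_EqG t q _ (fun g hg => ?_), V4S_ind_InS D t q _ fun g =>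
          ⟨D.y - (V4S_jf t g : D.A), fun i => by rw [map_sub, D.a_y, map_natCast]⟩⟩, ?_⟩
      · have hg' : (QuotientGroup.mk (g * t) : ι) = q := by rw [V4S_mk_t, hg]
        have h1 : t ^ V4S_jf t (g * t) = t ^ (V4S_jf t g + 1) := by
          rw [V4S_pow hg', pow_succ, V4S_pow hg, mul_assoc]
        rw [pow_eq_pow_iff_modEq, ht] at h1
        have h2 := V4S_natCast hp0 h1
        rw [map_sub, hroot, map_natCast, h2]
        push_cast
        ring
      · funext g i
        show V4S_ind k p M N t q (fun _ => (m' : Qk k p M)) g i *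
          (V4S_ind k p M N t q (fun g => asRoot p (XX k ^ M) - (V4S_jf t g : Qk k p M)) g i -
          V4S_ind k p M N t q (fun g => asRoot p (XX k ^ M) - (V4S_jf t g : Qk k p M))
            (σ⁻¹ * g) i) = V4S_ind k p M N t q (fun _ => ((1 : ℕ) : Qk k p M)) g i
        unfold V4S_ind
        by_cases hg : (QuotientGroup.mk g : ι) = q
        · have hg' : (QuotientGroup.mk (σ⁻¹ * g) : ι) = q := by rw [V4S_mk_σ hg, hq]
          rw [if_pos hg, if_pos hg, if_pos hg', if_pos hg]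
          have h1 : t ^ V4S_jf t (σ⁻¹ * g) = t ^ (m + V4S_jf t g) := by
            rw [V4S_pow hg', pow_add, V4S_pow hg, htm]
            group
          rw [pow_eq_pow_iff_modEq, ht] at h1
          have h2 := V4S_natCast hp0 h1
          show (m' : Qk k p M) * ((asRoot p (XX k ^ M) - (V4S_jf t g : Qk k p M)) -
            (asRoot p (XX k ^ M) - (V4S_jf t (σ⁻¹ * g) : Qk k p M))) = ((1 : ℕ) : Qk k p M)
          rw [h2]
          push_cast
          rw [← hmQ]
          ring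
        · rw [if_neg hg, zero_mul, if_neg hg]
    · refine ⟨V4S_ind k p M N t q (fun _ => ((1 : ℕ) : Qk k p M)),
        V4S_ind k p M N t q (fun _ => ((1 : ℕ) : Qk k p M)), hnat q 1, hnat q 1, ?_⟩
      funext g i
      show V4S_ind k p M N t q (fun _ => ((1 : ℕ) : Qk k p M)) g i *
        (V4S_ind k p M N t q (fun _ => ((1 : ℕ) : Qk k p M)) g i -
          V4S_ind k p M N t q (fun _ => ((1 : ℕ) : Qk k p M)) (σ⁻¹ * g) i) =
        V4S_ind k p M N t q (fun _ => ((1 : ℕ) : Qk k p M)) g i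
      unfold V4S_ind
      by_cases hg : (QuotientGroup.mk g : ι) = q
      · have hg' : (QuotientGroup.mk (σ⁻¹ * g) : ι) ≠ q := by rw [V4S_mk_σ hg]; exact hq
        rw [if_pos hg, if_neg hg', Nat.cast_one, sub_zero, mul_one]
      · rw [if_neg hg, zero_mul]
  choose α β hα hβ hαβ using key
  have : Fintype ι := Fintype.ofFinite ι
  refine ⟨Fintype.card ι, fun m => α ((Fintype.equivFin ι).symm m),
    fun m => β ((Fintype.equivFin ι).symm m), fun m => ⟨hα _, hβ _⟩, ?_⟩
  simp only [hαβ]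
  rw [Equiv.sum_comp (Fintype.equivFin ι).symm
    (fun q => V4S_ind k p M N t q (fun _ => ((1 : ℕ) : Qk k p M)))]
  funext g i
  rw [Finset.sum_apply, Finset.sum_apply]
  unfold V4S_ind
  rw [Finset.sum_ite_eq, if_pos (Finset.mem_univ _), Nat.cast_one]
  rfl

end MP7b0bad

end

section

set_option autoImplicit false

namespace MP7b0bad

open Polynomial

/-- constants -/
noncomputable def V5_c (k : Type) [Field k] (p M N : ℕ) (G : Type) : Fk k →+* WW k p M N G :=
  RingHom.pi fun _ => RingHom.pi fun _ => oQ k p M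

theorem V5_smul {k : Type} [Field k] {p M N : ℕ} {G : Type} (r : Fk k) (v : WW k p M N G) :
    r • v = V5_c k p M N G r * v := by
  funext g i
  exact Algebra.smul_def r (v g i)

theorem V5_tr_mul {k : Type} [Field k] {p M N : ℕ} {G : Type} [Group G] (σ : G) (r : Fk k)
    (v : WW k p M N G) : tr σ (V5_c k p M N G r * v) = V5_c k p M N G r * tr σ v := by
  funext g i
  rfl

theorem V5_tr_sum {k : Type} [Field k] {p M N : ℕ} {G : Type} [Group G] (σ : G) {n : ℕ}
    (s : Fin n → Fk k) (b : Fin n → WW k p M N G) :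
    tr σ (∑ l, V5_c k p M N G (s l) * b l) = ∑ l, V5_c k p M N G (s l) * tr σ (b l) := by
  funext g i
  simp only [tr, Finset.sum_apply, Pi.mul_apply]
  rfl

theorem V5_comb {k : Type} [Field k] {p M N : ℕ} {G : Type} [Group G] (σ : G)
    (T : Subring (Fk k)) {n : ℕ} (b : Fin n → WW k p M N G) (m : ℕ)
    (α β : Fin m → WW k p M N G)
    (hα : ∀ j, ∃ s : Fin n → Fk k, (∀ l, s l ∈ T) ∧ α j = ∑ l, s l • b l)
    (hβ : ∀ j, ∃ s : Fin n → Fk k, (∀ l, s l ∈ T) ∧ β j = ∑ l, s l • b l)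
    (h1 : ∑ j, α j * (β j - tr σ (β j)) = 1) :
    ∃ ρ : Fin n × Fin n → Fk k, (∀ q, ρ q ∈ T) ∧
      ∑ q, V5_c k p M N G (ρ q) * (b q.1 * (b q.2 - tr σ (b q.2))) = 1 := by
  simp only [V5_smul] at hα hβ
  choose s' hs' hα' using hα
  choose s hs hβ' using hβ
  refine ⟨fun q => ∑ j, s' j q.1 * s j q.2, fun q => T.sum_mem fun j _ =>
    T.mul_mem (hs' j q.1) (hs j q.2), ?_⟩
  rw [← h1]
  simp only [map_sum, Finset.sum_mul]
  rw [Finset.sum_comm]
  refine Finset.sum_congr rfl fun j _ => ?_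
  have h2 : β j - tr σ (β j) = ∑ l, V5_c k p M N G (s j l) * (b l - tr σ (b l)) := by
    rw [hβ' j, V5_tr_sum, ← Finset.sum_sub_distrib]
    refine Finset.sum_congr rfl fun l _ => ?_
    rw [mul_sub]
  rw [h2, hα' j, Finset.sum_mul_sum, Fintype.sum_prod_type]
  refine Finset.sum_congr rfl fun q _ => Finset.sum_congr rfl fun l _ => ?_
  rw [map_mul]
  ring

/-- multiplication by constants -/
theorem V5_smul_mem {k : Type} [Field k] {p M N : ℕ} {W : k[X]} {ξ : Fin N → Fk k}
    (D : SData k p M N W ξ) {G : Type} [Group G] {t : G}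
    {H : Fin N → Subgroup G} {ht : ∀ i, t ∈ H i} (c : ∀ i, BaseCover k p M (H i) ⟨t, ht i⟩)
    (r : Fk k) (hR : r ∈ Rr k) (hS : r ∈ Ss k) (v : WW k p M N G) (hv : v ∈ BB D c) :
    V5_c k p M N G r * v ∈ BB D c := by
  obtain ⟨⟨h1, h2⟩, h3⟩ := hv
  have hsm : ∀ g i, (V5_c k p M N G r * v) g i = oQ k p M r * v g i := fun g i => rfl
  refine ⟨⟨?_, ?_⟩, ?_⟩
  · rw [← V5_smul]
    exact (VG k p M N t).smul_mem r h1
  · intro g
    obtain ⟨α, hα⟩ := h2 g
    refine ⟨D.ofS ⟨r, hS⟩ * α, fun i => ?_⟩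
    rw [map_mul, D.a_ofS, hα, hsm]
  · intro i g
    have h4 : (fun γ : H i => (V5_c k p M N G r * v) (g * γ) i) =
        (fun _ => oQ k p M r) * (fun γ : H i => v (g * γ) i) := by
      funext γ
      exact hsm _ _
    rw [h4]
    exact (RM (c i)).mul_mem (Subring.subset_closure (Or.inl ⟨r, hR, rfl⟩)) (h3 i g)

theorem prf_V5 (hA8 : A8) (hLD : LD) (hTI1 : TI1) (hV3 : V3) (hV4R : V4R) (hV4S : V4S) : V5 := by
  intro k _ p _ _ M N W ξ D G _ _ t σ H ht c hD hM htp hσ
  obtain ⟨n, b, hb, hbS, hbR, hli, hbK⟩ := hV3 k p M N W ξ D G t H ht c hD hM htp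
  obtain ⟨hjinj, hjmem, -⟩ := hA8 k
  have htr : ∀ v ∈ BB D c, tr σ v ∈ BB D c := (hTI1 k p M N W ξ D G t H ht c hD).2 σ
  -- the products
  have hnn : ∀ q : Fin n × Fin n, b q.1 * (b q.2 - tr σ (b q.2)) ∈ BB D c := fun q =>
    (BB D c).mul_mem (hb q.1) ((BB D c).sub_mem (hb q.2) (htr _ (hb q.2)))
  simp only [V5_smul] at hbK hli
  choose u hu using fun q => hbK _ (hnn q)
  obtain ⟨v, hv⟩ := hbK 1 (BB D c).one_mem
  -- the coordinates of 1 from a relation over a subring
  have hcoord : ∀ ρ : Fin n × Fin n → Fk k,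
      ∑ q, V5_c k p M N G (ρ q) * (b q.1 * (b q.2 - tr σ (b q.2))) = 1 →
      ∀ h, jj k (v h) = ∑ q, ρ q * jj k (u q h) := by
    intro ρ hρ h
    have h1 : ∑ h, V5_c k p M N G (jj k (v h) - ∑ q, ρ q * jj k (u q h)) * b h = 0 := by
      simp only [map_sub, map_sum, map_mul, sub_mul, Finset.sum_sub_distrib, Finset.sum_mul]
      rw [← hv, ← hρ, Finset.sum_comm, ← Finset.sum_sub_distrib]
      refine Finset.sum_eq_zero fun q _ => ?_
      rw [hu q, Finset.mul_sum, sub_eq_zero]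
      exact Finset.sum_congr rfl fun h _ => by rw [mul_assoc]
    have h2 := congrFun (hli _ h1) h
    exact sub_eq_zero.1 h2
  obtain ⟨mR, αR, βR, hR, h1R⟩ := hV4R k p M N G t σ H ht c htp hσ
  obtain ⟨mS, αS, βS, hS, h1S⟩ := hV4S k p M N W ξ D G t σ htp hσ
  obtain ⟨ρR, hρR, hR1⟩ := V5_comb σ (Rr k) b mR αR βR (fun j => hbR _ (hR j).1)
    (fun j => hbR _ (hR j).2) h1R
  obtain ⟨ρS, hρS, hS1⟩ := V5_comb σ (Ss k) b mS αS βS (fun j => hbS _ (hS j).1)
    (fun j => hbS _ (hS j).2) h1S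
  have hcR := hcoord ρR hR1
  have hcS := hcoord ρS hS1
  let e : Fin (n * n) ≃ Fin n × Fin n := finProdFinEquiv.symm
  obtain ⟨cc, hcc⟩ := hLD k n (n * n) (fun a => u (e a)) v
    ⟨fun a => ρR (e a), fun a => hρR _, fun l => by
      rw [hcR l]
      exact (Equiv.sum_comp e (fun q => ρR q * jj k (u q l))).symm⟩
    ⟨fun a => ρS (e a), fun a => hρS _, fun l => by
      rw [hcS l]
      exact (Equiv.sum_comp e (fun q => ρS q * jj k (u q l))).symm⟩
  refine ⟨n * n, fun a => V5_c k p M N G (jj k (cc a)) * b (e a).1, fun a => b (e a).2, fun a =>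
    ⟨V5_smul_mem D c _ (hjmem _).1 (hjmem _).2 _ (hb _), hb _⟩, ?_⟩
  have h1 : ∀ a, V5_c k p M N G (jj k (cc a)) * b (e a).1 * (b (e a).2 - tr σ (b (e a).2)) =
      ∑ h, V5_c k p M N G (jj k (cc a * u (e a) h)) * b h := by
    intro a
    rw [mul_assoc, hu (e a), Finset.mul_sum]
    exact Finset.sum_congr rfl fun h _ => by rw [← mul_assoc, map_mul, map_mul]
  simp only [h1]
  rw [Finset.sum_comm]
  conv_rhs => rw [hv]
  refine Finset.sum_congr rfl fun h _ => ?_
  rw [← Finset.sum_mul, ← map_sum, ← map_sum, hcc h]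

end MP7b0bad

end

section

set_option autoImplicit false

/-! Item V6: zeros of elements of BB. -/

namespace MP7b0bad

open Polynomial

theorem prf_V6 (hD3 : D3) : V6 := by
  intro k _ p hp _ M N W ξ D G _ _ t H ht c hpM hord hsup v hv
  rintro ⟨g0, i0, h0⟩
  obtain ⟨⟨-, hS⟩, hR⟩ := hv
  have hS' : ∀ g, ∃ α : D.A, ∀ i, D.a i α = v g i := hS
  have hR' : ∀ i g, (fun γ : H i => v (g * γ) i) ∈ RM (c i) := hR
  have hcoord : ∀ g i, v g i = 0 → v g = 0 := by
    intro g i hgi
    obtain ⟨α, hα⟩ := hS' g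
    have h1 : α = 0 := by
      apply D.a_inj i
      rw [hα i, hgi, map_zero]
    funext i'
    rw [← hα i', h1, map_zero]
    rfl
  have hstep : ∀ i, ∀ x ∈ H i, ∀ g, v g = 0 → v (g * x) = 0 := by
    intro i x hx g hg
    have hord' : orderOf (⟨t, ht i⟩ : H i) = p := by
      rw [← hord]
      exact Subgroup.orderOf_mk t (ht i)
    have h1 := hD3 k p M (H i) ⟨t, ht i⟩ (c i) hpM hord' _ (hR' i g) ⟨1, by
      change v (g * ((1 : H i) : G)) i = 0
      rw [OneMemClass.coe_one, mul_one, hg]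
      rfl⟩
    exact hcoord _ i (congrFun h1 ⟨x, hx⟩)
  have hall : ∀ x : G, ∀ g, v g = 0 → v (g * x) = 0 := by
    intro x
    have hx : x ∈ ⨆ i, H i := by rw [hsup]; exact Subgroup.mem_top x
    refine Subgroup.iSup_induction H (C := fun x => ∀ g, v g = 0 → v (g * x) = 0) hx
      hstep ?_ ?_
    · intro g hg
      rwa [mul_one]
    · intro x y hx hy g hg
      rw [← mul_assoc]
      exact hy _ (hx g hg)
  funext g
  have h1 := hall (g0⁻¹ * g) g0 (hcoord g0 i0 h0)
  rw [mul_inv_cancel_left] at h1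
  rw [h1]
  rfl

end MP7b0bad

end

section

set_option autoImplicit false

namespace MP7b0bad

open Polynomial

theorem V7_KF_C (k : Type) [Field k] :
    (KF k).comp (HahnSeries.C : k →+* LaurentSeries k) = kF k := by
  ext a n m
  have h1 : ((KF k).comp (HahnSeries.C : k →+* LaurentSeries k)) a =
      (HahnSeries.C a : LaurentSeries k).map (HahnSeries.C : k →+* LaurentSeries k) := rfl
  rw [h1]
  simp only [kF, RingHom.comp_apply, HahnSeries.map_coeff, HahnSeries.C_apply,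
    HahnSeries.coeff_single]
  by_cases hn : n = 0
  · simp [hn, HahnSeries.coeff_single]
  · simp [hn]

theorem V7_oQ_inj (k : Type) [Field k] (p M : ℕ) [Fact p.Prime] :
    Function.Injective (oQ k p M) := by
  apply AdjoinRoot.of.injective_of_degree_ne_zero
  have h2 : 1 < p := (Fact.out : p.Prime).one_lt
  have h3 : (asPoly p (XX k ^ M)).natDegree = p := by
    unfold asPoly
    rw [sub_sub, natDegree_sub_eq_left_of_natDegree_lt]
    · exact natDegree_X_pow p
    · rw [natDegree_X_pow]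
      refine lt_of_le_of_lt (natDegree_add_le _ _) ?_
      rw [natDegree_X, natDegree_C]
      simpa using h2
  intro h0
  have h4 := natDegree_eq_of_degree_eq_some (n := 0) (by simpa using h0)
  omega

theorem prf_V7 (hA8 : A8) (hB2 : B2) (hC2a : C2a) (hD4 : D4) : V7 := by
  intro k _ p _ _ M N W ξ D G _ _ t H ht c hW hN hM hto v hv hinv
  have hchar : CharP (Fk k) p := charP_of_injective_ringHom (kF k).injective p
  have hconst : ∀ g, v g = v 1 := fun g => by
    have h1 := congrFun (hinv g) g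
    simpa [tr] using h1.symm
  obtain ⟨⟨hE, hS⟩, hR⟩ := hv
  have hshift : ∀ i, tQ k p M (v 1 i) = v 1 i := fun i => by
    have h1 := hE 1 i
    rw [hconst (1 * t)] at h1
    exact h1
  have hx : ∀ i, ∃ x : Fk k, oQ k p M x = v 1 i :=
    fun i => hB2 (Fk k) p (XX k ^ M) _ (hshift i)
  choose x hx using hx
  obtain ⟨α, hα⟩ := hS 1
  have hτ : D.τ α = α := by
    apply D.a_inj ⟨0, hN⟩
    rw [D.a_τ, hα, hshift]
  obtain ⟨s, hs⟩ := D.fixed α hτ
  have hxs : ∀ i, x i = ∑ j, (s j : Fk k) * ξ i ^ (j : ℕ) := by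
    intro i
    apply V7_oQ_inj k p M
    rw [hx i, ← hα i, hs, map_sum, map_sum]
    refine Finset.sum_congr rfl fun j _ => ?_
    rw [map_mul, map_mul, map_pow, map_pow, D.a_ofS, D.a_x]
  have hxR : ∀ i, x i ∈ Rr k := by
    intro i
    have hto' : orderOf (⟨t, ht i⟩ : H i) = p := by
      rw [Subgroup.orderOf_mk]; exact hto
    refine hD4 k p M (H i) _ (c i) hM hto' (x i) ?_
    have h1 := hR i 1
    have h2 : (fun γ : H i => v (1 * (γ : G)) i) = fun _ => oQ k p M (x i) := by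
      funext γ
      rw [hconst, hx i]
    rw [← h2]
    exact h1
  have hsR : ∀ j, ((s j : Fk k)) ∈ Rr k :=
    (hC2a k N W ξ hW).2 (fun j => (s j : Fk k)) (fun i => by rw [← hxs i]; exact hxR i)
  have hg : ∀ j, ∃ g, jj k g = (s j : Fk k) := fun j => (hA8 k).2.2 _ (hsR j) (s j).2
  choose g hg using hg
  refine ⟨∑ j : Fin N, (g j).comp (W.map (HahnSeries.C : k →+* LaurentSeries k)) * X ^ (j : ℕ), ?_⟩
  funext g' i
  rw [hconst, ← hx i, hxs i]
  congr 1
  rw [eval₂_finsetSum]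
  refine Finset.sum_congr rfl fun j _ => ?_
  rw [eval₂_mul, eval₂_comp, eval₂_pow, eval₂_X, eval₂_map, V7_KF_C, hW.root i, ← hg j]
  rfl

end MP7b0bad

end
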