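import Pool.Agent.Work.MP_7b0bad_ag.Bd.B01
import Pool.Agent.Work.MP_7b0bad_ag.Bd.B04
import Pool.Agent.Work.MP_7b0bad_ag.Bd.B03
import Pool.Agent.Work.MP_7b0bad_ag.Bd.B02

/-! Bundle of small proof modules (one section per former module). -/

section

set_option autoImplicit false

/-!
MP_7b0bad_ag, item A5 (helper67): truncation of invertible matrices.
-/

namespace MP7b0bad

theorem A5_lower {L : Type} [Field L] (a : LaurentSeries L) :
    ∃ N : ℤ, ∀ n : ℤ, n < N → a.coeff n = 0 := by
  by_cases ha : a = 0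
  · exact ⟨0, fun n _ => by rw [ha, HahnSeries.coeff_zero]⟩
  · exact ⟨a.order, fun n hn => HahnSeries.coeff_eq_zero_of_lt_order hn⟩

theorem A5_lower_mat {L : Type} [Field L] {r : ℕ}
    (a : Matrix (Fin r) (Fin r) (LaurentSeries L)) :
    ∃ c0 : ℕ, ∀ (i j : Fin r) (n : ℤ), n < -(c0 : ℤ) → (a i j).coeff n = 0 := by
  choose N hN using fun (i j : Fin r) => A5_lower (a i j)
  refine ⟨∑ i, ∑ j, (N i j).natAbs, fun i j n hn => hN i j n ?_⟩
  have h1 : (N i j).natAbs ≤ ∑ j, (N i j).natAbs :=
    Finset.single_le_sum (f := fun j => (N i j).natAbs) (fun _ _ => Nat.zero_le _)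
      (Finset.mem_univ j)
  have h2 : ∑ j, (N i j).natAbs ≤ ∑ i, ∑ j, (N i j).natAbs :=
    Finset.single_le_sum (f := fun i => ∑ j, (N i j).natAbs) (fun _ _ => Nat.zero_le _)
      (Finset.mem_univ i)
  omega

/-- finitely many Laurent series have a common pole bound -/
theorem A5_bound {k : Type} [Field k] (a : Fk k) (A B : ℤ)
    (hA : ∀ n : ℤ, n < A → a.coeff n = 0) (hB : ∀ n : ℤ, B ≤ n → a.coeff n = 0) :
    ∃ e : ℕ, ∀ (n m : ℤ), m < -(e : ℤ) → (a.coeff n).coeff m = 0 := by
  choose N hN using fun (n : ℤ) => A5_lower (a.coeff n)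
  refine ⟨∑ n ∈ Finset.Ico A B, (N n).natAbs, fun n m hm => ?_⟩
  by_cases h1 : n < A
  · rw [hA n h1, HahnSeries.coeff_zero]
  · by_cases h2 : B ≤ n
    · rw [hB n h2, HahnSeries.coeff_zero]
    · have h3 : (N n).natAbs ≤ ∑ n ∈ Finset.Ico A B, (N n).natAbs :=
        Finset.single_le_sum (f := fun n => (N n).natAbs) (fun _ _ => Nat.zero_le _)
          (Finset.mem_Ico.2 ⟨not_lt.1 h1, not_le.1 h2⟩)
      refine hN n m ?_
      omega

theorem A5_Ww {k : Type} [Field k] (e : ℕ) (a : Fk k) (n m : ℤ) :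
    ((Ww k ^ e * a).coeff n).coeff m = (a.coeff n).coeff (m - e) := by
  rw [Ww, ← map_pow, HahnSeries.C_mul_eq_smul, HahnSeries.coeff_smul, smul_eq_mul,
    HahnSeries.single_pow, one_pow]
  have h : (e • (1 : ℤ)) = (e : ℤ) := by simp
  rw [h]
  have h2 := HahnSeries.coeff_single_mul_add (r := (1 : k)) (x := a.coeff n) (a := m - e)
    (b := (e : ℤ))
  rw [sub_add_cancel, one_mul] at h2
  exact h2

theorem prf_A5 : A5 := by
  intro k _ r g g' hg
  have hg' : g' * g = 1 := mul_eq_one_comm.1 hg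
  obtain ⟨c0, hc0⟩ := A5_lower_mat (L := LaurentSeries k) g'
  obtain ⟨a0, ha0⟩ := A5_lower_mat (L := LaurentSeries k) g
  set h : Matrix (Fin r) (Fin r) (Fk k) :=
    Matrix.of fun i j => HahnSeries.truncLT ((c0 : ℤ) + 1) (g i j) with hh
  set v : Matrix (Fin r) (Fin r) (Fk k) := (g - h) * g' with hv
  have hgh : ∀ (i j : Fin r) (n : ℤ), n < (c0 : ℤ) + 1 → ((g - h) i j).coeff n = 0 := by
    intro i j n hn
    rw [Matrix.sub_apply, HahnSeries.coeff_sub, hh, Matrix.of_apply,
      HahnSeries.coeff_truncLT_of_lt hn, sub_self]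
  have hvc : ∀ (i j : Fin r) (n : ℤ), n < 1 → (v i j).coeff n = 0 := by
    intro i j n hn
    rw [hv, Matrix.mul_apply, HahnSeries.coeff_sum]
    refine Finset.sum_eq_zero fun l _ => ?_
    exact mul_coeff_neg (k := LaurentSeries k) _ _ ((c0 : ℤ) + 1) (-(c0 : ℤ))
      (fun m hm => hgh i l m hm) (fun m hm => hc0 l j m hm) n (by omega)
  have hhv : h = (1 - v) * g := by
    rw [hv, sub_mul, one_mul, Matrix.mul_assoc, hg', Matrix.mul_one, sub_sub_cancel]
  have hvn : ∀ (i j : Fin r) (n : ℤ), n < 0 → ((1 - v) i j).coeff n = 0 := by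
    intro i j n hn
    rw [Matrix.sub_apply, HahnSeries.coeff_sub, hvc i j n (by omega), sub_zero, Matrix.one_apply]
    split_ifs
    · rw [HahnSeries.coeff_one, if_neg (by omega)]
    · rw [HahnSeries.coeff_zero]
  have hU := A4_Phi_surj (1 - v) hvn
  set U : PowerSeries (Matrix (Fin r) (Fin r) (LaurentSeries k)) :=
    PowerSeries.mk fun n => Matrix.of fun i j => ((1 - v) i j).coeff (n : ℤ) with hUdef
  have hU0 : PowerSeries.coeff 0 U = 1 := by
    rw [hUdef, PowerSeries.coeff_mk]
    ext1 i j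
    rw [Matrix.of_apply, Matrix.sub_apply, Nat.cast_zero, HahnSeries.coeff_sub,
      hvc i j 0 (by norm_num), sub_zero, Matrix.one_apply, Matrix.one_apply]
    split_ifs
    · rw [HahnSeries.coeff_one, if_pos rfl]
    · rw [HahnSeries.coeff_zero]
  set V : PowerSeries (Matrix (Fin r) (Fin r) (LaurentSeries k)) :=
    PowerSeries.invOfUnit U 1 with hV
  have hUV : (1 - v) * A4_Phi V = 1 := by
    rw [hU, ← A4_Phi_mul, A4_inv U hU0, A4_Phi_one]
  have hVU : A4_Phi V * (1 - v) = 1 := mul_eq_one_comm.1 hUV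
  have hdet : h.det ≠ 0 := by
    rw [hhv, Matrix.det_mul]
    have h1 : (1 - v).det * (A4_Phi V).det = 1 := by rw [← Matrix.det_mul, hUV, Matrix.det_one]
    have h2 : g.det * g'.det = 1 := by rw [← Matrix.det_mul, hg, Matrix.det_one]
    exact mul_ne_zero (left_ne_zero_of_mul_eq_one h1) (left_ne_zero_of_mul_eq_one h2)
  have hpole : ∀ i j : Fin r, ∃ e : ℕ, ∀ (n m : ℤ), m < -(e : ℤ) → ((h i j).coeff n).coeff m = 0 := by
    intro i j
    refine A5_bound (h i j) (-(a0 : ℤ)) ((c0 : ℤ) + 1) ?_ ?_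
    · intro n hn
      rw [hh, Matrix.of_apply, HahnSeries.coeff_truncLT]
      split_ifs
      · exact ha0 i j n hn
      · rfl
    · intro n hn
      rw [hh, Matrix.of_apply, HahnSeries.coeff_truncLT_of_le hn]
  choose e he using hpole
  refine ⟨A4_Phi V, h, ∑ i, ∑ j, e i j, ?_, ?_, ?_, hdet⟩
  · intro i j n hn
    rw [HahnSeries.coeff_sub, A4_Phi_coeff, Matrix.one_apply]
    rcases lt_or_eq_of_le hn with hn | hn
    · rw [if_pos hn]
      split_ifs
      · rw [HahnSeries.coeff_one, if_neg (by omega), sub_zero]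
      · rw [HahnSeries.coeff_zero, sub_zero]
    · subst hn
      have hV0 : PowerSeries.coeff 0 V = 1 := by
        rw [hV, PowerSeries.coeff_zero_eq_constantCoeff_apply, PowerSeries.constantCoeff_invOfUnit,
          inv_one, Units.val_one]
      rw [if_neg (lt_irrefl _), Int.natAbs_zero, hV0, Matrix.one_apply]
      split_ifs
      · rw [HahnSeries.coeff_one, if_pos rfl, sub_self]
      · rw [HahnSeries.coeff_zero, sub_zero]
  · rw [hhv, ← Matrix.mul_assoc, hVU, Matrix.one_mul]
  · intro i j n m hm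
    rw [Matrix.smul_apply, smul_eq_mul, A5_Ww]
    refine he i j n _ ?_
    have h1 : e i j ≤ ∑ j, e i j :=
      Finset.single_le_sum (f := fun j => e i j) (fun _ _ => Nat.zero_le _)
        (Finset.mem_univ j)
    have h2 : ∑ j, e i j ≤ ∑ i, ∑ j, e i j :=
      Finset.single_le_sum (f := fun i => ∑ j, e i j) (fun _ _ => Nat.zero_le _)
        (Finset.mem_univ i)
    omega

end MP7b0bad

end

section

set_option autoImplicit false

namespace MP7b0bad

open Polynomial

theorem E2g_aux (G : Type) [Group G] (B : Type) [CommRing B] [MulSemiringAction G B]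
    (S : Finset G) :
    (∀ σ ∈ S, Ideal.span {x : B | ∃ b : B, x = b - σ • b} = ⊤) → E2_good G B S := by
  classical
  induction S using Finset.induction_on with
  | empty =>
    intro _
    refine ⟨Unit, inferInstance, fun _ => 1, fun _ => 1, by simp, ?_⟩
    intro τ hτ
    simp at hτ
  | insert σ S hσ ih =>
    intro hS
    rw [Finset.insert_eq]
    exact E2_union G B _ _ (E2_one G B σ (hS σ (Finset.mem_insert_self σ S)))
      (ih fun τ hτ => hS τ (Finset.mem_insert_of_mem hτ))

theorem prf_E2g : E2g := by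
  classical
  intro G _ B _ _ S hS h
  obtain ⟨ι, _, x, y, h1, h2⟩ := E2g_aux G B hS.toFinset (fun σ hσ => h σ (hS.mem_toFinset.1 hσ))
  let e := Fintype.equivFin ι
  refine ⟨Fintype.card ι, fun m => x (e.symm m), fun m => y (e.symm m), fun σ hσ => ?_, ?_⟩
  · rw [Equiv.sum_comp e.symm (fun m => x m * (σ • y m))]
    exact h2 σ (hS.mem_toFinset.2 hσ)
  · rw [Equiv.sum_comp e.symm (fun m => x m * y m)]
    exact h1

end MP7b0bad

end

section

set_option autoImplicit false

namespace MP7b0bad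

open Polynomial

theorem E5_coeff (hE3 : E3) (K : Type) [Field K] (p : ℕ) [Fact p.Prime] [CharP K p] (f : K[X])
    (G : Type) (e : ℤ) (a : G → AS p (atInf K f)) (ha : ∀ g, Bd p f e (a g)) (s : Finset G) :
    ∀ k : ℕ, Bd p f (((s.card : ℤ) - k) * e) ((∏ g ∈ s, (X - C (a g))).coeff k) := by
  classical
  obtain ⟨-, hadd, hneg, hmul, -, hof⟩ := hE3 K p f
  have hzero : ∀ m : ℤ, Bd p f m 0 := fun m => E3_zero m
  induction s using Finset.induction_on with
  | empty =>
    intro k
    rw [Finset.prod_empty, coeff_one]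
    split_ifs with hk
    · rw [hk, Finset.card_empty]
      have h1 := (hof 0 1).2 (fun n hn => by
        rw [HahnSeries.coeff_one, if_neg hn.ne])
      rw [map_one] at h1
      simpa using h1
    · exact hzero _
  | insert g s hg ih =>
    intro k
    have hcf : ((X - C (a g)) * ∏ x ∈ s, (X - C (a x))).coeff k =
        (X * ∏ x ∈ s, (X - C (a x))).coeff k + -(a g * (∏ x ∈ s, (X - C (a x))).coeff k) := by
      rw [sub_mul, coeff_sub, coeff_C_mul, sub_eq_add_neg]
    rw [Finset.prod_insert hg, Finset.card_insert_of_notMem hg, hcf]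
    have h2 : Bd p f (((s.card + 1 : ℕ) : ℤ) * e - (k : ℤ) * e)
        (-(a g * (∏ g ∈ s, (X - C (a g))).coeff k)) := by
      refine hneg _ _ ?_
      have h3 := hmul _ _ _ _ (ha g) (ih k)
      have h4 : e + ((s.card : ℤ) - k) * e = ((s.card + 1 : ℕ) : ℤ) * e - (k : ℤ) * e := by
        push_cast
        ring
      rwa [h4] at h3
    rw [sub_mul]
    refine hadd _ _ _ ?_ h2
    cases k with
    | zero =>
      rw [coeff_X_mul_zero]
      exact hzero _
    | succ k =>
      rw [coeff_X_mul]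
      have h4 : ((s.card : ℤ) - k) * e = ((s.card + 1 : ℕ) : ℤ) * e - ((k + 1 : ℕ) : ℤ) * e := by
        push_cast
        ring
      rw [← h4]
      exact ih k

theorem prf_E5 (hE3 : E3) : E5 := by
  classical
  intro K _ p _ _ G _ _ f B _ _ _ ι hcomm hinv halg j d hj
  have hfin := Fintype.ofFinite G
  have hcard : 0 < Fintype.card G := Fintype.card_pos
  set n := Fintype.card G with hn
  set P : B[X] := MulSemiringAction.charpoly G j with hP
  -- coefficients
  choose c hc using fun i : ℕ => hinv (P.coeff i)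
    (fun g => MulSemiringAction.smul_coeff_charpoly j i g)
  have hmap : P.map ι = ∏ g : G, (X - C (ι (g • j))) := by
    rw [hP, MulSemiringAction.charpoly_eq, Polynomial.map_prod]
    refine Finset.prod_congr rfl fun g _ => ?_
    rw [Polynomial.map_sub, map_X, map_C]
  have hBd : ∀ i : ℕ, Bd p f (((n : ℤ) - i) * (1 - d)) (AdjoinRoot.of _ (atInf K (c i))) := by
    intro i
    have h1 := E5_coeff hE3 K p f G (1 - d) (fun g => ι (g • j)) hj Finset.univ i
    rw [← hmap, coeff_map, ← hc i, halg] at h1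
    rwa [Finset.card_univ] at h1
  have hcoef : ∀ i q : ℕ, -(q : ℤ) < ((n : ℤ) - i) * (1 - d) → (c i).coeff q = 0 := by
    intro i q hq
    have h1 := ((hE3 K p f).2.2.2.2.2 _ _).1 (hBd i) (-(q : ℤ)) hq
    rw [E3_atInf_coeff, if_pos (by omega)] at h1
    simpa using h1
  by_cases hB : Nontrivial B
  · have hdeg : P.natDegree = n := by
      rw [hP, MulSemiringAction.charpoly_eq, natDegree_prod_of_monic]
      · simp [hn]
      · intro g _
        exact monic_X_sub_C _
    have heval : P.eval j = 0 := MulSemiringAction.eval_charpoly G j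
    have hmon : P.Monic := MulSemiringAction.monic_charpoly G j
    refine ⟨n, fun i => c (n - 1 - i), hcard, fun i => ?_, ?_⟩
    · rw [degree_lt_iff_coeff_zero]
      intro q hq
      apply hcoef
      have hi := i.2
      have h2 : ((n : ℤ) - ((n - 1 - (i : ℕ) : ℕ) : ℤ)) = (i : ℤ) + 1 := by omega
      rw [h2]
      have h3 : (((i : ℕ) : ℤ) + 1) * d ≤ q := by exact_mod_cast hq
      have h4 : (((i : ℕ) : ℤ) + 1) * (1 - (d : ℤ)) = ((i : ℕ) : ℤ) + 1 - (((i : ℕ) : ℤ) + 1) * d := by
        ring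
      rw [h4]
      omega
    · rw [eval_eq_sum_range, hdeg, Finset.sum_range_succ] at heval
      have h5 : P.coeff n = 1 := by
        rw [← hdeg]
        exact hmon.coeff_natDegree
      rw [h5, one_mul, add_comm] at heval
      rw [← heval]
      congr 1
      rw [← Finset.sum_range_reflect, Finset.sum_range]
      refine Finset.sum_congr rfl fun i _ => ?_
      rw [hc]
  · rw [not_nontrivial_iff_subsingleton] at hB
    refine ⟨1, fun _ => 0, one_pos, fun i => ?_, Subsingleton.elim _ _⟩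
    rw [degree_zero]
    exact WithBot.bot_lt_coe _

end MP7b0bad

end

section

set_option autoImplicit false

namespace MP7b0bad

open Polynomial

theorem prf_F5 (_hF3 : F3) : F5 := by
  intro k _ L _ _ A hA B _ _ ι hι d j hj
  have hX := F3_X hA
  have hX0 : A.valuation (algebraMap (RatFunc k) L RatFunc.X) ≠ 0 := (zero_lt_one.trans hX).ne'
  obtain ⟨n, c, hn, hc, h⟩ := hj
  rw [A.mem_nonunits_iff, map_pow, map_div₀, map_pow]
  set v := A.valuation with hv
  set x : L := algebraMap (RatFunc k) L RatFunc.X with hx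
  by_contra hcon
  rw [not_lt, one_le_div₀ (zero_lt_iff.2 (pow_ne_zero _ hX0))] at hcon
  have hj0 : v (ι j) ≠ 0 := fun h0 => by
    rw [h0] at hcon
    exact pow_ne_zero _ hX0 (le_zero_iff.1 hcon)
  have h1 : ι j ^ n = - ∑ i : Fin n, ι (algebraMap k[X] B (c i)) * ι j ^ (n - 1 - (i : ℕ)) := by
    have h2 := congrArg ι h
    rw [map_add, map_pow, map_sum, map_zero] at h2
    rw [eq_neg_iff_add_eq_zero]
    convert h2 using 2
    refine Finset.sum_congr rfl fun i _ => ?_
    rw [map_mul, map_pow]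
  have h3 : v (ι j ^ n) < v (ι j) ^ n := by
    rw [h1, Valuation.map_neg]
    refine Valuation.map_sum_lt _ (pow_ne_zero _ hj0) fun i _ => ?_
    rw [map_mul, map_pow, hι]
    have h4 := F3_lt hA _ _ (hc i)
    have h5 : v (algebraMap (RatFunc k) L RatFunc.X) ^ (((i : ℕ) + 1) * d) ≤
        v (ι j) ^ ((i : ℕ) + 1) := by
      rw [mul_comm, pow_mul]
      exact pow_le_pow_left' hcon _
    have h6 : (n - 1 - (i : ℕ)) + ((i : ℕ) + 1) = n := by
      have := i.isLt
      omega
    calc _ < v (ι j) ^ ((i : ℕ) + 1) * v (ι j) ^ (n - 1 - (i : ℕ)) := by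
            refine mul_lt_mul_of_pos_right (h4.trans_le h5) ?_
            exact zero_lt_iff.2 (pow_ne_zero _ hj0)
      _ = v (ι j) ^ n := by
        rw [← pow_add]
        congr 1
        omega
  rw [map_pow] at h3
  exact lt_irrefl _ h3

end MP7b0bad

end

section

set_option autoImplicit false

namespace MP7b0bad

open Polynomial

/-- integral rational functions are constant modulo the maximal ideal -/
theorem F6_const {k : Type} [Field k] {L : Type} [Field L] [Algebra (RatFunc k) L]
    {A : ValuationSubring L} (hA : AtInfty (k := k) A) (r : RatFunc k)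
    (hr : A.valuation (algebraMap (RatFunc k) L r) ≤ 1) :
    ∃ c : k, A.valuation (algebraMap (RatFunc k) L (r - algebraMap k (RatFunc k) c)) < 1 := by
  have hX := F3_X hA
  have hX0 : A.valuation (algebraMap (RatFunc k) L RatFunc.X) ≠ 0 := (zero_lt_one.trans hX).ne'
  by_cases h0 : r = 0
  · exact ⟨0, by rw [h0, map_zero, sub_self, map_zero, map_zero]; exact zero_lt_one⟩
  rw [F3_val hA r h0, zpow_le_one_iff_right₀ hX] at hr
  rcases hr.lt_or_eq with h | h
  · refine ⟨0, ?_⟩
    rw [map_zero, sub_zero, F3_val hA r h0, zpow_lt_one_iff_right₀ hX]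
    exact h
  · have hnd : r.num.natDegree = r.denom.natDegree := by
      rw [RatFunc.intDegree] at h
      omega
    have hn0 := RatFunc.num_ne_zero h0
    have hd0 := RatFunc.denom_ne_zero r
    refine ⟨r.num.leadingCoeff, ?_⟩
    have h1 : r - algebraMap k (RatFunc k) r.num.leadingCoeff =
        algebraMap k[X] (RatFunc k) (r.num - C r.num.leadingCoeff * r.denom) /
          algebraMap k[X] (RatFunc k) r.denom := by
      have hd1 : algebraMap k[X] (RatFunc k) r.denom ≠ 0 :=
        RatFunc.algebraMap_ne_zero hd0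
      rw [eq_div_iff hd1, map_sub, map_mul, sub_mul]
      have h2 : (algebraMap k[X] (RatFunc k)) (C r.num.leadingCoeff) =
          algebraMap k (RatFunc k) r.num.leadingCoeff := by
        rw [RatFunc.algebraMap_C]
        rfl
      rw [h2]
      congr 1
      exact (eq_div_iff hd1).1 (RatFunc.num_div_denom r).symm
    rw [h1, map_div₀, map_div₀, F3_poly hA _ hd0,
      div_lt_one₀ (zero_lt_iff.2 (pow_ne_zero _ hX0))]
    refine F3_lt hA _ _ ?_
    rw [← hnd, ← degree_eq_natDegree hn0]
    refine degree_sub_lt_left ?_ hn0 ?_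
    · rw [degree_C_mul (leadingCoeff_ne_zero.2 hn0), degree_eq_natDegree hn0,
        degree_eq_natDegree hd0, hnd]
    · rw [leadingCoeff_mul, leadingCoeff_C, (RatFunc.monic_denom r).leadingCoeff, mul_one]

theorem prf_F6 (_hF3 : F3) : F6 := by
  intro k _ _ L _ _ _ A hA b hb
  have hbv : A.valuation b ≤ 1 := (A.valuation_le_one_iff _).2 hb
  have hX := F3_X hA
  set i : k →+* L := (algebraMap (RatFunc k) L).comp (algebraMap k (RatFunc k)) with hi
  set P := minpoly (RatFunc k) b with hP
  have hP0 : P ≠ 0 := minpoly.ne_zero (Algebra.IsIntegral.isIntegral b)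
  have hPb : aeval b P = 0 := minpoly.aeval _ _
  -- the coefficient of largest value
  obtain ⟨m, hm, hmax⟩ := P.support.exists_max_image
    (fun j => A.valuation (algebraMap (RatFunc k) L (P.coeff j))) (support_nonempty.2 hP0)
  have hm0 : P.coeff m ≠ 0 := mem_support_iff.1 hm
  have hle : ∀ j, A.valuation (algebraMap (RatFunc k) L (P.coeff j / P.coeff m)) ≤ 1 := by
    intro j
    rw [map_div₀, map_div₀]
    have hpos : 0 < A.valuation (algebraMap (RatFunc k) L (P.coeff m)) := by
      rw [zero_lt_iff, Ne, map_eq_zero, map_eq_zero]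
      exact hm0
    rw [div_le_one₀ hpos]
    by_cases hj : j ∈ P.support
    · exact hmax j hj
    · rw [notMem_support_iff.1 hj, map_zero, map_zero]
      exact zero_le
  choose c hc using fun j => F6_const hA _ (hle j)
  have hcm : c m ≠ 0 := by
    intro h0
    have h1 := hc m
    rw [h0, map_zero, sub_zero, div_self hm0, map_one, map_one] at h1
    exact lt_irrefl _ h1
  set N := P.natDegree + 1 with hN
  set Q : k[X] := ∑ j ∈ Finset.range N, monomial j (c j) with hQ
  have hmN : m ∈ Finset.range N := by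
    rw [Finset.mem_range, hN]
    have := le_natDegree_of_ne_zero hm0
    omega
  have hQ0 : Q ≠ 0 := by
    intro h0
    have h1 : Q.coeff m = c m := by
      rw [hQ, finsetSum_coeff, Finset.sum_eq_single m]
      · rw [coeff_monomial_same]
      · intro j _ hj
        exact coeff_monomial_of_ne _ hj.symm
      · intro h
        exact absurd hmN h
    rw [h0, coeff_zero] at h1
    exact hcm h1.symm
  have hQb : A.valuation (eval₂ i b Q) < 1 := by
    have h1 : eval₂ i b Q = ∑ j ∈ Finset.range N,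
        -(algebraMap (RatFunc k) L (P.coeff j / P.coeff m - algebraMap k (RatFunc k) (c j)) *
          b ^ j) := by
      have h2 : ∑ j ∈ Finset.range N, algebraMap (RatFunc k) L (P.coeff j / P.coeff m) * b ^ j = 0 := by
        rw [aeval_eq_sum_range] at hPb
        have h3 : ∀ j ∈ Finset.range N, algebraMap (RatFunc k) L (P.coeff j / P.coeff m) * b ^ j =
            (algebraMap (RatFunc k) L (P.coeff m))⁻¹ * (P.coeff j • b ^ j) := by
          intro j _
          rw [Algebra.smul_def, map_div₀]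
          ring
        rw [Finset.sum_congr rfl h3, ← Finset.mul_sum, hPb, mul_zero]
      rw [hQ, eval₂_finsetSum, ← sub_zero (∑ j ∈ Finset.range N, eval₂ i b _), ← h2,
        ← Finset.sum_sub_distrib]
      refine Finset.sum_congr rfl fun j _ => ?_
      rw [eval₂_monomial, map_sub, hi, RingHom.comp_apply]
      ring
    rw [h1]
    refine Valuation.map_sum_lt _ one_ne_zero fun j _ => ?_
    rw [Valuation.map_neg, map_mul, map_pow]
    exact mul_lt_one_of_lt_of_le (hc j) (pow_le_one₀ zero_le hbv)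
  have hsplit := (IsAlgClosed.splits Q).eq_prod_roots
  rw [hsplit, eval₂_mul, eval₂_C, map_mul] at hQb
  have hlc : A.valuation (i Q.leadingCoeff) = 1 := F3_C hA _ (leadingCoeff_ne_zero.2 hQ0)
  rw [hlc, one_mul, ← coe_eval₂RingHom, map_multiset_prod, map_multiset_prod, Multiset.map_map,
    Multiset.map_map] at hQb
  by_contra hcon
  push Not at hcon
  refine absurd hQb (not_lt.2 ?_)
  refine Multiset.one_le_prod_of_one_le ?_
  intro y hy
  rw [Multiset.mem_map] at hy
  obtain ⟨e, _, rfl⟩ := hy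
  have h := hcon e
  rw [A.mem_nonunits_iff, not_lt] at h
  simpa [hi] using h

end MP7b0bad

end

section

set_option autoImplicit false

/-! Item HP1: universal property of the ring FP. -/

namespace MP7b0bad

open Polynomial

theorem prf_HP1 : HP1 := by
  intro k _ p M A _ f u hu
  have hker : ∀ a ∈ fpI k p M, MvPolynomial.eval₂Hom f u a = 0 := by
    have h : fpI k p M ≤ RingHom.ker (MvPolynomial.eval₂Hom f u) := by
      rw [fpI, Ideal.span_le]
      rintro _ ⟨c, rfl⟩
      simp only [SetLike.mem_coe, RingHom.mem_ker, map_sub, map_pow, MvPolynomial.eval₂Hom_X',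
        MvPolynomial.eval₂Hom_C]
      rw [hu c]
      ring
    exact fun a ha => h ha
  refine ⟨Ideal.Quotient.lift _ (MvPolynomial.eval₂Hom f u) hker, ⟨fun x => ?_, fun c => ?_⟩, ?_⟩
  · change MvPolynomial.eval₂Hom f u (MvPolynomial.C x) = f x
    exact MvPolynomial.eval₂Hom_C f u x
  · change MvPolynomial.eval₂Hom f u (MvPolynomial.X c) = u c
    exact MvPolynomial.eval₂Hom_X' f u c
  · rintro g ⟨h1, h2⟩
    refine Ideal.Quotient.ringHom_ext (MvPolynomial.ringHom_ext (fun x => ?_) (fun c => ?_))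
    · change g (fpC k p M x) = MvPolynomial.eval₂Hom f u (MvPolynomial.C x)
      rw [h1, MvPolynomial.eval₂Hom_C]
    · change g (fpu k p M c) = MvPolynomial.eval₂Hom f u (MvPolynomial.X c)
      rw [h2, MvPolynomial.eval₂Hom_X']

end MP7b0bad

end

section

set_option autoImplicit false

/-! Item HP2: FP is a domain. -/

namespace MP7b0bad

open Polynomial

theorem prf_HP2 (hHP1 : HP1) (hHP2a : HP2a) (hHP3a : HP3a) : HP2 := by
  intro k _ _ p hp _ M hpM
  obtain ⟨L, _, f, u, hu, hind⟩ := hHP2a k p M hpM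
  obtain ⟨g, ⟨h1, h2⟩, -⟩ := hHP1 k p M L f u hu
  have hM : 0 < M := Nat.pos_of_ne_zero (fun h => hpM (by rw [h]; exact dvd_zero p))
  have hcomp : g.comp (fpC k p M) = f := RingHom.ext h1
  have hinj : Function.Injective g := by
    rw [injective_iff_map_eq_zero]
    intro z hz
    obtain ⟨a, ha⟩ := hHP3a k p M hM z
    have h3 : g z = ∑ e, (a e).eval₂ f (u 0 ^ M) * ∏ c, u c ^ (e c : ℕ) := by
      rw [ha, map_sum]
      refine Finset.sum_congr rfl fun e _ => ?_
      rw [map_mul, hom_eval₂, hcomp, map_pow, h2, map_prod]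
      congr 1
      refine Finset.prod_congr rfl fun c _ => ?_
      rw [map_pow, h2]
    rw [hz] at h3
    have h4 := hind a h3.symm
    rw [ha, h4]
    simp
  exact hinj.isDomain g

end MP7b0bad

end

section

set_option autoImplicit false

namespace MP7b0bad

open Polynomial

/-- `M`-th roots of Laurent series with nonzero constant term -/
theorem HP2a_root (k : Type) [Field k] [IsAlgClosed k] (M : ℕ) (hM : 0 < M) (hMk : (M : k) ≠ 0)
    (c : k) (hc : c ≠ 0) :
    ∃ z : LaurentSeries k, z ^ M = HahnSeries.C c + HahnSeries.single (1 : ℤ) (1 : k) := by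
  obtain ⟨d, hd⟩ := IsAlgClosed.exists_pow_nat_eq c hM
  have hd0 : d ≠ 0 := by
    rintro rfl
    rw [zero_pow hM.ne'] at hd
    exact hc hd.symm
  set f : (PowerSeries k)[X] := X ^ M - C (PowerSeries.C c + PowerSeries.X) with hf
  have hfm : f.Monic := monic_X_pow_sub_C _ hM.ne'
  have hev : f.eval (PowerSeries.C d) = -PowerSeries.X := by
    rw [hf, eval_sub, eval_pow, eval_X, eval_C, ← map_pow, hd]
    ring
  have hder : (derivative f).eval (PowerSeries.C d) = PowerSeries.C ((M : k) * d ^ (M - 1)) := by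
    rw [hf, derivative_sub, derivative_C, sub_zero, derivative_X_pow]
    simp
  obtain ⟨x, hx1, hx2⟩ := HenselianRing.is_henselian
    (I := (Ideal.span {PowerSeries.X} : Ideal (PowerSeries k))) f hfm (PowerSeries.C d)
    (by
      rw [hev]
      exact (Ideal.neg_mem_iff _).2 (Ideal.mem_span_singleton_self _))
    (by
      rw [hder]
      exact ((IsUnit.mk0 _ (mul_ne_zero hMk (pow_ne_zero _ hd0))).map
        (PowerSeries.C : k →+* PowerSeries k)).map _)
  refine ⟨HahnSeries.ofPowerSeries ℤ k x, ?_⟩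
  have h1 : f.eval x = 0 := hx1
  rw [hf, eval_sub, eval_pow, eval_X, eval_C, sub_eq_zero] at h1
  rw [← map_pow, h1, map_add, HahnSeries.ofPowerSeries_C, HahnSeries.ofPowerSeries_X]

/-- the embedding of `k(y)` given by an expansion at a point -/
theorem HP2a_base (k : Type) [Field k] (c : k) :
    ∃ th : RatFunc k →+* LaurentSeries k, (∀ x, th (algebraMap k (RatFunc k) x) = HahnSeries.C x) ∧
      th RatFunc.X = HahnSeries.C c + HahnSeries.single (1 : ℤ) (1 : k) := by
  set φ : k[X] →+* LaurentSeries k :=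
    eval₂RingHom (HahnSeries.C : k →+* LaurentSeries k)
      (HahnSeries.C c + HahnSeries.single (1 : ℤ) (1 : k)) with hφ
  have hinj : Function.Injective φ := by
    rw [injective_iff_map_eq_zero]
    intro f hf
    have h1 : eval₂ (HahnSeries.C : k →+* LaurentSeries k) (HahnSeries.single (1 : ℤ) (1 : k))
        (f.comp (X + C c)) = 0 := by
      rw [eval₂_comp, eval₂_add, eval₂_X, eval₂_C, add_comm]
      exact hf
    have h2 : f.comp (X + C c) = 0 := by
      ext n
      have h3 := congrArg (fun s : LaurentSeries k => s.coeff (n : ℤ)) h1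
      rw [eval₂_eq_sum_range] at h3
      simp only [HahnSeries.coeff_sum, HahnSeries.coeff_zero] at h3
      have h4 : ∀ i : ℕ, (HahnSeries.C ((f.comp (X + C c)).coeff i) *
          (HahnSeries.single (1 : ℤ) (1 : k)) ^ i).coeff (n : ℤ) =
          if i = n then (f.comp (X + C c)).coeff i else 0 := by
        intro i
        rw [HahnSeries.single_pow, HahnSeries.C_apply, HahnSeries.single_mul_single,
          HahnSeries.coeff_single]
        simp [eq_comm]
      simp only [h4] at h3
      rw [Finset.sum_ite_eq'] at h3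
      rw [coeff_zero]
      by_cases hn : n ≤ (f.comp (X + C c)).natDegree
      · rw [if_pos (by simpa [Nat.lt_succ_iff] using hn)] at h3
        exact h3
      · exact coeff_eq_zero_of_natDegree_lt (not_le.1 hn)
    have h5 : (f.comp (X + C c)).comp (X - C c) = 0 := by rw [h2, zero_comp]
    rw [comp_assoc] at h5
    simpa using h5
  refine ⟨IsFractionRing.lift hinj, fun x => ?_, ?_⟩
  · rw [RatFunc.algebraMap_eq_C, ← RatFunc.algebraMap_C, IsFractionRing.lift_algebraMap, hφ]
    simp
  · rw [← RatFunc.algebraMap_X, IsFractionRing.lift_algebraMap, hφ]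
    simp

/-- the substitution `ε ↦ ε^M` -/
theorem HP2a_subst (k : Type) [Field k] (M : ℕ) (hM : 0 < M) :
    ∃ E : LaurentSeries k →+* LaurentSeries k, (∀ x, E (HahnSeries.C x) = HahnSeries.C x) ∧
      E (HahnSeries.single (1 : ℤ) (1 : k)) = (HahnSeries.single (1 : ℤ) (1 : k)) ^ M ∧
      ∀ a (m : ℤ) (j : ℕ), j < M →
        (E a).coeff ((M : ℤ) * m + j) = if j = 0 then a.coeff m else 0 := by
  have hM' : (0 : ℤ) < M := by exact_mod_cast hM
  set g : ℤ →+ ℤ := AddMonoidHom.mulLeft (M : ℤ) with hg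
  have hinj : Function.Injective g := fun a b h => by
    have h' : (M : ℤ) * a = (M : ℤ) * b := h
    exact mul_left_cancel₀ hM'.ne' h'
  have hle : ∀ a b : ℤ, g a ≤ g b ↔ a ≤ b := fun a b =>
    mul_le_mul_iff_right₀ hM'
  set E : LaurentSeries k →+* LaurentSeries k := HahnSeries.embDomainRingHom g hinj hle with hE
  have hEap : ∀ a : LaurentSeries k, E a = HahnSeries.embDomain ⟨⟨g, hinj⟩, hle _ _⟩ a :=
    fun a => rfl
  refine ⟨E, fun x => ?_, ?_, ?_⟩
  · rw [hEap, HahnSeries.C_apply, HahnSeries.embDomain_single]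
    simp [hg]
  · rw [hEap, HahnSeries.embDomain_single, HahnSeries.single_pow]
    simp [hg]
  · intro a m j hj
    rw [hEap]
    split_ifs with h
    · subst h
      have : ((M : ℤ) * m + (0 : ℕ)) = (⟨⟨g, hinj⟩, hle _ _⟩ : ℤ ↪o ℤ) m := by simp [hg]
      rw [this, HahnSeries.embDomain_coeff]
    · apply HahnSeries.embDomain_of_notMem_range
      rintro ⟨m', hm'⟩
      have h1 : (M : ℤ) * m' = M * m + j := hm'
      have h2 : (M : ℤ) ∣ (j : ℤ) := ⟨m' - m, by linarith [h1, mul_sub (M : ℤ) m' m]⟩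
      have h3 : M ∣ j := by exact_mod_cast h2
      exact h (Nat.eq_zero_of_dvd_of_lt h3 hj)


/-- extension of embeddings into Laurent series to a radical extension -/
theorem HP2a_ext (k : Type) [Field k] [IsAlgClosed k] (M : ℕ) (hM : 0 < M) (hMk : (M : k) ≠ 0)
    (L : Type) [Field L] (y : L) (g : L[X]) [Fact (Irreducible g)] (hg : g ∣ X ^ M - C y)
    (th : L →+* LaurentSeries k) (z : LaurentSeries k) (hz : z ^ M = th y) :
    ∃ th' : AdjoinRoot g →+* LaurentSeries k, (∀ x, th' (AdjoinRoot.of g x) = th x) ∧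
      ∃ ζ : k, ζ ^ M = 1 ∧ th' (AdjoinRoot.root g) = HahnSeries.C ζ * z := by
  have : NeZero (M : k) := ⟨hMk⟩
  obtain ⟨ζ, hζ⟩ := HasEnoughRootsOfUnity.exists_primitiveRoot k M
  have hζ' : IsPrimitiveRoot (HahnSeries.C ζ : LaurentSeries k) M :=
    hζ.map_of_injective (f := (HahnSeries.C : k →+* LaurentSeries k)) HahnSeries.C_injective
  have hs : (X ^ M - C (th y) : (LaurentSeries k)[X]).Splits :=
    X_pow_sub_C_splits_of_isPrimitiveRoot hζ' hz
  have hd : g.map th ∣ X ^ M - C (th y) := by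
    have h1 := Polynomial.map_dvd th hg
    simpa using h1
  have hne : (X ^ M - C (th y) : (LaurentSeries k)[X]) ≠ 0 := (monic_X_pow_sub_C _ hM.ne').ne_zero
  have hs' : (g.map th).Splits := hs.of_dvd hne hd
  have hdeg : (g.map th).degree ≠ 0 := by
    rw [degree_map]
    exact (degree_pos_of_irreducible (Fact.out : Irreducible g)).ne'
  obtain ⟨ρ, hρ⟩ := hs'.exists_eval_eq_zero hdeg
  have hρM : ρ ^ M = z ^ M := by
    obtain ⟨q, hq⟩ := hd
    have h1 := congrArg (eval ρ) hq
    rw [eval_mul, hρ, zero_mul, eval_sub, eval_pow, eval_X, eval_C, sub_eq_zero] at h1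
    rw [h1, hz]
  have hρ' : ∃ η : k, η ^ M = 1 ∧ ρ = HahnSeries.C η * z := by
    by_cases hz0 : z = 0
    · refine ⟨1, one_pow _, ?_⟩
      rw [hz0, zero_pow hM.ne'] at hρM
      rw [hz0, mul_zero]
      exact eq_zero_of_pow_eq_zero hρM
    · have h1 : (ρ / z) ^ M = 1 := by
        rw [div_pow, hρM, div_self (pow_ne_zero _ hz0)]
      have : NeZero M := ⟨hM.ne'⟩
      obtain ⟨i, hi, hi'⟩ := hζ'.eq_pow_of_pow_eq_one h1
      refine ⟨ζ ^ i, ?_, ?_⟩
      · rw [← pow_mul, mul_comm, pow_mul, hζ.pow_eq_one, one_pow]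
      · rw [map_pow, hi', div_mul_cancel₀ _ hz0]
  obtain ⟨η, hη, hρη⟩ := hρ'
  refine ⟨AdjoinRoot.lift th ρ (by rw [← eval_map]; exact hρ), fun x => AdjoinRoot.lift_of _, η, hη, ?_⟩
  rw [AdjoinRoot.lift_root, hρη]

theorem HP2a_step_b (k : Type) [Field k] (M : ℕ) (hM : 0 < M)
    (L : Type) [Field L] (g : L[X]) [Fact (Irreducible g)]
    (th : L →+* LaurentSeries k) (E : LaurentSeries k →+* LaurentSeries k)
    (hE : ∀ a (m : ℤ) (j : ℕ), j < M →
        (E a).coeff ((M : ℤ) * m + j) = if j = 0 then a.coeff m else 0)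
    (th' : AdjoinRoot g →+* LaurentSeries k) (hth : ∀ x, th' (AdjoinRoot.of g x) = E (th x))
    (ζ : k) (hζ : ζ ≠ 0)
    (hr : th' (AdjoinRoot.root g) = HahnSeries.C ζ * HahnSeries.single (1 : ℤ) (1 : k))
    (b : Fin M → L) (hb : ∑ j : Fin M, AdjoinRoot.of g (b j) * AdjoinRoot.root g ^ (j : ℕ) = 0) :
    b = 0 := by
  have h1 := congrArg th' hb
  rw [map_sum, map_zero] at h1
  have h2 : ∀ (j : Fin M), th (b j) = 0 := by
    intro j
    ext m
    have h3 := congrArg (fun s : LaurentSeries k => s.coeff ((M : ℤ) * m + (j : ℕ))) h1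
    simp only [HahnSeries.coeff_sum, HahnSeries.coeff_zero, map_mul, map_pow, hth, hr] at h3
    have h4 : ∀ i : Fin M, (E (th (b i)) * (HahnSeries.C ζ *
        HahnSeries.single (1 : ℤ) (1 : k)) ^ (i : ℕ)).coeff ((M : ℤ) * m + (j : ℕ)) =
        if i = j then ζ ^ (j : ℕ) * (th (b j)).coeff m else 0 := by
      intro i
      rw [mul_pow, HahnSeries.single_pow, ← map_pow, HahnSeries.C_apply,
        HahnSeries.single_mul_single]
      have h5 : ((M : ℤ) * m + (j : ℕ)) = ((M : ℤ) * m + ((j : ℕ) - (i : ℕ))) + (0 + (i : ℕ) • (1 : ℤ)) := by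
        simp
        ring
      rw [h5, HahnSeries.coeff_mul_single_add]
      split_ifs with hij
      · subst hij
        have h6 := hE (th (b i)) m 0 hM
        simp only [if_true, Nat.cast_zero] at h6
        simp only [sub_self]
        rw [h6]
        simp [mul_comm]
      · by_cases hlt : (i : ℕ) < (j : ℕ)
        · have h6 := hE (th (b i)) m ((j : ℕ) - (i : ℕ)) (by omega)
          rw [if_neg (by omega)] at h6
          have h7 : ((j : ℕ) : ℤ) - ((i : ℕ) : ℤ) = (((j : ℕ) - (i : ℕ) : ℕ) : ℤ) := by omega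
          rw [h7, h6, zero_mul]
        · have hne : (i : ℕ) ≠ (j : ℕ) := fun h => hij (Fin.ext h)
          have h6 := hE (th (b i)) (m - 1) (M + (j : ℕ) - (i : ℕ)) (by omega)
          rw [if_neg (by omega)] at h6
          have h7 : (M : ℤ) * m + (((j : ℕ) : ℤ) - ((i : ℕ) : ℤ)) =
              (M : ℤ) * (m - 1) + ((M + (j : ℕ) - (i : ℕ) : ℕ) : ℤ) := by
            have h8 : (((M + (j : ℕ) - (i : ℕ) : ℕ)) : ℤ) = (M : ℤ) + (j : ℕ) - (i : ℕ) := by omega
            rw [h8]
            ring
          rw [h7, h6, zero_mul]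
    simp only [h4] at h3
    rw [Finset.sum_ite_eq' Finset.univ j, if_pos (Finset.mem_univ j)] at h3
    have h5 := (mul_eq_zero.1 h3).resolve_left (pow_ne_zero _ hζ)
    simpa using h5
  funext j
  exact (map_eq_zero th).1 (h2 j)

theorem HP2a_tower (k : Type) [Field k] [IsAlgClosed k] (M : ℕ) (hM : 0 < M) (hMk : (M : k) ≠ 0)
    (n : ℕ) : ∀ c : Fin n → k, Function.Injective c →
    ∃ (L : Type) (_ : Field L) (f : k →+* L) (y : L) (u : Fin n → L),
      (∀ i, u i ^ M = y + f (c i)) ∧
      (∀ a : (Fin n → Fin M) → k[X],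
        ∑ e, (a e).eval₂ f y * ∏ i, u i ^ (e i : ℕ) = 0 → a = 0) ∧
      ∀ c' : k, (∀ i, c i ≠ c') → ∃ th : L →+* LaurentSeries k,
        (∀ x, th (f x) = HahnSeries.C x) ∧
          th y = HahnSeries.C (-c') + HahnSeries.single (1 : ℤ) (1 : k) := by
  induction n with
  | zero =>
    intro c _
    refine ⟨RatFunc k, inferInstance, algebraMap k (RatFunc k), RatFunc.X, Fin.elim0,
      fun i => i.elim0, fun a ha => ?_, fun c' _ => HP2a_base k (-c')⟩
    rw [Fintype.sum_unique] at ha
    simp only [Finset.univ_eq_empty, Finset.prod_empty, mul_one] at ha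
    have h1 : algebraMap k[X] (RatFunc k) (a default) = 0 := by
      rw [← ha, ← RatFunc.algebraMap_X]
      rw [← aeval_def, aeval_algebraMap_apply]
      simp
    have h2 : a default = 0 := (map_eq_zero_iff _ (RatFunc.algebraMap_injective k)).1 h1
    funext e
    rw [Subsingleton.elim e default, h2]
    rfl
  | succ n ih =>
    intro c hc
    obtain ⟨L, _, f, y, u, hu, hind, hth⟩ := ih (fun i => c i.succ)
      (fun i j h => Fin.succ_injective n (hc h))
    set y' : L := y + f (c 0) with hy'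
    set P : L[X] := X ^ M - C y' with hP
    have hPd : P.natDegree = M := natDegree_X_pow_sub_C
    have hPu : ¬ IsUnit P := by
      intro h
      have := natDegree_eq_zero_of_isUnit h
      omega
    have hP0 : P ≠ 0 := (monic_X_pow_sub_C _ hM.ne').ne_zero
    set g : L[X] := P.factor with hg
    have hgi : Fact (Irreducible g) := ⟨irreducible_factor P⟩
    have hgd : g ∣ X ^ M - C y' := factor_dvd_of_not_isUnit hPu
    have hroot : (AdjoinRoot.root g) ^ M = AdjoinRoot.of g y' := by
      obtain ⟨q, hq⟩ := hgd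
      have h1 := congrArg (AdjoinRoot.mk g) hq
      rw [map_mul, AdjoinRoot.mk_self, zero_mul, map_sub, map_pow, AdjoinRoot.mk_X,
        AdjoinRoot.mk_C, sub_eq_zero] at h1
      exact h1
    refine ⟨AdjoinRoot g, inferInstance, (AdjoinRoot.of g).comp f, AdjoinRoot.of g y,
      Fin.cons (AdjoinRoot.root g) (fun i => AdjoinRoot.of g (u i)), ?_, ?_, ?_⟩
    · intro i
      refine Fin.cases ?_ (fun i => ?_) i
      · rw [Fin.cons_zero, hroot, hy', map_add]
        rfl
      · rw [Fin.cons_succ, ← map_pow, hu i, map_add]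
        rfl
    · intro a ha
      obtain ⟨th, hth1, hth2⟩ := hth (c 0) (fun i h => Fin.succ_ne_zero i (hc h))
      obtain ⟨E, hE1, hE2, hE3⟩ := HP2a_subst k M hM
      have hz : (HahnSeries.single (1 : ℤ) (1 : k)) ^ M = (E.comp th) y' := by
        rw [RingHom.comp_apply, hy', map_add, hth1, hth2, map_add, map_add, hE1, hE1, hE2]
        rw [map_neg]
        ring
      obtain ⟨th', hth'1, ζ, hζ, hth'2⟩ := HP2a_ext k M hM hMk L y' g hgd (E.comp th) _ hz
      have hζ0 : ζ ≠ 0 := by
        rintro rfl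
        rw [zero_pow hM.ne'] at hζ
        exact zero_ne_one hζ
      set b : Fin M → L := fun j => ∑ e : Fin n → Fin M,
        (a (Fin.cons j e)).eval₂ f y * ∏ i, u i ^ (e i : ℕ) with hb
      have hb0 : b = 0 := by
        refine HP2a_step_b k M hM L g th E hE3 th' hth'1 ζ hζ0 hth'2 b ?_
        rw [← ha, ← (Fin.consEquiv (fun _ : Fin (n + 1) => Fin M)).sum_comp, Fintype.sum_prod_type]
        refine Finset.sum_congr rfl fun j _ => ?_
        rw [hb]
        simp only [map_sum, Finset.sum_mul]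
        refine Finset.sum_congr rfl fun e _ => ?_
        have hce : (Fin.consEquiv (fun _ : Fin (n + 1) => Fin M)) (j, e) = Fin.cons j e := rfl
        rw [hce, Fin.prod_univ_succ]
        simp only [Fin.cons_zero, Fin.cons_succ, map_mul, map_prod, map_pow]
        rw [Polynomial.hom_eval₂]
        ring
      funext e
      have h1 : ∀ j, (fun e : Fin n → Fin M => a (Fin.cons j e)) = 0 := fun j =>
        hind _ (congrFun hb0 j)
      have h2 := congrFun (h1 (e 0)) (Fin.tail e)
      simp only [Fin.cons_self_tail] at h2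
      exact h2
    · intro c' hc'
      obtain ⟨th, hth1, hth2⟩ := hth c' (fun i => hc' i.succ)
      have hne : c 0 - c' ≠ 0 := sub_ne_zero.2 (hc' 0)
      obtain ⟨z, hz⟩ := HP2a_root k M hM hMk (c 0 - c') hne
      have hz' : z ^ M = th y' := by
        rw [hz, hy', map_add, hth1, hth2, map_sub, map_neg]
        ring
      obtain ⟨th', hth'1, ζ, hζ, hth'2⟩ := HP2a_ext k M hM hMk L y' g hgd th z hz'
      exact ⟨th', fun x => by rw [RingHom.comp_apply, hth'1, hth1], by rw [hth'1, hth2]⟩

theorem prf_HP2a : HP2a := by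
  intro k _ _ p _ _ M hM
  have hM0 : 0 < M := Nat.pos_of_ne_zero fun h => hM (h ▸ dvd_zero p)
  have hMk : (M : k) ≠ 0 := fun h => hM ((CharP.cast_eq_zero_iff k p M).1 h)
  have hp : NeZero p := ⟨(Fact.out : p.Prime).ne_zero⟩
  set σ : Fin (Fintype.card (ZMod p)) ≃ ZMod p := (Fintype.equivFin (ZMod p)).symm with hσ
  have hinj : Function.Injective (fun i => (((σ i).val : ℕ) : k)) := by
    intro i j h
    have h' : (((σ i).val : ℕ) : k) = (((σ j).val : ℕ) : k) := h
    rw [CharP.natCast_eq_natCast k p] at h'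
    have h1 : (σ i).val = (σ j).val := by
      have h2 := Nat.ModEq.eq_of_lt_of_lt h' (ZMod.val_lt _) (ZMod.val_lt _)
      exact h2
    exact σ.injective (ZMod.val_injective p h1)
  obtain ⟨L, _, f, y, u, hu, hind, -⟩ := HP2a_tower k M hM0 hMk _ _ hinj
  have h0 : u (σ.symm 0) ^ M = y := by
    rw [hu]
    simp
  refine ⟨L, inferInstance, f, fun c => u (σ.symm c), fun c => ?_, fun a ha => ?_⟩
  · rw [h0, hu]
    simp
  · rw [h0] at ha
    set τ : (Fin (Fintype.card (ZMod p)) → Fin M) ≃ (ZMod p → Fin M) :=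
      Equiv.arrowCongr σ (Equiv.refl _) with hτ
    have h1 : (fun e => a (τ e)) = 0 := by
      apply hind
      rw [← ha, ← τ.sum_comp]
      refine Finset.sum_congr rfl fun e _ => ?_
      congr 1
      rw [← σ.prod_comp]
      refine Finset.prod_congr rfl fun i _ => ?_
      simp [hτ]
    funext e
    have h2 := congrFun h1 (τ.symm e)
    simpa using h2

end MP7b0bad

end

section

set_option autoImplicit false

/-!
# HP3: the Artin-Schreier equation and finiteness of `FP` over `k[X]`
-/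

namespace MP7b0bad

open Polynomial

theorem HP3_prod (p : ℕ) [Fact p.Prime] :
    ∏ c : ZMod p, ((X : (ZMod p)[X]) - C c) = X ^ p - X := by
  have hp : 1 < p := (Fact.out : p.Prime).one_lt
  have hroots : ((X : (ZMod p)[X]) ^ p - X).roots = Finset.univ.val := by
    have h := FiniteField.roots_X_pow_card_sub_X (ZMod p)
    rwa [ZMod.card] at h
  have hdeg : ((X : (ZMod p)[X]) ^ p - X).natDegree = p :=
    FiniteField.X_pow_card_sub_X_natDegree_eq _ hp
  have hmon : ((X : (ZMod p)[X]) ^ p - X).Monic := by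
    refine monic_X_pow_sub ?_
    rw [degree_X]
    exact_mod_cast hp
  have h := prod_multiset_X_sub_C_of_monic_of_roots_card_eq hmon (by
    rw [hroots, hdeg, ← Finset.card_def, Finset.card_univ, ZMod.card])
  rw [hroots] at h
  exact h

theorem HP3_prod_eval {A : Type} [CommRing A] (p : ℕ) [Fact p.Prime] (φ : ZMod p →+* A) (y : A) :
    ∏ c : ZMod p, (y + φ c) = y ^ p - y := by
  have h := congrArg (eval₂ φ y) (HP3_prod p)
  rw [eval₂_finsetProd, eval₂_sub, eval₂_pow, eval₂_X] at h
  rw [← h, ← Equiv.prod_comp (Equiv.neg (ZMod p))]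
  refine Finset.prod_congr rfl fun c _ => ?_
  rw [eval₂_sub, eval₂_X, eval₂_C, Equiv.neg_apply, map_neg, sub_eq_add_neg]

theorem HP3_rel (k : Type) [Field k] (p M : ℕ) (c : ZMod p) :
    fpu k p M c ^ M = fpu k p M 0 ^ M + fpC k p M ((c.val : ℕ) : k) := by
  have h : MvPolynomial.X c ^ M - MvPolynomial.X 0 ^ M - MvPolynomial.C ((c.val : ℕ) : k) ∈
      fpI k p M := Ideal.subset_span ⟨c, rfl⟩
  have h1 := Ideal.Quotient.eq_zero_iff_mem.mpr h
  rw [map_sub, map_sub, map_pow, map_pow] at h1
  unfold fpu fpC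
  rw [RingHom.comp_apply]
  linear_combination h1

theorem HP3_as (k : Type) [Field k] (p : ℕ) [Fact p.Prime] [CharP k p] (M : ℕ) :
    (fpu k p M 0 ^ M) ^ p - fpu k p M 0 ^ M = (∏ c : ZMod p, fpu k p M c) ^ M := by
  rw [← Finset.prod_pow, ← HP3_prod_eval p ((fpC k p M).comp (ZMod.castHom (dvd_refl p) k))]
  refine Finset.prod_congr rfl fun c _ => ?_
  rw [HP3_rel k p M c, RingHom.comp_apply, ZMod.castHom_apply, ZMod.natCast_val]

theorem HP3_red (k : Type) [Field k] (p : ℕ) [Fact p.Prime] [CharP k p] (M : ℕ) (q : k[X]) :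
    ∃ a : Fin p → k[X], q.eval₂ (fpC k p M) (fpu k p M 0 ^ M) =
      ∑ l, fpAlg k p M (a l) * (fpu k p M 0 ^ M) ^ (l : ℕ) := by
  have hp : 1 < p := (Fact.out : p.Prime).one_lt
  set y := fpu k p M 0 ^ M with hy
  set P : k[X][X] := X ^ p - (X + C (X ^ M)) with hP
  have hdX : (X + C (X ^ M) : k[X][X]).degree < (p : ℕ) := by
    rw [degree_X_add_C]
    exact_mod_cast hp
  have hPm : P.Monic := monic_X_pow_sub hdX
  have hPd : P.natDegree = p := by
    rw [hP, natDegree_sub_eq_left_of_natDegree_lt]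
    · exact natDegree_X_pow p
    · rw [natDegree_X_pow, natDegree_X_add_C]
      exact hp
  have hroot : P.eval₂ (fpAlg k p M) y = 0 := by
    have h1 : fpAlg k p M (X ^ M) = (∏ c : ZMod p, fpu k p M c) ^ M := by
      unfold fpAlg
      rw [coe_eval₂RingHom, eval₂_pow, eval₂_X]
    rw [hP, eval₂_sub, eval₂_pow, eval₂_X, eval₂_add, eval₂_X, eval₂_C, h1, ← HP3_as k p M, ← hy]
    ring
  set Q : k[X][X] := q.map (C : k →+* k[X]) with hQ
  have hQe : Q.eval₂ (fpAlg k p M) y = q.eval₂ (fpC k p M) y := by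
    rw [hQ, eval₂_map]
    congr 1
    ext x
    unfold fpAlg
    rw [RingHom.comp_apply, coe_eval₂RingHom, eval₂_C]
  have h2 := eval₂_modByMonic_eq_self_of_root (p := Q) hroot
  have hlt : (Q %ₘ P).natDegree < p := by
    have h3 := natDegree_modByMonic_lt Q hPm (by
      intro h
      rw [h, natDegree_one] at hPd
      omega)
    rwa [hPd] at h3
  refine ⟨fun l => (Q %ₘ P).coeff l, ?_⟩
  rw [← hQe, ← h2, eval₂_eq_sum_range' _ hlt, Finset.sum_range]

theorem prf_HP3 (hHP3a : HP3a) : HP3 := by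
  intro k _ p _ _ M hM
  refine ⟨HP3_as k p M, ?_⟩
  set eq := Fintype.equivFin ((ZMod p → Fin M) × Fin p) with heq
  refine ⟨_, fun i => (fpu k p M 0 ^ M) ^ ((eq.symm i).2 : ℕ) *
    ∏ c, fpu k p M c ^ ((eq.symm i).1 c : ℕ), fun z => ?_⟩
  obtain ⟨a, ha⟩ := hHP3a k p M hM z
  choose b hb using fun e => HP3_red k p M (a e)
  refine ⟨fun i => b (eq.symm i).1 (eq.symm i).2, ?_⟩
  rw [ha, Equiv.sum_comp eq.symm (fun el : (ZMod p → Fin M) × Fin p =>
    fpAlg k p M (b el.1 el.2) * ((fpu k p M 0 ^ M) ^ (el.2 : ℕ) *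
      ∏ c, fpu k p M c ^ (el.1 c : ℕ))), Fintype.sum_prod_type]
  refine Finset.sum_congr rfl fun e _ => ?_
  rw [hb e, Finset.sum_mul]
  refine Finset.sum_congr rfl fun l _ => ?_
  ring

end MP7b0bad

end

section

set_option autoImplicit false

/-! Item HP3a: generators of FP over k[y]. -/

namespace MP7b0bad

open Polynomial

theorem HP3a_rel (k : Type) [Field k] (p M : ℕ) (c : ZMod p) :
    fpu k p M c ^ M = fpu k p M 0 ^ M + fpC k p M ((c.val : ℕ) : k) := by
  have h : Ideal.Quotient.mk (fpI k p M) (MvPolynomial.X c ^ M - MvPolynomial.X 0 ^ M -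
      MvPolynomial.C ((c.val : ℕ) : k)) = 0 := by
    rw [Ideal.Quotient.eq_zero_iff_mem]
    exact Ideal.subset_span ⟨c, rfl⟩
  rw [map_sub, map_sub, map_pow, map_pow] at h
  have h' : fpu k p M c ^ M - fpu k p M 0 ^ M - fpC k p M ((c.val : ℕ) : k) = 0 := h
  linear_combination h'

theorem prf_HP3a (_hHP1 : HP1) : HP3a := by
  classical
  intro k _ p hp _ M hM
  have : NeZero p := ⟨hp.out.ne_zero⟩
  set y := fpu k p M 0 ^ M with hy
  set P : FP k p M → Prop := fun z => ∃ a : (ZMod p → Fin M) → k[X],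
    z = ∑ e, (a e).eval₂ (fpC k p M) y * ∏ c, fpu k p M c ^ (e c : ℕ) with hP
  have hmono : ∀ (q : k[X]) (e : ZMod p → Fin M),
      P (q.eval₂ (fpC k p M) y * ∏ c, fpu k p M c ^ (e c : ℕ)) := by
    intro q e
    refine ⟨Function.update 0 e q, ?_⟩
    rw [Finset.sum_eq_single e]
    · rw [Function.update_self]
    · intro e' _ he'
      rw [Function.update_of_ne he', Pi.zero_apply, eval₂_zero, zero_mul]
    · intro h
      exact absurd (Finset.mem_univ e) h
  have hadd : ∀ z z', P z → P z' → P (z + z') := by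
    rintro z z' ⟨a, ha⟩ ⟨b, hb⟩
    refine ⟨fun e => a e + b e, ?_⟩
    rw [ha, hb, ← Finset.sum_add_distrib]
    refine Finset.sum_congr rfl fun e _ => ?_
    rw [eval₂_add]
    ring
  have hzero : P 0 := ⟨fun _ => 0, by simp⟩
  have hsum : ∀ (s : Finset (ZMod p → Fin M)) (F : (ZMod p → Fin M) → FP k p M),
      (∀ e, P (F e)) → P (∑ e ∈ s, F e) := by
    intro s F hF
    induction s using Finset.induction_on with
    | empty => simpa using hzero
    | insert e s he ih =>
      rw [Finset.sum_insert he]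
      exact hadd _ _ (hF e) ih
  have hmulu : ∀ (q : k[X]) (e : ZMod p → Fin M) (c : ZMod p),
      P (q.eval₂ (fpC k p M) y * (∏ c, fpu k p M c ^ (e c : ℕ)) * fpu k p M c) := by
    intro q e c
    have hupd : ∀ m : Fin M, ∏ c', fpu k p M c' ^ (Function.update e c m c' : ℕ) =
        fpu k p M c ^ (m : ℕ) * ∏ c' ∈ Finset.univ.erase c, fpu k p M c' ^ (e c' : ℕ) := by
      intro m
      rw [← Finset.mul_prod_erase Finset.univ _ (Finset.mem_univ c), Function.update_self]
      congr 1
      refine Finset.prod_congr rfl fun c' hc' => ?_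
      rw [Function.update_of_ne (Finset.ne_of_mem_erase hc')]
    have hself : ∏ c', fpu k p M c' ^ (e c' : ℕ) =
        fpu k p M c ^ (e c : ℕ) * ∏ c' ∈ Finset.univ.erase c, fpu k p M c' ^ (e c' : ℕ) := by
      rw [← Finset.mul_prod_erase Finset.univ _ (Finset.mem_univ c)]
    by_cases h : (e c : ℕ) + 1 < M
    · have h1 := hmono q (Function.update e c ⟨(e c : ℕ) + 1, h⟩)
      rw [hupd] at h1
      rw [hself]
      convert h1 using 1
      simp only
      rw [pow_succ]
      ring
    · have he : (e c : ℕ) + 1 = M := by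
        have := (e c).2
        omega
      have h1 := hmono (q * (X + C ((c.val : ℕ) : k))) (Function.update e c ⟨0, hM⟩)
      rw [hupd] at h1
      rw [hself]
      convert h1 using 1
      simp only
      rw [eval₂_mul, eval₂_add, eval₂_X, eval₂_C, hy, ← HP3a_rel k p M c, pow_zero, one_mul]
      have e1 : fpu k p M c ^ M = fpu k p M c ^ (e c : ℕ) * fpu k p M c := by
        rw [← pow_succ, he]
      rw [e1]
      ring
  have hmul : ∀ z c, P z → P (z * fpu k p M c) := by
    rintro z c ⟨a, rfl⟩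
    rw [Finset.sum_mul]
    exact hsum _ _ fun e => hmulu (a e) e c
  intro z
  obtain ⟨g, rfl⟩ := Ideal.Quotient.mk_surjective z
  change P _
  induction g using MvPolynomial.induction_on with
  | C x =>
    have h1 := hmono (C x) (fun _ => ⟨0, hM⟩)
    simp only [eval₂_C, pow_zero, Finset.prod_const_one, mul_one] at h1
    exact h1
  | add f g hf hg =>
    rw [map_add]
    exact hadd _ _ hf hg
  | mul_X f c hf =>
    rw [map_mul]
    exact hmul _ c hf

end MP7b0bad

end

section

set_option autoImplicit false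

namespace MP7b0bad

open Polynomial

theorem HP4_rel (k : Type) [Field k] (p M : ℕ) (c : ZMod p) :
    fpu k p M c ^ M = fpu k p M 0 ^ M + fpC k p M ((c.val : ℕ) : k) := by
  have h : (Ideal.Quotient.mk (fpI k p M)) (MvPolynomial.X c ^ M - MvPolynomial.X 0 ^ M -
      MvPolynomial.C ((c.val : ℕ) : k)) = 0 := by
    rw [Ideal.Quotient.eq_zero_iff_mem]
    exact Ideal.subset_span ⟨c, rfl⟩
  rw [map_sub, map_sub, map_pow, map_pow, sub_sub, sub_eq_zero] at h
  exact h

theorem HP4_nP_mul {p M : ℕ} (g h : GP p M) (c : ZMod p) :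
    nP (g * h) c = nP g c + nP h (c - qP g) := by
  unfold nP qP
  rw [RegularWreathProduct.mul_left, Pi.mul_apply, toAdd_mul]
  congr 3
  rw [sub_eq_neg_add, ofAdd_add, ofAdd_neg, ofAdd_toAdd]

theorem HP4_qP_mul {p M : ℕ} (g h : GP p M) : qP (g * h) = qP g + qP h := by
  unfold qP
  rw [RegularWreathProduct.mul_right, toAdd_mul]

theorem HP4_pz_add (k : Type) [Field k] (M : ℕ) (ζ : k) (hM : 0 < M) (hζ : ζ ^ M = 1)
    (a b : ZMod M) : ζ ^ (a + b).val = ζ ^ a.val * ζ ^ b.val := by
  haveI : NeZero M := ⟨hM.ne'⟩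
  rw [ZMod.val_add, ← pow_add, ← pow_eq_pow_mod _ hζ]

theorem HP4_pz_sum (k : Type) [Field k] (M : ℕ) (ζ : k) (hM : 0 < M) (hζ : ζ ^ M = 1)
    {ι : Type} (s : Finset ι) (f : ι → ZMod M) :
    ζ ^ (∑ i ∈ s, f i).val = ∏ i ∈ s, ζ ^ (f i).val := by
  classical
  induction s using Finset.induction_on with
  | empty => simp
  | insert a s ha ih =>
    rw [Finset.sum_insert ha, Finset.prod_insert ha, HP4_pz_add k M ζ hM hζ, ih]

theorem HP4_val_add (k : Type) [Field k] (p : ℕ) [Fact p.Prime] [CharP k p] (a b : ZMod p) :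
    (((a + b).val : ℕ) : k) = ((a.val : ℕ) : k) + ((b.val : ℕ) : k) := by
  rw [ZMod.val_add, ← Nat.cast_add, CharP.natCast_eq_natCast k p]
  exact Nat.mod_modEq _ _

theorem prf_HP4 (hHP1 : HP1) : HP4 := by
  intro k _ p _ _ M ζ hM hζ
  have key : ∀ g : GP p M, ∃ r : FP k p M →+* FP k p M,
      (∀ x, r (fpC k p M x) = fpC k p M x) ∧
      (∀ c : ZMod p, r (fpu k p M c) =
        fpC k p M (ζ ^ (nP g (c + qP g) - nP g (c + qP g - 1)).val) * fpu k p M (c + qP g)) ∧
      ∀ r' : FP k p M →+* FP k p M, (∀ x, r' (fpC k p M x) = fpC k p M x) →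
        (∀ c : ZMod p, r' (fpu k p M c) =
          fpC k p M (ζ ^ (nP g (c + qP g) - nP g (c + qP g - 1)).val) * fpu k p M (c + qP g)) →
        r' = r := by
    intro g
    have hpow : ∀ (e : ℕ) (x : FP k p M), (fpC k p M (ζ ^ e) * x) ^ M = x ^ M := by
      intro e x
      rw [mul_pow, ← map_pow, ← pow_mul, mul_comm e M, pow_mul, hζ, one_pow, map_one, one_mul]
    obtain ⟨r, ⟨h1, h2⟩, h3⟩ := hHP1 k p M (FP k p M) (fpC k p M)
      (fun c : ZMod p =>
        fpC k p M (ζ ^ (nP g (c + qP g) - nP g (c + qP g - 1)).val) * fpu k p M (c + qP g)) (by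
        intro c
        rw [hpow, hpow, zero_add, HP4_rel k p M (c + qP g), HP4_rel k p M (qP g),
          HP4_val_add, map_add]
        ring)
    exact ⟨r, h1, h2, fun r' h1' h2' => h3 r' ⟨h1', h2'⟩⟩
  choose R hRC hRu hRuniq using key
  have hone : R 1 = RingHom.id _ := by
    refine (hRuniq 1 (RingHom.id _) (fun x => rfl) (fun c => ?_)).symm
    have hn : ∀ c, nP (1 : GP p M) c = 0 := fun c => rfl
    have hq : qP (1 : GP p M) = 0 := rfl
    rw [hn, hn, hq, sub_self, ZMod.val_zero, pow_zero, map_one, one_mul, add_zero]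
    rfl
  have hmul : ∀ g h, R (g * h) = (R g).comp (R h) := by
    intro g h
    refine (hRuniq (g * h) ((R g).comp (R h)) (fun x => ?_) (fun c => ?_)).symm
    · rw [RingHom.comp_apply, hRC, hRC]
    · rw [RingHom.comp_apply, hRu, map_mul, hRC, hRu, ← mul_assoc, ← map_mul,
        ← HP4_pz_add k M ζ hM hζ, HP4_nP_mul, HP4_nP_mul, HP4_qP_mul]
      have e1 : c + qP h + qP g = c + (qP g + qP h) := by ring
      have e2 : c + (qP g + qP h) - qP g = c + qP h := by ring
      have e3 : c + (qP g + qP h) - 1 - qP g = c + qP h - 1 := by ring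
      rw [e1, e2, e3]
      congr 3
      congr 1
      ring
  let E : GP p M → RingAut (FP k p M) := fun g =>
    RingEquiv.ofRingHom (R g) (R g⁻¹)
      (by rw [← hmul, mul_inv_cancel, hone]) (by rw [← hmul, inv_mul_cancel, hone])
  have hE : ∀ g x, E g x = R g x := fun g x => rfl
  refine ⟨MonoidHom.mk' E (fun g h => ?_), ?_, ?_⟩
  · apply RingEquiv.ext
    intro x
    rw [hE, hmul]
    rfl
  · intro g c
    exact hRu g c
  · intro g a
    show R g (fpAlg k p M a) = fpAlg k p M a
    have hcomp : (R g).comp (fpAlg k p M) = fpAlg k p M := by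
      refine Polynomial.ringHom_ext (fun x => ?_) ?_
      · rw [RingHom.comp_apply, fpAlg, coe_eval₂RingHom, eval₂_C, hRC]
      · rw [RingHom.comp_apply, fpAlg, coe_eval₂RingHom, eval₂_X, map_prod,
          Finset.prod_congr rfl fun c _ => hRu g c, Finset.prod_mul_distrib, ← map_prod,
          ← HP4_pz_sum k M ζ hM hζ]
        have h1 : ∑ c : ZMod p, (nP g (c + qP g) - nP g (c + qP g - 1)) = 0 := by
          rw [Finset.sum_sub_distrib, sub_eq_zero]
          have h4 : ∑ c : ZMod p, nP g (c + qP g) = ∑ c : ZMod p, nP g c :=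
            Equiv.sum_comp (Equiv.addRight (qP g)) fun c => nP g c
          have h2 : ∑ c : ZMod p, nP g (c + (qP g - 1)) = ∑ c : ZMod p, nP g c :=
            Equiv.sum_comp (Equiv.addRight (qP g - 1)) fun c => nP g c
          rw [h4, ← h2]
          refine Finset.sum_congr rfl fun c _ => ?_
          congr 1
          ring
        have h3 : ∏ c : ZMod p, fpu k p M (c + qP g) = ∏ c : ZMod p, fpu k p M c :=
          Equiv.prod_comp (Equiv.addRight (qP g)) fun c => fpu k p M c
        rw [h1, h3, ZMod.val_zero, pow_zero, map_one, one_mul]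
    exact RingHom.congr_fun hcomp a

end MP7b0bad

end

section

set_option autoImplicit false

namespace MP7b0bad

open Polynomial

theorem HP5_rel (k : Type) [Field k] (p M : ℕ) (c : ZMod p) :
    fpu k p M c ^ M = fpu k p M 0 ^ M + fpC k p M ((c.val : ℕ) : k) := by
  have h : (Ideal.Quotient.mk (fpI k p M)) (MvPolynomial.X c ^ M - MvPolynomial.X 0 ^ M -
      MvPolynomial.C ((c.val : ℕ) : k)) = 0 := by
    rw [Ideal.Quotient.eq_zero_iff_mem]
    exact Ideal.subset_span ⟨c, rfl⟩
  rw [map_sub, map_sub, map_pow, map_pow, sub_sub, sub_eq_zero] at h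
  exact h

theorem HP5_unit (k : Type) [Field k] (p M : ℕ) (I : Ideal (FP k p M)) (x : k) (hx : x ≠ 0)
    (h : fpC k p M x ∈ I) : I = ⊤ :=
  Ideal.eq_top_of_isUnit_mem I h ((isUnit_iff_ne_zero.2 hx).map (fpC k p M))

theorem prf_HP5 : HP5 := by
  intro k _ p _ _ M ζ hM hζ ρ hρu hρC g
  have hp : p.Prime := Fact.out
  haveI : NeZero M := ⟨hM.ne'⟩
  have hinj := CharP.natCast_injOn_Iio k p
  by_cases hq : qP g = 0
  · have hρu0 : ∀ c, ρ g (fpu k p M c) =
        fpC k p M (ζ ^ (nP g c - nP g (c - 1)).val) * fpu k p M c := by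
      intro c
      have h := hρu g c
      rw [hq, add_zero] at h
      exact h
    by_cases hall : ∀ c, nP g c = nP g (c - 1)
    · left
      have hconst : ∀ m : ℕ, nP g (m : ZMod p) = nP g 0 := by
        intro m
        induction m with
        | zero => rw [Nat.cast_zero]
        | succ m ih =>
          rw [hall, Nat.cast_add, Nat.cast_one, add_sub_cancel_right]
          exact ih
      refine ⟨?_, hq, fun c => ?_⟩
      · have hid : ((ρ g : RingAut (FP k p M)) : FP k p M →+* FP k p M).comp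
            (Ideal.Quotient.mk (fpI k p M)) = Ideal.Quotient.mk (fpI k p M) := by
          refine MvPolynomial.ringHom_ext (fun x => ?_) (fun c => ?_)
          · exact hρC g x
          · have h := hρu0 c
            rw [← hall c, sub_self, ZMod.val_zero, pow_zero, map_one, one_mul] at h
            exact h
        intro b
        obtain ⟨a, rfl⟩ := Ideal.Quotient.mk_surjective b
        exact RingHom.congr_fun hid a
      · have h := hconst c.val
        rwa [ZMod.natCast_zmod_val] at h
    · right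
      push Not at hall
      obtain ⟨c1, hc1⟩ := hall
      obtain ⟨c2, hne, hc2⟩ : ∃ c2, c2 ≠ c1 ∧ nP g c2 ≠ nP g (c2 - 1) := by
        by_contra hcon
        push Not at hcon
        have h1 : ∑ c : ZMod p, (nP g c - nP g (c - 1)) = nP g c1 - nP g (c1 - 1) := by
          refine Finset.sum_eq_single c1 (fun c _ hc => ?_) (fun h => absurd (Finset.mem_univ _) h)
          rw [hcon c hc, sub_self]
        have h2 : ∑ c : ZMod p, (nP g c - nP g (c - 1)) = 0 := by
          rw [Finset.sum_sub_distrib, sub_eq_zero]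
          exact (Equiv.sum_comp (Equiv.subRight (1 : ZMod p)) fun c => nP g c).symm
        rw [h1, sub_eq_zero] at h2
        exact hc1 h2
      set J := Ideal.span {x : FP k p M | ∃ b, x = b - ρ g b} with hJ
      have hmem : ∀ c, nP g c ≠ nP g (c - 1) → fpu k p M c ∈ J := by
        intro c hc
        have h1 : fpu k p M c - ρ g (fpu k p M c) ∈ J := Ideal.subset_span ⟨_, rfl⟩
        have hz : ζ ^ (nP g c - nP g (c - 1)).val ≠ 1 := by
          apply hζ.pow_ne_one_of_pos_of_lt
          · rw [Ne, ZMod.val_eq_zero, sub_eq_zero]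
            exact hc
          · exact ZMod.val_lt _
        have h2 : fpu k p M c - ρ g (fpu k p M c) =
            fpC k p M (1 - ζ ^ (nP g c - nP g (c - 1)).val) * fpu k p M c := by
          rw [hρu0, map_sub, map_one]
          ring
        have h3 : fpu k p M c = fpC k p M (1 - ζ ^ (nP g c - nP g (c - 1)).val)⁻¹ *
            (fpu k p M c - ρ g (fpu k p M c)) := by
          rw [h2, ← mul_assoc, ← map_mul, inv_mul_cancel₀ (sub_ne_zero.2 hz.symm), map_one, one_mul]
        rw [h3]
        exact J.mul_mem_left _ h1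
      have h1 : fpu k p M c1 ^ M - fpu k p M c2 ^ M ∈ J :=
        J.sub_mem (J.pow_mem_of_mem (hmem c1 hc1) M hM) (J.pow_mem_of_mem (hmem c2 hc2) M hM)
      have h2 : fpu k p M c1 ^ M - fpu k p M c2 ^ M =
          fpC k p M (((c1.val : ℕ) : k) - ((c2.val : ℕ) : k)) := by
        rw [HP5_rel k p M c1, HP5_rel k p M c2, map_sub]
        ring
      rw [h2] at h1
      refine HP5_unit k p M J _ ?_ h1
      rw [sub_ne_zero]
      intro h3
      have h4 := hinj (Set.mem_Iio.2 (ZMod.val_lt c1)) (Set.mem_Iio.2 (ZMod.val_lt c2)) h3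
      exact hne (ZMod.val_injective p h4).symm
  · right
    have h1 : ρ g (fpu k p M 0 ^ M) = fpu k p M 0 ^ M + fpC k p M (((qP g).val : ℕ) : k) := by
      rw [map_pow, hρu, mul_pow, ← map_pow, ← pow_mul, mul_comm _ M, pow_mul, hζ.pow_eq_one,
        one_pow, map_one, one_mul, zero_add, HP5_rel]
    have h2 : fpu k p M 0 ^ M - ρ g (fpu k p M 0 ^ M) ∈
        Ideal.span {x : FP k p M | ∃ b, x = b - ρ g b} := Ideal.subset_span ⟨_, rfl⟩
    rw [h1] at h2
    have h3 : fpu k p M 0 ^ M - (fpu k p M 0 ^ M + fpC k p M (((qP g).val : ℕ) : k)) =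
        fpC k p M (-(((qP g).val : ℕ) : k)) := by
      rw [map_neg]
      ring
    rw [h3] at h2
    refine HP5_unit k p M _ _ ?_ h2
    rw [neg_ne_zero]
    intro h4
    have h5 := hinj (Set.mem_Iio.2 (ZMod.val_lt (qP g))) (Set.mem_Iio.2 hp.pos)
      (by rw [h4, Nat.cast_zero])
    rw [ZMod.val_eq_zero] at h5
    exact hq h5

end MP7b0bad

end

section

set_option autoImplicit false

namespace MP7b0bad

open Polynomial

theorem HP6_XX1 (k : Type) [Field k] :
    XX k = HahnSeries.single (-1 : ℤ) (HahnSeries.single (1 : ℤ) (1 : k)) := by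
  have h : (Tt k)⁻¹ = HahnSeries.single (-1 : ℤ) (1 : LaurentSeries k) := by
    rw [Tt, HahnSeries.inv_single]
    simp
  rw [XX, h, Ww, HahnSeries.C_apply, HahnSeries.single_mul_single, zero_add, mul_one]

theorem HP6_XX (k : Type) [Field k] (i : ℕ) :
    XX k ^ i = HahnSeries.single (-(i : ℤ)) (HahnSeries.single (i : ℤ) (1 : k)) := by
  induction i with
  | zero =>
    rw [pow_zero, Nat.cast_zero, neg_zero, HahnSeries.single_zero_one, HahnSeries.single_zero_one]
  | succ i ih =>
    rw [pow_succ, ih, HP6_XX1, HahnSeries.single_mul_single, HahnSeries.single_mul_single, mul_one]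
    congr 2
    push_cast
    ring

theorem HP6_toX_coeff (k : Type) [Field k] (f : k[X]) (i : ℕ) :
    ((toX k f).coeff (-(i : ℤ))).coeff (i : ℤ) = f.coeff i := by
  induction f using Polynomial.induction_on' with
  | add f g hf hg => simp [map_add, hf, hg]
  | monomial j x =>
    rw [toX, coe_eval₂RingHom, eval₂_monomial, HP6_XX, kF, RingHom.comp_apply,
      HahnSeries.C_apply, HahnSeries.C_apply, HahnSeries.single_mul_single,
      HahnSeries.single_mul_single, mul_one, zero_add, zero_add, HahnSeries.coeff_single,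
      Polynomial.coeff_monomial]
    by_cases h : j = i
    · subst h
      simp
    · rw [if_neg h, if_neg (by omega)]
      simp

theorem HP6_toX_inj (k : Type) [Field k] : Function.Injective (toX k) := by
  rw [injective_iff_map_eq_zero]
  intro f hf
  ext i
  rw [← HP6_toX_coeff k f i, hf]
  simp

theorem HP6_pz_add (k : Type) [Field k] (M : ℕ) [NeZero M] (ζ : k) (hζ : ζ ^ M = 1)
    (a b : ZMod M) : ζ ^ (a + b).val = ζ ^ a.val * ζ ^ b.val := by
  rw [ZMod.val_add, ← pow_add, ← pow_eq_pow_mod _ hζ]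

theorem HP6_pz_sum (k : Type) [Field k] (M : ℕ) [NeZero M] (ζ : k) (hζ : ζ ^ M = 1)
    {ι : Type} (s : Finset ι) (f : ι → ZMod M) :
    ζ ^ (∑ i ∈ s, f i).val = ∏ i ∈ s, ζ ^ (f i).val := by
  classical
  induction s using Finset.induction_on with
  | empty => simp
  | insert a s ha ih =>
    rw [Finset.sum_insert ha, Finset.prod_insert ha, HP6_pz_add k M ζ hζ, ih]

theorem HP6_pz_pow (k : Type) [Field k] (M : ℕ) [NeZero M] (ζ : k) (hζ : ζ ^ M = 1)
    (a : ZMod M) (m : ℕ) : (ζ ^ a.val) ^ m = ζ ^ (a * (m : ZMod M)).val := by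
  induction m with
  | zero => simp
  | succ m ih =>
    rw [pow_succ, ih, ← HP6_pz_add k M ζ hζ]
    congr 2
    push_cast
    ring

theorem HP6_S (k : Type) [Field k] (M : ℕ) [NeZero M] (ζ : k) (hζ : IsPrimitiveRoot ζ M)
    (d : ZMod M) : ∑ a : ZMod M, ζ ^ (a * d).val = if d = 0 then (M : k) else 0 := by
  split_ifs with h
  · subst h
    simp [ZMod.card]
  · have h1 : ζ ^ d.val * ∑ a : ZMod M, ζ ^ (a * d).val = ∑ a : ZMod M, ζ ^ (a * d).val := by
      rw [Finset.mul_sum]
      have h2 : ∑ a : ZMod M, ζ ^ ((a + 1) * d).val = ∑ a : ZMod M, ζ ^ (a * d).val :=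
        Equiv.sum_comp (Equiv.addRight (1 : ZMod M)) fun a => ζ ^ (a * d).val
      rw [← h2]
      refine Finset.sum_congr rfl fun a _ => ?_
      rw [← HP6_pz_add k M ζ hζ.pow_eq_one]
      congr 2
      ring
    have h3 : ζ ^ d.val ≠ 1 := by
      apply hζ.pow_ne_one_of_pos_of_lt
      · rw [Ne, ZMod.val_eq_zero]
        exact h
      · exact ZMod.val_lt _
    have h4 : (ζ ^ d.val - 1) * ∑ a : ZMod M, ζ ^ (a * d).val = 0 := by
      rw [sub_mul, h1, one_mul, sub_self]
    exact (mul_eq_zero.1 h4).resolve_left (sub_ne_zero.2 h3)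

theorem HP6_factor (k : Type) [Field k] (p M : ℕ) [Fact p.Prime] [NeZero M] (ζ : k)
    (hζ : ζ ^ M = 1) (n : ZMod p → ZMod M) (e : ZMod p → Fin M) :
    ∏ c, (ζ ^ (n c - n (c - 1)).val) ^ (e c : ℕ) =
      ∏ c, ζ ^ (n c * (((e c : ℕ) : ZMod M) - ((e (c + 1) : ℕ) : ZMod M))).val := by
  rw [Finset.prod_congr rfl fun c _ => HP6_pz_pow k M ζ hζ (n c - n (c - 1)) (e c : ℕ),
    ← HP6_pz_sum k M ζ hζ, ← HP6_pz_sum k M ζ hζ]
  congr 2
  have h1 : ∑ c : ZMod p, n c * ((e (c + 1) : ℕ) : ZMod M) =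
      ∑ c : ZMod p, n (c - 1) * ((e c : ℕ) : ZMod M) := by
    have h2 := Equiv.sum_comp (Equiv.subRight (1 : ZMod p))
      fun c => n c * ((e (c + 1) : ℕ) : ZMod M)
    rw [← h2]
    refine Finset.sum_congr rfl fun c _ => ?_
    show n (c - 1) * ((e (c - 1 + 1) : ℕ) : ZMod M) = _
    rw [sub_add_cancel]
  rw [Finset.sum_congr rfl fun c _ => sub_mul (n c) (n (c - 1)) ((e c : ℕ) : ZMod M),
    Finset.sum_congr rfl fun c _ => mul_sub (n c) ((e c : ℕ) : ZMod M) ((e (c + 1) : ℕ) : ZMod M),
    Finset.sum_sub_distrib, Finset.sum_sub_distrib, h1]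

theorem HP6_avg (k : Type) [Field k] (p M : ℕ) [Fact p.Prime] [NeZero M] (ζ : k)
    (hζ : IsPrimitiveRoot ζ M) (e : ZMod p → Fin M) :
    (∑ n : ZMod p → ZMod M, ∏ c, (ζ ^ (n c - n (c - 1)).val) ^ (e c : ℕ)) = 0 ∨
      ∀ c, e c = e 0 := by
  by_cases hall : ∀ c : ZMod p, ((e c : ℕ) : ZMod M) - ((e (c + 1) : ℕ) : ZMod M) = 0
  · right
    have h1 : ∀ c : ZMod p, e (c + 1) = e c := by
      intro c
      have h2 := hall c
      rw [sub_eq_zero] at h2
      have h3 := congrArg ZMod.val h2
      rw [ZMod.val_cast_of_lt (e c).isLt, ZMod.val_cast_of_lt (e (c + 1)).isLt] at h3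
      exact (Fin.ext h3).symm
    have h2 : ∀ m : ℕ, e (m : ZMod p) = e 0 := by
      intro m
      induction m with
      | zero => rw [Nat.cast_zero]
      | succ m ih => rw [Nat.cast_add, Nat.cast_one, h1, ih]
    intro c
    have h3 := h2 c.val
    rwa [ZMod.natCast_zmod_val] at h3
  · left
    push Not at hall
    obtain ⟨c0, hc0⟩ := hall
    rw [Finset.sum_congr rfl fun n _ => HP6_factor k p M ζ hζ.pow_eq_one n e]
    have h1 := Finset.prod_univ_sum (fun _ : ZMod p => (Finset.univ : Finset (ZMod M)))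
      (fun c a => ζ ^ (a * (((e c : ℕ) : ZMod M) - ((e (c + 1) : ℕ) : ZMod M))).val)
    rw [Fintype.piFinset_univ] at h1
    rw [← h1]
    refine Finset.prod_eq_zero (Finset.mem_univ c0) ?_
    rw [HP6_S k M ζ hζ, if_neg hc0]

theorem prf_HP6 (hB2 : B2) (hB8 : B8) (hHP3 : HP3) (hHP3a : HP3a) (hHP7 : HP7) : HP6 := by
  intro k _ _ p _ _ M ζ hM hζ ρ hρu hρA z hz
  have hp : p.Prime := Fact.out
  have hM0 : M ≠ 0 := by
    rintro rfl
    exact hM (dvd_zero p)
  haveI : NeZero M := ⟨hM0⟩
  have hMpos : 0 < M := Nat.pos_of_ne_zero hM0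
  haveI : CharP (Fk k) p := charP_of_injective_ringHom (kF k).injective p
  have hMk : (M : k) ≠ 0 := by
    rw [Ne, CharP.cast_eq_zero_iff k p M]
    exact hM
  have halgC : ∀ x : k, fpAlg k p M (C x) = fpC k p M x := by
    intro x
    rw [fpAlg, coe_eval₂RingHom, eval₂_C]
  have halgX : fpAlg k p M X = ∏ c : ZMod p, fpu k p M c := by
    rw [fpAlg, coe_eval₂RingHom, eval₂_X]
  have hρC : ∀ (g : GP p M) (x : k), ρ g (fpC k p M x) = fpC k p M x := by
    intro g x
    rw [← halgC, hρA]
  -- the hom from the Artin-Schreier algebra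
  have hAS := (hHP3 k p M hMpos).1
  have heval : (asPoly p ((X : k[X]) ^ M)).eval₂ (fpAlg k p M) (fpu k p M 0 ^ M) = 0 := by
    rw [asPoly, eval₂_sub, eval₂_sub, eval₂_pow, eval₂_X, eval₂_C, map_pow, halgX, ← hAS]
    ring
  let j : AS p ((X : k[X]) ^ M) →+* FP k p M := AdjoinRoot.lift (fpAlg k p M) (fpu k p M 0 ^ M) heval
  have hjof : ∀ b, j (AdjoinRoot.of _ b) = fpAlg k p M b := fun b => AdjoinRoot.lift_of heval
  have hjroot : j (asRoot p ((X : k[X]) ^ M)) = fpu k p M 0 ^ M := AdjoinRoot.lift_root heval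
  -- `z` is in the range of `j`
  have hzr : z ∈ j.range := by
    obtain ⟨a, ha⟩ := hHP3a k p M hMpos z
    let gn : (ZMod p → ZMod M) → GP p M := fun n =>
      ⟨fun x => Multiplicative.ofAdd (n (Multiplicative.toAdd x)), 1⟩
    have hgu : ∀ n c, ρ (gn n) (fpu k p M c) =
        fpC k p M (ζ ^ (n c - n (c - 1)).val) * fpu k p M c := by
      intro n c
      have h1 := hρu (gn n) c
      have h2 : qP (gn n) = 0 := rfl
      rw [h2, add_zero] at h1
      exact h1
    have hterm : ∀ (n : ZMod p → ZMod M) (e : ZMod p → Fin M),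
        ρ (gn n) ((a e).eval₂ (fpC k p M) (fpu k p M 0 ^ M) * ∏ c, fpu k p M c ^ (e c : ℕ)) =
        fpC k p M (∏ c, (ζ ^ (n c - n (c - 1)).val) ^ (e c : ℕ)) *
          ((a e).eval₂ (fpC k p M) (fpu k p M 0 ^ M) * ∏ c, fpu k p M c ^ (e c : ℕ)) := by
      intro n e
      have h1 : ρ (gn n) (fpu k p M 0 ^ M) = fpu k p M 0 ^ M := by
        rw [map_pow, hgu, mul_pow, ← map_pow, ← pow_mul, mul_comm _ M, pow_mul, hζ.pow_eq_one,
          one_pow, map_one, one_mul]
      have h2 : ρ (gn n) ((a e).eval₂ (fpC k p M) (fpu k p M 0 ^ M)) =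
          (a e).eval₂ (fpC k p M) (fpu k p M 0 ^ M) := by
        have h3 := Polynomial.hom_eval₂ (a e) (fpC k p M)
          ((ρ (gn n) : RingAut (FP k p M)) : FP k p M →+* FP k p M) (fpu k p M 0 ^ M)
        have h4 : ((ρ (gn n) : RingAut (FP k p M)) : FP k p M →+* FP k p M).comp (fpC k p M) =
            fpC k p M := RingHom.ext fun x => hρC _ x
        rw [h4] at h3
        have h5 : ((ρ (gn n) : RingAut (FP k p M)) : FP k p M →+* FP k p M) (fpu k p M 0 ^ M) =
          fpu k p M 0 ^ M := h1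
        rw [h5] at h3
        exact h3
      rw [map_mul, h2, map_prod, map_prod]
      have h6 : ∏ c, ρ (gn n) (fpu k p M c ^ (e c : ℕ)) =
          (∏ c, fpC k p M ((ζ ^ (n c - n (c - 1)).val) ^ (e c : ℕ))) *
            ∏ c, fpu k p M c ^ (e c : ℕ) := by
        rw [← Finset.prod_mul_distrib]
        refine Finset.prod_congr rfl fun c _ => ?_
        rw [map_pow, hgu, mul_pow, ← map_pow]
      rw [h6]
      ring
    have hsum : fpC k p M ((M : k) ^ p) * z = ∑ e : ZMod p → Fin M,
        fpC k p M (∑ n : ZMod p → ZMod M, ∏ c, (ζ ^ (n c - n (c - 1)).val) ^ (e c : ℕ)) *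
          ((a e).eval₂ (fpC k p M) (fpu k p M 0 ^ M) * ∏ c, fpu k p M c ^ (e c : ℕ)) := by
      have h1 : ∑ n : ZMod p → ZMod M, ρ (gn n) z = fpC k p M ((M : k) ^ p) * z := by
        rw [Finset.sum_congr rfl fun n _ => hz (gn n), Finset.sum_const, Finset.card_univ,
          Fintype.card_fun, ZMod.card, ZMod.card, nsmul_eq_mul, map_pow, map_natCast]
        push_cast
        rfl
      rw [← h1]
      have h2 : ∀ n, ρ (gn n) z = ∑ e : ZMod p → Fin M,
          fpC k p M (∏ c, (ζ ^ (n c - n (c - 1)).val) ^ (e c : ℕ)) *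
          ((a e).eval₂ (fpC k p M) (fpu k p M 0 ^ M) * ∏ c, fpu k p M c ^ (e c : ℕ)) := by
        intro n
        conv_lhs => rw [ha]
        rw [map_sum]
        exact Finset.sum_congr rfl fun e _ => hterm n e
      rw [Finset.sum_congr rfl fun n _ => h2 n, Finset.sum_comm]
      refine Finset.sum_congr rfl fun e _ => ?_
      rw [← Finset.sum_mul, ← map_sum]
    have hmem : fpC k p M ((M : k) ^ p) * z ∈ j.range := by
      rw [hsum]
      refine Subring.sum_mem _ fun e _ => ?_
      rcases HP6_avg k p M ζ hζ e with h | h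
      · rw [h, map_zero, zero_mul]
        exact Subring.zero_mem _
      · have hC : ∀ x : k, fpC k p M x ∈ j.range := fun x => ⟨AdjoinRoot.of _ (C x), by
          rw [hjof, halgC]⟩
        refine Subring.mul_mem _ (hC _) (Subring.mul_mem _ ?_ ?_)
        · refine ⟨(a e).eval₂ ((AdjoinRoot.of (asPoly p ((X : k[X]) ^ M))).comp C)
            (asRoot p ((X : k[X]) ^ M)), ?_⟩
          rw [Polynomial.hom_eval₂, hjroot]
          congr 1
          ext x
          rw [RingHom.comp_apply, RingHom.comp_apply, hjof, halgC]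
        · refine ⟨AdjoinRoot.of _ (X ^ (e 0 : ℕ)), ?_⟩
          rw [hjof, map_pow, halgX, ← Finset.prod_pow]
          refine Finset.prod_congr rfl fun c _ => ?_
          rw [h c]
    have hz2 : z = fpC k p M (((M : k) ^ p)⁻¹) * (fpC k p M ((M : k) ^ p) * z) := by
      rw [← mul_assoc, ← map_mul, inv_mul_cancel₀ (pow_ne_zero p hMk), map_one, one_mul]
    rw [hz2]
    refine Subring.mul_mem _ ⟨AdjoinRoot.of _ (C (((M : k) ^ p)⁻¹)), ?_⟩ hmem
    rw [hjof, halgC]
  obtain ⟨zt, hzt⟩ := hzr
  -- compare with the local field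
  obtain ⟨ι, hιA, hιt, hιy, hιC⟩ := hHP7 k p M hM
  have hX : toX k ((X : k[X]) ^ M) = XX k ^ M := by
    rw [map_pow, toX, coe_eval₂RingHom, eval₂_X]
  have hΦ := hB8 k[X] (Fk k) p (toX k) ((X : k[X]) ^ M)
  rw [hX] at hΦ
  obtain ⟨Φ, hΦof, hΦroot, hΦs, hΦinj⟩ := hΦ
  have hΦinj' := hΦinj (HP6_toX_inj k)
  have hcomp : Φ = ι.comp j := by
    refine AdjoinRoot.ringHom_ext ?_ ?_
    · refine RingHom.ext fun x => ?_
      rw [RingHom.comp_apply, RingHom.comp_apply, RingHom.comp_apply, hΦof, hjof, hιA]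
    · rw [RingHom.comp_apply, hjroot, map_pow, hιy]
      exact hΦroot
  have hρt : ∀ b, ι (ρ (tP p M) b) = tQ k p M (ι b) := by
    intro b
    have h1 : (ι.comp ((ρ (tP p M) : RingAut (FP k p M)) : FP k p M →+* FP k p M)).comp
        (Ideal.Quotient.mk (fpI k p M)) =
        ((tQ k p M).comp ι).comp (Ideal.Quotient.mk (fpI k p M)) := by
      refine MvPolynomial.ringHom_ext (fun x => ?_) (fun c => ?_)
      · show ι (ρ (tP p M) (fpC k p M x)) = tQ k p M (ι (fpC k p M x))
        rw [hρC, hιC]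
        exact (asShift_of p _ _).symm
      · show ι (ρ (tP p M) (fpu k p M c)) = tQ k p M (ι (fpu k p M c))
        rw [hρu, ← hιt]
        have h2 : ∀ c', nP (tP p M) c' = 0 := fun c' => rfl
        have h3 : qP (tP p M) = 1 := rfl
        rw [h2, h2, h3, sub_self, ZMod.val_zero, pow_zero, map_one, one_mul]
    obtain ⟨a, rfl⟩ := Ideal.Quotient.mk_surjective b
    exact RingHom.congr_fun h1 a
  have hfix : asShift p ((X : k[X]) ^ M) zt = zt := by
    apply hΦinj'
    have h1 : Φ zt = ι z := by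
      rw [hcomp, RingHom.comp_apply, hzt]
    rw [hΦs, h1, ← hρt, hz]
  obtain ⟨a, ha⟩ := hB2 k[X] p ((X : k[X]) ^ M) zt hfix
  refine ⟨a, ?_⟩
  rw [← hzt, ← ha, hjof]

end MP7b0bad

end

section

set_option autoImplicit false

namespace MP7b0bad

open Polynomial

theorem HP7_iter (k : Type) [Field k] (p : ℕ) [Fact p.Prime] [CharP k p] (M : ℕ)
    (h : tQ k p M (asRoot p (XX k ^ M)) = asRoot p (XX k ^ M) + 1) (j : ℕ) :
    (tQ k p M)^[j] (asRoot p (XX k ^ M)) = asRoot p (XX k ^ M) + (j : Qk k p M) := by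
  induction j with
  | zero => simp
  | succ j ih =>
    rw [Function.iterate_succ_apply', ih, map_add, h, map_natCast]
    push_cast
    ring

theorem prf_HP7 (hB1 : B1) (hB5 : B5) (hHP1 : HP1) : HP7 := by
  intro k _ _ p _ _ M hM
  have hp : p.Prime := Fact.out
  haveI : CharP (Fk k) p := charP_of_injective_ringHom (kF k).injective p
  obtain ⟨ω, hω, hprod⟩ := hB5 k p M hM
  obtain ⟨hroot, hord⟩ := hB1 (Fk k) p (XX k ^ M)
  have hu : ∀ j : ℕ, ((tQ k p M)^[j] ω) ^ M = asRoot p (XX k ^ M) + (j : Qk k p M) := by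
    intro j
    rw [← HP7_iter k p M hroot j, ← hω]
    exact (iterate_map_pow (tQ k p M) j ω M).symm
  obtain ⟨ι, ⟨hιC, hιu⟩, -⟩ := hHP1 k p M (Qk k p M) ((oQ k p M).comp (kF k))
    (fun c : ZMod p => (tQ k p M)^[c.val] ω) (by
      intro c
      rw [hu, hu, ZMod.val_zero, Nat.cast_zero, add_zero, map_natCast])
  have hall : ∀ a, ι (fpAlg k p M a) = oQ k p M (toX k a) := by
    intro a
    have hcomp : ι.comp (fpAlg k p M) = (oQ k p M).comp (toX k) := by
      refine Polynomial.ringHom_ext (fun x => ?_) ?_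
      · rw [RingHom.comp_apply, RingHom.comp_apply, fpAlg, toX, coe_eval₂RingHom,
          coe_eval₂RingHom, eval₂_C, eval₂_C, hιC]
        rfl
      · rw [RingHom.comp_apply, RingHom.comp_apply, fpAlg, toX, coe_eval₂RingHom,
          coe_eval₂RingHom, eval₂_X, eval₂_X, map_prod, ← hprod]
        refine Finset.prod_nbij (fun c : ZMod p => c.val) (fun c _ => ?_) (fun c _ c' _ h => ?_)
          (fun j hj => ?_) (fun c _ => hιu c)
        · exact Finset.mem_range.2 (ZMod.val_lt c)
        · exact ZMod.val_injective p h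
        · rw [Finset.coe_range, Set.mem_Iio] at hj
          exact ⟨(j : ZMod p), Finset.mem_coe.2 (Finset.mem_univ _), ZMod.val_cast_of_lt hj⟩
    exact RingHom.congr_fun hcomp a
  refine ⟨ι, hall, fun c => ?_, ?_, fun x => by rw [hιC]; rfl⟩
  · rw [hιu, hιu, ← Function.iterate_succ_apply' (tQ k p M), Nat.succ_eq_add_one]
    by_cases hc : c.val + 1 < p
    · have h1 : (c + 1).val = c.val + 1 := by
        have h2 : c + 1 = ((c.val + 1 : ℕ) : ZMod p) := by
          rw [Nat.cast_add, Nat.cast_one, ZMod.natCast_zmod_val]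
        rw [h2, ZMod.val_cast_of_lt hc]
      rw [h1]
    · have hlt := ZMod.val_lt c
      have h1 : c.val + 1 = p := by omega
      have h2 : c + 1 = 0 := by
        have h3 : c + 1 = ((c.val + 1 : ℕ) : ZMod p) := by
          rw [Nat.cast_add, Nat.cast_one, ZMod.natCast_zmod_val]
        rw [h3, h1, ZMod.natCast_self]
      rw [h2, ZMod.val_zero, h1]
      exact (hord ω).symm
  · rw [hιu, ZMod.val_zero]
    exact hω

end MP7b0bad

end

section

set_option autoImplicit false

/-!
# HP8: the base covers for `⟨t, a⟩`, general `p`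
-/

namespace MP7b0bad

open Polynomial

theorem HP8_XX_pow (k : Type) [Field k] (M : ℕ) :
    XX k ^ M = HahnSeries.single (-(M : ℤ)) (HahnSeries.single (M : ℤ) (1 : k)) := by
  have h : (Tt k)⁻¹ = HahnSeries.single (-1 : ℤ) (1 : LaurentSeries k) := by
    rw [Tt, HahnSeries.inv_single]
    simp
  rw [XX, h, Ww, HahnSeries.C_apply, HahnSeries.single_mul_single, HahnSeries.single_pow]
  simp

theorem HP8_coeff (k : Type) [Field k] (P : k[X]) (n : ℕ) :
    ((toX k P).coeff (-(n : ℤ))).coeff (n : ℤ) = P.coeff n := by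
  unfold toX
  rw [coe_eval₂RingHom, eval₂_eq_sum_range, HahnSeries.coeff_sum, HahnSeries.coeff_sum]
  have h : ∀ i : ℕ, ((kF k (P.coeff i) * XX k ^ i).coeff (-(n : ℤ))).coeff (n : ℤ) =
      if i = n then P.coeff i else 0 := by
    intro i
    have e : kF k (P.coeff i) * XX k ^ i =
        HahnSeries.single (-(i : ℤ)) (HahnSeries.single (i : ℤ) (P.coeff i)) := by
      rw [HP8_XX_pow, kF, RingHom.comp_apply, HahnSeries.C_apply, HahnSeries.single_mul_single,
        HahnSeries.C_apply, HahnSeries.single_mul_single]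
      simp
    rw [e]
    by_cases hi : i = n
    · subst hi
      rw [if_pos rfl, HahnSeries.coeff_single_same, HahnSeries.coeff_single_same]
    · rw [if_neg hi, HahnSeries.coeff_single_of_ne (by omega), HahnSeries.coeff_zero]
  rw [Finset.sum_congr rfl fun i _ => h i, Finset.sum_ite_eq' (Finset.range (P.natDegree + 1)) n]
  split_ifs with hn
  · rfl
  · rw [Finset.mem_range, not_lt] at hn
    exact (coeff_eq_zero_of_natDegree_lt (by omega)).symm

theorem HP8_toX_inj (k : Type) [Field k] : Function.Injective (toX k) := by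
  intro P Q h
  ext n
  rw [← HP8_coeff, ← HP8_coeff, h]

theorem prf_HP8 (hHP2 : HP2) (hHP3 : HP3) (hHP4 : HP4) (hHP5 : HP5) (hHP6 : HP6) (hHP7 : HP7)
    (hHP8a : HP8a) (hHQ : HQ) : HP8 := by
  intro k _ _ p _ _ M hpM G _ _ t a H ht htp haM hgood hH
  have hM0 : M ≠ 0 := by
    rintro rfl
    exact hpM (dvd_zero p)
  have hMpos : 0 < M := Nat.pos_of_ne_zero hM0
  haveI : NeZero M := ⟨hM0⟩
  haveI : NeZero (M : k) := ⟨fun h => hpM ((CharP.cast_eq_zero_iff k p M).1 h)⟩
  obtain ⟨ζ, hζ⟩ := HasEnoughRootsOfUnity.exists_primitiveRoot k M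
  obtain ⟨ρ, hρ1, hρ2⟩ := hHP4 k p M ζ hMpos hζ.pow_eq_one
  obtain ⟨ι, hι1, hι2, -, hι4⟩ := hHP7 k p M hpM
  obtain ⟨ψ, hψ1, hψ2, hψ3, hψ4⟩ := hHP8a p M hpM G t a htp haM hgood
  have hρC : ∀ (g : GP p M) (x : k), ρ g (fpC k p M x) = fpC k p M x := by
    intro g x
    have h := hρ2 g (C x)
    simpa [fpAlg] using h
  haveI hdom : IsDomain (FP k p M) := hHP2 k p M hpM
  letI alg : Algebra k[X] (FP k p M) := (fpAlg k p M).toAlgebra
  letI act : MulSemiringAction (GP p M) (FP k p M) := MulSemiringAction.compHom (FP k p M) ρ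
  have hact : ∀ (g : GP p M) (b : FP k p M), g • b = ρ g b := fun g b => rfl
  have halg : ∀ x : k[X], algebraMap k[X] (FP k p M) x = fpAlg k p M x := fun x => rfl
  have hιt : ∀ b : FP k p M, ι (ρ (tP p M) b) = tQ k p M (ι b) := by
    intro b
    have e : (ι.comp (ρ (tP p M) : FP k p M →+* FP k p M)) = (tQ k p M).comp ι := by
      refine Ideal.Quotient.ringHom_ext ?_
      refine MvPolynomial.ringHom_ext (fun x => ?_) (fun c => ?_)
      · have h1 : ι (ρ (tP p M) (fpC k p M x)) = tQ k p M (ι (fpC k p M x)) := by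
          rw [hρC, hι4]
          exact (asShift_of p _ _).symm
        exact h1
      · have h1 : ι (ρ (tP p M) (fpu k p M c)) = tQ k p M (ι (fpu k p M c)) := by
          rw [hρ1, ← hι2]
          have q1 : qP (tP p M) = 1 := rfl
          have n1 : ∀ c', nP (tP p M) c' = 0 := fun c' => rfl
          rw [q1, n1, n1, sub_zero, ZMod.val_zero, pow_zero, map_one, one_mul]
        exact h1
    exact congrArg (fun f : FP k p M →+* Qk k p M => f b) e
  have hQ := hHQ k p M (GP p M) (tP p M) (FP k p M) ι G ψ ?_ ?_ ?_ ?_ ?_ ?_ ?_ hψ3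
  · have hH' : H = ψ.range := by rw [hH, hψ2]
    subst hH'
    have e : (⟨t, ht⟩ : ψ.range) = ⟨ψ (tP p M), ⟨tP p M, rfl⟩⟩ := Subtype.ext hψ1.symm
    rw [e]
    exact hQ
  · intro x y hxy
    rw [halg, halg] at hxy
    apply HP8_toX_inj k
    apply D4_oQ_inj k p M
    rw [← hι1, ← hι1, hxy]
  · intro g x
    rw [halg, hact]
    exact hρ2 g x
  · classical
    obtain ⟨-, n, b, hb⟩ := hHP3 k p M hMpos
    refine ⟨⟨Finset.univ.image b, ?_⟩⟩
    rw [eq_top_iff]
    intro z _
    obtain ⟨c, hc⟩ := hb z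
    rw [hc]
    refine Submodule.sum_mem _ fun i _ => ?_
    have : fpAlg k p M (c i) * b i = c i • b i := by
      rw [Algebra.smul_def, halg]
    rw [this]
    refine Submodule.smul_mem _ _ (Submodule.subset_span ?_)
    simp
  · intro b hb
    obtain ⟨x, hx⟩ := hHP6 k p M ζ hpM hζ ρ hρ1 hρ2 b hb
    exact ⟨x, hx⟩
  · intro σ
    rcases hHP5 k p M ζ hMpos hζ ρ hρ1 hρC σ with ⟨h1, h2, h3⟩ | h
    · exact Or.inl ⟨h1, hψ4 σ h2 h3⟩
    · exact Or.inr h
  · intro x
    rw [halg]
    exact hι1 x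
  · intro b
    rw [hact]
    exact hιt b

end MP7b0bad

end

section

set_option autoImplicit false

namespace MP7b0bad

section

variable {G : Type} [Group G]

/-- `t ^ q` for `q : ZMod p` -/
def HP8a_T (p : ℕ) (t : G) (q : ZMod p) : G := t ^ q.val

theorem HP8a_pow {n : ℕ} [NeZero n] (x : G) (hx : x ^ n = 1) (m : ℕ) :
    x ^ ((m : ZMod n)).val = x ^ m := by
  rw [ZMod.val_natCast, ← pow_eq_pow_mod m hx]

theorem HP8a_pow_add {n : ℕ} [NeZero n] (x : G) (hx : x ^ n = 1) (a b : ZMod n) :
    x ^ (a + b).val = x ^ a.val * x ^ b.val := by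
  rw [ZMod.val_add, ← pow_eq_pow_mod _ hx, pow_add]

/-- the conjugates of `a` -/
def HP8a_A (p : ℕ) (t a : G) (c : ZMod p) : G := HP8a_T p t c * a * (HP8a_T p t c)⁻¹

theorem HP8a_T_add {p : ℕ} [NeZero p] (t : G) (ht : t ^ p = 1) (q r : ZMod p) :
    HP8a_T p t (q + r) = HP8a_T p t q * HP8a_T p t r :=
  HP8a_pow_add t ht q r

theorem HP8a_conj {p : ℕ} [NeZero p] (t a : G) (ht : t ^ p = 1) (q c : ZMod p) :
    HP8a_T p t q * HP8a_A p t a c * (HP8a_T p t q)⁻¹ = HP8a_A p t a (q + c) := by
  unfold HP8a_A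
  rw [HP8a_T_add t ht]
  group

theorem HP8a_A_pow (p M : ℕ) (t a : G) (ha : a ^ M = 1) (c : ZMod p) :
    HP8a_A p t a c ^ M = 1 := by
  unfold HP8a_A
  rw [conj_pow, ha]
  group

/-- powers of a conjugate -/
def HP8a_phi (p M : ℕ) [NeZero M] (t a : G) (ha : a ^ M = 1) (c : ZMod p) :
    Multiplicative (ZMod M) →* G :=
  MonoidHom.mk' (fun n => HP8a_A p t a c ^ (Multiplicative.toAdd n).val)
    (fun _ _ => HP8a_pow_add _ (HP8a_A_pow p M t a ha c) _ _)

theorem HP8a_phi_apply (p M : ℕ) [NeZero M] (t a : G) (ha : a ^ M = 1) (c : ZMod p)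
    (n : Multiplicative (ZMod M)) :
    HP8a_phi p M t a ha c n = HP8a_A p t a c ^ (Multiplicative.toAdd n).val := rfl

theorem HP8a_comm (p M : ℕ) [NeZero M] (t a : G) (ha : a ^ M = 1) (hg : Good p t a) :
    Pairwise fun i j : ZMod p => ∀ x y, Commute (HP8a_phi p M t a ha i x)
      (HP8a_phi p M t a ha j y) := by
  intro i j _ x y
  exact (hg.1 i.val j.val).pow_pow _ _

/-- the product -/
noncomputable def HP8a_P (p M : ℕ) [NeZero M] [NeZero p] (t a : G) (ha : a ^ M = 1)
    (hg : Good p t a) : (ZMod p → Multiplicative (ZMod M)) →* G :=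
  MonoidHom.noncommPiCoprod (HP8a_phi p M t a ha) (HP8a_comm p M t a ha hg)

theorem HP8a_P_conj (p M : ℕ) [NeZero M] [NeZero p] (t a : G) (ht : t ^ p = 1) (ha : a ^ M = 1)
    (hg : Good p t a) (q : ZMod p) (n : ZMod p → Multiplicative (ZMod M)) :
    HP8a_T p t q * HP8a_P p M t a ha hg n * (HP8a_T p t q)⁻¹ =
      HP8a_P p M t a ha hg (fun c => n (c - q)) := by
  classical
  let S : (ZMod p → Multiplicative (ZMod M)) →* (ZMod p → Multiplicative (ZMod M)) :=
    { toFun := fun n c => n (c - q), map_one' := rfl, map_mul' := fun _ _ => rfl }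
  have h : (MulAut.conj (HP8a_T p t q)).toMonoidHom.comp (HP8a_P p M t a ha hg) =
      (HP8a_P p M t a ha hg).comp S := by
    apply MonoidHom.pi_ext
    intro i x
    have hS : S (Pi.mulSingle i x) = Pi.mulSingle (q + i) x := by
      funext c
      show (Pi.mulSingle i x : ZMod p → Multiplicative (ZMod M)) (c - q) = _
      by_cases hc : c = q + i
      · subst hc
        rw [add_sub_cancel_left, Pi.mulSingle_eq_same, Pi.mulSingle_eq_same]
      · rw [Pi.mulSingle_eq_of_ne hc, Pi.mulSingle_eq_of_ne]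
        intro h
        apply hc
        rw [← h]
        ring
    rw [MonoidHom.comp_apply, MonoidHom.comp_apply, hS]
    unfold HP8a_P
    rw [MonoidHom.noncommPiCoprod_mulSingle, MonoidHom.noncommPiCoprod_mulSingle, HP8a_phi_apply,
      HP8a_phi_apply, ← HP8a_conj t a ht, conj_pow]
    rfl
  exact DFunLike.congr_fun h n

/-- the homomorphism -/
noncomputable def HP8a_psi (p M : ℕ) [NeZero M] [NeZero p] (t a : G) (ht : t ^ p = 1)
    (ha : a ^ M = 1) (hg : Good p t a) : GP p M →* G :=
  MonoidHom.mk' (fun g => HP8a_P p M t a ha hg (fun c => g.left (Multiplicative.ofAdd c)) *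
    HP8a_T p t (qP g)) (by
      intro g h
      have h1 : qP (g * h) = qP g + qP h := rfl
      have h2 : (fun c => (g * h).left (Multiplicative.ofAdd c)) =
          (fun c => g.left (Multiplicative.ofAdd c)) *
            (fun c => (fun c' => h.left (Multiplicative.ofAdd c')) (c - qP g)) := by
        funext c
        show g.left (Multiplicative.ofAdd c) * h.left (g.right⁻¹ * Multiplicative.ofAdd c) =
          g.left (Multiplicative.ofAdd c) * h.left (Multiplicative.ofAdd (c - qP g))
        congr 2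
        show Multiplicative.ofAdd (- qP g + c) = Multiplicative.ofAdd (c - qP g)
        rw [neg_add_eq_sub]
      rw [h1, h2, map_mul, HP8a_T_add t ht, ← HP8a_P_conj p M t a ht ha hg (qP g)
        (fun c' => h.left (Multiplicative.ofAdd c'))]
      group)

theorem HP8a_psi_apply (p M : ℕ) [NeZero M] [NeZero p] (t a : G) (ht : t ^ p = 1)
    (ha : a ^ M = 1) (hg : Good p t a) (g : GP p M) :
    HP8a_psi p M t a ht ha hg g = HP8a_P p M t a ha hg (fun c => g.left (Multiplicative.ofAdd c)) *
      HP8a_T p t (qP g) := rfl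

theorem HP8a_P_one (p M : ℕ) [NeZero M] [NeZero p] (t a : G) (ht : t ^ p = 1)
    (ha : a ^ M = 1) (hg : Good p t a) :
    HP8a_P p M t a ha hg (fun _ => Multiplicative.ofAdd 1) = 1 := by
  classical
  unfold HP8a_P
  rw [MonoidHom.noncommPiCoprod_apply]
  have hl : ((List.range p).map (fun i : ℕ => (i : ZMod p))).Nodup := by
    refine (List.nodup_range).map_on ?_
    intro x hx y hy hxy
    rw [List.mem_range] at hx hy
    have := (ZMod.natCast_eq_natCast_iff' x y p).1 hxy
    rwa [Nat.mod_eq_of_lt hx, Nat.mod_eq_of_lt hy] at this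
  have hu : (Finset.univ : Finset (ZMod p)) =
      ((List.range p).map (fun i : ℕ => (i : ZMod p))).toFinset := by
    symm
    rw [Finset.eq_univ_iff_forall]
    intro x
    rw [List.mem_toFinset, List.mem_map]
    exact ⟨x.val, List.mem_range.2 (ZMod.val_lt x), ZMod.natCast_zmod_val x⟩
  have hA : ∀ c : ZMod p, HP8a_phi p M t a ha c (Multiplicative.ofAdd 1) = HP8a_A p t a c := by
    intro c
    rw [HP8a_phi_apply]
    have h1 : (Multiplicative.toAdd (Multiplicative.ofAdd (1 : ZMod M))) = ((1 : ℕ) : ZMod M) := by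
      simp
    rw [h1, HP8a_pow _ (HP8a_A_pow p M t a ha c), pow_one]
  have hcomm : ((((List.range p).map (fun i : ℕ => (i : ZMod p))).toFinset : Finset (ZMod p)) :
      Set (ZMod p)).Pairwise (Function.onFun Commute (HP8a_A p t a)) := by
    intro x _ y _ _
    exact hg.1 x.val y.val
  rw [Finset.noncommProd_congr (g := HP8a_A p t a) hu (fun x _ => hA x)]
  rw [Finset.noncommProd_toFinset _ _ hcomm hl, List.map_map]
  rw [← hg.2]
  congr 1
  refine List.map_congr_left fun i _ => ?_
  show HP8a_A p t a (i : ZMod p) = t ^ i * a * (t ^ i)⁻¹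
  unfold HP8a_A HP8a_T
  rw [HP8a_pow t ht]

theorem HP8a_P_const (p M : ℕ) [NeZero M] [NeZero p] (t a : G) (ht : t ^ p = 1)
    (ha : a ^ M = 1) (hg : Good p t a) (n : ZMod M) :
    HP8a_P p M t a ha hg (fun _ => Multiplicative.ofAdd n) = 1 := by
  have h : (fun _ => Multiplicative.ofAdd n : ZMod p → Multiplicative (ZMod M)) =
      (fun _ => Multiplicative.ofAdd 1) ^ n.val := by
    funext c
    rw [Pi.pow_apply, ← ofAdd_nsmul]
    simp
  rw [h, map_pow, HP8a_P_one p M t a ht ha hg, one_pow]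

theorem HP8a_P_pow (p M : ℕ) [NeZero M] [NeZero p] (t a : G)
    (ha : a ^ M = 1) (hg : Good p t a) (n : ZMod p → Multiplicative (ZMod M)) :
    HP8a_P p M t a ha hg n ^ M = 1 := by
  rw [← map_pow]
  have : n ^ M = 1 := by
    funext c
    rw [Pi.pow_apply, Pi.one_apply]
    apply Multiplicative.toAdd.injective
    rw [toAdd_pow, toAdd_one, nsmul_eq_mul, CharP.cast_eq_zero, zero_mul]
  rw [this, map_one]

end

theorem HP8a_gpow (p M : ℕ) [NeZero M] (g : GP p M) (hg : g.right = 1) : g ^ M = 1 := by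
  have h : ∀ n : ℕ, (g ^ n).right = 1 ∧ ∀ x, (g ^ n).left x = g.left x ^ n := by
    intro n
    induction n with
    | zero => exact ⟨rfl, fun x => (pow_zero _).symm⟩
    | succ n ih =>
      refine ⟨?_, fun x => ?_⟩
      · rw [pow_succ, RegularWreathProduct.mul_right, ih.1, hg, one_mul]
      · rw [pow_succ, RegularWreathProduct.mul_left, Pi.mul_apply, ih.1, ih.2, inv_one, one_mul,
          pow_succ]
  obtain ⟨h1, h2⟩ := h M
  refine RegularWreathProduct.ext ?_ h1
  funext x
  rw [h2]
  show g.left x ^ M = 1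
  apply Multiplicative.toAdd.injective
  rw [toAdd_pow, toAdd_one, nsmul_eq_mul, CharP.cast_eq_zero, zero_mul]

theorem prf_HP8a : HP8a := by
  intro p _ M hM G _ t a hto ha hg
  classical
  have hpp : p.Prime := Fact.out
  have hM0 : M ≠ 0 := by
    rintro rfl
    exact hM (dvd_zero p)
  have : NeZero M := ⟨hM0⟩
  have : NeZero p := ⟨hpp.ne_zero⟩
  have ht : t ^ p = 1 := by
    rw [← hto]
    exact pow_orderOf_eq_one t
  have hvt : (1 : ZMod p).val = 1 := by
    have : Fact (1 < p) := ⟨hpp.one_lt⟩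
    exact ZMod.val_one p
  have hψt : HP8a_psi p M t a ht ha hg (tP p M) = t := by
    rw [HP8a_psi_apply]
    have h1 : (fun c => (tP p M).left (Multiplicative.ofAdd c)) =
        (1 : ZMod p → Multiplicative (ZMod M)) := rfl
    have h2 : HP8a_T p t (qP (tP p M)) = t := by
      show t ^ (1 : ZMod p).val = t
      rw [hvt, pow_one]
    rw [h1, map_one, one_mul, h2]
  refine ⟨HP8a_psi p M t a ht ha hg, hψt, ?_, ?_, ?_⟩
  · apply le_antisymm
    · rintro _ ⟨g, rfl⟩
      rw [HP8a_psi_apply]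
      have htm : t ∈ Subgroup.closure {t, a} := Subgroup.subset_closure (by simp)
      have ham : a ∈ Subgroup.closure {t, a} := Subgroup.subset_closure (by simp)
      refine Subgroup.mul_mem _ ?_ (Subgroup.pow_mem _ htm _)
      have h1 : HP8a_P p M t a ha hg (fun c => g.left (Multiplicative.ofAdd c)) ∈
          (HP8a_P p M t a ha hg).range := ⟨_, rfl⟩
      unfold HP8a_P at h1
      rw [MonoidHom.noncommPiCoprod_range] at h1
      have h2 : (⨆ i : ZMod p, (HP8a_phi p M t a ha i).range) ≤ Subgroup.closure {t, a} := by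
        refine iSup_le fun i => ?_
        rintro _ ⟨x, rfl⟩
        rw [HP8a_phi_apply]
        refine Subgroup.pow_mem _ ?_ _
        unfold HP8a_A HP8a_T
        exact Subgroup.mul_mem _ (Subgroup.mul_mem _ (Subgroup.pow_mem _ htm _) ham)
          (Subgroup.inv_mem _ (Subgroup.pow_mem _ htm _))
      exact h2 h1
    · rw [Subgroup.closure_le]
      rintro x hx
      rcases hx with rfl | hx
      · exact ⟨tP p M, hψt⟩
      · rw [Set.mem_singleton_iff] at hx
        subst hx
        refine ⟨⟨fun c => (Pi.mulSingle (0 : ZMod p) (Multiplicative.ofAdd (1 : ZMod M)) :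
          ZMod p → Multiplicative (ZMod M)) (Multiplicative.toAdd c), 1⟩, ?_⟩
        rw [HP8a_psi_apply]
        have h1 : (fun c => (⟨fun c => (Pi.mulSingle (0 : ZMod p)
            (Multiplicative.ofAdd (1 : ZMod M)) : ZMod p → Multiplicative (ZMod M))
            (Multiplicative.toAdd c), 1⟩ : GP p M).left (Multiplicative.ofAdd c)) =
            (Pi.mulSingle (0 : ZMod p) (Multiplicative.ofAdd (1 : ZMod M)) :
              ZMod p → Multiplicative (ZMod M)) := rfl
        rw [h1]
        have h3 : HP8a_T p t (qP (⟨fun c => (Pi.mulSingle (0 : ZMod p)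
            (Multiplicative.ofAdd (1 : ZMod M)) : ZMod p → Multiplicative (ZMod M))
            (Multiplicative.toAdd c), 1⟩ : GP p M)) = 1 := by
          show t ^ (0 : ZMod p).val = 1
          rw [ZMod.val_zero, pow_zero]
        rw [h3, mul_one]
        unfold HP8a_P
        rw [MonoidHom.noncommPiCoprod_mulSingle, HP8a_phi_apply]
        have h4 : (Multiplicative.toAdd (Multiplicative.ofAdd (1 : ZMod M))) =
            ((1 : ℕ) : ZMod M) := by simp
        rw [h4, HP8a_pow _ (HP8a_A_pow p M t x ha 0), pow_one]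
        unfold HP8a_A HP8a_T
        rw [ZMod.val_zero, pow_zero]
        group
  · -- the kernel
    intro hdvd
    have : Finite (GP p M) := by
      have : Finite (Multiplicative (ZMod M)) := inferInstanceAs (Finite (ZMod M))
      have : Finite (Multiplicative (ZMod p)) := inferInstanceAs (Finite (ZMod p))
      infer_instance
    obtain ⟨x, hx⟩ := exists_prime_orderOf_dvd_card' (G := (HP8a_psi p M t a ht ha hg).ker) p hdvd
    have hker : HP8a_psi p M t a ht ha hg (x : GP p M) = 1 := x.2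
    rw [HP8a_psi_apply] at hker
    set n : ZMod p → Multiplicative (ZMod M) :=
      fun c => (x : GP p M).left (Multiplicative.ofAdd c) with hn
    have hT : HP8a_T p t (qP (x : GP p M)) = (HP8a_P p M t a ha hg n)⁻¹ :=
      eq_inv_of_mul_eq_one_right hker
    have hTM : HP8a_T p t (qP (x : GP p M)) ^ M = 1 := by
      rw [hT, inv_pow, HP8a_P_pow, inv_one]
    have hTp : HP8a_T p t (qP (x : GP p M)) ^ p = 1 := by
      unfold HP8a_T
      rw [← pow_mul, mul_comm, pow_mul, ht, one_pow]
    have hT1 : HP8a_T p t (qP (x : GP p M)) = 1 := by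
      have h1 : orderOf (HP8a_T p t (qP (x : GP p M))) ∣ Nat.gcd p M :=
        Nat.dvd_gcd (orderOf_dvd_of_pow_eq_one hTp) (orderOf_dvd_of_pow_eq_one hTM)
      rw [(Nat.Prime.coprime_iff_not_dvd hpp).2 hM, Nat.dvd_one] at h1
      exact orderOf_eq_one_iff.1 h1
    have hq : qP (x : GP p M) = 0 := by
      unfold HP8a_T at hT1
      have h1 := orderOf_dvd_of_pow_eq_one hT1
      rw [hto] at h1
      have h2 : (qP (x : GP p M)).val = 0 :=
        Nat.eq_zero_of_dvd_of_lt h1 (ZMod.val_lt _)
      exact (ZMod.val_eq_zero _).1 h2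
    have hright : (x : GP p M).right = 1 := Multiplicative.toAdd.injective hq
    have h3 := HP8a_gpow p M (x : GP p M) hright
    have h4 : x ^ M = 1 := by
      apply Subtype.ext
      exact_mod_cast h3
    have h5 := orderOf_dvd_of_pow_eq_one h4
    rw [hx] at h5
    exact hM h5
  · intro g hq hn
    rw [HP8a_psi_apply]
    have h1 : (fun c => g.left (Multiplicative.ofAdd c)) =
        (fun _ => Multiplicative.ofAdd (nP g 0) : ZMod p → Multiplicative (ZMod M)) := by
      funext c
      exact Multiplicative.toAdd.injective (hn c)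
    rw [h1, HP8a_P_const p M t a ht ha hg, hq]
    show 1 * t ^ (0 : ZMod p).val = 1
    rw [ZMod.val_zero, pow_zero, one_mul]

end MP7b0bad

end
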