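import Mathlib.GroupTheory.SpecificGroups.Alternating.KleinFour
import Pool.Agent.Work.MP_7b0bad_ag.Bd.B04
import Pool.Agent.Work.MP_7b0bad_ag.Bd.B01
import Pool.Agent.Work.MP_7b0bad_ag.Bd.B02
import Pool.Agent.Work.MP_7b0bad_ag.Bd.B05
import Pool.Agent.Work.MP_7b0bad_ag.Bd.B03

/-! Bundle of small proof modules (one section per former module). -/

section

set_option autoImplicit false

namespace MP7b0bad

open Polynomial

section

variable {Γ B : Type} [Group Γ] [Finite Γ] [CommRing B] [MulSemiringAction Γ B]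

omit [Finite Γ] in
/-- traces are fixed -/
theorem HQ_tr (N : Subgroup Γ) [Fintype N] (b : B) (n : Γ) (hn : n ∈ N) :
    n • ∑ m : N, (m : Γ) • b = ∑ m : N, (m : Γ) • b := by
  rw [Finset.smul_sum]
  refine Fintype.sum_equiv (Equiv.mulLeft (⟨n, hn⟩ : N)) _ _ fun m => ?_
  rw [smul_smul]
  rfl

theorem HQ_main (hE2g : E2g) [Nontrivial B] (N : Subgroup Γ) [hN : N.Normal]
    (hcov : ∀ σ : Γ, ((∀ b : B, σ • b = b) ∧ σ ∈ N) ∨
      Ideal.span {x : B | ∃ b : B, x = b - σ • b} = ⊤) (g : Γ) (hg : g ∉ N) :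
    ∃ (n : ℕ) (x y : Fin n → B) (c : ℕ), c ∣ Nat.card N * Nat.card N ∧
      (∀ m, ∀ ν ∈ N, ν • x m = x m) ∧ (∀ m, ∀ ν ∈ N, ν • y m = y m) ∧
      ∑ m, x m * (y m - g • y m) = (c : B) := by
  classical
  have : Fintype N := Fintype.ofFinite N
  set S : Set Γ := {σ | ¬ ∀ b : B, σ • b = b} with hS
  obtain ⟨n, x, y, h0, h1⟩ := hE2g Γ B S (Set.toFinite S) (fun σ hσ => by
    rcases hcov σ with h | h
    · exact absurd h.1 hσ
    · exact h)
  have hZN : ∀ σ : Γ, (∀ b : B, σ • b = b) → σ ∈ N := by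
    intro σ hσ
    rcases hcov σ with h | h
    · exact h.2
    · exfalso
      have h2 : Ideal.span {x : B | ∃ b : B, x = b - σ • b} = ⊥ := by
        rw [eq_bot_iff, Ideal.span_le]
        rintro z ⟨b, rfl⟩
        rw [hσ b, sub_self]
        exact Submodule.zero_mem _
      rw [h2] at h
      exact bot_ne_top h
  have he : ∀ σ : Γ, ∑ m, x m * (σ • y m) = if (∀ b : B, σ • b = b) then 1 else 0 := by
    intro σ
    split_ifs with h
    · rw [← h1]
      exact Finset.sum_congr rfl fun m _ => by rw [h]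
    · exact h0 σ h
  -- the traces of the `y`
  have htr : ∀ d : Γ, ∑ m, x m * (d • ∑ ν : N, (ν : Γ) • y m) =
      ∑ ν : N, if (∀ b : B, (d * (ν : Γ)) • b = b) then (1 : B) else 0 := by
    intro d
    rw [← Finset.sum_congr rfl fun (ν : N) _ => he (d * (ν : Γ)), Finset.sum_comm]
    refine Finset.sum_congr rfl fun m _ => ?_
    rw [Finset.smul_sum, Finset.mul_sum]
    refine Finset.sum_congr rfl fun ν _ => ?_
    rw [smul_smul]
  have htg : ∑ m, x m * (g • ∑ ν : N, (ν : Γ) • y m) = 0 := by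
    rw [htr]
    refine Finset.sum_eq_zero fun ν _ => ?_
    rw [if_neg]
    intro h
    apply hg
    have h2 := hZN _ h
    exact (Subgroup.mul_mem_cancel_right N ν.2).1 h2
  -- the subgroup of trivial elements
  let Z : Subgroup N :=
    { carrier := {ν | ∀ b : B, (ν : Γ) • b = b}
      one_mem' := fun b => by simp
      mul_mem' := fun {u v} hu hv b => by
        rw [Subgroup.coe_mul, mul_smul, hv b, hu b]
      inv_mem' := fun {u} hu b => by
        rw [Subgroup.coe_inv, inv_smul_eq_iff, hu b] }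
  have ht1 : ∑ m, x m * ∑ ν : N, (ν : Γ) • y m = ((Nat.card Z : ℕ) : B) := by
    have h2 := htr 1
    simp only [one_smul, one_mul] at h2
    rw [h2, Finset.sum_boole]
    congr 1
    rw [Nat.card_eq_fintype_card, Fintype.card_subtype]
    rfl
  refine ⟨n, fun m => ∑ ν : N, (ν : Γ) • x m, fun m => ∑ ν : N, (ν : Γ) • y m,
    Nat.card N * Nat.card Z, Nat.mul_dvd_mul_left _ (Subgroup.card_subgroup_dvd_card Z),
    fun m ν hν => HQ_tr N _ ν hν, fun m ν hν => HQ_tr N _ ν hν, ?_⟩
  have hV : ∀ (m : Fin n) (ν : N), (ν : Γ) • (∑ ν' : N, (ν' : Γ) • y m -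
      g • ∑ ν' : N, (ν' : Γ) • y m) =
      ∑ ν' : N, (ν' : Γ) • y m - g • ∑ ν' : N, (ν' : Γ) • y m := by
    intro m ν
    rw [smul_sub, HQ_tr N _ _ ν.2]
    congr 1
    have h2 : (ν : Γ) * g = g * (g⁻¹ * ν * g) := by group
    rw [smul_smul, h2, mul_smul, HQ_tr N _ _ (by
      have := hN.conj_mem ν ν.2 g⁻¹
      simpa using this)]
  have hsum : ∑ m, x m * (∑ ν' : N, (ν' : Γ) • y m - g • ∑ ν' : N, (ν' : Γ) • y m) =
      ((Nat.card Z : ℕ) : B) := by
    simp only [mul_sub, Finset.sum_sub_distrib]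
    rw [ht1, htg, sub_zero]
  have hsum2 : ∀ ν : N, ∑ m, ((ν : Γ) • x m) *
      (∑ ν' : N, (ν' : Γ) • y m - g • ∑ ν' : N, (ν' : Γ) • y m) = ((Nat.card Z : ℕ) : B) := by
    intro ν
    have h2 := congrArg (fun z => (ν : Γ) • z) hsum
    simp only [Finset.smul_sum (s := (Finset.univ : Finset (Fin n)))] at h2
    have h3 : (ν : Γ) • ((Nat.card Z : ℕ) : B) = ((Nat.card Z : ℕ) : B) :=
      map_natCast (MulSemiringAction.toRingHom Γ B (ν : Γ)) _
    rw [h3] at h2
    rw [← h2]
    refine Finset.sum_congr rfl fun m _ => ?_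
    rw [smul_mul', hV]
  calc ∑ m, (∑ ν : N, (ν : Γ) • x m) *
        (∑ ν : N, (ν : Γ) • y m - g • ∑ ν : N, (ν : Γ) • y m)
      = ∑ ν : N, ∑ m, ((ν : Γ) • x m) *
        (∑ ν' : N, (ν' : Γ) • y m - g • ∑ ν' : N, (ν' : Γ) • y m) := by
        rw [Finset.sum_comm]
        refine Finset.sum_congr rfl fun m _ => ?_
        rw [Finset.sum_mul]
    _ = ((Nat.card N * Nat.card Z : ℕ) : B) := by
        rw [Finset.sum_congr rfl fun ν _ => hsum2 ν, Finset.sum_const, Finset.card_univ,
          nsmul_eq_mul, Nat.card_eq_fintype_card (α := N)]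
        push_cast
        rfl

end

section

variable {Γ A B : Type} [Group Γ] [CommRing A] [CommRing B] [Algebra A B] [MulSemiringAction Γ B]

/-- the fixed algebra -/
def HQ_fix (hcomm : ∀ (g : Γ) (a : A), g • algebraMap A B a = algebraMap A B a)
    (N : Subgroup Γ) : Subalgebra A B where
  carrier := {b | ∀ ν ∈ N, ν • b = b}
  mul_mem' := fun {a b} ha hb ν hν => by rw [smul_mul', ha ν hν, hb ν hν]
  add_mem' := fun {a b} ha hb ν hν => by rw [smul_add, ha ν hν, hb ν hν]
  algebraMap_mem' := fun a ν _ => hcomm ν a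

theorem HQ_stable (hcomm : ∀ (g : Γ) (a : A), g • algebraMap A B a = algebraMap A B a)
    (N : Subgroup Γ) [hN : N.Normal] (g : Γ) (b : B) (hb : b ∈ HQ_fix hcomm N) :
    g • b ∈ HQ_fix hcomm N := by
  intro ν hν
  have h2 : ν * g = g * (g⁻¹ * ν * g) := by group
  rw [smul_smul, h2, mul_smul]
  congr 1
  apply hb
  have := hN.conj_mem ν hν g⁻¹
  simpa using this

/-- the action of the whole group on the fixed algebra -/
@[instance_reducible]
def HQ_act (hcomm : ∀ (g : Γ) (a : A), g • algebraMap A B a = algebraMap A B a)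
    (N : Subgroup Γ) [N.Normal] : MulSemiringAction Γ (HQ_fix hcomm N) where
  smul g b := ⟨g • (b : B), HQ_stable hcomm N g b b.2⟩
  one_smul b := Subtype.ext (one_smul Γ (b : B))
  mul_smul g h b := Subtype.ext (mul_smul g h (b : B))
  smul_zero g := Subtype.ext (smul_zero g)
  smul_add g a b := Subtype.ext (smul_add g (a : B) (b : B))
  smul_one g := Subtype.ext (smul_one g)
  smul_mul g a b := Subtype.ext (smul_mul' g (a : B) (b : B))

/-- the action of the image of a homomorphism -/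
noncomputable def HQ_rho (hcomm : ∀ (g : Γ) (a : A), g • algebraMap A B a = algebraMap A B a)
    {G : Type} [Group G] (ψ : Γ →* G) : ψ.range →* RingAut (HQ_fix hcomm ψ.ker) :=
  letI := HQ_act hcomm ψ.ker
  (QuotientGroup.lift ψ.ker (MulSemiringAction.toRingAut Γ (HQ_fix hcomm ψ.ker)) (by
    intro g hg
    ext b
    exact b.2 g hg)).comp (QuotientGroup.quotientKerEquivRange ψ).symm.toMonoidHom

theorem HQ_rho_apply (hcomm : ∀ (g : Γ) (a : A), g • algebraMap A B a = algebraMap A B a)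
    {G : Type} [Group G] (ψ : Γ →* G) (g : Γ) (h : ψ g ∈ ψ.range) (b : HQ_fix hcomm ψ.ker) :
    (HQ_rho hcomm ψ ⟨ψ g, h⟩ b : B) = g • (b : B) := by
  letI := HQ_act hcomm ψ.ker
  have h1 : (QuotientGroup.quotientKerEquivRange ψ).symm ⟨ψ g, h⟩ = QuotientGroup.mk g := by
    rw [MulEquiv.symm_apply_eq]
    rfl
  unfold HQ_rho
  rw [MonoidHom.comp_apply]
  show ((QuotientGroup.lift ψ.ker (MulSemiringAction.toRingAut Γ (HQ_fix hcomm ψ.ker)) _
    ((QuotientGroup.quotientKerEquivRange ψ).symm ⟨ψ g, h⟩)) b : B) = g • (b : B)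
  rw [h1]
  rfl

end

theorem prf_HQ (hE2g : E2g) : HQ := by
  intro k _ p M _ _ Γ _ _ t B _ _ _ _ ι G _ ψ hinj hcomm hfin hinv hcov hιa hιt hpN
  have hpp : p.Prime := Fact.out
  classical
  let B' : Subalgebra k[X] B := HQ_fix hcomm ψ.ker
  letI act : MulSemiringAction ψ.range B' := MulSemiringAction.compHom B' (HQ_rho hcomm ψ)
  have hact : ∀ (g : Γ) (h : ψ g ∈ ψ.range) (b : B'),
      (((⟨ψ g, h⟩ : ψ.range) • b : B') : B) = g • (b : B) :=
    fun g h b => HQ_rho_apply hcomm ψ g h b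
  have hmem : ∀ g : Γ, ψ g ∈ ψ.range := fun g => ⟨g, rfl⟩
  refine ⟨{
    B := B'
    dom := inferInstance
    inj := ?_
    comm := ?_
    fin := ?_
    inv := ?_
    unr := ?_
    ι := ι.comp B'.val.toRingHom
    ι_alg := fun a => hιa a
    ι_t := ?_ }⟩
  · intro a b hab
    apply hinj
    exact congrArg (fun z : B' => (z : B)) hab
  · rintro ⟨_, g, rfl⟩ a
    apply Subtype.ext
    exact (hact g (hmem g) _).trans (hcomm g a)
  · exact inferInstanceAs (Module.Finite k[X] (Subalgebra.toSubmodule B'))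
  · intro b hb
    obtain ⟨a, ha⟩ := hinv (b : B) (fun g => by
      have h := congrArg (fun z : B' => (z : B)) (hb ⟨ψ g, g, rfl⟩)
      exact (hact g ⟨g, rfl⟩ b).symm.trans h)
    exact ⟨a, Subtype.ext ha⟩
  · rintro ⟨_, g, rfl⟩ hg
    have hgN : g ∉ ψ.ker := by
      intro h
      apply hg
      apply Subtype.ext
      exact h
    obtain ⟨n, x, y, c, hc, hx, hy, hxy⟩ := HQ_main hE2g ψ.ker (fun σ => by
      rcases hcov σ with h | h
      · exact Or.inl ⟨h.1, h.2⟩
      · exact Or.inr h) g hgN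
    have hck : (c : k) ≠ 0 := by
      intro h
      rw [CharP.cast_eq_zero_iff k p] at h
      rcases (Nat.Prime.dvd_mul hpp).1 (h.trans hc) with h1 | h1
      · exact hpN h1
      · exact hpN h1
    rw [Ideal.eq_top_iff_one]
    let x' : Fin n → B' := fun m => ⟨x m, hx m⟩
    let y' : Fin n → B' := fun m => ⟨y m, hy m⟩
    have h1 : (1 : B') = algebraMap k[X] B' (C ((c : k)⁻¹)) *
        ∑ m, x' m * (y' m - (⟨ψ g, hmem g⟩ : ψ.range) • y' m) := by
      apply Subtype.ext
      have h2 : ((∑ m, x' m * (y' m - (⟨ψ g, hmem g⟩ : ψ.range) • y' m) : B') : B) =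
          ∑ m, x m * (y m - g • y m) := by
        rw [AddSubmonoidClass.coe_finsetSum]
        refine Finset.sum_congr rfl fun m _ => ?_
        show x m * (y m - (((⟨ψ g, hmem g⟩ : ψ.range) • y' m : B') : B)) = _
        rw [hact g (hmem g) (y' m)]
      show (1 : B) = algebraMap k[X] B (C ((c : k)⁻¹)) *
        ((∑ m, x' m * (y' m - (⟨ψ g, hmem g⟩ : ψ.range) • y' m) : B') : B)
      rw [h2, hxy]
      have h3 : ((c : ℕ) : B) = algebraMap k[X] B (C (c : k)) := by
        rw [map_natCast, map_natCast]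
      rw [h3, ← map_mul, ← C_mul, inv_mul_cancel₀ hck, C_1, map_one]
    rw [h1]
    refine Ideal.mul_mem_left _ _ (Ideal.sum_mem _ fun m _ => Ideal.mul_mem_left _ _ ?_)
    exact Ideal.subset_span ⟨y' m, rfl⟩
  · intro b
    have h1 : (((⟨ψ t, hmem t⟩ : ψ.range) • b : B') : B) = t • (b : B) := hact t (hmem t) b
    show ι (((⟨ψ t, hmem t⟩ : ψ.range) • b : B') : B) = tQ k p M (ι (b : B))
    rw [h1, hιt]

end MP7b0bad

end

section

/-!
Alternating groups: an involution together with the elements of odd order inverted by it.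
-/

namespace MP7b0bad

open Equiv Equiv.Perm

theorem J3_mem {n : ℕ} {t : alternatingGroup (Fin n)} :
    J2_P (t : Perm (Fin n)) ((Ht t).map (alternatingGroup (Fin n)).subtype) := by
  intro w h1 h2
  have hs : sign w = 1 := by
    have h3 : sign w ^ (orderOf w) = 1 := by rw [← map_pow, pow_orderOf_eq_one, map_one]
    obtain ⟨k, hk⟩ := h1
    rw [hk, pow_succ, pow_mul, Int.units_sq, one_pow, one_mul] at h3
    exact h3
  refine ⟨⟨w, mem_alternatingGroup.mpr hs⟩, Subgroup.subset_closure (Or.inr ⟨?_, ?_⟩), rfl⟩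
  · rw [← Subgroup.orderOf_coe]; exact h1
  · exact Subtype.ext h2

theorem J3_small {n : ℕ} (t : alternatingGroup (Fin n)) (ht2 : orderOf t = 2)
    (hnc : Subgroup.normalClosure {t} = ⊤) : 5 ≤ n := by
  by_contra hlt
  push Not at hlt
  have hdvd : 2 ∣ Nat.card (alternatingGroup (Fin n)) := ht2 ▸ orderOf_dvd_natCard t
  by_cases h4 : n = 4
  · subst h4
    have hα : Nat.card (Fin 4) = 4 := by simp
    have hnorm : (alternatingGroup.kleinFour (Fin 4)).Normal := alternatingGroup.normal_kleinFour hα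
    have h1 : Subgroup.normalClosure {t} ≤ alternatingGroup.kleinFour (Fin 4) := by
      apply Subgroup.normalClosure_le_normal
      rw [Set.singleton_subset_iff, alternatingGroup.coe_kleinFour_of_card_eq_four hα]
      have h2 := alternatingGroup.mem_kleinFour_of_order_two_pow hα t.2 (n := 1)
        (by rw [Subgroup.orderOf_coe, ht2, pow_one])
      rcases h2 with h2 | h2
      · left
        have h3 : (t : Perm (Fin 4)) = 1 := by
          rw [← cycleType_eq_zero]; exact h2
        exact Subtype.ext h3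
      · right; exact h2
    rw [hnc, top_le_iff] at h1
    have h3 := alternatingGroup.kleinFour_card_of_card_eq_four hα
    rw [h1, Subgroup.card_top, alternatingGroup.card_of_card_eq_four hα] at h3
    omega
  · by_cases h2 : n < 2
    · have : Subsingleton (Fin n) := by
        interval_cases n <;> infer_instance
      have h3 : t = 1 := Subtype.ext (Subsingleton.elim _ _)
      rw [h3, orderOf_one] at ht2
      omega
    · have : Nontrivial (Fin n) := Fin.nontrivial_iff_two_le.mpr (by omega)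
      rw [nat_card_alternatingGroup, Nat.card_fin] at hdvd
      have h3 : n = 2 ∨ n = 3 := by omega
      rcases h3 with rfl | rfl
      · exact absurd hdvd (by decide)
      · exact absurd hdvd (by decide)

theorem prf_J3 : J3 := by
  intro n t ht2 hnc
  have hn5 := J3_small t ht2 hnc
  have hs2 : orderOf (t : Perm (Fin n)) = 2 := by rw [Subgroup.orderOf_coe, ht2]
  have htt : (t : Perm (Fin n)) * t = 1 := by rw [← pow_two, ← hs2, pow_orderOf_eq_one]
  have ht : ∀ x, (t : Perm (Fin n)) ((t : Perm (Fin n)) x) = x := fun x => by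
    have := congrArg (fun p : Perm (Fin n) => p x) htt
    simpa using this
  have ht1 : (t : Perm (Fin n)) ≠ 1 := by
    intro h
    rw [h, orderOf_one] at hs2
    omega
  obtain ⟨a, ha⟩ : ∃ a, (t : Perm (Fin n)) a ≠ a := by
    by_contra hcon
    push Not at hcon
    exact ht1 (Equiv.ext hcon)
  have halt : alternatingGroup (Fin n) ≤ (Ht t).map (alternatingGroup (Fin n)).subtype := by
    apply J2_alt J3_mem ht ha
    intro c _ _ _
    have hcard : ({a, (t : Perm (Fin n)) a, c, (t : Perm (Fin n)) c} : Finset (Fin n)).card <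
        Fintype.card (Fin n) := by
      rw [Fintype.card_fin]
      exact lt_of_le_of_lt Finset.card_le_four (by omega)
    obtain ⟨e, he⟩ : ∃ e, e ∉ ({a, (t : Perm (Fin n)) a, c, (t : Perm (Fin n)) c} :
        Finset (Fin n)) := by
      by_contra hcon
      push Not at hcon
      have := Finset.eq_univ_iff_forall.mpr hcon
      rw [this, Finset.card_univ] at hcard
      omega
    simp only [Finset.mem_insert, Finset.mem_singleton, not_or] at he
    exact ⟨e, he⟩
  rw [eq_top_iff]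
  intro g _
  obtain ⟨g', hg', hgg⟩ := halt g.2
  have : g' = g := Subtype.ext hgg
  rwa [← this]

end MP7b0bad

end

section

set_option autoImplicit false

namespace MP7b0bad

open Matrix

/-! ### transvections -/

section

variable {n F : Type} [Fintype n] [DecidableEq n] [Field F]

theorem J4_sn {y z : n} (h : y ≠ z) (x w : n) (c d : F) :
    (single x y c * single z w d : Matrix n n F) = 0 := by
  rw [Matrix.single_mul_single_of_ne]
  exact h

omit [Fintype n] in
theorem J4_neg (x y : n) (c : F) : (single x y (-c) : Matrix n n F) = - single x y c := by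
  rw [← Matrix.single_neg]

/-- the matrix `1 - e_ii - e_jj + a E_ij - a⁻¹ E_ji` -/
theorem J4_w (i j : n) (hij : i ≠ j) (a b : F) (hab : a * b = 1) :
    (Matrix.transvection i j a) * (Matrix.transvection j i (-b)) * (Matrix.transvection i j a) =
      1 - single i i 1 - single j j 1 + single i j a - single j i b := by
  have hji : j ≠ i := hij.symm
  have h1 : (1 + single i j a : Matrix n n F) * (1 + single j i (-b)) =
      1 + single i j a + single j i (-b) + single i i (-1) := by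
    rw [mul_add, mul_one, add_mul, one_mul, single_mul_single_same]
    rw [show a * -b = -1 by linear_combination -hab]
    abel
  unfold Matrix.transvection
  rw [h1]
  rw [mul_add, mul_one, add_mul, add_mul, add_mul, one_mul, J4_sn hji,
    single_mul_single_same, single_mul_single_same]
  rw [show -b * a = -1 by linear_combination -hab, neg_one_mul]
  rw [J4_neg i i, J4_neg j j, J4_neg i j, J4_neg j i]
  abel

theorem J4_diag (i j : n) (hij : i ≠ j) (a b : F) :
    (1 - single i i 1 - single j j 1 + single i j a - single j i b : Matrix n n F) *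
      (1 - single i i 1 - single j j 1 + single i j (-1) - single j i (-1)) =
      Matrix.diagonal (fun k => if k = i then a else if k = j then b else 1) := by
  have hji : j ≠ i := hij.symm
  have h3 : Matrix.diagonal (fun k => if k = i then a else if k = j then b else 1) =
      (1 - single i i 1 - single j j 1 + single i i a + single j j b : Matrix n n F) := by
    ext k l
    simp only [Matrix.diagonal_apply, Matrix.add_apply, Matrix.sub_apply, Matrix.one_apply,
      Matrix.single_apply]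
    by_cases hkl : k = l
    · subst hkl
      by_cases hki : k = i
      · subst hki
        simp [hji]
      · by_cases hkj : k = j
        · subst hkj
          simp [hki, hij]
        · simp [hki, hkj, Ne.symm hki, Ne.symm hkj]
    · have h4 : ∀ x : n, ¬ (x = k ∧ x = l) := by
        rintro x ⟨rfl, h⟩
        exact hkl h
      simp [hkl, h4]
  rw [h3, J4_neg i j, J4_neg j i]
  simp only [mul_add, add_mul, mul_sub, sub_mul, mul_one, one_mul, mul_neg, sub_neg_eq_add,
    single_mul_single_same, J4_sn hji, J4_sn hij]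
  abel

/-- `diag2n` is a product of transvections -/
theorem J4_diag2n (i j : n) (hij : i ≠ j) (a : F) (ha : a ≠ 0) :
    SpecialLinearGroup.diag2n hij a ha =
      (SpecialLinearGroup.transvection hij a * SpecialLinearGroup.transvection hij.symm (-a⁻¹) *
        SpecialLinearGroup.transvection hij a) *
      (SpecialLinearGroup.transvection hij (-1) * SpecialLinearGroup.transvection hij.symm (-(-1)) *
        SpecialLinearGroup.transvection hij (-1)) := by
  apply Subtype.ext
  show Matrix.diagonal (fun k ↦ if k = i then a else if k = j then a⁻¹ else 1) =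
    (Matrix.transvection i j a * Matrix.transvection j i (-a⁻¹) * Matrix.transvection i j a) *
    (Matrix.transvection i j (-1) * Matrix.transvection j i (-(-1)) * Matrix.transvection i j (-1))
  rw [J4_w i j hij a a⁻¹ (mul_inv_cancel₀ ha), J4_w i j hij (-1) (-1) (by ring),
    J4_diag i j hij a a⁻¹]

/-- the commutator of two transvections -/
theorem J4_comm (i l j : n) (hil : i ≠ l) (hlj : l ≠ j) (hij : i ≠ j) (x : F) :
    SpecialLinearGroup.transvection hil x * SpecialLinearGroup.transvection hlj 1 *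
      (SpecialLinearGroup.transvection hil x)⁻¹ * (SpecialLinearGroup.transvection hlj 1)⁻¹ =
      SpecialLinearGroup.transvection hij x := by
  rw [SpecialLinearGroup.transvection_inv, SpecialLinearGroup.transvection_inv]
  apply Subtype.ext
  show Matrix.transvection i l x * Matrix.transvection l j 1 * Matrix.transvection i l (-x) *
    Matrix.transvection l j (-1) = Matrix.transvection i j x
  unfold Matrix.transvection
  rw [J4_neg i l, J4_neg l j]
  simp only [mul_add, add_mul, mul_one, one_mul, mul_neg, neg_mul,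
    single_mul_single_same, J4_sn hil.symm, J4_sn hlj.symm, J4_sn hij.symm,
    zero_mul]
  abel

/-- generation -/
theorem J4_gen [Nontrivial n] (H : Subgroup (SpecialLinearGroup n F))
    (h : ∀ (i j : n) (hij : i ≠ j) (x : F), SpecialLinearGroup.transvection hij x ∈ H) :
    ∀ s : SpecialLinearGroup n F, s ∈ H := by
  intro s
  refine SpecialLinearGroup.diagonal_transvection_induction' (fun s => s ∈ H) s ?_ h
    (fun A B hA hB => H.mul_mem hA hB)
  intro i j hij c hc
  rw [J4_diag2n i j hij c hc]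
  exact H.mul_mem (H.mul_mem (H.mul_mem (h _ _ _ _) (h _ _ _ _)) (h _ _ _ _))
    (H.mul_mem (H.mul_mem (h _ _ _ _) (h _ _ _ _)) (h _ _ _ _))

end

/-! ### diagonalisation -/

section

variable {n : ℕ} {F : Type} [Field F]

/-- a sum of powers of a root of unity -/
theorem J4_geom (p : ℕ) (r : F) (hr : r ^ p = 1) (h1 : r ≠ 1) :
    ∑ m ∈ Finset.range p, r ^ m = 0 := by
  have h := mul_geom_sum r p
  rw [hr, sub_self] at h
  exact (mul_eq_zero.1 h).resolve_left (sub_ne_zero.2 h1)

/-- the eigenspaces span -/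
theorem J4_eig (p : ℕ) (hp : (p : F) ≠ 0) (ζ : F) (hζ : IsPrimitiveRoot ζ p)
    {V : Type} [AddCommGroup V] [Module F V] (T : V →ₗ[F] V) (hT : T ^ p = 1) :
    (⨆ μ : F, Module.End.eigenspace T μ) = ⊤ := by
  have hp0 : p ≠ 0 := by
    rintro rfl
    simp at hp
  have hζ0 : ζ ≠ 0 := hζ.ne_zero hp0
  rw [eq_top_iff]
  intro v _
  -- the components
  have hcomp : ∀ i : ℕ, ∑ k ∈ Finset.range p, ((ζ⁻¹ ^ i) ^ k) • (T ^ k) v ∈
      Module.End.eigenspace T (ζ ^ i) := by
    intro i
    rw [Module.End.mem_eigenspace_iff, map_sum, Finset.smul_sum]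
    have e1 : ∀ k : ℕ, T (((ζ⁻¹ ^ i) ^ k) • (T ^ k) v) =
        ζ ^ i • (((ζ⁻¹ ^ i) ^ (k + 1)) • (T ^ (k + 1)) v) := by
      intro k
      rw [map_smul, pow_succ' T k, Module.End.mul_apply, smul_smul]
      congr 1
      rw [pow_succ, mul_comm ((ζ⁻¹ ^ i) ^ k), ← mul_assoc, ← mul_pow, mul_inv_cancel₀ hζ0, one_pow,
        one_mul]
    have e2 : ∑ k ∈ Finset.range p, (((ζ⁻¹ ^ i) ^ (k + 1)) • (T ^ (k + 1)) v) =
        ∑ k ∈ Finset.range p, (((ζ⁻¹ ^ i) ^ k) • (T ^ k) v) := by
      have e3 := Finset.sum_range_succ' (fun k => ((ζ⁻¹ ^ i) ^ k) • (T ^ k) v) p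
      rw [Finset.sum_range_succ] at e3
      have e4 : ((ζ⁻¹ ^ i) ^ p) • (T ^ p) v = ((ζ⁻¹ ^ i) ^ 0) • (T ^ 0) v := by
        rw [hT, pow_zero, pow_zero, ← pow_mul, mul_comm, pow_mul, inv_pow, hζ.pow_eq_one, inv_one,
          one_pow]
      rw [e4] at e3
      exact (add_right_cancel e3).symm
    rw [Finset.sum_congr rfl fun k _ => e1 k, ← Finset.smul_sum, e2, Finset.smul_sum]
  have hsum : ∑ i ∈ Finset.range p, ∑ k ∈ Finset.range p, ((ζ⁻¹ ^ i) ^ k) • (T ^ k) v =
      (p : F) • v := by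
    rw [Finset.sum_comm, ← Finset.sum_erase_add _ _ (Finset.mem_range.2 (Nat.pos_of_ne_zero hp0))]
    have e1 : ∑ k ∈ (Finset.range p).erase 0, ∑ i ∈ Finset.range p,
        ((ζ⁻¹ ^ i) ^ k) • (T ^ k) v = 0 := by
      refine Finset.sum_eq_zero fun k hk => ?_
      rw [Finset.mem_erase, Finset.mem_range] at hk
      rw [← Finset.sum_smul]
      have e2 : ∀ i : ℕ, (ζ⁻¹ ^ i) ^ k = (ζ⁻¹ ^ k) ^ i := fun i => by
        rw [← pow_mul, ← pow_mul, mul_comm]
      rw [Finset.sum_congr rfl fun i _ => e2 i, J4_geom p (ζ⁻¹ ^ k), zero_smul]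
      · rw [← pow_mul, mul_comm, pow_mul, inv_pow, hζ.pow_eq_one, inv_one, one_pow]
      · rw [inv_pow, Ne, inv_eq_one]
        exact hζ.pow_ne_one_of_pos_of_lt hk.1 hk.2
    rw [e1, zero_add]
    simp [Nat.cast_smul_eq_nsmul]
  have hv : v = (p : F)⁻¹ • ∑ i ∈ Finset.range p, ∑ k ∈ Finset.range p,
      ((ζ⁻¹ ^ i) ^ k) • (T ^ k) v := by
    rw [hsum, smul_smul, inv_mul_cancel₀ hp, one_smul]
  rw [hv]
  refine Submodule.smul_mem _ _ (Submodule.sum_mem _ fun i _ => ?_)
  exact Submodule.mem_iSup_of_mem (ζ ^ i) (hcomp i)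

/-- diagonalisation of matrices of order `p` -/
theorem J4_diagz [Finite F] (p : ℕ) (hp : (p : F) ≠ 0) (ζ : F) (hζ : IsPrimitiveRoot ζ p)
    (t : Matrix (Fin n) (Fin n) F) (ht : t ^ p = 1) :
    ∃ (P : Matrix (Fin n) (Fin n) F) (μ : Fin n → F), P.det ≠ 0 ∧
      t * P = P * Matrix.diagonal μ := by
  classical
  have : Fintype F := Fintype.ofFinite F
  set T : (Fin n → F) →ₗ[F] (Fin n → F) := Matrix.toLin' t with hTdef
  have hT : T ^ p = 1 := by
    rw [hTdef, ← Matrix.toLin'_pow, ht, Matrix.toLin'_one]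
    rfl
  have hint : DirectSum.IsInternal (fun μ : F => Module.End.eigenspace T μ) :=
    DirectSum.isInternal_submodule_of_iSupIndep_of_iSup_eq_top
      (Module.End.eigenspaces_iSupIndep T) (J4_eig p hp ζ hζ T hT)
  let b := hint.collectedBasis (fun μ => Module.finBasis F (Module.End.eigenspace T μ))
  have hcard : Fintype.card (Σ μ : F, Fin (Module.finrank F (Module.End.eigenspace T μ))) =
      Fintype.card (Fin n) := by
    rw [← Module.finrank_eq_card_basis b]
    simp
  let e := Fintype.equivOfCardEq hcard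
  let b' := b.reindex e
  refine ⟨(Pi.basisFun F (Fin n)).toMatrix b', fun j => (e.symm j).1, ?_, ?_⟩
  · have h := (Pi.basisFun F (Fin n)).isUnit_det b'
    rw [Module.Basis.det_apply] at h
    exact h.ne_zero
  · ext i j
    have h1 : b' j ∈ Module.End.eigenspace T (e.symm j).1 := by
      show (b.reindex e) j ∈ _
      rw [Module.Basis.reindex_apply]
      exact hint.collectedBasis_mem _ _
    rw [Module.End.mem_eigenspace_iff] at h1
    have h2 : (t *ᵥ b' j) i = (e.symm j).1 * b' j i := by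
      have h3 := congrFun h1 i
      have h4 : ∀ v : Fin n → F, T v = t *ᵥ v := fun v => Matrix.toLin'_apply t v
      rw [h4] at h3
      exact h3
    rw [Matrix.mul_diagonal, mul_comm]
    show _ = (e.symm j).1 * b' j i
    rw [← h2]
    rfl

end

/-! ### the theorem -/

theorem prf_J4 : J4 := by
  intro F _ _ p _ n hpq t hto htc
  classical
  have hpp : p.Prime := Fact.out
  have : Fintype F := Fintype.ofFinite F
  -- `p` is not `0` in `F`
  have hq1 : 1 < Nat.card F := Finite.one_lt_card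
  have hpdq : ¬ p ∣ Nat.card F := by
    intro h
    have h1 := (Nat.dvd_sub h hpq)
    rw [Nat.sub_sub_self hq1.le, Nat.dvd_one] at h1
    exact hpp.one_lt.ne' h1
  have hq0 : ((Nat.card F : ℕ) : F) = 0 := by
    rw [Nat.card_eq_fintype_card]
    exact FiniteField.cast_card_eq_zero F
  have hp0 : (p : F) ≠ 0 := by
    intro h
    have hc : IsCoprime (p : ℤ) (Nat.card F : ℤ) :=
      Nat.isCoprime_iff_coprime.2 ((Nat.Prime.coprime_iff_not_dvd hpp).2 hpdq)
    obtain ⟨a, b, hab⟩ := hc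
    have h1 := congrArg (fun z : ℤ => (z : F)) hab
    push_cast at h1
    rw [h, hq0, mul_zero, mul_zero, add_zero] at h1
    exact zero_ne_one h1
  -- a primitive root of unity
  obtain ⟨ζ, hζ⟩ : ∃ ζ : F, IsPrimitiveRoot ζ p := by
    have h1 : p ∣ Nat.card Fˣ := by
      rwa [Nat.card_units]
    obtain ⟨z, hz⟩ := exists_prime_orderOf_dvd_card' (G := Fˣ) p h1
    refine ⟨(z : F), ?_⟩
    have h2 := IsPrimitiveRoot.orderOf z
    rw [hz] at h2
    exact h2.map_of_injective (f := Units.coeHom F) Units.val_injective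
  have htp : (t : Matrix (Fin n) (Fin n) F) ^ p = 1 := by
    have h := pow_orderOf_eq_one t
    rw [hto] at h
    have h1 := congrArg (fun s : SpecialLinearGroup (Fin n) F => (s : Matrix (Fin n) (Fin n) F)) h
    simpa using h1
  obtain ⟨P, μ, hP, htP⟩ := J4_diagz p hp0 ζ hζ (t : Matrix (Fin n) (Fin n) F) htp
  have hPu : IsUnit P.det := isUnit_iff_ne_zero.2 hP
  have hPP : P * P⁻¹ = 1 := Matrix.mul_nonsing_inv P hPu
  have hPP' : P⁻¹ * P = 1 := Matrix.nonsing_inv_mul P hPu
  -- conjugation by `P`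
  have hdet : ∀ s : Matrix (Fin n) (Fin n) F, (P * s * P⁻¹).det = s.det := by
    intro s
    rw [Matrix.det_mul, Matrix.det_mul, mul_comm P.det, mul_assoc, ← Matrix.det_mul, hPP,
      Matrix.det_one, mul_one]
  let cj : SpecialLinearGroup (Fin n) F →* SpecialLinearGroup (Fin n) F :=
    MonoidHom.mk' (fun s => ⟨P * (s : Matrix (Fin n) (Fin n) F) * P⁻¹, by rw [hdet, s.2]⟩) (by
      intro a b
      apply Subtype.ext
      show P * ((a : Matrix (Fin n) (Fin n) F) * (b : Matrix (Fin n) (Fin n) F)) * P⁻¹ =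
        (P * (a : Matrix (Fin n) (Fin n) F) * P⁻¹) * (P * (b : Matrix (Fin n) (Fin n) F) * P⁻¹)
      have : (P * (a : Matrix (Fin n) (Fin n) F) * P⁻¹) *
          (P * (b : Matrix (Fin n) (Fin n) F) * P⁻¹) =
          P * (a : Matrix (Fin n) (Fin n) F) * (P⁻¹ * P) *
            (b : Matrix (Fin n) (Fin n) F) * P⁻¹ := by
        simp only [Matrix.mul_assoc]
      rw [this, hPP', Matrix.mul_one]
      simp only [Matrix.mul_assoc])
  have hcj : ∀ s, ((cj s : SpecialLinearGroup (Fin n) F) : Matrix (Fin n) (Fin n) F) =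
      P * (s : Matrix (Fin n) (Fin n) F) * P⁻¹ := fun s => rfl
  have hsurj : Function.Surjective cj := by
    intro x
    have hd : (P⁻¹ * (x : Matrix (Fin n) (Fin n) F) * P).det = 1 := by
      rw [Matrix.det_mul, Matrix.det_mul, x.2, mul_one, ← Matrix.det_mul, hPP', Matrix.det_one]
    refine ⟨⟨P⁻¹ * (x : Matrix (Fin n) (Fin n) F) * P, hd⟩, Subtype.ext ?_⟩
    show P * (P⁻¹ * (x : Matrix (Fin n) (Fin n) F) * P) * P⁻¹ = (x : Matrix (Fin n) (Fin n) F)
    have : P * (P⁻¹ * (x : Matrix (Fin n) (Fin n) F) * P) * P⁻¹ =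
        (P * P⁻¹) * (x : Matrix (Fin n) (Fin n) F) * (P * P⁻¹) := by
      simp only [Matrix.mul_assoc]
    rw [this, hPP, Matrix.one_mul, Matrix.mul_one]
  have htD : (t : Matrix (Fin n) (Fin n) F) = P * Matrix.diagonal μ * P⁻¹ := by
    rw [← htP, Matrix.mul_assoc, hPP, Matrix.mul_one]
  have hDdet : (Matrix.diagonal μ).det = 1 := by
    rw [← hdet, ← htD]
    exact t.2
  let D : SpecialLinearGroup (Fin n) F := ⟨Matrix.diagonal μ, hDdet⟩
  have hcjD : cj D = t := by
    apply Subtype.ext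
    rw [hcj, htD]
  have hμ0 : ∀ i, μ i ≠ 0 := by
    intro i h
    rw [Matrix.det_diagonal, Finset.prod_eq_zero (Finset.mem_univ i) h] at hDdet
    exact zero_ne_one hDdet
  have hμp : ∀ i, μ i ^ p = 1 := by
    intro i
    have h1 : (Matrix.diagonal μ) ^ p = P⁻¹ * (t : Matrix (Fin n) (Fin n) F) ^ p * P := by
      have h2 : Matrix.diagonal μ = P⁻¹ * (t : Matrix (Fin n) (Fin n) F) * P := by
        rw [Matrix.mul_assoc, htP, ← Matrix.mul_assoc, hPP', Matrix.one_mul]
      have h3 : ∀ m : ℕ, (Matrix.diagonal μ) ^ m =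
          P⁻¹ * (t : Matrix (Fin n) (Fin n) F) ^ m * P := by
        intro m
        induction m with
        | zero => rw [pow_zero, pow_zero, Matrix.mul_one, hPP']
        | succ m ih =>
          have : P⁻¹ * (t : Matrix (Fin n) (Fin n) F) ^ m * P *
              (P⁻¹ * (t : Matrix (Fin n) (Fin n) F) * P) =
              P⁻¹ * (t : Matrix (Fin n) (Fin n) F) ^ m * (P * P⁻¹) *
                (t : Matrix (Fin n) (Fin n) F) * P := by
            simp only [Matrix.mul_assoc]
          rw [pow_succ, ih, h2, this, hPP, Matrix.mul_one, pow_succ]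
          simp only [Matrix.mul_assoc]
      exact h3 p
    rw [htp, Matrix.mul_one, hPP', Matrix.diagonal_pow] at h1
    have h2 := congrFun (congrFun h1 i) i
    rw [Matrix.diagonal_apply_eq, Matrix.one_apply_eq] at h2
    exact h2
  -- the eigenvalues are not all equal
  have hne : ∀ i : Fin n, ∃ l, μ l ≠ μ i := by
    intro i
    by_contra hcon
    push Not at hcon
    apply htc
    rw [Subgroup.mem_center_iff]
    have hcomm : ∀ A : Matrix (Fin n) (Fin n) F,
        Matrix.diagonal μ * A = A * Matrix.diagonal μ := by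
      intro A
      ext a b
      rw [Matrix.diagonal_mul, Matrix.mul_diagonal, hcon a, hcon b, mul_comm]
    have htD' : (t : Matrix (Fin n) (Fin n) F) = Matrix.diagonal μ := by
      rw [htD, ← hcomm, Matrix.mul_assoc, hPP, Matrix.mul_one]
    intro g
    apply Subtype.ext
    show (g : Matrix (Fin n) (Fin n) F) * (t : Matrix (Fin n) (Fin n) F) =
      (t : Matrix (Fin n) (Fin n) F) * (g : Matrix (Fin n) (Fin n) F)
    rw [htD', hcomm]
  have hn0 : n ≠ 0 := by
    rintro rfl
    apply htc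
    rw [Subsingleton.elim t 1]
    exact Subgroup.one_mem _
  have hnt : Nontrivial (Fin n) := by
    obtain ⟨l, hl⟩ := hne ⟨0, Nat.pos_of_ne_zero hn0⟩
    exact ⟨⟨l, _, fun h => hl (by rw [h])⟩⟩
  -- the subgroup
  set H : Subgroup (SpecialLinearGroup (Fin n) F) :=
    Subgroup.closure ({t} ∪ {a : SpecialLinearGroup (Fin n) F | ¬ p ∣ orderOf a ∧ Good p t a})
    with hH
  have hDT : ∀ (i j : Fin n) (hij : i ≠ j) (x : F),
      D * SpecialLinearGroup.transvection hij x * D⁻¹ =
        SpecialLinearGroup.transvection hij (μ i * (μ j)⁻¹ * x) := by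
    intro i j hij x
    rw [mul_inv_eq_iff_eq_mul]
    apply Subtype.ext
    show Matrix.diagonal μ * Matrix.transvection i j x =
      Matrix.transvection i j (μ i * (μ j)⁻¹ * x) * Matrix.diagonal μ
    unfold Matrix.transvection
    rw [mul_add, add_mul, mul_one, one_mul]
    congr 1
    ext a b
    rw [Matrix.diagonal_mul, Matrix.mul_diagonal, Matrix.single_apply, Matrix.single_apply]
    by_cases h : i = a ∧ j = b
    · obtain ⟨rfl, rfl⟩ := h
      rw [if_pos ⟨rfl, rfl⟩, if_pos ⟨rfl, rfl⟩]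
      field_simp [hμ0 j]
    · rw [if_neg h, if_neg h, mul_zero, zero_mul]
  have hDTm : ∀ (i j : Fin n) (hij : i ≠ j) (x : F) (m : ℕ),
      D ^ m * SpecialLinearGroup.transvection hij x * (D ^ m)⁻¹ =
        SpecialLinearGroup.transvection hij ((μ i * (μ j)⁻¹) ^ m * x) := by
    intro i j hij x m
    induction m with
    | zero => simp
    | succ m ih =>
      have : D ^ (m + 1) * SpecialLinearGroup.transvection hij x * (D ^ (m + 1))⁻¹ =
          D * (D ^ m * SpecialLinearGroup.transvection hij x * (D ^ m)⁻¹) * D⁻¹ := by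
        rw [pow_succ']
        group
      rw [this, ih, hDT, pow_succ']
      congr 1
      ring
  have hpow : ∀ (i j : Fin n) (hij : i ≠ j) (x : F) (m : ℕ),
      (SpecialLinearGroup.transvection hij x) ^ m =
        SpecialLinearGroup.transvection hij ((m : F) * x) := by
    intro i j hij x m
    induction m with
    | zero => simp
    | succ m ih =>
      rw [pow_succ, ih, ← SpecialLinearGroup.transvection_add]
      congr 1
      push_cast
      ring
  have hprod : ∀ (i j : Fin n) (hij : i ≠ j) (f : ℕ → F) (m : ℕ),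
      ((List.range m).map fun l => SpecialLinearGroup.transvection hij (f l)).prod =
        SpecialLinearGroup.transvection hij (∑ l ∈ Finset.range m, f l) := by
    intro i j hij f m
    induction m with
    | zero => simp
    | succ m ih =>
      rw [List.range_succ, List.map_append, List.prod_append, ih, Finset.sum_range_succ,
        SpecialLinearGroup.transvection_add]
      simp
  have hcjm : ∀ (s : SpecialLinearGroup (Fin n) F) (m : ℕ),
      t ^ m * cj s * (t ^ m)⁻¹ = cj (D ^ m * s * (D ^ m)⁻¹) := by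
    intro s m
    rw [map_mul, map_mul, map_inv, map_pow, hcjD]
  have hmem1 : ∀ (i j : Fin n) (hij : i ≠ j) (x : F), μ i ≠ μ j →
      cj (SpecialLinearGroup.transvection hij x) ∈ H := by
    intro i j hij x hμ
    apply Subgroup.subset_closure
    refine Or.inr ⟨?_, ?_, ?_⟩
    · intro hdvd
      apply hpdq
      refine hdvd.trans (orderOf_dvd_of_pow_eq_one ?_)
      rw [← map_pow, hpow, hq0, zero_mul, SpecialLinearGroup.transvection_coeff_zero, map_one]
    · intro a b
      rw [hcjm, hcjm, hDTm, hDTm]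
      refine Commute.map ?_ cj
      show _ * _ = _ * _
      rw [← SpecialLinearGroup.transvection_add, ← SpecialLinearGroup.transvection_add, add_comm]
    · have h1 : ∀ l : ℕ, t ^ l * cj (SpecialLinearGroup.transvection hij x) * (t ^ l)⁻¹ =
          cj (SpecialLinearGroup.transvection hij ((μ i * (μ j)⁻¹) ^ l * x)) := by
        intro l
        rw [hcjm, hDTm]
      have h2 : ((List.range p).map fun l =>
          t ^ l * cj (SpecialLinearGroup.transvection hij x) * (t ^ l)⁻¹) =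
          ((List.range p).map fun l =>
            SpecialLinearGroup.transvection hij ((μ i * (μ j)⁻¹) ^ l * x)).map cj := by
        rw [List.map_map]
        exact List.map_congr_left fun l _ => h1 l
      rw [h2, ← map_list_prod, hprod, ← Finset.sum_mul, J4_geom p, zero_mul,
        SpecialLinearGroup.transvection_coeff_zero, map_one]
      · rw [mul_pow, inv_pow, hμp, hμp, inv_one, mul_one]
      · intro h
        apply hμ
        have := congrArg (fun z => z * μ j) h
        simp only [mul_assoc, inv_mul_cancel₀ (hμ0 j), mul_one, one_mul] at this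
        exact this
  have hmem : ∀ (i j : Fin n) (hij : i ≠ j) (x : F),
      cj (SpecialLinearGroup.transvection hij x) ∈ H := by
    intro i j hij x
    by_cases hμ : μ i = μ j
    · obtain ⟨l, hl⟩ := hne i
      have hil : i ≠ l := by
        rintro rfl
        exact hl rfl
      have hlj : l ≠ j := by
        rintro rfl
        exact hl hμ.symm
      rw [← J4_comm i l j hil hlj hij x, map_mul, map_mul, map_mul, map_inv, map_inv]
      have h1 := hmem1 i l hil x (Ne.symm hl)
      have h2 := hmem1 l j hlj 1 (by rw [← hμ]; exact hl)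
      exact H.mul_mem (H.mul_mem (H.mul_mem h1 h2) (H.inv_mem h1)) (H.inv_mem h2)
    · exact hmem1 i j hij x hμ
  rw [eq_top_iff]
  intro x _
  obtain ⟨s, rfl⟩ := hsurj x
  have h := J4_gen (H.comap cj) (fun i j hij x => hmem i j hij x) s
  exact h

end MP7b0bad

end

section

set_option autoImplicit false

/-!
# MainP: the main theorem
-/

namespace MP7b0bad

open Polynomial

theorem MainP_good_one {G : Type} [Group G] (p : ℕ) (t : G) : Good p t 1 := by
  refine ⟨fun i j => ?_, ?_⟩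
  · simp
  · have h : (List.range p).map (fun i => t ^ i * 1 * (t ^ i)⁻¹) =
        (List.range p).map (fun _ => (1 : G)) := by
      apply List.map_congr_left
      intro i _
      simp
    rw [h]
    simp

open Classical in
theorem prf_MainP (hTI : TI) (hTII : TII) (hTIII : TIII) (hHP8 : HP8) : MainP := by
  intro k _ _ p hpF _ G _ _ t hto hcl
  have hp : p.Prime := hpF.out
  have : Fintype G := Fintype.ofFinite G
  -- the exponent
  set M : ℕ := ∏ a : G, (if p ∣ orderOf a then 1 else orderOf a) with hM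
  have hpM : ¬ p ∣ M := by
    intro h
    rw [hM, hp.prime.dvd_finsetProd_iff] at h
    obtain ⟨a, -, ha⟩ := h
    split_ifs at ha with h1
    · exact hp.one_lt.ne' (Nat.dvd_one.mp ha)
    · exact h1 ha
  have hpow : ∀ a : G, ¬ p ∣ orderOf a → a ^ M = 1 := by
    intro a ha
    rw [← orderOf_dvd_iff_pow_eq_one]
    have h1 : (if p ∣ orderOf a then 1 else orderOf a) ∣ M :=
      Finset.dvd_prod_of_mem (fun a : G => if p ∣ orderOf a then 1 else orderOf a)
        (Finset.mem_univ a)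
    rwa [if_neg ha] at h1
  -- the index set
  set N : ℕ := p * Nat.card G + 1 with hN
  have hpN : ¬ p ∣ N := by
    intro h
    rw [hN] at h
    have h1 : p ∣ 1 := (Nat.dvd_add_right (dvd_mul_right p _)).mp h
    exact hp.one_lt.ne' (Nat.dvd_one.mp h1)
  have hcard : Nat.card G ≤ N := by
    have h1 := Nat.le_mul_of_pos_left (Nat.card G) hp.pos
    omega
  let e : Fin (Nat.card G) ≃ G := (Finite.equivFin G).symm
  let g : Fin N → G := fun i => if h : (i : ℕ) < Nat.card G then e ⟨i, h⟩ else 1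
  have hg : ∀ a : G, ∃ i, g i = a := by
    intro a
    have hlt : ((e.symm a : Fin (Nat.card G)) : ℕ) < N := lt_of_lt_of_le (e.symm a).2 hcard
    refine ⟨⟨(e.symm a : ℕ), hlt⟩, ?_⟩
    show (if h : ((e.symm a : Fin (Nat.card G)) : ℕ) < Nat.card G then
      e ⟨(e.symm a : ℕ), h⟩ else 1) = a
    rw [dif_pos (e.symm a).2]
    simp
  let a : Fin N → G := fun i => if ¬ p ∣ orderOf (g i) ∧ Good p t (g i) then g i else 1
  have ha1 : ∀ i, ¬ p ∣ orderOf (a i) := by
    intro i
    show ¬ p ∣ orderOf (if ¬ p ∣ orderOf (g i) ∧ Good p t (g i) then g i else 1)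
    split_ifs with h
    · exact h.1
    · rw [orderOf_one]
      intro h'
      exact hp.one_lt.ne' (Nat.dvd_one.mp h')
  have ha2 : ∀ i, Good p t (a i) := by
    intro i
    show Good p t (if ¬ p ∣ orderOf (g i) ∧ Good p t (g i) then g i else 1)
    split_ifs with h
    · exact h.2
    · exact MainP_good_one p t
  let H : Fin N → Subgroup G := fun i => Subgroup.closure {t, a i}
  have ht : ∀ i, t ∈ H i := fun i => Subgroup.subset_closure (by simp)
  have hbc : ∀ i, Nonempty (BaseCover k p M (H i) ⟨t, ht i⟩) := fun i =>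
    hHP8 k p M hpM G t (a i) (H i) (ht i) hto (hpow _ (ha1 i)) (ha2 i) rfl
  have hsup : (⨆ i, H i) = ⊤ := by
    rw [eq_top_iff, ← hcl, Subgroup.closure_le]
    rintro x (hx | hx)
    · rw [Set.mem_singleton_iff] at hx
      rw [hx]
      exact Subgroup.mem_iSup_of_mem (⟨0, by omega⟩ : Fin N) (ht _)
    · obtain ⟨i, hi⟩ := hg x
      have hai : a i = x := by
        show (if ¬ p ∣ orderOf (g i) ∧ Good p t (g i) then g i else 1) = x
        have hx' : ¬ p ∣ orderOf x ∧ Good p t x := hx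
        rw [hi, if_pos hx']
      refine Subgroup.mem_iSup_of_mem i ?_
      apply Subgroup.subset_closure
      rw [← hai]
      simp
  obtain ⟨f, B, _, _, _, hf, hpf, hcov⟩ := hTI k p M N G t H ht (fun i => (hbc i).some) hpM hpN
    hto hsup
  obtain ⟨B', _, _, _, hcov2⟩ := hTII k p (LaurentSeries k) G t f B hto hf hpf hcov
  exact hTIII k p G (Subgroup.zpowers t) B' hcov2 (by rw [Nat.card_zpowers, hto])

end MP7b0bad

end

section

set_option autoImplicit false

namespace MP7b0bad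

open Polynomial

/-! # Phase 2: arbitrary `p`-groups as inertia groups -/

/-- Galois extensions of rings with (finite) group `G`. -/
structure GalAlg (R : Type) [CommRing R] (G : Type) [Group G] (B : Type) [CommRing B]
    [Algebra R B] [MulSemiringAction G B] : Prop where
  comm : ∀ (g : G) (a : R), g • algebraMap R B a = algebraMap R B a
  inj : Function.Injective (algebraMap R B)
  inv : ∀ b : B, (∀ g : G, g • b = b) → ∃ a : R, algebraMap R B a = b
  unr : ∀ σ : G, σ ≠ 1 → Ideal.span {x : B | ∃ b : B, x = b - σ • b} = ⊤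

/-- Artin-Schreier data showing that a `P`-Galois algebra over `κ[x]` is totally ramified over
infinity: for every nontrivial character `l : P → F_p` an element `y` with `τ y = y + l(τ)`,
`y^p - y = f ∈ κ[x]`, `p ∤ deg f`. -/
def TotRam (κ : Type) [Field κ] (p : ℕ) (P : Type) [Group P] (E : Type) [CommRing E]
    [Algebra κ[X] E] [MulSemiringAction P E] : Prop :=
  ∀ l : P →* Multiplicative (ZMod p), l ≠ 1 → ∃ (y : E) (f : κ[X]),
    (∀ g : P, g • y = y + (((Multiplicative.toAdd (l g)).val : ℕ) : E)) ∧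
    y ^ p - y = algebraMap κ[X] E f ∧ ¬ p ∣ f.natDegree

/-- `P` is an inertia group of a `G`-cover: a connected `G`-Galois algebra `B` over `k[x]` with a
`P`-equivariant homomorphism to a field `E` that is Galois over `k((ξ))`, `ξ = 1/x`, with group `P`. -/
def Rel (k : Type) [Field k] (G : Type) [Group G] (P : Subgroup G) : Prop :=
  ∃ (B : Type) (_ : CommRing B) (_ : Algebra k[X] B) (_ : MulSemiringAction G B)
    (E : Type) (_ : CommRing E) (_ : Algebra (LaurentSeries k) E) (_ : MulSemiringAction P E)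
    (ι : B →+* E),
    GalAlg k[X] G B ∧ IsDomain B ∧ GalAlg (LaurentSeries k) P E ∧ IsDomain E ∧
    (∀ f : k[X], ι (algebraMap k[X] B f) = algebraMap (LaurentSeries k) E (atInf k f)) ∧
    ∀ (g : P) (b : B), ι ((g : G) • b) = g • ι b

/-! ## The ring `k[w]((T))` and discs of radius `|T|` -/

/-- `k[w]((T))` -/
abbrev KW (k : Type) [Field k] : Type := LaurentSeries k[X]

/-- `K = k((T)) → k[w]((T))` -/
noncomputable def KKW (k : Type) [Field k] : LaurentSeries k →+* KW k where
  toFun a := a.map (Polynomial.C : k →+* k[X])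
  map_one' := by
    ext n m
    simp [HahnSeries.coeff_one]
  map_mul' a b := HahnSeries.map_mul (Polynomial.C : k →+* k[X]).toNonUnitalRingHom
  map_zero' := by ext; simp
  map_add' a b := by ext; simp

/-- `k[w] → k((w))` -/
noncomputable def wL (k : Type) [Field k] : k[X] →+* LaurentSeries k :=
  eval₂RingHom (HahnSeries.C : k →+* LaurentSeries k) (HahnSeries.single (1 : ℤ) (1 : k))

/-- `k[w]((T)) → k((w))((T))` -/
noncomputable def WF (k : Type) [Field k] : KW k →+* Fk k where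
  toFun a := a.map (wL k)
  map_one' := by
    refine HahnSeries.ext ?_
    funext n
    rw [HahnSeries.map_coeff, HahnSeries.coeff_one, HahnSeries.coeff_one]
    split_ifs <;> simp
  map_mul' a b := HahnSeries.map_mul (wL k).toNonUnitalRingHom
  map_zero' := by ext; simp
  map_add' a b := by ext; simp

/-- `w / T` in `k[w]((T))` -/
noncomputable def XW (k : Type) [Field k] : KW k := HahnSeries.single (-1 : ℤ) (X : k[X])

/-- `k[X] → k[w]((T))`, `X ↦ w / T` -/
noncomputable def toXW (k : Type) [Field k] : k[X] →+* KW k :=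
  eval₂RingHom ((HahnSeries.C : k[X] →+* KW k).comp (Polynomial.C : k →+* k[X])) (XW k)

/-- `V(x) = W(x) / T` -/
noncomputable def VT (k : Type) [Field k] (W : k[X]) : (LaurentSeries k)[X] :=
  C (HahnSeries.single (-1 : ℤ) (1 : k)) * W.map (HahnSeries.C : k →+* LaurentSeries k)

/-- `N` discs of radius `|T|` around the points `a_i`: `η_i = a_i + O(T)` in `k[w]((T))` with
`W(η_i) = T w`. -/
structure DiscsT (k : Type) [Field k] (N : ℕ) (W : k[X]) (a : Fin N → k) (η : Fin N → KW k) :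
    Prop where
  inj : Function.Injective a
  monic : W.Monic
  deg : W.natDegree = N
  root : ∀ i, (VT k W).eval₂ (KKW k) (η i) = HahnSeries.C (X : k[X])
  neg : ∀ i (n : ℤ), n < 0 → (η i).coeff n = 0
  zero : ∀ i, (η i).coeff 0 = Polynomial.C (a i)

/-- the same in `F = k((w))((T))`, for an arbitrary polynomial `V` over `K` with `V(ξ_i) = w` -/
structure DiscsK (k : Type) [Field k] (N : ℕ) (V : (LaurentSeries k)[X]) (ξ : Fin N → Fk k) :
    Prop where
  deg : V.natDegree = N
  mem : ∀ i, ξ i ∈ Rr k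
  root : ∀ i, V.eval₂ (KF k) (ξ i) = Ww k
  ne : ∀ i j, i ≠ j → ξ i - ξ j ≠ 0
  unit : ∀ i j, i ≠ j → (ξ i - ξ j)⁻¹ ∈ Rr k

/-! ## Patching data -/

/-- The outer `P`-torsor over the `x`-line over `K = k((T))`, its maps to the algebras `Q i` over
`F` at the discs, and its local extension `E` at infinity. -/
structure Outer (k : Type) [Field k] (N : ℕ) (ξ : Fin N → Fk k) (P : Type) [Group P]
    (P' : Fin N → Type) [∀ i, Group (P' i)] (π : ∀ i, P' i →* P)
    (Q : Fin N → Type) [∀ i, CommRing (Q i)] [∀ i, Algebra (Fk k) (Q i)]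
    [∀ i, MulSemiringAction (P' i) (Q i)] where
  A : Type
  [ringA : CommRing A]
  [algA : Algebra (LaurentSeries k)[X] A]
  [actA : MulSemiringAction P A]
  gal : GalAlg (LaurentSeries k)[X] P A
  a : ∀ i, A →+* Q i
  a_alg : ∀ i (f : (LaurentSeries k)[X]),
    a i (algebraMap (LaurentSeries k)[X] A f) = algebraMap (Fk k) (Q i) (f.eval₂ (KF k) (ξ i))
  a_act : ∀ i (g : P' i) (e : A), a i (π i g • e) = g • a i e
  E : Type
  [ringE : CommRing E]
  [algE : Algebra (LaurentSeries (LaurentSeries k)) E]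
  [actE : MulSemiringAction P E]
  galE : GalAlg (LaurentSeries (LaurentSeries k)) P E
  domE : IsDomain E
  j : A →+* E
  j_alg : ∀ f : (LaurentSeries k)[X], j (algebraMap (LaurentSeries k)[X] A f) =
    algebraMap (LaurentSeries (LaurentSeries k)) E (atInf (LaurentSeries k) f)
  j_act : ∀ (g : P) (e : A), j (g • e) = g • j e

attribute [instance] Outer.ringA Outer.algA Outer.actA Outer.ringE Outer.algE Outer.actE

/-- A connected cover of the `X`-line over `k` with group `H`, with a map to the algebra `Q` over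
`F` (`X ↦ w / T`) that is equivariant for `P'`. -/
structure Inner (k : Type) [Field k] (H : Type) [Group H] (P' : Type) [Group P'] (π : P' →* H)
    (Q : Type) [CommRing Q] [Algebra (Fk k) Q] [MulSemiringAction P' Q] where
  B : Type
  [ringB : CommRing B]
  [algB : Algebra k[X] B]
  [actB : MulSemiringAction H B]
  gal : GalAlg k[X] H B
  dom : IsDomain B
  ι : B →+* Q
  ι_alg : ∀ f : k[X], ι (algebraMap k[X] B f) = algebraMap (Fk k) Q (toX k f)
  ι_act : ∀ (g : P') (b : B), ι (π g • b) = g • ι b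

attribute [instance] Inner.ringB Inner.algB Inner.actB

/-- functions on `P` with values in the `S`-span of the outer torsor -/
noncomputable def SM {k : Type} [Field k] {N : ℕ} {ξ : Fin N → Fk k} {P : Type} [Group P]
    {P' : Fin N → Type} [∀ i, Group (P' i)] {π : ∀ i, P' i →* P}
    {Q : Fin N → Type} [∀ i, CommRing (Q i)] [∀ i, Algebra (Fk k) (Q i)]
    [∀ i, MulSemiringAction (P' i) (Q i)] (O : Outer k N ξ P P' π Q) :
    Subring (P → ∀ i, Q i) :=
  Subring.closure ({u | ∃ s ∈ Ss k, u = fun _ i => algebraMap (Fk k) (Q i) s} ∪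
    {u | ∃ e : O.A, u = fun γ i => O.a i (γ⁻¹ • e)})

section

variable {k : Type} [Field k] {N : ℕ} {ξ : Fin N → Fk k} {G : Type} [Group G] {P : Subgroup G}
  {P' : Fin N → Subgroup G} {hP : ∀ i, P' i ≤ P} {H : Fin N → Subgroup G} {hH : ∀ i, P' i ≤ H i}
  {Q : Fin N → Type} [∀ i, CommRing (Q i)] [∀ i, Algebra (Fk k) (Q i)]
  [∀ i, MulSemiringAction (P' i) (Q i)]

/-- functions on `H` with values in the `R`-span of the cover -/
noncomputable def RN {k : Type} [Field k] {H : Type} [Group H] {P' : Type} [Group P']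
    {π : P' →* H} {Q : Type} [CommRing Q] [Algebra (Fk k) Q] [MulSemiringAction P' Q]
    (c : Inner k H P' π Q) : Subring (H → Q) :=
  Subring.closure ({u | ∃ r ∈ Rr k, u = fun _ => algebraMap (Fk k) Q r} ∪
    {u | ∃ b : c.B, u = fun γ => c.ι (γ⁻¹ • b)})

/-- equivariant functions: `v(g τ)_i = τ⁻¹ v(g)_i` for `τ ∈ P'_i` -/
noncomputable def EqQ (G : Type) [Group G] {N : ℕ} (P' : Fin N → Subgroup G)
    (Q : Fin N → Type) [∀ i, CommRing (Q i)] [∀ i, MulSemiringAction (P' i) (Q i)] :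
    Subring (G → ∀ i, Q i) where
  carrier := {v | ∀ g i (τ : P' i), τ • v (g * τ) i = v g i}
  one_mem' := fun g i τ => by simp
  mul_mem' := fun {u v} hu hv g i τ => by simp [smul_mul', hu g i τ, hv g i τ]
  zero_mem' := fun g i τ => by simp
  add_mem' := fun {u v} hu hv g i τ => by simp [smul_add, hu g i τ, hv g i τ]
  neg_mem' := fun {u} hu g i τ => by simp [smul_neg, hu g i τ]

/-- functions whose restrictions to the cosets of `P` are in `SM` -/
noncomputable def InSQ (O : Outer k N ξ P (fun i => P' i) (fun i => Subgroup.inclusion (hP i)) Q) :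
    Subring (G → ∀ i, Q i) where
  carrier := {v | ∀ g : G, (fun γ : P => v (g * γ)) ∈ SM O}
  one_mem' := fun g => (SM O).one_mem
  mul_mem' := fun {u v} hu hv g => (SM O).mul_mem (hu g) (hv g)
  zero_mem' := fun g => (SM O).zero_mem
  add_mem' := fun {u v} hu hv g => (SM O).add_mem (hu g) (hv g)
  neg_mem' := fun {u} hu g => (SM O).neg_mem (hu g)

/-- functions whose restrictions to the cosets of `H_i` are in `RN` -/
noncomputable def InRQ (c : ∀ i, Inner k (H i) (P' i) (Subgroup.inclusion (hH i)) (Q i)) :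
    Subring (G → ∀ i, Q i) where
  carrier := {v | ∀ i (g : G), (fun γ : H i => v (g * γ) i) ∈ RN (c i)}
  one_mem' := fun i g => (RN (c i)).one_mem
  mul_mem' := fun {u v} hu hv i g => (RN (c i)).mul_mem (hu i g) (hv i g)
  zero_mem' := fun i g => (RN (c i)).zero_mem
  add_mem' := fun {u v} hu hv i g => (RN (c i)).add_mem (hu i g) (hv i g)
  neg_mem' := fun {u} hu i g => (RN (c i)).neg_mem (hu i g)

/-- the patched ring -/
noncomputable def BQ (O : Outer k N ξ P (fun i => P' i) (fun i => Subgroup.inclusion (hP i)) Q)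
    (c : ∀ i, Inner k (H i) (P' i) (Subgroup.inclusion (hH i)) (Q i)) :
    Subring (G → ∀ i, Q i) := EqQ G P' Q ⊓ InSQ O ⊓ InRQ c

end

/-- equivariant functions as a vector space over `F` -/
noncomputable def VQ {k : Type} [Field k] {G : Type} [Group G] {N : ℕ} {P' : Fin N → Subgroup G}
    {Q : Fin N → Type} [∀ i, CommRing (Q i)] [∀ i, Algebra (Fk k) (Q i)]
    [∀ i, MulSemiringAction (P' i) (Q i)] (hQ : ∀ i, GalAlg (Fk k) (P' i) (Q i)) :
    Submodule (Fk k) (G → ∀ i, Q i) where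
  carrier := {v | v ∈ EqQ G P' Q}
  add_mem' := fun {_ _} hu hv => (EqQ G P' Q).add_mem hu hv
  zero_mem' := (EqQ G P' Q).zero_mem
  smul_mem' := fun r v hv g i τ => by
    have h1 := hv g i τ
    simp only [Pi.smul_apply, Algebra.smul_def]
    rw [smul_mul', (hQ i).comm, h1]

/-- left translation -/
def trQ {G : Type} [Group G] {N : ℕ} {Q : Fin N → Type} (σ : G) (v : G → ∀ i, Q i) :
    G → ∀ i, Q i := fun g => v (σ⁻¹ * g)

/-- constants `x ↦ (ξ_i)_i` -/
noncomputable def cstQ (k : Type) [Field k] {N : ℕ} (ξ : Fin N → Fk k) (G : Type)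
    (Q : Fin N → Type) [∀ i, CommRing (Q i)] [∀ i, Algebra (Fk k) (Q i)] :
    (LaurentSeries k)[X] →+* (G → ∀ i, Q i) :=
  Pi.ringHom fun _ => Pi.ringHom fun i => (algebraMap (Fk k) (Q i)).comp (eval₂RingHom (KF k) (ξ i))

/-! ## Lattices at infinity and certificates -/

/-- `z ∈ ξ^m Λ`, `Λ` the `κ[[ξ]]`-span of the `q (c l)` -/
def Lat {κ : Type} [Field κ] {C : Type} [CommRing C] {D : Type} [CommRing D]
    [Algebra (LaurentSeries κ) D] (q : C →+* D) {n : ℕ} (c : Fin n → C) (m : ℤ) (z : D) : Prop :=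
  ∃ h : Fin n → LaurentSeries κ, (∀ (l : Fin n) (i : ℤ), i < m → (h l).coeff i = 0) ∧
    z = ∑ l, algebraMap (LaurentSeries κ) D (h l) * q (c l)

/-- topologically nilpotent elements: roots of monic polynomials whose other coefficients are in
`ξ κ[[ξ]]` -/
def TN {κ : Type} [Field κ] {D : Type} [CommRing D] [Algebra (LaurentSeries κ) D] (z : D) : Prop :=
  ∃ (n : ℕ) (c : Fin n → LaurentSeries κ), 0 < n ∧ (∀ (i : Fin n) (m : ℤ), m ≤ 0 → (c i).coeff m = 0) ∧
    z ^ n + ∑ i : Fin n, algebraMap (LaurentSeries κ) D (c i) * z ^ (n - 1 - (i : ℕ)) = 0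

/-- the density property used to construct torsors -/
def QDen (κ : Type) [Field κ] (p N : ℕ) (R' : Fin N → Type) [∀ i, CommRing (R' i)]
    (ρ : ∀ i, κ[X] →+* R' i) (S : Prop) : Prop :=
  ∀ (u : ∀ i, R' i) (D : ℕ), ∃ (f : κ[X]) (h : ∀ i, R' i),
    (∀ i, u i = ρ i f + (h i ^ p - h i)) ∧ (S → D < f.natDegree ∧ ¬ p ∣ f.natDegree)

/-- Certificate for `P` being an inertia group of a `G`-cover, in terms of the `G × P`-Galois
algebra `C = B ⊗ 𝓔`. The parameter `Irr` is the irreducibility condition on `F`. -/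
structure Cert (κ : Type) [Field κ] (p : ℕ) (G : Type) [Group G] (P : Subgroup G)
    (Irr : κ[X][X] → Prop) (C : Type) [CommRing C] [Algebra κ[X] C]
    [MulSemiringAction (G × P) C] : Prop where
  gal : GalAlg κ[X] (G × P) C
  irr : ∃ (θ : C) (F : κ[X][X]), (∀ τ : P, ((1 : G), τ) • θ = θ) ∧ F.Monic ∧
    F.natDegree = Nat.card G ∧ aeval θ F = 0 ∧ Irr F
  tot : ∀ l : P →* Multiplicative (ZMod p), l ≠ 1 → ∃ (y : C) (f : κ[X]),
    (∀ g : G, (g, (1 : P)) • y = y) ∧
    (∀ τ : P, ((1 : G), τ) • y = y + (((Multiplicative.toAdd (l τ)).val : ℕ) : C)) ∧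
    y ^ p - y = algebraMap κ[X] C f ∧ ¬ p ∣ f.natDegree
  infty : ∃ (d : ℕ) (β : C),
    Small κ (2 * d) (β ^ 2 - algebraMap κ[X] C (X ^ d) * β) ∧
    (∀ γ : G × P, γ.1 ≠ (γ.2 : G) → Small κ (2 * d) (β * (γ • β))) ∧
    (∀ τ : P, Small κ d (((τ : G), τ) • β - β)) ∧
    ∃ s : Finset (G × P), Small κ d (∑ γ ∈ s, γ • β - algebraMap κ[X] C (X ^ d))

end MP7b0bad

end

section

set_option autoImplicit false

/-!
# TI: Theorem I (patching)
-/

namespace MP7b0bad

open Polynomial

theorem TI_atInf_injective (K : Type) [Field K] : Function.Injective (atInf K) := by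
  rw [injective_iff_map_eq_zero]
  intro P hP
  ext n
  have h := C2b_atInf_coeff K P (-(n : ℤ))
  rw [hP, if_pos (by omega), neg_neg, Int.toNat_natCast] at h
  rw [← h]
  simp

theorem TI_asPoly_monic {A : Type} [Field A] (p : ℕ) (hp : 2 ≤ p) (a : A) :
    (asPoly p a).natDegree = p ∧ (asPoly p a).Monic := by
  have h1 : asPoly p a = X ^ p + (-X - C a) := by
    unfold asPoly
    ring
  have h2 : (-X - C a : A[X]).degree < (p : WithBot ℕ) := by
    have h3 : (-X - C a : A[X]).degree ≤ 1 := by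
      refine (degree_sub_le _ _).trans (max_le ?_ ?_)
      · rw [degree_neg]
        exact degree_X_le
      · exact degree_C_le.trans (by norm_num)
    refine lt_of_le_of_lt h3 ?_
    exact_mod_cast (by omega : 1 < p)
  rw [h1]
  have hm : (X ^ p + (-X - C a) : A[X]).Monic := monic_X_pow_add h2
  refine ⟨?_, hm⟩
  apply natDegree_eq_of_degree_eq_some
  rw [degree_add_eq_left_of_degree_lt (by rw [degree_X_pow]; exact h2), degree_X_pow]

theorem TI_natDegree {k : Type} [Field k] (W : k[X]) (M : ℕ) :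
    (fW k W M).natDegree = M * W.natDegree := by
  unfold fW
  rw [natDegree_pow, natDegree_C_mul (by simp), natDegree_map_eq_of_injective
    HahnSeries.C_injective]

theorem prf_TI (hB6 : B6) (hC1 : C1) (hC2 : C2) (hTI1 : TI1) (hTI3 : TI3) (hTI4 : TI4)
    (hV5 : V5) (hV6 : V6) (hV7 : V7) : TI := by
  intro k _ _ p hpF _ M N G _ _ t H ht c hM hN hto hH
  have hp : p.Prime := hpF.out
  have hN0 : 0 < N := Nat.pos_of_ne_zero fun h => hN (by rw [h]; exact dvd_zero p)
  have hM0 : 0 < M := Nat.pos_of_ne_zero fun h => hM (by rw [h]; exact dvd_zero p)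
  obtain ⟨W, ξ, hD⟩ := hC1 k N
  obtain ⟨D⟩ := hC2 k p M N W ξ hD hM hN
  obtain ⟨hcst, htr⟩ := hTI1 k p M N W ξ D G t H ht c hD
  have hdeg : (fW k W M).natDegree = M * N := by rw [TI_natDegree, hD.deg]
  have hirr := hB6 k p M hM
  have hQ : IsDomain (Qk k p M) := AdjoinRoot.isDomain_of_prime hirr.prime
  let algB : Algebra (LaurentSeries k)[X] (BB D c) :=
    RingHom.toAlgebra ((cst k p M N ξ G).codRestrict (BB D c) hcst)
  let actB : MulSemiringAction G (BB D c) :=
    { smul := fun σ v => ⟨tr σ v.1, htr σ v.1 v.2⟩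
      one_smul := fun v => by
        apply Subtype.ext
        funext g
        show v.1 (1⁻¹ * g) = v.1 g
        rw [inv_one, one_mul]
      mul_smul := fun σ τ v => by
        apply Subtype.ext
        funext g
        show v.1 ((σ * τ)⁻¹ * g) = v.1 (τ⁻¹ * (σ⁻¹ * g))
        rw [mul_inv_rev, mul_assoc]
      smul_zero := fun σ => rfl
      smul_add := fun σ u v => rfl
      smul_one := fun σ => rfl
      smul_mul := fun σ u v => rfl }
  obtain ⟨ι, hι1, hι2⟩ := hTI4 k p M N W ξ D G t H ht c hD hN0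
  have halg : ∀ a : (LaurentSeries k)[X], ((algebraMap (LaurentSeries k)[X] (BB D c) a :
      BB D c) : WW k p M N G) = cst k p M N ξ G a := fun a => rfl
  have hsm : ∀ (σ : G) (v : BB D c), ((σ • v : BB D c) : WW k p M N G) = tr σ v.1 :=
    fun σ v => rfl
  refine ⟨fW k W M, ↥(BB D c), inferInstance, algB, actB, ?_, ?_, ?_⟩
  · rw [hdeg]
    exact Nat.mul_pos hM0 hN0
  · rw [hdeg, hp.dvd_mul]
    rintro (h | h)
    · exact hM h
    · exact hN h
  · refine @Cover1.mk (LaurentSeries k) _ p G _ t (fW k W M) (BB D c) _ algB actB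
      ?_ ?_ ?_ ?_ ?_ ?_ ?_
    · -- domain
      have hnt : Nontrivial (BB D c) := by
        refine ⟨⟨0, 1, fun h => ?_⟩⟩
        have h1 := congrFun (congrFun (congrArg Subtype.val h) (1 : G)) ⟨0, hN0⟩
        exact zero_ne_one (α := Qk k p M) h1
      have hnz : NoZeroDivisors (BB D c) := by
        refine ⟨fun {u v} huv => ?_⟩
        have h1 := congrFun (congrFun (congrArg Subtype.val huv) (1 : G)) ⟨0, hN0⟩
        have h2 : u.1 1 ⟨0, hN0⟩ * v.1 1 ⟨0, hN0⟩ = 0 := h1
        rcases mul_eq_zero.1 h2 with h3 | h3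
        · left
          exact Subtype.ext (hV6 k p M N W ξ D G t H ht c hM hto hH u.1 u.2 ⟨_, _, h3⟩)
        · right
          exact Subtype.ext (hV6 k p M N W ξ D G t H ht c hM hto hH v.1 v.2 ⟨_, _, h3⟩)
      exact NoZeroDivisors.to_isDomain _
    · -- injective
      intro a b hab
      have h1 : cst k p M N ξ G a = cst k p M N ξ G b := by
        rw [← halg, ← halg, hab]
      have h2 : ι ⟨cst k p M N ξ G a, hcst a⟩ = ι ⟨cst k p M N ξ G b, hcst b⟩ := by
        exact congrArg ι (Subtype.ext h1)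
      rw [hι1, hι1] at h2
      have h3 : Function.Injective (AdjoinRoot.of (asPoly p (atInf (LaurentSeries k)
          (fW k W M)))) := by
        apply AdjoinRoot.of.injective_of_degree_ne_zero
        obtain ⟨e1, e2⟩ := TI_asPoly_monic p hp.two_le (atInf (LaurentSeries k) (fW k W M))
        rw [degree_eq_natDegree e2.ne_zero, e1]
        exact_mod_cast hp.ne_zero
      exact TI_atInf_injective _ (h3 h2)
    · intro g a
      apply Subtype.ext
      rfl
    · -- finite
      obtain ⟨n, b, hb, hspan⟩ := hTI3 k p M N W ξ D G t H ht c hD hM hto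
      classical
      refine Module.finite_def.2 ⟨Finset.univ.image (fun l => (⟨b l, hb l⟩ : BB D c)), ?_⟩
      rw [eq_top_iff]
      intro v _
      obtain ⟨f, hf⟩ := hspan v.1 v.2
      have h1 : v = ∑ l, f l • (⟨b l, hb l⟩ : BB D c) := by
        apply Subtype.ext
        rw [hf, AddSubmonoidClass.coe_finsetSum]
        refine Finset.sum_congr rfl fun l _ => ?_
        rw [Algebra.smul_def]
        rfl
      rw [h1]
      refine Submodule.sum_mem _ fun l _ => Submodule.smul_mem _ _ (Submodule.subset_span ?_)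
      simp
    · -- invariants
      intro b hb
      obtain ⟨f, hf⟩ := hV7 k p M N W ξ D G t H ht c hD hN0 hM hto b.1 b.2 (fun σ => by
        rw [← hsm, hb σ])
      refine ⟨f, Subtype.ext ?_⟩
      rw [halg, hf]
      rfl
    · -- unramified
      intro σ hσ
      obtain ⟨n, α, β, hαβ, hsum⟩ := hV5 k p M N W ξ D G t σ H ht c hD hM hto hσ
      rw [Ideal.eq_top_iff_one]
      have h1 : (1 : BB D c) = ∑ m, (⟨α m, (hαβ m).1⟩ : BB D c) *
          (⟨β m, (hαβ m).2⟩ - σ • (⟨β m, (hαβ m).2⟩ : BB D c)) := by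
        apply Subtype.ext
        rw [AddSubmonoidClass.coe_finsetSum]
        exact hsum.symm
      rw [h1]
      exact Ideal.sum_mem _ fun m _ => Ideal.mul_mem_left _ _ (Ideal.subset_span ⟨_, rfl⟩)
    · exact ⟨ι, fun a => hι1 a (hcst a), fun b => hι2 b.1 b.2 (htr t b.1 b.2)⟩

end MP7b0bad

end

section

set_option autoImplicit false

/-! Item TI4: embedding at infinity. -/

namespace MP7b0bad

open Polynomial

theorem prf_TI4 (_hA8 : A8) : TI4 := by
  intro k _ p _ _ M N W ξ D G _ t H ht c hD hN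
  set i0 : Fin N := ⟨0, hN⟩ with hi0
  have hex : ∀ v : BB D c, ∃ α : D.A, ∀ i, D.a i α = (v : WW k p M N G) 1 i := by
    rintro ⟨v, ⟨-, h2⟩, -⟩
    exact h2 1
  choose α hα using hex
  have huniq : ∀ (v : BB D c) (β : D.A), D.a i0 β = (v : WW k p M N G) 1 i0 → α v = β := by
    intro v β hβ
    apply D.a_inj i0
    rw [hα, hβ]
  let A : BB D c →+* D.A :=
    { toFun := α
      map_one' := huniq 1 1 (by rw [map_one]; rfl)
      map_mul' := fun v w => huniq (v * w) (α v * α w) (by rw [map_mul, hα, hα]; rfl)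
      map_zero' := huniq 0 0 (by rw [map_zero]; rfl)
      map_add' := fun v w => huniq (v + w) (α v + α w) (by rw [map_add, hα, hα]; rfl) }
  refine ⟨D.aInf.comp A, ?_, ?_⟩
  · intro f h
    have h1 : A ⟨cst k p M N ξ G f, h⟩ = f.eval₂ (D.ofS.comp (TI1_KS k)) D.x :=
      huniq _ _ (TI1_a D f i0)
    rw [RingHom.comp_apply, h1, hom_eval₂]
    have h2 : D.aInf.comp (D.ofS.comp (TI1_KS k)) =
        (AdjoinRoot.of (asPoly p (atInf (LaurentSeries k) (fW k W M)))).comp
          (HahnSeries.C : LaurentSeries k →+* LaurentSeries (LaurentSeries k)) := by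
      ext c
      exact D.aInf_K c (TI1_KF_Ss k c)
    rw [h2, D.aInf_x]
    have h3 : atInf (LaurentSeries k) f = f.eval₂
        (HahnSeries.C : LaurentSeries k →+* LaurentSeries (LaurentSeries k))
        (HahnSeries.single (-1 : ℤ) (1 : LaurentSeries k)) := rfl
    have h4 : atInf (LaurentSeries k) X = HahnSeries.single (-1 : ℤ) (1 : LaurentSeries k) :=
      eval₂_X _ _
    rw [h3, hom_eval₂, h4]
  · intro v h h'
    have h1 : A ⟨tr t v, h'⟩ = D.τ (A ⟨v, h⟩) := by
      refine huniq _ _ ?_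
      rw [D.a_τ]
      change tQ k p M (D.a i0 (α ⟨v, h⟩)) = v (t⁻¹ * 1) i0
      rw [hα]
      obtain ⟨⟨h2, -⟩, -⟩ := h
      have h3 : tQ k p M (v (t⁻¹ * t) i0) = v t⁻¹ i0 := h2 t⁻¹ i0
      rw [inv_mul_cancel] at h3
      rw [mul_one]
      exact h3
    rw [RingHom.comp_apply, h1, D.aInf_τ]
    rfl

end MP7b0bad

end

section

set_option autoImplicit false

namespace MP7b0bad

theorem all_A1 : A1 := prf_A1 prf_A1a
theorem all_A6 : A6 := prf_A6 all_A1 prf_A8
theorem all_PL : PL := prf_PL prf_A4 prf_A5 all_A6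
theorem all_PB : PB := prf_PB all_PL
theorem all_LD : LD := prf_LD prf_A8
theorem all_B2 : B2 := prf_B2 prf_B1 prf_B4
theorem all_B6 : B6 := prf_B6 prf_B3
theorem all_B7 : B7 := prf_B7 prf_B3
theorem all_B8 : B8 := prf_B8 prf_B1 prf_B4
theorem all_B5 : B5 := prf_B5 prf_B1 all_B2 prf_B5a all_B6
theorem all_C2b : C2b := prf_C2b prf_A2 prf_C2s prf_A8
theorem all_C2c : C2c := prf_C2c all_C2b prf_A8
theorem all_C2 : C2 := prf_C2 prf_A8 prf_B1 all_B2 prf_B4 all_B7 all_B8 all_C2c
theorem all_C3 : C3 := prf_C3 prf_B4 prf_C2a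
theorem all_D1b : D1b := prf_D1b prf_D1
theorem all_D2 : D2 := prf_D2 all_B2 prf_D1 prf_E2
theorem all_D3 : D3 := prf_D3 prf_A3 all_B6 prf_D1 all_D2
theorem all_D4 : D4 := prf_D4 prf_D1 all_D2 all_D3 prf_E2
theorem all_V1 : V1 := prf_V1 prf_B1 all_C3
theorem all_V2 : V2 := prf_V2 prf_B1 all_D1b all_D2
theorem all_V3 : V3 := prf_V3 prf_A8 all_PB all_V1 all_V2
theorem all_V4S : V4S := prf_V4S prf_B1
theorem all_V4R : V4R := prf_V4R prf_D5 all_D1b
theorem all_V5 : V5 := prf_V5 prf_A8 all_LD prf_TI1 all_V3 all_V4R all_V4S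
theorem all_V6 : V6 := prf_V6 all_D3
theorem all_V7 : V7 := prf_V7 prf_A8 all_B2 prf_C2a all_D4
theorem all_TI3 : TI3 := prf_TI3 prf_TI1 all_V3
theorem all_TI4 : TI4 := prf_TI4 prf_A8
theorem all_TI : TI := prf_TI all_B6 prf_C1 all_C2 prf_TI1 all_TI3 all_TI4 all_V5 all_V6 all_V7
theorem all_E3 : E3 := prf_E3 prf_B4
theorem all_E4 : E4 := prf_E4 all_B2 prf_E2 all_E3
theorem all_E5 : E5 := prf_E5 all_E3
theorem all_E6 : E6 := prf_E6 prf_B1 all_E3 all_E4 all_E5
theorem all_E7 : E7 := prf_E7 prf_B4 all_B7 all_B8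
theorem all_TII : TII := prf_TII prf_E1 all_E6 all_E7 prf_E8 prf_E9 prf_E10
theorem all_F5 : F5 := prf_F5 prf_F3
theorem all_F6 : F6 := prf_F6 prf_F3
theorem all_F7 : F7 := prf_F7 prf_F3 all_F6
theorem all_F8 : F8 := prf_F8 prf_F3 prf_F4 all_F5 all_F6 all_F7
theorem all_TIII : TIII := prf_TIII prf_F1 prf_F2 all_F8
theorem all_HP3a : HP3a := prf_HP3a prf_HP1
theorem all_HP2 : HP2 := prf_HP2 prf_HP1 prf_HP2a all_HP3a
theorem all_HP3 : HP3 := prf_HP3 all_HP3a
theorem all_HP4 : HP4 := prf_HP4 prf_HP1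
theorem all_HP7 : HP7 := prf_HP7 prf_B1 all_B5 prf_HP1
theorem all_HP6 : HP6 := prf_HP6 all_B2 all_B8 all_HP3 all_HP3a all_HP7

theorem all_HQ : HQ := prf_HQ prf_E2g

theorem all_HP8 : HP8 :=
  prf_HP8 all_HP2 all_HP3 all_HP4 prf_HP5 all_HP6 all_HP7 prf_HP8a all_HQ

theorem all_MainP : MainP := prf_MainP all_TI all_TII all_TIII all_HP8

/-- for `p = 2` the good elements contain the elements of odd order inverted by `t` -/
theorem all_main2 (k : Type) [Field k] [IsAlgClosed k] [CharP k 2] (G : Type) [Group G] [Finite G]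
    (t : G) (ht : orderOf t = 2) (h : Ht t = ⊤) : Occurs k G (Subgroup.zpowers t) := by
  have : Fact (Nat.Prime 2) := ⟨Nat.prime_two⟩
  refine all_MainP k 2 G t ht ?_
  rw [eq_top_iff, ← h]
  refine Subgroup.closure_mono (Set.union_subset_union_right _ ?_)
  rintro a ⟨ha1, ha2⟩
  have ht2 : t ^ 2 = 1 := by rw [← ht, pow_orderOf_eq_one]
  have ha3 : ∀ i : ℕ, t ^ i * a * (t ^ i)⁻¹ = a ∨ t ^ i * a * (t ^ i)⁻¹ = a⁻¹ := by
    intro i
    induction i with
    | zero => left; simp
    | succ i ih =>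
      have h1 : t ^ (i + 1) * a * (t ^ (i + 1))⁻¹ = t * (t ^ i * a * (t ^ i)⁻¹) * t⁻¹ := by
        rw [pow_succ']; group
      rw [h1]
      rcases ih with h2 | h2
      · rw [h2]; exact Or.inr ha2
      · rw [h2]
        left
        have h3 : t * a⁻¹ * t⁻¹ = (t * a * t⁻¹)⁻¹ := by group
        rw [h3, ha2, inv_inv]
  refine ⟨fun h2 => ?_, fun i j => ?_, ?_⟩
  · exact (Nat.not_even_iff_odd.2 ha1) (even_iff_two_dvd.2 h2)
  · rcases ha3 i with h1 | h1 <;> rcases ha3 j with h2 | h2 <;> rw [h1, h2]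
    · exact (Commute.refl a).inv_right
    · exact (Commute.refl a).inv_left
  · have h1 : List.range 2 = [0, 1] := rfl
    rw [h1]
    simp only [List.map_cons, List.map_nil, List.prod_cons, List.prod_nil, pow_zero, pow_one,
      one_mul, inv_one, mul_one]
    rw [ha2]
    group

end MP7b0bad

end

section

set_option autoImplicit false

namespace MP7b0bad

open Polynomial

/-! # Basic facts on Galois algebras -/

section

variable {R : Type} [CommRing R] {G : Type} [Group G] [Finite G] {B : Type} [CommRing B]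
  [Algebra R B] [MulSemiringAction G B]

open Classical in
/-- dual families -/
theorem gal_dual (h : GalAlg R G B) : ∃ (n : ℕ) (x y : Fin n → B),
    ∀ σ : G, ∑ m, x m * (σ • y m) = if σ = 1 then 1 else 0 := prf_E2 G B h.unr

/-- the trace takes values in `R` -/
theorem gal_trace [Fintype G] (h : GalAlg R G B) (b : B) :
    ∃ a : R, algebraMap R B a = ∑ g : G, g • b := by
  refine h.inv _ fun g => ?_
  rw [Finset.smul_sum]
  refine Fintype.sum_bijective (fun x => g * x) (Group.mulLeft_bijective g) _ _ fun x => ?_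
  rw [smul_smul]

/-- coordinates with respect to a dual family; here for a homomorphism `ψ : B → C` that is
equivariant for a homomorphism `π : H → G`: every `π`-equivariant function `v : G → C`,
`h • v (γ * π h) = v γ`, is `v γ = ∑ c_m ψ (γ⁻¹ x_m)` with `H`-invariant `c_m`. -/
theorem gal_coord [Fintype G] {H : Type} [Group H] (π : H →* G) {C : Type}
    [CommRing C] [MulSemiringAction H C] (ψ : B →+* C)
    (hψ : ∀ (g : H) (b : B), ψ (π g • b) = g • ψ b) {n : ℕ} {x y : Fin n → B}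
    (hxy : ∀ σ : G, σ ≠ 1 → ∑ m, x m * (σ • y m) = 0) (hxy1 : ∑ m, x m * y m = 1)
    (v : G → C) (hv : ∀ (γ : G) (g : H), g • v (γ * π g) = v γ) :
    (∀ (z : B) (g : H), g • (∑ γ, ψ (γ⁻¹ • z) * v γ) = ∑ γ, ψ (γ⁻¹ • z) * v γ) ∧
    ∀ γ : G, v γ = ∑ m, (∑ δ, ψ (δ⁻¹ • y m) * v δ) * ψ (γ⁻¹ • x m) := by
  classical
  constructor
  · intro z g
    rw [Finset.smul_sum]
    refine Fintype.sum_bijective (fun γ => γ * (π g)⁻¹) (Group.mulRight_bijective _) _ _ fun γ => ?_
    rw [smul_mul', ← hψ, smul_smul]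
    have h1 : (γ * (π g)⁻¹)⁻¹ = π g * γ⁻¹ := by group
    have h2 := hv (γ * (π g)⁻¹) g
    rw [inv_mul_cancel_right] at h2
    rw [h1, h2]
  · intro γ
    have h3 : ∀ δ : G, ∑ m, ψ (δ⁻¹ • y m) * ψ (γ⁻¹ • x m) = if δ = γ then 1 else 0 := by
      intro δ
      have h4 : ∑ m, ψ (δ⁻¹ • y m) * ψ (γ⁻¹ • x m) = ψ (γ⁻¹ • ∑ m, x m * ((γ * δ⁻¹) • y m)) := by
        rw [Finset.smul_sum, map_sum]
        refine Finset.sum_congr rfl fun m _ => ?_
        rw [smul_mul', smul_smul, map_mul, mul_comm]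
        congr 3
        group
      rw [h4]
      by_cases hδ : δ = γ
      · subst hδ
        simp only [mul_inv_cancel, one_smul]
        rw [hxy1]
        simp
      · rw [hxy _ (fun h => hδ (mul_inv_eq_one.1 h).symm), if_neg hδ]
        simp
    calc v γ = ∑ δ, (if δ = γ then 1 else 0) * v δ := by simp
      _ = ∑ δ, (∑ m, ψ (δ⁻¹ • y m) * ψ (γ⁻¹ • x m)) * v δ := by
          refine Finset.sum_congr rfl fun δ _ => ?_
          rw [h3]
      _ = _ := by
          simp only [Finset.sum_mul]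
          rw [Finset.sum_comm]
          refine Finset.sum_congr rfl fun m _ => Finset.sum_congr rfl fun δ _ => ?_
          ring

/-- `b = ∑ x_m Tr(y_m b)` -/
theorem gal_formula [Fintype G] {n : ℕ} {x y : Fin n → B}
    (hxy : ∀ σ : G, σ ≠ 1 → ∑ m, x m * (σ • y m) = 0) (hxy1 : ∑ m, x m * y m = 1) (b : B) :
    b = ∑ m, (∑ g : G, g • (y m * b)) * x m := by
  classical
  have h1 : ∀ g : G, ∑ m, x m * (g • y m) = if g = 1 then 1 else 0 := by
    intro g
    split_ifs with h
    · subst h; simpa using hxy1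
    · exact hxy g h
  calc b = ∑ g : G, (if g = 1 then 1 else 0) * (g • b) := by simp
    _ = ∑ g : G, (∑ m, x m * (g • y m)) * (g • b) := by
        refine Finset.sum_congr rfl fun g _ => ?_
        rw [h1]
    _ = _ := by
        simp only [Finset.sum_mul]
        rw [Finset.sum_comm]
        refine Finset.sum_congr rfl fun m _ => Finset.sum_congr rfl fun g _ => ?_
        rw [smul_mul']
        ring

theorem gal_dual' (h : GalAlg R G B) : ∃ (n : ℕ) (x y : Fin n → B),
    (∀ σ : G, σ ≠ 1 → ∑ m, x m * (σ • y m) = 0) ∧ ∑ m, x m * y m = 1 := by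
  classical
  obtain ⟨n, x, y, hxy⟩ := gal_dual h
  refine ⟨n, x, y, fun σ hσ => by rw [hxy, if_neg hσ], ?_⟩
  have := hxy 1
  simpa using this

/-- a Galois algebra is finitely generated as a module -/
theorem gal_finite (h : GalAlg R G B) : Module.Finite R B := by
  classical
  have := Fintype.ofFinite G
  obtain ⟨n, x, y, h1, h2⟩ := gal_dual' h
  refine ⟨⟨Finset.univ.image x, ?_⟩⟩
  rw [eq_top_iff]
  rintro b -
  rw [gal_formula h1 h2 b]
  refine Submodule.sum_mem _ fun m _ => ?_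
  obtain ⟨a, ha⟩ := gal_trace h (y m * b)
  rw [← ha, ← Algebra.smul_def]
  exact Submodule.smul_mem _ _ (Submodule.subset_span (by simp))

/-- an element of trace one -/
theorem gal_trace_one [Fintype G] (h : GalAlg R G B) : ∃ ϑ : B, ∑ g : G, g • ϑ = 1 := by
  classical
  obtain ⟨n, x, y, h1, h2⟩ := gal_dual' h
  have := gal_finite h
  set I : Ideal R :=
    { carrier := {a | ∃ b : B, ∑ g : G, g • b = algebraMap R B a}
      add_mem' := by
        rintro a a' ⟨b, hb⟩ ⟨b', hb'⟩
        exact ⟨b + b', by simp only [smul_add, Finset.sum_add_distrib, hb, hb', map_add]⟩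
      zero_mem' := ⟨0, by simp⟩
      smul_mem' := by
        rintro c a ⟨b, hb⟩
        refine ⟨algebraMap R B c * b, ?_⟩
        simp only [smul_mul', h.comm]
        rw [← Finset.mul_sum, hb, smul_eq_mul, map_mul] } with hI
  have h3 : (⊤ : Submodule R B) ≤ I • (⊤ : Submodule R B) := by
    rintro b -
    rw [gal_formula h1 h2 b]
    refine Submodule.sum_mem _ fun m _ => ?_
    obtain ⟨a, ha⟩ := gal_trace h (y m * b)
    rw [← ha, ← Algebra.smul_def]
    exact Submodule.smul_mem_smul ⟨y m * b, ha.symm⟩ Submodule.mem_top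
  obtain ⟨r, hr1, hr2⟩ := Submodule.exists_sub_one_mem_and_smul_eq_zero_of_fg_of_le_smul I
    (⊤ : Submodule R B) Module.Finite.fg_top h3
  have h4 : algebraMap R B r = 0 := by
    have := hr2 1 Submodule.mem_top
    rwa [Algebra.smul_def, mul_one] at this
  have h5 : r = 0 := h.inj (by rw [h4, map_zero])
  rw [h5, zero_sub] at hr1
  have h6 : (1 : R) ∈ I := by simpa using I.neg_mem hr1
  obtain ⟨b, hb⟩ := h6
  exact ⟨b, by rw [hb, map_one]⟩

/-- additive Hilbert 90 -/
theorem gal_H1 [Fintype G] (h : GalAlg R G B) (c : G → B)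
    (hc : ∀ g g' : G, c (g * g') = c g + g • c g') : ∃ y : B, ∀ g : G, c g = g • y - y := by
  obtain ⟨ϑ, hϑ⟩ := gal_trace_one h
  refine ⟨-∑ τ : G, c τ * (τ • ϑ), fun g => ?_⟩
  have h1 : g • (∑ τ : G, c τ * (τ • ϑ)) = ∑ τ : G, (c (g * τ) - c g) * ((g * τ) • ϑ) := by
    rw [Finset.smul_sum]
    refine Finset.sum_congr rfl fun τ _ => ?_
    rw [smul_mul', smul_smul, hc]
    ring
  have h2 : ∑ τ : G, (c (g * τ) - c g) * ((g * τ) • ϑ) = ∑ τ : G, (c τ - c g) * (τ • ϑ) :=
    Fintype.sum_bijective (fun x => g * x) (Group.mulLeft_bijective g) _ _ fun x => rfl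
  rw [smul_neg, h1, h2]
  simp only [sub_mul, Finset.sum_sub_distrib]
  rw [← Finset.mul_sum, hϑ]
  ring

end

/-- an equivariant homomorphism between Galois algebras over the same ring is bijective -/
theorem gal_hom_bijective {R : Type} [CommRing R] {G : Type} [Group G] [Finite G] {B B' : Type}
    [CommRing B] [Algebra R B] [MulSemiringAction G B] [CommRing B'] [Algebra R B']
    [MulSemiringAction G B'] (h : GalAlg R G B) (h' : GalAlg R G B') (ψ : B →+* B')
    (hψ : ∀ a : R, ψ (algebraMap R B a) = algebraMap R B' a)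
    (hψ' : ∀ (g : G) (b : B), ψ (g • b) = g • ψ b) : Function.Bijective ψ := by
  classical
  have := Fintype.ofFinite G
  obtain ⟨n, x, y, h1, h2⟩ := gal_dual' h
  constructor
  · rw [injective_iff_map_eq_zero]
    intro b hb
    rw [gal_formula h1 h2 b]
    refine Finset.sum_eq_zero fun m _ => ?_
    obtain ⟨a, ha⟩ := gal_trace h (y m * b)
    have h3 : algebraMap R B' a = 0 := by
      rw [← hψ, ha, map_sum]
      refine Finset.sum_eq_zero fun g _ => ?_
      rw [hψ', map_mul, hb, mul_zero, smul_zero]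
    have h4 : a = 0 := h'.inj (by rw [h3, map_zero])
    rw [← ha, h4, map_zero, zero_mul]
  · intro z
    have h3 : ∀ σ : G, σ ≠ 1 → ∑ m, ψ (x m) * (σ • ψ (y m)) = 0 := by
      intro σ hσ
      have := congrArg ψ (h1 σ hσ)
      rw [map_sum, map_zero] at this
      rw [← this]
      exact Finset.sum_congr rfl fun m _ => by rw [map_mul, hψ']
    have h4 : ∑ m, ψ (x m) * ψ (y m) = 1 := by
      have := congrArg ψ h2
      rw [map_sum, map_one] at this
      rw [← this]
      exact Finset.sum_congr rfl fun m _ => by rw [map_mul]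
    have h5 := gal_formula (G := G) (x := fun m => ψ (x m)) (y := fun m => ψ (y m)) h3 h4 z
    choose a ha using fun m => gal_trace h' (ψ (y m) * z)
    refine ⟨∑ m, algebraMap R B (a m) * x m, ?_⟩
    rw [map_sum, h5]
    refine Finset.sum_congr rfl fun m _ => ?_
    rw [map_mul, hψ, ha]

end MP7b0bad

end

section

set_option autoImplicit false

namespace MP7b0bad

open Polynomial

/-! ## Group QA: Galois algebras -/

/-- coordinates of equivariant functions in a basis -/
def QGL : Prop := ∀ (R R' : Type) [CommRing R] [CommRing R'] (φ : R →+* R') (G H : Type) [Group G]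
  [Finite G] [Group H] (π : H →* G) (B C : Type) [CommRing B] [Algebra R B]
  [MulSemiringAction G B] [CommRing C] [Algebra R' C] [MulSemiringAction H C] (ψ : B →+* C),
  GalAlg R G B → (∀ (h : H) (a : R'), h • algebraMap R' C a = algebraMap R' C a) →
  Function.Injective (algebraMap R' C) →
  (∀ c : C, (∀ h : H, h • c = c) → ∃ a : R', algebraMap R' C a = c) →
  (∀ a : R, ψ (algebraMap R B a) = algebraMap R' C (φ a)) →
  (∀ (h : H) (b : B), ψ (π h • b) = h • ψ b) →
  ∀ (n : ℕ) (β : Module.Basis (Fin n) R B) (v : G → C), (∀ (γ : G) (h : H), h • v (γ * π h) = v γ) →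
  ∃! c : Fin n → R', ∀ γ : G, v γ = ∑ l, algebraMap R' C (c l) * ψ (γ⁻¹ • β l)

def QFree : Prop := ∀ (κ : Type) [Field κ] (G : Type) [Group G] [Finite G] (B : Type) [CommRing B]
  [Algebra κ[X] B] [MulSemiringAction G B], GalAlg κ[X] G B → Module.Free κ[X] B

/-- base change -/
def QBC : Prop := ∀ (R R' : Type) [CommRing R] [CommRing R'] (φ : R →+* R') (G : Type) [Group G]
  [Finite G] (B : Type) [CommRing B] [Algebra R B] [MulSemiringAction G B], GalAlg R G B →
  ∃ (B' : Type) (_ : CommRing B') (_ : Algebra R' B') (_ : MulSemiringAction G B') (q : B →+* B'),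
    GalAlg R' G B' ∧ (∀ a : R, q (algebraMap R B a) = algebraMap R' B' (φ a)) ∧
    (∀ (g : G) (b : B), q (g • b) = g • q b) ∧
    (∀ (T : Type) [CommRing T] (f : B →+* T) (h : R' →+* T),
      (∀ a : R, f (algebraMap R B a) = h (φ a)) →
      ∃ F : B' →+* T, (∀ b : B, F (q b) = f b) ∧ ∀ a : R', F (algebraMap R' B' a) = h a) ∧
    ∀ z : B', ∃ (n : ℕ) (r : Fin n → R') (b : Fin n → B), z = ∑ i, algebraMap R' B' (r i) * q (b i)

/-- tensor products -/
def QTen : Prop := ∀ (R : Type) [CommRing R] (G P : Type) [Group G] [Finite G] [Group P] [Finite P]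
  (B E : Type) [CommRing B] [Algebra R B] [MulSemiringAction G B] [CommRing E] [Algebra R E]
  [MulSemiringAction P E], GalAlg R G B → GalAlg R P E →
  ∃ (C : Type) (_ : CommRing C) (_ : Algebra R C) (_ : MulSemiringAction (G × P) C)
    (i : B →+* C) (j : E →+* C), GalAlg R (G × P) C ∧
    (∀ a : R, i (algebraMap R B a) = algebraMap R C a) ∧
    (∀ a : R, j (algebraMap R E a) = algebraMap R C a) ∧
    (∀ (g : G) (τ : P) (b : B), (g, τ) • i b = i (g • b)) ∧
    (∀ (g : G) (τ : P) (e : E), (g, τ) • j e = j (τ • e)) ∧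
    Function.Injective i ∧ Function.Injective j ∧
    ∀ (T : Type) [CommRing T] (f : B →+* T) (h : E →+* T),
      (∀ a : R, f (algebraMap R B a) = h (algebraMap R E a)) →
      ∃ F : C →+* T, (∀ b, F (i b) = f b) ∧ ∀ e, F (j e) = h e

/-- invariants under a normal subgroup -/
def QSub : Prop := ∀ (R : Type) [CommRing R] (Γ Γb : Type) [Group Γ] [Finite Γ] [Group Γb]
  (q : Γ →* Γb) (C : Type) [CommRing C] [Algebra R C] [MulSemiringAction Γ C],
  Function.Surjective q → GalAlg R Γ C →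
  ∃ (B : Type) (_ : CommRing B) (_ : Algebra R B) (_ : MulSemiringAction Γb B) (i : B →+* C),
    GalAlg R Γb B ∧ Function.Injective i ∧ (∀ a : R, i (algebraMap R B a) = algebraMap R C a) ∧
    (∀ (γ : Γ) (b : B), i (q γ • b) = γ • i b) ∧
    ∀ c : C, (∀ γ ∈ q.ker, γ • c = c) → ∃ b, i b = c

/-- the idempotent of an equivariant homomorphism to a Galois algebra for a subgroup -/
def QIdem : Prop := ∀ (R : Type) [CommRing R] (Γ Δ : Type) [Group Γ] [Finite Γ] [Group Δ]
  (δ : Δ →* Γ) (C E : Type) [CommRing C] [Algebra R C] [MulSemiringAction Γ C] [CommRing E]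
  [Algebra R E] [MulSemiringAction Δ E] (Φ : C →+* E), Function.Injective δ →
  GalAlg R Γ C → GalAlg R Δ E → (∀ a : R, Φ (algebraMap R C a) = algebraMap R E a) →
  (∀ (d : Δ) (c : C), Φ (δ d • c) = d • Φ c) →
  ∃ e : C, e * e = e ∧ (∀ d : Δ, δ d • e = e) ∧ (∀ γ : Γ, γ ∉ δ.range → e * (γ • e) = 0) ∧
    (∃ s : Finset Γ, ∑ γ ∈ s, γ • e = 1) ∧ Φ e = 1

/-- the connected component of a Galois algebra over `κ[x]` containing a given minimal prime -/
def QComp : Prop := ∀ (κ : Type) [Field κ] (G : Type) [Group G] [Finite G] (B : Type) [CommRing B]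
  [Algebra κ[X] B] [MulSemiringAction G B] (E : Type) [CommRing E] [IsDomain E] (ι : B →+* E)
  (P : Subgroup G) (act : P →* RingAut E), GalAlg κ[X] G B →
  Function.Injective (fun f : κ[X] => ι (algebraMap κ[X] B f)) →
  (∀ (g : P) (b : B), ι ((g : G) • b) = act g (ι b)) →
  ∃ (G' : Subgroup G) (B' : Type) (_ : CommRing B') (_ : Algebra κ[X] B')
    (_ : MulSemiringAction G' B') (q : B →+* B') (ι' : B' →+* E),
    P ≤ G' ∧ GalAlg κ[X] G' B' ∧ IsDomain B' ∧ Function.Surjective q ∧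
    (∀ f, q (algebraMap κ[X] B f) = algebraMap κ[X] B' f) ∧
    (∀ (g : G') (b : B), q ((g : G) • b) = g • q b) ∧ (∀ b, ι' (q b) = ι b) ∧
    Function.Injective ι' ∧
    ∀ N : Subgroup G, N.Normal → (∀ b b' : B, (∀ n ∈ N, n • b = b) → (∀ n ∈ N, n • b' = b') →
      b * b' = 0 → b = 0 ∨ b' = 0) → N ⊔ G' = ⊤

/-! ## Group QO: construction of torsors -/

/-- the embedding problem with central kernel of order `p` -/
def QEL : Prop := ∀ (R : Type) [CommRing R] (p : ℕ) [Fact p.Prime] [CharP R p] (P Pb : Type)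
  [Group P] [Finite P] [Group Pb] (q : P →* Pb) (z : P) (B : Type) [CommRing B] [Algebra R B]
  [MulSemiringAction Pb B], Function.Surjective q → z ∈ Subgroup.center P → orderOf z = p →
  q.ker = Subgroup.zpowers z → GalAlg R Pb B →
  ∃ (b : P → B) (m : B), (∀ g h : P, b (g * h) = b g + q g • b h) ∧ b z = 1 ∧
    ∀ g, b g ^ p - b g = q g • m - m

/-- the Artin-Schreier extension solving the embedding problem -/
def QASX : Prop := ∀ (R : Type) [CommRing R] (p : ℕ) [Fact p.Prime] [CharP R p] (P Pb : Type)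
  [Group P] [Finite P] [Group Pb] (q : P →* Pb) (z : P) (B : Type) [CommRing B] [Algebra R B]
  [MulSemiringAction Pb B] (b : P → B) (m : B), Function.Surjective q →
  z ∈ Subgroup.center P → orderOf z = p → q.ker = Subgroup.zpowers z → GalAlg R Pb B →
  (∀ g h : P, b (g * h) = b g + q g • b h) → b z = 1 → (∀ g, b g ^ p - b g = q g • m - m) →
  ∃ (E : Type) (_ : CommRing E) (_ : Algebra R E) (_ : MulSemiringAction P E) (i : B →+* E) (y : E),
    GalAlg R P E ∧ (∀ a : R, i (algebraMap R B a) = algebraMap R E a) ∧ Function.Injective i ∧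
    (∀ (g : P) (e : B), g • i e = i (q g • e)) ∧ (∀ g : P, g • y = y + i (b g)) ∧
    y ^ p - y = i m ∧
    (∀ (T : Type) [CommRing T] (φ : B →+* T) (t : T), t ^ p - t = φ m →
      ∃ F : E →+* T, (∀ e, F (i e) = φ e) ∧ F y = t) ∧
    ∀ x : E, ∃ c : Fin p → B, x = ∑ l, i (c l) * y ^ (l : ℕ)

/-- solution of the embedding problem over a given Galois algebra `A` -/
def QLoc : Prop := ∀ (R' : Type) [CommRing R'] (p : ℕ) [Fact p.Prime] (P Pb : Type)
  [Group P] [Group Pb] (q : P →* Pb) (B : Type) [CommRing B] [MulSemiringAction Pb B]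
  (b : P → B) (m : B) (P' : Type) [Group P'] [Finite P'] (π : P' →* P) (A : Type) [CommRing A]
  [Algebra R' A] [MulSemiringAction P' A] (ψ : B →+* A), (p : A) = 0 →
  (∀ g h : P, b (g * h) = b g + q g • b h) → (∀ g, b g ^ p - b g = q g • m - m) →
  GalAlg R' P' A → (∀ (g : P') (e : B), ψ (q (π g) • e) = g • ψ e) →
  ∃ (y : A) (u : R'), (∀ g : P', g • y = y + ψ (b (π g))) ∧ y ^ p - y = ψ m + algebraMap R' A u

/-- one step of the construction of torsors -/
def QOTS : Prop := ∀ (κ : Type) [Field κ] (p : ℕ) [Fact p.Prime] [CharP κ p] (N : ℕ)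
  (R' : Fin N → Type) [∀ i, CommRing (R' i)] (ρ : ∀ i, κ[X] →+* R' i) (S : Prop),
  QDen κ p N R' ρ S → ∀ (P Pb : Type) [Group P] [Finite P] [Group Pb] (q : P →* Pb) (z : P),
  Function.Surjective q → z ∈ Subgroup.center P → orderOf z = p → q.ker = Subgroup.zpowers z →
  ∀ (P' : Fin N → Type) [∀ i, Group (P' i)] [∀ i, Finite (P' i)] (π : ∀ i, P' i →* P)
    (A : Fin N → Type) [∀ i, CommRing (A i)] [∀ i, Algebra (R' i) (A i)]
    [∀ i, MulSemiringAction (P' i) (A i)], (∀ i, GalAlg (R' i) (P' i) (A i)) →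
  ∀ (Eb : Type) [CommRing Eb] [Algebra κ[X] Eb] [MulSemiringAction Pb Eb] (ab : ∀ i, Eb →+* A i),
  GalAlg κ[X] Pb Eb →
  (∀ i f, ab i (algebraMap κ[X] Eb f) = algebraMap (R' i) (A i) (ρ i f)) →
  (∀ i (g : P' i) (e : Eb), ab i (q (π i g) • e) = g • ab i e) → (S → TotRam κ p Pb Eb) →
  ∃ (E : Type) (_ : CommRing E) (_ : Algebra κ[X] E) (_ : MulSemiringAction P E)
    (a : ∀ i, E →+* A i), GalAlg κ[X] P E ∧
    (∀ i f, a i (algebraMap κ[X] E f) = algebraMap (R' i) (A i) (ρ i f)) ∧
    (∀ i (g : P' i) (e : E), a i (π i g • e) = g • a i e) ∧ (S → TotRam κ p P E)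

/-- construction of torsors -/
def QOTG : Prop := ∀ (κ : Type) [Field κ] (p : ℕ) [Fact p.Prime] [CharP κ p] (N : ℕ)
  (R' : Fin N → Type) [∀ i, CommRing (R' i)] (ρ : ∀ i, κ[X] →+* R' i) (S : Prop),
  QDen κ p N R' ρ S → ∀ (P : Type) [Group P] [Finite P], IsPGroup p P →
  ∀ (P' : Fin N → Type) [∀ i, Group (P' i)] [∀ i, Finite (P' i)] (π : ∀ i, P' i →* P)
    (A : Fin N → Type) [∀ i, CommRing (A i)] [∀ i, Algebra (R' i) (A i)]
    [∀ i, MulSemiringAction (P' i) (A i)], (∀ i, GalAlg (R' i) (P' i) (A i)) →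
  ∃ (E : Type) (_ : CommRing E) (_ : Algebra κ[X] E) (_ : MulSemiringAction P E)
    (a : ∀ i, E →+* A i), GalAlg κ[X] P E ∧
    (∀ i f, a i (algebraMap κ[X] E f) = algebraMap (R' i) (A i) (ρ i f)) ∧
    (∀ i (g : P' i) (e : E), a i (π i g • e) = g • a i e) ∧ (S → TotRam κ p P E)

/-- small Laurent series are of the form `h^p - h` -/
def QSm0 : Prop := ∀ (A : Type) [CommRing A] (p : ℕ) [Fact p.Prime] [CharP A p]
  (u : LaurentSeries A), (∀ n : ℤ, n ≤ 0 → u.coeff n = 0) →
  ∃ h : LaurentSeries A, (∀ n : ℤ, n ≤ 0 → h.coeff n = 0) ∧ u = h ^ p - h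

def QDiscs : Prop := ∀ (k : Type) [Field k] [IsAlgClosed k] (N : ℕ),
  ∃ (W : k[X]) (a : Fin N → k) (η : Fin N → KW k), DiscsT k N W a η

/-- passage from `k[w]((T))` to `F` -/
def QDF : Prop := ∀ (k : Type) [Field k] (N : ℕ) (W : k[X]) (a : Fin N → k) (η : Fin N → KW k),
  DiscsT k N W a η → DiscsK k N (VT k W) (fun i => WF k (η i)) ∧
    (∀ i (f : (LaurentSeries k)[X]), WF k (f.eval₂ (KKW k) (η i)) = f.eval₂ (KF k) (WF k (η i))) ∧
    ∀ f : k[X], WF k (toXW k f) = toX k f

def QDenT : Prop := ∀ (k : Type) [Field k] (p : ℕ) [Fact p.Prime] [CharP k p] (N : ℕ) (W : k[X])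
  (a : Fin N → k) (η : Fin N → KW k), DiscsT k N W a η →
  QDen (LaurentSeries k) p N (fun _ => KW k) (fun i => eval₂RingHom (KKW k) (η i)) True

def QDenk : Prop := ∀ (k : Type) [Field k] (p : ℕ) [Fact p.Prime] [CharP k p],
  QDen k p 1 (fun _ => LaurentSeries k) (fun _ => atInf k) False

/-- every Galois algebra over `k((ξ))` for a `p`-group comes from one over `k[x]` -/
def QKG : Prop := ∀ (k : Type) [Field k] (p : ℕ) [Fact p.Prime] [CharP k p] (P : Type) [Group P]
  [Finite P] (E : Type) [CommRing E] [Algebra (LaurentSeries k) E] [MulSemiringAction P E],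
  IsPGroup p P → GalAlg (LaurentSeries k) P E →
  ∃ (A : Type) (_ : CommRing A) (_ : Algebra k[X] A) (_ : MulSemiringAction P A) (j : A →+* E),
    GalAlg k[X] P A ∧ (∀ f, j (algebraMap k[X] A f) = algebraMap (LaurentSeries k) E (atInf k f)) ∧
    ∀ (g : P) (a : A), j (g • a) = g • j a

/-- total ramification implies connectedness at infinity -/
def QTR : Prop := ∀ (κ : Type) [Field κ] (p : ℕ) [Fact p.Prime] [CharP κ p] (P : Type) [Group P]
  [Finite P] (A E : Type) [CommRing A] [Algebra κ[X] A] [MulSemiringAction P A] [CommRing E]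
  [Algebra (LaurentSeries κ) E] [MulSemiringAction P E] (j : A →+* E), IsPGroup p P →
  TotRam κ p P A → GalAlg (LaurentSeries κ) P E →
  (∀ f, j (algebraMap κ[X] A f) = algebraMap (LaurentSeries κ) E (atInf κ f)) →
  (∀ (g : P) (a : A), j (g • a) = g • j a) → IsDomain E

/-- Artin-Schreier data of a connected Galois algebra over `k((ξ))` -/
def QTRk : Prop := ∀ (k : Type) [Field k] [IsAlgClosed k] (p : ℕ) [Fact p.Prime] [CharP k p]
  (P : Type) [Group P] [Finite P] (E : Type) [CommRing E] [Algebra (LaurentSeries k) E]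
  [MulSemiringAction P E], IsDomain E → GalAlg (LaurentSeries k) P E →
  ∀ l : P →* Multiplicative (ZMod p), l ≠ 1 → ∃ (y : E) (f : k[X]),
    (∀ g : P, g • y = y + (((Multiplicative.toAdd (l g)).val : ℕ) : E)) ∧
    y ^ p - y = algebraMap (LaurentSeries k) E (atInf k f) ∧ ¬ p ∣ f.natDegree

/-- the embedding `k((ξ)) → F`, `ξ ↦ T / w` -/
def QPsi : Prop := ∀ (k : Type) [Field k], ∃ ψ : LaurentSeries k →+* Fk k,
  (∀ c : k, ψ (HahnSeries.C c) = kF k c) ∧ ∀ f : k[X], ψ (atInf k f) = toX k f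

/-- connected local embedding problems -/
def QLL : Prop := ∀ (k : Type) [Field k] [IsAlgClosed k] (p : ℕ) [Fact p.Prime] [CharP k p]
  (P Pb : Type) [Group P] [Finite P] [Group Pb] (q : P →* Pb) (Eb : Type) [CommRing Eb]
  [Algebra (LaurentSeries k) Eb] [MulSemiringAction Pb Eb], IsPGroup p P →
  Function.Surjective q → IsDomain Eb → GalAlg (LaurentSeries k) Pb Eb →
  ∃ (E : Type) (_ : CommRing E) (_ : Algebra (LaurentSeries k) E) (_ : MulSemiringAction P E)
    (i : Eb →+* E), IsDomain E ∧ GalAlg (LaurentSeries k) P E ∧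
    (∀ a, i (algebraMap (LaurentSeries k) Eb a) = algebraMap (LaurentSeries k) E a) ∧
    ∀ (g : P) (e : Eb), g • i e = i (q g • e)

/-! ## Group QP: patching -/

def QC2a : Prop := ∀ (k : Type) [Field k] (N : ℕ) (V : (LaurentSeries k)[X]) (ξ : Fin N → Fk k),
  DiscsK k N V ξ →
  (∀ v : Fin N → Fk k, ∃! c : Fin N → Fk k, ∀ i, v i = ∑ j, c j * ξ i ^ (j : ℕ)) ∧
  ∀ c : Fin N → Fk k, (∀ i, ∑ j, c j * ξ i ^ (j : ℕ) ∈ Rr k) → ∀ j, c j ∈ Rr k

/-- `V`-adic expansion -/
def QVad : Prop := ∀ (K : Type) [Field K] (V f : K[X]), 0 < V.natDegree →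
  ∃ g : Fin V.natDegree → K[X], f = ∑ j, (g j).comp V * X ^ (j : ℕ)

def QC2b : Prop := ∀ (k : Type) [Field k] (V : (LaurentSeries k)[X]), 0 < V.natDegree →
  ∃ l : Ss k →+* LaurentSeries (LaurentSeries k),
    (∀ (f : (LaurentSeries k)[X]) (h : jj k f ∈ Ss k), l ⟨jj k f, h⟩ =
      atInf (LaurentSeries k) (f.comp V)) ∧
    ∀ s, s ≠ 0 → l s ≠ 0 ∧ (V.natDegree : ℤ) ∣ (l s).order

/-- The ring `S[x]`. -/
def QC2c : Prop := ∀ (k : Type) [Field k] (N : ℕ) (V : (LaurentSeries k)[X]) (ξ : Fin N → Fk k),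
  DiscsK k N V ξ → 0 < N →
  ∃ (A1 : Type) (_ : CommRing A1) (o : Ss k →+* A1) (x : A1) (a : Fin N → A1 →+* Fk k)
    (aI : A1 →+* LaurentSeries (LaurentSeries k)),
    (∀ i s, a i (o s) = (s : Fk k)) ∧ (∀ i, a i x = ξ i) ∧ (∀ i, Function.Injective (a i)) ∧
    Function.Injective aI ∧ aI x = atInf (LaurentSeries k) X ∧
    (∀ (f : (LaurentSeries k)[X]) (h : jj k f ∈ Ss k), aI (o ⟨jj k f, h⟩) =
      atInf (LaurentSeries k) (f.comp V)) ∧
    ∀ α, ∃ c : Fin N → Ss k, α = ∑ j, o (c j) * x ^ (j : ℕ)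

section

/-- description of `SM`, equivariance and translates -/
def QP1 : Prop := ∀ (k : Type) [Field k] (N : ℕ) (ξ : Fin N → Fk k) (P : Type) [Group P]
  (P' : Fin N → Type) [∀ i, Group (P' i)] (π : ∀ i, P' i →* P)
  (Q : Fin N → Type) [∀ i, CommRing (Q i)] [∀ i, Algebra (Fk k) (Q i)]
  [∀ i, MulSemiringAction (P' i) (Q i)] (O : Outer k N ξ P P' π Q) (u : P → ∀ i, Q i),
  (u ∈ SM O ↔ ∃ (n : ℕ) (s : Fin n → Fk k) (e : Fin n → O.A), (∀ m, s m ∈ Ss k) ∧
    ∀ (γ : P) i, u γ i = ∑ m, algebraMap (Fk k) (Q i) (s m) * O.a i (γ⁻¹ • e m)) ∧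
  (u ∈ SM O → (∀ i, GalAlg (Fk k) (P' i) (Q i)) →
    ∀ (γ : P) i (τ : P' i), τ • u (γ * π i τ) i = u γ i) ∧
  (u ∈ SM O → ∀ δ : P, (fun γ => u (δ * γ)) ∈ SM O)

/-- description of `RN`, equivariance and translates -/
def QP2 : Prop := ∀ (k : Type) [Field k] (H P' : Type) [Group H] [Group P'] (π : P' →* H)
  (Q : Type) [CommRing Q] [Algebra (Fk k) Q] [MulSemiringAction P' Q] (c : Inner k H P' π Q)
  (u : H → Q),
  (u ∈ RN c ↔ ∃ (n : ℕ) (r : Fin n → Fk k) (b : Fin n → c.B), (∀ m, r m ∈ Rr k) ∧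
    ∀ γ : H, u γ = ∑ m, algebraMap (Fk k) Q (r m) * c.ι (γ⁻¹ • b m)) ∧
  (u ∈ RN c → GalAlg (Fk k) P' Q → ∀ (γ : H) (τ : P'), τ • u (γ * π τ) = u γ) ∧
  (u ∈ RN c → ∀ δ : H, (fun γ => u (δ * γ)) ∈ RN c)

/-- basis adapted to `RN` -/
def QB1 : Prop := ∀ (k : Type) [Field k] (H P' : Type) [Group H] [Finite H] [Group P'] [Finite P']
  (π : P' →* H) (Q : Type) [CommRing Q] [Algebra (Fk k) Q] [MulSemiringAction P' Q]
  (c : Inner k H P' π Q), GalAlg (Fk k) P' Q →
  ∃ (n : ℕ) (β : Module.Basis (Fin n) k[X] c.B),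
    (∀ u : H → Q, (∀ (γ : H) (τ : P'), τ • u (γ * π τ) = u γ) →
      ∃! r : Fin n → Fk k, ∀ γ, u γ = ∑ l, algebraMap (Fk k) Q (r l) * c.ι (γ⁻¹ • β l)) ∧
    ∀ r : Fin n → Fk k, (fun γ : H => ∑ l, algebraMap (Fk k) Q (r l) * c.ι (γ⁻¹ • β l)) ∈ RN c ↔
      ∀ l, r l ∈ Rr k

/-- basis adapted to `SM` -/
def QB2 : Prop := ∀ (k : Type) [Field k] (N : ℕ) (V : (LaurentSeries k)[X]) (ξ : Fin N → Fk k)
  (P : Type) [Group P] [Finite P] (P' : Fin N → Type) [∀ i, Group (P' i)] [∀ i, Finite (P' i)]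
  (π : ∀ i, P' i →* P) (Q : Fin N → Type) [∀ i, CommRing (Q i)] [∀ i, Algebra (Fk k) (Q i)]
  [∀ i, MulSemiringAction (P' i) (Q i)] (O : Outer k N ξ P P' π Q), DiscsK k N V ξ → 0 < N →
  (∀ i, GalAlg (Fk k) (P' i) (Q i)) →
  ∃ (n : ℕ) (β : Module.Basis (Fin n) (LaurentSeries k)[X] O.A),
    (∀ u : P → ∀ i, Q i, (∀ (γ : P) i (τ : P' i), τ • u (γ * π i τ) i = u γ i) →
      ∃! s : Fin n → Fin N → Fk k, ∀ (γ : P) i, u γ i =
        ∑ l, algebraMap (Fk k) (Q i) (∑ j, s l j * ξ i ^ (j : ℕ)) * O.a i (γ⁻¹ • β l)) ∧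
    ∀ s : Fin n → Fin N → Fk k, (fun (γ : P) i =>
        ∑ l, algebraMap (Fk k) (Q i) (∑ j, s l j * ξ i ^ (j : ℕ)) * O.a i (γ⁻¹ • β l)) ∈ SM O ↔
      ∀ l j, s l j ∈ Ss k

/-- the embedding of `SM` into the local extension at infinity -/
def QTh : Prop := ∀ (k : Type) [Field k] (N : ℕ) (V : (LaurentSeries k)[X]) (ξ : Fin N → Fk k)
  (P : Type) [Group P] [Finite P] (P' : Fin N → Type) [∀ i, Group (P' i)] [∀ i, Finite (P' i)]
  (π : ∀ i, P' i →* P) (Q : Fin N → Type) [∀ i, CommRing (Q i)] [∀ i, Algebra (Fk k) (Q i)]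
  [∀ i, MulSemiringAction (P' i) (Q i)] (O : Outer k N ξ P P' π Q), DiscsK k N V ξ → 0 < N →
  (∀ i, GalAlg (Fk k) (P' i) (Q i)) →
  ∃ Θ : SM O →+* O.E, Function.Injective Θ ∧
    (∀ (e : O.A) (h : (fun (γ : P) i => O.a i (γ⁻¹ • e)) ∈ SM O), Θ ⟨_, h⟩ = O.j e) ∧
    ∀ (u : P → ∀ i, Q i) (h : u ∈ SM O) (δ : P) (h' : (fun γ => u (δ⁻¹ * γ)) ∈ SM O),
      Θ ⟨_, h'⟩ = δ • Θ ⟨u, h⟩

/-- elements of `SM` that vanish somewhere are zero; invariant elements -/
def QS3 : Prop := ∀ (k : Type) [Field k] (N : ℕ) (V : (LaurentSeries k)[X]) (ξ : Fin N → Fk k)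
  (P : Type) [Group P] [Finite P] (P' : Fin N → Type) [∀ i, Group (P' i)] [∀ i, Finite (P' i)]
  (π : ∀ i, P' i →* P) (Q : Fin N → Type) [∀ i, CommRing (Q i)] [∀ i, Algebra (Fk k) (Q i)]
  [∀ i, MulSemiringAction (P' i) (Q i)] (O : Outer k N ξ P P' π Q), DiscsK k N V ξ → 0 < N →
  (∀ i, GalAlg (Fk k) (P' i) (Q i)) → ∀ u ∈ SM O,
  ((∃ γ i, u γ i = 0) → u = 0) ∧
  ((∀ γ, u γ = u 1) → ∃ c : Fin N → Fk k, (∀ j, c j ∈ Ss k) ∧
    ∀ γ i, u γ i = algebraMap (Fk k) (Q i) (∑ j, c j * ξ i ^ (j : ℕ)))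

/-- elements of `RN` that vanish somewhere are zero; invariant elements -/
def QD3 : Prop := ∀ (k : Type) [Field k] (H P' : Type) [Group H] [Finite H] [Group P'] [Finite P']
  (π : P' →* H) (Q : Type) [CommRing Q] [Algebra (Fk k) Q] [MulSemiringAction P' Q]
  (c : Inner k H P' π Q), GalAlg (Fk k) P' Q → ∀ u ∈ RN c,
  ((∃ γ, u γ = 0) → u = 0) ∧
  ((∀ γ, u γ = u 1) → ∃ r ∈ Rr k, ∀ γ, u γ = algebraMap (Fk k) Q r)

/-- basis adapted to `InSQ` -/
def QV1 : Prop := ∀ (k : Type) [Field k] (N : ℕ) (V : (LaurentSeries k)[X]) (ξ : Fin N → Fk k)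
  (G : Type) [Group G] [Finite G] (P : Subgroup G) (P' : Fin N → Subgroup G) (hP : ∀ i, P' i ≤ P)
  (Q : Fin N → Type) [∀ i, CommRing (Q i)] [∀ i, Algebra (Fk k) (Q i)]
  [∀ i, MulSemiringAction (P' i) (Q i)]
  (O : Outer k N ξ P (fun i => P' i) (fun i => Subgroup.inclusion (hP i)) Q)
  (hQ : ∀ i, GalAlg (Fk k) (P' i) (Q i)), DiscsK k N V ξ → 0 < N →
  ∃ (ι' : Type) (_ : Fintype ι') (e : Module.Basis ι' (Fk k) (VQ (G := G) hQ)),
    ∀ v : VQ (G := G) hQ, (v : G → ∀ i, Q i) ∈ InSQ O ↔ ∀ i, e.repr v i ∈ Ss k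

/-- basis adapted to `InRQ` -/
def QV2 : Prop := ∀ (k : Type) [Field k] (N : ℕ)
  (G : Type) [Group G] [Finite G] (P' : Fin N → Subgroup G) (H : Fin N → Subgroup G)
  (hH : ∀ i, P' i ≤ H i)
  (Q : Fin N → Type) [∀ i, CommRing (Q i)] [∀ i, Algebra (Fk k) (Q i)]
  [∀ i, MulSemiringAction (P' i) (Q i)]
  (c : ∀ i, Inner k (H i) (P' i) (Subgroup.inclusion (hH i)) (Q i))
  (hQ : ∀ i, GalAlg (Fk k) (P' i) (Q i)),
  ∃ (ι' : Type) (_ : Fintype ι') (e : Module.Basis ι' (Fk k) (VQ (G := G) hQ)),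
    ∀ v : VQ (G := G) hQ, (v : G → ∀ i, Q i) ∈ InRQ c ↔ ∀ i, e.repr v i ∈ Rr k

/-- a common basis -/
def QV3 : Prop := ∀ (k : Type) [Field k] (N : ℕ) (V : (LaurentSeries k)[X]) (ξ : Fin N → Fk k)
  (G : Type) [Group G] [Finite G] (P : Subgroup G) (P' : Fin N → Subgroup G) (hP : ∀ i, P' i ≤ P)
  (H : Fin N → Subgroup G) (hH : ∀ i, P' i ≤ H i)
  (Q : Fin N → Type) [∀ i, CommRing (Q i)] [∀ i, Algebra (Fk k) (Q i)]
  [∀ i, MulSemiringAction (P' i) (Q i)]
  (O : Outer k N ξ P (fun i => P' i) (fun i => Subgroup.inclusion (hP i)) Q)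
  (c : ∀ i, Inner k (H i) (P' i) (Subgroup.inclusion (hH i)) (Q i)),
  (∀ i, GalAlg (Fk k) (P' i) (Q i)) → DiscsK k N V ξ → 0 < N →
  ∃ (n : ℕ) (b : Fin n → G → ∀ i, Q i), (∀ l, b l ∈ BQ O c) ∧
    (∀ v ∈ EqQ G P' Q ⊓ InSQ O, ∃ s : Fin n → Fk k, (∀ l, s l ∈ Ss k) ∧ v = ∑ l, s l • b l) ∧
    (∀ v ∈ EqQ G P' Q ⊓ InRQ c, ∃ s : Fin n → Fk k, (∀ l, s l ∈ Rr k) ∧ v = ∑ l, s l • b l) ∧
    (∀ a : Fin n → Fk k, ∑ l, a l • b l = 0 → a = 0) ∧
    ∀ v ∈ BQ O c, ∃ f : Fin n → (LaurentSeries k)[X], v = ∑ l, jj k (f l) • b l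

def QV4S : Prop := ∀ (k : Type) [Field k] (N : ℕ) (ξ : Fin N → Fk k)
  (G : Type) [Group G] [Finite G] (P : Subgroup G) (P' : Fin N → Subgroup G) (hP : ∀ i, P' i ≤ P)
  (Q : Fin N → Type) [∀ i, CommRing (Q i)] [∀ i, Algebra (Fk k) (Q i)]
  [∀ i, MulSemiringAction (P' i) (Q i)]
  (O : Outer k N ξ P (fun i => P' i) (fun i => Subgroup.inclusion (hP i)) Q) (σ : G),
  (∀ i, GalAlg (Fk k) (P' i) (Q i)) → σ ≠ 1 →
  ∃ (n : ℕ) (α β : Fin n → G → ∀ i, Q i),
    (∀ m, α m ∈ EqQ G P' Q ⊓ InSQ O ∧ β m ∈ EqQ G P' Q ⊓ InSQ O) ∧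
    ∑ m, α m * (β m - trQ σ (β m)) = 1

def QV4R : Prop := ∀ (k : Type) [Field k] (N : ℕ)
  (G : Type) [Group G] [Finite G] (P' : Fin N → Subgroup G) (H : Fin N → Subgroup G)
  (hH : ∀ i, P' i ≤ H i)
  (Q : Fin N → Type) [∀ i, CommRing (Q i)] [∀ i, Algebra (Fk k) (Q i)]
  [∀ i, MulSemiringAction (P' i) (Q i)]
  (c : ∀ i, Inner k (H i) (P' i) (Subgroup.inclusion (hH i)) (Q i)) (σ : G),
  (∀ i, GalAlg (Fk k) (P' i) (Q i)) → σ ≠ 1 →
  ∃ (n : ℕ) (α β : Fin n → G → ∀ i, Q i),
    (∀ m, α m ∈ EqQ G P' Q ⊓ InRQ c ∧ β m ∈ EqQ G P' Q ⊓ InRQ c) ∧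
    ∑ m, α m * (β m - trQ σ (β m)) = 1

def QV5 : Prop := ∀ (k : Type) [Field k] (N : ℕ) (V : (LaurentSeries k)[X]) (ξ : Fin N → Fk k)
  (G : Type) [Group G] [Finite G] (P : Subgroup G) (P' : Fin N → Subgroup G) (hP : ∀ i, P' i ≤ P)
  (H : Fin N → Subgroup G) (hH : ∀ i, P' i ≤ H i)
  (Q : Fin N → Type) [∀ i, CommRing (Q i)] [∀ i, Algebra (Fk k) (Q i)]
  [∀ i, MulSemiringAction (P' i) (Q i)]
  (O : Outer k N ξ P (fun i => P' i) (fun i => Subgroup.inclusion (hP i)) Q)
  (c : ∀ i, Inner k (H i) (P' i) (Subgroup.inclusion (hH i)) (Q i)) (σ : G),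
  (∀ i, GalAlg (Fk k) (P' i) (Q i)) → DiscsK k N V ξ → 0 < N → σ ≠ 1 →
  ∃ (n : ℕ) (α β : Fin n → G → ∀ i, Q i), (∀ m, α m ∈ BQ O c ∧ β m ∈ BQ O c) ∧
    ∑ m, α m * (β m - trQ σ (β m)) = 1

/-- elements of the patched ring that vanish somewhere are zero -/
def QV6 : Prop := ∀ (k : Type) [Field k] (N : ℕ) (V : (LaurentSeries k)[X]) (ξ : Fin N → Fk k)
  (G : Type) [Group G] [Finite G] (P : Subgroup G) (P' : Fin N → Subgroup G) (hP : ∀ i, P' i ≤ P)
  (H : Fin N → Subgroup G) (hH : ∀ i, P' i ≤ H i)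
  (Q : Fin N → Type) [∀ i, CommRing (Q i)] [∀ i, Algebra (Fk k) (Q i)]
  [∀ i, MulSemiringAction (P' i) (Q i)]
  (O : Outer k N ξ P (fun i => P' i) (fun i => Subgroup.inclusion (hP i)) Q)
  (c : ∀ i, Inner k (H i) (P' i) (Subgroup.inclusion (hH i)) (Q i)),
  (∀ i, GalAlg (Fk k) (P' i) (Q i)) → DiscsK k N V ξ → 0 < N → (P ⊔ ⨆ i, H i) = ⊤ →
  ∀ v ∈ BQ O c, (∃ g i, v g i = 0) → v = 0

/-- invariants of the patched ring -/
def QV7 : Prop := ∀ (k : Type) [Field k] (N : ℕ) (V : (LaurentSeries k)[X]) (ξ : Fin N → Fk k)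
  (G : Type) [Group G] [Finite G] (P : Subgroup G) (P' : Fin N → Subgroup G) (hP : ∀ i, P' i ≤ P)
  (H : Fin N → Subgroup G) (hH : ∀ i, P' i ≤ H i)
  (Q : Fin N → Type) [∀ i, CommRing (Q i)] [∀ i, Algebra (Fk k) (Q i)]
  [∀ i, MulSemiringAction (P' i) (Q i)]
  (O : Outer k N ξ P (fun i => P' i) (fun i => Subgroup.inclusion (hP i)) Q)
  (c : ∀ i, Inner k (H i) (P' i) (Subgroup.inclusion (hH i)) (Q i)),
  (∀ i, GalAlg (Fk k) (P' i) (Q i)) → DiscsK k N V ξ → 0 < N →
  ∀ v ∈ BQ O c, (∀ σ : G, trQ σ v = v) → ∃ f : (LaurentSeries k)[X], v = cstQ k ξ G Q f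

/-- constants and translations -/
def QT1 : Prop := ∀ (k : Type) [Field k] (N : ℕ) (V : (LaurentSeries k)[X]) (ξ : Fin N → Fk k)
  (G : Type) [Group G] (P : Subgroup G) (P' : Fin N → Subgroup G) (hP : ∀ i, P' i ≤ P)
  (H : Fin N → Subgroup G) (hH : ∀ i, P' i ≤ H i)
  (Q : Fin N → Type) [∀ i, CommRing (Q i)] [∀ i, Algebra (Fk k) (Q i)]
  [∀ i, MulSemiringAction (P' i) (Q i)]
  (O : Outer k N ξ P (fun i => P' i) (fun i => Subgroup.inclusion (hP i)) Q)
  (c : ∀ i, Inner k (H i) (P' i) (Subgroup.inclusion (hH i)) (Q i)),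
  (∀ i, GalAlg (Fk k) (P' i) (Q i)) → DiscsK k N V ξ →
  (∀ f, cstQ k ξ G Q f ∈ BQ O c) ∧ ∀ (σ : G), ∀ v ∈ BQ O c, trQ σ v ∈ BQ O c

/-- the embedding into the local extension at infinity -/
def QT4 : Prop := ∀ (k : Type) [Field k] (N : ℕ) (V : (LaurentSeries k)[X]) (ξ : Fin N → Fk k)
  (G : Type) [Group G] [Finite G] (P : Subgroup G) (P' : Fin N → Subgroup G) (hP : ∀ i, P' i ≤ P)
  (H : Fin N → Subgroup G) (hH : ∀ i, P' i ≤ H i)
  (Q : Fin N → Type) [∀ i, CommRing (Q i)] [∀ i, Algebra (Fk k) (Q i)]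
  [∀ i, MulSemiringAction (P' i) (Q i)]
  (O : Outer k N ξ P (fun i => P' i) (fun i => Subgroup.inclusion (hP i)) Q)
  (c : ∀ i, Inner k (H i) (P' i) (Subgroup.inclusion (hH i)) (Q i)),
  (∀ i, GalAlg (Fk k) (P' i) (Q i)) → DiscsK k N V ξ → 0 < N →
  ∃ ι : BQ O c →+* O.E,
    (∀ (f : (LaurentSeries k)[X]) (h : cstQ k ξ G Q f ∈ BQ O c), ι ⟨cstQ k ξ G Q f, h⟩ =
      algebraMap (LaurentSeries (LaurentSeries k)) O.E (atInf (LaurentSeries k) f)) ∧
    (∀ (g : P) (v : G → ∀ i, Q i) (h : v ∈ BQ O c) (h' : trQ (g : G) v ∈ BQ O c),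
      ι ⟨trQ (g : G) v, h'⟩ = g • ι ⟨v, h⟩) ∧
    ∀ (v : G → ∀ i, Q i) (h : v ∈ BQ O c), ι ⟨v, h⟩ = 0 → ∀ γ : P, v γ = 0

/-- the patching theorem -/
def QPT : Prop := ∀ (k : Type) [Field k] (N : ℕ) (V : (LaurentSeries k)[X]) (ξ : Fin N → Fk k)
  (G : Type) [Group G] [Finite G] (P : Subgroup G) (P' : Fin N → Subgroup G) (hP : ∀ i, P' i ≤ P)
  (H : Fin N → Subgroup G) (hH : ∀ i, P' i ≤ H i)
  (Q : Fin N → Type) [∀ i, CommRing (Q i)] [∀ i, Algebra (Fk k) (Q i)]
  [∀ i, MulSemiringAction (P' i) (Q i)]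
  (O : Outer k N ξ P (fun i => P' i) (fun i => Subgroup.inclusion (hP i)) Q)
  (_ : ∀ i, Inner k (H i) (P' i) (Subgroup.inclusion (hH i)) (Q i)),
  (∀ i, GalAlg (Fk k) (P' i) (Q i)) → DiscsK k N V ξ → 0 < N → (P ⊔ ⨆ i, H i) = ⊤ →
  ∃ (B : Type) (_ : CommRing B) (_ : Algebra (LaurentSeries k)[X] B) (_ : MulSemiringAction G B)
    (ι : B →+* O.E), GalAlg (LaurentSeries k)[X] G B ∧ IsDomain B ∧
    (∀ f, ι (algebraMap (LaurentSeries k)[X] B f) =
      algebraMap (LaurentSeries (LaurentSeries k)) O.E (atInf (LaurentSeries k) f)) ∧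
    ∀ (g : P) (b : B), ι ((g : G) • b) = g • ι b

end

end MP7b0bad

end

section

set_option autoImplicit false

namespace MP7b0bad

open Polynomial

/-- generation of tensor products of Galois algebras -/
def QTenG : Prop := ∀ (R : Type) [CommRing R] (G P : Type) [Group G] [Finite G] [Group P]
  [Finite P] (B E C : Type) [CommRing B] [Algebra R B] [MulSemiringAction G B] [CommRing E]
  [Algebra R E] [MulSemiringAction P E] [CommRing C] [Algebra R C] [MulSemiringAction (G × P) C]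
  (i : B →+* C) (j : E →+* C), GalAlg R G B → GalAlg R P E → GalAlg R (G × P) C →
  (∀ a : R, i (algebraMap R B a) = algebraMap R C a) →
  (∀ a : R, j (algebraMap R E a) = algebraMap R C a) →
  (∀ (g : G) (τ : P) (b : B), (g, τ) • i b = i (g • b)) →
  (∀ (g : G) (τ : P) (e : E), (g, τ) • j e = j (τ • e)) →
  ∀ c : C, ∃ (n : ℕ) (b : Fin n → B) (e : Fin n → E), c = ∑ m, i (b m) * j (e m)

/-! ## Group QL: lattices at infinity -/

/-- properties of lattices -/
def QLat : Prop := ∀ (κ : Type) [Field κ] (Γ : Type) [Group Γ] [Finite Γ] (C D : Type) [CommRing C]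
  [Algebra κ[X] C] [MulSemiringAction Γ C] [CommRing D] [Algebra (LaurentSeries κ) D]
  [MulSemiringAction Γ D] (q : C →+* D), GalAlg κ[X] Γ C → GalAlg (LaurentSeries κ) Γ D →
  (∀ f, q (algebraMap κ[X] C f) = algebraMap (LaurentSeries κ) D (atInf κ f)) →
  (∀ (γ : Γ) (c : C), q (γ • c) = γ • q c) → ∀ (n : ℕ) (c : Module.Basis (Fin n) κ[X] C),
  ∃ r : ℕ, (∀ (m m' : ℤ) (z : D), m' ≤ m → Lat (κ := κ) q c m z → Lat (κ := κ) q c m' z) ∧
    (∀ (m : ℤ) (z z' : D), Lat (κ := κ) q c m z → Lat (κ := κ) q c m z' → Lat (κ := κ) q c m (z + z')) ∧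
    (∀ (m : ℤ) (z : D), Lat (κ := κ) q c m z → Lat (κ := κ) q c m (-z)) ∧
    (∀ (m m' : ℤ) (z z' : D), Lat (κ := κ) q c m z → Lat (κ := κ) q c m' z' → Lat (κ := κ) q c (m + m' - r) (z * z')) ∧
    (∀ (m : ℤ) (z : D) (γ : Γ), Lat (κ := κ) q c m z → Lat (κ := κ) q c (m - r) (γ • z)) ∧
    (∀ z : D, ∃ m : ℤ, Lat (κ := κ) q c m z) ∧
    (∀ (m m' : ℤ) (a : LaurentSeries κ) (z : D), (∀ i : ℤ, i < m → a.coeff i = 0) →
      Lat (κ := κ) q c m' z → Lat (κ := κ) q c (m + m') (algebraMap (LaurentSeries κ) D a * z)) ∧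
    (∀ (m : ℤ) (a : LaurentSeries κ), (∀ i : ℤ, i < m → a.coeff i = 0) →
      Lat (κ := κ) q c (m - r) (algebraMap (LaurentSeries κ) D a)) ∧
    ∀ h h' : Fin n → LaurentSeries κ, ∑ l, algebraMap (LaurentSeries κ) D (h l) * q (c l) =
      ∑ l, algebraMap (LaurentSeries κ) D (h' l) * q (c l) → h = h'

/-- truncation -/
def QTrunc : Prop := ∀ (κ : Type) [Field κ] (Γ : Type) [Group Γ] [Finite Γ] (C D : Type)
  [CommRing C] [Algebra κ[X] C] [MulSemiringAction Γ C] [CommRing D] [Algebra (LaurentSeries κ) D]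
  [MulSemiringAction Γ D] (q : C →+* D), GalAlg κ[X] Γ C → GalAlg (LaurentSeries κ) Γ D →
  (∀ f, q (algebraMap κ[X] C f) = algebraMap (LaurentSeries κ) D (atInf κ f)) →
  (∀ (γ : Γ) (c : C), q (γ • c) = γ • q c) → ∀ (n : ℕ) (c : Module.Basis (Fin n) κ[X] C),
  ∀ (z : D) (m : ℤ), ∃ d₀ : ℕ, ∀ d : ℕ, d₀ ≤ d → ∃ β : C, Lat (κ := κ) q c (m - d)
    (q β - algebraMap (LaurentSeries κ) D (HahnSeries.single (-(d : ℤ)) (1 : κ)) * z)

/-- smallness from lattices -/
def QSmall : Prop := ∀ (κ : Type) [Field κ] (Γ : Type) [Group Γ] [Finite Γ] (C D : Type)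
  [CommRing C] [Algebra κ[X] C] [MulSemiringAction Γ C] [CommRing D] [Algebra (LaurentSeries κ) D]
  [MulSemiringAction Γ D] (q : C →+* D), GalAlg κ[X] Γ C → GalAlg (LaurentSeries κ) Γ D →
  (∀ f, q (algebraMap κ[X] C f) = algebraMap (LaurentSeries κ) D (atInf κ f)) →
  (∀ (γ : Γ) (c : C), q (γ • c) = γ • q c) → ∀ (n : ℕ) (c : Module.Basis (Fin n) κ[X] C),
  ∃ r : ℕ, ∀ (j : C) (d : ℕ), Lat (κ := κ) q c ((r : ℤ) - d) (q j) → Small κ d j

/-- Artin-Schreier equations in small lattices -/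
def QASL : Prop := ∀ (κ : Type) [Field κ] (p : ℕ) [Fact p.Prime] [CharP κ p] (Γ : Type) [Group Γ]
  [Finite Γ] (C D : Type) [CommRing C] [Algebra κ[X] C] [MulSemiringAction Γ C] [CommRing D]
  [Algebra (LaurentSeries κ) D] [MulSemiringAction Γ D] (q : C →+* D), GalAlg κ[X] Γ C →
  GalAlg (LaurentSeries κ) Γ D →
  (∀ f, q (algebraMap κ[X] C f) = algebraMap (LaurentSeries κ) D (atInf κ f)) →
  (∀ (γ : Γ) (c : C), q (γ • c) = γ • q c) → ∀ (n : ℕ) (c : Module.Basis (Fin n) κ[X] C),
  ∃ M₀ : ℤ, ∀ M : ℤ, M₀ ≤ M →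
    (∀ z : D, Lat (κ := κ) q c M z → Lat (κ := κ) q c M (z ^ p) ∧
      ∃ h : D, Lat (κ := κ) q c M h ∧ h ^ p - h = z) ∧
    ∀ h : D, Lat (κ := κ) q c M h → h ^ p = h → h = 0

/-- integral elements over `κ[[ξ]]` -/
def IntL {κ : Type} [Field κ] {D : Type} [CommRing D] [Algebra (LaurentSeries κ) D] (z : D) :
    Prop :=
  ∃ (n : ℕ) (c : Fin n → LaurentSeries κ), 0 < n ∧ (∀ (i : Fin n) (m : ℤ), m < 0 → (c i).coeff m = 0) ∧
    z ^ n + ∑ i : Fin n, algebraMap (LaurentSeries κ) D (c i) * z ^ (n - 1 - (i : ℕ)) = 0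

/-- topologically nilpotent elements -/
def QTN : Prop := ∀ (κ : Type) [Field κ] (Γ : Type) [Group Γ] [Finite Γ] (D : Type)
  [CommRing D] [Algebra (LaurentSeries κ) D] [MulSemiringAction Γ D],
  GalAlg (LaurentSeries κ) Γ D →
  (∀ z z' : D, IntL (κ := κ) z → IntL (κ := κ) z' →
    IntL (κ := κ) (z + z') ∧ IntL (κ := κ) (z * z') ∧ IntL (κ := κ) (-z)) ∧
  (∀ z z' : D, TN (κ := κ) z → TN (κ := κ) z' → TN (κ := κ) (z + z')) ∧
  (∀ z z' : D, TN (κ := κ) z → IntL (κ := κ) z' → TN (κ := κ) (z * z')) ∧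
  (∀ z : D, TN (κ := κ) z → IntL (κ := κ) z) ∧
  (∀ (z : D) (γ : Γ), TN (κ := κ) z → TN (κ := κ) (γ • z)) ∧
  (∀ (z : D) (n : ℕ), TN (κ := κ) (z ^ (n + 1)) → TN (κ := κ) z) ∧
  (∀ z : D, TN (κ := κ) (z * z - z) → IntL (κ := κ) z) ∧
  (∀ z : D, TN (κ := κ) z → IsUnit (1 - z)) ∧
  (∀ z : D, z * z = z → TN (κ := κ) z → z = 0)

/-- Artin-Schreier equations for topologically nilpotent elements; lifting of idempotents -/
def QIdS : Prop := ∀ (κ : Type) [Field κ] (p : ℕ) [Fact p.Prime] [CharP κ p] (Γ : Type) [Group Γ]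
  [Finite Γ] (C D : Type) [CommRing C] [Algebra κ[X] C] [MulSemiringAction Γ C] [CommRing D]
  [Algebra (LaurentSeries κ) D] [MulSemiringAction Γ D] (q : C →+* D), GalAlg κ[X] Γ C →
  GalAlg (LaurentSeries κ) Γ D →
  (∀ f, q (algebraMap κ[X] C f) = algebraMap (LaurentSeries κ) D (atInf κ f)) →
  (∀ (γ : Γ) (c : C), q (γ • c) = γ • q c) →
  (∀ z : D, TN (κ := κ) z → ∃ h : D, TN (κ := κ) h ∧ h ^ p - h = z) ∧
  ∀ b : D, TN (κ := κ) (b * b - b) → ∃ e : D, e * e = e ∧ TN (κ := κ) (e - b)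

/-- `Small` gives topologically nilpotent elements -/
def QSTN : Prop := ∀ (κ : Type) [Field κ] (C D : Type) [CommRing C] [Algebra κ[X] C] [CommRing D]
  [Algebra (LaurentSeries κ) D] (q : C →+* D),
  (∀ f, q (algebraMap κ[X] C f) = algebraMap (LaurentSeries κ) D (atInf κ f)) →
  ∀ (d : ℕ) (j : C), Small κ d j →
    TN (κ := κ) (algebraMap (LaurentSeries κ) D (HahnSeries.single (d : ℤ) (1 : κ)) * q j)

/-- the quotient of a Galois algebra defined by an idempotent -/
def QQuo : Prop := ∀ (R : Type) [CommRing R] (Γ Δ : Type) [Group Γ] [Finite Γ] [Group Δ]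
  (δ : Δ →* Γ) (D : Type) [CommRing D] [Algebra R D] [MulSemiringAction Γ D] (e : D),
  Function.Injective δ → GalAlg R Γ D → e * e = e → (∀ d : Δ, δ d • e = e) →
  (∀ γ : Γ, γ ∉ δ.range → e * (γ • e) = 0) → (∃ s : Finset Γ, IsUnit (∑ γ ∈ s, γ • e)) →
  ∃ (E : Type) (_ : CommRing E) (_ : Algebra R E) (_ : MulSemiringAction Δ E) (π : D →+* E),
    GalAlg R Δ E ∧ (∀ a : R, π (algebraMap R D a) = algebraMap R E a) ∧ π e = 1 ∧
    ∀ (d : Δ) (z : D), π (δ d • z) = d • π z

/-- the degree of a Galois algebra; connectedness from a primitive element -/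
def QDomB : Prop := ∀ (κ : Type) [Field κ] (G : Type) [Group G] [Finite G] (B : Type) [CommRing B]
  [Algebra κ[X] B] [MulSemiringAction G B], GalAlg κ[X] G B →
  Module.finrank κ[X] B = Nat.card G ∧
  ∀ (θ : B) (F : κ[X][X]), F.Monic → F.natDegree = Nat.card G → aeval θ F = 0 → Irreducible F →
    IsDomain B

/-! ## Group QS: from `K` to `k` -/

/-- the certificate at infinity from the idempotent -/
def QCInf : Prop := ∀ (κ : Type) [Field κ] (G : Type) [Group G] [Finite G] (P : Subgroup G)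
  (C D : Type) [CommRing C] [Algebra κ[X] C] [MulSemiringAction (G × P) C] [CommRing D]
  [Algebra (LaurentSeries κ) D] [MulSemiringAction (G × P) D] (q : C →+* D),
  GalAlg κ[X] (G × P) C → GalAlg (LaurentSeries κ) (G × P) D →
  (∀ f, q (algebraMap κ[X] C f) = algebraMap (LaurentSeries κ) D (atInf κ f)) →
  (∀ (γ : G × P) (c : C), q (γ • c) = γ • q c) →
  ∀ e : D, e * e = e → (∀ τ : P, ((τ : G), τ) • e = e) →
  (∀ γ : G × P, γ.1 ≠ (γ.2 : G) → e * (γ • e) = 0) → (∃ s : Finset (G × P), ∑ γ ∈ s, γ • e = 1) →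
  ∃ (d : ℕ) (β : C),
    Small κ (2 * d) (β ^ 2 - algebraMap κ[X] C (X ^ d) * β) ∧
    (∀ γ : G × P, γ.1 ≠ (γ.2 : G) → Small κ (2 * d) (β * (γ • β))) ∧
    (∀ τ : P, Small κ d (((τ : G), τ) • β - β)) ∧
    ∃ s : Finset (G × P), Small κ d (∑ γ ∈ s, γ • β - algebraMap κ[X] C (X ^ d))

/-- a primitive element with geometrically irreducible equation -/
def QGeo : Prop := ∀ (K : Type) [Field K] (p : ℕ) [Fact p.Prime] [CharP K p] (G : Type) [Group G]
  [Finite G] (P : Subgroup G) (A B E : Type) [CommRing A] [Algebra K[X] A] [MulSemiringAction P A]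
  [CommRing B] [Algebra K[X] B] [MulSemiringAction G B] [CommRing E]
  [Algebra (LaurentSeries K) E] [MulSemiringAction P E] (j : A →+* E) (ι : B →+* E),
  IsPGroup p P → GalAlg K[X] P A → TotRam K p P A → GalAlg K[X] G B → IsDomain B →
  GalAlg (LaurentSeries K) P E →
  (∀ f, j (algebraMap K[X] A f) = algebraMap (LaurentSeries K) E (atInf K f)) →
  (∀ (g : P) (a : A), j (g • a) = g • j a) →
  (∀ f, ι (algebraMap K[X] B f) = algebraMap (LaurentSeries K) E (atInf K f)) →
  (∀ (g : P) (b : B), ι ((g : G) • b) = g • ι b) →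
  ∃ (θ : B) (F : K[X][X]), F.Monic ∧ F.natDegree = Nat.card G ∧ aeval θ F = 0 ∧
    ∀ (Ω : Type) [Field Ω] [Algebra K Ω], Irreducible (F.map (mapRingHom (algebraMap K Ω)))

/-- geometric irreducibility -/
def AbsIrr (K : Type) [Field K] (F : K[X][X]) : Prop :=
  ∀ (Ω : Type) [Field Ω] [Algebra K Ω], Irreducible (F.map (mapRingHom (algebraMap K Ω)))

/-- the certificate over `K` -/
def QCertK : Prop := ∀ (K : Type) [Field K] (p : ℕ) [Fact p.Prime] [CharP K p] (G : Type) [Group G]
  [Finite G] (P : Subgroup G) (A B E : Type) [CommRing A] [Algebra K[X] A] [MulSemiringAction P A]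
  [CommRing B] [Algebra K[X] B] [MulSemiringAction G B] [CommRing E]
  [Algebra (LaurentSeries K) E] [MulSemiringAction P E] (j : A →+* E) (ι : B →+* E),
  IsPGroup p P → GalAlg K[X] P A → TotRam K p P A → GalAlg K[X] G B → IsDomain B →
  GalAlg (LaurentSeries K) P E →
  (∀ f, j (algebraMap K[X] A f) = algebraMap (LaurentSeries K) E (atInf K f)) →
  (∀ (g : P) (a : A), j (g • a) = g • j a) →
  (∀ f, ι (algebraMap K[X] B f) = algebraMap (LaurentSeries K) E (atInf K f)) →
  (∀ (g : P) (b : B), ι ((g : G) • b) = g • ι b) →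
  ∃ (C : Type) (_ : CommRing C) (_ : Algebra K[X] C) (_ : MulSemiringAction (G × P) C),
    Cert K p G P (AbsIrr K) C

/-- spreading out of Galois algebras -/
def QSpr : Prop := ∀ (k K : Type) [Field k] [Field K] [Algebra k K] (Γ : Type) [Group Γ] [Finite Γ]
  (C : Type) [CommRing C] [Algebra K[X] C] [MulSemiringAction Γ C], GalAlg K[X] Γ C →
  ∀ (ZC : Finset C) (ZK : Finset K), ∃ R' : Subalgebra k K, R'.FG ∧ (∀ z ∈ ZK, z ∈ R') ∧
    ∃ (C' : Type) (_ : CommRing C') (_ : Algebra (R')[X] C') (_ : MulSemiringAction Γ C')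
      (incl : C' →+* C), Function.Injective incl ∧
      (∀ a : (R')[X], incl (algebraMap (R')[X] C' a) =
        algebraMap K[X] C (a.map (algebraMap R' K))) ∧
      (∀ (g : Γ) (b : C'), incl (g • b) = g • incl b) ∧
      GalAlg (R')[X] Γ C' ∧ ∀ z ∈ ZC, ∃ z', incl z' = z

/-- specialisation of certificates -/
def QDes : Prop := ∀ (k : Type) [Field k] [IsAlgClosed k] (p : ℕ) [Fact p.Prime] [CharP k p]
  (K : Type) [Field K] [Algebra k K] (G : Type) [Group G] [Finite G] (P : Subgroup G)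
  (C : Type) [CommRing C] [Algebra K[X] C] [MulSemiringAction (G × P) C],
  Cert K p G P (AbsIrr K) C →
  ∃ (C' : Type) (_ : CommRing C') (_ : Algebra k[X] C') (_ : MulSemiringAction (G × P) C'),
    Cert k p G P (fun F => Irreducible F) C'

/-- from certificates over `k` to covers -/
def QCR : Prop := ∀ (k : Type) [Field k] [IsAlgClosed k] (p : ℕ) [Fact p.Prime] [CharP k p]
  (G : Type) [Group G] [Finite G] (P : Subgroup G) (C : Type) [CommRing C] [Algebra k[X] C]
  [MulSemiringAction (G × P) C], IsPGroup p P → Cert k p G P (fun F => Irreducible F) C →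
  Rel k G P

/-! ## Group QR: the join theorem (R1) -/

/-- local data at a disc from a cover -/
def QLocD : Prop := ∀ (k : Type) [Field k] (p : ℕ) [Fact p.Prime] [CharP k p] (H P' : Type)
  [Group H] [Finite H] [Group P'] [Finite P'] (π : P' →* H) (B E : Type) [CommRing B]
  [Algebra k[X] B] [MulSemiringAction H B] [CommRing E] [Algebra (LaurentSeries k) E]
  [MulSemiringAction P' E] (ι : B →+* E), IsPGroup p P' → GalAlg k[X] H B → IsDomain B →
  GalAlg (LaurentSeries k) P' E →
  (∀ f, ι (algebraMap k[X] B f) = algebraMap (LaurentSeries k) E (atInf k f)) →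
  (∀ (g : P') (b : B), ι (π g • b) = g • ι b) →
  ∃ (A : Type) (_ : CommRing A) (_ : Algebra (KW k) A) (_ : MulSemiringAction P' A)
    (Q : Type) (_ : CommRing Q) (_ : Algebra (Fk k) Q) (_ : MulSemiringAction P' Q)
    (_ : Inner k H P' π Q) (ε : A →+* Q),
    GalAlg (KW k) P' A ∧ GalAlg (Fk k) P' Q ∧
    (∀ a, ε (algebraMap (KW k) A a) = algebraMap (Fk k) Q (WF k a)) ∧
    ∀ (g : P') (a : A), ε (g • a) = g • ε a

/-- the outer torsor -/
def QOuter : Prop := ∀ (k : Type) [Field k] [IsAlgClosed k] (p : ℕ) [Fact p.Prime] [CharP k p]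
  (N : ℕ) (W : k[X]) (a : Fin N → k) (η : Fin N → KW k), DiscsT k N W a η →
  ∀ (P : Type) [Group P] [Finite P], IsPGroup p P → ∀ (P' : Fin N → Type) [∀ i, Group (P' i)]
    [∀ i, Finite (P' i)] (π : ∀ i, P' i →* P) (A Q : Fin N → Type) [∀ i, CommRing (A i)]
    [∀ i, Algebra (KW k) (A i)] [∀ i, MulSemiringAction (P' i) (A i)] [∀ i, CommRing (Q i)]
    [∀ i, Algebra (Fk k) (Q i)] [∀ i, MulSemiringAction (P' i) (Q i)] (ε : ∀ i, A i →+* Q i),
  (∀ i, GalAlg (KW k) (P' i) (A i)) →
  (∀ i a, ε i (algebraMap (KW k) (A i) a) = algebraMap (Fk k) (Q i) (WF k a)) →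
  (∀ i (g : P' i) (a : A i), ε i (g • a) = g • ε i a) →
  ∃ O : Outer k N (fun i => WF k (η i)) P P' π Q, TotRam (LaurentSeries k) p P O.A

/-- (R1) the join theorem -/
def QR1 : Prop := ∀ (k : Type) [Field k] [IsAlgClosed k] (p : ℕ) [Fact p.Prime] [CharP k p]
  (G : Type) [Group G] [Finite G] (P : Subgroup G) (N : ℕ) (H P' : Fin N → Subgroup G),
  IsPGroup p P → 0 < N → (∀ i, P' i ≤ P) → (∀ i, P' i ≤ H i) →
  (∀ i, Rel k (H i) ((P' i).subgroupOf (H i))) → (P ⊔ ⨆ i, H i) = ⊤ → Rel k G P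

/-- transport of structure -/
def QIso : Prop := ∀ (k : Type) [Field k] (G G' : Type) [Group G] [Group G'] (φ : G ≃* G')
  (P : Subgroup G), Rel k G P → Rel k G' (P.map φ.toMonoidHom)

/-- a `p`-group is an inertia group of a cover with itself as Galois group -/
def QRP : Prop := ∀ (k : Type) [Field k] [IsAlgClosed k] (p : ℕ) [Fact p.Prime] [CharP k p]
  (P : Type) [Group P] [Finite P], IsPGroup p P → Rel k P (⊤ : Subgroup P)

/-! ## Group QF: covers in the sense of the problem -/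

/-- the function field -/
def QF1 : Prop := ∀ (k : Type) [Field k] (G : Type) [Group G] [Finite G]
  (B : Type) [CommRing B] [Algebra k[X] B] [MulSemiringAction G B], GalAlg k[X] G B → IsDomain B →
  ∃ (L : Type) (_ : Field L) (_ : Algebra (RatFunc k) L) (ι : B →+* L), Function.Injective ι ∧
    (∀ a : k[X], ι (algebraMap k[X] B a) =
      algebraMap (RatFunc k) L (algebraMap k[X] (RatFunc k) a)) ∧
    FiniteDimensional (RatFunc k) L ∧ IsGalois (RatFunc k) L ∧
    ∃ φ : G ≃* (L ≃ₐ[RatFunc k] L), ∀ (g : G) (b : B), φ g (ι b) = ι (g • b)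

/-- certificates at infinity for `B` -/
def QCBG : Prop := ∀ (k : Type) [Field k] (p : ℕ) [Fact p.Prime] [CharP k p]
  (G : Type) [Group G] [Finite G] (P : Subgroup G) (B E : Type) [CommRing B]
  [Algebra k[X] B] [MulSemiringAction G B] [CommRing E] [Algebra (LaurentSeries k) E]
  [MulSemiringAction P E] (ι : B →+* E), GalAlg k[X] G B → GalAlg (LaurentSeries k) P E →
  (∀ f, ι (algebraMap k[X] B f) = algebraMap (LaurentSeries k) E (atInf k f)) →
  (∀ (g : P) (b : B), ι ((g : G) • b) = g • ι b) →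
  ∀ (y : (P →* Multiplicative (ZMod p)) → E) (f : (P →* Multiplicative (ZMod p)) → k[X]),
  (∀ l, l ≠ 1 → (∀ g : P, g • y l = y l + (((Multiplicative.toAdd (l g)).val : ℕ) : E)) ∧
    y l ^ p - y l = algebraMap (LaurentSeries k) E (atInf k (f l))) →
  ∃ (d : ℕ) (β : B),
    Small k (2 * d) (β ^ 2 - algebraMap k[X] B (X ^ d) * β) ∧
    (∀ g : G, g ∉ P → Small k (2 * d) (β * (g • β))) ∧
    (∃ s : Finset G, Small k d (∑ g ∈ s, g • β - algebraMap k[X] B (X ^ d))) ∧
    ∀ l, l ≠ 1 → ∀ D0 : Subgroup P, (∀ g ∈ D0, l g = 1) → ∃ γ : B,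
      (∀ g ∈ D0, ((g : P) : G) • γ = γ) ∧
      Small k ((p + 1) * d) (β * (γ ^ p - algebraMap k[X] B (X ^ ((p - 1) * d)) * γ -
        algebraMap k[X] B (f l * X ^ (p * d))))

open Pointwise in
/-- rational approximation of elements invariant under the decomposition group -/
def QF7 : Prop := ∀ (k : Type) [Field k] [IsAlgClosed k] (L : Type) [Field L]
  [Algebra (RatFunc k) L] [FiniteDimensional (RatFunc k) L] [IsGalois (RatFunc k) L]
  (A : ValuationSubring L), AtInfty (k := k) A →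
  ∀ γ : L, (∀ σ : L ≃ₐ[RatFunc k] L, σ • A = A → σ γ = γ) →
    ∃ r : RatFunc k, γ - algebraMap (RatFunc k) L r ∈ A.nonunits

/-- `Rel` implies the property of the problem -/
def QOcc : Prop := ∀ (k : Type) [Field k] [IsAlgClosed k] (p : ℕ) [Fact p.Prime] [CharP k p]
  (G : Type) [Group G] [Finite G] (P : Subgroup G), IsPGroup p P → Rel k G P → Occurs k G P

/-! ## Group QH: base covers -/

/-- the ring `FP` inside the local field at infinity -/
def QHP7L : Prop := ∀ (k : Type) [Field k] [IsAlgClosed k] (p : ℕ) [Fact p.Prime] [CharP k p]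
  (M : ℕ), ¬ p ∣ M →
  ∃ (E : Type) (_ : CommRing E) (_ : Algebra (LaurentSeries k) E)
    (_ : MulSemiringAction (Multiplicative (ZMod p)) E) (ι : FP k p M →+* E),
    IsDomain E ∧ GalAlg (LaurentSeries k) (Multiplicative (ZMod p)) E ∧
    (∀ a, ι (fpAlg k p M a) = algebraMap (LaurentSeries k) E (atInf k a)) ∧
    (∀ c : ZMod p, ι (fpu k p M (c + 1)) = Multiplicative.ofAdd (1 : ZMod p) • ι (fpu k p M c)) ∧
    ∀ x : k, ι (fpC k p M x) = algebraMap (LaurentSeries k) E (HahnSeries.C x)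

def QHQL : Prop := ∀ (k : Type) [Field k] (p : ℕ) [Fact p.Prime] [CharP k p] (Γ : Type) [Group Γ]
  [Finite Γ] (t : Γ) (B : Type) [CommRing B] [IsDomain B] [Algebra k[X] B] [MulSemiringAction Γ B]
  (E : Type) [CommRing E] [IsDomain E] [Algebra (LaurentSeries k) E]
  [MulSemiringAction (Multiplicative (ZMod p)) E] (ι : B →+* E) (G : Type) [Group G] (ψ : Γ →* G),
  Function.Injective (algebraMap k[X] B) →
  (∀ (g : Γ) (a : k[X]), g • algebraMap k[X] B a = algebraMap k[X] B a) →
  Module.Finite k[X] B →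
  (∀ b : B, (∀ g : Γ, g • b = b) → ∃ a : k[X], algebraMap k[X] B a = b) →
  (∀ σ : Γ, ((∀ b : B, σ • b = b) ∧ ψ σ = 1) ∨ Ideal.span {x : B | ∃ b : B, x = b - σ • b} = ⊤) →
  GalAlg (LaurentSeries k) (Multiplicative (ZMod p)) E →
  (∀ a : k[X], ι (algebraMap k[X] B a) = algebraMap (LaurentSeries k) E (atInf k a)) →
  (∀ b : B, ι (t • b) = Multiplicative.ofAdd (1 : ZMod p) • ι b) →
  ¬ p ∣ Nat.card ψ.ker → orderOf (ψ t) = p →
  Rel k ψ.range (Subgroup.zpowers (⟨ψ t, ⟨t, rfl⟩⟩ : ψ.range))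

/-- base covers -/
def QHP8L : Prop := ∀ (k : Type) [Field k] [IsAlgClosed k] (p : ℕ) [Fact p.Prime] [CharP k p]
  (G : Type) [Group G] [Finite G] (t a : G), orderOf t = p → ¬ p ∣ orderOf a → Good p t a →
  ∀ (H : Subgroup G) (ht : t ∈ H), H = Subgroup.closure {t, a} →
  Rel k H (Subgroup.zpowers (⟨t, ht⟩ : H))

/-! ## Group QN: embedding problems with `p`-kernel (R2) -/

/-- the twisted action on vectors: `v ↦ M (act v)` -/
noncomputable def stA {p r : ℕ} {B : Type} [CommRing B] (M : Matrix (Fin r) (Fin r) (ZMod p))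
    (act : B → B) (v : Fin r → B) : Fin r → B :=
  fun i => ∑ j, (((M i j).val : ℕ) : B) * act (v j)

/-- a presentation of an extension of `Gb` by an elementary abelian `p`-group -/
structure ElExt (p r : ℕ) (G Gb : Type) [Group G] [Group Gb] (q : G →* Gb)
    (ρ : G → Matrix (Fin r) (Fin r) (ZMod p)) (ν : G → Fin r → ZMod p) : Prop where
  surj : Function.Surjective q
  mul : ∀ g h, ρ (g * h) = ρ g * ρ h
  one : ρ 1 = 1
  ker : ∀ n ∈ q.ker, ρ n = 1
  nu_mul : ∀ n ∈ q.ker, ∀ n' ∈ q.ker, ν (n * n') = ν n + ν n'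
  nu_bij : Set.BijOn ν (q.ker : Set G) Set.univ
  conj : ∀ g, ∀ n ∈ q.ker, ν (g * n * g⁻¹) = Matrix.mulVec (ρ g) (ν n)

/-- solution of the embedding problem by cochains -/
def QELN : Prop := ∀ (R : Type) [CommRing R] (p r : ℕ) [Fact p.Prime] [CharP R p] (G Gb : Type)
  [Group G] [Finite G] [Group Gb] (q : G →* Gb) (ρ : G → Matrix (Fin r) (Fin r) (ZMod p))
  (ν : G → Fin r → ZMod p) (B : Type) [CommRing B] [Algebra R B] [MulSemiringAction Gb B],
  ElExt p r G Gb q ρ ν → GalAlg R Gb B →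
  ∃ (b : G → Fin r → B) (m : Fin r → B),
    (∀ g h : G, b (g * h) = b g + stA (ρ g) (fun x => q g • x) (b h)) ∧
    (∀ n ∈ q.ker, ∀ j, b n j = (((ν n j).val : ℕ) : B)) ∧
    ∀ g j, b g j ^ p - b g j = stA (ρ g) (fun x => q g • x) m j - m j

/-- the torsor -/
def QASN : Prop := ∀ (R : Type) [CommRing R] (p r : ℕ) [Fact p.Prime] [CharP R p] (G Gb : Type)
  [Group G] [Finite G] [Group Gb] (q : G →* Gb) (ρ : G → Matrix (Fin r) (Fin r) (ZMod p))
  (ν : G → Fin r → ZMod p) (B : Type) [CommRing B] [Algebra R B] [MulSemiringAction Gb B]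
  (b : G → Fin r → B) (m : Fin r → B), ElExt p r G Gb q ρ ν → GalAlg R Gb B →
  (∀ g h : G, b (g * h) = b g + stA (ρ g) (fun x => q g • x) (b h)) →
  (∀ n ∈ q.ker, ∀ j, b n j = (((ν n j).val : ℕ) : B)) →
  (∀ g j, b g j ^ p - b g j = stA (ρ g) (fun x => q g • x) m j - m j) →
  ∃ (E : Type) (_ : CommRing E) (_ : Algebra R E) (_ : MulSemiringAction G E) (i : B →+* E)
    (y : Fin r → E), GalAlg R G E ∧ (∀ a : R, i (algebraMap R B a) = algebraMap R E a) ∧
    Function.Injective i ∧ (∀ (g : G) (e : B), g • i e = i (q g • e)) ∧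
    (∀ (g : G) j, stA (ρ g) (fun x => g • x) y j = y j + i (b g j)) ∧
    (∀ j, y j ^ p - y j = i (m j)) ∧
    (∀ (T : Type) [CommRing T] (φ : B →+* T) (t : Fin r → T), (∀ j, t j ^ p - t j = φ (m j)) →
      ∃ F : E →+* T, (∀ e, F (i e) = φ e) ∧ ∀ j, F (y j) = t j) ∧
    (∀ (T : Type) [CommRing T] (F F' : E →+* T), (∀ e, F (i e) = F' (i e)) →
      (∀ j, F (y j) = F' (y j)) → F = F') ∧
    ∀ x : E, (∀ n ∈ q.ker, n • x = x) → ∃ e, i e = x

/-- semilinear maps on finite-dimensional spaces -/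
def QSF : Prop := ∀ (k : Type) [Field k] [IsAlgClosed k] (p : ℕ) [Fact p.Prime] [CharP k p]
  (W : Type) [AddCommGroup W] [Module k W] (F : W →+ W) (U : Submodule k W) (n : ℕ)
  (v : Fin n → W), (∀ (c : k) (w : W), F (c • w) = c ^ p • F w) → (∀ u ∈ U, F u ∈ U) →
  (∀ w : W, ∃ a : Fin n → k, w - ∑ i, a i • v i ∈ U) → ∀ w : W, ∃ h : W, w - (F h - h) ∈ U

/-- approximation of twisted invariants at infinity -/
def QDenV : Prop := ∀ (k : Type) [Field k] [IsAlgClosed k] (p r : ℕ) [Fact p.Prime] [CharP k p] (G : Type) [Group G]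
  [Finite G] (P : Subgroup G) (ρ : G → Matrix (Fin r) (Fin r) (ZMod p)) (B E : Type) [CommRing B]
  [Algebra k[X] B] [MulSemiringAction G B] [CommRing E] [Algebra (LaurentSeries k) E]
  [MulSemiringAction P E] (ι : B →+* E), (∀ g h, ρ (g * h) = ρ g * ρ h) → ρ 1 = 1 →
  GalAlg k[X] G B → GalAlg (LaurentSeries k) P E →
  (∀ f, ι (algebraMap k[X] B f) = algebraMap (LaurentSeries k) E (atInf k f)) →
  (∀ (g : P) (b : B), ι ((g : G) • b) = g • ι b) →
  ∀ w : Fin r → E, (∀ g : P, stA (ρ g) (fun x => g • x) w = w) →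
  ∃ (f : Fin r → B) (h : Fin r → E), (∀ g : G, stA (ρ g) (fun x => g • x) f = f) ∧
    (∀ g : P, stA (ρ g) (fun x => g • x) h = h) ∧ ∀ j, w j = ι (f j) + (h j ^ p - h j)

/-- (R2) embedding problems with elementary abelian `p`-kernel -/
def QR2 : Prop := ∀ (k : Type) [Field k] [IsAlgClosed k] (p : ℕ) [Fact p.Prime] [CharP k p]
  (G : Type) [Group G] [Finite G] (N P : Subgroup G) [N.Normal], IsPGroup p P →
  (∀ a ∈ N, a ^ p = 1) → (∀ a ∈ N, ∀ b ∈ N, a * b = b * a) →
  Rel k (G ⧸ N) (P.map (QuotientGroup.mk' N)) →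
  ∃ G' : Subgroup G, P ≤ G' ∧ N ⊔ G' = ⊤ ∧ Rel k G' (P.subgroupOf G')

end MP7b0bad

end

section

set_option autoImplicit false

/-! Item QASX: the Artin-Schreier extension solving the embedding problem. -/

namespace MP7b0bad

open Polynomial

theorem QASX_hom_ext {A S : Type} [CommRing A] [CommRing S] {p : ℕ} {a : A} {f g : AS p a →+* S}
    (h1 : ∀ x, f (AdjoinRoot.of _ x) = g (AdjoinRoot.of _ x))
    (h2 : f (asRoot p a) = g (asRoot p a)) (z : AS p a) : f z = g z := by
  induction z using AdjoinRoot.induction_on with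
  | ih P =>
    have e : (f.comp (AdjoinRoot.mk (asPoly p a))) = (g.comp (AdjoinRoot.mk (asPoly p a))) := by
      refine Polynomial.ringHom_ext (fun x => ?_) ?_
      · exact h1 x
      · exact h2
    exact congrArg (fun F : A[X] →+* S => F P) e

theorem QASX_eval2 {R S : Type} [CommRing R] [CommRing S] (p : ℕ) (f : R →+* S) (x : S) (a : R) :
    (asPoly p a).eval₂ f x = x ^ p - x - f a := by
  simp [asPoly]

theorem QASX_root {A : Type} [CommRing A] (p : ℕ) (a : A) :
    asRoot p a ^ p - asRoot p a = AdjoinRoot.of (asPoly p a) a := by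
  have h0 : (asPoly p a).eval₂ (AdjoinRoot.of (asPoly p a)) (asRoot p a) = 0 :=
    AdjoinRoot.eval₂_root _
  rw [QASX_eval2] at h0
  linear_combination h0

theorem QASX_add_pow {A : Type} [CommRing A] {p : ℕ} (hp : p.Prime) (h0 : ((p : ℕ) : A) = 0)
    (x y : A) : (x + y) ^ p = x ^ p + y ^ p := by
  obtain ⟨r, hr⟩ := exists_add_pow_prime_eq hp x y
  rw [hr, h0]
  ring

theorem QASX_p {A : Type} [CommRing A] {p : ℕ} (h0 : ((p : ℕ) : A) = 0) (a : A) :
    ((p : ℕ) : AS p a) = 0 := by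
  have h1 : AdjoinRoot.of (asPoly p a) ((p : ℕ) : A) = ((p : ℕ) : AS p a) := map_natCast _ p
  rw [← h1, h0, map_zero]

theorem QASX_wd {A : Type} [CommRing A] {p : ℕ} (hp : p.Prime) (h0 : ((p : ℕ) : A) = 0) (m : A)
    (σ : A →+* A) (b : A) (h : b ^ p - b = σ m - m) :
    (asPoly p m).eval₂ ((AdjoinRoot.of (asPoly p m)).comp σ)
      (asRoot p m + AdjoinRoot.of (asPoly p m) b) = 0 := by
  rw [QASX_eval2, QASX_add_pow hp (QASX_p h0 m)]
  have h1 := QASX_root p m
  have h2 := congrArg (AdjoinRoot.of (asPoly p m)) h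
  simp only [map_sub, map_pow] at h2
  rw [RingHom.comp_apply]
  linear_combination h1 + h2

/-- the substitution `Y ↦ Y + b`, `σ` on coefficients -/
noncomputable def QASX_act {A : Type} [CommRing A] {p : ℕ} (hp : p.Prime) (h0 : ((p : ℕ) : A) = 0)
    (m : A) (σ : A →+* A) (b : A) (h : b ^ p - b = σ m - m) : AS p m →+* AS p m :=
  AdjoinRoot.lift ((AdjoinRoot.of (asPoly p m)).comp σ)
      (asRoot p m + AdjoinRoot.of (asPoly p m) b) (QASX_wd hp h0 m σ b h)

theorem QASX_act_of {A : Type} [CommRing A] {p : ℕ} (hp : p.Prime) (h0 : ((p : ℕ) : A) = 0)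
    (m : A) (σ : A →+* A) (b : A) (h : b ^ p - b = σ m - m) (x : A) :
    QASX_act hp h0 m σ b h (AdjoinRoot.of _ x) = AdjoinRoot.of _ (σ x) :=
  AdjoinRoot.lift_of _

theorem QASX_act_root {A : Type} [CommRing A] {p : ℕ} (hp : p.Prime) (h0 : ((p : ℕ) : A) = 0)
    (m : A) (σ : A →+* A) (b : A) (h : b ^ p - b = σ m - m) :
    QASX_act hp h0 m σ b h (asRoot p m) = asRoot p m + AdjoinRoot.of _ b :=
  AdjoinRoot.lift_root _

/-- the action of `P` on the Artin-Schreier extension -/
@[reducible] noncomputable def QASX_MSA {A : Type} [CommRing A] {p : ℕ} (hp : p.Prime)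
    (h0 : ((p : ℕ) : A) = 0) (m : A) {P Pb : Type} [Group P] [Group Pb] (q : P →* Pb)
    [MulSemiringAction Pb A] (b : P → A) (hb : ∀ g h : P, b (g * h) = b g + q g • b h)
    (hm : ∀ g, b g ^ p - b g = q g • m - m) : MulSemiringAction P (AS p m) where
  smul g x := QASX_act hp h0 m (MulSemiringAction.toRingHom Pb A (q g)) (b g) (hm g) x
  one_smul x := by
    have hb1 : b 1 = 0 := by
      have := hb 1 1
      simpa using this
    change QASX_act hp h0 m (MulSemiringAction.toRingHom Pb A (q 1)) (b 1) (hm 1) x =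
      RingHom.id _ x
    refine QASX_hom_ext (fun y => ?_) ?_ x
    · rw [QASX_act_of]
      simp
    · rw [QASX_act_root, hb1]
      simp
  mul_smul g h x := by
    change QASX_act hp h0 m (MulSemiringAction.toRingHom Pb A (q (g * h))) (b (g * h))
      (hm (g * h)) x = ((QASX_act hp h0 m (MulSemiringAction.toRingHom Pb A (q g)) (b g)
      (hm g)).comp (QASX_act hp h0 m (MulSemiringAction.toRingHom Pb A (q h)) (b h) (hm h))) x
    refine QASX_hom_ext (fun y => ?_) ?_ x
    · rw [QASX_act_of, RingHom.comp_apply, QASX_act_of, QASX_act_of]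
      simp [mul_smul]
    · rw [QASX_act_root, RingHom.comp_apply, QASX_act_root, map_add, QASX_act_of, QASX_act_root,
        hb, map_add, add_assoc]
      rfl
  smul_zero g := map_zero (QASX_act hp h0 m (MulSemiringAction.toRingHom Pb A (q g)) (b g) (hm g))
  smul_add g := map_add (QASX_act hp h0 m (MulSemiringAction.toRingHom Pb A (q g)) (b g) (hm g))
  smul_one g := map_one (QASX_act hp h0 m (MulSemiringAction.toRingHom Pb A (q g)) (b g) (hm g))
  smul_mul g := map_mul (QASX_act hp h0 m (MulSemiringAction.toRingHom Pb A (q g)) (b g) (hm g))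

/-- a polynomial of degree `< p` that is invariant under `X ↦ X + 1` is constant -/
theorem QASX_taylor {A : Type} [CommRing A] {p : ℕ} (hp : p.Prime) (h0 : ((p : ℕ) : A) = 0)
    (f : A[X]) (hf : f.natDegree < p) (h : taylor 1 f = f) : ∃ c, f = C c := by
  by_contra hc
  have hd : f.natDegree ≠ 0 := by
    intro h1
    exact hc ⟨_, eq_C_of_natDegree_eq_zero h1⟩
  obtain ⟨n, hn⟩ := Nat.exists_eq_succ_of_ne_zero hd
  have h1 := congrArg (fun g => g.coeff n) h
  simp only [taylor_coeff] at h1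
  have h2 : (hasseDeriv n f).natDegree ≤ 1 := by
    refine (natDegree_hasseDeriv_le f n).trans ?_
    omega
  rw [eval_eq_sum_range' (Nat.lt_succ_of_le h2)] at h1
  simp only [Finset.sum_range_succ, Finset.sum_range_zero, hasseDeriv_coeff, one_pow, mul_one,
    zero_add, Nat.choose_self, Nat.cast_one, one_mul] at h1
  have h3 : (1 + n).choose n = n + 1 := by
    rw [add_comm, Nat.choose_succ_self_right]
  rw [h3, add_comm 1 n] at h1
  have h4 : (((n + 1 : ℕ)) : A) * f.coeff (n + 1) = 0 := by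
    linear_combination h1
  have hcop : Nat.Coprime (n + 1) p := by
    refine (Nat.coprime_comm.1 ((Nat.Prime.coprime_iff_not_dvd hp).2 fun hdvd => ?_))
    have := Nat.le_of_dvd (by omega) hdvd
    omega
  have h5 : IsUnit ((n + 1 : ℕ) : A) := by
    have h6 := (Nat.isCoprime_iff_coprime.2 hcop)
    obtain ⟨u, v, huv⟩ := h6
    have h7 := congrArg (Int.cast : ℤ → A) huv
    push_cast at h7
    refine IsUnit.of_mul_eq_one (u : A) ?_
    push_cast
    rw [h0, mul_zero, add_zero] at h7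
    linear_combination h7
  have h6 : f.coeff (n + 1) = 0 := (h5.mul_right_eq_zero).1 h4
  have h7 : f.coeff f.natDegree = 0 := by
    rw [hn]; exact h6
  have h8 : f = 0 := leadingCoeff_eq_zero.1 h7
  rw [h8] at hd
  simp at hd

theorem QASX_of_inj (hB4 : B4) {A : Type} [CommRing A] [Nontrivial A] {p : ℕ} [Fact p.Prime]
    (a : A) : Function.Injective (AdjoinRoot.of (asPoly p a)) := by
  have hp0 : 0 < p := (Fact.out : p.Prime).pos
  intro x y hxy
  obtain ⟨c, -, hc⟩ := hB4 A p a (AdjoinRoot.of (asPoly p a) x)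
  have h1 : ∀ t : A, AdjoinRoot.of (asPoly p a) t =
      ∑ l : Fin p, AdjoinRoot.of _ ((Pi.single (⟨0, hp0⟩ : Fin p) t : Fin p → A) l) *
        asRoot p a ^ (l : ℕ) := by
    intro t
    rw [Finset.sum_eq_single (⟨0, hp0⟩ : Fin p)]
    · simp
    · intro l _ hl
      rw [Pi.single_eq_of_ne hl]
      simp
    · simp
  have h2 := hc _ (h1 x)
  have h3 := hc (Pi.single (⟨0, hp0⟩ : Fin p) y) (hxy.trans (h1 y))
  have h4 := congrFun (h2.trans h3.symm) ⟨0, hp0⟩
  simpa using h4

theorem prf_QASX (_hB1 : B1) (_hB2 : B2) (hB4 : B4) (_hB8 : B8) : QASX := by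
  intro R _ p hpF _ P Pb _ _ _ q z B _ _ _ b m hq hz hzo hker hgal hb hbz hm
  have hp : p.Prime := hpF.out
  have hRnt : Nontrivial R := CharP.nontrivial_of_char_ne_one (R := R) hp.one_lt.ne'
  have hBnt : Nontrivial B := hgal.inj.nontrivial
  have h0 : ((p : ℕ) : B) = 0 := by
    rw [← map_natCast (algebraMap R B), CharP.cast_eq_zero, map_zero]
  let instA : Algebra R (AS p m) := ((AdjoinRoot.of (asPoly p m)).comp (algebraMap R B)).toAlgebra
  let instM : MulSemiringAction P (AS p m) := QASX_MSA hp h0 m q b hb hm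
  have halg : ∀ a : R, algebraMap R (AS p m) a = AdjoinRoot.of (asPoly p m) (algebraMap R B a) :=
    fun a => rfl
  have hsm : ∀ (g : P) (x : AS p m), g • x =
      QASX_act hp h0 m (MulSemiringAction.toRingHom Pb B (q g)) (b g) (hm g) x := fun g x => rfl
  have hof : ∀ (g : P) (e : B), g • AdjoinRoot.of (asPoly p m) e =
      AdjoinRoot.of (asPoly p m) (q g • e) := by
    intro g e
    rw [hsm, QASX_act_of]
    rfl
  have hrt : ∀ g : P, g • asRoot p m = asRoot p m + AdjoinRoot.of (asPoly p m) (b g) := by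
    intro g
    rw [hsm, QASX_act_root]
  have hinj := QASX_of_inj hB4 (p := p) m
  obtain ⟨hmon, hdeg⟩ := B4_monic (A := B) hp.one_lt m
  have hqz : q z = 1 := by
    have : z ∈ q.ker := by
      rw [hker]
      exact Subgroup.mem_zpowers z
    exact this
  refine ⟨AS p m, inferInstance, instA, instM, AdjoinRoot.of (asPoly p m), asRoot p m, ?_,
    fun a => (halg a).symm, hinj, hof, hrt, QASX_root p m, ?_, ?_⟩
  · refine ⟨?_, ?_, ?_, ?_⟩
    · intro g a
      rw [halg, hof, hgal.comm]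
    · exact hinj.comp hgal.inj
    · intro x hx
      -- representative of degree < p
      obtain ⟨f, rfl⟩ := AdjoinRoot.mk_surjective x
      have hmod : AdjoinRoot.mk (asPoly p m) (f %ₘ asPoly p m) = AdjoinRoot.mk (asPoly p m) f := by
        rw [AdjoinRoot.mk_eq_mk]
        refine ⟨-(f /ₘ asPoly p m), ?_⟩
        have := modByMonic_add_div f (asPoly p m)
        linear_combination this
      rw [← hmod] at hx ⊢
      set f' := f %ₘ asPoly p m with hf'
      have hf'd : f'.natDegree < p := by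
        have := natDegree_modByMonic_lt f hmon (by
          intro h1
          rw [h1] at hdeg
          simp at hdeg
          exact hp.pos.ne hdeg)
        rw [hdeg] at this
        exact this
      have hzx := hx z
      have h1 : z • AdjoinRoot.mk (asPoly p m) f' = AdjoinRoot.mk (asPoly p m) (taylor 1 f') := by
        rw [hsm, QASX_act, AdjoinRoot.lift_mk, taylor_apply]
        rw [hqz, hbz]
        have h2 : (MulSemiringAction.toRingHom Pb B 1) = RingHom.id B := by
          ext x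
          simp
        rw [h2, RingHom.comp_id, map_one, comp, hom_eval₂]
        congr 1
      rw [h1, AdjoinRoot.mk_eq_mk] at hzx
      have h2 : taylor 1 f' - f' = 0 := by
        by_contra hne
        refine hmon.not_dvd_of_natDegree_lt hne ?_ hzx
        rw [hdeg]
        refine lt_of_le_of_lt (natDegree_sub_le _ _) ?_
        rw [natDegree_taylor, max_self]
        exact hf'd
      obtain ⟨c, hc⟩ := QASX_taylor hp h0 f' hf'd (sub_eq_zero.1 h2)
      rw [hc] at hx ⊢
      rw [AdjoinRoot.mk_C] at hx ⊢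
      have h3 : ∀ g : Pb, g • c = c := by
        intro g
        obtain ⟨g, rfl⟩ := hq g
        have h4 := hx g
        rw [hof] at h4
        exact hinj h4
      obtain ⟨a, ha⟩ := hgal.inv c h3
      exact ⟨a, by rw [halg, ha]⟩
    · intro σ hσ
      rw [Ideal.eq_top_iff_one]
      by_cases hqσ : q σ = 1
      · have h1 : σ ∈ Subgroup.zpowers z := by
          rw [← hker]
          exact hqσ
        have hbn : ∀ n : ℕ, b (z ^ n) = n := by
          intro n
          induction n with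
          | zero =>
            have hb1 : b 1 = 0 := by
              have := hb 1 1
              simpa using this
            simpa using hb1
          | succ n ih =>
            rw [pow_succ, hb, map_pow, hqz, one_pow, one_smul, hbz, ih]
            push_cast
            rfl
        obtain ⟨n, hn⟩ : ∃ n : ℕ, z ^ n = σ := by
          have := (mem_powers_iff_mem_zpowers (x := z) (y := σ)).2 h1
          exact this
        have hpn : ¬ p ∣ n := by
          intro hd
          refine hσ ?_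
          rw [← hn, ← orderOf_dvd_iff_pow_eq_one, hzo]
          exact hd
        have hu : IsUnit ((n : ℕ) : R) := (CharP.isUnit_natCast_iff hp).2 hpn
        have hu2 : IsUnit ((n : ℕ) : AS p m) := by
          have := hu.map (algebraMap R (AS p m))
          rwa [map_natCast] at this
        obtain ⟨v, hv⟩ := hu2.exists_left_inv
        have h3 : asRoot p m - σ • asRoot p m ∈
            Ideal.span {x : AS p m | ∃ b : AS p m, x = b - σ • b} :=
          Ideal.subset_span ⟨_, rfl⟩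
        rw [hrt, ← hn, hbn, map_natCast] at h3
        have h4 := Ideal.mul_mem_left _ (-v) h3
        have h5 : -v * (asRoot p m - (asRoot p m + ((n : ℕ) : AS p m))) = 1 := by
          linear_combination hv
        rw [h5] at h4
        rw [hn] at h4
        exact h4
      · have h1 := hgal.unr (q σ) hqσ
        have h2 : (1 : B) ∈ (Ideal.span {x : AS p m | ∃ b : AS p m, x = b - σ • b}).comap
            (AdjoinRoot.of (asPoly p m)) := by
          have h3 : Ideal.span {x : B | ∃ b : B, x = b - q σ • b} ≤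
              (Ideal.span {x : AS p m | ∃ b : AS p m, x = b - σ • b}).comap
                (AdjoinRoot.of (asPoly p m)) := by
            rw [Ideal.span_le]
            rintro x ⟨e, rfl⟩
            refine Ideal.subset_span ⟨AdjoinRoot.of (asPoly p m) e, ?_⟩
            rw [hof, map_sub]
          rw [h1] at h3
          exact h3 trivial
        rw [Ideal.mem_comap, map_one] at h2
        exact h2
  · intro T _ φ t ht
    refine ⟨AdjoinRoot.lift φ t ?_, fun e => AdjoinRoot.lift_of _, AdjoinRoot.lift_root _⟩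
    rw [QASX_eval2, ht, sub_self]
  · intro x
    exact (hB4 B p m x).exists

end MP7b0bad

end

section

set_option autoImplicit false

namespace MP7b0bad

open Polynomial

theorem QB1_kF (k : Type) [Field k] (a : k) : kF k a ∈ Rr k := by
  intro j i hi
  by_cases hj : j = 0
  · subst hj
    simp only [kF, RingHom.comp_apply, HahnSeries.C_apply, HahnSeries.coeff_single_same]
    rw [HahnSeries.coeff_single_of_ne (by omega)]
  · simp only [kF, RingHom.comp_apply, HahnSeries.C_apply]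
    rw [HahnSeries.coeff_single_of_ne hj]
    simp

theorem QB1_XX (k : Type) [Field k] : XX k ∈ Rr k := by
  have h3 : (Tt k)⁻¹ = HahnSeries.single (-1 : ℤ) (1 : LaurentSeries k) := by
    refine inv_eq_of_mul_eq_one_right ?_
    rw [Tt, HahnSeries.single_mul_single]
    simp
  intro j i hi
  rw [XX, h3, Ww, HahnSeries.C_apply, HahnSeries.single_mul_single]
  by_cases hj : j = 0 + -1
  · subst hj
    rw [HahnSeries.coeff_single_same, mul_one, HahnSeries.coeff_single_of_ne (by omega)]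
  · rw [HahnSeries.coeff_single_of_ne hj]
    simp

theorem QB1_toX (k : Type) [Field k] (f : k[X]) : toX k f ∈ Rr k := by
  simp only [toX, coe_eval₂RingHom, eval₂_eq_sum_range]
  exact Subring.sum_mem _ fun i _ => Subring.mul_mem _ (QB1_kF k _)
    (Subring.pow_mem _ (QB1_XX k) _)

theorem prf_QB1 (hQGL : QGL) (hQFree : QFree) (hQP2 : QP2) : QB1 := by
  intro k _ H P' _ _ _ _ π Q _ _ _ c hQ
  classical
  have : Module.Free k[X] c.B := hQFree k H c.B c.gal
  have : Module.Finite k[X] c.B := gal_finite c.gal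
  let β0 := Module.Free.chooseBasis k[X] c.B
  let β := β0.reindex (Fintype.equivFin (Module.Free.ChooseBasisIndex k[X] c.B))
  have key := hQGL k[X] (Fk k) (toX k) H P' π c.B Q c.ι c.gal hQ.comm hQ.inj hQ.inv c.ι_alg c.ι_act
    _ β
  refine ⟨_, β, key, ?_⟩
  intro r
  constructor
  · intro hmem
    obtain ⟨n', r', b, hr', hb⟩ := (hQP2 k H P' π Q c _).1.1 hmem
    have heq := (hQP2 k H P' π Q c _).2.1 hmem hQ
    obtain ⟨r0, hr0, huniq⟩ := key
      (fun γ : H => ∑ l, algebraMap (Fk k) Q (r l) * c.ι (γ⁻¹ • β l)) heq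
    have h1 := huniq r (fun γ => rfl)
    have h2 := huniq (fun l => ∑ m, r' m * toX k (β.repr (b m) l)) (by
      intro γ
      rw [hb γ]
      have h3 : ∀ m, c.ι (γ⁻¹ • b m) =
          ∑ l, algebraMap (Fk k) Q (toX k (β.repr (b m) l)) * c.ι (γ⁻¹ • β l) := by
        intro m
        conv_lhs => rw [← β.sum_repr (b m)]
        rw [Finset.smul_sum, map_sum]
        refine Finset.sum_congr rfl fun l _ => ?_
        rw [Algebra.smul_def, smul_mul', c.gal.comm, map_mul, c.ι_alg]
      simp only [h3]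
      simp only [map_sum, map_mul, Finset.sum_mul, Finset.mul_sum]
      rw [Finset.sum_comm]
      refine Finset.sum_congr rfl fun l _ => Finset.sum_congr rfl fun m _ => ?_
      ring)
    intro l
    rw [h1, ← h2]
    exact Subring.sum_mem _ fun m _ => Subring.mul_mem _ (hr' m) (QB1_toX k _)
  · intro hr
    exact (hQP2 k H P' π Q c _).1.2 ⟨_, r, β, hr, fun γ => rfl⟩

end MP7b0bad

end

section

set_option autoImplicit false

namespace MP7b0bad

open Polynomial

theorem prf_QB2 (hQGL : QGL) (hQFree : QFree) (hQP1 : QP1) (hQC2a : QC2a) (hQVad : QVad) :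
    QB2 := by
  intro k _ N V ξ P _ _ P' _ _ π Q _ _ _ O hD hN hQ
  classical
  have : Module.Free (LaurentSeries k)[X] O.A := hQFree (LaurentSeries k) P O.A O.gal
  have : Module.Finite (LaurentSeries k)[X] O.A := gal_finite O.gal
  let β0 := Module.Free.chooseBasis (LaurentSeries k)[X] O.A
  let β := β0.reindex (Fintype.equivFin (Module.Free.ChooseBasisIndex (LaurentSeries k)[X] O.A))
  have key : ∀ i, ∀ v : P → Q i, (∀ (γ : P) (h : P' i), h • v (γ * π i h) = v γ) →
      ∃! c : Fin _ → Fk k, ∀ γ : P, v γ =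
        ∑ l, algebraMap (Fk k) (Q i) (c l) * O.a i (γ⁻¹ • β l) := fun i =>
    hQGL (LaurentSeries k)[X] (Fk k) (eval₂RingHom (KF k) (ξ i)) P (P' i) (π i) O.A (Q i) (O.a i)
      O.gal (hQ i).comm (hQ i).inj (hQ i).inv (O.a_alg i) (O.a_act i) _ β
  have hC := (hQC2a k N V ξ hD).1
  have part1 : ∀ u : P → ∀ i, Q i, (∀ (γ : P) i (τ : P' i), τ • u (γ * π i τ) i = u γ i) →
      ∃! s : Fin _ → Fin N → Fk k, ∀ (γ : P) i, u γ i =
        ∑ l, algebraMap (Fk k) (Q i) (∑ j, s l j * ξ i ^ (j : ℕ)) * O.a i (γ⁻¹ • β l) := by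
    intro u hu
    choose c hc huniq using fun i => key i (fun γ => u γ i) (fun γ h => hu γ i h)
    choose s hs hsu using fun l => hC (fun i => c i l)
    refine ⟨s, fun γ i => ?_, fun s' hs' => ?_⟩
    · rw [hc i γ]
      refine Finset.sum_congr rfl fun l _ => ?_
      rw [← hs l i]
    · funext l
      refine hsu l (s' l) (fun i => ?_)
      have h1 := huniq i (fun l => ∑ j, s' l j * ξ i ^ (j : ℕ)) (fun γ => hs' γ i)
      show c i l = _
      rw [← h1]
  refine ⟨_, β, part1, fun s => ⟨fun hmem => ?_, fun hs => ?_⟩⟩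
  · obtain ⟨n', s', e, hs', he⟩ := (hQP1 k N ξ P P' π Q O _).1.1 hmem
    have heq := (hQP1 k N ξ P P' π Q O _).2.1 hmem hQ
    obtain ⟨s0, hs0, huniq⟩ := part1 (fun (γ : P) i =>
      ∑ l, algebraMap (Fk k) (Q i) (∑ j, s l j * ξ i ^ (j : ℕ)) * O.a i (γ⁻¹ • β l)) heq
    have hdeg := hD.deg
    have hvad : ∀ f : (LaurentSeries k)[X], ∃ g : Fin N → (LaurentSeries k)[X],
        f = ∑ j, (g j).comp V * X ^ (j : ℕ) := by
      subst hdeg
      exact fun f => hQVad (LaurentSeries k) V f hN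
    choose g hg using hvad
    have hev : ∀ (f : (LaurentSeries k)[X]) (i : Fin N), f.eval₂ (KF k) (ξ i) =
        ∑ j, jj k (g f j) * ξ i ^ (j : ℕ) := by
      intro f i
      conv_lhs => rw [hg f]
      rw [eval₂_finsetSum]
      refine Finset.sum_congr rfl fun j _ => ?_
      rw [eval₂_mul, eval₂_comp, hD.root i, eval₂_X_pow]
      rfl
    have h1 := huniq s (fun γ i => rfl)
    have h2 := huniq (fun l j => ∑ m, s' m * jj k (g (β.repr (e m) l) j)) (by
      intro γ i
      rw [he γ i]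
      have h3 : ∀ m, O.a i (γ⁻¹ • e m) =
          ∑ l, algebraMap (Fk k) (Q i) (∑ j, jj k (g (β.repr (e m) l) j) * ξ i ^ (j : ℕ)) *
            O.a i (γ⁻¹ • β l) := by
        intro m
        conv_lhs => rw [← β.sum_repr (e m)]
        rw [Finset.smul_sum, map_sum]
        refine Finset.sum_congr rfl fun l _ => ?_
        rw [Algebra.smul_def, smul_mul', O.gal.comm, map_mul, O.a_alg, hev]
      simp only [h3]
      simp only [Finset.mul_sum]
      rw [Finset.sum_comm]
      refine Finset.sum_congr rfl fun l _ => ?_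
      rw [← Finset.sum_congr rfl fun m _ => mul_assoc _ _ _, ← Finset.sum_mul]
      congr 1
      rw [← Finset.sum_congr rfl fun m _ => map_mul _ _ _, ← map_sum]
      congr 1
      simp only [Finset.mul_sum, Finset.sum_mul]
      rw [Finset.sum_comm]
      refine Finset.sum_congr rfl fun j _ => Finset.sum_congr rfl fun m _ => ?_
      ring)
    intro l j
    rw [h1, ← h2]
    exact Subring.sum_mem _ fun m _ => Subring.mul_mem _ (hs' m) ((prf_A8 k).2.1 _).2
  · have h1 : (fun (γ : P) i => ∑ l, algebraMap (Fk k) (Q i) (∑ j, s l j * ξ i ^ (j : ℕ)) *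
        O.a i (γ⁻¹ • β l)) = ∑ l, ∑ j, (fun (_ : P) i => algebraMap (Fk k) (Q i) (s l j)) *
        (fun (γ : P) i => O.a i (γ⁻¹ • (algebraMap (LaurentSeries k)[X] O.A (X ^ (j : ℕ)) * β l))) := by
      funext γ i
      rw [Finset.sum_apply, Finset.sum_apply]
      refine Finset.sum_congr rfl fun l _ => ?_
      rw [Finset.sum_apply, Finset.sum_apply, map_sum, Finset.sum_mul]
      refine Finset.sum_congr rfl fun j _ => ?_
      rw [Pi.mul_apply, Pi.mul_apply, smul_mul', O.gal.comm, map_mul (O.a i), O.a_alg,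
        eval₂_X_pow, map_mul (algebraMap (Fk k) (Q i)), mul_assoc]
    rw [h1]
    refine Subring.sum_mem _ fun l _ => Subring.sum_mem _ fun j _ => Subring.mul_mem _ ?_ ?_
    · exact Subring.subset_closure (Or.inl ⟨s l j, hs l j, rfl⟩)
    · exact Subring.subset_closure (Or.inr ⟨_, rfl⟩)

end MP7b0bad

end

section

set_option autoImplicit false

namespace MP7b0bad

open Polynomial TensorProduct

section

variable {R : Type} [CommRing R] {R' : Type} [CommRing R'] [Algebra R R'] {G : Type} [Group G]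
  {B : Type} [CommRing B] [Algebra R B] [MulSemiringAction G B]

/-- the action of `g` as an algebra homomorphism -/
def QBC_alg (hc : ∀ (g : G) (a : R), g • algebraMap R B a = algebraMap R B a) (g : G) :
    B →ₐ[R] B :=
  { MulSemiringAction.toRingHom G B g with
    commutes' := fun a => hc g a }

/-- the action on the base change -/
def QBC_act (hc : ∀ (g : G) (a : R), g • algebraMap R B a = algebraMap R B a) (g : G) :
    (R' ⊗[R] B) →ₐ[R'] (R' ⊗[R] B) :=
  Algebra.TensorProduct.map (AlgHom.id R' R') (QBC_alg hc g)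

theorem QBC_act_tmul (hc : ∀ (g : G) (a : R), g • algebraMap R B a = algebraMap R B a) (g : G)
    (r : R') (b : B) : QBC_act hc g (r ⊗ₜ[R] b) = r ⊗ₜ[R] (g • b) := rfl

/-- the action on the base change -/
@[reducible] def QBC_inst (hc : ∀ (g : G) (a : R), g • algebraMap R B a = algebraMap R B a) :
    MulSemiringAction G (R' ⊗[R] B) where
  smul g z := QBC_act hc g z
  one_smul z := by
    show QBC_act hc 1 z = z
    induction z using TensorProduct.induction_on with
    | zero => simp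
    | tmul r b => rw [QBC_act_tmul, one_smul]
    | add a b ha hb => rw [map_add, ha, hb]
  mul_smul g g' z := by
    show QBC_act hc (g * g') z = QBC_act hc g (QBC_act hc g' z)
    induction z using TensorProduct.induction_on with
    | zero => simp
    | tmul r b => rw [QBC_act_tmul, QBC_act_tmul, QBC_act_tmul, mul_smul]
    | add a b ha hb => rw [map_add, ha, hb, map_add, map_add]
  smul_zero g := map_zero (QBC_act hc g)
  smul_add g a b := map_add (QBC_act hc g) a b
  smul_one g := map_one (QBC_act hc g)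
  smul_mul g a b := map_mul (QBC_act hc g) a b

end

theorem prf_QBC : QBC := by
  intro R R' _ _ φ G _ _ B _ _ _ hB
  classical
  let _ : Algebra R R' := φ.toAlgebra
  let act : MulSemiringAction G (R' ⊗[R] B) := QBC_inst hB.comm
  have hact : ∀ (g : G) (r : R') (b : B), g • (r ⊗ₜ[R] b) = r ⊗ₜ[R] (g • b) := fun _ _ _ => rfl
  have halg : ∀ r : R', algebraMap R' (R' ⊗[R] B) r = r ⊗ₜ[R] (1 : B) := fun _ => rfl
  let q : B →+* R' ⊗[R] B := (Algebra.TensorProduct.includeRight : B →ₐ[R] R' ⊗[R] B).toRingHom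
  have hq : ∀ b : B, q b = (1 : R') ⊗ₜ[R] b := fun _ => rfl
  have hqg : ∀ (g : G) (b : B), q (g • b) = g • q b := fun _ _ => rfl
  have hqa : ∀ a : R, q (algebraMap R B a) = algebraMap R' (R' ⊗[R] B) (φ a) := by
    intro a
    rw [hq, halg, Algebra.algebraMap_eq_smul_one, TensorProduct.tmul_smul,
      TensorProduct.smul_tmul', Algebra.smul_def, mul_one]
    rfl
  have htm : ∀ (r : R') (b : B), r ⊗ₜ[R] b = algebraMap R' (R' ⊗[R] B) r * q b := by
    intro r b
    rw [halg, hq, Algebra.TensorProduct.tmul_mul_tmul, mul_one, one_mul]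
  have := Fintype.ofFinite G
  obtain ⟨m, x, y, hxy, hxy1⟩ := gal_dual' hB
  obtain ⟨ϑ, hϑ⟩ := gal_trace_one hB
  refine ⟨R' ⊗[R] B, inferInstance, inferInstance, act, q, ?_, hqa, hqg, ?_, ?_⟩
  · constructor
    · intro g a
      rw [halg, hact, smul_one]
    · -- injectivity
      choose T hT using fun b : B => gal_trace hB (ϑ * b)
      let T' : B →ₗ[R] R :=
        { toFun := T
          map_add' := by
            intro a b
            apply hB.inj
            simp only [map_add, hT, mul_add, smul_add, Finset.sum_add_distrib]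
          map_smul' := by
            intro a b
            apply hB.inj
            rw [smul_eq_mul, map_mul, hT, RingHom.id_apply, hT, Finset.mul_sum]
            refine Finset.sum_congr rfl fun g _ => ?_
            rw [Algebra.smul_def, mul_left_comm, smul_mul', hB.comm] }
      have hT1 : T' 1 = 1 := by
        apply hB.inj
        show algebraMap R B (T 1) = algebraMap R B 1
        rw [hT, mul_one, hϑ, map_one]
      let S : R' ⊗[R] B →ₗ[R] R' := (TensorProduct.rid R R').toLinearMap ∘ₗ (T'.lTensor R')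
      have hS : ∀ r : R', S (algebraMap R' (R' ⊗[R] B) r) = r := by
        intro r
        rw [halg]
        show (TensorProduct.rid R R') ((T'.lTensor R') (r ⊗ₜ[R] 1)) = r
        rw [LinearMap.lTensor_tmul, hT1, TensorProduct.rid_tmul, one_smul]
      exact Function.LeftInverse.injective hS
    · -- invariants
      have htr : ∀ w : R' ⊗[R] B, ∃ a : R', algebraMap R' (R' ⊗[R] B) a = ∑ g : G, g • w := by
        intro w
        induction w using TensorProduct.induction_on with
        | zero => exact ⟨0, by simp⟩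
        | tmul r b =>
          obtain ⟨a, ha⟩ := gal_trace hB b
          refine ⟨r * φ a, ?_⟩
          simp only [hact]
          rw [← TensorProduct.tmul_sum, ← ha, htm, hqa, map_mul]
        | add a b ha hb =>
          obtain ⟨a', ha'⟩ := ha
          obtain ⟨b', hb'⟩ := hb
          exact ⟨a' + b', by simp only [map_add, ha', hb', smul_add, Finset.sum_add_distrib]⟩
      intro z hz
      obtain ⟨a, ha⟩ := htr (z * q ϑ)
      refine ⟨a, ?_⟩
      rw [ha]
      simp only [smul_mul', hz]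
      rw [← Finset.mul_sum]
      have h1 : ∑ g : G, g • q ϑ = 1 := by
        simp only [← hqg]
        rw [← map_sum, hϑ, map_one]
      rw [h1, mul_one]
    · intro σ hσ
      rw [Ideal.eq_top_iff_one]
      have h1 : (1 : R' ⊗[R] B) = ∑ k, q (x k) * (q (y k) - σ • q (y k)) := by
        simp only [mul_sub, Finset.sum_sub_distrib, ← hqg, ← map_mul, ← map_sum]
        rw [hxy σ hσ, hxy1, map_one, map_zero, sub_zero]
      rw [h1]
      exact Ideal.sum_mem _ fun k _ => Ideal.mul_mem_left _ _ (Ideal.subset_span ⟨_, rfl⟩)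
  · intro T _ f h hfh
    let _ : Algebra R T := (h.comp φ).toAlgebra
    let f' : B →ₐ[R] T := { f with commutes' := fun a => hfh a }
    let h' : R' →ₐ[R] T := { h with commutes' := fun a => rfl }
    let F : R' ⊗[R] B →ₐ[R] T := Algebra.TensorProduct.lift h' f' (fun _ _ => Commute.all _ _)
    refine ⟨F.toRingHom, fun b => ?_, fun a => ?_⟩
    · show F ((1 : R') ⊗ₜ[R] b) = f b
      rw [Algebra.TensorProduct.lift_tmul, map_one, one_mul]
      rfl
    · show F (a ⊗ₜ[R] (1 : B)) = h a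
      rw [Algebra.TensorProduct.lift_tmul, map_one, mul_one]
      rfl
  · intro z
    obtain ⟨S, hS⟩ := TensorProduct.exists_finset z
    refine ⟨S.card, fun i => (S.equivFin.symm i).1.1, fun i => (S.equivFin.symm i).1.2, ?_⟩
    conv_lhs => rw [hS]
    rw [← Finset.sum_coe_sort]
    simp only [← htm]
    exact (Equiv.sum_comp S.equivFin.symm (fun p : S => p.1.1 ⊗ₜ[R] p.1.2)).symm

end MP7b0bad

end

section

set_option autoImplicit false

namespace MP7b0bad

open Polynomial

theorem prf_QC2a : QC2a := by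
  intro k _ N V ξ hD
  have hinj : Function.Injective ξ := by
    intro i j hij
    by_contra hne
    exact hD.ne i j hne (sub_eq_zero.2 hij)
  refine ⟨fun v => ⟨fun j => (Lagrange.interpolate Finset.univ ξ v).coeff j, ?_, ?_⟩, ?_⟩
  · intro i
    have h1 := Lagrange.eval_interpolate_at_node (s := Finset.univ) (v := ξ) v hinj.injOn
      (Finset.mem_univ i)
    rw [← h1, Polynomial.eval_eq_sum_range' (n := N), Finset.sum_range]
    · have h2 := Lagrange.degree_interpolate_lt (s := Finset.univ) (v := ξ) v hinj.injOn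
      rw [Finset.card_univ, Fintype.card_fin] at h2
      by_cases h0 : Lagrange.interpolate Finset.univ ξ v = 0
      · rw [h0]
        simpa using i.pos
      · exact (Polynomial.natDegree_lt_iff_degree_lt h0).2 h2
  · intro c hc
    funext j
    exact C2a_poly ξ hinj v c hc j
  · intro c hc j
    rw [C2a_poly ξ hinj (fun i => ∑ j, c j * ξ i ^ (j : ℕ)) c (fun i => rfl) j]
    exact C2a_mem (Rr k) ξ _ hD.mem hD.unit hc _

end MP7b0bad

end
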