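import Mathlib.RingTheory.Invariant.Basic
import Pool.Agent.Work.MP_7b0bad_ag.Bd.B06
import Pool.Agent.Work.MP_7b0bad_ag.Bd.B02
import Pool.Agent.Work.MP_7b0bad_ag.Bd.B01
import Pool.Agent.Work.MP_7b0bad_ag.Bd.B03

/-! Bundle of small proof modules (one section per former module). -/

section

set_option autoImplicit false

namespace MP7b0bad

open Polynomial

/-- order of the inverse of the expansion of a nonzero polynomial -/
theorem QC2b_order {K : Type} [Field K] (P : K[X]) (hP : P ≠ 0) :
    (atInf K P)⁻¹.coeff (P.natDegree : ℤ) ≠ 0 ∧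
      ∀ m : ℤ, m < (P.natDegree : ℤ) → (atInf K P)⁻¹.coeff m = 0 := by
  have h1 : (atInf K P).coeff (-(P.natDegree : ℤ)) = P.leadingCoeff := by
    rw [C2b_atInf_coeff, if_pos (by omega)]
    rw [neg_neg, Int.toNat_natCast]
    rfl
  have h1' : (atInf K P).coeff (-(P.natDegree : ℤ)) ≠ 0 := by
    rw [h1]
    exact leadingCoeff_ne_zero.2 hP
  have h0 : atInf K P ≠ 0 := by
    intro h
    rw [h] at h1'
    simp at h1'
  have h2 : (atInf K P).order = -(P.natDegree : ℤ) := by
    apply le_antisymm
    · exact HahnSeries.order_le_of_coeff_ne_zero h1'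
    · by_contra hc
      have h3 := not_le.1 hc
      apply HahnSeries.coeff_order_eq_zero.not.2 h0
      rw [C2b_atInf_coeff]
      split_ifs
      · apply coeff_eq_zero_of_natDegree_lt
        omega
      · rfl
  have hi : (atInf K P)⁻¹ ≠ 0 := inv_ne_zero h0
  have h3 : (atInf K P)⁻¹.order = (P.natDegree : ℤ) := by
    have h4 := HahnSeries.order_mul h0 hi
    rw [mul_inv_cancel₀ h0, HahnSeries.order_one, h2] at h4
    omega
  constructor
  · rw [← h3]
    exact HahnSeries.coeff_order_eq_zero.not.2 hi
  · intro m hm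
    exact HahnSeries.coeff_eq_zero_of_lt_order (by rw [h3]; exact hm)

theorem prf_QC2b : QC2b := by
  intro k _ V hN
  have hV0 : V ≠ 0 := by
    intro h
    rw [h, natDegree_zero] at hN
    exact lt_irrefl _ hN
  obtain ⟨l2, hl2⟩ := prf_A2 k
  obtain ⟨hg1, hg2⟩ := QC2b_order V hV0
  obtain ⟨σ, hσC, hσX, hσo⟩ := prf_C2s (LaurentSeries k) (atInf (LaurentSeries k) V)⁻¹ V.natDegree
    hN hg1 hg2
  have hS : ∀ f, jj k f ∈ Ss k := fun f => ((prf_A8 k).2.1 f).2
  -- the first map
  have e1 : l2.comp ((jj k).codRestrict (Ss k) hS) = atInf (LaurentSeries k) := by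
    refine Polynomial.ringHom_ext (fun a => ?_) ?_
    · rw [C2b_atInf_C]
      ext m j
      rw [RingHom.comp_apply, hl2]
      simp only [RingHom.codRestrict_apply, jj, coe_eval₂RingHom, eval₂_C]
      rw [C2b_KF_coeff, HahnSeries.C_apply, HahnSeries.coeff_single, HahnSeries.coeff_single]
      by_cases hm : m = 0
      · subst hm
        simp
      · rw [if_neg hm, if_neg (by omega)]
        simp
    · rw [C2b_atInf_X]
      ext m j
      rw [RingHom.comp_apply, hl2]
      simp only [RingHom.codRestrict_apply, jj, coe_eval₂RingHom, eval₂_X]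
      simp only [Ww, HahnSeries.C_apply, HahnSeries.coeff_single]
      by_cases hm : m = -1
      · subst hm
        by_cases hj : j = 0
        · subst hj
          simp
        · rw [if_neg hj, if_pos rfl, HahnSeries.coeff_one, if_neg hj]
          simp
      · rw [if_neg hm]
        by_cases hj : j = 0
        · subst hj
          rw [if_pos rfl, HahnSeries.coeff_single, if_neg (by omega)]
          simp
        · rw [if_neg hj]
          simp
  have e2 : σ.comp (atInf (LaurentSeries k)) =
      (atInf (LaurentSeries k)).comp (compRingHom V) := by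
    refine Polynomial.ringHom_ext (fun a => ?_) ?_
    · rw [RingHom.comp_apply, RingHom.comp_apply, C2b_atInf_C, hσC, coe_compRingHom_apply, C_comp,
        C2b_atInf_C]
    · rw [RingHom.comp_apply, RingHom.comp_apply, C2b_atInf_X, coe_compRingHom_apply, X_comp,
        ← C2b_single_inv, map_inv₀, hσX, inv_inv]
  refine ⟨σ.comp l2, fun f h => ?_, fun s hs => ?_⟩
  · have h1 := RingHom.congr_fun e1 f
    have h2 := RingHom.congr_fun e2 f
    rw [RingHom.comp_apply, RingHom.comp_apply, coe_compRingHom_apply] at h2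
    rw [← h2, ← h1]
    rfl
  · have h1 : l2 s ≠ 0 := by
      intro h0
      apply hs
      apply Subtype.ext
      ext j i
      have h2 := hl2 s (-i) j
      rw [h0, neg_neg] at h2
      rw [← h2]
      simp
    obtain ⟨h2, h3⟩ := hσo _ h1
    exact ⟨h2, ⟨_, h3⟩⟩

end MP7b0bad

end

section

set_option autoImplicit false

namespace MP7b0bad

open Polynomial

theorem prf_QC2c (_hQC2a : QC2a) (hQC2b : QC2b) (_hQVad : QVad) : QC2c := by
  intro k _ N V ξ hD hN
  classical
  obtain ⟨l, hl, hlo⟩ := hQC2b k V (by rw [hD.deg]; exact hN)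
  obtain ⟨_, hjm, _⟩ := prf_A8 k
  have hV0 : V ≠ 0 := by
    intro h
    have h1 := hD.deg
    rw [h, natDegree_zero] at h1
    omega
  have hu : V.leadingCoeff ≠ 0 := leadingCoeff_ne_zero.2 hV0
  have hjC : ∀ c : LaurentSeries k, jj k (C c) = KF k c := by
    intro c
    unfold jj
    simp only [coe_eval₂RingHom, eval₂_C]
  have hjX : jj k X = Ww k := by
    unfold jj
    simp
  have hKF : ∀ c : LaurentSeries k, KF k c ∈ Ss k := fun c => by
    rw [← hjC c]
    exact (hjm _).2
  have hWw : Ww k ∈ Ss k := by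
    rw [← hjX]
    exact (hjm _).2
  let φ : LaurentSeries k →+* Ss k := (KF k).codRestrict (Ss k) hKF
  let w : Ss k := ⟨Ww k, hWw⟩
  let V1 : (LaurentSeries k)[X] := C (V.leadingCoeff)⁻¹ * V
  have hV1m : V1.Monic := by
    show (C (V.leadingCoeff)⁻¹ * V).Monic
    rw [Monic, leadingCoeff_mul, leadingCoeff_C, inv_mul_cancel₀ hu]
  have hV1d : V1.natDegree = N := by
    show (C (V.leadingCoeff)⁻¹ * V).natDegree = N
    rw [natDegree_C_mul (inv_ne_zero hu), hD.deg]
  let P : (Ss k)[X] := V1.map φ - C (φ (V.leadingCoeff)⁻¹ * w)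
  have hWm : (V1.map φ).Monic := hV1m.map φ
  have hWd : (V1.map φ).natDegree = N := by
    rw [hV1m.natDegree_map φ, hV1d]
  have hdeg : (C (φ (V.leadingCoeff)⁻¹ * w) : (Ss k)[X]).degree < (V1.map φ).degree := by
    rw [Polynomial.degree_eq_natDegree hWm.ne_zero, hWd]
    refine lt_of_le_of_lt Polynomial.degree_C_le ?_
    exact_mod_cast hN
  have hPm : P.Monic := hWm.sub_of_left hdeg
  have hPd : P.natDegree = N := by
    have : P.degree = (V1.map φ).degree := Polynomial.degree_sub_eq_left_of_degree_lt hdeg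
    rw [Polynomial.natDegree_eq_of_degree_eq this, hWd]
  -- the maps
  have hroot : ∀ i, P.eval₂ (Ss k).subtype (ξ i) = 0 := by
    intro i
    show (V1.map φ - C (φ (V.leadingCoeff)⁻¹ * w)).eval₂ (Ss k).subtype (ξ i) = 0
    rw [eval₂_sub, eval₂_map, eval₂_C]
    have h1 : (Ss k).subtype.comp φ = KF k := by
      ext c : 1
      rfl
    rw [h1, map_mul]
    show (C (V.leadingCoeff)⁻¹ * V).eval₂ (KF k) (ξ i) - KF k (V.leadingCoeff)⁻¹ * Ww k = 0
    rw [eval₂_mul, eval₂_C, hD.root i, sub_self]
  have hlφ : ∀ c : LaurentSeries k, l (φ c) = atInf (LaurentSeries k) (C c) := by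
    intro c
    have h1 : φ c = ⟨jj k (C c), (hjm _).2⟩ := Subtype.ext (hjC c).symm
    rw [h1, hl, C_comp]
  have hlw : l w = atInf (LaurentSeries k) V := by
    have h1 : w = ⟨jj k X, (hjm _).2⟩ := Subtype.ext hjX.symm
    rw [h1, hl, X_comp]
  have hrootI : P.eval₂ l (atInf (LaurentSeries k) X) = 0 := by
    show (V1.map φ - C (φ (V.leadingCoeff)⁻¹ * w)).eval₂ l (atInf (LaurentSeries k) X) = 0
    rw [eval₂_sub, eval₂_map, eval₂_C, map_mul, hlw, hlφ]
    have h2 : l.comp φ = (atInf (LaurentSeries k)).comp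
        (C : LaurentSeries k →+* (LaurentSeries k)[X]) := by
      ext c : 1
      rw [RingHom.comp_apply, hlφ c, RingHom.comp_apply]
    have h3 : V1.eval₂ ((atInf (LaurentSeries k)).comp
        (C : LaurentSeries k →+* (LaurentSeries k)[X])) (atInf (LaurentSeries k) X) =
        atInf (LaurentSeries k) V1 := by
      rw [← hom_eval₂, eval₂_C_X]
    rw [h2, h3, ← map_mul]
    show atInf (LaurentSeries k) (C (V.leadingCoeff)⁻¹ * V) - _ = 0
    rw [sub_self]
  let a : Fin N → AdjoinRoot P →+* Fk k := fun i => AdjoinRoot.lift (Ss k).subtype (ξ i) (hroot i)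
  let aI : AdjoinRoot P →+* LaurentSeries (LaurentSeries k) :=
    AdjoinRoot.lift l (atInf (LaurentSeries k) X) hrootI
  have hspan := C2c_span P hPm N hPd hN
  have haI : Function.Injective aI := by
    rw [injective_iff_map_eq_zero]
    intro α hα
    obtain ⟨c, rfl⟩ := hspan α
    have hX : atInf (LaurentSeries k) X = HahnSeries.single (-1 : ℤ) (1 : LaurentSeries k) := by
      unfold atInf
      simp
    have h1 : ∑ j, l (c j) * (HahnSeries.single (-1 : ℤ) (1 : LaurentSeries k)) ^ (j : ℕ) = 0 := by
      rw [← hα, map_sum]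
      refine Finset.sum_congr rfl fun j _ => ?_
      rw [map_mul, map_pow]
      show _ = AdjoinRoot.lift l (atInf (LaurentSeries k) X) hrootI (AdjoinRoot.of P (c j)) *
        AdjoinRoot.lift l (atInf (LaurentSeries k) X) hrootI (AdjoinRoot.root P) ^ (j : ℕ)
      rw [AdjoinRoot.lift_of, AdjoinRoot.lift_root, hX]
    have h2 := C2c_indep N (fun j => l (c j)) (fun j hj => ?_) h1
    · refine Finset.sum_eq_zero fun j _ => ?_
      have h3 : c j = 0 := by
        by_contra h4
        exact (hlo (c j) h4).1 (h2 j)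
      rw [h3, map_zero, zero_mul]
    · have h3 : c j ≠ 0 := by
        intro h4
        apply hj
        simp [h4]
      have h5 := (hlo (c j) h3).2
      rwa [hD.deg] at h5
  have : IsDomain (AdjoinRoot P) := haI.isDomain aI
  have ha : ∀ i, Function.Injective (a i) := by
    intro i
    rw [injective_iff_map_eq_zero]
    intro α hα
    by_contra hne
    have hfin : Module.Finite (Ss k) (AdjoinRoot P) := hPm.finite_adjoinRoot
    have hint : IsIntegral (Ss k) α := Algebra.IsIntegral.isIntegral α
    have h1 := Ideal.comap_ne_bot_of_integral_mem (I := RingHom.ker (a i)) hne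
      ((RingHom.mem_ker).2 hα) hint
    apply h1
    rw [eq_bot_iff]
    intro r hr
    rw [Ideal.mem_comap, RingHom.mem_ker, AdjoinRoot.algebraMap_eq] at hr
    have h2 : a i (AdjoinRoot.of P r) = (r : Fk k) := by
      show AdjoinRoot.lift (Ss k).subtype (ξ i) (hroot i) (AdjoinRoot.of P r) = _
      rw [AdjoinRoot.lift_of]
      rfl
    rw [h2] at hr
    rw [Ideal.mem_bot]
    exact Subtype.ext hr
  refine ⟨AdjoinRoot P, inferInstance, AdjoinRoot.of P, AdjoinRoot.root P, a, aI, ?_, ?_, ha, haI,
    ?_, ?_, hspan⟩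
  · intro i s
    show AdjoinRoot.lift (Ss k).subtype (ξ i) (hroot i) (AdjoinRoot.of P s) = _
    rw [AdjoinRoot.lift_of]
    rfl
  · intro i
    exact AdjoinRoot.lift_root _
  · exact AdjoinRoot.lift_root _
  · intro f h
    show AdjoinRoot.lift l (atInf (LaurentSeries k) X) hrootI (AdjoinRoot.of P _) = _
    rw [AdjoinRoot.lift_of]
    exact hl f h

end MP7b0bad

end

section

set_option autoImplicit false

namespace MP7b0bad

open Polynomial

section

variable {G : Type} [Group G] {B : Type} [CommRing B] [MulSemiringAction G B]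

/-- the decomposition group of an ideal -/
def QComp_st (G : Type) [Group G] {B : Type} [CommRing B] [MulSemiringAction G B]
    (p : Ideal B) : Subgroup G where
  carrier := {g | ∀ b, b ∈ p ↔ g • b ∈ p}
  one_mem' := by intro b; simp
  mul_mem' := by
    intro g h hg hh b
    rw [hh b, hg (h • b), mul_smul]
  inv_mem' := by
    intro g hg b
    rw [hg (g⁻¹ • b), smul_inv_smul]

theorem QComp_mem [Finite G] {p : Ideal B} {g : G} (h : ∀ b, g • b ∈ p → b ∈ p) :
    g ∈ QComp_st G p := by
  intro b
  refine ⟨fun hb => ?_, h b⟩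
  have hk : ∀ k : ℕ, ∀ c, (g ^ k) • c ∈ p → c ∈ p := by
    intro k
    induction k with
    | zero => intro c hc; simpa using hc
    | succ k ih =>
      intro c hc
      rw [pow_succ', mul_smul] at hc
      exact ih c (h _ hc)
  have hn : 0 < orderOf g := orderOf_pos g
  refine hk (orderOf g - 1) _ ?_
  rw [smul_smul, ← pow_succ, Nat.sub_add_cancel hn, pow_orderOf_eq_one, one_smul]
  exact hb

theorem QComp_ex [Finite G] {p : Ideal B} {g : G} (h : g ∉ QComp_st G p) :
    ∃ u, g • u ∈ p ∧ u ∉ p := by
  by_contra hc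
  push Not at hc
  exact h (QComp_mem hc)

/-- a product of elements -/
theorem QComp_prod [Finite G] {p : Ideal B} (hp : p.IsPrime) {ι : Type} [Fintype ι] (f : ι → G)
    (h : ∀ i, f i ∉ QComp_st G p) : ∃ u, (∀ i, f i • u ∈ p) ∧ u ∉ p := by
  classical
  choose u hu1 hu2 using fun i => QComp_ex (h i)
  refine ⟨∏ i, u i, fun i => ?_, fun hc => ?_⟩
  · rw [Finset.smul_prod', ← Finset.mul_prod_erase _ _ (Finset.mem_univ i)]
    exact p.mul_mem_right _ (hu1 i)
  · obtain ⟨i, _, hi⟩ := (Ideal.IsPrime.prod_mem_iff (hp := hp)).1 hc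
    exact hu2 i hi

/-- the action of the decomposition group on the quotient -/
noncomputable def QComp_hom (p : Ideal B) (g : QComp_st G p) : B ⧸ p →+* B ⧸ p :=
  Ideal.quotientMap p (MulSemiringAction.toRingHom G B (g : G)) (fun b hb => (g.2 b).1 hb)

/-- the action of the decomposition group on the quotient -/
@[reducible] noncomputable def QComp_act (p : Ideal B) : MulSemiringAction (QComp_st G p) (B ⧸ p) where
  smul g x := QComp_hom p g x
  one_smul x := by
    obtain ⟨b, rfl⟩ := Ideal.Quotient.mk_surjective x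
    change Ideal.Quotient.mk p ((1 : G) • b) = _
    rw [one_smul]
  mul_smul g h x := by
    obtain ⟨b, rfl⟩ := Ideal.Quotient.mk_surjective x
    change Ideal.Quotient.mk p (((g : G) * (h : G)) • b) = Ideal.Quotient.mk p ((g : G) • (h : G) • b)
    rw [mul_smul]
  smul_zero g := map_zero (QComp_hom p g)
  smul_add g x y := map_add (QComp_hom p g) x y
  smul_one g := map_one (QComp_hom p g)
  smul_mul g x y := map_mul (QComp_hom p g) x y

end

section

variable {R : Type} [CommRing R] {G : Type} [Group G] [Finite G] {B : Type} [CommRing B]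
  [Algebra R B] [MulSemiringAction G B]

/-- the intersection of the conjugates of `p` is zero -/
theorem QComp_inter (h : GalAlg R G B) {p : Ideal B} (hp : ∀ a : R, algebraMap R B a ∈ p → a = 0)
    {b : B} (hb : ∀ g : G, g • b ∈ p) : b = 0 := by
  classical
  have := Fintype.ofFinite G
  obtain ⟨n, x, y, h1, h2⟩ := gal_dual' h
  rw [gal_formula h1 h2 b]
  refine Finset.sum_eq_zero fun m _ => ?_
  obtain ⟨a, ha⟩ := gal_trace h (y m * b)
  have h3 : algebraMap R B a ∈ p := by
    rw [ha]
    refine Ideal.sum_mem _ fun g _ => ?_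
    rw [smul_mul']
    exact p.mul_mem_left _ (hb g)
  rw [← ha, hp a h3, map_zero, zero_mul]

/-- an element of the fraction field -/
theorem QComp_frac (h : GalAlg R G B) {p : Ideal B} (hpp : p.IsPrime)
    (hp : ∀ a : R, algebraMap R B a ∈ p → a = 0) :
    ∃ (U : B) (a0 : R), a0 ≠ 0 ∧ Ideal.Quotient.mk p U = algebraMap R (B ⧸ p) a0 ∧
      ∀ b : B, (∀ g ∈ QComp_st G p, g • b - b ∈ p) →
        ∃ a : R, algebraMap R (B ⧸ p) a = algebraMap R (B ⧸ p) a0 * Ideal.Quotient.mk p b := by
  classical
  have := Fintype.ofFinite G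
  set G' := QComp_st G p with hG'
  obtain ⟨u, hu1, hu2⟩ := QComp_prod hpp (fun i : {g : G // g ∉ G'} => (i : G)) (fun i => i.2)
  have hu1' : ∀ g ∉ G', g • u ∈ p := fun g hg => hu1 ⟨g, hg⟩
  -- invariant element
  have hU : ∃ U : B, (∀ g ∉ G', g • U ∈ p) ∧ U ∉ p ∧ ∀ g ∈ G', g • U = U := by
    refine ⟨∏ h : G', (h : G) • u, ?_, ?_, ?_⟩
    · intro g hg
      rw [Finset.smul_prod', ← Finset.mul_prod_erase _ _ (Finset.mem_univ (1 : G'))]
      refine p.mul_mem_right _ ?_
      rw [Subgroup.coe_one, one_smul]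
      exact hu1' g hg
    · intro hc
      obtain ⟨h, _, hh⟩ := (Ideal.IsPrime.prod_mem_iff (hp := hpp)).1 hc
      exact hu2 ((h.2 u).2 hh)
    · intro g hg
      rw [Finset.smul_prod']
      refine Fintype.prod_bijective (fun x => (⟨g, hg⟩ : G') * x)
        (Group.mulLeft_bijective (⟨g, hg⟩ : G')) _ _ fun x => ?_
      rw [smul_smul]
      rfl
  obtain ⟨U, hU1, hU2, hU3⟩ := hU
  -- the construction
  have key : ∀ b : B, (∀ g ∈ G', g • b - b ∈ p) →
      ∃ a : R, algebraMap R (B ⧸ p) a = Ideal.Quotient.mk p (U * b) := by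
    intro b hb
    set c := U * b with hc
    have hcJ : ∀ g ∉ G', g • c ∈ p := by
      intro g hg
      rw [hc, smul_mul']
      exact p.mul_mem_right _ (hU1 g hg)
    have hcinv : ∀ h ∈ G', h • c = c := by
      intro h' hh'
      have h0 : h' • c - c = 0 := by
        refine QComp_inter h hp fun g => ?_
        by_cases hg : g ∈ G'
        · refine (hg _).1 ?_
          have e1 : h' • c - c = U * (h' • b - b) := by
            rw [hc, smul_mul', hU3 h' hh']; ring
          rw [e1]
          exact p.mul_mem_left _ (hb h' hh')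
        · rw [smul_sub, smul_smul]
          refine p.sub_mem (hcJ _ fun hgh => hg ?_) (hcJ g hg)
          have := G'.mul_mem hgh (G'.inv_mem hh')
          rwa [mul_inv_cancel_right] at this
      rwa [sub_eq_zero] at h0
    have hout : ∀ g g' : G, (g : G ⧸ G') = (g' : G ⧸ G') → g • c = g' • c := by
      intro g g' hgg
      rw [QuotientGroup.eq] at hgg
      have h1 := hcinv _ hgg
      rw [← smul_smul] at h1
      have h2 := congrArg (fun z => g • z) h1
      simp only [smul_inv_smul] at h2
      exact h2.symm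
    obtain ⟨a, ha⟩ := h.inv (∑ x : G ⧸ G', (Quotient.out x) • c) (by
      intro g
      rw [Finset.smul_sum]
      refine Fintype.sum_bijective (fun x => g • x) (MulAction.bijective g) _ _ fun x => ?_
      rw [smul_smul]
      refine hout _ _ ?_
      have e1 : ((Quotient.out (g • x) : G) : G ⧸ G') = g • x := Quotient.out_eq' _
      have e2 : ((Quotient.out x : G) : G ⧸ G') = x := Quotient.out_eq' _
      rw [e1]
      calc ((g * Quotient.out x : G) : G ⧸ G') = g • ((Quotient.out x : G) : G ⧸ G') := rfl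
        _ = g • x := by rw [e2])
    refine ⟨a, ?_⟩
    have e3 : algebraMap R (B ⧸ p) a = Ideal.Quotient.mk p (algebraMap R B a) := rfl
    rw [e3, ha, map_sum, ← Finset.add_sum_erase _ _ (Finset.mem_univ ((1 : G) : G ⧸ G'))]
    have e4 : (Quotient.out ((1 : G) : G ⧸ G')) • c = c := by
      rw [hout _ 1 (Quotient.out_eq' _), one_smul]
    rw [e4, Finset.sum_eq_zero, add_zero]
    intro x hx
    rw [Ideal.Quotient.eq_zero_iff_mem]
    refine hcJ _ fun hx' => ?_
    refine Finset.ne_of_mem_erase hx ?_
    have e5 : ((Quotient.out x : G) : G ⧸ G') = x := Quotient.out_eq' _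
    rw [← e5, QuotientGroup.eq, mul_one]
    exact G'.inv_mem hx'
  obtain ⟨a0, ha0⟩ := key 1 (fun g _ => by rw [smul_one, sub_self]; exact p.zero_mem)
  rw [mul_one] at ha0
  refine ⟨U, a0, ?_, ha0.symm, fun b hb => ?_⟩
  · rintro rfl
    rw [map_zero] at ha0
    exact hU2 (Ideal.Quotient.eq_zero_iff_mem.1 ha0.symm)
  · obtain ⟨a, ha⟩ := key b hb
    exact ⟨a, by rw [ha, ha0, map_mul]⟩

/-- integrally closed base -/
theorem QComp_int [IsDomain R] [IsIntegrallyClosed R] {B' : Type} [CommRing B'] [IsDomain B']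
    [Algebra R B'] (hinj : Function.Injective (algebraMap R B')) (z : B') (hz : IsIntegral R z)
    (a0 a : R) (ha0 : a0 ≠ 0) (ha : algebraMap R B' a = algebraMap R B' a0 * z) :
    ∃ c : R, algebraMap R B' c = z := by
  haveI : FaithfulSMul R B' := (faithfulSMul_iff_algebraMap_injective R B').2 hinj
  have hinj' : Function.Injective (algebraMap R (FractionRing B')) := by
    rw [IsScalarTower.algebraMap_eq R B' (FractionRing B')]
    exact (IsFractionRing.injective B' (FractionRing B')).comp hinj
  haveI : FaithfulSMul R (FractionRing B') :=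
    (faithfulSMul_iff_algebraMap_injective R (FractionRing B')).2 hinj'
  letI := FractionRing.liftAlgebra R (FractionRing B')
  haveI := FractionRing.isScalarTower_liftAlgebra R (FractionRing B')
  have h0 : algebraMap R B' a0 ≠ 0 := by
    intro h; exact ha0 (hinj (by rw [h, map_zero]))
  have h0' : algebraMap R (FractionRing R) a0 ≠ 0 := by
    intro h; exact ha0 (IsFractionRing.injective R (FractionRing R) (by rw [h, map_zero]))
  set w : FractionRing R := algebraMap R (FractionRing R) a / algebraMap R (FractionRing R) a0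
    with hw
  have hwz : algebraMap (FractionRing R) (FractionRing B') w = algebraMap B' (FractionRing B') z := by
    rw [hw, map_div₀, ← IsScalarTower.algebraMap_apply R (FractionRing R) (FractionRing B'),
      ← IsScalarTower.algebraMap_apply R (FractionRing R) (FractionRing B'),
      IsScalarTower.algebraMap_apply R B' (FractionRing B') a,
      IsScalarTower.algebraMap_apply R B' (FractionRing B') a0, ha, map_mul]
    have h2 : algebraMap B' (FractionRing B') (algebraMap R B' a0) ≠ 0 := by
      intro h; exact h0 (IsFractionRing.injective B' (FractionRing B') (by rw [h, map_zero]))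
    field_simp
  have hzi : IsIntegral R (algebraMap B' (FractionRing B') z) := hz.algebraMap
  rw [← hwz, isIntegral_algebraMap_iff (algebraMap (FractionRing R) (FractionRing B')).injective]
    at hzi
  obtain ⟨c, hc⟩ := IsIntegrallyClosed.isIntegral_iff.1 hzi
  refine ⟨c, ?_⟩
  apply IsFractionRing.injective B' (FractionRing B')
  rw [← hwz, ← hc, ← IsScalarTower.algebraMap_apply R (FractionRing R) (FractionRing B'),
    IsScalarTower.algebraMap_apply R B' (FractionRing B')]

theorem QComp_last (h : GalAlg R G B) {p : Ideal B} (hpp : p.IsPrime)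
    (hp : ∀ a : R, algebraMap R B a ∈ p → a = 0) (N : Subgroup G) (hN : N.Normal)
    (hdom : ∀ b b' : B, (∀ n ∈ N, n • b = b) → (∀ n ∈ N, n • b' = b') →
      b * b' = 0 → b = 0 ∨ b' = 0) : N ⊔ QComp_st G p = ⊤ := by
  classical
  have := Fintype.ofFinite G
  have := Fintype.ofFinite N
  -- invariant elements of `p` are zero
  have hz : ∀ b ∈ p, (∀ n ∈ N, n • b = b) → b = 0 := by
    intro b hb hbN
    obtain ⟨a, ha⟩ := h.inv (∏ g : G, g • b) (by
      intro g
      rw [Finset.smul_prod']
      refine Fintype.prod_bijective (fun x => g * x) (Group.mulLeft_bijective g) _ _ fun x => ?_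
      rw [smul_smul])
    have h1 : algebraMap R B a ∈ p := by
      rw [ha, ← Finset.mul_prod_erase _ _ (Finset.mem_univ (1 : G)), one_smul]
      exact p.mul_mem_right _ hb
    have h2 : ∏ g : G, g • b = 0 := by rw [← ha, hp a h1, map_zero]
    have hinv : ∀ g : G, ∀ n ∈ N, n • (g • b) = g • b := by
      intro g n hn
      have h3 : g⁻¹ * n * g ∈ N := by
        have := hN.conj_mem n hn g⁻¹
        rwa [inv_inv] at this
      calc n • g • b = g • ((g⁻¹ * n * g) • b) := by
            rw [smul_smul, smul_smul]; congr 1; group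
        _ = g • b := by rw [hbN _ h3]
    have h3 : ∀ s : Finset G, ∏ g ∈ s, g • b = 0 → b = 0 := by
      intro s
      induction s using Finset.induction_on with
      | empty =>
        intro h4
        rw [Finset.prod_empty] at h4
        exact absurd (h4 ▸ p.zero_mem : (1 : B) ∈ p) ((Ideal.ne_top_iff_one p).1 hpp.ne_top)
      | insert g s hg ih =>
        intro h4
        rw [Finset.prod_insert hg] at h4
        rcases hdom _ _ (hinv g) (by
          intro n hn
          rw [Finset.smul_prod']
          exact Finset.prod_congr rfl fun g' _ => hinv g' n hn) h4 with h5 | h5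
        · have := congrArg (fun z => g⁻¹ • z) h5
          simpa using this
        · exact ih h5
    exact h3 _ h2
  rw [eq_top_iff]
  rintro g -
  by_contra hg
  have h1 : ∀ n : N, ((n : G)⁻¹ * g) ∉ QComp_st G p := by
    intro n hn
    apply hg
    have h2 := (N ⊔ QComp_st G p).mul_mem (Subgroup.mem_sup_left n.2) (Subgroup.mem_sup_right hn)
    rwa [mul_inv_cancel_left] at h2
  obtain ⟨v, hv1, hv2⟩ := QComp_prod hpp (fun n : N => (n : G)⁻¹ * g) h1
  set u := g • v with hu
  have hu1 : ∀ n : N, n • u ∈ p := by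
    intro n
    have h3 := hv1 n⁻¹
    simp only [Subgroup.coe_inv, inv_inv] at h3
    rwa [mul_smul] at h3
  have hF : MulSemiringAction.charpoly N u = X ^ Fintype.card N := by
    have h2 : ∀ k, (MulSemiringAction.charpoly N u).coeff k - (X ^ Fintype.card N : B[X]).coeff k
        = 0 := by
      intro k
      refine hz _ ?_ ?_
      · rw [← Ideal.Quotient.eq_zero_iff_mem, map_sub, ← coeff_map, ← coeff_map,
          MulSemiringAction.charpoly_eq, Polynomial.map_prod]
        have h3 : ∀ n : N, ((X - C (n • u) : B[X]).map (Ideal.Quotient.mk p)) = X := by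
          intro n
          rw [Polynomial.map_sub, map_X, map_C, Ideal.Quotient.eq_zero_iff_mem.2 (hu1 n), C_0,
            sub_zero]
        rw [Finset.prod_congr rfl fun n _ => h3 n, Finset.prod_const, Polynomial.map_pow, map_X,
          Finset.card_univ, sub_self]
      · intro n hn
        have h4 := MulSemiringAction.smul_coeff_charpoly (G := N) u k ⟨n, hn⟩
        have h5 : n • (MulSemiringAction.charpoly N u).coeff k =
            (MulSemiringAction.charpoly N u).coeff k := h4
        rw [smul_sub, h5, coeff_X_pow]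
        split_ifs
        · rw [smul_one]
        · rw [smul_zero]
    ext k
    exact sub_eq_zero.1 (h2 k)
  have h6 := MulSemiringAction.eval_charpoly N u
  rw [hF, eval_pow, eval_X] at h6
  apply hv2
  have h7 : v ^ Fintype.card N = 0 := by
    have h8 := congrArg (fun z => g⁻¹ • z) h6
    simp only [smul_pow', smul_zero, hu, inv_smul_smul] at h8
    exact h8
  exact hpp.mem_of_pow_mem _ (h7 ▸ p.zero_mem)

end

theorem prf_QComp : QComp := by
  intro κ _ G _ _ B _ _ _ E _ _ ι P act hGal hinj hact
  classical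
  have hpp : (RingHom.ker ι).IsPrime := RingHom.ker_isPrime ι
  set p := RingHom.ker ι with hpdef
  have hp : ∀ a : κ[X], algebraMap κ[X] B a ∈ p → a = 0 := by
    intro a ha
    rw [hpdef, RingHom.mem_ker] at ha
    apply hinj
    simp only [ha, map_zero]
  letI act' : MulSemiringAction (QComp_st G p) (B ⧸ p) := QComp_act p
  have hqact : ∀ (g : QComp_st G p) (b : B), Ideal.Quotient.mk p ((g : G) • b) =
      g • Ideal.Quotient.mk p b := fun g b => rfl
  have hinj' : Function.Injective (algebraMap κ[X] (B ⧸ p)) := by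
    rw [injective_iff_map_eq_zero]
    intro a ha
    exact hp a (Ideal.Quotient.eq_zero_iff_mem.1 ha)
  refine ⟨QComp_st G p, B ⧸ p, inferInstance, inferInstance, act', Ideal.Quotient.mk p,
    RingHom.kerLift ι, ?_, ?_, inferInstance, Ideal.Quotient.mk_surjective, fun f => rfl, hqact,
    fun b => rfl, RingHom.kerLift_injective ι, ?_⟩
  · intro g hg b
    rw [hpdef, RingHom.mem_ker, RingHom.mem_ker, hact ⟨g, hg⟩ b]
    exact (map_eq_zero_iff _ (act ⟨g, hg⟩).injective).symm
  · refine ⟨?_, hinj', ?_, ?_⟩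
    · intro g a
      have h1 : algebraMap κ[X] (B ⧸ p) a = Ideal.Quotient.mk p (algebraMap κ[X] B a) := rfl
      rw [h1, ← hqact, hGal.comm]
    · intro z hz
      obtain ⟨b, rfl⟩ := Ideal.Quotient.mk_surjective z
      obtain ⟨U, a0, h1, h2, h3⟩ := QComp_frac hGal hpp hp
      obtain ⟨a, ha⟩ := h3 b (fun g hg => by
        rw [← Ideal.Quotient.eq_zero_iff_mem, map_sub]
        have := hz ⟨g, hg⟩
        rw [← hqact] at this
        rw [sub_eq_zero]
        exact this)
      haveI := gal_finite hGal
      haveI : Algebra.IsIntegral κ[X] B := Algebra.IsIntegral.of_finite κ[X] B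
      have hint : IsIntegral κ[X] (Ideal.Quotient.mk p b) := by
        have h4 : IsIntegral κ[X] b := Algebra.IsIntegral.isIntegral b
        exact h4.map (Ideal.Quotient.mkₐ κ[X] p)
      exact QComp_int hinj' _ hint a0 a h1 ha
    · intro σ hσ
      have hσ' : (σ : G) ≠ 1 := fun h => hσ (Subtype.ext h)
      have h1 := congrArg (Ideal.map (Ideal.Quotient.mk p)) (hGal.unr (σ : G) hσ')
      rw [Ideal.map_span, Ideal.map_top] at h1
      rw [eq_top_iff, ← h1]
      refine Ideal.span_mono ?_
      rintro _ ⟨x, ⟨b, rfl⟩, rfl⟩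
      exact ⟨Ideal.Quotient.mk p b, by rw [map_sub, hqact]⟩
  · intro N hN hdom
    exact QComp_last hGal hpp hp N hN hdom

end MP7b0bad

end

section

set_option autoImplicit false

namespace MP7b0bad

open Polynomial

/-- linear independence over `R` at one point; `Q` need not be a domain -/
theorem QD3_indep {P B R Q L I : Type} [CommRing P] [CommRing B] [Algebra P B] [CommRing R]
    [IsDomain R] [CommRing Q] [CommRing L] [IsDomain L] [Fintype I]
    (β : Module.Basis I P B) (τ : P →+* R) (φ : R →+* Q) (ι : B →+* Q) (φ' : R →+* L)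
    (ι' : B →+* L) (hφ : Function.Injective φ)
    (h : ∀ a, ι (algebraMap P B a) = φ (τ a)) (h' : ∀ a, ι' (algebraMap P B a) = φ' (τ a))
    (hinj : ∀ r : I → R, ∑ l, φ' (r l) * ι' (β l) = 0 → r = 0)
    (r : I → R) (hr : ∑ l, φ (r l) * ι (β l) = 0) : r = 0 := by
  classical
  set m : Matrix I I R := fun s q => ∑ l, r l * τ (β.repr (β l * β q) s) with hm
  have h1 : m.det = 0 := by
    have h2 : (m.map φ).transpose.mulVec (fun s => ι (β s)) = 0 := by
      funext q
      have := D3_mul β τ φ ι h r q
      rw [hr, zero_mul] at this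
      rw [Matrix.mulVec, dotProduct, Pi.zero_apply, this]
      rfl
    have h3 : ∀ s, φ m.det * ι (β s) = 0 := by
      intro s
      have h4 := congrArg (fun v => (m.map φ).transpose.adjugate.mulVec v) h2
      simp only [Matrix.mulVec_mulVec, Matrix.adjugate_mul, Matrix.mulVec_zero,
        Matrix.smul_mulVec, Matrix.one_mulVec] at h4
      have h5 := congrFun h4 s
      rw [Pi.smul_apply, smul_eq_mul, Pi.zero_apply, Matrix.det_transpose] at h5
      rw [RingHom.map_det]
      exact h5
    have h6 : φ m.det = 0 := by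
      have h7 : φ m.det * ι 1 = 0 := by
        rw [← β.sum_repr 1, map_sum, Finset.mul_sum]
        refine Finset.sum_eq_zero fun s _ => ?_
        rw [Algebra.smul_def, map_mul, mul_left_comm, h3, mul_zero]
      rwa [map_one, mul_one] at h7
    rwa [map_eq_zero_iff φ hφ] at h6
  obtain ⟨v, hv0, hv⟩ := Matrix.exists_mulVec_eq_zero_iff.2 h1
  have h4 : (∑ l, φ' (r l) * ι' (β l)) * (∑ q, φ' (v q) * ι' (β q)) = 0 := by
    rw [Finset.mul_sum]
    have h5 : ∀ q, (∑ l, φ' (r l) * ι' (β l)) * (φ' (v q) * ι' (β q)) =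
        ∑ s, φ' (m s q * v q) * ι' (β s) := by
      intro q
      have := D3_mul β τ φ' ι' h' r q
      have e : (∑ l, φ' (r l) * ι' (β l)) * (φ' (v q) * ι' (β q)) =
          φ' (v q) * ((∑ l, φ' (r l) * ι' (β l)) * ι' (β q)) := by ring
      rw [e, this, Finset.mul_sum]
      refine Finset.sum_congr rfl fun s _ => ?_
      rw [map_mul]
      ring
    simp only [h5]
    rw [Finset.sum_comm]
    refine Finset.sum_eq_zero fun s _ => ?_
    rw [← Finset.sum_mul, ← map_sum]
    have : ∑ q, m s q * v q = 0 := congrFun hv s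
    rw [this, map_zero, zero_mul]
  rcases mul_eq_zero.1 h4 with h6 | h6
  · exact hinj r h6
  · exact absurd (hinj v h6) hv0

theorem prf_QD3 (_ : QB1) (hQP2 : QP2) : QD3 := by
  classical
  intro k _ H P' _ _ _ _ π Q _ _ _ c hQ u hu
  obtain ⟨n, r, b, hr, hb⟩ := (hQP2 k H P' π Q c u).1.1 hu
  constructor
  · rintro ⟨γ₀, hγ₀⟩
    obtain ⟨χ, hχ⟩ := prf_A3 k
    have := c.dom
    have := gal_finite c.gal
    have htf : Module.IsTorsionFree k[X] c.B :=
      Module.isTorsionFree_iff_algebraMap_injective.2 c.gal.inj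
    have hfree : Module.Free k[X] c.B := Module.free_of_finite_type_torsion_free'
    let β := Module.Free.chooseBasis k[X] c.B
    let g : c.B ≃ₗ[k[X]] c.B :=
      { toFun := fun x => γ₀⁻¹ • x
        invFun := fun x => γ₀ • x
        left_inv := fun x => by simp
        right_inv := fun x => by simp
        map_add' := fun x y => smul_add _ _ _
        map_smul' := fun a x => by
          rw [Algebra.smul_def, smul_mul', c.gal.comm, RingHom.id_apply, Algebra.smul_def] }
    let β' := β.map g
    have hβ' : ∀ l, β' l = γ₀⁻¹ • β l := fun l => by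
      simp only [β', Module.Basis.map_apply]
      rfl
    let τ : k[X] →+* Rr k := (toX k).codRestrict (Rr k) (D3_toX_mem k)
    have hτ : ∀ a, ((τ a : Rr k) : Fk k) = toX k a := fun a => rfl
    -- the coordinates
    have key : ∀ γ : H, u γ = ∑ l, algebraMap (Fk k) Q
        ((∑ m, (⟨r m, hr m⟩ : Rr k) * τ (β.repr (b m) l) : Rr k) : Fk k) * c.ι (γ⁻¹ • β l) := by
      intro γ
      rw [hb]
      have h1 : ∀ m, c.ι (γ⁻¹ • b m) =
          ∑ l, algebraMap (Fk k) Q (toX k (β.repr (b m) l)) * c.ι (γ⁻¹ • β l) := by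
        intro m
        conv_lhs => rw [← β.sum_repr (b m)]
        rw [Finset.smul_sum, map_sum]
        refine Finset.sum_congr rfl fun l _ => ?_
        rw [Algebra.smul_def, smul_mul', c.gal.comm, map_mul, c.ι_alg]
      have h2 : ∀ l, algebraMap (Fk k) Q
          ((∑ m, (⟨r m, hr m⟩ : Rr k) * τ (β.repr (b m) l) : Rr k) : Fk k) * c.ι (γ⁻¹ • β l)
          = ∑ m, algebraMap (Fk k) Q (r m) *
            (algebraMap (Fk k) Q (toX k (β.repr (b m) l)) * c.ι (γ⁻¹ • β l)) := by
        intro l
        have e : ((∑ m, (⟨r m, hr m⟩ : Rr k) * τ (β.repr (b m) l) : Rr k) : Fk k)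
            = ∑ m, r m * toX k (β.repr (b m) l) := by
          rw [AddSubmonoidClass.coe_finsetSum]
          rfl
        rw [e, map_sum, Finset.sum_mul]
        refine Finset.sum_congr rfl fun m _ => ?_
        rw [map_mul, mul_assoc]
      simp only [h1, h2]
      rw [Finset.sum_comm]
      refine Finset.sum_congr rfl fun m _ => ?_
      rw [Finset.mul_sum]
    have hz := key γ₀
    rw [hγ₀] at hz
    have hzero := QD3_indep (I := Module.Free.ChooseBasisIndex k[X] c.B) β' τ
      ((algebraMap (Fk k) Q).comp (Rr k).subtype) c.ι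
      ((D3_map (algebraMap k[X] c.B)).comp χ) (HahnSeries.C : c.B →+* LaurentSeries c.B)
      (by
        intro x y hxy
        apply Subtype.ext
        exact hQ.inj hxy)
      (fun a => c.ι_alg a)
      (fun a => by
        rw [RingHom.comp_apply, D3_chi χ hχ]
        ext n
        rw [D3_map_coeff, D3_coeff_C, D3_coeff_C]
        split_ifs <;> simp)
      (by
        intro r hr
        funext l
        apply D3_chi_inj χ hχ
        refine HahnSeries.ext (funext fun n => ?_)
        have h1 : ∑ l, (χ (r l)).coeff n • β' l = 0 := by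
          have h2 := congrArg (fun f : LaurentSeries c.B => f.coeff n) hr
          simp only [HahnSeries.coeff_sum, HahnSeries.coeff_zero] at h2
          rw [← h2]
          refine Finset.sum_congr rfl fun l _ => ?_
          rw [mul_comm, HahnSeries.C_mul_eq_smul, HahnSeries.coeff_smul, RingHom.comp_apply,
            D3_map_coeff, Algebra.smul_def, smul_eq_mul, mul_comm]
        have h3 := Fintype.linearIndependent_iff.1 β'.linearIndependent _ h1 l
        rw [h3]
        simp)
      (fun l => ∑ m, (⟨r m, hr m⟩ : Rr k) * τ (β.repr (b m) l))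
      (by
        rw [hz]
        refine Finset.sum_congr rfl fun l _ => ?_
        rw [hβ']
        rfl)
    funext γ
    rw [key γ]
    refine Finset.sum_eq_zero fun l _ => ?_
    have := congrFun hzero l
    simp only [Pi.zero_apply] at this
    rw [this]
    simp
  · intro hinv
    have := Fintype.ofFinite H
    obtain ⟨θ, hθ⟩ := gal_trace_one c.gal
    choose f hf using fun m => gal_trace c.gal (θ * b m)
    refine ⟨∑ m, r m * toX k (f m), (Rr k).sum_mem fun m _ =>
      (Rr k).mul_mem (hr m) (D3_toX_mem k _), fun γ => ?_⟩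
    rw [hinv γ]
    have h1 : ∑ δ : H, c.ι (δ⁻¹ • θ) = 1 := by
      rw [← map_sum, ← map_one c.ι, ← hθ]
      congr 1
      exact Fintype.sum_bijective (fun x => x⁻¹) (inv_involutive.bijective) _ _ fun x => rfl
    calc u 1 = ∑ δ : H, c.ι (δ⁻¹ • θ) * u δ := by
          rw [← one_mul (u 1), ← h1, Finset.sum_mul]
          exact Finset.sum_congr rfl fun δ _ => by rw [hinv δ]
      _ = ∑ δ : H, ∑ m, algebraMap (Fk k) Q (r m) * c.ι (δ⁻¹ • (θ * b m)) := by
          refine Finset.sum_congr rfl fun δ _ => ?_
          rw [hb, Finset.mul_sum]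
          refine Finset.sum_congr rfl fun m _ => ?_
          rw [smul_mul', map_mul]
          ring
      _ = ∑ m, algebraMap (Fk k) Q (r m) * algebraMap (Fk k) Q (toX k (f m)) := by
          rw [Finset.sum_comm]
          refine Finset.sum_congr rfl fun m _ => ?_
          rw [← Finset.mul_sum, ← c.ι_alg, hf, ← map_sum]
          congr 2
          exact Fintype.sum_bijective (fun x => x⁻¹) (inv_involutive.bijective) _ _ fun x => rfl
      _ = _ := by
          rw [map_sum]
          exact Finset.sum_congr rfl fun m _ => by rw [map_mul]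

end MP7b0bad

end

section

set_option autoImplicit false

namespace MP7b0bad

open Polynomial

theorem QDF_ofPS {A : Type} [CommRing A] (d : LaurentSeries A) (h : ∀ n : ℤ, n < 0 → d.coeff n = 0) :
    HahnSeries.ofPowerSeries ℤ A (PowerSeries.mk fun n : ℕ => d.coeff n) = d := by
  refine HahnSeries.ext (funext fun n => ?_)
  change ((PowerSeries.mk fun n : ℕ => d.coeff n : PowerSeries A) : LaurentSeries A).coeff n =
    d.coeff n
  rw [PowerSeries.coeff_coe]
  split_ifs with h1
  · exact (h n h1).symm
  · rw [PowerSeries.coeff_mk]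
    congr 1
    omega

theorem QDF_wL_C (k : Type) [Field k] (c : k) : wL k (C c) = HahnSeries.C c := by
  unfold wL
  rw [coe_eval₂RingHom, eval₂_C]

theorem QDF_wL_X (k : Type) [Field k] : wL k X = HahnSeries.single (1 : ℤ) (1 : k) := by
  unfold wL
  rw [coe_eval₂RingHom, eval₂_X]

theorem QDF_wL (k : Type) [Field k] (f : k[X]) :
    wL k f = HahnSeries.ofPowerSeries ℤ k (f : PowerSeries k) := by
  have h : wL k = (HahnSeries.ofPowerSeries ℤ k).comp Polynomial.coeToPowerSeries.ringHom := by
    refine Polynomial.ringHom_ext (fun c => ?_) ?_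
    · rw [QDF_wL_C, RingHom.comp_apply, Polynomial.coeToPowerSeries.ringHom_apply,
        Polynomial.coe_C, HahnSeries.ofPowerSeries_C]
    · rw [QDF_wL_X, RingHom.comp_apply, Polynomial.coeToPowerSeries.ringHom_apply,
        Polynomial.coe_X, HahnSeries.ofPowerSeries_X]
  rw [h]
  rfl

theorem QDF_mem (k : Type) [Field k] (a : KW k) : WF k a ∈ Rr k := by
  intro j i hi
  change (wL k (a.coeff j)).coeff i = 0
  rw [QDF_wL]
  change (((a.coeff j : k[X]) : PowerSeries k) : LaurentSeries k).coeff i = 0
  rw [PowerSeries.coeff_coe, if_pos hi]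

theorem QDF_WF_single (k : Type) [Field k] (m : ℤ) (c : k[X]) :
    WF k (HahnSeries.single m c) = HahnSeries.single m (wL k c) := by
  refine HahnSeries.ext (funext fun n => ?_)
  change wL k ((HahnSeries.single m c).coeff n) = (HahnSeries.single m (wL k c)).coeff n
  rw [HahnSeries.coeff_single, HahnSeries.coeff_single]
  split_ifs
  · rfl
  · exact map_zero _

theorem QDF_WF_comp (k : Type) [Field k] : (WF k).comp (KKW k) = KF k := by
  refine RingHom.ext fun b => ?_
  refine HahnSeries.ext (funext fun n => ?_)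
  change wL k (C (b.coeff n)) = HahnSeries.C (b.coeff n)
  exact QDF_wL_C k _

theorem QDF_Tt_inv (k : Type) [Field k] :
    (Tt k)⁻¹ = HahnSeries.single (-1 : ℤ) (1 : LaurentSeries k) := by
  refine inv_eq_of_mul_eq_one_right ?_
  unfold Tt
  rw [HahnSeries.single_mul_single]
  norm_num

theorem prf_QDF : QDF := by
  intro k _ N W a η h
  have h2 : ∀ i (f : (LaurentSeries k)[X]),
      WF k (f.eval₂ (KKW k) (η i)) = f.eval₂ (KF k) (WF k (η i)) := by
    intro i f
    rw [hom_eval₂, QDF_WF_comp]
  have hunit : ∀ i j, i ≠ j → ∃ v : KW k, (η i - η j) * v = 1 := by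
    intro i j hij
    have h0 : ∀ n : ℤ, n < 0 → (η i - η j).coeff n = 0 := by
      intro n hn
      rw [HahnSeries.coeff_sub, h.neg i n hn, h.neg j n hn, sub_zero]
    have h3 := QDF_ofPS (η i - η j) h0
    have h4 : IsUnit (PowerSeries.mk fun n : ℕ => (η i - η j).coeff n) := by
      rw [PowerSeries.isUnit_iff_constantCoeff, ← PowerSeries.coeff_zero_eq_constantCoeff_apply,
        PowerSeries.coeff_mk]
      have h5 : (η i - η j).coeff ((0 : ℕ) : ℤ) = C (a i - a j) := by
        rw [Nat.cast_zero, HahnSeries.coeff_sub, h.zero, h.zero, map_sub]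
      rw [h5]
      exact (IsUnit.mk0 _ (sub_ne_zero.2 fun h6 => hij (h.inj h6))).map C
    obtain ⟨v, hv⟩ := h4.exists_right_inv
    refine ⟨HahnSeries.ofPowerSeries ℤ k[X] v, ?_⟩
    rw [← h3, ← map_mul, hv, map_one]
  have hmul : ∀ i j, i ≠ j → ∃ v : KW k, (WF k (η i) - WF k (η j)) * WF k v = 1 := by
    intro i j hij
    obtain ⟨v, hv⟩ := hunit i j hij
    exact ⟨v, by rw [← map_sub, ← map_mul, hv, map_one]⟩
  refine ⟨⟨?_, ?_, ?_, ?_, ?_⟩, h2, ?_⟩
  · unfold VT
    rw [natDegree_C_mul (by
      intro h0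
      have := congrArg (fun z : LaurentSeries k => z.coeff (-1)) h0
      simp at this), natDegree_map, h.deg]
  · exact fun i => QDF_mem k _
  · intro i
    rw [← h2, h.root]
    unfold Ww
    rw [HahnSeries.C_apply, QDF_WF_single, QDF_wL_X, HahnSeries.C_apply]
  · intro i j hij h0
    obtain ⟨v, hv⟩ := hmul i j hij
    rw [h0, zero_mul] at hv
    exact zero_ne_one hv
  · intro i j hij
    obtain ⟨v, hv⟩ := hmul i j hij
    rw [inv_eq_of_mul_eq_one_right hv]
    exact QDF_mem k _
  · intro f
    unfold toXW toX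
    rw [coe_eval₂RingHom, coe_eval₂RingHom, hom_eval₂]
    have h5 : WF k (XW k) = XX k := by
      unfold XW XX Ww
      rw [QDF_WF_single, QDF_wL_X, QDF_Tt_inv, HahnSeries.C_apply, HahnSeries.single_mul_single]
      simp
    have h6 : (WF k).comp ((HahnSeries.C : k[X] →+* KW k).comp (Polynomial.C : k →+* k[X])) =
        kF k := by
      refine RingHom.ext fun c => ?_
      rw [RingHom.comp_apply, RingHom.comp_apply, HahnSeries.C_apply, QDF_WF_single, QDF_wL_C]
      rfl
    rw [h5, h6]

end MP7b0bad

end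

section

set_option autoImplicit false

namespace MP7b0bad

open Polynomial

/-- a polynomial in `1/ξ` with the prescribed coefficients at `n ≤ 0` -/
theorem QDenk_poly (k : Type) [Field k] (u : LaurentSeries k) :
    ∃ f : k[X], ∀ n : ℤ, n ≤ 0 → (atInf k f).coeff n = u.coeff n := by
  obtain ⟨m, hm⟩ := E3_exists_ge u
  refine ⟨∑ i ∈ Finset.range ((-m).toNat + 1), Polynomial.monomial i (u.coeff (-(i : ℤ))),
    fun n hn => ?_⟩
  rw [E3_atInf_coeff, if_pos hn, finsetSum_coeff]
  simp only [coeff_monomial]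
  rw [Finset.sum_ite_eq']
  split_ifs with h
  · congr 1
    omega
  · rw [Finset.mem_range, not_lt] at h
    exact (hm n (by omega)).symm

/-- density at infinity over `k` -/
theorem prf_QDenk (hQSm0 : QSm0) : QDenk := by
  intro k _ p _ _ u D
  obtain ⟨f, hf⟩ := QDenk_poly k (u 0)
  obtain ⟨h, _, h2⟩ := hQSm0 k p (u 0 - atInf k f) (fun n hn => by
    rw [HahnSeries.coeff_sub, hf n hn, sub_self])
  refine ⟨f, fun _ => h, fun i => ?_, fun h => h.elim⟩
  have hi : i = 0 := Subsingleton.elim _ _
  subst hi
  rw [← h2]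
  ring

end MP7b0bad

end

section

set_option autoImplicit false

namespace MP7b0bad

open Polynomial

/-- `k[[s]] → k[w]((T))`, `s ↦ w T` -/
noncomputable def QDiscs_emb (k : Type) [Field k] : PowerSeries k →+* KW k :=
  (HahnSeries.ofPowerSeries ℤ k[X]).comp
    ((PowerSeries.rescale (X : k[X])).comp (PowerSeries.map (Polynomial.C : k →+* k[X])))

theorem QDiscs_emb_C (k : Type) [Field k] (c : k) :
    QDiscs_emb k (PowerSeries.C c) = HahnSeries.C (Polynomial.C c : k[X]) := by
  have h1 : PowerSeries.rescale (X : k[X]) (PowerSeries.C (Polynomial.C c)) =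
      PowerSeries.C (Polynomial.C c) := by
    ext n : 1
    rw [PowerSeries.coeff_rescale, PowerSeries.coeff_C]
    split_ifs with h
    · subst h; simp
    · simp
  unfold QDiscs_emb
  rw [RingHom.comp_apply, RingHom.comp_apply, PowerSeries.map_C, h1, HahnSeries.ofPowerSeries_C]

theorem QDiscs_emb_X (k : Type) [Field k] :
    QDiscs_emb k PowerSeries.X = HahnSeries.C (X : k[X]) * HahnSeries.single (1 : ℤ) (1 : k[X]) := by
  unfold QDiscs_emb
  rw [RingHom.comp_apply, RingHom.comp_apply, PowerSeries.map_X, PowerSeries.rescale_X, map_mul,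
    HahnSeries.ofPowerSeries_C, HahnSeries.ofPowerSeries_X]

theorem prf_QDiscs : QDiscs := by
  intro k _ _ N
  have : Infinite k := IsAlgClosed.instInfinite
  obtain ⟨a, ha⟩ : ∃ a : Fin N → k, Function.Injective a :=
    ⟨fun i => Infinite.natEmbedding k i.val, fun i j h => by
      have := (Infinite.natEmbedding k).injective h
      exact Fin.ext this⟩
  choose x hx1 hx2 using C1_hensel k N a ha
  refine ⟨∏ i, (X - C (a i)), a, fun i => QDiscs_emb k (x i), ha, ?_, ?_, ?_, ?_, ?_⟩
  · exact monic_prod_of_monic _ _ fun i _ => monic_X_sub_C _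
  · rw [natDegree_prod_of_monic _ _ fun i _ => monic_X_sub_C _]
    simp
  · intro i
    have h1 : (∏ i, (X - C (a i))).eval₂ ((KKW k).comp (HahnSeries.C : k →+* LaurentSeries k))
        (QDiscs_emb k (x i)) =
        HahnSeries.C (X : k[X]) * HahnSeries.single (1 : ℤ) (1 : k[X]) := by
      rw [← QDiscs_emb_X, ← hx1 i, hom_eval₂]
      congr 1
      refine RingHom.ext fun c => ?_
      rw [RingHom.comp_apply, RingHom.comp_apply, QDiscs_emb_C]
      change HahnSeries.map (HahnSeries.single (0 : ℤ) c) (Polynomial.C : k →+* k[X]) =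
        HahnSeries.single (0 : ℤ) (Polynomial.C c : k[X])
      refine HahnSeries.ext (funext fun n => ?_)
      rw [HahnSeries.map_coeff, HahnSeries.coeff_single, HahnSeries.coeff_single]
      split_ifs
      · rfl
      · exact map_zero _
    have h2 : KKW k (HahnSeries.single (-1 : ℤ) (1 : k)) =
        HahnSeries.single (-1 : ℤ) (1 : k[X]) := by
      change HahnSeries.map (HahnSeries.single (-1 : ℤ) (1 : k)) (Polynomial.C : k →+* k[X]) = _
      refine HahnSeries.ext (funext fun n => ?_)
      rw [HahnSeries.map_coeff, HahnSeries.coeff_single, HahnSeries.coeff_single]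
      split_ifs
      · exact map_one _
      · exact map_zero _
    unfold VT
    rw [eval₂_mul, eval₂_C, eval₂_map, h1, h2, mul_left_comm, HahnSeries.single_mul_single]
    simp
  · intro i n hn
    change ((PowerSeries.rescale (X : k[X]) (PowerSeries.map (Polynomial.C : k →+* k[X]) (x i)) :
      PowerSeries k[X]) : LaurentSeries k[X]).coeff n = 0
    rw [PowerSeries.coeff_coe, if_pos hn]
  · intro i
    change ((PowerSeries.rescale (X : k[X]) (PowerSeries.map (Polynomial.C : k →+* k[X]) (x i)) :
      PowerSeries k[X]) : LaurentSeries k[X]).coeff 0 = _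
    rw [PowerSeries.coeff_coe, if_neg (by norm_num), PowerSeries.coeff_rescale,
      PowerSeries.coeff_map]
    have h3 := hx2 i
    rw [← PowerSeries.coeff_zero_eq_constantCoeff_apply] at h3
    simp [h3]

end MP7b0bad

end

section

set_option autoImplicit false

namespace MP7b0bad

open Polynomial

theorem QEL_nu {P Pb : Type} [Group P] [Group Pb] (p : ℕ) (q : P →* Pb) (z : P)
    (hq : Function.Surjective q) (hzo : orderOf z = p)
    (hker : q.ker = Subgroup.zpowers z) : ∃ (nu : P → ZMod p) (s : Pb → P),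
    (∀ g, nu (z * g) = nu g + 1) ∧ ∀ τ, q (s τ) = τ := by
  classical
  choose s hs using hq
  have h1 : ∀ g : P, ∃ j : ℤ, z ^ j = g * (s (q g))⁻¹ := by
    intro g
    have : g * (s (q g))⁻¹ ∈ q.ker := by
      rw [MonoidHom.mem_ker, map_mul, map_inv, hs, mul_inv_cancel]
    rw [hker] at this
    exact Subgroup.mem_zpowers_iff.1 this
  choose j hj using h1
  refine ⟨fun g => ((j g : ℤ) : ZMod p), s, fun g => ?_, hs⟩
  have hzk : q z = 1 := by
    rw [← MonoidHom.mem_ker, hker]
    exact Subgroup.mem_zpowers z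
  have h2 : z ^ (j (z * g)) = z ^ (j g + 1) := by
    rw [hj, map_mul, hzk, one_mul, add_comm, zpow_add, zpow_one, hj, mul_assoc]
  rw [zpow_eq_zpow_iff_modEq, hzo] at h2
  have h3 := (ZMod.intCast_eq_intCast_iff _ _ p).2 h2
  simpa using h3

theorem prf_QEL : QEL := by
  classical
  intro R _ p _ _ P Pb _ _ _ q z B _ _ _ hq hz hzo hker hB
  have : Finite Pb := Finite.of_surjective q hq
  have := Fintype.ofFinite Pb
  have := Fintype.ofFinite P
  have hcp : CharP B p := charP_of_injective_algebraMap hB.inj p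
  obtain ⟨nu, s, hnu, hs⟩ := QEL_nu p q z hq hzo hker
  obtain ⟨ϑ, hϑ⟩ := gal_trace_one hB
  have hzk : q z = 1 := by
    rw [← MonoidHom.mem_ker, hker]
    exact Subgroup.mem_zpowers z
  -- differences
  set D : P → P → ZMod p := fun g t => nu (g * t) - nu t with hD
  have hDz : ∀ g t, D g (z * t) = D g t := by
    intro g t
    have h1 : g * (z * t) = z * (g * t) := by
      rw [← mul_assoc, (Subgroup.mem_center_iff.1 hz g), mul_assoc]
    simp only [hD]
    rw [h1, hnu, hnu]
    ring
  have hDk : ∀ g t t', q t = q t' → D g t = D g t' := by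
    intro g t t' htt
    have h1 : t * t'⁻¹ ∈ Subgroup.zpowers z := by
      rw [← hker, MonoidHom.mem_ker, map_mul, map_inv, htt, mul_inv_cancel]
    rw [← mem_powers_iff_mem_zpowers] at h1
    have h2 : ∀ (n : ℕ) (t : P), D g (z ^ n * t) = D g t := by
      intro n
      induction n with
      | zero => intro t; rw [pow_zero, one_mul]
      | succ n ih => intro t; rw [pow_succ', mul_assoc, hDz, ih]
    obtain ⟨n, hn⟩ := h1
    have h3 := h2 n t'
    rw [show z ^ n = t * t'⁻¹ from hn] at h3
    rwa [inv_mul_cancel_right] at h3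
  have hDc : ∀ g h t, D (g * h) t = D g (h * t) + D h t := by
    intro g h t
    simp only [hD]
    rw [mul_assoc]
    ring
  set e : ZMod p →+* B := (algebraMap R B).comp (ZMod.castHom (dvd_refl p) R) with he
  have hef : ∀ (τ : Pb) (x : ZMod p), τ • e x = e x := fun τ x => hB.comm τ _
  set b : P → B := fun g => ∑ τ : Pb, e (D g (s τ)) * ((q g * τ) • ϑ) with hb
  have hcoc : ∀ g h : P, b (g * h) = b g + q g • b h := by
    intro g h
    simp only [hb]
    have h1 : ∀ τ : Pb, e (D (g * h) (s τ)) * ((q (g * h) * τ) • ϑ) =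
        e (D g (s (q h * τ))) * ((q g * (q h * τ)) • ϑ) +
          q g • (e (D h (s τ)) * ((q h * τ) • ϑ)) := by
      intro τ
      rw [hDc, map_add, add_mul, smul_mul', hef, smul_smul, map_mul, mul_assoc,
        hDk g (h * s τ) (s (q h * τ)) (by rw [map_mul, hs, hs])]
    rw [Finset.sum_congr rfl fun τ _ => h1 τ, Finset.sum_add_distrib, Finset.smul_sum]
    congr 1
    exact Fintype.sum_bijective (fun x => q h * x) (Group.mulLeft_bijective _) _ _ fun x => rfl
  have hbz : b z = 1 := by
    simp only [hb]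
    have h1 : ∀ τ : Pb, e (D z (s τ)) * ((q z * τ) • ϑ) = τ • ϑ := by
      intro τ
      simp only [hD]
      rw [hnu, hzk, one_mul, add_sub_cancel_left, map_one, one_mul]
    rw [Finset.sum_congr rfl fun τ _ => h1 τ, hϑ]
  set c : P → B := fun g => b g ^ p - b g with hc
  have hccoc : ∀ g h : P, c (g * h) = c g + q g • c h := by
    intro g h
    simp only [hc]
    rw [hcoc, add_pow_char, smul_sub, smul_pow']
    ring
  have hcz : c z = 0 := by simp only [hc]; rw [hbz, one_pow, sub_self]
  have hck : ∀ k ∈ Subgroup.zpowers z, c k = 0 := by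
    intro k hk
    rw [← mem_powers_iff_mem_zpowers] at hk
    obtain ⟨n, rfl⟩ := hk
    have h1 : c 1 = 0 := by
      have := hccoc 1 1
      rw [mul_one, map_one, one_smul] at this
      simpa using this
    show c (z ^ n) = 0
    induction n with
    | zero => rw [pow_zero, h1]
    | succ n ih => rw [pow_succ', hccoc, hcz, hzk, one_smul, ih, add_zero]
  have hckg : ∀ g g' : P, q g = q g' → c g = c g' := by
    intro g g' h
    have h1 : g * g'⁻¹ ∈ Subgroup.zpowers z := by
      rw [← hker, MonoidHom.mem_ker, map_mul, map_inv, h, mul_inv_cancel]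
    have h2 := hccoc (g * g'⁻¹) g'
    rw [inv_mul_cancel_right, hck _ h1, map_mul, map_inv, h, mul_inv_cancel, one_smul,
      zero_add] at h2
    exact h2
  obtain ⟨m, hm⟩ := gal_H1 hB (fun τ => c (s τ)) (fun τ τ' => by
    show c (s (τ * τ')) = c (s τ) + τ • c (s τ')
    rw [hckg (s (τ * τ')) (s τ * s τ') (by rw [map_mul, hs, hs, hs]), hccoc, hs])
  refine ⟨b, m, hcoc, hbz, fun g => ?_⟩
  show c g = q g • m - m
  rw [hckg g (s (q g)) (by rw [hs])]
  exact hm (q g)

end MP7b0bad

end

section

set_option autoImplicit false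

namespace MP7b0bad

open Polynomial

theorem prf_QFree : QFree := by
  intro κ _ G _ _ B _ _ _ h
  classical
  have := Fintype.ofFinite G
  have hfin : Module.Finite κ[X] B := gal_finite h
  obtain ⟨n, x, y, h1, h2⟩ := gal_dual' h
  have htf : Module.IsTorsionFree κ[X] B := by
    apply Module.IsTorsionFree.of_smul_eq_zero
    intro a b hab
    by_cases ha : a = 0
    · exact Or.inl ha
    · right
      rw [gal_formula h1 h2 b]
      apply Finset.sum_eq_zero
      intro m _
      obtain ⟨t, ht⟩ := gal_trace h (y m * b)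
      have h3 : algebraMap κ[X] B (a * t) = 0 := by
        rw [map_mul, ht, Finset.mul_sum]
        apply Finset.sum_eq_zero
        intro g _
        rw [Algebra.smul_def] at hab
        rw [← h.comm g a, ← smul_mul', mul_left_comm, hab, mul_zero, smul_zero]
      have h4 : a * t = 0 := h.inj (by rw [h3, map_zero])
      have h5 : t = 0 := (mul_eq_zero.1 h4).resolve_left ha
      rw [← ht, h5, map_zero, zero_mul]
  exact Module.free_of_finite_type_torsion_free'

end MP7b0bad

end

section

set_option autoImplicit false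

namespace MP7b0bad

open Polynomial

theorem prf_QGL : QGL := by
  intro R R' _ _ φ G H _ _ _ π B C _ _ _ _ _ _ ψ hB hfix hinj hinv hψ hψ' n β v hv
  classical
  have := Fintype.ofFinite G
  obtain ⟨m, x, y, hxy, hxy1⟩ := gal_dual' hB
  obtain ⟨hC, hcoord⟩ := gal_coord π ψ hψ' hxy hxy1 v hv
  choose c' hc' using fun k : Fin m => hinv (∑ γ, ψ (γ⁻¹ • y k) * v γ) (fun h => hC (y k) h)
  -- the key fact for uniqueness
  have key : ∀ e : Fin n → R', (∀ γ : G, ∑ l, algebraMap R' C (e l) * ψ (γ⁻¹ • β l) = 0) →
      ∀ l0, e l0 = 0 := by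
    intro e he l0
    choose t ht using fun (k : Fin m) (l : Fin n) => gal_trace hB (y k * β l)
    have hδ : ∀ l, ∑ k, t k l * β.repr (x k) l0 = if l = l0 then 1 else 0 := by
      intro l
      have h1 : β l = ∑ k, t k l • x k := by
        conv_lhs => rw [gal_formula hxy hxy1 (β l)]
        refine Finset.sum_congr rfl fun k _ => ?_
        rw [← ht, ← Algebra.smul_def]
      have h2 := congrArg (fun b => β.repr b l0) h1
      simp only [map_sum, map_smul, Finsupp.coe_finsetSum, Finset.sum_apply, Finsupp.smul_apply,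
        smul_eq_mul, Module.Basis.repr_self] at h2
      rw [← h2, Finsupp.single_apply]
    set y0 : B := ∑ k, algebraMap R B (β.repr (x k) l0) * y k with hy0
    have htr : ∀ l, ∑ γ : G, γ⁻¹ • (y0 * β l) = algebraMap R B (if l = l0 then 1 else 0) := by
      intro l
      have h1 : ∑ γ : G, γ⁻¹ • (y0 * β l) = ∑ γ : G, γ • (y0 * β l) :=
        Fintype.sum_bijective (fun γ : G => γ⁻¹) (Equiv.inv G).bijective _ _ fun γ => rfl
      rw [h1, ← hδ, map_sum, hy0]
      simp only [Finset.sum_mul, Finset.smul_sum]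
      rw [Finset.sum_comm]
      refine Finset.sum_congr rfl fun k _ => ?_
      rw [map_mul, ht, Finset.sum_mul]
      refine Finset.sum_congr rfl fun γ _ => ?_
      rw [mul_assoc, smul_mul', hB.comm, mul_comm]
    apply hinj
    rw [map_zero]
    have h0 : ∑ γ : G, ψ (γ⁻¹ • y0) * ∑ l, algebraMap R' C (e l) * ψ (γ⁻¹ • β l) = 0 := by
      refine Finset.sum_eq_zero fun γ _ => ?_
      rw [he, mul_zero]
    have h1 : ∑ γ : G, ψ (γ⁻¹ • y0) * ∑ l, algebraMap R' C (e l) * ψ (γ⁻¹ • β l)
        = ∑ l, algebraMap R' C (e l) * ψ (∑ γ : G, γ⁻¹ • (y0 * β l)) := by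
      simp only [Finset.mul_sum, map_sum]
      rw [Finset.sum_comm]
      refine Finset.sum_congr rfl fun l _ => Finset.sum_congr rfl fun γ _ => ?_
      rw [smul_mul', map_mul]
      ring
    rw [h1] at h0
    simp only [htr, hψ] at h0
    rw [← h0, Finset.sum_eq_single l0]
    · simp
    · intro l _ hl
      simp [hl]
    · intro h; exact absurd (Finset.mem_univ _) h
  have hex : ∀ γ : G, v γ = ∑ l, algebraMap R' C (∑ k, c' k * φ (β.repr (x k) l)) * ψ (γ⁻¹ • β l) := by
    intro γ
    rw [hcoord γ]
    have hx : ∀ k, ψ (γ⁻¹ • x k) = ∑ l, algebraMap R' C (φ (β.repr (x k) l)) * ψ (γ⁻¹ • β l) := by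
      intro k
      conv_lhs => rw [← β.sum_repr (x k)]
      rw [Finset.smul_sum, map_sum]
      refine Finset.sum_congr rfl fun l _ => ?_
      rw [Algebra.smul_def, smul_mul', hB.comm, map_mul, hψ]
    simp only [hx, ← hc', map_sum, map_mul, Finset.sum_mul, Finset.mul_sum]
    rw [Finset.sum_comm]
    refine Finset.sum_congr rfl fun l _ => Finset.sum_congr rfl fun k _ => ?_
    ring
  refine ⟨fun l => ∑ k, c' k * φ (β.repr (x k) l), hex, ?_⟩
  intro d hd
  funext l0
  have := key (fun l => d l - ∑ k, c' k * φ (β.repr (x k) l)) (fun γ => by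
    simp only [map_sub, sub_mul, Finset.sum_sub_distrib]
    rw [← hd γ, ← hex γ, sub_self]) l0
  exact sub_eq_zero.1 this

end MP7b0bad

end

section

set_option autoImplicit false

namespace MP7b0bad

open Polynomial

theorem prf_QIdem : QIdem := by
  intro R _ Γ Δ _ _ _ δ C E _ _ _ _ _ _ Φ hδ hC hE hΦ hΦ'
  classical
  have := Fintype.ofFinite Γ
  obtain ⟨m, x, y, hxy, hxy1⟩ := gal_dual' hC
  set v : Γ → E := fun γ => if γ ∈ δ.range then 1 else 0 with hv
  have hvinv : ∀ (γ : Γ) (d : Δ), d • v (γ * δ d) = v γ := by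
    intro γ d
    have h1 : γ * δ d ∈ δ.range ↔ γ ∈ δ.range :=
      Subgroup.mul_mem_cancel_right _ ⟨d, rfl⟩
    simp only [hv, h1]
    split_ifs <;> simp
  obtain ⟨hC', hcoord⟩ := gal_coord δ Φ hΦ' hxy hxy1 v hvinv
  choose a ha using fun k : Fin m => hE.inv (∑ γ, Φ (γ⁻¹ • y k) * v γ) (fun h => hC' (y k) h)
  set e : C := ∑ k, algebraMap R C (a k) * x k with he
  have hev : ∀ γ : Γ, Φ (γ⁻¹ • e) = v γ := by
    intro γ
    rw [hcoord γ, he, Finset.smul_sum, map_sum]
    refine Finset.sum_congr rfl fun k _ => ?_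
    rw [smul_mul', hC.comm, map_mul, hΦ, ha]
  have hev' : ∀ γ : Γ, Φ (γ • e) = v γ⁻¹ := by
    intro γ
    have := hev γ⁻¹
    rwa [inv_inv] at this
  -- injectivity
  have hinj : ∀ c : C, (∀ γ : Γ, Φ (γ • c) = 0) → c = 0 := by
    intro c hc
    rw [gal_formula hxy hxy1 c]
    refine Finset.sum_eq_zero fun k _ => ?_
    obtain ⟨t, ht⟩ := gal_trace hC (y k * c)
    have h1 : algebraMap R E t = 0 := by
      rw [← hΦ, ht, map_sum]
      refine Finset.sum_eq_zero fun γ _ => ?_
      rw [smul_mul', map_mul, hc, mul_zero]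
    have h2 : t = 0 := hE.inj (by rw [h1, map_zero])
    rw [← ht, h2, map_zero, zero_mul]
  have hinj' : ∀ c c' : C, (∀ γ : Γ, Φ (γ • c) = Φ (γ • c')) → c = c' := by
    intro c c' h
    refine sub_eq_zero.1 (hinj _ fun γ => ?_)
    rw [smul_sub, map_sub, h, sub_self]
  refine ⟨e, ?_, ?_, ?_, ?_, ?_⟩
  · refine hinj' _ _ fun γ => ?_
    rw [smul_mul', map_mul, hev']
    simp only [hv]
    split_ifs <;> simp
  · intro d
    refine hinj' _ _ fun γ => ?_
    rw [smul_smul, hev', hev']
    have h1 : (γ * δ d)⁻¹ ∈ δ.range ↔ γ⁻¹ ∈ δ.range := by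
      rw [Subgroup.inv_mem_iff, Subgroup.inv_mem_iff]
      exact Subgroup.mul_mem_cancel_right _ ⟨d, rfl⟩
    simp only [hv, h1]
  · intro γ hγ
    refine hinj _ fun τ => ?_
    rw [smul_mul', map_mul, smul_smul, hev', hev']
    simp only [hv, Subgroup.inv_mem_iff]
    by_cases h1 : τ ∈ δ.range
    · have h2 : ¬ (τ * γ ∈ δ.range) := by
        rw [Subgroup.mul_mem_cancel_left _ h1]; exact hγ
      rw [if_neg h2, mul_zero]
    · rw [if_neg h1, zero_mul]
  · -- representatives
    set s : Finset Γ := (Finset.univ : Finset (Γ ⧸ δ.range)).image Quotient.out with hs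
    refine ⟨s, ?_⟩
    refine hinj' _ _ fun γ => ?_
    rw [Finset.smul_sum, map_sum, smul_one, map_one]
    have h1 : ∀ τ : Γ, Φ (γ • τ • e) = if (τ : Γ ⧸ δ.range) = (γ⁻¹ : Γ) then 1 else 0 := by
      intro τ
      rw [smul_smul, hev']
      simp only [hv]
      congr 1
      rw [QuotientGroup.eq, ← Subgroup.inv_mem_iff]
      have : ((γ * τ)⁻¹)⁻¹ = (τ⁻¹ * γ⁻¹)⁻¹ := by group
      rw [this, Subgroup.inv_mem_iff]
    simp only [h1]
    rw [hs, Finset.sum_image (fun a _ b _ h => Quotient.out_injective h)]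
    have h2 : ∀ q : Γ ⧸ δ.range, ((Quotient.out q : Γ) : Γ ⧸ δ.range) = q := fun q => Quotient.out_eq' q
    simp only [h2]
    simp
  · have := hev 1
    rw [inv_one, one_smul] at this
    rw [this, hv]
    exact if_pos δ.range.one_mem

end MP7b0bad

end

section

set_option autoImplicit false

namespace MP7b0bad

open Polynomial

theorem prf_QKG (hQOTG : QOTG) (hQDenk : QDenk) : QKG := by
  intro k _ p _ _ P _ _ E _ _ _ hP hE
  obtain ⟨A, i1, i2, i3, a, h1, h2, h3, -⟩ := hQOTG k p 1 (fun _ => LaurentSeries k)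
    (fun _ => atInf k) False (hQDenk k p) P hP (fun _ => P) (fun _ => MonoidHom.id P)
    (fun _ => E) (fun _ => hE)
  exact ⟨A, i1, i2, i3, a 0, h1, fun f => h2 0 f, fun g x => h3 0 g x⟩

end MP7b0bad

end

section

set_option autoImplicit false

namespace MP7b0bad

open Polynomial

/-- a nontrivial normal subgroup of a finite `p`-group contains a central element of order `p` -/
theorem QLL_central {P : Type} [Group P] [Finite P] (p : ℕ) [hp : Fact p.Prime] (hP : IsPGroup p P)
    (N : Subgroup P) [hN : N.Normal] (hne : N ≠ ⊥) :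
    ∃ z : P, z ∈ N ∧ z ∈ Subgroup.center P ∧ orderOf z = p := by
  have hNn : Nontrivial N := by
    rw [Subgroup.nontrivial_iff_ne_bot]; exact hne
  have hdvd : p ∣ Nat.card N := by
    obtain ⟨n, hn⟩ := (IsPGroup.iff_card.1 (hP.to_subgroup N))
    have h1 : 1 < Nat.card N := Finite.one_lt_card
    rw [hn] at h1 ⊢
    rcases Nat.eq_zero_or_pos n with h | h
    · subst h; simp at h1
    · exact dvd_pow_self p (by omega)
  obtain ⟨b, hb, hb1⟩ := (hP.of_equiv ConjAct.toConjAct).exists_fixed_point_of_prime_dvd_card_of_fixed_point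
    N hdvd (a := 1) (fun g => smul_one g)
  have hbc : (b : P) ∈ Subgroup.center P := by
    rw [Subgroup.mem_center_iff]
    intro g
    have h1 := hb (ConjAct.toConjAct g)
    have h2 : g * (b : P) * g⁻¹ = b := by
      have h3 : ((ConjAct.toConjAct g • b : N) : P) = b := congrArg _ h1
      rwa [ConjAct.Subgroup.val_conj_smul, ConjAct.toConjAct_smul] at h3
    calc g * (b : P) = (g * b * g⁻¹) * g := by group
      _ = b * g := by rw [h2]
  have hM : Nontrivial (N ⊓ Subgroup.center P : Subgroup P) := by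
    rw [Subgroup.nontrivial_iff_ne_bot]
    intro h
    apply hb1
    have : (b : P) ∈ (⊥ : Subgroup P) := by rw [← h]; exact ⟨b.2, hbc⟩
    rw [Subgroup.mem_bot] at this
    exact (Subtype.ext this).symm
  have hdvd' : p ∣ Nat.card (N ⊓ Subgroup.center P : Subgroup P) := by
    obtain ⟨n, hn⟩ := (IsPGroup.iff_card.1 (hP.to_subgroup (N ⊓ Subgroup.center P)))
    have h1 : 1 < Nat.card (N ⊓ Subgroup.center P : Subgroup P) := Finite.one_lt_card
    rw [hn] at h1 ⊢
    rcases Nat.eq_zero_or_pos n with h | h
    · subst h; simp at h1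
    · exact dvd_pow_self p (by omega)
  obtain ⟨x, hx⟩ := exists_prime_orderOf_dvd_card' p hdvd'
  exact ⟨x, x.2.1, x.2.2, by rw [Subgroup.orderOf_coe]; exact hx⟩

/-- no solution of `h^p - h = e ξ⁻¹` in `k((ξ))`, `e ≠ 0` -/
theorem QLL_noroot {k : Type} [Field k] (p : ℕ) [hp : Fact p.Prime] [CharP k p] (e : k)
    (he : e ≠ 0) (h : LaurentSeries k) : h ^ p - h ≠ HahnSeries.single (-1 : ℤ) e := by
  intro hh
  have hp1 : 1 < p := hp.out.one_lt
  have hc : (h ^ p - h).coeff (-1) = e := by rw [hh]; simp
  by_cases h0 : h = 0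
  · subst h0
    rw [zero_pow hp.out.ne_zero, sub_zero] at hc
    exact he (by rw [← hc]; simp)
  have hbp : (h ^ p) ≠ 0 := pow_ne_zero _ h0
  have hord : (h ^ p).order = (p : ℤ) * h.order := by
    rw [HahnSeries.order_pow, nsmul_eq_mul]
  rcases le_or_gt 0 h.order with ho | ho
  · apply he
    rw [← hc, HahnSeries.coeff_sub]
    rw [HahnSeries.coeff_eq_zero_of_lt_order (by rw [hord]; nlinarith),
      HahnSeries.coeff_eq_zero_of_lt_order (by omega), sub_zero]
  · have h1 : (p : ℤ) * h.order < h.order := by nlinarith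
    have h2 : (h ^ p - h).coeff ((p : ℤ) * h.order) ≠ 0 := by
      rw [HahnSeries.coeff_sub, HahnSeries.coeff_eq_zero_of_lt_order h1, sub_zero, ← hord]
      exact HahnSeries.coeff_order_eq_zero.not.2 hbp
    rw [hh] at h2
    have h3 : (p : ℤ) * h.order = -1 := by
      by_contra hne
      exact h2 (HahnSeries.coeff_single_of_ne hne)
    have h4 : (p : ℤ) ∣ 1 := ⟨-h.order, by linarith⟩
    have h5 := Int.le_of_dvd one_pos h4
    omega

/-- an Artin-Schreier algebra over a field is a domain when the equation has no root -/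
theorem QLL_dom {L E : Type} [Field L] [CommRing E] (p : ℕ) [hp : Fact p.Prime] [CharP L p]
    (i : L →+* E) (hi : Function.Injective i) (m : L) (y : E) (hy : y ^ p - y = i m)
    (hgen : ∀ x : E, ∃ c : Fin p → L, x = ∑ l, i (c l) * y ^ (l : ℕ))
    (hm : ∀ n : L, n ^ p - n ≠ m) : IsDomain E := by
  have hirr := B3_irr p m hm
  have : Fact (Irreducible (asPoly p m)) := ⟨hirr⟩
  have hN : Nontrivial E := ⟨0, 1, fun h => by
    have := hi (by rw [map_zero, map_one]; exact h : i 0 = i 1)
    exact zero_ne_one this⟩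
  have hev : (asPoly p m).eval₂ i y = 0 := by
    unfold asPoly
    simp only [eval₂_sub, eval₂_pow, eval₂_X, eval₂_C]
    rw [hy, sub_self]
  let F : AdjoinRoot (asPoly p m) →+* E := AdjoinRoot.lift i y hev
  have hF : Function.Injective F := F.injective
  have hF' : Function.Surjective F := by
    intro x
    obtain ⟨c, hc⟩ := hgen x
    refine ⟨∑ l, AdjoinRoot.of _ (c l) * AdjoinRoot.root _ ^ (l : ℕ), ?_⟩
    rw [map_sum, hc]
    refine Finset.sum_congr rfl fun l _ => ?_
    rw [map_mul, map_pow, AdjoinRoot.lift_of, AdjoinRoot.lift_root]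
  exact (RingEquiv.ofBijective F ⟨hF, hF'⟩).symm.toMulEquiv.isDomain (AdjoinRoot (asPoly p m))

/-- some twist of the Artin-Schreier equation has no root -/
theorem QLL_twist {k : Type} [Field k] [Infinite k] (p : ℕ) [hp : Fact p.Prime] [CharP k p]
    (P : Type) [Group P] [Finite P] (E : Type) [CommRing E] [IsDomain E]
    [Algebra (LaurentSeries k) E] [MulSemiringAction P E] (hE : GalAlg (LaurentSeries k) P E)
    (m : E) : ∃ c : k, ∀ n : E,
      n ^ p - n ≠ m + algebraMap (LaurentSeries k) E (HahnSeries.single (-1 : ℤ) c) := by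
  classical
  have hCinj : Function.Injective (HahnSeries.C : k →+* LaurentSeries k) := HahnSeries.C_injective
  have : CharP (LaurentSeries k) p := charP_of_injective_ringHom hCinj p
  have : CharP E p := charP_of_injective_ringHom hE.inj p
  by_contra hcon
  push Not at hcon
  choose n hn using hcon
  -- the finite set of roots of `X^p - X`
  let S : Set E := {x | x ^ p = x}
  have hp1 : 1 < p := hp.out.one_lt
  have hS : S.Finite := by
    have hne : (X ^ p - X : E[X]) ≠ 0 := by
      intro h
      have h1 : (X ^ p - X : E[X]).coeff p = 1 := by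
        rw [coeff_sub, coeff_X_pow, coeff_X, if_pos rfl, if_neg (by omega), sub_zero]
      rw [h, coeff_zero] at h1
      exact zero_ne_one h1
    refine Set.Finite.subset ((X ^ p - X : E[X]).roots.toFinset.finite_toSet) ?_
    intro x hx
    simp only [Finset.mem_coe, Multiset.mem_toFinset, mem_roots', IsRoot.def, eval_sub, eval_pow,
      eval_X]
    exact ⟨hne, sub_eq_zero.2 hx⟩
  have hfin : Finite S := hS
  have key : ∀ (c : k) (g : P), g • (n c - n 0) - (n c - n 0) ∈ S := by
    intro c g
    have h1 : (n c - n 0) ^ p - (n c - n 0) =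
        algebraMap (LaurentSeries k) E (HahnSeries.single (-1 : ℤ) c) := by
      rw [sub_pow_char]
      have h2 := hn c
      have h3 := hn 0
      simp only [map_zero, add_zero] at h3
      linear_combination h2 - h3
    have h2 : g • ((n c - n 0) ^ p - (n c - n 0)) = (n c - n 0) ^ p - (n c - n 0) := by
      rw [h1, hE.comm]
    rw [smul_sub, smul_pow'] at h2
    change (g • (n c - n 0) - (n c - n 0)) ^ p = g • (n c - n 0) - (n c - n 0)
    rw [sub_pow_char]
    linear_combination h2
  let χ : k → P → S := fun c g => ⟨_, key c g⟩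
  obtain ⟨c, c', hcc, hχ⟩ := Finite.exists_ne_map_eq_of_infinite χ
  obtain ⟨h, hh⟩ := hE.inv (n c - n c') (fun g => by
    have h1 : g • (n c - n 0) - (n c - n 0) = g • (n c' - n 0) - (n c' - n 0) :=
      congrArg Subtype.val (congrFun hχ g)
    rw [smul_sub, smul_sub] at h1
    rw [smul_sub]
    linear_combination h1)
  apply QLL_noroot p (c - c') (sub_ne_zero.2 hcc) h
  apply hE.inj
  rw [map_sub, map_pow, hh, sub_pow_char, HahnSeries.single_sub, map_sub]
  linear_combination hn c - hn c'

theorem prf_QLL (hQEL : QEL) (hQASX : QASX) (_hQSm0 : QSm0) : QLL := by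
  intro k _ _ p hp _ P
  have hCinj : Function.Injective (HahnSeries.C : k →+* LaurentSeries k) := HahnSeries.C_injective
  have hchar : CharP (LaurentSeries k) p := charP_of_injective_ringHom hCinj p
  have hinf : Infinite k := IsAlgClosed.instInfinite
  induction hn : Nat.card P using Nat.strong_induction_on generalizing P with
  | _ N ih =>
  intro Pb _ _ _ q Eb _ _ _ hP hq hdom hgal
  by_cases hker : q.ker = ⊥
  · -- `q` is an isomorphism
    have hqi : Function.Injective q := (MonoidHom.ker_eq_bot_iff q).1 hker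
    let _ : MulSemiringAction P Eb := MulSemiringAction.compHom Eb q
    have hact : ∀ (g : P) (e : Eb), g • e = q g • e := fun g e => rfl
    refine ⟨Eb, inferInstance, inferInstance, inferInstance, RingHom.id Eb, hdom, ⟨?_, hgal.inj, ?_, ?_⟩,
      fun a => rfl, fun g e => rfl⟩
    · intro g a
      rw [hact, hgal.comm]
    · intro b hb
      refine hgal.inv b fun g => ?_
      obtain ⟨g', rfl⟩ := hq g
      exact hb g'
    · intro σ hσ
      have h1 : q σ ≠ 1 := fun h => hσ (hqi (by rw [h, map_one]))
      exact hgal.unr (q σ) h1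
  · obtain ⟨z, hzk, hzc, hzo⟩ := QLL_central p hP q.ker hker
    have hNn : (Subgroup.zpowers z).Normal := by
      constructor
      intro n hn g
      obtain ⟨j, rfl⟩ := Subgroup.mem_zpowers_iff.1 hn
      have h1 : z ^ j ∈ Subgroup.center P := Subgroup.zpow_mem _ hzc j
      rw [Subgroup.mem_center_iff] at h1
      rw [h1 g, mul_assoc, mul_inv_cancel, mul_one]
      exact hn
    let P1 := P ⧸ Subgroup.zpowers z
    let π : P →* P1 := QuotientGroup.mk' (Subgroup.zpowers z)
    have hπ : Function.Surjective π := QuotientGroup.mk'_surjective _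
    have hπk : π.ker = Subgroup.zpowers z := QuotientGroup.ker_mk' _
    have hle : Subgroup.zpowers z ≤ q.ker := by
      rw [Subgroup.zpowers_le]; exact hzk
    let q1 : P1 →* Pb := QuotientGroup.lift (Subgroup.zpowers z) q hle
    have hq1 : ∀ g : P, q1 (π g) = q g := fun g => rfl
    have hq1s : Function.Surjective q1 := by
      intro g
      obtain ⟨g', rfl⟩ := hq g
      exact ⟨π g', hq1 g'⟩
    have hcard : Nat.card P1 < N := by
      have h1 := Subgroup.card_eq_card_quotient_mul_card_subgroup (Subgroup.zpowers z)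
      rw [Nat.card_zpowers, hzo, hn] at h1
      have h2 : 0 < Nat.card P1 := Nat.card_pos
      have h3 := hp.out.one_lt
      change N = Nat.card P1 * p at h1
      nlinarith
    obtain ⟨E1, _, _, _, i1, hdom1, hgal1, hi1, hi1'⟩ :=
      ih (Nat.card P1) hcard P1 rfl Pb q1 Eb (hP.to_quotient _) hq1s hdom hgal
    obtain ⟨b, m, hb, hbz, hbm⟩ := hQEL (LaurentSeries k) p P P1 π z E1 hπ hzc hzo hπk hgal1
    obtain ⟨c, hc⟩ := QLL_twist p P1 E1 hgal1 m
    obtain ⟨E, _, _, _, i, y, hgalE, hi, hiinj, hi', hy, hym, -, hgen⟩ :=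
      hQASX (LaurentSeries k) p P P1 π z E1 b
        (m + algebraMap (LaurentSeries k) E1 (HahnSeries.single (-1 : ℤ) c)) hπ hzc hzo hπk hgal1
        hb hbz (fun g => by rw [hbm, smul_add, hgal1.comm]; ring)
    refine ⟨E, inferInstance, inferInstance, inferInstance, i.comp i1, ?_, hgalE, ?_, ?_⟩
    · -- domain
      have hfin := gal_finite hgal1
      have hint : Algebra.IsIntegral (LaurentSeries k) E1 := Algebra.IsIntegral.of_finite _ _
      have hfield : IsField E1 := isField_of_isIntegral_of_isField' (Field.toIsField (LaurentSeries k))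
      have hcE : CharP E1 p := charP_of_injective_ringHom hgal1.inj p
      let _ : Field E1 := hfield.toField
      exact QLL_dom p i hiinj _ y hym hgen hc
    · intro a
      rw [RingHom.comp_apply, hi1, hi]
    · intro g e
      rw [RingHom.comp_apply, RingHom.comp_apply, hi', hi1', hq1]

end MP7b0bad

end

section

set_option autoImplicit false

namespace MP7b0bad

open Polynomial

theorem prf_QLoc : QLoc := by
  classical
  intro R' _ p _ P Pb _ _ q B _ _ b m P' _ _ π A _ _ _ ψ hpA hcoc hm hA hψ
  have := Fintype.ofFinite P'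
  rcases subsingleton_or_nontrivial A with hA0 | hA0
  · exact ⟨0, 0, fun g => Subsingleton.elim _ _, Subsingleton.elim _ _⟩
  have hcp : CharP A p := (CharP.charP_iff_prime_eq_zero (Fact.out : p.Prime)).2 hpA
  obtain ⟨y, hy⟩ := gal_H1 hA (fun g => ψ (b (π g))) (fun g g' => by
    show ψ (b (π (g * g'))) = ψ (b (π g)) + g • ψ (b (π g'))
    rw [map_mul, hcoc, map_add, hψ])
  have hy' : ∀ g : P', g • y = y + ψ (b (π g)) := by
    intro g
    have := hy g
    rw [this]
    ring
  obtain ⟨u, hu⟩ := hA.inv (y ^ p - y - ψ m) (fun g => by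
    rw [smul_sub, smul_sub, smul_pow', hy', add_pow_char, ← hψ]
    have h1 := congrArg ψ (hm (π g))
    rw [map_sub, map_sub, map_pow] at h1
    have h2 : ψ (q (π g) • m) = ψ (b (π g)) ^ p - ψ (b (π g)) + ψ m := by rw [h1]; ring
    rw [h2]
    ring)
  exact ⟨y, u, hy', by rw [hu]; ring⟩

end MP7b0bad

end

section

set_option autoImplicit false

/-! Item QOTG: construction of torsors for `p`-groups. -/

namespace MP7b0bad

open Polynomial

/-- the trivial action -/
@[reducible] def QOTG_triv (P : Type) [Group P] (B : Type) [CommRing B] :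
    MulSemiringAction P B where
  smul _ x := x
  one_smul _ := rfl
  mul_smul _ _ _ := rfl
  smul_zero _ := rfl
  smul_add _ _ _ := rfl
  smul_one _ := rfl
  smul_mul _ _ _ := rfl

theorem QOTG_central {P : Type} [Group P] [Finite P] {p : ℕ} [Fact p.Prime] (hP : IsPGroup p P)
    (hnt : Nontrivial P) : ∃ z : P, z ∈ Subgroup.center P ∧ orderOf z = p := by
  have h1 : Nontrivial (Subgroup.center P) := hP.center_nontrivial
  have h2 : IsPGroup p (Subgroup.center P) := hP.to_subgroup _
  have h3 : p ∣ Nat.card (Subgroup.center P) := by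
    obtain ⟨n, hn, h4⟩ := h2.nontrivial_iff_card.1 h1
    rw [h4]
    exact dvd_pow_self p hn.ne'
  obtain ⟨z, hz⟩ := exists_prime_orderOf_dvd_card' p h3
  exact ⟨z, z.2, by rw [← hz, Subgroup.orderOf_coe]⟩

theorem prf_QOTG (hQOTS : QOTS) : QOTG := by
  intro κ _ p hpF _ N R' _ ρ S hden
  have key : ∀ (n : ℕ) (P : Type) [Group P] [Finite P], IsPGroup p P → Nat.card P ≤ n →
      ∀ (P' : Fin N → Type) [∀ i, Group (P' i)] [∀ i, Finite (P' i)] (π : ∀ i, P' i →* P)
      (A : Fin N → Type) [∀ i, CommRing (A i)] [∀ i, Algebra (R' i) (A i)]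
      [∀ i, MulSemiringAction (P' i) (A i)], (∀ i, GalAlg (R' i) (P' i) (A i)) →
      ∃ (E : Type) (_ : CommRing E) (_ : Algebra κ[X] E) (_ : MulSemiringAction P E)
      (a : ∀ i, E →+* A i), GalAlg κ[X] P E ∧
      (∀ i f, a i (algebraMap κ[X] E f) = algebraMap (R' i) (A i) (ρ i f)) ∧
      (∀ i (g : P' i) (e : E), a i (π i g • e) = g • a i e) ∧ (S → TotRam κ p P E) := by
    intro n
    induction n with
    | zero =>
      intro P _ _ _ hcard
      have := Nat.card_pos (α := P)
      omega
    | succ n ih =>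
      intro P _ _ hP hcard P' _ _ π A _ _ _ hA
      rcases subsingleton_or_nontrivial P with hss | hnt
      · let instM : MulSemiringAction P κ[X] := QOTG_triv P κ[X]
        refine ⟨κ[X], inferInstance, inferInstance, instM,
          fun i => (algebraMap (R' i) (A i)).comp (ρ i), ⟨fun g a => rfl, fun x y h => h,
            fun b _ => ⟨b, rfl⟩, fun σ hσ => absurd (Subsingleton.elim σ 1) hσ⟩, fun i f => rfl,
            ?_, ?_⟩
        · intro i g e
          change algebraMap (R' i) (A i) (ρ i e) = g • algebraMap (R' i) (A i) (ρ i e)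
          rw [(hA i).comm]
        · intro _ l hl
          refine absurd ?_ hl
          refine MonoidHom.ext fun g => ?_
          rw [Subsingleton.elim g 1, map_one, map_one]
      · obtain ⟨z, hz, hzo⟩ := QOTG_central hP hnt
        have hnorm : (Subgroup.zpowers z).Normal := by
          refine ⟨fun x hx g => ?_⟩
          have h1 : x ∈ Subgroup.center P := (Subgroup.zpowers_le.2 hz) hx
          rw [Subgroup.mem_center_iff.1 h1 g, mul_inv_cancel_right]
          exact hx
        have hq : Function.Surjective (QuotientGroup.mk' (Subgroup.zpowers z)) :=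
          QuotientGroup.mk'_surjective _
        have hker : (QuotientGroup.mk' (Subgroup.zpowers z)).ker = Subgroup.zpowers z :=
          QuotientGroup.ker_mk' _
        have hcard2 : Nat.card (P ⧸ Subgroup.zpowers z) ≤ n := by
          have h1 := Subgroup.card_eq_card_quotient_mul_card_subgroup (Subgroup.zpowers z)
          rw [Nat.card_zpowers, hzo] at h1
          have h2 : 2 ≤ p := hpF.out.two_le
          have h3 : 0 < Nat.card (P ⧸ Subgroup.zpowers z) := Nat.card_pos
          have h4 : Nat.card (P ⧸ Subgroup.zpowers z) * 2 ≤ Nat.card (P ⧸ Subgroup.zpowers z) * p :=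
            Nat.mul_le_mul_left _ h2
          omega
        obtain ⟨Eb, iR, iA, iM, ab, hE, hab, habq, hTR⟩ := ih (P ⧸ Subgroup.zpowers z)
          (hP.to_quotient _) hcard2 P' (fun i => (QuotientGroup.mk' (Subgroup.zpowers z)).comp (π i))
          A hA
        exact hQOTS κ p N R' ρ S hden P (P ⧸ Subgroup.zpowers z)
          (QuotientGroup.mk' (Subgroup.zpowers z)) z hq hz hzo hker P' π A hA Eb ab hE hab habq hTR
  intro P _ _ hP
  exact key (Nat.card P) P hP le_rfl

end MP7b0bad

end

section

set_option autoImplicit false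

/-! Item QOTS: one step of the construction of torsors. -/

namespace MP7b0bad

open Polynomial

theorem QOTS_add_pow {A : Type} [CommRing A] {p : ℕ} (hp : p.Prime) (h0 : ((p : ℕ) : A) = 0)
    (x y : A) : (x + y) ^ p = x ^ p + y ^ p := by
  obtain ⟨r, hr⟩ := exists_add_pow_prime_eq hp x y
  rw [hr, h0]
  ring

theorem QOTS_neg_pow {A : Type} [CommRing A] {p : ℕ} (hp : p.Prime) (h0 : ((p : ℕ) : A) = 0)
    (x : A) : (-x) ^ p = -x ^ p := by
  have h := QOTS_add_pow hp h0 x (-x)
  rw [add_neg_cancel, zero_pow hp.ne_zero] at h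
  exact (neg_eq_of_add_eq_zero_right h.symm).symm

theorem QOTS_sub_pow {A : Type} [CommRing A] {p : ℕ} (hp : p.Prime) (h0 : ((p : ℕ) : A) = 0)
    (x y : A) : (x - y) ^ p = x ^ p - y ^ p := by
  rw [sub_eq_add_neg, QOTS_add_pow hp h0, QOTS_neg_pow hp h0]
  ring

/-- characters that are nontrivial on `z`: the cocycle `b` is cohomologous to a multiple of `l` -/
theorem QOTS_char {κ : Type} [Field κ] {p : ℕ} [Fact p.Prime] [CharP κ p]
    {P Pb : Type} [Group P] [Finite P] [Group Pb] {q : P →* Pb} {z : P}
    (hq : Function.Surjective q) (hker : q.ker = Subgroup.zpowers z)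
    {Eb : Type} [CommRing Eb] [Algebra κ[X] Eb] [MulSemiringAction Pb Eb]
    (hgal : GalAlg κ[X] Pb Eb) [CharP Eb p] {b : P → Eb} {m : Eb}
    (hb : ∀ g h : P, b (g * h) = b g + q g • b h) (hbz : b z = 1)
    (hm : ∀ g, b g ^ p - b g = q g • m - m) (l : P →* Multiplicative (ZMod p)) (hl : l z ≠ 1) :
    ∃ (e : Eb) (m0 : κ[X]), algebraMap κ[X] Eb m0 = m - (e ^ p - e) ∧
      ∀ g : P, b g = ZMod.castHom (dvd_refl p) Eb ((Multiplicative.toAdd (l z))⁻¹ *
        Multiplicative.toAdd (l g)) + (q g • e - e) := by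
  have hp : p.Prime := Fact.out
  have h0 : ((p : ℕ) : Eb) = 0 := CharP.cast_eq_zero Eb p
  set F := ZMod.castHom (dvd_refl p) Eb with hF
  set c : ZMod p := Multiplicative.toAdd (l z) with hc
  have hc0 : c ≠ 0 := by
    intro h
    apply hl
    exact h
  have hFσ : ∀ (σ : Pb) (x : ZMod p), σ • F x = F x := by
    intro σ x
    have h1 : F x = algebraMap κ[X] Eb ((x.val : ℕ) : κ[X]) := by
      rw [map_natCast, hF, ZMod.castHom_apply, ZMod.natCast_val]
    rw [h1, hgal.comm]
  have hFp : ∀ x : ZMod p, F x ^ p = F x := by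
    intro x
    rw [← map_pow, ZMod.pow_card]
  set L : P → Eb := fun g => F (c⁻¹ * Multiplicative.toAdd (l g)) with hL
  have hLmul : ∀ g h, L (g * h) = L g + L h := by
    intro g h
    simp only [hL]
    rw [map_mul l, toAdd_mul, mul_add, map_add]
  have hLz : L z = 1 := by
    simp only [hL]
    rw [← hc, inv_mul_cancel₀ hc0, map_one]
  set b' : P → Eb := fun g => b g - L g with hb'
  have hb'mul : ∀ g h, b' (g * h) = b' g + q g • b' h := by
    intro g h
    simp only [hb']
    rw [hb, hLmul, smul_sub]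
    have : q g • L h = L h := hFσ _ _
    rw [this]
    ring
  have hb'z : b' z = 0 := by
    simp only [hb']
    rw [hbz, hLz, sub_self]
  have hqz : q z = 1 := by
    have : z ∈ q.ker := by
      rw [hker]
      exact Subgroup.mem_zpowers z
    exact this
  have hb'k : ∀ k ∈ q.ker, b' k = 0 := by
    intro k hk
    rw [hker] at hk
    obtain ⟨n, hn⟩ : ∃ n : ℕ, z ^ n = k := (mem_powers_iff_mem_zpowers (x := z) (y := k)).2 hk
    rw [← hn]
    clear hn
    induction n with
    | zero =>
      have h1 := hb'mul 1 1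
      simpa using h1
    | succ n ih =>
      rw [pow_succ, hb'mul, ih, hb'z, smul_zero, add_zero]
  have hb'q : ∀ g g', q g = q g' → b' g = b' g' := by
    intro g g' h
    have h1 : g⁻¹ * g' ∈ q.ker := by
      rw [MonoidHom.mem_ker, map_mul, map_inv, h, inv_mul_cancel]
    have h2 := hb'mul g (g⁻¹ * g')
    rw [mul_inv_cancel_left, hb'k _ h1, smul_zero, add_zero] at h2
    exact h2.symm
  set bb : Pb → Eb := fun x => b' (Function.surjInv hq x) with hbb
  have hbbq : ∀ g, bb (q g) = b' g := fun g => hb'q _ _ (Function.surjInv_eq hq _)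
  have hPb : Finite Pb := Finite.of_surjective q hq
  have : Fintype Pb := Fintype.ofFinite Pb
  obtain ⟨e, he⟩ := gal_H1 hgal bb (by
    intro x y
    obtain ⟨g, rfl⟩ := hq x
    obtain ⟨h, rfl⟩ := hq y
    rw [← map_mul, hbbq, hbbq, hbbq, hb'mul])
  have hbe : ∀ g, b g = L g + (q g • e - e) := by
    intro g
    rw [← he, hbbq]
    simp only [hb']
    ring
  have hinv : ∀ x : Pb, x • (m - (e ^ p - e)) = m - (e ^ p - e) := by
    intro x
    obtain ⟨g, rfl⟩ := hq x
    have h1 := hm g
    have h2 := hbe g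
    have h3 : q g • e = e + b g - L g := by rw [h2]; ring
    have h4 : L g ^ p = L g := hFp _
    rw [smul_sub, smul_sub, smul_pow', h3, QOTS_sub_pow hp h0, QOTS_add_pow hp h0, h4]
    linear_combination -h1
  obtain ⟨m0, hm0⟩ := hgal.inv _ hinv
  exact ⟨e, m0, hm0, hbe⟩

theorem prf_QOTS (hQEL : QEL) (hQASX : QASX) (hQLoc : QLoc) : QOTS := by
  intro κ _ p hpF _ N R' _ ρ S hden P Pb _ _ _ q z hq hz hzo hker P' _ _ π A _ _ _ hA Eb _ _ _ ab
    hgal hab habq hTR
  have hp : p.Prime := hpF.out
  have hcharEb : CharP Eb p := charP_of_injective_ringHom hgal.inj p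
  have h0 : ((p : ℕ) : Eb) = 0 := CharP.cast_eq_zero Eb p
  obtain ⟨b, m, hb, hbz, hm⟩ := hQEL κ[X] p P Pb q z Eb hq hz hzo hker hgal
  have hpA : ∀ i, ((p : ℕ) : A i) = 0 := by
    intro i
    rw [← map_natCast (ab i), h0, map_zero]
  -- local solutions
  choose y u hy hyu using fun i => hQLoc (R' i) p P Pb q Eb b m (P' i) (π i) (A i) (ab i) (hpA i)
    hb hm (hA i) (habq i)
  -- characters
  have hchar : ∀ l : P →* Multiplicative (ZMod p), ∃ (e : Eb) (m0 : κ[X]), l z ≠ 1 →
      (algebraMap κ[X] Eb m0 = m - (e ^ p - e) ∧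
      ∀ g : P, b g = ZMod.castHom (dvd_refl p) Eb ((Multiplicative.toAdd (l z))⁻¹ *
        Multiplicative.toAdd (l g)) + (q g • e - e)) := by
    intro l
    by_cases hl : l z = 1
    · exact ⟨0, 0, fun h => absurd hl h⟩
    · obtain ⟨e, m0, h⟩ := QOTS_char hq hker hgal hb hbz hm l hl
      exact ⟨e, m0, fun _ => h⟩
  choose e m0 hem using hchar
  have hfin : Finite (P →* Multiplicative (ZMod p)) :=
    Finite.of_injective (fun l : P →* Multiplicative (ZMod p) => (l : P → Multiplicative (ZMod p)))
      DFunLike.coe_injective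
  obtain ⟨D, hD⟩ := (Set.finite_range (fun l => (m0 l).natDegree)).bddAbove
  have hD' : ∀ l, (m0 l).natDegree ≤ D := fun l => hD ⟨l, rfl⟩
  obtain ⟨f, h, huf, hfD⟩ := hden u D
  -- the extension
  have hm' : ∀ g, b g ^ p - b g = q g • (m + algebraMap κ[X] Eb f) -
      (m + algebraMap κ[X] Eb f) := by
    intro g
    rw [smul_add, hgal.comm, hm]
    ring
  obtain ⟨E, instR, instA, instM, i, Y, hE, hialg, hiinj, hiact, hYact, hYp, hlift, hspan⟩ :=
    hQASX κ[X] p P Pb q z Eb b (m + algebraMap κ[X] Eb f) hq hz hzo hker hgal hb hbz hm'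
  have hpE : ((p : ℕ) : E) = 0 := by
    rw [← map_natCast i, h0, map_zero]
  have hA2 : ∀ j : Fin N, ∃ F : E →+* A j, (∀ e, F (i e) = ab j e) ∧
      F Y = y j - algebraMap (R' j) (A j) (h j) := by
    intro j
    refine hlift (A j) (ab j) _ ?_
    have h1 := hyu j
    have h2 := congrArg (algebraMap (R' j) (A j)) (huf j)
    rw [map_add, map_sub, map_pow] at h2
    rw [QOTS_sub_pow hp (hpA j), map_add, hab]
    linear_combination h1 + h2
  choose a ha haY using hA2
  refine ⟨E, instR, instA, instM, a, hE, ?_, ?_, ?_⟩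
  · intro j g
    rw [← hialg, ha, hab]
  · intro j g x
    obtain ⟨c, rfl⟩ := hspan x
    rw [Finset.smul_sum, map_sum, map_sum, Finset.smul_sum]
    refine Finset.sum_congr rfl fun l _ => ?_
    rw [smul_mul', smul_pow', hiact, hYact, map_mul, map_mul, map_pow, map_pow, map_add, ha, ha,
      ha, haY, habq, smul_mul', smul_pow', smul_sub, (hA j).comm, hy]
    congr 2
    ring
  · intro hS l hl
    obtain ⟨hfdeg, hfp⟩ := hfD hS
    by_cases hlz : l z = 1
    · -- the character factors through `Pb`
      have hle : q.ker ≤ l.ker := by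
        rw [hker, Subgroup.zpowers_le]
        exact hlz
      set lb := MonoidHom.liftOfSurjective q hq ⟨l, hle⟩ with hlb
      have hlbq : ∀ g, lb (q g) = l g := fun g =>
        MonoidHom.liftOfRightInverse_comp_apply q _ _ ⟨l, hle⟩ g
      have hlb1 : lb ≠ 1 := by
        intro h1
        apply hl
        ext g
        rw [← hlbq, h1]
        rfl
      obtain ⟨yb, fb, hyb1, hyb2, hyb3⟩ := hTR hS lb hlb1
      refine ⟨i yb, fb, ?_, ?_, hyb3⟩
      · intro g
        rw [hiact, hyb1, hlbq, map_add, map_natCast]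
      · rw [← map_pow, ← map_sub, hyb2, hialg]
    · obtain ⟨he1, he2⟩ := hem l hlz
      have hcharE : CharP E p := charP_of_injective_ringHom hE.inj p
      set c : ZMod p := Multiplicative.toAdd (l z) with hc
      have hc0 : c ≠ 0 := by
        intro h
        apply hlz
        exact h
      have hcast : ∀ x : ZMod p, i (ZMod.castHom (dvd_refl p) Eb x) =
          ZMod.castHom (dvd_refl p) E x := by
        intro x
        exact congrArg (fun F : ZMod p →+* E => F x)
          (Subsingleton.elim (i.comp (ZMod.castHom (dvd_refl p) Eb)) (ZMod.castHom (dvd_refl p) E))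
      have hcastX : algebraMap κ[X] E (ZMod.castHom (dvd_refl p) κ[X] c) =
          ZMod.castHom (dvd_refl p) E c :=
        congrArg (fun F : ZMod p →+* E => F c)
          (Subsingleton.elim ((algebraMap κ[X] E).comp (ZMod.castHom (dvd_refl p) κ[X]))
            (ZMod.castHom (dvd_refl p) E))
      have hval : ∀ x : ZMod p, ((x.val : ℕ) : E) = ZMod.castHom (dvd_refl p) E x := by
        intro x
        rw [ZMod.castHom_apply, ZMod.natCast_val]
      refine ⟨ZMod.castHom (dvd_refl p) E c * (Y - i (e l)),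
        ZMod.castHom (dvd_refl p) κ[X] c * (m0 l + f), ?_, ?_, ?_⟩
      · intro g
        have h1 : g • (ZMod.castHom (dvd_refl p) E c) = ZMod.castHom (dvd_refl p) E c := by
          rw [← hcast, hiact]
          congr 1
          have h2 : ZMod.castHom (dvd_refl p) Eb c = algebraMap κ[X] Eb ((c.val : ℕ) : κ[X]) := by
            rw [map_natCast, ZMod.castHom_apply, ZMod.natCast_val]
          rw [h2, hgal.comm]
        rw [smul_mul', h1, smul_sub, hYact, hiact, he2 g, map_add, hcast, hval, map_mul, map_sub]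
        have h3 : ZMod.castHom (dvd_refl p) E c * ZMod.castHom (dvd_refl p) E c⁻¹ = 1 := by
          rw [← map_mul, mul_inv_cancel₀ hc0, map_one]
        linear_combination (ZMod.castHom (dvd_refl p) E (Multiplicative.toAdd (l g))) * h3
      · have h1 : ZMod.castHom (dvd_refl p) E c ^ p = ZMod.castHom (dvd_refl p) E c := by
          rw [← map_pow, ZMod.pow_card]
        rw [mul_pow, h1, QOTS_sub_pow hp hpE, map_mul, hcastX, map_add, ← hialg, he1, ← map_pow]
        have h2 := hYp
        rw [map_add] at h2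
        rw [map_sub, map_sub]
        rw [hialg] at h2
        linear_combination (ZMod.castHom (dvd_refl p) E c) * h2
      · have h1 : ZMod.castHom (dvd_refl p) κ[X] c = C (ZMod.castHom (dvd_refl p) κ c) :=
          congrArg (fun F : ZMod p →+* κ[X] => F c)
            (Subsingleton.elim (ZMod.castHom (dvd_refl p) κ[X])
              ((C : κ →+* κ[X]).comp (ZMod.castHom (dvd_refl p) κ)))
        have h2 : ZMod.castHom (dvd_refl p) κ c ≠ 0 := by
          intro h
          exact hc0 ((ZMod.castHom_injective κ) (by rw [h, map_zero]))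
        rw [h1, natDegree_C_mul h2, natDegree_add_eq_right_of_natDegree_lt
          (lt_of_le_of_lt (hD' l) hfdeg)]
        exact hfp

end MP7b0bad

end
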