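import Mathlib.LinearAlgebra.Lagrange
import Pool.Agent.Work.MP_7b0bad_ag.Bd.B06
import Pool.Agent.Work.MP_7b0bad_ag.Bd.B04
import Pool.Agent.Work.MP_7b0bad_ag.Bd.B01
import Pool.Agent.Work.MP_7b0bad_ag.Bd.B03
import Pool.Agent.Work.MP_7b0bad_ag.Bd.B07

/-! Bundle of small proof modules (one section per former module). -/

section

set_option autoImplicit false

namespace MP7b0bad

open Polynomial

theorem prf_QV3 (hQV1 : QV1) (hQV2 : QV2) : QV3 := by
  intro k _ N V ξ G _ _ P P' hP H hH Q _ _ _ O c hQ hD hN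
  classical
  obtain ⟨ι, _, e, he⟩ := hQV1 k N V ξ G P P' hP Q O hQ hD hN
  obtain ⟨ι', _, f, hf⟩ := hQV2 k N G P' H hH Q c hQ
  obtain ⟨b, hS, hR⟩ := all_PB k (VQ (G := G) hQ) ι ι' e f
  have hself : ∀ (S : Subring (Fk k)) (l i : ι), b.repr (b l) i ∈ S := by
    intro S l i
    rw [Module.Basis.repr_self, Finsupp.single_apply]
    split_ifs
    · exact S.one_mem
    · exact S.zero_mem
  set θ : ι ≃ Fin (Fintype.card ι) := Fintype.equivFin ι with hθ
  -- expansion
  have hexp : ∀ v : VQ (G := G) hQ, (v : G → ∀ i, Q i) =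
      ∑ l : Fin (Fintype.card ι), b.repr v (θ.symm l) • (b (θ.symm l) : G → ∀ i, Q i) := by
    intro v
    have h1 : ∑ i, b.repr v i • (b i : G → ∀ i, Q i) = (v : G → ∀ i, Q i) := by
      have h2 := congrArg (Submodule.subtype (VQ (G := G) hQ)) (b.sum_repr v)
      rw [map_sum] at h2
      simpa using h2
    rw [← h1]
    exact (Equiv.sum_comp θ.symm fun i => b.repr v i • (b i : G → ∀ i, Q i)).symm
  refine ⟨Fintype.card ι, fun l => (b (θ.symm l) : G → ∀ i, Q i), ?_, ?_, ?_, ?_, ?_⟩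
  · intro l
    refine ⟨⟨(b (θ.symm l)).2, ?_⟩, ?_⟩
    · exact (he _).2 ((hS _).1 fun i => hself _ _ i)
    · exact (hf _).2 ((hR _).1 fun i => hself _ _ i)
  · intro v hv
    have hcoord := (hS ⟨v, hv.1⟩).2 ((he ⟨v, hv.1⟩).1 hv.2)
    exact ⟨fun l => b.repr ⟨v, hv.1⟩ (θ.symm l), fun l => hcoord _, hexp ⟨v, hv.1⟩⟩
  · intro v hv
    have hcoord := (hR ⟨v, hv.1⟩).2 ((hf ⟨v, hv.1⟩).1 hv.2)
    exact ⟨fun l => b.repr ⟨v, hv.1⟩ (θ.symm l), fun l => hcoord _, hexp ⟨v, hv.1⟩⟩
  · intro a ha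
    have h0 : ∑ i, a (θ i) • b i = 0 := by
      apply Subtype.ext
      have h3 : ((∑ i, a (θ i) • b i : VQ (G := G) hQ) : G → ∀ i, Q i) =
          ∑ i, a (θ i) • (b i : G → ∀ i, Q i) := by
        have h2 := map_sum (Submodule.subtype (VQ (G := G) hQ)) (fun i => a (θ i) • b i) Finset.univ
        simpa using h2
      rw [h3]
      have h4 := Equiv.sum_comp θ.symm fun i => a (θ i) • (b i : G → ∀ i, Q i)
      simp only [Equiv.apply_symm_apply] at h4
      rw [← h4]
      exact ha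
    have h5 := b.repr_sum_self (fun i => a (θ i))
    rw [h0] at h5
    funext l
    have := congrFun h5 (θ.symm l)
    rw [Equiv.apply_symm_apply] at this
    rw [← this]
    simp
  · intro v hv
    have hc1 := (hS ⟨v, hv.1.1⟩).2 ((he ⟨v, hv.1.1⟩).1 hv.1.2)
    have hc2 := (hR ⟨v, hv.1.1⟩).2 ((hf ⟨v, hv.1.1⟩).1 hv.2)
    have h6 : ∀ l : Fin (Fintype.card ι), ∃ g : (LaurentSeries k)[X],
        jj k g = b.repr ⟨v, hv.1.1⟩ (θ.symm l) :=
      fun l => (prf_A8 k).2.2 _ (hc2 _) (hc1 _)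
    choose g hg using h6
    refine ⟨g, ?_⟩
    simp only [hg]
    exact hexp ⟨v, hv.1.1⟩

end MP7b0bad

end

section

set_option autoImplicit false

/-!
# QV4S: etale certificate over `S`
-/

namespace MP7b0bad

open Polynomial

section

variable {k : Type} [Field k] {N : ℕ} {ξ : Fin N → Fk k} {G : Type} [Group G] {P : Subgroup G}
  {P' : Fin N → Subgroup G} {hP : ∀ i, P' i ≤ P}
  {Q : Fin N → Type} [∀ i, CommRing (Q i)] [∀ i, Algebra (Fk k) (Q i)]
  [∀ i, MulSemiringAction (P' i) (Q i)]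

/-- the element of `P` that carries the representative to `g` -/
noncomputable def QV4S_ga (P : Subgroup G) (q : G ⧸ P) (g : G)
    (h : (QuotientGroup.mk g : G ⧸ P) = q) : P :=
  ⟨q.out⁻¹ * g, QuotientGroup.eq.1 (by rw [QuotientGroup.out_eq', h])⟩

open Classical in
/-- function supported on a coset -/
noncomputable def QV4S_psi
    (O : Outer k N ξ P (fun i => P' i) (fun i => Subgroup.inclusion (hP i)) Q)
    (q : G ⧸ P) (y : O.A) : G → ∀ i, Q i :=
  fun g i => if h : (QuotientGroup.mk g : G ⧸ P) = q then O.a i ((QV4S_ga P q g h)⁻¹ • y) else 0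

theorem QV4S_mk (q : G ⧸ P) (g : G) (τ : P) (h : (QuotientGroup.mk g : G ⧸ P) = q) :
    (QuotientGroup.mk (g * τ) : G ⧸ P) = q := by
  rw [QuotientGroup.mk_mul_of_mem g τ.2, h]

theorem QV4S_ga_mul (q : G ⧸ P) (g : G) (τ : P) (h : (QuotientGroup.mk g : G ⧸ P) = q)
    (h' : (QuotientGroup.mk (g * τ) : G ⧸ P) = q) :
    QV4S_ga P q (g * τ) h' = QV4S_ga P q g h * τ := by
  apply Subtype.ext
  show q.out⁻¹ * (g * τ) = q.out⁻¹ * g * τ
  rw [mul_assoc]

theorem QV4S_psi_pos (O : Outer k N ξ P (fun i => P' i) (fun i => Subgroup.inclusion (hP i)) Q)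
    (q : G ⧸ P) (y : O.A) (g : G) (i : Fin N) (h : (QuotientGroup.mk g : G ⧸ P) = q) :
    QV4S_psi O q y g i = O.a i ((QV4S_ga P q g h)⁻¹ • y) := dif_pos h

theorem QV4S_psi_neg (O : Outer k N ξ P (fun i => P' i) (fun i => Subgroup.inclusion (hP i)) Q)
    (q : G ⧸ P) (y : O.A) (g : G) (i : Fin N) (h : (QuotientGroup.mk g : G ⧸ P) ≠ q) :
    QV4S_psi O q y g i = 0 := dif_neg h

theorem QV4S_psi_one_pos
    (O : Outer k N ξ P (fun i => P' i) (fun i => Subgroup.inclusion (hP i)) Q)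
    (q : G ⧸ P) (g : G) (i : Fin N) (h : (QuotientGroup.mk g : G ⧸ P) = q) :
    QV4S_psi O q 1 g i = 1 := by
  rw [QV4S_psi_pos O q 1 g i h, smul_one, map_one]

theorem QV4S_psi_EqQ (O : Outer k N ξ P (fun i => P' i) (fun i => Subgroup.inclusion (hP i)) Q)
    (q : G ⧸ P) (y : O.A) : QV4S_psi O q y ∈ EqQ G P' Q := by
  intro g i τ
  have hτ : (τ : G) ∈ P := hP i τ.2
  by_cases h : (QuotientGroup.mk g : G ⧸ P) = q
  · have h' : (QuotientGroup.mk (g * τ) : G ⧸ P) = q := QV4S_mk q g ⟨τ, hτ⟩ h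
    rw [QV4S_psi_pos O q y g i h, QV4S_psi_pos O q y (g * τ) i h']
    have h1 : QV4S_ga P q (g * τ) h' = QV4S_ga P q g h * Subgroup.inclusion (hP i) τ :=
      QV4S_ga_mul q g (Subgroup.inclusion (hP i) τ) h h'
    rw [h1, mul_inv_rev, mul_smul, ← O.a_act i τ, smul_inv_smul]
  · have h' : (QuotientGroup.mk (g * τ) : G ⧸ P) ≠ q := by
      rw [QuotientGroup.mk_mul_of_mem g hτ]; exact h
    rw [QV4S_psi_neg O q y g i h, QV4S_psi_neg O q y (g * τ) i h', smul_zero]

theorem QV4S_psi_InSQ (O : Outer k N ξ P (fun i => P' i) (fun i => Subgroup.inclusion (hP i)) Q)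
    (q : G ⧸ P) (y : O.A) : QV4S_psi O q y ∈ InSQ O := by
  intro g
  by_cases h : (QuotientGroup.mk g : G ⧸ P) = q
  · have h1 : (fun γ : P => QV4S_psi O q y (g * γ)) =
        fun (γ : P) i => O.a i (γ⁻¹ • ((QV4S_ga P q g h)⁻¹ • y)) := by
      funext γ i
      rw [QV4S_psi_pos O q y (g * γ) i (QV4S_mk q g γ h), QV4S_ga_mul q g γ h, mul_inv_rev,
        mul_smul]
    rw [h1]
    exact Subring.subset_closure (Or.inr ⟨_, rfl⟩)
  · have h1 : (fun γ : P => QV4S_psi O q y (g * γ)) = 0 := by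
      funext γ i
      rw [QV4S_psi_neg O q y (g * γ) i (by rw [QuotientGroup.mk_mul_of_mem g γ.2]; exact h)]
      rfl
    rw [h1]
    exact (SM O).zero_mem

theorem QV4S_mem (O : Outer k N ξ P (fun i => P' i) (fun i => Subgroup.inclusion (hP i)) Q)
    (q : G ⧸ P) (y : O.A) : QV4S_psi O q y ∈ EqQ G P' Q ⊓ InSQ O :=
  ⟨QV4S_psi_EqQ O q y, QV4S_psi_InSQ O q y⟩

theorem QV4S_key (O : Outer k N ξ P (fun i => P' i) (fun i => Subgroup.inclusion (hP i)) Q)
    (σ : G) (hσ : σ ≠ 1) (q : G ⧸ P) :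
    ∃ (n : ℕ) (α β : Fin n → G → ∀ i, Q i),
    (∀ m, α m ∈ EqQ G P' Q ⊓ InSQ O ∧ β m ∈ EqQ G P' Q ⊓ InSQ O) ∧
    ∑ m, α m * (β m - trQ σ (β m)) = QV4S_psi O q 1 := by
  have hmk : ∀ g : G, (QuotientGroup.mk g : G ⧸ P) = q →
      (QuotientGroup.mk (σ⁻¹ * g) : G ⧸ P) = QuotientGroup.mk (σ⁻¹ * q.out) := by
    intro g hg
    have h1 : σ⁻¹ * g = σ⁻¹ * q.out * (QV4S_ga P q g hg : G) := by
      show σ⁻¹ * g = σ⁻¹ * q.out * (q.out⁻¹ * g)
      group
    rw [h1]
    exact QuotientGroup.mk_mul_of_mem _ (QV4S_ga P q g hg).2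
  by_cases hq : (QuotientGroup.mk (σ⁻¹ * q.out) : G ⧸ P) = q
  · -- the coset is fixed
    set τ : P := QV4S_ga P q (σ⁻¹ * q.out) hq with hτ
    have hτv : (τ : G) = q.out⁻¹ * (σ⁻¹ * q.out) := rfl
    have hτ1 : τ⁻¹ ≠ 1 := by
      intro h
      rw [inv_eq_one] at h
      rw [h] at hτv
      apply hσ
      have h1 : q.out⁻¹ * (σ⁻¹ * q.out) = 1 := hτv.symm
      rw [inv_mul_eq_one] at h1
      have h2 : σ⁻¹ = 1 := mul_eq_right.1 h1.symm
      exact inv_eq_one.1 h2
    obtain ⟨n, x, y, hxy⟩ := TII_unr τ⁻¹ (O.gal.unr τ⁻¹ hτ1)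
    refine ⟨n, fun m => QV4S_psi O q (x m), fun m => QV4S_psi O q (y m),
      fun m => ⟨QV4S_mem O q _, QV4S_mem O q _⟩, ?_⟩
    funext g i
    rw [Finset.sum_apply, Finset.sum_apply]
    by_cases hg : (QuotientGroup.mk g : G ⧸ P) = q
    · have hg' : (QuotientGroup.mk (σ⁻¹ * g) : G ⧸ P) = q := by rw [hmk g hg, hq]
      have h1 : QV4S_ga P q (σ⁻¹ * g) hg' = τ * QV4S_ga P q g hg := by
        apply Subtype.ext
        show q.out⁻¹ * (σ⁻¹ * g) = (q.out⁻¹ * (σ⁻¹ * q.out)) * (q.out⁻¹ * g)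
        group
      rw [QV4S_psi_one_pos O q g i hg]
      have h2 : ∀ m, (QV4S_psi O q (x m) * (QV4S_psi O q (y m) - trQ σ (QV4S_psi O q (y m)))) g i =
          O.a i ((QV4S_ga P q g hg)⁻¹ • (x m * (y m - τ⁻¹ • y m))) := by
        intro m
        show QV4S_psi O q (x m) g i * (QV4S_psi O q (y m) g i -
          QV4S_psi O q (y m) (σ⁻¹ * g) i) = _
        rw [QV4S_psi_pos O q (x m) g i hg, QV4S_psi_pos O q (y m) g i hg,
          QV4S_psi_pos O q (y m) (σ⁻¹ * g) i hg', h1, mul_inv_rev, mul_smul, smul_mul', smul_sub,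
          map_mul, map_sub]
      rw [Finset.sum_congr rfl fun m _ => h2 m, ← map_sum, ← Finset.smul_sum, hxy, smul_one,
        map_one]
    · rw [QV4S_psi_neg O q 1 g i hg]
      refine Finset.sum_eq_zero fun m _ => ?_
      show QV4S_psi O q (x m) g i * _ = 0
      rw [QV4S_psi_neg O q (x m) g i hg, zero_mul]
  · refine ⟨1, fun _ => QV4S_psi O q 1, fun _ => QV4S_psi O q 1,
      fun m => ⟨QV4S_mem O q _, QV4S_mem O q _⟩, ?_⟩
    rw [Fin.sum_univ_one]
    funext g i
    show QV4S_psi O q 1 g i * (QV4S_psi O q 1 g i - QV4S_psi O q 1 (σ⁻¹ * g) i) =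
      QV4S_psi O q 1 g i
    by_cases hg : (QuotientGroup.mk g : G ⧸ P) = q
    · have hg' : (QuotientGroup.mk (σ⁻¹ * g) : G ⧸ P) ≠ q := by rw [hmk g hg]; exact hq
      rw [QV4S_psi_one_pos O q g i hg, QV4S_psi_neg O q 1 (σ⁻¹ * g) i hg', sub_zero, mul_one]
    · rw [QV4S_psi_neg O q 1 g i hg, zero_mul]

end

theorem prf_QV4S (_hQP1 : QP1) : QV4S := by
  classical
  intro k _ N ξ G _ _ P P' hP Q _ _ _ O σ _ hσ
  choose n α β hαβ hsum using QV4S_key O σ hσ
  have : Fintype (G ⧸ P) := Fintype.ofFinite _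
  set I := Σ q : G ⧸ P, Fin (n q) with hI
  refine ⟨Fintype.card I,
    fun m => α ((Fintype.equivFin I).symm m).1 ((Fintype.equivFin I).symm m).2,
    fun m => β ((Fintype.equivFin I).symm m).1 ((Fintype.equivFin I).symm m).2,
    fun m => hαβ _ _, ?_⟩
  rw [Equiv.sum_comp (Fintype.equivFin I).symm
    (fun m : I => α m.1 m.2 * (β m.1 m.2 - trQ σ (β m.1 m.2))), Fintype.sum_sigma]
  simp only [hsum]
  funext g i
  rw [Finset.sum_apply, Finset.sum_apply,
    Finset.sum_eq_single (QuotientGroup.mk g : G ⧸ P)]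
  · rw [QV4S_psi_one_pos O _ g i rfl]
    rfl
  · intro q _ hq
    exact QV4S_psi_neg O q 1 g i (Ne.symm hq)
  · intro h
    exact absurd (Finset.mem_univ _) h

end MP7b0bad

end

section

set_option autoImplicit false

namespace MP7b0bad

open Polynomial

section

variable {k : Type} [Field k] {N : ℕ} {G : Type} [Group G]
  {Q : Fin N → Type} [∀ i, CommRing (Q i)] [∀ i, Algebra (Fk k) (Q i)]

/-- constants -/
noncomputable def QV5_c (k : Type) [Field k] {N : ℕ} (G : Type)
    (Q : Fin N → Type) [∀ i, CommRing (Q i)] [∀ i, Algebra (Fk k) (Q i)] :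
    Fk k →+* (G → ∀ i, Q i) :=
  Pi.ringHom fun _ => Pi.ringHom fun i => algebraMap (Fk k) (Q i)

theorem QV5_smul (r : Fk k) (v : G → ∀ i, Q i) : r • v = QV5_c k G Q r * v := by
  funext g i
  exact Algebra.smul_def r (v g i)

theorem QV5_tr_mul (σ : G) (r : Fk k) (v : G → ∀ i, Q i) :
    trQ σ (QV5_c k G Q r * v) = QV5_c k G Q r * trQ σ v := by
  funext g i
  rfl

theorem QV5_tr_sum (σ : G) {n : ℕ} (s : Fin n → Fk k) (b : Fin n → G → ∀ i, Q i) :
    trQ σ (∑ l, QV5_c k G Q (s l) * b l) = ∑ l, QV5_c k G Q (s l) * trQ σ (b l) := by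
  funext g i
  simp only [trQ, Finset.sum_apply, Pi.mul_apply]
  rfl

theorem QV5_comb (σ : G) (T : Subring (Fk k)) {n : ℕ} (b : Fin n → G → ∀ i, Q i) (m : ℕ)
    (α β : Fin m → G → ∀ i, Q i)
    (hα : ∀ j, ∃ s : Fin n → Fk k, (∀ l, s l ∈ T) ∧ α j = ∑ l, s l • b l)
    (hβ : ∀ j, ∃ s : Fin n → Fk k, (∀ l, s l ∈ T) ∧ β j = ∑ l, s l • b l)
    (h1 : ∑ j, α j * (β j - trQ σ (β j)) = 1) :
    ∃ ρ : Fin n × Fin n → Fk k, (∀ q, ρ q ∈ T) ∧
      ∑ q, QV5_c k G Q (ρ q) * (b q.1 * (b q.2 - trQ σ (b q.2))) = 1 := by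
  simp only [QV5_smul] at hα hβ
  choose s' hs' hα' using hα
  choose s hs hβ' using hβ
  refine ⟨fun q => ∑ j, s' j q.1 * s j q.2, fun q => T.sum_mem fun j _ =>
    T.mul_mem (hs' j q.1) (hs j q.2), ?_⟩
  rw [← h1]
  simp only [map_sum, Finset.sum_mul]
  rw [Finset.sum_comm]
  refine Finset.sum_congr rfl fun j _ => ?_
  have h2 : β j - trQ σ (β j) = ∑ l, QV5_c k G Q (s j l) * (b l - trQ σ (b l)) := by
    rw [hβ' j, QV5_tr_sum, ← Finset.sum_sub_distrib]
    refine Finset.sum_congr rfl fun l _ => ?_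
    rw [mul_sub]
  rw [h2, hα' j, Finset.sum_mul_sum, Fintype.sum_prod_type]
  refine Finset.sum_congr rfl fun q _ => Finset.sum_congr rfl fun l _ => ?_
  rw [map_mul]
  ring

end

section

variable {k : Type} [Field k] {N : ℕ} {ξ : Fin N → Fk k} {G : Type} [Group G] {P : Subgroup G}
  {P' : Fin N → Subgroup G} {hP : ∀ i, P' i ≤ P} {H : Fin N → Subgroup G} {hH : ∀ i, P' i ≤ H i}
  {Q : Fin N → Type} [∀ i, CommRing (Q i)] [∀ i, Algebra (Fk k) (Q i)]
  [∀ i, MulSemiringAction (P' i) (Q i)]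

/-- multiplication by constants -/
theorem QV5_smul_mem
    (O : Outer k N ξ P (fun i => P' i) (fun i => Subgroup.inclusion (hP i)) Q)
    (c : ∀ i, Inner k (H i) (P' i) (Subgroup.inclusion (hH i)) (Q i))
    (hQ : ∀ i, GalAlg (Fk k) (P' i) (Q i))
    (r : Fk k) (hR : r ∈ Rr k) (hS : r ∈ Ss k) (v : G → ∀ i, Q i) (hv : v ∈ BQ O c) :
    QV5_c k G Q r * v ∈ BQ O c := by
  obtain ⟨⟨h1, h2⟩, h3⟩ := hv
  have hsm : ∀ g i, (QV5_c k G Q r * v) g i = algebraMap (Fk k) (Q i) r * v g i := fun g i => rfl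
  refine ⟨⟨?_, ?_⟩, ?_⟩
  · rw [← QV5_smul]
    exact (VQ (G := G) hQ).smul_mem r h1
  · intro g
    have h4 : (fun γ : P => (QV5_c k G Q r * v) (g * γ)) =
        (fun _ i => algebraMap (Fk k) (Q i) r) * (fun γ : P => v (g * γ)) := by
      funext γ i
      exact hsm _ _
    rw [h4]
    exact (SM O).mul_mem (Subring.subset_closure (Or.inl ⟨r, hS, rfl⟩)) (h2 g)
  · intro i g
    have h4 : (fun γ : H i => (QV5_c k G Q r * v) (g * γ) i) =
        (fun _ => algebraMap (Fk k) (Q i) r) * (fun γ : H i => v (g * γ) i) := by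
      funext γ
      exact hsm _ _
    rw [h4]
    exact (RN (c i)).mul_mem (Subring.subset_closure (Or.inl ⟨r, hR, rfl⟩)) (h3 i g)

end

theorem prf_QV5 (hQT1 : QT1) (hQV3 : QV3) (hQV4R : QV4R) (hQV4S : QV4S) : QV5 := by
  intro k _ N V ξ G _ _ P P' hP H hH Q _ _ _ O c σ hQ hD hN hσ
  obtain ⟨n, b, hb, hbS, hbR, hli, hbK⟩ := hQV3 k N V ξ G P P' hP H hH Q O c hQ hD hN
  obtain ⟨hjinj, hjmem, -⟩ := prf_A8 k
  have htr : ∀ v ∈ BQ O c, trQ σ v ∈ BQ O c := (hQT1 k N V ξ G P P' hP H hH Q O c hQ hD).2 σ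
  -- the products
  have hnn : ∀ q : Fin n × Fin n, b q.1 * (b q.2 - trQ σ (b q.2)) ∈ BQ O c := fun q =>
    (BQ O c).mul_mem (hb q.1) ((BQ O c).sub_mem (hb q.2) (htr _ (hb q.2)))
  simp only [QV5_smul] at hbK hli
  choose u hu using fun q => hbK _ (hnn q)
  obtain ⟨v, hv⟩ := hbK 1 (BQ O c).one_mem
  -- the coordinates of 1 from a relation over a subring
  have hcoord : ∀ ρ : Fin n × Fin n → Fk k,
      ∑ q, QV5_c k G Q (ρ q) * (b q.1 * (b q.2 - trQ σ (b q.2))) = 1 →
      ∀ h, jj k (v h) = ∑ q, ρ q * jj k (u q h) := by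
    intro ρ hρ h
    have h1 : ∑ h, QV5_c k G Q (jj k (v h) - ∑ q, ρ q * jj k (u q h)) * b h = 0 := by
      simp only [map_sub, map_sum, map_mul, sub_mul, Finset.sum_sub_distrib, Finset.sum_mul]
      rw [← hv, ← hρ, Finset.sum_comm, ← Finset.sum_sub_distrib]
      refine Finset.sum_eq_zero fun q _ => ?_
      rw [hu q, Finset.mul_sum, sub_eq_zero]
      exact Finset.sum_congr rfl fun h _ => by rw [mul_assoc]
    have h2 := congrFun (hli _ h1) h
    exact sub_eq_zero.1 h2
  obtain ⟨mR, αR, βR, hR, h1R⟩ := hQV4R k N G P' H hH Q c σ hQ hσ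
  obtain ⟨mS, αS, βS, hS, h1S⟩ := hQV4S k N ξ G P P' hP Q O σ hQ hσ
  obtain ⟨ρR, hρR, hR1⟩ := QV5_comb σ (Rr k) b mR αR βR (fun j => hbR _ (hR j).1)
    (fun j => hbR _ (hR j).2) h1R
  obtain ⟨ρS, hρS, hS1⟩ := QV5_comb σ (Ss k) b mS αS βS (fun j => hbS _ (hS j).1)
    (fun j => hbS _ (hS j).2) h1S
  have hcR := hcoord ρR hR1
  have hcS := hcoord ρS hS1
  let e : Fin (n * n) ≃ Fin n × Fin n := finProdFinEquiv.symm
  obtain ⟨cc, hcc⟩ := prf_LD prf_A8 k n (n * n) (fun a => u (e a)) v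
    ⟨fun a => ρR (e a), fun a => hρR _, fun l => by
      rw [hcR l]
      exact (Equiv.sum_comp e (fun q => ρR q * jj k (u q l))).symm⟩
    ⟨fun a => ρS (e a), fun a => hρS _, fun l => by
      rw [hcS l]
      exact (Equiv.sum_comp e (fun q => ρS q * jj k (u q l))).symm⟩
  refine ⟨n * n, fun a => QV5_c k G Q (jj k (cc a)) * b (e a).1, fun a => b (e a).2, fun a =>
    ⟨QV5_smul_mem O c hQ _ (hjmem _).1 (hjmem _).2 _ (hb _), hb _⟩, ?_⟩
  have h1 : ∀ a, QV5_c k G Q (jj k (cc a)) * b (e a).1 * (b (e a).2 - trQ σ (b (e a).2)) =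
      ∑ h, QV5_c k G Q (jj k (cc a * u (e a) h)) * b h := by
    intro a
    rw [mul_assoc, hu (e a), Finset.mul_sum]
    exact Finset.sum_congr rfl fun h _ => by rw [← mul_assoc, map_mul, map_mul]
  simp only [h1]
  rw [Finset.sum_comm]
  conv_rhs => rw [hv]
  refine Finset.sum_congr rfl fun h _ => ?_
  rw [← Finset.sum_mul, ← map_sum, ← map_sum, hcc h]

end MP7b0bad

end

section

set_option autoImplicit false

namespace MP7b0bad

open Polynomial

theorem prf_QV6 (hQS3 : QS3) (hQD3 : QD3) : QV6 := by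
  intro k _ N V ξ G _ _ P P' hP H hH Q _ _ _ O c hQ hD hN hgen v hv hv0
  obtain ⟨⟨_, hvS⟩, hvR⟩ := hv
  have hS : ∀ g : G, (fun γ : P => v (g * γ)) ∈ SM O := hvS
  have hR : ∀ i (g : G), (fun γ : H i => v (g * γ) i) ∈ RN (c i) := hvR
  -- along `P`
  have stepP : ∀ (g : G) (i : Fin N), v g i = 0 → ∀ γ : P, v (g * γ) = 0 := by
    intro g i hgi γ
    have h1 := (hQS3 k N V ξ P (fun i => P' i) (fun i => Subgroup.inclusion (hP i)) Q O hD hN hQ
      (fun γ : P => v (g * γ)) (hS g)).1 ⟨1, i, by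
        show v (g * ((1 : P) : G)) i = 0
        rw [Subgroup.coe_one, mul_one]; exact hgi⟩
    exact congrFun h1 γ
  -- along `H i`
  have stepH : ∀ (i : Fin N) (g : G), v g = 0 → ∀ γ : H i, v (g * γ) = 0 := by
    intro i g hg γ
    have h1 := (hQD3 k (H i) (P' i) (Subgroup.inclusion (hH i)) (Q i) (c i) (hQ i)
      (fun γ : H i => v (g * γ) i) (hR i g)).1 ⟨1, by
        show v (g * ((1 : H i) : G)) i = 0
        rw [Subgroup.coe_one, mul_one, hg]; rfl⟩
    have h2 : v (g * γ) i = 0 := congrFun h1 γ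
    have h3 := stepP (g * γ) i h2 1
    rwa [Subgroup.coe_one, mul_one] at h3
  let K : Subgroup G :=
    { carrier := {a | ∀ g, v g = 0 ↔ v (g * a) = 0}
      one_mem' := fun g => by rw [mul_one]
      mul_mem' := fun {a b} ha hb g => by
        have h1 : v g = 0 ↔ v (g * a) = 0 := ha g
        have h2 : v (g * a) = 0 ↔ v (g * a * b) = 0 := hb (g * a)
        rw [← mul_assoc]
        exact h1.trans h2
      inv_mem' := fun {a} ha g => by
        have h1 : v (g * a⁻¹) = 0 ↔ v (g * a⁻¹ * a) = 0 := ha (g * a⁻¹)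
        rw [inv_mul_cancel_right] at h1
        exact h1.symm }
  have hPK : P ≤ K := by
    intro a ha g
    have i0 : Fin N := ⟨0, hN⟩
    constructor
    · intro hg
      exact stepP g i0 (by rw [hg]; rfl) ⟨a, ha⟩
    · intro hg
      have h1 := stepP (g * a) i0 (by rw [hg]; rfl) ⟨a⁻¹, P.inv_mem ha⟩
      rwa [mul_inv_cancel_right] at h1
  have hHK : ∀ i, H i ≤ K := by
    intro i a ha g
    constructor
    · intro hg
      exact stepH i g hg ⟨a, ha⟩
    · intro hg
      have h1 := stepH i (g * a) hg ⟨a⁻¹, (H i).inv_mem ha⟩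
      rwa [mul_inv_cancel_right] at h1
  have hK : K = ⊤ := by
    rw [eq_top_iff, ← hgen]
    exact sup_le hPK (iSup_le hHK)
  obtain ⟨g0, i0, h0⟩ := hv0
  have h1 : v g0 = 0 := by
    have := stepP g0 i0 h0 1
    rwa [Subgroup.coe_one, mul_one] at this
  funext g
  have h2 : g0⁻¹ * g ∈ K := by rw [hK]; trivial
  have h3 := (h2 g0).mp h1
  rw [mul_inv_cancel_left] at h3
  exact h3

end MP7b0bad

end

section

set_option autoImplicit false

namespace MP7b0bad

open Polynomial

theorem prf_QV7 (hQS3 : QS3) (hQD3 : QD3) (hQC2a : QC2a) : QV7 := by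
  intro k _ N V ξ G _ _ P P' hP H hH Q _ _ _ O c hQ hD hN v hv hinv
  have hconst : ∀ g : G, v g = v 1 := by
    intro g
    have h1 := congrFun (hinv g) g
    simp only [trQ, inv_mul_cancel] at h1
    exact h1.symm
  have hS : v ∈ InSQ O := hv.1.2
  have hR : v ∈ InRQ c := hv.2
  -- invariants on `P`
  obtain ⟨a, haS, ha⟩ := (hQS3 k N V ξ P (fun i => P' i) (fun i => Subgroup.inclusion (hP i)) Q O
    hD hN hQ (fun γ : P => v (1 * γ)) (hS 1)).2 (fun γ => by
      show v (1 * (γ : G)) = v (1 * ((1 : P) : G))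
      rw [hconst, ← hconst (1 * ((1 : P) : G))])
  have ha' : ∀ i, v 1 i = algebraMap (Fk k) (Q i) (∑ j, a j * ξ i ^ (j : ℕ)) := by
    intro i
    have h1 := ha 1 i
    simp only [one_mul, OneMemClass.coe_one] at h1
    exact h1
  have hr : ∀ i, ∑ j, a j * ξ i ^ (j : ℕ) ∈ Rr k := by
    intro i
    obtain ⟨r, hr, hr'⟩ := (hQD3 k (H i) (P' i) (Subgroup.inclusion (hH i)) (Q i) (c i) (hQ i)
      (fun γ : H i => v (1 * γ) i) (hR i 1)).2 (fun γ => by
        show v (1 * (γ : G)) i = v (1 * ((1 : H i) : G)) i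
        rw [hconst, ← hconst (1 * ((1 : H i) : G))])
    have h1 := hr' 1
    simp only [one_mul, OneMemClass.coe_one] at h1
    rw [ha' i] at h1
    rw [(hQ i).inj h1]
    exact hr
  have haR : ∀ j, a j ∈ Rr k := (hQC2a k N V ξ hD).2 a hr
  have hg : ∀ j, ∃ f, jj k f = a j := fun j => (prf_A8 k).2.2 (a j) (haR j) (haS j)
  choose g hg using hg
  refine ⟨∑ j, (g j).comp V * X ^ (j : ℕ), ?_⟩
  funext γ i
  rw [hconst γ, ha' i]
  show _ = algebraMap (Fk k) (Q i) (eval₂RingHom (KF k) (ξ i) (∑ j, (g j).comp V * X ^ (j : ℕ)))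
  congr 1
  rw [map_sum]
  refine Finset.sum_congr rfl fun j _ => ?_
  rw [map_mul, map_pow, coe_eval₂RingHom, eval₂_X, eval₂_comp, hD.root i, ← hg j]
  rfl

end MP7b0bad

end

section

set_option autoImplicit false

namespace MP7b0bad

open Polynomial

theorem QVad_step {K : Type} [Field K] (V f q r : K[X]) (hf : f = V * q + r)
    (hr : r.natDegree < V.natDegree)
    (hq : ∃ g : Fin V.natDegree → K[X], q = ∑ j, (g j).comp V * X ^ (j : ℕ)) :
    ∃ g : Fin V.natDegree → K[X], f = ∑ j, (g j).comp V * X ^ (j : ℕ) := by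
  obtain ⟨g, hg⟩ := hq
  refine ⟨fun j => X * g j + C (r.coeff j), ?_⟩
  have h2 : r = ∑ j : Fin V.natDegree, C (r.coeff j) * X ^ (j : ℕ) := by
    conv_lhs => rw [Polynomial.as_sum_range' _ V.natDegree hr]
    rw [Finset.sum_range]
    refine Finset.sum_congr rfl fun j _ => ?_
    rw [C_mul_X_pow_eq_monomial]
  have h3 : ∑ j : Fin V.natDegree, (X * g j + C (r.coeff j)).comp V * X ^ (j : ℕ) =
      V * (∑ j, (g j).comp V * X ^ (j : ℕ)) +
        ∑ j : Fin V.natDegree, C (r.coeff j) * X ^ (j : ℕ) := by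
    rw [Finset.mul_sum, ← Finset.sum_add_distrib]
    refine Finset.sum_congr rfl fun j _ => ?_
    rw [add_comp, mul_comp, X_comp, C_comp]
    ring
  rw [h3, ← hg, ← h2, hf]

theorem QVad_aux (K : Type) [Field K] (V : K[X]) (hV : 0 < V.natDegree) (n : ℕ) :
    ∀ f : K[X], f.natDegree < n →
      ∃ g : Fin V.natDegree → K[X], f = ∑ j, (g j).comp V * X ^ (j : ℕ) := by
  induction n with
  | zero =>
    intro f hf
    exact absurd hf (Nat.not_lt_zero _)
  | succ n ih =>
    intro f hf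
    have hV0 : V ≠ 0 := by
      intro h
      rw [h, natDegree_zero] at hV
      exact lt_irrefl _ hV
    have hdm : V * (f / V) + f % V = f := EuclideanDomain.div_add_mod f V
    have hr : (f % V).degree < V.degree := EuclideanDomain.mod_lt f hV0
    have hr' : (f % V).natDegree < V.natDegree := by
      by_cases h0 : f % V = 0
      · rw [h0, natDegree_zero]
        exact hV
      · exact Polynomial.natDegree_lt_natDegree h0 hr
    refine QVad_step V f _ _ hdm.symm hr' ?_
    by_cases hq0 : f / V = 0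
    · exact ⟨fun _ => 0, by rw [hq0]; simp⟩
    · refine ih _ ?_
      have h4 : (V * (f / V)).natDegree = V.natDegree + (f / V).natDegree :=
        Polynomial.natDegree_mul hV0 hq0
      have h5 : (V * (f / V)).natDegree ≤ f.natDegree ∨
          (V * (f / V)).natDegree ≤ (f % V).natDegree := by
        have h6 : V * (f / V) = f - f % V := by
          rw [eq_sub_iff_add_eq]
          exact hdm
        rw [h6]
        exact le_max_iff.1 (Polynomial.natDegree_sub_le f (f % V))
      rcases h5 with h5 | h5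
      · omega
      · omega

theorem prf_QVad : QVad := by
  intro K _ V f hV
  exact QVad_aux K V hV (f.natDegree + 1) f (Nat.lt_succ_self _)

end MP7b0bad

end

section

set_option autoImplicit false

namespace MP7b0bad

/-! # Group theory of phase 2: the reduction theorem for an abstract relation `R` -/

/-- `G = A ⟨t⟩`, `A` a normal `r`-group, `t` of order `p ≠ r`, and all proper `t`-invariant
subgroups of `A` lie in a proper subgroup `Φ` of `A` that is normal in `G`. -/
structure Blk (p r : ℕ) (G : Type) [Group G] (A Φ : Subgroup G) (t : G) : Prop where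
  rprime : r.Prime
  ne : r ≠ p
  ord : orderOf t = p
  nA : A.Normal
  pA : IsPGroup r A
  gen : A ⊔ Subgroup.zpowers t = ⊤
  ncl : Subgroup.normalClosure ({t} : Set G) = ⊤
  nPhi : Φ.Normal
  lt : Φ < A
  max : ∀ B : Subgroup G, B ≤ A → (∀ b ∈ B, t * b * t⁻¹ ∈ B) → B ≠ A → B ≤ Φ

/-- the properties of `Rel` used in the reduction -/
structure RelAx (p : ℕ) (R : ∀ (G : Type) [Group G], Subgroup G → Prop) : Prop where
  iso : ∀ (G G' : Type) [Group G] [Group G'] (φ : G ≃* G') (P : Subgroup G), R G P →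
    R G' (P.map φ.toMonoidHom)
  pgr : ∀ (P : Type) [Group P] [Finite P], IsPGroup p P → R P ⊤
  join : ∀ (G : Type) [Group G] [Finite G] (P : Subgroup G) (N : ℕ) (H P' : Fin N → Subgroup G),
    IsPGroup p P → 0 < N → (∀ i, P' i ≤ P) → (∀ i, P' i ≤ H i) →
    (∀ i, R (H i) ((P' i).subgroupOf (H i))) → (P ⊔ ⨆ i, H i) = ⊤ → R G P
  emb : ∀ (G : Type) [Group G] [Finite G] (N P : Subgroup G) [N.Normal], IsPGroup p P →
    (∀ a ∈ N, a ^ p = 1) → (∀ a ∈ N, ∀ b ∈ N, a * b = b * a) →
    R (G ⧸ N) (P.map (QuotientGroup.mk' N)) →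
    ∃ G' : Subgroup G, P ≤ G' ∧ N ⊔ G' = ⊤ ∧ R G' (P.subgroupOf G')
  blk : ∀ (G : Type) [Group G] [Finite G] (r : ℕ) (A Φ : Subgroup G) (t : G), Blk p r G A Φ t →
    R G (Subgroup.zpowers t)

/-- `H` is a subgroup for which the statement is known with a subgroup of `P` -/
def RH (R : ∀ (G : Type) [Group G], Subgroup G → Prop) {G : Type} [Group G] (P H : Subgroup G) :
    Prop := ∃ P' : Subgroup G, P' ≤ P ∧ P' ≤ H ∧ R H (P'.subgroupOf H)

/-- the normal closure of `Q` in `X` (`Q ≤ X`) -/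
def nclIn {G : Type} [Group G] (X Q : Subgroup G) : Subgroup G :=
  Subgroup.closure {g | ∃ x ∈ X, ∃ q ∈ Q, g = x * q * x⁻¹}

/-- `p`-solvable groups: every nontrivial quotient has a nontrivial normal subgroup that is a
`p`-group or of order prime to `p` -/
def PSol (p : ℕ) (G : Type) [Group G] : Prop :=
  ∀ N : Subgroup G, N.Normal → N ≠ ⊤ → ∃ M : Subgroup G, M.Normal ∧ N < M ∧
    ((∃ n : ℕ, N.relIndex M = p ^ n) ∨ ¬ p ∣ N.relIndex M)

/-- the join theorem for sets of subgroups -/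
def GJoin : Prop := ∀ (p : ℕ) [Fact p.Prime] (R : ∀ (G : Type) [Group G], Subgroup G → Prop),
  RelAx p R → ∀ (G : Type) [Group G] [Finite G] (P : Subgroup G), IsPGroup p P →
  RH R P P ∧ (sSup {H : Subgroup G | RH R P H} = ⊤ → R G P)

/-- conjugation by elements of the centraliser of `P`; the case of `G` itself -/
def GConj : Prop := ∀ (p : ℕ) [Fact p.Prime] (R : ∀ (G : Type) [Group G], Subgroup G → Prop),
  RelAx p R → ∀ (G : Type) [Group G] (P : Subgroup G),
  (∀ (c : G) (H : Subgroup G), (∀ q ∈ P, c * q = q * c) → RH R P H →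
    RH R P (H.map (MulAut.conj c).toMonoidHom)) ∧
  (R (⊤ : Subgroup G) (P.subgroupOf ⊤) → R G P) ∧
  ∀ (X P' : Subgroup G), P' ≤ X → ∀ (c : G), R X (P'.subgroupOf X) →
    R (X.map (MulAut.conj c).toMonoidHom)
      ((P'.map (MulAut.conj c).toMonoidHom).subgroupOf (X.map (MulAut.conj c).toMonoidHom))

/-- coprime action -/
def GCop : Prop := ∀ (p : ℕ) [Fact p.Prime] (G : Type) [Group G] [Finite G] (A Q : Subgroup G),
  ¬ p ∣ Nat.card A → IsPGroup p Q → (∀ q ∈ Q, ∀ a ∈ A, q * a * q⁻¹ ∈ A) →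
  (∀ a ∈ A, ∃ d ∈ nclIn (A ⊔ Q) Q, ∃ c ∈ A, (∀ q ∈ Q, c * q = q * c) ∧ a = d * c) ∧
  nclIn (nclIn (A ⊔ Q) Q) Q = nclIn (A ⊔ Q) Q ∧
  ∀ r : ℕ, r.Prime → ∃ S : Subgroup G, S ≤ A ∧ (∀ q ∈ Q, ∀ a ∈ S, q * a * q⁻¹ ∈ S) ∧
    Nat.card S = r ^ (Nat.card A).factorization r

/-- subnormal closures -/
def GSC : Prop := ∀ (G : Type) [Group G] [Finite G] (X Q : Subgroup G), Q ≤ X →
  ∃ Y : Subgroup G, Q ≤ Y ∧ Y ≤ X ∧ nclIn Y Q = Y ∧
    ∀ M : Subgroup G, M.Normal → M ⊔ X = ⊤ → Subgroup.normalClosure ((Q : Set G) ∪ M) = ⊤ →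
      M ⊔ Y = ⊤

/-- blocks of the form `p'`-group by `p`-group -/
def GR3 : Prop := ∀ (p : ℕ) [Fact p.Prime] (R : ∀ (G : Type) [Group G], Subgroup G → Prop),
  RelAx p R → ∀ (G : Type) [Group G] [Finite G] (A P : Subgroup G), A.Normal → ¬ p ∣ Nat.card A →
  IsPGroup p P → A ⊔ P = ⊤ → Subgroup.normalClosure (P : Set G) = ⊤ → R G P

/-- closure properties of `p`-solvable groups -/
def GPS : Prop := ∀ (p : ℕ) [Fact p.Prime] (G : Type) [Group G] [Finite G], PSol p G →
  (∀ H : Subgroup G, PSol p H) ∧ ∀ (N : Subgroup G) [N.Normal], PSol p (G ⧸ N)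

/-- extensions -/
def GPSE : Prop := ∀ (p : ℕ) [Fact p.Prime] (G : Type) [Group G] [Finite G] (N : Subgroup G)
  [N.Normal], PSol p N → PSol p (G ⧸ N) → PSol p G

/-- Theorem: `p`-solvable groups -/
def GB : Prop := ∀ (p : ℕ) [Fact p.Prime] (R : ∀ (G : Type) [Group G], Subgroup G → Prop),
  RelAx p R → ∀ (G : Type) [Group G] [Finite G] (P : Subgroup G), PSol p G → IsPGroup p P →
  Subgroup.normalClosure (P : Set G) = ⊤ → R G P

/-- the blocks for `p = 2` -/
def GBlk2 : Prop := ∀ (k : Type) [Field k] [IsAlgClosed k] [CharP k 2] (G : Type) [Group G]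
  [Finite G] (r : ℕ) (A Φ : Subgroup G) (t : G), Blk 2 r G A Φ t →
  Rel k G (Subgroup.zpowers t)

/-- the purely wild inertia conjecture for `2`-solvable groups in characteristic `2` -/
def GMain2 : Prop := ∀ (k : Type) [Field k] [IsAlgClosed k] [CharP k 2] (G : Type) [Group G]
  [Finite G] (P : Subgroup G), PSol 2 G → IsPGroup 2 P →
  Subgroup.normalClosure (P : Set G) = ⊤ → Occurs k G P

end MP7b0bad

end

section

set_option autoImplicit false

namespace MP7b0bad

open Polynomial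

theorem QASL_ge_add {K : Type} [Field K] {m : ℤ} {a b : LaurentSeries K} (ha : E3_ge m a)
    (hb : E3_ge m b) : E3_ge m (a + b) := fun n hn => by
  rw [HahnSeries.coeff_add, ha n hn, hb n hn, add_zero]

theorem QASL_ge_sub {K : Type} [Field K] {m : ℤ} {a b : LaurentSeries K} (ha : E3_ge m a)
    (hb : E3_ge m b) : E3_ge m (a - b) := fun n hn => by
  rw [HahnSeries.coeff_sub, ha n hn, hb n hn, sub_zero]

theorem QASL_ge_sum {K : Type} [Field K] {m : ℤ} {ι : Type} (s : Finset ι) (a : ι → LaurentSeries K)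
    (ha : ∀ i ∈ s, E3_ge m (a i)) : E3_ge m (∑ i ∈ s, a i) := fun n hn => by
  rw [HahnSeries.coeff_sum]
  exact Finset.sum_eq_zero fun i hi => ha i hi n hn

theorem QASL_ge_pow {K : Type} [Field K] {m : ℤ} {a : LaurentSeries K} (ha : E3_ge m a) (n : ℕ) :
    E3_ge (n * m) (a ^ n) := by
  induction n with
  | zero =>
    intro i hi
    rw [pow_zero, HahnSeries.coeff_one, if_neg]
    push_cast at hi
    omega
  | succ n ih =>
    rw [pow_succ]
    have h := E3_ge_mul ih ha
    have h2 : ((n : ℤ) * m + m) = ((n + 1 : ℕ) : ℤ) * m := by push_cast; ring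
    rwa [h2] at h

/-- the semilinear map on coordinates -/
noncomputable def QASL_T {K : Type} [Field K] (p : ℕ) {n : ℕ} (γ : Fin n → Fin n → K[X])
    (g : Fin n → LaurentSeries K) : Fin n → LaurentSeries K :=
  fun l' => ∑ l, g l ^ p * atInf K (γ l l')

section

variable {K : Type} [Field K] {p : ℕ} [Fact p.Prime] {n : ℕ} {γ : Fin n → Fin n → K[X]}

theorem QASL_T_sub [CharP (LaurentSeries K) p] (g g' : Fin n → LaurentSeries K) :
    QASL_T p γ (g - g') = QASL_T p γ g - QASL_T p γ g' := by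
  funext l'
  simp only [QASL_T, Pi.sub_apply]
  rw [← Finset.sum_sub_distrib]
  refine Finset.sum_congr rfl fun l _ => ?_
  rw [sub_pow_char]
  ring

theorem QASL_T_ge {r : ℕ} (hγ : ∀ l l', (γ l l').natDegree ≤ r) {m : ℤ} (hm : (r : ℤ) + 1 ≤ m)
    {g : Fin n → LaurentSeries K} (hg : ∀ l, E3_ge m (g l)) :
    ∀ l, E3_ge (m + 1) (QASL_T p γ g l) := by
  intro l'
  refine QASL_ge_sum _ _ fun l _ => ?_
  have h1 := QASL_ge_pow (hg l) p
  have h2 := E3_ge_mul h1 (E3_ge_atInf (γ l l'))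
  refine E3_ge_mono ?_ h2
  have hp : (2 : ℤ) ≤ p := by exact_mod_cast (Fact.out : p.Prime).two_le
  have h3 : ((γ l l').natDegree : ℤ) ≤ r := by exact_mod_cast hγ l l'
  have h4 : (0 : ℤ) ≤ m := by omega
  nlinarith

/-- the iteration -/
noncomputable def QASL_it (p : ℕ) {n : ℕ} (γ : Fin n → Fin n → K[X])
    (w : Fin n → LaurentSeries K) : ℕ → Fin n → LaurentSeries K
  | 0 => 0
  | s + 1 => QASL_T p γ (QASL_it p γ w s) - w

theorem QASL_it_diff [CharP (LaurentSeries K) p] {r : ℕ} (hγ : ∀ l l', (γ l l').natDegree ≤ r)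
    {M : ℤ} (hM : (r : ℤ) + 1 ≤ M) {w : Fin n → LaurentSeries K} (hw : ∀ l, E3_ge M (w l)) (s : ℕ) :
    ∀ l, E3_ge (M + s) ((QASL_it p γ w (s + 1) - QASL_it p γ w s) l) := by
  induction s with
  | zero =>
    intro l
    have h0 : QASL_T p γ (0 : Fin n → LaurentSeries K) = 0 := by
      have h := QASL_T_sub (K := K) (p := p) (γ := γ) 0 0
      rw [sub_zero, sub_self] at h
      exact h
    have h1 : (QASL_it p γ w (0 + 1) - QASL_it p γ w 0) l = 0 - w l := by
      simp only [QASL_it, h0]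
      simp
    rw [h1]
    have h2 := QASL_ge_sub (E3_ge_zero M) (hw l)
    simpa using h2
  | succ s ih =>
    intro l
    have h1 : QASL_it p γ w (s + 1 + 1) - QASL_it p γ w (s + 1) =
        QASL_T p γ (QASL_it p γ w (s + 1) - QASL_it p γ w s) := by
      rw [QASL_T_sub]
      change (QASL_T p γ (QASL_it p γ w (s + 1)) - w) - (QASL_T p γ (QASL_it p γ w s) - w) = _
      abel
    rw [h1]
    have h2 := QASL_T_ge (p := p) hγ (m := M + s) (by omega) ih l
    have h3 : M + ((s + 1 : ℕ) : ℤ) = M + s + 1 := by push_cast; ring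
    rw [h3]
    exact h2

theorem QASL_it_ge [CharP (LaurentSeries K) p] {r : ℕ} (hγ : ∀ l l', (γ l l').natDegree ≤ r)
    {M : ℤ} (hM : (r : ℤ) + 1 ≤ M) {w : Fin n → LaurentSeries K} (hw : ∀ l, E3_ge M (w l))
    (s t : ℕ) : ∀ l, E3_ge (M + s) ((QASL_it p γ w (s + t) - QASL_it p γ w s) l) := by
  induction t with
  | zero =>
    intro l
    rw [add_zero, sub_self]
    exact E3_ge_zero _
  | succ t ih =>
    intro l
    have h1 : (QASL_it p γ w (s + (t + 1)) - QASL_it p γ w s) l =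
        (QASL_it p γ w (s + t + 1) - QASL_it p γ w (s + t)) l +
        (QASL_it p γ w (s + t) - QASL_it p γ w s) l := by
      rw [← add_assoc]
      simp only [Pi.sub_apply]
      ring
    rw [h1]
    refine QASL_ge_add (E3_ge_mono ?_ (QASL_it_diff hγ hM hw (s + t) l)) (ih l)
    push_cast
    omega

theorem QASL_solve [CharP (LaurentSeries K) p] {r : ℕ} (hγ : ∀ l l', (γ l l').natDegree ≤ r)
    {M : ℤ} (hM : (r : ℤ) + 1 ≤ M) {w : Fin n → LaurentSeries K} (hw : ∀ l, E3_ge M (w l)) :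
    ∃ g : Fin n → LaurentSeries K, (∀ l, E3_ge M (g l)) ∧ QASL_T p γ g - g = w := by
  -- the limit
  let u : Fin n → PowerSeries K := fun l => PowerSeries.mk fun j =>
    (QASL_it p γ w (j + 1) l).coeff (M + j)
  let g : Fin n → LaurentSeries K := fun l =>
    HahnSeries.single M (1 : K) * HahnSeries.ofPowerSeries ℤ K (u l)
  have hcoeff : ∀ l (i : ℤ), (g l).coeff i =
      if i < M then 0 else (QASL_it p γ w ((i - M).toNat + 1) l).coeff i := by
    intro l i
    have h1 : (g l).coeff (i - M + M) = 1 * (HahnSeries.ofPowerSeries ℤ K (u l)).coeff (i - M) :=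
      HahnSeries.coeff_single_mul_add
    rw [sub_add_cancel, one_mul] at h1
    rw [h1]
    have h2 := PowerSeries.coeff_coe (R := K) (u l) (i - M)
    rw [h2]
    by_cases hi : i < M
    · rw [if_pos (by omega), if_pos hi]
    · rw [if_neg (by omega), if_neg hi, PowerSeries.coeff_mk]
      have h3 : (i - M).natAbs = (i - M).toNat := by omega
      rw [h3]
      congr 1
      omega
  have hgM : ∀ l, E3_ge M (g l) := fun l i hi => by rw [hcoeff, if_pos hi]
  have hitM : ∀ s l, E3_ge M (QASL_it p γ w s l) := by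
    intro s l
    have h := QASL_it_ge (p := p) hγ hM hw 0 s l
    rw [zero_add] at h
    have h2 : QASL_it p γ w 0 = 0 := rfl
    rw [h2, sub_zero] at h
    simpa using h
  have happ : ∀ (s : ℕ) l, E3_ge (M + s) ((g - QASL_it p γ w s) l) := by
    intro s l i hi
    rw [Pi.sub_apply, HahnSeries.coeff_sub, hcoeff]
    by_cases hiM : i < M
    · rw [if_pos hiM, hitM s l i hiM, sub_zero]
    · rw [if_neg hiM]
      obtain ⟨t, ht⟩ : ∃ t, s = (i - M).toNat + 1 + t := ⟨s - ((i - M).toNat + 1), by omega⟩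
      have h := QASL_it_ge (p := p) hγ hM hw ((i - M).toNat + 1) t l i (by push_cast; omega)
      rw [← ht, Pi.sub_apply, HahnSeries.coeff_sub] at h
      rw [sub_eq_zero] at h ⊢
      exact h.symm
  refine ⟨g, hgM, ?_⟩
  have hall : ∀ (s : ℕ) l, E3_ge (M + s) ((QASL_T p γ g - w - g) l) := by
    intro s l
    have h1 : (QASL_T p γ g - w - g) l = QASL_T p γ (g - QASL_it p γ w s) l -
        (g - QASL_it p γ w (s + 1)) l := by
      rw [QASL_T_sub]
      change _ = (QASL_T p γ g - QASL_T p γ (QASL_it p γ w s)) l -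
        (g - (QASL_T p γ (QASL_it p γ w s) - w)) l
      simp only [Pi.sub_apply]
      ring
    rw [h1]
    refine QASL_ge_sub (E3_ge_mono ?_ (QASL_T_ge (p := p) hγ (m := M + s) (by omega) (happ s) l))
      (E3_ge_mono ?_ (happ (s + 1) l))
    · omega
    · push_cast; omega
  have hz : ∀ l, (QASL_T p γ g - w - g) l = 0 := by
    intro l
    ext i
    have h := hall (i - M + 1).toNat l i (by omega)
    rw [h]
    rfl
  have hz2 : QASL_T p γ g - w - g = 0 := funext hz
  have hz3 : QASL_T p γ g - g - w = 0 := by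
    rw [← hz2]
    abel
  exact sub_eq_zero.1 hz3

theorem QASL_unique [CharP (LaurentSeries K) p] {r : ℕ} (hγ : ∀ l l', (γ l l').natDegree ≤ r)
    {M : ℤ} (hM : (r : ℤ) + 1 ≤ M) {g : Fin n → LaurentSeries K} (hg : ∀ l, E3_ge M (g l))
    (hT : QASL_T p γ g = g) : g = 0 := by
  have h : ∀ s : ℕ, ∀ l, E3_ge (M + s) (g l) := by
    intro s
    induction s with
    | zero => intro l; simpa using hg l
    | succ s ih =>
      intro l
      have h2 := QASL_T_ge (p := p) hγ (m := M + s) (by omega) ih l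
      rw [hT] at h2
      have h3 : M + ((s + 1 : ℕ) : ℤ) = M + s + 1 := by push_cast; ring
      rw [h3]
      exact h2
  funext l
  ext i
  rw [h (i - M + 1).toNat l i (by omega)]
  rfl

end

theorem prf_QASL (hQLat : QLat) : QASL := by
  intro κ _ p _ _ Γ _ _ C D _ _ _ _ _ _ q hC hD hq hqγ n c
  obtain ⟨-, -, -, -, -, -, -, -, -, huniq⟩ := hQLat κ Γ C D q hC hD hq hqγ n c
  have hnt : Nontrivial D := hD.inj.nontrivial
  have hcL : CharP (LaurentSeries κ) p := charP_of_injective_ringHom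
    (f := (HahnSeries.C : κ →+* LaurentSeries κ)) (HahnSeries.C : κ →+* LaurentSeries κ).injective p
  have hcD : CharP D p := charP_of_injective_ringHom hD.inj p
  let γ : Fin n → Fin n → κ[X] := fun l l' => c.repr (c l ^ p) l'
  let r : ℕ := ∑ l, ∑ l', (γ l l').natDegree
  have hr : ∀ l l', (γ l l').natDegree ≤ r := by
    intro l l'
    refine le_trans ?_ (Finset.single_le_sum (f := fun l => ∑ l', (γ l l').natDegree)
      (fun _ _ => Nat.zero_le _) (Finset.mem_univ l))
    exact Finset.single_le_sum (f := fun l' => (γ l l').natDegree)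
      (fun _ _ => Nat.zero_le _) (Finset.mem_univ l')
  let ev : (Fin n → LaurentSeries κ) → D := fun g => ∑ l, algebraMap (LaurentSeries κ) D (g l) * q (c l)
  have hev_sub : ∀ g g', ev (g - g') = ev g - ev g' := by
    intro g g'
    simp only [ev, Pi.sub_apply, map_sub, sub_mul]
    rw [Finset.sum_sub_distrib]
  have hev_p : ∀ g, ev g ^ p = ev (QASL_T p γ g) := by
    intro g
    simp only [ev]
    rw [sum_pow_char]
    have h1 : ∀ l, (algebraMap (LaurentSeries κ) D (g l) * q (c l)) ^ p =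
        ∑ l', algebraMap (LaurentSeries κ) D (g l ^ p * atInf κ (γ l l')) * q (c l') := by
      intro l
      rw [mul_pow, ← map_pow, ← map_pow]
      have h2 : c l ^ p = ∑ l', algebraMap κ[X] C (γ l l') * c l' := by
        conv_lhs => rw [← c.sum_repr (c l ^ p)]
        refine Finset.sum_congr rfl fun l' _ => ?_
        rw [Algebra.smul_def]
      rw [h2, map_sum, Finset.mul_sum]
      refine Finset.sum_congr rfl fun l' _ => ?_
      rw [map_mul, hq, map_mul]
      ring
    rw [Finset.sum_congr rfl fun l _ => h1 l, Finset.sum_comm]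
    refine Finset.sum_congr rfl fun l' _ => ?_
    rw [QASL_T, map_sum, Finset.sum_mul]
  refine ⟨(r : ℤ) + 1, fun M hM => ⟨?_, ?_⟩⟩
  · rintro z ⟨w, hw, hz⟩
    have hz' : z = ev w := hz
    refine ⟨⟨QASL_T p γ w, fun l i hi => ?_, ?_⟩, ?_⟩
    · exact QASL_T_ge (p := p) hr hM hw l i (by omega)
    · rw [hz']
      exact hev_p w
    · obtain ⟨g, hg1, hg2⟩ := QASL_solve (p := p) hr hM hw
      refine ⟨ev g, ⟨g, hg1, rfl⟩, ?_⟩
      rw [hev_p, ← hev_sub, hg2, hz']
  · rintro h ⟨g, hg, hh⟩ hp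
    have hh' : h = ev g := hh
    rw [hh', hev_p] at hp
    have h1 := huniq _ _ hp
    have h2 := QASL_unique (p := p) hr hM hg h1
    rw [hh', h2]
    simp [ev]

end MP7b0bad

end

section

set_option autoImplicit false

/-! Item QASN: the torsor for an elementary abelian kernel. -/

namespace MP7b0bad

open Polynomial

/-- the invariants of `Y ↦ Y + 1` -/
theorem QASN_inv {A : Type} [CommRing A] [Nontrivial A] {p : ℕ} (hp : p.Prime)
    (h0 : ((p : ℕ) : A) = 0) (a : A) (F : AS p a →+* AS p a)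
    (hof : ∀ z, F (AdjoinRoot.of _ z) = AdjoinRoot.of _ z)
    (hrt : F (asRoot p a) = asRoot p a + 1) (x : AS p a) (hx : F x = x) :
    ∃ c, AdjoinRoot.of (asPoly p a) c = x := by
  obtain ⟨hmon, hdeg⟩ := B4_monic (A := A) hp.one_lt a
  obtain ⟨f, rfl⟩ := AdjoinRoot.mk_surjective x
  have hmod : AdjoinRoot.mk (asPoly p a) (f %ₘ asPoly p a) = AdjoinRoot.mk (asPoly p a) f := by
    rw [AdjoinRoot.mk_eq_mk]
    refine ⟨-(f /ₘ asPoly p a), ?_⟩
    have := modByMonic_add_div f (asPoly p a)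
    linear_combination this
  rw [← hmod] at hx ⊢
  set f' := f %ₘ asPoly p a with hf'
  have hf'd : f'.natDegree < p := by
    have := natDegree_modByMonic_lt f hmon (by
      intro h1
      rw [h1] at hdeg
      simp at hdeg
      exact hp.pos.ne hdeg)
    rw [hdeg] at this
    exact this
  have h1 : F (AdjoinRoot.mk (asPoly p a) f') = AdjoinRoot.mk (asPoly p a) (taylor 1 f') := by
    have h2 : F.comp (AdjoinRoot.mk (asPoly p a)) =
        eval₂RingHom (AdjoinRoot.of (asPoly p a)) (asRoot p a + 1) := by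
      refine Polynomial.ringHom_ext (fun z => ?_) ?_
      · simp only [RingHom.comp_apply, coe_eval₂RingHom, eval₂_C]
        exact hof z
      · simp only [RingHom.comp_apply, coe_eval₂RingHom, eval₂_X]
        exact hrt
    have h3 := congrArg (fun H : A[X] →+* AS p a => H f') h2
    simp only [RingHom.comp_apply, coe_eval₂RingHom] at h3
    rw [h3, taylor_apply, map_one, comp, hom_eval₂]
    congr 1
  rw [h1, AdjoinRoot.mk_eq_mk] at hx
  have h2 : taylor 1 f' - f' = 0 := by
    by_contra hne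
    refine hmon.not_dvd_of_natDegree_lt hne ?_ hx
    rw [hdeg]
    refine lt_of_le_of_lt (natDegree_sub_le _ _) ?_
    rw [natDegree_taylor, max_self]
    exact hf'd
  obtain ⟨c, hc⟩ := QASX_taylor hp h0 f' hf'd (sub_eq_zero.1 h2)
  refine ⟨c, ?_⟩
  rw [hc, AdjoinRoot.mk_C]

/-- the tower of Artin-Schreier extensions -/
theorem QASN_tower (p : ℕ) [Fact p.Prime] (r : ℕ) : ∀ (B : Type) [CommRing B] [CharP B p]
    (m : Fin r → B), ∃ (E : Type) (_ : CommRing E) (i : B →+* E) (y : Fin r → E),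
    Function.Injective i ∧ (∀ j, y j ^ p - y j = i (m j)) ∧
    (∀ (T : Type) [CommRing T] (φ : B →+* T) (t : Fin r → T), (∀ j, t j ^ p - t j = φ (m j)) →
      ∃ F : E →+* T, (∀ e, F (i e) = φ e) ∧ ∀ j, F (y j) = t j) ∧
    (∀ (T : Type) [CommRing T] (F F' : E →+* T), (∀ e, F (i e) = F' (i e)) →
      (∀ j, F (y j) = F' (y j)) → F = F') ∧
    ∀ x : E, (∀ (v : Fin r → ZMod p) (F : E →+* E), (∀ e, F (i e) = i e) →
      (∀ j, F (y j) = y j + (((v j).val : ℕ) : E)) → F x = x) → ∃ e, i e = x := by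
  induction r with
  | zero =>
    intro B _ _ m
    refine ⟨B, inferInstance, RingHom.id B, fun j => j.elim0, Function.injective_id,
      fun j => j.elim0, ?_, ?_, ?_⟩
    · intro T _ φ t _
      exact ⟨φ, fun _ => rfl, fun j => j.elim0⟩
    · intro T _ F F' h _
      exact RingHom.ext h
    · intro x _
      exact ⟨x, rfl⟩
  | succ r ih =>
    intro B _ _ m
    have hp : p.Prime := Fact.out
    obtain ⟨E, _, i, y, hinj, hrel, huni, hext, hinv⟩ := ih B (fun j => m j.succ)
    have hBnt : Nontrivial B := CharP.nontrivial_of_char_ne_one (R := B) hp.one_lt.ne'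
    have hEnt : Nontrivial E := hinj.nontrivial
    have h0 : ((p : ℕ) : E) = 0 := by
      rw [← map_natCast i, CharP.cast_eq_zero, map_zero]
    have hofinj := QASX_of_inj prf_B4 (p := p) (i (m 0))
    refine ⟨AS p (i (m 0)), inferInstance, (AdjoinRoot.of (asPoly p (i (m 0)))).comp i,
      Fin.cons (asRoot p (i (m 0))) (fun j => AdjoinRoot.of (asPoly p (i (m 0))) (y j)),
      ?_, ?_, ?_, ?_, ?_⟩
    · exact hofinj.comp hinj
    · intro j
      refine Fin.cases ?_ (fun j => ?_) j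
      · rw [Fin.cons_zero]
        exact QASX_root p (i (m 0))
      · rw [Fin.cons_succ, RingHom.comp_apply, ← hrel, map_sub, map_pow]
    · intro T _ φ t ht
      obtain ⟨F0, h1, h2⟩ := huni T φ (fun j => t j.succ) (fun j => ht j.succ)
      have h3 : (asPoly p (i (m 0))).eval₂ F0 (t 0) = 0 := by
        rw [QASX_eval2, ht, h1, sub_self]
      refine ⟨AdjoinRoot.lift F0 (t 0) h3, fun e => ?_, fun j => ?_⟩
      · rw [RingHom.comp_apply, AdjoinRoot.lift_of, h1]
      · refine Fin.cases ?_ (fun j => ?_) j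
        · rw [Fin.cons_zero]
          exact AdjoinRoot.lift_root _
        · rw [Fin.cons_succ, AdjoinRoot.lift_of, h2]
    · intro T _ F F' h1 h2
      have h3 : F.comp (AdjoinRoot.of (asPoly p (i (m 0)))) =
          F'.comp (AdjoinRoot.of (asPoly p (i (m 0)))) := by
        refine hext T _ _ (fun e => h1 e) fun j => ?_
        have h4 := h2 j.succ
        rw [Fin.cons_succ] at h4
        exact h4
      refine RingHom.ext fun z => QASX_hom_ext (fun x => ?_) ?_ z
      · exact congrArg (fun H : E →+* T => H x) h3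
      · have h4 := h2 0
        rw [Fin.cons_zero] at h4
        exact h4
    · intro x hx
      -- the shift
      have hwd : (asPoly p (i (m 0))).eval₂ (AdjoinRoot.of (asPoly p (i (m 0))))
          (asRoot p (i (m 0)) + 1) = 0 := by
        rw [QASX_eval2, QASX_add_pow hp (QASX_p h0 _), one_pow]
        linear_combination QASX_root p (i (m 0))
      obtain ⟨c, hc⟩ := QASN_inv hp h0 (i (m 0))
        (AdjoinRoot.lift (AdjoinRoot.of (asPoly p (i (m 0)))) (asRoot p (i (m 0)) + 1) hwd)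
        (fun z => AdjoinRoot.lift_of _) (AdjoinRoot.lift_root _) x
        (hx (Fin.cons 1 0) _ (fun e => AdjoinRoot.lift_of _) (fun j => by
          refine Fin.cases ?_ (fun j => ?_) j
          · have : Fact (1 < p) := ⟨hp.one_lt⟩
            rw [Fin.cons_zero, Fin.cons_zero, ZMod.val_one, Nat.cast_one]
            exact AdjoinRoot.lift_root _
          · rw [Fin.cons_succ, Fin.cons_succ, Pi.zero_apply, ZMod.val_zero, Nat.cast_zero,
              add_zero]
            exact AdjoinRoot.lift_of _))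
      rw [← hc] at hx ⊢
      obtain ⟨e, he⟩ := hinv c (fun v F' h1 h2 => by
        have h3 : (asPoly p (i (m 0))).eval₂ ((AdjoinRoot.of (asPoly p (i (m 0)))).comp F')
            (asRoot p (i (m 0))) = 0 := by
          rw [QASX_eval2, RingHom.comp_apply, h1, QASX_root, sub_self]
        have h4 := hx (Fin.cons 0 v) (AdjoinRoot.lift
          ((AdjoinRoot.of (asPoly p (i (m 0)))).comp F') (asRoot p (i (m 0))) h3)
          (fun e => by
            rw [RingHom.comp_apply, AdjoinRoot.lift_of, RingHom.comp_apply, h1])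
          (fun j => by
            refine Fin.cases ?_ (fun j => ?_) j
            · rw [Fin.cons_zero, Fin.cons_zero, ZMod.val_zero, Nat.cast_zero, add_zero]
              exact AdjoinRoot.lift_root _
            · rw [Fin.cons_succ, Fin.cons_succ, AdjoinRoot.lift_of, RingHom.comp_apply, h2,
                map_add, map_natCast])
        rw [AdjoinRoot.lift_of, RingHom.comp_apply] at h4
        exact hofinj h4)
      exact ⟨e, by rw [RingHom.comp_apply, he]⟩

/-! ### matrices over `F_p` acting on vectors -/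

/-- a matrix over `F_p` acting on vectors -/
noncomputable def QASN_mv {p r : ℕ} {S : Type} [CommRing S] (M : Matrix (Fin r) (Fin r) (ZMod p))
    (v : Fin r → S) : Fin r → S :=
  fun i => ∑ j, (((M i j).val : ℕ) : S) * v j

theorem QASN_stA {p r : ℕ} {S : Type} [CommRing S] (M : Matrix (Fin r) (Fin r) (ZMod p))
    (act : S → S) (v : Fin r → S) : stA M act v = QASN_mv M (fun j => act (v j)) := rfl

theorem QASN_kap {p : ℕ} [Fact p.Prime] {S : Type} [CommRing S] [CharP S p] (c : ZMod p) :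
    ((c.val : ℕ) : S) = ZMod.castHom (dvd_refl p) S c := by
  rw [ZMod.castHom_apply, ZMod.natCast_val]

theorem QASN_mv_eq {p r : ℕ} [Fact p.Prime] {S : Type} [CommRing S] [CharP S p]
    (M : Matrix (Fin r) (Fin r) (ZMod p)) (v : Fin r → S) :
    QASN_mv M v = (M.map (ZMod.castHom (dvd_refl p) S)).mulVec v := by
  funext i
  unfold QASN_mv Matrix.mulVec dotProduct
  refine Finset.sum_congr rfl fun j _ => ?_
  rw [QASN_kap]
  rfl

theorem QASN_mv_mul {p r : ℕ} [Fact p.Prime] {S : Type} [CommRing S] [CharP S p]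
    (M N : Matrix (Fin r) (Fin r) (ZMod p)) (v : Fin r → S) :
    QASN_mv (M * N) v = QASN_mv M (QASN_mv N v) := by
  rw [QASN_mv_eq, QASN_mv_eq, QASN_mv_eq, Matrix.mulVec_mulVec, Matrix.map_mul]

theorem QASN_mv_one {p r : ℕ} [Fact p.Prime] {S : Type} [CommRing S] [CharP S p]
    (v : Fin r → S) : QASN_mv (1 : Matrix (Fin r) (Fin r) (ZMod p)) v = v := by
  rw [QASN_mv_eq, Matrix.map_one _ (map_zero _) (map_one _), Matrix.one_mulVec]

theorem QASN_mv_add {p r : ℕ} {S : Type} [CommRing S]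
    (M : Matrix (Fin r) (Fin r) (ZMod p)) (v w : Fin r → S) (j : Fin r) :
    QASN_mv M (fun l => v l + w l) j = QASN_mv M v j + QASN_mv M w j := by
  unfold QASN_mv
  rw [← Finset.sum_add_distrib]
  exact Finset.sum_congr rfl fun l _ => mul_add _ _ _

theorem QASN_mv_sub {p r : ℕ} {S : Type} [CommRing S]
    (M : Matrix (Fin r) (Fin r) (ZMod p)) (v w : Fin r → S) (j : Fin r) :
    QASN_mv M (fun l => v l - w l) j = QASN_mv M v j - QASN_mv M w j := by
  unfold QASN_mv
  rw [← Finset.sum_sub_distrib]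
  exact Finset.sum_congr rfl fun l _ => mul_sub _ _ _

theorem QASN_mv_map {p r : ℕ} {S T : Type} [CommRing S] [CommRing T] (F : S →+* T)
    (M : Matrix (Fin r) (Fin r) (ZMod p)) (v : Fin r → S) (j : Fin r) :
    F (QASN_mv M v j) = QASN_mv M (fun l => F (v l)) j := by
  unfold QASN_mv
  rw [map_sum]
  refine Finset.sum_congr rfl fun l _ => ?_
  rw [map_mul, map_natCast]

theorem QASN_mv_pow {p r : ℕ} [Fact p.Prime] {S : Type} [CommRing S] [CharP S p]
    (M : Matrix (Fin r) (Fin r) (ZMod p)) (v : Fin r → S) (j : Fin r) :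
    QASN_mv M v j ^ p = QASN_mv M (fun l => v l ^ p) j := by
  unfold QASN_mv
  rw [sum_pow_char]
  refine Finset.sum_congr rfl fun l _ => ?_
  rw [mul_pow, QASN_kap, ← map_pow, ZMod.pow_card]

theorem prf_QASN : QASN := by
  intro R _ p r hpF _ G Gb _ _ _ q ρ ν B _ _ _ b m hEx hgal hb hbn hm
  have hp : p.Prime := hpF.out
  have hRnt : Nontrivial R := CharP.nontrivial_of_char_ne_one (R := R) hp.one_lt.ne'
  have hBc : CharP B p := charP_of_injective_ringHom hgal.inj p
  obtain ⟨E, _, i, y, hinj, hrel, huni, hext, hinv⟩ := QASN_tower p r B m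
  have hEc : CharP E p := charP_of_injective_ringHom hinj p
  -- the vectors
  have hρi : ∀ g, ρ g⁻¹ * ρ g = 1 := fun g => by rw [← hEx.mul, inv_mul_cancel, hEx.one]
  have hρi' : ∀ g, ρ g * ρ g⁻¹ = 1 := fun g => by rw [← hEx.mul, mul_inv_cancel, hEx.one]
  have hi : ∀ (g : G) (v : Fin r → B) (l : Fin r), i (stA (ρ g) (fun x => q g • x) v l) =
      QASN_mv (ρ g) (fun k => i (q g • v k)) l := by
    intro g v l
    rw [QASN_stA, QASN_mv_map]
  have hrel2 : ∀ g j, QASN_mv (ρ g⁻¹) (fun l => y l + i (b g l)) j ^ p -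
      QASN_mv (ρ g⁻¹) (fun l => y l + i (b g l)) j =
      (i.comp (MulSemiringAction.toRingHom Gb B (q g))) (m j) := by
    intro g j
    rw [QASN_mv_pow, ← QASN_mv_sub]
    have h1 : (fun l => (y l + i (b g l)) ^ p - (y l + i (b g l))) =
        QASN_mv (ρ g) (fun k => i (q g • m k)) := by
      funext l
      rw [← hi, add_pow_char]
      have h2 := congrArg i (hm g l)
      rw [map_sub, map_pow, map_sub] at h2
      linear_combination hrel l + h2
    rw [h1, ← QASN_mv_mul, hρi, QASN_mv_one]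
    rfl
  choose F hF1 hF2 using fun g => huni E (i.comp (MulSemiringAction.toRingHom Gb B (q g)))
    (QASN_mv (ρ g⁻¹) (fun l => y l + i (b g l))) (hrel2 g)
  have hF1' : ∀ (g : G) (e : B), F g (i e) = i (q g • e) := hF1
  have hb1 : b 1 = 0 := by
    have h1 := hb 1 1
    rw [QASN_stA, hEx.one, map_one, mul_one, QASN_mv_one] at h1
    simpa using h1
  have hone : F 1 = RingHom.id E := by
    refine hext E _ _ (fun e => ?_) fun j => ?_
    · rw [hF1', map_one, one_smul, RingHom.id_apply]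
    · rw [hF2, inv_one, hEx.one, QASN_mv_one, hb1, Pi.zero_apply, map_zero, add_zero,
        RingHom.id_apply]
  have hmul : ∀ g h, F (g * h) = (F g).comp (F h) := by
    intro g h
    refine hext E _ _ (fun e => ?_) fun j => ?_
    · rw [RingHom.comp_apply, hF1', hF1', hF1', map_mul, mul_smul]
    · rw [RingHom.comp_apply, hF2, hF2, QASN_mv_map, mul_inv_rev, hEx.mul, QASN_mv_mul]
      congr 1
      funext l
      have h1 : (fun k => y k + i (b (g * h) k)) =
          fun k => (y k + i (b g k)) + QASN_mv (ρ g) (fun k => i (q g • b h k)) k := by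
        funext k
        rw [hb, Pi.add_apply, map_add, hi, add_assoc]
      rw [h1, QASN_mv_add, ← QASN_mv_mul, hρi, QASN_mv_one, map_add, hF2, hF1']
  let instA : Algebra R E := (i.comp (algebraMap R B)).toAlgebra
  let instM : MulSemiringAction G E :=
    { smul := fun g x => F g x
      one_smul := fun x => by
        change F 1 x = x
        rw [hone, RingHom.id_apply]
      mul_smul := fun g h x => by
        change F (g * h) x = F g (F h x)
        rw [hmul, RingHom.comp_apply]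
      smul_zero := fun g => map_zero (F g)
      smul_add := fun g => map_add (F g)
      smul_one := fun g => map_one (F g)
      smul_mul := fun g => map_mul (F g) }
  have halg : ∀ a : R, algebraMap R E a = i (algebraMap R B a) := fun a => rfl
  have hsm : ∀ (g : G) (x : E), g • x = F g x := fun g x => rfl
  have hker : ∀ n ∈ q.ker, ∀ j, F n (y j) = y j + (((ν n j).val : ℕ) : E) := by
    intro n hn j
    rw [hF2, hEx.ker n⁻¹ (q.ker.inv_mem hn), QASN_mv_one, hbn n hn, map_natCast]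
  have hinv2 : ∀ x : E, (∀ n ∈ q.ker, n • x = x) → ∃ e, i e = x := by
    intro x hx
    refine hinv x fun v F' h1 h2 => ?_
    obtain ⟨n, hn, hnv⟩ := hEx.nu_bij.surjOn (Set.mem_univ v)
    have hn' : n ∈ q.ker := hn
    have h3 : F' = F n := by
      refine hext E _ _ (fun e => ?_) fun j => ?_
      · rw [h1, hF1', MonoidHom.mem_ker.1 hn', one_smul]
      · rw [h2, hker n hn', hnv]
    rw [h3]
    exact hx n hn'
  refine ⟨E, inferInstance, instA, instM, i, y, ⟨?_, ?_, ?_, ?_⟩, fun a => (halg a).symm, hinj,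
    fun g e => hF1' g e, ?_, hrel, huni, hext, hinv2⟩
  · intro g a
    rw [hsm, halg, hF1', hgal.comm]
  · exact hinj.comp hgal.inj
  · intro x hx
    obtain ⟨e, rfl⟩ := hinv2 x fun n _ => hx n
    have h3 : ∀ g : Gb, g • e = e := by
      intro g
      obtain ⟨g, rfl⟩ := hEx.surj g
      have h4 := hx g
      rw [hsm, hF1'] at h4
      exact hinj h4
    obtain ⟨a, ha⟩ := hgal.inv e h3
    exact ⟨a, by rw [halg, ha]⟩
  · intro σ hσ
    by_cases hqσ : q σ = 1
    · have hσk : σ ∈ q.ker := hqσ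
      have hν1 : ν 1 = 0 := by
        have := hEx.nu_mul 1 q.ker.one_mem 1 q.ker.one_mem
        simpa using this
      have hne : ν σ ≠ 0 := by
        intro h
        rw [← hν1] at h
        exact hσ (hEx.nu_bij.injOn hσk q.ker.one_mem h)
      obtain ⟨j, hj⟩ := Function.ne_iff.1 hne
      rw [Ideal.eq_top_iff_one]
      have h3 : y j - σ • y j ∈ Ideal.span {x : E | ∃ b : E, x = b - σ • b} :=
        Ideal.subset_span ⟨_, rfl⟩
      have h4 : y j - σ • y j = -ZMod.castHom (dvd_refl p) E (ν σ j) := by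
        rw [hsm, hker σ hσk, QASN_kap]
        ring
      rw [h4] at h3
      have h5 := Ideal.mul_mem_left _ (-ZMod.castHom (dvd_refl p) E (ν σ j)⁻¹) h3
      have h6 : -ZMod.castHom (dvd_refl p) E (ν σ j)⁻¹ * -ZMod.castHom (dvd_refl p) E (ν σ j)
          = 1 := by
        rw [neg_mul_neg, ← map_mul, inv_mul_cancel₀ hj, map_one]
      rw [h6] at h5
      exact h5
    · obtain ⟨n, a, c, hac⟩ := TII_unr (q σ) (hgal.unr (q σ) hqσ)
      refine TII_unr' σ n (fun l => i (a l)) (fun l => i (c l)) ?_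
      have h1 := congrArg i hac
      rw [map_sum, map_one] at h1
      rw [← h1]
      refine Finset.sum_congr rfl fun l _ => ?_
      rw [hsm, hF1', map_mul, map_sub]
  · intro g j
    rw [QASN_stA]
    have h1 : (fun l => g • y l) = QASN_mv (ρ g⁻¹) (fun l => y l + i (b g l)) := by
      funext l
      rw [hsm, hF2]
    rw [h1, ← QASN_mv_mul, hρi', QASN_mv_one]

end MP7b0bad

end

section

set_option autoImplicit false

namespace MP7b0bad

open Polynomial

theorem QCBG_atInf (κ : Type) [Field κ] (d : ℕ) :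
    atInf κ (X ^ d) = HahnSeries.single (-(d : ℤ)) (1 : κ) := by
  unfold atInf
  rw [map_pow, coe_eval₂RingHom, eval₂_X, HahnSeries.single_pow]
  congr 1
  · simp
  · simp

/-- elements of trace one for subgroups -/
theorem QCBG_trace {R : Type} [CommRing R] {G : Type} [Group G] [Finite G] {B : Type} [CommRing B]
    [Algebra R B] [MulSemiringAction G B] (h : GalAlg R G B) (H : Subgroup G) [Fintype H] :
    ∃ θ : B, ∑ g : H, (g : G) • θ = 1 := by
  classical
  have := Fintype.ofFinite G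
  obtain ⟨θ, hθ⟩ := gal_trace_one h
  obtain ⟨T, hT, -⟩ := H.exists_isComplement_right 1
  have : Fintype T := Fintype.ofFinite T
  refine ⟨∑ t : T, (t : G) • θ, ?_⟩
  rw [← hθ]
  have h1 : ∑ x : H × T, ((x.1 : G) * (x.2 : G)) • θ = ∑ g : G, g • θ :=
    Fintype.sum_bijective _ hT _ _ fun x => rfl
  rw [← h1, Fintype.sum_prod_type]
  refine Finset.sum_congr rfl fun g _ => ?_
  rw [Finset.smul_sum]
  exact Finset.sum_congr rfl fun t _ => smul_smul _ _ _

section

variable {R : Type} [CommRing R] {G : Type} [Group G] [Finite G] {P : Subgroup G} {D E : Type}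
    [CommRing D] [Algebra R D] [MulSemiringAction G D] [CommRing E] [Algebra R E]
    [MulSemiringAction P E]

theorem QCBG_lift (hD : GalAlg R G D) (hE : GalAlg R P E) (Φ : D →+* E)
    (hΦ : ∀ a : R, Φ (algebraMap R D a) = algebraMap R E a)
    (hΦa : ∀ (g : P) (z : D), Φ ((g : G) • z) = g • Φ z) (v : G → E)
    (hv : ∀ (γ : G) (g : P), g • v (γ * g) = v γ) : ∃ z : D, ∀ γ : G, Φ (γ⁻¹ • z) = v γ := by
  classical
  have := Fintype.ofFinite G
  obtain ⟨n, x, y, h1, h2⟩ := gal_dual' hD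
  obtain ⟨h3, h4⟩ := gal_coord P.subtype Φ hΦa h1 h2 v hv
  choose a ha using fun m => hE.inv _ (h3 (y m))
  refine ⟨∑ m, algebraMap R D (a m) * x m, fun γ => ?_⟩
  rw [h4 γ, Finset.smul_sum, map_sum]
  refine Finset.sum_congr rfl fun m _ => ?_
  rw [smul_mul', hD.comm, map_mul, hΦ, ha]

theorem QCBG_inj (hD : GalAlg R G D) (hE : GalAlg R P E) (Φ : D →+* E)
    (hΦ : ∀ a : R, Φ (algebraMap R D a) = algebraMap R E a) (z : D)
    (hz : ∀ γ : G, Φ (γ • z) = 0) : z = 0 := by
  classical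
  have := Fintype.ofFinite G
  obtain ⟨n, x, y, h1, h2⟩ := gal_dual' hD
  rw [gal_formula h1 h2 z]
  refine Finset.sum_eq_zero fun m _ => ?_
  obtain ⟨a, ha⟩ := gal_trace hD (y m * z)
  have h3 : algebraMap R E a = 0 := by
    rw [← hΦ, ha, map_sum]
    refine Finset.sum_eq_zero fun g _ => ?_
    rw [smul_mul', map_mul, hz, mul_zero]
  have h4 : a = 0 := hE.inj (by rw [h3, map_zero])
  rw [← ha, h4, map_zero, zero_mul]

theorem QCBG_Y (hD : GalAlg R G D) (hE : GalAlg R P E) (Φ : D →+* E)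
    (hΦ : ∀ a : R, Φ (algebraMap R D a) = algebraMap R E a)
    (hΦa : ∀ (g : P) (z : D), Φ ((g : G) • z) = g • Φ z) (e : D) (he : Φ e = 1)
    (heγ : ∀ γ : G, γ ∉ P → e * (γ • e) = 0) (p : ℕ) (y : E) (F : R)
    (hyF : y ^ p - y = algebraMap R E F) :
    ∃ Y : D, (∀ g : P, g • y = y → (g : G) • Y = Y) ∧ e * (Y ^ p - Y - algebraMap R D F) = 0 := by
  classical
  set w : G → E := fun γ => if h : γ ∈ P then (⟨γ, h⟩ : P) • y else 0 with hw
  have hw1 : ∀ g : P, w g = g • y := fun g => by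
    rw [hw]
    exact dif_pos g.2
  have hw0 : ∀ γ : G, γ ∉ P → w γ = 0 := fun γ h => by
    rw [hw]
    exact dif_neg h
  obtain ⟨Y, hY'⟩ := QCBG_lift hD hE Φ hΦ hΦa (fun γ => w γ⁻¹) (by
    intro γ g
    show g • w (γ * g)⁻¹ = w γ⁻¹
    by_cases h : γ ∈ P
    · have h1 := hw1 (⟨γ, h⟩ * g)⁻¹
      have h2 := hw1 (⟨γ, h⟩)⁻¹
      have h3 : (((⟨γ, h⟩ * g)⁻¹ : P) : G) = (γ * g)⁻¹ := by simp
      have h4 : (((⟨γ, h⟩ : P)⁻¹ : P) : G) = γ⁻¹ := by simp
      rw [h3] at h1
      rw [h4] at h2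
      rw [h1, h2, smul_smul]
      congr 1
      group
    · rw [hw0, hw0, smul_zero]
      · exact fun h1 => h (by simpa using h1)
      · intro h1
        apply h
        have h2 := P.mul_mem (P.inv_mem h1) (P.inv_mem g.2)
        simpa using h2)
  have hY : ∀ γ : G, Φ (γ • Y) = w γ := fun γ => by
    have := hY' γ⁻¹
    simpa using this
  refine ⟨Y, ?_, ?_⟩
  · intro g hg
    rw [← sub_eq_zero]
    apply QCBG_inj hD hE Φ hΦ
    intro γ
    rw [smul_sub, map_sub, smul_smul, hY, hY]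
    by_cases h : γ ∈ P
    · have h1 := hw1 (⟨γ, h⟩ * g)
      have h2 := hw1 ⟨γ, h⟩
      have h3 : (((⟨γ, h⟩ * g) : P) : G) = γ * g := rfl
      rw [h3] at h1
      rw [h1]
      have h4 : w γ = (⟨γ, h⟩ : P) • y := h2
      rw [h4, mul_smul, hg, sub_self]
    · rw [hw0 _ h, hw0, sub_zero]
      intro h1
      apply h
      have h2 := P.mul_mem h1 (P.inv_mem g.2)
      simpa using h2
  · apply QCBG_inj hD hE Φ hΦ
    intro γ
    rw [smul_mul', map_mul, smul_sub, smul_sub, map_sub, map_sub, smul_pow', map_pow, hY, hD.comm,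
      hΦ]
    by_cases h : γ ∈ P
    · have h4 : w γ = (⟨γ, h⟩ : P) • y := hw1 ⟨γ, h⟩
      rw [h4, ← smul_pow', ← smul_sub, hyF, hE.comm, sub_self, mul_zero]
    · have h5 : Φ (γ • e) = 0 := by
        have h6 := congrArg Φ (heγ γ h)
        rw [map_mul, he, one_mul, map_zero] at h6
        exact h6
      rw [h5, zero_mul]

end

section

variable {D : Type} [CommRing D] (L : ℤ → D → Prop) (r : ℕ)

theorem QCBG_pow (L1 : ∀ (m m' : ℤ) (z : D), m' ≤ m → L m z → L m' z)
    (L4 : ∀ (m m' : ℤ) (z z' : D), L m z → L m' z' → L (m + m' - r) (z * z'))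
    (m : ℤ) (hm : (r : ℤ) ≤ m) (z : D) (hz : L m z) (n : ℕ) : L m (z ^ (n + 1)) := by
  induction n with
  | zero => simpa using hz
  | succ n ih =>
    rw [pow_succ]
    exact L1 _ _ _ (by linarith) (L4 _ _ _ _ ih hz)

theorem QCBG_est (p : ℕ) [Fact p.Prime] [CharP D p]
    (L1 : ∀ (m m' : ℤ) (z : D), m' ≤ m → L m z → L m' z)
    (L2 : ∀ (m : ℤ) (z z' : D), L m z → L m z' → L m (z + z'))
    (L3 : ∀ (m : ℤ) (z : D), L m z → L m (-z))
    (L4 : ∀ (m m' : ℤ) (z z' : D), L m z → L m' z' → L (m + m' - r) (z * z'))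
    (r2 M : ℕ) (m : ℤ) (hm : m = r2 + 2 * M + 5 * r) (e ε ε' Y F : D) (he : L (-(M : ℤ)) e)
    (hε : L m ε) (hε' : L (m - M - 2 * r) ε') (hW : L (-(M : ℤ)) (Y ^ p - Y - F))
    (heW : e * (Y ^ p - Y - F) = 0) : L r2 ((e + ε) * ((Y + ε') ^ p - (Y + ε') - F)) := by
  have hr0 : (0 : ℤ) ≤ r := Int.natCast_nonneg r
  have hM0 : (0 : ℤ) ≤ M := Int.natCast_nonneg M
  have hr20 : (0 : ℤ) ≤ r2 := Int.natCast_nonneg r2
  have hδ : L (m - M - 2 * r) (ε' ^ p - ε') := by
    rw [sub_eq_add_neg (ε' ^ p)]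
    refine L2 _ _ _ ?_ (L3 _ _ hε')
    obtain ⟨n, hn⟩ : ∃ n, p = n + 1 := ⟨p - 1, (Nat.sub_add_cancel (Fact.out : p.Prime).one_le).symm⟩
    have := QCBG_pow L r L1 L4 (m - M - 2 * r) (by linarith) ε' hε' n
    rwa [← hn] at this
  have h1 : (e + ε) * ((Y + ε') ^ p - (Y + ε') - F) =
      ε * (Y ^ p - Y - F) + (e * (ε' ^ p - ε') + ε * (ε' ^ p - ε')) := by
    rw [add_pow_char]
    have h2 : (e + ε) * (Y ^ p + ε' ^ p - (Y + ε') - F) = e * (Y ^ p - Y - F) +
      (ε * (Y ^ p - Y - F) + (e * (ε' ^ p - ε') + ε * (ε' ^ p - ε'))) := by ring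
    rw [h2, heW, zero_add]
  rw [h1]
  refine L2 _ _ _ (L1 _ _ _ ?_ (L4 _ _ _ _ hε hW)) (L2 _ _ _ (L1 _ _ _ ?_ (L4 _ _ _ _ he hδ))
    (L1 _ _ _ ?_ (L4 _ _ _ _ hε hδ)))
  · linarith
  · linarith
  · linarith

theorem QCBG_sum (L2 : ∀ (m : ℤ) (z z' : D), L m z → L m z' → L m (z + z'))
    (L0 : ∀ m : ℤ, L m 0) {ι : Type} (s : Finset ι) (u : ι → D) (m : ℤ) (hu : ∀ i, L m (u i)) :
    L m (∑ i ∈ s, u i) := by
  classical
  induction s using Finset.induction_on with
  | empty => simpa using L0 m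
  | insert a s ha ih =>
    rw [Finset.sum_insert ha]
    exact L2 _ _ _ (hu a) ih

end

/-- the elements `γ` -/
theorem QCBG_gamma {G : Type} [Group G] {B D : Type} [CommRing B] [MulSemiringAction G B]
    [CommRing D] [MulSemiringAction G D] (q : B →+* D) (hqa : ∀ (g : G) (b : B), q (g • b) = g • q b)
    (H : Subgroup G) [Fintype H] (θ b : B) (hθ : ∑ g : H, (g : G) • θ = 1) (t Y ε : D)
    (ht : ∀ g : G, g • t = t) (hY : ∀ g ∈ H, g • Y = Y) (hb : q b = t * (Y + ε)) :
    (∀ g ∈ H, g • (∑ g' : H, (g' : G) • (θ * b)) = ∑ g' : H, (g' : G) • (θ * b)) ∧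
    q (∑ g' : H, (g' : G) • (θ * b)) = t * (Y + ∑ g : H, (g : G) • (q θ * ε)) := by
  constructor
  · intro g hg
    rw [Finset.smul_sum]
    refine Fintype.sum_bijective (fun x => ⟨g, hg⟩ * x) (Group.mulLeft_bijective _) _ _ fun x => ?_
    rw [smul_smul]
    rfl
  · rw [map_sum]
    have h1 : ∀ g : H, q ((g : G) • (θ * b)) = t * Y * ((g : G) • q θ) +
        t * ((g : G) • (q θ * ε)) := by
      intro g
      rw [hqa, map_mul, hb, smul_mul', smul_mul', ht, smul_add, hY _ g.2, smul_mul']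
      ring
    rw [Finset.sum_congr rfl fun g _ => h1 g, Finset.sum_add_distrib, ← Finset.mul_sum,
      ← Finset.mul_sum]
    have h2 : ∑ g : H, (g : G) • q θ = 1 := by
      rw [← map_one q, ← hθ, map_sum]
      exact Finset.sum_congr rfl fun g _ => (hqa _ _).symm
    rw [h2]
    ring

theorem prf_QCBG (hQBC : QBC) (hQIdem : QIdem) (hQGL : QGL) (hQFree : QFree) (hQLat : QLat)
    (hQTrunc : QTrunc) (hQSmall : QSmall) : QCBG := by
  intro k _ p _ _ G _ _ P B E _ _ _ _ _ _ ι hB hE hι hιa y f hy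
  classical
  obtain ⟨D, iD1, iD2, iD3, q, hD, hq, hqa, huniv, hgen⟩ :=
    hQBC k[X] (LaurentSeries k) (atInf k) G B hB
  obtain ⟨Φ, hΦq, hΦ⟩ := huniv E ι (algebraMap (LaurentSeries k) E) hι
  have hΦa : ∀ (g : P) (z : D), Φ ((g : G) • z) = g • Φ z := by
    intro g z
    obtain ⟨n, r, b, rfl⟩ := hgen z
    rw [Finset.smul_sum, map_sum, map_sum, Finset.smul_sum]
    refine Finset.sum_congr rfl fun i _ => ?_
    rw [smul_mul', hD.comm, map_mul, map_mul, smul_mul', hΦ, hE.comm, hΦq, ← hqa, hΦq, hιa]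
  obtain ⟨e, hee, heP, heγ', hes, hΦe⟩ := hQIdem (LaurentSeries k) G P P.subtype D E Φ
    P.subtype_injective hD hE hΦ hΦa
  have heγ : ∀ γ : G, γ ∉ P → e * (γ • e) = 0 := fun γ h => heγ' γ (by simpa using h)
  have hYex : ∀ l : P →* Multiplicative (ZMod p), ∃ Y : D, l ≠ 1 →
      (∀ g : P, g • y l = y l → (g : G) • Y = Y) ∧
      e * (Y ^ p - Y - algebraMap (LaurentSeries k) D (atInf k (f l))) = 0 := by
    intro l
    by_cases hl : l = 1
    · exact ⟨0, fun h => (h hl).elim⟩
    · obtain ⟨Y, h1, h2⟩ := QCBG_Y hD hE Φ hΦ hΦa e hΦe heγ p (y l) (atInf k (f l)) (hy l hl).2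
      exact ⟨Y, fun _ => ⟨h1, h2⟩⟩
  choose Y hY using hYex
  have hnt : Nontrivial D := hD.inj.nontrivial
  have hch : CharP D p := charP_of_injective_ringHom
    (f := (algebraMap (LaurentSeries k) D).comp (HahnSeries.C : k →+* LaurentSeries k))
    (RingHom.injective _) p
  have : Module.Finite k[X] B := gal_finite hB
  have : Module.Free k[X] B := hQFree k G B hB
  obtain ⟨n, ⟨c⟩⟩ : ∃ n : ℕ, Nonempty (Module.Basis (Fin n) k[X] B) :=
    ⟨_, ⟨Module.finBasis k[X] B⟩⟩
  obtain ⟨r, L1, L2, L3, L4, L5, L6, L7, -, -⟩ := hQLat k G B D q hB hD hq hqa n c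
  obtain ⟨r2, hr2⟩ := hQSmall k G B D q hB hD hq hqa n c
  have L0 : ∀ m : ℤ, Lat (κ := k) q c m (0 : D) := fun m => by
    obtain ⟨me, hme⟩ := L6 e
    have h := L7 (m - me) me 0 e (fun i _ => by simp) hme
    simpa using h
  have inst : ∀ H : Subgroup G, Fintype H := fun H => Fintype.ofFinite H
  choose θ hθ using fun H : Subgroup G => QCBG_trace hB H
  have hfin : Finite (P →* Multiplicative (ZMod p)) :=
    Finite.of_injective (fun l => (l : P → Multiplicative (ZMod p))) DFunLike.coe_injective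
  obtain ⟨M, hM1, hM2, hM3⟩ : ∃ M : ℕ, Lat (κ := k) q c (-(M : ℤ)) e ∧
      (∀ l, Lat (κ := k) q c (-(M : ℤ))
        ((Y l) ^ p - Y l - algebraMap (LaurentSeries k) D (atInf k (f l)))) ∧
      ∀ H : Subgroup G, Lat (κ := k) q c (-(M : ℤ)) (q (θ H)) := by
    obtain ⟨me, hme⟩ := L6 e
    choose mW hmW using fun l => L6 ((Y l) ^ p - Y l - algebraMap (LaurentSeries k) D (atInf k (f l)))
    choose mθ hmθ using fun H => L6 (q (θ H))
    obtain ⟨b1, hb1⟩ := (Set.finite_range mW).bddBelow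
    obtain ⟨b2, hb2⟩ := (Set.finite_range mθ).bddBelow
    refine ⟨me.natAbs + b1.natAbs + b2.natAbs, L1 _ _ _ (by omega) hme, fun l => ?_, fun H => ?_⟩
    · have : b1 ≤ mW l := hb1 ⟨l, rfl⟩
      exact L1 _ _ _ (by omega) (hmW l)
    · have : b2 ≤ mθ H := hb2 ⟨H, rfl⟩
      exact L1 _ _ _ (by omega) (hmθ H)
  set m : ℤ := r2 + 2 * M + 5 * r with hm
  have hr0 : (0 : ℤ) ≤ r := Int.natCast_nonneg r
  have hM0 : (0 : ℤ) ≤ M := Int.natCast_nonneg M
  have hr20 : (0 : ℤ) ≤ r2 := Int.natCast_nonneg r2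
  obtain ⟨d0, hd0⟩ := hQTrunc k G B D q hB hD hq hqa n c e m
  choose dl hdl using fun l => hQTrunc k G B D q hB hD hq hqa n c (Y l) m
  obtain ⟨b, hb⟩ := (Set.finite_range dl).bddAbove
  set d : ℕ := d0 + b with hd
  set t : D := algebraMap (LaurentSeries k) D (HahnSeries.single (-(d : ℤ)) (1 : k)) with ht
  have hXd : q (algebraMap k[X] B (X ^ d)) = t := by rw [hq, QCBG_atInf]
  have hgt : ∀ γ : G, γ • t = t := fun γ => hD.comm γ _
  have htr : ∀ (z : D) (β : B), Lat (κ := k) q c (m - d) (q β - t * z) →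
      ∃ ε : D, Lat (κ := k) q c m ε ∧ q β = t * (z + ε) := by
    intro z β h
    set s : D := algebraMap (LaurentSeries k) D (HahnSeries.single (d : ℤ) (1 : k)) with hs
    have hst : t * s = 1 := by
      rw [ht, hs, ← map_mul, HahnSeries.single_mul_single]
      simp
    refine ⟨s * (q β - t * z), ?_, ?_⟩
    · have h1 := L7 (d : ℤ) (m - d) (HahnSeries.single (d : ℤ) (1 : k)) _
        (fun i hi => HahnSeries.coeff_single_of_ne hi.ne) h
      have h2 : (d : ℤ) + (m - d) = m := by ring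
      rwa [h2] at h1
    · have h1 : t * (z + s * (q β - t * z)) = t * z + (t * s) * (q β - t * z) := by ring
      rw [h1, hst]
      ring
  have hsm : ∀ (N : ℕ) (j : B) (z : D), Lat (κ := k) q c r2 z →
      q j = q (algebraMap k[X] B (X ^ N)) * z → Small k N j := by
    intro N j z hz hj
    apply hr2
    rw [hj, hq, QCBG_atInf]
    have h1 := L7 (-(N : ℤ)) r2 (HahnSeries.single (-(N : ℤ)) (1 : k)) z
      (fun i hi => HahnSeries.coeff_single_of_ne hi.ne) hz
    exact L1 _ _ _ (by linarith) h1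
  obtain ⟨β, hβ'⟩ := hd0 d (by omega)
  obtain ⟨ε, hε, hβ⟩ := htr e β hβ'
  have hγβ : ∀ γ : G, q (γ • β) = t * (γ • e + γ • ε) := fun γ => by
    rw [hqa, hβ, smul_mul', hgt, smul_add]
  have hγε : ∀ γ : G, Lat (κ := k) q c (m - r) (γ • ε) := fun γ => L5 _ _ γ hε
  have hγe : ∀ γ : G, Lat (κ := k) q c (-(M : ℤ) - r) (γ • e) := fun γ => L5 _ _ γ hM1
  have hXN : ∀ a : ℕ, q (algebraMap k[X] B (X ^ (a * d))) = t ^ a := fun a => by
    rw [mul_comm, pow_mul, map_pow, map_pow, hXd]
  refine ⟨d, β, ?_, ?_, ?_, ?_⟩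
  · refine hsm _ _ (e * ε + (e * ε + (ε * ε + -ε))) ?_ ?_
    · have h1 := L1 _ (r2 : ℤ) _ (by linarith) (L4 _ _ _ _ hM1 hε)
      exact L2 _ _ _ h1 (L2 _ _ _ h1 (L2 _ _ _ (L1 _ _ _ (by linarith) (L4 _ _ _ _ hε hε))
        (L1 _ _ _ (by linarith) (L3 _ _ hε))))
    · rw [map_sub, map_pow, map_mul, hXd, hXN, hβ]
      have h2 : (t * (e + ε)) ^ 2 - t * (t * (e + ε)) =
        t ^ 2 * ((e * e) - e + (e * ε + (e * ε + (ε * ε + -ε)))) := by ring
      rw [h2, hee, sub_self, zero_add]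
  · intro g hg
    refine hsm _ _ (e * (g • ε) + (ε * (g • e) + ε * (g • ε))) ?_ ?_
    · exact L2 _ _ _ (L1 _ _ _ (by linarith) (L4 _ _ _ _ hM1 (hγε g)))
        (L2 _ _ _ (L1 _ _ _ (by linarith) (L4 _ _ _ _ hε (hγe g)))
          (L1 _ _ _ (by linarith) (L4 _ _ _ _ hε (hγε g))))
    · rw [map_mul, hγβ, hβ, hXN]
      have h2 : t * (e + ε) * (t * (g • e + g • ε)) =
        t ^ 2 * (e * (g • e) + (e * (g • ε) + (ε * (g • e) + ε * (g • ε)))) := by ring
      rw [h2, heγ g hg, zero_add]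
  · obtain ⟨s, hs⟩ := hes
    refine ⟨s, hsm _ _ (∑ γ ∈ s, γ • ε) ?_ ?_⟩
    · exact QCBG_sum (fun m z => Lat (κ := k) q c m z) L2 L0 s (fun γ => γ • ε) _
        (fun γ => L1 _ _ _ (by linarith) (hγε γ))
    · rw [map_sub, map_sum, hXd, Finset.sum_congr rfl (fun γ _ => hγβ γ), ← Finset.mul_sum,
        Finset.sum_add_distrib, hs]
      ring
  · intro l hl D0 hD0
    obtain ⟨hY1, hY2⟩ := hY l hl
    have hbl : dl l ≤ b := hb ⟨l, rfl⟩
    obtain ⟨βl, hβl'⟩ := hdl l d (by omega)
    obtain ⟨εl, hεl, hβl⟩ := htr (Y l) βl hβl'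
    set H : Subgroup G := D0.map P.subtype with hH
    have hYH : ∀ g ∈ H, g • Y l = Y l := by
      rintro g ⟨g', hg', rfl⟩
      apply hY1
      rw [(hy l hl).1 g', hD0 g' hg']
      simp
    obtain ⟨hg1, hg2⟩ := QCBG_gamma q hqa H (θ H) βl (hθ H) t (Y l) εl hgt hYH hβl
    set γ : B := ∑ g' : H, (g' : G) • (θ H * βl) with hγ
    set ε' : D := ∑ g : H, (g : G) • (q (θ H) * εl) with hε'
    refine ⟨γ, fun g hg => hg1 _ ⟨g, hg, rfl⟩, ?_⟩
    have hε'L : Lat (κ := k) q c (m - M - 2 * r) ε' := by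
      refine QCBG_sum (fun m z => Lat (κ := k) q c m z) L2 L0 Finset.univ
        (fun g : H => (g : G) • (q (θ H) * εl)) _ fun g => ?_
      exact L1 _ _ _ (by linarith) (L5 _ _ (g : G) (L4 _ _ _ _ (hM3 H) hεl))
    refine hsm _ _ _ (QCBG_est (fun m z => Lat (κ := k) q c m z) r p L1 L2 L3 L4 r2 M m hm e ε ε'
      (Y l) (algebraMap (LaurentSeries k) D (atInf k (f l))) hM1 hε hε'L (hM2 l) hY2) ?_
    obtain ⟨p', hp'⟩ : ∃ p', p = p' + 1 :=
      ⟨p - 1, (Nat.sub_add_cancel (Fact.out : p.Prime).one_le).symm⟩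
    rw [map_mul, map_sub, map_sub, map_pow, map_mul, map_mul, map_mul, hXN, hXN, hXN, hq, hβ, hg2,
      mul_pow]
    have h3 : t ^ p = t ^ (p - 1) * t := by
      rw [hp']
      simp [pow_succ]
    rw [pow_succ, h3]
    ring

end MP7b0bad

end

section

set_option autoImplicit false

namespace MP7b0bad

open Polynomial

theorem QCInf_atInf (κ : Type) [Field κ] (d : ℕ) :
    atInf κ (X ^ d) = HahnSeries.single (-(d : ℤ)) (1 : κ) := by
  unfold atInf
  rw [map_pow, coe_eval₂RingHom, eval₂_X, HahnSeries.single_pow]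
  congr 1
  · simp
  · simp

theorem prf_QCInf (hQLat : QLat) (hQTrunc : QTrunc) (hQSmall : QSmall) (hQFree : QFree) :
    QCInf := by
  intro κ _ G _ _ P C D _ _ _ _ _ _ q hC hD hq hqa e hee het heγ hes
  classical
  have : Module.Finite κ[X] C := gal_finite hC
  have : Module.Free κ[X] C := hQFree κ (G × P) C hC
  obtain ⟨n, ⟨c⟩⟩ : ∃ n : ℕ, Nonempty (Module.Basis (Fin n) κ[X] C) :=
    ⟨_, ⟨Module.finBasis κ[X] C⟩⟩
  obtain ⟨r, L1, L2, L3, L4, L5, L6, L7, -, -⟩ := hQLat κ (G × P) C D q hC hD hq hqa n c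
  obtain ⟨r2, hr2⟩ := hQSmall κ (G × P) C D q hC hD hq hqa n c
  obtain ⟨me, hme⟩ := L6 e
  set m : ℤ := r2 + 2 * r + |me| with hm
  have hme1 : -me ≤ |me| := neg_le_abs me
  have hme2 : 0 ≤ |me| := abs_nonneg me
  obtain ⟨d, hd⟩ := hQTrunc κ (G × P) C D q hC hD hq hqa n c e m
  obtain ⟨β, hβ⟩ := hd d le_rfl
  set t : D := algebraMap (LaurentSeries κ) D (HahnSeries.single (-(d : ℤ)) (1 : κ)) with ht
  set δ : D := q β - t * e with hδ
  have hqβ : q β = t * e + δ := by rw [hδ]; ring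
  have hcoef : ∀ i : ℤ, i < -(d : ℤ) → (HahnSeries.single (-(d : ℤ)) (1 : κ)).coeff i = 0 :=
    fun i hi => HahnSeries.coeff_single_of_ne hi.ne
  have hγt : ∀ γ : G × P, γ • t = t := fun γ => hD.comm γ _
  have hXd : q (algebraMap κ[X] C (X ^ d)) = t := by rw [hq, QCInf_atInf]
  have hte : Lat (κ := κ) q c (-(d : ℤ) + me) (t * e) := L7 _ _ _ _ hcoef hme
  have h0 : ∀ M : ℤ, Lat (κ := κ) q c M (0 : D) := fun M => by
    have h := L7 (M - me) me 0 e (fun i _ => by simp) hme
    simpa using h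
  have hsub : ∀ (M : ℤ) (z z' : D), Lat (κ := κ) q c M z → Lat (κ := κ) q c M z' →
      Lat (κ := κ) q c M (z - z') := fun M z z' hz hz' => by
    rw [sub_eq_add_neg]
    exact L2 _ _ _ hz (L3 _ _ hz')
  have hγβ : ∀ γ : G × P, q (γ • β) = t * (γ • e) + γ • δ := fun γ => by
    rw [hqa, hqβ, smul_add, smul_mul', hγt]
  have hγδ : ∀ γ : G × P, Lat (κ := κ) q c (m - d - r) (γ • δ) := fun γ => L5 _ _ γ hβ
  have hγte : ∀ γ : G × P, Lat (κ := κ) q c (-(d : ℤ) + me - r) (t * (γ • e)) := fun γ => by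
    have h := L5 _ _ γ hte
    rwa [smul_mul', hγt] at h
  refine ⟨d, β, ?_, ?_, ?_, ?_⟩
  · apply hr2
    have h1 : q (β ^ 2 - algebraMap κ[X] C (X ^ d) * β) =
        ((t * e) * δ + (t * e) * δ) + (δ * δ - t * δ) := by
      rw [map_sub, map_pow, map_mul, hXd, hqβ]
      have h2 : (t * e + δ) ^ 2 - t * (t * e + δ) =
        t * t * (e * e) - t * t * e + ((t * e) * δ + (t * e) * δ) + (δ * δ - t * δ) := by ring
      rw [h2, hee]
      ring
    rw [h1]
    have h3 : Lat (κ := κ) q c ((r2 : ℤ) - (2 * d : ℕ)) ((t * e) * δ) :=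
      L1 _ _ _ (by push_cast; linarith) (L4 _ _ _ _ hte hβ)
    have h4 : Lat (κ := κ) q c ((r2 : ℤ) - (2 * d : ℕ)) (δ * δ) :=
      L1 _ _ _ (by push_cast; linarith) (L4 _ _ _ _ hβ hβ)
    have h5 : Lat (κ := κ) q c ((r2 : ℤ) - (2 * d : ℕ)) (t * δ) :=
      L1 _ _ _ (by push_cast; linarith) (L7 _ _ _ _ hcoef hβ)
    exact L2 _ _ _ (L2 _ _ _ h3 h3) (hsub _ _ _ h4 h5)
  · intro γ hγ
    apply hr2
    have h1 : q (β * (γ • β)) =
        (t * e) * (γ • δ) + (δ * (t * (γ • e)) + δ * (γ • δ)) := by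
      rw [map_mul, hγβ, hqβ]
      have h2 : (t * e + δ) * (t * (γ • e) + γ • δ) = t * t * (e * (γ • e)) +
        ((t * e) * (γ • δ) + (δ * (t * (γ • e)) + δ * (γ • δ))) := by ring
      rw [h2, heγ γ hγ]
      ring
    rw [h1]
    have h3 : Lat (κ := κ) q c ((r2 : ℤ) - (2 * d : ℕ)) ((t * e) * (γ • δ)) :=
      L1 _ _ _ (by push_cast; linarith) (L4 _ _ _ _ hte (hγδ γ))
    have h4 : Lat (κ := κ) q c ((r2 : ℤ) - (2 * d : ℕ)) (δ * (t * (γ • e))) :=
      L1 _ _ _ (by push_cast; linarith) (L4 _ _ _ _ hβ (hγte γ))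
    have h5 : Lat (κ := κ) q c ((r2 : ℤ) - (2 * d : ℕ)) (δ * (γ • δ)) :=
      L1 _ _ _ (by push_cast; linarith) (L4 _ _ _ _ hβ (hγδ γ))
    exact L2 _ _ _ h3 (L2 _ _ _ h4 h5)
  · intro τ
    apply hr2
    have h1 : q ((((τ : G), τ) : G × P) • β - β) = (((τ : G), τ) : G × P) • δ - δ := by
      rw [map_sub, hγβ, het, hqβ]
      ring
    rw [h1]
    exact hsub _ _ _ (L1 _ _ _ (by linarith) (hγδ _)) (L1 _ _ _ (by linarith) hβ)
  · obtain ⟨s, hs⟩ := hes
    refine ⟨s, ?_⟩
    apply hr2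
    have h1 : q (∑ γ ∈ s, γ • β - algebraMap κ[X] C (X ^ d)) = ∑ γ ∈ s, γ • δ := by
      rw [map_sub, map_sum, hXd, Finset.sum_congr rfl (fun γ _ => hγβ γ), Finset.sum_add_distrib,
        ← Finset.mul_sum, hs]
      ring
    rw [h1]
    have h2 : ∀ s' : Finset (G × P), Lat (κ := κ) q c ((r2 : ℤ) - d) (∑ γ ∈ s', γ • δ) := by
      intro s'
      induction s' using Finset.induction_on with
      | empty => simpa using h0 _
      | insert a s' ha ih =>
        rw [Finset.sum_insert ha]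
        exact L2 _ _ _ (L1 _ _ _ (by linarith) (hγδ a)) ih
    exact h2 s

end MP7b0bad

end

section

set_option autoImplicit false

namespace MP7b0bad

open Polynomial

theorem QCR_TN_zero {κ : Type} [Field κ] {D : Type} [CommRing D] [Algebra (LaurentSeries κ) D] :
    TN (κ := κ) (0 : D) :=
  ⟨1, fun _ => 0, one_pos, fun _ _ _ => rfl, by simp⟩

theorem QCR_atInf (k : Type) [Field k] (d : ℕ) :
    atInf k (X ^ d) = HahnSeries.single (-(d : ℤ)) (1 : k) := by
  rw [map_pow]
  have h : atInf k X = HahnSeries.single (-1 : ℤ) (1 : k) := by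
    rw [atInf, coe_eval₂RingHom, eval₂_X]
  rw [h, HahnSeries.single_pow, one_pow]
  congr 1
  simp

/-- The idempotent of a certificate at infinity. -/
theorem QCR_idem (hQSTN : QSTN) (hQIdS : QIdS) (hQTN : QTN) {k : Type} [Field k] {p : ℕ}
    [Fact p.Prime] [CharP k p] {G : Type} [Group G] [Finite G] {P : Subgroup G} {C D : Type}
    [CommRing C] [Algebra k[X] C] [MulSemiringAction (G × P) C] [CommRing D]
    [Algebra (LaurentSeries k) D] [MulSemiringAction (G × P) D] (q : C →+* D)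
    (hC : GalAlg k[X] (G × P) C) (hD : GalAlg (LaurentSeries k) (G × P) D)
    (hq : ∀ f, q (algebraMap k[X] C f) = algebraMap (LaurentSeries k) D (atInf k f))
    (hq' : ∀ (γ : G × P) (c : C), q (γ • c) = γ • q c) {d : ℕ} {β : C}
    (h1 : Small k (2 * d) (β ^ 2 - algebraMap k[X] C (X ^ d) * β))
    (h2 : ∀ γ : G × P, γ.1 ≠ (γ.2 : G) → Small k (2 * d) (β * (γ • β)))
    (h3 : ∀ τ : P, Small k d (((τ : G), τ) • β - β))
    (h4 : ∃ s : Finset (G × P), Small k d (∑ γ ∈ s, γ • β - algebraMap k[X] C (X ^ d))) :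
    ∃ e : D, e * e = e ∧ (∀ τ : P, ((τ : G), τ) • e = e) ∧
      (∀ γ : G × P, γ.1 ≠ (γ.2 : G) → e * (γ • e) = 0) ∧
      ∃ s : Finset (G × P), IsUnit (∑ γ ∈ s, γ • e) := by
  classical
  obtain ⟨tI, tadd, tmul, tint, tsmul, _, tidI, tunit, tid0⟩ := hQTN k (G × P) D hD
  have t0 : TN (κ := k) (0 : D) := QCR_TN_zero
  have i1 : IntL (κ := k) (1 : D) := tidI 1 (by rw [mul_one, sub_self]; exact t0)
  have im1 : IntL (κ := k) (-1 : D) := (tI 1 1 i1 i1).2.2
  have tneg : ∀ z : D, TN (κ := k) z → TN (κ := k) (-z) := by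
    intro z hz
    have := tmul z (-1) hz im1
    rwa [mul_neg, mul_one] at this
  have tsub : ∀ z z' : D, TN (κ := k) z → TN (κ := k) z' → TN (κ := k) (z - z') := by
    intro z z' hz hz'
    rw [sub_eq_add_neg]
    exact tadd _ _ hz (tneg _ hz')
  have iid : ∀ z : D, z * z = z → IntL (κ := k) z := by
    intro z hz
    refine tidI z ?_
    rw [hz, sub_self]
    exact t0
  set S : D := algebraMap (LaurentSeries k) D (HahnSeries.single (d : ℤ) (1 : k)) with hS
  have hSX : S * q (algebraMap k[X] C (X ^ d)) = 1 := by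
    rw [hq, QCR_atInf, hS, ← map_mul, HahnSeries.single_mul_single, add_neg_cancel, mul_one]
    exact map_one _
  have hS2 : algebraMap (LaurentSeries k) D (HahnSeries.single ((2 * d : ℕ) : ℤ) (1 : k)) =
      S * S := by
    have h0 : ((2 * d : ℕ) : ℤ) = (d : ℤ) + d := by
      push_cast
      ring
    rw [hS, ← map_mul, HahnSeries.single_mul_single, mul_one, h0]
  have hγS : ∀ γ : G × P, γ • S = S := fun γ => hD.comm γ _
  set b : D := S * q β with hb
  have hγb : ∀ γ : G × P, γ • b = S * q (γ • β) := by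
    intro γ
    rw [hb, smul_mul', hγS, hq']
  have b1 : TN (κ := k) (b * b - b) := by
    have h := hQSTN k C D q hq (2 * d) _ h1
    rw [hS2, map_sub, map_mul, map_pow] at h
    have e : S * S * (q β ^ 2 - q (algebraMap k[X] C (X ^ d)) * q β) = b * b - b := by
      calc S * S * (q β ^ 2 - q (algebraMap k[X] C (X ^ d)) * q β) =
            (S * q β) * (S * q β) - (S * q (algebraMap k[X] C (X ^ d))) * (S * q β) := by ring
        _ = b * b - b := by rw [hSX, one_mul]
    rwa [e] at h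
  have b2 : ∀ γ : G × P, γ.1 ≠ (γ.2 : G) → TN (κ := k) (b * (γ • b)) := by
    intro γ hγ
    have h := hQSTN k C D q hq (2 * d) _ (h2 γ hγ)
    rw [hS2, map_mul] at h
    have e : S * S * (q β * q (γ • β)) = b * (γ • b) := by
      rw [hγb, hb]
      ring
    rwa [e] at h
  have b3 : ∀ τ : P, TN (κ := k) (((τ : G), τ) • b - b) := by
    intro τ
    have h := hQSTN k C D q hq d _ (h3 τ)
    rw [map_sub] at h
    have e : S * (q (((τ : G), τ) • β) - q β) = ((τ : G), τ) • b - b := by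
      rw [hγb, hb]
      ring
    rwa [e] at h
  have hib : IntL (κ := k) b := tidI b b1
  obtain ⟨e, he, heb⟩ := (hQIdS k p (G × P) C D q hC hD hq hq').2 b b1
  have hie : IntL (κ := k) e := iid e he
  refine ⟨e, he, fun τ => ?_, fun γ hγ => ?_, ?_⟩
  · have hf : (((τ : G), τ) : G × P) • e * ((((τ : G), τ) : G × P) • e) =
        (((τ : G), τ) : G × P) • e := by rw [← smul_mul', he]
    set f : D := (((τ : G), τ) : G × P) • e with hf0
    have hx : TN (κ := k) (f - e) := by
      have h := tadd _ _ (tsub _ _ (tsmul _ (((τ : G), τ) : G × P) heb) heb) (b3 τ)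
      have e1 : (((τ : G), τ) : G × P) • (e - b) - (e - b) + ((((τ : G), τ) : G × P) • b - b) =
          f - e := by
        rw [smul_sub]
        ring
      rwa [e1] at h
    have hx3 : (f - e) * ((f - e) * (f - e)) = f - e := by
      have e1 : (f - e) * ((f - e) * (f - e)) =
          f * f * f - 3 * (f * f) * e + 3 * f * (e * e) - e * (e * e) := by ring
      rw [e1, hf, hf, he, he]
      ring
    have hx2 : ((f - e) * (f - e)) * ((f - e) * (f - e)) = (f - e) * (f - e) := by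
      calc ((f - e) * (f - e)) * ((f - e) * (f - e)) =
            (f - e) * ((f - e) * ((f - e) * (f - e))) := by ring
        _ = (f - e) * (f - e) := by rw [hx3]
    have h0 : (f - e) * (f - e) = 0 := tid0 _ hx2 (tmul _ _ hx (tint _ hx))
    rw [h0, mul_zero] at hx3
    exact sub_eq_zero.mp hx3.symm
  · have hf : (γ • e) * (γ • e) = γ • e := by rw [← smul_mul', he]
    refine tid0 _ ?_ ?_
    · calc e * (γ • e) * (e * (γ • e)) = (e * e) * ((γ • e) * (γ • e)) := by ring
        _ = e * (γ • e) := by rw [he, hf]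
    · have h := tadd _ _ (tadd _ _ (tmul _ _ heb (iid _ hf)) (tmul _ _ (tsmul _ γ heb) hib)) (b2 γ hγ)
      have e1 : (e - b) * (γ • e) + (γ • (e - b)) * b + b * (γ • b) = e * (γ • e) := by
        rw [smul_sub]
        ring
      rwa [e1] at h
  · obtain ⟨s, hs⟩ := h4
    refine ⟨s, ?_⟩
    have b4 : TN (κ := k) (∑ γ ∈ s, γ • b - 1) := by
      have h := hQSTN k C D q hq d _ hs
      rw [map_sub, map_sum, mul_sub, hSX, Finset.mul_sum] at h
      have e1 : ∑ γ ∈ s, S * q (γ • β) = ∑ γ ∈ s, γ • b :=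
        Finset.sum_congr rfl fun γ _ => (hγb γ).symm
      rwa [e1] at h
    have b5 : TN (κ := k) (∑ γ ∈ s, γ • (e - b)) := by
      refine Finset.sum_induction (fun γ => γ • (e - b)) (fun z => TN (κ := k) z)
        (fun a a' ha ha' => tadd a a' ha ha') t0 fun γ _ => tsmul _ γ heb
    have b6 := tunit _ (tneg _ (tadd _ _ b5 b4))
    have e1 : 1 - -(∑ γ ∈ s, γ • (e - b) + (∑ γ ∈ s, γ • b - 1)) = ∑ γ ∈ s, γ • e := by
      have e2 : ∑ γ ∈ s, γ • (e - b) = ∑ γ ∈ s, γ • e - ∑ γ ∈ s, γ • b := by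
        rw [← Finset.sum_sub_distrib]
        exact Finset.sum_congr rfl fun γ _ => smul_sub _ _ _
      rw [e2]
      ring
    rwa [e1] at b6

theorem prf_QCR (hQBC : QBC) (hQSub : QSub) (hQSTN : QSTN) (hQIdS : QIdS) (hQTN : QTN)
    (hQQuo : QQuo) (hQDomB : QDomB) (hQTR : QTR) : QCR := by
  intro k _ _ p _ _ G _ _ P C _ _ _ hP hcert
  classical
  have hC := hcert.gal
  -- the cover
  obtain ⟨B, _, _, _, iB, hB, hiB, hiBa, hiBe, hiBr⟩ :=
    hQSub k[X] (G × P) G (MonoidHom.fst G P) C (fun g => ⟨(g, 1), rfl⟩) hC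
  obtain ⟨θ, F, hθ, hFm, hFd, hF0, hFi⟩ := hcert.irr
  obtain ⟨θB, hθB⟩ := hiBr θ (fun γ hγ => by
    have h1 : γ.1 = 1 := hγ
    have h2 : γ = ((1 : G), γ.2) := Prod.ext h1 rfl
    rw [h2]
    exact hθ γ.2)
  have hBdom : IsDomain B := by
    refine (hQDomB k G B hB).2 θB F hFm hFd ?_ hFi
    apply hiB
    rw [map_zero, ← hF0, aeval_def, aeval_def, hom_eval₂, hθB]
    congr 1
    exact RingHom.ext hiBa
  -- the totally ramified part
  obtain ⟨A, _, _, _, iA, hA, hiA, hiAa, hiAe, hiAr⟩ :=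
    hQSub k[X] (G × P) P (MonoidHom.snd G P) C (fun g => ⟨(1, g), rfl⟩) hC
  have hTot : TotRam k p P A := by
    intro l hl
    obtain ⟨y, f, hy1, hy2, hy3, hy4⟩ := hcert.tot l hl
    obtain ⟨yA, hyA⟩ := hiAr y (fun γ hγ => by
      have h1 : γ.2 = 1 := hγ
      have h2 : γ = (γ.1, (1 : P)) := Prod.ext rfl h1
      rw [h2]
      exact hy1 γ.1)
    refine ⟨yA, f, fun g => ?_, ?_, hy4⟩
    · apply hiA
      rw [map_add, map_natCast, hyA, ← hy2 g, ← hyA]
      exact hiAe ((1 : G), g) yA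
    · apply hiA
      rw [map_sub, map_pow, hyA, hiAa]
      exact hy3
  -- the local algebra at infinity
  obtain ⟨D, _, _, _, q, hD, hq, hqe, _, _⟩ := hQBC k[X] (LaurentSeries k) (atInf k) (G × P) C hC
  obtain ⟨d, β, h1, h2, h3, h4⟩ := hcert.infty
  obtain ⟨e, he, he1, he2, s, hs⟩ :=
    QCR_idem hQSTN hQIdS hQTN (p := p) q hC hD hq hqe h1 h2 h3 h4
  let δ : P →* G × P := MonoidHom.prod P.subtype (MonoidHom.id P)
  have hδ : ∀ τ : P, δ τ = ((τ : G), τ) := fun _ => rfl
  obtain ⟨E, _, _, _, π, hE, hπa, _, hπe⟩ := hQQuo (LaurentSeries k) (G × P) P δ D e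
    (fun τ τ' h => (Prod.ext_iff.mp h).2) hD he (fun τ => he1 τ)
    (fun γ hγ => he2 γ fun h => hγ ⟨γ.2, by rw [hδ]; exact Prod.ext h.symm rfl⟩) ⟨s, hs⟩
  have hEdom : IsDomain E := by
    refine hQTR k p P A E (π.comp (q.comp iA)) hP hTot hE (fun f => ?_) (fun g a => ?_)
    · rw [RingHom.comp_apply, RingHom.comp_apply, hiAa, hq, hπa]
    · rw [RingHom.comp_apply, RingHom.comp_apply, RingHom.comp_apply, RingHom.comp_apply,
        ← hπe, ← hqe]
      congr 2
      exact hiAe (δ g) a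
  refine ⟨B, inferInstance, inferInstance, inferInstance, E, inferInstance, inferInstance,
    inferInstance, π.comp (q.comp iB), hB, hBdom, hE, hEdom, fun f => ?_, fun g b => ?_⟩
  · rw [RingHom.comp_apply, RingHom.comp_apply, hiBa, hq, hπa]
  · rw [RingHom.comp_apply, RingHom.comp_apply, RingHom.comp_apply, RingHom.comp_apply,
      ← hπe, ← hqe]
    congr 2
    exact hiBe (δ g) b

end MP7b0bad

end

section

set_option autoImplicit false

namespace MP7b0bad

open Polynomial

theorem QCertK_aeval {R : Type} [CommRing R] {B C : Type} [CommRing B] [Algebra R B] [CommRing C]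
    [Algebra R C] (i : B →+* C) (hi : ∀ a : R, i (algebraMap R B a) = algebraMap R C a) (θ : B)
    (F : R[X]) (h : aeval θ F = 0) : aeval (i θ) F = 0 := by
  have h1 : i.comp (algebraMap R B) = algebraMap R C := RingHom.ext hi
  rw [Polynomial.aeval_def, ← h1, ← Polynomial.hom_eval₂, ← Polynomial.aeval_def, h, map_zero]

theorem prf_QCertK (hQTen : QTen) (hQTenG : QTenG) (hQBC : QBC) (hQIdem : QIdem)
    (hQCInf : QCInf) (hQGeo : QGeo) : QCertK := by
  intro K _ p _ _ G _ _ P A B E _ _ _ _ _ _ _ _ _ j ι hP hA htot hB hBd hE hj hjP hι hιP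
  obtain ⟨C, _, _, _, i, j1, hC, hi, hj1, hiG, hj1P, -, -, huC⟩ := hQTen K[X] G P B A hB hA
  have hgen := hQTenG K[X] G P B A C i j1 hB hA hC hi hj1 hiG hj1P
  obtain ⟨D, _, _, _, q, hD, hq, hqG, huD, hDgen⟩ :=
    hQBC K[X] (LaurentSeries K) (atInf K) (G × P) C hC
  obtain ⟨f0, hf0i, hf0j⟩ := huC E ι j (fun a => by rw [hι, hj])
  obtain ⟨Φ, hΦq, hΦa⟩ := huD E f0 (algebraMap (LaurentSeries K) E) (fun a => by
    rw [← hi, hf0i, hι])
  have hf0e : ∀ (τ : P) (c : C), f0 (((τ : G), τ) • c) = τ • f0 c := by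
    intro τ c
    obtain ⟨n, b, e, hc⟩ := hgen c
    rw [hc, Finset.smul_sum, map_sum, map_sum, Finset.smul_sum]
    refine Finset.sum_congr rfl fun m _ => ?_
    rw [smul_mul', hiG, hj1P, map_mul, map_mul, hf0i, hf0j, hf0i, hf0j, smul_mul', hιP, hjP]
  set δ : P →* G × P := (Subgroup.subtype P).prod (MonoidHom.id P) with hδ
  have hδa : ∀ τ : P, δ τ = ((τ : G), τ) := fun τ => rfl
  have hδi : Function.Injective δ := by
    intro a b h
    rw [hδa, hδa] at h
    exact congrArg Prod.snd h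
  have hΦe : ∀ (τ : P) (z : D), Φ (δ τ • z) = τ • Φ z := by
    intro τ z
    obtain ⟨n, r, b, hz⟩ := hDgen z
    rw [hz, Finset.smul_sum, map_sum, map_sum, Finset.smul_sum]
    refine Finset.sum_congr rfl fun m _ => ?_
    rw [smul_mul', hD.comm, ← hqG, map_mul, map_mul, hΦa, hΦq, hΦq, smul_mul', hδa, hf0e,
      hE.comm]
  obtain ⟨e, he1, he2, he3, he4, -⟩ := hQIdem (LaurentSeries K) (G × P) P δ D E Φ hδi hD hE hΦa hΦe
  have he3' : ∀ γ : G × P, γ.1 ≠ (γ.2 : G) → e * (γ • e) = 0 := by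
    intro γ hγ
    refine he3 γ ?_
    rintro ⟨τ, hτ⟩
    rw [hδa] at hτ
    apply hγ
    rw [← hτ]
  obtain ⟨d, β, h1, h2, h3, h4⟩ := hQCInf K G P C D q hC hD hq hqG e he1
    (fun τ => by rw [← hδa]; exact he2 τ) he3' he4
  obtain ⟨θ, F, hF1, hF2, hF3, hF4⟩ := hQGeo K p G P A B E j ι hP hA htot hB hBd hE hj hjP hι hιP
  refine ⟨C, inferInstance, inferInstance, inferInstance, ⟨hC, ?_, ?_, ⟨d, β, h1, h2, h3, h4⟩⟩⟩
  · refine ⟨i θ, F, fun τ => ?_, hF1, hF2, QCertK_aeval i hi θ F hF3, hF4⟩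
    rw [hiG, one_smul]
  · intro l hl
    obtain ⟨y, f, hy1, hy2, hy3⟩ := htot l hl
    refine ⟨j1 y, f, fun g => ?_, fun τ => ?_, ?_, hy3⟩
    · rw [hj1P, one_smul]
    · rw [hj1P, hy1, map_add, map_natCast]
    · rw [← map_pow, ← map_sub, hy2, hj1]

end MP7b0bad

end

section

set_option autoImplicit false

namespace MP7b0bad

open Polynomial

theorem QDenT_E (k : Type) [Field k] (e : k[X]) (a : k) (η : KW k)
    (h0 : ∀ n : ℤ, n < 0 → η.coeff n = 0) (h1 : η.coeff 0 = Polynomial.C a) :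
    (∀ n : ℤ, n < 0 → (e.eval₂ ((KKW k).comp (HahnSeries.C : k →+* LaurentSeries k)) η).coeff n = 0) ∧
    (e.eval₂ ((KKW k).comp (HahnSeries.C : k →+* LaurentSeries k)) η).coeff 0 =
      Polynomial.C (e.eval a) := by
  set H : PowerSeries k[X] := PowerSeries.mk fun n : ℕ => η.coeff n with hH
  have hη : HahnSeries.ofPowerSeries ℤ k[X] H = η := QDF_ofPS η h0
  have hcomp : (KKW k).comp (HahnSeries.C : k →+* LaurentSeries k) =
      (HahnSeries.ofPowerSeries ℤ k[X]).comp
        ((PowerSeries.C : k[X] →+* PowerSeries k[X]).comp (Polynomial.C : k →+* k[X])) := by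
    refine RingHom.ext fun c => ?_
    rw [RingHom.comp_apply, RingHom.comp_apply, RingHom.comp_apply, HahnSeries.ofPowerSeries_C]
    change HahnSeries.map (HahnSeries.single (0 : ℤ) c) (Polynomial.C : k →+* k[X]) =
      HahnSeries.single (0 : ℤ) (Polynomial.C c : k[X])
    refine HahnSeries.ext (funext fun n => ?_)
    rw [HahnSeries.map_coeff, HahnSeries.coeff_single, HahnSeries.coeff_single]
    split_ifs
    · rfl
    · exact map_zero _
  have hE : e.eval₂ ((KKW k).comp (HahnSeries.C : k →+* LaurentSeries k)) η =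
      HahnSeries.ofPowerSeries ℤ k[X] (e.eval₂
        ((PowerSeries.C : k[X] →+* PowerSeries k[X]).comp (Polynomial.C : k →+* k[X])) H) := by
    rw [hom_eval₂, hη, hcomp]
  rw [hE]
  set G : PowerSeries k[X] := e.eval₂
        ((PowerSeries.C : k[X] →+* PowerSeries k[X]).comp (Polynomial.C : k →+* k[X])) H with hG
  constructor
  · intro n hn
    change ((G : PowerSeries k[X]) : LaurentSeries k[X]).coeff n = 0
    rw [PowerSeries.coeff_coe, if_pos hn]
  · change ((G : PowerSeries k[X]) : LaurentSeries k[X]).coeff 0 = _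
    rw [PowerSeries.coeff_coe, if_neg (by norm_num), Int.natAbs_zero,
      PowerSeries.coeff_zero_eq_constantCoeff_apply, hG, hom_eval₂]
    have h2 : PowerSeries.constantCoeff H = Polynomial.C a := by
      rw [← PowerSeries.coeff_zero_eq_constantCoeff_apply, hH, PowerSeries.coeff_mk, Nat.cast_zero,
        h1]
    have h3 : (PowerSeries.constantCoeff (R := k[X])).comp
        ((PowerSeries.C : k[X] →+* PowerSeries k[X]).comp (Polynomial.C : k →+* k[X])) =
        Polynomial.C := by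
      refine RingHom.ext fun c => ?_
      simp
    rw [h2, h3, eval₂_at_apply]

theorem QDenT_step (k : Type) [Field k] (N : ℕ) (W : k[X]) (a : Fin N → k) (η : Fin N → KW k)
    (h : DiscsT k N W a η) (m : ℤ) (u : Fin N → KW k)
    (hu : ∀ i (n : ℤ), n < m → (u i).coeff n = 0) :
    ∃ f : (LaurentSeries k)[X], ∀ i (n : ℤ), n < m + 1 →
      (u i - eval₂RingHom (KKW k) (η i) f).coeff n = 0 := by
  classical
  set c : Fin N → k[X] := fun i => (u i).coeff m with hc
  set e : Fin N → k[X] := fun i => Lagrange.basis Finset.univ a i with he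
  refine ⟨∑ i, C (HahnSeries.single m (1 : k)) *
    (((c i).map (HahnSeries.C : k →+* LaurentSeries k)).comp (VT k W) *
      (e i).map (HahnSeries.C : k →+* LaurentSeries k)), ?_⟩
  intro j
  have hE : ∀ i, (∀ n : ℤ, n < 0 →
      ((e i).eval₂ ((KKW k).comp (HahnSeries.C : k →+* LaurentSeries k)) (η j)).coeff n = 0) ∧
      ((e i).eval₂ ((KKW k).comp (HahnSeries.C : k →+* LaurentSeries k)) (η j)).coeff 0 =
      Polynomial.C ((e i).eval (a j)) := fun i => QDenT_E k (e i) (a j) (η j) (h.neg j) (h.zero j)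
  have hC : ∀ q : k[X], (q.map (HahnSeries.C : k →+* LaurentSeries k)).eval₂ (KKW k)
      (HahnSeries.C (X : k[X])) = HahnSeries.C q := by
    intro q
    rw [eval₂_map]
    have h3 : (KKW k).comp (HahnSeries.C : k →+* LaurentSeries k) =
        (HahnSeries.C : k[X] →+* KW k).comp (Polynomial.C : k →+* k[X]) := by
      refine RingHom.ext fun d => ?_
      rw [RingHom.comp_apply, RingHom.comp_apply]
      change HahnSeries.map (HahnSeries.single (0 : ℤ) d) (Polynomial.C : k →+* k[X]) =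
        HahnSeries.single (0 : ℤ) (Polynomial.C d : k[X])
      refine HahnSeries.ext (funext fun n => ?_)
      rw [HahnSeries.map_coeff, HahnSeries.coeff_single, HahnSeries.coeff_single]
      split_ifs
      · rfl
      · exact map_zero _
    rw [h3, ← hom_eval₂, eval₂_C_X]
  have hS : KKW k (HahnSeries.single m (1 : k)) = HahnSeries.single m (1 : k[X]) := by
    change HahnSeries.map (HahnSeries.single m (1 : k)) (Polynomial.C : k →+* k[X]) = _
    refine HahnSeries.ext (funext fun n => ?_)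
    rw [HahnSeries.map_coeff, HahnSeries.coeff_single, HahnSeries.coeff_single]
    split_ifs
    · exact map_one _
    · exact map_zero _
  have hval : eval₂RingHom (KKW k) (η j) (∑ i, C (HahnSeries.single m (1 : k)) *
    (((c i).map (HahnSeries.C : k →+* LaurentSeries k)).comp (VT k W) *
      (e i).map (HahnSeries.C : k →+* LaurentSeries k))) =
      ∑ i, HahnSeries.single m (c i) *
        (e i).eval₂ ((KKW k).comp (HahnSeries.C : k →+* LaurentSeries k)) (η j) := by
    rw [map_sum]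
    refine Finset.sum_congr rfl fun i _ => ?_
    rw [coe_eval₂RingHom, eval₂_mul, eval₂_mul, eval₂_C, eval₂_comp, h.root, hC, hS, eval₂_map,
      ← mul_assoc, HahnSeries.C_apply, HahnSeries.single_mul_single, add_zero, one_mul]
  rw [hval]
  intro n hn
  rw [HahnSeries.coeff_sub, HahnSeries.coeff_sum]
  have hco : ∀ i, (HahnSeries.single m (c i) *
        (e i).eval₂ ((KKW k).comp (HahnSeries.C : k →+* LaurentSeries k)) (η j)).coeff n =
      c i * ((e i).eval₂ ((KKW k).comp (HahnSeries.C : k →+* LaurentSeries k)) (η j)).coeff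
        (n - m) := by
    intro i
    have h5 := HahnSeries.coeff_single_mul_add (r := c i)
      (x := (e i).eval₂ ((KKW k).comp (HahnSeries.C : k →+* LaurentSeries k)) (η j))
      (a := n - m) (b := m)
    rw [sub_add_cancel] at h5
    exact h5
  simp only [hco]
  rcases lt_or_eq_of_le (Int.lt_add_one_iff.1 hn) with h6 | h6
  · rw [hu j n h6, zero_sub, neg_eq_zero]
    refine Finset.sum_eq_zero fun i _ => ?_
    rw [(hE i).1 (n - m) (by omega), mul_zero]
  · subst h6
    rw [sub_self, Finset.sum_eq_single j]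
    · rw [(hE j).2, he]
      simp only
      rw [Lagrange.eval_basis_self h.inj.injOn (Finset.mem_univ j), map_one, mul_one, hc]
      exact sub_self _
    · intro i _ hij
      rw [(hE i).2, he]
      simp only
      rw [Lagrange.eval_basis_of_ne hij (Finset.mem_univ j), map_zero, mul_zero]
    · intro h7
      exact absurd (Finset.mem_univ j) h7

theorem QDenT_iter (k : Type) [Field k] (N : ℕ) (W : k[X]) (a : Fin N → k) (η : Fin N → KW k)
    (h : DiscsT k N W a η) (J : ℕ) : ∀ (u : Fin N → KW k),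
    (∀ i (n : ℤ), n < 1 - (J : ℤ) → (u i).coeff n = 0) →
    ∃ f : (LaurentSeries k)[X], ∀ i (n : ℤ), n < 1 →
      (u i - eval₂RingHom (KKW k) (η i) f).coeff n = 0 := by
  induction J with
  | zero =>
    intro u hu
    refine ⟨0, fun i n hn => ?_⟩
    rw [map_zero, sub_zero]
    exact hu i n (by simpa using hn)
  | succ J ih =>
    intro u hu
    obtain ⟨f, hf⟩ := QDenT_step k N W a η h (1 - ((J + 1 : ℕ) : ℤ)) u hu
    obtain ⟨g, hg⟩ := ih (fun i => u i - eval₂RingHom (KKW k) (η i) f)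
      (fun i n hn => hf i n (by push_cast; omega))
    refine ⟨f + g, fun i n hn => ?_⟩
    rw [map_add, ← sub_sub]
    exact hg i n hn

theorem QDenT_bound (k : Type) [Field k] (N : ℕ) (u : Fin N → KW k) :
    ∃ J : ℕ, ∀ i (n : ℤ), n < 1 - (J : ℤ) → (u i).coeff n = 0 := by
  classical
  refine ⟨∑ i, (1 - (u i).order).natAbs, fun i n hn => ?_⟩
  apply HahnSeries.coeff_eq_zero_of_lt_order
  have h1 : (1 - (u i).order).natAbs ≤ ∑ i, (1 - (u i).order).natAbs :=
    Finset.single_le_sum (f := fun i => (1 - (u i).order).natAbs) (fun _ _ => Nat.zero_le _)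
      (Finset.mem_univ i)
  omega

theorem QDenT_pow (k : Type) [Field k] (η : KW k) (h0 : ∀ n : ℤ, n < 0 → η.coeff n = 0) (D : ℕ)
    (n : ℤ) (hn : n < 0) : (η ^ D).coeff n = 0 := by
  rw [← QDF_ofPS η h0, ← map_pow]
  change (((PowerSeries.mk fun n : ℕ => η.coeff n) ^ D : PowerSeries k[X]) :
    LaurentSeries k[X]).coeff n = 0
  rw [PowerSeries.coeff_coe, if_pos hn]

theorem prf_QDenT (hQSm0 : QSm0) : QDenT := by
  intro k _ p _ _ N W a η h u D
  have hp : p.Prime := Fact.out
  obtain ⟨J, hJ⟩ := QDenT_bound k N u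
  obtain ⟨f, hf⟩ := QDenT_iter k N W a η h J u hJ
  obtain ⟨D', hD1, hD2, hD3⟩ : ∃ D' : ℕ, D < D' ∧ f.natDegree < D' ∧ ¬ p ∣ D' := by
    by_cases h1 : p ∣ D + f.natDegree + 1
    · refine ⟨D + f.natDegree + 2, by omega, by omega, fun h2 => ?_⟩
      have h3 := (Nat.dvd_sub h2 h1)
      rw [show D + f.natDegree + 2 - (D + f.natDegree + 1) = 1 by omega] at h3
      exact hp.one_lt.ne' (Nat.dvd_one.1 h3)
    · exact ⟨D + f.natDegree + 1, by omega, by omega, h1⟩
  set g : (LaurentSeries k)[X] := C (HahnSeries.single (1 : ℤ) (1 : k)) * X ^ D' with hg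
  have hgd : g.natDegree = D' := by
    rw [hg]
    apply natDegree_C_mul_X_pow
    intro h0
    have := congrArg (fun z : LaurentSeries k => z.coeff 1) h0
    simp at this
  have hdeg : (f + g).natDegree = D' := by
    rw [natDegree_add_eq_right_of_natDegree_lt (by rw [hgd]; exact hD2), hgd]
  have hsmall : ∀ i (n : ℤ), n ≤ 0 →
      (u i - eval₂RingHom (KKW k) (η i) (f + g)).coeff n = 0 := by
    intro i n hn
    rw [map_add, ← sub_sub, HahnSeries.coeff_sub, hf i n (by omega), zero_sub, neg_eq_zero, hg,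
      coe_eval₂RingHom, eval₂_mul, eval₂_C, eval₂_pow, eval₂_X]
    have hS : KKW k (HahnSeries.single (1 : ℤ) (1 : k)) = HahnSeries.single (1 : ℤ) (1 : k[X]) := by
      change HahnSeries.map (HahnSeries.single (1 : ℤ) (1 : k)) (Polynomial.C : k →+* k[X]) = _
      refine HahnSeries.ext (funext fun n => ?_)
      rw [HahnSeries.map_coeff, HahnSeries.coeff_single, HahnSeries.coeff_single]
      split_ifs
      · exact map_one _
      · exact map_zero _
    rw [hS]
    have h5 := HahnSeries.coeff_single_mul_add (r := (1 : k[X])) (x := (η i) ^ D') (a := n - 1)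
      (b := (1 : ℤ))
    rw [sub_add_cancel] at h5
    rw [h5, QDenT_pow k (η i) (h.neg i) D' (n - 1) (by omega), mul_zero]
  choose H hH1 hH2 using fun i => hQSm0 k[X] p (u i - eval₂RingHom (KKW k) (η i) (f + g)) (hsmall i)
  refine ⟨f + g, H, fun i => ?_, fun _ => ?_⟩
  · rw [← hH2 i]
    ring
  · rw [hdeg]
    exact ⟨hD1, hD3⟩

end MP7b0bad

end

section

set_option autoImplicit false

namespace MP7b0bad

open Polynomial

/-! ### the twisted action -/

section stA

variable {p r : ℕ} [Fact p.Prime]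

theorem QDenV_val {B : Type} [CommRing B] [CharP B p] (x : ZMod p) :
    ((x.val : ℕ) : B) = ZMod.castHom (dvd_refl p) B x := by
  rw [ZMod.castHom_apply, ZMod.natCast_val]

theorem QDenV_stA_one {B : Type} [CommRing B] [CharP B p] (v : Fin r → B) (act : B → B)
    (hact : ∀ x, act x = x) : stA (1 : Matrix (Fin r) (Fin r) (ZMod p)) act v = v := by
  funext i
  unfold stA
  rw [Finset.sum_eq_single i]
  · rw [hact, Matrix.one_apply_eq, QDenV_val, map_one, one_mul]
  · intro j _ hj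
    rw [Matrix.one_apply_ne (Ne.symm hj), QDenV_val, map_zero, zero_mul]
  · intro h
    exact absurd (Finset.mem_univ i) h

omit [Fact p.Prime] in
/-- naturality -/
theorem QDenV_stA_nat {B B' : Type} [CommRing B] [CommRing B'] (φ : B →+* B') (act : B → B)
    (act' : B' → B') (h : ∀ x, φ (act x) = act' (φ x))
    (M : Matrix (Fin r) (Fin r) (ZMod p)) (v : Fin r → B) (i : Fin r) :
    φ (stA M act v i) = stA M act' (fun j => φ (v j)) i := by
  unfold stA
  rw [map_sum]
  refine Finset.sum_congr rfl fun j _ => ?_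
  rw [map_mul, map_natCast, h]

theorem QDenV_stA_mul {B : Type} [CommRing B] [CharP B p] (a b : B →+* B)
    (M N : Matrix (Fin r) (Fin r) (ZMod p)) (v : Fin r → B) :
    stA M a (stA N b v) = stA (M * N) (fun x => a (b x)) v := by
  funext i
  unfold stA
  simp only [QDenV_val, map_sum, map_mul, Matrix.mul_apply]
  simp only [Finset.sum_mul, Finset.mul_sum]
  rw [Finset.sum_comm]
  refine Finset.sum_congr rfl fun m _ => Finset.sum_congr rfl fun j _ => ?_
  rw [← QDenV_val (N j m), map_natCast]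
  ring

omit [Fact p.Prime] in
theorem QDenV_stA_add {B : Type} [CommRing B] (act : B → B) (h : ∀ x y, act (x + y) = act x + act y)
    (M : Matrix (Fin r) (Fin r) (ZMod p)) (v v' : Fin r → B) :
    stA M act (fun j => v j + v' j) = fun i => stA M act v i + stA M act v' i := by
  funext i
  unfold stA
  rw [← Finset.sum_add_distrib]
  exact Finset.sum_congr rfl fun j _ => by rw [h, mul_add]

omit [Fact p.Prime] in
theorem QDenV_stA_mul_left {B : Type} [CommRing B] (act : B → B) (θ : B)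
    (h : ∀ y, act (θ * y) = act θ * act y)
    (M : Matrix (Fin r) (Fin r) (ZMod p)) (v : Fin r → B) :
    stA M act (fun j => θ * v j) = fun i => act θ * stA M act v i := by
  funext i
  unfold stA
  rw [Finset.mul_sum]
  exact Finset.sum_congr rfl fun j _ => by rw [h]; ring

theorem QDenV_stA_pow {B : Type} [CommRing B] [CharP B p] (a : B →+* B)
    (M : Matrix (Fin r) (Fin r) (ZMod p)) (v : Fin r → B) (i : Fin r) :
    (stA M a v i) ^ p = stA M a (fun j => v j ^ p) i := by
  have := QDenV_stA_nat (frobenius B p) a a (fun x => by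
    rw [frobenius_def, frobenius_def, map_pow]) M v i
  rw [frobenius_def] at this
  rw [this]
  rfl

end stA

/-- the twisted action of a group -/
noncomputable def QDenV_tw {p r : ℕ} {G : Type} [Group G] {B : Type} [CommRing B]
    [MulSemiringAction G B] (ρ : G → Matrix (Fin r) (Fin r) (ZMod p)) (g : G) (v : Fin r → B) :
    Fin r → B := stA (ρ g) (fun x => g • x) v

section tw

variable {p r : ℕ} [Fact p.Prime] {G : Type} [Group G] {B : Type} [CommRing B] [CharP B p]
  [MulSemiringAction G B] (ρ : G → Matrix (Fin r) (Fin r) (ZMod p))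

theorem QDenV_tw_mul (hρ : ∀ g h, ρ (g * h) = ρ g * ρ h) (g h : G) (v : Fin r → B) :
    QDenV_tw ρ g (QDenV_tw ρ h v) = QDenV_tw ρ (g * h) v := by
  have := QDenV_stA_mul (MulSemiringAction.toRingHom G B g) (MulSemiringAction.toRingHom G B h)
    (ρ g) (ρ h) v
  unfold QDenV_tw
  rw [hρ]
  refine this.trans ?_
  congr 1
  funext x
  exact smul_smul g h x

omit [Fact p.Prime] [CharP B p] in
theorem QDenV_tw_add (g : G) (v v' : Fin r → B) :
    QDenV_tw ρ g (v + v') = QDenV_tw ρ g v + QDenV_tw ρ g v' :=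
  QDenV_stA_add _ (fun x y => smul_add g x y) (ρ g) v v'

theorem QDenV_tw_pow (g : G) (v : Fin r → B) :
    QDenV_tw ρ g (fun j => v j ^ p) = fun i => QDenV_tw ρ g v i ^ p := by
  funext i
  exact (QDenV_stA_pow (MulSemiringAction.toRingHom G B g) (ρ g) v i).symm

omit [Fact p.Prime] [CharP B p] in
theorem QDenV_tw_mul_left (g : G) (θ : B) (v : Fin r → B) :
    QDenV_tw ρ g (fun j => θ * v j) = fun i => (g • θ) * QDenV_tw ρ g v i :=
  QDenV_stA_mul_left _ θ (fun y => smul_mul' g θ y) (ρ g) v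

/-- the twisted trace -/
noncomputable def QDenV_pi [Fintype G] (θ : B) (v : Fin r → B) : Fin r → B :=
  ∑ g : G, QDenV_tw ρ g (fun j => θ * v j)

theorem QDenV_pi_inv [Fintype G] (hρ : ∀ g h, ρ (g * h) = ρ g * ρ h) (θ : B) (v : Fin r → B)
    (h : G) : QDenV_tw ρ h (QDenV_pi ρ θ v) = QDenV_pi ρ θ v := by
  let A : (Fin r → B) →+ (Fin r → B) :=
    { toFun := QDenV_tw ρ h
      map_zero' := by
        have := QDenV_tw_add ρ h (0 : Fin r → B) 0
        simpa using this
      map_add' := QDenV_tw_add ρ h }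
  have h1 : QDenV_tw ρ h (QDenV_pi ρ θ v) = A (QDenV_pi ρ θ v) := rfl
  rw [h1]
  unfold QDenV_pi
  rw [map_sum]
  refine Fintype.sum_bijective (fun x => h * x) (Group.mulLeft_bijective h) _ _ fun x => ?_
  exact QDenV_tw_mul ρ hρ h x _

omit [Fact p.Prime] [CharP B p] in
theorem QDenV_pi_id [Fintype G] (θ : B) (hθ : ∑ g : G, g • θ = 1) (v : Fin r → B)
    (hv : ∀ g, QDenV_tw ρ g v = v) : QDenV_pi ρ θ v = v := by
  unfold QDenV_pi
  funext i
  rw [Finset.sum_apply]
  simp only [QDenV_tw_mul_left, hv]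
  rw [← Finset.sum_mul, hθ, one_mul]

omit [Fact p.Prime] [CharP B p] in
theorem QDenV_pi_add [Fintype G] (θ : B) (v v' : Fin r → B) :
    QDenV_pi ρ θ (v + v') = QDenV_pi ρ θ v + QDenV_pi ρ θ v' := by
  unfold QDenV_pi
  rw [← Finset.sum_add_distrib]
  refine Finset.sum_congr rfl fun g _ => ?_
  rw [← QDenV_tw_add]
  congr 1
  funext j
  simp [mul_add]

omit [Fact p.Prime] [CharP B p] in
theorem QDenV_pi_nat [Fintype G] {D : Type} [CommRing D] [MulSemiringAction G D] (φ : B →+* D)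
    (hφ : ∀ (g : G) (x : B), φ (g • x) = g • φ x) (θ : B) (v : Fin r → B) (j : Fin r) :
    φ (QDenV_pi ρ θ v j) = QDenV_pi ρ (φ θ) (fun j => φ (v j)) j := by
  unfold QDenV_pi
  rw [Finset.sum_apply, Finset.sum_apply, map_sum]
  refine Finset.sum_congr rfl fun g _ => ?_
  unfold QDenV_tw
  rw [QDenV_stA_nat φ (fun x => g • x) (fun x => g • x) (hφ g)]
  simp only [map_mul]

end tw

/-- splitting of Laurent series -/
theorem QDenV_split {k : Type} [Field k] (a : LaurentSeries k) (N : ℕ) :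
    ∃ (f : k[X]) (b : LaurentSeries k), (∀ i : ℤ, i < (N : ℤ) + 1 → b.coeff i = 0) ∧
      a = atInf k f + (∑ i : Fin N, HahnSeries.C (a.coeff ((i : ℤ) + 1)) *
        HahnSeries.single ((i : ℤ) + 1) (1 : k)) + b := by
  classical
  let f : k[X] := ∑ n ∈ Finset.range ((-a.order).toNat + 1), monomial n (a.coeff (-(n : ℤ)))
  have hf : ∀ n : ℕ, f.coeff n = a.coeff (-(n : ℤ)) := by
    intro n
    simp only [f, finsetSum_coeff, coeff_monomial]
    rw [Finset.sum_ite_eq']
    split_ifs with h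
    · rfl
    · rw [Finset.mem_range, not_lt] at h
      rw [HahnSeries.coeff_eq_zero_of_lt_order]
      omega
  refine ⟨f, a - (atInf k f + ∑ i : Fin N, HahnSeries.C (a.coeff ((i : ℤ) + 1)) *
        HahnSeries.single ((i : ℤ) + 1) (1 : k)), ?_, by ring⟩
  intro i hi
  rw [HahnSeries.coeff_sub, HahnSeries.coeff_add, E7_atInf_coeff, HahnSeries.coeff_sum]
  have hterm : ∀ j : Fin N, (HahnSeries.C (a.coeff ((j : ℤ) + 1)) *
      HahnSeries.single ((j : ℤ) + 1) (1 : k) : LaurentSeries k).coeff i =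
      if i = (j : ℤ) + 1 then a.coeff i else 0 := by
    intro j
    rw [HahnSeries.C_apply, HahnSeries.single_mul_single, HahnSeries.coeff_single, zero_add]
    split_ifs with h
    · subst h
      simp
    · rfl
  simp only [hterm]
  by_cases h0 : i ≤ 0
  · rw [if_pos h0, hf, Finset.sum_eq_zero]
    · rw [show -(((-i).toNat : ℕ) : ℤ) = i by omega]
      ring
    · intro j _
      rw [if_neg]
      omega
  · rw [if_neg h0, Finset.sum_eq_single (⟨(i - 1).toNat, by omega⟩ : Fin N)]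
    · rw [if_pos (by simp; omega)]
      ring
    · intro j _ hj
      rw [if_neg]
      intro h
      apply hj
      ext
      simp
      omega
    · intro h
      exact absurd (Finset.mem_univ _) h

theorem prf_QDenV (hQBC : QBC) (hQGL : QGL) (hQFree : QFree) (hQLat : QLat) (hQASL : QASL)
    (hQSF : QSF) : QDenV := by
  intro k _ _ p r _ _ G _ _ P ρ B E _ _ _ _ _ _ ι hρ hρ1 hB hE hι hιact w hw
  classical
  have := Fintype.ofFinite G
  -- characteristic
  have hCinj : Function.Injective (HahnSeries.C : k →+* LaurentSeries k) := HahnSeries.C_injective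
  have hcK : CharP (LaurentSeries k) p := charP_of_injective_ringHom hCinj p
  have hcB : CharP B p := charP_of_injective_ringHom hB.inj p
  have hcE : CharP E p := charP_of_injective_ringHom hE.inj p
  obtain ⟨D, _, _, _, q, hD, hq, hqact, huniv, hgen⟩ :=
    hQBC k[X] (LaurentSeries k) (atInf k) G B hB
  have hcD : CharP D p := charP_of_injective_ringHom hD.inj p
  obtain ⟨Φ, hΦq, hΦK⟩ := huniv E ι (algebraMap (LaurentSeries k) E) hι
  have hΦact : ∀ (g : P) (z : D), Φ ((g : G) • z) = g • Φ z := by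
    intro g z
    obtain ⟨n, a, b, rfl⟩ := hgen z
    simp only [Finset.smul_sum, map_sum, smul_mul', map_mul, hD.comm, hΦK, ← hqact, hΦq, hιact,
      hE.comm]
  have hfinD : Module.Finite (LaurentSeries k) D := gal_finite hD
  let βD := Module.finBasis (LaurentSeries k) D
  have hΦsum : ∀ (c : Fin (Module.finrank (LaurentSeries k) D) → LaurentSeries k) (γ : G),
      Φ (γ⁻¹ • ∑ l, algebraMap (LaurentSeries k) D (c l) * βD l) =
        ∑ l, algebraMap (LaurentSeries k) E (c l) * Φ (γ⁻¹ • βD l) := by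
    intro c γ
    simp only [Finset.smul_sum, map_sum, smul_mul', map_mul, hD.comm, hΦK]
  have hQ := hQGL (LaurentSeries k) (LaurentSeries k) (RingHom.id _) G P P.subtype D E Φ hD hE.comm
    hE.inj hE.inv (fun a => hΦK a) hΦact _ βD
  have hex : ∀ v : G → E, (∀ (γ : G) (h : P), h • v (γ * (h : G)) = v γ) →
      ∃ z : D, ∀ γ : G, Φ (γ⁻¹ • z) = v γ := by
    intro v hv
    obtain ⟨c, hc, -⟩ := hQ v hv
    exact ⟨∑ l, algebraMap (LaurentSeries k) D (c l) * βD l, fun γ => by
      rw [hΦsum]; exact (hc γ).symm⟩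
  have huni : ∀ z : D, (∀ γ : G, Φ (γ⁻¹ • z) = 0) → z = 0 := by
    intro z hz
    have hzr : z = ∑ l, algebraMap (LaurentSeries k) D (βD.repr z l) * βD l := by
      conv_lhs => rw [← βD.sum_repr z]
      exact Finset.sum_congr rfl fun l _ => Algebra.smul_def _ _
    obtain ⟨c, -, hc⟩ := hQ (fun _ => 0) (fun γ h => smul_zero h)
    have h1 := hc (fun l => βD.repr z l) (fun γ => by rw [← hΦsum, ← hzr, hz])
    have h2 := hc 0 (fun γ => by simp)
    rw [hzr]
    have h3 : (fun l => βD.repr z l) = (0 : Fin _ → LaurentSeries k) := h1.trans h2.symm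
    refine Finset.sum_eq_zero fun l _ => ?_
    have h4 : βD.repr z l = 0 := congrFun h3 l
    rw [h4, map_zero, zero_mul]
  -- Step 1
  have hv : ∀ j (γ : G) (h : P), h • (stA (ρ (γ * (h : G))) (fun x : E => x) w j) =
      stA (ρ γ) (fun x : E => x) w j := by
    intro j γ h
    have h1 := QDenV_stA_nat (MulSemiringAction.toRingHom P E h) (fun x : E => x) (fun x : E => x)
      (fun x => rfl) (ρ (γ * (h : G))) w j
    have h2 : (fun i => h • w i) = w → True := fun _ => trivial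
    change (MulSemiringAction.toRingHom P E h) _ = _
    rw [h1, hρ]
    have h3 := QDenV_stA_mul (RingHom.id E) (RingHom.id E) (ρ γ) (ρ (h : G))
      (fun j => (MulSemiringAction.toRingHom P E h) (w j))
    have h4 : stA (ρ (h : G)) (RingHom.id E) (fun j => (MulSemiringAction.toRingHom P E h) (w j)) = w :=
      hw h
    rw [h4] at h3
    exact (congrFun h3 j).symm
  choose wh hwh using fun j => hex (fun γ => stA (ρ γ) (fun x : E => x) w j) (hv j)
  have hwht : ∀ g : G, QDenV_tw ρ g wh = wh := by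
    intro g
    funext i
    rw [← sub_eq_zero]
    apply huni
    intro γ
    rw [smul_sub, map_sub, sub_eq_zero]
    have h1 : Φ (γ⁻¹ • QDenV_tw ρ g wh i) =
        stA (ρ g) (fun x : E => x) (fun j => Φ ((g⁻¹ * γ)⁻¹ • wh j)) i := by
      unfold QDenV_tw stA
      rw [Finset.smul_sum, map_sum]
      refine Finset.sum_congr rfl fun j _ => ?_
      rw [smul_mul', map_mul, mul_inv_rev, inv_inv]
      have h2 : γ⁻¹ • (((ρ g i j).val : ℕ) : D) = (((ρ g i j).val : ℕ) : D) :=
        map_natCast (MulSemiringAction.toRingHom G D γ⁻¹) _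
      rw [h2, map_natCast]
      change _ * Φ (γ⁻¹ • g • wh j) = _ * Φ ((γ⁻¹ * g) • wh j)
      rw [mul_smul]
    rw [h1, hwh i γ]
    simp only [hwh]
    have h2 := congrFun (QDenV_stA_mul (RingHom.id E) (RingHom.id E) (ρ g) (ρ (g⁻¹ * γ)) w) i
    rw [← hρ, mul_inv_cancel_left] at h2
    exact h2
  -- lattices
  have hfreeB : Module.Free k[X] B := hQFree k G B hB
  have hfinB : Module.Finite k[X] B := gal_finite hB
  let cB := Module.finBasis k[X] B
  obtain ⟨r0, hmono, hadd, hneg, hmul, hact, hexL, hsc, -, -⟩ :=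
    hQLat k G B D q hB hD hq hqact _ cB
  obtain ⟨M0, hM0⟩ := hQASL k p G B D q hB hD hq hqact _ cB
  obtain ⟨hM1, -⟩ := hM0 (M0 + r0) (by omega)
  obtain ⟨-, hM2⟩ := hM0 M0 le_rfl
  set M : ℤ := M0 + r0 with hMdef
  have hzero : ∀ m : ℤ, Lat (κ := k) q cB m 0 := fun m =>
    ⟨fun _ => 0, fun _ _ _ => by simp, by simp⟩
  have hsum : ∀ (m : ℤ) (ι' : Type) (s : Finset ι') (u : ι' → D),
      (∀ i ∈ s, Lat (κ := k) q cB m (u i)) → Lat (κ := k) q cB m (∑ i ∈ s, u i) := by
    intro m ι' s u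
    induction s using Finset.induction_on with
    | empty => intro _; rw [Finset.sum_empty]; exact hzero m
    | insert i s hi ih =>
      intro h
      rw [Finset.sum_insert hi]
      exact hadd m _ _ (h i (Finset.mem_insert_self i s))
        (ih fun j hj => h j (Finset.mem_insert_of_mem hj))
  have hconst : ∀ (m : ℤ) (c : k) (z : D), Lat (κ := k) q cB m z →
      Lat (κ := k) q cB m (algebraMap (LaurentSeries k) D (HahnSeries.C c) * z) := by
    intro m c z hz
    have := hsc 0 m (HahnSeries.C c) z (fun i hi => by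
      rw [HahnSeries.C_apply, HahnSeries.coeff_single_of_ne (by omega)]) hz
    rwa [zero_add] at this
  have hnat : ∀ (m : ℤ) (n : ℕ) (z : D), Lat (κ := k) q cB m z →
      Lat (κ := k) q cB m ((n : D) * z) := by
    intro m n z hz
    have := hconst m (n : k) z hz
    rwa [map_natCast, map_natCast] at this
  have hsub : ∀ (m : ℤ) (z z' : D), Lat (κ := k) q cB m z → Lat (κ := k) q cB m z' →
      Lat (κ := k) q cB m (z - z') := by
    intro m z z' hz hz'
    rw [sub_eq_add_neg]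
    exact hadd m _ _ hz (hneg m _ hz')
  have htw : ∀ (m : ℤ) (g : G) (v : Fin r → D), (∀ j, Lat (κ := k) q cB m (v j)) →
      ∀ j, Lat (κ := k) q cB (m - r0) (QDenV_tw ρ g v j) := by
    intro m g v hv j
    unfold QDenV_tw stA
    exact hsum _ _ _ _ fun i _ => hnat _ _ _ (hact m _ g (hv i))
  -- the trace
  obtain ⟨θ, hθ⟩ := gal_trace_one hB
  have hθq : ∑ g : G, g • q θ = 1 := by
    simp only [← hqact, ← map_sum, hθ, map_one]
  obtain ⟨mθ, hmθ⟩ := hexL (q θ)
  have hpi : ∀ (m : ℤ) (v : Fin r → D), (∀ j, Lat (κ := k) q cB m (v j)) →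
      ∀ j, Lat (κ := k) q cB (mθ + m - r0 - r0) (QDenV_pi ρ (q θ) v j) := by
    intro m v hv j
    unfold QDenV_pi
    rw [Finset.sum_apply]
    exact hsum _ _ _ _ fun g _ => htw _ g _ (fun i => hmul _ _ _ _ hmθ (hv i)) j
  -- scalars
  let _ : Module k D := Module.compHom D ((algebraMap (LaurentSeries k) D).comp HahnSeries.C)
  have hsmul : ∀ (c : k) (z : D), c • z = algebraMap (LaurentSeries k) D (HahnSeries.C c) * z :=
    fun c z => rfl
  have htws : ∀ (c : k) (g : G) (v : Fin r → D), QDenV_tw ρ g (c • v) = c • QDenV_tw ρ g v := by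
    intro c g v
    have h1 := QDenV_tw_mul_left ρ g (algebraMap (LaurentSeries k) D (HahnSeries.C c)) v
    rw [hD.comm] at h1
    exact h1
  let W : Submodule k (Fin r → D) :=
    { carrier := {z | ∀ g : G, QDenV_tw ρ g z = z}
      add_mem' := fun {a b} ha hb g => by rw [QDenV_tw_add, ha g, hb g]
      zero_mem' := fun g => by
        have := htws 0 g 0
        simpa using this
      smul_mem' := fun c z hz g => by rw [htws, hz g] }
  let F : W →+ W :=
    { toFun := fun z => ⟨fun j => z.1 j ^ p, fun g => by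
        rw [QDenV_tw_pow]
        funext i
        rw [z.2 g]⟩
      map_zero' := by
        apply Subtype.ext
        funext j
        exact zero_pow (Fact.out : p.Prime).ne_zero
      map_add' := fun a b => by
        apply Subtype.ext
        funext j
        exact add_pow_char _ _ _ }
  let U : Submodule k W :=
    { carrier := {z | ∃ f : Fin r → B, (∀ g : G, QDenV_tw ρ g f = f) ∧
        ∀ j, Lat (κ := k) q cB M (z.1 j - q (f j))}
      add_mem' := by
        rintro a b ⟨f, hf, hf'⟩ ⟨f', hg, hg'⟩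
        refine ⟨f + f', fun g => by rw [QDenV_tw_add, hf g, hg g], fun j => ?_⟩
        have := hadd M _ _ (hf' j) (hg' j)
        convert this using 1
        simp only [Submodule.coe_add, Pi.add_apply, map_add]
        ring
      zero_mem' := by
        refine ⟨0, fun g => ?_, fun j => ?_⟩
        · have := QDenV_tw_add ρ g (0 : Fin r → B) 0
          simpa using this
        · simpa using hzero M
      smul_mem' := by
        rintro c z ⟨f, hf, hf'⟩
        refine ⟨fun j => algebraMap k[X] B (C c) * f j, fun g => ?_, fun j => ?_⟩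
        · rw [QDenV_tw_mul_left, hB.comm, hf g]
        · have := hconst M c _ (hf' j)
          convert this using 1
          rw [map_mul, hq, mul_sub]
          congr 2
          unfold atInf
          rw [coe_eval₂RingHom, eval₂_C] }
  -- the projection to `W`
  let πl : (Fin r → D) →ₗ[k] W :=
    { toFun := fun v => ⟨QDenV_pi ρ (q θ) v, fun g => QDenV_pi_inv ρ hρ (q θ) v g⟩
      map_add' := fun a b => Subtype.ext (QDenV_pi_add ρ (q θ) a b)
      map_smul' := fun c a => by
        apply Subtype.ext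
        change QDenV_pi ρ (q θ) (c • a) = c • QDenV_pi ρ (q θ) a
        unfold QDenV_pi
        rw [Finset.smul_sum]
        refine Finset.sum_congr rfl fun g _ => ?_
        rw [← htws]
        congr 1
        funext j
        simp only [Pi.smul_apply, hsmul]
        ring }
  have hπW : ∀ z : W, πl z.1 = z := fun z => Subtype.ext (QDenV_pi_id ρ (q θ) hθq z.1 z.2)
  let N' : ℕ := (M + r0 + r0 - mθ).toNat
  let e := Fintype.equivFin (Fin r × Fin (Module.finrank k[X] B) × Fin N')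
  let x : Fin r × Fin (Module.finrank k[X] B) × Fin N' → (Fin r → D) := fun t =>
    Pi.single t.1 (algebraMap (LaurentSeries k) D (HahnSeries.single ((t.2.2 : ℤ) + 1) (1 : k)) *
      q (cB t.2.1))
  have hspan : ∀ z : W, ∃ a : Fin (Fintype.card (Fin r × Fin (Module.finrank k[X] B) × Fin N')) → k,
      z - ∑ i, a i • πl (x (e.symm i)) ∈ U := by
    intro z
    choose mz hh _ hzh using fun j => hexL (z.1 j)
    choose f b hb hfb using fun j l => QDenV_split (hh j l) N'
    let a : Fin r × Fin (Module.finrank k[X] B) × Fin N' → k := fun t =>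
      (hh t.1 t.2.1).coeff ((t.2.2 : ℤ) + 1)
    let bb : Fin r → B := fun j => ∑ l, algebraMap k[X] B (f j l) * cB l
    let lam : Fin r → D := fun j => ∑ l, algebraMap (LaurentSeries k) D (b j l) * q (cB l)
    have hz : z.1 = (fun j => q (bb j)) + ∑ t, a t • x t + lam := by
      funext j
      rw [hzh j]
      simp only [Pi.add_apply, Finset.sum_apply, Pi.smul_apply, bb, lam, map_sum, map_mul, hq]
      have h1 : ∀ l, algebraMap (LaurentSeries k) D (hh j l) * q (cB l) =
          algebraMap (LaurentSeries k) D (atInf k (f j l)) * q (cB l) +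
          (∑ i : Fin N', a (j, l, i) • (algebraMap (LaurentSeries k) D
            (HahnSeries.single ((i : ℤ) + 1) (1 : k)) * q (cB l))) +
          algebraMap (LaurentSeries k) D (b j l) * q (cB l) := by
        intro l
        conv_lhs => rw [hfb j l]
        rw [map_add, map_add, map_sum, add_mul, add_mul, Finset.sum_mul]
        congr 2
        refine Finset.sum_congr rfl fun i _ => ?_
        rw [hsmul, map_mul, mul_assoc]
      simp only [h1, Finset.sum_add_distrib]
      congr 2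
      rw [Fintype.sum_prod_type, Finset.sum_eq_single j]
      · rw [Fintype.sum_prod_type]
        refine Finset.sum_congr rfl fun l _ => Finset.sum_congr rfl fun i _ => ?_
        simp [x]
      · intro j' _ hj'
        refine Finset.sum_eq_zero fun t _ => ?_
        simp only [x]
        rw [Pi.single_eq_of_ne (Ne.symm hj'), smul_zero]
      · intro h
        exact absurd (Finset.mem_univ j) h
    refine ⟨fun i => a (e.symm i), ?_⟩
    have h2 : z = πl (fun j => q (bb j)) + ∑ i, a (e.symm i) • πl (x (e.symm i)) + πl lam := by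
      rw [← hπW z]
      conv_lhs => rw [hz]
      rw [map_add, map_add, map_sum]
      congr 2
      rw [← e.symm.sum_comp]
      exact Finset.sum_congr rfl fun i _ => map_smul _ _ _
    have h3 : z - ∑ i, a (e.symm i) • πl (x (e.symm i)) = πl (fun j => q (bb j)) + πl lam := by
      conv_lhs => rw [h2]
      abel
    rw [h3]
    refine ⟨QDenV_pi ρ θ bb, fun g => QDenV_pi_inv ρ hρ θ bb g, fun j => ?_⟩
    rw [QDenV_pi_nat ρ q hqact]
    have h4 : ((πl (fun j => q (bb j)) + πl lam : W) : Fin r → D) j -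
        QDenV_pi ρ (q θ) (fun j => q (bb j)) j = QDenV_pi ρ (q θ) lam j := by
      change QDenV_pi ρ (q θ) (fun j => q (bb j)) j + QDenV_pi ρ (q θ) lam j - _ = _
      ring
    rw [h4]
    have h5 : ∀ j, Lat (κ := k) q cB ((N' : ℤ) + 1) (lam j) := fun j => ⟨b j, fun l i hi => hb j l i hi, rfl⟩
    refine hmono _ _ _ ?_ (hpi _ lam h5 j)
    have : M + r0 + r0 - mθ ≤ (N' : ℤ) := Int.self_le_toNat _
    omega
  have hsemi : ∀ (c : k) (z : W), F (c • z) = c ^ p • F z := by
    intro c z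
    apply Subtype.ext
    funext j
    change (c • z.1 j) ^ p = c ^ p • (z.1 j ^ p)
    rw [hsmul, hsmul, mul_pow, map_pow, map_pow]
  have hstab : ∀ u ∈ U, F u ∈ U := by
    rintro z ⟨f, hf, hf'⟩
    refine ⟨fun j => f j ^ p, fun g => ?_, fun j => ?_⟩
    · rw [QDenV_tw_pow]
      funext i
      rw [hf g]
    · have := (hM1 _ (hf' j)).1
      rw [sub_pow_char] at this
      rw [map_pow]
      exact this
  obtain ⟨h0, f, hf, hlam⟩ := hQSF k p W F U _ (fun i => πl (x (e.symm i))) hsemi hstab hspan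
    ⟨wh, hwht⟩
  -- Step 3
  choose h1 hh1 hh1' using fun j => (hM1 _ (hlam j)).2
  have hcomp : ∀ j, wh j = q (f j) + (h1 j ^ p - h1 j) + (h0.1 j ^ p - h0.1 j) := by
    intro j
    rw [hh1' j]
    change wh j = q (f j) + (wh j - (h0.1 j ^ p - h0.1 j) - q (f j)) + (h0.1 j ^ p - h0.1 j)
    ring
  have hh1t : ∀ g : G, QDenV_tw ρ g h1 = h1 := by
    intro g
    funext i
    rw [← sub_eq_zero]
    apply hM2
    · refine hsub _ _ _ ?_ (hmono M _ _ (by omega) (hh1 i))
      have := htw M g h1 hh1 i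
      rwa [hMdef, add_sub_cancel_right] at this
    · rw [sub_pow_char]
      have h2 : ∀ i, QDenV_tw ρ g h1 i ^ p = QDenV_tw ρ g (fun j => h1 j ^ p) i := by
        intro i
        rw [QDenV_tw_pow]
      have h3 : (fun j => h1 j ^ p) = (fun j => h1 j) + ((wh - fun j => q (f j)) -
          ((fun j => h0.1 j ^ p) - h0.1)) := by
        funext j
        have := hcomp j
        simp only [Pi.add_apply, Pi.sub_apply]
        linear_combination -this
      have htwsub : ∀ (v v' : Fin r → D), QDenV_tw ρ g (v - v') =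
          QDenV_tw ρ g v - QDenV_tw ρ g v' := by
        intro v v'
        rw [eq_sub_iff_add_eq, ← QDenV_tw_add, sub_add_cancel]
      have hqf : QDenV_tw ρ g (fun j => q (f j)) = fun j => q (f j) := by
        funext j
        have h5 := QDenV_stA_nat q (fun x => g • x) (fun x => g • x) (hqact g) (ρ g) f j
        have h6 := congrFun (hf g) j
        unfold QDenV_tw at h6 ⊢
        rw [← h5, h6]
      have h4 : QDenV_tw ρ g (fun j => h1 j ^ p) = QDenV_tw ρ g h1 + ((wh - fun j => q (f j)) -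
          ((fun j => h0.1 j ^ p) - h0.1)) := by
        conv_lhs => rw [h3]
        rw [QDenV_tw_add, htwsub, htwsub, htwsub, hwht, hqf, h0.2, QDenV_tw_pow, h0.2]
      rw [h2, h4]
      have h5 := congrFun h3 i
      simp only [Pi.add_apply, Pi.sub_apply] at h5 ⊢
      rw [h5]
      ring
  refine ⟨f, fun j => Φ (h0.1 j + h1 j), hf, ?_, ?_⟩
  · intro g
    funext j
    have h5 := QDenV_stA_nat Φ (fun x => (g : G) • x) (fun x => g • x) (hΦact g) (ρ (g : G))
      (h0.1 + h1) j
    have h6 : QDenV_tw ρ (g : G) (h0.1 + h1) = h0.1 + h1 := by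
      rw [QDenV_tw_add, h0.2, hh1t]
    have h7 := congrFun h6 j
    unfold QDenV_tw at h7
    rw [h7] at h5
    exact h5.symm
  · intro j
    have h5 := hwh j 1
    rw [inv_one, one_smul, hρ1] at h5
    rw [QDenV_stA_one w (fun x => x) (fun x => rfl)] at h5
    rw [← h5, hcomp j, ← map_pow, add_pow_char]
    simp only [map_add, map_sub, hΦq]
    ring

end MP7b0bad

end

section

set_option autoImplicit false

namespace MP7b0bad

open Polynomial

theorem QDes_main (hE9 : E9) (hQSpr : QSpr) (hQBC : QBC) : QDes := by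
  classical
  intro k _ _ p _ _ K _ _ G _ _ P C _ _ _ hC
  obtain ⟨hgal, ⟨θ, F, hθP, hFm, hFd, hFθ, hFirr⟩, htot, ⟨d, β, hS1, hS2, hS4, s, hS3⟩⟩ := hC
  have : Finite (P →* Multiplicative (ZMod p)) := DFunLike.finite _
  have := Fintype.ofFinite G
  have := Fintype.ofFinite P
  have := Fintype.ofFinite (P →* Multiplicative (ZMod p))
  choose! y f hy1 hy2 hy3 hy4 using htot
  obtain ⟨Z1, hZ1⟩ := TII_small k hS1
  choose! Z2 hZ2 using fun (γ : G × P) (hγ : γ.1 ≠ (γ.2 : G)) => TII_small k (hS2 γ hγ)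
  obtain ⟨Z3, hZ3⟩ := TII_small k hS3
  choose Z4 hZ4 using fun τ => TII_small k (hS4 τ)
  set ZC : Finset C := {θ, β} ∪ Finset.univ.image y with hZC
  set ZK : Finset K := F.coeffs.biUnion (fun c => c.coeffs) ∪ Z1 ∪ Z3 ∪
    Finset.univ.biUnion Z2 ∪ Finset.univ.biUnion Z4 ∪
    Finset.univ.biUnion (fun l => (f l).coeffs) with hZK
  obtain ⟨R', hR'fg, hR'Z, C', _, _, _, incl, hinj, halg, hact, hgal', hCZ⟩ :=
    hQSpr k K (G × P) C hgal ZC ZK
  obtain ⟨θ', hθ'⟩ := hCZ θ (by simp [hZC])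
  obtain ⟨β', hβ'⟩ := hCZ β (by simp [hZC])
  have hy : ∀ l, ∃ z', incl z' = y l := fun l => hCZ _ (by
    rw [hZC]
    exact Finset.mem_union_right _ (Finset.mem_image_of_mem _ (Finset.mem_univ _)))
  choose y' hy' using hy
  have hKf : ∀ l, ∀ z ∈ (f l).coeffs, z ∈ R' := fun l z hz => hR'Z z (by
    rw [hZK]
    exact Finset.mem_union_right _ (Finset.mem_biUnion.2 ⟨l, Finset.mem_univ _, hz⟩))
  have hK4 : ∀ τ, ∀ z ∈ Z4 τ, z ∈ R' := fun τ z hz => hR'Z z (by
    rw [hZK]
    exact Finset.mem_union_left _ (Finset.mem_union_right _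
      (Finset.mem_biUnion.2 ⟨τ, Finset.mem_univ _, hz⟩)))
  have hK2 : ∀ γ, ∀ z ∈ Z2 γ, z ∈ R' := fun γ z hz => hR'Z z (by
    rw [hZK]
    exact Finset.mem_union_left _ (Finset.mem_union_left _ (Finset.mem_union_right _
      (Finset.mem_biUnion.2 ⟨γ, Finset.mem_univ _, hz⟩))))
  have hK3 : ∀ z ∈ Z3, z ∈ R' := fun z hz => hR'Z z (by
    rw [hZK]
    exact Finset.mem_union_left _ (Finset.mem_union_left _ (Finset.mem_union_left _
      (Finset.mem_union_right _ hz))))
  have hK1 : ∀ z ∈ Z1, z ∈ R' := fun z hz => hR'Z z (by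
    rw [hZK]
    exact Finset.mem_union_left _ (Finset.mem_union_left _ (Finset.mem_union_left _
      (Finset.mem_union_left _ (Finset.mem_union_right _ hz)))))
  have hKF : ∀ c ∈ F.coeffs, ∀ z ∈ c.coeffs, z ∈ R' := fun c hc z hz => hR'Z z (by
    rw [hZK]
    exact Finset.mem_union_left _ (Finset.mem_union_left _ (Finset.mem_union_left _
      (Finset.mem_union_left _ (Finset.mem_union_left _ (Finset.mem_biUnion.2 ⟨c, hc, hz⟩))))))
  have hRK : Function.Injective (algebraMap R' K) := FaithfulSMul.algebraMap_injective R' K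
  have hlf : ∀ l, ∃ f' : (R')[X], f'.map (algebraMap R' K) = f l := fun l =>
    TII_lift (R' := R') (f l) fun z hz => ⟨⟨z, hKf l z hz⟩, rfl⟩
  choose f' hf' using hlf
  have hf'd : ∀ l, (f' l).natDegree = (f l).natDegree := fun l => by
    rw [← hf', natDegree_map_eq_of_injective hRK]
  have hfl : ∀ l, l ≠ 1 → (f' l).leadingCoeff ≠ 0 := by
    intro l hl
    rw [Ne, leadingCoeff_eq_zero]
    intro h0
    apply hy4 l hl
    rw [← hf'd, h0, natDegree_zero]
    exact dvd_zero p
  -- lift of F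
  have hFl : F ∈ Polynomial.lifts (mapRingHom (algebraMap R' K)) := by
    rw [lifts_iff_coeff_lifts]
    intro n
    by_cases hn : F.coeff n = 0
    · exact ⟨0, by rw [map_zero, hn]⟩
    · obtain ⟨c', hc'⟩ := TII_lift (R' := R') (F.coeff n) fun z hz =>
        ⟨⟨z, hKF _ (coeff_mem_coeffs hn) z hz⟩, rfl⟩
      exact ⟨c', hc'⟩
  obtain ⟨F', hF', hF'd, hF'm⟩ := lifts_and_natDegree_eq_and_monic hFl hFm
  have hcard : 0 < Nat.card G := Nat.card_pos
  have hF'd0 : 0 < F'.natDegree := by rw [hF'd, hFd]; exact hcard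
  have hθ0 : aeval θ' F' = 0 := by
    apply hinj
    rw [map_zero, aeval_def, hom_eval₂, hθ', ← hFθ, ← hF', aeval_def, eval₂_map]
    congr 1
    ext a
    · simp [halg]
    · simp [halg]
  have halgX : ∀ n : ℕ, incl (algebraMap (R')[X] C' (X ^ n)) = algebraMap K[X] C (X ^ n) := by
    intro n
    rw [halg]
    simp
  have hS1' : Small R' (2 * d) (β' ^ 2 - algebraMap (R')[X] C' (X ^ d) * β') := by
    refine hZ1 R' hK1 C' incl hinj halg _ ?_
    rw [map_sub, map_mul, map_pow, hβ', halgX]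
  have hS2' : ∀ γ : G × P, γ.1 ≠ (γ.2 : G) → Small R' (2 * d) (β' * (γ • β')) := by
    intro g hg
    refine hZ2 g hg R' (hK2 g) C' incl hinj halg _ ?_
    rw [map_mul, hact, hβ']
  have hS3' : Small R' d (∑ g ∈ s, g • β' - algebraMap (R')[X] C' (X ^ d)) := by
    refine hZ3 R' hK3 C' incl hinj halg _ ?_
    rw [map_sub, map_sum, halgX]
    simp only [hact, hβ']
  have hS4' : ∀ τ : P, Small R' d (((τ : G), τ) • β' - β') := by
    intro τ
    refine hZ4 τ R' (hK4 τ) C' incl hinj halg _ ?_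
    rw [map_sub, hact, hβ']
  -- specialisation
  have hft : Algebra.FiniteType k R' := (Subalgebra.fg_iff_finiteType R').1 hR'fg
  obtain ⟨φ, hφ1, hφ2⟩ := hE9 k R' hft (AlgebraicClosure K)
    (by
      rw [IsScalarTower.algebraMap_eq R' K (AlgebraicClosure K)]
      exact (algebraMap K (AlgebraicClosure K)).injective.comp hRK)
    F' hF'm hF'd0
    (by
      have h1 := hFirr (AlgebraicClosure K)
      rw [← hF', map_map] at h1
      have h2 : (mapRingHom (algebraMap K (AlgebraicClosure K))).comp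
          (mapRingHom (algebraMap R' K)) = mapRingHom (algebraMap R' (AlgebraicClosure K)) := by
        rw [IsScalarTower.algebraMap_eq R' K (AlgebraicClosure K), mapRingHom_comp]
      rw [h2] at h1
      exact h1)
    (∏ l ∈ Finset.univ.filter (fun l : P →* Multiplicative (ZMod p) => l ≠ 1),
      (f' l).leadingCoeff)
    (Finset.prod_ne_zero_iff.2 fun l hl => hfl l (Finset.mem_filter.1 hl).2)
  obtain ⟨C'', _, _, _, q, hq0, hq1, hq2, -, -⟩ := hQBC (R')[X] k[X] (mapRingHom (φ : R' →+* k))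
    (G × P) C' hgal'
  have hq1' : ∀ a : (R')[X], q (algebraMap (R')[X] C' a) = algebraMap k[X] C''
      (a.map (φ : R' →+* k)) := hq1
  have hqX : ∀ n : ℕ, q (algebraMap (R')[X] C' (X ^ n)) = algebraMap k[X] C'' (X ^ n) := by
    intro n
    rw [hq1']
    simp
  refine ⟨C'', inferInstance, inferInstance, inferInstance, ⟨hq0, ?_, ?_, ?_⟩⟩
  · refine ⟨q θ', F'.map (mapRingHom (φ : R' →+* k)), ?_, hF'm.map _, ?_, ?_, hφ2⟩
    · intro τ
      have h1 : ((1 : G), τ) • θ' = θ' := by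
        apply hinj
        rw [hact, hθ', hθP]
      rw [← hq2, h1]
    · rw [hF'm.natDegree_map, hF'd, hFd]
    · have h1 := congrArg q hθ0
      rw [map_zero, aeval_def, hom_eval₂] at h1
      rw [aeval_def, eval₂_map, ← h1]
      congr 1
      ext a
      · simp [hq1']
      · simp [hq1']
  · intro l hl
    have hnd : ((f' l).map (φ : R' →+* k)).natDegree = (f l).natDegree := by
      rw [← hf'd]
      refine natDegree_map_of_leadingCoeff_ne_zero _ ?_
      intro h0
      apply hφ1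
      rw [map_prod]
      exact Finset.prod_eq_zero (Finset.mem_filter.2 ⟨Finset.mem_univ l, hl⟩) h0
    refine ⟨q (y' l), (f' l).map (φ : R' →+* k), ?_, ?_, ?_, ?_⟩
    · intro g
      have h1 : (g, (1 : P)) • y' l = y' l := by
        apply hinj
        rw [hact, hy', hy1 l hl]
      rw [← hq2, h1]
    · intro τ
      have h1 : ((1 : G), τ) • y' l = y' l + (((Multiplicative.toAdd (l τ)).val : ℕ) : C') := by
        apply hinj
        rw [hact, hy', hy2 l hl, map_add, hy', map_natCast]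
      rw [← hq2, h1, map_add, map_natCast]
    · have h1 : y' l ^ p - y' l = algebraMap (R')[X] C' (f' l) := by
        apply hinj
        rw [map_sub, map_pow, hy', hy3 l hl, halg, hf']
      have h2 := congrArg q h1
      rw [map_sub, map_pow, hq1'] at h2
      exact h2
    · rw [hnd]
      exact hy4 l hl
  · refine ⟨d, q β', ?_, ?_, ?_, s, ?_⟩
    · have h1 := TII_small' (φ : R' →+* k) q hq1' hS1'
      rw [map_sub, map_mul, map_pow, hqX] at h1
      exact h1
    · intro g hg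
      have h1 := TII_small' (φ : R' →+* k) q hq1' (hS2' g hg)
      rw [map_mul, hq2] at h1
      exact h1
    · intro τ
      have h1 := TII_small' (φ : R' →+* k) q hq1' (hS4' τ)
      rw [map_sub, hq2] at h1
      exact h1
    · have h1 := TII_small' (φ : R' →+* k) q hq1' hS3'
      rw [map_sub, map_sum, hqX] at h1
      simp only [hq2] at h1
      exact h1

theorem prf_QDes (hQSpr : QSpr) (hQBC : QBC) : QDes := QDes_main prf_E9 hQSpr hQBC

end MP7b0bad

end
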