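import Mathlib.RingTheory.PowerSeries.Expand
import Pool.Agent.Work.MP_7b0bad_ag.Bd.B06
import Pool.Agent.Work.MP_7b0bad_ag.Bd.B04

/-! Bundle of small proof modules (one section per former module). -/

section

set_option autoImplicit false

namespace MP7b0bad

section

variable {k : Type} [Field k] {N : ℕ} {ξ : Fin N → Fk k} {P : Type} [Group P]
  {P' : Fin N → Type} [∀ i, Group (P' i)] {π : ∀ i, P' i →* P}
  {Q : Fin N → Type} [∀ i, CommRing (Q i)] [∀ i, Algebra (Fk k) (Q i)]
  [∀ i, MulSemiringAction (P' i) (Q i)]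

/-- functions of the form `(γ, i) ↦ ∑ s_m a_i(γ⁻¹ e_m)` with a finite index type -/
def QP1_P (O : Outer k N ξ P P' π Q) (u : P → ∀ i, Q i) : Prop :=
  ∃ (I : Type) (_ : Fintype I) (s : I → Fk k) (e : I → O.A), (∀ m, s m ∈ Ss k) ∧
    ∀ (γ : P) i, u γ i = ∑ m, algebraMap (Fk k) (Q i) (s m) * O.a i (γ⁻¹ • e m)

theorem QP1_P_of_mem (O : Outer k N ξ P P' π Q) (u : P → ∀ i, Q i) (hu : u ∈ SM O) :
    QP1_P O u := by
  unfold SM at hu
  induction hu using Subring.closure_induction with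
  | mem x hx =>
    rcases hx with ⟨s, hs, rfl⟩ | ⟨e, rfl⟩
    · refine ⟨Unit, inferInstance, fun _ => s, fun _ => 1, fun _ => hs, fun γ i => ?_⟩
      simp [smul_one]
    · refine ⟨Unit, inferInstance, fun _ => 1, fun _ => e, fun _ => (Ss k).one_mem, fun γ i => ?_⟩
      simp
  | zero =>
    refine ⟨Empty, inferInstance, fun x => x.elim, fun x => x.elim, fun x => x.elim, fun γ i => ?_⟩
    simp
  | one =>
    refine ⟨Unit, inferInstance, fun _ => 1, fun _ => 1, fun _ => (Ss k).one_mem, fun γ i => ?_⟩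
    simp [smul_one]
  | add x y _ _ hx hy =>
    obtain ⟨I, _, r, b, h1, h2⟩ := hx
    obtain ⟨J, _, s, d, h3, h4⟩ := hy
    refine ⟨I ⊕ J, inferInstance, Sum.elim r s, Sum.elim b d, ?_, fun γ i => ?_⟩
    · rintro (m | m)
      · exact h1 m
      · exact h3 m
    · rw [Pi.add_apply, Pi.add_apply, h2, h4, Fintype.sum_sum_type]
      rfl
  | neg x _ hx =>
    obtain ⟨I, _, r, b, h1, h2⟩ := hx
    refine ⟨I, inferInstance, fun m => - r m, b, fun m => (Ss k).neg_mem (h1 m), fun γ i => ?_⟩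
    rw [Pi.neg_apply, Pi.neg_apply, h2, ← Finset.sum_neg_distrib]
    refine Finset.sum_congr rfl fun m _ => ?_
    rw [map_neg, neg_mul]
  | mul x y _ _ hx hy =>
    obtain ⟨I, _, r, b, h1, h2⟩ := hx
    obtain ⟨J, _, s, d, h3, h4⟩ := hy
    refine ⟨I × J, inferInstance, fun m => r m.1 * s m.2, fun m => b m.1 * d m.2,
      fun m => (Ss k).mul_mem (h1 m.1) (h3 m.2), fun γ i => ?_⟩
    rw [Pi.mul_apply, Pi.mul_apply, h2, h4, Finset.sum_mul_sum, Fintype.sum_prod_type]
    refine Finset.sum_congr rfl fun a _ => Finset.sum_congr rfl fun b _ => ?_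
    rw [map_mul, smul_mul', map_mul]
    ring

theorem QP1_mem_of_P (O : Outer k N ξ P P' π Q) (u : P → ∀ i, Q i) (hu : QP1_P O u) :
    u ∈ SM O := by
  obtain ⟨I, _, s, e, h1, h2⟩ := hu
  have : u = ∑ m, (fun (_ : P) i => algebraMap (Fk k) (Q i) (s m)) *
      (fun (γ : P) i => O.a i (γ⁻¹ • e m)) := by
    funext γ i
    rw [h2, Finset.sum_apply, Finset.sum_apply]
    rfl
  rw [this]
  refine Subring.sum_mem _ fun m _ => Subring.mul_mem _ ?_ ?_
  · exact Subring.subset_closure (Or.inl ⟨s m, h1 m, rfl⟩)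
  · exact Subring.subset_closure (Or.inr ⟨e m, rfl⟩)

theorem QP1_iff (O : Outer k N ξ P P' π Q) (u : P → ∀ i, Q i) :
    u ∈ SM O ↔ ∃ (n : ℕ) (s : Fin n → Fk k) (e : Fin n → O.A), (∀ m, s m ∈ Ss k) ∧
    ∀ (γ : P) i, u γ i = ∑ m, algebraMap (Fk k) (Q i) (s m) * O.a i (γ⁻¹ • e m) := by
  constructor
  · intro hu
    obtain ⟨I, _, s, e, h1, h2⟩ := QP1_P_of_mem O u hu
    refine ⟨Fintype.card I, fun m => s ((Fintype.equivFin I).symm m),
      fun m => e ((Fintype.equivFin I).symm m), fun m => h1 _, fun γ i => ?_⟩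
    rw [h2]
    exact (Equiv.sum_comp (Fintype.equivFin I).symm
      (fun m => algebraMap (Fk k) (Q i) (s m) * O.a i (γ⁻¹ • e m))).symm
  · rintro ⟨n, s, e, h1, h2⟩
    exact QP1_mem_of_P O u ⟨Fin n, inferInstance, s, e, h1, h2⟩

end

theorem prf_QP1 : QP1 := by
  intro k _ N ξ P _ P' _ π Q _ _ _ O u
  refine ⟨QP1_iff O u, fun hu hQ γ i τ => ?_, fun hu δ => ?_⟩
  · obtain ⟨n, s, e, hs, he⟩ := (QP1_iff O u).1 hu
    rw [he, he, Finset.smul_sum]
    refine Finset.sum_congr rfl fun m _ => ?_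
    rw [smul_mul', (hQ i).comm, ← O.a_act, smul_smul, mul_inv_rev, mul_inv_cancel_left]
  · obtain ⟨n, s, e, hs, he⟩ := (QP1_iff O u).1 hu
    refine (QP1_iff O _).2 ⟨n, s, fun m => δ⁻¹ • e m, hs, fun γ i => ?_⟩
    rw [he]
    refine Finset.sum_congr rfl fun m _ => ?_
    rw [smul_smul, mul_inv_rev]

end MP7b0bad

end

section

set_option autoImplicit false

namespace MP7b0bad

open Polynomial

/-- functions of the form `γ ↦ ∑ r_m ι(γ⁻¹ b_m)` with a finite index type -/
def QP2_P {k : Type} [Field k] {H P' : Type} [Group H] [Group P'] {π : P' →* H}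
    {Q : Type} [CommRing Q] [Algebra (Fk k) Q] [MulSemiringAction P' Q] (c : Inner k H P' π Q)
    (u : H → Q) : Prop :=
  ∃ (I : Type) (_ : Fintype I) (r : I → Fk k) (b : I → c.B), (∀ m, r m ∈ Rr k) ∧
    ∀ γ : H, u γ = ∑ m, algebraMap (Fk k) Q (r m) * c.ι (γ⁻¹ • b m)

theorem QP2_P_of_mem {k : Type} [Field k] {H P' : Type} [Group H] [Group P'] {π : P' →* H}
    {Q : Type} [CommRing Q] [Algebra (Fk k) Q] [MulSemiringAction P' Q] (c : Inner k H P' π Q)
    (u : H → Q) (hu : u ∈ RN c) : QP2_P c u := by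
  unfold RN at hu
  induction hu using Subring.closure_induction with
  | mem x hx =>
    rcases hx with ⟨r, hr, rfl⟩ | ⟨b, rfl⟩
    · refine ⟨Unit, inferInstance, fun _ => r, fun _ => 1, fun _ => hr, fun γ => ?_⟩
      simp [smul_one]
    · refine ⟨Unit, inferInstance, fun _ => 1, fun _ => b, fun _ => (Rr k).one_mem, fun γ => ?_⟩
      simp
  | zero =>
    refine ⟨Empty, inferInstance, fun x => x.elim, fun x => x.elim, fun x => x.elim, fun γ => ?_⟩
    simp
  | one =>
    refine ⟨Unit, inferInstance, fun _ => 1, fun _ => 1, fun _ => (Rr k).one_mem, fun γ => ?_⟩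
    simp [smul_one]
  | add x y _ _ hx hy =>
    obtain ⟨I, _, r, b, h1, h2⟩ := hx
    obtain ⟨J, _, s, d, h3, h4⟩ := hy
    refine ⟨I ⊕ J, inferInstance, Sum.elim r s, Sum.elim b d, ?_, fun γ => ?_⟩
    · rintro (m | m)
      · exact h1 m
      · exact h3 m
    · rw [Pi.add_apply, h2, h4, Fintype.sum_sum_type]
      rfl
  | neg x _ hx =>
    obtain ⟨I, _, r, b, h1, h2⟩ := hx
    refine ⟨I, inferInstance, fun m => - r m, b, fun m => (Rr k).neg_mem (h1 m), fun γ => ?_⟩
    rw [Pi.neg_apply, h2, ← Finset.sum_neg_distrib]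
    refine Finset.sum_congr rfl fun m _ => ?_
    rw [map_neg, neg_mul]
  | mul x y _ _ hx hy =>
    obtain ⟨I, _, r, b, h1, h2⟩ := hx
    obtain ⟨J, _, s, d, h3, h4⟩ := hy
    refine ⟨I × J, inferInstance, fun m => r m.1 * s m.2, fun m => b m.1 * d m.2,
      fun m => (Rr k).mul_mem (h1 m.1) (h3 m.2), fun γ => ?_⟩
    rw [Pi.mul_apply, h2, h4, Finset.sum_mul_sum, Fintype.sum_prod_type]
    refine Finset.sum_congr rfl fun i _ => Finset.sum_congr rfl fun j _ => ?_
    rw [map_mul, smul_mul', map_mul]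
    ring

theorem QP2_mem_of_P {k : Type} [Field k] {H P' : Type} [Group H] [Group P'] {π : P' →* H}
    {Q : Type} [CommRing Q] [Algebra (Fk k) Q] [MulSemiringAction P' Q] (c : Inner k H P' π Q)
    (u : H → Q) (hu : QP2_P c u) : u ∈ RN c := by
  obtain ⟨I, _, r, b, h1, h2⟩ := hu
  have : u = ∑ m, (fun _ => algebraMap (Fk k) Q (r m)) * (fun γ : H => c.ι (γ⁻¹ • b m)) := by
    funext γ
    rw [h2, Finset.sum_apply]
    rfl
  rw [this]
  refine Subring.sum_mem _ fun m _ => Subring.mul_mem _ ?_ ?_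
  · exact Subring.subset_closure (Or.inl ⟨r m, h1 m, rfl⟩)
  · exact Subring.subset_closure (Or.inr ⟨b m, rfl⟩)

theorem prf_QP2 : QP2 := by
  intro k _ H P' _ _ π Q _ _ _ c u
  refine ⟨⟨?_, ?_⟩, ?_, ?_⟩
  · intro hu
    obtain ⟨I, _, r, b, h1, h2⟩ := QP2_P_of_mem c u hu
    refine ⟨Fintype.card I, fun m => r ((Fintype.equivFin I).symm m),
      fun m => b ((Fintype.equivFin I).symm m), fun m => h1 _, fun γ => ?_⟩
    rw [h2]
    exact (Equiv.sum_comp (Fintype.equivFin I).symm
      (fun m => algebraMap (Fk k) Q (r m) * c.ι (γ⁻¹ • b m))).symm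
  · rintro ⟨n, r, b, h1, h2⟩
    exact QP2_mem_of_P c u ⟨Fin n, inferInstance, r, b, h1, h2⟩
  · intro hu hQ γ τ
    obtain ⟨I, _, r, b, h1, h2⟩ := QP2_P_of_mem c u hu
    rw [h2, h2, Finset.smul_sum]
    refine Finset.sum_congr rfl fun m _ => ?_
    rw [smul_mul', hQ.comm, ← c.ι_act, smul_smul]
    simp
  · intro hu δ
    obtain ⟨I, _, r, b, h1, h2⟩ := QP2_P_of_mem c u hu
    refine QP2_mem_of_P c _ ⟨I, inferInstance, r, fun m => δ⁻¹ • b m, h1, fun γ => ?_⟩
    refine (h2 (δ * γ)).trans (Finset.sum_congr rfl fun m _ => ?_)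
    rw [smul_smul, mul_inv_rev]

end MP7b0bad

end

section

set_option autoImplicit false

/-!
# QPT: the patching theorem
-/

namespace MP7b0bad

open Polynomial

theorem prf_QPT (hQT1 : QT1) (hQT4 : QT4) (hQV5 : QV5) (hQV6 : QV6) (hQV7 : QV7) : QPT := by
  intro k _ N V ξ G _ _ P P' hP H hH Q _ _ _ O c hQ hD hN htop
  obtain ⟨hcst, htr⟩ := hQT1 k N V ξ G P P' hP H hH Q O c hQ hD
  obtain ⟨ι, hι1, hι2, hι3⟩ := hQT4 k N V ξ G P P' hP H hH Q O c hQ hD hN
  let algB : Algebra (LaurentSeries k)[X] (BQ O c) :=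
    RingHom.toAlgebra ((cstQ k ξ G Q).codRestrict (BQ O c) hcst)
  let actB : MulSemiringAction G (BQ O c) :=
    { smul := fun σ v => ⟨trQ σ v.1, htr σ v.1 v.2⟩
      one_smul := fun v => by
        apply Subtype.ext
        funext g
        show v.1 (1⁻¹ * g) = v.1 g
        rw [inv_one, one_mul]
      mul_smul := fun σ τ v => by
        apply Subtype.ext
        funext g
        show v.1 ((σ * τ)⁻¹ * g) = v.1 (τ⁻¹ * (σ⁻¹ * g))
        rw [mul_inv_rev, mul_assoc]
      smul_zero := fun σ => rfl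
      smul_add := fun σ u v => rfl
      smul_one := fun σ => rfl
      smul_mul := fun σ u v => rfl }
  have halg : ∀ a : (LaurentSeries k)[X], ((algebraMap (LaurentSeries k)[X] (BQ O c) a :
      BQ O c) : G → ∀ i, Q i) = cstQ k ξ G Q a := fun a => rfl
  have hsm : ∀ (σ : G) (v : BQ O c), ((σ • v : BQ O c) : G → ∀ i, Q i) = trQ σ v.1 :=
    fun σ v => rfl
  have hι0 : Function.Injective ι := by
    rw [injective_iff_map_eq_zero]
    intro v hv
    have h1 := hι3 v.1 v.2 hv 1
    have h2 : v.1 ((1 : P) : G) ⟨0, hN⟩ = 0 := by rw [h1]; rfl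
    exact Subtype.ext (hQV6 k N V ξ G P P' hP H hH Q O c hQ hD hN htop v.1 v.2 ⟨_, _, h2⟩)
  have hdomE : IsDomain O.E := O.domE
  refine ⟨↥(BQ O c), inferInstance, algB, actB, ι, ?_, ?_, ?_, ?_⟩
  · refine @GalAlg.mk (LaurentSeries k)[X] _ G _ ↥(BQ O c) _ algB actB ?_ ?_ ?_ ?_
    · intro g a
      apply Subtype.ext
      rfl
    · intro a b hab
      have h2 : ι ⟨cstQ k ξ G Q a, hcst a⟩ = ι ⟨cstQ k ξ G Q b, hcst b⟩ := congrArg ι hab
      rw [hι1, hι1] at h2
      exact TI_atInf_injective _ (O.galE.inj h2)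
    · intro b hb
      obtain ⟨f, hf⟩ := hQV7 k N V ξ G P P' hP H hH Q O c hQ hD hN b.1 b.2
        (fun σ => congrArg Subtype.val (hb σ))
      exact ⟨f, Subtype.ext hf.symm⟩
    · intro σ hσ
      obtain ⟨n, α, β, hαβ, h1⟩ := hQV5 k N V ξ G P P' hP H hH Q O c σ hQ hD hN hσ
      refine TII_unr' σ n (fun m => (⟨α m, (hαβ m).1⟩ : BQ O c))
        (fun m => (⟨β m, (hαβ m).2⟩ : BQ O c)) ?_
      apply (BQ O c).subtype_injective
      rw [map_sum, map_one]
      exact h1
  · exact hι0.isDomain ι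
  · intro f
    exact hι1 f (hcst f)
  · intro g b
    exact hι2 g b.1 b.2 (htr g b.1 b.2)

end MP7b0bad

end

section

set_option autoImplicit false

namespace MP7b0bad

open Polynomial

/-- `a(T / w)` for a Laurent series `a` -/
noncomputable def QPsi_fun (k : Type) [Field k] (a : LaurentSeries k) : Fk k where
  coeff n := HahnSeries.single (-n) (a.coeff n)
  isPWO_support' := by
    refine a.isPWO_support.mono ?_
    intro n hn
    simp only [Function.mem_support, ne_eq] at hn
    simp only [HahnSeries.mem_support, ne_eq]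
    intro h
    exact hn (by rw [h]; simp)

theorem QPsi_coeff (k : Type) [Field k] (a : LaurentSeries k) (n : ℤ) :
    (QPsi_fun k a).coeff n = HahnSeries.single (-n) (a.coeff n) := rfl

theorem QPsi_support (k : Type) [Field k] (a : LaurentSeries k) :
    (QPsi_fun k a).support = a.support := by
  ext n
  simp [HahnSeries.mem_support, QPsi_coeff]

theorem QPsi_mul (k : Type) [Field k] (a b : LaurentSeries k) :
    QPsi_fun k (a * b) = QPsi_fun k a * QPsi_fun k b := by
  refine HahnSeries.ext ?_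
  funext n
  rw [QPsi_coeff, HahnSeries.coeff_mul, HahnSeries.coeff_mul]
  have h0 : ∀ s : Finset (ℤ × ℤ), ∀ f : ℤ × ℤ → k,
      (HahnSeries.single (-n) (∑ ij ∈ s, f ij) : LaurentSeries k) =
        ∑ ij ∈ s, HahnSeries.single (-n) (f ij) := by
    intro s f
    exact map_sum (HahnSeries.single.addMonoidHom (-n : ℤ) : k →+ LaurentSeries k) f s
  rw [h0]
  refine Finset.sum_congr ?_ ?_
  · ext ij
    simp only [Finset.mem_antidiagonal, QPsi_support]
  · intro ij hij
    have h2 : ij.1 + ij.2 = n := (Finset.mem_antidiagonal.1 hij).2.2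
    rw [QPsi_coeff, QPsi_coeff, HahnSeries.single_mul_single]
    have h3 : -ij.1 + -ij.2 = -n := by rw [← h2]; ring
    rw [h3]

theorem prf_QPsi : QPsi := by
  intro k _
  let ψ : LaurentSeries k →+* Fk k :=
    { toFun := QPsi_fun k
      map_one' := by
        refine HahnSeries.ext ?_
        funext n
        rw [QPsi_coeff, HahnSeries.coeff_one, HahnSeries.coeff_one]
        split_ifs with h
        · subst h; simp
        · simp
      map_mul' := QPsi_mul k
      map_zero' := by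
        refine HahnSeries.ext ?_
        funext n
        rw [QPsi_coeff]
        simp
      map_add' := by
        intro a b
        refine HahnSeries.ext ?_
        funext n
        rw [HahnSeries.coeff_add, QPsi_coeff, QPsi_coeff, QPsi_coeff, HahnSeries.coeff_add]
        exact map_add (HahnSeries.single.addMonoidHom (-n : ℤ) : k →+ LaurentSeries k) _ _ }
  have hψ : ∀ a n, (ψ a).coeff n = HahnSeries.single (-n) (a.coeff n) := fun a n => rfl
  have h1 : ∀ c : k, ψ (HahnSeries.C c) = kF k c := by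
    intro c
    refine HahnSeries.ext ?_
    funext n
    rw [hψ]
    by_cases hn : n = 0
    · subst hn
      simp [kF, HahnSeries.C_apply]
    · simp [kF, HahnSeries.C_apply, HahnSeries.coeff_single_of_ne hn]
  refine ⟨ψ, h1, ?_⟩
  intro f
  have h2 : ψ.comp (atInf k) = toX k := by
    refine Polynomial.ringHom_ext ?_ ?_
    · intro a
      simp only [RingHom.comp_apply, atInf, toX, coe_eval₂RingHom, eval₂_C]
      exact h1 a
    · simp only [RingHom.comp_apply, atInf, toX, coe_eval₂RingHom, eval₂_X]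
      refine HahnSeries.ext ?_
      funext n
      rw [hψ]
      have h3 : (Tt k)⁻¹ = HahnSeries.single (-1 : ℤ) (1 : LaurentSeries k) := by
        refine inv_eq_of_mul_eq_one_right ?_
        rw [Tt, HahnSeries.single_mul_single]
        simp
      rw [XX, h3, Ww, HahnSeries.C_apply, HahnSeries.single_mul_single]
      by_cases hn : n = -1
      · subst hn
        simp
      · rw [HahnSeries.coeff_single_of_ne hn, HahnSeries.coeff_single_of_ne (by simpa using hn)]
        simp
  exact RingHom.congr_fun h2 f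

end MP7b0bad

end

section

set_option autoImplicit false

namespace MP7b0bad

open Polynomial

theorem QS3_KF_mem (k : Type) [Field k] (c : LaurentSeries k) : KF k c ∈ Ss k := by
  refine ⟨0, fun j i hi => ?_⟩
  have h1 : (KF k c).coeff j = HahnSeries.C (c.coeff j) := rfl
  rw [h1, HahnSeries.C_apply, HahnSeries.coeff_single_of_ne (by omega)]

theorem QS3_W_mem (k : Type) [Field k] : Ww k ∈ Ss k := by
  refine ⟨1, fun j i hi => ?_⟩
  unfold Ww
  rw [HahnSeries.C_apply, HahnSeries.coeff_single]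
  split_ifs
  · rw [HahnSeries.coeff_single_of_ne (by omega)]
  · simp

theorem QS3_jj_mem (k : Type) [Field k] (f : (LaurentSeries k)[X]) : jj k f ∈ Ss k := by
  have h1 : jj k f = f.eval₂ (KF k) (Ww k) := rfl
  rw [h1, eval₂_eq_sum_range]
  exact Subring.sum_mem _ fun i _ =>
    Subring.mul_mem _ (QS3_KF_mem k _) (Subring.pow_mem _ (QS3_W_mem k) i)

/-- invariant elements -/
theorem QS3_inv (hQP1 : QP1) (hQVad : QVad) (k : Type) [Field k] (N : ℕ) (V : (LaurentSeries k)[X])
    (ξ : Fin N → Fk k) (P : Type) [Group P] [Finite P] (P' : Fin N → Type) [∀ i, Group (P' i)]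
    (π : ∀ i, P' i →* P) (Q : Fin N → Type) [∀ i, CommRing (Q i)]
    [∀ i, Algebra (Fk k) (Q i)] [∀ i, MulSemiringAction (P' i) (Q i)]
    (O : Outer k N ξ P P' π Q) (hD : DiscsK k N V ξ) (hN : 0 < N) (u : P → ∀ i, Q i)
    (hu : u ∈ SM O) (hinv : ∀ γ, u γ = u 1) :
    ∃ c : Fin N → Fk k, (∀ j, c j ∈ Ss k) ∧
      ∀ γ i, u γ i = algebraMap (Fk k) (Q i) (∑ j, c j * ξ i ^ (j : ℕ)) := by
  classical
  obtain rfl := hD.deg
  have := Fintype.ofFinite P
  obtain ⟨θ, hθ⟩ := gal_trace_one O.gal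
  obtain ⟨n, s, e, hs, hue⟩ := (hQP1 k _ ξ P P' π Q O u).1.1 hu
  choose f hf using fun m => gal_trace O.gal (θ * e m)
  choose g hg using fun m => hQVad (LaurentSeries k) V (f m) hN
  refine ⟨fun j => ∑ m, s m * jj k (g m j), fun j => Subring.sum_mem _ fun m _ =>
    Subring.mul_mem _ (hs m) (QS3_jj_mem k _), fun γ i => ?_⟩
  have hev : ∀ m, (f m).eval₂ (KF k) (ξ i) = ∑ j, jj k (g m j) * ξ i ^ (j : ℕ) := by
    intro m
    conv_lhs => rw [hg m]
    rw [eval₂_finset_sum]
    refine Finset.sum_congr rfl fun j _ => ?_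
    rw [eval₂_mul, eval₂_pow, eval₂_X, eval₂_comp, hD.root]
    rfl
  have h1 : ∑ δ : P, O.a i (γ⁻¹ • δ • θ) = 1 := by
    rw [← map_sum, ← Finset.smul_sum, hθ, smul_one, map_one]
  have h2 : ∀ δ : P, u γ i = ∑ m, algebraMap (Fk k) (Q i) (s m) * O.a i (γ⁻¹ • δ • e m) := by
    intro δ
    have h3 : u γ i = u (δ⁻¹ * γ) i := by rw [hinv γ, hinv (δ⁻¹ * γ)]
    rw [h3, hue]
    refine Finset.sum_congr rfl fun m _ => ?_
    rw [smul_smul]
    congr 3
    group
  calc u γ i = (∑ δ : P, O.a i (γ⁻¹ • δ • θ)) * u γ i := by rw [h1, one_mul]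
    _ = ∑ δ : P, ∑ m, algebraMap (Fk k) (Q i) (s m) * O.a i (γ⁻¹ • δ • (θ * e m)) := by
        rw [Finset.sum_mul]
        refine Finset.sum_congr rfl fun δ _ => ?_
        rw [h2 δ, Finset.mul_sum]
        refine Finset.sum_congr rfl fun m _ => ?_
        rw [smul_mul', smul_mul', map_mul]
        ring
    _ = ∑ m, algebraMap (Fk k) (Q i) (s m) * O.a i (γ⁻¹ • ∑ δ : P, δ • (θ * e m)) := by
        rw [Finset.sum_comm]
        refine Finset.sum_congr rfl fun m _ => ?_
        rw [← Finset.mul_sum, Finset.smul_sum, map_sum]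
    _ = ∑ m, algebraMap (Fk k) (Q i) (s m * (f m).eval₂ (KF k) (ξ i)) := by
        refine Finset.sum_congr rfl fun m _ => ?_
        rw [← hf m, O.gal.comm, O.a_alg, map_mul]
    _ = algebraMap (Fk k) (Q i) (∑ j, (∑ m, s m * jj k (g m j)) * ξ i ^ (j : ℕ)) := by
        rw [← map_sum]
        congr 1
        simp only [hev, Finset.mul_sum, Finset.sum_mul]
        rw [Finset.sum_comm]
        refine Finset.sum_congr rfl fun j _ => Finset.sum_congr rfl fun m _ => ?_
        ring

theorem prf_QS3 (hQTh : QTh) (hQP1 : QP1) (hQC2c : QC2c) (hQVad : QVad) : QS3 := by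
  intro k _ N V ξ P _ _ P' _ _ π Q _ _ _ O hD hN hQ u hu
  classical
  have := Fintype.ofFinite P
  refine ⟨?_, fun hinv => QS3_inv hQP1 hQVad k N V ξ P P' π Q O hD hN u hu hinv⟩
  rintro ⟨γ0, i0, h0⟩
  have htr : ∀ δ : P, (fun γ => u (δ⁻¹ * γ)) ∈ SM O := fun δ => (hQP1 k N ξ P P' π Q O u).2.2 hu δ⁻¹
  obtain ⟨Θ, hΘ1, -, hΘ3⟩ := hQTh k N V ξ P P' π Q O hD hN hQ
  have hFv : ∀ γ i, ((∏ δ : P, (⟨fun γ => u (δ⁻¹ * γ), htr δ⟩ : SM O) : SM O) : P → ∀ i, Q i) γ i =
      ∏ δ : P, u (δ⁻¹ * γ) i := by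
    intro γ i
    rw [SubmonoidClass.coe_finset_prod, Finset.prod_apply, Finset.prod_apply]
  obtain ⟨c, hc1, hc2⟩ := QS3_inv hQP1 hQVad k N V ξ P P' π Q O hD hN
    ((∏ δ : P, (⟨fun γ => u (δ⁻¹ * γ), htr δ⟩ : SM O) : SM O) : P → ∀ i, Q i)
    (∏ δ : P, (⟨fun γ => u (δ⁻¹ * γ), htr δ⟩ : SM O) : SM O).2 (by
      intro γ
      funext i
      rw [hFv, hFv]
      refine Fintype.prod_bijective (fun x => γ⁻¹ * x) (Group.mulLeft_bijective γ⁻¹) _ _ fun x => ?_
      have e1 : x⁻¹ * γ = (γ⁻¹ * x)⁻¹ * 1 := by group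
      rw [e1])
  obtain ⟨A1, _, o, x, a, aI, ha1, ha2, ha3, -⟩ := hQC2c k N V ξ hD hN
  have hval : ∀ i, a i (∑ j, o ⟨c j, hc1 j⟩ * x ^ (j : ℕ)) = ∑ j, c j * ξ i ^ (j : ℕ) := by
    intro i
    rw [map_sum]
    refine Finset.sum_congr rfl fun j _ => ?_
    rw [map_mul, map_pow, ha1, ha2]
  have h1 : ∑ j, c j * ξ i0 ^ (j : ℕ) = 0 := by
    apply (hQ i0).inj
    rw [map_zero, ← hc2 γ0 i0, hFv]
    refine Finset.prod_eq_zero (Finset.mem_univ 1) ?_
    rw [inv_one, one_mul, h0]
  have h2 : ∑ j, o ⟨c j, hc1 j⟩ * x ^ (j : ℕ) = 0 := by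
    apply ha3 i0
    rw [hval, h1, map_zero]
  have h3 : (∏ δ : P, (⟨fun γ => u (δ⁻¹ * γ), htr δ⟩ : SM O) : SM O) = 0 := by
    apply Subtype.ext
    funext γ i
    rw [hc2 γ i, ← hval, h2, map_zero, map_zero]
    rfl
  have h4 : ∏ δ : P, δ • Θ ⟨u, hu⟩ = 0 := by
    rw [← map_zero Θ, ← h3, map_prod]
    exact Finset.prod_congr rfl fun δ _ => (hΘ3 u hu δ (htr δ)).symm
  haveI := O.domE
  obtain ⟨δ, -, hδ⟩ := Finset.prod_eq_zero_iff.1 h4
  have h5 : Θ ⟨u, hu⟩ = 0 := by
    have := congrArg (fun z => δ⁻¹ • z) hδ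
    simpa using this
  rw [← map_zero Θ] at h5
  exact congrArg Subtype.val (hΘ1 h5)

end MP7b0bad

end

section

set_option autoImplicit false

namespace MP7b0bad

open Polynomial

noncomputable def QSm0_h {A : Type} [CommRing A] (p : ℕ) (hp : 1 < p) (U : ℕ → A) : ℕ → A
  | 0 => 0
  | (n + 1) => (if p ∣ (n + 1) then (QSm0_h p hp U ((n + 1) / p)) ^ p else 0) - U (n + 1)
termination_by n => n
decreasing_by exact Nat.div_lt_self (Nat.succ_pos n) hp

theorem QSm0_pow {A : Type} [CommRing A] (p : ℕ) [Fact p.Prime] [CharP A p]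
    (f : PowerSeries A) (n : ℕ) : PowerSeries.coeff n (f ^ p) =
      if p ∣ n then (PowerSeries.coeff (n / p) f) ^ p else 0 := by
  have hp : p.Prime := Fact.out
  haveI : ExpChar A p := ExpChar.prime hp
  have h1 : PowerSeries.map (frobenius A p) (PowerSeries.expand p hp.ne_zero f) = f ^ p :=
    MvPowerSeries.map_frobenius_expand p hp.ne_zero
  rw [← h1, PowerSeries.coeff_map, PowerSeries.coeff_expand]
  split_ifs
  · rfl
  · exact map_zero _

theorem prf_QSm0 : QSm0 := by
  intro A _ p _ _ u hu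
  have hp : p.Prime := Fact.out
  set U : ℕ → A := fun n => u.coeff n with hU
  set f : PowerSeries A := PowerSeries.mk (QSm0_h p hp.one_lt U) with hf
  have hf0 : PowerSeries.coeff 0 f = 0 := by
    rw [hf, PowerSeries.coeff_mk, QSm0_h]
  have key : f ^ p - f = PowerSeries.mk U := by
    ext n
    have h2 : PowerSeries.coeff n (PowerSeries.mk U) = U n := PowerSeries.coeff_mk _ _
    rw [map_sub, QSm0_pow, h2]
    cases n with
    | zero =>
      rw [if_pos (dvd_zero p), Nat.zero_div, hf0, zero_pow hp.ne_zero, sub_zero, hU]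
      exact (hu 0 le_rfl).symm
    | succ n =>
      have h1 : PowerSeries.coeff (n + 1) f =
          (if p ∣ (n + 1) then (PowerSeries.coeff ((n + 1) / p) f) ^ p else 0) - U (n + 1) := by
        rw [hf, PowerSeries.coeff_mk, PowerSeries.coeff_mk, QSm0_h]
      rw [h1, sub_sub_cancel]
  refine ⟨HahnSeries.ofPowerSeries ℤ A f, ?_, ?_⟩
  · intro n hn
    change ((f : PowerSeries A) : LaurentSeries A).coeff n = 0
    rw [PowerSeries.coeff_coe]
    split_ifs with h
    · rfl
    · have : n = 0 := by omega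
      subst this
      exact hf0
  · rw [← map_pow, ← map_sub, key]
    ext n
    change u.coeff n = ((PowerSeries.mk U : PowerSeries A) : LaurentSeries A).coeff n
    rw [PowerSeries.coeff_coe]
    split_ifs with h
    · exact hu n h.le
    · rw [PowerSeries.coeff_mk, hU]
      congr 1
      omega

end MP7b0bad

end

section

set_option autoImplicit false

namespace MP7b0bad

open Polynomial

/-- an element `η` with `∑_{μ ∈ M} μ η = 1` -/
theorem QSub_trace {Γ : Type} [Group Γ] [Fintype Γ] {C : Type} [CommRing C]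
    [MulSemiringAction Γ C] (M : Subgroup Γ) [Fintype M] (ϑ : C) (hϑ : ∑ g : Γ, g • ϑ = 1) :
    ∃ η : C, ∑ μ : M, (μ : Γ) • η = 1 := by
  classical
  obtain ⟨S, hS, -⟩ := M.exists_isComplement_right 1 
  have hf : Finite S := Subtype.finite
  have := Fintype.ofFinite S
  refine ⟨∑ r : S, (r : Γ) • ϑ, ?_⟩
  rw [← hϑ]
  simp only [Finset.smul_sum, smul_smul]
  rw [← Fintype.sum_prod_type']
  exact Fintype.sum_bijective (fun p : M × S => (p.1 : Γ) * p.2) hS _ _ fun p => rfl

theorem QSub_main {R : Type} [CommRing R] {Γ Γb : Type} [Group Γ] [Finite Γ] [Group Γb]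
    (q : Γ →* Γb) {C : Type} [CommRing C] [Algebra R C] [MulSemiringAction Γ C]
    (hq : Function.Surjective q) (hC : GalAlg R Γ C) (B : Subring C)
    (hB : ∀ c : C, c ∈ B ↔ ∀ γ ∈ q.ker, γ • c = c) [Algebra R B] [MulSemiringAction Γb B]
    (h1 : ∀ a : R, (algebraMap R B a : C) = algebraMap R C a)
    (h2 : ∀ (γ : Γ) (b : B), ((q γ • b : B) : C) = γ • (b : C)) : GalAlg R Γb B where
  inj := fun a a' h => hC.inj (by rw [← h1, ← h1, h])
  comm := by
    intro g a
    obtain ⟨γ, rfl⟩ := hq g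
    apply Subtype.ext
    rw [h2, h1, hC.comm]
  inv := by
    intro b hb
    obtain ⟨a, ha⟩ := hC.inv (b : C) (fun γ => by rw [← h2, hb])
    exact ⟨a, Subtype.ext (by rw [h1, ha])⟩
  unr := by
    classical
    have := Fintype.ofFinite Γ
    have := Fintype.ofFinite q.ker
    intro σ hσ
    obtain ⟨s, rfl⟩ := hq σ
    obtain ⟨m, x, y, hxy, hxy1⟩ := gal_dual' hC
    obtain ⟨ϑ, hϑ⟩ := gal_trace_one hC
    obtain ⟨η, hη⟩ := QSub_trace q.ker ϑ hϑ
    -- invariant families
    have htr : ∀ z : C, (∑ μ : q.ker, (μ : Γ) • z) ∈ B := by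
      intro z
      rw [hB]
      intro γ hγ
      rw [Finset.smul_sum]
      refine Fintype.sum_bijective (fun μ : q.ker => (⟨γ, hγ⟩ : q.ker) * μ)
        (Group.mulLeft_bijective _) _ _ fun μ => ?_
      rw [smul_smul]
      rfl
    have hkey : ∀ γ : Γ, ∑ k, (∑ μ : q.ker, (μ : Γ) • (η * x k)) * (γ • ∑ ν : q.ker, (ν : Γ) • y k)
        = ∑ μ : q.ker, ∑ ν : q.ker, ((μ : Γ) • η) *
          (if (μ : Γ)⁻¹ * γ * (ν : Γ) = 1 then 1 else 0) := by
      intro γ
      have h3 : ∀ μ ν : q.ker, ((μ : Γ) • η) *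
          (if (μ : Γ)⁻¹ * γ * (ν : Γ) = 1 then 1 else 0) =
          ∑ k, ((μ : Γ) • (η * x k)) * (γ • ((ν : Γ) • y k)) := by
        intro μ ν
        have h4 : (if (μ : Γ)⁻¹ * γ * (ν : Γ) = 1 then (1 : C) else 0) =
            (μ : Γ) • ∑ k, x k * (((μ : Γ)⁻¹ * γ * (ν : Γ)) • y k) := by
          split_ifs with h
          · simp only [h, one_smul]
            rw [hxy1, smul_one]
          · rw [hxy _ h, smul_zero]
        rw [h4, ← smul_mul', Finset.mul_sum, Finset.smul_sum]
        refine Finset.sum_congr rfl fun k _ => ?_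
        rw [← mul_assoc, smul_mul' (μ : Γ) (η * x k), smul_smul, smul_smul]
        congr 2
        group
      simp only [h3]
      rw [show (∑ k, (∑ μ : q.ker, (μ : Γ) • (η * x k)) * (γ • ∑ ν : q.ker, (ν : Γ) • y k)) =
        ∑ k, ∑ μ : q.ker, ∑ ν : q.ker, ((μ : Γ) • (η * x k)) * (γ • ((ν : Γ) • y k)) from by
          refine Finset.sum_congr rfl fun k _ => ?_
          rw [Finset.smul_sum, Finset.sum_mul_sum]]
      rw [Finset.sum_comm]
      refine Finset.sum_congr rfl fun μ _ => ?_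
      rw [Finset.sum_comm]
    have hk1 : ∑ k, (∑ μ : q.ker, (μ : Γ) • (η * x k)) * (∑ ν : q.ker, (ν : Γ) • y k) = 1 := by
      have h3 := hkey 1
      simp only [one_smul] at h3
      refine h3.trans (Eq.trans (Finset.sum_congr rfl fun μ _ => ?_) hη)
      rw [Finset.sum_eq_single μ]
      · simp
      · intro ν _ hν
        rw [if_neg, mul_zero]
        intro h
        apply hν
        rw [mul_one, inv_mul_eq_one] at h
        exact (Subtype.ext h).symm
      · intro h; exact absurd (Finset.mem_univ _) h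
    have hk2 : ∑ k, (∑ μ : q.ker, (μ : Γ) • (η * x k)) * (s • ∑ ν : q.ker, (ν : Γ) • y k) = 0 := by
      rw [hkey s]
      refine Finset.sum_eq_zero fun μ _ => Finset.sum_eq_zero fun ν _ => ?_
      rw [if_neg, mul_zero]
      intro h
      apply hσ
      have h3 := congrArg q h
      have h4 : q (μ : Γ) = 1 := μ.2
      have h5 : q (ν : Γ) = 1 := ν.2
      rw [map_mul, map_mul, map_inv, h4, h5, map_one, inv_one, one_mul, mul_one] at h3
      exact h3
    rw [Ideal.eq_top_iff_one]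
    have h6 : (1 : B) = ∑ k, (⟨_, htr (η * x k)⟩ : B) * ((⟨_, htr (y k)⟩ : B) - q s • (⟨_, htr (y k)⟩ : B)) := by
      apply Subtype.ext
      push_cast
      simp only [h2, mul_sub, Finset.sum_sub_distrib]
      rw [hk1, hk2, sub_zero]
    rw [h6]
    refine Ideal.sum_mem _ fun k _ => Ideal.mul_mem_left _ _ (Ideal.subset_span ⟨_, rfl⟩)

theorem prf_QSub : QSub := by
  intro R _ Γ Γb _ _ _ q C _ _ _ hq hC
  classical
  let B : Subring C :=
    { carrier := {c | ∀ γ ∈ q.ker, γ • c = c}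
      mul_mem' := by
        intro a b ha hb γ hγ
        rw [smul_mul', ha γ hγ, hb γ hγ]
      one_mem' := fun γ _ => smul_one γ
      add_mem' := by
        intro a b ha hb γ hγ
        rw [smul_add, ha γ hγ, hb γ hγ]
      zero_mem' := fun γ _ => smul_zero γ
      neg_mem' := by
        intro a ha γ hγ
        rw [smul_neg, ha γ hγ] }
  have hB : ∀ c : C, c ∈ B ↔ ∀ γ ∈ q.ker, γ • c = c := fun c => Iff.rfl
  -- the algebra structure
  let alg : R →+* B := (algebraMap R C).codRestrict B (fun a γ _ => hC.comm γ a)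
  let _ : Algebra R B := alg.toAlgebra
  -- the action
  choose s hs using hq
  have hmem : ∀ (γ : Γ) (b : B), γ • (b : C) ∈ B := by
    intro γ b μ hμ
    rw [smul_smul]
    have h1 : μ * γ = γ * (γ⁻¹ * μ * γ) := by group
    rw [h1, ← smul_smul, b.2 _ ?_]
    have := (MonoidHom.normal_ker q).conj_mem μ hμ γ⁻¹
    simpa using this
  have hdep : ∀ (γ γ' : Γ), q γ = q γ' → ∀ b : B, γ • (b : C) = γ' • (b : C) := by
    intro γ γ' h b
    have h1 : γ = γ' * (γ'⁻¹ * γ) := by group
    rw [h1, ← smul_smul, b.2 _ ?_]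
    rw [MonoidHom.mem_ker, map_mul, map_inv, h, inv_mul_cancel]
  let _ : MulSemiringAction Γb B :=
    { smul := fun g b => ⟨s g • (b : C), hmem _ b⟩
      one_smul := fun b => Subtype.ext (by
        show s 1 • (b : C) = b
        rw [hdep (s 1) 1 (by rw [hs, map_one]) b, one_smul])
      mul_smul := fun g g' b => Subtype.ext (by
        show s (g * g') • (b : C) = s g • (s g' • (b : C))
        rw [smul_smul]
        exact hdep _ _ (by rw [map_mul, hs, hs, hs]) b)
      smul_zero := fun g => Subtype.ext (smul_zero (s g))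
      smul_add := fun g a b => Subtype.ext (smul_add (s g) (a : C) (b : C))
      smul_one := fun g => Subtype.ext (smul_one (s g))
      smul_mul := fun g a b => Subtype.ext (smul_mul' (s g) (a : C) (b : C)) }
  have h1 : ∀ a : R, (algebraMap R B a : C) = algebraMap R C a := fun a => rfl
  have h2 : ∀ (γ : Γ) (b : B), ((q γ • b : B) : C) = γ • (b : C) := by
    intro γ b
    exact hdep _ _ (by rw [hs]) b
  refine ⟨B, inferInstance, inferInstance, inferInstance, B.subtype, ?_, ?_, h1, h2, ?_⟩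
  · exact QSub_main q (fun g => ⟨s g, hs g⟩) hC B hB h1 h2
  · exact Subtype.coe_injective
  · intro c hc
    exact ⟨⟨c, hc⟩, rfl⟩

end MP7b0bad

end

section

set_option autoImplicit false

namespace MP7b0bad

open Polynomial

theorem QT1_KF (k : Type) [Field k] (a : LaurentSeries k) : KF k a ∈ Rr k := by
  intro j i hi
  change (HahnSeries.C (a.coeff j) : LaurentSeries k).coeff i = 0
  rw [HahnSeries.C_apply, HahnSeries.coeff_single_of_ne (by omega)]

theorem QT1_eval (k : Type) [Field k] (x : Fk k) (hx : x ∈ Rr k) (f : (LaurentSeries k)[X]) :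
    f.eval₂ (KF k) x ∈ Rr k := by
  rw [eval₂_eq_sum_range]
  exact Subring.sum_mem _ fun i _ => Subring.mul_mem _ (QT1_KF k _) (Subring.pow_mem _ hx _)

theorem prf_QT1 : QT1 := by
  intro k _ N V ξ G _ P P' hP H hH Q _ _ _ O c hQ hD
  constructor
  · intro f
    refine ⟨⟨?_, ?_⟩, ?_⟩
    · intro g i τ
      exact (hQ i).comm τ _
    · intro g
      refine Subring.subset_closure (Or.inr ⟨algebraMap _ O.A f, ?_⟩)
      funext γ i
      rw [O.gal.comm, O.a_alg]
      rfl
    · intro i g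
      exact Subring.subset_closure (Or.inl ⟨f.eval₂ (KF k) (ξ i), QT1_eval k _ (hD.mem i) f, rfl⟩)
  · rintro σ v ⟨⟨h1, h2⟩, h3⟩
    refine ⟨⟨?_, ?_⟩, ?_⟩
    · intro g i τ
      have := h1 (σ⁻¹ * g) i τ
      rw [mul_assoc] at this
      exact this
    · intro g
      have := h2 (σ⁻¹ * g)
      simp only [mul_assoc] at this
      exact this
    · intro i g
      have := h3 i (σ⁻¹ * g)
      simp only [mul_assoc] at this
      exact this

end MP7b0bad

end

section

set_option autoImplicit false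

namespace MP7b0bad

open Polynomial

/-! # QT4: the embedding of the patched ring into the local extension at infinity -/

section

variable {k : Type} [Field k] {N : ℕ} {ξ : Fin N → Fk k} {G : Type} [Group G] {P : Subgroup G}
  {P' : Fin N → Subgroup G} {hP : ∀ i, P' i ≤ P} {H : Fin N → Subgroup G} {hH : ∀ i, P' i ≤ H i}
  {Q : Fin N → Type} [∀ i, CommRing (Q i)] [∀ i, Algebra (Fk k) (Q i)]
  [∀ i, MulSemiringAction (P' i) (Q i)]

theorem QT4_mem (O : Outer k N ξ P (fun i => P' i) (fun i => Subgroup.inclusion (hP i)) Q)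
    (c : ∀ i, Inner k (H i) (P' i) (Subgroup.inclusion (hH i)) (Q i))
    {v : G → ∀ i, Q i} (hv : v ∈ BQ O c) : (fun γ : P => v γ) ∈ SM O := by
  have h1 : v ∈ InSQ O := hv.1.2
  have h2 := h1 1
  simpa only [one_mul] using h2

/-- restriction to `P` -/
noncomputable def QT4_res
    (O : Outer k N ξ P (fun i => P' i) (fun i => Subgroup.inclusion (hP i)) Q)
    (c : ∀ i, Inner k (H i) (P' i) (Subgroup.inclusion (hH i)) (Q i)) : BQ O c →+* SM O where
  toFun v := ⟨fun γ : P => v.1 γ, QT4_mem O c v.2⟩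
  map_one' := rfl
  map_mul' _ _ := rfl
  map_zero' := rfl
  map_add' _ _ := rfl

end

theorem prf_QT4 (hQTh : QTh) : QT4 := by
  intro k _ N V ξ G _ _ P P' hP H hH Q _ _ _ O c hQ hD hN
  obtain ⟨Θ, hinj, hΘe, hΘδ⟩ := hQTh k N V ξ P (fun i => P' i)
    (fun i => Subgroup.inclusion (hP i)) Q O hD hN hQ
  refine ⟨Θ.comp (QT4_res O c), ?_, ?_, ?_⟩
  · intro f h
    have e1 : (fun (γ : P) i => O.a i (γ⁻¹ • algebraMap (LaurentSeries k)[X] O.A f)) =
        fun γ : P => cstQ k ξ G Q f γ := by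
      funext γ i
      rw [O.gal.comm, O.a_alg]
      rfl
    have h2 : (fun (γ : P) i => O.a i (γ⁻¹ • algebraMap (LaurentSeries k)[X] O.A f)) ∈ SM O := by
      rw [e1]; exact QT4_mem O c h
    have e2 : QT4_res O c ⟨cstQ k ξ G Q f, h⟩ = ⟨_, h2⟩ := Subtype.ext e1.symm
    rw [RingHom.comp_apply, e2, hΘe, O.j_alg]
  · intro g v h h'
    have h2 : (fun γ : P => (fun γ : P => v γ) (g⁻¹ * γ)) ∈ SM O := QT4_mem O c h'
    exact hΘδ (fun γ : P => v γ) (QT4_mem O c h) g h2
  · intro v h h0 γ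
    rw [RingHom.comp_apply] at h0
    have h1 : QT4_res O c ⟨v, h⟩ = 0 := hinj (by rw [h0, map_zero])
    have h2 : (fun γ : P => v γ) = 0 := congrArg Subtype.val h1
    exact congrFun h2 γ

end MP7b0bad

end

section

set_option autoImplicit false

namespace MP7b0bad

open Polynomial

/-- a proper subgroup of a finite `p`-group is contained in the kernel of a nontrivial character -/
theorem QTR_char (p : ℕ) [Fact p.Prime] (P : Type) [Group P] [Finite P] (hP : IsPGroup p P)
    (D : Subgroup P) (hD : D ≠ ⊤) :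
    ∃ (M : Subgroup P) (l : P →* Multiplicative (ZMod p)), D ≤ M ∧ l ≠ 1 ∧ ∀ g ∈ M, l g = 1 := by
  obtain ⟨M, hM, hDM⟩ := (IsCoatomic.eq_top_or_exists_le_coatom D).resolve_left hD
  have hnil : Group.IsNilpotent P := hP.isNilpotent
  have hN : M.Normal :=
    Subgroup.NormalizerCondition.normal_of_coatom M Group.normalizerCondition_of_isNilpotent hM
  have hQ : IsPGroup p (P ⧸ M) := hP.to_quotient M
  have hnt : Nontrivial (P ⧸ M) := by
    rw [QuotientGroup.nontrivial_iff]
    exact hM.1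
  have hdvd : p ∣ Nat.card (P ⧸ M) := by
    obtain ⟨n, hn, hn'⟩ := (IsPGroup.nontrivial_iff_card hQ).1 hnt
    rw [hn']
    exact dvd_pow_self p hn.ne'
  obtain ⟨x, hx⟩ := exists_prime_orderOf_dvd_card' p hdvd
  have hx1 : x ≠ 1 := by
    rintro rfl
    rw [orderOf_one] at hx
    exact (Fact.out : p.Prime).one_lt.ne hx
  have hz : Subgroup.zpowers x = ⊤ := by
    have h1 : M < (Subgroup.zpowers x).comap (QuotientGroup.mk' M) := by
      refine lt_of_le_of_ne ?_ ?_
      · intro g hg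
        rw [Subgroup.mem_comap]
        have : (QuotientGroup.mk' M) g = 1 := by
          rwa [QuotientGroup.mk'_apply, QuotientGroup.eq_one_iff]
        rw [this]
        exact one_mem _
      · intro h
        obtain ⟨g, rfl⟩ := QuotientGroup.mk'_surjective M x
        have h2 : g ∈ (Subgroup.zpowers ((QuotientGroup.mk' M) g)).comap (QuotientGroup.mk' M) := by
          rw [Subgroup.mem_comap]
          exact Subgroup.mem_zpowers _
        rw [← h] at h2
        exact hx1 (by rwa [QuotientGroup.mk'_apply, QuotientGroup.eq_one_iff])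
    have h2 := hM.2 _ h1
    rw [← Subgroup.comap_top (QuotientGroup.mk' M)] at h2
    exact Subgroup.comap_injective (QuotientGroup.mk'_surjective M) h2
  have hcard : Nat.card (P ⧸ M) = p := by
    rw [← hx, ← Nat.card_zpowers, hz, Subgroup.card_top]
  have hcard' : Nat.card (Multiplicative (ZMod p)) = p := by
    rw [Nat.card_congr (Multiplicative.toAdd)]
    exact Nat.card_zmod p
  set e := mulEquivOfPrimeCardEq hcard hcard' with he
  refine ⟨M, e.toMonoidHom.comp (QuotientGroup.mk' M), hDM, ?_, ?_⟩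
  · intro h
    obtain ⟨g, rfl⟩ := QuotientGroup.mk'_surjective M x
    have h3 : e ((QuotientGroup.mk' M) g) = 1 := DFunLike.congr_fun h g
    exact hx1 (e.injective (by rw [h3, map_one]))
  · intro g hg
    have : (QuotientGroup.mk' M) g = 1 := by
      rwa [QuotientGroup.mk'_apply, QuotientGroup.eq_one_iff]
    show e ((QuotientGroup.mk' M) g) = 1
    rw [this, map_one]

section

variable {F : Type} [Field F] {P : Type} [Group P] {E : Type} [CommRing E] [Algebra F E]
  [MulSemiringAction P E]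

/-- no nonzero element has all its conjugates in a proper ideal -/
theorem QTR_zero [Finite P] (h : GalAlg F P E) (m : Ideal E) (hm : m ≠ ⊤) (b : E)
    (hb : ∀ g : P, g • b ∈ m) : b = 0 := by
  classical
  have := Fintype.ofFinite P
  obtain ⟨n, x, y, h1, h2⟩ := gal_dual' h
  rw [gal_formula h1 h2 b]
  refine Finset.sum_eq_zero fun i _ => ?_
  obtain ⟨t, ht⟩ := gal_trace h (y i * b)
  have h3 : ∑ g : P, g • (y i * b) ∈ m := by
    refine Ideal.sum_mem _ fun g _ => ?_
    rw [smul_mul']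
    exact m.mul_mem_left _ (hb g)
  rw [← ht] at h3 ⊢
  by_cases h0 : t = 0
  · rw [h0, map_zero, zero_mul]
  · exfalso
    exact hm (m.eq_top_of_isUnit_mem h3 ((IsUnit.mk0 t h0).map (algebraMap F E)))

/-- the pullback of an ideal under the action of an element -/
def QTR_pb (m : Ideal E) (g : P) : Ideal E := m.comap (MulSemiringAction.toRingHom P E g)

theorem QTR_mem_pb (m : Ideal E) (g : P) (b : E) : b ∈ QTR_pb m g ↔ g • b ∈ m := Iff.rfl

theorem QTR_pb_max (m : Ideal E) (hm : m.IsMaximal) (g : P) : (QTR_pb m g).IsMaximal := by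
  have : QTR_pb m g = m.comap (MulSemiringAction.toRingEquiv P E g) := rfl
  rw [this]
  exact Ideal.comap_isMaximal_of_equiv (MulSemiringAction.toRingEquiv P E g)

/-- the elements which preserve `m` -/
def QTR_D (P : Type) [Group P] [MulSemiringAction P E] (m : Ideal E) : Subgroup P where
  carrier := {g | ∀ b : E, g • b ∈ m ↔ b ∈ m}
  one_mem' := fun b => by rw [one_smul]
  mul_mem' := fun {a b} ha hb c => by rw [mul_smul, ha, hb]
  inv_mem' := fun {a} ha c => by
    rw [← ha (a⁻¹ • c), smul_inv_smul]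

end

theorem prf_QTR (hB7 : B7) : QTR := by
  intro κ _ p _ _ P _ _ A E _ _ _ _ _ _ j hP htot hgal hj hjact
  classical
  have := Fintype.ofFinite P
  have hEnt : Nontrivial E := hgal.inj.nontrivial
  obtain ⟨m, hm⟩ := Ideal.exists_maximal E
  by_cases hD : QTR_D P m = ⊤
  · -- `m = 0`
    have h0 : m = ⊥ := by
      rw [eq_bot_iff]
      intro b hb
      rw [Ideal.mem_bot]
      refine QTR_zero hgal m hm.ne_top b fun g => ?_
      have : g ∈ QTR_D P m := by rw [hD]; trivial
      exact (this b).2 hb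
    rw [h0] at hm
    have hf : IsField E := Ring.isField_iff_maximal_bot.2 hm
    exact hf.isDomain
  · exfalso
    obtain ⟨M, l, hDM, hl, hlM⟩ := QTR_char p P hP _ hD
    obtain ⟨y, f, hy, hyf, hf⟩ := htot l hl
    set Y := j y with hY
    have hYM : ∀ g ∈ M, g • Y = Y := by
      intro g hg
      rw [hY, ← hjact, hy g, hlM g hg]
      simp
    have hYf : Y ^ p - Y = algebraMap (LaurentSeries κ) E (atInf κ f) := by
      rw [hY, ← map_pow, ← map_sub, hyf, hj]
    -- the idempotent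
    have hcop : ∀ g ∈ M, ∀ h ∉ M, QTR_pb m g ⊔ QTR_pb m h = ⊤ := by
      intro g hg h hh
      refine Ideal.IsMaximal.coprime_of_ne (QTR_pb_max m hm g) (QTR_pb_max m hm h) ?_
      intro heq
      have h1 : g * h⁻¹ ∈ QTR_D P m := by
        intro b
        have h2 : h⁻¹ • b ∈ QTR_pb m g ↔ h⁻¹ • b ∈ QTR_pb m h := by rw [heq]
        rw [QTR_mem_pb, QTR_mem_pb, smul_inv_smul] at h2
        rw [mul_smul]
        exact h2
      have h2 : h = (g * h⁻¹)⁻¹ * g := by group
      exact hh (by rw [h2]; exact mul_mem (inv_mem (hDM h1)) hg)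
    have hcop2 : (⨅ g ∈ Finset.univ.filter (fun g => g ∈ M), QTR_pb m g) ⊔
        (⨅ h ∈ Finset.univ.filter (fun h => h ∉ M), QTR_pb m h) = ⊤ := by
      refine Ideal.sup_iInf_eq_top fun h hh => ?_
      refine Ideal.iInf_sup_eq_top fun g hg => ?_
      exact hcop g (Finset.mem_filter.1 hg).2 h (Finset.mem_filter.1 hh).2
    obtain ⟨u, hu, v, hv, huv⟩ := Submodule.mem_sup.1 ((Ideal.eq_top_iff_one _).1 hcop2)
    have hu' : ∀ g ∈ M, g • u ∈ m := by
      intro g hg
      have := (Submodule.mem_iInf _).1 hu g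
      exact (Submodule.mem_iInf _).1 this (by simp [hg])
    have hv' : ∀ g ∉ M, g • v ∈ m := by
      intro g hg
      have := (Submodule.mem_iInf _).1 hv g
      exact (Submodule.mem_iInf _).1 this (by simp [hg])
    set w := v * Y with hw
    have hw1 : ∀ g ∈ M, g • w - Y ∈ m := by
      intro g hg
      have h1 : g • w - Y = -((g • u) * Y) := by
        have h2 : v = 1 - u := by rw [← huv]; ring
        rw [hw, smul_mul', hYM g hg, h2, smul_sub, smul_one]
        ring
      rw [h1]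
      exact m.neg_mem (m.mul_mem_right _ (hu' g hg))
    have hw2 : ∀ g ∉ M, g • w ∈ m := by
      intro g hg
      rw [hw, smul_mul']
      exact m.mul_mem_right _ (hv' g hg)
    have hw3 : ∀ g ∈ M, g • w = w := by
      intro g₀ hg₀
      refine sub_eq_zero.1 (QTR_zero hgal m hm.ne_top _ fun g => ?_)
      rw [smul_sub, smul_smul]
      by_cases hg : g ∈ M
      · have h1 := m.sub_mem (hw1 (g * g₀) (mul_mem hg hg₀)) (hw1 g hg)
        rwa [sub_sub_sub_cancel_right] at h1
      · refine m.sub_mem (hw2 _ fun h => hg ?_) (hw2 g hg)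
        have : g = (g * g₀) * g₀⁻¹ := by group
        rw [this]
        exact mul_mem h (inv_mem hg₀)
    -- the orbit sum
    set O : Finset E := Finset.univ.image (fun g : P => g • w) with hO
    have hOinv : ∀ g : P, g • (∑ x ∈ O, x) = ∑ x ∈ O, x := by
      intro g
      rw [Finset.smul_sum]
      refine Finset.sum_bij (fun x _ => g • x) ?_ ?_ ?_ ?_
      · intro x hx
        obtain ⟨g', -, rfl⟩ := Finset.mem_image.1 hx
        exact Finset.mem_image.2 ⟨g * g', Finset.mem_univ _, by rw [mul_smul]⟩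
      · intro x _ x' _ h
        exact smul_left_cancel g h
      · intro x hx
        obtain ⟨g', -, rfl⟩ := Finset.mem_image.1 hx
        refine ⟨g⁻¹ • g' • w, Finset.mem_image.2 ⟨g⁻¹ * g', Finset.mem_univ _, by rw [mul_smul]⟩, ?_⟩
        rw [smul_inv_smul]
      · intro x _
        rfl
    obtain ⟨a, ha⟩ := hgal.inv _ hOinv
    have hwO : w ∈ O := Finset.mem_image.2 ⟨1, Finset.mem_univ _, one_smul _ _⟩
    have h1 : algebraMap (LaurentSeries κ) E a - Y ∈ m := by
      rw [ha, ← Finset.add_sum_erase O (fun x => x) hwO]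
      have h2 : ∑ x ∈ O.erase w, x ∈ m := by
        refine Ideal.sum_mem _ fun x hx => ?_
        obtain ⟨hne, hx⟩ := Finset.mem_erase.1 hx
        obtain ⟨g, -, rfl⟩ := Finset.mem_image.1 hx
        exact hw2 g fun hg => hne (hw3 g hg)
      have h3 : w - Y ∈ m := by
        have := hw1 1 (one_mem M)
        rwa [one_smul] at this
      have h4 := m.add_mem h3 h2
      convert h4 using 1
      ring
    have h2 : algebraMap (LaurentSeries κ) E (a ^ p - a - atInf κ f) ∈ m := by
      rw [map_sub, map_sub, map_pow, ← hYf]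
      have h3 : (algebraMap (LaurentSeries κ) E a) ^ p - Y ^ p ∈ m := by
        obtain ⟨c, hc⟩ := sub_dvd_pow_sub_pow (algebraMap (LaurentSeries κ) E a) Y p
        rw [hc]
        exact m.mul_mem_right _ h1
      have h4 := m.sub_mem h3 h1
      convert h4 using 1
      ring
    have h3 : a ^ p - a - atInf κ f = 0 := by
      by_contra h0
      exact hm.ne_top (m.eq_top_of_isUnit_mem h2 ((IsUnit.mk0 _ h0).map (algebraMap (LaurentSeries κ) E)))
    have hirr := hB7 κ p f hf
    have hroot : (asPoly p (atInf κ f)).IsRoot a := by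
      rw [IsRoot.def]
      unfold asPoly
      simpa using h3
    have hdeg := Polynomial.degree_eq_one_of_irreducible_of_root hirr hroot
    have hdeg2 : (asPoly p (atInf κ f)).natDegree = p := by
      have hp1 : 1 < p := (Fact.out : p.Prime).one_lt
      unfold asPoly
      have h5 : (X ^ p - X - C (atInf κ f) : (LaurentSeries κ)[X]) =
          X ^ p - (X + C (atInf κ f)) := by ring
      rw [h5, natDegree_sub_eq_left_of_natDegree_lt]
      · exact natDegree_X_pow p
      · rw [natDegree_X_pow, natDegree_X_add_C]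
        exact hp1
    have hdeg3 := natDegree_eq_of_degree_eq_some hdeg
    rw [hdeg2] at hdeg3
    exact (Fact.out : p.Prime).one_lt.ne' hdeg3

end MP7b0bad

end

section

set_option autoImplicit false

namespace MP7b0bad

open Polynomial TensorProduct

section

variable {R : Type} [CommRing R] {G : Type} [Group G] {B : Type} [CommRing B]
  [Algebra R B] [MulSemiringAction G B]

/-- the action of a group element as an algebra homomorphism -/
noncomputable def QTen_act (h : GalAlg R G B) (g : G) : B →ₐ[R] B :=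
  { MulSemiringAction.toRingHom G B g with commutes' := fun a => h.comm g a }

theorem QTen_act_apply (h : GalAlg R G B) (g : G) (b : B) : QTen_act h g b = g • b := rfl

/-- a linear retraction of `R → B` -/
theorem QTen_retr [Finite G] (h : GalAlg R G B) : ∃ l : B →ₗ[R] R, l 1 = 1 := by
  classical
  have := Fintype.ofFinite G
  obtain ⟨t, ht⟩ := gal_trace_one h
  choose T hT using fun b => gal_trace h b
  refine ⟨{ toFun := fun b => T (t * b), map_add' := ?_, map_smul' := ?_ }, ?_⟩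
  · intro x y
    apply h.inj
    rw [map_add, hT, hT, hT, ← Finset.sum_add_distrib]
    exact Finset.sum_congr rfl fun g _ => by rw [mul_add, smul_add]
  · intro a x
    apply h.inj
    rw [RingHom.id_apply, smul_eq_mul, map_mul, hT, hT, Finset.mul_sum]
    refine Finset.sum_congr rfl fun g _ => ?_
    rw [Algebra.smul_def, mul_left_comm, smul_mul', h.comm]
  · show T (t * 1) = 1
    apply h.inj
    rw [mul_one, hT, ht, map_one]

end

section

variable {R : Type} [CommRing R] {G P : Type} [Group G] [Group P]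
  {B E : Type} [CommRing B] [Algebra R B] [MulSemiringAction G B] [CommRing E] [Algebra R E]
  [MulSemiringAction P E]

/-- the action on the tensor product -/
noncomputable def QTen_map (hB : GalAlg R G B) (hE : GalAlg R P E) (x : G × P) :
    B ⊗[R] E →ₐ[R] B ⊗[R] E :=
  Algebra.TensorProduct.map (QTen_act hB x.1) (QTen_act hE x.2)

theorem QTen_map_tmul (hB : GalAlg R G B) (hE : GalAlg R P E) (x : G × P) (b : B) (e : E) :
    QTen_map hB hE x (b ⊗ₜ[R] e) = (x.1 • b) ⊗ₜ[R] (x.2 • e) := by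
  rw [QTen_map, Algebra.TensorProduct.map_tmul]
  rfl

theorem QTen_map_one (hB : GalAlg R G B) (hE : GalAlg R P E) (z : B ⊗[R] E) :
    QTen_map hB hE 1 z = z := by
  induction z using TensorProduct.induction_on with
  | zero => rw [map_zero]
  | tmul b e => rw [QTen_map_tmul, Prod.fst_one, Prod.snd_one, one_smul, one_smul]
  | add z w hz hw => rw [map_add, hz, hw]

theorem QTen_map_mul (hB : GalAlg R G B) (hE : GalAlg R P E) (x y : G × P) (z : B ⊗[R] E) :
    QTen_map hB hE (x * y) z = QTen_map hB hE x (QTen_map hB hE y z) := by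
  induction z using TensorProduct.induction_on with
  | zero => rw [map_zero, map_zero, map_zero]
  | tmul b e =>
    rw [QTen_map_tmul, QTen_map_tmul, QTen_map_tmul, Prod.fst_mul, Prod.snd_mul, mul_smul,
      mul_smul]
  | add z w hz hw => rw [map_add, map_add, map_add, hz, hw]

/-- the action of `G × P` on the tensor product -/
noncomputable abbrev QTen_inst (hB : GalAlg R G B) (hE : GalAlg R P E) :
    MulSemiringAction (G × P) (B ⊗[R] E) where
  smul x z := QTen_map hB hE x z
  one_smul z := QTen_map_one hB hE z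
  mul_smul x y z := QTen_map_mul hB hE x y z
  smul_zero x := map_zero (QTen_map hB hE x)
  smul_add x z w := map_add (QTen_map hB hE x) z w
  smul_one x := map_one (QTen_map hB hE x)
  smul_mul x z w := map_mul (QTen_map hB hE x) z w

end

theorem prf_QTen : QTen := by
  intro R _ G P _ _ _ _ B E _ _ _ _ _ _ hB hE
  classical
  have hG := Fintype.ofFinite G
  have hP := Fintype.ofFinite P
  letI inst : MulSemiringAction (G × P) (B ⊗[R] E) := QTen_inst hB hE
  have hsm : ∀ (x : G × P) (z : B ⊗[R] E), x • z = QTen_map hB hE x z := fun x z => rfl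
  have hten : ∀ (x : G × P) (b : B) (e : E), x • (b ⊗ₜ[R] e) = (x.1 • b) ⊗ₜ[R] (x.2 • e) :=
    fun x b e => QTen_map_tmul hB hE x b e
  set i : B →+* B ⊗[R] E :=
    (Algebra.TensorProduct.includeLeft : B →ₐ[R] B ⊗[R] E).toRingHom with hi
  set j : E →+* B ⊗[R] E :=
    (Algebra.TensorProduct.includeRight : E →ₐ[R] B ⊗[R] E).toRingHom with hj
  have hib : ∀ b : B, i b = b ⊗ₜ[R] (1 : E) := fun b => rfl
  have hje : ∀ e : E, j e = (1 : B) ⊗ₜ[R] e := fun e => rfl
  have hia : ∀ a : R, i (algebraMap R B a) = algebraMap R (B ⊗[R] E) a := fun a =>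
    (Algebra.TensorProduct.includeLeft : B →ₐ[R] B ⊗[R] E).commutes a
  have hja : ∀ a : R, j (algebraMap R E a) = algebraMap R (B ⊗[R] E) a := fun a =>
    (Algebra.TensorProduct.includeRight : E →ₐ[R] B ⊗[R] E).commutes a
  have hi_act : ∀ (g : G) (τ : P) (b : B), (g, τ) • i b = i (g • b) := by
    intro g τ b
    rw [hib, hib, hten, smul_one]
  have hj_act : ∀ (g : G) (τ : P) (e : E), (g, τ) • j e = j (τ • e) := by
    intro g τ e
    rw [hje, hje, hten, smul_one]
  obtain ⟨lB, hlB⟩ := QTen_retr hB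
  obtain ⟨lE, hlE⟩ := QTen_retr hE
  have hi_inj : Function.Injective i := by
    have h1 : ∀ b : B, TensorProduct.rid R B (LinearMap.lTensor B lE (i b)) = b := by
      intro b
      rw [hib, LinearMap.lTensor_tmul, TensorProduct.rid_tmul, hlE, one_smul]
    intro b b' h
    rw [← h1 b, h, h1 b']
  have hj_inj : Function.Injective j := by
    have h1 : ∀ e : E, TensorProduct.lid R E (LinearMap.rTensor E lB (j e)) = e := by
      intro e
      rw [hje, LinearMap.rTensor_tmul, TensorProduct.lid_tmul, hlB, one_smul]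
    intro e e' h
    rw [← h1 e, h, h1 e']
  -- sums over the group
  have hsum : ∀ (b : B) (e : E), ∑ x : G × P, x • (b ⊗ₜ[R] e) =
      (∑ g : G, g • b) ⊗ₜ[R] (∑ τ : P, τ • e) := by
    intro b e
    rw [Fintype.sum_prod_type, TensorProduct.sum_tmul]
    refine Finset.sum_congr rfl fun g _ => ?_
    rw [TensorProduct.tmul_sum]
    exact Finset.sum_congr rfl fun τ _ => hten (g, τ) b e
  have htr : ∀ w : B ⊗[R] E, ∃ a : R, algebraMap R (B ⊗[R] E) a = ∑ x : G × P, x • w := by
    intro w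
    induction w using TensorProduct.induction_on with
    | zero => exact ⟨0, by simp only [smul_zero, Finset.sum_const_zero, map_zero]⟩
    | tmul b e =>
      obtain ⟨a, ha⟩ := gal_trace hB b
      obtain ⟨a', ha'⟩ := gal_trace hE e
      refine ⟨a * a', ?_⟩
      rw [hsum, ← ha, ← ha', map_mul, ← hia a, ← hja a', hib, hje,
        Algebra.TensorProduct.tmul_mul_tmul, mul_one, one_mul]
    | add z w hz hw =>
      obtain ⟨a, ha⟩ := hz
      obtain ⟨a', ha'⟩ := hw
      exact ⟨a + a', by simp only [map_add, ha, ha', smul_add, Finset.sum_add_distrib]⟩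
  refine ⟨B ⊗[R] E, inferInstance, inferInstance, inst, i, j, ⟨?_, ?_, ?_, ?_⟩, hia, hja, hi_act,
    hj_act, hi_inj, hj_inj, ?_⟩
  · intro x a
    rw [hsm]
    exact (QTen_map hB hE x).commutes a
  · intro a a' h
    apply hB.inj
    apply hi_inj
    rw [hia, hia, h]
  · intro z hz
    obtain ⟨t, ht⟩ := gal_trace_one hB
    obtain ⟨t', ht'⟩ := gal_trace_one hE
    obtain ⟨a, ha⟩ := htr (z * (t ⊗ₜ[R] t'))
    refine ⟨a, ?_⟩
    rw [ha]
    calc ∑ x : G × P, x • (z * (t ⊗ₜ[R] t')) = ∑ x : G × P, z * (x • (t ⊗ₜ[R] t')) :=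
          Finset.sum_congr rfl fun x _ => by rw [smul_mul', hz x]
      _ = z * ∑ x : G × P, x • (t ⊗ₜ[R] t') := by rw [Finset.mul_sum]
      _ = z := by rw [hsum, ht, ht', ← Algebra.TensorProduct.one_def, mul_one]
  · rintro ⟨g, τ⟩ hx
    by_cases hg : g = 1
    · have hτ : τ ≠ 1 := by
        rintro rfl
        apply hx
        rw [hg]
        rfl
      obtain ⟨n, a, b, hab⟩ := TII_unr τ (hE.unr τ hτ)
      refine TII_unr' (g, τ) n (fun m => j (a m)) (fun m => j (b m)) ?_
      have h1 := congrArg j hab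
      rw [map_sum, map_one] at h1
      rw [← h1]
      refine Finset.sum_congr rfl fun m _ => ?_
      rw [hj_act, map_mul, map_sub]
    · obtain ⟨n, a, b, hab⟩ := TII_unr g (hB.unr g hg)
      refine TII_unr' (g, τ) n (fun m => i (a m)) (fun m => i (b m)) ?_
      have h1 := congrArg i hab
      rw [map_sum, map_one] at h1
      rw [← h1]
      refine Finset.sum_congr rfl fun m _ => ?_
      rw [hi_act, map_mul, map_sub]
  · intro T _ f h hfh
    letI : Algebra R T := (f.comp (algebraMap R B)).toAlgebra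
    have hR : ∀ a : R, algebraMap R T a = f (algebraMap R B a) := fun a => rfl
    have hcomm : ∀ a : R, h (algebraMap R E a) = algebraMap R T a := fun a => by rw [hR, hfh]
    let f' : B →ₐ[R] T := { f with commutes' := fun a => rfl }
    let h' : E →ₐ[R] T := { h with commutes' := hcomm }
    refine ⟨(Algebra.TensorProduct.productMap f' h').toRingHom, fun b => ?_, fun e => ?_⟩
    · show Algebra.TensorProduct.productMap f' h' (b ⊗ₜ[R] (1 : E)) = f b
      rw [Algebra.TensorProduct.productMap_apply_tmul, map_one, mul_one]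
      rfl
    · show Algebra.TensorProduct.productMap f' h' ((1 : B) ⊗ₜ[R] e) = h e
      rw [Algebra.TensorProduct.productMap_apply_tmul, map_one, one_mul]
      rfl

end MP7b0bad

end

section

set_option autoImplicit false

namespace MP7b0bad

open Polynomial TensorProduct

/-- the ring homomorphism on a tensor product given by two ring homomorphisms -/
theorem QTh_lift {R A B T : Type} [CommRing R] [CommRing A] [CommRing B] [CommRing T]
    [Algebra R A] [Algebra R B] (f : A →+* T) (g : B →+* T)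
    (h : ∀ r, f (algebraMap R A r) = g (algebraMap R B r)) :
    ∃ F : A ⊗[R] B →+* T, ∀ a b, F (a ⊗ₜ[R] b) = f a * g b := by
  let _ : Algebra R T := (f.comp (algebraMap R A)).toAlgebra
  let f' : A →ₐ[R] T := { f with commutes' := fun r => rfl }
  let g' : B →ₐ[R] T := { g with commutes' := fun r => (h r).symm }
  refine ⟨(Algebra.TensorProduct.productMap f' g').toRingHom, fun a b => ?_⟩
  change Algebra.TensorProduct.productMap f' g' (a ⊗ₜ[R] b) = _
  rw [Algebra.TensorProduct.productMap_apply_tmul]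
  rfl

theorem QTh_jjC (k : Type) [Field k] (c : LaurentSeries k) : jj k (C c) = KF k c := by
  simp [jj]

theorem QTh_KF_Ss (k : Type) [Field k] (c : LaurentSeries k) : KF k c ∈ Ss k := by
  refine ⟨0, fun j i hi => ?_⟩
  change ((HahnSeries.C (c.coeff j) : LaurentSeries k)).coeff i = 0
  rw [HahnSeries.C_apply, HahnSeries.coeff_single, if_neg (by omega)]

theorem prf_QTh (hQGL : QGL) (hQC2a : QC2a) (hQC2c : QC2c) (hQB2 : QB2) (hQP1 : QP1) : QTh := by
  intro k _ N V ξ P _ _ P' _ _ π Q _ _ _ O hD hN hG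
  obtain ⟨A1, _, o, x, a, aI, h1, h2, h3, h4, h5, h6, h7⟩ := hQC2c k N V ξ hD hN
  obtain ⟨n, β, hβ1, hβ2⟩ := hQB2 k N V ξ P P' π Q O hD hN hG
  -- K → S
  let ks : LaurentSeries k →+* Ss k :=
    ((jj k).comp (C : LaurentSeries k →+* (LaurentSeries k)[X])).codRestrict (Ss k)
      (fun c => by rw [RingHom.comp_apply, QTh_jjC]; exact QTh_KF_Ss k c)
  let κ : (LaurentSeries k)[X] →+* A1 := eval₂RingHom (o.comp ks) x
  have hκa : ∀ i f, a i (κ f) = f.eval₂ (KF k) (ξ i) := by
    intro i f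
    have : (a i).comp κ = eval₂RingHom (KF k) (ξ i) := by
      refine Polynomial.ringHom_ext (fun c => ?_) ?_
      · simp only [κ, RingHom.comp_apply, coe_eval₂RingHom, eval₂_C]
        rw [h1]
        change jj k (C c) = _
        exact QTh_jjC k c
      · simp only [κ, RingHom.comp_apply, coe_eval₂RingHom, eval₂_X]
        exact h2 i
    exact congrArg (fun g => g f) this
  have hκI : ∀ f, aI (κ f) = atInf (LaurentSeries k) f := by
    intro f
    have : aI.comp κ = atInf (LaurentSeries k) := by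
      refine Polynomial.ringHom_ext (fun c => ?_) ?_
      · simp only [κ, RingHom.comp_apply, coe_eval₂RingHom, eval₂_C]
        have := h6 (C c) (by rw [QTh_jjC]; exact QTh_KF_Ss k c)
        rw [C_comp] at this
        exact this
      · simp only [κ, RingHom.comp_apply, coe_eval₂RingHom, eval₂_X]
        exact h5
    exact congrArg (fun g => g f) this
  let _ : Algebra (LaurentSeries k)[X] A1 := κ.toAlgebra
  have halg : ∀ f, algebraMap (LaurentSeries k)[X] A1 f = κ f := fun f => rfl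
  -- the map to functions
  have hUi : ∀ (γ : P) (i : Fin N), ∃ F : A1 ⊗[(LaurentSeries k)[X]] O.A →+* Q i,
      ∀ α e, F (α ⊗ₜ e) = algebraMap (Fk k) (Q i) (a i α) * O.a i (γ⁻¹ • e) := by
    intro γ i
    refine QTh_lift ((algebraMap (Fk k) (Q i)).comp (a i))
      ((O.a i).comp (MulSemiringAction.toRingHom P O.A γ⁻¹)) fun f => ?_
    simp only [RingHom.comp_apply, MulSemiringAction.toRingHom_apply]
    rw [halg, hκa, O.gal.comm, O.a_alg]
  choose Ui hUi using hUi
  obtain ⟨W, hW⟩ := QTh_lift (R := (LaurentSeries k)[X])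
    ((algebraMap (LaurentSeries (LaurentSeries k)) O.E).comp aI) O.j (fun f => by
      rw [RingHom.comp_apply, halg, hκI, O.j_alg])
  let U : A1 ⊗[(LaurentSeries k)[X]] O.A →+* (P → ∀ i, Q i) :=
    RingHom.pi fun γ => RingHom.pi fun i => Ui γ i
  have hU : ∀ z γ i, U z γ i = Ui γ i z := fun z γ i => rfl
  -- basis
  let bb : Module.Basis (Fin n) A1 (A1 ⊗[(LaurentSeries k)[X]] O.A) :=
    Algebra.TensorProduct.basis A1 β
  have hbb : ∀ z : A1 ⊗[(LaurentSeries k)[X]] O.A, z = ∑ l, (bb.repr z l) ⊗ₜ β l := by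
    intro z
    conv_lhs => rw [← bb.sum_repr z]
    refine Finset.sum_congr rfl fun l _ => ?_
    rw [Algebra.TensorProduct.basis_apply, TensorProduct.smul_tmul', smul_eq_mul, mul_one]
  -- coordinates
  have hco : ∀ z : A1 ⊗[(LaurentSeries k)[X]] O.A, ∃ c : Fin n → Fin N → Ss k,
      (∀ l, bb.repr z l = ∑ j, o (c l j) * x ^ (j : ℕ)) ∧
      U z = fun (γ : P) i => ∑ l, algebraMap (Fk k) (Q i) (∑ j, (c l j : Fk k) * ξ i ^ (j : ℕ)) *
        O.a i (γ⁻¹ • β l) := by
    intro z
    choose c hc using fun l => h7 (bb.repr z l)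
    refine ⟨c, hc, ?_⟩
    funext γ i
    rw [hU]
    conv_lhs => rw [hbb z]
    rw [map_sum]
    refine Finset.sum_congr rfl fun l _ => ?_
    rw [hUi, hc l, map_sum]
    congr 2
    refine Finset.sum_congr rfl fun j _ => ?_
    rw [map_mul, map_pow, h1, h2]
  have hUinj : Function.Injective U := by
    rw [injective_iff_map_eq_zero]
    intro z hz
    obtain ⟨c, hc1, hc2⟩ := hco z
    have hu := hβ1 0 (fun γ i τ => by simp)
    have e1 : (fun l j => (c l j : Fk k)) = (fun _ _ => 0 : Fin n → Fin N → Fk k) := by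
      refine hu.unique (fun γ i => ?_) (fun γ i => ?_)
      · have := congrFun (congrFun (hc2.symm.trans hz) γ) i
        exact this.symm
      · simp
    have e2 : ∀ l j, c l j = 0 := fun l j => by
      have := congrFun (congrFun e1 l) j
      exact Subtype.ext this
    have e3 : bb.repr z = 0 := by
      ext l
      rw [hc1 l]
      simp [e2]
    exact bb.repr.map_eq_zero_iff.1 e3
  have hUmem : ∀ z, U z ∈ SM O := by
    intro z
    obtain ⟨c, hc1, hc2⟩ := hco z
    rw [hc2]
    exact (hβ2 (fun l j => (c l j : Fk k))).2 fun l j => (c l j).2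
  have hUe : ∀ e : O.A, U (1 ⊗ₜ e) = fun (γ : P) i => O.a i (γ⁻¹ • e) := by
    intro e
    funext γ i
    rw [hU, hUi, map_one, map_one, one_mul]
  have hUsurj : ∀ u ∈ SM O, ∃ z, U z = u := by
    intro u hu
    have hle : SM O ≤ U.range := by
      refine Subring.closure_le.2 ?_
      rintro v (⟨s, hs, rfl⟩ | ⟨e, rfl⟩)
      · refine ⟨(o ⟨s, hs⟩) ⊗ₜ 1, ?_⟩
        funext γ i
        rw [hU, hUi, h1, smul_one, map_one, mul_one]
      · exact ⟨1 ⊗ₜ e, hUe e⟩
    exact hle hu
  let U' : A1 ⊗[(LaurentSeries k)[X]] O.A →+* SM O := U.codRestrict (SM O) hUmem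
  have hU'b : Function.Bijective U' := by
    refine ⟨fun z z' h => hUinj (congrArg Subtype.val h), fun u => ?_⟩
    obtain ⟨z, hz⟩ := hUsurj u.1 u.2
    exact ⟨z, Subtype.ext hz⟩
  let E := RingEquiv.ofBijective U' hU'b
  have hE : ∀ z (u : P → ∀ i, Q i) (h : u ∈ SM O), U z = u → E.symm ⟨u, h⟩ = z := by
    intro z u h hz
    rw [RingEquiv.symm_apply_eq]
    exact Subtype.ext hz.symm
  have hWinj : Function.Injective W := by
    rw [injective_iff_map_eq_zero]
    intro z hz
    have q := hQGL (LaurentSeries k)[X] (LaurentSeries (LaurentSeries k)) (atInf (LaurentSeries k))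
      P P (MonoidHom.id P) O.A O.E O.j O.gal O.galE.comm O.galE.inj O.galE.inv O.j_alg
      (fun h b => by rw [MonoidHom.id_apply, O.j_act]) n β 0 (fun γ h => by simp)
    have e0 : ∑ l, algebraMap (LaurentSeries (LaurentSeries k)) O.E (aI (bb.repr z l)) * O.j (β l)
        = 0 := by
      rw [← hz]
      conv_rhs => rw [hbb z]
      rw [map_sum]
      refine Finset.sum_congr rfl fun l _ => ?_
      rw [hW]; rfl
    have e1 : (fun l => aI (bb.repr z l)) = (fun _ => 0) := by
      refine q.unique (fun γ => ?_) (fun γ => by simp)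
      have e2 := congrArg (fun t => γ⁻¹ • t) e0
      simp only [smul_zero] at e2
      rw [Finset.smul_sum] at e2
      rw [Pi.zero_apply, ← e2]
      refine Finset.sum_congr rfl fun l _ => ?_
      rw [smul_mul', O.galE.comm, O.j_act]
    have e3 : bb.repr z = 0 := by
      ext l
      exact h4 (by rw [congrFun e1 l]; simp)
    exact bb.repr.map_eq_zero_iff.1 e3
  refine ⟨W.comp E.symm.toRingHom, ?_, ?_, ?_⟩
  · exact hWinj.comp E.symm.injective
  · intro e h
    change W (E.symm ⟨_, h⟩) = _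
    rw [hE (1 ⊗ₜ e) _ h (hUe e), hW]
    simp
  · intro u h δ h'
    change W (E.symm ⟨_, h'⟩) = δ • W (E.symm ⟨u, h⟩)
    obtain ⟨z, hz⟩ := hUsurj u h
    obtain ⟨Dδ, hDδ⟩ := QTh_lift (R := (LaurentSeries k)[X]) (A := A1) (B := O.A)
      (Algebra.TensorProduct.includeLeftRingHom : A1 →+* A1 ⊗[(LaurentSeries k)[X]] O.A)
      ((Algebra.TensorProduct.includeRight : O.A →ₐ[(LaurentSeries k)[X]] A1 ⊗[(LaurentSeries k)[X]] O.A).toRingHom.comp
        (MulSemiringAction.toRingHom P O.A δ)) (fun f => by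
          rw [RingHom.comp_apply, MulSemiringAction.toRingHom_apply, O.gal.comm]
          change (algebraMap (LaurentSeries k)[X] A1 f) ⊗ₜ[(LaurentSeries k)[X]] (1 : O.A) =
            (1 : A1) ⊗ₜ[(LaurentSeries k)[X]] (algebraMap (LaurentSeries k)[X] O.A f)
          rw [Algebra.algebraMap_eq_smul_one, Algebra.algebraMap_eq_smul_one]
          exact TensorProduct.smul_tmul f (1 : A1) (1 : O.A))
    have hDδ' : ∀ α e, Dδ (α ⊗ₜ e) = α ⊗ₜ (δ • e) := by
      intro α e
      rw [hDδ]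
      change (α ⊗ₜ[(LaurentSeries k)[X]] (1 : O.A)) * ((1 : A1) ⊗ₜ[(LaurentSeries k)[X]] (δ • e)) = _
      rw [Algebra.TensorProduct.tmul_mul_tmul, one_mul, mul_one]
    have hUD : U (Dδ z) = fun γ => u (δ⁻¹ * γ) := by
      funext γ i
      rw [← hz, hU, hU]
      have : (Ui γ i).comp Dδ = Ui (δ⁻¹ * γ) i := by
        refine RingHom.ext fun t => ?_
        induction t using TensorProduct.induction_on with
        | zero => simp
        | tmul α e =>
          rw [RingHom.comp_apply, hDδ', hUi, hUi, mul_inv_rev, inv_inv, mul_smul]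
        | add s t hs ht => rw [map_add, map_add, hs, ht]
      exact congrArg (fun g => g z) this
    have hWD : W (Dδ z) = δ • W z := by
      have : W.comp Dδ = (MulSemiringAction.toRingHom P O.E δ).comp W := by
        refine RingHom.ext fun t => ?_
        induction t using TensorProduct.induction_on with
        | zero => simp
        | tmul α e =>
          rw [RingHom.comp_apply, hDδ', RingHom.comp_apply, MulSemiringAction.toRingHom_apply,
            hW, hW, smul_mul', RingHom.comp_apply, O.galE.comm, O.j_act]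
        | add s t hs ht => rw [map_add, map_add, hs, ht]
      exact congrArg (fun g => g z) this
    rw [hE (Dδ z) _ h' hUD, hE z u h hz, hWD]

end MP7b0bad

end

section

set_option autoImplicit false

namespace MP7b0bad

open Polynomial

/-- `SM` is stable under translations -/
theorem QV1_tr {k : Type} [Field k] {N : ℕ} {ξ : Fin N → Fk k} {P : Type} [Group P]
    {P' : Fin N → Type} [∀ i, Group (P' i)] {π : ∀ i, P' i →* P}
    {Q : Fin N → Type} [∀ i, CommRing (Q i)] [∀ i, Algebra (Fk k) (Q i)]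
    [∀ i, MulSemiringAction (P' i) (Q i)] (O : Outer k N ξ P P' π Q) (δ : P) {u : P → ∀ i, Q i}
    (hu : u ∈ SM O) : (fun γ => u (δ * γ)) ∈ SM O := by
  unfold SM at hu ⊢
  induction hu using Subring.closure_induction with
  | mem x hx =>
    rcases hx with ⟨r, hr, rfl⟩ | ⟨b, rfl⟩
    · exact Subring.subset_closure (Or.inl ⟨r, hr, rfl⟩)
    · refine Subring.subset_closure (Or.inr ⟨δ⁻¹ • b, ?_⟩)
      funext γ i
      beta_reduce
      rw [mul_inv_rev, mul_smul]
  | zero => exact Subring.zero_mem _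
  | one => exact Subring.one_mem _
  | add x y _ _ hx hy => exact Subring.add_mem _ hx hy
  | neg x _ hx => exact Subring.neg_mem _ hx
  | mul x y _ _ hx hy => exact Subring.mul_mem _ hx hy

section

variable {k : Type} [Field k] {N : ℕ} {ξ : Fin N → Fk k} {G : Type} [Group G] {P : Subgroup G}
  {P' : Fin N → Subgroup G} {hP : ∀ i, P' i ≤ P}
  {Q : Fin N → Type} [∀ i, CommRing (Q i)] [∀ i, Algebra (Fk k) (Q i)]
  [∀ i, MulSemiringAction (P' i) (Q i)]
  (O : Outer k N ξ P (fun i => P' i) (fun i => Subgroup.inclusion (hP i)) Q)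
  (hQ : ∀ i, GalAlg (Fk k) (P' i) (Q i))
  {n : ℕ} (β : Fin n → O.A)
  (r : G ⧸ P → G)
  (hr : ∀ g : G, (r (QuotientGroup.mk g))⁻¹ * g ∈ P)

/-- the element of `P` with `g = r γ` -/
def QV1_gam (g : G) : P := ⟨(r (QuotientGroup.mk g))⁻¹ * g, hr g⟩

/-- the function with given coordinates -/
noncomputable def QV1_fun (a : (G ⧸ P) × Fin n × Fin N → Fk k) : G → ∀ i, Q i :=
  fun g i => ∑ l, algebraMap (Fk k) (Q i) (∑ j, a (QuotientGroup.mk g, l, j) * ξ i ^ (j : ℕ)) *
    O.a i ((QV1_gam r hr g)⁻¹ • β l)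

include hQ in
theorem QV1_mem (a : (G ⧸ P) × Fin n × Fin N → Fk k) :
    QV1_fun O β r hr a ∈ VQ (G := G) hQ := by
  intro g i τ
  have h1 : (QuotientGroup.mk (g * τ) : G ⧸ P) = QuotientGroup.mk g := by
    rw [QuotientGroup.eq, mul_inv_rev, inv_mul_cancel_right]
    exact P.inv_mem (hP i τ.2)
  have h2 : QV1_gam r hr (g * τ) = QV1_gam r hr g * Subgroup.inclusion (hP i) τ := by
    apply Subtype.ext
    change (r (QuotientGroup.mk (g * τ)))⁻¹ * (g * τ) = (r (QuotientGroup.mk g))⁻¹ * g * τ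
    rw [h1, mul_assoc]
  unfold QV1_fun
  rw [Finset.smul_sum]
  refine Finset.sum_congr rfl fun l _ => ?_
  rw [h1, h2, smul_mul', (hQ i).comm, ← O.a_act, mul_inv_rev, mul_smul, smul_inv_smul]

/-- the linear map from coordinates to equivariant functions -/
noncomputable def QV1_lin : ((G ⧸ P) × Fin n × Fin N → Fk k) →ₗ[Fk k] VQ (G := G) hQ where
  toFun a := ⟨QV1_fun O β r hr a, QV1_mem O hQ β r hr a⟩
  map_add' a b := by
    apply Subtype.ext
    funext g i
    change QV1_fun O β r hr (a + b) g i = QV1_fun O β r hr a g i + QV1_fun O β r hr b g i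
    unfold QV1_fun
    rw [← Finset.sum_add_distrib]
    refine Finset.sum_congr rfl fun l _ => ?_
    simp only [Pi.add_apply, add_mul, Finset.sum_add_distrib, map_add]
  map_smul' x a := by
    apply Subtype.ext
    funext g i
    change QV1_fun O β r hr (x • a) g i = x • QV1_fun O β r hr a g i
    rw [Algebra.smul_def]
    unfold QV1_fun
    rw [Finset.mul_sum]
    refine Finset.sum_congr rfl fun l _ => ?_
    simp only [Pi.smul_apply, smul_eq_mul, mul_assoc, ← Finset.mul_sum, map_mul]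

end

theorem prf_QV1 (hQB2 : QB2) : QV1 := by
  classical
  intro k _ N V ξ G _ _ P P' hP Q _ _ _ O hQ hD hN
  have hfin : Finite P := inferInstance
  obtain ⟨n, β, hβ1, hβ2⟩ := hQB2 k N V ξ P (fun i => P' i) (fun i => Subgroup.inclusion (hP i)) Q O
    hD hN hQ
  have hfinq : Finite (G ⧸ P) := inferInstance
  have hfintq : Fintype (G ⧸ P) := Fintype.ofFinite _
  let r : G ⧸ P → G := Quotient.out
  have hr0 : ∀ x : G ⧸ P, (QuotientGroup.mk (r x) : G ⧸ P) = x := fun x => QuotientGroup.out_eq' x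
  have hr : ∀ g : G, (r (QuotientGroup.mk g))⁻¹ * g ∈ P := by
    intro g
    rw [← QuotientGroup.eq]
    exact hr0 _
  let Θ := QV1_lin O hQ (⇑β) r hr
  -- values of `Θ a` on a coset
  have hval : ∀ (a : (G ⧸ P) × Fin n × Fin N → Fk k) (x : G ⧸ P) (γ : P) (i : Fin N),
      ((Θ a : VQ (G := G) hQ) : G → ∀ i, Q i) (r x * γ) i =
        ∑ l, algebraMap (Fk k) (Q i) (∑ j, a (x, l, j) * ξ i ^ (j : ℕ)) *
          O.a i (γ⁻¹ • β l) := by
    intro a x γ i
    have h1 : (QuotientGroup.mk (r x * γ) : G ⧸ P) = x := by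
      rw [← hr0 x, QuotientGroup.eq, hr0 x, mul_inv_rev, inv_mul_cancel_right]
      exact P.inv_mem γ.2
    have h2 : QV1_gam r hr (r x * γ) = γ := by
      apply Subtype.ext
      change (r (QuotientGroup.mk (r x * γ)))⁻¹ * (r x * γ) = γ
      rw [h1, inv_mul_cancel_left]
    change QV1_fun O (⇑β) r hr a (r x * γ) i = _
    unfold QV1_fun
    rw [h1, h2]
  have hsurj : Function.Surjective Θ := by
    intro v
    have hv : ∀ g i (τ : P' i), τ • (v : G → ∀ i, Q i) (g * τ) i = (v : G → ∀ i, Q i) g i := v.2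
    choose a ha _ using fun (x : G ⧸ P) =>
      hβ1 (fun γ i => (v : G → ∀ i, Q i) (r x * γ) i) (fun γ i τ => by
        have := hv (r x * γ) i τ
        rw [mul_assoc] at this
        exact this)
    refine ⟨fun s => a s.1 s.2.1 s.2.2, ?_⟩
    apply Subtype.ext
    funext g i
    have h1 : g = r (QuotientGroup.mk g) * (⟨_, hr g⟩ : P) := by
      change g = r (QuotientGroup.mk g) * ((r (QuotientGroup.mk g))⁻¹ * g)
      rw [mul_inv_cancel_left]
    conv_lhs => rw [h1]
    rw [hval]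
    have h2 := ha (QuotientGroup.mk g) ⟨_, hr g⟩ i
    rw [← h1] at h2
    exact h2.symm
  have hinj : Function.Injective Θ := by
    intro a b hab
    funext s
    obtain ⟨x, l, j⟩ := s
    have hv : ∀ g i (τ : P' i), τ • ((Θ a : VQ (G := G) hQ) : G → ∀ i, Q i) (g * τ) i =
        ((Θ a : VQ (G := G) hQ) : G → ∀ i, Q i) g i := (Θ a).2
    obtain ⟨a', -, huniq⟩ := hβ1
      (fun γ i => ((Θ a : VQ (G := G) hQ) : G → ∀ i, Q i) (r x * γ) i) (fun γ i τ => by
        have := hv (r x * γ) i τ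
        rw [mul_assoc] at this
        exact this)
    have h1 := huniq (fun l j => a (x, l, j)) (fun γ i => hval a x γ i)
    have h2 := huniq (fun l j => b (x, l, j)) (fun γ i => by
      beta_reduce
      rw [hab]
      exact hval b x γ i)
    exact congrFun (congrFun (h1.trans h2.symm) l) j
  let Ψ : VQ (G := G) hQ ≃ₗ[Fk k] ((G ⧸ P) × Fin n × Fin N → Fk k) :=
    (LinearEquiv.ofBijective Θ ⟨hinj, hsurj⟩).symm
  refine ⟨(G ⧸ P) × Fin n × Fin N, inferInstance, Module.Basis.ofEquivFun Ψ, fun v => ?_⟩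
  have hrepr : ∀ s, (Module.Basis.ofEquivFun Ψ).repr v s = Ψ v s := by
    intro s
    rw [Module.Basis.ofEquivFun_repr_apply]
  simp only [hrepr]
  have hΨ : Θ (Ψ v) = v := (LinearEquiv.ofBijective Θ ⟨hinj, hsurj⟩).apply_symm_apply v
  have hcos : ∀ x : G ⧸ P, (fun γ : P => (v : G → ∀ i, Q i) (r x * γ)) =
      fun (γ : P) i => ∑ l, algebraMap (Fk k) (Q i) (∑ j, Ψ v (x, l, j) * ξ i ^ (j : ℕ)) *
        O.a i (γ⁻¹ • β l) := by
    intro x
    funext γ i
    conv_lhs => rw [← hΨ]
    exact hval _ x γ i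
  constructor
  · rintro h ⟨x, l, j⟩
    have h1 := h (r x)
    rw [hcos] at h1
    exact (hβ2 (fun l j => Ψ v (x, l, j))).1 h1 l j
  · intro h g
    have h1 : (fun γ : P => (v : G → ∀ i, Q i) (r (QuotientGroup.mk g) * γ)) ∈ SM O := by
      rw [hcos]
      exact (hβ2 (fun l j => Ψ v (QuotientGroup.mk g, l, j))).2 fun l j => h (QuotientGroup.mk g, l, j)
    have h2 := QV1_tr O ⟨_, hr g⟩ h1
    have h3 : (fun γ : P => (v : G → ∀ i, Q i) (g * γ)) = fun γ : P =>
        (v : G → ∀ i, Q i) (r (QuotientGroup.mk g) * (((⟨_, hr g⟩ : P) * γ : P) : G)) := by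
      funext γ
      have h4 : g * (γ : G) = r (QuotientGroup.mk g) * (((⟨_, hr g⟩ : P) * γ : P) : G) := by
        change g * (γ : G) = r (QuotientGroup.mk g) * ((r (QuotientGroup.mk g))⁻¹ * g * γ)
        rw [mul_assoc, mul_inv_cancel_left]
      rw [← h4]
    rw [h3]
    exact h2

end MP7b0bad

end

section

set_option autoImplicit false

namespace MP7b0bad

open Polynomial

/-- `RN` is stable under translations -/
theorem QV2_tr {k : Type} [Field k] {H : Type} [Group H] {P' : Type} [Group P']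
    {π : P' →* H} {Q : Type} [CommRing Q] [Algebra (Fk k) Q] [MulSemiringAction P' Q]
    (c : Inner k H P' π Q) (δ : H) {u : H → Q} (hu : u ∈ RN c) :
    (fun γ => u (δ * γ)) ∈ RN c := by
  unfold RN at hu ⊢
  induction hu using Subring.closure_induction with
  | mem x hx =>
    rcases hx with ⟨r, hr, rfl⟩ | ⟨b, rfl⟩
    · exact Subring.subset_closure (Or.inl ⟨r, hr, rfl⟩)
    · refine Subring.subset_closure (Or.inr ⟨δ⁻¹ • b, ?_⟩)
      funext γ
      beta_reduce
      rw [mul_inv_rev, mul_smul]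
  | zero => exact Subring.zero_mem _
  | one => exact Subring.one_mem _
  | add x y _ _ hx hy => exact Subring.add_mem _ hx hy
  | neg x _ hx => exact Subring.neg_mem _ hx
  | mul x y _ _ hx hy => exact Subring.mul_mem _ hx hy

section

variable {k : Type} [Field k] {N : ℕ} {G : Type} [Group G] {P' : Fin N → Subgroup G}
  {H : Fin N → Subgroup G} {hH : ∀ i, P' i ≤ H i}
  {Q : Fin N → Type} [∀ i, CommRing (Q i)] [∀ i, Algebra (Fk k) (Q i)]
  [∀ i, MulSemiringAction (P' i) (Q i)]
  (c : ∀ i, Inner k (H i) (P' i) (Subgroup.inclusion (hH i)) (Q i))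
  (hQ : ∀ i, GalAlg (Fk k) (P' i) (Q i))
  {n : Fin N → ℕ} (β : ∀ i, Fin (n i) → (c i).B)
  (r : ∀ i, G ⧸ H i → G)
  (hr : ∀ i (g : G), (r i (QuotientGroup.mk g))⁻¹ * g ∈ H i)

/-- the element of `H i` with `g = r γ` -/
def QV2_gam (i : Fin N) (g : G) : H i := ⟨(r i (QuotientGroup.mk g))⁻¹ * g, hr i g⟩

/-- the function with given coordinates -/
noncomputable def QV2_fun (a : (Σ i, (G ⧸ H i) × Fin (n i)) → Fk k) : G → ∀ i, Q i :=
  fun g i => ∑ l, algebraMap (Fk k) (Q i) (a ⟨i, (QuotientGroup.mk g, l)⟩) *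
    (c i).ι ((QV2_gam r hr i g)⁻¹ • β i l)

include hQ in
theorem QV2_mem (a : (Σ i, (G ⧸ H i) × Fin (n i)) → Fk k) :
    QV2_fun c β r hr a ∈ VQ (G := G) hQ := by
  intro g i τ
  have h1 : (QuotientGroup.mk (g * τ) : G ⧸ H i) = QuotientGroup.mk g := by
    rw [QuotientGroup.eq, mul_inv_rev, inv_mul_cancel_right]
    exact (H i).inv_mem (hH i τ.2)
  have h2 : QV2_gam r hr i (g * τ) = QV2_gam r hr i g * Subgroup.inclusion (hH i) τ := by
    apply Subtype.ext
    change (r i (QuotientGroup.mk (g * τ)))⁻¹ * (g * τ) = (r i (QuotientGroup.mk g))⁻¹ * g * τ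
    rw [h1, mul_assoc]
  unfold QV2_fun
  rw [Finset.smul_sum]
  refine Finset.sum_congr rfl fun l _ => ?_
  rw [h1, h2, smul_mul', (hQ i).comm, ← (c i).ι_act, mul_inv_rev, mul_smul, smul_inv_smul]

/-- the linear map from coordinates to equivariant functions -/
noncomputable def QV2_lin : ((Σ i, (G ⧸ H i) × Fin (n i)) → Fk k) →ₗ[Fk k] VQ (G := G) hQ where
  toFun a := ⟨QV2_fun c β r hr a, QV2_mem c hQ β r hr a⟩
  map_add' a b := by
    apply Subtype.ext
    funext g i
    change QV2_fun c β r hr (a + b) g i = QV2_fun c β r hr a g i + QV2_fun c β r hr b g i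
    unfold QV2_fun
    rw [← Finset.sum_add_distrib]
    refine Finset.sum_congr rfl fun l _ => ?_
    rw [Pi.add_apply, map_add, add_mul]
  map_smul' x a := by
    apply Subtype.ext
    funext g i
    change QV2_fun c β r hr (x • a) g i = x • QV2_fun c β r hr a g i
    rw [Algebra.smul_def]
    unfold QV2_fun
    rw [Finset.mul_sum]
    refine Finset.sum_congr rfl fun l _ => ?_
    rw [Pi.smul_apply, smul_eq_mul, map_mul, mul_assoc]

end

theorem prf_QV2 (hQB1 : QB1) : QV2 := by
  classical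
  intro k _ N G _ _ P' H hH Q _ _ _ c hQ
  have hfin : ∀ i, Finite (H i) := fun i => inferInstance
  choose n β hβ1 hβ2 using fun i => hQB1 k (H i) (P' i) (Subgroup.inclusion (hH i)) (Q i) (c i)
    (hQ i)
  have hfinq : ∀ i, Finite (G ⧸ H i) := fun i => inferInstance
  have hfintq : ∀ i, Fintype (G ⧸ H i) := fun i => Fintype.ofFinite _
  let r : ∀ i, G ⧸ H i → G := fun i => Quotient.out
  have hr0 : ∀ i (x : G ⧸ H i), (QuotientGroup.mk (r i x) : G ⧸ H i) = x :=
    fun i x => QuotientGroup.out_eq' x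
  have hr : ∀ i (g : G), (r i (QuotientGroup.mk g))⁻¹ * g ∈ H i := by
    intro i g
    rw [← QuotientGroup.eq]
    exact hr0 i _
  let Θ := QV2_lin c hQ (fun i => ⇑(β i)) r hr
  -- values of `Θ a` on a coset
  have hval : ∀ (a : (Σ i, (G ⧸ H i) × Fin (n i)) → Fk k) (i : Fin N) (x : G ⧸ H i) (γ : H i),
      ((Θ a : VQ (G := G) hQ) : G → ∀ i, Q i) (r i x * γ) i =
        ∑ l, algebraMap (Fk k) (Q i) (a ⟨i, (x, l)⟩) * (c i).ι (γ⁻¹ • β i l) := by
    intro a i x γ
    have h1 : (QuotientGroup.mk (r i x * γ) : G ⧸ H i) = x := by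
      rw [← hr0 i x, QuotientGroup.eq, hr0 i x, mul_inv_rev, inv_mul_cancel_right]
      exact (H i).inv_mem γ.2
    have h2 : QV2_gam r hr i (r i x * γ) = γ := by
      apply Subtype.ext
      change (r i (QuotientGroup.mk (r i x * γ)))⁻¹ * (r i x * γ) = γ
      rw [h1, inv_mul_cancel_left]
    change QV2_fun c (fun i => ⇑(β i)) r hr a (r i x * γ) i = _
    unfold QV2_fun
    rw [h1, h2]
  have hsurj : Function.Surjective Θ := by
    intro v
    have hv : ∀ g i (τ : P' i), τ • (v : G → ∀ i, Q i) (g * τ) i = (v : G → ∀ i, Q i) g i := v.2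
    choose a ha _ using fun (i : Fin N) (x : G ⧸ H i) =>
      hβ1 i (fun γ => (v : G → ∀ i, Q i) (r i x * γ) i) (fun γ τ => by
        have := hv (r i x * γ) i τ
        rw [mul_assoc] at this
        exact this)
    refine ⟨fun s => a s.1 s.2.1 s.2.2, ?_⟩
    apply Subtype.ext
    funext g i
    have h1 : g = r i (QuotientGroup.mk g) * (⟨_, hr i g⟩ : H i) := by
      change g = r i (QuotientGroup.mk g) * ((r i (QuotientGroup.mk g))⁻¹ * g)
      rw [mul_inv_cancel_left]
    conv_lhs => rw [h1]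
    rw [hval]
    have h2 := ha i (QuotientGroup.mk g) ⟨_, hr i g⟩
    rw [← h1] at h2
    exact h2.symm
  have hinj : Function.Injective Θ := by
    intro a b hab
    funext s
    obtain ⟨i, x, l⟩ := s
    have hv : ∀ g i (τ : P' i), τ • ((Θ a : VQ (G := G) hQ) : G → ∀ i, Q i) (g * τ) i =
        ((Θ a : VQ (G := G) hQ) : G → ∀ i, Q i) g i := (Θ a).2
    obtain ⟨a', -, huniq⟩ := hβ1 i
      (fun γ => ((Θ a : VQ (G := G) hQ) : G → ∀ i, Q i) (r i x * γ) i) (fun γ τ => by
        have := hv (r i x * γ) i τ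
        rw [mul_assoc] at this
        exact this)
    have h1 := huniq (fun l => a ⟨i, (x, l)⟩) (fun γ => hval a i x γ)
    have h2 := huniq (fun l => b ⟨i, (x, l)⟩) (fun γ => by
      beta_reduce
      rw [hab]
      exact hval b i x γ)
    exact congrFun (h1.trans h2.symm) l
  let Ψ : VQ (G := G) hQ ≃ₗ[Fk k] ((Σ i, (G ⧸ H i) × Fin (n i)) → Fk k) :=
    (LinearEquiv.ofBijective Θ ⟨hinj, hsurj⟩).symm
  refine ⟨(Σ i, (G ⧸ H i) × Fin (n i)), inferInstance, Module.Basis.ofEquivFun Ψ, fun v => ?_⟩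
  have hrepr : ∀ s, (Module.Basis.ofEquivFun Ψ).repr v s = Ψ v s := by
    intro s
    rw [Module.Basis.ofEquivFun_repr_apply]
  simp only [hrepr]
  have hΨ : Θ (Ψ v) = v := (LinearEquiv.ofBijective Θ ⟨hinj, hsurj⟩).apply_symm_apply v
  have hcos : ∀ (i : Fin N) (x : G ⧸ H i),
      (fun γ : H i => (v : G → ∀ i, Q i) (r i x * γ) i) =
      fun γ : H i => ∑ l, algebraMap (Fk k) (Q i) (Ψ v ⟨i, (x, l)⟩) *
        (c i).ι (γ⁻¹ • β i l) := by
    intro i x
    funext γ
    conv_lhs => rw [← hΨ]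
    exact hval _ i x γ
  constructor
  · rintro h ⟨i, x, l⟩
    have h1 := h i (r i x)
    rw [hcos] at h1
    exact (hβ2 i _).1 h1 l
  · intro h i g
    have h1 : (fun γ : H i => (v : G → ∀ i, Q i) (r i (QuotientGroup.mk g) * γ) i) ∈
        RN (c i) := by
      rw [hcos]
      exact (hβ2 i _).2 fun l => h ⟨i, (QuotientGroup.mk g, l)⟩
    have h2 := QV2_tr (c i) ⟨_, hr i g⟩ h1
    have h3 : (fun γ : H i => (v : G → ∀ i, Q i) (g * γ) i) = fun γ : H i =>
        (v : G → ∀ i, Q i) (r i (QuotientGroup.mk g) *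
          (((⟨_, hr i g⟩ : H i) * γ : H i) : G)) i := by
      funext γ
      have h4 : g * (γ : G) = r i (QuotientGroup.mk g) *
          (((⟨_, hr i g⟩ : H i) * γ : H i) : G) := by
        change g * (γ : G) = r i (QuotientGroup.mk g) * ((r i (QuotientGroup.mk g))⁻¹ * g * γ)
        rw [mul_assoc, mul_inv_cancel_left]
      rw [← h4]
    rw [h3]
    exact h2

end MP7b0bad

end

section

set_option autoImplicit false

/-!
# QV4R: etale certificate over `R` (helper26)
-/

namespace MP7b0bad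

open Polynomial

section

variable {k : Type} [Field k] {N : ℕ} {G : Type} [Group G]
  {Q : Fin N → Type} [∀ i, CommRing (Q i)] [∀ i, Algebra (Fk k) (Q i)]

open Classical in
/-- a function supported on one coset at one index -/
noncomputable def QV4R_ind (H0 : Subgroup G) (i0 : Fin N) (q : G ⧸ H0) (f : G → Q i0) :
    G → ∀ i, Q i :=
  fun g => if (QuotientGroup.mk g : G ⧸ H0) = q then Pi.single i0 (f g) else 0

theorem QV4R_ind_pos {H0 : Subgroup G} {i0 : Fin N} {q : G ⧸ H0} {f : G → Q i0} {g : G}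
    (h : (QuotientGroup.mk g : G ⧸ H0) = q) : QV4R_ind H0 i0 q f g i0 = f g := by
  unfold QV4R_ind
  rw [if_pos h, Pi.single_eq_same]

theorem QV4R_ind_neg {H0 : Subgroup G} {i0 : Fin N} {q : G ⧸ H0} {f : G → Q i0} {g : G}
    (i : Fin N) (h : ¬ (QuotientGroup.mk g : G ⧸ H0) = q) : QV4R_ind H0 i0 q f g i = 0 := by
  unfold QV4R_ind
  rw [if_neg h]
  rfl

theorem QV4R_ind_ne {H0 : Subgroup G} {i0 : Fin N} {q : G ⧸ H0} {f : G → Q i0} {g : G}
    {i : Fin N} (h : i ≠ i0) : QV4R_ind H0 i0 q f g i = 0 := by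
  unfold QV4R_ind
  split_ifs
  · rw [Pi.single_eq_of_ne h]
  · rfl

theorem QV4R_mem {H0 : Subgroup G} {q : G ⧸ H0} {g : G}
    (hg : (QuotientGroup.mk g : G ⧸ H0) = q) : q.out⁻¹ * g ∈ H0 := by
  refine QuotientGroup.eq.1 ?_
  rw [QuotientGroup.out_eq', hg]

open Classical in
/-- extension of a function on `H0` to the coset `s H0` -/
noncomputable def QV4R_ext {Q0 : Type} [CommRing Q0] (H0 : Subgroup G) (s : G) (a : H0 → Q0) :
    G → Q0 :=
  fun g => if h : s⁻¹ * g ∈ H0 then a ⟨s⁻¹ * g, h⟩ else 0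

theorem QV4R_ext_eq {Q0 : Type} [CommRing Q0] {H0 : Subgroup G} {q : G ⧸ H0} {g : G}
    (a : H0 → Q0) (hg : (QuotientGroup.mk g : G ⧸ H0) = q) :
    QV4R_ext H0 q.out a g = a ⟨q.out⁻¹ * g, QV4R_mem hg⟩ := by
  unfold QV4R_ext
  rw [dif_pos (QV4R_mem hg)]

theorem QV4R_cert {H P' : Type} [Group H] [Group P'] {π : P' →* H} {Q0 : Type} [CommRing Q0]
    [Algebra (Fk k) Q0] [MulSemiringAction P' Q0] (c : Inner k H P' π Q0) (σ : H) (hσ : σ ≠ 1) :
    ∃ (n : ℕ) (α β : Fin n → H → Q0), (∀ m, α m ∈ RN c ∧ β m ∈ RN c) ∧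
      ∀ γ, ∑ m, α m γ * (β m γ - β m (σ⁻¹ * γ)) = 1 := by
  have h1 : (1 : c.B) ∈ Ideal.span {x : c.B | ∃ b : c.B, x = b - σ • b} := by
    rw [c.gal.unr σ hσ]
    trivial
  obtain ⟨n, f, g, hfg⟩ := Submodule.mem_span_set'.mp h1
  choose b hb using fun m : Fin n => (g m).2
  have hmem : ∀ e : c.B, (fun γ : H => c.ι (γ⁻¹ • e)) ∈ RN c := fun e =>
    Subring.subset_closure (Or.inr ⟨e, rfl⟩)
  refine ⟨n, fun m => fun γ => c.ι (γ⁻¹ • f m), fun m => fun γ => c.ι (γ⁻¹ • b m),
    fun m => ⟨hmem _, hmem _⟩, fun γ => ?_⟩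
  have h2 : ∀ m, c.ι (γ⁻¹ • f m) * (c.ι (γ⁻¹ • b m) - c.ι ((σ⁻¹ * γ)⁻¹ • b m)) =
      c.ι (γ⁻¹ • (f m * (g m : c.B))) := by
    intro m
    rw [hb m, smul_mul', smul_sub, map_mul, map_sub, mul_inv_rev, inv_inv, mul_smul]
  simp only [h2]
  rw [← map_sum, ← Finset.smul_sum]
  have h3 : ∑ m, f m * (g m : c.B) = 1 := by
    rw [← hfg]
    rfl
  rw [h3, smul_one, map_one]

variable {P' H : Fin N → Subgroup G} {hH : ∀ i, P' i ≤ H i} [∀ i, MulSemiringAction (P' i) (Q i)]

theorem QV4R_ind_EqQ (i0 : Fin N) (q : G ⧸ H i0) (hH : ∀ i, P' i ≤ H i) (f : G → Q i0)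
    (hf : ∀ g, (QuotientGroup.mk g : G ⧸ H i0) = q → ∀ τ : P' i0, τ • f (g * τ) = f g) :
    QV4R_ind (H i0) i0 q f ∈ EqQ G P' Q := by
  intro g i τ
  by_cases hi : i = i0
  · subst hi
    by_cases hg : (QuotientGroup.mk g : G ⧸ H i) = q
    · have hg' : (QuotientGroup.mk (g * (τ : G)) : G ⧸ H i) = q := by
        rw [QuotientGroup.mk_mul_of_mem g (hH i τ.2), hg]
      rw [QV4R_ind_pos hg, QV4R_ind_pos hg']
      exact hf g hg τ
    · have hg' : ¬ (QuotientGroup.mk (g * (τ : G)) : G ⧸ H i) = q := by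
        rw [QuotientGroup.mk_mul_of_mem g (hH i τ.2)]
        exact hg
      rw [QV4R_ind_neg _ hg, QV4R_ind_neg _ hg', smul_zero]
  · rw [QV4R_ind_ne hi, QV4R_ind_ne hi, smul_zero]

theorem QV4R_ind_InR (c : ∀ i, Inner k (H i) (P' i) (Subgroup.inclusion (hH i)) (Q i))
    (i0 : Fin N) (q : G ⧸ H i0) (f : G → Q i0)
    (hf : ∀ g, (QuotientGroup.mk g : G ⧸ H i0) = q →
      (fun γ : H i0 => f (g * γ)) ∈ RN (c i0)) :
    QV4R_ind (H i0) i0 q f ∈ InRQ c := by
  intro i g
  by_cases hi : i = i0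
  · subst hi
    by_cases hg : (QuotientGroup.mk g : G ⧸ H i) = q
    · have e : (fun γ : H i => QV4R_ind (H i) i q f (g * (γ : G)) i) =
          fun γ : H i => f (g * γ) := by
        funext γ
        exact QV4R_ind_pos (by rw [QuotientGroup.mk_mul_of_mem g γ.2, hg])
      rw [e]
      exact hf g hg
    · have e : (fun γ : H i => QV4R_ind (H i) i q f (g * (γ : G)) i) = (0 : H i → Q i) := by
        funext γ
        exact QV4R_ind_neg _ (fun h => hg (by rw [← h, QuotientGroup.mk_mul_of_mem g γ.2]))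
      rw [e]
      exact (RN (c i)).zero_mem
  · have e : (fun γ : H i => QV4R_ind (H i0) i0 q f (g * (γ : G)) i) = (0 : H i → Q i) := by
      funext γ
      exact QV4R_ind_ne hi
    rw [e]
    exact (RN (c i)).zero_mem

theorem QV4R_ext_mem (hQP2 : QP2)
    (c : ∀ i, Inner k (H i) (P' i) (Subgroup.inclusion (hH i)) (Q i))
    (hgal : ∀ i, GalAlg (Fk k) (P' i) (Q i)) (i0 : Fin N) (q : G ⧸ H i0)
    (a : H i0 → Q i0) (ha : a ∈ RN (c i0)) :
    QV4R_ind (H i0) i0 q (QV4R_ext (H i0) q.out a) ∈ EqQ G P' Q ⊓ InRQ c := by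
  obtain ⟨-, h1, h2⟩ := hQP2 k (H i0) (P' i0) (Subgroup.inclusion (hH i0)) (Q i0) (c i0) a
  refine ⟨QV4R_ind_EqQ i0 q hH _ fun g hg τ => ?_, QV4R_ind_InR c i0 q _ fun g hg => ?_⟩
  · have hg' : (QuotientGroup.mk (g * (τ : G)) : G ⧸ H i0) = q := by
      rw [QuotientGroup.mk_mul_of_mem g (hH i0 τ.2), hg]
    rw [QV4R_ext_eq a hg, QV4R_ext_eq a hg', ← h1 ha (hgal i0) ⟨q.out⁻¹ * g, QV4R_mem hg⟩ τ]
    congr 2
    apply Subtype.ext
    show q.out⁻¹ * (g * τ) = q.out⁻¹ * g * τ
    rw [mul_assoc]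
  · have h3 := h2 ha ⟨q.out⁻¹ * g, QV4R_mem hg⟩
    have e : (fun γ : H i0 => QV4R_ext (H i0) q.out a (g * (γ : G))) =
        fun γ : H i0 => a (⟨q.out⁻¹ * g, QV4R_mem hg⟩ * γ) := by
      funext γ
      have hg' : (QuotientGroup.mk (g * (γ : G)) : G ⧸ H i0) = q := by
        rw [QuotientGroup.mk_mul_of_mem g γ.2, hg]
      rw [QV4R_ext_eq a hg']
      congr 1
      apply Subtype.ext
      show q.out⁻¹ * (g * (γ : G)) = q.out⁻¹ * g * γ
      rw [mul_assoc]
    rw [e]
    exact h3

end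

theorem prf_QV4R (hQP2 : QP2) : QV4R := by
  classical
  intro k _ N G _ _ P' H hH Q _ _ _ c σ hgal hσ
  -- the constant functions
  have hone : ∀ (i : Fin N) (q : G ⧸ H i), QV4R_ind (H i) i q (fun _ => (1 : Q i)) ∈
      EqQ G P' Q ⊓ InRQ c := by
    intro i q
    refine ⟨QV4R_ind_EqQ i q hH _ fun g _ τ => smul_one τ, QV4R_ind_InR c i q _ fun g _ => ?_⟩
    exact (RN (c i)).one_mem
  have hσq : ∀ (i : Fin N) (q : G ⧸ H i) (g : G), (QuotientGroup.mk g : G ⧸ H i) = q →
      (QuotientGroup.mk (σ⁻¹ * g) : G ⧸ H i) = QuotientGroup.mk (σ⁻¹ * q.out) := by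
    intro i q g hg
    rw [QuotientGroup.eq]
    have h1 : (σ⁻¹ * g)⁻¹ * (σ⁻¹ * q.out) = (q.out⁻¹ * g)⁻¹ := by group
    rw [h1]
    exact (H i).inv_mem (QV4R_mem hg)
  have key : ∀ (i : Fin N) (q : G ⧸ H i), ∃ (n : ℕ) (α β : Fin n → G → ∀ i, Q i),
      (∀ m, α m ∈ EqQ G P' Q ⊓ InRQ c ∧ β m ∈ EqQ G P' Q ⊓ InRQ c) ∧
      ∑ m, α m * (β m - trQ σ (β m)) = QV4R_ind (H i) i q (fun _ => (1 : Q i)) := by
    intro i q
    by_cases hq : (QuotientGroup.mk (σ⁻¹ * q.out) : G ⧸ H i) = q
    · -- the coset is fixed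
      have hmem : q.out⁻¹ * (σ⁻¹ * q.out) ∈ H i := QV4R_mem hq
      obtain ⟨γ0, hγ0⟩ : ∃ γ0 : H i, γ0⁻¹ = ⟨q.out⁻¹ * (σ⁻¹ * q.out), hmem⟩ := ⟨_, inv_inv _⟩
      have hne : γ0 ≠ 1 := by
        intro h
        rw [h, inv_one] at hγ0
        have h1 : (1 : G) = q.out⁻¹ * (σ⁻¹ * q.out) := congrArg Subtype.val hγ0
        apply hσ
        have h2 : σ⁻¹ * q.out = q.out := (inv_mul_eq_one.1 h1.symm).symm
        have h3 : σ⁻¹ = 1 := mul_eq_right.1 h2
        exact inv_eq_one.1 h3
      obtain ⟨n, α, β, hαβ, hsum⟩ := QV4R_cert (c i) γ0 hne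
      refine ⟨n, fun m => QV4R_ind (H i) i q (QV4R_ext (H i) q.out (α m)),
        fun m => QV4R_ind (H i) i q (QV4R_ext (H i) q.out (β m)),
        fun m => ⟨QV4R_ext_mem hQP2 c hgal i q _ (hαβ m).1,
          QV4R_ext_mem hQP2 c hgal i q _ (hαβ m).2⟩, ?_⟩
      funext g i'
      rw [Finset.sum_apply, Finset.sum_apply]
      show ∑ m, QV4R_ind (H i) i q (QV4R_ext (H i) q.out (α m)) g i' *
        (QV4R_ind (H i) i q (QV4R_ext (H i) q.out (β m)) g i' -
          QV4R_ind (H i) i q (QV4R_ext (H i) q.out (β m)) (σ⁻¹ * g) i') = _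
      by_cases hi : i' = i
      · subst hi
        by_cases h : (QuotientGroup.mk g : G ⧸ H i') = q
        · have hg' : (QuotientGroup.mk (σ⁻¹ * g) : G ⧸ H i') = q := by rw [hσq i' q g h, hq]
          rw [QV4R_ind_pos h]
          simp_rw [QV4R_ind_pos h, QV4R_ind_pos hg', QV4R_ext_eq _ h, QV4R_ext_eq _ hg']
          have h5 := hsum ⟨q.out⁻¹ * g, QV4R_mem h⟩
          rw [← h5]
          refine Finset.sum_congr rfl fun m _ => ?_
          congr 3
          rw [hγ0]
          apply Subtype.ext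
          show q.out⁻¹ * (σ⁻¹ * g) = q.out⁻¹ * (σ⁻¹ * q.out) * (q.out⁻¹ * g)
          group
        · rw [QV4R_ind_neg _ h]
          simp_rw [QV4R_ind_neg _ h, zero_mul]
          exact Finset.sum_const_zero
      · rw [QV4R_ind_ne hi]
        simp_rw [QV4R_ind_ne hi, zero_mul]
        exact Finset.sum_const_zero
    · refine ⟨1, fun _ => QV4R_ind (H i) i q (fun _ => (1 : Q i)),
        fun _ => QV4R_ind (H i) i q (fun _ => (1 : Q i)), fun _ => ⟨hone i q, hone i q⟩, ?_⟩
      rw [Fin.sum_univ_one]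
      funext g i'
      show QV4R_ind (H i) i q (fun _ => (1 : Q i)) g i' *
        (QV4R_ind (H i) i q (fun _ => (1 : Q i)) g i' -
          QV4R_ind (H i) i q (fun _ => (1 : Q i)) (σ⁻¹ * g) i') =
        QV4R_ind (H i) i q (fun _ => (1 : Q i)) g i'
      by_cases hi : i' = i
      · subst hi
        by_cases h : (QuotientGroup.mk g : G ⧸ H i') = q
        · have hg' : ¬ (QuotientGroup.mk (σ⁻¹ * g) : G ⧸ H i') = q := by
            intro h'
            exact hq (by rw [← hσq i' q g h, h'])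
          rw [QV4R_ind_pos h, QV4R_ind_neg _ hg', sub_zero, mul_one]
        · rw [QV4R_ind_neg _ h, zero_mul]
      · rw [QV4R_ind_ne hi, zero_mul]
  choose n α β hm hsum using key
  have hF : ∀ i, Finite (G ⧸ H i) := fun i => inferInstance
  have : ∀ i, Fintype (G ⧸ H i) := fun i => Fintype.ofFinite _
  let ι := Σ (x : Σ i : Fin N, G ⧸ H i), Fin (n x.1 x.2)
  refine ⟨Fintype.card ι, fun m => α _ _ ((Fintype.equivFin ι).symm m).2,
    fun m => β _ _ ((Fintype.equivFin ι).symm m).2, fun m => hm _ _ _, ?_⟩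
  rw [Equiv.sum_comp (Fintype.equivFin ι).symm
    (fun x : ι => α _ _ x.2 * (β _ _ x.2 - trQ σ (β _ _ x.2)))]
  rw [Fintype.sum_sigma]
  have h1 : ∀ x : Σ i : Fin N, G ⧸ H i, ∑ y : Fin (n x.1 x.2), α x.1 x.2 y *
      (β x.1 x.2 y - trQ σ (β x.1 x.2 y)) = QV4R_ind (H x.1) x.1 x.2 (fun _ => (1 : Q x.1)) :=
    fun x => hsum x.1 x.2
  rw [Finset.sum_congr rfl fun x _ => h1 x, Fintype.sum_sigma]
  funext g i
  rw [Finset.sum_apply, Finset.sum_apply]
  simp_rw [Finset.sum_apply]
  rw [Finset.sum_eq_single i]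
  · rw [Finset.sum_eq_single (QuotientGroup.mk g : G ⧸ H i)]
    · rw [QV4R_ind_pos rfl]
      rfl
    · intro q _ hq
      rw [QV4R_ind_neg _ (fun h => hq h.symm)]
    · intro h
      exact absurd (Finset.mem_univ _) h
  · intro i' _ hi'
    refine Finset.sum_eq_zero fun q _ => ?_
    rw [QV4R_ind_ne (fun h => hi' h.symm)]
  · intro h
    exact absurd (Finset.mem_univ _) h

end MP7b0bad

end
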