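import Pool.Agent.Work.MP_7b0bad_ag.Bd.B06
import Pool.Agent.Work.MP_7b0bad_ag.Bd.B03
import Pool.Agent.Work.MP_7b0bad_ag.Bd.B02
import Pool.Agent.Work.MP_7b0bad_ag.Bd.B04
import Pool.Agent.Work.MP_7b0bad_ag.Bd.B05
import Pool.Agent.Work.MP_7b0bad_ag.Bd.B07
import Pool.Agent.Work.MP_7b0bad_ag.Bd.B08
import Pool.Agent.Work.MP_7b0bad_ag.Bd.B09

/-! Bundle of small proof modules (one section per former module). -/

section

namespace MP7b0bad

open Polynomial

/-- the recursive polynomials -/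
noncomputable def QSF_P (k : Type) [Field k] (p : ℕ) (a : ℕ → k) : ℕ → k[X]
  | 0 => C (a 0) * X ^ p - 1
  | (i + 1) => (QSF_P k p a i) ^ p + C (a (i + 1)) * X ^ p

theorem QSF_der (k : Type) [Field k] (p : ℕ) [CharP k p] (a : ℕ → k) (i : ℕ) :
    derivative (QSF_P k p a i) = 0 := by
  have hp : ((p : ℕ) : k[X]) = 0 := by
    have := CharP.cast_eq_zero k[X] p
    exact this
  cases i with
  | zero =>
    simp only [QSF_P, derivative_sub, derivative_mul, derivative_C, zero_mul, zero_add,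
      derivative_X_pow, derivative_one, sub_zero]
    rw [show (C ((p : ℕ) : k) : k[X]) = 0 by rw [CharP.cast_eq_zero k p, C_0]]
    simp
  | succ i =>
    simp only [QSF_P, derivative_add, derivative_mul, derivative_C, zero_mul, zero_add,
      derivative_X_pow, derivative_pow]
    rw [show (C ((p : ℕ) : k) : k[X]) = 0 by rw [CharP.cast_eq_zero k p, C_0]]
    simp

theorem QSF_root (k : Type) [Field k] [IsAlgClosed k] (p : ℕ) [CharP k p] (a : ℕ → k) (i : ℕ) :
    ∃ t : k, (QSF_P k p a i).eval t = t := by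
  have hd : derivative (QSF_P k p a i - X) = -1 := by
    rw [derivative_sub, QSF_der, derivative_X, zero_sub]
  have hdeg : (QSF_P k p a i - X).degree ≠ 0 := by
    intro h
    have h0 : (QSF_P k p a i - X).natDegree = 0 := natDegree_eq_zero_iff_degree_le_zero.2 h.le
    obtain ⟨c, hc⟩ := natDegree_eq_zero.1 h0
    rw [← hc, derivative_C] at hd
    have : (1 : k[X]) = 0 := by
      have := congrArg Neg.neg hd
      simpa using this.symm
    exact one_ne_zero this
  obtain ⟨t, ht⟩ := IsAlgClosed.exists_root _ hdeg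
  refine ⟨t, ?_⟩
  have : (QSF_P k p a i - X).eval t = 0 := ht
  rw [eval_sub, eval_X, sub_eq_zero] at this
  exact this

theorem QSF_last (k W : Type) [Field k] [AddCommGroup W] [Module k W] (U : Submodule k W)
    (q : ℕ → W) (g : ℕ → k) (m : ℕ) (hs : ∑ i ∈ Finset.range m, g i • q i ∈ U)
    (hg : ∃ i < m, g i ≠ 0) :
    ∃ (N : ℕ) (a : ℕ → k), q N - ∑ i ∈ Finset.range N, a i • q i ∈ U := by
  induction m with
  | zero =>
    obtain ⟨i, hi, _⟩ := hg
    exact absurd hi (Nat.not_lt_zero i)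
  | succ m ih =>
    by_cases hm : g m = 0
    · apply ih
      · rwa [Finset.sum_range_succ, hm, zero_smul, add_zero] at hs
      · obtain ⟨i, hi, hi'⟩ := hg
        refine ⟨i, ?_, hi'⟩
        rcases Nat.lt_succ_iff_lt_or_eq.1 hi with h | h
        · exact h
        · exact absurd (h ▸ hm) hi'
    · refine ⟨m, fun i => -((g m)⁻¹ * g i), ?_⟩
      have h1 := U.smul_mem (g m)⁻¹ hs
      rw [Finset.sum_range_succ, smul_add, smul_smul, inv_mul_cancel₀ hm, one_smul,
        Finset.smul_sum] at h1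
      have h2 : q m - ∑ i ∈ Finset.range m, (-((g m)⁻¹ * g i)) • q i
          = ∑ i ∈ Finset.range m, (g m)⁻¹ • g i • q i + q m := by
        have h3 : ∑ i ∈ Finset.range m, (-((g m)⁻¹ * g i)) • q i
            = - ∑ i ∈ Finset.range m, (g m)⁻¹ • g i • q i := by
          rw [← Finset.sum_neg_distrib]
          apply Finset.sum_congr rfl
          intro i _
          rw [neg_smul, mul_smul]
        rw [h3]
        abel
      rw [h2]
      exact h1

theorem QSF_rel (k W : Type) [Field k] [AddCommGroup W] [Module k W] (U : Submodule k W)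
    (n : ℕ) (v : Fin n → W) (hv : ∀ w : W, ∃ a : Fin n → k, w - ∑ i, a i • v i ∈ U)
    (q : ℕ → W) :
    ∃ (N : ℕ) (a : ℕ → k), q N - ∑ i ∈ Finset.range N, a i • q i ∈ U := by
  classical
  have hspan : Submodule.span k (Set.range (fun i => U.mkQ (v i))) = ⊤ := by
    rw [eq_top_iff]
    rintro x -
    obtain ⟨w, rfl⟩ := U.mkQ_surjective x
    obtain ⟨a, ha⟩ := hv w
    have : U.mkQ w = ∑ i, a i • U.mkQ (v i) := by
      have h := (Submodule.Quotient.mk_eq_zero U).2 ha
      have h' : U.mkQ (w - ∑ i, a i • v i) = 0 := h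
      rw [map_sub, sub_eq_zero] at h'
      rw [h', map_sum]
      apply Finset.sum_congr rfl
      intro i _
      rw [map_smul]
    rw [this]
    apply Submodule.sum_mem
    intro i _
    apply Submodule.smul_mem
    exact Submodule.subset_span ⟨i, rfl⟩
  have hfin : Module.Finite k (W ⧸ U) := by
    rw [Module.finite_def, ← hspan]
    exact Submodule.fg_span (Set.finite_range _)
  have hrank : Module.finrank k (W ⧸ U) ≤ n := by
    have h := finrank_range_le_card (R := k) (fun i => U.mkQ (v i))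
    unfold Set.finrank at h
    rw [hspan, finrank_top] at h
    simpa using h
  have hli : ¬ LinearIndependent k (fun i : Fin (n + 1) => U.mkQ (q i)) := by
    intro h
    have := h.fintype_card_le_finrank
    rw [Fintype.card_fin] at this
    omega
  rw [Fintype.not_linearIndependent_iff] at hli
  obtain ⟨g, hg, i0, hi0⟩ := hli
  let g' : ℕ → k := fun i => if h : i < n + 1 then g ⟨i, h⟩ else 0
  apply QSF_last k W U q g' (n + 1)
  · rw [Finset.sum_range]
    rw [← Submodule.Quotient.mk_eq_zero U]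
    change U.mkQ _ = 0
    rw [map_sum, ← hg]
    apply Finset.sum_congr rfl
    intro i _
    rw [map_smul]
    congr 1
    simp only [g', i.2, dif_pos]
  · refine ⟨i0, i0.2, ?_⟩
    simp only [g', i0.2, dif_pos]
    exact hi0

theorem prf_QSF : QSF := by
  intro k _ _ p _ _ W _ _ F U n v hF _ hv w
  obtain ⟨N, a, ha⟩ := QSF_rel k W U n v hv (fun i => F^[i] w)
  cases N with
  | zero =>
    refine ⟨0, ?_⟩
    simpa using ha
  | succ M =>
    obtain ⟨t, ht⟩ := QSF_root k p a M
    let x : ℕ → k := fun i => (QSF_P k p a i).eval t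
    have hx0 : x 0 = a 0 * t ^ p - 1 := by simp [x, QSF_P]
    have hxs : ∀ i, x (i + 1) = x i ^ p + a (i + 1) * t ^ p := by
      intro i
      simp [x, QSF_P]
    have hxM : x M = t := ht
    refine ⟨∑ i ∈ Finset.range (M + 1), x i • F^[i] w, ?_⟩
    have hFh : F (∑ i ∈ Finset.range (M + 1), x i • F^[i] w)
        = ∑ i ∈ Finset.range M, x i ^ p • F^[i + 1] w + t ^ p • F^[M + 1] w := by
      rw [map_sum, Finset.sum_range_succ, hF, hxM, Function.iterate_succ_apply' F M w]
      congr 1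
      apply Finset.sum_congr rfl
      intro i _
      rw [hF, Function.iterate_succ_apply' F i w]
    have hh : ∑ i ∈ Finset.range (M + 1), x i • F^[i] w
        = ∑ i ∈ Finset.range M, x i ^ p • F^[i + 1] w
          + t ^ p • ∑ i ∈ Finset.range (M + 1), a i • F^[i] w - w := by
      rw [Finset.sum_range_succ', Finset.sum_range_succ' (fun i => a i • F^[i] w), hx0]
      have : ∑ i ∈ Finset.range M, x (i + 1) • F^[i + 1] w
          = ∑ i ∈ Finset.range M, x i ^ p • F^[i + 1] w
            + t ^ p • ∑ i ∈ Finset.range M, a (i + 1) • F^[i + 1] w := by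
        rw [Finset.smul_sum, ← Finset.sum_add_distrib]
        apply Finset.sum_congr rfl
        intro i _
        rw [hxs, add_smul, smul_smul, mul_comm (a (i + 1))]
      rw [this, smul_add, sub_smul, smul_smul, one_smul, mul_comm (a 0)]
      simp only [Function.iterate_zero, id_eq]
      abel
    have hgoal : w - (F (∑ i ∈ Finset.range (M + 1), x i • F^[i] w)
        - ∑ i ∈ Finset.range (M + 1), x i • F^[i] w)
        = -(t ^ p) • (F^[M + 1] w - ∑ i ∈ Finset.range (M + 1), a i • F^[i] w) := by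
      rw [hFh, hh, neg_smul, smul_sub]
      abel
    rw [hgoal]
    exact U.smul_mem _ ha

end MP7b0bad

end

section

set_option autoImplicit false

namespace MP7b0bad

open Polynomial

theorem prf_QSTN : QSTN := by
  intro κ _ C D _ _ _ _ q hq d j hj
  obtain ⟨n, c, hn, hdeg, hrel⟩ := hj
  set t : LaurentSeries κ := HahnSeries.single (d : ℤ) (1 : κ) with ht
  have htpow : ∀ m : ℕ, t ^ m = HahnSeries.single ((m * d : ℕ) : ℤ) (1 : κ) := by
    intro m
    rw [ht, HahnSeries.single_pow, one_pow]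
    congr 1
  refine ⟨n, fun i => t ^ ((i : ℕ) + 1) * atInf κ (c i), hn, ?_, ?_⟩
  · intro i m hm
    show (t ^ ((i : ℕ) + 1) * atInf κ (c i)).coeff m = 0
    rw [htpow]
    have h1 : (HahnSeries.single (((((i : ℕ) + 1) * d : ℕ)) : ℤ) (1 : κ) * atInf κ (c i)).coeff m
        = (atInf κ (c i)).coeff (m - ((((i : ℕ) + 1) * d : ℕ) : ℤ)) := by
      have := HahnSeries.coeff_single_mul_add (r := (1 : κ)) (x := atInf κ (c i))
        (a := m - ((((i : ℕ) + 1) * d : ℕ) : ℤ)) (b := ((((i : ℕ) + 1) * d : ℕ) : ℤ))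
      rw [sub_add_cancel, one_mul] at this
      exact this
    rw [h1, E7_atInf_coeff]
    split_ifs with h2
    · apply coeff_eq_zero_of_degree_lt
      refine lt_of_lt_of_le (hdeg i) ?_
      have h3 : (((i : ℕ) + 1) * d : ℕ) ≤ (-(m - ((((i : ℕ) + 1) * d : ℕ) : ℤ))).toNat := by
        omega
      exact_mod_cast h3
    · rfl
  · have h1 := congrArg (fun x => (algebraMap (LaurentSeries κ) D t) ^ n * q x) hrel
    simp only [map_add, map_pow, map_sum, map_mul, hq, map_zero, mul_zero] at h1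
    rw [← h1, mul_add, mul_pow, Finset.mul_sum]
    congr 1
    refine Finset.sum_congr rfl fun i _ => ?_
    rw [map_mul, map_pow, mul_pow]
    have h2 : n = ((i : ℕ) + 1) + (n - 1 - (i : ℕ)) := by
      have := i.2
      omega
    have h3 : (algebraMap (LaurentSeries κ) D t) ^ n =
        (algebraMap (LaurentSeries κ) D t) ^ ((i : ℕ) + 1) *
        (algebraMap (LaurentSeries κ) D t) ^ (n - 1 - (i : ℕ)) := by
      rw [← pow_add, ← h2]
    rw [h3]
    ring

end MP7b0bad

end

section

set_option autoImplicit false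

namespace MP7b0bad

open Polynomial

/-- polynomials over `κ[X]` whose coefficient of `Y^s` has degree at most `s e` -/
def QSmall_S (κ : Type) [Field κ] (e : ℕ) : Subring κ[X][X] where
  carrier := {F | ∀ s : ℕ, (F.coeff s).natDegree ≤ s * e}
  one_mem' := by
    intro s
    rw [Polynomial.coeff_one]
    split_ifs <;> simp
  zero_mem' := by intro s; simp
  mul_mem' := by
    intro F F' h h' s
    rw [Polynomial.coeff_mul]
    refine Polynomial.natDegree_sum_le_of_forall_le _ _ fun x hx => ?_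
    have hx' : x.1 + x.2 = s := Finset.HasAntidiagonal.mem_antidiagonal.1 hx
    refine le_trans Polynomial.natDegree_mul_le ?_
    have h1 := h x.1
    have h2 := h' x.2
    rw [← hx', add_mul]
    omega
  add_mem' := by
    intro F F' h h' s
    rw [Polynomial.coeff_add]
    exact (Polynomial.natDegree_add_le _ _).trans (max_le (h s) (h' s))
  neg_mem' := by
    intro F h s
    rw [Polynomial.coeff_neg, Polynomial.natDegree_neg]
    exact h s

theorem QSmall_det (κ : Type) [Field κ] (e n : ℕ) (M : Matrix (Fin n) (Fin n) κ[X][X])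
    (hM : ∀ i j, M i j ∈ QSmall_S κ e) : M.det ∈ QSmall_S κ e := by
  rw [Matrix.det_apply]
  refine Subring.sum_mem _ fun σ _ => ?_
  have h : ∏ i, M (σ i) i ∈ QSmall_S κ e := Subring.prod_mem _ fun i _ => hM _ _
  rcases Int.units_eq_one_or (Equiv.Perm.sign σ) with h1 | h1
  · rw [h1, one_smul]; exact h
  · rw [h1, Units.neg_smul, one_smul]; exact Subring.neg_mem _ h

theorem QSmall_charpoly (κ : Type) [Field κ] (e n : ℕ) (M : Matrix (Fin n) (Fin n) κ[X])
    (hM : ∀ i j, (M i j).natDegree ≤ e) (s : ℕ) (hs : s ≤ n) :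
    (M.charpoly.coeff (n - s)).natDegree ≤ s * e := by
  have h1 : M.charpolyRev ∈ QSmall_S κ e := by
    unfold Matrix.charpolyRev
    refine QSmall_det κ e n _ fun i j => ?_
    rw [Matrix.sub_apply]
    refine Subring.sub_mem _ ?_ ?_
    · rw [Matrix.one_apply]
      split_ifs
      · exact Subring.one_mem _
      · exact Subring.zero_mem _
    · intro t
      rw [Matrix.smul_apply, smul_eq_mul, Matrix.map_apply]
      rw [Polynomial.X_mul_C, Polynomial.coeff_C_mul, Polynomial.coeff_X]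
      split_ifs with h
      · rw [mul_one, ← h, one_mul]; exact hM i j
      · simp
  have h2 := h1 s
  rw [← Matrix.reverse_charpoly, Polynomial.coeff_reverse, Matrix.charpoly_natDegree_eq_dim,
    Fintype.card_fin, Polynomial.revAt_le hs] at h2
  exact h2

theorem prf_QSmall (hQLat : QLat) (_hQGL : QGL) : QSmall := by
  intro κ _ Γ _ _ C D _ _ _ _ _ _ q hC hD hq hqa n c
  classical
  obtain ⟨r0, -, -, -, hmul, -, -, -, -, huniq⟩ := hQLat κ Γ C D q hC hD hq hqa n c
  refine ⟨r0 + 1, fun j d hj => ?_⟩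
  have hnt : Nontrivial C := hC.inj.nontrivial
  have hn : 0 < n := by
    rcases Nat.eq_zero_or_pos n with h | h
    · subst h
      exfalso
      have h1 : (1 : C) = 0 := by
        rw [← c.sum_repr (1 : C)]
        simp
      exact one_ne_zero h1
    · exact h
  set A := Algebra.leftMulMatrix c j with hA
  -- entries
  have hent : ∀ l m (k : ℕ), d ≤ k → (A l m).coeff k = 0 := by
    intro l m k hk
    have hc0 : Lat (κ := κ) q c 0 (q (c m)) := by
      refine ⟨Pi.single m 1, ?_, ?_⟩
      · intro l' i hi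
        by_cases h : l' = m
        · subst h
          rw [Pi.single_eq_same, HahnSeries.coeff_one, if_neg (by omega)]
        · rw [Pi.single_eq_of_ne h, HahnSeries.coeff_zero]
      · rw [Finset.sum_eq_single m]
        · rw [Pi.single_eq_same, map_one, one_mul]
        · intro b _ hb
          rw [Pi.single_eq_of_ne hb, map_zero, zero_mul]
        · simp
    obtain ⟨h, hh, he⟩ := hmul _ _ _ _ hj hc0
    have h1 : q j * q (c m) = ∑ l, algebraMap (LaurentSeries κ) D (atInf κ (A l m)) * q (c l) := by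
      rw [← map_mul]
      have h2 : j * c m = ∑ l, (A l m) • c l := by
        conv_lhs => rw [← c.sum_repr (j * c m)]
        refine Finset.sum_congr rfl fun l _ => ?_
        rw [hA, Algebra.leftMulMatrix_eq_repr_mul]
      rw [h2, map_sum]
      refine Finset.sum_congr rfl fun l _ => ?_
      rw [Algebra.smul_def, map_mul, hq]
    have h3 := huniq h (fun l => atInf κ (A l m)) (by rw [← he, h1])
    have h4 := hh l (-(k : ℤ)) (by push_cast; omega)
    rw [h3] at h4
    have h5 := C2b_atInf_coeff κ (A l m) (-(k : ℤ))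
    rw [h4] at h5
    simpa using h5.symm
  rcases Nat.eq_zero_or_pos d with hd | hd
  · -- `d = 0`
    have hA0 : A = 0 := by
      refine Matrix.ext fun l m => Polynomial.ext fun k => ?_
      rw [hent l m k (by omega)]
      simp
    have hj0 : j = 0 := by
      apply Algebra.leftMulMatrix_injective c
      rw [map_zero, ← hA, hA0]
    refine ⟨1, fun _ => 0, one_pos, fun i => ?_, ?_⟩
    · rw [Polynomial.degree_zero]; exact WithBot.bot_lt_coe _
    · rw [hj0]; simp
  · have hdeg : ∀ l m, (A l m).natDegree ≤ d - 1 := by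
      intro l m
      rw [Polynomial.natDegree_le_iff_coeff_eq_zero]
      intro N hN
      exact hent l m N (by omega)
    refine ⟨n, fun i => A.charpoly.coeff (n - 1 - (i : ℕ)), hn, fun i => ?_, ?_⟩
    · have h1 := QSmall_charpoly κ (d - 1) n A hdeg ((i : ℕ) + 1) i.2
      have h2 : n - ((i : ℕ) + 1) = n - 1 - (i : ℕ) := by omega
      rw [h2] at h1
      refine lt_of_le_of_lt Polynomial.degree_le_natDegree ?_
      have h3 : ((i : ℕ) + 1) * (d - 1) < ((i : ℕ) + 1) * d :=
        Nat.mul_lt_mul_of_pos_left (by omega) (by omega)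
      exact_mod_cast lt_of_le_of_lt h1 h3
    · have h1 : aeval j A.charpoly = 0 := by
        apply Algebra.leftMulMatrix_injective c
        rw [← Polynomial.aeval_algHom_apply, map_zero]
        exact Matrix.aeval_self_charpoly _
      have h2 : A.charpoly.natDegree = n := by
        rw [Matrix.charpoly_natDegree_eq_dim, Fintype.card_fin]
      rw [Polynomial.aeval_eq_sum_range' (n := n + 1) (by omega), Finset.sum_range_succ] at h1
      have h3 : A.charpoly.coeff n = 1 := by
        have := A.charpoly_monic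
        rw [Polynomial.Monic, Polynomial.leadingCoeff, h2] at this
        exact this
      rw [h3, one_smul, add_comm] at h1
      rw [← h1]
      congr 1
      rw [← Finset.sum_range_reflect, Finset.sum_range]
      refine Finset.sum_congr rfl fun i _ => ?_
      rw [Algebra.smul_def]

end MP7b0bad

end

section

set_option autoImplicit false

namespace MP7b0bad

open Polynomial

theorem prf_QSpr (hQFree : QFree) : QSpr := by
  intro k K _ _ _ G _ _ B _ _ _ hgal ZB ZK
  classical
  have := gal_finite hgal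
  have := hQFree K G B hgal
  have : Fintype G := Fintype.ofFinite G
  have hcomm := hgal.comm
  set n := Module.finrank K[X] B with hn
  let b : Module.Basis (Fin n) K[X] B := Module.finBasis K[X] B
  obtain ⟨θ, hθ⟩ := gal_trace_one hgal
  choose t ht using fun l => gal_trace hgal (b l * θ)
  choose nn aa bb hab using fun (σ : G) (hσ : σ ≠ 1) => TII_unr σ (hgal.unr σ hσ)
  let Zu : Finset B := Finset.univ.biUnion fun σ : G =>
    if hσ : σ ≠ 1 then Finset.univ.image (aa σ hσ) ∪ Finset.univ.image (bb σ hσ) else ∅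
  have hZu : ∀ (σ : G) (hσ : σ ≠ 1) (j : Fin (nn σ hσ)), aa σ hσ j ∈ Zu ∧ bb σ hσ j ∈ Zu := by
    intro σ hσ j
    constructor
    · refine Finset.mem_biUnion.2 ⟨σ, Finset.mem_univ _, ?_⟩
      rw [dif_pos hσ]
      exact Finset.mem_union_left _ (Finset.mem_image.2 ⟨j, Finset.mem_univ _, rfl⟩)
    · refine Finset.mem_biUnion.2 ⟨σ, Finset.mem_univ _, ?_⟩
      rw [dif_pos hσ]
      exact Finset.mem_union_right _ (Finset.mem_image.2 ⟨j, Finset.mem_univ _, rfl⟩)
  let Z : Finset B := ZB ∪ {1} ∪ Finset.univ.image (fun ij : Fin n × Fin n => b ij.1 * b ij.2) ∪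
    Finset.univ.image (fun gi : G × Fin n => gi.1 • b gi.2) ∪ Zu
  let T : Finset K := ZK ∪ Z.biUnion (fun z => Finset.univ.biUnion fun i => (b.repr z i).coeffs) ∪
    Finset.univ.biUnion fun l => (t l).coeffs
  let R' : Subalgebra k K := Algebra.adjoin k (T : Set K)
  have hT : ∀ z ∈ T, z ∈ R' := fun z hz => Algebra.subset_adjoin hz
  have hZ : ∀ z ∈ Z, ∀ i, b.repr z i ∈ E8_P R' := by
    intro z hz i
    refine E8_mem_P R' _ fun m => ?_
    by_cases h0 : (b.repr z i).coeff m = 0
    · rw [h0]; exact R'.zero_mem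
    · apply hT
      refine Finset.mem_union_left _ (Finset.mem_union_right _ (Finset.mem_biUnion.2 ⟨z, hz,
        Finset.mem_biUnion.2 ⟨i, Finset.mem_univ _, ?_⟩⟩))
      exact Polynomial.coeff_mem_coeffs h0
  have htP : ∀ l, t l ∈ E8_P R' := by
    intro l
    refine E8_mem_P R' _ fun m => ?_
    by_cases h0 : (t l).coeff m = 0
    · rw [h0]; exact R'.zero_mem
    · exact hT _ (Finset.mem_union_right _ (Finset.mem_biUnion.2 ⟨l, Finset.mem_univ _,
        Polynomial.coeff_mem_coeffs h0⟩))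
  have h1 : ∀ i, b.repr 1 i ∈ E8_P R' := hZ 1 (by simp [Z])
  have hm : ∀ i j l, b.repr (b i * b j) l ∈ E8_P R' := fun i j => hZ _ (by
    refine Finset.mem_union_left _ (Finset.mem_union_left _ (Finset.mem_union_right _
      (Finset.mem_image.2 ⟨(i, j), ?_, rfl⟩)))
    exact Finset.mem_univ _)
  have hg : ∀ (g : G) (i l), b.repr (g • b i) l ∈ E8_P R' := fun g i => hZ _ (by
    refine Finset.mem_union_left _ (Finset.mem_union_right _ (Finset.mem_image.2 ⟨(g, i), ?_, rfl⟩))
    exact Finset.mem_univ _)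
  have hgB : ∀ (g : G) (y : B), y ∈ E8_B b R' h1 hm → g • y ∈ E8_B b R' h1 hm := by
    intro g y hy l
    have h : g • y = ∑ i, b.repr y i • (g • b i) := by
      conv_lhs => rw [← b.sum_repr y]
      rw [Finset.smul_sum]
      refine Finset.sum_congr rfl fun i _ => ?_
      rw [Algebra.smul_def, Algebra.smul_def, smul_mul', hcomm]
    rw [h]
    simp only [map_sum, map_smul, Finsupp.coe_finsetSum, Finset.sum_apply, Finsupp.smul_apply,
      smul_eq_mul]
    exact (E8_P R').sum_mem fun i _ => (E8_P R').mul_mem (hy i) (hg g i l)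
  have halg : ∀ a : R'[X], algebraMap K[X] B (a.map (algebraMap R' K)) ∈ E8_B b R' h1 hm := by
    intro a i
    rw [Algebra.algebraMap_eq_smul_one, map_smul, Finsupp.smul_apply, smul_eq_mul]
    exact (E8_P R').mul_mem (E8_map_mem R' a) (h1 i)
  refine ⟨R', Subalgebra.fg_adjoin_finset T, fun z hz => hT z (Finset.mem_union_left _
    (Finset.mem_union_left _ hz)), ?_⟩
  let B' := E8_B b R' h1 hm
  let φ : R'[X] →+* B' :=
    ((algebraMap K[X] B).comp (Polynomial.mapRingHom (algebraMap R' K))).codRestrict B' halg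
  let alg : Algebra R'[X] B' := φ.toAlgebra
  let act : MulSemiringAction G B' :=
    { smul := fun g y => ⟨g • (y : B), hgB g y y.2⟩
      one_smul := fun y => Subtype.ext (one_smul G (y : B))
      mul_smul := fun g h y => Subtype.ext (mul_smul g h (y : B))
      smul_zero := fun g => Subtype.ext (smul_zero g)
      smul_add := fun g x y => Subtype.ext (smul_add g (x : B) (y : B))
      smul_one := fun g => Subtype.ext (smul_one g)
      smul_mul := fun g x y => Subtype.ext (smul_mul' g (x : B) (y : B)) }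
  have hinjmap : Function.Injective (algebraMap R' K) := Subtype.val_injective
  have hmemZ : ∀ z ∈ Z, z ∈ B' := fun z hz => hZ z hz
  refine ⟨B', inferInstance, alg, act, B'.subtype, Subtype.val_injective, fun a => rfl,
    fun g y => rfl, ⟨?_, ?_, ?_, ?_⟩, ?_⟩
  · intro g a
    exact Subtype.ext (hcomm g _)
  · intro a a' haa
    have h2 : algebraMap K[X] B (a.map (algebraMap R' K)) =
        algebraMap K[X] B (a'.map (algebraMap R' K)) := congrArg Subtype.val haa
    exact Polynomial.map_injective _ hinjmap (hgal.inj h2)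
  · intro y hy
    have hy' : ∀ g : G, g • (y : B) = y := fun g => congrArg Subtype.val (hy g)
    obtain ⟨f, hf⟩ := hgal.inv (y : B) hy'
    have h2 : (y : B) = algebraMap K[X] B (∑ l, b.repr (y : B) l * t l) := by
      have h3 : (y : B) = ∑ g : G, g • ((y : B) * θ) := by
        simp only [smul_mul', hy']
        rw [← Finset.mul_sum, hθ, mul_one]
      have h4 : (y : B) * θ = ∑ l, algebraMap K[X] B (b.repr (y : B) l) * (b l * θ) := by
        conv_lhs => rw [← b.sum_repr (y : B)]
        rw [Finset.sum_mul]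
        refine Finset.sum_congr rfl fun l _ => ?_
        rw [Algebra.smul_def, mul_assoc]
      refine h3.trans ?_
      rw [h4]
      simp only [Finset.smul_sum]
      rw [Finset.sum_comm, map_sum]
      refine Finset.sum_congr rfl fun l _ => ?_
      rw [map_mul, ht l, Finset.mul_sum]
      refine Finset.sum_congr rfl fun g _ => ?_
      rw [smul_mul', hcomm]
    have h5 : (∑ l, b.repr (y : B) l * t l) ∈ E8_P R' :=
      (E8_P R').sum_mem fun l _ => (E8_P R').mul_mem (y.2 l) (htP l)
    obtain ⟨a, ha⟩ := h5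
    refine ⟨a, Subtype.ext ?_⟩
    rw [h2, ← ha]
    rfl
  · intro σ hσ
    have h2 := hab σ hσ
    refine TII_unr' σ (nn σ hσ) (fun j => (⟨aa σ hσ j, hmemZ _ (Finset.mem_union_right _
      (hZu σ hσ j).1)⟩ : B')) (fun j => (⟨bb σ hσ j, hmemZ _ (Finset.mem_union_right _
      (hZu σ hσ j).2)⟩ : B')) (Subtype.ext ?_)
    rw [AddSubmonoidClass.coe_finsetSum]
    exact h2
  · intro z hz
    exact ⟨⟨z, hZ z (by simp [Z, hz])⟩, rfl⟩

end MP7b0bad

end

section

set_option autoImplicit false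

namespace MP7b0bad

open Polynomial

/-- the equation with coefficients supported in `≥ k` -/
def QTN_Q {κ : Type} [Field κ] {D : Type} [CommRing D] [Algebra (LaurentSeries κ) D] (k : ℕ)
    (z : D) : Prop :=
  ∃ (n : ℕ) (c : Fin n → LaurentSeries κ), 0 < n ∧
    (∀ (i : Fin n) (m : ℤ), m < (k : ℤ) → (c i).coeff m = 0) ∧
    z ^ n + ∑ i : Fin n, algebraMap (LaurentSeries κ) D (c i) * z ^ (n - 1 - (i : ℕ)) = 0

theorem QTN_Q0 {κ : Type} [Field κ] {D : Type} [CommRing D] [Algebra (LaurentSeries κ) D] (z : D) :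
    IntL (κ := κ) z ↔ QTN_Q (κ := κ) 0 z := by
  unfold IntL QTN_Q
  simp

theorem QTN_Q1 {κ : Type} [Field κ] {D : Type} [CommRing D] [Algebra (LaurentSeries κ) D] (z : D) :
    TN (κ := κ) z ↔ QTN_Q (κ := κ) 1 z := by
  unfold TN QTN_Q
  constructor
  · rintro ⟨n, c, h1, h2, h3⟩
    exact ⟨n, c, h1, fun i m hm => h2 i m (by push_cast at hm; omega), h3⟩
  · rintro ⟨n, c, h1, h2, h3⟩
    exact ⟨n, c, h1, fun i m hm => h2 i m (by push_cast; omega), h3⟩

/-- the structure map of `κ[[ξ]]` -/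
noncomputable def QTN_f (κ : Type) [Field κ] (D : Type) [CommRing D]
    [Algebra (LaurentSeries κ) D] : PowerSeries κ →+* D :=
  (algebraMap (LaurentSeries κ) D).comp (HahnSeries.ofPowerSeries ℤ κ)

theorem QTN_ps {κ : Type} [Field κ] (g : LaurentSeries κ) (hg : ∀ m : ℤ, m < 0 → g.coeff m = 0) :
    HahnSeries.ofPowerSeries ℤ κ (PowerSeries.mk fun i => g.coeff (i : ℤ)) = g := by
  ext m
  have h := PowerSeries.coeff_coe (R := κ) (PowerSeries.mk fun i => g.coeff (i : ℤ)) m
  rw [h]
  split_ifs with hm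
  · exact (hg m (by omega)).symm
  · rw [PowerSeries.coeff_mk, Int.natAbs_of_nonneg (by omega)]

/-- the polynomial form -/
def QTN_R {κ : Type} [Field κ] {D : Type} [CommRing D] [Algebra (LaurentSeries κ) D] (k : ℕ)
    (z : D) : Prop :=
  ∃ p : (PowerSeries κ)[X], p.Monic ∧ 0 < p.natDegree ∧
    (∀ i < p.natDegree, (PowerSeries.X : PowerSeries κ) ^ k ∣ p.coeff i) ∧
    p.eval₂ (QTN_f κ D) z = 0

theorem QTN_QR {κ : Type} [Field κ] {D : Type} [CommRing D] [Algebra (LaurentSeries κ) D] (k : ℕ)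
    (z : D) : QTN_Q (κ := κ) k z ↔ QTN_R (κ := κ) k z := by
  constructor
  · rintro ⟨n, c, h1, h2, h3⟩
    have hc : ∀ i, ∃ u : PowerSeries κ, HahnSeries.ofPowerSeries ℤ κ u = c i ∧
        (PowerSeries.X : PowerSeries κ) ^ k ∣ u := by
      intro i
      refine ⟨PowerSeries.mk fun j => (c i).coeff (j : ℤ), QTN_ps _ fun m hm => h2 i m (by omega), ?_⟩
      rw [PowerSeries.X_pow_dvd_iff]
      intro m hm
      rw [PowerSeries.coeff_mk]
      exact h2 i m (by exact_mod_cast hm)
    choose u hu1 hu2 using hc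
    set q : (PowerSeries κ)[X] := ∑ i : Fin n, C (u i) * X ^ (n - 1 - (i : ℕ)) with hq
    have hdq : q.degree < n := by
      rw [← mem_degreeLT]
      refine Submodule.sum_mem _ fun i _ => mem_degreeLT.2 ?_
      refine lt_of_le_of_lt (degree_C_mul_X_pow_le _ _) ?_
      have : n - 1 - (i : ℕ) < n := by omega
      exact_mod_cast this
    have hmon : (X ^ n + q).Monic := monic_X_pow_add hdq
    have hnat : (X ^ n + q).natDegree = n := by
      rw [natDegree_add_eq_left_of_degree_lt, natDegree_X_pow]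
      rw [degree_X_pow]
      exact hdq
    refine ⟨X ^ n + q, hmon, by rw [hnat]; exact h1, ?_, ?_⟩
    · intro i hi
      rw [hnat] at hi
      rw [coeff_add, coeff_X_pow, if_neg (by omega), zero_add, hq, finsetSum_coeff]
      refine Finset.dvd_sum fun j _ => ?_
      rw [coeff_C_mul, coeff_X_pow]
      split_ifs
      · rw [mul_one]; exact hu2 j
      · simp
    · rw [eval₂_add, eval₂_X_pow, hq, eval₂_finsetSum]
      rw [← h3]
      congr 1
      refine Finset.sum_congr rfl fun i _ => ?_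
      rw [eval₂_mul, eval₂_C, eval₂_X_pow]
      congr 1
      change algebraMap (LaurentSeries κ) D (HahnSeries.ofPowerSeries ℤ κ (u i)) = _
      rw [hu1]
  · rintro ⟨p, h1, h2, h3, h4⟩
    refine ⟨p.natDegree, fun i => HahnSeries.ofPowerSeries ℤ κ (p.coeff (p.natDegree - 1 - (i : ℕ))),
      h2, ?_, ?_⟩
    · intro i m hm
      have h5 := h3 (p.natDegree - 1 - (i : ℕ)) (by omega)
      rw [PowerSeries.X_pow_dvd_iff] at h5
      have h := PowerSeries.coeff_coe (R := κ) (p.coeff (p.natDegree - 1 - (i : ℕ))) m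
      rw [h]
      split_ifs with hm0
      · rfl
      · exact h5 _ (by omega)
    · rw [eval₂_eq_sum_range, Finset.sum_range_succ] at h4
      have h5 : p.coeff p.natDegree = 1 := h1
      rw [h5, map_one, one_mul, add_comm] at h4
      rw [← h4]
      congr 1
      rw [← Finset.sum_range_reflect, Finset.sum_range]
      rfl

theorem QTN_int {κ : Type} [Field κ] {D : Type} [CommRing D] [Algebra (LaurentSeries κ) D]
    (z : D) : QTN_R (κ := κ) 0 z ↔ (QTN_f κ D).IsIntegralElem z := by
  constructor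
  · rintro ⟨p, h1, -, -, h4⟩
    exact ⟨p, h1, h4⟩
  · rintro ⟨p, h1, h4⟩
    refine ⟨p * X, h1.mul monic_X, ?_, fun i _ => by simp, ?_⟩
    · rw [natDegree_mul_X h1.ne_zero]
      omega
    · rw [eval₂_mul, h4, zero_mul]

theorem QTN_intL {κ : Type} [Field κ] {D : Type} [CommRing D] [Algebra (LaurentSeries κ) D]
    (z : D) : IntL (κ := κ) z ↔ (QTN_f κ D).IsIntegralElem z := by
  rw [QTN_Q0, QTN_QR, QTN_int]

/-- `ξ` times integral -/
def QTN_J {κ : Type} [Field κ] {D : Type} [CommRing D] [Algebra (LaurentSeries κ) D] (x : D) :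
    Prop :=
  ∃ w : D, (QTN_f κ D).IsIntegralElem w ∧
    x = algebraMap (LaurentSeries κ) D (HahnSeries.single (1 : ℤ) (1 : κ)) * w

theorem QTN_J_add {κ : Type} [Field κ] {D : Type} [CommRing D] [Algebra (LaurentSeries κ) D]
    (x y : D) (hx : QTN_J (κ := κ) x) (hy : QTN_J (κ := κ) y) : QTN_J (κ := κ) (x + y) := by
  obtain ⟨w, h1, rfl⟩ := hx
  obtain ⟨w', h1', rfl⟩ := hy
  exact ⟨w + w', h1.add _ h1', by ring⟩

theorem QTN_J_mul {κ : Type} [Field κ] {D : Type} [CommRing D] [Algebra (LaurentSeries κ) D]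
    (x y : D) (hx : QTN_J (κ := κ) x) (hy : (QTN_f κ D).IsIntegralElem y) :
    QTN_J (κ := κ) (x * y) := by
  obtain ⟨w, h1, rfl⟩ := hx
  exact ⟨w * y, h1.mul _ hy, by ring⟩

theorem QTN_J_zero {κ : Type} [Field κ] {D : Type} [CommRing D] [Algebra (LaurentSeries κ) D] :
    QTN_J (κ := κ) (0 : D) :=
  ⟨0, RingHom.isIntegralElem_zero _, by ring⟩

theorem QTN_pow {κ : Type} [Field κ] {D : Type} [CommRing D] [Algebra (LaurentSeries κ) D]
    (y : D) (hy : (QTN_f κ D).IsIntegralElem y) (n : ℕ) : (QTN_f κ D).IsIntegralElem (y ^ n) := by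
  induction n with
  | zero => rw [pow_zero]; exact RingHom.isIntegralElem_one _
  | succ n ih => rw [pow_succ]; exact ih.mul _ hy

theorem QTN_tn_int {κ : Type} [Field κ] {D : Type} [CommRing D] [Algebra (LaurentSeries κ) D]
    (z : D) (hz : TN (κ := κ) z) : (QTN_f κ D).IsIntegralElem z := by
  rw [QTN_Q1, QTN_QR] at hz
  obtain ⟨p, h1, -, -, h4⟩ := hz
  exact ⟨p, h1, h4⟩

theorem QTN_key {κ : Type} [Field κ] {D : Type} [CommRing D] [Algebra (LaurentSeries κ) D]
    (z : D) : TN (κ := κ) z ↔ ∃ N : ℕ, 0 < N ∧ QTN_J (κ := κ) (z ^ N) := by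
  constructor
  · intro hz
    have hzi := QTN_tn_int z hz
    rw [QTN_Q1, QTN_QR] at hz
    obtain ⟨p, h1, h2, h3, h4⟩ := hz
    refine ⟨p.natDegree, h2, ?_⟩
    rw [eval₂_eq_sum_range, Finset.sum_range_succ] at h4
    have h5 : p.coeff p.natDegree = 1 := h1
    rw [h5, map_one, one_mul] at h4
    have h6 : z ^ p.natDegree = ∑ i ∈ Finset.range p.natDegree,
        (QTN_f κ D (p.coeff i) * z ^ i) * (-1) := by
      rw [← Finset.sum_mul]
      linear_combination h4
    rw [h6]
    refine Finset.sum_induction _ (QTN_J (κ := κ)) (fun a b => QTN_J_add a b) QTN_J_zero ?_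
    intro i hi
    obtain ⟨u, hu⟩ := h3 i (Finset.mem_range.1 hi)
    rw [pow_one] at hu
    refine QTN_J_mul _ _ (QTN_J_mul _ _ ?_ (QTN_pow z hzi i)) ((RingHom.isIntegralElem_one _).neg)
    refine ⟨QTN_f κ D u, RingHom.isIntegralElem_map _, ?_⟩
    rw [hu, map_mul]
    congr 1
    change algebraMap (LaurentSeries κ) D (HahnSeries.ofPowerSeries ℤ κ PowerSeries.X) = _
    rw [HahnSeries.ofPowerSeries_X]
  · rintro ⟨N, hN, w, hw, hzw⟩
    rw [QTN_Q1, QTN_QR]
    rw [← QTN_int] at hw
    obtain ⟨p, h1, h2, -, h4⟩ := hw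
    have hq1 : (scaleRoots p (PowerSeries.X : PowerSeries κ)).Monic :=
      (monic_scaleRoots_iff _).2 h1
    have hq2 : (scaleRoots p (PowerSeries.X : PowerSeries κ)).natDegree = p.natDegree :=
      natDegree_scaleRoots _ _
    refine ⟨expand _ N (scaleRoots p (PowerSeries.X : PowerSeries κ)), hq1.expand hN, ?_, ?_, ?_⟩
    · rw [natDegree_expand, hq2]
      exact Nat.mul_pos h2 hN
    · intro i hi
      rw [natDegree_expand, hq2] at hi
      rw [pow_one, coeff_expand hN]
      split_ifs with hd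
      · rw [coeff_scaleRoots]
        have h5 : i / N < p.natDegree := Nat.div_lt_of_lt_mul (by rwa [mul_comm])
        exact Dvd.dvd.mul_left (dvd_pow_self _ (by omega)) _
      · exact dvd_zero _
    · rw [expand_eq_comp_X_pow, eval₂_comp, eval₂_X_pow, hzw]
      have h6 := scaleRoots_eval₂_eq_zero (QTN_f κ D) (s := (PowerSeries.X : PowerSeries κ)) h4
      have h7 : QTN_f κ D PowerSeries.X =
          algebraMap (LaurentSeries κ) D (HahnSeries.single (1 : ℤ) (1 : κ)) := by
        change algebraMap (LaurentSeries κ) D (HahnSeries.ofPowerSeries ℤ κ PowerSeries.X) = _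
        rw [HahnSeries.ofPowerSeries_X]
      rw [h7] at h6
      exact h6

theorem QTN_add {κ : Type} [Field κ] {D : Type} [CommRing D] [Algebra (LaurentSeries κ) D]
    (z z' : D) (hz : TN (κ := κ) z) (hz' : TN (κ := κ) z') : TN (κ := κ) (z + z') := by
  have hi := QTN_tn_int z hz
  have hi' := QTN_tn_int z' hz'
  rw [QTN_key] at hz hz' ⊢
  obtain ⟨N, hN, h1⟩ := hz
  obtain ⟨N', hN', h1'⟩ := hz'
  refine ⟨N + N', by omega, ?_⟩
  rw [add_pow]
  refine Finset.sum_induction _ (QTN_J (κ := κ)) (fun a b => QTN_J_add a b) QTN_J_zero ?_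
  intro m hm
  have hm' := Finset.mem_range.1 hm
  have hc : (QTN_f κ D).IsIntegralElem (((N + N').choose m : ℕ) : D) := by
    have h := RingHom.isIntegralElem_map (QTN_f κ D) (x := (((N + N').choose m : ℕ) : PowerSeries κ))
    rwa [map_natCast] at h
  refine QTN_J_mul _ _ ?_ hc
  rcases le_or_gt N m with h | h
  · have h2 : z ^ m * z' ^ (N + N' - m) = z ^ N * (z ^ (m - N) * z' ^ (N + N' - m)) := by
      rw [← mul_assoc, ← pow_add]
      congr 2
      omega
    rw [h2]
    exact QTN_J_mul _ _ h1 ((QTN_pow z hi _).mul _ (QTN_pow z' hi' _))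
  · have h2 : z ^ m * z' ^ (N + N' - m) = z' ^ N' * (z ^ m * z' ^ (N - m)) := by
      rw [mul_left_comm, ← pow_add]
      congr 2
      omega
    rw [h2]
    exact QTN_J_mul _ _ h1' ((QTN_pow z hi _).mul _ (QTN_pow z' hi' _))

theorem prf_QTN : QTN := by
  intro κ _ Γ _ _ D _ _ _ hG
  refine ⟨?_, QTN_add, ?_, ?_, ?_, ?_, ?_, ?_, ?_⟩
  · intro z z' hz hz'
    rw [QTN_intL] at hz hz'
    rw [QTN_intL, QTN_intL, QTN_intL]
    exact ⟨hz.add _ hz', hz.mul _ hz', hz.neg⟩
  · intro z z' hz hz'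
    rw [QTN_intL] at hz'
    rw [QTN_key] at hz ⊢
    obtain ⟨N, hN, h1⟩ := hz
    refine ⟨N, hN, ?_⟩
    rw [mul_pow]
    exact QTN_J_mul _ _ h1 (QTN_pow z' hz' N)
  · intro z hz
    rw [QTN_intL]
    exact QTN_tn_int z hz
  · rintro z γ ⟨n, c, h1, h2, h3⟩
    refine ⟨n, c, h1, h2, ?_⟩
    have h4 : γ • (z ^ n + ∑ i : Fin n, algebraMap (LaurentSeries κ) D (c i) *
        z ^ (n - 1 - (i : ℕ))) = 0 := by rw [h3, smul_zero]
    rw [smul_add, smul_pow', Finset.smul_sum] at h4
    rw [← h4]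
    congr 1
    refine Finset.sum_congr rfl fun i _ => ?_
    rw [smul_mul', hG.comm, smul_pow']
  · intro z n hz
    rw [QTN_key] at hz ⊢
    obtain ⟨N, hN, h1⟩ := hz
    refine ⟨(n + 1) * N, Nat.mul_pos (Nat.succ_pos n) hN, ?_⟩
    rw [pow_mul]
    exact h1
  · intro z hz
    have h := QTN_tn_int _ hz
    rw [QTN_intL]
    obtain ⟨p, h1, h4⟩ := h
    have hd : (X ^ 2 - X : (PowerSeries κ)[X]).natDegree = 2 := by
      rw [natDegree_sub_eq_left_of_natDegree_lt] <;> simp
    have hm : (X ^ 2 - X : (PowerSeries κ)[X]).Monic := by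
      refine monic_X_pow_sub ?_
      rw [degree_X]
      norm_num
    refine ⟨p.comp (X ^ 2 - X), h1.comp hm (by rw [hd]; norm_num), ?_⟩
    rw [eval₂_comp, eval₂_sub, eval₂_X_pow, eval₂_X, sq]
    exact h4
  · rintro z ⟨n, c, h1, h2, h3⟩
    set P : D[X] := X ^ n + ∑ i : Fin n, C (algebraMap (LaurentSeries κ) D (c i)) *
      X ^ (n - 1 - (i : ℕ)) with hP
    have h4 : P.eval z = 0 := by
      rw [← h3, hP, eval_add, eval_pow, eval_X, eval_finsetSum]
      congr 1
      refine Finset.sum_congr rfl fun i _ => ?_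
      rw [eval_mul, eval_C, eval_pow, eval_X]
    have h5 : P.eval 1 = algebraMap (LaurentSeries κ) D (1 + ∑ i, c i) := by
      rw [hP, eval_add, eval_pow, eval_X, eval_finsetSum, map_add, map_one, one_pow, map_sum]
      congr 1
      refine Finset.sum_congr rfl fun i _ => ?_
      rw [eval_mul, eval_C, eval_pow, eval_X, one_pow, mul_one]
    have h6 : (1 + ∑ i, c i : LaurentSeries κ) ≠ 0 := by
      intro h
      have h7 : (1 + ∑ i, c i : LaurentSeries κ).coeff 0 = 0 := by rw [h]; rfl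
      rw [HahnSeries.coeff_add, HahnSeries.coeff_one, if_pos rfl, HahnSeries.coeff_sum,
        Finset.sum_eq_zero fun i _ => h2 i 0 le_rfl, add_zero] at h7
      exact one_ne_zero h7
    have h7 : IsUnit (algebraMap (LaurentSeries κ) D (1 + ∑ i, c i)) :=
      (isUnit_iff_ne_zero.2 h6).map _
    have h8 := Polynomial.sub_dvd_eval_sub 1 z P
    rw [h4, h5, sub_zero] at h8
    exact isUnit_of_dvd_unit h8 h7
  · intro z hzz hz
    have h8 : IsUnit (1 - z) := by
      obtain ⟨n, c, h1, h2, h3⟩ := hz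
      set P : D[X] := X ^ n + ∑ i : Fin n, C (algebraMap (LaurentSeries κ) D (c i)) *
        X ^ (n - 1 - (i : ℕ)) with hP
      have h4 : P.eval z = 0 := by
        rw [← h3, hP, eval_add, eval_pow, eval_X, eval_finsetSum]
        congr 1
        refine Finset.sum_congr rfl fun i _ => ?_
        rw [eval_mul, eval_C, eval_pow, eval_X]
      have h5 : P.eval 1 = algebraMap (LaurentSeries κ) D (1 + ∑ i, c i) := by
        rw [hP, eval_add, eval_pow, eval_X, eval_finsetSum, map_add, map_one, one_pow, map_sum]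
        congr 1
        refine Finset.sum_congr rfl fun i _ => ?_
        rw [eval_mul, eval_C, eval_pow, eval_X, one_pow, mul_one]
      have h6 : (1 + ∑ i, c i : LaurentSeries κ) ≠ 0 := by
        intro h
        have h7 : (1 + ∑ i, c i : LaurentSeries κ).coeff 0 = 0 := by rw [h]; rfl
        rw [HahnSeries.coeff_add, HahnSeries.coeff_one, if_pos rfl, HahnSeries.coeff_sum,
          Finset.sum_eq_zero fun i _ => h2 i 0 le_rfl, add_zero] at h7
        exact one_ne_zero h7
      have h7 : IsUnit (algebraMap (LaurentSeries κ) D (1 + ∑ i, c i)) :=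
        (isUnit_iff_ne_zero.2 h6).map _
      have h8 := Polynomial.sub_dvd_eval_sub 1 z P
      rw [h4, h5, sub_zero] at h8
      exact isUnit_of_dvd_unit h8 h7
    have h9 : z * (1 - z) = 0 * (1 - z) := by linear_combination -hzz
    exact h8.mul_right_cancel h9

end MP7b0bad

end

section

set_option autoImplicit false

namespace MP7b0bad

open Polynomial

/-- reduction of the leading exponent -/
theorem QTRk_red {k : Type} [Field k] [IsAlgClosed k] {p : ℕ} [Fact p.Prime] [CharP k p]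
    [CharP (LaurentSeries k) p] (n : ℕ) : ∀ (f : k[X]), f.natDegree ≤ n →
    ∃ (f' : k[X]) (h : LaurentSeries k), atInf k f = atInf k f' + (h ^ p - h) ∧
      (f'.natDegree = 0 ∨ ¬ p ∣ f'.natDegree) := by
  have hp : p.Prime := Fact.out
  induction n with
  | zero =>
    intro f hf
    exact ⟨f, 0, by rw [zero_pow hp.ne_zero]; ring, Or.inl (Nat.le_zero.1 hf)⟩
  | succ n ih =>
    intro f hf
    by_cases h1 : f.natDegree = 0 ∨ ¬ p ∣ f.natDegree
    · exact ⟨f, 0, by rw [zero_pow hp.ne_zero]; ring, h1⟩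
    push Not at h1
    obtain ⟨h0, m, hm⟩ := h1
    obtain ⟨d, hd⟩ := IsAlgClosed.exists_pow_nat_eq f.leadingCoeff hp.pos
    have hm0 : 0 < m := by
      rcases Nat.eq_zero_or_pos m with h | h
      · subst h; simp at hm; exact absurd hm h0
      · exact h
    have hlt : m < p * m := by nlinarith [hp.two_le]
    set f1 : k[X] := f - C f.leadingCoeff * X ^ f.natDegree + C d * X ^ m with hf1
    have hdeg : f1.natDegree ≤ n := by
      have h2 : (f - C f.leadingCoeff * X ^ f.natDegree).natDegree ≤ f.natDegree - 1 := by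
        have := Polynomial.eraseLead_natDegree_le f
        rwa [← self_sub_C_mul_X_pow] at this
      have h3 : (C d * X ^ m : k[X]).natDegree ≤ m := natDegree_C_mul_X_pow_le d m
      have h4 := natDegree_add_le (f - C f.leadingCoeff * X ^ f.natDegree) (C d * X ^ m)
      rw [← hf1] at h4
      refine h4.trans (max_le ?_ ?_) <;> omega
    obtain ⟨f', h, hh, hf'⟩ := ih f1 hdeg
    refine ⟨f', h + atInf k (C d * X ^ m), ?_, hf'⟩
    have h5 : f = f1 + ((C d * X ^ m) ^ p - C d * X ^ m) := by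
      rw [mul_pow, ← C_pow, hd, ← pow_mul, mul_comm m p, ← hm, hf1]
      ring
    have h6 := congrArg (atInf k) h5
    rw [map_add, map_sub, map_pow, hh] at h6
    rw [h6, add_pow_char]
    ring

theorem QTRk_of (hDk : QDenk) : QTRk := by
  classical
  intro k _ _ p _ _ P _ _ E _ _ _ hE hG l hl
  have hp : p.Prime := Fact.out
  have := Fintype.ofFinite P
  have hcpL : CharP (LaurentSeries k) p :=
    charP_of_injective_ringHom (HahnSeries.C_injective : Function.Injective
      (HahnSeries.C : k →+* LaurentSeries k)) p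
  have hcpE : CharP E p := charP_of_injective_algebraMap hG.inj p
  set e : ZMod p →+* E := ZMod.castHom (dvd_refl p) E with he
  have hev : ∀ x : ZMod p, ((x.val : ℕ) : E) = e x := by
    intro x
    rw [he, ZMod.castHom_apply, ZMod.natCast_val]
  have hefix : ∀ (g : P) (x : ZMod p), g • e x = e x := by
    intro g x
    rw [← hev]
    exact map_natCast (MulSemiringAction.toRingHom P E g) _
  have hepow : ∀ x : ZMod p, e x ^ p = e x := by
    intro x
    rw [← map_pow, ZMod.pow_card]
  obtain ⟨y, hy⟩ := gal_H1 hG (fun g => e (Multiplicative.toAdd (l g))) (fun g g' => by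
    show e (Multiplicative.toAdd (l (g * g'))) =
      e (Multiplicative.toAdd (l g)) + g • e (Multiplicative.toAdd (l g'))
    rw [map_mul, toAdd_mul, map_add, hefix])
  have hy' : ∀ g : P, g • y = y + e (Multiplicative.toAdd (l g)) := by
    intro g
    rw [hy g]
    ring
  obtain ⟨u, hu⟩ := hG.inv (y ^ p - y) (fun g => by
    rw [smul_sub, smul_pow', hy', add_pow_char, hepow]
    ring)
  obtain ⟨f0, h0, hf0, -⟩ := hDk k p (fun _ => u) 0
  obtain ⟨f, h1, hf, hdeg⟩ := QTRk_red (p := p) _ f0 le_rfl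
  have hu1 : u = atInf k f + ((h0 0 + h1) ^ p - (h0 0 + h1)) := by
    have := hf0 0
    simp only at this
    rw [this, hf, add_pow_char]
    ring
  rcases hdeg with hdeg | hdeg
  · exfalso
    obtain ⟨c, hc⟩ := natDegree_eq_zero.1 hdeg
    obtain ⟨d, hd⟩ := IsAlgClosed.exists_root (X ^ p - (X + C c) : k[X]) (by
      have h2 : (X ^ p - (X + C c) : k[X]).natDegree = p := by
        have h3 : (X + C c : k[X]).natDegree < (X ^ p : k[X]).natDegree := by
          rw [natDegree_X_add_C, natDegree_X_pow]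
          exact hp.one_lt
        rw [natDegree_sub_eq_left_of_natDegree_lt h3, natDegree_X_pow]
      intro h3
      have h4 := natDegree_eq_of_degree_eq_some (n := 0) (by rw [h3]; rfl)
      rw [h2] at h4
      exact hp.ne_zero h4)
    have hd' : d ^ p - d = c := by
      have h2 : eval d (X ^ p - (X + C c) : k[X]) = 0 := hd
      rw [eval_sub, eval_pow, eval_add, eval_X, eval_C] at h2
      rw [sub_eq_iff_eq_add, ← sub_eq_zero, ← h2]
      ring
    set t : LaurentSeries k := HahnSeries.C d + (h0 0 + h1) with ht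
    have hut : u = t ^ p - t := by
      have h2 : t ^ p = HahnSeries.C d ^ p + (h0 0 + h1) ^ p := by
        rw [ht, add_pow_char]
      rw [hu1, ← hc, C2b_atInf_C, ← hd', h2, ht, map_sub, map_pow]
      ring
    have h2 : (y - algebraMap (LaurentSeries k) E t) ^ p - (y - algebraMap (LaurentSeries k) E t)
        = 0 := by
      rw [sub_pow_char, ← map_pow]
      have h3 : y ^ p - y = algebraMap (LaurentSeries k) E (t ^ p) -
          algebraMap (LaurentSeries k) E t := by
        rw [← hu, hut, map_sub]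
      linear_combination h3
    rw [← HP3_prod_eval p e, Finset.prod_eq_zero_iff] at h2
    obtain ⟨a, -, ha⟩ := h2
    have h3 : y = algebraMap (LaurentSeries k) E t - e a := by
      linear_combination ha
    apply hl
    ext g
    have h4 := hy' g
    rw [h3, smul_sub, hG.comm, hefix] at h4
    have h5 : e (Multiplicative.toAdd (l g)) = 0 := by
      linear_combination -h4
    have h6 : Multiplicative.toAdd (l g) = 0 := e.injective (by rw [h5, map_zero])
    rw [MonoidHom.one_apply]
    exact h6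
  · refine ⟨y - algebraMap (LaurentSeries k) E (h0 0 + h1), f, ?_, ?_, hdeg⟩
    · intro g
      rw [smul_sub, hG.comm, hy', hev]
      ring
    · rw [sub_pow_char, ← map_pow]
      have h2 : algebraMap (LaurentSeries k) E (atInf k f) =
          algebraMap (LaurentSeries k) E u - (algebraMap (LaurentSeries k) E ((h0 0 + h1) ^ p)
            - algebraMap (LaurentSeries k) E (h0 0 + h1)) := by
        rw [hu1]
        simp only [map_add, map_sub, map_pow]
        ring
      rw [h2, hu]
      ring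

theorem prf_QTRk : QTRk := QTRk_of (prf_QDenk prf_QSm0)

end MP7b0bad

end

section

set_option autoImplicit false

namespace MP7b0bad

open Polynomial

theorem prf_QTenG : QTenG := by
  intro R _ G P _ _ _ _ B E C _ _ _ _ _ _ _ _ _ i j hB hE hC hi hj hiG hjP c
  classical
  have := Fintype.ofFinite G
  have := Fintype.ofFinite P
  obtain ⟨n, x, y, h1, h2⟩ := gal_dual' hB
  obtain ⟨n', x', y', h1', h2'⟩ := gal_dual' hE
  -- dual families of `C`
  have hb : ∀ σ : G, ∑ m, x m * (σ • y m) = if σ = 1 then 1 else 0 := by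
    intro σ
    split_ifs with h
    · subst h; simpa using h2
    · exact h1 σ h
  have hb' : ∀ σ : P, ∑ m, x' m * (σ • y' m) = if σ = 1 then 1 else 0 := by
    intro σ
    split_ifs with h
    · subst h; simpa using h2'
    · exact h1' σ h
  have hact : ∀ (γ : G × P) (m : Fin n) (l : Fin n'),
      γ • (i (y m) * j (y' l)) = i (γ.1 • y m) * j (γ.2 • y' l) := by
    rintro ⟨g, τ⟩ m l
    rw [smul_mul', hiG, hjP]
  have key : ∀ γ : G × P, ∑ m, ∑ l, i (x m) * j (x' l) * (γ • (i (y m) * j (y' l))) =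
      if γ = 1 then 1 else 0 := by
    rintro ⟨g, τ⟩
    have e1 : ∑ m, ∑ l, i (x m) * j (x' l) * ((g, τ) • (i (y m) * j (y' l))) =
        i (∑ m, x m * (g • y m)) * j (∑ l, x' l * (τ • y' l)) := by
      rw [map_sum, map_sum, Finset.sum_mul_sum]
      refine Finset.sum_congr rfl fun m _ => Finset.sum_congr rfl fun l _ => ?_
      rw [hact, map_mul, map_mul]
      ring
    rw [e1, hb, hb']
    by_cases hg : g = 1
    · by_cases hτ : τ = 1
      · subst hg; subst hτ; simp
      · rw [if_neg hτ, if_neg (fun h => hτ (congrArg Prod.snd h))]; simp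
    · rw [if_neg hg, if_neg (fun h => hg (congrArg Prod.fst h))]; simp
  -- the traces
  have htr : ∀ m l, ∃ a : R, algebraMap R C a =
      ∑ γ : G × P, γ • (i (y m) * j (y' l) * c) := fun m l => gal_trace hC _
  choose r hr using htr
  have hc : c = ∑ m, ∑ l, i (algebraMap R B (r m l) * x m) * j (x' l) := by
    calc c = ∑ γ : G × P, (if γ = 1 then 1 else 0) * (γ • c) := by simp
      _ = ∑ γ : G × P, (∑ m, ∑ l, i (x m) * j (x' l) * (γ • (i (y m) * j (y' l)))) * (γ • c) := by
          refine Finset.sum_congr rfl fun γ _ => ?_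
          rw [key]
      _ = ∑ m, ∑ l, ∑ γ : G × P, i (x m) * j (x' l) * (γ • (i (y m) * j (y' l))) * (γ • c) := by
          simp only [Finset.sum_mul]
          rw [Finset.sum_comm]
          refine Finset.sum_congr rfl fun m _ => ?_
          rw [Finset.sum_comm]
      _ = _ := by
          refine Finset.sum_congr rfl fun m _ => Finset.sum_congr rfl fun l _ => ?_
          rw [map_mul, hi, hr, Finset.sum_mul, Finset.sum_mul]
          refine Finset.sum_congr rfl fun γ _ => ?_
          rw [smul_mul' γ (i (y m) * j (y' l)) c]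
          ring
  refine ⟨n * n', fun t => algebraMap R B (r (finProdFinEquiv.symm t).1 (finProdFinEquiv.symm t).2) *
    x (finProdFinEquiv.symm t).1, fun t => x' (finProdFinEquiv.symm t).2, ?_⟩
  rw [← (finProdFinEquiv (m := n) (n := n')).sum_comp
    (fun t => i (algebraMap R B (r (finProdFinEquiv.symm t).1 (finProdFinEquiv.symm t).2) *
    x (finProdFinEquiv.symm t).1) * j (x' (finProdFinEquiv.symm t).2))]
  simp only [Equiv.symm_apply_apply]
  rw [Fintype.sum_prod_type]
  exact hc

end MP7b0bad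

end

section

set_option autoImplicit false

namespace MP7b0bad

open Polynomial

/-- polynomial part at infinity of `ξ^{-d} h` -/
theorem QTrunc_poly {κ : Type} [Field κ] (h : LaurentSeries κ) (d : ℕ) :
    ∃ a : κ[X], ∀ i : ℤ, i ≤ 0 → (atInf κ a).coeff i = h.coeff (i + d) := by
  classical
  -- the coefficients h.coeff (d - n) vanish for n large
  obtain ⟨m, hm⟩ : ∃ m : ℤ, ∀ i : ℤ, i < m → h.coeff i = 0 := by
    by_cases hh : h = 0
    · exact ⟨0, fun i _ => by rw [hh]; rfl⟩
    · exact ⟨h.order, fun i hi => HahnSeries.coeff_eq_zero_of_lt_order hi⟩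
  set N : ℕ := ((d : ℤ) - m).toNat + 1 with hN
  refine ⟨∑ n ∈ Finset.range N, monomial n (h.coeff ((d : ℤ) - n)), ?_⟩
  intro i hi
  rw [E7_atInf_coeff, if_pos hi, finsetSum_coeff]
  simp only [coeff_monomial]
  by_cases h1 : (-i).toNat < N
  · rw [Finset.sum_eq_single (-i).toNat]
    · rw [if_pos rfl]
      congr 1
      omega
    · intro b _ hb
      rw [if_neg hb]
    · intro hb
      exact absurd (Finset.mem_range.2 h1) hb
  · rw [Finset.sum_eq_zero]
    · symm
      apply hm
      omega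
    · intro b hb
      rw [if_neg]
      intro h2
      rw [h2] at hb
      exact h1 (Finset.mem_range.1 hb)

theorem prf_QTrunc (hQLat : QLat) : QTrunc := by
  intro κ _ Γ _ _ C D _ _ _ _ _ _ q hC hD hq hq' n c z m
  classical
  obtain ⟨r, -, -, -, -, -, hbdd, -, -, -⟩ := hQLat κ Γ C D q hC hD hq hq' n c
  obtain ⟨m0, h, hh, rfl⟩ := hbdd z
  refine ⟨m.toNat, fun d hd => ?_⟩
  choose a ha using fun l => QTrunc_poly (h l) d
  refine ⟨∑ l, algebraMap κ[X] C (a l) * c l,
    fun l => atInf κ (a l) - HahnSeries.single (-(d : ℤ)) (1 : κ) * h l, ?_, ?_⟩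
  · intro l i hi
    have h0 : i ≤ 0 := by omega
    rw [HahnSeries.coeff_sub, ha l i h0]
    have h1 := HahnSeries.coeff_single_mul_add (r := (1 : κ)) (x := h l)
        (a := i + d) (b := (-(d : ℤ)))
    rw [one_mul, show i + (d : ℤ) + -(d : ℤ) = i by ring] at h1
    rw [h1, sub_self]
  · rw [map_sum, Finset.mul_sum, ← Finset.sum_sub_distrib]
    refine Finset.sum_congr rfl fun l _ => ?_
    rw [map_mul, hq, map_sub, map_mul]
    ring

end MP7b0bad

end

section

/-!
# MP_7b0bad, item GBlk2: the blocks for `p = 2`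
-/

set_option autoImplicit false

namespace MP7b0bad

/-- `t` has order two: the twisted commutator is inverted by `t`. -/
theorem GBlk2_inv {G : Type} [Group G] (t x : G) (ht : t * t = 1) :
    t * (x⁻¹ * (t * x * t⁻¹)) * t⁻¹ = (x⁻¹ * (t * x * t⁻¹))⁻¹ := by
  have h1 : t⁻¹ = t := inv_eq_of_mul_eq_one_right ht
  have h2 : t * (x⁻¹ * (t * x * t)) * t = t * x⁻¹ * t * x * (t * t) := by group
  have h3 : (x⁻¹ * (t * x * t))⁻¹ = t⁻¹ * x⁻¹ * t⁻¹ * x := by group
  rw [h1, h2, ht, h3, h1, mul_one]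

/-- some twisted commutator is not in `Φ` -/
theorem GBlk2_ex {G : Type} [Group G] (r : ℕ) (A Φ : Subgroup G) (t : G)
    (h : Blk 2 r G A Φ t) : ∃ x ∈ A, x⁻¹ * (t * x * t⁻¹) ∉ Φ := by
  by_contra hcon
  push Not at hcon
  have hnA := h.nA
  have hnP := h.nPhi
  have htop : Φ ⊔ Subgroup.zpowers t = ⊤ := by
    rw [eq_top_iff, ← h.ncl]
    refine (Subgroup.closure_le _).2 ?_
    intro c hc
    rw [Group.mem_conjugatesOfSet_iff] at hc
    obtain ⟨s, hs, hc⟩ := hc
    rw [Set.mem_singleton_iff] at hs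
    rw [hs, isConj_iff] at hc
    obtain ⟨g, hg⟩ := hc
    have hgt : g ∈ A ⊔ Subgroup.zpowers t := by rw [h.gen]; exact Subgroup.mem_top g
    rw [Subgroup.mem_sup_of_normal_left] at hgt
    obtain ⟨a, ha, b, hb, hab⟩ := hgt
    obtain ⟨n, hn⟩ := Subgroup.mem_zpowers_iff.1 hb
    have h1 : c = (a⁻¹⁻¹ * (t * a⁻¹ * t⁻¹)) * t := by
      rw [← hg, ← hab, ← hn]
      group
    rw [h1]
    exact Subgroup.mul_mem _ (Subgroup.mem_sup_left (hcon _ (A.inv_mem ha)))
      (Subgroup.mem_sup_right (Subgroup.mem_zpowers t))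
  have hle : A ≤ Φ := by
    intro y hy
    have hyt : y ∈ Φ ⊔ Subgroup.zpowers t := by rw [htop]; exact Subgroup.mem_top y
    rw [Subgroup.mem_sup_of_normal_left] at hyt
    obtain ⟨a, ha, b, hb, hab⟩ := hyt
    have hbA : b ∈ A := by
      have : b = a⁻¹ * y := by rw [← hab]; group
      rw [this]
      exact A.mul_mem (A.inv_mem (h.lt.le ha)) hy
    have hb1 : b = 1 := by
      obtain ⟨n, hn⟩ := Subgroup.mem_zpowers_iff.1 hb
      have hb2 : b ^ 2 = 1 := by
        have : t ^ 2 = 1 := by rw [← h.ord]; exact pow_orderOf_eq_one t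
        rw [← hn, ← zpow_natCast, ← zpow_mul, mul_comm, zpow_mul, zpow_natCast, this, one_zpow]
      obtain ⟨k, hk⟩ := h.pA ⟨b, hbA⟩
      have hk' : b ^ r ^ k = 1 := by
        have := congrArg Subtype.val hk
        simpa using this
      have hd1 : orderOf b ∣ 2 := orderOf_dvd_of_pow_eq_one hb2
      have hd2 : orderOf b ∣ r ^ k := orderOf_dvd_of_pow_eq_one hk'
      have hcop : Nat.Coprime 2 (r ^ k) :=
        Nat.Coprime.pow_right k ((Nat.coprime_primes Nat.prime_two h.rprime).2 h.ne.symm)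
      have : orderOf b ∣ 1 := by
        rw [← hcop]
        exact Nat.dvd_gcd hd1 hd2
      exact orderOf_eq_one_iff.1 (Nat.dvd_one.1 this)
    rw [← hab, hb1, mul_one]
    exact ha
  exact absurd hle (not_le_of_gt h.lt)

theorem prf_GBlk2 (hQHP8L : QHP8L) (hQIso : QIso) : GBlk2 := by
  intro k _ _ _ G _ _ r A Φ t h
  have htt : t * t = 1 := by
    have : t ^ 2 = 1 := by rw [← h.ord]; exact pow_orderOf_eq_one t
    rwa [pow_two] at this
  have hnA := h.nA
  obtain ⟨x, hx, hxP⟩ := GBlk2_ex r A Φ t h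
  obtain ⟨a, ha⟩ : ∃ a, a = x⁻¹ * (t * x * t⁻¹) := ⟨_, rfl⟩
  rw [← ha] at hxP
  have hta : t * a * t⁻¹ = a⁻¹ := by rw [ha]; exact GBlk2_inv t x htt
  have haA : a ∈ A := by
    rw [ha]
    exact A.mul_mem (A.inv_mem hx) (hnA.conj_mem x hx t)
  have hinv : ∀ b ∈ Subgroup.zpowers a, t * b * t⁻¹ ∈ Subgroup.zpowers a := by
    intro b hb
    obtain ⟨n, hn⟩ := Subgroup.mem_zpowers_iff.1 hb
    rw [← hn, ← conj_zpow, hta]
    exact Subgroup.zpow_mem _ (Subgroup.inv_mem _ (Subgroup.mem_zpowers a)) n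
  have hBA : Subgroup.zpowers a ≤ A := by
    rw [Subgroup.zpowers_le]
    exact haA
  have hB : Subgroup.zpowers a = A := by
    by_contra hne
    exact hxP (h.max _ hBA hinv hne (Subgroup.mem_zpowers a))
  have hcl : (⊤ : Subgroup G) = Subgroup.closure {t, a} := by
    symm
    rw [eq_top_iff, ← h.gen, ← hB]
    refine sup_le ?_ ?_
    · rw [Subgroup.zpowers_le]
      exact Subgroup.subset_closure (by simp)
    · rw [Subgroup.zpowers_le]
      exact Subgroup.subset_closure (by simp)
  have hconj : ∀ i : ℕ, t ^ i * a * (t ^ i)⁻¹ ∈ Subgroup.zpowers a := by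
    intro i
    induction i with
    | zero => simp
    | succ i ih =>
      have e : t ^ (i + 1) * a * (t ^ (i + 1))⁻¹ = t * (t ^ i * a * (t ^ i)⁻¹) * t⁻¹ := by
        rw [pow_succ']
        group
      rw [e]
      exact hinv _ ih
  have hgood : Good 2 t a := by
    refine ⟨fun i j => ?_, ?_⟩
    · obtain ⟨m, hm⟩ := Subgroup.mem_zpowers_iff.1 (hconj i)
      obtain ⟨n, hn⟩ := Subgroup.mem_zpowers_iff.1 (hconj j)
      rw [← hm, ← hn]
      exact (Commute.refl a).zpow_zpow m n
    · have e : (List.range 2) = [0, 1] := rfl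
      rw [e]
      simp only [List.map_cons, List.map_nil, List.prod_cons, List.prod_nil, pow_zero, pow_one,
        mul_one, one_mul, inv_one]
      rw [hta, mul_inv_cancel]
  have hord : ¬ 2 ∣ orderOf a := by
    intro hdvd
    obtain ⟨m, hm⟩ := h.pA ⟨a, haA⟩
    have hm' : a ^ r ^ m = 1 := by
      have := congrArg Subtype.val hm
      simpa using this
    have h1 : 2 ∣ r ^ m := hdvd.trans (orderOf_dvd_of_pow_eq_one hm')
    have h2 := Nat.prime_two.dvd_of_dvd_pow h1
    exact h.ne ((Nat.prime_dvd_prime_iff_eq Nat.prime_two h.rprime).1 h2).symm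
  have hrel := hQHP8L k 2 G t a h.ord hord hgood ⊤ (Subgroup.mem_top t) hcl
  have hiso := hQIso k _ G Subgroup.topEquiv _ hrel
  have e : (Subgroup.zpowers (⟨t, Subgroup.mem_top t⟩ : (⊤ : Subgroup G))).map
      (Subgroup.topEquiv (G := G)).toMonoidHom = Subgroup.zpowers t := by
    rw [MonoidHom.map_zpowers]
    rfl
  rw [e] at hiso
  exact hiso

end MP7b0bad

end

section

/-!
# MP_7b0bad_ag, item GConj: conjugation
-/

set_option autoImplicit false

namespace MP7b0bad

theorem GConj_third (p : ℕ) (R : ∀ (G : Type) [Group G], Subgroup G → Prop)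
    (ax : RelAx p R) (G : Type) [Group G] (X P' : Subgroup G) (c : G)
    (hR : R X (P'.subgroupOf X)) :
    R (X.map (MulAut.conj c).toMonoidHom)
      ((P'.map (MulAut.conj c).toMonoidHom).subgroupOf (X.map (MulAut.conj c).toMonoidHom)) := by
  have hinj : Function.Injective (MulAut.conj c).toMonoidHom := (MulAut.conj c).injective
  have h1 := ax.iso _ _ (X.equivMapOfInjective (MulAut.conj c).toMonoidHom hinj)
    (P'.subgroupOf X) hR
  have h2 : (P'.subgroupOf X).map
      (X.equivMapOfInjective (MulAut.conj c).toMonoidHom hinj).toMonoidHom =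
      (P'.map (MulAut.conj c).toMonoidHom).subgroupOf (X.map (MulAut.conj c).toMonoidHom) := by
    ext ⟨y, hy⟩
    rw [Subgroup.mem_subgroupOf, Subgroup.mem_map, Subgroup.mem_map]
    constructor
    · rintro ⟨⟨x, hx⟩, hxP, hxy⟩
      rw [Subgroup.mem_subgroupOf] at hxP
      refine ⟨x, hxP, ?_⟩
      exact congrArg Subtype.val hxy
    · rintro ⟨x, hxP, hxy⟩
      obtain ⟨z, hz, hzy⟩ := Subgroup.mem_map.1 hy
      have hzx : z = x := hinj (hzy.trans hxy.symm)
      subst hzx
      refine ⟨⟨z, hz⟩, ?_, ?_⟩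
      · rw [Subgroup.mem_subgroupOf]
        exact hxP
      · exact Subtype.ext hxy
  rw [h2] at h1
  exact h1

theorem prf_GConj : GConj := by
  intro p _ R ax G _ P
  refine ⟨?_, ?_, ?_⟩
  · rintro c H hc ⟨P', hP', hPH, hR⟩
    have hmap : P'.map (MulAut.conj c).toMonoidHom = P' := by
      ext y
      rw [Subgroup.mem_map]
      constructor
      · rintro ⟨x, hx, rfl⟩
        have := hc x (hP' hx)
        have e : (MulAut.conj c).toMonoidHom x = x := by
          simp [MulAut.conj_apply, this]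
        rw [e]; exact hx
      · intro hy
        refine ⟨y, hy, ?_⟩
        have := hc y (hP' hy)
        simp [MulAut.conj_apply, this]
    refine ⟨P', hP', ?_, ?_⟩
    · rw [← hmap]
      exact Subgroup.map_mono hPH
    · have := GConj_third p R ax G H P' c hR
      rw [hmap] at this
      exact this
  · intro hR
    have h1 := ax.iso _ _ (Subgroup.topEquiv (G := G)) (P.subgroupOf ⊤) hR
    have h2 : (P.subgroupOf ⊤).map (Subgroup.topEquiv (G := G)).toMonoidHom = P := by
      ext y
      rw [Subgroup.mem_map]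
      constructor
      · rintro ⟨x, hx, rfl⟩
        rw [Subgroup.mem_subgroupOf] at hx
        exact hx
      · intro hy
        exact ⟨⟨y, Subgroup.mem_top y⟩, by rw [Subgroup.mem_subgroupOf]; exact hy, rfl⟩
    rw [h2] at h1
    exact h1
  · intro X P' _ c hR
    exact GConj_third p R ax G X P' c hR

end MP7b0bad

end

section

set_option autoImplicit false

/-!
# GCop: coprime action (helper26)
-/

namespace MP7b0bad

open Subgroup

section

variable {G : Type} [Group G]

theorem GCop_map_nclIn {G' : Type} [Group G'] (f : G' →* G) (Y Z : Subgroup G') :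
    (nclIn Y Z).map f = nclIn (Y.map f) (Z.map f) := by
  unfold nclIn
  rw [MonoidHom.map_closure]
  congr 1
  ext g
  constructor
  · rintro ⟨_, ⟨x, hx, q, hq, rfl⟩, rfl⟩
    exact ⟨f x, ⟨x, hx, rfl⟩, f q, ⟨q, hq, rfl⟩, by simp⟩
  · rintro ⟨_, ⟨x, hx, rfl⟩, _, ⟨q, hq, rfl⟩, rfl⟩
    exact ⟨x * q * x⁻¹, ⟨x, hx, q, hq, rfl⟩, by simp⟩

theorem GCop_mem_nclIn {Y Z : Subgroup G} {x q : G} (hx : x ∈ Y) (hq : q ∈ Z) :
    x * q * x⁻¹ ∈ nclIn Y Z := subset_closure ⟨x, hx, q, hq, rfl⟩

theorem GCop_le_nclIn {Y Z : Subgroup G} : Z ≤ nclIn Y Z := by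
  intro q hq
  have := GCop_mem_nclIn (Y := Y) (Z := Z) (one_mem Y) hq
  simpa using this

theorem GCop_nclIn_normal (Z : Subgroup G) : (nclIn (⊤ : Subgroup G) Z).Normal := by
  refine ⟨fun n hn g => ?_⟩
  have key : nclIn (⊤ : Subgroup G) Z ≤
      (nclIn (⊤ : Subgroup G) Z).comap (MulAut.conj g).toMonoidHom := by
    refine (closure_le _).2 ?_
    rintro _ ⟨x, -, q, hq, rfl⟩
    have h1 : (g * x) * q * (g * x)⁻¹ ∈ nclIn (⊤ : Subgroup G) Z :=
      GCop_mem_nclIn (mem_top _) hq
    have h2 : (MulAut.conj g).toMonoidHom (x * q * x⁻¹) = (g * x) * q * (g * x)⁻¹ := by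
      show g * (x * q * x⁻¹) * g⁻¹ = _
      group
    show (MulAut.conj g).toMonoidHom (x * q * x⁻¹) ∈ nclIn (⊤ : Subgroup G) Z
    rw [h2]
    exact h1
  exact key hn

/-- a supplement of a normal subgroup `A` has an index dividing the order of `A` -/
theorem GCop_index_dvd [Finite G] (A H : Subgroup G) [A.Normal] (h : H ⊔ A = ⊤) :
    H.index ∣ Nat.card A := by
  have h1 : A.index = A.relIndex H := by
    rw [← relIndex_sup_right (H := H) (K := A), h, relIndex_top_right]
  have h2 : A.index ∣ Nat.card H := by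
    rw [h1]
    exact relIndex_dvd_card A H
  obtain ⟨m, hm⟩ := h2
  have h3 : Nat.card H * H.index = Nat.card A * A.index := by
    rw [card_mul_index, card_mul_index]
  have hpos : 0 < A.index := Nat.pos_of_ne_zero A.index_ne_zero_of_finite
  rw [hm] at h3
  have h4 : m * H.index = Nat.card A := by
    apply Nat.eq_of_mul_eq_mul_left hpos
    rw [← mul_assoc, h3, mul_comm]
  exact ⟨m, by rw [← h4, mul_comm]⟩

theorem GCop_core (p : ℕ) [Fact p.Prime] [Finite G] (A Q : Subgroup G) [A.Normal]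
    (hp : ¬ p ∣ Nat.card A) (hQ : IsPGroup p Q) (hAQ : A ⊔ Q = ⊤) :
    (∀ a ∈ A, ∃ d ∈ nclIn (⊤ : Subgroup G) Q, ∃ c ∈ A, (∀ q ∈ Q, c * q = q * c) ∧ a = d * c) ∧
    nclIn (nclIn (⊤ : Subgroup G) Q) Q = nclIn (⊤ : Subgroup G) Q ∧
    ∀ r : ℕ, r.Prime → ∃ S : Subgroup G, S ≤ A ∧ (∀ q ∈ Q, ∀ a ∈ S, q * a * q⁻¹ ∈ S) ∧
      Nat.card S = r ^ (Nat.card A).factorization r := by
  have hAn : A.Normal := inferInstance
  have hQA : Q ⊔ A = ⊤ := by rw [sup_comm]; exact hAQ
  have hpQ : ¬ p ∣ Q.index := fun h => hp (h.trans (GCop_index_dvd A Q hQA))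
  have hinf : A ⊓ Q = ⊥ := by
    obtain ⟨k, hk⟩ := IsPGroup.iff_card.1 hQ
    apply inf_eq_bot_of_coprime
    rw [hk]
    exact (Nat.Prime.coprime_iff_not_dvd Fact.out).2 hp |>.symm.pow_right k
  obtain ⟨K, hK⟩ : ∃ K : Subgroup G, K = nclIn (⊤ : Subgroup G) Q := ⟨_, rfl⟩
  have hKn : K.Normal := by rw [hK]; exact GCop_nclIn_normal Q
  have hQK : Q ≤ K := by rw [hK]; exact GCop_le_nclIn
  -- Frattini
  have hF : normalizer (Q : Set G) ⊔ K = ⊤ := by
    have := Sylow.normalizer_sup_eq_top' (N := K) (hQ.toSylow hpQ) (by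
      rw [IsPGroup.toSylow_coe]; exact hQK)
    exact this
  have hF' : ∀ g : G, ∃ k ∈ K, ∃ n ∈ normalizer (Q : Set G), k * n = g := by
    intro g
    have hg : g ∈ K ⊔ normalizer (Q : Set G) := by rw [sup_comm, hF]; exact mem_top g
    obtain ⟨k, hk, n, hn, h⟩ := mem_sup_of_normal_left.1 hg
    exact ⟨k, hk, n, hn, h⟩
  refine ⟨?_, ?_, ?_⟩
  · intro a ha
    obtain ⟨d, hd, n, hn, rfl⟩ := hF' a
    have hn' : n ∈ A ⊔ Q := by rw [hAQ]; exact mem_top n
    obtain ⟨c, hc, q, hq, rfl⟩ := mem_sup_of_normal_left.1 hn'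
    -- `c` normalises `Q`
    have hqn : q ∈ normalizer (Q : Set G) := le_normalizer hq
    have hcn : c ∈ normalizer (Q : Set G) := by
      have := mul_mem hn (inv_mem hqn)
      rwa [mul_inv_cancel_right] at this
    have hcomm : ∀ q' ∈ Q, c * q' = q' * c := by
      intro q' hq'
      have h1 : c * q' * c⁻¹ * q'⁻¹ ∈ A := by
        have h2 : q' * c⁻¹ * q'⁻¹ ∈ A := hAn.conj_mem _ (inv_mem hc) q'
        have h3 := mul_mem hc h2
        have h4 : c * q' * c⁻¹ * q'⁻¹ = c * (q' * c⁻¹ * q'⁻¹) := by group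
        rw [h4]
        exact h3
      have h2 : c * q' * c⁻¹ * q'⁻¹ ∈ Q :=
        mul_mem ((mem_normalizer_iff.1 hcn q').1 hq') (inv_mem hq')
      have h3 : c * q' * c⁻¹ * q'⁻¹ ∈ A ⊓ Q := ⟨h1, h2⟩
      rw [hinf, mem_bot] at h3
      have h4 : c * q' * c⁻¹ = q' := mul_inv_eq_one.1 h3
      exact mul_inv_eq_iff_eq_mul.1 h4
    refine ⟨d * q, ?_, c, hc, hcomm, ?_⟩
    · rw [← hK]
      exact mul_mem hd (hQK hq)
    · rw [hcomm q hq, mul_assoc]
  · rw [← hK]
    apply le_antisymm
    · refine (closure_le _).2 ?_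
      rintro _ ⟨x, hx, q, hq, rfl⟩
      exact mul_mem (mul_mem hx (hQK hq)) (inv_mem hx)
    · nth_rewrite 1 [hK]
      refine (closure_le _).2 ?_
      rintro _ ⟨x, -, q, hq, rfl⟩
      obtain ⟨k, hk, n, hn, rfl⟩ := hF' x
      have h1 : n * q * n⁻¹ ∈ Q := (mem_normalizer_iff.1 hn q).1 hq
      have h2 : (k * n) * q * (k * n)⁻¹ = k * (n * q * n⁻¹) * k⁻¹ := by group
      show (k * n) * q * (k * n)⁻¹ ∈ nclIn K Q
      rw [h2]
      exact GCop_mem_nclIn hk h1
  · intro r hr
    haveI : Fact r.Prime := ⟨hr⟩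
    obtain ⟨S0⟩ : Nonempty (Sylow r A) := inferInstance
    obtain ⟨T, hT⟩ : ∃ T : Subgroup G, T = (S0 : Subgroup A).map A.subtype := ⟨_, rfl⟩
    have hTA : T ≤ A := by
      rw [hT]
      rintro _ ⟨a, -, rfl⟩
      exact a.2
    have hTc : Nat.card T = r ^ (Nat.card A).factorization r := by
      rw [hT, Nat.card_congr ((S0 : Subgroup A).equivMapOfInjective A.subtype
        A.subtype_injective).toEquiv.symm]
      exact S0.card_eq_multiplicity
    have hN : normalizer (T : Set G) ⊔ A = ⊤ := by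
      have := Sylow.normalizer_sup_eq_top (N := A) S0
      rw [hT]
      exact this
    obtain ⟨N0, hN0⟩ : ∃ N0 : Subgroup G, N0 = normalizer (T : Set G) := ⟨_, rfl⟩
    rw [← hN0] at hN
    have hpN : ¬ p ∣ N0.index := fun h => hp (h.trans (GCop_index_dvd A N0 hN))
    obtain ⟨P0⟩ : Nonempty (Sylow p N0) := inferInstance
    obtain ⟨P1, hP1⟩ : ∃ P1 : Subgroup G, P1 = (P0 : Subgroup N0).map N0.subtype := ⟨_, rfl⟩
    have hP1N : P1 ≤ N0 := by
      rw [hP1]
      rintro _ ⟨a, -, rfl⟩
      exact a.2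
    have hP1p : IsPGroup p P1 := by
      rw [hP1]
      exact P0.isPGroup'.map _
    have hP1i : ¬ p ∣ P1.index := by
      have h1 : P1.index = (P0 : Subgroup N0).index * N0.index := by
        rw [hP1, index_map_subtype]
      rw [h1]
      intro h
      rcases (Nat.Prime.dvd_mul Fact.out).1 h with h2 | h2
      · exact P0.not_dvd_index h2
      · exact hpN h2
    obtain ⟨g, hg⟩ := MulAction.exists_smul_eq G (hP1p.toSylow hP1i) (hQ.toSylow hpQ)
    have hgq : ∀ q ∈ Q, g⁻¹ * q * g ∈ P1 := by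
      intro q hq
      have h1 : q ∈ ((g • (hP1p.toSylow hP1i) : Sylow p G) : Subgroup G) := by
        rw [hg]; exact hq
      rw [Sylow.coe_subgroup_smul, Subgroup.mem_pointwise_smul_iff_inv_smul_mem] at h1
      have h2 : (MulAut.conj g)⁻¹ • q = g⁻¹ * q * g := by
        show (MulAut.conj g)⁻¹ q = _
        rw [MulAut.conj_inv_apply]
      rw [h2] at h1
      exact h1
    refine ⟨T.map (MulAut.conj g).toMonoidHom, ?_, ?_, ?_⟩
    · rintro _ ⟨t, ht, rfl⟩
      exact hAn.conj_mem t (hTA ht) g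
    · rintro q hq _ ⟨t, ht, rfl⟩
      have h1 : g⁻¹ * q * g ∈ normalizer (T : Set G) := by
        rw [← hN0]; exact hP1N (hgq q hq)
      have h2 := (mem_normalizer_iff.1 h1 t).1 ht
      refine ⟨_, h2, ?_⟩
      show g * ((g⁻¹ * q * g) * t * (g⁻¹ * q * g)⁻¹) * g⁻¹ = q * (g * t * g⁻¹) * q⁻¹
      group
    · rw [Nat.card_congr (T.equivMapOfInjective (MulAut.conj g).toMonoidHom
        (MulAut.conj g).injective).toEquiv.symm]
      exact hTc

end

theorem prf_GCop : GCop := by
  intro p _ G _ _ A Q hp hQ hconj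
  obtain ⟨X, hX⟩ : ∃ X : Subgroup G, X = A ⊔ Q := ⟨_, rfl⟩
  have hAX : A ≤ X := by rw [hX]; exact le_sup_left
  have hQX : Q ≤ X := by rw [hX]; exact le_sup_right
  rw [← hX]
  -- `A` is normal in `X`
  have hnorm : X ≤ normalizer (A : Set G) := by
    rw [hX]
    refine sup_le le_normalizer ?_
    intro q hq
    rw [mem_normalizer_iff]
    intro a
    constructor
    · exact hconj q hq a
    · intro h
      have h1 := hconj q⁻¹ (inv_mem hq) _ h
      have h2 : q⁻¹ * (q * a * q⁻¹) * q⁻¹⁻¹ = a := by group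
      rwa [h2] at h1
  haveI hAn : (A.subgroupOf X).Normal := by
    refine ⟨fun a ha x => ?_⟩
    have h1 := (mem_normalizer_iff.1 (hnorm x.2) (a : G)).1 ha
    exact h1
  have hA' : (A.subgroupOf X).map X.subtype = A := by
    rw [subgroupOf_map_subtype, inf_of_le_left hAX]
  have hQ' : (Q.subgroupOf X).map X.subtype = Q := by
    rw [subgroupOf_map_subtype, inf_of_le_left hQX]
  have htop : (⊤ : Subgroup X).map X.subtype = X := by
    rw [← MonoidHom.range_eq_map, X.range_subtype]
  have hcA : Nat.card (A.subgroupOf X) = Nat.card A :=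
    Nat.card_congr (subgroupOfEquivOfLe hAX).toEquiv
  have hQp : IsPGroup p (Q.subgroupOf X) := hQ.of_equiv (subgroupOfEquivOfLe hQX).symm
  have hsup : A.subgroupOf X ⊔ Q.subgroupOf X = ⊤ := by
    apply map_injective X.subtype_injective
    rw [Subgroup.map_sup, hA', hQ', htop, hX]
  have hncl : (nclIn (⊤ : Subgroup X) (Q.subgroupOf X)).map X.subtype = nclIn X Q := by
    rw [GCop_map_nclIn, htop, hQ']
  obtain ⟨h1, h2, h3⟩ := GCop_core p (A.subgroupOf X) (Q.subgroupOf X) (by rwa [hcA]) hQp hsup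
  refine ⟨?_, ?_, ?_⟩
  · intro a ha
    obtain ⟨d, hd, c, hc, hcq, hac⟩ := h1 ⟨a, hAX ha⟩ ha
    refine ⟨d, ?_, c, hc, ?_, congrArg Subtype.val hac⟩
    · rw [← hncl]
      exact ⟨d, hd, rfl⟩
    · intro q hq
      exact congrArg Subtype.val (hcq ⟨q, hQX hq⟩ hq)
  · have h4 := congrArg (Subgroup.map X.subtype) h2
    rw [GCop_map_nclIn, hncl, hQ'] at h4
    exact h4
  · intro r hr
    obtain ⟨S, hSA, hSq, hSc⟩ := h3 r hr
    refine ⟨S.map X.subtype, ?_, ?_, ?_⟩
    · rintro _ ⟨s, hs, rfl⟩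
      exact hSA hs
    · rintro q hq _ ⟨s, hs, rfl⟩
      exact ⟨_, hSq ⟨q, hQX hq⟩ hq s hs, rfl⟩
    · rw [Nat.card_congr (S.equivMapOfInjective X.subtype X.subtype_injective).toEquiv.symm, hSc,
        hcA]

end MP7b0bad

end

section

/-!
# MP_7b0bad, item GJoin: the join theorem for sets of subgroups
-/

set_option autoImplicit false

namespace MP7b0bad

theorem prf_GJoin : GJoin := by
  intro p _ R hR G _ _ P hP
  have h1 : RH R P P := by
    refine ⟨P, le_refl P, le_refl P, ?_⟩
    rw [Subgroup.subgroupOf_self]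
    exact hR.pgr P hP
  refine ⟨h1, fun hS => ?_⟩
  obtain ⟨n, ⟨e⟩⟩ := Finite.exists_equiv_fin {H : Subgroup G | RH R P H}
  choose P' h2 h3 h4 using fun i : Fin n => (e.symm i).2
  refine hR.join G P n (fun i => (e.symm i : Subgroup G)) P' hP (e ⟨P, h1⟩).pos h2 h3 h4 ?_
  have h5 : ⨆ i : Fin n, (e.symm i : Subgroup G) = ⊤ := by
    rw [← hS, sSup_eq_iSup']
    exact e.symm.iSup_comp (g := fun a : {H : Subgroup G | RH R P H} => (a : Subgroup G))
  rw [h5, sup_top_eq]

end MP7b0bad

end

section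

set_option autoImplicit false

namespace MP7b0bad

theorem GPS_dvd {p a b : ℕ} (hp : p.Prime) (hab : a ∣ b)
    (hb : (∃ n : ℕ, b = p ^ n) ∨ ¬ p ∣ b) : (∃ n : ℕ, a = p ^ n) ∨ ¬ p ∣ a := by
  rcases hb with ⟨n, rfl⟩ | hb
  · obtain ⟨k, _, hk⟩ := (Nat.dvd_prime_pow hp).1 hab
    exact Or.inl ⟨k, hk⟩
  · exact Or.inr fun h => hb (h.trans hab)

theorem GPS_rel {G : Type} [Group G] (N M H : Subgroup G) [N.Normal] :
    (N.subgroupOf H).relIndex (M.subgroupOf H) ∣ N.relIndex M := by
  have h1 : M.subgroupOf H = (M ⊓ H).subgroupOf H := by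
    rw [Subgroup.inf_subgroupOf_right]
  rw [h1, Subgroup.relIndex_subgroupOf (inf_le_right : M ⊓ H ≤ H)]
  have h2 : (N.subgroupOf M).relIndex ((M ⊓ H).subgroupOf M) = N.relIndex (M ⊓ H) :=
    Subgroup.relIndex_subgroupOf (inf_le_left : M ⊓ H ≤ M)
  rw [← h2]
  exact Subgroup.relIndex_dvd_index_of_normal _ _

theorem GPS_quot {p : ℕ} {G : Type} [Group G] (hG : PSol p G) (N : Subgroup G) [N.Normal] :
    PSol p (G ⧸ N) := by
  intro K hK hKt
  have hs : Function.Surjective (QuotientGroup.mk' N) := QuotientGroup.mk'_surjective N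
  have hn : (K.comap (QuotientGroup.mk' N)).Normal := hK.comap _
  have ht : K.comap (QuotientGroup.mk' N) ≠ ⊤ := by
    intro h
    apply hKt
    rw [← Subgroup.map_comap_eq_self_of_surjective hs K, h]
    exact Subgroup.map_top_of_surjective _ hs
  obtain ⟨M, hM, hlt, hi⟩ := hG _ hn ht
  refine ⟨M.map (QuotientGroup.mk' N), hM.map _ hs, ?_, ?_⟩
  · constructor
    · rw [← Subgroup.map_comap_eq_self_of_surjective hs K]
      exact Subgroup.map_mono hlt.le
    · intro h
      exact hlt.not_ge (Subgroup.map_le_iff_le_comap.1 h)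
  · rwa [Subgroup.relIndex_comap] at hi

theorem GPS_sub {p : ℕ} (hp : p.Prime) {G : Type} [Group G] [Finite G] (hG : PSol p G)
    (H : Subgroup G) : PSol p H := by
  intro K hK hKt
  let S : Set (Subgroup G) := {N | N.Normal ∧ N.subgroupOf H ≤ K}
  have hbot : (⊥ : Subgroup G) ∈ S := by
    refine ⟨inferInstance, ?_⟩
    rw [Subgroup.bot_subgroupOf]
    exact bot_le
  obtain ⟨N, hN, hmax⟩ := (Set.toFinite S).exists_maximal ⟨_, hbot⟩
  obtain ⟨hN1, hN2⟩ := hN
  have hNt : N ≠ ⊤ := by
    rintro rfl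
    apply hKt
    rw [Subgroup.top_subgroupOf] at hN2
    exact top_le_iff.1 hN2
  obtain ⟨M, hM, hlt, hi⟩ := hG N hN1 hNt
  have hnot : ¬ M.subgroupOf H ≤ K := by
    intro h
    exact hlt.not_ge (hmax ⟨hM, h⟩ hlt.le)
  have : (M.subgroupOf H).Normal := hM.subgroupOf H
  refine ⟨M.subgroupOf H ⊔ K, inferInstance, ?_, ?_⟩
  · constructor
    · exact le_sup_right
    · intro h
      exact hnot (le_sup_left.trans h)
  · rw [Subgroup.relIndex_sup_right]
    exact GPS_dvd hp ((Subgroup.relIndex_dvd_of_le_left _ hN2).trans (GPS_rel N M H)) hi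

theorem prf_GPS : GPS := by
  intro p hp G _ _ hG
  exact ⟨fun H => GPS_sub hp.out hG H, fun N _ => GPS_quot hG N⟩

end MP7b0bad

end

section

set_option autoImplicit false

namespace MP7b0bad

/-- In a finite group, the set of normal subgroups `T ≥ L` with `Q [T : L]` has a largest member,
when `Q` is closed under products and divisors. -/
theorem GPSE_max {H : Type} [Group H] [Finite H] (Q : ℕ → Prop)
    (hmul : ∀ a b, Q a → Q b → Q (a * b)) (hdvd : ∀ a b, a ∣ b → Q b → Q a)
    (L : Subgroup H) (T0 : Subgroup H) (h0 : T0.Normal) (hL : L < T0)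
    (hQ : Q (L.relIndex T0)) :
    ∃ T : Subgroup H, T.Normal ∧ L < T ∧ Q (L.relIndex T) ∧
      ∀ T' : Subgroup H, T'.Normal → L ≤ T' → Q (L.relIndex T') → T' ≤ T := by
  have key : ∀ T T' : Subgroup H, T.Normal → T'.Normal → L ≤ T → L ≤ T' →
      Q (L.relIndex T) → Q (L.relIndex T') → Q (L.relIndex (T ⊔ T')) := by
    intro T T' hT hT' hLT hLT' hq hq'
    rw [← Subgroup.relIndex_mul_relIndex L T (T ⊔ T') hLT le_sup_left]
    refine hmul _ _ hq ?_
    rw [Subgroup.relIndex_sup_left]
    exact hdvd _ _ (Subgroup.relIndex_dvd_of_le_left T' hLT) hq'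
  obtain ⟨T, hT⟩ := (Set.toFinite {T : Subgroup H | T.Normal ∧ L ≤ T ∧ Q (L.relIndex T)}).exists_maximal
    ⟨T0, h0, hL.le, hQ⟩
  obtain ⟨hn, hLT, hq⟩ := hT.prop
  have hall : ∀ T' : Subgroup H, T'.Normal → L ≤ T' → Q (L.relIndex T') → T' ≤ T := by
    intro T' hn' hL' hq'
    have h1 : T ⊔ T' ≤ T := hT.le_of_ge
      ⟨Subgroup.sup_normal T T', hLT.trans le_sup_left, key T T' hn hn' hLT hL' hq hq'⟩ le_sup_left
    exact le_sup_right.trans h1
  exact ⟨T, hn, hL.trans_le (hall T0 h0 hL.le hQ), hq, hall⟩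

theorem GPSE_step {G : Type} [Group G] [Finite G] (Q : ℕ → Prop)
    (hmul : ∀ a b, Q a → Q b → Q (a * b)) (hdvd : ∀ a b, a ∣ b → Q b → Q a)
    (N K : Subgroup G) [hNn : N.Normal] [hKn : K.Normal]
    (T0 : Subgroup N) (h0 : T0.Normal) (hL : K.subgroupOf N < T0)
    (hQ : Q ((K.subgroupOf N).relIndex T0)) :
    ∃ M : Subgroup G, M.Normal ∧ K < M ∧ Q (K.relIndex M) := by
  obtain ⟨T, hn, hLT, hq, hall⟩ := GPSE_max Q hmul hdvd _ T0 h0 hL hQ
  -- `T` is invariant under conjugation
  have hinv : ∀ (g : G), T.map (MulAut.conjNormal g : MulAut N).toMonoidHom ≤ T := by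
    intro g
    have hLm : (K.subgroupOf N).map (MulAut.conjNormal g : MulAut N).toMonoidHom =
        K.subgroupOf N := by
      ext x
      constructor
      · rintro ⟨y, hy, rfl⟩
        have hy' : (y : G) ∈ K := Subgroup.mem_subgroupOf.1 hy
        rw [Subgroup.mem_subgroupOf]
        simpa using hKn.conj_mem _ hy' g
      · intro hx
        have hx' : (x : G) ∈ K := Subgroup.mem_subgroupOf.1 hx
        refine ⟨(MulAut.conjNormal g : MulAut N).symm x, ?_, by simp⟩
        show (MulAut.conjNormal g : MulAut N).symm x ∈ K.subgroupOf N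
        rw [Subgroup.mem_subgroupOf, MulAut.conjNormal_symm_apply]
        simpa using hKn.conj_mem _ hx' g⁻¹
    refine hall _ (hn.map _ (MulEquiv.surjective _)) ?_ ?_
    · rw [← hLm]
      exact Subgroup.map_mono hLT.le
    · have : (K.subgroupOf N).relIndex (T.map (MulAut.conjNormal g : MulAut N).toMonoidHom) =
          (K.subgroupOf N).relIndex T := by
        conv_lhs => rw [← hLm]
        exact Subgroup.relIndex_map_map_of_injective _ _ (MulEquiv.injective _)
      rw [this]; exact hq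
  have hTn : (T.map N.subtype).Normal := by
    constructor
    rintro _ ⟨y, hy, rfl⟩ g
    refine ⟨(MulAut.conjNormal g : MulAut N) y, hinv g ⟨y, hy, rfl⟩, by simp⟩
  have hrel : K.relIndex (T.map N.subtype) = (K.subgroupOf N).relIndex T := by
    rw [Subgroup.subgroupOf, Subgroup.relIndex_comap]
  refine ⟨K ⊔ T.map N.subtype, Subgroup.sup_normal _ _, lt_of_le_of_ne le_sup_left ?_, ?_⟩
  · intro he
    have h1 : T.map N.subtype ≤ K := by
      rw [he]; exact le_sup_right
    have h2 : T ≤ K.subgroupOf N := by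
      rw [Subgroup.subgroupOf, ← Subgroup.map_le_iff_le_comap]; exact h1
    exact absurd hLT (not_lt_of_ge h2)
  · rw [Subgroup.relIndex_sup_left, hrel]; exact hq

/-- extensions of `p`-solvable groups are `p`-solvable -/
theorem prf_GPSE : GPSE := by
  intro p hp G _ _ N _ hN hG K hK hKT
  by_cases hNK : N ≤ K
  · have hker : (QuotientGroup.mk' N).ker = N := QuotientGroup.ker_mk' N
    have hsur : Function.Surjective (QuotientGroup.mk' N) := QuotientGroup.mk'_surjective N
    have hcm : (K.map (QuotientGroup.mk' N)).comap (QuotientGroup.mk' N) = K :=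
      Subgroup.comap_map_eq_self (by rw [hker]; exact hNK)
    obtain ⟨M', hM'n, hlt, htype⟩ := hG (K.map (QuotientGroup.mk' N)) (hK.map _ hsur) (by
      intro he
      apply hKT
      rw [← hcm, he, Subgroup.comap_top])
    have hMm : (M'.comap (QuotientGroup.mk' N)).map (QuotientGroup.mk' N) = M' :=
      Subgroup.map_comap_eq_self_of_surjective hsur M'
    refine ⟨M'.comap (QuotientGroup.mk' N), hM'n.comap _, ?_, ?_⟩
    · refine lt_of_le_of_ne ?_ ?_
      · rw [← Subgroup.map_le_iff_le_comap]; exact hlt.le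
      · intro he
        apply hlt.ne
        rw [he, hMm]
    · have : K.relIndex (M'.comap (QuotientGroup.mk' N)) =
          (K.map (QuotientGroup.mk' N)).relIndex M' := by
        conv_lhs => rw [← hcm]
        rw [Subgroup.relIndex_comap, hMm]
      rw [this]; exact htype
  · have hne : K.subgroupOf N ≠ ⊤ := by
      intro he
      exact hNK (Subgroup.subgroupOf_eq_top.1 he)
    obtain ⟨T0, h0, hlt, htype⟩ := hN (K.subgroupOf N) (hK.subgroupOf N) hne
    rcases htype with hq | hq
    · obtain ⟨M, h1, h2, h3⟩ := GPSE_step (fun x => ∃ n : ℕ, x = p ^ n)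
        (by rintro _ _ ⟨a, rfl⟩ ⟨b, rfl⟩; exact ⟨a + b, (pow_add p a b).symm⟩)
        (by
          rintro a _ hab ⟨n, rfl⟩
          obtain ⟨m, -, hm⟩ := (Nat.dvd_prime_pow hp.out).1 hab
          exact ⟨m, hm⟩) N K T0 h0 hlt hq
      exact ⟨M, h1, h2, Or.inl h3⟩
    · obtain ⟨M, h1, h2, h3⟩ := GPSE_step (fun x => ¬ p ∣ x)
        (by
          intro a b ha hb hab
          rcases hp.out.dvd_mul.1 hab with h | h
          · exact ha h
          · exact hb h)
        (by
          intro a b hab hb ha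
          exact hb (ha.trans hab)) N K T0 h0 hlt hq
      exact ⟨M, h1, h2, Or.inr h3⟩

end MP7b0bad

end

section

set_option autoImplicit false

namespace MP7b0bad

open Subgroup

/-- decomposition in the product of a subgroup and a subgroup normalising it -/
theorem GR3_mem {G : Type} [Group G] (S P : Subgroup G)
    (h : ∀ q ∈ P, ∀ a ∈ S, q * a * q⁻¹ ∈ S) (g : G) (hg : g ∈ S ⊔ P) :
    ∃ s ∈ S, ∃ q ∈ P, g = s * q := by
  let T : Subgroup G :=
    { carrier := {g | ∃ s ∈ S, ∃ q ∈ P, g = s * q}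
      one_mem' := ⟨1, S.one_mem, 1, P.one_mem, by simp⟩
      mul_mem' := by
        rintro _ _ ⟨s, hs, q, hq, rfl⟩ ⟨s', hs', q', hq', rfl⟩
        exact ⟨s * (q * s' * q⁻¹), S.mul_mem hs (h q hq s' hs'), q * q', P.mul_mem hq hq', by group⟩
      inv_mem' := by
        rintro _ ⟨s, hs, q, hq, rfl⟩
        refine ⟨q⁻¹ * s⁻¹ * q, ?_, q⁻¹, P.inv_mem hq, by group⟩
        have := h q⁻¹ (P.inv_mem hq) s⁻¹ (S.inv_mem hs)
        rwa [inv_inv] at this }
  have h1 : S ⊔ P ≤ T := sup_le (fun s hs => ⟨s, hs, 1, P.one_mem, by simp⟩)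
    (fun q hq => ⟨1, S.one_mem, q, hq, by simp⟩)
  exact h1 hg

theorem GR3_disj {G : Type} [Group G] [Finite G] {p : ℕ} [Fact p.Prime] {A P : Subgroup G}
    (hA : ¬ p ∣ Nat.card A) (hP : IsPGroup p P) (x : G) (hx : x ∈ A) (hx' : x ∈ P) : x = 1 := by
  obtain ⟨k, hk⟩ := IsPGroup.iff_orderOf.1 hP ⟨x, hx'⟩
  have h1 : orderOf x ∣ Nat.card A := by
    have := orderOf_dvd_natCard (⟨x, hx⟩ : A)
    rwa [Subgroup.orderOf_mk] at this
  rw [Subgroup.orderOf_mk] at hk
  rcases k with _ | k
  · rw [pow_zero] at hk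
    exact orderOf_eq_one_iff.1 hk
  · exfalso
    apply hA
    rw [hk] at h1
    exact (dvd_pow_self p (Nat.succ_ne_zero k)).trans h1

theorem GR3_top {G : Type} [Group G] [Finite G] {p : ℕ} [Fact p.Prime] {A P S : Subgroup G}
    (hA : ¬ p ∣ Nat.card A) (hP : IsPGroup p P) (hSA : S ≤ A)
    (h : ∀ q ∈ P, ∀ a ∈ S, q * a * q⁻¹ ∈ S) (ht : S ⊔ P = ⊤) : A ≤ S := by
  intro a ha
  obtain ⟨s, hs, q, hq, he⟩ := GR3_mem S P h a (ht ▸ Subgroup.mem_top a)
  have h1 : q = s⁻¹ * a := by rw [he]; group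
  have h2 : q ∈ A := by
    rw [h1]
    exact A.mul_mem (A.inv_mem (hSA hs)) ha
  have h3 := GR3_disj hA hP q h2 hq
  rw [he, h3, mul_one]
  exact hs

/-- the quotient of a subgroup by its intersection with `A` is a `p`-group -/
theorem GR3_quot {G : Type} [Group G] {p : ℕ} {A P : Subgroup G} [hA : A.Normal]
    (hP : IsPGroup p P) (hAP : A ⊔ P = ⊤) (H : Subgroup G) : IsPGroup p (H ⧸ A.subgroupOf H) := by
  intro x
  induction x using QuotientGroup.induction_on with
  | H h =>
    obtain ⟨a, ha, q, hq, he⟩ := GR3_mem A P (fun q _ a ha => hA.conj_mem a ha q) (h : G)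
      (hAP ▸ Subgroup.mem_top _)
    obtain ⟨k, hk⟩ := hP ⟨q, hq⟩
    refine ⟨k, ?_⟩
    rw [← QuotientGroup.mk_pow, QuotientGroup.eq_one_iff, Subgroup.mem_subgroupOf,
      Subgroup.coe_pow, ← QuotientGroup.eq_one_iff (N := A), QuotientGroup.mk_pow, he,
      QuotientGroup.mk_mul, (QuotientGroup.eq_one_iff a).2 ha, one_mul, ← QuotientGroup.mk_pow]
    have h2 : q ^ p ^ k = 1 := congrArg Subtype.val hk
    rw [h2]
    rfl

theorem GR3_sup {H : Type} [Group H] [Finite H] {p : ℕ} [Fact p.Prime] (A P : Subgroup H)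
    [A.Normal] (hq : IsPGroup p (H ⧸ A)) (hn : normalClosure (P : Set H) = ⊤) : A ⊔ P = ⊤ := by
  have hnil : Group.IsNilpotent (H ⧸ A) := hq.isNilpotent
  set M := P.map (QuotientGroup.mk' A) with hM
  rcases eq_top_or_exists_le_coatom M with h | ⟨K, hK, hMK⟩
  · have h1 : M.comap (QuotientGroup.mk' A) = ⊤ := by rw [h, Subgroup.comap_top]
    rw [hM, Subgroup.comap_map_eq, QuotientGroup.ker_mk', sup_comm] at h1
    exact h1
  · exfalso
    have hKn : K.Normal := NormalizerCondition.normal_of_coatom K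
      Group.normalizerCondition_of_isNilpotent hK
    have h1 : P ≤ K.comap (QuotientGroup.mk' A) := Subgroup.map_le_iff_le_comap.1 hMK
    have h2 : normalClosure (P : Set H) ≤ K.comap (QuotientGroup.mk' A) :=
      Subgroup.normalClosure_le_normal h1
    rw [hn, top_le_iff] at h2
    exact hK.1 (Subgroup.comap_injective (QuotientGroup.mk'_surjective A)
      (h2.trans (Subgroup.comap_top _).symm))

/-- the induction hypothesis gives the statement for proper subgroups -/
theorem GR3_zero {p : ℕ} [Fact p.Prime] (R : ∀ (G : Type) [Group G], Subgroup G → Prop)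
    {G : Type} [Group G] [Finite G] (A P : Subgroup G) (hA : A.Normal) (hcA : ¬ p ∣ Nat.card A)
    (hP : IsPGroup p P) (hAP : A ⊔ P = ⊤)
    (IH : ∀ (G' : Type) [Group G'] [Finite G'], Nat.card G' < Nat.card G →
      ∀ A' P' : Subgroup G', A'.Normal → ¬ p ∣ Nat.card A' → IsPGroup p P' → A' ⊔ P' = ⊤ →
      normalClosure (P' : Set G') = ⊤ → R G' P')
    (H P' : Subgroup G) (hH : H ≠ ⊤) (hP' : P' ≤ P) (hPH : P' ≤ H) (hn : nclIn H P' = H) :
    RH R P H := by
  have h1 : normalClosure ((P'.subgroupOf H : Subgroup H) : Set H) = ⊤ := by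
    have h2 : nclIn H P' ≤ (normalClosure ((P'.subgroupOf H : Subgroup H) : Set H)).map H.subtype := by
      rw [nclIn, Subgroup.closure_le]
      rintro g ⟨x, hx, q, hq, rfl⟩
      refine ⟨⟨x, hx⟩ * ⟨q, hPH hq⟩ * ⟨x, hx⟩⁻¹, ?_, rfl⟩
      exact Subgroup.normalClosure_normal.conj_mem _
        (Subgroup.subset_normalClosure (Subgroup.mem_subgroupOf.2 hq)) _
    rw [eq_top_iff]
    rintro ⟨h, hh⟩ -
    obtain ⟨y, hy, he⟩ := h2 (hn.symm ▸ hh)
    have : y = ⟨h, hh⟩ := Subtype.ext he
    rwa [← this]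
  refine ⟨P', hP', hPH, IH H ?_ (A.subgroupOf H) (P'.subgroupOf H) (hA.subgroupOf H) ?_
    ((hP.to_le hP').comap_subtype) ?_ h1⟩
  · exact lt_of_le_of_ne (Subgroup.card_le_card_group H) fun h => hH (Subgroup.eq_top_of_card_eq H h)
  · intro h
    apply hcA
    refine h.trans ?_
    let f : (A.subgroupOf H) →* A :=
      (H.subtype.comp (A.subgroupOf H).subtype).codRestrict A fun x => x.2
    refine Subgroup.card_dvd_of_injective f fun x y hxy => ?_
    have h3 : ((x : H) : G) = ((y : H) : G) := congrArg (fun a : A => (a : G)) hxy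
    exact Subtype.ext (Subtype.ext h3)
  · have : (A.subgroupOf H).Normal := hA.subgroupOf H
    exact GR3_sup _ _ (GR3_quot hP hAP H) h1

theorem GR3_norm {G : Type} [Group G] (Q B : Subgroup G) (h : ∀ q ∈ Q, ∀ b ∈ B, q * b * q⁻¹ ∈ B) :
    Q ≤ normalizer (B : Set G) := by
  intro q hq
  rw [Subgroup.mem_normalizer_iff]
  intro b
  constructor
  · exact fun hb => h q hq b hb
  · intro hb
    have := h q⁻¹ (Q.inv_mem hq) _ hb
    have he : q⁻¹ * (q * b * q⁻¹) * q⁻¹⁻¹ = b := by group
    rwa [he] at this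

theorem GR3_zp {G : Type} [Group G] [Finite G] (t : G) (B : Subgroup G)
    (h : ∀ b ∈ B, t * b * t⁻¹ ∈ B) : ∀ q ∈ zpowers t, ∀ b ∈ B, q * b * q⁻¹ ∈ B := by
  intro q hq
  rw [← mem_powers_iff_mem_zpowers] at hq
  obtain ⟨k, rfl⟩ := hq
  simp only
  induction k with
  | zero => intro b hb; simpa using hb
  | succ k ih =>
    intro b hb
    have h1 := h _ (ih b hb)
    have he : t * (t ^ k * b * (t ^ k)⁻¹) * t⁻¹ = t ^ (k + 1) * b * (t ^ (k + 1))⁻¹ := by
      rw [pow_succ']
      group
    rwa [he] at h1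

/-- the last step: `P` of order `p` and `A` an `r`-group -/
theorem GR3_last {p : ℕ} [Fact p.Prime] (R : ∀ (G : Type) [Group G], Subgroup G → Prop)
    (hR : RelAx p R) {G : Type} [Group G] [Finite G] (A : Subgroup G) (hA : A.Normal)
    (hcA : ¬ p ∣ Nat.card A) (t : G) (ht : orderOf t = p) (hP : IsPGroup p (zpowers t))
    (hAP : A ⊔ zpowers t = ⊤) (hn : normalClosure ((zpowers t : Subgroup G) : Set G) = ⊤)
    (Nz : Subgroup G) (hN : ¬ A ≤ Nz)
    (h2 : ∀ B : Subgroup G, B ≤ A → (∀ q ∈ zpowers t, ∀ b ∈ B, q * b * q⁻¹ ∈ B) → B ≠ A → B ≤ Nz)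
    (r : ℕ) (hr : r.Prime) (hrA : IsPGroup r A) (hA1 : A ≠ ⊥) : R G (zpowers t) := by
  have hrf : Fact r.Prime := ⟨hr⟩
  set 𝓕 : Set (Subgroup G) := {B | B ≤ A ∧ (∀ b ∈ B, t * b * t⁻¹ ∈ B) ∧ B ≠ A} with hF
  set Φ : Subgroup G := sSup 𝓕 with hΦ
  have hΦA : Φ ≤ A := sSup_le fun B hB => hB.1
  have hΦN : Φ ≤ Nz := sSup_le fun B hB => h2 B hB.1 (GR3_zp t B hB.2.1) hB.2.2
  have hne : Φ ≠ A := fun h => hN (h ▸ hΦN)
  have hΦt : ∀ b ∈ Φ, t * b * t⁻¹ ∈ Φ := by
    have h3 : Φ ≤ Φ.comap (MulAut.conj t).toMonoidHom := by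
      refine sSup_le fun B hB b hb => ?_
      exact (le_sSup hB : B ≤ Φ) (hB.2.1 b hb)
    intro b hb
    exact h3 hb
  have hlt : Φ < A := lt_of_le_of_ne hΦA hne
  have htN : zpowers t ≤ normalizer (Φ : Set G) := GR3_norm _ _ (GR3_zp t Φ hΦt)
  have hAN : A ≤ normalizer (Φ : Set G) := by
    by_contra hcon
    have h3 : A ⊓ normalizer (Φ : Set G) ∈ 𝓕 := by
      refine ⟨inf_le_left, ?_, fun h => hcon (h ▸ inf_le_right)⟩
      intro b hb
      refine ⟨hA.conj_mem b hb.1 t, ?_⟩
      have h4 : t ∈ normalizer (Φ : Set G) := htN (mem_zpowers t)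
      exact (normalizer (Φ : Set G)).mul_mem ((normalizer (Φ : Set G)).mul_mem h4 hb.2)
        ((normalizer (Φ : Set G)).inv_mem h4)
    have h5 : A ⊓ normalizer (Φ : Set G) ≤ Φ := le_sSup h3
    have hnil : Group.IsNilpotent A := hrA.isNilpotent
    have h6 : Φ.subgroupOf A < ⊤ := by
      rw [lt_top_iff_ne_top, ne_eq, Subgroup.subgroupOf_eq_top]
      exact fun h => hne (le_antisymm hΦA h)
    have h7 := Group.normalizerCondition_of_isNilpotent (G := A) _ h6
    obtain ⟨x, hx1, hx2⟩ := SetLike.exists_of_lt h7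
    apply hx2
    rw [Subgroup.mem_subgroupOf]
    apply h5
    have h9 : (x : G) ∈ normalizer (Φ : Set G) := by
      rw [Subgroup.mem_normalizer_iff] at hx1 ⊢
      intro b
      constructor
      · intro hb
        exact (hx1 ⟨b, hΦA hb⟩).1 hb
      · intro hb
        have hbA : b ∈ A := by
          have h8 := A.mul_mem (A.mul_mem (A.inv_mem x.2) (hΦA hb)) x.2
          have he : (x : G)⁻¹ * (x * b * (x : G)⁻¹) * x = b := by group
          rwa [he] at h8
        exact (hx1 ⟨b, hbA⟩).2 hb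
    exact ⟨x.2, h9⟩
  have hnPhi : Φ.Normal := by
    rw [← Subgroup.normalizer_eq_top_iff, eq_top_iff, ← hAP]
    exact sup_le hAN htN
  have hrp : r ≠ p := by
    intro h
    apply hcA
    obtain ⟨k, hk⟩ := IsPGroup.iff_card.1 hrA
    rw [hk, h]
    rcases k with _ | k
    · rw [pow_zero] at hk
      exact absurd (Subgroup.card_eq_one.1 hk) hA1
    · exact dvd_pow_self p (Nat.succ_ne_zero k)
  refine hR.blk G r A Φ t
    { rprime := hr
      ne := hrp
      ord := ht
      nA := hA
      pA := hrA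
      gen := hAP
      ncl := ?_
      nPhi := hnPhi
      lt := hlt
      max := fun B hB1 hB2 hB3 => le_sSup (⟨hB1, hB2, hB3⟩ : B ∈ 𝓕) }
  rw [eq_top_iff, ← hn]
  refine Subgroup.normalClosure_le_normal ?_
  intro x hx
  have h3 : zpowers t ≤ normalClosure ({t} : Set G) := by
    rw [Subgroup.zpowers_le]
    exact Subgroup.subset_normalClosure rfl
  exact h3 hx

theorem GR3_main {p : ℕ} [hp : Fact p.Prime] (R : ∀ (G : Type) [Group G], Subgroup G → Prop)
    (hR : RelAx p R) (hGJoin : GJoin) (hGConj : GConj) (hGCop : GCop)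
    {G : Type} [Group G] [Finite G] (A P : Subgroup G) (hA : A.Normal) (hcA : ¬ p ∣ Nat.card A)
    (hP : IsPGroup p P) (hAP : A ⊔ P = ⊤) (hn : normalClosure (P : Set G) = ⊤)
    (IH : ∀ (G' : Type) [Group G'] [Finite G'], Nat.card G' < Nat.card G →
      ∀ A' P' : Subgroup G', A'.Normal → ¬ p ∣ Nat.card A' → IsPGroup p P' → A' ⊔ P' = ⊤ →
      normalClosure (P' : Set G') = ⊤ → R G' P') : R G P := by
  classical
  by_cases hPt : P = ⊤
  · subst hPt
    exact hR.pgr G (hP.of_equiv Subgroup.topEquiv)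
  have hA1 : A ≠ ⊥ := by
    intro h
    rw [h, bot_sup_eq] at hAP
    exact hPt hAP
  have hP1 : P ≠ ⊥ := by
    intro h
    rw [h] at hn
    have h3 : normalClosure ((⊥ : Subgroup G) : Set G) ≤ ⊥ := Subgroup.normalClosure_le_normal le_rfl
    rw [hn] at h3
    exact hPt (h.trans (le_antisymm bot_le h3))
  obtain ⟨hPP, hjoin⟩ := hGJoin p R hR G P hP
  by_cases hJt : sSup {H : Subgroup G | RH R P H} = ⊤
  · exact hjoin hJt
  set J : Subgroup G := sSup {H : Subgroup G | RH R P H} with hJ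
  have hPJ : P ≤ J := le_sSup hPP
  set Nz : Subgroup G := normalizer (J : Set G) with hNz
  have hJN : J ≤ Nz := Subgroup.le_normalizer
  -- elements centralising `P` normalise `J`
  have hcN : ∀ c : G, (∀ q ∈ P, c * q = q * c) → c ∈ Nz := by
    have key : ∀ c : G, (∀ q ∈ P, c * q = q * c) → ∀ b ∈ J, c * b * c⁻¹ ∈ J := by
      intro c hc
      have h3 : J ≤ J.comap (MulAut.conj c).toMonoidHom := by
        refine sSup_le fun B hB => ?_
        rw [← Subgroup.map_le_iff_le_comap]
        exact le_sSup ((hGConj p R hR G P).1 c B hc hB)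
      intro b hb
      exact h3 hb
    intro c hc
    rw [hNz, Subgroup.mem_normalizer_iff]
    intro b
    refine ⟨fun hb => key c hc b hb, fun hb => ?_⟩
    have hc' : ∀ q ∈ P, c⁻¹ * q = q * c⁻¹ := by
      intro q hq
      rw [inv_mul_eq_iff_eq_mul, ← mul_assoc, hc q hq, mul_assoc, mul_inv_cancel, mul_one]
    have h4 := key c⁻¹ hc' _ hb
    have he : c⁻¹ * (c * b * c⁻¹) * c⁻¹⁻¹ = b := by group
    rwa [he] at h4
  have hN : ¬ A ≤ Nz := by
    intro h
    have h3 : Nz = ⊤ := by
      rw [eq_top_iff, ← hAP]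
      exact sup_le h (hPJ.trans hJN)
    have h4 : J.Normal := Subgroup.normalizer_eq_top_iff.1 h3
    have h5 : normalClosure (P : Set G) ≤ J := Subgroup.normalClosure_le_normal hPJ
    rw [hn, top_le_iff] at h5
    exact hJt h5
  have hnA : ∀ q : G, ∀ a ∈ A, q * a * q⁻¹ ∈ A := fun q a ha => hA.conj_mem a ha q
  -- claim (2)
  have claim2 : ∀ B P' : Subgroup G, B ≤ A → P' ≤ P → (∀ q ∈ P', ∀ b ∈ B, q * b * q⁻¹ ∈ B) →
      B ⊔ P' ≠ ⊤ → ∀ b ∈ B, ∃ d ∈ J, ∃ c ∈ B, (∀ q ∈ P', c * q = q * c) ∧ b = d * c := by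
    intro B P' hBA hP' hBn hBt b hb
    have hcB : ¬ p ∣ Nat.card B := fun h => hcA (h.trans (Subgroup.card_dvd_of_le hBA))
    obtain ⟨h3, h4, -⟩ := hGCop p G B P' hcB (hP.to_le hP') hBn
    obtain ⟨d, hd, c, hc, hcc, he⟩ := h3 b hb
    have hle : nclIn (B ⊔ P') P' ≤ B ⊔ P' := by
      rw [nclIn, Subgroup.closure_le]
      rintro g ⟨x, hx, q, hq, rfl⟩
      exact (B ⊔ P').mul_mem ((B ⊔ P').mul_mem hx (le_sup_right (a := B) hq))
        ((B ⊔ P').inv_mem hx)
    have hPle : P' ≤ nclIn (B ⊔ P') P' := by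
      intro q hq
      exact Subgroup.subset_closure ⟨1, (B ⊔ P').one_mem, q, hq, by group⟩
    have h5 : RH R P (nclIn (B ⊔ P') P') :=
      GR3_zero R A P hA hcA hP hAP IH _ P' (fun h => hBt (top_le_iff.1 (h ▸ hle))) hP' hPle h4
    exact ⟨d, (le_sSup h5 : _ ≤ J) hd, c, hc, hcc, he⟩
  have claim3 : ∀ B : Subgroup G, B ≤ A → (∀ q ∈ P, ∀ b ∈ B, q * b * q⁻¹ ∈ B) → B ≠ A →
      B ≤ Nz := by
    intro B hBA hBn hne b hb
    obtain ⟨d, hd, c, hc, hcc, rfl⟩ := claim2 B P hBA le_rfl hBn
      (fun h => hne (le_antisymm hBA (GR3_top hcA hP hBA hBn h))) b hb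
    exact Nz.mul_mem (hJN hd) (hcN c hcc)
  -- a central element of order `p` of `P`
  have hPnt : Nontrivial P := (Subgroup.nontrivial_iff_ne_bot P).2 hP1
  have hcen : Nontrivial (Subgroup.center P) := hP.center_nontrivial
  obtain ⟨z, hz⟩ : ∃ z : Subgroup.center P, orderOf z = p := by
    obtain ⟨k, hk⟩ := IsPGroup.iff_card.1 (hP.to_subgroup (Subgroup.center P))
    refine exists_prime_orderOf_dvd_card' p ?_
    rw [hk]
    rcases k with _ | k
    · rw [pow_zero] at hk
      have := (Nat.card_eq_one_iff_unique.1 hk).1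
      exact absurd hcen (not_nontrivial_iff_subsingleton.2 this)
    · exact dvd_pow_self p (Nat.succ_ne_zero k)
  set t : G := ((z : P) : G) with htd
  have ht : orderOf t = p := by
    rw [htd, Subgroup.orderOf_coe, Subgroup.orderOf_coe]
    exact hz
  have htP : t ∈ P := (z : P).2
  have htc : ∀ q ∈ P, t * q = q * t := by
    intro q hq
    have h3 := Subgroup.mem_center_iff.1 z.2 ⟨q, hq⟩
    exact (congrArg Subtype.val h3).symm
  by_cases hZP : zpowers t = P
  · -- `P` has order `p`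
    by_cases hS : ∃ r : ℕ, r.Prime ∧ IsPGroup r A
    · obtain ⟨r, hr, hrA⟩ := hS
      rw [← hZP] at hP hAP hn claim3 ⊢
      exact GR3_last R hR A hA hcA t ht hP hAP hn Nz hN claim3 r hr hrA hA1
    · exfalso
      apply hN
      have h3 : ∀ r : ℕ, r.Prime → r ^ (Nat.card A).factorization r ∣ Nat.card ↥(A ⊓ Nz) := by
        intro r hr
        obtain ⟨S, hSA, hSn, hSc⟩ := (hGCop p G A P hcA hP (fun q _ a ha => hnA q a ha)).2.2 r hr
        have hne : S ≠ A := by
          intro h
          have : Fact r.Prime := ⟨hr⟩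
          exact hS ⟨r, hr, IsPGroup.of_card (n := (Nat.card A).factorization r) (h ▸ hSc)⟩
        rw [← hSc]
        exact Subgroup.card_dvd_of_le (le_inf hSA (claim3 S hSA hSn hne))
      have h4 : Nat.card A ∣ Nat.card ↥(A ⊓ Nz) := by
        rw [Nat.dvd_iff_prime_pow_dvd_dvd]
        intro r k hr hk
        have h5 : k ≤ (Nat.card A).factorization r :=
          (hr.pow_dvd_iff_le_factorization Nat.card_pos.ne').1 hk
        exact (pow_dvd_pow r h5).trans (h3 r hr)
      have h5 : A ⊓ Nz = A := Subgroup.eq_of_le_of_card_ge inf_le_left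
        (Nat.le_of_dvd Nat.card_pos h4)
      rw [← h5]
      exact inf_le_right
  · -- `Z = zpowers t` is central in `G`
    have hZle : zpowers t ≤ P := by rwa [Subgroup.zpowers_le]
    have hZt : A ⊔ zpowers t ≠ ⊤ := by
      intro h
      apply hZP
      refine le_antisymm hZle fun q hq => ?_
      obtain ⟨a, ha, z', hz', he⟩ := GR3_mem A (zpowers t) (fun q _ a ha => hnA q a ha) q
        (h ▸ Subgroup.mem_top q)
      have h3 : a = q * z'⁻¹ := by rw [he]; group
      have h4 : a ∈ P := by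
        rw [h3]
        exact P.mul_mem hq (P.inv_mem (hZle hz'))
      have h5 := GR3_disj hcA hP a ha h4
      rw [he, h5, one_mul]
      exact hz'
    have hcA2 : A ≤ Subgroup.centralizer {t} := by
      by_contra hcon
      set D : Subgroup G := A ⊓ Subgroup.centralizer {t} with hD
      have hDA : D ≤ A := inf_le_left
      have hDne : D ≠ A := fun h => hcon (h ▸ inf_le_right)
      have hDn : ∀ q ∈ P, ∀ b ∈ D, q * b * q⁻¹ ∈ D := by
        intro q hq b hb
        refine ⟨hnA q b hb.1, ?_⟩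
        have hb2 : t * b = b * t := Subgroup.mem_centralizer_iff.1 hb.2 t rfl
        have hq2 := htc q hq
        have hq3 := htc q⁻¹ (P.inv_mem hq)
        show _ ∈ Subgroup.centralizer {t}
        rw [Subgroup.mem_centralizer_iff]
        rintro _ rfl
        calc t * (q * b * q⁻¹) = (t * q) * b * q⁻¹ := by group
          _ = q * (t * b) * q⁻¹ := by rw [hq2]; group
          _ = q * b * (t * q⁻¹) := by rw [hb2]; group
          _ = q * b * q⁻¹ * t := by rw [hq3]; group
      apply hN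
      intro a ha
      obtain ⟨d, hd, c, hc, hcc, rfl⟩ := claim2 A (zpowers t) le_rfl hZle
        (fun q _ a ha => hnA q a ha) hZt a ha
      refine Nz.mul_mem (hJN hd) (claim3 D hDA hDn hDne ⟨hc, ?_⟩)
      show _ ∈ Subgroup.centralizer {t}
      rw [Subgroup.mem_centralizer_iff]
      rintro _ rfl
      exact (hcc t (mem_zpowers t)).symm
    have htcen : ∀ g : G, g * t = t * g := by
      intro g
      obtain ⟨a, ha, q, hq, rfl⟩ := GR3_mem A P (fun q _ a ha => hnA q a ha) g
        (hAP ▸ Subgroup.mem_top g)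
      have h3 : t * a = a * t := Subgroup.mem_centralizer_iff.1 (hcA2 ha) t rfl
      rw [mul_assoc, ← htc q hq, ← mul_assoc, ← h3, mul_assoc]
    have hZn : (zpowers t).Normal := by
      refine ⟨fun x hx g => ?_⟩
      obtain ⟨k, rfl⟩ := Subgroup.mem_zpowers_iff.1 hx
      have h3 : Commute g (t ^ k) := (show Commute g t from htcen g).zpow_right k
      rw [h3.eq, mul_assoc, mul_inv_cancel, mul_one]
      exact hx
    have hsurj := QuotientGroup.mk'_surjective (zpowers t)
    have hcard : Nat.card (G ⧸ zpowers t) < Nat.card G := by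
      have h3 := Subgroup.card_eq_card_quotient_mul_card_subgroup (zpowers t)
      rw [Nat.card_zpowers, ht] at h3
      rw [h3]
      have h4 : 0 < Nat.card (G ⧸ zpowers t) := Nat.card_pos
      have h5 := hp.out.two_le
      nlinarith
    have hRq : R (G ⧸ zpowers t) (P.map (QuotientGroup.mk' (zpowers t))) := by
      refine IH _ hcard (A.map (QuotientGroup.mk' (zpowers t)))
        (P.map (QuotientGroup.mk' (zpowers t))) (hA.map _ hsurj)
        (fun h => hcA (h.trans (Subgroup.card_map_dvd _ _))) (hP.map _) ?_ ?_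
      · rw [← Subgroup.map_sup, hAP, Subgroup.map_top_of_surjective _ hsurj]
      · rw [Subgroup.coe_map, ← Subgroup.map_normalClosure _ _ hsurj, hn,
          Subgroup.map_top_of_surjective _ hsurj]
    obtain ⟨G', hPG, hZG, hRG⟩ := hR.emb G (zpowers t) P hP
      (by
        intro a ha
        obtain ⟨k, rfl⟩ := Subgroup.mem_zpowers_iff.1 ha
        rw [← zpow_natCast, ← zpow_mul, mul_comm, zpow_mul, zpow_natCast, ← ht, pow_orderOf_eq_one,
          one_zpow])
      (by
        intro a ha b hb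
        obtain ⟨k, rfl⟩ := Subgroup.mem_zpowers_iff.1 ha
        obtain ⟨l, rfl⟩ := Subgroup.mem_zpowers_iff.1 hb
        rw [← zpow_add, ← zpow_add, add_comm]) hRq
    have hG' : G' = ⊤ := by
      rw [← hZG]
      exact (sup_eq_right.2 (hZle.trans hPG)).symm
    subst hG'
    exact (hGConj p R hR G P).2.1 hRG

theorem prf_GR3 (hGJoin : GJoin) (hGConj : GConj) (hGCop : GCop) (_ : GSC) : GR3 := by
  intro p _ R hR
  have key : ∀ n : ℕ, ∀ (G : Type) [Group G] [Finite G], Nat.card G = n → ∀ A P : Subgroup G,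
      A.Normal → ¬ p ∣ Nat.card A → IsPGroup p P → A ⊔ P = ⊤ →
      normalClosure (P : Set G) = ⊤ → R G P := by
    intro n
    induction n using Nat.strong_induction_on with
    | _ n ih =>
      intro G _ _ hc A P hA hcA hP hAP hn
      subst hc
      exact GR3_main R hR hGJoin hGConj hGCop A P hA hcA hP hAP hn
        fun G' _ _ hlt => ih _ hlt G' rfl
  intro G _ _ A P
  exact key _ G rfl A P

end MP7b0bad

end

section

/-! # MP_7b0bad_ag, item GSC (helper78): subnormal closures -/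

set_option autoImplicit false

namespace MP7b0bad

lemma GSC_le {G : Type} [Group G] (X Q : Subgroup G) (h : Q ≤ X) : nclIn X Q ≤ X := by
  unfold nclIn
  rw [Subgroup.closure_le]
  rintro g ⟨x, hx, q, hq, rfl⟩
  exact X.mul_mem (X.mul_mem hx (h hq)) (X.inv_mem hx)

lemma GSC_ge {G : Type} [Group G] (X Q : Subgroup G) : Q ≤ nclIn X Q := by
  intro q hq
  exact Subgroup.subset_closure ⟨1, X.one_mem, q, hq, by simp⟩

lemma GSC_conj {G : Type} [Group G] (X Q : Subgroup G) (x : G) (hx : x ∈ X) (g : G)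
    (hg : g ∈ nclIn X Q) : x * g * x⁻¹ ∈ nclIn X Q := by
  unfold nclIn at hg ⊢
  induction hg using Subgroup.closure_induction with
  | mem y hy =>
    obtain ⟨z, hz, q, hq, rfl⟩ := hy
    exact Subgroup.subset_closure ⟨x * z, X.mul_mem hx hz, q, hq, by group⟩
  | one => simp
  | mul y z _ _ hy hz =>
    have : x * (y * z) * x⁻¹ = (x * y * x⁻¹) * (x * z * x⁻¹) := by group
    rw [this]
    exact Subgroup.mul_mem _ hy hz
  | inv y _ hy =>
    have : x * y⁻¹ * x⁻¹ = (x * y * x⁻¹)⁻¹ := by group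
    rw [this]
    exact Subgroup.inv_mem _ hy

lemma GSC_step {G : Type} [Group G] (X Q M : Subgroup G) (hM : M.Normal)
    (hMX : M ⊔ X = ⊤) (hcl : Subgroup.normalClosure ((Q : Set G) ∪ M) = ⊤) :
    M ⊔ nclIn X Q = ⊤ := by
  have hn : (M ⊔ nclIn X Q).Normal := by
    refine ⟨fun t ht g => ?_⟩
    have hg : g ∈ M ⊔ X := by rw [hMX]; exact Subgroup.mem_top g
    rw [Subgroup.mem_sup_of_normal_left] at hg
    obtain ⟨m, hm, x, hx, rfl⟩ := hg
    have h1 : x * t * x⁻¹ ∈ M ⊔ nclIn X Q := by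
      rw [Subgroup.mem_sup_of_normal_left] at ht
      obtain ⟨m', hm', y, hy, rfl⟩ := ht
      have : x * (m' * y) * x⁻¹ = (x * m' * x⁻¹) * (x * y * x⁻¹) := by group
      rw [this]
      exact Subgroup.mul_mem_sup (hM.conj_mem m' hm' x) (GSC_conj X Q x hx y hy)
    have h2 : m * x * t * (m * x)⁻¹ = m * (x * t * x⁻¹) * m⁻¹ := by group
    rw [h2]
    have hm2 : m ∈ M ⊔ nclIn X Q := Subgroup.mem_sup_left hm
    exact Subgroup.mul_mem _ (Subgroup.mul_mem _ hm2 h1) (Subgroup.inv_mem _ hm2)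
  rw [eq_top_iff, ← hcl]
  refine Subgroup.normalClosure_le_normal ?_
  rintro g (hg | hg)
  · exact Subgroup.mem_sup_right (GSC_ge X Q hg)
  · exact Subgroup.mem_sup_left hg

theorem prf_GSC : GSC := by
  intro G _ _ X Q hQX
  induction X using WellFoundedLT.induction with
  | ind X ih =>
    by_cases h : nclIn X Q = X
    · exact ⟨X, hQX, le_rfl, h, fun M _ hMX _ => hMX⟩
    · obtain ⟨Y, h1, h2, h3, h4⟩ := ih (nclIn X Q) (lt_of_le_of_ne (GSC_le X Q hQX) h)
        (GSC_ge X Q)
      exact ⟨Y, h1, h2.trans (GSC_le X Q hQX), h3,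
        fun M hM hMX hcl => h4 M hM (GSC_step X Q M hM hMX hcl) hcl⟩

end MP7b0bad

end
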