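import Pool.Agent.Work.MP_7b0bad_ag.Bd.B06
import Pool.Agent.Work.MP_7b0bad_ag.Bd.B03
import Pool.Agent.Work.MP_7b0bad_ag.Bd.B05
import Pool.Agent.Work.MP_7b0bad_ag.Bd.B01
import Pool.Agent.Work.MP_7b0bad_ag.Bd.B02
import Pool.Agent.Work.MP_7b0bad_ag.Bd.B08
import Pool.Agent.Work.MP_7b0bad_ag.Bd.B04

/-! Bundle of small proof modules (one section per former module). -/

section

set_option autoImplicit false

namespace MP7b0bad

open Polynomial TensorProduct

/-- the degree of a Galois algebra which is free of rank `n` -/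
theorem QDomB_rank (hQGL : QGL) {R : Type} [CommRing R] {G : Type} [Group G] [Finite G] {B : Type}
    [CommRing B] [Nontrivial B] [Algebra R B] [MulSemiringAction G B] (h : GalAlg R G B) {n : ℕ}
    (β : Module.Basis (Fin n) R B) : n = Nat.card G := by
  classical
  have := Fintype.ofFinite G
  let _ : MulSemiringAction PUnit B :=
    { smul := fun _ b => b
      one_smul := fun _ => rfl
      mul_smul := fun _ _ _ => rfl
      smul_zero := fun _ => rfl
      smul_add := fun _ _ _ => rfl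
      smul_one := fun _ => rfl
      smul_mul := fun _ _ _ => rfl }
  have key : ∀ v : G → B, ∃! c : Fin n → B, ∀ γ : G, v γ = ∑ l, c l * (γ⁻¹ • β l) := by
    intro v
    have h1 := hQGL R B (algebraMap R B) G PUnit (1 : PUnit →* G) B B (RingHom.id B) h
      (fun _ _ => rfl) (fun _ _ hxy => hxy) (fun c _ => ⟨c, rfl⟩) (fun _ => rfl)
      (fun _ b => by
        rw [MonoidHom.one_apply, one_smul]
        rfl) n β v
      (fun γ _ => by
        rw [MonoidHom.one_apply, mul_one]
        rfl)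
    exact h1
  let Φ : (Fin n → B) →ₗ[B] (G → B) :=
    { toFun := fun c γ => ∑ l, c l * (γ⁻¹ • β l)
      map_add' := fun c d => by
        funext γ
        simp only [Pi.add_apply, add_mul, Finset.sum_add_distrib]
      map_smul' := fun a c => by
        funext γ
        simp only [Pi.smul_apply, smul_eq_mul, RingHom.id_apply, Finset.mul_sum, mul_assoc] }
  have hΦ : Function.Bijective Φ := by
    constructor
    · intro c d hcd
      obtain ⟨e, _, he⟩ := key (Φ c)
      have h1 : c = e := he c fun γ => rfl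
      have h2 : d = e := he d fun γ => by rw [hcd]; rfl
      rw [h1, h2]
    · intro v
      obtain ⟨e, he, _⟩ := key v
      exact ⟨e, funext fun γ => (he γ).symm⟩
  have h1 := LinearEquiv.finrank_eq (LinearEquiv.ofBijective Φ hΦ)
  rw [Module.finrank_fin_fun, Module.finrank_pi, ← Nat.card_eq_fintype_card] at h1
  exact h1

/-- connectedness from a primitive element -/
theorem QDomB_dom {κ : Type} [Field κ] {B : Type} [CommRing B] [Algebra κ[X] B]
    [Module.Free κ[X] B] [Module.Finite κ[X] B] (θ : B) (F : κ[X][X]) (hm : F.Monic)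
    (hd : F.natDegree = Module.finrank κ[X] B) (h0 : aeval θ F = 0) (hF : Irreducible F) :
    IsDomain B := by
  let L := FractionRing κ[X]
  let FL : L[X] := F.map (algebraMap κ[X] L)
  have hFL : Irreducible FL := (hm.irreducible_iff_irreducible_map_fraction_map (K := L)).mp hF
  have hFm : FL.Monic := hm.map _
  have hdL : FL.natDegree = F.natDegree := hm.natDegree_map _
  have : Fact (Irreducible FL) := ⟨hFL⟩
  have hrank : Module.finrank L (L ⊗[κ[X]] B) = Module.finrank κ[X] B := Module.finrank_baseChange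
  have hpos : 0 < Module.finrank κ[X] B := by
    rw [← hd]
    rcases Nat.eq_zero_or_pos F.natDegree with h | h
    · exfalso
      have h2 : F = 1 := hm.natDegree_eq_zero.mp h
      exact hF.not_isUnit (h2 ▸ isUnit_one)
    · exact h
  have : Nontrivial (L ⊗[κ[X]] B) := Module.nontrivial_of_finrank_pos (R := L) (by rw [hrank]; exact hpos)
  have hθ : aeval (Algebra.TensorProduct.includeRight θ : L ⊗[κ[X]] B) FL = 0 := by
    have h1 : aeval (Algebra.TensorProduct.includeRight θ : L ⊗[κ[X]] B) FL =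
        aeval (Algebra.TensorProduct.includeRight θ : L ⊗[κ[X]] B) F :=
      aeval_map_algebraMap L _ F
    rw [h1, aeval_algHom_apply, h0, map_zero]
  let ψ : AdjoinRoot FL →ₐ[L] (L ⊗[κ[X]] B) :=
    AdjoinRoot.liftAlgHom FL (Algebra.ofId L (L ⊗[κ[X]] B))
      (Algebra.TensorProduct.includeRight θ : L ⊗[κ[X]] B) hθ
  have hψi : Function.Injective ψ := (ψ : AdjoinRoot FL →+* (L ⊗[κ[X]] B)).injective
  have hfin : FiniteDimensional L (AdjoinRoot FL) := (AdjoinRoot.powerBasis hFm.ne_zero).finite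
  have hrk : Module.finrank L (AdjoinRoot FL) = Module.finrank L (L ⊗[κ[X]] B) := by
    rw [(AdjoinRoot.powerBasis hFm.ne_zero).finrank, AdjoinRoot.powerBasis_dim, hdL, hd, hrank]
  have hψs : Function.Surjective ψ :=
    (LinearMap.injective_iff_surjective_of_finrank_eq_finrank (f := ψ.toLinearMap) hrk).mp hψi
  let e : AdjoinRoot FL ≃ₐ[L] (L ⊗[κ[X]] B) := AlgEquiv.ofBijective ψ ⟨hψi, hψs⟩
  have hinj : Function.Injective (Algebra.TensorProduct.includeRight : B →ₐ[κ[X]] L ⊗[κ[X]] B) :=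
    Algebra.TensorProduct.includeRight_injective (IsFractionRing.injective κ[X] L)
  let f : B →+* AdjoinRoot FL :=
    (e.symm : (L ⊗[κ[X]] B) →+* AdjoinRoot FL).comp
      (Algebra.TensorProduct.includeRight : B →ₐ[κ[X]] L ⊗[κ[X]] B).toRingHom
  have hf : Function.Injective f := e.symm.injective.comp hinj
  exact hf.isDomain f

theorem prf_QDomB (hQGL : QGL) (hQFree : QFree) : QDomB := by
  intro κ _ G _ _ B _ _ _ h
  have := hQFree κ G B h
  have := gal_finite h
  have : Nontrivial B := h.inj.nontrivial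
  have h1 : Module.finrank κ[X] B = Nat.card G := QDomB_rank hQGL h (Module.finBasis κ[X] B)
  exact ⟨h1, fun θ F hm hd h0 hF => QDomB_dom θ F hm (hd.trans h1.symm) h0 hF⟩

end MP7b0bad

end

section

set_option autoImplicit false

namespace MP7b0bad

open Polynomial

section

variable {p : ℕ} [Fact p.Prime] {B : Type} [CommRing B] [CharP B p]

theorem QELN_val_eq (x : ZMod p) : (((x.val : ℕ)) : B) = ZMod.castHom (dvd_refl p) B x := by
  rw [ZMod.natCast_val, ZMod.castHom_apply]

theorem QELN_val_add (x y : ZMod p) : ((((x + y).val : ℕ)) : B) = ((x.val : ℕ) : B) + ((y.val : ℕ) : B) := by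
  rw [QELN_val_eq, QELN_val_eq, QELN_val_eq, map_add]

theorem QELN_val_mul (x y : ZMod p) : ((((x * y).val : ℕ)) : B) = ((x.val : ℕ) : B) * ((y.val : ℕ) : B) := by
  rw [QELN_val_eq, QELN_val_eq, QELN_val_eq, map_mul]

theorem QELN_val_sum {ι : Type} (s : Finset ι) (f : ι → ZMod p) :
    ((((∑ i ∈ s, f i).val : ℕ)) : B) = ∑ i ∈ s, (((f i).val : ℕ) : B) := by
  simp only [QELN_val_eq, map_sum]

theorem QELN_val_pow (x : ZMod p) : (((x.val : ℕ)) : B) ^ p = ((x.val : ℕ) : B) := by
  rw [QELN_val_eq, ← map_pow, ZMod.pow_card]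

theorem QELN_val_one : ((((1 : ZMod p).val : ℕ)) : B) = 1 := by
  rw [QELN_val_eq, map_one]

theorem QELN_val_zero : ((((0 : ZMod p).val : ℕ)) : B) = 0 := by
  rw [QELN_val_eq, map_zero]

end

theorem QELN_smul_nat {Gb : Type} [Group Gb] {B : Type} [CommRing B] [MulSemiringAction Gb B]
    (g : Gb) (n : ℕ) : g • (n : B) = (n : B) :=
  map_natCast (MulSemiringAction.toRingHom Gb B g) n

theorem prf_QELN : QELN := by
  intro R _ p r _ _ G Gb _ _ _ q ρ ν B _ _ _ hE hB
  classical
  have : Finite Gb := Finite.of_surjective q hE.surj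
  have := Fintype.ofFinite Gb
  have hcharB : CharP B p := charP_of_injective_algebraMap hB.inj p
  obtain ⟨ϑ, hϑ⟩ := gal_trace_one hB
  choose s hs using hE.surj
  set N : G → Gb → G := fun g τ => g * s τ * (s (q g * τ))⁻¹ with hN
  have hNker : ∀ g τ, N g τ ∈ q.ker := by
    intro g τ
    rw [MonoidHom.mem_ker, hN]
    simp only [map_mul, map_inv, hs]
    group
  have hNmul : ∀ g h τ, N (g * h) τ = (g * N h τ * g⁻¹) * N g (q h * τ) := by
    intro g h τ
    simp only [hN, map_mul, mul_assoc]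
    group
  have hν : ∀ g h τ, ν (N (g * h) τ) = Matrix.mulVec (ρ g) (ν (N h τ)) + ν (N g (q h * τ)) := by
    intro g h τ
    have h1 : g * N h τ * g⁻¹ ∈ q.ker := (MonoidHom.normal_ker q).conj_mem _ (hNker h τ) g
    rw [hNmul, hE.nu_mul _ h1 _ (hNker g (q h * τ)), hE.conj _ _ (hNker h τ)]
  set b : G → Fin r → B := fun g j => ∑ τ : Gb, (((ν (N g τ) j).val : ℕ) : B) * ((q g * τ) • ϑ) with hb
  have hbmul : ∀ g h : G, b (g * h) = b g + stA (ρ g) (fun x => q g • x) (b h) := by
    intro g h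
    funext j
    show (∑ τ : Gb, (((ν (N (g * h) τ) j).val : ℕ) : B) * ((q (g * h) * τ) • ϑ)) =
      b g j + ∑ k, (((ρ g j k).val : ℕ) : B) * (q g • b h k)
    have h1 : ∀ τ : Gb, (((ν (N (g * h) τ) j).val : ℕ) : B) * ((q (g * h) * τ) • ϑ) =
        (((ν (N g (q h * τ)) j).val : ℕ) : B) * ((q g * (q h * τ)) • ϑ) +
        ∑ k, (((ρ g j k).val : ℕ) : B) * (q g • ((((ν (N h τ) k).val : ℕ) : B) * ((q h * τ) • ϑ))) := by
      intro τ
      rw [hν, Pi.add_apply, QELN_val_add, Matrix.mulVec, dotProduct, QELN_val_sum, add_mul, add_comm,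
        map_mul, mul_assoc]
      congr 1
      rw [Finset.sum_mul]
      refine Finset.sum_congr rfl fun k _ => ?_
      rw [QELN_val_mul, smul_mul', QELN_smul_nat, smul_smul, mul_assoc]
    simp only [h1, Finset.sum_add_distrib]
    congr 1
    · rw [hb]
      exact Fintype.sum_bijective (fun τ => q h * τ) (Group.mulLeft_bijective _) _ _ fun τ => rfl
    · rw [Finset.sum_comm]
      refine Finset.sum_congr rfl fun k _ => ?_
      rw [hb, Finset.smul_sum, Finset.mul_sum]
  have hbker : ∀ n ∈ q.ker, ∀ j, b n j = (((ν n j).val : ℕ) : B) := by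
    intro n hn j
    have hn' : q n = 1 := hn
    have h1 : ∀ τ, N n τ = n := by
      intro τ
      simp only [hN, hn', one_mul]
      group
    rw [hb]
    simp only [h1, hn', one_mul]
    rw [← Finset.mul_sum, hϑ, mul_one]
  -- the cocycle c
  set c : G → Fin r → B := fun g j => b g j ^ p - b g j with hc
  have hcmul : ∀ g h j, c (g * h) j = c g j + stA (ρ g) (fun x => q g • x) (c h) j := by
    intro g h j
    show b (g * h) j ^ p - b (g * h) j = (b g j ^ p - b g j) +
      ∑ k, (((ρ g j k).val : ℕ) : B) * (q g • (b h k ^ p - b h k))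
    rw [hbmul, Pi.add_apply, add_pow_char]
    have h1 : stA (ρ g) (fun x => q g • x) (b h) j ^ p =
        ∑ k, (((ρ g j k).val : ℕ) : B) * (q g • (b h k ^ p)) := by
      show (∑ k, (((ρ g j k).val : ℕ) : B) * (q g • b h k)) ^ p = _
      rw [sum_pow_char]
      refine Finset.sum_congr rfl fun k _ => ?_
      rw [mul_pow, QELN_val_pow, smul_pow']
    have h2 : stA (ρ g) (fun x => q g • x) (b h) j =
        ∑ k, (((ρ g j k).val : ℕ) : B) * (q g • (b h k)) := rfl
    rw [h1, h2]
    simp only [smul_sub, mul_sub, Finset.sum_sub_distrib]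
    ring
  have hcker : ∀ n ∈ q.ker, ∀ j, c n j = 0 := by
    intro n hn j
    show b n j ^ p - b n j = 0
    rw [hbker n hn, QELN_val_pow, sub_self]
  have hcq : ∀ g g' : G, q g = q g' → ∀ j, c g j = c g' j := by
    intro g g' h j
    have h1 : g * g'⁻¹ ∈ q.ker := by
      rw [MonoidHom.mem_ker, map_mul, map_inv, h, mul_inv_cancel]
    have h2 : g = (g * g'⁻¹) * g' := by group
    rw [h2, hcmul, hcker _ h1, zero_add]
    show ∑ k, (((ρ (g * g'⁻¹) j k).val : ℕ) : B) * (q (g * g'⁻¹) • c g' k) = c g' j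
    rw [hE.ker _ h1, MonoidHom.mem_ker.1 h1, Finset.sum_eq_single j]
    · rw [Matrix.one_apply_eq, QELN_val_one, one_mul, one_smul]
    · intro k _ hk
      rw [Matrix.one_apply_ne hk.symm, QELN_val_zero, zero_mul]
    · intro h; exact absurd (Finset.mem_univ _) h
  set m : Fin r → B := fun j => - ∑ τ : Gb, c (s τ) j * (τ • ϑ) with hm
  refine ⟨b, m, hbmul, hbker, ?_⟩
  intro g j
  have h1 : stA (ρ g) (fun x => q g • x) m j =
      - ∑ τ : Gb, (stA (ρ g) (fun x => q g • x) (c (s τ)) j) * ((q g * τ) • ϑ) := by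
    show ∑ k, (((ρ g j k).val : ℕ) : B) * (q g • (- ∑ τ : Gb, c (s τ) k * (τ • ϑ))) =
      - ∑ τ : Gb, (∑ k, (((ρ g j k).val : ℕ) : B) * (q g • c (s τ) k)) * ((q g * τ) • ϑ)
    simp only [smul_neg, Finset.smul_sum, mul_neg, Finset.mul_sum, Finset.sum_neg_distrib,
      Finset.sum_mul]
    rw [Finset.sum_comm]
    congr 1
    refine Finset.sum_congr rfl fun τ _ => Finset.sum_congr rfl fun k _ => ?_
    rw [smul_mul', smul_smul, mul_assoc]
  have h2 : ∀ τ : Gb, (stA (ρ g) (fun x => q g • x) (c (s τ)) j) * ((q g * τ) • ϑ) =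
      c (s (q g * τ)) j * ((q g * τ) • ϑ) - c g j * ((q g * τ) • ϑ) := by
    intro τ
    have h3 := hcmul g (s τ) j
    have h4 : c (g * s τ) j = c (s (q g * τ)) j := hcq _ _ (by rw [map_mul, hs, hs]) j
    rw [h4] at h3
    rw [h3]
    ring
  have h5 : ∑ τ : Gb, c (s (q g * τ)) j * ((q g * τ) • ϑ) = ∑ τ : Gb, c (s τ) j * (τ • ϑ) :=
    Fintype.sum_bijective (fun τ => q g * τ) (Group.mulLeft_bijective _) _ _ fun τ => rfl
  have h6 : ∑ τ : Gb, ((q g * τ) • ϑ) = 1 := by
    rw [← hϑ]
    exact Fintype.sum_bijective (fun τ => q g * τ) (Group.mulLeft_bijective _) _ _ fun τ => rfl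
  rw [h1]
  simp only [h2, Finset.sum_sub_distrib]
  rw [h5, ← Finset.mul_sum, h6]
  show c g j = _
  rw [hm]
  ring

end MP7b0bad

end

section

set_option autoImplicit false

namespace MP7b0bad

open Polynomial

theorem QF1_isGaloisGroup {R : Type} [CommRing R] {G : Type} [Group G] {B : Type} [CommRing B]
    [Nontrivial B] [Algebra R B] [MulSemiringAction G B] (h : GalAlg R G B) :
    IsGaloisGroup G R B where
  faithful := by
    refine ⟨fun {g g'} hgg => ?_⟩
    by_contra hne
    have h1 : g⁻¹ * g' ≠ 1 := fun h2 => hne (inv_mul_eq_one.1 h2)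
    have h2 := h.unr _ h1
    have h3 : {x : B | ∃ b : B, x = b - (g⁻¹ * g') • b} ⊆ {0} := by
      rintro x ⟨b, rfl⟩
      rw [Set.mem_singleton_iff, mul_smul, ← hgg b, inv_smul_smul, sub_self]
    have h4 : (⊤ : Ideal B) ≤ Ideal.span {0} := by
      rw [← h2]
      exact Ideal.span_mono h3
    rw [Ideal.span_singleton_eq_bot.2 rfl] at h4
    exact one_ne_zero (Ideal.mem_bot.1 (h4 (Submodule.mem_top (x := (1 : B)))))
  commutes := ⟨fun g a b => by
    rw [Algebra.smul_def, Algebra.smul_def, smul_mul', h.comm]⟩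
  isInvariant := ⟨fun b hb => h.inv b hb⟩

theorem prf_QF1 (_hQFree : QFree) : QF1 := by
  intro k _ G _ _ B _ _ _ hg hdom
  classical
  have hgg : IsGaloisGroup G k[X] B := QF1_isGaloisGroup hg
  have hfs : FaithfulSMul k[X] B := (faithfulSMul_iff_algebraMap_injective k[X] B).2 hg.inj
  let L := FractionRing B
  have hinjB : Function.Injective (algebraMap B L) := IsFractionRing.injective B L
  have hinj : Function.Injective ((algebraMap B L).comp (algebraMap k[X] B)) :=
    hinjB.comp hg.inj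
  let algK : Algebra (RatFunc k) L := (IsFractionRing.lift (K := RatFunc k) hinj).toAlgebra
  have hmap : ∀ a : k[X], algebraMap (RatFunc k) L (algebraMap k[X] (RatFunc k) a) =
      algebraMap B L (algebraMap k[X] B a) := fun a =>
    IsFractionRing.lift_algebraMap hinj a
  have htow : IsScalarTower k[X] (RatFunc k) L := by
    refine IsScalarTower.of_algebraMap_eq fun a => ?_
    rw [hmap]
    exact IsScalarTower.algebraMap_apply k[X] B L a
  let actL : MulSemiringAction G L := IsFractionRing.mulSemiringAction G B L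
  have hL : IsGaloisGroup G (RatFunc k) L :=
    IsGaloisGroup.to_isFractionRing G k[X] B (RatFunc k) L
  refine ⟨L, inferInstance, algK, algebraMap B L, hinjB, fun a => (hmap a).symm,
    IsGaloisGroup.finiteDimensional G _ _, IsGaloisGroup.isGalois G _ _,
    IsGaloisGroup.mulEquivAlgEquiv G (RatFunc k) L, fun g b => ?_⟩
  show g • algebraMap B L b = algebraMap B L (g • b)
  exact IsFractionRing.ringEquivOfRingEquiv_algebraMap _ b

end MP7b0bad

end

section

set_option autoImplicit false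

/-!
# QF7: rational approximation of elements invariant under the decomposition group
-/

namespace MP7b0bad

open Polynomial Pointwise

theorem QF7_stab {K L : Type} [Field K] [Field L] [Algebra K L] (A : ValuationSubring L)
    (δ : L ≃ₐ[K] L) (hδ : δ • A = A) (x : L) (c : K) (hc : c ≠ 0)
    (h : A.valuation x ≤ A.valuation (algebraMap K L c)) :
    A.valuation (δ x) ≤ A.valuation (algebraMap K L c) := by
  have hc' : algebraMap K L c ≠ 0 := by rwa [Ne, map_eq_zero]
  have hv : 0 < A.valuation (algebraMap K L c) := zero_lt_iff.2 ((Valuation.ne_zero_iff _).2 hc')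
  have h1 : x / algebraMap K L c ∈ A := by
    rw [← A.valuation_le_one_iff, map_div₀, div_le_one₀ hv]
    exact h
  have h2 : δ • (x / algebraMap K L c) ∈ δ • A := ValuationSubring.smul_mem_pointwise_smul _ _ _ h1
  rw [hδ] at h2
  have h3 : δ • (x / algebraMap K L c) = δ x / algebraMap K L c := by
    show δ (x / algebraMap K L c) = _
    rw [map_div₀, AlgEquiv.commutes]
  rw [h3, ← A.valuation_le_one_iff, map_div₀, div_le_one₀ hv] at h2
  exact h2

/-- products of elements close to `1` -/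
theorem QF7_prod {L Γ ι : Type} [Field L] [LinearOrderedCommGroupWithZero Γ] (v : Valuation L Γ)
    (S : Finset ι) (f : ι → L) (c : Γ) (h1 : ∀ i ∈ S, v (f i) ≤ 1) (h2 : ∀ i ∈ S, v (f i - 1) ≤ c) :
    v (∏ i ∈ S, f i - 1) ≤ c ∧ v (∏ i ∈ S, f i) ≤ 1 := by
  classical
  induction S using Finset.induction_on with
  | empty =>
    rw [Finset.prod_empty, sub_self, map_zero, map_one]
    exact ⟨zero_le, le_rfl⟩
  | insert i S hi ih =>
    obtain ⟨h3, h4⟩ := ih (fun j hj => h1 j (Finset.mem_insert_of_mem hj))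
      (fun j hj => h2 j (Finset.mem_insert_of_mem hj))
    have h5 := h1 i (Finset.mem_insert_self _ _)
    have h6 := h2 i (Finset.mem_insert_self _ _)
    rw [Finset.prod_insert hi]
    refine ⟨?_, ?_⟩
    · have e : f i * ∏ j ∈ S, f j - 1 = f i * (∏ j ∈ S, f j - 1) + (f i - 1) := by ring
      rw [e]
      refine Valuation.map_add_le _ ?_ h6
      rw [map_mul]
      calc v (f i) * v (∏ j ∈ S, f j - 1) ≤ 1 * v (∏ j ∈ S, f j - 1) := mul_le_mul_left h5 _
        _ ≤ _ := by rw [one_mul]; exact h3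
    · rw [map_mul]
      exact mul_le_one' h5 h4

/-- the sum over cosets -/
theorem QF7_coset {K L : Type} [Field K] [Field L] [Algebra K L] [FiniteDimensional K L]
    [IsGalois K L] (D : Subgroup (L ≃ₐ[K] L)) (x : L) (hx : ∀ δ ∈ D, δ x = x) :
    ∃ (r : K) (T : Finset (L ≃ₐ[K] L)), (∀ τ ∈ T, τ ∉ D) ∧
      algebraMap K L r = x + ∑ τ ∈ T, τ x := by
  classical
  have : Fintype ((L ≃ₐ[K] L) ⧸ D) := Fintype.ofFinite _
  have hout : ∀ σ τ : L ≃ₐ[K] L, (QuotientGroup.mk σ : (L ≃ₐ[K] L) ⧸ D) = QuotientGroup.mk τ →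
      σ x = τ x := by
    intro σ τ h
    rw [QuotientGroup.eq] at h
    have h1 := hx _ h
    have h2 : σ ((σ⁻¹ * τ) x) = τ x := by
      rw [← AlgEquiv.mul_apply, mul_inv_cancel_left]
    rw [← h2, h1]
  set y : L := ∑ q : (L ≃ₐ[K] L) ⧸ D, (Quotient.out q) x with hy
  have hfix : ∀ σ : L ≃ₐ[K] L, σ y = y := by
    intro σ
    rw [hy, map_sum]
    refine Fintype.sum_equiv (MulAction.toPerm σ) _ _ fun q => ?_
    rw [← AlgEquiv.mul_apply]
    apply hout
    rw [MulAction.toPerm_apply, QuotientGroup.out_eq']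
    conv_rhs => rw [← QuotientGroup.out_eq' q]
    rfl
  obtain ⟨r, hr⟩ := (IsGalois.mem_range_algebraMap_iff_fixed (F := K) (E := L) y).2 hfix
  refine ⟨r, (Finset.univ.erase (QuotientGroup.mk (1 : L ≃ₐ[K] L) : (L ≃ₐ[K] L) ⧸ D)).image
    (fun q => Quotient.out q), ?_, ?_⟩
  · intro τ hτ hτD
    rw [Finset.mem_image] at hτ
    obtain ⟨q, hq, rfl⟩ := hτ
    apply Finset.ne_of_mem_erase hq
    rw [← QuotientGroup.out_eq' q, QuotientGroup.eq, mul_one]
    exact D.inv_mem hτD
  · rw [hr, hy, ← Finset.add_sum_erase _ _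
      (Finset.mem_univ (QuotientGroup.mk (1 : L ≃ₐ[K] L) : (L ≃ₐ[K] L) ⧸ D)),
      Finset.sum_image (fun q _ q' _ h => by
        rw [← QuotientGroup.out_eq' q, ← QuotientGroup.out_eq' q', h])]
    congr 1
    rw [hout _ 1 (QuotientGroup.out_eq' _), AlgEquiv.one_apply]

theorem prf_QF7 : QF7 := by
  intro k _ _ L _ _ _ _ A hA γ hγD
  classical
  have hX := F7_one_lt A hA
  have hX0 : A.valuation (algebraMap (RatFunc k) L RatFunc.X) ≠ 0 :=
    (Valuation.ne_zero_iff _).2 F7_X_ne
  -- bound on the conjugates of `γ`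
  choose m hm using fun τ : L ≃ₐ[RatFunc k] L => F7_bounded prf_F3 A hA (τ γ)
  set s := ∑ τ, m τ with hs
  have hγ : ∀ τ : L ≃ₐ[RatFunc k] L, A.valuation (τ γ) <
      A.valuation (algebraMap (RatFunc k) L RatFunc.X) ^ s := fun τ =>
    hm τ s (Finset.single_le_sum (f := m) (fun _ _ => Nat.zero_le _) (Finset.mem_univ τ))
  -- the element β
  have hβ : ∀ S : Finset (L ≃ₐ[RatFunc k] L), (∀ σ ∈ S, σ • A ≠ A) → ∃ β : L,
      (∀ τ : L ≃ₐ[RatFunc k] L, A.valuation (τ β) ≤ 1) ∧
      A.valuation (β - 1) ≤ (A.valuation (algebraMap (RatFunc k) L RatFunc.X))⁻¹ ^ s ∧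
      ∀ σ ∈ S, A.valuation (σ⁻¹ β) ≤
        (A.valuation (algebraMap (RatFunc k) L RatFunc.X))⁻¹ ^ s := by
    intro S
    induction S using Finset.induction_on with
    | empty =>
      intro _
      refine ⟨1, fun τ => ?_, ?_, fun σ hσ => absurd hσ (Finset.notMem_empty σ)⟩
      · rw [map_one, map_one]
      · rw [sub_self, map_zero]; exact zero_le
    | insert σ S hσS ih =>
      intro hS
      obtain ⟨β, h1, h2, h3⟩ := ih (fun τ hτ => hS τ (Finset.mem_insert_of_mem hτ))
      obtain ⟨e, g1, g2, g3⟩ := F7_elt prf_F3 A hA σ (hS σ (Finset.mem_insert_self _ _)) s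
      refine ⟨e * β, fun τ => ?_, ?_, fun τ hτ => ?_⟩
      · rw [map_mul, map_mul]
        exact mul_le_one' (g1 τ) (h1 τ)
      · have h4 : e * β - 1 = e * (β - 1) + (e - 1) := by ring
        rw [h4]
        refine Valuation.map_add_le _ ?_ g2
        rw [map_mul]
        have g4 := g1 1
        rw [AlgEquiv.one_apply] at g4
        calc A.valuation e * A.valuation (β - 1) ≤ 1 * A.valuation (β - 1) :=
              mul_le_mul_left g4 _
          _ ≤ _ := by rw [one_mul]; exact h2
      · rw [map_mul, map_mul]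
        rcases Finset.mem_insert.1 hτ with rfl | hτ
        · calc A.valuation (τ⁻¹ e) * A.valuation (τ⁻¹ β) ≤ _ * 1 :=
              mul_le_mul' g3 (h1 _)
            _ = _ := mul_one _
        · calc A.valuation (τ⁻¹ e) * A.valuation (τ⁻¹ β) ≤ 1 * _ :=
              mul_le_mul' (g1 _) (h3 τ hτ)
            _ = _ := one_mul _
  obtain ⟨β₀, hβ1, hβ2, hβ3⟩ := hβ (Finset.univ.filter fun σ => σ • A ≠ A)
    (fun σ hσ => (Finset.mem_filter.1 hσ).2)
  -- the decomposition group
  let D : Subgroup (L ≃ₐ[RatFunc k] L) := MulAction.stabilizer (L ≃ₐ[RatFunc k] L) A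
  have hD : ∀ σ, σ ∈ D ↔ σ • A = A := fun σ => MulAction.mem_stabilizer_iff
  have : Fintype D := Fintype.ofFinite D
  set c : RatFunc k := RatFunc.X⁻¹ ^ s with hc
  have hc0 : c ≠ 0 := pow_ne_zero _ (inv_ne_zero RatFunc.X_ne_zero)
  have hcv : A.valuation (algebraMap (RatFunc k) L c) =
      (A.valuation (algebraMap (RatFunc k) L RatFunc.X))⁻¹ ^ s := by
    rw [hc, map_pow, map_pow, map_inv₀, map_inv₀]
  set β : L := ∏ δ : D, (δ : L ≃ₐ[RatFunc k] L) β₀ with hβdef
  have hβD : ∀ σ ∈ D, σ β = β := by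
    intro σ hσ
    rw [hβdef, map_prod]
    refine Fintype.prod_equiv (Equiv.mulLeft (⟨σ, hσ⟩ : D)) _ _ fun δ => ?_
    rfl
  have hβ2' : A.valuation (β - 1) ≤
      (A.valuation (algebraMap (RatFunc k) L RatFunc.X))⁻¹ ^ s := by
    refine (QF7_prod A.valuation _ _ _ (fun δ _ => hβ1 _) (fun δ _ => ?_)).1
    rw [← hcv]
    have h1 : (δ : L ≃ₐ[RatFunc k] L) β₀ - 1 = (δ : L ≃ₐ[RatFunc k] L) (β₀ - 1) := by
      rw [map_sub, map_one]
    rw [h1]
    refine QF7_stab A _ ((hD _).1 δ.2) _ c hc0 ?_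
    rw [hcv]
    exact hβ2
  have hβ3' : ∀ τ : L ≃ₐ[RatFunc k] L, τ ∉ D → A.valuation (τ β) ≤
      (A.valuation (algebraMap (RatFunc k) L RatFunc.X))⁻¹ ^ s := by
    intro τ hτ
    have h1 : τ β = τ β₀ * ∏ δ ∈ Finset.univ.erase (1 : D), τ ((δ : L ≃ₐ[RatFunc k] L) β₀) := by
      rw [hβdef, map_prod, ← Finset.mul_prod_erase _ _ (Finset.mem_univ (1 : D))]
      rfl
    rw [h1, map_mul, map_prod]
    have h2 : A.valuation (τ β₀) ≤ (A.valuation (algebraMap (RatFunc k) L RatFunc.X))⁻¹ ^ s := by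
      have h3 := hβ3 τ⁻¹ (Finset.mem_filter.2 ⟨Finset.mem_univ _, fun h => hτ (by
        rw [← inv_inv τ]
        exact D.inv_mem ((hD _).2 h))⟩)
      rwa [inv_inv] at h3
    have h4 : ∏ δ ∈ Finset.univ.erase (1 : D), A.valuation (τ ((δ : L ≃ₐ[RatFunc k] L) β₀)) ≤ 1 :=
      Finset.prod_le_one' fun δ _ => hβ1 (τ * δ)
    exact (mul_le_mul' h2 h4).trans_eq (mul_one _)
  obtain ⟨r, T, hT, hr⟩ := QF7_coset D (β * γ) (fun δ hδ => by
    rw [map_mul, hβD δ hδ, hγD δ ((hD δ).1 hδ)])
  refine ⟨r, ?_⟩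
  rw [A.mem_nonunits_iff, hr]
  have h1 : γ - (β * γ + ∑ τ ∈ T, τ (β * γ)) = -((β - 1) * γ) - ∑ τ ∈ T, τ (β * γ) := by ring
  have key : ∀ (b c : L), A.valuation b ≤ (A.valuation (algebraMap (RatFunc k) L RatFunc.X))⁻¹ ^ s →
      A.valuation c < A.valuation (algebraMap (RatFunc k) L RatFunc.X) ^ s →
      A.valuation (b * c) < 1 := by
    intro b c hb hc
    rw [map_mul]
    have hXs : A.valuation (algebraMap (RatFunc k) L RatFunc.X) ^ s ≠ 0 := pow_ne_zero _ hX0
    calc A.valuation b * A.valuation c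
        ≤ (A.valuation (algebraMap (RatFunc k) L RatFunc.X))⁻¹ ^ s * A.valuation c :=
          mul_le_mul_left hb _
      _ < (A.valuation (algebraMap (RatFunc k) L RatFunc.X))⁻¹ ^ s *
          A.valuation (algebraMap (RatFunc k) L RatFunc.X) ^ s := by
          refine mul_lt_mul_of_pos_left hc ?_
          rw [zero_lt_iff]
          exact pow_ne_zero _ (inv_ne_zero hX0)
      _ = 1 := by rw [inv_pow, inv_mul_cancel₀ hXs]
  rw [h1]
  refine Valuation.map_sub_lt _ ?_ (Valuation.map_sum_lt _ one_ne_zero fun τ hτ => ?_)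
  · rw [Valuation.map_neg]
    have hγ1 := hγ 1
    rw [AlgEquiv.one_apply] at hγ1
    exact key _ _ hβ2' hγ1
  · rw [map_mul]
    exact key _ _ (hβ3' τ (hT τ hτ)) (hγ τ)

end MP7b0bad

end

section

set_option autoImplicit false

/-!
# QGeo: a primitive element with geometrically irreducible equation
-/

namespace MP7b0bad

open Polynomial

/-- the base change of the local situation at infinity to `Ω` -/
theorem QGeo_bc (hQBC : QBC) (hQTR : QTR) (K : Type) [Field K] (p : ℕ) [Fact p.Prime] [CharP K p]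
    (P : Type) [Group P] [Finite P] (A E : Type) [CommRing A] [Algebra K[X] A]
    [MulSemiringAction P A] [CommRing E] [Algebra (LaurentSeries K) E] [MulSemiringAction P E]
    (j : A →+* E) (hP : IsPGroup p P) (hA : GalAlg K[X] P A) (hT : TotRam K p P A)
    (hE : GalAlg (LaurentSeries K) P E)
    (hj1 : ∀ f, j (algebraMap K[X] A f) = algebraMap (LaurentSeries K) E (atInf K f))
    (hj2 : ∀ (g : P) (a : A), j (g • a) = g • j a)
    (Ω : Type) [Field Ω] [Algebra K Ω] :
    ∃ (E' : Type) (_ : CommRing E') (_ : Algebra (LaurentSeries Ω) E')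
      (_ : MulSemiringAction P E') (q : E →+* E'),
      GalAlg (LaurentSeries Ω) P E' ∧ IsDomain E' ∧
      (∀ a, q (algebraMap (LaurentSeries K) E a) =
        algebraMap (LaurentSeries Ω) E' (E7_phi K Ω a)) ∧
      ∀ (g : P) (e : E), q (g • e) = g • q e := by
  have : CharP Ω p := charP_of_injective_algebraMap (algebraMap K Ω).injective p
  obtain ⟨E', _, _, _, qE, hE', hqE1, hqE2, -, -⟩ :=
    hQBC (LaurentSeries K) (LaurentSeries Ω) (E7_phi K Ω) P E hE
  obtain ⟨A', _, _, _, qA, hA', hqA1, hqA2, hAu, hAg⟩ :=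
    hQBC K[X] (Polynomial Ω) (mapRingHom (algebraMap K Ω)) P A hA
  obtain ⟨j', hj'1, hj'2⟩ := hAu E' (qE.comp j)
    ((algebraMap (LaurentSeries Ω) E').comp (atInf Ω)) (fun a => by
      simp only [RingHom.comp_apply, coe_mapRingHom]
      rw [hj1, hqE1, E7_phi_atInf])
  refine ⟨E', inferInstance, inferInstance, inferInstance, qE, hE', ?_, hqE1, hqE2⟩
  refine hQTR Ω p P A' E' j' hP ?_ hE' ?_ ?_
  · intro l hl
    obtain ⟨y, f, hy, hyf, hf⟩ := hT l hl
    refine ⟨qA y, f.map (algebraMap K Ω), fun g => ?_, ?_, ?_⟩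
    · rw [← hqA2, hy, map_add, map_natCast]
    · rw [← map_pow, ← map_sub, hyf, hqA1, coe_mapRingHom]
    · rwa [natDegree_map]
  · intro f
    rw [hj'2, RingHom.comp_apply]
  · intro g a
    obtain ⟨n, r, b, rfl⟩ := hAg a
    rw [Finset.smul_sum, map_sum, map_sum, Finset.smul_sum]
    refine Finset.sum_congr rfl fun i _ => ?_
    rw [smul_mul', hA'.comm, map_mul, map_mul, smul_mul', hj'2, RingHom.comp_apply, hE'.comm,
      ← hqA2, hj'1, hj'1, RingHom.comp_apply, RingHom.comp_apply, hj2, hqE2]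

/-- linear independence after base change -/
theorem QGeo_indep (hQGL : QGL) (R R' : Type) [CommRing R] [CommRing R'] (φ : R →+* R')
    (P : Type) [Group P] [Finite P] (E E' : Type) [CommRing E] [Algebra R E]
    [MulSemiringAction P E] [CommRing E'] [Algebra R' E'] [MulSemiringAction P E'] (q : E →+* E')
    (hE : GalAlg R P E) (hE' : GalAlg R' P E')
    (hq1 : ∀ a, q (algebraMap R E a) = algebraMap R' E' (φ a))
    (hq2 : ∀ (g : P) (e : E), q (g • e) = g • q e) (n : ℕ) (β : Module.Basis (Fin n) R E)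
    (c : Fin n → R') (hc : ∑ l, algebraMap R' E' (c l) * q (β l) = 0) : c = 0 := by
  have h1 := (hQGL R R' φ P P (MonoidHom.id P) E E' q hE hE'.comm hE'.inj hE'.inv hq1
    (fun h b => hq2 h b) n β (fun _ => 0) (fun _ _ => smul_zero _)).unique
    (y₁ := c) (y₂ := 0) (fun γ => ?_) (fun γ => by simp)
  · exact h1
  · have h2 := congrArg (fun x => γ⁻¹ • x) hc
    simp only [smul_zero, Finset.smul_sum, smul_mul', hE'.comm, ← hq2] at h2
    exact h2.symm

theorem prf_QGeo (hQBC : QBC) (hQGL : QGL) (hQTR : QTR) : QGeo := by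
  intro K _ p _ _ G _ _ P A B E _ _ _ _ _ _ _ _ _ j ι hP hA hT hB hBd hE hj1 hj2 hι1 hι2
  classical
  have : Fintype G := Fintype.ofFinite G
  -- the action is faithful
  have hf : ∀ g : G, g ≠ 1 → ∃ b : B, g • b ≠ b := by
    intro g hg
    by_contra hcon
    push Not at hcon
    have h1 := hB.unr g hg
    have h2 : Ideal.span {x : B | ∃ b : B, x = b - g • b} ≤ ⊥ := by
      rw [Ideal.span_le]
      rintro x ⟨b, rfl⟩
      simp [hcon b]
    rw [h1] at h2
    have h3 : (1 : B) ∈ (⊥ : Ideal B) := h2 Submodule.mem_top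
    rw [Ideal.mem_bot] at h3
    exact one_ne_zero h3
  obtain ⟨θ, hθ⟩ := E7_theta K G B hB.inj hB.comm hf (Finset.univ.filter (fun g : G => g ≠ 1))
    (fun g hg => (Finset.mem_filter.1 hg).2)
  have hθ' : Function.Injective (fun g : G => g • θ) := by
    intro g h hgh
    by_contra hne
    have h1 : h⁻¹ * g ≠ 1 := fun h1 => hne (by rw [inv_mul_eq_one] at h1; exact h1.symm)
    refine hθ (h⁻¹ * g) (Finset.mem_filter.2 ⟨Finset.mem_univ _, h1⟩) ?_
    have h2 : g • θ = h • θ := hgh
    rw [mul_smul, h2, inv_smul_smul]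
  -- the characteristic polynomial
  have hlift : MulSemiringAction.charpoly G θ ∈ lifts (algebraMap K[X] B) := by
    rw [lifts_iff_coeff_lifts]
    intro n
    obtain ⟨a, ha⟩ := hB.inv ((MulSemiringAction.charpoly G θ).coeff n)
      (fun g => MulSemiringAction.smul_coeff_charpoly θ n g)
    exact ⟨a, ha⟩
  obtain ⟨F, hF1, hF2, hF3⟩ := lifts_and_natDegree_eq_and_monic hlift
    (MulSemiringAction.monic_charpoly G θ)
  have hFdeg : F.natDegree = Nat.card G := by
    rw [hF2, MulSemiringAction.charpoly_eq, natDegree_prod_of_monic _ _ fun i _ => monic_X_sub_C _]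
    simp
  have hFθ : aeval θ F = 0 := by
    rw [aeval_def, eval₂_eq_eval_map, hF1]
    exact MulSemiringAction.eval_charpoly G θ
  -- no polynomial of smaller degree
  have h3 : ∀ c : K[X][X], c ≠ 0 → c.natDegree < Nat.card G → aeval θ c ≠ 0 := by
    intro c hc0 hcd h0
    have h1 : ∀ g : G, (c.map (algebraMap K[X] B)).eval (g • θ) = 0 := by
      intro g
      rw [eval_map, eval₂_eq_sum_range]
      have h2 : g • (aeval θ c) = 0 := by rw [h0, smul_zero]
      rw [aeval_def, eval₂_eq_sum_range, Finset.smul_sum] at h2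
      rw [← h2]
      refine Finset.sum_congr rfl fun i _ => ?_
      rw [smul_mul', hB.comm, smul_pow']
    have h2 := eq_zero_of_natDegree_lt_card_of_eval_eq_zero (c.map (algebraMap K[X] B)) hθ' h1
      (by rw [natDegree_map_eq_of_injective hB.inj, ← Nat.card_eq_fintype_card]; exact hcd)
    exact hc0 (Polynomial.map_injective _ hB.inj (by rw [h2, Polynomial.map_zero]))
  -- injectivity of the embedding
  have hιi : ∀ b, ι b = 0 → b = 0 := by
    intro b hb
    obtain ⟨a, ha⟩ := hB.inv (∏ g : G, g • b) (fun g => by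
      rw [Finset.smul_prod_perm])
    have h1 : ι (algebraMap K[X] B a) = 0 := by
      rw [ha, map_prod]
      refine Finset.prod_eq_zero (Finset.mem_univ (1 : G)) ?_
      rw [one_smul, hb]
    rw [hι1] at h1
    have h2 : atInf K a = 0 := hE.inj (by rw [h1, map_zero])
    have h4 : a = 0 := E7_atInf_inj K (by rw [h2, map_zero])
    rw [h4, map_zero] at ha
    obtain ⟨g, -, hg⟩ := Finset.prod_eq_zero_iff.1 ha.symm
    exact (smul_eq_zero_iff_eq g).1 hg
  refine ⟨θ, F, hF3, hFdeg, hFθ, ?_⟩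
  intro Ω _ _
  obtain ⟨E', _, _, _, Φ, hE', hdom, hΦ1, hΦ2⟩ :=
    QGeo_bc hQBC hQTR K p P A E j hP hA hT hE hj1 hj2 Ω
  have hm : (F.map (mapRingHom (algebraMap K Ω))).Monic := hF3.map _
  have hd : (F.map (mapRingHom (algebraMap K Ω))).natDegree = Nat.card G := by
    rw [hF3.natDegree_map, hFdeg]
  have hcard : 0 < Nat.card G := Nat.card_pos
  have := gal_finite hE
  let β := Module.finBasis (LaurentSeries K) E
  -- the key claim
  have key : ∀ h : Polynomial (Polynomial Ω), h.Monic →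
      h.eval₂ ((algebraMap (LaurentSeries Ω) E').comp (atInf Ω)) (Φ (ι θ)) = 0 →
      Nat.card G ≤ h.natDegree := by
    intro h hhm hh0
    by_contra hlt
    push Not at hlt
    obtain ⟨ℓ, hℓ⟩ : ∃ ℓ : Ω →ₗ[K] K, ℓ 1 = 1 := by
      obtain ⟨g, hg⟩ := LinearMap.exists_leftInverse_of_injective (Algebra.linearMap K Ω)
        (LinearMap.ker_eq_bot.2 (algebraMap K Ω).injective)
      refine ⟨g, ?_⟩
      have := LinearMap.congr_fun hg 1
      simpa using this
    choose hX hhX using E7_poly K Ω ℓ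
    set h' : K[X][X] := ∑ i ∈ Finset.range (h.natDegree + 1), monomial i (hX (h.coeff i)) with hh'
    have hcoef : h'.coeff h.natDegree = hX 1 := by
      rw [hh', finsetSum_coeff]
      simp only [coeff_monomial]
      rw [Finset.sum_ite_eq', if_pos (Finset.self_mem_range_succ _)]
      rw [hhm.coeff_natDegree]
    have hne : h' ≠ 0 := by
      intro h0
      rw [h0, coeff_zero] at hcoef
      have h1 := hhX 1 0
      rw [← hcoef, coeff_zero, coeff_one_zero, hℓ] at h1
      exact zero_ne_one h1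
    have hd' : h'.natDegree < Nat.card G := by
      refine lt_of_le_of_lt ?_ hlt
      refine natDegree_sum_le_of_forall_le _ _ fun i hi => ?_
      refine le_trans (natDegree_monomial_le _) ?_
      rw [Finset.mem_range] at hi
      omega
    refine h3 h' hne hd' (hιi _ ?_)
    -- coordinates
    set T : ℕ → Fin (Module.finrank (LaurentSeries K) E) → LaurentSeries K :=
      fun i l => β.repr (ι θ ^ i) l with hTdef
    have hT1 : ∀ i, ι θ ^ i = ∑ l, algebraMap (LaurentSeries K) E (T i l) * β l := by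
      intro i
      conv_lhs => rw [← β.sum_repr (ι θ ^ i)]
      exact Finset.sum_congr rfl fun l _ => by rw [Algebra.smul_def]
    have hT2 : ∀ i, Φ (ι θ) ^ i = ∑ l, algebraMap (LaurentSeries Ω) E' (E7_phi K Ω (T i l)) *
        Φ (β l) := by
      intro i
      rw [← map_pow, hT1 i, map_sum]
      refine Finset.sum_congr rfl fun l _ => ?_
      rw [map_mul, hΦ1]
    have e2 : ∀ l, ∑ i ∈ Finset.range (h.natDegree + 1),
        atInf Ω (h.coeff i) * E7_phi K Ω (T i l) = 0 := by
      have hu := QGeo_indep hQGL (LaurentSeries K) (LaurentSeries Ω) (E7_phi K Ω) P E E' Φ hE hE'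
        hΦ1 hΦ2 _ β (fun l => ∑ i ∈ Finset.range (h.natDegree + 1),
          atInf Ω (h.coeff i) * E7_phi K Ω (T i l)) ?_
      · intro l
        exact congrFun hu l
      · rw [eval₂_eq_sum_range] at hh0
        rw [← hh0]
        simp only [map_sum, map_mul, Finset.sum_mul]
        rw [Finset.sum_comm]
        refine Finset.sum_congr rfl fun i _ => ?_
        rw [hT2, Finset.mul_sum]
        refine Finset.sum_congr rfl fun l _ => ?_
        rw [RingHom.comp_apply, mul_assoc]
    have e3 : ∀ l, ∑ i ∈ Finset.range (h.natDegree + 1),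
        atInf K (hX (h.coeff i)) * T i l = 0 := by
      intro l
      have h1 := congrArg (fun x : LaurentSeries Ω => x.map ℓ) (e2 l)
      rw [E7_map_sum] at h1
      simp only [E7_ell_mul] at h1
      have h2 : ((0 : LaurentSeries Ω).map ℓ : LaurentSeries K) = 0 := by
        ext n
        simp
      rw [h2] at h1
      rw [← h1]
      refine Finset.sum_congr rfl fun i _ => ?_
      rw [E7_ell_atInf K Ω ℓ (h.coeff i) (hX (h.coeff i)) (hhX _)]
    rw [hh', map_sum, map_sum]
    have h5 : ∀ i ∈ Finset.range (h.natDegree + 1), ι (aeval θ (monomial i (hX (h.coeff i)))) =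
        ∑ l, algebraMap (LaurentSeries K) E (atInf K (hX (h.coeff i)) * T i l) * β l := by
      intro i _
      rw [aeval_monomial, map_mul, hι1, map_pow, hT1 i, Finset.mul_sum]
      refine Finset.sum_congr rfl fun l _ => ?_
      rw [map_mul, mul_assoc]
    rw [Finset.sum_congr rfl h5, Finset.sum_comm]
    refine Finset.sum_eq_zero fun l _ => ?_
    rw [← Finset.sum_mul, ← map_sum, e3 l, map_zero, zero_mul]
  rw [hm.irreducible_iff_natDegree]
  refine ⟨?_, ?_⟩
  · intro h1
    rw [h1, natDegree_one] at hd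
    omega
  · intro f₁ g₁ hf₁ hg₁ hfg
    have h0 : (F.map (mapRingHom (algebraMap K Ω))).eval₂
        ((algebraMap (LaurentSeries Ω) E').comp (atInf Ω)) (Φ (ι θ)) = 0 := by
      rw [eval₂_map]
      have h1 : ((algebraMap (LaurentSeries Ω) E').comp (atInf Ω)).comp
          (mapRingHom (algebraMap K Ω)) = Φ.comp (ι.comp (algebraMap K[X] B)) := by
        refine RingHom.ext fun a => ?_
        simp only [RingHom.comp_apply, coe_mapRingHom]
        rw [hι1, hΦ1, E7_phi_atInf K Ω a]
      rw [h1, ← hom_eval₂, ← hom_eval₂]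
      rw [aeval_def] at hFθ
      rw [hFθ, map_zero, map_zero]
    rw [← hfg, eval₂_mul] at h0
    have hdeg : f₁.natDegree + g₁.natDegree = Nat.card G := by
      rw [← hf₁.natDegree_mul hg₁, hfg, hd]
    rcases mul_eq_zero.1 h0 with h | h
    · right
      have := key f₁ hf₁ h
      omega
    · left
      have := key g₁ hg₁ h
      omega

end MP7b0bad

end

section

set_option autoImplicit false

/-!
# QHP7L: the ring `FP` inside the local field at infinity
-/

namespace MP7b0bad

open Polynomial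

/-- the action of `Z/p` on `A[Y]/(Y^p - Y - a)` -/
theorem QHP7L_act {A : Type} [CommRing A] (p : ℕ) [Fact p.Prime] [CharP A p] (a : A) :
    ∃ ρ : Multiplicative (ZMod p) →* RingAut (AS p a),
      ∀ z, ρ (Multiplicative.ofAdd 1) z = asShift p a z := by
  obtain ⟨-, h2⟩ := prf_B1 A p a
  have hpp : p.Prime := Fact.out
  have h3 : ∀ z, asShift p a ((asShift p a)^[p - 1] z) = z := by
    intro z
    rw [← Function.iterate_succ_apply' (asShift p a), Nat.succ_eq_add_one,
      Nat.sub_add_cancel hpp.one_le]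
    exact h2 z
  have h4 : ∀ z, (asShift p a)^[p - 1] (asShift p a z) = z := by
    intro z
    rw [← Function.iterate_succ_apply (asShift p a), Nat.succ_eq_add_one,
      Nat.sub_add_cancel hpp.one_le]
    exact h2 z
  let s : RingAut (AS p a) := RingEquiv.ofRingHom (asShift p a) ((asShift p a) ^ (p - 1))
    (RingHom.ext fun z => by
      rw [RingHom.comp_apply, RingHom.coe_pow, RingHom.id_apply]
      exact h3 z)
    (RingHom.ext fun z => by
      rw [RingHom.comp_apply, RingHom.coe_pow, RingHom.id_apply]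
      exact h4 z)
  have hs : ∀ z, s z = asShift p a z := fun z => rfl
  have hsn : ∀ (n : ℕ) (z : AS p a), (s ^ n) z = (asShift p a)^[n] z := by
    intro n z
    induction n with
    | zero => rfl
    | succ n ih =>
      rw [pow_succ', Function.iterate_succ_apply', ← ih]
      rfl
  have hsp : s ^ p = 1 := by
    ext z
    rw [hsn, h2]
    rfl
  let f : ZMod p →+ Additive (RingAut (AS p a)) :=
    ZMod.lift p ⟨zmultiplesHom (Additive (RingAut (AS p a))) (Additive.ofMul s), by
      rw [zmultiplesHom_apply, natCast_zsmul, ← ofMul_pow, hsp]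
      rfl⟩
  refine ⟨f.toMultiplicativeLeft, fun z => ?_⟩
  have h5 : f 1 = Additive.ofMul s := by
    have h6 := ZMod.lift_coe p ⟨zmultiplesHom (Additive (RingAut (AS p a))) (Additive.ofMul s), by
      rw [zmultiplesHom_apply, natCast_zsmul, ← ofMul_pow, hsp]
      rfl⟩ 1
    rw [Int.cast_one] at h6
    rw [h6]
    show (1 : ℤ) • Additive.ofMul s = Additive.ofMul s
    rw [one_zsmul]
  show (Additive.toMul (f 1)) z = _
  rw [h5]
  exact hs z

/-- the `M`-th root of `Y` with norm `x`, from an `M`-th root of `1 - Y^(1 - p)` -/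
theorem QHP7L_core (k : Type) [Field k] [IsAlgClosed k] (p : ℕ) [Fact p.Prime] [CharP k p] (M : ℕ)
    (hM : ¬ p ∣ M) (F : Type) [Field F] (κ : k →+* F) (x : F) (hx0 : x ≠ 0)
    (hirr : Irreducible (asPoly p (x ^ M))) (z ε : AS p (x ^ M))
    (hz : z * asRoot p (x ^ M) = 1) (hε : ε ^ M = 1 - z ^ (p - 1)) :
    ∃ ω : AS p (x ^ M), ω ^ M = asRoot p (x ^ M) ∧
      ∏ j ∈ Finset.range p, (asShift p (x ^ M))^[j] ω = AdjoinRoot.of (asPoly p (x ^ M)) x := by
  classical
  have hpp : p.Prime := Fact.out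
  have hM0 : M ≠ 0 := by
    rintro rfl
    exact hM (dvd_zero p)
  have hMk : (M : k) ≠ 0 := by
    rw [Ne, CharP.cast_eq_zero_iff k p]
    exact hM
  have hkF : Function.Injective κ := κ.injective
  have : CharP F p := charP_of_injective_ringHom hkF p
  have : Fact (Irreducible (asPoly p (x ^ M))) := ⟨hirr⟩
  letI : Field (AS p (x ^ M)) := AdjoinRoot.instField
  set oF : F →+* AS p (x ^ M) := AdjoinRoot.of (asPoly p (x ^ M)) with hoF
  have hoQ : Function.Injective oF := oF.injective
  have : CharP (AS p (x ^ M)) p := charP_of_injective_ringHom hoQ p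
  obtain ⟨hty, htp⟩ := prf_B1 F p (x ^ M)
  set y : AS p (x ^ M) := asRoot p (x ^ M) with hydef
  set X' : AS p (x ^ M) := oF x with hX'
  set τ : AS p (x ^ M) →+* AS p (x ^ M) := asShift p (x ^ M) with hτ
  have hy : y ^ p - y = X' ^ M := by
    have h := AdjoinRoot.eval₂_root (asPoly p (x ^ M))
    rw [asPoly, eval₂_sub, eval₂_sub, eval₂_pow, eval₂_X, eval₂_C] at h
    rw [hX', ← map_pow]
    exact sub_eq_zero.1 h
  have hX'0 : X' ≠ 0 := by
    rw [hX']
    exact (map_ne_zero_iff _ hoQ).2 hx0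
  have hy0 : y ≠ 0 := right_ne_zero_of_mul_eq_one hz
  have h1 : y ^ p * ε ^ M = X' ^ M := by
    have hyp : y ^ p = y ^ (p - 1) * y := by
      rw [← pow_succ, Nat.sub_add_cancel hpp.one_le]
    have hzp : z ^ (p - 1) * y ^ (p - 1) = 1 := by rw [← mul_pow, hz, one_pow]
    rw [hε, ← hy, mul_sub, mul_one]
    congr 1
    rw [hyp]
    calc y ^ (p - 1) * y * z ^ (p - 1) = (z ^ (p - 1) * y ^ (p - 1)) * y := by ring
      _ = y := by rw [hzp, one_mul]
  have hε0 : ε ≠ 0 := by
    rintro h
    rw [h, zero_pow hM0, mul_zero] at h1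
    exact (pow_ne_zero M hX'0) h1.symm
  set u : AS p (x ^ M) := X' * ε⁻¹ with hu
  have hu0 : u ≠ 0 := mul_ne_zero hX'0 (inv_ne_zero hε0)
  have huM : u ^ M = y ^ p := by
    rw [hu, mul_pow, ← h1, inv_pow, mul_assoc, mul_inv_cancel₀ (pow_ne_zero M hε0), mul_one]
  have hcop : IsCoprime (p : ℤ) (M : ℤ) :=
    Nat.isCoprime_iff_coprime.2 ((Nat.Prime.coprime_iff_not_dvd hpp).2 hM)
  obtain ⟨a, b, hab⟩ := hcop
  set ω0 : AS p (x ^ M) := u ^ a * y ^ b with hω0
  have hω00 : ω0 ≠ 0 := mul_ne_zero (zpow_ne_zero _ hu0) (zpow_ne_zero _ hy0)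
  have hω0M : ω0 ^ M = y := by
    have e1 : (u ^ a) ^ M = y ^ (a * (p : ℤ)) := by
      rw [← zpow_natCast (u ^ a) M, ← zpow_mul, mul_comm a (M : ℤ), zpow_mul, zpow_natCast, huM,
        ← zpow_natCast y p, ← zpow_mul, mul_comm]
    have e2 : (y ^ b) ^ M = y ^ (b * (M : ℤ)) := by
      rw [← zpow_natCast (y ^ b) M, ← zpow_mul]
    rw [hω0, mul_pow, e1, e2, ← zpow_add₀ hy0, hab, zpow_one]
  -- the norm
  have hfix : τ (∏ j ∈ Finset.range p, τ^[j] ω0) = ∏ j ∈ Finset.range p, τ^[j] ω0 := by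
    have e1 : τ (∏ j ∈ Finset.range p, τ^[j] ω0) = ∏ j ∈ Finset.range p, τ^[j + 1] ω0 := by
      rw [map_prod]
      refine Finset.prod_congr rfl fun j _ => ?_
      rw [Function.iterate_succ_apply']
    have e2 : (∏ j ∈ Finset.range p, τ^[j + 1] ω0) * ω0 =
        (∏ j ∈ Finset.range p, τ^[j] ω0) * ω0 := by
      have e3 := Finset.prod_range_succ' (fun j => τ^[j] ω0) p
      rw [Finset.prod_range_succ] at e3
      have e4 : τ^[p] ω0 = ω0 := htp ω0
      rw [e4] at e3
      exact e3.symm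
    rw [e1]
    exact mul_right_cancel₀ hω00 e2
  obtain ⟨x0, hx0'⟩ := prf_B2 prf_B1 prf_B4 F p (x ^ M) _ hfix
  have hity : ∀ j : ℕ, τ^[j] y = y + (j : AS p (x ^ M)) := by
    intro j
    induction j with
    | zero => simp
    | succ j ih =>
      rw [Function.iterate_succ_apply', ih, map_add, map_natCast, hty]
      push_cast
      ring
  have hx0M : x0 ^ M = x ^ M := by
    apply hoQ
    rw [map_pow, map_pow]
    show (AdjoinRoot.of _ x0) ^ M = X' ^ M
    rw [hx0', ← Finset.prod_pow, ← hy, ← B5_prod p y]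
    refine Finset.prod_congr rfl fun j _ => ?_
    rw [← hity j, ← hω0M, ← RingHom.coe_pow, map_pow]
  -- roots of unity
  have : NeZero (M : k) := ⟨hMk⟩
  have : NeZero M := ⟨hM0⟩
  obtain ⟨ζ, hζ⟩ : ∃ ζ : k, IsPrimitiveRoot ζ M :=
    HasEnoughRootsOfUnity.exists_primitiveRoot k M
  have hζF : IsPrimitiveRoot (κ ζ) M := hζ.map_of_injective hkF
  obtain ⟨i, _, hi⟩ := hζF.eq_pow_of_pow_eq_one (ξ := x0 / x)
    (by rw [div_pow, hx0M, div_self (pow_ne_zero M hx0)])
  set c : k := ζ ^ i with hc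
  have hcM : c ^ M = 1 := by
    rw [hc, ← pow_mul, mul_comm, pow_mul, hζ.pow_eq_one, one_pow]
  have hc0 : c ≠ 0 := by
    rintro h
    rw [h, zero_pow hM0] at hcM
    exact zero_ne_one hcM
  have hxc : x0 = κ c * x := by
    rw [hc, map_pow, hi, div_mul_cancel₀ _ hx0]
  set η : k := c ^ (-a) with hη
  have hηM : η ^ M = 1 := by
    rw [hη, ← zpow_natCast, ← zpow_mul, mul_comm, zpow_mul, zpow_natCast, hcM, one_zpow]
  have hηp : η ^ p * c = 1 := by
    have e1 : η ^ p * c = c ^ (-a * (p : ℤ) + 1) := by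
      rw [zpow_add₀ hc0, zpow_one, hη, ← zpow_natCast (c ^ (-a)) p, ← zpow_mul]
    have e2 : -a * (p : ℤ) + 1 = (M : ℤ) * b := by linarith
    rw [e1, e2, zpow_mul, zpow_natCast, hcM, one_zpow]
  have hτc : ∀ j : ℕ, τ^[j] (oF (κ η)) = oF (κ η) := by
    intro j
    induction j with
    | zero => rfl
    | succ j ih =>
      rw [Function.iterate_succ_apply', ih]
      exact asShift_of p _ _
  refine ⟨oF (κ η) * ω0, ?_, ?_⟩
  · rw [mul_pow, ← map_pow, ← map_pow, hηM, map_one, map_one, one_mul, hω0M]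
  · have e1 : ∀ j ∈ Finset.range p, τ^[j] (oF (κ η) * ω0) =
        oF (κ η) * τ^[j] ω0 := by
      intro j _
      rw [← RingHom.coe_pow, map_mul, RingHom.coe_pow, hτc j]
    show ∏ j ∈ Finset.range p, τ^[j] (oF (κ η) * ω0) = X'
    rw [Finset.prod_congr rfl e1, Finset.prod_mul_distrib, Finset.prod_const, Finset.card_range,
      ← hx0']
    show oF (κ η) ^ p * oF x0 = X'
    rw [hxc, ← map_pow, ← map_pow, ← map_mul, ← mul_assoc, ← map_mul, hηp, map_one, one_mul]

/-- inverse of `Y` and an `M`-th root of `1 - Y^(1 - p)` over `k((ξ))` -/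
theorem QHP7L_root (k : Type) [Field k] (p : ℕ) [Fact p.Prime] [CharP k p] (M : ℕ) (hM : ¬ p ∣ M)
    (x : LaurentSeries k) (hx : x = HahnSeries.single (-1 : ℤ) (1 : k)) :
    ∃ z ε : AS p (x ^ M), z * asRoot p (x ^ M) = 1 ∧ ε ^ M = 1 - z ^ (p - 1) := by
  have hp : 2 ≤ p := (Fact.out : p.Prime).two_le
  have hM0 : M ≠ 0 := by
    rintro rfl
    exact hM (dvd_zero p)
  have hMk : (M : k) ≠ 0 := by
    rw [Ne, CharP.cast_eq_zero_iff k p]
    exact hM
  let A := PowerSeries k
  let J : Ideal A := Ideal.span {(PowerSeries.X : PowerSeries k)}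
  have : IsAdicComplete J A := B5a_complete k
  let θ : A := PowerSeries.X ^ M
  have hθ : θ ∈ J :=
    Ideal.pow_mem_of_mem _ (Ideal.mem_span_singleton_self _) _ (Nat.pos_of_ne_zero hM0)
  let g : A[X] := X ^ p + (C θ * X ^ (p - 1) - C θ)
  have hdeg : (C θ * X ^ (p - 1) - C θ : A[X]).degree < p := by
    refine lt_of_le_of_lt (Polynomial.degree_sub_le _ _) (max_lt ?_ ?_)
    · refine lt_of_le_of_lt (Polynomial.degree_C_mul_X_pow_le _ _) ?_
      exact_mod_cast (by omega : p - 1 < p)
    · refine lt_of_le_of_lt Polynomial.degree_C_le ?_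
      exact_mod_cast (by omega : 0 < p)
  have hgm : g.Monic := Polynomial.monic_X_pow_add hdeg
  have hgd : g.natDegree = p := by
    have h : g.degree = p := by
      show (X ^ p + (C θ * X ^ (p - 1) - C θ)).degree = ((p : ℕ) : WithBot ℕ)
      rw [Polynomial.degree_add_eq_left_of_degree_lt, Polynomial.degree_X_pow]
      rwa [Polynomial.degree_X_pow]
    exact Polynomial.natDegree_eq_of_degree_eq_some h
  have hg : g.IsDistinguishedAt J := by
    refine ⟨⟨?_⟩, hgm⟩
    intro n hn
    rw [hgd] at hn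
    show (X ^ p + (C θ * X ^ (p - 1) - C θ)).coeff n ∈ J
    rw [Polynomial.coeff_add, Polynomial.coeff_X_pow, if_neg (by omega), zero_add,
      Polynomial.coeff_sub, Polynomial.coeff_C_mul, Polynomial.coeff_C]
    refine J.sub_mem (J.mul_mem_right _ hθ) ?_
    split_ifs
    · exact hθ
    · exact J.zero_mem
  obtain ⟨e, b, heb⟩ := B5a_poly k A J p hp M hM0 hMk g hg
  -- evaluation
  set oF : LaurentSeries k →+* AS p (x ^ M) := AdjoinRoot.of (asPoly p (x ^ M)) with hoF
  let y : AS p (x ^ M) := asRoot p (x ^ M)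
  have hy : y ^ p - y = oF (x ^ M) := by
    have h := AdjoinRoot.eval₂_root (asPoly p (x ^ M))
    rw [asPoly, eval₂_sub, eval₂_sub, eval₂_pow, eval₂_X, eval₂_C] at h
    exact sub_eq_zero.1 h
  have hXM : x ^ M = HahnSeries.single (-(M : ℤ)) (1 : k) := by
    rw [hx, HahnSeries.single_pow]
    simp
  have hXX : x ^ M ≠ 0 := by
    rw [hXM]
    simp
  let φ : A →+* AS p (x ^ M) := oF.comp (HahnSeries.ofPowerSeries ℤ k)
  have hφθ : φ θ = oF (x ^ M)⁻¹ := by
    show oF (HahnSeries.ofPowerSeries ℤ k θ) = _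
    congr 1
    apply eq_inv_of_mul_eq_one_right
    show x ^ M * HahnSeries.ofPowerSeries ℤ k (PowerSeries.X ^ M) = 1
    rw [HahnSeries.ofPowerSeries_X_pow, hXM, HahnSeries.single_mul_single]
    simp
  set u : AS p (x ^ M) := oF (x ^ M)⁻¹ with hu
  have hux : u * oF (x ^ M) = 1 := by
    rw [hu, ← map_mul, inv_mul_cancel₀ hXX, map_one]
  let z : AS p (x ^ M) := (y ^ (p - 1) - 1) * u
  have hyp : y ^ p = y ^ (p - 1) * y := by
    rw [← pow_succ, Nat.sub_add_cancel (by omega)]
  have hzy : z * y = 1 := by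
    show (y ^ (p - 1) - 1) * u * y = 1
    calc (y ^ (p - 1) - 1) * u * y = u * (y ^ (p - 1) * y - y) := by ring
      _ = u * (y ^ p - y) := by rw [hyp]
      _ = 1 := by rw [hy, hux]
  have hzp : z ^ p = z ^ (p - 1) * z := by
    rw [← pow_succ, Nat.sub_add_cancel (by omega)]
  have hz : z ^ p + (u * z ^ (p - 1) - u) = 0 := by
    have h1 : z ^ (p - 1) * y ^ (p - 1) = 1 := by rw [← mul_pow, hzy, one_pow]
    have h2 : z ^ p * (y ^ p - y) = 1 - z ^ (p - 1) := by
      have h3 : z ^ p * y ^ p = 1 := by rw [← mul_pow, hzy, one_pow]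
      rw [mul_sub, h3, hzp, mul_assoc, hzy, mul_one]
    have h4 : z ^ p = u * (1 - z ^ (p - 1)) := by
      rw [← h2, hy]
      calc z ^ p = z ^ p * (u * oF (x ^ M)) := by rw [hux, mul_one]
        _ = _ := by ring
    rw [h4]
    ring
  refine ⟨z, eval₂ φ z e, hzy, ?_⟩
  have h6 := congrArg (eval₂RingHom φ z) heb
  have h7 : eval₂RingHom φ z g = 0 := by
    show eval₂ φ z (X ^ p + (C θ * X ^ (p - 1) - C θ)) = 0
    rw [eval₂_add, eval₂_sub, eval₂_mul, eval₂_X_pow, eval₂_X_pow, eval₂_C, hφθ]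
    exact hz
  rw [map_mul, h7, mul_zero, map_sub, map_pow, map_sub, map_one, map_pow] at h6
  have h8 : eval₂RingHom φ z X = z := by
    show eval₂ φ z X = z
    rw [eval₂_X]
  rw [h8] at h6
  exact sub_eq_zero.1 h6

theorem prf_QHP7L (_hQASX : QASX) (hB7 : B7) : QHP7L := by
  intro k _ _ p _ _ M hM
  classical
  have hpp : p.Prime := Fact.out
  set x : LaurentSeries k := HahnSeries.single (-1 : ℤ) (1 : k) with hx
  have hx0 : x ≠ 0 := by
    rw [hx]
    simp
  have hCinj : Function.Injective (HahnSeries.C : k →+* LaurentSeries k) :=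
    (HahnSeries.C : k →+* LaurentSeries k).injective
  haveI : CharP (LaurentSeries k) p := charP_of_injective_ringHom hCinj p
  have hatX : atInf k X = x := by
    rw [atInf, coe_eval₂RingHom, eval₂_X]
  have hirr : Irreducible (asPoly p (x ^ M)) := by
    have h := hB7 k p (X ^ M) (by rwa [natDegree_X_pow])
    rwa [map_pow, hatX] at h
  obtain ⟨z, ε, hz, hε⟩ := QHP7L_root k p M hM x hx
  obtain ⟨ω, hω, hprod⟩ := QHP7L_core k p M hM (LaurentSeries k) HahnSeries.C x hx0 hirr z ε hz hε
  obtain ⟨hroot, hord⟩ := prf_B1 (LaurentSeries k) p (x ^ M)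
  obtain ⟨ρ, hρ⟩ := QHP7L_act p (x ^ M)
  haveI : Fact (Irreducible (asPoly p (x ^ M))) := ⟨hirr⟩
  set oF : LaurentSeries k →+* AS p (x ^ M) := AdjoinRoot.of (asPoly p (x ^ M)) with hoF
  have hoF0 : Function.Injective oF := by
    letI : Field (AS p (x ^ M)) := AdjoinRoot.instField
    exact oF.injective
  haveI hdom : IsDomain (AS p (x ^ M)) := by
    letI : Field (AS p (x ^ M)) := AdjoinRoot.instField
    infer_instance
  let act : MulSemiringAction (Multiplicative (ZMod p)) (AS p (x ^ M)) :=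
    MulSemiringAction.compHom (AS p (x ^ M)) ρ
  have hact1 : ∀ b : AS p (x ^ M), Multiplicative.ofAdd (1 : ZMod p) • b = asShift p (x ^ M) b :=
    fun b => hρ b
  have hactn : ∀ (n : ℕ) (b : AS p (x ^ M)),
      Multiplicative.ofAdd (n : ZMod p) • b = (asShift p (x ^ M))^[n] b := by
    intro n b
    induction n with
    | zero =>
      rw [Nat.cast_zero, ofAdd_zero, one_smul]
      rfl
    | succ n ih =>
      rw [Function.iterate_succ_apply', ← ih, ← hact1, ← mul_smul, ← ofAdd_add]
      push_cast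
      rw [add_comm]
  have hactg : ∀ (g : Multiplicative (ZMod p)) (b : AS p (x ^ M)),
      g • b = (asShift p (x ^ M))^[(Multiplicative.toAdd g).val] b := by
    intro g b
    rw [← hactn, ZMod.natCast_zmod_val]
    rfl
  have hshn : ∀ (n : ℕ), (asShift p (x ^ M))^[n] (asRoot p (x ^ M)) =
      asRoot p (x ^ M) + (n : AS p (x ^ M)) := by
    intro n
    induction n with
    | zero => simp
    | succ n ih =>
      rw [Function.iterate_succ_apply', ih, map_add, map_natCast, hroot]
      push_cast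
      ring
  have hofn : ∀ (n : ℕ) (a : LaurentSeries k), (asShift p (x ^ M))^[n] (oF a) = oF a := by
    intro n a
    induction n with
    | zero => rfl
    | succ n ih =>
      rw [Function.iterate_succ_apply', ih]
      exact asShift_of p _ _
  have halg : ∀ a, algebraMap (LaurentSeries k) (AS p (x ^ M)) a = oF a := fun a => rfl
  have hgal : GalAlg (LaurentSeries k) (Multiplicative (ZMod p)) (AS p (x ^ M)) := by
    refine ⟨fun g a => ?_, ?_, fun b hb => ?_, fun σ hσ => ?_⟩
    · rw [hactg, halg, hofn]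
    · exact hoF0
    · have h1 := hb (Multiplicative.ofAdd 1)
      rw [hact1] at h1
      exact prf_B2 prf_B1 prf_B4 (LaurentSeries k) p (x ^ M) b h1
    · rw [Ideal.eq_top_iff_one]
      set n := (Multiplicative.toAdd σ).val with hn
      have hn0 : ((n : ℕ) : LaurentSeries k) ≠ 0 := by
        intro h
        rw [CharP.cast_eq_zero_iff (LaurentSeries k) p] at h
        have h2 : n < p := ZMod.val_lt _
        have h3 : n = 0 := Nat.eq_zero_of_dvd_of_lt h h2
        apply hσ
        rw [hn, ZMod.val_eq_zero] at h3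
        exact Multiplicative.toAdd.injective h3
      have h1 : (1 : AS p (x ^ M)) = oF (-((n : ℕ) : LaurentSeries k)⁻¹) *
          (asRoot p (x ^ M) - σ • asRoot p (x ^ M)) := by
        rw [hactg, ← hn, hshn, sub_add_cancel_left]
        have h3 : ((n : ℕ) : AS p (x ^ M)) = oF ((n : ℕ) : LaurentSeries k) := by
          rw [map_natCast]
        rw [h3, ← map_neg, ← map_mul, neg_mul_neg, inv_mul_cancel₀ hn0, map_one]
      rw [h1]
      exact Ideal.mul_mem_left _ _ (Ideal.subset_span ⟨_, rfl⟩)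
  have hu : ∀ j : ℕ, ((asShift p (x ^ M))^[j] ω) ^ M = asRoot p (x ^ M) + (j : AS p (x ^ M)) := by
    intro j
    rw [← hshn j, ← hω]
    exact (iterate_map_pow (asShift p (x ^ M)) j ω M).symm
  obtain ⟨ι, ⟨hιC, hιu⟩, -⟩ := prf_HP1 k p M (AS p (x ^ M)) (oF.comp HahnSeries.C)
    (fun c : ZMod p => (asShift p (x ^ M))^[c.val] ω) (by
      intro c
      rw [hu, hu, ZMod.val_zero, Nat.cast_zero, add_zero, map_natCast])
  have hall : ∀ a, ι (fpAlg k p M a) = oF (atInf k a) := by
    intro a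
    have hcomp : ι.comp (fpAlg k p M) = oF.comp (atInf k) := by
      refine Polynomial.ringHom_ext (fun c => ?_) ?_
      · rw [RingHom.comp_apply, RingHom.comp_apply, fpAlg, atInf, coe_eval₂RingHom,
          coe_eval₂RingHom, eval₂_C, eval₂_C, hιC]
        rfl
      · rw [RingHom.comp_apply, RingHom.comp_apply, hatX, fpAlg, coe_eval₂RingHom, eval₂_X,
          map_prod, ← hprod]
        refine Finset.prod_nbij (fun c : ZMod p => c.val) (fun c _ => ?_) (fun c _ c' _ h => ?_)
          (fun j hj => ?_) (fun c _ => hιu c)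
        · exact Finset.mem_range.2 (ZMod.val_lt c)
        · exact ZMod.val_injective p h
        · rw [Finset.coe_range, Set.mem_Iio] at hj
          exact ⟨(j : ZMod p), Finset.mem_coe.2 (Finset.mem_univ _), ZMod.val_cast_of_lt hj⟩
    exact RingHom.congr_fun hcomp a
  refine ⟨AS p (x ^ M), inferInstance, inferInstance, act, ι, hdom, hgal, hall, fun c => ?_,
    fun c => hιC c⟩
  rw [hιu, hιu, hact1, ← Function.iterate_succ_apply' (asShift p (x ^ M)), Nat.succ_eq_add_one]
  by_cases hc : c.val + 1 < p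
  · have h1 : (c + 1).val = c.val + 1 := by
      have h2 : c + 1 = ((c.val + 1 : ℕ) : ZMod p) := by
        rw [Nat.cast_add, Nat.cast_one, ZMod.natCast_zmod_val]
      rw [h2, ZMod.val_cast_of_lt hc]
    rw [h1]
  · have hlt := ZMod.val_lt c
    have h1 : c.val + 1 = p := by omega
    have h2 : c + 1 = 0 := by
      have h3 : c + 1 = ((c.val + 1 : ℕ) : ZMod p) := by
        rw [Nat.cast_add, Nat.cast_one, ZMod.natCast_zmod_val]
      rw [h3, h1, ZMod.natCast_self]
    rw [h2, ZMod.val_zero, h1]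
    exact (hord ω).symm

end MP7b0bad

end

section

set_option autoImplicit false

/-!
# QHP8L: base covers, local version
-/

namespace MP7b0bad

open Polynomial

theorem QHP8L_HP6 : HP6 := by
  have h2 : B2 := prf_B2 prf_B1 prf_B4
  have h6 : B6 := prf_B6 prf_B3
  have h3a : HP3a := prf_HP3a prf_HP1
  exact prf_HP6 h2 (prf_B8 prf_B1 prf_B4) (prf_HP3 h3a) h3a
    (prf_HP7 prf_B1 (prf_B5 prf_B1 h2 prf_B5a h6) prf_HP1)

theorem prf_QHP8L (hQHP7L : QHP7L) (hQHQL : QHQL) (_hQIso : QIso) : QHP8L := by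
  intro k _ _ p _ _ G _ _ t a htp hpa hgood H ht hH
  set M := orderOf a with hMdef
  have hpM : ¬ p ∣ M := hpa
  have haM : a ^ M = 1 := pow_orderOf_eq_one a
  have hM0 : M ≠ 0 := by
    intro h
    rw [h] at hpM
    exact hpM (dvd_zero p)
  have hMpos : 0 < M := Nat.pos_of_ne_zero hM0
  have : NeZero M := ⟨hM0⟩
  have : NeZero (M : k) := ⟨fun h => hpM ((CharP.cast_eq_zero_iff k p M).1 h)⟩
  obtain ⟨ζ, hζ⟩ := HasEnoughRootsOfUnity.exists_primitiveRoot k M
  obtain ⟨ρ, hρ1, hρ2⟩ := prf_HP4 prf_HP1 k p M ζ hMpos hζ.pow_eq_one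
  obtain ⟨E, _, _, _, ι, hEdom, hEgal, hι1, hι2, hι4⟩ := hQHP7L k p M hpM
  obtain ⟨ψ, hψ1, hψ2, hψ3, hψ4⟩ := prf_HP8a p M hpM G t a htp haM hgood
  have hρC : ∀ (g : GP p M) (x : k), ρ g (fpC k p M x) = fpC k p M x := by
    intro g x
    have h := hρ2 g (C x)
    simpa [fpAlg] using h
  have hdom : IsDomain (FP k p M) :=
    prf_HP2 prf_HP1 prf_HP2a (prf_HP3a prf_HP1) k p M hpM
  let alg : Algebra k[X] (FP k p M) := (fpAlg k p M).toAlgebra
  let act : MulSemiringAction (GP p M) (FP k p M) := MulSemiringAction.compHom (FP k p M) ρ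
  have hact : ∀ (g : GP p M) (b : FP k p M), g • b = ρ g b := fun g b => rfl
  have halg : ∀ x : k[X], algebraMap k[X] (FP k p M) x = fpAlg k p M x := fun x => rfl
  have hιt : ∀ b : FP k p M, ι (ρ (tP p M) b) = Multiplicative.ofAdd (1 : ZMod p) • ι b := by
    intro b
    have e : (ι.comp (ρ (tP p M) : FP k p M →+* FP k p M)) =
        (MulSemiringAction.toRingHom (Multiplicative (ZMod p)) E
          (Multiplicative.ofAdd (1 : ZMod p))).comp ι := by
      refine Ideal.Quotient.ringHom_ext ?_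
      refine MvPolynomial.ringHom_ext (fun x => ?_) (fun c => ?_)
      · have h1 : ι (ρ (tP p M) (fpC k p M x)) =
            Multiplicative.ofAdd (1 : ZMod p) • ι (fpC k p M x) := by
          rw [hρC, hι4]
          exact (hEgal.comm _ _).symm
        exact h1
      · have h1 : ι (ρ (tP p M) (fpu k p M c)) =
            Multiplicative.ofAdd (1 : ZMod p) • ι (fpu k p M c) := by
          rw [hρ1, ← hι2]
          have q1 : qP (tP p M) = 1 := rfl
          have n1 : ∀ c', nP (tP p M) c' = 0 := fun c' => rfl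
          rw [q1, n1, n1, sub_zero, ZMod.val_zero, pow_zero, map_one, one_mul]
        exact h1
    exact congrArg (fun f : FP k p M →+* E => f b) e
  have hQ := hQHQL k p (GP p M) (tP p M) (FP k p M) E ι G ψ ?_ ?_ ?_ ?_ ?_ hEgal ?_ ?_ hψ3
    (by rw [hψ1, htp])
  · have hH' : H = ψ.range := by rw [hH, hψ2]
    subst hH'
    have e : (⟨t, ht⟩ : ψ.range) = ⟨ψ (tP p M), ⟨tP p M, rfl⟩⟩ := Subtype.ext hψ1.symm
    rw [e]
    exact hQ
  · intro x y hxy
    rw [halg, halg] at hxy
    apply E7_atInf_inj k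
    apply hEgal.inj
    rw [← hι1, ← hι1, hxy]
  · intro g x
    rw [halg, hact]
    exact hρ2 g x
  · classical
    obtain ⟨-, n, b, hb⟩ := prf_HP3 (prf_HP3a prf_HP1) k p M hMpos
    refine ⟨⟨Finset.univ.image b, ?_⟩⟩
    rw [eq_top_iff]
    intro z _
    obtain ⟨c, hc⟩ := hb z
    rw [hc]
    refine Submodule.sum_mem _ fun i _ => ?_
    have : fpAlg k p M (c i) * b i = c i • b i := by
      rw [Algebra.smul_def, halg]
    rw [this]
    refine Submodule.smul_mem _ _ (Submodule.subset_span ?_)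
    simp
  · intro b hb
    obtain ⟨x, hx⟩ := QHP8L_HP6 k p M ζ hpM hζ ρ hρ1 hρ2 b hb
    exact ⟨x, hx⟩
  · intro σ
    rcases prf_HP5 k p M ζ hMpos hζ ρ hρ1 hρC σ with ⟨h1, h2, h3⟩ | h
    · exact Or.inl ⟨h1, hψ4 σ h2 h3⟩
    · exact Or.inr h
  · intro x
    rw [halg]
    exact hι1 x
  · intro b
    rw [hact]
    exact hιt b

end MP7b0bad

end

section

set_option autoImplicit false

namespace MP7b0bad

open Polynomial

/-- the isomorphism of a cyclic group of order `p` with `Z/p` -/
theorem QHQL_equiv (p : ℕ) [Fact p.Prime] (G : Type) [Group G] (s : G) (hs : orderOf s = p) :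
    ∃ e : Subgroup.zpowers s ≃* Multiplicative (ZMod p),
      e ⟨s, Subgroup.mem_zpowers s⟩ = Multiplicative.ofAdd (1 : ZMod p) := by
  have hg : ∀ x : Subgroup.zpowers s,
      x ∈ Subgroup.zpowers (⟨s, Subgroup.mem_zpowers s⟩ : Subgroup.zpowers s) := by
    rintro ⟨x, n, rfl⟩
    exact ⟨n, Subtype.ext (by simp)⟩
  have hg' : ∀ x : Multiplicative (ZMod p),
      x ∈ Subgroup.zpowers (Multiplicative.ofAdd (1 : ZMod p)) := by
    intro x
    refine ⟨((Multiplicative.toAdd x).val : ℤ), ?_⟩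
    apply Multiplicative.toAdd.injective
    simp
  have h : orderOf (⟨s, Subgroup.mem_zpowers s⟩ : Subgroup.zpowers s) =
      orderOf (Multiplicative.ofAdd (1 : ZMod p)) := by
    rw [Subgroup.orderOf_mk, hs, orderOf_ofAdd_eq_addOrderOf, ZMod.addOrderOf_one]
  exact ⟨mulEquivOfOrderOfEq hg hg' h, mulEquivOfOrderOfEq_apply_gen hg hg' h⟩

/-- restriction of the group of a Galois algebra along an isomorphism -/
theorem QHQL_gal (R : Type) [CommRing R] (G G' : Type) [Group G] [Group G'] (e : G' ≃* G)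
    (B : Type) [CommRing B] [Algebra R B] [MulSemiringAction G B] [MulSemiringAction G' B]
    (h : ∀ (g : G') (b : B), g • b = e g • b) (hB : GalAlg R G B) : GalAlg R G' B where
  comm g a := by rw [h]; exact hB.comm _ a
  inj := hB.inj
  inv b hb := hB.inv b fun g => by
    have := hb (e.symm g)
    rw [h, MulEquiv.apply_symm_apply] at this
    exact this
  unr σ hσ := by
    have h1 := hB.unr (e σ) (fun h2 => hσ (e.injective (by rw [h2, map_one])))
    have h2 : {x : B | ∃ b : B, x = b - σ • b} = {x : B | ∃ b : B, x = b - e σ • b} := by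
      ext x
      simp only [h]
    rw [h2, h1]

theorem prf_QHQL : QHQL := by
  intro k _ p _ _ Γ _ _ t B _ _ _ _ E _ _ _ _ ι G _ ψ hinj hcomm hfin hinv hcov hE hιa hιt hpN hord
  have hpp : p.Prime := Fact.out
  classical
  let B' : Subalgebra k[X] B := HQ_fix hcomm ψ.ker
  let act : MulSemiringAction ψ.range B' := MulSemiringAction.compHom B' (HQ_rho hcomm ψ)
  have hact : ∀ (g : Γ) (h : ψ g ∈ ψ.range) (b : B'),
      (((⟨ψ g, h⟩ : ψ.range) • b : B') : B) = g • (b : B) :=
    fun g h b => HQ_rho_apply hcomm ψ g h b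
  have hmem : ∀ g : Γ, ψ g ∈ ψ.range := fun g => ⟨g, rfl⟩
  obtain ⟨e, he⟩ := QHQL_equiv p ψ.range (⟨ψ t, ⟨t, rfl⟩⟩ : ψ.range)
    ((Subgroup.orderOf_mk (ψ t) (hmem t)).trans hord)
  let actE : MulSemiringAction (Subgroup.zpowers (⟨ψ t, ⟨t, rfl⟩⟩ : ψ.range)) E :=
    MulSemiringAction.compHom E e.toMonoidHom
  have hactE : ∀ (g : Subgroup.zpowers (⟨ψ t, ⟨t, rfl⟩⟩ : ψ.range)) (b : E), g • b = e g • b :=
    fun g b => rfl
  let ι' : B' →+* E := ι.comp B'.val.toRingHom
  have hgen : ∀ b : B', ι' ((⟨ψ t, ⟨t, rfl⟩⟩ : ψ.range) • b) =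
      Multiplicative.ofAdd (1 : ZMod p) • ι' b := by
    intro b
    have h1 : (((⟨ψ t, hmem t⟩ : ψ.range) • b : B') : B) = t • (b : B) := hact t (hmem t) b
    show ι (((⟨ψ t, hmem t⟩ : ψ.range) • b : B') : B) = _
    rw [h1, hιt]
    rfl
  refine ⟨B', inferInstance, inferInstance, act, E, inferInstance, inferInstance, actE, ι',
    ⟨?_, ?_, ?_, ?_⟩, inferInstance, QHQL_gal _ _ _ e E hactE hE, inferInstance,
    fun a => hιa a, ?_⟩
  · rintro ⟨_, g, rfl⟩ a
    apply Subtype.ext
    exact (hact g (hmem g) _).trans (hcomm g a)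
  · intro a b hab
    apply hinj
    exact congrArg (fun z : B' => (z : B)) hab
  · intro b hb
    obtain ⟨a, ha⟩ := hinv (b : B) (fun g => by
      have h := congrArg (fun z : B' => (z : B)) (hb ⟨ψ g, g, rfl⟩)
      exact (hact g ⟨g, rfl⟩ b).symm.trans h)
    exact ⟨a, Subtype.ext ha⟩
  · rintro ⟨_, g, rfl⟩ hg
    have hgN : g ∉ ψ.ker := by
      intro h
      apply hg
      apply Subtype.ext
      exact h
    obtain ⟨n, x, y, c, hc, hx, hy, hxy⟩ := HQ_main prf_E2g ψ.ker (fun σ => by
      rcases hcov σ with h | h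
      · exact Or.inl ⟨h.1, h.2⟩
      · exact Or.inr h) g hgN
    have hck : (c : k) ≠ 0 := by
      intro h
      rw [CharP.cast_eq_zero_iff k p] at h
      rcases (Nat.Prime.dvd_mul hpp).1 (h.trans hc) with h1 | h1
      · exact hpN h1
      · exact hpN h1
    rw [Ideal.eq_top_iff_one]
    let x' : Fin n → B' := fun m => ⟨x m, hx m⟩
    let y' : Fin n → B' := fun m => ⟨y m, hy m⟩
    have h1 : (1 : B') = algebraMap k[X] B' (C ((c : k)⁻¹)) *
        ∑ m, x' m * (y' m - (⟨ψ g, hmem g⟩ : ψ.range) • y' m) := by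
      apply Subtype.ext
      have h2 : ((∑ m, x' m * (y' m - (⟨ψ g, hmem g⟩ : ψ.range) • y' m) : B') : B) =
          ∑ m, x m * (y m - g • y m) := by
        rw [AddSubmonoidClass.coe_finsetSum]
        refine Finset.sum_congr rfl fun m _ => ?_
        show x m * (y m - (((⟨ψ g, hmem g⟩ : ψ.range) • y' m : B') : B)) = _
        rw [hact g (hmem g) (y' m)]
      show (1 : B) = algebraMap k[X] B (C ((c : k)⁻¹)) *
        ((∑ m, x' m * (y' m - (⟨ψ g, hmem g⟩ : ψ.range) • y' m) : B') : B)
      rw [h2, hxy]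
      have h3 : ((c : ℕ) : B) = algebraMap k[X] B (C (c : k)) := by
        rw [map_natCast, map_natCast]
      rw [h3, ← map_mul, ← C_mul, inv_mul_cancel₀ hck, C_1, map_one]
    rw [h1]
    refine Ideal.mul_mem_left _ _ (Ideal.sum_mem _ fun m _ => Ideal.mul_mem_left _ _ ?_)
    exact Ideal.subset_span ⟨y' m, rfl⟩
  · -- equivariance: the stabiliser of the relation is a subgroup
    let S : Subgroup (Subgroup.zpowers (⟨ψ t, ⟨t, rfl⟩⟩ : ψ.range)) :=
      { carrier := {g | ∀ b : B', ι' ((g : ψ.range) • b) = g • ι' b}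
        one_mem' := fun b => by simp
        mul_mem' := fun {u v} hu hv b => by
          rw [Subgroup.coe_mul, mul_smul, hu, hv, mul_smul]
        inv_mem' := fun {u} hu b => by
          rw [eq_inv_smul_iff, ← hu, Subgroup.coe_inv, smul_inv_smul] }
    have hS : (⟨(⟨ψ t, ⟨t, rfl⟩⟩ : ψ.range), Subgroup.mem_zpowers _⟩ :
        Subgroup.zpowers (⟨ψ t, ⟨t, rfl⟩⟩ : ψ.range)) ∈ S := by
      intro b
      rw [hactE, he]
      exact hgen b
    rintro ⟨_, n, rfl⟩ b
    have h2 := S.zpow_mem hS n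
    exact h2 b

end MP7b0bad

end

section

/-!
# MP_7b0bad, item QIso: transport of structure
-/

set_option autoImplicit false

namespace MP7b0bad

open Polynomial

theorem QIso_gal {R : Type} [CommRing R] {H H' : Type} [Group H] [Group H'] (e : H ≃* H')
    {B : Type} [CommRing B] [Algebra R B] (a : MulSemiringAction H B)
    (a' : MulSemiringAction H' B) (hs : ∀ (g : H) (b : B), e g • b = g • b)
    (h : GalAlg R H B) : GalAlg R H' B := by
  have hs' : ∀ (g : H') (b : B), g • b = e.symm g • b := by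
    intro g b
    rw [← hs, e.apply_symm_apply]
  refine ⟨fun g c => ?_, h.inj, fun b hb => ?_, fun σ hσ => ?_⟩
  · rw [hs', h.comm]
  · exact h.inv b fun g => by rw [← hs, hb]
  · have h1 : e.symm σ ≠ 1 := fun h1 => hσ (by rw [← e.apply_symm_apply σ, h1, map_one])
    have h2 := h.unr (e.symm σ) h1
    simp only [hs']
    exact h2

theorem prf_QIso : QIso := by
  intro k _ G G' _ _ φ P hRel
  obtain ⟨B, iB1, iB2, iB3, E, iE1, iE2, iE3, ι, hB, hdB, hE, hdE, h1, h2⟩ := hRel
  let e : P ≃* (P.map φ.toMonoidHom) := P.equivMapOfInjective φ.toMonoidHom φ.injective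
  let aB : MulSemiringAction G' B := MulSemiringAction.compHom B φ.symm.toMonoidHom
  let aE : MulSemiringAction (P.map φ.toMonoidHom) E :=
    MulSemiringAction.compHom E e.symm.toMonoidHom
  have hsB : ∀ (g : G) (b : B), φ g • b = g • b := by
    intro g b
    have : φ g • b = φ.symm (φ g) • b := rfl
    rw [this, φ.symm_apply_apply]
  have hsE : ∀ (g : P) (b : E), e g • b = g • b := by
    intro g b
    have : e g • b = e.symm (e g) • b := rfl
    rw [this, e.symm_apply_apply]
  refine ⟨B, iB1, iB2, aB, E, iE1, iE2, aE, ι, QIso_gal φ iB3 aB hsB hB, hdB,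
    QIso_gal e iE3 aE hsE hE, hdE, h1, ?_⟩
  intro g b
  obtain ⟨x, rfl⟩ := e.surjective g
  have h3 : ((e x : P.map φ.toMonoidHom) : G') = φ (x : G) :=
    Subgroup.coe_equivMapOfInjective_apply P φ.toMonoidHom φ.injective x
  rw [hsE, h3, hsB]
  exact h2 x b

end MP7b0bad

end

section

set_option autoImplicit false

namespace MP7b0bad

open Polynomial

theorem QLat_sum_coeff {κ : Type} [Field κ] {ι : Type} (s : Finset ι) (f : ι → LaurentSeries κ)
    (i : ℤ) : (∑ l ∈ s, f l).coeff i = ∑ l ∈ s, (f l).coeff i := by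
  classical
  induction s using Finset.induction_on with
  | empty => simp
  | insert a s ha ih => rw [Finset.sum_insert ha, Finset.sum_insert ha, HahnSeries.coeff_add, ih]

/-- Laurent series have coefficients vanishing below some index -/
theorem QLat_bdd {κ : Type} [Field κ] (h : LaurentSeries κ) :
    ∃ m : ℤ, ∀ i : ℤ, i < m → h.coeff i = 0 := by
  by_cases hh : h = 0
  · exact ⟨0, fun i _ => by rw [hh]; rfl⟩
  · exact ⟨h.order, fun i hi => HahnSeries.coeff_eq_zero_of_lt_order hi⟩

theorem prf_QLat (hQGL : QGL) : QLat := by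
  intro κ _ Γ _ _ C D _ _ _ _ _ _ q hC hD hq hq' n c
  classical
  -- coordinates
  have hco : ∀ z : D, ∃! h : Fin n → LaurentSeries κ,
      ∀ γ : Γ, γ⁻¹ • z = ∑ l, algebraMap (LaurentSeries κ) D (h l) * q (γ⁻¹ • c l) := by
    intro z
    exact hQGL κ[X] (LaurentSeries κ) (atInf κ) Γ Γ (MonoidHom.id Γ) C D q hC hD.comm hD.inj hD.inv
      hq hq' n c (fun γ => γ⁻¹ • z) (fun γ h => by
        show h • (γ * h)⁻¹ • z = γ⁻¹ • z
        rw [smul_smul]
        congr 1
        group)
  have hex : ∀ z : D, ∃ h : Fin n → LaurentSeries κ,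
      z = ∑ l, algebraMap (LaurentSeries κ) D (h l) * q (c l) := by
    intro z
    obtain ⟨h, hh, -⟩ := hco z
    refine ⟨h, ?_⟩
    have := hh 1
    simpa using this
  have huniq : ∀ h h' : Fin n → LaurentSeries κ, ∑ l, algebraMap (LaurentSeries κ) D (h l) * q (c l) =
      ∑ l, algebraMap (LaurentSeries κ) D (h' l) * q (c l) → h = h' := by
    intro h h' heq
    set z := ∑ l, algebraMap (LaurentSeries κ) D (h l) * q (c l) with hz
    have key : ∀ g : Fin n → LaurentSeries κ, z = ∑ l, algebraMap (LaurentSeries κ) D (g l) * q (c l) →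
        ∀ γ : Γ, γ⁻¹ • z = ∑ l, algebraMap (LaurentSeries κ) D (g l) * q (γ⁻¹ • c l) := by
      intro g hg γ
      conv_lhs => rw [hg]
      rw [Finset.smul_sum]
      refine Finset.sum_congr rfl fun l _ => ?_
      rw [smul_mul', hD.comm, hq']
    exact (hco z).unique (key h hz) (key h' heq)
  -- structure constants
  set a : Fin n → Fin n → Fin n → κ[X] := fun l l' j => c.repr (c l * c l') j with ha
  set b : Γ → Fin n → Fin n → κ[X] := fun γ l j => c.repr (γ • c l) j with hb
  set e : Fin n → κ[X] := fun j => c.repr 1 j with he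
  have hamul : ∀ l l', c l * c l' = ∑ j, algebraMap κ[X] C (a l l' j) * c j := by
    intro l l'
    conv_lhs => rw [← c.sum_repr (c l * c l')]
    exact Finset.sum_congr rfl fun j _ => by rw [Algebra.smul_def]
  have hbmul : ∀ γ l, γ • c l = ∑ j, algebraMap κ[X] C (b γ l j) * c j := by
    intro γ l
    conv_lhs => rw [← c.sum_repr (γ • c l)]
    exact Finset.sum_congr rfl fun j _ => by rw [Algebra.smul_def]
  have he1 : (1 : C) = ∑ j, algebraMap κ[X] C (e j) * c j := by
    conv_lhs => rw [← c.sum_repr (1 : C)]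
    exact Finset.sum_congr rfl fun j _ => by rw [Algebra.smul_def]
  have := Fintype.ofFinite Γ
  obtain ⟨r, hra, hrb, hre⟩ : ∃ r : ℕ, (∀ l l' j, (a l l' j).natDegree ≤ r) ∧
      (∀ γ l j, (b γ l j).natDegree ≤ r) ∧ ∀ j, (e j).natDegree ≤ r := by
    refine ⟨(∑ l, ∑ l', ∑ j, (a l l' j).natDegree) + (∑ γ, ∑ l, ∑ j, (b γ l j).natDegree) +
      ∑ j, (e j).natDegree, ?_, ?_, ?_⟩
    · intro l l' j
      have h1 : (a l l' j).natDegree ≤ ∑ j, (a l l' j).natDegree :=
        Finset.single_le_sum (f := fun j => (a l l' j).natDegree) (fun _ _ => Nat.zero_le _)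
          (Finset.mem_univ j)
      have h2 : ∑ j, (a l l' j).natDegree ≤ ∑ l', ∑ j, (a l l' j).natDegree :=
        Finset.single_le_sum (f := fun l' => ∑ j, (a l l' j).natDegree) (fun _ _ => Nat.zero_le _)
          (Finset.mem_univ l')
      have h3 : ∑ l', ∑ j, (a l l' j).natDegree ≤ ∑ l, ∑ l', ∑ j, (a l l' j).natDegree :=
        Finset.single_le_sum (f := fun l => ∑ l', ∑ j, (a l l' j).natDegree)
          (fun _ _ => Nat.zero_le _) (Finset.mem_univ l)
      omega
    · intro γ l j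
      have h1 : (b γ l j).natDegree ≤ ∑ j, (b γ l j).natDegree :=
        Finset.single_le_sum (f := fun j => (b γ l j).natDegree) (fun _ _ => Nat.zero_le _)
          (Finset.mem_univ j)
      have h2 : ∑ j, (b γ l j).natDegree ≤ ∑ l, ∑ j, (b γ l j).natDegree :=
        Finset.single_le_sum (f := fun l => ∑ j, (b γ l j).natDegree) (fun _ _ => Nat.zero_le _)
          (Finset.mem_univ l)
      have h3 : ∑ l, ∑ j, (b γ l j).natDegree ≤ ∑ γ, ∑ l, ∑ j, (b γ l j).natDegree :=
        Finset.single_le_sum (f := fun γ => ∑ l, ∑ j, (b γ l j).natDegree)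
          (fun _ _ => Nat.zero_le _) (Finset.mem_univ γ)
      omega
    · intro j
      have h1 : (e j).natDegree ≤ ∑ j, (e j).natDegree :=
        Finset.single_le_sum (f := fun j => (e j).natDegree) (fun _ _ => Nat.zero_le _)
          (Finset.mem_univ j)
      omega
  have hatInf : ∀ (f : κ[X]), f.natDegree ≤ r → ∀ i : ℤ, i < -(r : ℤ) → (atInf κ f).coeff i = 0 := by
    intro f hf i hi
    rw [E7_atInf_coeff]
    split_ifs with h
    · exact coeff_eq_zero_of_natDegree_lt (by omega)
    · rfl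
  have hadd : ∀ (m : ℤ) (z z' : D), Lat (κ := κ) q c m z → Lat (κ := κ) q c m z' →
      Lat (κ := κ) q c m (z + z') := by
    rintro m z z' ⟨h, hh, rfl⟩ ⟨h', hh', rfl⟩
    refine ⟨fun l => h l + h' l, fun l i hi => ?_, ?_⟩
    · rw [HahnSeries.coeff_add, hh l i hi, hh' l i hi, add_zero]
    · rw [← Finset.sum_add_distrib]
      exact Finset.sum_congr rfl fun l _ => by rw [map_add, add_mul]
  have hzero : ∀ m : ℤ, Lat (κ := κ) q c m (0 : D) := by
    intro m
    exact ⟨fun _ => 0, fun l i _ => rfl, by simp⟩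
  have hsum : ∀ (m : ℤ) (ι : Type) (s : Finset ι) (f : ι → D), (∀ i ∈ s, Lat (κ := κ) q c m (f i)) →
      Lat (κ := κ) q c m (∑ i ∈ s, f i) := by
    intro m ι s f hf
    induction s using Finset.induction_on with
    | empty => rw [Finset.sum_empty]; exact hzero m
    | insert x s hx ih =>
      rw [Finset.sum_insert hx]
      exact hadd m _ _ (hf x (Finset.mem_insert_self x s))
        (ih fun i hi => hf i (Finset.mem_insert_of_mem hi))
  have hsmul : ∀ (m m' : ℤ) (x : LaurentSeries κ) (z : D), (∀ i : ℤ, i < m → x.coeff i = 0) →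
      Lat (κ := κ) q c m' z → Lat (κ := κ) q c (m + m') (algebraMap (LaurentSeries κ) D x * z) := by
    rintro m m' x z hx ⟨h, hh, rfl⟩
    refine ⟨fun l => x * h l, fun l i hi => mul_coeff_neg _ _ m m' hx (hh l) i hi, ?_⟩
    rw [Finset.mul_sum]
    exact Finset.sum_congr rfl fun l _ => by rw [map_mul, mul_assoc]
  -- elements q (∑ f_j c_j) with natDegree bounded
  have hpoly : ∀ f : Fin n → κ[X], (∀ j, (f j).natDegree ≤ r) →
      Lat (κ := κ) q c (-(r : ℤ)) (q (∑ j, algebraMap κ[X] C (f j) * c j)) := by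
    intro f hf
    refine ⟨fun j => atInf κ (f j), fun j i hi => hatInf _ (hf j) i hi, ?_⟩
    rw [map_sum]
    exact Finset.sum_congr rfl fun j _ => by rw [map_mul, hq]
  refine ⟨r, ?_, hadd, ?_, ?_, ?_, ?_, hsmul, ?_, huniq⟩
  · rintro m m' z hm ⟨h, hh, rfl⟩
    exact ⟨h, fun l i hi => hh l i (lt_of_lt_of_le hi hm), rfl⟩
  · rintro m z ⟨h, hh, rfl⟩
    refine ⟨fun l => - h l, fun l i hi => ?_, ?_⟩
    · rw [HahnSeries.coeff_neg, hh l i hi, neg_zero]
    · rw [← Finset.sum_neg_distrib]
      exact Finset.sum_congr rfl fun l _ => by rw [map_neg, neg_mul]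
  · rintro m m' z z' ⟨h, hh, rfl⟩ ⟨h', hh', rfl⟩
    rw [Finset.sum_mul_sum]
    refine hsum _ _ _ _ fun l _ => hsum _ _ _ _ fun l' _ => ?_
    have h1 : algebraMap (LaurentSeries κ) D (h l) * q (c l) *
        (algebraMap (LaurentSeries κ) D (h' l') * q (c l')) =
        algebraMap (LaurentSeries κ) D (h l * h' l') * q (∑ j, algebraMap κ[X] C (a l l' j) * c j) := by
      rw [← hamul, map_mul, map_mul]
      ring
    rw [h1]
    exact hsmul (m + m') (-(r : ℤ)) _ _
      (fun i hi => mul_coeff_neg _ _ m m' (hh l) (hh' l') i hi) (hpoly _ (hra l l'))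
  · rintro m z γ ⟨h, hh, rfl⟩
    rw [Finset.smul_sum]
    refine hsum _ _ _ _ fun l _ => ?_
    have h1 : γ • (algebraMap (LaurentSeries κ) D (h l) * q (c l)) =
        algebraMap (LaurentSeries κ) D (h l) * q (∑ j, algebraMap κ[X] C (b γ l j) * c j) := by
      rw [← hbmul, smul_mul', hD.comm, hq']
    rw [h1]
    exact hsmul m (-(r : ℤ)) _ _ (hh l) (hpoly _ (hrb γ l))
  · intro z
    obtain ⟨h, hh⟩ := hex z
    choose m hm using fun l => QLat_bdd (h l)
    rcases Nat.eq_zero_or_pos n with hn | hn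
    · refine ⟨0, h, fun l => ?_, hh⟩
      subst hn
      exact l.elim0
    · have : Nonempty (Fin n) := ⟨⟨0, hn⟩⟩
      obtain ⟨l0, -, hl0⟩ := Finset.exists_min_image Finset.univ m Finset.univ_nonempty
      exact ⟨m l0, h, fun l i hi => hm l i (lt_of_lt_of_le hi (hl0 l (Finset.mem_univ _))), hh⟩
  · intro m x hx
    have h1 : algebraMap (LaurentSeries κ) D x =
        algebraMap (LaurentSeries κ) D x * q (∑ j, algebraMap κ[X] C (e j) * c j) := by
      rw [← he1, map_one, mul_one]
    rw [h1]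
    exact hsmul m (-(r : ℤ)) _ _ hx (hpoly _ hre)

end MP7b0bad

end

section

set_option autoImplicit false

namespace MP7b0bad

open Polynomial

lemma QLocD_WF (hQDF : QDF) (k : Type) [Field k] (f : k[X]) : WF k (toXW k f) = toX k f := by
  have h := (hQDF k 0 1 (fun i => i.elim0) (fun i => i.elim0)
    ⟨fun i => i.elim0, monic_one, natDegree_one, fun i => i.elim0, fun i => i.elim0,
      fun i => i.elim0⟩).2.2
  exact h f

theorem prf_QLocD (hQKG : QKG) (hQPsi : QPsi) (hQBC : QBC) (hQDF : QDF) : QLocD := by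
  intro k _ p _ _ H P' _ _ _ _ π B E _ _ _ _ _ _ ι hP' hB hBd hE hι hιa
  obtain ⟨A0, _, _, _, j0, hA0, hj0, hj0a⟩ := hQKG k p P' E hP' hE
  obtain ⟨ψ, hψc, hψ⟩ := hQPsi k
  obtain ⟨A, _, _, _, qA, hA, hqA, hqAa, hAu, hAg⟩ := hQBC k[X] (KW k) (toXW k) P' A0 hA0
  obtain ⟨Q, _, _, _, qQ, hQ, hqQ, hqQa, hQu, hQg⟩ := hQBC (LaurentSeries k) (Fk k) ψ P' E hE
  obtain ⟨ε, hε1, hε2⟩ := hAu Q (qQ.comp j0) ((algebraMap (Fk k) Q).comp (WF k)) (fun a => by
    rw [RingHom.comp_apply, RingHom.comp_apply, hj0, hqQ, hψ, QLocD_WF hQDF])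
  refine ⟨A, inferInstance, inferInstance, inferInstance, Q, inferInstance, inferInstance,
    inferInstance, ⟨B, hB, hBd, qQ.comp ι, fun f => ?_, fun g b => ?_⟩, ε, hA, hQ, fun a => ?_,
    fun g a => ?_⟩
  · rw [RingHom.comp_apply, hι, hqQ, hψ]
  · rw [RingHom.comp_apply, RingHom.comp_apply, hιa, hqQa]
  · rw [hε2, RingHom.comp_apply]
  · obtain ⟨n, r, b, rfl⟩ := hAg a
    rw [Finset.smul_sum, map_sum, map_sum, Finset.smul_sum]
    refine Finset.sum_congr rfl fun i _ => ?_
    rw [smul_mul', hA.comm, ← hqAa, map_mul, map_mul, hε1, hε1, hε2, smul_mul',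
      RingHom.comp_apply, RingHom.comp_apply, RingHom.comp_apply, hj0a, hqQa, hQ.comm]

end MP7b0bad

end

section

/-!
# MP_7b0bad, item QOcc: `Rel` implies the property of the problem
-/

set_option autoImplicit false

namespace MP7b0bad

open Polynomial Pointwise

/-- the place over infinity whose decomposition group and inertia group are `P` -/
theorem QOcc_place (hQF7 : QF7) (k : Type) [Field k] [IsAlgClosed k] (p : ℕ) [Fact p.Prime]
    [CharP k p] (G : Type) [Group G] [Finite G] (P : Subgroup G) (hP : IsPGroup p P)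
    (B : Type) [CommRing B] [Algebra k[X] B] [MulSemiringAction G B]
    (d : ℕ) (β : B) (f : (P →* Multiplicative (ZMod p)) → k[X])
    (hpd : ∀ l, l ≠ 1 → ¬ p ∣ (f l).natDegree)
    (S1 : Small k (2 * d) (β ^ 2 - algebraMap k[X] B (X ^ d) * β))
    (S2 : ∀ g : G, g ∉ P → Small k (2 * d) (β * (g • β)))
    (s : Finset G) (S3 : Small k d (∑ g ∈ s, g • β - algebraMap k[X] B (X ^ d)))
    (S4 : ∀ l, l ≠ 1 → ∀ D0 : Subgroup P, (∀ g ∈ D0, l g = 1) → ∃ γ : B,
      (∀ g ∈ D0, ((g : P) : G) • γ = γ) ∧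
      Small k ((p + 1) * d) (β * (γ ^ p - algebraMap k[X] B (X ^ ((p - 1) * d)) * γ -
        algebraMap k[X] B (f l * X ^ (p * d)))))
    (L : Type) [Field L] [Algebra (RatFunc k) L] [FiniteDimensional (RatFunc k) L]
    [IsGalois (RatFunc k) L] (ι : B →+* L) (φ : G ≃* (L ≃ₐ[RatFunc k] L))
    (hι : ∀ a : k[X], ι (algebraMap k[X] B a) =
      algebraMap (RatFunc k) L (algebraMap k[X] (RatFunc k) a))
    (hφ : ∀ (g : G) (b : B), φ g (ι b) = ι (g • b)) :
    ∃ A : ValuationSubring L, AtInfty (k := k) A ∧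
      (ValuationSubring.inertiaSubgroup (RatFunc k) A).map
        (ValuationSubring.decompositionSubgroup (RatFunc k) A).subtype = P.map φ.toMonoidHom := by
  classical
  have hF3 : F3 := prf_F3
  have hF4 : F4 := prf_F4
  have hF5 : F5 := prf_F5 hF3
  have hF6 : F6 := prf_F6 hF3
  have hp : p.Prime := Fact.out
  set y := algebraMap (RatFunc k) L (RatFunc.X ^ d) with hy
  have hy0 : y ≠ 0 := by
    rw [hy, ne_eq, map_eq_zero]
    exact pow_ne_zero _ RatFunc.X_ne_zero
  have hXn : ∀ n : ℕ, ι (algebraMap k[X] B (X ^ n)) =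
      algebraMap (RatFunc k) L (RatFunc.X ^ n) := by
    intro n
    rw [hι, map_pow (algebraMap k[X] (RatFunc k)), RatFunc.algebraMap_X]
  have hXy : ∀ n : ℕ, algebraMap (RatFunc k) L (RatFunc.X ^ (n * d)) = y ^ n := by
    intro n
    rw [hy, ← map_pow, ← pow_mul, mul_comm]
  set b := ι β / y with hb
  have hφy : ∀ g : G, φ g y = y := fun g => (φ g).commutes _
  have hφb : ∀ g : G, φ g b = ι (g • β) / y := by
    intro g
    rw [hb, map_div₀, hφy, hφ]
  have P1 : ∀ A : ValuationSubring L, AtInfty (k := k) A → A.valuation (b ^ 2 - b) < 1 := by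
    intro A hA
    have h := hF5 k L A hA B ι hι _ _ S1
    rw [ValuationSubring.mem_nonunits_iff, hXy, map_sub, map_mul, map_pow, hXn, ← hy] at h
    have e : b ^ 2 - b = (ι β ^ 2 - y * ι β) / y ^ 2 := by
      rw [hb]
      field_simp
    rw [e]
    exact h
  have P2 : ∀ A : ValuationSubring L, AtInfty (k := k) A → ∀ g : G, g ∉ P →
      A.valuation (b * φ g b) < 1 := by
    intro A hA g hg
    have h := hF5 k L A hA B ι hι _ _ (S2 g hg)
    rw [ValuationSubring.mem_nonunits_iff, hXy, map_mul] at h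
    have e : b * φ g b = (ι β * ι (g • β)) / y ^ 2 := by
      rw [hφb, hb]
      field_simp
    rw [e]
    exact h
  have P3 : ∀ A : ValuationSubring L, AtInfty (k := k) A →
      A.valuation (∑ g ∈ s, φ g b - 1) < 1 := by
    intro A hA
    have h := hF5 k L A hA B ι hι _ _ S3
    rw [ValuationSubring.mem_nonunits_iff, map_sub, map_sum, hXn, ← hy] at h
    have e : ∑ g ∈ s, φ g b - 1 = (∑ g ∈ s, ι (g • β) - y) / y := by
      rw [sub_div, div_self hy0, Finset.sum_div]
      congr 1
      exact Finset.sum_congr rfl fun g _ => hφb g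
    rw [e]
    exact h
  -- a place with `b ≡ 1`
  obtain ⟨A0, hA0⟩ := hF4 k L
  have Q1 : ∀ g : G, A0.valuation ((φ g b) ^ 2 - φ g b) < 1 := by
    intro g
    have h := P1 _ (F8_atInfty A0 (φ g) hA0)
    rw [← ValuationSubring.mem_nonunits_iff, F8_mem, map_sub, map_pow] at h
    exact h
  obtain ⟨g0, hg0⟩ : ∃ g : G, A0.valuation (φ g b - 1) < 1 := by
    by_contra hcon
    push Not at hcon
    have h1 : ∀ g ∈ s, A0.valuation (φ g b) < 1 := by
      intro g _
      rcases F8_idem A0 _ (Q1 g) with h | h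
      · exact h
      · exact absurd h (not_lt.2 (hcon g))
    have h2 : A0.valuation (∑ g ∈ s, φ g b) < 1 := A0.valuation.map_sum_lt one_ne_zero h1
    have h3 := P3 A0 hA0
    have h4 : A0.valuation (∑ g ∈ s, φ g b - (∑ g ∈ s, φ g b - 1)) < 1 :=
      A0.valuation.map_sub_lt h2 h3
    rw [sub_sub_cancel, map_one] at h4
    exact lt_irrefl _ h4
  set A : ValuationSubring L := (φ g0)⁻¹ • A0 with hAdef
  have hA : AtInfty (k := k) A := F8_atInfty A0 (φ g0) hA0
  have hb1 : A.valuation (b - 1) < 1 := by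
    rw [← ValuationSubring.mem_nonunits_iff, hAdef, F8_mem, map_sub, map_one]
    exact hg0
  have hvb : A.valuation b = 1 := by
    have h := A.valuation.map_one_add_of_lt hb1
    rwa [add_sub_cancel] at h
  -- the decomposition group is contained in `P`
  have hDI : ∀ h : G, φ h • A = A → h ∈ P := by
    intro h hh
    by_contra hn
    have h1 := P2 A hA h hn
    have h2 := F8_dec A (φ h) hh _ hb1
    rw [map_sub, map_one] at h2
    have h3 : A.valuation (φ h b) = 1 := by
      have h := A.valuation.map_one_add_of_lt h2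
      rwa [add_sub_cancel] at h
    rw [map_mul, hvb, h3, one_mul] at h1
    exact lt_irrefl _ h1
  set D : Subgroup P := (ValuationSubring.decompositionSubgroup (RatFunc k) A).comap
    (φ.toMonoidHom.comp P.subtype) with hD
  have hmemD : ∀ g : P, g ∈ D ↔ φ (g : G) • A = A := by
    intro g
    rw [hD, Subgroup.mem_comap]
    rfl
  have hDtop : D = ⊤ := by
    by_contra hDne
    obtain ⟨M, l, hDM, hl1, hlM⟩ := QTR_char p P hP D hDne
    obtain ⟨γ, hγ, S5⟩ := S4 l hl1 D fun g hg => hlM g (hDM hg)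
    set c := ι γ / y with hc
    set F := algebraMap (RatFunc k) L (algebraMap k[X] (RatFunc k) (f l)) with hFd
    have h1 : A.valuation (b * (c ^ p - c - F)) < 1 := by
      have h := hF5 k L A hA B ι hι _ _ S5
      rw [ValuationSubring.mem_nonunits_iff, hXy, map_mul, map_sub, map_sub, map_mul, map_pow,
        hXn, hXy, map_mul (algebraMap k[X] B), map_mul, hXn, hXy, hι (f l), ← hFd] at h
      have e : b * (c ^ p - c - F) =
          (ι β * (ι γ ^ p - y ^ (p - 1) * ι γ - F * y ^ p)) / y ^ (p + 1) := by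
        obtain ⟨q, hq⟩ : ∃ q, p = q + 1 := ⟨p - 1, by have := hp.one_lt; omega⟩
        rw [hb, hc, hq, Nat.add_sub_cancel, div_pow]
        field_simp
        ring
      rw [e]
      exact h
    have hfix : ∀ σ : L ≃ₐ[RatFunc k] L, σ • A = A → σ c = c := by
      intro σ hσ
      obtain ⟨g, rfl⟩ := φ.surjective σ
      have hgP : g ∈ P := hDI g hσ
      have hgD : (⟨g, hgP⟩ : P) ∈ D := (hmemD _).2 hσ
      have h2 := hγ _ hgD
      rw [hc, map_div₀, hφy, hφ]
      congr 2
    obtain ⟨r, hr⟩ := hQF7 k L A hA c hfix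
    rw [ValuationSubring.mem_nonunits_iff] at hr
    rw [map_mul, hvb, one_mul] at h1
    have : CharP (RatFunc k) p :=
      charP_of_injective_algebraMap (algebraMap k (RatFunc k)).injective p
    have : CharP L p := charP_of_injective_algebraMap (algebraMap (RatFunc k) L).injective p
    have e : algebraMap (RatFunc k) L (r ^ p - r - algebraMap k[X] (RatFunc k) (f l)) =
        (c ^ p - c - F) - ((c - algebraMap (RatFunc k) L r) ^ p -
          (c - algebraMap (RatFunc k) L r)) := by
      rw [sub_pow_char]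
      simp only [map_sub, map_pow, ← hFd]
      ring
    have h2 : A.valuation (algebraMap (RatFunc k) L
        (r ^ p - r - algebraMap k[X] (RatFunc k) (f l))) < 1 := by
      rw [e]
      refine A.valuation.map_sub_lt h1 (A.valuation.map_sub_lt ?_ hr)
      rw [map_pow]
      exact pow_lt_one₀ zero_le hr hp.ne_zero
    have hfpos : 0 < (f l).natDegree := by
      rcases Nat.eq_zero_or_pos (f l).natDegree with h | h
      · exact absurd (h ▸ dvd_zero p) (hpd l hl1)
      · exact h
    refine F8_arith k p hp (f l) hfpos (hpd l hl1) r ?_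
    by_cases h0 : r ^ p - r - algebraMap k[X] (RatFunc k) (f l) = 0
    · exact Or.inl h0
    · exact Or.inr ((hF3 k L A hA _ h0).2.1 h2)
  refine ⟨A, hA, ?_⟩
  have hDeq : ValuationSubring.decompositionSubgroup (RatFunc k) A = P.map φ.toMonoidHom := by
    apply le_antisymm
    · intro τ hτ
      refine ⟨φ.symm τ, hDI _ ?_, ?_⟩
      · rw [MulEquiv.apply_symm_apply]
        exact hτ
      · exact φ.apply_symm_apply τ
    · rintro _ ⟨g, hg, rfl⟩
      have h1 : (⟨g, hg⟩ : P) ∈ D := hDtop ▸ Subgroup.mem_top _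
      exact (hmemD _).1 h1
  have htop : ValuationSubring.inertiaSubgroup (RatFunc k) A = ⊤ := by
    rw [eq_top_iff]
    intro τ _
    rw [ValuationSubring.inertiaSubgroup, MonoidHom.mem_ker]
    ext z
    obtain ⟨a, rfl⟩ := IsLocalRing.residue_surjective z
    show τ • IsLocalRing.residue A a = IsLocalRing.residue A a
    rw [← IsLocalRing.ResidueField.residue_smul, ← sub_eq_zero, ← map_sub,
      IsLocalRing.residue_eq_zero_iff, ValuationSubring.valuation_lt_one_iff]
    obtain ⟨c0, hc0⟩ := hF6 k L A hA (a : L) a.2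
    rw [ValuationSubring.mem_nonunits_iff] at hc0
    have h1 := F8_dec A (τ : L ≃ₐ[RatFunc k] L) τ.2 _ hc0
    rw [map_sub, AlgEquiv.commutes] at h1
    have h2 := A.valuation.map_sub_lt h1 hc0
    rw [sub_sub_sub_cancel_right] at h2
    exact h2
  rw [htop, ← MonoidHom.range_eq_map, Subgroup.range_subtype, hDeq]

theorem prf_QOcc (hQF1 : QF1) (hQCBG : QCBG) (hQTRk : QTRk) (hQF7 : QF7) : QOcc := by
  intro k _ _ p _ _ G _ _ P hP hRel
  obtain ⟨B, _, _, _, E, _, _, _, j, hB, hdB, hE, hdE, hj1, hj2⟩ := hRel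
  obtain ⟨L, iF, iA, ι, hinj, hι, hfd, hgal, φ, hφ⟩ := hQF1 k G B hB hdB
  have hT := hQTRk k p P E hdE hE
  choose! y f hy1 hy2 hy3 using hT
  obtain ⟨d, β, S1, S2, ⟨s, S3⟩, S4⟩ := hQCBG k p G P B E j hB hE hj1 hj2 y f
    fun l hl => ⟨hy1 l hl, hy2 l hl⟩
  obtain ⟨A, hA, hA'⟩ := QOcc_place hQF7 k p G P hP B d β f hy3 S1 S2 s S3 S4 L ι φ hι hφ
  refine ⟨L, iF, iA, hfd, hgal, φ, ?_, A, hA.1, hA.2, hA'⟩
  exact prf_F2 k G B L ι φ (gal_finite hB) hι hφ hB.unr

end MP7b0bad

end

section

set_option autoImplicit false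

namespace MP7b0bad

open Polynomial

theorem prf_QOuter (hQOTG : QOTG) (hQDenT : QDenT) (hQDF : QDF) (hQBC : QBC) (hQTR : QTR) :
    QOuter := by
  intro k _ _ p _ _ N W a η hD P _ _ hP P' _ _ π A Q _ _ _ _ _ _ ε hA hε hεa
  have hch : CharP (LaurentSeries k) p :=
    charP_of_injective_ringHom (f := (HahnSeries.C : k →+* LaurentSeries k))
      HahnSeries.C_injective p
  obtain ⟨E0, iR, iA, iM, a0, hgal, ha0, ha0act, hTR⟩ :=
    hQOTG (LaurentSeries k) p N (fun _ => KW k) (fun i => eval₂RingHom (KKW k) (η i)) True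
      (hQDenT k p N W a η hD) P hP P' π A hA
  obtain ⟨B', jR, jA, jM, q, hgal', hq, hqact, -, -⟩ :=
    hQBC (LaurentSeries k)[X] (LaurentSeries (LaurentSeries k)) (atInf (LaurentSeries k)) P E0 hgal
  have hdom : IsDomain B' :=
    hQTR (LaurentSeries k) p P E0 B' q hP (hTR trivial) hgal' hq hqact
  obtain ⟨-, hWF, -⟩ := hQDF k N W a η hD
  refine ⟨{ A := E0, gal := hgal, a := fun i => (ε i).comp (a0 i), a_alg := ?_, a_act := ?_,
            E := B', galE := hgal', domE := hdom, j := q, j_alg := hq, j_act := hqact },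
    hTR trivial⟩
  · intro i f
    rw [RingHom.comp_apply, ha0, hε]
    congr 1
    rw [coe_eval₂RingHom]
    exact hWF i f
  · intro i g e
    rw [RingHom.comp_apply, RingHom.comp_apply, ha0act, hεa]

end MP7b0bad

end

section

set_option autoImplicit false

namespace MP7b0bad

open Polynomial

theorem prf_QQuo : QQuo := by
  intro R _ Γ Δ _ _ _ δ D _ _ _ e hδ hD hee hde hoff hs
  classical
  have := Fintype.ofFinite Γ
  set I : Ideal D := Ideal.span {1 - e} with hI
  -- membership
  have hmem : ∀ x : D, x ∈ I ↔ e * x = 0 := by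
    intro x
    rw [hI, Ideal.mem_span_singleton']
    constructor
    · rintro ⟨a, rfl⟩
      rw [show e * (a * (1 - e)) = a * (e - e * e) by ring, hee, sub_self, mul_zero]
    · intro h
      exact ⟨x, by rw [mul_sub, mul_one, mul_comm x e, h, sub_zero]⟩
  have hstab : ∀ (d : Δ) (x : D), x ∈ I → δ d • x ∈ I := by
    intro d x hx
    rw [hmem] at hx ⊢
    have h1 : e * (δ d • x) = δ d • (e * x) := by rw [smul_mul', hde]
    rw [h1, hx, smul_zero]
  let π : D →+* D ⧸ I := Ideal.Quotient.mk I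
  have hπ : ∀ x y : D, π x = π y ↔ e * x = e * y := by
    intro x y
    rw [Ideal.Quotient.eq, hmem, mul_sub, sub_eq_zero]
  -- the action
  let actHom : Δ → (D ⧸ I →+* D ⧸ I) := fun d =>
    Ideal.Quotient.lift I (π.comp (MulSemiringAction.toRingHom Γ D (δ d))) (by
      intro x hx
      exact Ideal.Quotient.eq_zero_iff_mem.2 (hstab d x hx))
  have hact0 : ∀ (d : Δ) (x : D), actHom d (π x) = π (δ d • x) := fun d x => rfl
  have hsurj : Function.Surjective π := Ideal.Quotient.mk_surjective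
  let act : MulSemiringAction Δ (D ⧸ I) :=
    { smul := fun d z => actHom d z
      one_smul := fun z => by
        obtain ⟨x, rfl⟩ := hsurj z
        show actHom 1 (π x) = π x
        rw [hact0, map_one, one_smul]
      mul_smul := fun d d' z => by
        obtain ⟨x, rfl⟩ := hsurj z
        show actHom (d * d') (π x) = actHom d (actHom d' (π x))
        rw [hact0, hact0, hact0, map_mul, mul_smul]
      smul_zero := fun d => map_zero (actHom d)
      smul_add := fun d a b => map_add (actHom d) a b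
      smul_one := fun d => map_one (actHom d)
      smul_mul := fun d a b => map_mul (actHom d) a b }
  have hact : ∀ (d : Δ) (x : D), d • π x = π (δ d • x) := fun d x => rfl
  have halg : ∀ a : R, algebraMap R (D ⧸ I) a = π (algebraMap R D a) := fun a => rfl
  refine ⟨D ⧸ I, inferInstance, inferInstance, act, π, ?_, fun a => rfl, ?_, fun d z => rfl⟩
  · constructor
    · intro d a
      rw [halg, hact, hD.comm]
    · -- injectivity
      rw [injective_iff_map_eq_zero]
      intro a ha
      rw [halg, ← map_zero π, hπ, mul_zero] at ha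
      obtain ⟨s, hs⟩ := hs
      have h1 : ∀ γ : Γ, (γ • e) * algebraMap R D a = 0 := by
        intro γ
        have := congrArg (fun x => γ • x) ha
        simp only [smul_mul', hD.comm, smul_zero] at this
        exact this
      have h2 : (∑ γ ∈ s, γ • e) * algebraMap R D a = 0 := by
        rw [Finset.sum_mul]
        exact Finset.sum_eq_zero fun γ _ => h1 γ
      have h3 : algebraMap R D a = 0 := by
        obtain ⟨u, hu⟩ := hs
        rw [← hu] at h2
        exact (Units.mul_right_eq_zero u).1 h2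
      exact hD.inj (by rw [h3, map_zero])
    · -- invariants
      intro z hz
      obtain ⟨x, rfl⟩ := hsurj z
      set y : D := e * x with hy
      have hyd : ∀ γ ∈ δ.range, γ • y = y := by
        rintro _ ⟨d, rfl⟩
        have h1 := hz d
        rw [hact, hπ] at h1
        rw [hy, smul_mul', hde, h1]
      -- representatives
      have hrep : ∀ γ γ' : Γ, (γ : Γ ⧸ δ.range) = (γ' : Γ ⧸ δ.range) → γ • y = γ' • y := by
        intro γ γ' h
        rw [QuotientGroup.eq] at h
        have h1 : γ' = γ * (γ⁻¹ * γ') := by group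
        rw [h1, mul_smul, hyd _ h]
      set w : D := ∑ c : Γ ⧸ δ.range, (Quotient.out c : Γ) • y with hw
      have hwinv : ∀ γ : Γ, γ • w = w := by
        intro γ
        rw [hw, Finset.smul_sum]
        refine Fintype.sum_bijective (fun c => γ • c) (MulAction.bijective γ) _ _ fun c => ?_
        rw [smul_smul]
        apply hrep
        have h1 : ((Quotient.out c : Γ) : Γ ⧸ δ.range) = c := Quotient.out_eq' c
        have h2 : ((Quotient.out (γ • c) : Γ) : Γ ⧸ δ.range) = γ • c := Quotient.out_eq' _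
        rw [h2]
        conv_rhs => rw [← h1]
        rfl
      obtain ⟨a, ha⟩ := hD.inv w hwinv
      refine ⟨a, ?_⟩
      rw [halg, ha, hπ, hw, Finset.mul_sum, Finset.sum_eq_single ((1 : Γ) : Γ ⧸ δ.range)]
      · have h1 : ((Quotient.out ((1 : Γ) : Γ ⧸ δ.range) : Γ) : Γ ⧸ δ.range) = ((1 : Γ) : Γ ⧸ δ.range) :=
          Quotient.out_eq' _
        rw [hrep _ _ h1, one_smul, hy, ← mul_assoc, hee]
      · intro c _ hc
        have h1 : ((Quotient.out c : Γ) : Γ ⧸ δ.range) = c := Quotient.out_eq' c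
        have h2 : (Quotient.out c : Γ) ∉ δ.range := by
          intro h
          apply hc
          rw [← h1, QuotientGroup.eq, mul_one]
          exact δ.range.inv_mem h
        rw [hy, smul_mul', ← mul_assoc, hoff _ h2, zero_mul]
      · intro h; exact absurd (Finset.mem_univ _) h
    · -- unramified
      intro σ hσ
      have h1 : δ σ ≠ 1 := fun h => hσ (hδ (by rw [h, map_one]))
      obtain ⟨n, a, b, hab⟩ := TII_unr (δ σ) (hD.unr _ h1)
      refine TII_unr' σ n (fun j => π (a j)) (fun j => π (b j)) ?_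
      have h2 := congrArg π hab
      rw [map_sum, map_one] at h2
      rw [← h2]
      refine Finset.sum_congr rfl fun j _ => ?_
      rw [map_mul, map_sub, hact]
  · rw [← map_one π, hπ, hee, mul_one]

end MP7b0bad

end

section

set_option autoImplicit false

namespace MP7b0bad

open Polynomial

/-- the local data at a disc -/
structure QR1_D (k : Type) [Field k] (H : Type) [Group H] (P' : Type) [Group P'] (π : P' →* H) where
  A : Type
  [rA : CommRing A]
  [aA : Algebra (KW k) A]
  [sA : MulSemiringAction P' A]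
  Q : Type
  [rQ : CommRing Q]
  [aQ : Algebra (Fk k) Q]
  [sQ : MulSemiringAction P' Q]
  inner : Inner k H P' π Q
  ε : A →+* Q
  gA : GalAlg (KW k) P' A
  gQ : GalAlg (Fk k) P' Q
  halg : ∀ a, ε (algebraMap (KW k) A a) = algebraMap (Fk k) Q (WF k a)
  hact : ∀ (g : P') (a : A), ε (g • a) = g • ε a

attribute [instance] QR1_D.rA QR1_D.aA QR1_D.sA QR1_D.rQ QR1_D.aQ QR1_D.sQ

theorem QR1_gal (R : Type) [CommRing R] (G G' : Type) [Group G] [Group G'] (e : G' ≃* G)
    (E : Type) [CommRing E] [Algebra R E] [MulSemiringAction G E] (h : GalAlg R G E) :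
    @GalAlg R _ G' _ E _ _ (MulSemiringAction.compHom E (e : G' →* G)) := by
  letI : MulSemiringAction G' E := MulSemiringAction.compHom E (e : G' →* G)
  have hs : ∀ (g : G') (x : E), g • x = e g • x := fun g x => rfl
  refine ⟨fun g a => ?_, h.inj, fun b hb => ?_, fun σ hσ => ?_⟩
  · rw [hs, h.comm]
  · apply h.inv
    intro g
    have := hb (e.symm g)
    rwa [hs, e.apply_symm_apply] at this
  · have h1 : e σ ≠ 1 := by
      intro h2
      apply hσ
      exact e.injective (by rw [h2, map_one])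
    have h2 := h.unr (e σ) h1
    exact h2

theorem QR1_loc (hQLocD : QLocD) (k : Type) [Field k] (p : ℕ) [Fact p.Prime] [CharP k p]
    (G : Type) [Group G] [Finite G] (H P' : Subgroup G) (h : P' ≤ H) (hp : IsPGroup p P')
    (hR : Rel k H (P'.subgroupOf H)) : Nonempty (QR1_D k H P' (Subgroup.inclusion h)) := by
  obtain ⟨B, _, _, _, E, _, _, _, ι, hB, hBd, hE, hEd, halg, hact⟩ := hR
  let e : P' ≃* P'.subgroupOf H := (Subgroup.subgroupOfEquivOfLe h).symm
  letI iE : MulSemiringAction P' E := MulSemiringAction.compHom E (e : P' →* P'.subgroupOf H)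
  have hs : ∀ (g : P') (x : E), g • x = e g • x := fun g x => rfl
  have hE' : GalAlg (LaurentSeries k) P' E :=
    QR1_gal (LaurentSeries k) (P'.subgroupOf H) P' e E hE
  have hact' : ∀ (g : P') (b : B), ι (Subgroup.inclusion h g • b) = g • ι b := by
    intro g b
    rw [hs, ← hact]
    rfl
  obtain ⟨A, rA, aA, sA, Q, rQ, aQ, sQ, inner, ε, gA, gQ, h1, h2⟩ :=
    hQLocD k p H P' (Subgroup.inclusion h) B E ι hp hB hBd hE' halg hact'
  exact ⟨⟨A, Q, inner, ε, gA, gQ, h1, h2⟩⟩

theorem prf_QR1 (hQDiscs : QDiscs) (hQDF : QDF) (hQLocD : QLocD) (hQOuter : QOuter) (hQPT : QPT)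
    (hQCertK : QCertK) (hQDes : QDes) (hQCR : QCR) : QR1 := by
  intro k _ _ p _ _ G _ _ P N H P' hP hN hPP hPH hRel htop
  have hP' : ∀ i, IsPGroup p (P' i) := fun i => hP.to_le (hPP i)
  have hD : ∀ i, Nonempty (QR1_D k (H i) (P' i) (Subgroup.inclusion (hPH i))) :=
    fun i => QR1_loc hQLocD k p G (H i) (P' i) (hPH i) (hP' i) (hRel i)
  let D := fun i => Classical.choice (hD i)
  obtain ⟨W, a, η, hdiscs⟩ := hQDiscs k N
  obtain ⟨hDK, hWF, _⟩ := hQDF k N W a η hdiscs
  obtain ⟨O, hO⟩ := hQOuter k p N W a η hdiscs P hP (fun i => P' i)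
    (fun i => Subgroup.inclusion (hPP i)) (fun i => (D i).A) (fun i => (D i).Q)
    (fun i => (D i).ε) (fun i => (D i).gA) (fun i => (D i).halg) (fun i => (D i).hact)
  obtain ⟨B, _, _, _, ι, hB, hBd, hι, hιP⟩ := hQPT k N (VT k W) (fun i => WF k (η i)) G P P' hPP
    H hPH (fun i => (D i).Q) O (fun i => (D i).inner) (fun i => (D i).gQ) hDK hN htop
  haveI : CharP (LaurentSeries k) p :=
    charP_of_injective_ringHom (HahnSeries.C_injective : Function.Injective
      (HahnSeries.C : k →+* LaurentSeries k)) p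
  obtain ⟨C, _, _, _, hC⟩ := hQCertK (LaurentSeries k) p G P O.A B O.E O.j ι hP O.gal hO hB hBd
    O.galE O.j_alg O.j_act hι hιP
  obtain ⟨C', _, _, _, hC'⟩ := hQDes k p (LaurentSeries k) G P C hC
  exact hQCR k p G P C' hP hC'

end MP7b0bad

end

section

/-!
# MP_7b0bad, item QRP: a p-group is an inertia group of a cover with itself as Galois group
-/

set_option autoImplicit false

namespace MP7b0bad

open Polynomial

theorem QRP_inj {k : Type} [Field k] {P : Type} [Group P] [Finite P] {A E : Type} [CommRing A]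
    [Algebra k[X] A] [MulSemiringAction P A] [CommRing E] [Algebra (LaurentSeries k) E]
    [MulSemiringAction P E] (j : A →+* E) (hA : GalAlg k[X] P A)
    (hE : Function.Injective (algebraMap (LaurentSeries k) E))
    (hj : ∀ f, j (algebraMap k[X] A f) = algebraMap (LaurentSeries k) E (atInf k f))
    (hjP : ∀ (g : P) (a : A), j (g • a) = g • j a) : Function.Injective j := by
  classical
  have := Fintype.ofFinite P
  obtain ⟨n, x, y, h1, h2⟩ := gal_dual' hA
  rw [injective_iff_map_eq_zero]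
  intro b hb
  rw [gal_formula h1 h2 b]
  refine Finset.sum_eq_zero fun m _ => ?_
  obtain ⟨a, ha⟩ := gal_trace hA (y m * b)
  have h3 : algebraMap (LaurentSeries k) E (atInf k a) = 0 := by
    rw [← hj, ha, map_sum]
    refine Finset.sum_eq_zero fun g _ => ?_
    rw [hjP, map_mul, hb, mul_zero, smul_zero]
  have h4 : atInf k a = 0 := hE (by rw [h3, map_zero])
  have h5 : a = 0 := TI_atInf_injective k (by rw [h4, map_zero])
  rw [← ha, h5, map_zero, zero_mul]

theorem prf_QRP (hQLL : QLL) (hQKG : QKG) : QRP := by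
  intro k _ _ p _ _ P _ _ hP
  let act : MulSemiringAction PUnit (LaurentSeries k) :=
    { smul := fun _ x => x
      one_smul := fun _ => rfl
      mul_smul := fun _ _ _ => rfl
      smul_zero := fun _ => rfl
      smul_add := fun _ _ _ => rfl
      smul_one := fun _ => rfl
      smul_mul := fun _ _ _ => rfl }
  have hgal : GalAlg (LaurentSeries k) PUnit (LaurentSeries k) := by
    refine ⟨fun _ _ => rfl, fun a b h => h, fun b _ => ⟨b, rfl⟩, fun σ hσ => ?_⟩
    exact absurd (Subsingleton.elim σ 1) hσ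
  obtain ⟨E, _, _, _, i, hdom, hE, -, -⟩ := hQLL k p P PUnit (1 : P →* PUnit) (LaurentSeries k) hP
    (fun b => ⟨1, Subsingleton.elim _ _⟩) inferInstance hgal
  obtain ⟨A, _, _, _, j, hA, hj, hjP⟩ := hQKG k p P E hP hE
  have hinj := QRP_inj j hA hE.inj hj hjP
  refine ⟨A, inferInstance, inferInstance, inferInstance, E, inferInstance, inferInstance,
    inferInstance, j, hA, hinj.isDomain j, ⟨?_, hE.inj, ?_, ?_⟩, hdom, hj, ?_⟩
  · intro g a
    exact hE.comm (g : P) a
  · intro b hb
    exact hE.inv b fun g => hb ⟨g, Subgroup.mem_top g⟩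
  · intro σ hσ
    exact hE.unr (σ : P) fun h => hσ (Subtype.ext h)
  · intro g b
    exact hjP (g : P) b

end MP7b0bad

end
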