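import Pool.Agent.Work.MP_7b0bad_ag.Bd.B12
import Pool.Agent.Work.MP_7b0bad_ag.Bd.B11
import Pool.Agent.Work.MP_7b0bad_ag.Bd.B04
import Pool.Agent.Work.MP_7b0bad_ag.Bd.B06
import Pool.Agent.Work.MP_7b0bad_ag.Bd.B07
import Pool.Agent.Work.MP_7b0bad_ag.Bd.B10

/-! Bundle of small proof modules (one section per former module). -/

section

set_option autoImplicit false

namespace MP7b0bad

open Pointwise

theorem HLift_iso {p : ℕ} {G G' : Type} [Group G] [Group G'] (h : PSol p G) (e : G ≃* G') :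
    PSol p G' := by
  intro N' hN' hne
  have hs : Function.Surjective e.toMonoidHom := e.surjective
  have hi : Function.Injective e.toMonoidHom := e.injective
  have hNm : (N'.comap e.toMonoidHom).map e.toMonoidHom = N' :=
    Subgroup.map_comap_eq_self_of_surjective hs N'
  obtain ⟨M, hM, hlt, ht⟩ := h (N'.comap e.toMonoidHom) (hN'.comap _) (by
    intro he
    apply hne
    rw [← hNm, he, Subgroup.map_top_of_surjective _ hs])
  refine ⟨M.map e.toMonoidHom, hM.map _ hs, ?_, ?_⟩
  · conv_lhs => rw [← hNm]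
    exact (Subgroup.map_lt_map_iff_of_injective hi).2 hlt
  · have h1 : N'.relIndex (M.map e.toMonoidHom) = (N'.comap e.toMonoidHom).relIndex M := by
      conv_lhs => rw [← hNm]
      exact Subgroup.relIndex_map_map_of_injective _ _ hi
    rw [h1]; exact ht

theorem HLift_pgroup {p : ℕ} [Fact p.Prime] {G : Type} [Group G] [Finite G] (h : IsPGroup p G) :
    PSol p G := by
  intro N hN hne
  refine ⟨⊤, inferInstance, lt_top_iff_ne_top.2 hne, Or.inl ?_⟩
  rw [Subgroup.relIndex_top_right]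
  exact h.index N

theorem HLift_prime_to {p : ℕ} {G : Type} [Group G] (h : ¬ p ∣ Nat.card G) : PSol p G := by
  intro N hN hne
  refine ⟨⊤, inferInstance, lt_top_iff_ne_top.2 hne, Or.inr ?_⟩
  rw [Subgroup.relIndex_top_right]
  exact fun hd => h (hd.trans (Subgroup.index_dvd_card N))

theorem HLift_ext (hGPSE : GPSE) {p : ℕ} [Fact p.Prime] {G Q : Type} [Group G] [Finite G]
    [Group Q] (f : G →* Q) (hf : Function.Surjective f) (hk : PSol p f.ker) (hQ : PSol p Q) :
    PSol p G :=
  hGPSE p G f.ker hk (HLift_iso hQ (QuotientGroup.quotientKerEquivOfSurjective f hf).symm)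

/-- the main step, inside one group -/
theorem HLift_core (hGSC : GSC) (hGPS : GPS) (hGPSE : GPSE) {p : ℕ} [hp : Fact p.Prime]
    {H Q : Type} [Group H] [Finite H] [Group Q] (φ : H →* Q) (hQ : PSol p φ.range)
    (P' : Subgroup H) (hP' : IsPGroup p P')
    (hn : Subgroup.normalClosure ((P' : Set H) ∪ φ.ker) = ⊤) :
    ∃ Y : Subgroup H, P' ≤ Y ∧ nclIn Y P' = Y ∧ PSol p Y ∧ φ.ker ⊔ Y = ⊤ := by
  -- a Sylow subgroup of the kernel normalised by `P'`
  let act : MulAction P' (Sylow p φ.ker) :=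
    MulAction.compHom (Sylow p φ.ker) ((MulAut.conjNormal (H := φ.ker)).comp P'.subtype)
  have hcard : ¬ p ∣ Nat.card (Sylow p φ.ker) := by
    intro hd
    have h1 := card_sylow_modEq_one p φ.ker
    have h2 : Nat.card (Sylow p φ.ker) ≡ 0 [MOD p] := (Nat.modEq_zero_iff_dvd).2 hd
    have h3 : 0 ≡ 1 [MOD p] := h2.symm.trans h1
    have h4 := (Nat.modEq_iff_dvd' (Nat.zero_le 1)).1 h3
    exact hp.out.one_lt.ne' (Nat.dvd_one.1 h4)
  obtain ⟨S, hS⟩ := hP'.nonempty_fixed_point_of_prime_not_dvd_card (Sylow p φ.ker) hcard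
  set S₁ : Subgroup H := (S : Subgroup φ.ker).map φ.ker.subtype with hS₁
  have hS₁k : S₁ ≤ φ.ker := Subgroup.map_subtype_le _
  set W : Subgroup H := Subgroup.normalizer (S₁ : Set H) with hW
  have hP'W : P' ≤ W := by
    rw [hW, Subgroup.le_normalizer_iff]
    rintro g hg _ ⟨s, hs, rfl⟩
    have h1 : (MulAut.conjNormal (H := φ.ker) g) • S = S := hS ⟨g, hg⟩
    have h2 : (MulAut.conjNormal (H := φ.ker) g) s ∈ (S : Subgroup φ.ker) := by
      have h3 : (MulAut.conjNormal (H := φ.ker) g) • s ∈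
          (MulAut.conjNormal (H := φ.ker) g) • (S : Subgroup φ.ker) :=
        Subgroup.smul_mem_pointwise_smul s _ _ hs
      rw [← Sylow.pointwise_smul_def, h1] at h3
      exact h3
    exact ⟨_, h2, by simp⟩
  have hWN : W ⊔ φ.ker = ⊤ := Sylow.normalizer_sup_eq_top S
  have hWN' : φ.ker ⊔ W = ⊤ := by rw [sup_comm]; exact hWN
  have hS₁W : S₁ ≤ W := Subgroup.le_normalizer
  -- `W` is `p`-solvable
  let ψ : W →* φ.range := φ.rangeRestrict.comp W.subtype
  have hψ : Function.Surjective ψ := by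
    rintro ⟨_, x, rfl⟩
    have hx : x ∈ W ⊔ φ.ker := by rw [hWN]; exact Subgroup.mem_top x
    obtain ⟨w, hw, n, hn', rfl⟩ := Subgroup.mem_sup_of_normal_right.1 hx
    refine ⟨⟨w, hw⟩, Subtype.ext ?_⟩
    show φ w = φ (w * n)
    rw [map_mul, (MonoidHom.mem_ker).1 hn', mul_one]
  have hkerψ : ∀ x : W, x ∈ ψ.ker ↔ (x : H) ∈ φ.ker := by
    intro x
    rw [MonoidHom.mem_ker, MonoidHom.mem_ker]
    constructor
    · intro h
      exact congrArg Subtype.val h
    · intro h
      exact Subtype.ext h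
  have hWsol : PSol p W := by
    refine HLift_ext hGPSE ψ hψ ?_ hQ
    -- the inclusion of the kernel of `ψ` into the kernel of `φ`
    let θ : ψ.ker →* φ.ker :=
      { toFun := fun x => ⟨((x : W) : H), (hkerψ x).1 x.2⟩
        map_one' := rfl
        map_mul' := fun _ _ => rfl }
    have hθ : Function.Injective θ := by
      intro x y hxy
      have h1 : ((x : W) : H) = ((y : W) : H) := congrArg (fun z : φ.ker => (z : H)) hxy
      exact Subtype.ext (Subtype.ext h1)
    set S₀ : Subgroup ψ.ker := (S : Subgroup φ.ker).comap θ with hS₀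
    have hS₀n : S₀.Normal := by
      constructor
      intro s hs g
      have h1 : ((g : W) : H) ∈ Subgroup.normalizer (S₁ : Set H) := (g : W).2
      have h2 : ((s : W) : H) ∈ S₁ := ⟨θ s, hs, rfl⟩
      have h3 := (Subgroup.mem_normalizer_iff.1 h1 _).1 h2
      obtain ⟨t, ht, hte⟩ := h3
      have h4 : θ (g * s * g⁻¹) = t := Subtype.ext hte.symm
      show θ (g * s * g⁻¹) ∈ (S : Subgroup φ.ker)
      rw [h4]; exact ht
    have hS₀p : IsPGroup p S₀ := by
      have h1 : IsPGroup p (S : Subgroup φ.ker) := S.isPGroup'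
      exact h1.comap_of_injective θ hθ
    have hrange : (S : Subgroup φ.ker) ≤ θ.range := by
      intro s hs
      have h1 : (s : H) ∈ W := hS₁W ⟨s, hs, rfl⟩
      exact ⟨⟨⟨s, h1⟩, (hkerψ _).2 s.2⟩, rfl⟩
    have hidx : ¬ p ∣ S₀.index := by
      rw [hS₀, Subgroup.index_comap]
      intro hd
      exact S.not_dvd_index (hd.trans (Subgroup.relIndex_dvd_index_of_le hrange))
    refine hGPSE p ψ.ker S₀ (HLift_pgroup hS₀p) (HLift_prime_to ?_)
    exact hidx
  obtain ⟨Y, hY1, hY2, hY3, hY4⟩ := hGSC H W P' hP'W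
  refine ⟨Y, hY1, hY3, ?_, hY4 φ.ker inferInstance hWN' hn⟩
  exact HLift_iso ((hGPS p W hWsol).1 (Y.subgroupOf W)) (Subgroup.subgroupOfEquivOfLe hY2)

theorem HLift_map_nclIn {G G' : Type} [Group G] [Group G'] (f : G' →* G) (Y Z : Subgroup G') :
    (nclIn Y Z).map f = nclIn (Y.map f) (Z.map f) := by
  unfold nclIn
  rw [MonoidHom.map_closure]
  congr 1
  ext g
  constructor
  · rintro ⟨_, ⟨x, hx, q, hq, rfl⟩, rfl⟩
    exact ⟨f x, ⟨x, hx, rfl⟩, f q, ⟨q, hq, rfl⟩, by simp⟩
  · rintro ⟨_, ⟨x, hx, rfl⟩, _, ⟨q, hq, rfl⟩, rfl⟩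
    exact ⟨x * q * x⁻¹, ⟨x, hx, q, hq, rfl⟩, by simp⟩

theorem HLift_block (hGSC : GSC) (hGPS : GPS) (hGPSE : GPSE) {p : ℕ} [hp : Fact p.Prime]
    {G : Type} [Group G] [Finite G] (P N : Subgroup G) [N.Normal] (hP : IsPGroup p P)
    (Yb Pb : Subgroup (G ⧸ N)) (h1 : Pb ≤ P.map (QuotientGroup.mk' N)) (h2 : Pb ≤ Yb)
    (h3 : nclIn Yb Pb = Yb) (h4 : PSol p Yb) :
    Yb.comap (QuotientGroup.mk' N) ≤ N ⊔ Gam p P := by
  set π : G →* G ⧸ N := QuotientGroup.mk' N with hπ
  have hsur : Function.Surjective π := QuotientGroup.mk'_surjective N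
  have hker : π.ker = N := QuotientGroup.ker_mk' N
  set Yh : Subgroup G := Yb.comap π with hYh
  set P1 : Subgroup G := P ⊓ Pb.comap π with hP1
  have hP1Y : P1 ≤ Yh := fun x hx => h2 hx.2
  let φ : Yh →* G ⧸ N := π.comp Yh.subtype
  have hφr : φ.range = Yb := by
    apply le_antisymm
    · rintro _ ⟨x, rfl⟩
      exact x.2
    · intro y hy
      obtain ⟨x, rfl⟩ := hsur y
      exact ⟨⟨x, hy⟩, rfl⟩
  set P' : Subgroup Yh := P1.subgroupOf Yh with hP'
  have hP'p : IsPGroup p P' := by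
    have h5 : IsPGroup p P1 := hP.to_le inf_le_left
    exact h5.comap_of_injective Yh.subtype Yh.subtype_injective
  have hQ : PSol p φ.range := by rw [hφr]; exact h4
  have hn : Subgroup.normalClosure ((P' : Set Yh) ∪ φ.ker) = ⊤ := by
    set C : Subgroup Yh := Subgroup.normalClosure ((P' : Set Yh) ∪ φ.ker) with hC
    have hCn : C.Normal := Subgroup.normalClosure_normal
    have hkC : φ.ker ≤ C := fun x hx => Subgroup.subset_normalClosure (Or.inr hx)
    have hPC : P' ≤ C := fun x hx => Subgroup.subset_normalClosure (Or.inl hx)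
    have hYC : Yb ≤ C.map φ := by
      rw [← h3]
      unfold nclIn
      rw [Subgroup.closure_le]
      rintro _ ⟨x, hx, q, hq, rfl⟩
      obtain ⟨x', rfl⟩ := hsur x
      obtain ⟨q', hq', rfl⟩ := h1 hq
      have hq1 : q' ∈ P1 := ⟨hq', hq⟩
      refine ⟨⟨x', hx⟩ * ⟨q', hP1Y hq1⟩ * ⟨x', hx⟩⁻¹, ?_, ?_⟩
      · exact hCn.conj_mem _ (hPC (Subgroup.mem_subgroupOf.2 hq1)) _
      · simp only [map_mul, map_inv]
        rfl
    rw [eq_top_iff]
    intro h _
    have h5 : φ h ∈ Yb := h.2
    obtain ⟨c, hc, hce⟩ := hYC h5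
    have h6 : h * c⁻¹ ∈ φ.ker := by
      rw [MonoidHom.mem_ker, map_mul, map_inv, hce, mul_inv_cancel]
    have h7 : h = (h * c⁻¹) * c := by group
    rw [h7]
    exact C.mul_mem (hkC h6) hc
  obtain ⟨Y', k1, k2, k3, k4⟩ := HLift_core hGSC hGPS hGPSE φ hQ P' hP'p hn
  have hP'm : P'.map Yh.subtype = P1 := by
    rw [hP', Subgroup.subgroupOf_map_subtype]
    exact inf_eq_left.2 hP1Y
  have hYG : Y'.map Yh.subtype ≤ Gam p P := by
    apply le_sSup
    refine ⟨P1, inf_le_left, ?_, ?_, ?_⟩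
    · rw [← hP'm]; exact Subgroup.map_mono k1
    · rw [← hP'm, ← HLift_map_nclIn, k2]
    · exact HLift_iso k3 (Y'.equivMapOfInjective Yh.subtype Yh.subtype_injective)
  intro y hy
  have h5 : (⟨y, hy⟩ : Yh) ∈ φ.ker ⊔ Y' := by rw [k4]; exact Subgroup.mem_top _
  obtain ⟨n, hn', w, hw, hnw⟩ := Subgroup.mem_sup_of_normal_left.1 h5
  have h6 : (n : G) * (w : G) = y := congrArg Subtype.val hnw
  rw [← h6]
  apply Subgroup.mul_mem_sup
  · have h7 : (n : G) ∈ π.ker := hn'
    rw [hker] at h7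
    exact h7
  · exact hYG ⟨w, hw, rfl⟩

theorem prf_HLift (hGSC : GSC) (hGPS : GPS) (hGPSE : GPSE) : HLift := by
  intro p _ G _ _ P N _ hP hG
  have hker : (QuotientGroup.mk' N).ker = N := QuotientGroup.ker_mk' N
  have hall : Gam p (P.map (QuotientGroup.mk' N)) ≤ (N ⊔ Gam p P).map (QuotientGroup.mk' N) := by
    apply sSup_le
    rintro Yb ⟨Pb, h1, h2, h3, h4⟩
    have h5 := HLift_block hGSC hGPS hGPSE P N hP Yb Pb h1 h2 h3 h4
    have h6 := Subgroup.map_mono (f := QuotientGroup.mk' N) h5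
    rw [Subgroup.map_comap_eq_self_of_surjective (QuotientGroup.mk'_surjective N)] at h6
    exact h6
  rw [hG, top_le_iff] at hall
  rw [← Subgroup.comap_map_eq_self (f := QuotientGroup.mk' N) (H := N ⊔ Gam p P)
    (by rw [hker]; exact le_sup_left), hall, Subgroup.comap_top]

end MP7b0bad

end

section

set_option autoImplicit false

namespace MP7b0bad

/-! # Minimal normal subgroups (helper61) -/

theorem HMin_mem {G : Type} [Group G] (L : Subgroup G) (g x : G) :
    x ∈ L.map (MulAut.conj g).toMonoidHom ↔ g⁻¹ * x * g ∈ L := by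
  constructor
  · rintro ⟨y, hy, rfl⟩
    have : g⁻¹ * ((MulAut.conj g).toMonoidHom y) * g = y := by
      change g⁻¹ * (g * y * g⁻¹) * g = y
      group
    rw [this]
    exact hy
  · intro h
    refine ⟨_, h, ?_⟩
    change g * (g⁻¹ * x * g) * g⁻¹ = x
    group

theorem HMin_card_map {G : Type} [Group G] (L : Subgroup G) (g : G) :
    Nat.card (L.map (MulAut.conj g).toMonoidHom) = Nat.card L :=
  (Nat.card_congr (L.equivMapOfInjective _ (MulAut.conj g).injective).toEquiv).symm

theorem HMin_card_sup {M : Type} [Group M] [Finite M] {ι : Type} [DecidableEq ι]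
    (A : ι → Subgroup M) (hA : ∀ i, (A i).Normal) (c : ℕ) (hc : ∀ i, Nat.card (A i) = c)
    (S : Finset ι) : Nat.card (↥(⨆ i ∈ S, A i)) ∣ c ^ S.card := by
  induction S using Finset.induction_on with
  | empty => simp
  | insert i S hi ih =>
    rw [Finset.iSup_insert, Finset.card_insert_of_notMem hi, pow_succ]
    have h1 : (⊥ : Subgroup M).relIndex (A i) * (A i).relIndex (A i ⊔ ⨆ j ∈ S, A j) =
        (⊥ : Subgroup M).relIndex (A i ⊔ ⨆ j ∈ S, A j) :=
      Subgroup.relIndex_mul_relIndex _ _ _ bot_le le_sup_left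
    rw [Subgroup.relIndex_bot_left, Subgroup.relIndex_bot_left] at h1
    have := hA i
    rw [Subgroup.relIndex_sup_left] at h1
    rw [← h1, hc i, mul_comm]
    exact mul_dvd_mul ((Subgroup.relIndex_dvd_card _ _).trans ih) dvd_rfl

theorem HMin_min {G : Type} [Group G] [Finite G] (N : Subgroup G) (hN : N.Normal) (hb : N ≠ ⊥) :
    ∃ L : Subgroup G, L ≤ N ∧ (∀ n ∈ N, ∀ x ∈ L, n * x * n⁻¹ ∈ L) ∧ L ≠ ⊥ ∧
      ∀ K : Subgroup G, K ≤ L → (∀ n ∈ N, ∀ x ∈ K, n * x * n⁻¹ ∈ K) → K ≠ ⊥ → K = L := by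
  obtain ⟨L, hL⟩ := Set.Finite.exists_minimal (s := {L : Subgroup G | L ≤ N ∧
    (∀ n ∈ N, ∀ x ∈ L, n * x * n⁻¹ ∈ L) ∧ L ≠ ⊥}) (Set.toFinite _)
    ⟨N, le_rfl, fun n _ x hx => hN.conj_mem x hx n, hb⟩
  refine ⟨L, hL.prop.1, hL.prop.2.1, hL.prop.2.2, fun K hK h1 h2 => ?_⟩
  exact le_antisymm hK (hL.le_of_le (⟨hK.trans hL.prop.1, h1, h2⟩) hK)

theorem prf_HMin : HMin := by
  intro G _ _ N hN hb hmin hnab
  obtain ⟨L, hLN, hLn, hLb, hLm⟩ := HMin_min N hN hb
  -- conjugates
  have cN : ∀ g : G, L.map (MulAut.conj g).toMonoidHom ≤ N := by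
    intro g x hx
    rw [HMin_mem] at hx
    have h := hN.conj_mem _ (hLN hx) g
    have e : g * (g⁻¹ * x * g) * g⁻¹ = x := by group
    rwa [e] at h
  have cn : ∀ g : G, ∀ n ∈ N, ∀ x ∈ L.map (MulAut.conj g).toMonoidHom,
      n * x * n⁻¹ ∈ L.map (MulAut.conj g).toMonoidHom := by
    intro g n hn x hx
    rw [HMin_mem] at hx ⊢
    have h1 : g⁻¹ * n * g ∈ N := by
      have := hN.conj_mem n hn g⁻¹
      rwa [inv_inv] at this
    have h2 := hLn _ h1 _ hx
    have e : g⁻¹ * n * g * (g⁻¹ * x * g) * (g⁻¹ * n * g)⁻¹ = g⁻¹ * (n * x * n⁻¹) * g := by group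
    rwa [e] at h2
  have cinf : ∀ g : G, L.map (MulAut.conj g).toMonoidHom ≠ L →
      L ⊓ L.map (MulAut.conj g).toMonoidHom = ⊥ := by
    intro g hg
    by_contra h
    have h1 := hLm (L ⊓ L.map (MulAut.conj g).toMonoidHom) inf_le_left
      (fun n hn x hx => ⟨hLn n hn x hx.1, cn g n hn x hx.2⟩) h
    have h2 : L ≤ L.map (MulAut.conj g).toMonoidHom := h1.symm.le.trans inf_le_right
    exact hg (Subgroup.eq_of_le_of_card_ge h2 (HMin_card_map L g).le).symm
  have ccom : ∀ g : G, L.map (MulAut.conj g).toMonoidHom = L ∨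
      ∀ x ∈ L, ∀ y ∈ L, x * (g * y * g⁻¹) = (g * y * g⁻¹) * x := by
    intro g
    by_cases hg : L.map (MulAut.conj g).toMonoidHom = L
    · exact Or.inl hg
    · right
      intro x hx y hy
      have hz : g * y * g⁻¹ ∈ L.map (MulAut.conj g).toMonoidHom := by
        rw [HMin_mem]
        have e : g⁻¹ * (g * y * g⁻¹) * g = y := by group
        rwa [e]
      have h0 := cinf g hg
      set z := g * y * g⁻¹ with hzd
      have h1 : x * z * x⁻¹ * z⁻¹ ∈ L ⊓ L.map (MulAut.conj g).toMonoidHom := by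
        refine ⟨?_, ?_⟩
        · have e : x * z * x⁻¹ * z⁻¹ = x * (z * x⁻¹ * z⁻¹) := by group
          rw [e]
          exact L.mul_mem hx (hLn z (cN g hz) _ (L.inv_mem hx))
        · exact Subgroup.mul_mem _ (cn g x (hLN hx) z hz) (Subgroup.inv_mem _ hz)
      rw [h0, Subgroup.mem_bot] at h1
      rw [mul_inv_eq_one, mul_inv_eq_iff_eq_mul] at h1
      exact h1
  have csup : (⨆ g : G, L.map (MulAut.conj g).toMonoidHom) = N := by
    have h1 : (⨆ g : G, L.map (MulAut.conj g).toMonoidHom).Normal := by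
      constructor
      intro x hx h
      have h2 : (⨆ g : G, L.map (MulAut.conj g).toMonoidHom).map (MulAut.conj h).toMonoidHom ≤
          ⨆ g : G, L.map (MulAut.conj g).toMonoidHom := by
        rw [Subgroup.map_iSup]
        refine iSup_le fun g => ?_
        refine le_trans ?_ (le_iSup _ (h * g))
        intro z hz
        rw [HMin_mem, HMin_mem] at hz
        rw [HMin_mem]
        have e : (h * g)⁻¹ * z * (h * g) = g⁻¹ * (h⁻¹ * z * h) * g := by group
        rwa [e]
      exact h2 ⟨x, hx, rfl⟩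
    have hle : L ≤ ⨆ g : G, L.map (MulAut.conj g).toMonoidHom := by
      refine le_trans ?_ (le_iSup _ 1)
      intro z hz
      rw [HMin_mem]
      simpa using hz
    rcases hmin _ h1 (iSup_le cN) with h2 | h2
    · exact absurd (le_bot_iff.1 (h2 ▸ hle)) hLb
    · exact h2
  -- simplicity
  have hsim : ∀ K : Subgroup G, K ≤ L → (∀ n ∈ L, ∀ x ∈ K, n * x * n⁻¹ ∈ K) → K = ⊥ ∨ K = L := by
    intro K hK hn
    by_cases hKb : K = ⊥
    · exact Or.inl hKb
    · right
      refine hLm K hK ?_ hKb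
      intro n hn' x hx
      have hNn : N ≤ Subgroup.normalizer (K : Set G) := by
        rw [← csup]
        refine iSup_le fun g => ?_
        intro z hz
        rw [Subgroup.mem_normalizer_iff]
        have key : ∀ z ∈ L.map (MulAut.conj g).toMonoidHom, ∀ h ∈ K, z * h * z⁻¹ ∈ K := by
          intro z hz h hh
          rcases ccom g with h3 | h3
          · rw [h3] at hz
            exact hn z hz h hh
          · rw [HMin_mem] at hz
            have h4 := h3 h (hK hh) _ hz
            have e : g * (g⁻¹ * z * g) * g⁻¹ = z := by group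
            rw [e] at h4
            rw [← h4]
            simpa using hh
        intro h
        constructor
        · intro hh
          exact key z hz h hh
        · intro hh
          have := key z⁻¹ (Subgroup.inv_mem _ hz) _ hh
          have e : z⁻¹ * (z * h * z⁻¹) * z⁻¹⁻¹ = h := by group
          rwa [e] at this
      exact ((Subgroup.mem_normalizer_iff.1 (hNn hn')) x).1 hx
  have hLab : ∃ a ∈ L, ∃ b ∈ L, a * b ≠ b * a := by
    by_contra hcon
    push Not at hcon
    obtain ⟨a, ha, b, hb', hab⟩ := hnab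
    apply hab
    -- all conjugates commute
    have k1 : ∀ g h : G, ∀ x ∈ L, ∀ y ∈ L, (g * x * g⁻¹) * (h * y * h⁻¹) =
        (h * y * h⁻¹) * (g * x * g⁻¹) := by
      intro g h x hx y hy
      have k2 : x * ((g⁻¹ * h) * y * (g⁻¹ * h)⁻¹) = ((g⁻¹ * h) * y * (g⁻¹ * h)⁻¹) * x := by
        rcases ccom (g⁻¹ * h) with h3 | h3
        · refine hcon x hx _ ?_
          rw [← h3, HMin_mem]
          have e : (g⁻¹ * h)⁻¹ * (g⁻¹ * h * y * (g⁻¹ * h)⁻¹) * (g⁻¹ * h) = y := by group
          rwa [e]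
        · exact h3 x hx y hy
      calc (g * x * g⁻¹) * (h * y * h⁻¹)
          = g * (x * ((g⁻¹ * h) * y * (g⁻¹ * h)⁻¹)) * g⁻¹ := by group
        _ = g * (((g⁻¹ * h) * y * (g⁻¹ * h)⁻¹) * x) * g⁻¹ := by rw [k2]
        _ = (h * y * h⁻¹) * (g * x * g⁻¹) := by group
    have k3 : ∀ g : G, ∀ x ∈ L, N ≤ Subgroup.centralizer {g * x * g⁻¹} := by
      intro g x hx
      rw [← csup]
      refine iSup_le fun h => ?_
      intro z hz
      rw [HMin_mem] at hz
      rw [Subgroup.mem_centralizer_singleton_iff]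
      have := k1 g h x hx _ hz
      have e : h * (h⁻¹ * z * h) * h⁻¹ = z := by group
      rw [e] at this
      exact this.symm
    have k4 : N ≤ Subgroup.centralizer {b} := by
      rw [← csup]
      refine iSup_le fun h => ?_
      intro z hz
      rw [HMin_mem] at hz
      rw [Subgroup.mem_centralizer_singleton_iff]
      have h5 := k3 h _ hz hb'
      rw [Subgroup.mem_centralizer_singleton_iff] at h5
      have e : h * (h⁻¹ * z * h) * h⁻¹ = z := by group
      rw [e] at h5
      exact h5.symm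
    have := k4 ha
    rw [Subgroup.mem_centralizer_singleton_iff] at this
    exact this
  refine ⟨L, hLN, ?_, ?_, ?_, ?_, ccom, cinf, csup⟩
  · constructor
    intro x hx n
    rw [Subgroup.mem_subgroupOf] at hx ⊢
    exact hLn _ n.2 _ hx
  · have hnt : Nontrivial L := (Subgroup.nontrivial_iff_ne_bot L).2 hLb
    refine { exists_pair_ne := hnt.exists_pair_ne, eq_bot_or_eq_top_of_normal := ?_ }
    intro K hK
    have h7 := hsim (K.map L.subtype) (Subgroup.map_subtype_le K) (by
      rintro n hn _ ⟨y, hy, rfl⟩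
      exact ⟨⟨n, hn⟩ * y * ⟨n, hn⟩⁻¹, hK.conj_mem y hy ⟨n, hn⟩, rfl⟩)
    rcases h7 with h | h
    · left
      exact (Subgroup.map_eq_bot_iff_of_injective K L.subtype_injective).1 h
    · right
      rw [eq_top_iff]
      intro x _
      have h6 : (x : G) ∈ K.map L.subtype := by
        rw [h]
        exact x.2
      obtain ⟨y, hy, hyx⟩ := h6
      have : y = x := Subtype.ext hyx
      rwa [← this]
  · obtain ⟨a, ha, b, hb', hab⟩ := hLab
    exact ⟨⟨a, ha⟩, ⟨b, hb'⟩, fun h => hab (congrArg Subtype.val h)⟩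
  · classical
    have : Fintype G := Fintype.ofFinite G
    have h1 := HMin_card_sup (M := N) (ι := G)
      (fun g => (L.map (MulAut.conj g).toMonoidHom).subgroupOf N)
      (fun g => ⟨fun x hx n => by
        rw [Subgroup.mem_subgroupOf] at hx ⊢
        exact cn g _ n.2 _ hx⟩) (Nat.card L)
      (fun g => by
        rw [← HMin_card_map L g]
        exact Nat.card_congr (Subgroup.subgroupOfEquivOfLe (cN g)).toEquiv) Finset.univ
    rw [Finset.card_univ, ← Nat.card_eq_fintype_card] at h1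
    have h2 : (⨆ g ∈ (Finset.univ : Finset G),
        (L.map (MulAut.conj g).toMonoidHom).subgroupOf N) = ⊤ := by
      apply Subgroup.map_injective N.subtype_injective
      rw [Subgroup.map_iSup]
      simp only [Finset.mem_univ, iSup_pos]
      rw [← MonoidHom.range_eq_map, Subgroup.range_subtype]
      refine Eq.trans ?_ csup
      refine iSup_congr fun g => ?_
      rw [Subgroup.subgroupOf_map_subtype]
      exact inf_eq_left.2 (cN g)
    rw [h2, Subgroup.card_top] at h1
    exact h1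

end MP7b0bad

end

section

/-!
# MP_7b0bad_ag, item HNor: first properties of `Gam`
-/

set_option autoImplicit false

namespace MP7b0bad

/-- `PSol` passes to images of surjective homomorphisms. -/
theorem HNor_surj {p : ℕ} {G G' : Type} [Group G] [Group G'] (hG : PSol p G) (f : G →* G')
    (hs : Function.Surjective f) : PSol p G' := by
  intro K hK hKt
  have hn : (K.comap f).Normal := hK.comap _
  have ht : K.comap f ≠ ⊤ := by
    intro h
    apply hKt
    rw [← Subgroup.map_comap_eq_self_of_surjective hs K, h]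
    exact Subgroup.map_top_of_surjective _ hs
  obtain ⟨M, hM, hlt, hi⟩ := hG _ hn ht
  refine ⟨M.map f, hM.map _ hs, ?_, ?_⟩
  · constructor
    · rw [← Subgroup.map_comap_eq_self_of_surjective hs K]
      exact Subgroup.map_mono hlt.le
    · intro h
      exact hlt.not_ge (Subgroup.map_le_iff_le_comap.1 h)
  · rwa [Subgroup.relIndex_comap] at hi

/-- The image of a block under a homomorphism is a block. -/
theorem HNor_map {p : ℕ} {G G' : Type} [Group G] [Group G'] (f : G →* G') {Y P' : Subgroup G}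
    {P : Subgroup G'} (h1 : P'.map f ≤ P) (h2 : P' ≤ Y) (h3 : nclIn Y P' = Y) (h4 : PSol p Y) :
    Y.map f ≤ Gam p P := by
  refine le_sSup ⟨P'.map f, h1, Subgroup.map_mono h2, ?_, ?_⟩
  · rw [← GCop_map_nclIn, h3]
  · exact HNor_surj h4 (f.subgroupMap Y) (f.subgroupMap_surjective Y)

/-- Finite `p`-groups are `p`-solvable. -/
theorem HNor_pgrp {p : ℕ} [Fact p.Prime] {G : Type} [Group G] [Finite G] (hG : IsPGroup p G) :
    PSol p G := by
  intro N _ hNt
  refine ⟨⊤, inferInstance, lt_top_iff_ne_top.2 hNt, Or.inl ?_⟩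
  rw [Subgroup.relIndex_top_right]
  exact hG.index N

/-- Groups of order prime to `p` are `p`-solvable. -/
theorem HNor_prime {p : ℕ} {G : Type} [Group G] [Finite G] (hG : ¬ p ∣ Nat.card G) :
    PSol p G := by
  intro N _ hNt
  refine ⟨⊤, inferInstance, lt_top_iff_ne_top.2 hNt, Or.inr ?_⟩
  rw [Subgroup.relIndex_top_right]
  exact fun h => hG (h.trans N.index_dvd_card)

/-- `A ⊔ Q` is `p`-solvable if `Q` is a `p`-group that normalises the group `A` of order prime to
`p`. -/
theorem HNor_sup {p : ℕ} [Fact p.Prime] {G : Type} [Group G] [Finite G] (A Q : Subgroup G)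
    (hA : ¬ p ∣ Nat.card A) (hQ : IsPGroup p Q) (h : ∀ q ∈ Q, ∀ a ∈ A, q * a * q⁻¹ ∈ A) :
    PSol p (A ⊔ Q : Subgroup G) := by
  have hle : A ⊔ Q ≤ Subgroup.normalizer (A : Set G) :=
    sup_le Subgroup.le_normalizer (GR3_norm Q A h)
  have hn : (A.subgroupOf (A ⊔ Q)).Normal :=
    (Subgroup.normal_subgroupOf_iff_le_normalizer le_sup_left).2 hle
  refine prf_GPSE p (A ⊔ Q : Subgroup G) (A.subgroupOf (A ⊔ Q)) ?_ ?_
  · refine HNor_prime ?_
    rwa [Nat.card_congr (Subgroup.subgroupOfEquivOfLe (le_sup_left : A ≤ A ⊔ Q)).toEquiv]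
  · refine HNor_pgrp ?_
    intro x
    induction x using QuotientGroup.induction_on with
    | H g =>
      obtain ⟨a, ha, q, hq, he⟩ := GR3_mem A Q h (g : G) g.2
      obtain ⟨k, hk⟩ := hQ ⟨q, hq⟩
      refine ⟨k, ?_⟩
      have hg : g = ⟨a, Subgroup.mem_sup_left ha⟩ * ⟨q, Subgroup.mem_sup_right hq⟩ :=
        Subtype.ext he
      have ha' : ((⟨a, Subgroup.mem_sup_left ha⟩ : (A ⊔ Q : Subgroup G)) :
          (A ⊔ Q : Subgroup G) ⧸ A.subgroupOf (A ⊔ Q)) = 1 := by
        rw [QuotientGroup.eq_one_iff, Subgroup.mem_subgroupOf]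
        exact ha
      rw [hg, QuotientGroup.mk_mul, ha', one_mul, ← QuotientGroup.mk_pow]
      have h2 : (⟨q, Subgroup.mem_sup_right hq⟩ : (A ⊔ Q : Subgroup G)) ^ p ^ k = 1 := by
        apply Subtype.ext
        have := congrArg Subtype.val hk
        simpa using this
      rw [h2]
      rfl

theorem prf_HNor (hGCop : GCop) : HNor := by
  intro p _ G _ _ P hP
  refine ⟨?_, ?_, ?_, ?_⟩
  · exact le_sSup ⟨P, le_rfl, le_rfl, le_antisymm (GSC_le P P le_rfl) (GSC_ge P P), HNor_pgrp hP⟩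
  · intro c hc x hx
    have key : Gam p P ≤ (Gam p P).comap (MulAut.conj c).toMonoidHom := by
      refine sSup_le ?_
      rintro Y ⟨P', h1, h2, h3, h4⟩
      rw [← Subgroup.map_le_iff_le_comap]
      refine HNor_map _ ?_ h2 h3 h4
      rintro _ ⟨q, hq, rfl⟩
      have : (MulAut.conj c).toMonoidHom q = q := by
        simp [MulAut.conj_apply, hc q (h1 hq)]
      rw [this]
      exact h1 hq
    have := key hx
    rw [Subgroup.mem_comap] at this
    simpa [MulAut.conj_apply] using this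
  · intro X P' hP' _
    rw [Subgroup.map_le_iff_le_comap]
    refine sSup_le ?_
    rintro Y ⟨P'', h1, h2, h3, h4⟩
    rw [← Subgroup.map_le_iff_le_comap]
    refine HNor_map _ ?_ h2 h3 h4
    rintro _ ⟨q, hq, rfl⟩
    exact hP' (h1 hq)
  · intro A Q hQP hA hQA a ha q hq
    have hQ : IsPGroup p Q := hP.to_le hQP
    obtain ⟨-, hcl, -⟩ := hGCop p G A Q hA hQ hQA
    have hQH : Q ≤ A ⊔ Q := le_sup_right
    set Y := nclIn (A ⊔ Q) Q with hY
    have hYH : Y ≤ A ⊔ Q := GSC_le _ _ hQH
    have hYp : PSol p Y := by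
      have h1 := (prf_GPS p (A ⊔ Q : Subgroup G) (HNor_sup A Q hA hQ hQA)).1
        (Y.subgroupOf (A ⊔ Q))
      exact HNor_surj h1 (Subgroup.subgroupOfEquivOfLe hYH).toMonoidHom
        (Subgroup.subgroupOfEquivOfLe hYH).surjective
    have hle : Y ≤ Gam p P := le_sSup ⟨Q, hQP, GSC_ge _ _, hcl, hYp⟩
    apply hle
    have h1 : a⁻¹ * q * a⁻¹⁻¹ ∈ Y :=
      GCop_mem_nclIn (Subgroup.inv_mem _ (Subgroup.mem_sup_left ha)) hq
    rw [inv_inv] at h1
    exact Y.mul_mem h1 (Y.inv_mem (GSC_ge _ _ hq))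

end MP7b0bad

end

section

set_option autoImplicit false

namespace MP7b0bad

theorem HRed_starIso {p : ℕ} (L L' : Type) [Group L] [Group L'] (e : L ≃* L')
    (h : StarL p L) : StarL p L' := by
  obtain ⟨⟨c, hc1, hc2⟩, h2⟩ := h
  refine ⟨⟨e c, ?_, ?_⟩, ?_⟩
  · rwa [MulEquiv.orderOf_eq]
  · rw [← map_pow]
    intro h
    exact hc2 (e.injective (h.trans (map_one e).symm))
  · intro X _ _ L₀ u hn ⟨f⟩ hX hu hg
    exact h2 X L₀ u hn ⟨f.trans e.symm⟩ hX hu hg

theorem HRed_surj {p : ℕ} {Q : ∀ (L : Type) [Group L], Prop}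
    (hQ : ∀ (L L' : Type) [Group L] [Group L'], (L ≃* L') → Q L → Q L')
    {G H : Type} [Group G] [Group H] (f : G →* H) (hf : Function.Surjective f)
    (hG : CFac p Q G) (N L : Subgroup H) (hN : N.Normal) (hLN : L ≤ N)
    (hL : (L.subgroupOf N).Normal) (hs : IsSimpleGroup L) (hp : p ∣ Nat.card L)
    (hab : ∃ a b : L, a * b ≠ b * a) : Q L := by
  let e : G ⧸ f.ker ≃* H := QuotientGroup.quotientKerEquivOfSurjective f hf
  have e1 : L.comap e.toMonoidHom ≃* L := by
    refine MulEquiv.ofBijective (e.toMonoidHom.subgroupComap L) ⟨?_, ?_⟩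
    · rintro ⟨x, hx⟩ ⟨y, hy⟩ hxy
      have h1 : e x = e y := congrArg Subtype.val hxy
      exact Subtype.ext (e.injective h1)
    · rintro ⟨y, hy⟩
      refine ⟨⟨e.symm y, ?_⟩, ?_⟩
      · change e (e.symm y) ∈ L
        rwa [MulEquiv.apply_symm_apply]
      · apply Subtype.ext
        exact MulEquiv.apply_symm_apply e y
  refine hQ _ _ e1 (hG f.ker (N.comap e.toMonoidHom) (L.comap e.toMonoidHom) (hN.comap _)
    (Subgroup.comap_mono hLN) ?_ ?_ ?_ ?_)
  · rw [Subgroup.normal_subgroupOf_iff (Subgroup.comap_mono hLN)]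
    intro h k hh hk
    rw [Subgroup.mem_comap] at *
    rw [map_mul, map_mul, map_inv]
    exact (Subgroup.normal_subgroupOf_iff hLN).1 hL _ _ hh hk
  · haveI := hs
    haveI : Nontrivial (L.comap e.toMonoidHom) := e1.toEquiv.nontrivial
    exact IsSimpleGroup.isSimpleGroup_of_surjective e1.symm.toMonoidHom e1.symm.surjective
  · rwa [Nat.card_congr e1.toEquiv]
  · obtain ⟨a, b, h⟩ := hab
    refine ⟨e1.symm a, e1.symm b, ?_⟩
    rw [← map_mul, ← map_mul]
    intro h'
    exact h (e1.symm.injective h')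

theorem HRed_quot {p : ℕ} {Q : ∀ (L : Type) [Group L], Prop}
    (hQ : ∀ (L L' : Type) [Group L] [Group L'], (L ≃* L') → Q L → Q L')
    {G : Type} [Group G] (hG : CFac p Q G) (N : Subgroup G) [N.Normal] : CFac p Q (G ⧸ N) := by
  intro K _ N' L hN hLN hL hs hp hab
  exact HRed_surj hQ ((QuotientGroup.mk' K).comp (QuotientGroup.mk' N))
    ((QuotientGroup.mk'_surjective K).comp (QuotientGroup.mk'_surjective N)) hG N' L hN hLN hL hs
    hp hab

theorem HRed_min {G : Type} [Group G] [Finite G] [Nontrivial G] : ∃ N : Subgroup G, N.Normal ∧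
    N ≠ ⊥ ∧ ∀ K : Subgroup G, K.Normal → K ≤ N → K = ⊥ ∨ K = N := by
  let S : Set (Subgroup G) := {N | N.Normal ∧ N ≠ ⊥}
  have htop : (⊤ : Subgroup G) ∈ S := ⟨inferInstance, top_ne_bot⟩
  obtain ⟨N, hN, hmin⟩ := (Set.toFinite S).exists_minimal ⟨_, htop⟩
  refine ⟨N, hN.1, hN.2, ?_⟩
  intro K hK hKN
  by_cases h : K = ⊥
  · exact Or.inl h
  · exact Or.inr (le_antisymm hKN (hmin ⟨hK, h⟩ hKN))

/-- a minimal normal abelian subgroup of order divisible by `p` is a `p`-group -/
theorem HRed_ab {p : ℕ} [Fact p.Prime] {G : Type} [Group G] [Finite G] (N : Subgroup G)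
    (hN : N.Normal) (hmin : ∀ K : Subgroup G, K.Normal → K ≤ N → K = ⊥ ∨ K = N)
    (hp : p ∣ Nat.card N) (hab : ∀ a ∈ N, ∀ b ∈ N, a * b = b * a) : IsPGroup p N := by
  let S : Subgroup G :=
    { carrier := {x | x ∈ N ∧ x ^ p = 1}
      mul_mem' := by
        rintro a b ⟨ha, ha'⟩ ⟨hb, hb'⟩
        refine ⟨N.mul_mem ha hb, ?_⟩
        have hc : Commute a b := hab a ha b hb
        rw [hc.mul_pow, ha', hb', one_mul]
      one_mem' := ⟨N.one_mem, one_pow _⟩
      inv_mem' := by
        rintro a ⟨ha, ha'⟩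
        refine ⟨N.inv_mem ha, ?_⟩
        rw [inv_pow, ha', inv_one] }
  have hS : S.Normal := by
    constructor
    rintro x ⟨hx, hx'⟩ g
    refine ⟨hN.conj_mem x hx g, ?_⟩
    rw [conj_pow, hx', mul_one, mul_inv_cancel]
  have hSN : S ≤ N := fun x hx => hx.1
  rcases hmin S hS hSN with h | h
  · exfalso
    obtain ⟨x, hx⟩ := exists_prime_orderOf_dvd_card' (G := N) p hp
    have hx1 : (x : G) ∈ S := by
      refine ⟨x.2, ?_⟩
      have := pow_orderOf_eq_one x
      rw [hx] at this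
      have h2 := congrArg Subtype.val this
      simpa using h2
    rw [h, Subgroup.mem_bot] at hx1
    have hx2 : x = 1 := Subtype.ext hx1
    rw [hx2, orderOf_one] at hx
    exact (Fact.out : p.Prime).one_lt.ne hx
  · intro x
    refine ⟨1, ?_⟩
    have hx : (x : G) ∈ S := by
      rw [h]
      exact x.2
    apply Subtype.ext
    rw [pow_one]
    simpa using hx.2

theorem HRed_conjEquiv {G : Type} [Group G] (L : Subgroup G) (g : G) :
    Nonempty (L ≃* (L.map (MulAut.conj g).toMonoidHom)) :=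
  ⟨L.equivMapOfInjective _ (MulAut.conj g).injective⟩

theorem HRed_memConj {G : Type} [Group G] (L : Subgroup G) (g x : G) :
    x ∈ L.map (MulAut.conj g).toMonoidHom ↔ ∃ y ∈ L, x = g * y * g⁻¹ := by
  constructor
  · rintro ⟨y, hy, rfl⟩
    exact ⟨y, hy, rfl⟩
  · rintro ⟨y, hy, rfl⟩
    exact ⟨y, hy, rfl⟩

theorem HRed_aux (hHLift : HLift) (hHAb : HAb) (hHMin : HMin) (hHB1 : HB1)
    (hHA1 : HA1) (p : ℕ) [Fact p.Prime] : ∀ (n : ℕ) (G : Type) [Group G] [Finite G]
    (P : Subgroup G), Nat.card G = n → IsPGroup p P → Subgroup.normalClosure (P : Set G) = ⊤ →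
    CFac p (StarL p) G → Gam p P = ⊤ := by
  intro n
  induction n using Nat.strong_induction_on with
  | _ n ih =>
  intro G _ _ P hn hP hcl hCF
  cases subsingleton_or_nontrivial G with
  | inl hsub => exact Subsingleton.elim _ _
  | inr hnt =>
  obtain ⟨N, hN, hN0, hmin⟩ := HRed_min (G := G)
  haveI := hN
  have hsurj : Function.Surjective (QuotientGroup.mk' N) := QuotientGroup.mk'_surjective N
  -- induction for the quotient
  have hlt : Nat.card (G ⧸ N) < n := by
    rw [← hn, Subgroup.card_eq_card_quotient_mul_card_subgroup N]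
    have h1 : 1 < Nat.card N := by
      rw [Subgroup.one_lt_card_iff_ne_bot]
      exact hN0
    have h2 : 0 < Nat.card (G ⧸ N) := Nat.card_pos
    nlinarith
  have hq : Gam p (P.map (QuotientGroup.mk' N)) = ⊤ := by
    refine ih _ hlt (G ⧸ N) _ rfl (hP.map _) ?_ (HRed_quot HRed_starIso hCF N)
    have h1 := Subgroup.map_normalClosure (P : Set G) (QuotientGroup.mk' N) hsurj
    rw [hcl, Subgroup.map_top_of_surjective _ hsurj] at h1
    rw [Subgroup.coe_map, ← h1]
  have hNG : N ⊔ Gam p P = ⊤ := hHLift p G P N hP hq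
  by_cases hcase : IsPGroup p N ∨ ¬ p ∣ Nat.card N
  · exact hHAb p G P N hN hN0 hmin hP hcl hcase hNG
  rw [not_or, not_not] at hcase
  obtain ⟨hc1, hc2⟩ := hcase
  have hnab : ∃ a ∈ N, ∃ b ∈ N, a * b ≠ b * a := by
    by_contra hcon
    push Not at hcon
    exact hc1 (HRed_ab N hN hmin hc2 hcon)
  obtain ⟨L, hLN, hLn, hLs, hLab, hcard, hA, hB, hsup⟩ := hHMin G N hN hN0 hmin hnab
  have hpL : p ∣ Nat.card L := (Fact.out : p.Prime).dvd_of_dvd_pow (hc2.trans hcard)
  have hstar : StarL p L := HRed_surj HRed_starIso (MonoidHom.id G) Function.surjective_id hCF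
    N L hN hLN hLn hLs hpL hLab
  -- some conjugate is not centralised
  have hex : ∃ g : G, ∃ u ∈ P, ∃ x ∈ L.map (MulAut.conj g).toMonoidHom, u * x ≠ x * u := by
    by_contra hcon
    push Not at hcon
    have h1 : N ≤ Subgroup.centralizer (P : Set G) := by
      rw [← hsup]
      refine iSup_le fun g x hx => ?_
      rw [Subgroup.mem_centralizer_iff]
      intro u hu
      exact hcon g u hu x hx
    have h2 : P ≤ Subgroup.centralizer (N : Set G) := by
      intro u hu
      rw [Subgroup.mem_centralizer_iff]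
      intro x hx
      exact (Subgroup.mem_centralizer_iff.1 (h1 hx) u hu).symm
    have h3 : (Subgroup.centralizer (N : Set G)) = ⊤ := by
      rw [eq_top_iff, ← hcl]
      exact Subgroup.normalClosure_le_normal h2
    obtain ⟨a, ha, b, hb, hne⟩ := hnab
    have h4 : b ∈ Subgroup.centralizer (N : Set G) := by
      rw [h3]
      exact Subgroup.mem_top _
    exact hne (Subgroup.mem_centralizer_iff.1 h4 a ha)
  obtain ⟨g, u, hu, x, hx, hux⟩ := hex
  obtain ⟨e1⟩ := HRed_conjEquiv L g
  -- properties of L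
  have hA' : ∀ w : G, (∀ y ∈ L, w * y * w⁻¹ ∈ L) ∨
      ∀ x ∈ L, ∀ y ∈ L, x * (w * y * w⁻¹) = (w * y * w⁻¹) * x := by
    intro w
    rcases hA w with h | h
    · left
      intro y hy
      rw [← h]
      exact (HRed_memConj L w _).2 ⟨y, hy, rfl⟩
    · exact Or.inr h
  have hB' : ∀ w : G, (∃ y ∈ L, w * y * w⁻¹ ∉ L) → ∀ y ∈ L, w * y * w⁻¹ ∈ L → y = 1 := by
    rintro w ⟨z, hz, hz'⟩ y hy hy'
    have hne : L.map (MulAut.conj w).toMonoidHom ≠ L := by
      intro h
      apply hz'
      rw [← h]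
      exact (HRed_memConj L w _).2 ⟨z, hz, rfl⟩
    have h1 : w * y * w⁻¹ ∈ L ⊓ L.map (MulAut.conj w).toMonoidHom :=
      ⟨hy', (HRed_memConj L w _).2 ⟨y, hy, rfl⟩⟩
    rw [hB w hne, Subgroup.mem_bot, conj_eq_one_iff] at h1
    exact h1
  set L1 : Subgroup G := L.map (MulAut.conj g).toMonoidHom with hL1
  have hm1 : ∀ z : G, z ∈ L1 ↔ ∃ y ∈ L, z = g * y * g⁻¹ := HRed_memConj L g
  have hm2 : ∀ z : G, g * z * g⁻¹ ∈ L1 ↔ z ∈ L := by
    intro z
    rw [hm1]
    constructor
    · rintro ⟨y, hy, h⟩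
      have : z = y := by
        simpa using h
      rwa [this]
    · intro hz
      exact ⟨z, hz, rfl⟩
  haveI := hLs
  have hs1 : IsSimpleGroup L1 := by
    haveI : Nontrivial L1 := e1.symm.toEquiv.nontrivial
    exact IsSimpleGroup.isSimpleGroup_of_surjective e1.toMonoidHom e1.surjective
  have hab1 : ∃ a b : L1, a * b ≠ b * a := by
    obtain ⟨a, b, h⟩ := hLab
    refine ⟨e1 a, e1 b, ?_⟩
    rw [← map_mul, ← map_mul]
    intro h'
    exact h (e1.injective h')
  have hst1 : StarL p L1 := HRed_starIso _ _ e1 hstar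
  have hA1' : ∀ v : G, (∀ y ∈ L1, v * y * v⁻¹ ∈ L1) ∨
      ∀ x ∈ L1, ∀ y ∈ L1, x * (v * y * v⁻¹) = (v * y * v⁻¹) * x := by
    intro v
    rcases hA' (g⁻¹ * v * g) with h | h
    · left
      intro z hz
      obtain ⟨y, hy, rfl⟩ := (hm1 z).1 hz
      have := (hm2 _).2 (h y hy)
      have h3 : v * (g * y * g⁻¹) * v⁻¹ = g * (g⁻¹ * v * g * y * (g⁻¹ * v * g)⁻¹) * g⁻¹ := by
        group
      rwa [h3]
    · right
      intro z hz z' hz'
      obtain ⟨y, hy, rfl⟩ := (hm1 z).1 hz
      obtain ⟨y', hy', rfl⟩ := (hm1 z').1 hz'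
      have h2 := h y hy y' hy'
      have h3 : v * (g * y' * g⁻¹) * v⁻¹ = g * (g⁻¹ * v * g * y' * (g⁻¹ * v * g)⁻¹) * g⁻¹ := by
        group
      rw [h3]
      calc g * y * g⁻¹ * (g * (g⁻¹ * v * g * y' * (g⁻¹ * v * g)⁻¹) * g⁻¹)
          = g * (y * (g⁻¹ * v * g * y' * (g⁻¹ * v * g)⁻¹)) * g⁻¹ := by group
        _ = g * ((g⁻¹ * v * g * y' * (g⁻¹ * v * g)⁻¹) * y) * g⁻¹ := by rw [h2]
        _ = g * (g⁻¹ * v * g * y' * (g⁻¹ * v * g)⁻¹) * g⁻¹ * (g * y * g⁻¹) := by group
  have hB1' : ∀ v : G, (∃ y ∈ L1, v * y * v⁻¹ ∉ L1) → ∀ y ∈ L1, v * y * v⁻¹ ∈ L1 → y = 1 := by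
    rintro v ⟨z, hz, hz'⟩ z1 hz1 hz1'
    obtain ⟨y, hy, rfl⟩ := (hm1 z).1 hz
    obtain ⟨y1, hy1, rfl⟩ := (hm1 z1).1 hz1
    have h3 : ∀ y : G, v * (g * y * g⁻¹) * v⁻¹ =
        g * (g⁻¹ * v * g * y * (g⁻¹ * v * g)⁻¹) * g⁻¹ := by
      intro y
      group
    rw [h3, hm2] at hz' hz1'
    rw [conj_eq_one_iff]
    exact hB' (g⁻¹ * v * g) ⟨y, hy, hz'⟩ y1 hy1 hz1'
  -- L1 is contained in Gam
  have hL1G : L1 ≤ Gam p P := by
    by_cases hc : ∃ v ∈ P, (∀ x ∈ L1, v * x * v⁻¹ ∈ L1) ∧ ∃ x ∈ L1, v * x ≠ x * v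
    · obtain ⟨v, hv, hv1, hv2⟩ := hc
      exact hHB1 p G P L1 v hP hv hv1 hv2 hs1 hab1 hst1
    · push Not at hc
      refine hHA1 p G P L1 u hP hu hc (fun v _ => hA1' v) (fun v _ => hB1' v) ?_ hs1 hab1 hst1.1
      by_contra hcon
      push Not at hcon
      exact hux (hc u hu hcon x hx)
  -- N normalises L1
  have hnorm : ∀ m ∈ N, ∀ z ∈ L1, m * z * m⁻¹ ∈ L1 := by
    intro m hm z hz
    obtain ⟨y, hy, rfl⟩ := (hm1 z).1 hz
    have h3 : m * (g * y * g⁻¹) * m⁻¹ = g * ((g⁻¹ * m * g) * y * (g⁻¹ * m * g)⁻¹) * g⁻¹ := by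
      group
    rw [h3, hm2]
    refine (Subgroup.normal_subgroupOf_iff hLN).1 hLn _ _ hy ?_
    have := hN.conj_mem m hm g⁻¹
    rwa [inv_inv] at this
  have hNle : N ≤ Gam p P := by
    rw [← hsup]
    refine iSup_le fun g' z hz => ?_
    obtain ⟨y, hy, rfl⟩ := (HRed_memConj L g' z).1 hz
    have h1 : g' * g⁻¹ ∈ Gam p P ⊔ N := by
      rw [sup_comm, hNG]
      exact Subgroup.mem_top _
    rw [← SetLike.mem_coe, Subgroup.mul_normal, Set.mem_mul] at h1
    obtain ⟨γ, hγ, m, hm, hγm⟩ := h1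
    have h2 : g' * y * g'⁻¹ = γ * (m * (g * y * g⁻¹) * m⁻¹) * γ⁻¹ := by
      have h5 : g' = γ * m * g := by
        rw [hγm]
        group
      rw [h5]
      group
    rw [h2]
    exact (Gam p P).mul_mem ((Gam p P).mul_mem hγ
      (hL1G (hnorm m hm _ ((hm2 y).2 hy)))) ((Gam p P).inv_mem hγ)
  rw [eq_top_iff, ← hNG]
  exact sup_le hNle le_rfl

theorem prf_HRed (hHLift : HLift) (_hHNor : HNor) (hHAb : HAb) (hHMin : HMin) (hHB1 : HB1)
    (hHA1 : HA1) : HRed := by
  intro p _ G _ _ P hP hcl hCF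
  exact HRed_aux hHLift hHAb hHMin hHB1 hHA1 p _ G P rfl hP hcl hCF

end MP7b0bad

end

section

set_option autoImplicit false

namespace MP7b0bad

/-! # Group H, second part: no condition on elements; the general criterion; `n = 6` -/

/-- the property of a simple group used in the reduction, without the first condition of `StarL` -/
def StarM (p : ℕ) (L : Type) [Group L] : Prop :=
  ∀ (X : Type) [Group X] [Finite X] (L' : Subgroup X) (u : X), L'.Normal → Nonempty (L' ≃* L) →
    (∀ x : X, (∀ l ∈ L', x * l = l * x) → x = 1) → orderOf u = p →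
    L' ⊔ Subgroup.zpowers u = ⊤ → L' ≤ Gam p (Subgroup.zpowers u)

/-- as `HB1` -/
def HB1M : Prop := ∀ (p : ℕ) [Fact p.Prime] (G : Type) [Group G] [Finite G] (P L : Subgroup G)
  (u : G), IsPGroup p P → u ∈ P → (∀ x ∈ L, u * x * u⁻¹ ∈ L) → (∃ x ∈ L, u * x ≠ x * u) →
  IsSimpleGroup L → (∃ a b : L, a * b ≠ b * a) → StarM p L → L ≤ Gam p P

/-- as `HA1`, for odd `p`, no condition on elements of `L` -/
def HA1O : Prop := ∀ (p : ℕ) [Fact p.Prime] (G : Type) [Group G] [Finite G] (P L : Subgroup G)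
  (u : G), p ≠ 2 → IsPGroup p P → u ∈ P →
  (∀ v ∈ P, (∀ x ∈ L, v * x * v⁻¹ ∈ L) → ∀ x ∈ L, v * x = x * v) →
  (∀ v ∈ P, (∀ x ∈ L, v * x * v⁻¹ ∈ L) ∨ ∀ x ∈ L, ∀ y ∈ L, x * (v * y * v⁻¹) = (v * y * v⁻¹) * x) →
  (∀ v ∈ P, (∃ x ∈ L, v * x * v⁻¹ ∉ L) → ∀ x ∈ L, v * x * v⁻¹ ∈ L → x = 1) →
  (∃ x ∈ L, u * x * u⁻¹ ∉ L) → IsSimpleGroup L → (∃ a b : L, a * b ≠ b * a) → L ≤ Gam p P

/-- the reduction theorem -/
def HRedM : Prop := ∀ (p : ℕ) [Fact p.Prime] (G : Type) [Group G] [Finite G] (P : Subgroup G),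
  IsPGroup p P → Subgroup.normalClosure (P : Set G) = ⊤ → CFac p (StarM p) G → Gam p P = ⊤

/-- for every automorphism `φ ≠ 1` of `L` with `φ ^ p = 1` the group `L` is generated by the fixed
points of `φ` and the `φ`-invariant subgroups of order prime to `p` -/
def InvGen (p : ℕ) (L : Type) [Group L] : Prop :=
  ∀ φ : L ≃* L, (∀ x, φ^[p] x = x) → (∃ x, φ x ≠ x) →
    Subgroup.closure {x : L | φ x = x ∨ ∃ A : Subgroup L, ¬ p ∣ Nat.card A ∧
      (∀ a ∈ A, φ a ∈ A) ∧ x ∈ A} = ⊤

def HGenM : Prop := ∀ (p : ℕ) [Fact p.Prime] (L : Type) [Group L] [Finite L], IsSimpleGroup L →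
  InvGen p L → StarM p L

/-! ## `n = 6` -/

/-- the two classes of elements of order 3 -/
def HSixA : Prop := ∀ φ : alternatingGroup (Fin 6) ≃* alternatingGroup (Fin 6),
  (∀ x, φ (φ x) = x) →
  (∃ c : alternatingGroup (Fin 6), (c : Equiv.Perm (Fin 6)).IsThreeCycle ∧
    ¬ (φ c : Equiv.Perm (Fin 6)).IsThreeCycle) →
  ∀ x : alternatingGroup (Fin 6), orderOf x = 3 →
    ((x : Equiv.Perm (Fin 6)).IsThreeCycle ↔ ¬ (φ x : Equiv.Perm (Fin 6)).IsThreeCycle)

/-- invariant subgroups of order 5 -/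
def HSixB : Prop := ∀ φ : alternatingGroup (Fin 6) ≃* alternatingGroup (Fin 6),
  (∀ x, φ (φ x) = x) →
  (∃ c : alternatingGroup (Fin 6), (c : Equiv.Perm (Fin 6)).IsThreeCycle ∧
    ¬ (φ c : Equiv.Perm (Fin 6)).IsThreeCycle) →
  ∀ i : Fin 6, ∃ f : alternatingGroup (Fin 6), orderOf f = 5 ∧ (f : Equiv.Perm (Fin 6)) i = i ∧
    φ f ∈ Subgroup.zpowers f

/-- subgroups with many elements of order 5 -/
def HSixC : Prop := ∀ H : Subgroup (alternatingGroup (Fin 6)),
  (∀ i : Fin 6, ∃ f ∈ H, orderOf f = 5 ∧ (f : Equiv.Perm (Fin 6)) i = i) →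
  3 ∣ Nat.card H ∧ ((∃ c ∈ H, (c : Equiv.Perm (Fin 6)).IsThreeCycle) → H = ⊤)

/-- the exotic involutions -/
def HSixM : Prop := ∀ (X : Type) [Group X] [Finite X] (L : Subgroup X) [L.Normal] (u : X)
  (e : L ≃* alternatingGroup (Fin 6)),
  (∀ x : X, (∀ l ∈ L, x * l = l * x) → x = 1) → orderOf u = 2 → L ⊔ Subgroup.zpowers u = ⊤ →
  (∃ c : alternatingGroup (Fin 6), (c : Equiv.Perm (Fin 6)).IsThreeCycle ∧
    ¬ (e (MulAut.conjNormal u (e.symm c)) : Equiv.Perm (Fin 6)).IsThreeCycle) →
  L ≤ Gam 2 (Subgroup.zpowers u)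

/-- `p = 2`, all alternating groups -/
def HAlt2M : Prop := ∀ (n : ℕ), 5 ≤ n → StarM 2 (alternatingGroup (Fin n))

end MP7b0bad

end

section

set_option autoImplicit false

/-!
Elements of order three in alternating groups generate the alternating group through
`3`-solvable blocks.
-/

namespace MP7b0bad

open Equiv Equiv.Perm

/-- A four-group normalised by an element of order three. -/
theorem HThree_four (hHNor : HNor) {G : Type} [Group G] [Finite G] (u x y : G) (hu : u ^ 3 = 1)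
    (hux : u * x * u⁻¹ = y) (huy : u * y * u⁻¹ = x * y) (hx : x * x = 1) (hy : y * y = 1)
    (hxy : x * y = y * x) : x ∈ Gam 3 (Subgroup.zpowers u) := by
  have : Fact (Nat.Prime 3) := ⟨Nat.prime_three⟩
  have hP : IsPGroup 3 (Subgroup.zpowers u) := by
    intro g
    obtain ⟨g, hg⟩ := g
    obtain ⟨k, hk⟩ := Subgroup.mem_zpowers_iff.mp hg
    refine ⟨1, ?_⟩
    apply Subtype.ext
    simp only [pow_one, SubmonoidClass.mk_pow, OneMemClass.coe_one]
    rw [← hk, ← zpow_natCast, ← zpow_mul, mul_comm, zpow_mul, zpow_natCast, hu, one_zpow]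
  have hyx : y * (x * y) = x := by rw [hxy, ← mul_assoc, hy, one_mul]
  have hxx : x * (x * y) = y := by rw [← mul_assoc, hx, one_mul]
  have hxyx : x * y * x = y := by rw [mul_assoc, ← hxy, ← mul_assoc, hx, one_mul]
  have hxyy : x * y * y = x := by rw [mul_assoc, hy, mul_one]
  have hxyxy : x * y * (x * y) = 1 := by rw [← mul_assoc, hxyx, hy]
  let A : Subgroup G :=
    { carrier := {g | g = 1 ∨ g = x ∨ g = y ∨ g = x * y}
      mul_mem' := by
        rintro a b (rfl | rfl | rfl | rfl) (rfl | rfl | rfl | rfl) <;>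
          simp [hx, hy, hyx, hxx, hxyx, hxyy, hxyxy, ← hxy]
      one_mem' := Or.inl rfl
      inv_mem' := by
        rintro a (rfl | rfl | rfl | rfl)
        · left; simp
        · right; left; exact inv_eq_of_mul_eq_one_right hx
        · right; right; left; exact inv_eq_of_mul_eq_one_right hy
        · right; right; right; exact inv_eq_of_mul_eq_one_right hxyxy }
  have hA : ∀ g, g ∈ A ↔ (g = 1 ∨ g = x ∨ g = y ∨ g = x * y) := fun g => Iff.rfl
  have hA2 : IsPGroup 2 A := by
    rintro ⟨g, hg⟩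
    refine ⟨1, ?_⟩
    apply Subtype.ext
    simp only [pow_one, SubmonoidClass.mk_pow, OneMemClass.coe_one]
    rw [pow_two]
    rcases (hA g).mp hg with rfl | rfl | rfl | rfl
    · simp
    · exact hx
    · exact hy
    · exact hxyxy
  have hcard : ¬ 3 ∣ Nat.card A := by
    obtain ⟨k, hk⟩ := IsPGroup.iff_card.mp hA2
    rw [hk]
    intro h
    have := Nat.prime_three.dvd_of_dvd_pow h
    omega
  have h1 : ∀ a ∈ A, u * a * u⁻¹ ∈ A := by
    intro a ha
    rcases (hA a).mp ha with rfl | rfl | rfl | rfl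
    · rw [hA]; left; simp
    · rw [hA, hux]; right; right; left; rfl
    · rw [hA, huy]; right; right; right; rfl
    · rw [hA]
      have : u * (x * y) * u⁻¹ = (u * x * u⁻¹) * (u * y * u⁻¹) := by group
      rw [this, hux, huy, hyx]
      right; left; rfl
  have hnorm : u ∈ Subgroup.normalizer (A : Set G) := by
    rw [Subgroup.mem_normalizer_iff]
    intro h
    constructor
    · exact h1 h
    · intro hh
      have h2 := h1 _ (h1 _ hh)
      have h3 : u * (u * (u * h * u⁻¹) * u⁻¹) * u⁻¹ = h := by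
        have : u * (u * (u * h * u⁻¹) * u⁻¹) * u⁻¹ = u ^ 3 * h * (u ^ 3)⁻¹ := by
          simp only [pow_succ, pow_zero, one_mul, mul_inv_rev, mul_assoc]
        rw [this, hu]
        simp
      rwa [h3] at h2
  have h2 := (hHNor 3 G (Subgroup.zpowers u) hP).2.2.2 A (Subgroup.zpowers u) le_rfl hcard
    (by
      intro q hq a ha
      have : Subgroup.zpowers u ≤ Subgroup.normalizer (A : Set G) := by
        rw [Subgroup.zpowers_le]; exact hnorm
      exact (Subgroup.mem_normalizer_iff.mp (this hq) a).mp ha)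
    y ((hA y).mpr (Or.inr (Or.inr (Or.inl rfl)))) u (Subgroup.mem_zpowers u)
  have h3 : y⁻¹ * u * y * u⁻¹ = x := by
    have : y⁻¹ * u * y * u⁻¹ = y⁻¹ * (u * y * u⁻¹) := by group
    rw [this, huy, inv_eq_of_mul_eq_one_right hy, hyx]
  rwa [h3] at h2

/-- The image of `Gam` in the symmetric group. -/
def HThree_G {n : ℕ} (u : alternatingGroup (Fin n)) : Subgroup (Perm (Fin n)) :=
  (Gam 3 (Subgroup.zpowers u)).map (alternatingGroup (Fin n)).subtype

theorem HThree_mem (hHNor : HNor) {n : ℕ} (u : alternatingGroup (Fin n)) (hu : u ^ 3 = 1)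
    (x y : Perm (Fin n)) (sx : x ∈ alternatingGroup (Fin n)) (sy : y ∈ alternatingGroup (Fin n))
    (hux : (u : Perm (Fin n)) * x * (u : Perm (Fin n))⁻¹ = y)
    (huy : (u : Perm (Fin n)) * y * (u : Perm (Fin n))⁻¹ = x * y)
    (hx : x * x = 1) (hy : y * y = 1) (hxy : x * y = y * x) : x ∈ HThree_G u := by
  refine ⟨⟨x, sx⟩, ?_, rfl⟩
  refine HThree_four hHNor u ⟨x, sx⟩ ⟨y, sy⟩ hu ?_ ?_ ?_ ?_ ?_
  · exact Subtype.ext hux
  · exact Subtype.ext huy
  · exact Subtype.ext hx
  · exact Subtype.ext hy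
  · exact Subtype.ext hxy

theorem HThree_even {n : ℕ} {a b c d : Fin n} (hab : a ≠ b) (hcd : c ≠ d) :
    swap a b * swap c d ∈ alternatingGroup (Fin n) := by
  rw [mem_alternatingGroup, Perm.sign_mul, sign_swap hab, sign_swap hcd]
  decide

theorem HThree_conj {n : ℕ} (u : Perm (Fin n)) (a b c d : Fin n) :
    u * (swap a b * swap c d) * u⁻¹ = swap (u a) (u b) * swap (u c) (u d) := by
  rw [swap_apply_apply, swap_apply_apply]
  group

theorem HThree_inj4 {α : Type} {a b c d : α} (h1 : a ≠ b) (h2 : a ≠ c) (h3 : a ≠ d) (h4 : b ≠ c)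
    (h5 : b ≠ d) (h6 : c ≠ d) : Function.Injective ![a, b, c, d] := by
  intro i j hij
  fin_cases i <;> fin_cases j <;> simp_all [eq_comm]

theorem HThree_inj6 {α : Type} {a b c d e f : α} (h1 : a ≠ b) (h2 : a ≠ c) (h3 : a ≠ d)
    (h4 : a ≠ e) (h5 : a ≠ f) (h6 : b ≠ c) (h7 : b ≠ d) (h8 : b ≠ e) (h9 : b ≠ f) (h10 : c ≠ d)
    (h11 : c ≠ e) (h12 : c ≠ f) (h13 : d ≠ e) (h14 : d ≠ f) (h15 : e ≠ f) :
    Function.Injective ![a, b, c, d, e, f] := by
  intro i j hij
  fin_cases i <;> fin_cases j <;> simp_all [eq_comm]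

/-- A fixed point `d` and a cycle `(a b c)`. -/
theorem HThree_F1 (hHNor : HNor) {n : ℕ} (u : alternatingGroup (Fin n)) (hu : u ^ 3 = 1)
    {a b c d : Fin n} (hab : a ≠ b) (hac : a ≠ c) (had : a ≠ d) (hbc : b ≠ c) (hbd : b ≠ d)
    (hcd : c ≠ d) (ua : (u : Perm (Fin n)) a = b) (ub : (u : Perm (Fin n)) b = c)
    (uc : (u : Perm (Fin n)) c = a) (ud : (u : Perm (Fin n)) d = d) :
    swap a b * swap c d ∈ HThree_G u := by
  let ι : Fin 4 ↪ Fin n := J2_emb ![a, b, c, d] (HThree_inj4 hab hac had hbc hbd hcd)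
  have e0 : ι 0 = a := rfl
  have e1 : ι 1 = b := rfl
  have e2 : ι 2 = c := rfl
  have e3 : ι 3 = d := rfl
  have E1 : (swap 0 1 * swap 2 3 : Perm (Fin 4)) * (swap 1 2 * swap 0 3) = swap 2 0 * swap 1 3 := by
    decide
  have E2 : (swap 0 1 * swap 2 3 : Perm (Fin 4)) * (swap 0 1 * swap 2 3) = 1 := by decide
  have E3 : (swap 1 2 * swap 0 3 : Perm (Fin 4)) * (swap 1 2 * swap 0 3) = 1 := by decide
  have E4 : (swap 0 1 * swap 2 3 : Perm (Fin 4)) * (swap 1 2 * swap 0 3) =
    swap 1 2 * swap 0 3 * (swap 0 1 * swap 2 3) := by decide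
  have F1 := congrArg (viaEmbeddingHom ι) E1
  have F2 := congrArg (viaEmbeddingHom ι) E2
  have F3 := congrArg (viaEmbeddingHom ι) E3
  have F4 := congrArg (viaEmbeddingHom ι) E4
  simp only [map_mul, map_one, J2_via_swap, e0, e1, e2, e3] at F1 F2 F3 F4
  refine HThree_mem hHNor u hu (swap a b * swap c d) (swap b c * swap a d)
    (HThree_even hab hcd) (HThree_even hbc had) ?_ ?_ F2 F3 F4
  · rw [HThree_conj, ua, ub, uc, ud]
  · rw [HThree_conj, ua, ub, uc, ud, F1]

/-- Two cycles. -/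
theorem HThree_F2 (hHNor : HNor) {n : ℕ} (u : alternatingGroup (Fin n)) (hu : u ^ 3 = 1)
    {a b c d e f : Fin n} (h1 : a ≠ b) (h2 : a ≠ c) (h3 : a ≠ d)
    (h4 : a ≠ e) (h5 : a ≠ f) (h6 : b ≠ c) (h7 : b ≠ d) (h8 : b ≠ e) (h9 : b ≠ f) (h10 : c ≠ d)
    (h11 : c ≠ e) (h12 : c ≠ f) (h13 : d ≠ e) (h14 : d ≠ f) (h15 : e ≠ f)
    (ua : (u : Perm (Fin n)) a = b) (ub : (u : Perm (Fin n)) b = c)
    (uc : (u : Perm (Fin n)) c = a) (ud : (u : Perm (Fin n)) d = e)
    (ue : (u : Perm (Fin n)) e = f) (uf : (u : Perm (Fin n)) f = d) :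
    swap a d * swap b e ∈ HThree_G u := by
  let ι : Fin 6 ↪ Fin n := J2_emb ![a, b, c, d, e, f]
    (HThree_inj6 h1 h2 h3 h4 h5 h6 h7 h8 h9 h10 h11 h12 h13 h14 h15)
  have e0 : ι 0 = a := rfl
  have e1 : ι 1 = b := rfl
  have e2 : ι 2 = c := rfl
  have e3 : ι 3 = d := rfl
  have e4 : ι 4 = e := rfl
  have e5 : ι 5 = f := rfl
  have E1 : (swap 0 3 * swap 1 4 : Perm (Fin 6)) * (swap 1 4 * swap 2 5) = swap 2 5 * swap 0 3 := by
    decide
  have E2 : (swap 0 3 * swap 1 4 : Perm (Fin 6)) * (swap 0 3 * swap 1 4) = 1 := by decide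
  have E3 : (swap 1 4 * swap 2 5 : Perm (Fin 6)) * (swap 1 4 * swap 2 5) = 1 := by decide
  have E4 : (swap 0 3 * swap 1 4 : Perm (Fin 6)) * (swap 1 4 * swap 2 5) =
    swap 1 4 * swap 2 5 * (swap 0 3 * swap 1 4) := by decide
  have F1 := congrArg (viaEmbeddingHom ι) E1
  have F2 := congrArg (viaEmbeddingHom ι) E2
  have F3 := congrArg (viaEmbeddingHom ι) E3
  have F4 := congrArg (viaEmbeddingHom ι) E4
  simp only [map_mul, map_one, J2_via_swap, e0, e1, e2, e3, e4, e5] at F1 F2 F3 F4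
  refine HThree_mem hHNor u hu (swap a d * swap b e) (swap b e * swap c f)
    (HThree_even h3 h8) (HThree_even h8 h12) ?_ ?_ F2 F3 F4
  · rw [HThree_conj, ua, ub, ud, ue]
  · rw [HThree_conj, ub, ue, uc, uf, F1]

/-- Two cycles: two `3`-cycles in the group. -/
theorem HThree_W (hHNor : HNor) {n : ℕ} (u : alternatingGroup (Fin n)) (hu : u ^ 3 = 1)
    {a b c d e f : Fin n} (h1 : a ≠ b) (h2 : a ≠ c) (h3 : a ≠ d)
    (h4 : a ≠ e) (h5 : a ≠ f) (h6 : b ≠ c) (h7 : b ≠ d) (h8 : b ≠ e) (h9 : b ≠ f) (h10 : c ≠ d)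
    (h11 : c ≠ e) (h12 : c ≠ f) (h13 : d ≠ e) (h14 : d ≠ f) (h15 : e ≠ f)
    (ua : (u : Perm (Fin n)) a = b) (ub : (u : Perm (Fin n)) b = c)
    (uc : (u : Perm (Fin n)) c = a) (ud : (u : Perm (Fin n)) d = e)
    (ue : (u : Perm (Fin n)) e = f) (uf : (u : Perm (Fin n)) f = d) :
    swap a b * swap a c ∈ HThree_G u ∧ swap a b * swap a d ∈ HThree_G u := by
  have w1 := HThree_F2 hHNor u hu h1 h2 h3 h4 h5 h6 h7 h8 h9 h10 h11 h12 h13 h14 h15
    ua ub uc ud ue uf
  have w2 := HThree_F2 hHNor u hu h6 h1.symm h8 h9 h7 h2.symm h11 h12 h10 h4 h5 h3 h15 h13.symm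
    h14.symm ub uc ua ue uf ud
  have w3 := HThree_F2 hHNor u hu h2.symm h6.symm h12 h10 h11 h1 h5 h3 h4 h9 h7 h8 h14.symm
    h15.symm h13 uc ua ub uf ud ue
  have v1 := HThree_F2 hHNor u hu h1 h2 h4 h5 h3 h6 h8 h9 h7 h11 h12 h10 h15 h13.symm h14.symm
    ua ub uc ue uf ud
  have v2 := HThree_F2 hHNor u hu h6 h1.symm h9 h7 h8 h2.symm h12 h10 h11 h5 h3 h4 h14.symm
    h15.symm h13 ub uc ua uf ud ue
  have t3 := HThree_F2 hHNor u hu h2.symm h6.symm h11 h12 h10 h1 h4 h5 h3 h8 h9 h7 h15 h13.symm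
    h14.symm uc ua ub ue uf ud
  let ι : Fin 6 ↪ Fin n := J2_emb ![a, b, c, d, e, f]
    (HThree_inj6 h1 h2 h3 h4 h5 h6 h7 h8 h9 h10 h11 h12 h13 h14 h15)
  have e0 : ι 0 = a := rfl
  have e1 : ι 1 = b := rfl
  have e2 : ι 2 = c := rfl
  have e3 : ι 3 = d := rfl
  have e4 : ι 4 = e := rfl
  have e5 : ι 5 = f := rfl
  have E1 : (swap 0 1 * swap 0 2 : Perm (Fin 6)) = (swap 0 3 * swap 1 4) * (swap 0 4 * swap 1 5) *
    (swap 2 5 * swap 0 3) * (swap 2 4 * swap 0 5) * (swap 1 5 * swap 2 3) := by decide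
  have E2 : (swap 0 1 * swap 0 3 : Perm (Fin 6)) = (swap 1 4 * swap 2 5) * (swap 2 4 * swap 0 5) *
    (swap 0 3 * swap 1 4) * (swap 1 5 * swap 2 3) := by decide
  have F1 := congrArg (viaEmbeddingHom ι) E1
  have F2 := congrArg (viaEmbeddingHom ι) E2
  simp only [map_mul, J2_via_swap, e0, e1, e2, e3, e4, e5] at F1 F2
  constructor
  · rw [F1]
    exact mul_mem (mul_mem (mul_mem (mul_mem w1 v1) w3) t3) v2
  · rw [F2]
    exact mul_mem (mul_mem (mul_mem w2 t3) w1) v2

/-- The alternating group is generated by the products `(a b)(a d)`. -/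
theorem HThree_gen {n : ℕ} (H : Subgroup (Perm (Fin n))) (a b : Fin n) (hab : a ≠ b)
    (h : ∀ d, d ≠ a → d ≠ b → swap a b * swap a d ∈ H) : alternatingGroup (Fin n) ≤ H := by
  have h0 : ∀ d, d ≠ a → swap a b * swap a d ∈ H := by
    intro d hd
    by_cases hdb : d = b
    · rw [hdb, swap_mul_self]; exact one_mem H
    · exact h d hd hdb
  have h0' : ∀ d, d ≠ a → swap a d * swap a b ∈ H := by
    intro d hd
    have := inv_mem (h0 d hd)
    rwa [mul_inv_rev, swap_inv, swap_inv] at this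
  have h1 : ∀ d e, d ≠ a → e ≠ a → swap a d * swap a e ∈ H := by
    intro d e hd he
    have := mul_mem (h0' d hd) (h0 e he)
    have h2 : swap a d * swap a b * (swap a b * swap a e) = swap a d * swap a e := by
      rw [mul_assoc, ← mul_assoc (swap a b), swap_mul_self, one_mul]
    rwa [h2] at this
  have h2 : ∀ x y, x ≠ y → swap x y * swap a b ∈ H := by
    intro x y hxy
    by_cases hx : x = a
    · subst hx
      exact h1 y b hxy.symm hab.symm
    · by_cases hy : y = a
      · subst hy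
        rw [swap_comm]
        exact h1 x b hx hab.symm
      · have h3 : swap x y = swap a x * swap a y * swap a x := by
          have := swap_apply_apply (swap a x) a y
          rw [swap_apply_left, swap_apply_of_ne_of_ne hy hxy.symm, swap_inv] at this
          exact this
        rw [h3, mul_assoc]
        exact mul_mem (h1 x y hx hy) (h1 x b hx hab.symm)
  have h3 : ∀ x y, x ≠ y → swap a b * swap x y ∈ H := by
    intro x y hxy
    have := inv_mem (h2 x y hxy)
    rwa [mul_inv_rev, swap_inv, swap_inv] at this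
  have key : ∀ g : Perm (Fin n), (sign g = 1 → g ∈ H) ∧ (sign g = -1 → swap a b * g ∈ H) := by
    intro g
    induction g using swap_induction_on with
    | one =>
      refine ⟨fun _ => one_mem H, fun h => ?_⟩
      rw [Perm.sign_one] at h
      exact absurd h (by decide)
    | swap_mul g x y hxy ih =>
      constructor
      · intro hs
        have hs' : sign g = -1 := by
          rw [Perm.sign_mul, sign_swap hxy] at hs
          have := congrArg Neg.neg hs
          simpa using this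
        have h4 : swap x y * g = (swap x y * swap a b) * (swap a b * g) := by
          rw [mul_assoc, ← mul_assoc (swap a b), swap_mul_self, one_mul]
        rw [h4]
        exact mul_mem (h2 x y hxy) (ih.2 hs')
      · intro hs
        have hs' : sign g = 1 := by
          rw [Perm.sign_mul, sign_swap hxy] at hs
          have := congrArg Neg.neg hs
          simpa using this
        rw [← mul_assoc]
        exact mul_mem (h3 x y hxy) (ih.1 hs')
  intro g hg
  exact (key g).1 (mem_alternatingGroup.mp hg)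

theorem prf_HThree (hHNor : HNor) : HThree := by
  intro n _ u hu3
  have : Fact (Nat.Prime 3) := ⟨Nat.prime_three⟩
  have hu : u ^ 3 = 1 := by rw [← hu3, pow_orderOf_eq_one]
  have huP : (u : Perm (Fin n)) ^ 3 = 1 := by
    have := congrArg (Subtype.val) hu
    simpa using this
  have u3 : ∀ x, (u : Perm (Fin n)) ((u : Perm (Fin n)) ((u : Perm (Fin n)) x)) = x := by
    intro x
    have := congrArg (fun p : Perm (Fin n) => p x) huP
    simpa [pow_succ] using this
  have hu1 : (u : Perm (Fin n)) ≠ 1 := by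
    intro h
    have : u = 1 := Subtype.ext h
    rw [this, orderOf_one] at hu3
    omega
  obtain ⟨a, ha⟩ : ∃ a, (u : Perm (Fin n)) a ≠ a := by
    by_contra hcon
    push Not at hcon
    exact hu1 (Equiv.ext hcon)
  -- general facts about cycles
  have cyc : ∀ x, (u : Perm (Fin n)) x ≠ x →
      (u : Perm (Fin n)) ((u : Perm (Fin n)) x) ≠ (u : Perm (Fin n)) x ∧
      (u : Perm (Fin n)) ((u : Perm (Fin n)) x) ≠ x := by
    intro x hx
    refine ⟨fun h => hx ((u : Perm (Fin n)).injective h), fun h => hx ?_⟩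
    have h2 := u3 x
    rw [h] at h2
    exact h2
  obtain ⟨b, ub⟩ : ∃ b, (u : Perm (Fin n)) a = b := ⟨_, rfl⟩
  obtain ⟨c, uc⟩ : ∃ c, (u : Perm (Fin n)) b = c := ⟨_, rfl⟩
  have ua : (u : Perm (Fin n)) c = a := by rw [← uc, ← ub]; exact u3 a
  have hab : a ≠ b := by rw [← ub]; exact ha.symm
  have hbc : b ≠ c := by
    have := (cyc a ha).1
    rw [ub, uc] at this
    exact this.symm
  have hac : a ≠ c := by
    have := (cyc a ha).2
    rw [ub, uc] at this
    exact this.symm
  -- another cycle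
  have other : ∀ d, d ≠ a → d ≠ b → d ≠ c → (u : Perm (Fin n)) d ≠ d →
      swap a b * swap a c ∈ HThree_G u ∧ swap a b * swap a d ∈ HThree_G u := by
    intro d hda hdb hdc hd
    obtain ⟨e, ue⟩ : ∃ e, (u : Perm (Fin n)) d = e := ⟨_, rfl⟩
    obtain ⟨f, uf⟩ : ∃ f, (u : Perm (Fin n)) e = f := ⟨_, rfl⟩
    have ud : (u : Perm (Fin n)) f = d := by rw [← uf, ← ue]; exact u3 d
    have hde : d ≠ e := by rw [← ue]; exact hd.symm
    have hef : e ≠ f := by
      have := (cyc d hd).1
      rw [ue, uf] at this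
      exact this.symm
    have hdf : d ≠ f := by
      have := (cyc d hd).2
      rw [ue, uf] at this
      exact this.symm
    have inj := (u : Perm (Fin n)).injective
    have hea : e ≠ a := by
      intro h; apply hdc; apply inj; rw [ue, ua, h]
    have heb : e ≠ b := by
      intro h; apply hda; apply inj; rw [ue, ub, h]
    have hec : e ≠ c := by
      intro h; apply hdb; apply inj; rw [ue, uc, h]
    have hfa : f ≠ a := by
      intro h; apply hec; apply inj; rw [uf, ua, h]
    have hfb : f ≠ b := by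
      intro h; apply hea; apply inj; rw [uf, ub, h]
    have hfc : f ≠ c := by
      intro h; apply heb; apply inj; rw [uf, uc, h]
    exact HThree_W hHNor u hu hab hac hda.symm hea.symm hfa.symm hbc hdb.symm heb.symm hfb.symm
      hdc.symm hec.symm hfc.symm hde hdf hef ub uc ua ue uf ud
  have hP : IsPGroup 3 (Subgroup.zpowers u) := by
    intro g
    obtain ⟨g, hg⟩ := g
    obtain ⟨k, hk⟩ := Subgroup.mem_zpowers_iff.mp hg
    refine ⟨1, ?_⟩
    apply Subtype.ext
    simp only [pow_one, SubmonoidClass.mk_pow, OneMemClass.coe_one]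
    rw [← hk, ← zpow_natCast, ← zpow_mul, mul_comm, zpow_mul, zpow_natCast, hu, one_zpow]
  have huG : (u : Perm (Fin n)) ∈ HThree_G u :=
    ⟨u, (hHNor 3 _ (Subgroup.zpowers u) hP).1 (Subgroup.mem_zpowers u), rfl⟩
  have habc : swap a b * swap a c ∈ HThree_G u := by
    by_cases hex : ∃ d, d ≠ a ∧ d ≠ b ∧ d ≠ c ∧ (u : Perm (Fin n)) d ≠ d
    · obtain ⟨d, h1, h2, h3, h4⟩ := hex
      exact (other d h1 h2 h3 h4).1
    · push Not at hex
      have hu' : swap a b * swap a c = (u : Perm (Fin n))⁻¹ := by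
        rw [eq_inv_iff_mul_eq_one]
        ext x
        rw [Perm.mul_apply, Perm.mul_apply, Perm.one_apply]
        by_cases hxa : x = a
        · rw [hxa, ub, swap_apply_of_ne_of_ne hab.symm hbc, swap_apply_right]
        · by_cases hxb : x = b
          · rw [hxb, uc, swap_apply_right, swap_apply_left]
          · by_cases hxc : x = c
            · rw [hxc, ua, swap_apply_left, swap_apply_of_ne_of_ne hac.symm hbc.symm]
            · rw [hex x hxa hxb hxc, swap_apply_of_ne_of_ne hxa hxc,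
                swap_apply_of_ne_of_ne hxa hxb]
      rw [hu']
      exact inv_mem huG
  have hall : ∀ d, d ≠ a → d ≠ b → swap a b * swap a d ∈ HThree_G u := by
    intro d hda hdb
    by_cases hdc : d = c
    · rw [hdc]; exact habc
    · by_cases hd : (u : Perm (Fin n)) d = d
      · have hf := HThree_F1 hHNor u hu hab hac hda.symm hbc hdb.symm (Ne.symm hdc) ub uc ua hd
        -- conjugate
        have hc := mul_mem (mul_mem hf habc) (inv_mem hf)
        rw [HThree_conj] at hc
        have g1 : (swap a b * swap c d) a = b := by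
          rw [Perm.mul_apply, swap_apply_of_ne_of_ne hac hda.symm, swap_apply_left]
        have g2 : (swap a b * swap c d) b = a := by
          rw [Perm.mul_apply, swap_apply_of_ne_of_ne hbc hdb.symm, swap_apply_right]
        have g3 : (swap a b * swap c d) c = d := by
          rw [Perm.mul_apply, swap_apply_left, swap_apply_of_ne_of_ne hda hdb]
        rw [g1, g2, g3] at hc
        -- hc : swap b a * swap b d
        have h5 := inv_mem hc
        rw [mul_inv_rev, swap_inv, swap_inv] at h5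
        -- swap b d * swap b a = swap a b * swap a d
        have h6 : swap a b * swap a d = swap b d * swap b a := by
          have := swap_apply_apply (swap a b) a d
          rw [swap_apply_left, swap_apply_of_ne_of_ne hda hdb, swap_inv] at this
          rw [this, swap_comm b a, mul_assoc, mul_assoc, swap_mul_self, mul_one]
        rw [h6]
        exact h5
      · exact (other d hda hdb hdc hd).2
  have halt := HThree_gen (HThree_G u) a b hab hall
  rw [eq_top_iff]
  intro g _
  obtain ⟨g', hg', hgg⟩ := halt g.2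
  have : g' = g := Subtype.ext hgg
  rwa [← this]

end MP7b0bad

end

section

set_option autoImplicit false

namespace MP7b0bad

open Polynomial

theorem YAdj_ps_nonneg {k : Type} [Field k] (w : PowerSeries k) :
    0 ≤ (HahnSeries.ofPowerSeries ℤ k w).order := by
  by_contra hlt
  push Not at hlt
  have h0 : HahnSeries.ofPowerSeries ℤ k w ≠ 0 := by
    intro h
    rw [h, HahnSeries.order_zero] at hlt
    exact lt_irrefl _ hlt
  apply HahnSeries.coeff_order_eq_zero.not.2 h0
  have h := PowerSeries.coeff_coe (R := k) w (HahnSeries.ofPowerSeries ℤ k w).order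
  rw [if_pos hlt] at h
  exact h

theorem YAdj_ps_unit {k : Type} [Field k] (w : PowerSeries k)
    (hw : PowerSeries.constantCoeff w ≠ 0) :
    HahnSeries.ofPowerSeries ℤ k w ≠ 0 ∧ (HahnSeries.ofPowerSeries ℤ k w).order = 0 := by
  obtain ⟨v, hv⟩ : ∃ v : PowerSeries k, w * v = 1 := by
    have h : IsUnit w := PowerSeries.isUnit_iff_constantCoeff.2 (isUnit_iff_ne_zero.2 hw)
    exact h.exists_right_inv
  have h1 : HahnSeries.ofPowerSeries ℤ k w * HahnSeries.ofPowerSeries ℤ k v = 1 := by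
    rw [← map_mul, hv, map_one]
  have h2 : HahnSeries.ofPowerSeries ℤ k w ≠ 0 := left_ne_zero_of_mul_eq_one h1
  have h3 : HahnSeries.ofPowerSeries ℤ k v ≠ 0 := right_ne_zero_of_mul_eq_one h1
  have h4 := HahnSeries.order_mul h2 h3
  rw [h1, HahnSeries.order_one] at h4
  have h5 := YAdj_ps_nonneg w
  have h6 := YAdj_ps_nonneg v
  exact ⟨h2, by omega⟩

/-- `β` has nonnegative order at all but finitely many points -/
theorem YAdj_nonneg {k : Type} [Field k] (p M : ℕ) [Fact p.Prime] (G : Type) [Group G] [Finite G]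
    (i : G →* Multiplicative (ZMod p)) (L : Type) [Field L] [Algebra (RatFunc k) L]
    [MulSemiringAction G L] (y : L) (hT : YTow k p M G i L y) (β : L) :
    ∃ D : k[X], D ≠ 0 ∧ ∀ y0 : k, D.eval (y0 ^ p - y0) ≠ 0 → ∀ j : L →+* LaurentSeries k,
      YEmb y (HahnSeries.C y0 + HahnSeries.single (1 : ℤ) (1 : k)) j → 0 ≤ (j β).order := by
  have hfin := gal_finite hT.gal
  set f : k[X] →+* L := (algebraMap (RatFunc k) L).comp (algebraMap k[X] (RatFunc k)) with hf
  letI : Algebra k[X] L := f.toAlgebra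
  haveI : IsScalarTower k[X] (RatFunc k) L := IsScalarTower.of_algebraMap_eq (fun x => rfl)
  have h1 : IsAlgebraic (RatFunc k) β := IsAlgebraic.of_finite (RatFunc k) β
  have h2 : IsAlgebraic k[X] β := (IsFractionRing.isAlgebraic_iff k[X] (RatFunc k) L).2 h1
  obtain ⟨D, hD, hint⟩ := h2.exists_integral_multiple
  have hint' : f.IsIntegralElem (f D * β) := by
    rw [Algebra.smul_def] at hint
    exact hint
  refine ⟨D, hD, fun y0 hy0 j hj => ?_⟩
  set u' : PowerSeries k := PowerSeries.C y0 + PowerSeries.X with hu'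
  have hcoe : HahnSeries.ofPowerSeries ℤ k u' =
      HahnSeries.C y0 + HahnSeries.single (1 : ℤ) (1 : k) := by
    rw [hu', map_add, HahnSeries.ofPowerSeries_C, HahnSeries.ofPowerSeries_X]
  set g : k[X] →+* PowerSeries k := eval₂RingHom (PowerSeries.C : k →+* PowerSeries k)
    (u' ^ p - u') with hg
  have hjf : j.comp f = (HahnSeries.ofPowerSeries ℤ k).comp g := by
    apply Polynomial.ringHom_ext
    · intro a
      rw [RingHom.comp_apply, hf, RingHom.comp_apply, RatFunc.algebraMap_C, hj.1,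
        RingHom.comp_apply, hg, coe_eval₂RingHom, eval₂_C, HahnSeries.ofPowerSeries_C]
    · rw [RingHom.comp_apply, hf, RingHom.comp_apply, RatFunc.algebraMap_X, ← hT.as,
        map_sub, map_pow, hj.2, RingHom.comp_apply, hg, coe_eval₂RingHom, eval₂_X,
        map_sub, map_pow, hcoe]
  have h3 : (j.comp f).IsIntegralElem (j (f D * β)) := hint'.map j
  rw [hjf] at h3
  have h4 : IsIntegral (PowerSeries k) (j (f D * β)) := by
    obtain ⟨q, hq, hq2⟩ := h3
    refine ⟨q.map g, hq.map g, ?_⟩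
    rw [eval₂_map]
    exact hq2
  obtain ⟨w, hw⟩ := (IsIntegrallyClosed.isIntegral_iff (R := PowerSeries k)
    (K := LaurentSeries k)).1 h4
  have h5 : PowerSeries.constantCoeff (g D) ≠ 0 := by
    have h6 : PowerSeries.constantCoeff (g D) = D.eval (y0 ^ p - y0) := by
      rw [hg, coe_eval₂RingHom, hom_eval₂]
      have h7 : (PowerSeries.constantCoeff (R := k)).comp (PowerSeries.C : k →+* PowerSeries k) =
          RingHom.id k := by
        ext a
        simp
      rw [h7, hu']
      simp [eval₂_id]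
    rw [h6]
    exact hy0
  obtain ⟨h8, h9⟩ := YAdj_ps_unit (g D) h5
  have h10 : j (f D) = HahnSeries.ofPowerSeries ℤ k (g D) := by
    have := congrArg (fun F => F D) hjf
    exact this
  by_cases hβ : j β = 0
  · rw [hβ, HahnSeries.order_zero]
  · have h11 : (j (f D * β)).order = (j β).order := by
      rw [map_mul, h10, HahnSeries.order_mul h8 hβ, h9, zero_add]
    rw [← h11, ← hw, LaurentSeries.coe_algebraMap]
    exact YAdj_ps_nonneg w

/-- `α` has order zero at all but finitely many points -/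
theorem YAdj_zero {k : Type} [Field k] (p M : ℕ) [Fact p.Prime] (G : Type) [Group G] [Finite G]
    (i : G →* Multiplicative (ZMod p)) (L : Type) [Field L] [Algebra (RatFunc k) L]
    [MulSemiringAction G L] (y : L) (hT : YTow k p M G i L y) (α : L) (hα : α ≠ 0) :
    ∃ d : k[X], d ≠ 0 ∧ ∀ y0 : k, d.eval y0 ≠ 0 → ∀ j : L →+* LaurentSeries k,
      YEmb y (HahnSeries.C y0 + HahnSeries.single (1 : ℤ) (1 : k)) j → (j α).order = 0 := by
  obtain ⟨D1, hD1, h1⟩ := YAdj_nonneg p M G i L y hT α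
  obtain ⟨D2, hD2, h2⟩ := YAdj_nonneg p M G i L y hT α⁻¹
  have hpp := (Fact.out : p.Prime)
  have hcomp : ∀ D : k[X], D ≠ 0 → D.comp (X ^ p - X) ≠ 0 := by
    intro D hD h
    rw [comp_eq_zero_iff] at h
    rcases h with h | ⟨-, h⟩
    · exact hD h
    · have h3 := congrArg (fun q => coeff q p) h
      have hp1 : 1 < p := hpp.one_lt
      simp only [coeff_sub, coeff_X_pow, coeff_X, coeff_C, if_true] at h3
      rw [if_neg (by omega), if_neg (by omega)] at h3
      simp at h3
  refine ⟨(D1 * D2).comp (X ^ p - X), hcomp _ (mul_ne_zero hD1 hD2), fun y0 hy0 j hj => ?_⟩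
  rw [eval_comp, eval_sub, eval_pow, eval_X, eval_mul] at hy0
  have h3 := h1 y0 (left_ne_zero_of_mul hy0) j hj
  have h4 := h2 y0 (right_ne_zero_of_mul hy0) j hj
  have h5 : j α ≠ 0 := (map_ne_zero j).2 hα
  have h6 : j α⁻¹ ≠ 0 := (map_ne_zero j).2 (inv_ne_zero hα)
  have h7 := HahnSeries.order_mul h5 h6
  rw [← map_mul, mul_inv_cancel₀ hα, map_one, HahnSeries.order_one] at h7
  omega

theorem YAdj_lin {k : Type} [Field k] [DecidableEq k] (a : k) :
    (HahnSeries.C a + HahnSeries.single (1 : ℤ) (1 : k) : LaurentSeries k) ≠ 0 ∧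
    (HahnSeries.C a + HahnSeries.single (1 : ℤ) (1 : k) : LaurentSeries k).order =
      if a = 0 then 1 else 0 := by
  split_ifs with h
  · rw [h, map_zero, zero_add]
    exact ⟨HahnSeries.single_ne_zero one_ne_zero, HahnSeries.order_single one_ne_zero⟩
  · have h1 : (HahnSeries.C a + HahnSeries.single (1 : ℤ) (1 : k) : LaurentSeries k) =
        HahnSeries.ofPowerSeries ℤ k (PowerSeries.C a + PowerSeries.X) := by
      rw [map_add, HahnSeries.ofPowerSeries_C, HahnSeries.ofPowerSeries_X]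
    rw [h1]
    apply YAdj_ps_unit
    simpa using h

theorem YAdj_prod {k : Type} [Field k] (y1 : k) (n : k → ℕ) (S : Finset k) [DecidableEq k] :
    (∏ a ∈ S, ((HahnSeries.C y1 + HahnSeries.single (1 : ℤ) (1 : k) : LaurentSeries k) -
      HahnSeries.C a) ^ (n a)) ≠ 0 ∧
    (∏ a ∈ S, ((HahnSeries.C y1 + HahnSeries.single (1 : ℤ) (1 : k) : LaurentSeries k) -
      HahnSeries.C a) ^ (n a)).order = if y1 ∈ S then (n y1 : ℤ) else 0 := by
  have hl : ∀ a : k, (HahnSeries.C y1 + HahnSeries.single (1 : ℤ) (1 : k) : LaurentSeries k) -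
      HahnSeries.C a = HahnSeries.C (y1 - a) + HahnSeries.single (1 : ℤ) (1 : k) := by
    intro a
    rw [map_sub]
    ring
  induction S using Finset.induction_on with
  | empty => simp
  | insert a S ha ih =>
    rw [Finset.prod_insert ha, hl]
    obtain ⟨h1, h2⟩ := YAdj_lin (y1 - a)
    refine ⟨mul_ne_zero (pow_ne_zero _ h1) ih.1, ?_⟩
    rw [HahnSeries.order_mul (pow_ne_zero _ h1) ih.1, HahnSeries.order_pow, h2, ih.2]
    by_cases h3 : y1 = a
    · subst h3
      simp [ha]
    · have h4 : y1 - a ≠ 0 := sub_ne_zero.2 h3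
      simp [h3, h4]

theorem prf_YAdj (hYConj : YConj) : YAdj := by
  classical
  intro k _ _ p M r _ _ G _ _ i L _ _ _ y hT hr α hα hb
  obtain ⟨d, hd, hd0⟩ := YAdj_zero p M G i L y hT α hα
  -- the order modulo r
  have hmod : ∀ y0 : k, ∃ n : ℕ, ∀ j : L →+* LaurentSeries k,
      YEmb y (HahnSeries.C y0 + HahnSeries.single (1 : ℤ) (1 : k)) j →
      (r : ℤ) ∣ (n : ℤ) + (j α).order := by
    intro y0
    by_cases hex : ∃ j0 : L →+* LaurentSeries k,
        YEmb y (HahnSeries.C y0 + HahnSeries.single (1 : ℤ) (1 : k)) j0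
    · obtain ⟨j0, hj0⟩ := hex
      have hr' : (0 : ℤ) < r := by exact_mod_cast hr
      refine ⟨((-(j0 α).order) % (r : ℤ)).toNat, fun j hj => ?_⟩
      rw [Int.toNat_of_nonneg (Int.emod_nonneg _ hr'.ne')]
      obtain ⟨a, ha, hja⟩ := hYConj k p M G i L y hT _ j0 j hj0 hj
      obtain ⟨b, hb'⟩ := hb a ha
      have hb0 : b ≠ 0 := by
        rintro rfl
        rw [zero_pow hr.ne', zero_mul] at hb'
        apply hα
        have h1 := congrArg (fun x => a⁻¹ • x) hb'
        simpa using h1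
      have h2 : (j α).order = r * (j0 b).order + (j0 α).order := by
        rw [hja, hb', map_mul, map_pow, HahnSeries.order_mul
          (pow_ne_zero _ ((map_ne_zero j0).2 hb0)) ((map_ne_zero j0).2 hα), HahnSeries.order_pow,
          nsmul_eq_mul]
      rw [h2]
      have h3 := Int.emod_add_mul_ediv (-(j0 α).order) (r : ℤ)
      refine ⟨(j0 b).order - (-(j0 α).order) / (r : ℤ), ?_⟩
      linear_combination h3
    · exact ⟨0, fun j hj => (hex ⟨j, hj⟩).elim⟩
  choose n hn using hmod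
  set S : Finset k := d.roots.toFinset.filter (fun y0 => y0 ^ p - y0 ≠ 0) with hS
  refine ⟨∏ a ∈ S, (X - C a) ^ (n a), ?_, fun y1 hy1 j hj => ?_⟩
  · exact Finset.prod_ne_zero_iff.2 fun a _ => pow_ne_zero _ (X_sub_C_ne_zero a)
  · have h1 : j ((∏ a ∈ S, (X - C a) ^ (n a)).eval₂
        ((algebraMap (RatFunc k) L).comp RatFunc.C) y) =
        ∏ a ∈ S, ((HahnSeries.C y1 + HahnSeries.single (1 : ℤ) (1 : k) : LaurentSeries k) -
          HahnSeries.C a) ^ (n a) := by
      rw [eval₂_finset_prod, map_prod]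
      refine Finset.prod_congr rfl fun a _ => ?_
      rw [eval₂_pow, eval₂_sub, eval₂_X, eval₂_C, map_pow, map_sub, hj.2, RingHom.comp_apply,
        hj.1]
    obtain ⟨h2, h3⟩ := YAdj_prod y1 n S
    rw [map_mul, h1, HahnSeries.order_mul ((map_ne_zero j).2 hα) h2, h3]
    split_ifs with h4
    · rw [add_comm]
      exact hn y1 j hj
    · have h5 : d.eval y1 ≠ 0 := by
        intro h6
        apply h4
        rw [hS, Finset.mem_filter, Multiset.mem_toFinset, mem_roots hd]
        exact ⟨h6, hy1⟩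
      rw [hd0 y1 h5 j hj]
      simp

end MP7b0bad

end

section

/-!
# The first step of the tower
-/

set_option autoImplicit false

namespace MP7b0bad

open Polynomial

/-- nontrivial characters of elementary abelian groups -/
theorem YBase_char (k : Type) [Field k] [IsAlgClosed k] (p r : ℕ) [Fact p.Prime] [CharP k p]
    (hr : r.Prime) (hne : r ≠ p) (A : Type) [Group A] [Finite A] (hc : ∀ a b : A, a * b = b * a)
    (he : ∀ a : A, a ^ r = 1) (hA : ∃ a : A, a ≠ 1) : ∃ χ : A →* kˣ, χ ≠ 1 := by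
  let cg : CommGroup A := { (inferInstance : Group A) with mul_comm := hc }
  obtain ⟨a, ha⟩ := hA
  have h1 : Monoid.exponent A ∣ r := Monoid.exponent_dvd_of_forall_pow_eq_one he
  have h2 : (r : k) ≠ 0 := by
    intro h
    rw [CharP.cast_eq_zero_iff k p] at h
    exact hne ((Nat.prime_dvd_prime_iff_eq (Fact.out : p.Prime) hr).1 h).symm
  have : NeZero (r : k) := ⟨h2⟩
  have : NeZero r := ⟨hr.ne_zero⟩
  have : HasEnoughRootsOfUnity k r := inferInstance
  have : HasEnoughRootsOfUnity k (Monoid.exponent A) := HasEnoughRootsOfUnity.of_dvd k h1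
  obtain ⟨χ, hχ⟩ := CommGroup.exists_apply_ne_one_of_hasEnoughRootsOfUnity A k ha
  exact ⟨χ, fun h => hχ (by rw [h]; rfl)⟩

/-- order of a product of Laurent series -/
theorem YBase_order (k : Type) [Field k] {ι : Type} (s : Finset ι) (f : ι → LaurentSeries k)
    (e : ι → ℕ) (hf : ∀ c ∈ s, f c ≠ 0) :
    (∏ c ∈ s, f c ^ e c) ≠ 0 ∧
    (∏ c ∈ s, f c ^ e c).order = ∑ c ∈ s, (e c : ℤ) * (f c).order := by
  classical
  induction s using Finset.induction_on with
  | empty => simp
  | insert a s ha ih =>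
    obtain ⟨h1, h2⟩ := ih fun c hc => hf c (Finset.mem_insert_of_mem hc)
    have h3 : f a ^ e a ≠ 0 := pow_ne_zero _ (hf a (Finset.mem_insert_self a s))
    rw [Finset.prod_insert ha, Finset.sum_insert ha]
    refine ⟨mul_ne_zero h3 h1, ?_⟩
    rw [HahnSeries.order_mul h3 h1, h2, HahnSeries.order_pow, nsmul_eq_mul]

/-- order of `c + s` -/
theorem YBase_ordC (k : Type) [Field k] (c : k) (hc : c ≠ 0) :
    (HahnSeries.C c + HahnSeries.single (1 : ℤ) (1 : k) : LaurentSeries k) ≠ 0 ∧
    (HahnSeries.C c + HahnSeries.single (1 : ℤ) (1 : k) : LaurentSeries k).order = 0 := by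
  have h0 : (HahnSeries.C c + HahnSeries.single (1 : ℤ) (1 : k) : LaurentSeries k).coeff 0 = c := by
    rw [HahnSeries.coeff_add, HahnSeries.coeff_single_of_ne (by norm_num), add_zero]
    simp [HahnSeries.C_apply]
  have h1 : (HahnSeries.C c + HahnSeries.single (1 : ℤ) (1 : k) : LaurentSeries k) ≠ 0 := by
    intro h
    rw [h, HahnSeries.coeff_zero] at h0
    exact hc h0.symm
  refine ⟨h1, le_antisymm (HahnSeries.order_le_of_coeff_ne_zero (by rw [h0]; exact hc)) ?_⟩
  by_contra h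
  push Not at h
  have h2 := mt HahnSeries.coeff_order_eq_zero.1 h1
  have h3 : ∀ n : ℤ, n < 0 →
      (HahnSeries.C c + HahnSeries.single (1 : ℤ) (1 : k) : LaurentSeries k).coeff n = 0 := by
    intro n hn
    rw [HahnSeries.coeff_add, HahnSeries.coeff_single_of_ne (by omega), add_zero,
      HahnSeries.C_apply, HahnSeries.coeff_single_of_ne (by omega)]
  exact h2 (h3 _ h)

/-- the Kummer equation has no solution over the bottom field -/
theorem YBase_contra (hYTrans : YTrans) (k : Type) [Field k] (p r : ℕ) [Fact p.Prime] [CharP k p]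
    (Q : Type) [Group Q] (i : Q →* Multiplicative (ZMod p)) (hi : Function.Surjective i)
    (L : Type) [Field L] [Algebra (RatFunc k) L] [MulSemiringAction Q L] (y : L)
    (hT : YTow k p 1 Q i L y) (e : ZMod p → ℕ) (c0 : ZMod p) (hc0 : ¬ r ∣ e c0) (β : L)
    (hβ : β ^ r = ∏ c : ZMod p, (y + ((c.val : ℕ) : L)) ^ e c) : False := by
  obtain ⟨j, hj⟩ := hT.loc0
  obtain ⟨g, hg⟩ := hi (Multiplicative.ofAdd (-c0))
  have hj' := hYTrans k p 1 Q i L y hT _ j g hj
  set j' := j.comp (MulSemiringAction.toRingHom Q L g) with hj'def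
  have h1 : ((((Multiplicative.toAdd (i g)).val : ℕ) : k)) = -((c0.val : ℕ) : k) := by
    rw [hg, toAdd_ofAdd]
    have h2 : (((-c0).val + c0.val : ℕ) : k) = 0 := by
      rw [CharP.cast_eq_zero_iff k p, ← ZMod.natCast_eq_zero_iff]
      push_cast
      rw [ZMod.natCast_zmod_val, ZMod.natCast_zmod_val, neg_add_cancel]
    push_cast at h2
    exact eq_neg_of_add_eq_zero_left h2
  have h2 : ∀ c : ZMod p, j' (y + ((c.val : ℕ) : L)) =
      HahnSeries.C (((c.val : ℕ) : k) - ((c0.val : ℕ) : k)) + HahnSeries.single (1 : ℤ) (1 : k) := by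
    intro c
    rw [map_add, map_natCast, hj'.2, h1]
    rw [map_sub, map_neg, map_natCast, map_natCast]
    norm_num
    ring
  have h3 : ∀ c : ZMod p, c ≠ c0 → (((c.val : ℕ) : k) - ((c0.val : ℕ) : k)) ≠ 0 := by
    intro c hc h
    apply hc
    have h4 : ((c.val : ℕ) : k) = ((c0.val : ℕ) : k) := sub_eq_zero.1 h
    rw [ZMod.natCast_val, ZMod.natCast_val] at h4
    exact (ZMod.castHom (dvd_refl p) k).injective h4
  have h4 := congrArg (fun x => (j' x).order) hβ
  simp only [map_pow, map_prod] at h4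
  have h5 : ∀ c : ZMod p, j' (y + ((c.val : ℕ) : L)) ≠ 0 ∧
      (j' (y + ((c.val : ℕ) : L))).order = if c = c0 then 1 else 0 := by
    intro c
    rw [h2]
    split_ifs with hc
    · subst hc
      rw [sub_self, map_zero, zero_add]
      exact ⟨HahnSeries.single_ne_zero one_ne_zero, HahnSeries.order_single one_ne_zero⟩
    · exact YBase_ordC k _ (h3 c hc)
  obtain ⟨-, h6⟩ := YBase_order k Finset.univ (fun c : ZMod p => j' (y + ((c.val : ℕ) : L))) e
    fun c _ => (h5 c).1
  rw [h6, HahnSeries.order_pow, nsmul_eq_mul] at h4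
  have h7 : ∑ c : ZMod p, (e c : ℤ) * (j' (y + ((c.val : ℕ) : L))).order = e c0 := by
    rw [Finset.sum_eq_single c0]
    · rw [(h5 c0).2, if_pos rfl, mul_one]
    · intro c _ hc
      rw [(h5 c).2, if_neg hc, mul_zero]
    · intro h
      exact absurd (Finset.mem_univ _) h
  rw [h7] at h4
  apply hc0
  have h8 : (r : ℤ) ∣ (e c0 : ℤ) := ⟨_, h4.symm⟩
  exact_mod_cast h8

/-- the bottom field is the residue field of the Kummer algebra if the decomposition group is
a complement -/
theorem YBase_bij (F : Type) [Field F] (G : Type) [Group G] [Finite G] (N G₀ : Subgroup G)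
    [N.Normal] (h0 : G₀ ⊓ N = ⊥) (h1 : N ⊔ G₀ = ⊤) (L : Type) [Field L] [Algebra F L]
    [MulSemiringAction (G ⧸ N) L] (hL : GalAlg F (G ⧸ N) L) (E : Type) [Field E] [Algebra F E]
    [MulSemiringAction G₀ E] (hE : GalAlg F G₀ E) (l : L →+* E)
    (hl : ∀ a, l (algebraMap F L a) = algebraMap F E a)
    (hl' : ∀ (g : G₀) (x : L), l ((QuotientGroup.mk (g : G) : G ⧸ N) • x) = g • l x) :
    Function.Bijective l := by
  let act : MulSemiringAction G₀ L :=
    MulSemiringAction.compHom L ((QuotientGroup.mk' N).comp G₀.subtype)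
  have hact : ∀ (g : G₀) (x : L), g • x = (QuotientGroup.mk (g : G) : G ⧸ N) • x :=
    fun g x => rfl
  have hg : GalAlg F G₀ L := by
    refine ⟨fun g a => ?_, hL.inj, fun b hb => ?_, fun σ hσ => ?_⟩
    · rw [hact]
      exact hL.comm _ a
    · refine hL.inv b fun q => ?_
      obtain ⟨g, rfl⟩ := QuotientGroup.mk_surjective q
      have h2 : g ∈ N ⊔ G₀ := by rw [h1]; exact Subgroup.mem_top g
      obtain ⟨n, hn, g0, hg0, rfl⟩ := Subgroup.mem_sup_of_normal_left.1 h2
      have h3 : (QuotientGroup.mk (n * g0) : G ⧸ N) = QuotientGroup.mk g0 := by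
        rw [QuotientGroup.mk_mul, (QuotientGroup.eq_one_iff n).2 hn, one_mul]
      rw [h3]
      exact hb ⟨g0, hg0⟩
    · have h2 : (QuotientGroup.mk (σ : G) : G ⧸ N) ≠ 1 := by
        intro h
        apply hσ
        have h3 : (σ : G) ∈ G₀ ⊓ N := ⟨σ.2, (QuotientGroup.eq_one_iff _).1 h⟩
        rw [h0, Subgroup.mem_bot] at h3
        exact Subtype.ext h3
      exact hL.unr _ h2
  exact gal_hom_bijective hg hE l hl fun g x => by rw [hact, hl']

/-- the intersection of a normal abelian subgroup with a supplement is normal -/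
theorem YBase_normal (G : Type) [Group G] (N G₀ : Subgroup G) [N.Normal]
    (hc : ∀ n ∈ N, ∀ a ∈ N, n * a = a * n) (h1 : N ⊔ G₀ = ⊤) : (G₀ ⊓ N).Normal := by
  refine ⟨fun x hx g => ?_⟩
  have h2 : g ∈ N ⊔ G₀ := by rw [h1]; exact Subgroup.mem_top g
  obtain ⟨n, hn, g0, hg0, rfl⟩ := Subgroup.mem_sup_of_normal_left.1 h2
  have h3 : g0 * x * g0⁻¹ ∈ G₀ ⊓ N :=
    ⟨G₀.mul_mem (G₀.mul_mem hg0 hx.1) (G₀.inv_mem hg0), Subgroup.Normal.conj_mem inferInstance x hx.2 g0⟩
  have h4 : n * g0 * x * (n * g0)⁻¹ = g0 * x * g0⁻¹ := by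
    calc n * g0 * x * (n * g0)⁻¹ = n * (g0 * x * g0⁻¹) * n⁻¹ := by group
      _ = (g0 * x * g0⁻¹) * n * n⁻¹ := by rw [hc n hn _ h3.2]
      _ = g0 * x * g0⁻¹ := by group
  rw [h4]
  exact h3

theorem prf_YBase (hYL0 : YL0) (hYIso : YIso) (hYGrp : YGrp) (hYKum : YKum) (hYComp : YComp)
    (hYStp : YStp) (hYTrans : YTrans) : YBase := by
  intro k _ _ p r _ _ G _ _ A t hB i hA hit
  subst hA
  obtain ⟨hcomm, hexp, hmin⟩ := (hYGrp p r G i.ker ⊥ t hB).2.2 rfl
  have hr := hB.rprime
  have hne := hB.ne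
  have htp : t ^ p = 1 := by
    rw [← hB.ord]
    exact pow_orderOf_eq_one t
  have hNb : i.ker ≠ ⊥ := hB.lt.ne'
  have hsurj : Function.Surjective i := by
    intro c
    refine ⟨t ^ (Multiplicative.toAdd c).val, ?_⟩
    rw [map_pow, hit, ← ofAdd_nsmul, nsmul_one, ZMod.natCast_zmod_val]
    rfl
  obtain ⟨L, iF, iA, iM, y, hT⟩ := hYL0 k p
  obtain ⟨act, hT'⟩ := hYIso k p 1 (Multiplicative (ZMod p)) (G ⧸ i.ker)
    (QuotientGroup.quotientKerEquivOfSurjective i hsurj) (MonoidHom.id _) L y hT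
  have hi' : (MonoidHom.id _).comp
      (QuotientGroup.quotientKerEquivOfSurjective i hsurj).toMonoidHom =
      QuotientGroup.lift i.ker i le_rfl := by
    ext g
    rfl
  rw [hi'] at hT'
  have hy : y ≠ 0 := by
    intro h
    have h1 := hT'.as
    rw [h, zero_pow (Fact.out : p.Prime).ne_zero, sub_zero] at h1
    have h2 := hT'.gal.inj (a₁ := 0) (a₂ := RatFunc.X) (by rw [map_zero]; exact h1)
    exact RatFunc.X_ne_zero h2.symm
  have hmk : ∀ g : i.ker, (QuotientGroup.mk (g : G) : G ⧸ i.ker) = 1 :=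
    fun g => (QuotientGroup.eq_one_iff _).2 g.2
  obtain ⟨χ, hχ⟩ := YBase_char k p r hr hne i.ker
    (fun a b => Subtype.ext (hcomm a a.2 b b.2)) (fun a => Subtype.ext (hexp a a.2)) (by
      by_contra h
      push Not at h
      apply hNb
      rw [eq_bot_iff]
      intro x hx
      have := h ⟨x, hx⟩
      exact congrArg Subtype.val this)
  set φ : i.ker → Lˣ := fun a =>
    Units.map ((algebraMap (RatFunc k) L).comp RatFunc.C).toMonoidHom (χ a) with hφdef
  have hφv : ∀ a : i.ker, ((φ a : Lˣ) : L) =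
      algebraMap (RatFunc k) L (RatFunc.C ((χ a : kˣ) : k)) := fun a => rfl
  obtain ⟨L', iR', iA', iM', ι, hgal, hιinj, hιalg, hιact, hfix, hfac, e, β, ⟨c0, hc0⟩, hβ⟩ :=
    hYKum k p r hr hne G i t hit htp i.ker le_rfl hNb hcomm hexp hmin L hT'.gal χ hχ φ
    (fun g h => by
      rw [hmk, one_smul, hφv, hφv, hφv, map_mul, Units.val_mul, map_mul, map_mul])
    (fun n n' h => by
      rw [hφv, Subtype.ext h])
    (Units.mk0 y hy) (fun a => by
      rw [hmk, one_smul, hφv, ← map_pow, ← map_pow, ← Units.val_pow_eq_pow_val, ← map_pow]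
      have h1 : a ^ r = 1 := Subtype.ext (hexp a a.2)
      rw [h1, map_one, Units.val_one, map_one, map_one, one_mul])
  have hnt : Nontrivial L' := ⟨⟨ι 0, ι 1, fun h => zero_ne_one (hιinj h)⟩⟩
  obtain ⟨𝔪, h𝔪⟩ := Ideal.exists_maximal L'
  obtain ⟨G₀, E, iE, iAE, iME, π, hG₀, hgalE, hπs, hπ0, hπalg, hπact, -, -, htop, -, hsup⟩ :=
    hYComp (RatFunc k) G L' hgal 𝔪 h𝔪.isPrime
  have hs : i.ker ⊔ G₀ = ⊤ := by
    refine hsup i.ker inferInstance fun x x' hx hx' h0 => ?_
    obtain ⟨z, rfl⟩ := hfix x hx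
    obtain ⟨z', rfl⟩ := hfix x' hx'
    rw [← map_mul] at h0
    have h1 : z * z' = 0 := hιinj (by rw [h0, map_zero])
    rcases mul_eq_zero.1 h1 with h | h
    · left; rw [h, map_zero]
    · right; rw [h, map_zero]
  have hKn := YBase_normal G i.ker G₀ hcomm hs
  rcases hmin _ hKn inf_le_right with hK | hK
  · exfalso
    have hbij := YBase_bij (RatFunc k) G i.ker G₀ hK hs L hT'.gal E hgalE (π.comp ι)
      (fun a => by rw [RingHom.comp_apply, hιalg, hπalg])
      (fun g x => by rw [RingHom.comp_apply, RingHom.comp_apply, ← hπact, hιact])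
    obtain ⟨β', hβ'⟩ := hbij.2 (π β)
    refine YBase_contra hYTrans k p r (G ⧸ i.ker) (QuotientGroup.lift i.ker i le_rfl)
      (fun c => by
        obtain ⟨g, hg⟩ := hsurj c
        exact ⟨QuotientGroup.mk g, by rw [← hg]; rfl⟩) L y hT' e c0 hc0 β' (hbij.1 ?_)
    rw [map_pow, hβ', ← map_pow, hβ, RingHom.comp_apply]
    congr 2
    refine Finset.prod_congr rfl fun c _ => ?_
    have h3 : (QuotientGroup.lift i.ker i le_rfl) (QuotientGroup.mk (t ^ c.val) : G ⧸ i.ker) =
        Multiplicative.ofAdd c := by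
      change i (t ^ c.val) = _
      rw [map_pow, hit, ← ofAdd_nsmul, nsmul_one, ZMod.natCast_zmod_val]
    rw [Units.val_mk0, hT'.tr, h3, toAdd_ofAdd]
  · have hG : G₀ = ⊤ := by
      have h1 : i.ker ≤ G₀ := by rw [← hK]; exact inf_le_left
      rw [← hs, sup_eq_right.2 h1]
    have hF := (htop hG).1
    have h2 := @hYStp k _ _ p 1 r _ _ hr hne one_pos G _ _ i t hit htp i.ker _ le_rfl hcomm hexp
      hmin L _ _ _ y hT' L' hF.toField iA' iM' ι hgal hιalg hιact y hy hfac
      (fun y0 hy0 j hj => by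
        have hy1 : y0 ≠ 0 := by
          rintro rfl
          apply hy0
          rw [zero_pow (Fact.out : p.Prime).ne_zero, sub_zero]
        rw [hj.2, (YBase_ordC k y0 hy1).2]
        exact dvd_zero _)
    rw [mul_one] at h2
    exact ⟨L', hF.toField, iA', iM', ι y, h2⟩

end MP7b0bad

end

section

set_option autoImplicit false

namespace MP7b0bad

open Polynomial

/-- `X ↦ X ^ M` does not kill nonzero polynomials -/
theorem YBlk_eval (k : Type) [Field k] (M : ℕ) (hM : 0 < M) (f : k[X]) (hf : f ≠ 0) :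
    f.eval₂ (RatFunc.C : k →+* RatFunc k) (RatFunc.X ^ M) ≠ 0 := by
  have h1 : f.eval₂ (RatFunc.C : k →+* RatFunc k) (RatFunc.X ^ M) =
      algebraMap k[X] (RatFunc k) (Polynomial.expand k M f) := by
    rw [Polynomial.expand_eq_sum, Polynomial.eval₂_eq_sum, Polynomial.sum_def, Polynomial.sum_def,
      map_sum]
    refine Finset.sum_congr rfl fun n _ => ?_
    rw [map_mul, RatFunc.algebraMap_C, map_pow, map_pow, RatFunc.algebraMap_X]
  rw [h1]
  intro h0
  rw [map_eq_zero_iff _ (RatFunc.algebraMap_injective k)] at h0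
  exact hf ((Polynomial.expand_eq_zero hM).mp h0)

/-- subgroups of index prime to `p` -/
theorem YBlk_top (p : ℕ) [Fact p.Prime] (G : Type) [Group G] [Finite G] (t : G)
    (ht : orderOf t = p) (hn : Subgroup.normalClosure ({t} : Set G) = ⊤) (H : Subgroup G)
    (hH : H.Normal) (hi : ¬ p ∣ H.index) : H = ⊤ := by
  have h1 : orderOf (QuotientGroup.mk t : G ⧸ H) ∣ p := by
    rw [← ht]
    exact orderOf_map_dvd (QuotientGroup.mk' H) t
  have h2 : orderOf (QuotientGroup.mk t : G ⧸ H) ∣ H.index := by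
    rw [Subgroup.index_eq_card]
    exact orderOf_dvd_natCard _
  have h3 : orderOf (QuotientGroup.mk t : G ⧸ H) = 1 := by
    rcases (Nat.dvd_prime (Fact.out : p.Prime)).mp h1 with h | h
    · exact h
    · exact absurd (h ▸ h2) hi
  have h4 : t ∈ H := by
    rw [orderOf_eq_one_iff] at h3
    exact (QuotientGroup.eq_one_iff t).mp h3
  have h5 : Subgroup.normalClosure ({t} : Set G) ≤ H :=
    Subgroup.normalClosure_le_normal (by simpa using h4)
  rw [hn] at h5
  exact top_le_iff.mp h5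

/-- `p ^ 2` does not divide the order of a block -/
theorem YBlk_sq (p r : ℕ) [Fact p.Prime] (hr : r.Prime) (hrp : r ≠ p) (G : Type) [Group G]
    [Finite G] (A : Subgroup G) (hA : IsPGroup r A) (i : G →* Multiplicative (ZMod p))
    (hi : i.ker = A) : ¬ p ^ 2 ∣ Nat.card G := by
  intro hd
  have hcp : Nat.card (Multiplicative (ZMod p)) = p := by
    rw [Nat.card_congr Multiplicative.toAdd, Nat.card_zmod]
  have : Finite (Multiplicative (ZMod p)) := by
    apply Nat.finite_of_card_ne_zero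
    rw [hcp]
    exact (Fact.out : p.Prime).ne_zero
  have h1 : A.index ∣ p := by
    rw [← hi, Subgroup.index_ker]
    have := Subgroup.card_subgroup_dvd_card i.range
    rwa [hcp] at this
  have : Fact r.Prime := ⟨hr⟩
  obtain ⟨n, hn⟩ := (IsPGroup.iff_card).mp hA
  have h2 : Nat.card G = Nat.card A * A.index := (Subgroup.card_mul_index A).symm
  have h3 : p ^ 2 ∣ r ^ n * p := by
    rw [h2, hn] at hd
    exact hd.trans (mul_dvd_mul_left _ h1)
  have hp : p.Prime := Fact.out
  have h4 : p ∣ r ^ n := by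
    rw [pow_two] at h3
    exact Nat.dvd_of_mul_dvd_mul_right hp.pos h3
  exact hrp ((Nat.prime_dvd_prime_iff_eq hp hr).mp (hp.dvd_of_dvd_pow h4)).symm

theorem prf_YBlk (hYInd : YInd) (hYGrp : YGrp) (hYPull : YPull) (hYEv : YEv) (hYLocX : YLocX)
    (hYEt : YEt) (hYInf : YInf) : YBlk := by
  intro k _ _ p _ _ G _ _ r A Φ t hB
  have hp : p.Prime := Fact.out
  obtain ⟨⟨i, hiA, hit⟩, _, _⟩ := hYGrp p r G A Φ t hB
  obtain ⟨s, L, fL, aL, mL, y, hT⟩ := hYInd k p r G A Φ t hB i hiA hit
  have hM : 0 < r ^ s := pow_pos hB.rprime.pos s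
  have hpM : ¬ p ∣ r ^ s := by
    intro h
    exact hB.ne ((Nat.prime_dvd_prime_iff_eq hp hB.rprime).mp (hp.dvd_of_dvd_pow h)).symm
  obtain ⟨⟨ψ, hψC, hψX⟩, _⟩ := hYEv k (RatFunc k) RatFunc.C (RatFunc.X ^ (r ^ s))
    (fun f hf => YBlk_eval k _ hM f hf)
  obtain ⟨Lx, fLx, aLx, mLx, q, hgx, hqa, hqg, hun⟩ := hYPull k p (r ^ s) hpM G L hT.gal
    (fun H hH hi => YBlk_top p G t hB.ord hB.ncl H hH hi) ψ hψC hψX
  obtain ⟨hx0, u, j, hu0, huo, hj⟩ := hYLocX k p (r ^ s) hpM G i L y hT ψ hψC hψX Lx q hqa hun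
  obtain ⟨B, rB, aB, mB, ι, hgB, hdB, hιi, hιa, hιg, hint⟩ := hYEt k G Lx hgx hx0
  have hqy : q y ^ p - q y = algebraMap (RatFunc k) Lx
      (algebraMap k[X] (RatFunc k) (X ^ (r ^ s))) := by
    rw [← map_pow, ← map_sub, hT.as, hqa, hψX, map_pow (algebraMap k[X] (RatFunc k)),
      RatFunc.algebraMap_X]
  obtain ⟨b, hb⟩ := hint (q y) p (fun l => if (l : ℕ) = 0 then - X ^ (r ^ s) else
    if (l : ℕ) = 1 then -1 else 0) hp.pos (by
      have h1 : ∑ l : Fin p, algebraMap (RatFunc k) Lx (algebraMap k[X] (RatFunc k)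
          ((fun l : Fin p => if (l : ℕ) = 0 then - (X : k[X]) ^ (r ^ s) else
            if (l : ℕ) = 1 then -1 else 0) l)) * q y ^ (l : ℕ) =
          ∑ l ∈ Finset.range p, algebraMap (RatFunc k) Lx (algebraMap k[X] (RatFunc k)
          (if l = 0 then - (X : k[X]) ^ (r ^ s) else if l = 1 then -1 else 0)) * q y ^ l := by
        rw [Finset.sum_range]
      rw [h1]
      obtain ⟨m, hm⟩ : ∃ m, p = m + 2 := ⟨p - 2, by have := hp.two_le; omega⟩
      have h2 : ∑ l ∈ Finset.range p, algebraMap (RatFunc k) Lx (algebraMap k[X] (RatFunc k)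
          (if l = 0 then - (X : k[X]) ^ (r ^ s) else if l = 1 then -1 else 0)) * q y ^ l =
          - q y - algebraMap (RatFunc k) Lx (algebraMap k[X] (RatFunc k) (X ^ (r ^ s))) := by
        have hr : Finset.range p = Finset.range (m + 1 + 1) := by rw [hm]
        rw [hr, Finset.sum_range_succ', Finset.sum_range_succ']
        rw [Finset.sum_eq_zero]
        · simp
          ring
        · intro l _
          simp
      rw [h2, ← hqy]
      ring)
  have hby : b ^ p - b = algebraMap k[X] B (X ^ (r ^ s)) := by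
    apply hιi
    rw [map_sub, map_pow, hb, hqy, hιa]
  refine hYInf k p (r ^ s) hpM G (Subgroup.zpowers t) ?_ ?_ B hgB hdB ⟨b, hby⟩ u (j.comp ι) hu0
    huo ?_ ?_
  · rw [Nat.card_zpowers, hB.ord]
  · exact YBlk_sq p r hB.rprime hB.ne G A hB.pA i hiA
  · intro c
    rw [RingHom.comp_apply, hιa, RatFunc.algebraMap_C]
    exact hj.1 c
  · rw [RingHom.comp_apply, hιa, RatFunc.algebraMap_X]
    exact hj.2

end MP7b0bad

end

section

set_option autoImplicit false

namespace MP7b0bad

open Polynomial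

/-! Item YComp (helper49) -/

theorem YComp_trans {F : Type} [Field F] {G : Type} [Group G] [Finite G] {C : Type} [CommRing C]
    [Algebra F C] [MulSemiringAction G C] (h : GalAlg F G C) (𝔪 𝔪' : Ideal C) (hm : 𝔪.IsPrime)
    (hm' : 𝔪'.IsPrime) : ∃ g : G, ∀ x : C, x ∈ 𝔪' ↔ g • x ∈ 𝔪 := by
  have : Algebra.IsInvariant F C G := ⟨fun b hb => h.inv b hb⟩
  have : SMulCommClass G F C := ⟨fun g a b => by
    rw [Algebra.smul_def, smul_mul', h.comm, ← Algebra.smul_def]⟩
  have hu : ∀ q : Ideal C, q.IsPrime → q.under F = ⊥ := by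
    intro q hq
    have h1 : (q.under F).IsPrime := Ideal.IsPrime.under F q
    rcases Ideal.eq_bot_or_top (q.under F) with h2 | h2
    · exact h2
    · exact absurd h2 h1.ne_top
  obtain ⟨g, hg⟩ := Algebra.IsInvariant.exists_smul_of_under_eq F C G 𝔪 𝔪'
    (by rw [hu 𝔪 hm, hu 𝔪' hm'])
  refine ⟨g⁻¹, fun x => ?_⟩
  rw [hg]
  exact Ideal.mem_pointwise_smul_iff_inv_smul_mem

theorem prf_YComp : YComp := by
  intro F _ G _ _ C _ _ _ hGal 𝔪 hpp
  classical
  have hCn : Nontrivial C := hGal.inj.nontrivial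
  have hfinC := gal_finite hGal
  have : IsArtinianRing C := IsArtinianRing.of_finite F C
  have hmax : 𝔪.IsMaximal := IsArtinianRing.isMaximal_of_isPrime 𝔪
  have hp : ∀ a : F, algebraMap F C a ∈ 𝔪 → a = 0 := by
    intro a ha
    by_contra h0
    exact hpp.ne_top (𝔪.eq_top_of_isUnit_mem ha ((IsUnit.mk0 a h0).map (algebraMap F C)))
  let fld : Field (C ⧸ 𝔪) := Ideal.Quotient.field 𝔪
  let act' : MulSemiringAction (QComp_st G 𝔪) (C ⧸ 𝔪) := QComp_act 𝔪
  have hqact : ∀ (g : QComp_st G 𝔪) (b : C), Ideal.Quotient.mk 𝔪 ((g : G) • b) =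
      g • Ideal.Quotient.mk 𝔪 b := fun g b => rfl
  have hGE : GalAlg F (QComp_st G 𝔪) (C ⧸ 𝔪) := by
    refine ⟨?_, (algebraMap F (C ⧸ 𝔪)).injective, ?_, ?_⟩
    · intro g a
      have h1 : algebraMap F (C ⧸ 𝔪) a = Ideal.Quotient.mk 𝔪 (algebraMap F C a) := rfl
      rw [h1, ← hqact, hGal.comm]
    · intro z hz
      obtain ⟨b, rfl⟩ := Ideal.Quotient.mk_surjective z
      obtain ⟨U, a0, h1, h2, h3⟩ := QComp_frac hGal hpp hp
      obtain ⟨a, ha⟩ := h3 b (fun g hg => by
        rw [← Ideal.Quotient.eq_zero_iff_mem, map_sub]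
        have := hz ⟨g, hg⟩
        rw [← hqact] at this
        rw [sub_eq_zero]
        exact this)
      refine ⟨a0⁻¹ * a, ?_⟩
      rw [map_mul, ha, ← mul_assoc, ← map_mul, inv_mul_cancel₀ h1, map_one, one_mul]
    · intro σ hσ
      have hσ' : (σ : G) ≠ 1 := fun h => hσ (Subtype.ext h)
      have h1 := congrArg (Ideal.map (Ideal.Quotient.mk 𝔪)) (hGal.unr (σ : G) hσ')
      rw [Ideal.map_span, Ideal.map_top] at h1
      rw [eq_top_iff, ← h1]
      refine Ideal.span_mono ?_
      rintro _ ⟨x, ⟨b, rfl⟩, rfl⟩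
      exact ⟨Ideal.Quotient.mk 𝔪 b, by rw [map_sub, hqact]⟩
  have hfinE : Module.Finite F (C ⧸ 𝔪) := gal_finite hGE
  refine ⟨QComp_st G 𝔪, C ⧸ 𝔪, fld, inferInstance, act', Ideal.Quotient.mk 𝔪, fun g => Iff.rfl,
    hGE, Ideal.Quotient.mk_surjective, fun x => Ideal.Quotient.eq_zero_iff_mem, fun a => rfl,
    hqact, ?_, hfinE, ?_, ?_, ?_⟩
  · exact QDomB_rank prf_QGL hGE (Module.finBasis F (C ⧸ 𝔪))
  · intro htop
    have h0 : 𝔪 = ⊥ := by
      rw [eq_bot_iff]
      intro b hb
      rw [Ideal.mem_bot]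
      refine QComp_inter hGal hp fun g => ?_
      have : g ∈ QComp_st G 𝔪 := by rw [htop]; trivial
      exact (this b).1 hb
    have hf : IsField C := by
      rw [h0] at hmax
      exact Ring.isField_iff_maximal_bot.2 hmax
    exact ⟨hf, hf.isDomain⟩
  · intro 𝔪' hm'
    exact YComp_trans hGal 𝔪 𝔪' hpp hm'
  · intro N hN hdom
    exact QComp_last hGal hpp hp N hN hdom

end MP7b0bad

end

section

set_option autoImplicit false

namespace MP7b0bad

open Polynomial

/-! Item YConj (helper49) -/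

/-- ring homs from rational functions are determined by constants and `X` -/
theorem YConj_ext {k : Type} [Field k] {T : Type} [Ring T] (f g : RatFunc k →+* T)
    (h1 : ∀ c : k, f (RatFunc.C c) = g (RatFunc.C c)) (h2 : f RatFunc.X = g RatFunc.X) :
    f = g := by
  apply IsLocalization.ringHom_ext (nonZeroDivisors k[X])
  apply Polynomial.ringHom_ext
  · intro c
    have := h1 c
    rwa [← RatFunc.algebraMap_C] at this
  · have := h2
    rwa [← RatFunc.algebraMap_X] at this

theorem prf_YConj : YConj := by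
  intro k _ p M _ _ G _ _ i L _ _ _ y T u j j' hj hj'
  classical
  have := Fintype.ofFinite G
  have hcomp : j.comp (algebraMap (RatFunc k) L) = j'.comp (algebraMap (RatFunc k) L) := by
    apply YConj_ext
    · intro c
      simp only [RingHom.comp_apply]
      rw [hj.1 c, hj'.1 c]
    · simp only [RingHom.comp_apply]
      rw [← T.as, map_sub, map_pow, map_sub, map_pow, hj.2, hj'.2]
  have hc : ∀ a : RatFunc k, j (algebraMap (RatFunc k) L a) = j' (algebraMap (RatFunc k) L a) :=
    fun a => RingHom.congr_fun hcomp a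
  -- every element
  have hx : ∀ x : L, ∃ g : G, j' x = j (g • x) := by
    intro x
    set P : L[X] := ∏ g : G, (X - C (g • x)) with hP
    have hPinv : ∀ n, ∃ a : RatFunc k, algebraMap (RatFunc k) L a = P.coeff n := by
      intro n
      apply T.gal.inv
      intro g
      have h1 : P.map (MulSemiringAction.toRingHom G L g) = P := by
        rw [hP, Polynomial.map_prod]
        simp only [Polynomial.map_sub, Polynomial.map_X, Polynomial.map_C,
          MulSemiringAction.toRingHom_apply]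
        refine Fintype.prod_bijective (fun h => g * h) (Group.mulLeft_bijective g) _ _ fun h => ?_
        rw [smul_smul]
      have h2 : (P.map (MulSemiringAction.toRingHom G L g)).coeff n = P.coeff n := by rw [h1]
      rwa [Polynomial.coeff_map] at h2
    have hmap : P.map j = P.map j' := by
      ext1 n
      rw [Polynomial.coeff_map, Polynomial.coeff_map]
      obtain ⟨a, ha⟩ := hPinv n
      rw [← ha]
      exact hc a
    have h3 : (P.map j').eval (j' x) = 0 := by
      rw [Polynomial.eval_map, Polynomial.eval₂_hom, hP, Polynomial.eval_prod]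
      rw [Finset.prod_eq_zero (Finset.mem_univ (1 : G)), map_zero]
      simp
    rw [← hmap, hP, Polynomial.map_prod, Polynomial.eval_prod, Finset.prod_eq_zero_iff] at h3
    obtain ⟨g, -, hg⟩ := h3
    refine ⟨g, ?_⟩
    simpa [sub_eq_zero] using hg
  -- subspaces
  let W : G → Submodule (RatFunc k) L := fun g =>
    { carrier := {x | j' x = j (g • x)}
      add_mem' := by
        intro x x' h h'
        simp only [Set.mem_ofPred_eq] at h h' ⊢
        rw [map_add, smul_add, map_add, h, h']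
      zero_mem' := by simp
      smul_mem' := by
        intro a x h
        simp only [Set.mem_ofPred_eq] at h ⊢
        rw [Algebra.smul_def, map_mul, smul_mul', T.gal.comm, map_mul, h, hc] }
  have hinf : Infinite (RatFunc k) :=
    Infinite.of_injective (algebraMap k[X] (RatFunc k)) (RatFunc.algebraMap_injective k)
  have hun : (⋃ q ∈ (Finset.univ.image W : Finset (Submodule (RatFunc k) L)), (q : Set L)) =
      Set.univ := by
    rw [Set.eq_univ_iff_forall]
    intro x
    obtain ⟨g, hg⟩ := hx x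
    simp only [Set.mem_iUnion]
    exact ⟨W g, Finset.mem_image_of_mem W (Finset.mem_univ g), hg⟩
  obtain ⟨g, -, hg⟩ := Finset.mem_image.1 (Subspace.top_mem_of_biUnion_eq_univ hun)
  have hg' : ∀ x, j' x = j (g • x) := by
    intro x
    have : x ∈ W g := by rw [hg]; trivial
    exact this
  refine ⟨g, ?_, hg'⟩
  have h4 := hg' y
  rw [hj'.2, T.tr, map_add, hj.2] at h4
  have h5 : j (((Multiplicative.toAdd (i g)).val : ℕ) : L) = 0 := by
    have := h4.symm
    rwa [add_eq_left] at this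
  rw [map_natCast] at h5
  have h6 : ((((Multiplicative.toAdd (i g)).val : ℕ) : k)) = 0 := by
    have h7 : HahnSeries.C (Γ := ℤ) ((((Multiplicative.toAdd (i g)).val : ℕ) : k)) = 0 := by
      rw [map_natCast]
      exact h5
    rwa [map_eq_zero] at h7
  rw [CharP.cast_eq_zero_iff k p] at h6
  have h8 : (Multiplicative.toAdd (i g)).val < p := ZMod.val_lt _
  have h9 : (Multiplicative.toAdd (i g)).val = 0 := Nat.eq_zero_of_dvd_of_lt h6 h8
  rw [ZMod.val_eq_zero] at h9
  exact Multiplicative.toAdd.injective h9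

end MP7b0bad

end

section

set_option autoImplicit false

namespace MP7b0bad

/-- the action of `A` on the units of `L` -/
noncomputable def YCross_act (A L : Type) [Group A] [Field L] [MulSemiringAction A L] :
    A →* MulAut Lˣ where
  toFun g := Units.mapEquiv (MulSemiringAction.toRingEquiv A L g).toMulEquiv
  map_one' := by
    ext l
    exact one_smul A (l : L)
  map_mul' g h := by
    ext l
    exact mul_smul g h (l : L)

theorem YCross_act_coe {A L : Type} [Group A] [Field L] [MulSemiringAction A L] (g : A) (l : Lˣ) :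
    ((YCross_act A L g l : Lˣ) : L) = g • (l : L) := rfl

/-- the action of the quotient -/
@[reducible] noncomputable def YCross_quo {A L : Type} [Group A] [Field L] [MulSemiringAction A L]
    (N : Subgroup A) [N.Normal] (h : N ≤ (MulSemiringAction.toRingAut A L).ker) :
    MulSemiringAction (A ⧸ N) L :=
  MulSemiringAction.compHom L (QuotientGroup.lift N (MulSemiringAction.toRingAut A L) h)

theorem YCross_core {A L : Type} [Group A] [Field L] [MulSemiringAction A L]
    (N : Subgroup A) [N.Normal] (h1 : ∀ n ∈ N, ∀ x : L, n • x = x)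
    (χ : N →* Lˣ) (h5 : ∀ (g : A) (n : N), g • ((χ n : Lˣ) : L) = χ n)
    (h6 : ∀ (g : A) (n n' : N), (n' : A) = g * n * g⁻¹ → χ n' = χ n)
    (hS : ∀ (act : MulSemiringAction (A ⧸ N) L),
      (∀ (g : A) (x : L), ((QuotientGroup.mk g : A ⧸ N) • x : L) = g • x) →
      ∀ (E : Type) [Group E] (ι : Lˣ →* E) (π : E →* A ⧸ N), Function.Injective ι →
      Function.Surjective π → (∀ e : E, π e = 1 ↔ e ∈ ι.range) →
      (∀ (e : E) (l l' : Lˣ), (l' : L) = π e • (l : L) → e * ι l * e⁻¹ = ι l') →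
      ∃ s : (A ⧸ N) →* E, ∀ g, π (s g) = g) :
    ∃ φ : A → Lˣ, (∀ g h : A, ((φ (g * h) : Lˣ) : L) = φ g * (g • ((φ h : Lˣ) : L))) ∧
    ∀ n : N, φ n = χ n := by
  classical
  have hker : N ≤ (MulSemiringAction.toRingAut A L).ker := by
    intro n hn
    rw [MonoidHom.mem_ker]
    ext x
    exact h1 n hn x
  let act : MulSemiringAction (A ⧸ N) L := YCross_quo N hker
  have hact : ∀ (g : A) (x : L), ((QuotientGroup.mk g : A ⧸ N) • x : L) = g • x :=
    fun g x => rfl
  -- units lemmas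
  have hχ : ∀ (g : A) (n : N), YCross_act A L g (χ n) = χ n := by
    intro g n
    ext
    exact h5 g n
  have hN : ∀ (n : N) (l : Lˣ), YCross_act A L n l = l := by
    intro n l
    ext
    exact h1 n n.2 l
  let S := SemidirectProduct Lˣ A (YCross_act A L)
  let κ : N →* S :=
    { toFun := fun n => ⟨χ n, n⟩
      map_one' := by
        rw [map_one]
        rfl
      map_mul' := by
        intro n m
        apply SemidirectProduct.ext
        · rw [SemidirectProduct.mul_left, map_mul]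
          change χ n * χ m = χ n * YCross_act A L n (χ m)
          rw [hχ]
        · rfl }
  have hκ : ∀ n : N, κ n = ⟨χ n, n⟩ := fun n => rfl
  have hκcomm : ∀ (s : S) (n n' : N), (n' : A) = s.right * n * s.right⁻¹ →
      s * κ n = κ n' * s := by
    intro s n n' h
    apply SemidirectProduct.ext
    · rw [SemidirectProduct.mul_left, SemidirectProduct.mul_left]
      change s.left * YCross_act A L s.right (χ n) = χ n' * YCross_act A L (n' : A) s.left
      rw [hχ, hN, h6 _ _ _ h, mul_comm]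
    · rw [SemidirectProduct.mul_right, SemidirectProduct.mul_right]
      change s.right * (n : A) = (n' : A) * s.right
      rw [h]
      group
  let K : Subgroup S := κ.range
  have hKn : K.Normal := by
    constructor
    rintro _ ⟨n, rfl⟩ s
    have hn' : s.right * (n : A) * s.right⁻¹ ∈ N :=
      (inferInstance : N.Normal).conj_mem _ n.2 _
    refine ⟨⟨_, hn'⟩, ?_⟩
    rw [hκcomm s n ⟨_, hn'⟩ rfl]
    group
  let E := S ⧸ K
  let q : S →* E := QuotientGroup.mk' K
  have hq : Function.Surjective q := QuotientGroup.mk'_surjective K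
  have hqK : ∀ s t : S, q s = q t ↔ ∃ n : N, s * κ n = t := by
    intro s t
    rw [show (q s = q t ↔ s⁻¹ * t ∈ K) from QuotientGroup.eq]
    constructor
    · rintro ⟨n, hn⟩
      exact ⟨n, by rw [hn]; exact mul_inv_cancel_left s t⟩
    · rintro ⟨n, hn⟩
      exact ⟨n, by rw [← hn]; exact (inv_mul_cancel_left s (κ n)).symm⟩
  have huniq : ∀ (l l' : Lˣ) (g : A), q ⟨l, g⟩ = q ⟨l', g⟩ → l = l' := by
    intro l l' g h
    obtain ⟨n, hn⟩ := (hqK _ _).1 h
    have h2 := congrArg SemidirectProduct.right hn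
    have h1' := congrArg SemidirectProduct.left hn
    rw [SemidirectProduct.mul_right] at h2
    rw [SemidirectProduct.mul_left] at h1'
    change g * (n : A) = g at h2
    change l * YCross_act A L g (χ n) = l' at h1'
    have hn1 : n = 1 := by
      ext
      exact mul_eq_left.1 h2
    rw [hn1, map_one, map_one, mul_one] at h1'
    exact h1'
  have hmove : ∀ (l : Lˣ) (g g' : A) (h : g⁻¹ * g' ∈ N), ∃ l' : Lˣ,
      q ⟨l, g⟩ = q ⟨l', g'⟩ := by
    intro l g g' h
    refine ⟨l * χ ⟨_, h⟩, (hqK _ _).2 ⟨⟨_, h⟩, ?_⟩⟩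
    apply SemidirectProduct.ext
    · rw [SemidirectProduct.mul_left]
      change l * YCross_act A L g (χ ⟨_, h⟩) = l * χ ⟨_, h⟩
      rw [hχ]
    · rw [SemidirectProduct.mul_right]
      change g * (g⁻¹ * g') = g'
      group
  let ι : Lˣ →* E := q.comp SemidirectProduct.inl
  have hι : ∀ l, ι l = q ⟨l, 1⟩ := fun l => rfl
  let π : E →* A ⧸ N := QuotientGroup.lift K ((QuotientGroup.mk' N).comp SemidirectProduct.rightHom)
    (by
      rintro _ ⟨n, rfl⟩
      rw [MonoidHom.mem_ker]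
      change ((QuotientGroup.mk (n : A) : A ⧸ N)) = 1
      exact (QuotientGroup.eq_one_iff (n : A)).2 n.2)
  have hπ : ∀ s : S, π (q s) = QuotientGroup.mk s.right := fun s => rfl
  have hfin : ∃ s : (A ⧸ N) →* E, ∀ g, π (s g) = g := by
    refine hS act hact E ι π ?_ ?_ ?_ ?_
    · intro l l' h
      rw [hι, hι] at h
      exact huniq _ _ _ h
    · intro x
      obtain ⟨g, rfl⟩ := QuotientGroup.mk_surjective x
      exact ⟨q ⟨1, g⟩, rfl⟩
    · intro e
      obtain ⟨t, rfl⟩ := hq e
      rw [hπ]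
      constructor
      · intro h
        have h7 : t.right⁻¹ * 1 ∈ N := by
          rw [mul_one]
          exact N.inv_mem ((QuotientGroup.eq_one_iff t.right).1 h)
        obtain ⟨l', hl'⟩ := hmove t.left t.right 1 h7
        exact ⟨l', hl'.symm⟩
      · rintro ⟨l, hl⟩
        have := congrArg π hl
        rw [hι, hπ, hπ] at this
        rw [← this]
        rfl
    · intro e l l' h
      obtain ⟨t, rfl⟩ := hq e
      rw [hπ, hact] at h
      rw [hι, hι, ← map_mul, ← map_inv, ← map_mul]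
      congr 1
      rw [mul_inv_eq_iff_eq_mul]
      apply SemidirectProduct.ext
      · rw [SemidirectProduct.mul_left, SemidirectProduct.mul_left]
        change t.left * YCross_act A L t.right l = l' * YCross_act A L 1 t.left
        rw [map_one, mul_comm]
        congr 1
        ext
        exact h.symm
      · rw [SemidirectProduct.mul_right, SemidirectProduct.mul_right]
        change t.right * 1 = 1 * t.right
        rw [mul_one, one_mul]
  obtain ⟨s, hs⟩ := hfin
  have hex : ∀ g : A, ∃ l : Lˣ, s (QuotientGroup.mk g) = q ⟨l, g⟩ := by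
    intro g
    obtain ⟨t, ht⟩ := hq (s (QuotientGroup.mk g))
    have h7 := hs (QuotientGroup.mk g)
    rw [← ht, hπ, QuotientGroup.eq] at h7
    obtain ⟨l', hl'⟩ := hmove t.left t.right g h7
    exact ⟨l', by rw [← ht, ← hl']⟩
  choose φ hφ using hex
  refine ⟨φ, ?_, ?_⟩
  · intro g h
    have e1 : q ⟨φ (g * h), g * h⟩ = q ⟨φ g * YCross_act A L g (φ h), g * h⟩ := by
      rw [← hφ, QuotientGroup.mk_mul, map_mul, hφ, hφ, ← map_mul]
      rfl
    have e2 := huniq _ _ _ e1
    rw [e2, Units.val_mul, YCross_act_coe]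
  · intro n
    have e1 : q ⟨φ n, n⟩ = q ⟨χ n, n⟩ := by
      rw [← hφ, (QuotientGroup.eq_one_iff (n : A)).2 n.2, map_one]
      refine ((hqK 1 ⟨χ n, n⟩).2 ⟨n, ?_⟩)
      rw [one_mul, hκ]
    exact huniq _ _ _ e1

theorem prf_YCross (hYSplit : YSplit) : YCross := by
  intro k _ _ L _ _ _ A _ _ _ N _ hsol h1 h2 h3 χ h5 h6
  refine YCross_core N h1 χ h5 h6 ?_
  intro act hact E _ ι π hι hπ hex hconj
  have : Group.IsSolvable A := hsol
  refine hYSplit k L (A ⧸ N) (Group.instIsSolvableQuotientSubgroup N) ?_ ?_ E ι π hι hπ hex hconj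
  · intro g hg
    obtain ⟨g, rfl⟩ := QuotientGroup.mk_surjective g
    have hgN : g ∉ N := fun h => hg ((QuotientGroup.eq_one_iff g).2 h)
    obtain ⟨x, hx⟩ := h2 g hgN
    exact ⟨x, by rw [hact]; exact hx⟩
  · intro g a
    obtain ⟨g, rfl⟩ := QuotientGroup.mk_surjective g
    rw [hact]
    exact h3 g a

end MP7b0bad

end

section

/-!
# MP_7b0bad_ag, item YDim: the degree of `k((s))` over `k((g))` (helper61)
-/

set_option autoImplicit false

namespace MP7b0bad

open Polynomial

/-- Successive approximation. -/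
noncomputable def YDim_F {k : Type} [Field k] (e : ℤ → LaurentSeries k) (m0 : ℤ)
    (f : LaurentSeries k) : ℕ → LaurentSeries k
  | 0 => f
  | j + 1 => YDim_F e m0 f j -
      HahnSeries.C ((YDim_F e m0 f j).coeff (m0 + j) / (e (m0 + j)).coeff (m0 + j)) * e (m0 + j)

theorem YDim_F_low {k : Type} [Field k] {e : ℤ → LaurentSeries k} (he : ∀ m, (e m).coeff m ≠ 0)
    (he' : ∀ m m', m' < m → (e m).coeff m' = 0) {m0 : ℤ} {f : LaurentSeries k}
    (hf : ∀ m, m < m0 → f.coeff m = 0) :
    ∀ (j : ℕ) (m : ℤ), m < m0 + j → (YDim_F e m0 f j).coeff m = 0 := by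
  intro j
  induction j with
  | zero =>
    intro m hm
    exact hf m (by simpa using hm)
  | succ j ih =>
    intro m hm
    rw [YDim_F, HahnSeries.coeff_sub, HahnSeries.C_mul_eq_smul, HahnSeries.coeff_smul, smul_eq_mul]
    rcases lt_or_eq_of_le (Int.lt_add_one_iff.1 (show m < m0 + j + 1 by push_cast at hm; linarith))
      with h | h
    · rw [ih m h, he' _ m h, mul_zero, sub_zero]
    · rw [h, div_mul_cancel₀ _ (he _), sub_self]

theorem YDim_F_sum {k : Type} [Field k] (e : ℤ → LaurentSeries k) (m0 : ℤ)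
    (f : LaurentSeries k) (Q : ℕ) : YDim_F e m0 f Q = f - ∑ j ∈ Finset.range Q,
      HahnSeries.C ((YDim_F e m0 f j).coeff (m0 + j) / (e (m0 + j)).coeff (m0 + j)) *
        e (m0 + j) := by
  induction Q with
  | zero => simp [YDim_F]
  | succ Q ih =>
    rw [Finset.sum_range_succ, YDim_F, ← sub_sub, ← ih]

theorem YDim_low {k : Type} [Field k] {σ : LaurentSeries k →+* LaurentSeries k} {n : ℕ}
    (ho : ∀ a, a ≠ 0 → σ a ≠ 0 ∧ (σ a).order = n * a.order) {a : LaurentSeries k} {b : ℤ}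
    (ha : ∀ m, m < b → a.coeff m = 0) : ∀ m, m < n * b → (σ a).coeff m = 0 := by
  intro m hm
  by_cases h : a = 0
  · rw [h, map_zero, HahnSeries.coeff_zero]
  · apply HahnSeries.coeff_eq_zero_of_lt_order
    rw [(ho a h).2]
    have h1 : b ≤ a.order := by
      by_contra hc
      exact mt HahnSeries.coeff_order_eq_zero.1 h (ha _ (not_le.1 hc))
    have h2 : (n : ℤ) * b ≤ n * a.order := mul_le_mul_of_nonneg_left h1 (by positivity)
    linarith

theorem prf_YDim : YDim := by
  intro k _ σ n hn hC ho f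
  have hN : (0 : ℤ) < n := by exact_mod_cast hn
  set e : ℤ → LaurentSeries k := fun m =>
    σ (HahnSeries.single (m / n) (1 : k)) * HahnSeries.single (m % n) (1 : k) with he
  have hs1 : ∀ q : ℤ, HahnSeries.single q (1 : k) ≠ 0 := fun q =>
    HahnSeries.single_ne_zero one_ne_zero
  have hene : ∀ m, e m ≠ 0 := fun m => mul_ne_zero (ho _ (hs1 _)).1 (hs1 _)
  have heo : ∀ m, (e m).order = m := by
    intro m
    rw [he]
    dsimp only
    rw [HahnSeries.order_mul (ho _ (hs1 _)).1 (hs1 _), (ho _ (hs1 _)).2,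
      HahnSeries.order_single one_ne_zero, HahnSeries.order_single one_ne_zero]
    exact Int.mul_ediv_add_emod m n
  have he1 : ∀ m, (e m).coeff m ≠ 0 := by
    intro m
    have h1 := mt HahnSeries.coeff_order_eq_zero.1 (hene m)
    rwa [heo] at h1
  have he2 : ∀ m m', m' < m → (e m).coeff m' = 0 := by
    intro m m' h
    apply HahnSeries.coeff_eq_zero_of_lt_order
    rwa [heo]
  set B0 : ℤ := f.order / n with hB0
  set m0 : ℤ := n * B0 with hm0
  have hf : ∀ m, m < m0 → f.coeff m = 0 := by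
    intro m hm
    apply HahnSeries.coeff_eq_zero_of_lt_order
    have : (n : ℤ) * (f.order / n) ≤ f.order := Int.mul_ediv_self_le hN.ne'
    linarith
  set c : ℕ → k := fun j => (YDim_F e m0 f j).coeff (m0 + j) / (e (m0 + j)).coeff (m0 + j) with hc
  -- the coefficients
  set g : Fin n → ℤ → k := fun l q =>
    if m0 ≤ (l : ℕ) + n * q then c ((((l : ℕ) : ℤ) + n * q - m0).toNat) else 0 with hg
  have hgs : ∀ l, BddBelow (Function.support (g l)) := by
    intro l
    refine ⟨B0 - 1, ?_⟩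
    intro q hq
    by_contra hlt
    apply hq
    have h1 : q < B0 - 1 := not_le.1 hlt
    have hl : ((l : ℕ) : ℤ) < n := by exact_mod_cast l.2
    have h2 : (n : ℤ) * q < n * (B0 - 1) := mul_lt_mul_of_pos_left h1 hN
    have h3 : ¬ m0 ≤ ((l : ℕ) : ℤ) + n * q := by
      rw [hm0]
      intro h4
      nlinarith
    simp only [hg, if_neg h3]
  set h : Fin n → LaurentSeries k := fun l => HahnSeries.ofSuppBddBelow (g l) (hgs l) with hh
  refine ⟨h, ?_⟩
  -- truncations
  set T : ℕ → Fin n → LaurentSeries k := fun Q l => ∑ j ∈ Finset.range Q,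
    if (m0 + j) % n = ((l : ℕ) : ℤ) then
      HahnSeries.C (c j) * HahnSeries.single ((m0 + j) / n) (1 : k) else 0 with hT
  have hTc : ∀ (Q : ℕ) (l : Fin n) (q : ℤ), ((l : ℕ) : ℤ) + n * q < m0 + Q →
      (h l - T Q l).coeff q = 0 := by
    intro Q l q hq
    have hl0 : (0 : ℤ) ≤ ((l : ℕ) : ℤ) := by positivity
    have hl : ((l : ℕ) : ℤ) < n := by exact_mod_cast l.2
    have hm1 : (((l : ℕ) : ℤ) + n * q) % n = ((l : ℕ) : ℤ) := by
      rw [Int.add_mul_emod_self_left]
      exact Int.emod_eq_of_lt hl0 hl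
    have hm2 : (((l : ℕ) : ℤ) + n * q) / n = q := by
      rw [Int.add_mul_ediv_left _ _ hN.ne', Int.ediv_eq_zero_of_lt hl0 hl, zero_add]
    have h1 : (T Q l).coeff q = ∑ j ∈ Finset.range Q,
        if m0 + j = ((l : ℕ) : ℤ) + n * q then c j else 0 := by
      simp only [hT]
      rw [HahnSeries.coeff_sum]
      refine Finset.sum_congr rfl fun j _ => ?_
      by_cases hj : (m0 + j) % n = ((l : ℕ) : ℤ)
      · rw [if_pos hj, HahnSeries.C_mul_eq_smul, HahnSeries.coeff_smul, smul_eq_mul]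
        by_cases hq' : q = (m0 + j) / n
        · have h3 : m0 + j = ((l : ℕ) : ℤ) + n * q := by
            have := Int.mul_ediv_add_emod (m0 + j) n
            rw [hj, ← hq'] at this
            linarith
          rw [hq', HahnSeries.coeff_single_same, mul_one, ← hq', if_pos h3]
        · have h3 : m0 + j ≠ ((l : ℕ) : ℤ) + n * q := by
            intro h4
            rw [h4] at hq'
            exact hq' hm2.symm
          rw [HahnSeries.coeff_single_of_ne hq', mul_zero, if_neg h3]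
      · have h3 : m0 + j ≠ ((l : ℕ) : ℤ) + n * q := by
          intro h4
          rw [h4] at hj
          exact hj hm1
        rw [if_neg hj, if_neg h3, HahnSeries.coeff_zero]
    have h2 : (h l).coeff q = g l q := rfl
    rw [HahnSeries.coeff_sub, h1, h2, sub_eq_zero]
    by_cases hq0 : m0 ≤ ((l : ℕ) : ℤ) + n * q
    · simp only [hg, if_pos hq0]
      rw [Finset.sum_eq_single_of_mem ((((l : ℕ) : ℤ) + n * q - m0).toNat)]
      · rw [if_pos]
        rw [Int.toNat_of_nonneg (by linarith)]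
        ring
      · rw [Finset.mem_range]
        zify
        rw [Int.toNat_of_nonneg (by linarith)]
        linarith
      · intro j _ hj
        rw [if_neg]
        intro h4
        apply hj
        zify
        rw [Int.toNat_of_nonneg (by linarith)]
        linarith
    · simp only [hg, if_neg hq0]
      symm
      apply Finset.sum_eq_zero
      intro j _
      rw [if_neg]
      intro h4
      apply hq0
      rw [← h4]
      simp
  have hTs : ∀ Q, ∑ l, σ (T Q l) * HahnSeries.single ((l : ℕ) : ℤ) (1 : k) =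
      ∑ j ∈ Finset.range Q, HahnSeries.C (c j) * e (m0 + j) := by
    intro Q
    have h1 : ∀ l : Fin n, σ (T Q l) * HahnSeries.single ((l : ℕ) : ℤ) (1 : k) =
        ∑ j ∈ Finset.range Q, if (m0 + j) % n = ((l : ℕ) : ℤ) then
          HahnSeries.C (c j) * e (m0 + j) else 0 := by
      intro l
      simp only [hT]
      rw [map_sum, Finset.sum_mul]
      refine Finset.sum_congr rfl fun j _ => ?_
      by_cases hj : (m0 + j) % n = ((l : ℕ) : ℤ)
      · rw [if_pos hj, if_pos hj, map_mul, hC, mul_assoc, ← hj]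
      · rw [if_neg hj, if_neg hj, map_zero, zero_mul]
    simp only [h1]
    rw [Finset.sum_comm]
    refine Finset.sum_congr rfl fun j _ => ?_
    have hj0 : 0 ≤ (m0 + j) % n := Int.emod_nonneg _ hN.ne'
    have hjn : (m0 + j) % n < n := Int.emod_lt_of_pos _ hN
    have hjl : ((m0 + j) % n).toNat < n := by
      zify
      rw [Int.toNat_of_nonneg hj0]
      exact hjn
    rw [Finset.sum_eq_single_of_mem (⟨((m0 + j) % n).toNat, hjl⟩ : Fin n) (Finset.mem_univ _)]
    · rw [if_pos]
      exact (Int.toNat_of_nonneg hj0).symm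
    · intro l _ hl
      rw [if_neg]
      intro h4
      apply hl
      apply Fin.ext
      simp only [h4]
      simp
  -- conclusion
  rw [← sub_eq_zero]
  ext m
  rw [HahnSeries.coeff_zero]
  set B : ℤ := max B0 (m / n + 1) with hB
  have hBm : m < n * B := by
    have h1 : m / n + 1 ≤ B := le_max_right _ _
    have h2 : m < n * (m / n + 1) := by
      have := Int.mul_ediv_add_emod m n
      have h3 := Int.emod_lt_of_pos m hN
      linarith
    have h4 : (n : ℤ) * (m / n + 1) ≤ n * B := mul_le_mul_of_nonneg_left h1 hN.le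
    linarith
  set Q : ℕ := (n * B - m0).toNat with hQ
  have hQ' : m0 + Q = n * B := by
    rw [hQ, Int.toNat_of_nonneg]
    · ring
    · have h4 : (n : ℤ) * B0 ≤ n * B := mul_le_mul_of_nonneg_left (le_max_left _ _) hN.le
      linarith
  have hd : f - ∑ l, σ (h l) * HahnSeries.single ((l : ℕ) : ℤ) (1 : k) =
      YDim_F e m0 f Q - ∑ l, σ (h l - T Q l) * HahnSeries.single ((l : ℕ) : ℤ) (1 : k) := by
    have h1 : ∑ l, σ (h l - T Q l) * HahnSeries.single ((l : ℕ) : ℤ) (1 : k) =
        ∑ l, σ (h l) * HahnSeries.single ((l : ℕ) : ℤ) (1 : k) -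
        ∑ l, σ (T Q l) * HahnSeries.single ((l : ℕ) : ℤ) (1 : k) := by
      rw [← Finset.sum_sub_distrib]
      refine Finset.sum_congr rfl fun l _ => ?_
      rw [map_sub, sub_mul]
    rw [h1, hTs, YDim_F_sum]
    simp only [hc]
    ring
  rw [hd, HahnSeries.coeff_sub, YDim_F_low he1 he2 hf Q m (by rw [hQ']; exact hBm), zero_sub,
    neg_eq_zero, HahnSeries.coeff_sum]
  apply Finset.sum_eq_zero
  intro l _
  have h1 : ∀ q, q < B → (h l - T Q l).coeff q = 0 := by
    intro q hq
    apply hTc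
    rw [hQ']
    have hl : ((l : ℕ) : ℤ) < n := by exact_mod_cast l.2
    nlinarith
  have h2 := YDim_low ho h1
  have h3 : m = (m - ((l : ℕ) : ℤ)) + ((l : ℕ) : ℤ) := by ring
  rw [h3, HahnSeries.coeff_mul_single_add, h2, zero_mul]
  have hl0 : (0 : ℤ) ≤ ((l : ℕ) : ℤ) := by positivity
  linarith

end MP7b0bad

end

section

set_option autoImplicit false

namespace MP7b0bad

open Polynomial

/-! # Étale algebras from local embeddings -/

/-- monic equations -/
theorem YEt_int {R F : Type} [CommRing R] [Nontrivial R] [CommRing F] [Algebra R F] (x : F) (n : ℕ)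
    (c : Fin n → R) (h : x ^ n + ∑ l, algebraMap R F (c l) * x ^ (l : ℕ) = 0) :
    IsIntegral R x := by
  refine ⟨X ^ n + ∑ l, C (c l) * X ^ (l : ℕ), monic_X_pow_add (degree_sum_fin_lt c), ?_⟩
  rw [eval₂_add, eval₂_finsetSum]
  simpa using h

/-- power series in Laurent series: coefficients -/
theorem YEt_neg {k : Type} [Field k] (w : PowerSeries k) (m : ℤ) (hm : m < 0) :
    (HahnSeries.ofPowerSeries ℤ k w).coeff m = 0 := by
  rw [PowerSeries.coeff_coe]
  exact if_pos hm

theorem YEt_zero {k : Type} [Field k] (w : PowerSeries k) :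
    (HahnSeries.ofPowerSeries ℤ k w).coeff 0 = PowerSeries.constantCoeff w := by
  rw [PowerSeries.coeff_coe]
  simp

/-- criterion for being a power series -/
theorem YEt_mem {k : Type} [Field k] (u : LaurentSeries k) (h : ∀ m : ℤ, m < 0 → u.coeff m = 0) :
    ∃ w : PowerSeries k, HahnSeries.ofPowerSeries ℤ k w = u := by
  refine ⟨PowerSeries.mk fun n => u.coeff n, ?_⟩
  ext m
  rw [PowerSeries.coeff_coe]
  split_ifs with h1
  · exact (h m h1).symm
  · rw [PowerSeries.coeff_mk]
    congr 1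
    omega

/-- values of polynomials -/
theorem YEt_poly {k : Type} [Field k] (x0 : k) (j : RatFunc k →+* LaurentSeries k)
    (hC : ∀ c, j (RatFunc.C c) = HahnSeries.C c)
    (hX : j RatFunc.X = HahnSeries.C x0 + HahnSeries.single (1 : ℤ) (1 : k)) (f : k[X]) :
    ∃ w : PowerSeries k, j (algebraMap k[X] (RatFunc k) f) = HahnSeries.ofPowerSeries ℤ k w ∧
      PowerSeries.constantCoeff w = f.eval x0 := by
  refine ⟨f.eval₂ (PowerSeries.C (R := k)) (PowerSeries.C (R := k) x0 + PowerSeries.X), ?_, ?_⟩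
  · have h1 : (j.comp (algebraMap k[X] (RatFunc k))) =
        (HahnSeries.ofPowerSeries ℤ k).comp
          (eval₂RingHom (PowerSeries.C (R := k)) (PowerSeries.C (R := k) x0 + PowerSeries.X)) := by
      refine Polynomial.ringHom_ext (fun a => ?_) ?_
      · simp only [RingHom.comp_apply, coe_eval₂RingHom, eval₂_C]
        rw [RatFunc.algebraMap_C, hC, HahnSeries.ofPowerSeries_C]
      · simp only [RingHom.comp_apply, coe_eval₂RingHom, eval₂_X]
        rw [RatFunc.algebraMap_X, hX, map_add, HahnSeries.ofPowerSeries_C,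
          HahnSeries.ofPowerSeries_X]
    exact congrArg (fun φ : k[X] →+* LaurentSeries k => φ f) h1
  · rw [hom_eval₂]
    have h2 : (PowerSeries.constantCoeff (R := k)).comp (PowerSeries.C (R := k)) = RingHom.id k := by
      ext; simp
    rw [h2]
    simp [eval₂_id]

/-- denominators -/
theorem YEt_den {k : Type} [Field k] (x0 : k) (j : RatFunc k →+* LaurentSeries k)
    (hC : ∀ c, j (RatFunc.C c) = HahnSeries.C c)
    (hX : j RatFunc.X = HahnSeries.C x0 + HahnSeries.single (1 : ℤ) (1 : k)) (a : RatFunc k)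
    (w : PowerSeries k) (ha : j a = HahnSeries.ofPowerSeries ℤ k w) :
    ∃ d q : k[X], d.eval x0 ≠ 0 ∧
      algebraMap k[X] (RatFunc k) d * a = algebraMap k[X] (RatFunc k) q := by
  have h1 : algebraMap k[X] (RatFunc k) a.denom * a = algebraMap k[X] (RatFunc k) a.num := by
    have h2 : algebraMap k[X] (RatFunc k) a.denom ≠ 0 := by
      rw [Ne, FaithfulSMul.algebraMap_eq_zero_iff]
      exact a.denom_ne_zero
    rw [(div_eq_iff h2).1 (RatFunc.num_div_denom a), mul_comm]
  refine ⟨a.denom, a.num, fun h0 => ?_, h1⟩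
  obtain ⟨wd, hd, hd0⟩ := YEt_poly x0 j hC hX a.denom
  obtain ⟨wn, hn, hn0⟩ := YEt_poly x0 j hC hX a.num
  have h3 : wn = wd * w := by
    refine HahnSeries.ofPowerSeries_injective (Γ := ℤ) ?_
    rw [map_mul, ← hn, ← hd, ← ha, ← map_mul, h1]
  have h4 : a.num.eval x0 = 0 := by
    rw [← hn0, h3, map_mul, hd0, h0, zero_mul]
  obtain ⟨u, v, huv⟩ := RatFunc.isCoprime_num_denom a
  have h5 := congrArg (Polynomial.eval x0) huv
  rw [eval_add, eval_mul, eval_mul, h4, h0] at h5
  simp at h5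

/-- approximation of Laurent series by rational functions -/
theorem YEt_app {k : Type} [Field k] (x0 : k) (j : RatFunc k →+* LaurentSeries k)
    (hC : ∀ c, j (RatFunc.C c) = HahnSeries.C c)
    (hX : j RatFunc.X = HahnSeries.C x0 + HahnSeries.single (1 : ℤ) (1 : k))
    (c : LaurentSeries k) (D : ℕ) :
    ∃ (a : RatFunc k) (w : PowerSeries k), j a = c +
      HahnSeries.single (D : ℤ) (1 : k) * HahnSeries.ofPowerSeries ℤ k w := by
  have ht : j (RatFunc.X - RatFunc.C x0) = HahnSeries.single (1 : ℤ) (1 : k) := by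
    rw [map_sub, hC, hX, add_sub_cancel_left]
  obtain ⟨e, M, he⟩ : ∃ e M : ℕ, c.order + (M : ℤ) = D + e :=
    ⟨(c.order + (D + c.order.natAbs : ℕ) - D).toNat, D + c.order.natAbs, by omega⟩
  have h1 := c.powerSeriesPart.eq_X_pow_mul_shift_add_trunc M
  have h0 := c.single_order_mul_powerSeriesPart
  set w0 := c.powerSeriesPart with hw0
  set w1 : PowerSeries k := PowerSeries.mk fun i => PowerSeries.coeff (i + M) w0 with hw1
  refine ⟨(RatFunc.X - RatFunc.C x0) ^ c.order *
    (PowerSeries.trunc M w0).eval₂ RatFunc.C (RatFunc.X - RatFunc.C x0),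
    -(PowerSeries.X ^ e * w1), ?_⟩
  have h2 : j ((PowerSeries.trunc M w0).eval₂ RatFunc.C (RatFunc.X - RatFunc.C x0)) =
      HahnSeries.ofPowerSeries ℤ k ((PowerSeries.trunc M w0 : k[X]) : PowerSeries k) := by
    rw [hom_eval₂, ht, ← eval₂_C_X_eq_coe, hom_eval₂, HahnSeries.ofPowerSeries_X]
    congr 1
    ext a : 1
    simp only [RingHom.comp_apply]
    rw [hC, HahnSeries.ofPowerSeries_C]
  have h3 : HahnSeries.ofPowerSeries ℤ k ((PowerSeries.trunc M w0 : k[X]) : PowerSeries k) =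
      HahnSeries.ofPowerSeries ℤ k w0 -
        HahnSeries.single (M : ℤ) (1 : k) * HahnSeries.ofPowerSeries ℤ k w1 := by
    conv_rhs => rw [h1]
    rw [map_add, map_mul, HahnSeries.ofPowerSeries_X_pow]
    ring
  rw [map_mul, map_zpow₀, ht, h2, h3, ← RatFunc.single_zpow, mul_sub, h0, ← mul_assoc,
    HahnSeries.single_mul_single, he, mul_one, map_neg, map_mul, HahnSeries.ofPowerSeries_X_pow,
    mul_neg, ← mul_assoc (HahnSeries.single (D : ℤ) (1 : k)), HahnSeries.single_mul_single, mul_one,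
    sub_eq_add_neg]

/-- poles are bounded -/
theorem YEt_pole {k : Type} [Field k] (u : LaurentSeries k) : ∃ N : ℕ, ∀ D : ℕ, N ≤ D →
    ∃ w : PowerSeries k, HahnSeries.single (D : ℤ) (1 : k) * u =
      HahnSeries.ofPowerSeries ℤ k (PowerSeries.X * w) := by
  refine ⟨u.order.natAbs + 1, fun D hD => ?_⟩
  obtain ⟨e, he⟩ : ∃ e : ℕ, (D : ℤ) + u.order = ((e + 1 : ℕ) : ℤ) :=
    ⟨(D + u.order - 1).toNat, by omega⟩
  refine ⟨PowerSeries.X ^ e * u.powerSeriesPart, ?_⟩
  conv_lhs => rw [← u.single_order_mul_powerSeriesPart]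
  rw [← mul_assoc, HahnSeries.single_mul_single, he, mul_one, ← mul_assoc (PowerSeries.X (R := k)),
    ← pow_succ', map_mul, HahnSeries.ofPowerSeries_X_pow]

theorem YEt_dual {G B C : Type} [Group G] [Fintype G] [CommRing B]
    [MulSemiringAction G B] [CommRing C] (ψ : B →+* C) {n : ℕ} {x y : Fin n → B}
    (hxy : ∀ σ : G, σ ≠ 1 → ∑ m, x m * (σ • y m) = 0) (hxy1 : ∑ m, x m * y m = 1)
    (v : G → C) (g : G) :
    ∑ m, (∑ δ, ψ (δ • y m) * v δ) * ψ (g • x m) = v g := by
  classical
  have h3 : ∀ δ : G, ∑ m, ψ (δ • y m) * ψ (g • x m) = if δ = g then 1 else 0 := by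
    intro δ
    have h4 : ∑ m, ψ (δ • y m) * ψ (g • x m) = ψ (g • ∑ m, x m * ((g⁻¹ * δ) • y m)) := by
      rw [Finset.smul_sum, map_sum]
      refine Finset.sum_congr rfl fun m _ => ?_
      rw [smul_mul', smul_smul, map_mul, mul_comm, mul_inv_cancel_left]
    rw [h4]
    by_cases hδ : δ = g
    · subst hδ
      simp only [inv_mul_cancel, one_smul]
      rw [hxy1]
      simp
    · rw [hxy _ (fun h => hδ (inv_mul_eq_one.1 h).symm), if_neg hδ]
      simp
  calc ∑ m, (∑ δ, ψ (δ • y m) * v δ) * ψ (g • x m)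
      = ∑ δ, (∑ m, ψ (δ • y m) * ψ (g • x m)) * v δ := by
        simp only [Finset.sum_mul]
        rw [Finset.sum_comm]
        refine Finset.sum_congr rfl fun m _ => Finset.sum_congr rfl fun g _ => ?_
        ring
    _ = ∑ δ, (if δ = g then 1 else 0) * v δ := by
        refine Finset.sum_congr rfl fun δ _ => ?_
        rw [h3]
    _ = v g := by simp

/-- elements with prescribed values at the conjugate embeddings -/
theorem YEt_target {k : Type} [Field k] {G : Type} [Group G] [Fintype G] {F : Type} [Field F]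
    [Algebra (RatFunc k) F] [MulSemiringAction G F] (hG : GalAlg (RatFunc k) G F) (x0 : k)
    (j : F →+* LaurentSeries k) (hj : YEmb (algebraMap (RatFunc k) F RatFunc.X)
      (HahnSeries.C x0 + HahnSeries.single (1 : ℤ) (1 : k)) j) (v : G → k) :
    ∃ z : F, ∀ g : G, ∃ w : PowerSeries k, j (g • z) = HahnSeries.ofPowerSeries ℤ k w ∧
      PowerSeries.constantCoeff w = v g := by
  classical
  obtain ⟨n, x, y, h1, h2⟩ := gal_dual' hG
  choose N hN using fun (q : G × Fin n) => YEt_pole (j (q.1 • x q.2))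
  choose w hw using fun (q : G × Fin n) => hN q (Finset.univ.sup N)
    (Finset.le_sup (Finset.mem_univ q))
  choose a w' ha using fun m : Fin n => YEt_app x0 (j.comp (algebraMap (RatFunc k) F)) hj.1 hj.2
    (∑ δ : G, j (δ • y m) * HahnSeries.C (v δ)) (Finset.univ.sup N)
  refine ⟨∑ m, algebraMap (RatFunc k) F (a m) * x m, fun g =>
    ⟨PowerSeries.C (v g) + ∑ m, w' m * (PowerSeries.X * w (g, m)), ?_, by simp⟩⟩
  rw [Finset.smul_sum, map_sum]
  have h5 : ∀ m, j (g • (algebraMap (RatFunc k) F (a m) * x m)) =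
      (∑ δ : G, j (δ • y m) * HahnSeries.C (v δ)) * j (g • x m) +
        HahnSeries.ofPowerSeries ℤ k (w' m * (PowerSeries.X * w (g, m))) := by
    intro m
    have h6 := ha m
    rw [RingHom.comp_apply] at h6
    rw [smul_mul', hG.comm, map_mul, h6, add_mul, map_mul, ← hw (g, m)]
    ring
  rw [Finset.sum_congr rfl fun m _ => h5 m, Finset.sum_add_distrib,
    YEt_dual j h1 h2 (fun δ => HahnSeries.C (v δ)) g, map_add, map_sum, HahnSeries.ofPowerSeries_C]

/-- clearing denominators away from `x0` -/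
theorem YEt_clear {k : Type} [Field k] {G : Type} [Group G] [Fintype G] {F : Type} [Field F]
    [Algebra (RatFunc k) F] [MulSemiringAction G F] (hG : GalAlg (RatFunc k) G F) (x0 : k)
    (j : F →+* LaurentSeries k) (hj : YEmb (algebraMap (RatFunc k) F RatFunc.X)
      (HahnSeries.C x0 + HahnSeries.single (1 : ℤ) (1 : k)) j) (z : F) (w : G → PowerSeries k)
    (hw : ∀ g : G, j (g • z) = HahnSeries.ofPowerSeries ℤ k (w g)) :
    ∃ (c : k[X]) (n : ℕ) (e : Fin n → k[X]), c.eval x0 ≠ 0 ∧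
      (algebraMap (RatFunc k) F (algebraMap k[X] (RatFunc k) c) * z) ^ n +
        ∑ l, algebraMap (RatFunc k) F (algebraMap k[X] (RatFunc k) (e l)) *
          (algebraMap (RatFunc k) F (algebraMap k[X] (RatFunc k) c) * z) ^ (l : ℕ) = 0 := by
  classical
  set P := MulSemiringAction.charpoly G z with hP
  have hPm : P.Monic := MulSemiringAction.monic_charpoly G z
  choose a ha using fun i : ℕ => hG.inv (P.coeff i) fun g => MulSemiringAction.smul_coeff_charpoly z i g
  have hj1 : P.map j = (∏ g : G, (X - C (w g))).map (HahnSeries.ofPowerSeries ℤ k) := by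
    rw [hP, MulSemiringAction.charpoly_eq, Polynomial.map_prod, Polynomial.map_prod]
    refine Finset.prod_congr rfl fun g _ => ?_
    rw [Polynomial.map_sub, Polynomial.map_sub, map_X, map_X, map_C, map_C, hw]
  have hj2 : ∀ i, j (algebraMap (RatFunc k) F (a i)) =
      HahnSeries.ofPowerSeries ℤ k ((∏ g : G, (X - C (w g))).coeff i) := by
    intro i
    rw [ha, ← coeff_map, ← coeff_map, hj1]
  choose d q hd hdq using fun i : ℕ => YEt_den x0 (j.comp (algebraMap (RatFunc k) F)) hj.1 hj.2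
    (a i) _ (hj2 i)
  set n := P.natDegree with hn
  set ρ : k[X] →+* F := (algebraMap (RatFunc k) F).comp (algebraMap k[X] (RatFunc k)) with hρ
  have hρ' : ∀ f, algebraMap (RatFunc k) F (algebraMap k[X] (RatFunc k) f) = ρ f := fun f => rfl
  have hdq' : ∀ i, ρ (d i) * P.coeff i = ρ (q i) := by
    intro i
    rw [← ha, ← hρ', ← hρ', ← map_mul, hdq]
  set c : k[X] := ∏ i : Fin n, d i with hc
  have hcd : ∀ l : Fin n, c = d l * ∏ i ∈ Finset.univ.erase l, d i := fun l =>
    (Finset.mul_prod_erase Finset.univ (fun i : Fin n => d i) (Finset.mem_univ l)).symm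
  refine ⟨c, n, fun l => c ^ (n - 1 - (l : ℕ)) * ((∏ i ∈ Finset.univ.erase l, d i) * q l), ?_, ?_⟩
  · rw [hc, eval_prod]
    exact Finset.prod_ne_zero_iff.2 fun i _ => hd i
  · simp only [hρ']
    have h0 : z ^ n + ∑ l : Fin n, P.coeff l * z ^ (l : ℕ) = 0 := by
      have h1 : P.eval z = 0 := MulSemiringAction.eval_charpoly G z
      rw [hPm.as_sum, eval_add, eval_pow, eval_X, eval_finsetSum] at h1
      rw [← h1, ← hn, Finset.sum_range]
      simp
    have h2 : ∀ l : Fin n, ρ (c ^ (n - 1 - (l : ℕ)) * ((∏ i ∈ Finset.univ.erase l, d i) * q l)) *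
        (ρ c * z) ^ (l : ℕ) = ρ c ^ n * (P.coeff l * z ^ (l : ℕ)) := by
      intro l
      have h3 : ρ c ^ n = ρ c ^ (n - 1 - (l : ℕ)) * ρ c * ρ c ^ (l : ℕ) := by
        rw [← pow_succ, ← pow_add]
        congr 1
        have := l.2
        omega
      have h4 : ρ c * P.coeff l = ρ ((∏ i ∈ Finset.univ.erase l, d i) * q l) := by
        rw [hcd l, map_mul, map_mul, ← hdq']
        ring
      rw [map_mul, map_pow, ← h4, h3, mul_pow]
      ring
    rw [Finset.sum_congr rfl fun l _ => h2 l, ← Finset.mul_sum, mul_pow, ← mul_add, h0, mul_zero]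

theorem prf_YEt : YEt := by
  intro k _ _ G _ _ F _ _ _ hG hloc
  classical
  have := Fintype.ofFinite G
  let algF : Algebra k[X] F :=
    ((algebraMap (RatFunc k) F).comp (algebraMap k[X] (RatFunc k))).toAlgebra
  have hst : IsScalarTower k[X] (RatFunc k) F := IsScalarTower.of_algebraMap_eq fun _ => rfl
  have halg : ∀ f : k[X], algebraMap k[X] F f =
      algebraMap (RatFunc k) F (algebraMap k[X] (RatFunc k) f) := fun _ => rfl
  have hinj : Function.Injective (algebraMap k[X] F) := by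
    exact (RingHom.injective (algebraMap (RatFunc k) F)).comp
      (IsFractionRing.injective k[X] (RatFunc k))
  have hcomm : ∀ (g : G) (f : k[X]), g • algebraMap k[X] F f = algebraMap k[X] F f := fun g f => by
    rw [halg, hG.comm]
  let φ : G → F →ₐ[k[X]] F := fun g =>
    { MulSemiringAction.toRingHom G F g with commutes' := fun f => hcomm g f }
  have hφ : ∀ g x, φ g x = g • x := fun _ _ => rfl
  let B := integralClosure k[X] F
  let actB : MulSemiringAction G B :=
    { smul := fun g b => ⟨g • (b : F), IsIntegral.map (φ g) b.2⟩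
      one_smul := fun b => Subtype.ext (one_smul G (b : F))
      mul_smul := fun g h b => Subtype.ext (mul_smul g h (b : F))
      smul_zero := fun g => Subtype.ext (smul_zero g)
      smul_add := fun g a b => Subtype.ext (smul_add g (a : F) (b : F))
      smul_one := fun g => Subtype.ext (smul_one g)
      smul_mul := fun g a b => Subtype.ext (MulSemiringAction.smul_mul g (a : F) (b : F)) }
  have hact : ∀ (g : G) (b : B), ((g • b : B) : F) = g • (b : F) := fun _ _ => rfl
  have hBalg : ∀ f : k[X], ((algebraMap k[X] B f : B) : F) = algebraMap k[X] F f := fun _ => rfl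
  refine ⟨B, inferInstance, inferInstance, actB, B.val.toRingHom, ?_, inferInstance,
    Subtype.coe_injective, fun _ => rfl, fun _ _ => rfl, ?_⟩
  swap
  · intro x n c _ hx
    exact ⟨⟨x, YEt_int x n c hx⟩, rfl⟩
  refine ⟨fun g f => Subtype.ext (hcomm g f), fun a b hab => hinj (congrArg Subtype.val hab), ?_, ?_⟩
  · intro b hb
    obtain ⟨a, ha⟩ := hG.inv (b : F) fun g => congrArg Subtype.val (hb g)
    have h1 : IsIntegral k[X] a := by
      rw [← isIntegral_algebraMap_iff (RingHom.injective (algebraMap (RatFunc k) F)), ha]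
      exact b.2
    obtain ⟨f, hf⟩ := IsIntegrallyClosed.algebraMap_eq_of_integral h1
    exact ⟨f, Subtype.ext (by rw [hBalg, halg, hf, ha])⟩
  · intro σ hσ
    by_contra hI
    set I := Ideal.span {x : B | ∃ b : B, x = b - σ • b} with hIdef
    -- a common zero
    obtain ⟨x0, hx0⟩ : ∃ x0 : k, ∀ f ∈ I.comap (algebraMap k[X] B), f.eval x0 = 0 := by
      set J := I.comap (algebraMap k[X] B) with hJ
      have hJt : J ≠ ⊤ := Ideal.comap_ne_top _ hI
      obtain ⟨f0, hf0⟩ := (inferInstance : IsPrincipalIdealRing k[X]).principal J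
      by_cases h0 : f0.degree = 0
      · exfalso
        apply hJt
        rw [hf0]
        exact Ideal.span_singleton_eq_top.2 (isUnit_iff_degree_eq_zero.2 h0)
      · obtain ⟨x0, hx0⟩ := IsAlgClosed.exists_root f0 h0
        refine ⟨x0, fun f hf => ?_⟩
        rw [hf0] at hf
        obtain ⟨g, rfl⟩ := Ideal.mem_span_singleton.1 hf
        rw [eval_mul, hx0.eq_zero, zero_mul]
    obtain ⟨j, hj⟩ := hloc x0
    obtain ⟨v, hv⟩ : ∃ v : G → k, Function.Injective v := by
      have : Infinite k := IsAlgClosed.instInfinite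
      exact ⟨_, (Infinite.natEmbedding k).injective.comp
        ((Fin.val_injective).comp (Fintype.equivFin G).injective)⟩
    obtain ⟨z, hz⟩ := YEt_target hG x0 j hj v
    choose w hw hwv using hz
    obtain ⟨c, n, e, hc, hce⟩ := YEt_clear hG x0 j hj z w hw
    let b : B := ⟨algebraMap k[X] F c * z, YEt_int _ n e hce⟩
    -- the norm of `b - σ b`
    obtain ⟨f, hf⟩ : ∃ f : k[X], algebraMap k[X] F f = ∏ h : G, h • ((b : F) - σ • (b : F)) := by
      have h1 : IsIntegral k[X] (∏ h : G, h • ((b : F) - σ • (b : F))) :=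
        IsIntegral.prod _ fun h _ => IsIntegral.map (φ h) (IsIntegral.sub b.2 (IsIntegral.map (φ σ) b.2))
      obtain ⟨a, ha⟩ := hG.inv (∏ h : G, h • ((b : F) - σ • (b : F))) fun g => by
        rw [Finset.smul_prod']
        refine Fintype.prod_bijective (fun x => g * x) (Group.mulLeft_bijective g) _ _ fun x => ?_
        rw [smul_smul]
      rw [← ha, isIntegral_algebraMap_iff (RingHom.injective (algebraMap (RatFunc k) F))] at h1
      obtain ⟨f, hf⟩ := IsIntegrallyClosed.algebraMap_eq_of_integral h1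
      exact ⟨f, by rw [halg, hf, ha]⟩
    have hfI : f ∈ I.comap (algebraMap k[X] B) := by
      rw [Ideal.mem_comap]
      have h2 : algebraMap k[X] B f = (∏ h ∈ Finset.univ.erase (1 : G), h • (b - σ • b)) *
          (b - σ • b) := by
        have h3 : (∏ h ∈ Finset.univ.erase (1 : G), h • (b - σ • b)) * (b - σ • b) =
            ∏ h : G, h • (b - σ • b) := by
          rw [← Finset.prod_erase_mul Finset.univ (fun h : G => h • (b - σ • b))
            (Finset.mem_univ (1 : G)), one_smul]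
        rw [h3]
        refine Subtype.ext ?_
        rw [hBalg, hf, ← Subalgebra.coe_val, map_prod]
        rfl
      rw [h2]
      exact I.mul_mem_left _ (Ideal.subset_span ⟨b, rfl⟩)
    have hf0 := hx0 f hfI
    -- the value at `x0`
    obtain ⟨wf, hwf, hwf0⟩ := YEt_poly x0 (j.comp (algebraMap (RatFunc k) F)) hj.1 hj.2 f
    obtain ⟨wc, hwc, hwc0⟩ := YEt_poly x0 (j.comp (algebraMap (RatFunc k) F)) hj.1 hj.2 c
    have hgb : ∀ g : G, j (g • (b : F)) = HahnSeries.ofPowerSeries ℤ k (wc * w g) := by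
      intro g
      have h1 : g • (b : F) = algebraMap k[X] F c * g • z := by
        change g • (algebraMap k[X] F c * z) = _
        rw [smul_mul', hcomm]
      rw [h1, map_mul, hw, map_mul, ← hwc]
      rfl
    have hwf' : wf = ∏ h : G, (wc * w h - wc * w (h * σ)) := by
      refine HahnSeries.ofPowerSeries_injective (Γ := ℤ) ?_
      rw [← hwf, map_prod]
      change j (algebraMap k[X] F f) = _
      rw [hf, map_prod]
      refine Finset.prod_congr rfl fun h _ => ?_
      rw [smul_sub, map_sub, smul_smul, hgb, hgb, map_sub]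
    have h5 : ∏ h : G, (c.eval x0 * v h - c.eval x0 * v (h * σ)) = 0 := by
      rw [← hf0, ← hwf0, hwf', map_prod]
      refine Finset.prod_congr rfl fun h _ => ?_
      rw [map_sub, map_mul, map_mul, hwc0, hwv, hwv]
    obtain ⟨h, _, h6⟩ := Finset.prod_eq_zero_iff.1 h5
    rw [← mul_sub, mul_eq_zero, or_iff_right hc, sub_eq_zero] at h6
    exact hσ (by simpa using (hv h6).symm)

end MP7b0bad

end

section

/-!
# MP_7b0bad_ag, item YEv: evaluation of rational functions
-/

set_option autoImplicit false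

namespace MP7b0bad

open Polynomial

theorem prf_YEv : YEv := by
  intro k _ T _ c u hinj
  constructor
  · have hg : Function.Injective (Polynomial.eval₂RingHom c u) := by
      rw [injective_iff_map_eq_zero]
      intro f hf
      by_contra hne
      exact hinj f hne hf
    refine ⟨IsFractionRing.lift hg, fun a => ?_, ?_⟩
    · rw [← RatFunc.algebraMap_C, IsFractionRing.lift_algebraMap]
      simp
    · rw [← RatFunc.algebraMap_X, IsFractionRing.lift_algebraMap]
      simp
  · intro h h' hC hX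
    apply IsLocalization.ringHom_ext (nonZeroDivisors k[X])
    apply Polynomial.ringHom_ext
    · intro a
      simp only [RingHom.comp_apply, RatFunc.algebraMap_C]
      exact hC a
    · simp only [RingHom.comp_apply, RatFunc.algebraMap_X]
      exact hX

end MP7b0bad

end

section

set_option autoImplicit false

namespace MP7b0bad

open scoped commutatorElement

/-- the base element is not in the `r`-group -/
theorem YGrp_notMem (p r : ℕ) [Fact p.Prime] (G : Type) [Group G] [Finite G] (A Φ : Subgroup G)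
    (t : G) (h : Blk p r G A Φ t) : t ∉ A := by
  intro ht
  have := h.pA ⟨t, ht⟩
  obtain ⟨n, hn⟩ := this
  have h1 : t ^ r ^ n = 1 := by
    have := congrArg Subtype.val hn
    simpa using this
  have h2 : p ∣ r ^ n := by rw [← h.ord]; exact orderOf_dvd_of_pow_eq_one h1
  have h3 : p ∣ r := (Fact.out : p.Prime).dvd_of_dvd_pow h2
  exact h.ne ((Nat.prime_dvd_prime_iff_eq Fact.out h.rprime).1 h3).symm

theorem YGrp_hom (p r : ℕ) [Fact p.Prime] (G : Type) [Group G] [Finite G] (A Φ : Subgroup G)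
    (t : G) (h : Blk p r G A Φ t) :
    ∃ i : G →* Multiplicative (ZMod p), i.ker = A ∧ i t = Multiplicative.ofAdd 1 := by
  have hp : p.Prime := Fact.out
  have := h.nA
  set q : G →* G ⧸ A := QuotientGroup.mk' A with hq
  have ht1 : q t ≠ 1 := by
    intro h1
    exact YGrp_notMem p r G A Φ t h ((QuotientGroup.eq_one_iff t).1 h1)
  have htp : (q t) ^ p = 1 := by rw [← map_pow, ← h.ord, pow_orderOf_eq_one, map_one]
  have hord : orderOf (q t) = p := orderOf_eq_prime htp ht1
  let φ : ZMod p →+ Additive (G ⧸ A) := ZMod.lift p ⟨zmultiplesHom _ (Additive.ofMul (q t)), by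
    simp only [zmultiplesHom_apply, natCast_zsmul]
    rw [← ofMul_pow, htp, ofMul_one]⟩
  have hφ : ∀ j : ℤ, φ (j : ZMod p) = Additive.ofMul ((q t) ^ j) := by
    intro j
    show ZMod.lift p _ (j : ZMod p) = _
    rw [ZMod.lift_coe]
    simp [zmultiplesHom_apply, ofMul_zpow]
  have hinj : Function.Injective φ := by
    rw [injective_iff_map_eq_zero]
    intro x hx
    obtain ⟨j, rfl⟩ := ZMod.intCast_surjective x
    rw [hφ] at hx
    have h1 : (q t) ^ j = 1 := by
      have := congrArg Additive.toMul hx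
      simpa using this
    rw [← orderOf_dvd_iff_zpow_eq_one, hord] at h1
    exact (ZMod.intCast_zmod_eq_zero_iff_dvd j p).2 h1
  have hsurj : Function.Surjective φ := by
    intro x
    obtain ⟨g, hg⟩ := QuotientGroup.mk'_surjective A (Additive.toMul x)
    have hg2 : g ∈ A ⊔ Subgroup.zpowers t := by rw [h.gen]; trivial
    obtain ⟨a, ha, b, hb, hab⟩ := Subgroup.mem_sup_of_normal_left.1 hg2
    obtain ⟨j, rfl⟩ := Subgroup.mem_zpowers_iff.1 hb
    refine ⟨(j : ZMod p), ?_⟩
    rw [hφ]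
    have h1 : q g = (q t) ^ j := by
      rw [← hab, map_mul, map_zpow]
      have : q a = 1 := (QuotientGroup.eq_one_iff a).2 ha
      rw [this, one_mul]
    rw [← h1]
    show Additive.ofMul (QuotientGroup.mk' A g) = x
    rw [hg]; rfl
  let e : ZMod p ≃+ Additive (G ⧸ A) := AddEquiv.ofBijective φ ⟨hinj, hsurj⟩
  let f : (G ⧸ A) →* Multiplicative (ZMod p) := AddMonoidHom.toMultiplicativeRight e.symm.toAddMonoidHom
  have hf : ∀ x, f x = Multiplicative.ofAdd (e.symm (Additive.ofMul x)) := fun x => rfl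
  refine ⟨f.comp q, ?_, ?_⟩
  · ext g
    rw [MonoidHom.mem_ker, MonoidHom.comp_apply, hf]
    constructor
    · intro h1
      have h2 : e.symm (Additive.ofMul (q g)) = 0 := by
        have := congrArg Multiplicative.toAdd h1
        simpa using this
      have h3 : Additive.ofMul (q g) = 0 := by
        have := congrArg e h2
        simpa using this
      have h4 : q g = 1 := by
        have := congrArg Additive.toMul h3
        simpa using this
      exact (QuotientGroup.eq_one_iff g).1 h4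
    · intro h1
      have h4 : q g = 1 := (QuotientGroup.eq_one_iff g).2 h1
      rw [h4, ofMul_one, map_zero]
      rfl
  · rw [MonoidHom.comp_apply, hf]
    congr 1
    rw [AddEquiv.symm_apply_eq]
    have := hφ 1
    rw [Int.cast_one, zpow_one] at this
    exact this.symm

/-- A fixed point argument -/
theorem YGrp_central (r : ℕ) (hr : r.Prime) (G : Type) [Group G] [Finite G] (A N : Subgroup G)
    (hA : IsPGroup r A) [N.Normal] (hN : N ≠ ⊥) (hNA : N ≤ A) :
    ∃ n ∈ N, n ≠ 1 ∧ ∀ a ∈ A, a * n = n * a := by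
  have : Fact r.Prime := ⟨hr⟩
  let act : MulAction A N := MulAction.compHom N ((MulAut.conjNormal (H := N)).comp A.subtype)
  have hpN : IsPGroup r N := hA.to_le hNA
  have hcard : r ∣ Nat.card N := by
    obtain ⟨n, hn⟩ := IsPGroup.iff_card.1 hpN
    rw [hn]
    apply dvd_pow_self
    rintro rfl
    rw [pow_zero] at hn
    exact hN (Subgroup.card_eq_one.1 hn)
  have hs : ∀ (a : A) (n : N), ((a • n : N) : G) = a * n * (a : G)⁻¹ := fun a n => rfl
  have h1 : (1 : N) ∈ MulAction.fixedPoints A N := by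
    intro a
    apply Subtype.ext
    rw [hs]; simp
  obtain ⟨b, hb, hb1⟩ := hA.exists_fixed_point_of_prime_dvd_card_of_fixed_point N hcard h1
  refine ⟨b, b.2, ?_, ?_⟩
  · intro h2
    exact hb1 (Subtype.ext h2.symm)
  · intro a ha
    have := congrArg Subtype.val (hb ⟨a, ha⟩)
    rw [hs] at this
    simp only at this
    rw [mul_inv_eq_iff_eq_mul] at this
    exact this

theorem YGrp_r (r : ℕ) (hr : r.Prime) (G : Type) [Group G] [Finite G] (N : Subgroup G)
    (hA : IsPGroup r N) (hN : N ≠ ⊥) : ∃ n ∈ N, n ≠ 1 ∧ n ^ r = 1 := by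
  have : Fact r.Prime := ⟨hr⟩
  have hcard : r ∣ Nat.card N := by
    obtain ⟨n, hn⟩ := IsPGroup.iff_card.1 hA
    rw [hn]
    apply dvd_pow_self
    rintro rfl
    rw [pow_zero] at hn
    exact hN (Subgroup.card_eq_one.1 hn)
  obtain ⟨x, hx⟩ := exists_prime_orderOf_dvd_card' r hcard
  refine ⟨x, x.2, ?_, ?_⟩
  · intro h1
    have : x = 1 := Subtype.ext h1
    rw [this, orderOf_one] at hx
    exact hr.one_lt.ne hx
  · have := pow_orderOf_eq_one x
    rw [hx] at this
    have := congrArg Subtype.val this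
    simpa using this

theorem YGrp_bot (p r : ℕ) [Fact p.Prime] (G : Type) [Group G] [Finite G] (A Φ : Subgroup G)
    (t : G) (h : Blk p r G A Φ t) (hΦ : Φ = ⊥) : (∀ n ∈ A, ∀ a ∈ A, n * a = a * n) ∧
    (∀ n ∈ A, n ^ r = 1) ∧ ∀ K : Subgroup G, K.Normal → K ≤ A → K = ⊥ ∨ K = A := by
  have := h.nA
  have : Fact r.Prime := ⟨h.rprime⟩
  have hAne : A ≠ ⊥ := by
    intro h1
    have := h.lt
    rw [h1, hΦ] at this
    exact lt_irrefl _ this
  have hK : ∀ K : Subgroup G, (∀ b ∈ K, t * b * t⁻¹ ∈ K) → K ≤ A → K = ⊥ ∨ K = A := by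
    intro K hK1 hK2
    by_cases hKA : K = A
    · exact Or.inr hKA
    · left
      have := h.max K hK2 hK1 hKA
      rw [hΦ] at this
      exact le_bot_iff.1 this
  have hab : ∀ n ∈ A, ∀ a ∈ A, n * a = a * n := by
    have hle : (⁅A, A⁆ : Subgroup G) ≤ A := Subgroup.commutator_le_left A A
    have hnorm : (⁅A, A⁆ : Subgroup G).Normal := inferInstance
    rcases hK ⁅A, A⁆ (fun b hb => hnorm.conj_mem b hb t) hle with h1 | h1
    · intro n hn a ha
      have : ⁅n, a⁆ ∈ (⁅A, A⁆ : Subgroup G) := Subgroup.commutator_mem_commutator hn ha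
      rw [h1, Subgroup.mem_bot] at this
      exact commutatorElement_eq_one_iff_mul_comm.1 this
    · exfalso
      have hnil : Group.IsNilpotent A := h.pA.isNilpotent
      have : Nontrivial A := (Subgroup.nontrivial_iff_ne_bot A).2 hAne
      have h2 := Group.IsSolvable.commutator_lt_top_of_nontrivial A
      have h3 : (_root_.commutator A).map A.subtype = (⊤ : Subgroup A).map A.subtype := by
        rw [Subgroup.map_subtype_commutator, h1, ← MonoidHom.range_eq_map, Subgroup.range_subtype]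
      have h4 := Subgroup.map_injective (Subgroup.subtype_injective A) h3
      exact h2.ne h4
  refine ⟨hab, ?_, ?_⟩
  · let B : Subgroup G :=
      { carrier := {x | ∃ a ∈ A, a ^ r = x}
        mul_mem' := by
          rintro _ _ ⟨a, ha, rfl⟩ ⟨b, hb, rfl⟩
          refine ⟨a * b, mul_mem ha hb, ?_⟩
          have : Commute a b := hab a ha b hb
          rw [this.mul_pow]
        one_mem' := ⟨1, one_mem _, one_pow _⟩
        inv_mem' := by
          rintro _ ⟨a, ha, rfl⟩
          exact ⟨a⁻¹, inv_mem ha, inv_pow _ _⟩ }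
    have hB1 : ∀ b ∈ B, t * b * t⁻¹ ∈ B := by
      rintro _ ⟨a, ha, rfl⟩
      exact ⟨t * a * t⁻¹, h.nA.conj_mem a ha t, conj_pow⟩
    have hB2 : B ≤ A := by
      rintro _ ⟨a, ha, rfl⟩
      exact pow_mem ha r
    rcases hK B hB1 hB2 with h1 | h1
    · intro n hn
      have : n ^ r ∈ B := ⟨n, hn, rfl⟩
      rw [h1, Subgroup.mem_bot] at this
      exact this
    · exfalso
      let F : A → A := fun a => a ^ r
      have hsurj : Function.Surjective F := by
        intro b
        have hb : (b : G) ∈ B := by rw [h1]; exact b.2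
        obtain ⟨a, ha, hab'⟩ := hb
        exact ⟨⟨a, ha⟩, Subtype.ext hab'⟩
      have hinj : Function.Injective F := Finite.injective_iff_surjective.2 hsurj
      obtain ⟨n, hn, hn1, hnr⟩ := YGrp_r r h.rprime G A h.pA hAne
      apply hn1
      have : F ⟨n, hn⟩ = F 1 := by
        apply Subtype.ext
        show n ^ r = ((1 : A) ^ r : A)
        rw [hnr, one_pow]; rfl
      have := congrArg Subtype.val (hinj this)
      simpa using this
  · intro K hKn hKA
    exact hK K (fun b hb => hKn.conj_mem b hb t) hKA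

theorem YGrp_quot (p r : ℕ) [Fact p.Prime] (G : Type) [Group G] [Finite G] (A Φ : Subgroup G)
    (t : G) (h : Blk p r G A Φ t) (N : Subgroup G) [N.Normal] (hN : N ≤ Φ) :
    Blk p r (G ⧸ N) (A.map (QuotientGroup.mk' N)) (Φ.map (QuotientGroup.mk' N))
      (QuotientGroup.mk' N t) := by
  have hs := QuotientGroup.mk'_surjective N
  have hNA : N ≤ A := hN.trans h.lt.le
  have hcm : ∀ H : Subgroup G, N ≤ H → (H.map (QuotientGroup.mk' N)).comap (QuotientGroup.mk' N) = H := by
    intro H hH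
    rw [Subgroup.comap_map_eq, QuotientGroup.ker_mk', sup_eq_left.2 hH]
  refine ⟨h.rprime, h.ne, ?_, ?_, ?_, ?_, ?_, ?_, ?_, ?_⟩
  · apply orderOf_eq_prime
    · rw [← map_pow, ← h.ord, pow_orderOf_eq_one, map_one]
    · intro h1
      exact YGrp_notMem p r G A Φ t h (hNA ((QuotientGroup.eq_one_iff t).1 h1))
  · exact h.nA.map _ hs
  · exact h.pA.map _
  · rw [← MonoidHom.map_zpowers, ← Subgroup.map_sup, h.gen, ← MonoidHom.range_eq_map,
      MonoidHom.range_eq_top.2 hs]
  · have := Subgroup.map_normalClosure ({t} : Set G) (QuotientGroup.mk' N) hs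
    rw [h.ncl, ← MonoidHom.range_eq_map, MonoidHom.range_eq_top.2 hs, Set.image_singleton] at this
    exact this.symm
  · exact h.nPhi.map _ hs
  · refine lt_of_le_of_ne (Subgroup.map_mono h.lt.le) ?_
    intro h1
    have := congrArg (Subgroup.comap (QuotientGroup.mk' N)) h1
    rw [hcm _ hN, hcm _ hNA] at this
    exact h.lt.ne this
  · intro B' hB1 hB2 hB3
    have hb := h.max (B'.comap (QuotientGroup.mk' N)) ?_ ?_ ?_
    · have := Subgroup.map_mono (f := QuotientGroup.mk' N) hb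
      rwa [Subgroup.map_comap_eq_self_of_surjective hs] at this
    · have := Subgroup.comap_mono (f := QuotientGroup.mk' N) hB1
      rwa [hcm _ hNA] at this
    · intro b hb
      rw [Subgroup.mem_comap] at hb ⊢
      rw [map_mul, map_mul, map_inv]
      exact hB2 _ hb
    · intro h1
      apply hB3
      have := congrArg (Subgroup.map (QuotientGroup.mk' N)) h1
      rwa [Subgroup.map_comap_eq_self_of_surjective hs] at this

theorem YGrp_sup (p r : ℕ) [Fact p.Prime] (G : Type) [Group G] [Finite G] (A Φ : Subgroup G)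
    (t : G) (h : Blk p r G A Φ t) (N : Subgroup G) [N.Normal] (hN : N ≤ Φ) (G₀ : Subgroup G)
    (hG : N ⊔ G₀ = ⊤) : G₀ = ⊤ := by
  have hp : p.Prime := Fact.out
  obtain ⟨i, hiA, hit⟩ := YGrp_hom p r G A Φ t h
  have hNA : N ≤ A := hN.trans h.lt.le
  -- an element of `G₀` above `i t`
  have ht : t ∈ N ⊔ G₀ := by rw [hG]; trivial
  obtain ⟨n, hn, g0, hg0, hng⟩ := Subgroup.mem_sup_of_normal_left.1 ht
  have hin : i n = 1 := by
    have : n ∈ i.ker := by rw [hiA]; exact hNA hn
    exact this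
  have hig0 : i g0 = i t := by rw [← hng, map_mul, hin, one_mul]
  have hxp : ∀ x : Multiplicative (ZMod p), x ^ p = 1 := by
    intro x
    have : Multiplicative.ofAdd (p • Multiplicative.toAdd x) = x ^ p := rfl
    rw [← this, nsmul_eq_mul, CharP.cast_eq_zero, zero_mul]; rfl
  have hg0p : g0 ^ p ∈ A := by
    rw [← hiA, MonoidHom.mem_ker, map_pow, hxp]
  obtain ⟨s, hs⟩ := h.pA ⟨g0 ^ p, hg0p⟩
  have hs' : (g0 ^ p) ^ r ^ s = 1 := by
    have := congrArg Subtype.val hs
    simpa using this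
  have hcop : Nat.Coprime (r ^ s) p := Nat.Coprime.pow_left _ ((Nat.coprime_primes h.rprime hp).2 h.ne)
  obtain ⟨e, he0, he1⟩ := Nat.chineseRemainder hcop 0 1
  obtain ⟨c, rfl⟩ : r ^ s ∣ e := (Nat.modEq_zero_iff_dvd).1 he0
  set g1 := g0 ^ (r ^ s * c) with hg1
  have hg1G : g1 ∈ G₀ := pow_mem hg0 _
  have hg1p : g1 ^ p = 1 := by
    rw [hg1, ← pow_mul, show r ^ s * c * p = (p * r ^ s) * c by ring, pow_mul, pow_mul, hs', one_pow]
  have hig1 : i g1 = i t := by
    rw [hg1, map_pow, hig0]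
    have h1 : orderOf (i t) ∣ p := orderOf_dvd_of_pow_eq_one (hxp _)
    have h2 : (r ^ s * c) ≡ 1 [MOD orderOf (i t)] := he1.of_dvd h1
    rw [← pow_one (i t), ← pow_mul, one_mul]
    exact pow_eq_pow_iff_modEq.2 h2
  -- Sylow
  have hP1 : IsPGroup p (Subgroup.zpowers t) := by
    rintro ⟨x, hx⟩
    obtain ⟨j, rfl⟩ := Subgroup.mem_zpowers_iff.1 hx
    refine ⟨1, Subtype.ext ?_⟩
    show (t ^ j) ^ p ^ 1 = 1
    rw [pow_one, ← zpow_natCast, ← zpow_mul, mul_comm, zpow_mul, zpow_natCast, ← h.ord,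
      pow_orderOf_eq_one, one_zpow]
  have hP2 : IsPGroup p (Subgroup.zpowers g1) := by
    rintro ⟨x, hx⟩
    obtain ⟨j, rfl⟩ := Subgroup.mem_zpowers_iff.1 hx
    refine ⟨1, Subtype.ext ?_⟩
    show (g1 ^ j) ^ p ^ 1 = 1
    rw [pow_one, ← zpow_natCast, ← zpow_mul, mul_comm, zpow_mul, zpow_natCast, hg1p, one_zpow]
  obtain ⟨P, hP⟩ := hP1.exists_le_sylow
  obtain ⟨Q, hQ⟩ := hP2.exists_le_sylow
  obtain ⟨x, hx⟩ := MulAction.exists_smul_eq G Q P
  have hx1 : x * g1 * x⁻¹ ∈ P := by
    rw [← hx]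
    have : g1 ∈ (Q : Subgroup G) := hQ (Subgroup.mem_zpowers g1)
    exact Subgroup.smul_mem_pointwise_smul g1 (MulAut.conj x) (Q : Subgroup G) this
  have hx2 : t ∈ P := hP (Subgroup.mem_zpowers t)
  have hx3 : x * g1 * x⁻¹ * t⁻¹ ∈ A := by
    rw [← hiA, MonoidHom.mem_ker, map_mul, map_mul, map_mul, map_inv, map_inv, hig1]
    rw [mul_comm (i x), mul_assoc (i t), mul_inv_cancel, mul_one, mul_inv_cancel]
  have hx4 : x * g1 * x⁻¹ * t⁻¹ ∈ (P : Subgroup G) := mul_mem hx1 (inv_mem hx2)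
  have hx5 : x * g1 * x⁻¹ = t := by
    obtain ⟨a, ha⟩ := h.pA ⟨_, hx3⟩
    obtain ⟨b, hb⟩ := P.2 ⟨_, hx4⟩
    have ha' : (x * g1 * x⁻¹ * t⁻¹) ^ r ^ a = 1 := by
      have := congrArg Subtype.val ha
      simpa using this
    have hb' : (x * g1 * x⁻¹ * t⁻¹) ^ p ^ b = 1 := by
      have := congrArg Subtype.val hb
      simpa using this
    have h1 : orderOf (x * g1 * x⁻¹ * t⁻¹) ∣ 1 := by
      have hc : Nat.Coprime (r ^ a) (p ^ b) :=
        Nat.Coprime.pow _ _ ((Nat.coprime_primes h.rprime hp).2 h.ne)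
      rw [← hc]
      exact Nat.dvd_gcd (orderOf_dvd_of_pow_eq_one ha') (orderOf_dvd_of_pow_eq_one hb')
    have h2 := orderOf_eq_one_iff.1 (Nat.dvd_one.1 h1)
    exact mul_inv_eq_one.1 h2
  have := h.nA
  have := h.nPhi
  -- the intersection
  by_cases hB : G₀ ⊓ A = A
  · have : A ≤ G₀ := by rw [← hB]; exact inf_le_left
    have hNG : N ≤ G₀ := hNA.trans this
    rwa [sup_eq_right.2 hNG] at hG
  · exfalso
    have hmax := h.max ((G₀ ⊓ A).map (MulAut.conj x).toMonoidHom) ?_ ?_ ?_
    · have hBΦ : G₀ ⊓ A ≤ Φ := by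
        intro b hb
        have h1 : x * b * x⁻¹ ∈ Φ := hmax ⟨b, hb, rfl⟩
        have h2 := h.nPhi.conj_mem _ h1 x⁻¹
        have h3 : x⁻¹ * (x * b * x⁻¹) * x⁻¹⁻¹ = b := by group
        rwa [h3] at h2
      have hAΦ : A ≤ Φ := by
        intro a ha
        have ha' : a ∈ N ⊔ G₀ := by rw [hG]; trivial
        obtain ⟨n', hn', g', hg', hng'⟩ := Subgroup.mem_sup_of_normal_left.1 ha'
        have h1 : g' ∈ A := by
          have : g' = n'⁻¹ * a := by rw [← hng']; group
          rw [this]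
          exact mul_mem (inv_mem (hNA hn')) ha
        rw [← hng']
        exact mul_mem (hN hn') (hBΦ ⟨hg', h1⟩)
      exact absurd (h.lt.trans_le hAΦ) (lt_irrefl _)
    · rintro _ ⟨b, hb, rfl⟩
      exact h.nA.conj_mem b hb.2 x
    · rintro _ ⟨b, hb, rfl⟩
      refine ⟨g1 * b * g1⁻¹, ⟨G₀.mul_mem (G₀.mul_mem hg1G hb.1) (G₀.inv_mem hg1G), h.nA.conj_mem b hb.2 g1⟩, ?_⟩
      show x * (g1 * b * g1⁻¹) * x⁻¹ = t * (x * b * x⁻¹) * t⁻¹
      rw [← hx5]; group
    · intro h1
      apply hB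
      apply le_antisymm inf_le_right
      intro a ha
      have h2 : x * a * x⁻¹ ∈ A := h.nA.conj_mem a ha x
      rw [← h1] at h2
      obtain ⟨b, hb, hb2⟩ := h2
      have h3 : x * b * x⁻¹ = x * a * x⁻¹ := hb2
      have h4 : b = a := by simpa using h3
      rw [← h4]; exact hb

theorem prf_YGrp : YGrp := by
  intro p r _ G _ _ A Φ t h
  refine ⟨YGrp_hom p r G A Φ t h, ?_, YGrp_bot p r G A Φ t h⟩
  intro hΦ
  have := h.nA
  have := h.nPhi
  let S : Set (Subgroup G) := {N | N.Normal ∧ N ≠ ⊥ ∧ N ≤ Φ}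
  have hSfin : S.Finite := Set.toFinite S
  have hSne : S.Nonempty := ⟨Φ, h.nPhi, hΦ, le_rfl⟩
  obtain ⟨N, hNmin⟩ := hSfin.exists_minimal hSne
  obtain ⟨hNn, hNb, hNΦ⟩ := hNmin.1
  have := hNn
  have hmin : ∀ K : Subgroup G, K.Normal → K ≤ N → K = ⊥ ∨ K = N := by
    intro K hK1 hK2
    by_cases hKb : K = ⊥
    · exact Or.inl hKb
    · right
      exact le_antisymm hK2 (hNmin.2 ⟨hK1, hKb, hK2.trans hNΦ⟩ hK2)
  have hNA : N ≤ A := hNΦ.trans h.lt.le
  have hcen : ∀ n ∈ N, ∀ a ∈ A, n * a = a * n := by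
    obtain ⟨n, hn, hn1, hna⟩ := YGrp_central r h.rprime G A N h.pA hNb hNA
    have hC : (Subgroup.centralizer (A : Set G)).Normal := inferInstance
    rcases hmin (N ⊓ Subgroup.centralizer (A : Set G)) inferInstance inf_le_left with h1 | h1
    · exfalso
      apply hn1
      have : n ∈ N ⊓ Subgroup.centralizer (A : Set G) :=
        ⟨hn, Subgroup.mem_centralizer_iff.2 (fun a ha => hna a ha)⟩
      rw [h1, Subgroup.mem_bot] at this
      exact this
    · intro m hm a ha
      rw [← h1] at hm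
      exact ((Subgroup.mem_centralizer_iff.1 hm.2) a ha).symm
  refine ⟨N, hNn, hNb, hNΦ, hcen, ?_, hmin, ?_, YGrp_quot p r G A Φ t h N hNΦ⟩
  · let B : Subgroup G :=
      { carrier := {x | x ∈ N ∧ x ^ r = 1}
        mul_mem' := by
          rintro a b ⟨ha, ha1⟩ ⟨hb, hb1⟩
          refine ⟨mul_mem ha hb, ?_⟩
          have : Commute a b := hcen a ha b (hNA hb)
          rw [this.mul_pow, ha1, hb1, one_mul]
        one_mem' := ⟨one_mem _, one_pow _⟩
        inv_mem' := by
          rintro a ⟨ha, ha1⟩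
          exact ⟨inv_mem ha, by rw [inv_pow, ha1, inv_one]⟩ }
    have hBn : B.Normal := by
      constructor
      rintro n ⟨hn, hn1⟩ g
      refine ⟨hNn.conj_mem n hn g, ?_⟩
      rw [conj_pow, hn1, mul_one, mul_inv_cancel]
    rcases hmin B hBn (fun x hx => hx.1) with h1 | h1
    · exfalso
      obtain ⟨n, hn, hn1, hnr⟩ := YGrp_r r h.rprime G N (h.pA.to_le hNA) hNb
      apply hn1
      have : n ∈ B := ⟨hn, hnr⟩
      rw [h1, Subgroup.mem_bot] at this
      exact this
    · intro n hn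
      rw [← h1] at hn
      exact hn.2
  · intro G₀ hG
    exact YGrp_sup p r G A Φ t h N hNΦ G₀ hG

end MP7b0bad

end
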