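import Pool.Agent.Work.MP_7b0bad_ag.Bd.B12
import Pool.Agent.Work.MP_7b0bad_ag.Bd.B06
import Pool.Agent.Work.MP_7b0bad_ag.Bd.B02
import Pool.Agent.Work.MP_7b0bad_ag.Bd.B01
import Pool.Agent.Work.MP_7b0bad_ag.Bd.B08

/-! Bundle of small proof modules (one section per former module). -/

section

set_option autoImplicit false

namespace MP7b0bad

theorem prf_YH90 : YH90 := by
  intro Q _ _ L _ _ hf φ hφ
  classical
  have := Fintype.ofFinite Q
  let F : Q → (L →* L) := fun g => (MulSemiringAction.toRingHom Q L g : L →* L)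
  have hFa : ∀ g x, F g x = g • x := fun g x => rfl
  have hinj : Function.Injective F := by
    intro g h hgh
    by_contra hne
    have h1 : h⁻¹ * g ≠ 1 := fun h2 => hne (inv_mul_eq_one.mp h2).symm
    obtain ⟨x, hx⟩ := hf _ h1
    apply hx
    have h3 : F g x = F h x := by rw [hgh]
    rw [hFa, hFa] at h3
    rw [mul_smul, h3, inv_smul_smul]
  have hli := (linearIndependent_monoidHom L L).comp F hinj
  rw [Fintype.linearIndependent_iff] at hli
  have hne : ∃ θ : L, ∑ h : Q, (φ h : L) * (h • θ) ≠ 0 := by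
    by_contra hcon
    push Not at hcon
    have h4 := hli (fun h => (φ h : L)) (by
      funext θ
      have h5 := hcon θ
      simpa [hFa] using h5) 1
    exact (φ 1).ne_zero h4
  obtain ⟨θ, hθ⟩ := hne
  have hb : ∀ g : Q, (φ g : L) * (g • ∑ h : Q, (φ h : L) * (h • θ)) =
      ∑ h : Q, (φ h : L) * (h • θ) := by
    intro g
    rw [Finset.smul_sum, Finset.mul_sum]
    rw [← Equiv.sum_comp (Equiv.mulLeft g) (fun h => (φ h : L) * (h • θ))]
    refine Finset.sum_congr rfl fun h _ => ?_
    rw [smul_mul', ← mul_assoc, ← hφ, ← mul_smul]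
    rfl
  refine ⟨(Units.mk0 _ hθ)⁻¹, fun g => ?_⟩
  rw [Units.val_inv_eq_inv_val, Units.val_mk0]
  have h6 := hb g
  have h10 : g • (∑ h : Q, (φ h : L) * (h • θ))⁻¹ = (g • ∑ h : Q, (φ h : L) * (h • θ))⁻¹ :=
    map_inv₀ (MulSemiringAction.toRingHom Q L g) _
  rw [h10]
  conv_rhs => rw [← h6, mul_inv]
  rw [mul_inv_cancel_left₀ (φ g).ne_zero]

end MP7b0bad

end

section

set_option autoImplicit false

namespace MP7b0bad

open Polynomial

theorem YInd_card {G : Type} [Group G] [Finite G] (N : Subgroup G) (hN : N ≠ ⊥) :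
    Nat.card (G ⧸ N) < Nat.card G := by
  have h := Subgroup.card_eq_card_quotient_mul_card_subgroup N
  have h1 : 0 < Nat.card (G ⧸ N) := Nat.card_pos
  have h2 : 1 < Nat.card N := (Subgroup.one_lt_card_iff_ne_bot N).2 hN
  rw [h]
  exact lt_mul_of_one_lt_right h1 h2

theorem YInd_ker {G H : Type} [Group G] [Group H] (i : G →* H) (N A : Subgroup G) [N.Normal]
    (hN : N ≤ i.ker) (hA : i.ker = A) :
    (QuotientGroup.lift N i hN).ker = A.map (QuotientGroup.mk' N) := by
  rw [← hA]
  ext x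
  obtain ⟨g, rfl⟩ := QuotientGroup.mk'_surjective N x
  rw [MonoidHom.mem_ker, Subgroup.mem_map]
  constructor
  · intro h
    refine ⟨g, ?_, rfl⟩
    rw [MonoidHom.mem_ker]
    rw [QuotientGroup.mk'_apply, QuotientGroup.lift_mk] at h
    exact h
  · rintro ⟨g', hg', hgg⟩
    rw [← hgg, QuotientGroup.mk'_apply, QuotientGroup.lift_mk]
    exact MonoidHom.mem_ker.1 hg'

theorem YInd_aux (hYBase : YBase) (hYStep : YStep) (hYGrp : YGrp) (k : Type) [Field k]
    [IsAlgClosed k] (p r : ℕ) [Fact p.Prime] [CharP k p] (n : ℕ) :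
    ∀ (G : Type) [Group G] [Finite G] (A Φ : Subgroup G) (t : G), Nat.card G = n →
      Blk p r G A Φ t →
      ∀ i : G →* Multiplicative (ZMod p), i.ker = A → i t = Multiplicative.ofAdd 1 →
      ∃ (s : ℕ) (L : Type) (_ : Field L) (_ : Algebra (RatFunc k) L)
        (_ : MulSemiringAction G L) (y : L), YTow k p (r ^ s) G i L y := by
  induction n using Nat.strong_induction_on with
  | _ n ih =>
    intro G _ _ A Φ t hn hB i hiA hit
    by_cases hΦ : Φ = ⊥
    · subst hΦ
      obtain ⟨L, fL, aL, mL, y, hy⟩ := hYBase k p r G A t hB i hiA hit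
      exact ⟨1, L, fL, aL, mL, y, by rw [pow_one]; exact hy⟩
    · obtain ⟨N, hNn, hNb, hNΦ, hcomm, hexp, hmin, hfr, hBq⟩ := (hYGrp p r G A Φ t hB).2.1 hΦ
      haveI := hNn
      have hN : N ≤ i.ker := by
        rw [hiA]
        exact hNΦ.trans hB.lt.le
      have hcard : Nat.card (G ⧸ N) < n := by
        rw [← hn]
        exact YInd_card N hNb
      have hval : (QuotientGroup.lift N i hN) (QuotientGroup.mk' N t) = Multiplicative.ofAdd 1 := by
        rw [QuotientGroup.mk'_apply, QuotientGroup.lift_mk]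
        exact hit
      obtain ⟨s, L, fL, aL, mL, y, hy⟩ := ih _ hcard (G ⧸ N) (A.map (QuotientGroup.mk' N))
        (Φ.map (QuotientGroup.mk' N)) (QuotientGroup.mk' N t) rfl hBq
        (QuotientGroup.lift N i hN) (YInd_ker i N A hN hiA) hval
      have htp : t ^ p = 1 := by
        rw [← hB.ord]
        exact pow_orderOf_eq_one t
      have hpg : IsPGroup r i.ker := by
        rw [hiA]
        exact hB.pA
      have hcomm' : ∀ n ∈ N, ∀ a ∈ i.ker, n * a = a * n := by
        rw [hiA]
        exact hcomm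
      obtain ⟨L', fL', aL', mL', y', hy'⟩ := hYStep k p (r ^ s) r hB.rprime hB.ne
        (pow_pos hB.rprime.pos s) G i t hit htp hpg N hN hNb hcomm' hexp hmin hfr L y hy
      exact ⟨s + 1, L', fL', aL', mL', y', by rw [pow_succ']; exact hy'⟩

theorem prf_YInd (hYBase : YBase) (hYStep : YStep) (hYGrp : YGrp) : YInd := by
  intro k _ _ p r _ _ G _ _ A Φ t hB i hiA hit
  exact YInd_aux hYBase hYStep hYGrp k p r (Nat.card G) G A Φ t rfl hB i hiA hit

end MP7b0bad

end

section

/-! # MP_7b0bad_ag, item YInf (helper78): the inertia group at infinity -/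

set_option autoImplicit false

namespace MP7b0bad

open Polynomial

theorem YInf_asPoly {A : Type} [Field A] (p : ℕ) (hp : 2 ≤ p) (a : A) :
    (asPoly p a).natDegree = p ∧ (asPoly p a).Monic := by
  have h1 : asPoly p a = X ^ p - (X + C a) := by unfold asPoly; ring
  have h2 : (X + C a : A[X]).degree < (p : WithBot ℕ) := by
    rw [degree_X_add_C]
    exact_mod_cast hp
  constructor
  · rw [h1]
    rw [natDegree_sub_eq_left_of_natDegree_lt]
    · exact natDegree_X_pow p
    · rw [natDegree_X_add_C, natDegree_X_pow]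
      omega
  · rw [h1]
    exact monic_X_pow_sub h2

/-- degree bound: a field embedding `E → k((s))` over `θ` -/
theorem YInf_rank {k : Type} [Field k] (θ : LaurentSeries k →+* LaurentSeries k) (p : ℕ)
    (hθ : ∀ f : LaurentSeries k, ∃ h : Fin p → LaurentSeries k,
      f = ∑ l, θ (h l) * HahnSeries.single ((l : ℕ) : ℤ) (1 : k))
    (E : Type) [Field E] [Algebra (LaurentSeries k) E] [FiniteDimensional (LaurentSeries k) E]
    (J : E →+* LaurentSeries k) (hJ : ∀ a, J (algebraMap (LaurentSeries k) E a) = θ a) :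
    Module.finrank (LaurentSeries k) E ≤ p := by
  by_contra hlt
  let b := Module.finBasis (LaurentSeries k) E
  choose h hh using fun i => hθ (J (b i))
  have hnot : ¬ LinearIndependent (LaurentSeries k) h := by
    intro hli
    have := hli.fintype_card_le_finrank
    rw [Fintype.card_fin, Module.finrank_fin_fun] at this
    exact hlt this
  rw [Fintype.not_linearIndependent_iff] at hnot
  obtain ⟨c, hc, i, hi⟩ := hnot
  have hbl := Fintype.linearIndependent_iff.1 b.linearIndependent c
  refine hi (hbl ?_ i)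
  apply J.injective
  rw [map_zero, map_sum]
  have h1 : ∀ i, J (c i • b i) = ∑ l, θ (c i * h i l) * HahnSeries.single ((l : ℕ) : ℤ) (1 : k) := by
    intro i
    rw [Algebra.smul_def, map_mul, hJ, hh i, Finset.mul_sum]
    refine Finset.sum_congr rfl fun l _ => ?_
    rw [map_mul, mul_assoc]
  simp only [h1]
  rw [Finset.sum_comm]
  refine Finset.sum_eq_zero fun l _ => ?_
  rw [← Finset.sum_mul, ← map_sum]
  have h2 : ∑ i, c i * h i l = 0 := by
    have := congrFun hc l
    simpa [Finset.sum_apply] using this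
  rw [h2, map_zero, zero_mul]

theorem prf_YInf (hYComp : YComp) (hYDim : YDim) : YInf := by
  intro k _ _ p M _ _ hM G _ _ P hP hpG B _ _ _ hB hdom ⟨y, hy⟩ u j hu0 hu hjC hjX
  have hp : p.Prime := Fact.out
  obtain ⟨D, iD1, iD2, iD3, q, hD, hqa, hqg, hUP, -⟩ :=
    prf_QBC k[X] (LaurentSeries k) (atInf k) G B hB
  -- theta
  have hui : u⁻¹ ≠ 0 := inv_ne_zero hu0
  have huo : (u⁻¹).order = (p : ℤ) := by
    have h1 := HahnSeries.order_mul hu0 hui
    rw [mul_inv_cancel₀ hu0, HahnSeries.order_one, hu] at h1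
    linarith
  obtain ⟨θ, hθC, hθs, hθo⟩ := prf_C2s k (u⁻¹) p hp.pos
    (by rw [← huo]; exact fun h => hui (HahnSeries.coeff_order_eq_zero.1 h))
    (fun m hm => HahnSeries.coeff_eq_zero_of_lt_order (by rw [huo]; exact hm))
  have hs1 : (HahnSeries.single (-1 : ℤ) (1 : k)) = (HahnSeries.single (1 : ℤ) (1 : k))⁻¹ := by
    refine eq_inv_of_mul_eq_one_left ?_
    rw [HahnSeries.single_mul_single]
    simp
  have hθj : ∀ f : k[X], j (algebraMap k[X] B f) = θ (atInf k f) := by
    have : (j.comp (algebraMap k[X] B)) = θ.comp (atInf k) := by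
      refine Polynomial.ringHom_ext (fun c => ?_) ?_
      · rw [RingHom.comp_apply, RingHom.comp_apply, hjC, atInf, coe_eval₂RingHom, eval₂_C, hθC]
      · rw [RingHom.comp_apply, RingHom.comp_apply, hjX, atInf, coe_eval₂RingHom, eval₂_X, hs1,
          map_inv₀, hθs, inv_inv]
    exact fun f => RingHom.congr_fun this f
  obtain ⟨J, hJq, hJa⟩ := hUP (LaurentSeries k) j θ hθj
  -- the component
  obtain ⟨G₀, E, iE1, iE2, iE3, π, hG₀, hE, hπs, hπk, hπa, hπg, hrk, hfd, -, -, -⟩ :=
    hYComp (LaurentSeries k) G D hD (RingHom.ker J) (RingHom.ker_isPrime J)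
  have hker : RingHom.ker π ≤ RingHom.ker J := by
    intro x hx
    exact (hπk x).1 hx
  let J' : E →+* LaurentSeries k := RingHom.liftOfSurjective π hπs ⟨J, hker⟩
  have hJ' : ∀ x, J' (π x) = J x := fun x => by
    have := RingHom.liftOfRightInverse_comp_apply π _ (Function.rightInverse_surjInv hπs) ⟨J, hker⟩ x
    exact this
  have hle : Module.finrank (LaurentSeries k) E ≤ p := by
    refine YInf_rank θ p (hYDim k θ p hp.pos hθC hθo) E J' fun a => ?_
    rw [← hπa, hJ', hJa]
  have hge : p ≤ Module.finrank (LaurentSeries k) E := by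
    have hirr := prf_B7 prf_B3 k p (X ^ M : k[X]) (by rwa [natDegree_X_pow])
    obtain ⟨hdeg, hmon⟩ := YInf_asPoly p hp.two_le (atInf k (X ^ M))
    have hroot : aeval (π (q y)) (asPoly p (atInf k (X ^ M))) = 0 := by
      rw [asPoly]
      simp only [map_sub, map_pow, aeval_X, aeval_C]
      rw [← hπa, ← map_pow π, ← map_pow q, ← map_sub π, ← map_sub q]
      have : q (y ^ p - y) = algebraMap (LaurentSeries k) D (atInf k (X ^ M)) := by
        rw [hy, hqa]
      rw [this]
      simp only [map_pow]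
      exact sub_self _
    have h1 := minpoly.eq_of_irreducible_of_monic hirr hroot hmon
    have h2 := minpoly.natDegree_le (A := LaurentSeries k) (π (q y))
    rw [← h1, hdeg] at h2
    exact h2
  have hcard : Nat.card G₀ = p := by rw [← hrk]; exact le_antisymm hle hge
  -- Sylow
  have hfac : (Nat.card G).factorization p = 1 := by
    have h1 : p ∣ Nat.card G := by
      rw [← hP]
      exact Subgroup.card_subgroup_dvd_card P
    have h2 := (Nat.Prime.dvd_iff_one_le_factorization hp (Nat.card_pos.ne')).1 h1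
    have h3 : ¬ 2 ≤ (Nat.card G).factorization p := fun h =>
      hpG ((Nat.Prime.pow_dvd_iff_le_factorization hp (Nat.card_pos.ne')).2 h)
    omega
  let S₁ : Sylow p G := Sylow.ofCard G₀ (by rw [hfac, pow_one, hcard])
  let S₂ : Sylow p G := Sylow.ofCard P (by rw [hfac, pow_one, hP])
  obtain ⟨g₀, hg₀⟩ := MulAction.exists_smul_eq G S₁ S₂
  have hconj : ∀ g : G, g ∈ P ↔ g₀⁻¹ * g * g₀ ∈ G₀ := by
    intro g
    have h1 : ((g₀ • S₁ : Sylow p G) : Subgroup G) = (S₂ : Subgroup G) := by rw [hg₀]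
    rw [Sylow.coe_subgroup_smul] at h1
    have h2 : (S₂ : Subgroup G) = P := Sylow.coe_ofCard _ _
    have h3 : (S₁ : Subgroup G) = G₀ := Sylow.coe_ofCard _ _
    rw [h2, h3] at h1
    rw [← h1, Subgroup.mem_pointwise_smul_iff_inv_smul_mem]
    simp [MulAut.smul_def, mul_assoc]
  -- the conjugate component
  let c : D →+* D := MulSemiringAction.toRingHom G D g₀⁻¹
  have hc : ∀ x, c x = g₀⁻¹ • x := fun _ => rfl
  obtain ⟨G₁, E₁, iE11, iE12, iE13, π₁, hG₁, hE₁, -, -, hπ₁a, hπ₁g, -, -, -, -, -⟩ :=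
    hYComp (LaurentSeries k) G D hD (RingHom.ker (J.comp c)) (RingHom.ker_isPrime (J.comp c))
  have hmem : ∀ x : D, x ∈ RingHom.ker (J.comp c) ↔ g₀⁻¹ • x ∈ RingHom.ker J := fun x => Iff.rfl
  have hG₁P : G₁ = P := by
    ext g
    rw [hG₁, hconj, hG₀]
    simp only [hmem]
    constructor
    · intro h x
      have := h (g₀ • x)
      rw [inv_smul_smul] at this
      rw [this, smul_smul, smul_smul]
    · intro h x
      have := h (g₀⁻¹ • x)
      rw [this, smul_smul, smul_smul]
      have : g₀⁻¹ * g * g₀ * g₀⁻¹ = g₀⁻¹ * g := by group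
      rw [this]
  subst hG₁P
  refine ⟨B, inferInstance, inferInstance, inferInstance, E₁, inferInstance, iE12, iE13,
    π₁.comp q, hB, hdom, hE₁, inferInstance, fun f => ?_, fun g b => ?_⟩
  · rw [RingHom.comp_apply, hqa, hπ₁a]
  · rw [RingHom.comp_apply, hqg, hπ₁g, RingHom.comp_apply]

end MP7b0bad

end

section

set_option autoImplicit false

namespace MP7b0bad

theorem prf_YIso : YIso := by
  intro k _ p M G G' _ _ ψ i L _ _ _ y hT
  refine ⟨MulSemiringAction.compHom L ψ.toMonoidHom, ?_⟩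
  let _ := MulSemiringAction.compHom L ψ.toMonoidHom
  have hs : ∀ (g : G') (x : L), g • x = ψ g • x := fun g x => rfl
  constructor
  · constructor
    · intro g a
      rw [hs, hT.gal.comm]
    · exact hT.gal.inj
    · intro b hb
      apply hT.gal.inv
      intro g
      have := hb (ψ.symm g)
      rw [hs, MulEquiv.apply_symm_apply] at this
      exact this
    · intro σ hσ
      have h1 : ψ σ ≠ 1 := by
        intro h
        apply hσ
        rwa [MulEquiv.map_eq_one_iff] at h
      have := hT.gal.unr (ψ σ) h1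
      simpa only [hs] using this
  · exact hT.as
  · intro g
    rw [hs, hT.tr]
    rfl
  · exact hT.loc
  · exact hT.loc0
  · exact hT.locI

end MP7b0bad

end

section

/-!
# MP_7b0bad, item YKum: the Kummer algebra

The algebra is realised as a ring of functions on the group with values in an algebraic closure,
the group acts by right translations.
-/

set_option autoImplicit false
set_option linter.unusedSectionVars false

namespace MP7b0bad

open Polynomial

/-! ### Monomials with exponents modulo `r` -/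

section Mon

variable {p r : ℕ} [Fact p.Prime] [Fact r.Prime]

/-- The monomial with exponents `e`. -/
def YKum_mon {M : Type} [CommMonoid M] (Ξ : ZMod p → M) (e : ZMod p → ZMod r) : M :=
  ∏ c, Ξ c ^ (e c).val

theorem YKum_mon_zero {M : Type} [CommMonoid M] (Ξ : ZMod p → M) :
    YKum_mon (r := r) Ξ 0 = 1 := by
  unfold YKum_mon
  exact Finset.prod_eq_one fun c _ => by simp

theorem YKum_mon_mul {M : Type} [CommMonoid M] (Ξ : ZMod p → M) (e e' : ZMod p → ZMod r) :
    YKum_mon Ξ e * YKum_mon Ξ e' =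
      (∏ c, (Ξ c ^ r) ^ (((e c).val + (e' c).val) / r)) * YKum_mon Ξ (e + e') := by
  unfold YKum_mon
  rw [← Finset.prod_mul_distrib, ← Finset.prod_mul_distrib]
  refine Finset.prod_congr rfl fun c _ => ?_
  rw [← pow_add, ← pow_mul, ← pow_add, Pi.add_apply, ZMod.val_add, Nat.div_add_mod]

theorem YKum_mon_mul_of {M : Type} [CommMonoid M] (Ξ : ZMod p → M) (h : ∀ c, Ξ c ^ r = 1)
    (e e' : ZMod p → ZMod r) : YKum_mon Ξ e * YKum_mon Ξ e' = YKum_mon Ξ (e + e') := by
  rw [YKum_mon_mul]
  simp only [h, one_pow, Finset.prod_const_one, one_mul]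

theorem YKum_mon_map {M M' : Type} [CommMonoid M] [CommMonoid M'] (f : M →* M') (Ξ : ZMod p → M)
    (e : ZMod p → ZMod r) : f (YKum_mon Ξ e) = YKum_mon (fun c => f (Ξ c)) e := by
  unfold YKum_mon
  rw [map_prod]
  exact Finset.prod_congr rfl fun c _ => map_pow _ _ _

theorem YKum_mon_pow {M : Type} [CommMonoid M] (Ξ : ZMod p → M) (e : ZMod p → ZMod r) :
    YKum_mon Ξ e ^ r = ∏ c, (Ξ c ^ r) ^ (e c).val := by
  unfold YKum_mon
  rw [← Finset.prod_pow]
  refine Finset.prod_congr rfl fun c _ => ?_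
  rw [← pow_mul, ← pow_mul, mul_comm]

/-- The shift of exponents. -/
def YKum_sh (m : ZMod p) (e : ZMod p → ZMod r) : ZMod p → ZMod r := fun c => e (c - m)

theorem YKum_mon_shift {M : Type} [CommMonoid M] (Ξ : ZMod p → M) (m : ZMod p)
    (e : ZMod p → ZMod r) :
    YKum_mon (fun c => Ξ (c + m)) e = YKum_mon Ξ (YKum_sh m e) := by
  unfold YKum_mon YKum_sh
  refine Fintype.prod_equiv (Equiv.addRight m) _ _ fun c => ?_
  simp only [Equiv.coe_addRight, add_sub_cancel_right]

theorem YKum_mon_mul_left {M : Type} [CommMonoid M] (u Ξ : ZMod p → M)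
    (e : ZMod p → ZMod r) :
    YKum_mon (fun c => u c * Ξ c) e = YKum_mon u e * YKum_mon Ξ e := by
  unfold YKum_mon
  rw [← Finset.prod_mul_distrib]
  exact Finset.prod_congr rfl fun c _ => mul_pow _ _ _

/-- A shift invariant complement of the kernel of the pairing with the characters. -/
theorem YKum_W (hrp : r ≠ p) {H : Type} [CommGroup H] (χ : ZMod p → H) (hr : ∀ c, χ c ^ r = 1)
    (κ : H →* H) (hκ : ∀ c, χ (c + 1) = κ (χ c)) :
    ∃ W : Submodule (ZMod r) (ZMod p → ZMod r), (∀ m, ∀ e ∈ W, YKum_sh m e ∈ W) ∧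
      (∀ e ∈ W, YKum_mon χ e = 1 → e = 0) ∧
      ∀ e : ZMod p → ZMod r, ∃ e' ∈ W, YKum_mon χ e' = YKum_mon χ e := by
  let K0 : AddSubgroup (ZMod p → ZMod r) :=
    { carrier := {e | YKum_mon χ e = 1}
      zero_mem' := YKum_mon_zero χ
      add_mem' := by
        intro a b ha hb
        show YKum_mon χ (a + b) = 1
        have ha' : YKum_mon χ a = 1 := ha
        have hb' : YKum_mon χ b = 1 := hb
        rw [← YKum_mon_mul_of χ hr, ha', hb', one_mul]
      neg_mem' := by
        intro a ha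
        have ha' : YKum_mon χ a = 1 := ha
        have h1 := YKum_mon_mul_of χ hr (-a) a
        rw [neg_add_cancel, YKum_mon_zero, ha', mul_one] at h1
        exact h1 }
  let K : Submodule (ZMod r) (ZMod p → ZMod r) := AddSubgroup.toZModSubmodule r K0
  have hK : ∀ e, e ∈ K ↔ YKum_mon χ e = 1 := fun e => Iff.rfl
  let f : Module.End (ZMod r) (ZMod p → ZMod r) :=
    LinearMap.funLeft (ZMod r) (ZMod r) (fun c : ZMod p => c - 1)
  have hf1 : ∀ e, f e = YKum_sh 1 e := fun e => rfl
  have hfn : ∀ (n : ℕ) e, (f ^ n) e = YKum_sh (n : ZMod p) e := by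
    intro n
    induction n with
    | zero =>
      intro e
      funext c
      show e c = e (c - ((0 : ℕ) : ZMod p))
      rw [Nat.cast_zero, sub_zero]
    | succ n ih =>
      intro e
      rw [pow_succ', Module.End.mul_apply, ih, hf1]
      funext c
      unfold YKum_sh
      congr 1
      push_cast
      ring
  have hfp : f ^ p = 1 := by
    refine LinearMap.ext fun e => ?_
    rw [hfn, CharP.cast_eq_zero]
    funext c
    show e (c - 0) = e c
    rw [sub_zero]
  have hpr : (p : ZMod r) ≠ 0 := by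
    intro h
    rw [ZMod.natCast_eq_zero_iff] at h
    exact hrp ((Nat.prime_dvd_prime_iff_eq Fact.out Fact.out).1 h)
  have hsq : Squarefree (X ^ p - 1 : (ZMod r)[X]) :=
    (X_pow_sub_one_separable_iff.2 hpr).squarefree
  have hss : f.IsSemisimple := by
    refine Module.End.isSemisimple_of_squarefree_aeval_eq_zero hsq ?_
    rw [map_sub, map_pow, aeval_X, map_one, hfp, sub_self]
  have hKf : K ∈ f.invtSubmodule := by
    rw [Module.End.mem_invtSubmodule_iff_forall_mem_of_mem]
    intro e he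
    rw [hK] at he ⊢
    rw [hf1, ← YKum_mon_shift]
    have h1 : (fun c => χ (c + 1)) = fun c => κ (χ c) := funext hκ
    rw [h1, ← YKum_mon_map κ, he, map_one]
  obtain ⟨W, hW, hc⟩ := (Module.End.isSemisimple_iff.1 hss) K hKf
  rw [Module.End.mem_invtSubmodule_iff_forall_mem_of_mem] at hW
  refine ⟨W, ?_, ?_, ?_⟩
  · intro m e he
    have h1 : ∀ n : ℕ, (f ^ n) e ∈ W := by
      intro n
      induction n with
      | zero => exact he
      | succ n ih =>
        rw [pow_succ', Module.End.mul_apply]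
        exact hW _ ih
    have h2 := h1 m.val
    rw [hfn, ZMod.natCast_zmod_val] at h2
    exact h2
  · intro e he h1
    exact (Submodule.disjoint_def.1 hc.disjoint) e ((hK e).2 h1) he
  · intro e
    have h1 : e ∈ K ⊔ W := hc.sup_eq_top ▸ Submodule.mem_top
    obtain ⟨a, ha, w, hw, rfl⟩ := Submodule.mem_sup.1 h1
    refine ⟨w, hw, ?_⟩
    rw [← YKum_mon_mul_of χ hr, (hK a).1 ha, one_mul]

end Mon

/-! ### The subring spanned by the monomials with exponents in `W` -/

section Sub

variable {p r : ℕ} [Fact p.Prime] [Fact r.Prime] {L A : Type} [Field L] [CommRing A]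

/-- The additive group spanned by the monomials. -/
def YKum_S (jL : L →+* A) (Ξ : ZMod p → A) (W : Submodule (ZMod r) (ZMod p → ZMod r)) :
    AddSubgroup A where
  carrier := {x | ∃ l : (ZMod p → ZMod r) → L, (∀ e, e ∉ W → l e = 0) ∧
    x = ∑ e, jL (l e) * YKum_mon Ξ e}
  zero_mem' := ⟨0, fun _ _ => rfl, by simp⟩
  add_mem' := by
    rintro _ _ ⟨l, hl, rfl⟩ ⟨l', hl', rfl⟩
    refine ⟨fun e => l e + l' e, fun e he => ?_, ?_⟩
    · beta_reduce
      rw [hl e he, hl' e he, add_zero]
    rw [← Finset.sum_add_distrib]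
    refine Finset.sum_congr rfl fun e _ => ?_
    rw [map_add, add_mul]
  neg_mem' := by
    rintro _ ⟨l, hl, rfl⟩
    refine ⟨fun e => -l e, fun e he => ?_, ?_⟩
    · beta_reduce
      rw [hl e he, neg_zero]
    rw [← Finset.sum_neg_distrib]
    refine Finset.sum_congr rfl fun e _ => ?_
    rw [map_neg, neg_mul]

theorem YKum_hom_mem (jL : L →+* A) (Ξ : ZMod p → A) (W : Submodule (ZMod r) (ZMod p → ZMod r))
    (l : L) {e : ZMod p → ZMod r} (he : e ∈ W) : jL l * YKum_mon Ξ e ∈ YKum_S jL Ξ W := by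
  classical
  refine ⟨fun e' => if e' = e then l else 0, fun e' he' => if_neg ?_, ?_⟩
  · rintro rfl
    exact he' he
  rw [Finset.sum_eq_single e]
  · beta_reduce
    rw [if_pos rfl]
  · intro e' _ hne
    beta_reduce
    rw [if_neg hne, map_zero, zero_mul]
  · intro h
    exact absurd (Finset.mem_univ _) h

theorem YKum_hom_mul (jL : L →+* A) (Ξ : ZMod p → A) (α : ZMod p → L)
    (hΞ : ∀ c, Ξ c ^ r = jL (α c)) (l l' : L) (e e' : ZMod p → ZMod r) :
    (jL l * YKum_mon Ξ e) * (jL l' * YKum_mon Ξ e') =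
      jL (l * l' * ∏ c, α c ^ (((e c).val + (e' c).val) / r)) * YKum_mon Ξ (e + e') := by
  have h1 : (jL l * YKum_mon Ξ e) * (jL l' * YKum_mon Ξ e') =
      jL (l * l') * (YKum_mon Ξ e * YKum_mon Ξ e') := by
    rw [map_mul]
    ring
  have h2 : jL (∏ c, α c ^ (((e c).val + (e' c).val) / r)) =
      ∏ c, (Ξ c ^ r) ^ (((e c).val + (e' c).val) / r) := by
    rw [map_prod]
    refine Finset.prod_congr rfl fun c _ => ?_
    rw [hΞ, map_pow]
  rw [h1, YKum_mon_mul, map_mul jL (l * l'), h2, mul_assoc]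

/-- The subring. -/
def YKum_R (jL : L →+* A) (Ξ : ZMod p → A) (W : Submodule (ZMod r) (ZMod p → ZMod r))
    (α : ZMod p → L) (hΞ : ∀ c, Ξ c ^ r = jL (α c)) : Subring A :=
  { YKum_S jL Ξ W with
    one_mem' := by
      have := YKum_hom_mem jL Ξ W 1 W.zero_mem
      rwa [map_one, one_mul, YKum_mon_zero] at this
    mul_mem' := by
      rintro _ _ ⟨l, hl, rfl⟩ ⟨l', hl', rfl⟩
      rw [Finset.sum_mul_sum]
      refine (YKum_S jL Ξ W).sum_mem fun e _ => (YKum_S jL Ξ W).sum_mem fun e' _ => ?_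
      by_cases he : e ∈ W
      · by_cases he' : e' ∈ W
        · rw [YKum_hom_mul jL Ξ α hΞ]
          exact YKum_hom_mem jL Ξ W _ (W.add_mem he he')
        · rw [hl' e' he', map_zero, zero_mul, mul_zero]
          exact (YKum_S jL Ξ W).zero_mem
      · rw [hl e he, map_zero, zero_mul, zero_mul]
        exact (YKum_S jL Ξ W).zero_mem }

theorem YKum_univ (jL : L →+* A) (Ξ : ZMod p → A) (W : Submodule (ZMod r) (ZMod p → ZMod r))
    (α : ZMod p → L) (hΞ : ∀ c, Ξ c ^ r = jL (α c))
    (huniq : ∀ l : (ZMod p → ZMod r) → L, (∀ e, e ∉ W → l e = 0) →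
      ∑ e, jL (l e) * YKum_mon Ξ e = 0 → ∀ e, l e = 0)
    {T : Type} [CommRing T] (f : L →+* T) (b : ZMod p → T) (hb : ∀ c, b c ^ r = f (α c)) :
    ∃ F : YKum_R jL Ξ W α hΞ →+* T, ∀ (l : L) (h : jL l ∈ YKum_R jL Ξ W α hΞ), F ⟨jL l, h⟩ = f l := by
  classical
  choose co hco hx using fun x : YKum_R jL Ξ W α hΞ => x.2
  have key : ∀ (x : YKum_R jL Ξ W α hΞ) (l : (ZMod p → ZMod r) → L), (∀ e, e ∉ W → l e = 0) →
      (x : A) = ∑ e, jL (l e) * YKum_mon Ξ e → ∀ e, co x e = l e := by
    intro x l hl hxl e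
    have h1 := huniq (fun e => co x e - l e) (fun e he => by
      beta_reduce
      rw [hco x e he, hl e he, sub_zero]) (by
      have h2 : ∑ e, jL (co x e - l e) * YKum_mon Ξ e =
          ∑ e, jL (co x e) * YKum_mon Ξ e - ∑ e, jL (l e) * YKum_mon Ξ e := by
        rw [← Finset.sum_sub_distrib]
        refine Finset.sum_congr rfl fun e _ => ?_
        rw [map_sub, sub_mul]
      rw [h2, ← hx x, ← hxl, sub_self]) e
    exact sub_eq_zero.1 h1
  let Fa : YKum_R jL Ξ W α hΞ →+ T :=
    { toFun := fun x => ∑ e, f (co x e) * YKum_mon b e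
      map_zero' := by
        refine Finset.sum_eq_zero fun e _ => ?_
        rw [key 0 (fun _ => 0) (fun _ _ => rfl) (by simp) e, map_zero, zero_mul]
      map_add' := by
        intro x y
        rw [← Finset.sum_add_distrib]
        refine Finset.sum_congr rfl fun e _ => ?_
        rw [key (x + y) (fun e => co x e + co y e) (fun e he => by
          beta_reduce
          rw [hco x e he, hco y e he, add_zero]) (by
          have h2 : ∑ e, jL (co x e + co y e) * YKum_mon Ξ e =
              ∑ e, jL (co x e) * YKum_mon Ξ e + ∑ e, jL (co y e) * YKum_mon Ξ e := by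
            rw [← Finset.sum_add_distrib]
            refine Finset.sum_congr rfl fun e _ => ?_
            rw [map_add, add_mul]
          rw [h2, ← hx x, ← hx y]
          rfl) e, map_add, add_mul] }
  have hF1 : ∀ (l : L) (e : ZMod p → ZMod r) (_ : e ∈ W)
      (hm : jL l * YKum_mon Ξ e ∈ YKum_R jL Ξ W α hΞ),
      Fa ⟨jL l * YKum_mon Ξ e, hm⟩ = f l * YKum_mon b e := by
    intro l e he hm
    have h3 := key ⟨jL l * YKum_mon Ξ e, hm⟩ (fun e' => if e' = e then l else 0)
      (fun e' he' => if_neg (by rintro rfl; exact he' he)) (by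
        rw [Finset.sum_eq_single e]
        · beta_reduce
          rw [if_pos rfl]
        · intro e' _ hne
          beta_reduce
          rw [if_neg hne, map_zero, zero_mul]
        · intro h
          exact absurd (Finset.mem_univ _) h)
    have h4 : Fa ⟨jL l * YKum_mon Ξ e, hm⟩ =
        ∑ e', f (co ⟨jL l * YKum_mon Ξ e, hm⟩ e') * YKum_mon b e' := rfl
    rw [h4, Finset.sum_eq_single e]
    · rw [h3]
      beta_reduce
      rw [if_pos rfl]
    · intro e' _ hne
      rw [h3]
      beta_reduce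
      rw [if_neg hne, map_zero, zero_mul]
    · intro h
      exact absurd (Finset.mem_univ _) h
  have hmem : ∀ (x : YKum_R jL Ξ W α hΞ) e,
      jL (co x e) * YKum_mon Ξ e ∈ YKum_R jL Ξ W α hΞ := by
    intro x e
    by_cases he : e ∈ W
    · exact YKum_hom_mem jL Ξ W _ he
    · rw [hco x e he, map_zero, zero_mul]
      exact Subring.zero_mem _
  have hsum : ∀ x : YKum_R jL Ξ W α hΞ, x = ∑ e, (⟨_, hmem x e⟩ : YKum_R jL Ξ W α hΞ) := by
    intro x
    apply Subtype.ext
    rw [AddSubmonoidClass.coe_finsetSum]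
    exact hx x
  have hF0 : ∀ (x : YKum_R jL Ξ W α hΞ) e, Fa ⟨_, hmem x e⟩ = f (co x e) * YKum_mon b e := by
    intro x e
    by_cases he : e ∈ W
    · exact hF1 _ e he _
    · have h5 : (⟨_, hmem x e⟩ : YKum_R jL Ξ W α hΞ) = 0 := by
        apply Subtype.ext
        show jL (co x e) * YKum_mon Ξ e = 0
        rw [hco x e he, map_zero, zero_mul]
      rw [h5, map_zero, hco x e he, map_zero, zero_mul]
  have hF2 : ∀ (x y : YKum_R jL Ξ W α hΞ) e e', Fa (⟨_, hmem x e⟩ * ⟨_, hmem y e'⟩) =
      Fa ⟨_, hmem x e⟩ * Fa ⟨_, hmem y e'⟩ := by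
    intro x y e e'
    by_cases he : e ∈ W
    · by_cases he' : e' ∈ W
      · have h6 : (⟨_, hmem x e⟩ * ⟨_, hmem y e'⟩ : YKum_R jL Ξ W α hΞ) =
            ⟨jL (co x e * co y e' * ∏ c, α c ^ (((e c).val + (e' c).val) / r)) *
              YKum_mon Ξ (e + e'), YKum_hom_mem jL Ξ W _ (W.add_mem he he')⟩ := by
          apply Subtype.ext
          exact YKum_hom_mul jL Ξ α hΞ _ _ e e'
        rw [h6, hF1 _ _ (W.add_mem he he'), hF0, hF0]
        exact (YKum_hom_mul f b α hb _ _ e e').symm
      · have h5 : (⟨_, hmem y e'⟩ : YKum_R jL Ξ W α hΞ) = 0 := by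
          apply Subtype.ext
          show jL (co y e') * YKum_mon Ξ e' = 0
          rw [hco y e' he', map_zero, zero_mul]
        rw [h5, mul_zero, map_zero, mul_zero]
    · have h5 : (⟨_, hmem x e⟩ : YKum_R jL Ξ W α hΞ) = 0 := by
        apply Subtype.ext
        show jL (co x e) * YKum_mon Ξ e = 0
        rw [hco x e he, map_zero, zero_mul]
      rw [h5, zero_mul, map_zero, zero_mul]
  have hone : Fa 1 = 1 := by
    have h7 : (1 : YKum_R jL Ξ W α hΞ) =
        ⟨jL 1 * YKum_mon Ξ 0, YKum_hom_mem jL Ξ W _ W.zero_mem⟩ := by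
      apply Subtype.ext
      show (1 : A) = jL 1 * YKum_mon Ξ 0
      rw [map_one, one_mul, YKum_mon_zero]
    rw [h7, hF1 _ _ W.zero_mem, map_one, one_mul, YKum_mon_zero]
  have hmul : ∀ x y, Fa (x * y) = Fa x * Fa y := by
    intro x y
    conv_lhs => rw [hsum x, hsum y, Finset.sum_mul_sum, map_sum]
    conv_rhs => rw [hsum x, hsum y, map_sum, map_sum, Finset.sum_mul_sum]
    refine Finset.sum_congr rfl fun e _ => ?_
    rw [map_sum]
    exact Finset.sum_congr rfl fun e' _ => hF2 x y e e'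
  refine ⟨{ Fa with map_one' := hone, map_mul' := hmul }, fun l h => ?_⟩
  have h8 : (⟨jL l, h⟩ : YKum_R jL Ξ W α hΞ) =
      ⟨jL l * YKum_mon Ξ 0, YKum_hom_mem jL Ξ W _ W.zero_mem⟩ := by
    apply Subtype.ext
    show jL l = jL l * YKum_mon Ξ 0
    rw [YKum_mon_zero, mul_one]
  show Fa ⟨jL l, h⟩ = f l
  rw [h8, hF1 _ _ W.zero_mem, YKum_mon_zero, mul_one]

end Sub

/-! ### Functions on the group -/

section Fun

variable {G L Ω : Type} [Group G] [Field L] [Field Ω] [MulSemiringAction G L]

/-- Right translation of functions. -/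
def YKum_tr (g : G) : (G → Ω) →+* (G → Ω) :=
  RingHom.pi fun g' => Pi.evalRingHom (fun _ => Ω) (g' * g)

theorem YKum_tr_apply (g : G) (x : G → Ω) (g' : G) : YKum_tr g x g' = x (g' * g) := rfl

theorem YKum_tr_one (x : G → Ω) : YKum_tr 1 x = x := by
  funext g'
  rw [YKum_tr_apply, mul_one]

theorem YKum_tr_mul (g h : G) (x : G → Ω) : YKum_tr (g * h) x = YKum_tr g (YKum_tr h x) := by
  funext g'
  rw [YKum_tr_apply, YKum_tr_apply, YKum_tr_apply, mul_assoc]

/-- The embedding of `L` in the functions on `G`. -/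
def YKum_j (j : L →+* Ω) : L →+* (G → Ω) :=
  RingHom.pi fun g => j.comp (MulSemiringAction.toRingHom G L g)

theorem YKum_j_apply (j : L →+* Ω) (x : L) (g : G) : YKum_j j x g = j (g • x) := rfl

theorem YKum_tr_j (j : L →+* Ω) (g : G) (x : L) :
    YKum_tr g (YKum_j j x) = YKum_j j (g • x) := by
  funext g'
  rw [YKum_tr_apply, YKum_j_apply, YKum_j_apply, mul_smul]

variable {p r : ℕ} [Fact p.Prime] [Fact r.Prime]

/-- The roots `ξ_c` as functions on `G`. -/
def YKum_X (j : L →+* Ω) (i : G →* Multiplicative (ZMod p)) (ψ : ZMod p → G → L) (b : ZMod p → Ω)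
    (c : ZMod p) : G → Ω := fun g => j (ψ c g) * b (c + Multiplicative.toAdd (i g))

theorem YKum_tr_X (j : L →+* Ω) (i : G →* Multiplicative (ZMod p)) (ψ : ZMod p → G → L)
    (b : ZMod p → Ω)
    (hψ : ∀ c g h, ψ c (g * h) = ψ (c + Multiplicative.toAdd (i h)) g * g • ψ c h)
    (g : G) (c : ZMod p) : YKum_tr g (YKum_X j i ψ b c) =
      YKum_j j (ψ c g) * YKum_X j i ψ b (c + Multiplicative.toAdd (i g)) := by
  funext g'
  rw [YKum_tr_apply, Pi.mul_apply, YKum_j_apply]
  unfold YKum_X
  rw [hψ, map_mul, map_mul, toAdd_mul, add_comm (Multiplicative.toAdd (i g')), ← add_assoc]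
  ring

theorem YKum_X_pow (j : L →+* Ω) (i : G →* Multiplicative (ZMod p)) (ψ : ZMod p → G → L)
    (b : ZMod p → Ω) (α : ZMod p → L) (hb : ∀ c, b c ^ r = j (α c))
    (hα : ∀ c g, ψ c g ^ r * α (c + Multiplicative.toAdd (i g)) = g • α c) (c : ZMod p) :
    YKum_X j i ψ b c ^ r = YKum_j j (α c) := by
  funext g
  rw [Pi.pow_apply, YKum_j_apply]
  unfold YKum_X
  rw [mul_pow, hb, ← map_pow, ← map_mul, hα]

theorem YKum_tr_mon (j : L →+* Ω) (i : G →* Multiplicative (ZMod p)) (ψ : ZMod p → G → L)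
    (b : ZMod p → Ω)
    (hψ : ∀ c g h, ψ c (g * h) = ψ (c + Multiplicative.toAdd (i h)) g * g • ψ c h)
    (g : G) (l : L) (e : ZMod p → ZMod r) :
    YKum_tr g (YKum_j j l * YKum_mon (YKum_X j i ψ b) e) =
      YKum_j j (g • l * YKum_mon (fun c => ψ c g) e) *
        YKum_mon (YKum_X j i ψ b) (YKum_sh (Multiplicative.toAdd (i g)) e) := by
  have h1 : YKum_tr g (YKum_mon (YKum_X j i ψ b) e) =
      YKum_mon (fun c => YKum_tr g (YKum_X j i ψ b c)) e :=
    YKum_mon_map (YKum_tr g : (G → Ω) →+* (G → Ω)).toMonoidHom _ e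
  have h2 : YKum_j j (YKum_mon (fun c => ψ c g) e) =
      YKum_mon (fun c => (YKum_j j (ψ c g) : G → Ω)) e :=
    YKum_mon_map (YKum_j j : L →+* (G → Ω)).toMonoidHom _ e
  rw [map_mul, YKum_tr_j, h1, map_mul, h2, ← YKum_mon_shift, mul_assoc, ← YKum_mon_mul_left]
  congr 2
  funext c
  exact YKum_tr_X j i ψ b hψ g c

theorem YKum_tr_mem (j : L →+* Ω) (i : G →* Multiplicative (ZMod p)) (ψ : ZMod p → G → L)
    (b : ZMod p → Ω)
    (hψ : ∀ c g h, ψ c (g * h) = ψ (c + Multiplicative.toAdd (i h)) g * g • ψ c h)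
    (W : Submodule (ZMod r) (ZMod p → ZMod r)) (hW : ∀ m, ∀ e ∈ W, YKum_sh m e ∈ W)
    (g : G) (x : G → Ω) (hx : x ∈ YKum_S (YKum_j j) (YKum_X j i ψ b) W) :
    YKum_tr g x ∈ YKum_S (YKum_j j) (YKum_X j i ψ b) W := by
  obtain ⟨l, hl, rfl⟩ := hx
  rw [map_sum]
  refine AddSubgroup.sum_mem _ fun e _ => ?_
  rw [YKum_tr_mon j i ψ b hψ]
  by_cases he : e ∈ W
  · exact YKum_hom_mem _ _ W _ (hW _ e he)
  · rw [hl e he, smul_zero, zero_mul, map_zero, zero_mul]
    exact AddSubgroup.zero_mem _

variable {k : Type} [Field k]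

theorem YKum_tr_N (j : L →+* Ω) (i : G →* Multiplicative (ZMod p)) (ψ : ZMod p → G → L)
    (b : ZMod p → Ω)
    (hψ : ∀ c g h, ψ c (g * h) = ψ (c + Multiplicative.toAdd (i h)) g * g • ψ c h)
    (N : Subgroup G) (hNi : N ≤ i.ker) (hNL : ∀ n ∈ N, ∀ x : L, n • x = x) (cst : k →+* L)
    (χ : ZMod p → (N →* kˣ)) (hχ : ∀ c (n : N), ψ c n = cst ((χ c n : kˣ) : k))
    (n : N) (l : L) (e : ZMod p → ZMod r) :
    YKum_tr (n : G) (YKum_j j l * YKum_mon (YKum_X j i ψ b) e) =
      YKum_j j (cst ((YKum_mon χ e n : kˣ) : k)) * (YKum_j j l * YKum_mon (YKum_X j i ψ b) e) := by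
  rw [YKum_tr_mon j i ψ b hψ, hNL n n.2]
  have h1 : Multiplicative.toAdd (i (n : G)) = 0 := by
    have := hNi n.2
    rw [MonoidHom.mem_ker] at this
    rw [this]
    rfl
  have h2 : YKum_sh (Multiplicative.toAdd (i (n : G))) e = e := by
    funext c
    unfold YKum_sh
    rw [h1, sub_zero]
  have h3 : YKum_mon (fun c => ψ c (n : G)) e = cst ((YKum_mon χ e n : kˣ) : k) := by
    have h4 := YKum_mon_map ((cst : k →* L).comp ((Units.coeHom k).comp (MonoidHom.eval n))) χ e
    have h5 : (fun c => ((cst : k →* L).comp ((Units.coeHom k).comp (MonoidHom.eval n))) (χ c)) =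
        fun c => ψ c (n : G) := by
      funext c
      exact (hχ c n).symm
    rw [h5] at h4
    exact h4.symm
  rw [h2, h3, map_mul]
  ring

theorem YKum_avg (j : L →+* Ω) (i : G →* Multiplicative (ZMod p)) (ψ : ZMod p → G → L)
    (b : ZMod p → Ω)
    (hψ : ∀ c g h, ψ c (g * h) = ψ (c + Multiplicative.toAdd (i h)) g * g • ψ c h)
    (N : Subgroup G) [Fintype N] (hNi : N ≤ i.ker) (hNL : ∀ n ∈ N, ∀ x : L, n • x = x)
    (cst : k →+* L) (χ : ZMod p → (N →* kˣ)) (hχ : ∀ c (n : N), ψ c n = cst ((χ c n : kˣ) : k))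
    (hr : ∀ c, χ c ^ r = 1) (W : Submodule (ZMod r) (ZMod p → ZMod r))
    (hW1 : ∀ e ∈ W, YKum_mon χ e = 1 → e = 0) (l : (ZMod p → ZMod r) → L)
    (hl : ∀ e, e ∉ W → l e = 0) (e₀ : ZMod p → ZMod r) (he₀ : e₀ ∈ W) :
    ∑ n : N, YKum_j j (cst ((YKum_mon χ (-e₀) n : kˣ) : k)) *
      YKum_tr (n : G) (∑ e, YKum_j j (l e) * YKum_mon (YKum_X j i ψ b) e) =
      YKum_j j (cst (Nat.card N : k) * l e₀) * YKum_mon (YKum_X j i ψ b) e₀ := by
  classical
  have h1 : ∀ n : N, YKum_j j (cst ((YKum_mon χ (-e₀) n : kˣ) : k)) *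
      YKum_tr (n : G) (∑ e, YKum_j j (l e) * YKum_mon (YKum_X j i ψ b) e) =
      ∑ e, YKum_j j (cst ((YKum_mon χ (-e₀ + e) n : kˣ) : k)) *
        (YKum_j j (l e) * YKum_mon (YKum_X j i ψ b) e) := by
    intro n
    rw [map_sum, Finset.mul_sum]
    refine Finset.sum_congr rfl fun e _ => ?_
    rw [YKum_tr_N j i ψ b hψ N hNi hNL cst χ hχ, ← mul_assoc, ← map_mul, ← map_mul,
      ← Units.val_mul, ← MonoidHom.mul_apply, YKum_mon_mul_of χ hr]
  rw [Finset.sum_congr rfl fun n _ => h1 n, Finset.sum_comm]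
  have h2 : ∀ e : ZMod p → ZMod r, e ≠ e₀ → ∑ n : N,
      YKum_j j (cst ((YKum_mon χ (-e₀ + e) n : kˣ) : k)) *
        (YKum_j j (l e) * YKum_mon (YKum_X j i ψ b) e) = 0 := by
    intro e hne
    by_cases he : e ∈ W
    · rw [← Finset.sum_mul, ← map_sum, ← map_sum]
      have h3 : YKum_mon χ (-e₀ + e) ≠ 1 := by
        intro h
        have h4 := hW1 _ (W.add_mem (W.neg_mem he₀) he) h
        apply hne
        rw [neg_add_eq_zero] at h4
        exact h4.symm
      have h5 : ∑ n : N, ((YKum_mon χ (-e₀ + e) n : kˣ) : k) = 0 := by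
        have h6 : ((Units.coeHom k).comp (YKum_mon χ (-e₀ + e))) ≠ 1 := by
          intro h7
          apply h3
          ext n
          exact DFunLike.congr_fun h7 n
        exact sum_hom_units_eq_zero _ h6
      rw [h5, map_zero, map_zero, zero_mul]
    · refine Finset.sum_eq_zero fun n _ => ?_
      rw [hl e he, map_zero, zero_mul, mul_zero]
  rw [Finset.sum_eq_single e₀ (fun e _ hne => h2 e hne)
    (fun h => absurd (Finset.mem_univ _) h)]
  have h8 : ∀ n : N, YKum_j j (cst ((YKum_mon χ (-e₀ + e₀) n : kˣ) : k)) *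
      (YKum_j j (l e₀) * YKum_mon (YKum_X j i ψ b) e₀) =
      YKum_j j (l e₀) * YKum_mon (YKum_X j i ψ b) e₀ := by
    intro n
    rw [neg_add_cancel, YKum_mon_zero, MonoidHom.one_apply, Units.val_one, map_one, map_one,
      one_mul]
  rw [Finset.sum_congr rfl fun n _ => h8 n, Finset.sum_const, Finset.card_univ,
    Nat.card_eq_fintype_card, nsmul_eq_mul, map_mul, map_natCast, map_natCast, mul_assoc]

theorem YKum_mon_ne {Ξ : ZMod p → G → Ω} (h : ∀ c g, Ξ c g ≠ 0) (e : ZMod p → ZMod r) (g : G) :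
    YKum_mon Ξ e g ≠ 0 := by
  unfold YKum_mon
  rw [Finset.prod_apply, Finset.prod_ne_zero_iff]
  intro c _
  rw [Pi.pow_apply]
  exact pow_ne_zero _ (h c g)

end Fun

theorem YKum_unr {G B : Type} [Group G] [CommRing B] [MulSemiringAction G B] (σ : G)
    (h : Ideal.span {x : B | ∃ b : B, x = b - σ • b} = ⊤) :
    ∃ (n : ℕ) (a b : Fin n → B), ∑ j, a j * (b j - σ • b j) = 1 := by
  have h1 : (1 : B) ∈ Ideal.span {x : B | ∃ b : B, x = b - σ • b} := h ▸ Submodule.mem_top
  rw [Ideal.span, Submodule.mem_span_set'] at h1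
  obtain ⟨n, a, g, hg⟩ := h1
  choose b hb using fun i => (g i).2
  refine ⟨n, a, b, ?_⟩
  rw [← hg]
  refine Finset.sum_congr rfl fun j _ => ?_
  rw [← hb j]
  rfl

theorem YKum_unr' {G B : Type} [Group G] [CommRing B] [MulSemiringAction G B] (σ : G)
    (n : ℕ) (a b : Fin n → B) (h : ∑ j, a j * (b j - σ • b j) = 1) :
    Ideal.span {x : B | ∃ b : B, x = b - σ • b} = ⊤ := by
  rw [Ideal.eq_top_iff_one, ← h]
  exact Ideal.sum_mem _ fun j _ => Ideal.mul_mem_left _ _ (Ideal.subset_span ⟨b j, rfl⟩)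

/-- The Kummer algebra of a family of crossed homomorphisms. -/
theorem YKum_main {p r : ℕ} [Fact p.Prime] [Fact r.Prime] {k R L : Type} [Field k] [CommRing R]
    [Field L] [Algebra R L] {G : Type} [Group G] [Finite G] [MulSemiringAction G L]
    (i : G →* Multiplicative (ZMod p)) (N : Subgroup G)
    (hNi : N ≤ i.ker) (hNL : ∀ n ∈ N, ∀ x : L, n • x = x)
    (hcomm : ∀ (g : G) (a : R), g • algebraMap R L a = algebraMap R L a)
    (hinj : Function.Injective (algebraMap R L))
    (hinv : ∀ x : L, (∀ g : G, g • x = x) → ∃ a : R, algebraMap R L a = x)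
    (hunr : ∀ g : G, g ∉ N → Ideal.span {x : L | ∃ b : L, x = b - g • b} = ⊤)
    (cst : k →+* L)
    (ψ : ZMod p → G → L) (hψ0 : ∀ c g, ψ c g ≠ 0)
    (hψ : ∀ c g h, ψ c (g * h) = ψ (c + Multiplicative.toAdd (i h)) g * g • ψ c h)
    (α : ZMod p → L) (hα0 : ∀ c, α c ≠ 0)
    (hα : ∀ c g, ψ c g ^ r * α (c + Multiplicative.toAdd (i g)) = g • α c)
    (χ : ZMod p → (N →* kˣ)) (hχ : ∀ c (n : N), ψ c n = cst ((χ c n : kˣ) : k))
    (hcard : (Nat.card N : k) ≠ 0)
    (W : Submodule (ZMod r) (ZMod p → ZMod r)) (hWsh : ∀ m, ∀ e ∈ W, YKum_sh m e ∈ W)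
    (hW1 : ∀ e ∈ W, YKum_mon χ e = 1 → e = 0)
    (hW2 : ∀ n : N, n ≠ 1 → ∃ e ∈ W, YKum_mon χ e n ≠ 1) :
    ∃ (L' : Type) (_ : CommRing L') (_ : Algebra R L') (_ : MulSemiringAction G L') (ι : L →+* L'),
      GalAlg R G L' ∧ Function.Injective ι ∧ (∀ a, ι (algebraMap R L a) = algebraMap R L' a) ∧
      (∀ (g : G) (x : L), g • ι x = ι (g • x)) ∧
      (∀ x : L', (∀ n ∈ N, n • x = x) → ∃ x', ι x' = x) ∧
      (∀ (T : Type) [CommRing T] (f : L →+* T) (b : ZMod p → T), (∀ c, b c ^ r = f (α c)) →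
        ∃ F : L' →+* T, ∀ x, F (ι x) = f x) ∧
      ∀ e ∈ W, ∃ β : L', β ^ r = ι (∏ c, α c ^ (e c).val) := by
  classical
  have hr0 : 0 < r := (Fact.out : r.Prime).pos
  have : Fintype N := Fintype.ofFinite N
  obtain ⟨Ω, _, j, hroot⟩ : ∃ (Ω : Type) (_ : Field Ω) (_ : L →+* Ω),
      ∀ x : Ω, ∃ z : Ω, z ^ r = x :=
    ⟨AlgebraicClosure L, inferInstance, algebraMap L (AlgebraicClosure L), fun x =>
      IsAlgClosed.exists_pow_nat_eq x hr0⟩
  choose b hb using fun c => hroot (j (α c))
  have hj0 : ∀ x : L, j x = 0 → x = 0 := fun x hx => j.injective (by rw [hx, map_zero])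
  have hb0 : ∀ c, b c ≠ 0 := by
    intro c h
    have h1 := hb c
    rw [h, zero_pow hr0.ne'] at h1
    exact hα0 c (hj0 _ h1.symm)
  have hΞ := YKum_X_pow (r := r) j i ψ b α hb hα
  have hΞne : ∀ c (g : G), YKum_X j i ψ b c g ≠ 0 := by
    intro c g
    exact mul_ne_zero (fun h => hψ0 c g (hj0 _ h)) (hb0 _)
  have hr : ∀ c, χ c ^ r = 1 := by
    intro c
    ext n
    have h1 := hα c (n : G)
    have h2 : Multiplicative.toAdd (i (n : G)) = 0 := by
      have := hNi n.2
      rw [MonoidHom.mem_ker] at this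
      rw [this]
      rfl
    rw [h2, add_zero, hNL n n.2, hχ] at h1
    have h3 : cst (((χ c n : kˣ) : k)) ^ r = 1 := by
      have h4 := mul_right_cancel₀ (hα0 c) (h1.trans (one_mul _).symm)
      exact h4
    rw [← map_pow] at h3
    have h5 : (((χ c n : kˣ) : k)) ^ r = 1 := cst.injective (by rw [h3, map_one])
    rw [MonoidHom.pow_apply, Units.val_pow_eq_pow_val, MonoidHom.one_apply, Units.val_one]
    exact h5
  have havg := YKum_avg j i ψ b hψ N hNi hNL cst χ hχ hr W hW1
  have hcardL : cst (Nat.card N : k) ≠ 0 := fun h => hcard (cst.injective (by rw [h, map_zero]))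
  -- uniqueness of the coordinates
  have huniq : ∀ l : (ZMod p → ZMod r) → L, (∀ e, e ∉ W → l e = 0) →
      ∑ e, (YKum_j j (l e) : G → Ω) * YKum_mon (YKum_X j i ψ b) e = 0 → ∀ e, l e = 0 := by
    intro l hl h0 e₀
    by_cases he₀ : e₀ ∈ W
    · have h1 := havg l hl e₀ he₀
      rw [h0] at h1
      simp only [map_zero, mul_zero, Finset.sum_const_zero] at h1
      have h2 := congrFun h1.symm 1
      rw [Pi.mul_apply, YKum_j_apply, one_smul, Pi.zero_apply] at h2
      rcases mul_eq_zero.1 h2 with h3 | h3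
      · rcases mul_eq_zero.1 (hj0 _ h3) with h4 | h4
        · exact absurd h4 hcardL
        · exact h4
      · exact absurd h3 (YKum_mon_ne hΞne e₀ 1)
    · exact hl e₀ he₀
  have hjmem : ∀ x : L, (YKum_j j x : G → Ω) ∈ YKum_R (YKum_j j) (YKum_X j i ψ b) W α hΞ := by
    intro x
    have h1 := YKum_hom_mem (YKum_j j) (YKum_X j i ψ b) W x W.zero_mem
    rw [YKum_mon_zero, mul_one] at h1
    exact h1
  have htr : ∀ (g : G) (x : G → Ω), x ∈ YKum_R (YKum_j j) (YKum_X j i ψ b) W α hΞ →
      YKum_tr g x ∈ YKum_R (YKum_j j) (YKum_X j i ψ b) W α hΞ :=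
    fun g x hx => YKum_tr_mem j i ψ b hψ W hWsh g x hx
  let act : MulSemiringAction G (YKum_R (YKum_j j) (YKum_X j i ψ b) W α hΞ) :=
    { smul := fun g x => ⟨YKum_tr g x.1, htr g x.1 x.2⟩
      one_smul := fun x => Subtype.ext (YKum_tr_one x.1)
      mul_smul := fun g h x => Subtype.ext (YKum_tr_mul g h x.1)
      smul_zero := fun g => Subtype.ext (map_zero (YKum_tr g))
      smul_add := fun g x y => Subtype.ext (map_add (YKum_tr g) x.1 y.1)
      smul_one := fun g => Subtype.ext (map_one (YKum_tr g))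
      smul_mul := fun g x y => Subtype.ext (map_mul (YKum_tr g) x.1 y.1) }
  let ι : L →+* YKum_R (YKum_j j) (YKum_X j i ψ b) W α hΞ :=
    (YKum_j j : L →+* (G → Ω)).codRestrict _ hjmem
  let alg : Algebra R (YKum_R (YKum_j j) (YKum_X j i ψ b) W α hΞ) :=
    (ι.comp (algebraMap R L)).toAlgebra
  have hsm : ∀ (g : G) (x : YKum_R (YKum_j j) (YKum_X j i ψ b) W α hΞ),
      ((g • x : YKum_R (YKum_j j) (YKum_X j i ψ b) W α hΞ) : G → Ω) = YKum_tr g x.1 :=
    fun _ _ => rfl
  have hιι : ∀ x : L, ((ι x : YKum_R (YKum_j j) (YKum_X j i ψ b) W α hΞ) : G → Ω) =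
      YKum_j j x := fun _ => rfl
  have hιinj : Function.Injective ι := ι.injective
  have hιsm : ∀ (g : G) (x : L), g • ι x = ι (g • x) :=
    fun g x => Subtype.ext (YKum_tr_j j g x)
  have hιalg : ∀ a, ι (algebraMap R L a) =
      algebraMap R (YKum_R (YKum_j j) (YKum_X j i ψ b) W α hΞ) a := fun _ => rfl
  have hfix : ∀ x : YKum_R (YKum_j j) (YKum_X j i ψ b) W α hΞ,
      (∀ n ∈ N, n • x = x) → ∃ x', ι x' = x := by
    intro x hx
    obtain ⟨l, hl, hxl⟩ := x.2
    refine ⟨l 0, Subtype.ext ?_⟩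
    have h1 := havg l hl 0 W.zero_mem
    rw [← hxl] at h1
    have h2 : ∀ n : N,
        (YKum_j j (cst ((YKum_mon χ (-(0 : ZMod p → ZMod r)) n : kˣ) : k)) : G → Ω) *
        YKum_tr (n : G) (x : G → Ω) = x := by
      intro n
      have h3 : YKum_tr (n : G) (x : G → Ω) = x := congrArg Subtype.val (hx n n.2)
      rw [h3, neg_zero, YKum_mon_zero, MonoidHom.one_apply, Units.val_one, map_one, map_one,
        one_mul]
    rw [Finset.sum_congr rfl fun n _ => h2 n, Finset.sum_const, YKum_mon_zero, mul_one,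
      Finset.card_univ, ← Nat.card_eq_fintype_card] at h1
    rw [hιι]
    funext g
    have h4 := congrFun h1 g
    rw [Pi.smul_apply, YKum_j_apply, smul_mul', map_mul, nsmul_eq_mul] at h4
    have h5 : j (g • cst (Nat.card N : k)) = (Nat.card N : Ω) := by
      have h7 : g • ((Nat.card N : ℕ) : L) = ((Nat.card N : ℕ) : L) :=
        map_natCast (MulSemiringAction.toRingHom G L g) _
      rw [map_natCast cst, h7]
      exact map_natCast j _
    rw [h5] at h4
    have h6 : (Nat.card N : Ω) ≠ 0 := by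
      rw [← map_natCast (j.comp cst)]
      intro h
      exact hcard ((j.comp cst).injective (by rw [h, map_zero]))
    rw [YKum_j_apply]
    exact (mul_left_cancel₀ h6 h4).symm
  refine ⟨YKum_R (YKum_j j) (YKum_X j i ψ b) W α hΞ, inferInstance, alg, act, ι, ⟨?_, ?_, ?_, ?_⟩,
    hιinj, hιalg, hιsm, hfix, ?_, ?_⟩
  · intro g a
    rw [← hιalg, hιsm, hcomm]
  · intro a a' h
    rw [← hιalg, ← hιalg] at h
    exact hinj (hιinj h)
  · intro x hx
    obtain ⟨x', rfl⟩ := hfix x fun n _ => hx n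
    obtain ⟨a, ha⟩ := hinv x' fun g => hιinj (by rw [← hιsm, hx])
    exact ⟨a, by rw [← hιalg, ha]⟩
  · intro σ hσ
    by_cases hσN : σ ∈ N
    · obtain ⟨e, he, hne⟩ := hW2 ⟨σ, hσN⟩ fun h => hσ (congrArg Subtype.val h)
      set l' : L := 1 - cst ((YKum_mon χ e ⟨σ, hσN⟩ : kˣ) : k) with hl'
      have hl'0 : l' ≠ 0 := by
        intro h
        rw [hl', sub_eq_zero] at h
        apply hne
        apply Units.ext
        exact cst.injective (by rw [← h, Units.val_one, map_one])
      set P : L := ∏ c, α c ^ ((((-e) c).val + (e c).val) / r) with hP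
      have hP0 : P ≠ 0 := Finset.prod_ne_zero_iff.2 fun c _ => pow_ne_zero _ (hα0 c)
      have hz := YKum_hom_mem (YKum_j j) (YKum_X j i ψ b) W 1 he
      have hw := YKum_hom_mem (YKum_j j) (YKum_X j i ψ b) W (l' * P)⁻¹ (W.neg_mem he)
      refine YKum_unr' σ 1 (fun _ => ⟨_, hw⟩) (fun _ => ⟨_, hz⟩) ?_
      rw [Fin.sum_univ_one]
      apply Subtype.ext
      have h1 := YKum_tr_N j i ψ b hψ N hNi hNL cst χ hχ ⟨σ, hσN⟩ 1 e
      have h2 : YKum_j j 1 * YKum_mon (YKum_X j i ψ b) e -
          YKum_tr σ (YKum_j j 1 * YKum_mon (YKum_X j i ψ b) e) =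
          YKum_j j l' * YKum_mon (YKum_X j i ψ b) e := by
        rw [h1, hl', map_sub, map_one]
        ring
      show YKum_j j (l' * P)⁻¹ * YKum_mon (YKum_X j i ψ b) (-e) *
        (YKum_j j 1 * YKum_mon (YKum_X j i ψ b) e -
          YKum_tr σ (YKum_j j 1 * YKum_mon (YKum_X j i ψ b) e)) = 1
      rw [h2, YKum_hom_mul (YKum_j j) (YKum_X j i ψ b) α hΞ, neg_add_cancel, YKum_mon_zero,
        mul_one, ← hP, mul_assoc, inv_mul_cancel₀ (mul_ne_zero hl'0 hP0), map_one]
    · obtain ⟨n, a, c, h⟩ := YKum_unr σ (hunr σ hσN)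
      refine YKum_unr' σ n (fun m => ι (a m)) (fun m => ι (c m)) ?_
      rw [← map_one ι, ← h, map_sum]
      refine Finset.sum_congr rfl fun m _ => ?_
      rw [map_mul, map_sub, hιsm]
  · intro T _ f b' hb'
    obtain ⟨F, hF⟩ := YKum_univ (YKum_j j) (YKum_X j i ψ b) W α hΞ huniq f b' hb'
    exact ⟨F, fun x => hF x _⟩
  · intro e he
    have h1 := YKum_hom_mem (YKum_j j) (YKum_X j i ψ b) W 1 he
    rw [map_one, one_mul] at h1
    refine ⟨⟨YKum_mon (YKum_X j i ψ b) e, h1⟩, Subtype.ext ?_⟩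
    show YKum_mon (YKum_X j i ψ b) e ^ r = YKum_j j (∏ c, α c ^ (e c).val)
    rw [YKum_mon_pow, map_prod]
    refine Finset.prod_congr rfl fun c _ => ?_
    rw [hΞ, map_pow]

theorem YKum_T_add {p : ℕ} [Fact p.Prime] {G : Type} [Group G] {t : G} (ht : t ^ p = 1)
    (c d : ZMod p) : t ^ (c + d).val = t ^ c.val * t ^ d.val := by
  rw [ZMod.val_add, ← pow_add, ← pow_eq_pow_mod _ ht]

theorem YKum_T_i {p : ℕ} [Fact p.Prime] {G : Type} [Group G] (i : G →* Multiplicative (ZMod p))
    {t : G} (hit : i t = Multiplicative.ofAdd 1) (c : ZMod p) :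
    i (t ^ c.val) = Multiplicative.ofAdd c := by
  rw [map_pow, hit, ← ofAdd_nsmul, nsmul_one, ZMod.natCast_zmod_val]

theorem YKum_av {p : ℕ} [Fact p.Prime] {G : Type} [Group G] (i : G →* Multiplicative (ZMod p))
    {t : G} (hit : i t = Multiplicative.ofAdd 1) (c : ZMod p) (g : G) :
    (t ^ (c + Multiplicative.toAdd (i g)).val)⁻¹ * g * t ^ c.val ∈ i.ker := by
  rw [MonoidHom.mem_ker, map_mul, map_mul, map_inv, YKum_T_i i hit, YKum_T_i i hit]
  apply Multiplicative.toAdd.injective
  rw [toAdd_mul, toAdd_mul, toAdd_inv, toAdd_ofAdd, toAdd_ofAdd, toAdd_one]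
  ring

theorem prf_YKum : YKum := by
  classical
  intro k _ _ p r _ _ hrprime hrp G _ _ i t hit htp N _ hNi hN0 hNc hNr hmin L _ _ _ hGal χ hχ1
    φ hφ hφN α hα
  have : Fact r.Prime := ⟨hrprime⟩
  let act : MulSemiringAction G L := MulSemiringAction.compHom L (QuotientGroup.mk' N)
  have hact : ∀ (g : G) (x : L), g • x = (QuotientGroup.mk g : G ⧸ N) • x := fun _ _ => rfl
  have hNL : ∀ n ∈ N, ∀ x : L, n • x = x := by
    intro n hn x
    rw [hact, (QuotientGroup.eq_one_iff n).2 hn, one_smul]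
  have hcomm : ∀ (g : G) (a : RatFunc k), g • algebraMap (RatFunc k) L a =
      algebraMap (RatFunc k) L a := fun g a => hGal.comm _ a
  set cst : k →+* L := (algebraMap (RatFunc k) L).comp RatFunc.C with hcst
  have hcstG : ∀ (g : G) (a : k), g • cst a = cst a := fun g a => hcomm g _
  set ψ : ZMod p → G → L := fun c g => (t ^ (c + Multiplicative.toAdd (i g)).val) •
    ((φ ⟨_, YKum_av i hit c g⟩ : Lˣ) : L) with hψdef
  have hψ0 : ∀ c g, ψ c g ≠ 0 := by
    intro c g
    simp only [hψdef]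
    rw [ne_eq, smul_eq_zero_iff_eq]
    exact Units.ne_zero _
  have hd : ∀ (c : ZMod p) (g h : G), c + Multiplicative.toAdd (i (g * h)) =
      c + Multiplicative.toAdd (i h) + Multiplicative.toAdd (i g) := by
    intro c g h
    rw [map_mul, toAdd_mul]
    ring
  have hψ : ∀ c g h, ψ c (g * h) = ψ (c + Multiplicative.toAdd (i h)) g * g • ψ c h := by
    intro c g h
    have h1 : (⟨_, YKum_av i hit c (g * h)⟩ : i.ker) =
        ⟨_, YKum_av i hit (c + Multiplicative.toAdd (i h)) g⟩ * ⟨_, YKum_av i hit c h⟩ := by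
      apply Subtype.ext
      show (t ^ (c + Multiplicative.toAdd (i (g * h))).val)⁻¹ * (g * h) * t ^ c.val =
        ((t ^ (c + Multiplicative.toAdd (i h) + Multiplicative.toAdd (i g)).val)⁻¹ * g *
          t ^ (c + Multiplicative.toAdd (i h)).val) *
        ((t ^ (c + Multiplicative.toAdd (i h)).val)⁻¹ * h * t ^ c.val)
      rw [hd]
      group
    simp only [hψdef]
    rw [h1, hφ, smul_mul', hd, ← hact, smul_smul, smul_smul]
    congr 2
    group
  set α' : ZMod p → L := fun c => t ^ c.val • (α : L) with hα'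
  have hα0 : ∀ c, α' c ≠ 0 := by
    intro c
    simp only [hα']
    rw [ne_eq, smul_eq_zero_iff_eq]
    exact Units.ne_zero _
  have hαψ : ∀ c g, ψ c g ^ r * α' (c + Multiplicative.toAdd (i g)) = g • α' c := by
    intro c g
    have h1 := hα ⟨_, YKum_av i hit c g⟩
    rw [← hact] at h1
    have h2 := congrArg (fun x => t ^ (c + Multiplicative.toAdd (i g)).val • x) h1
    simp only [smul_mul', smul_pow'] at h2
    simp only [hψdef, hα']
    rw [← h2, smul_smul, smul_smul]
    congr 1
    group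
  set χ' : ZMod p → (N →* kˣ) := fun c =>
    χ.comp (MulAut.conjNormal (t ^ c.val)⁻¹ : MulAut N).toMonoidHom with hχ'
  have hχa : ∀ c (n : N), χ' c n = χ (MulAut.conjNormal (t ^ c.val)⁻¹ n) := fun _ _ => rfl
  have hiN : ∀ n ∈ N, i n = 1 := fun n hn => MonoidHom.mem_ker.1 (hNi hn)
  have hχψ : ∀ c (n : N), ψ c n = cst ((χ' c n : kˣ) : k) := by
    intro c n
    have h1 := hφN (MulAut.conjNormal (t ^ c.val)⁻¹ n) ⟨_, YKum_av i hit c (n : G)⟩ (by
      rw [MulAut.conjNormal_apply, inv_inv]
      show _ = (t ^ (c + Multiplicative.toAdd (i (n : G))).val)⁻¹ * (n : G) * t ^ c.val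
      rw [hiN n n.2, toAdd_one, add_zero])
    simp only [hψdef]
    rw [h1, hcomm, hχa]
    rfl
  have hr' : ∀ c, χ' c ^ r = 1 := by
    intro c
    ext n
    rw [MonoidHom.pow_apply, ← map_pow]
    have h1 : n ^ r = 1 := Subtype.ext (hNr n n.2)
    rw [h1, map_one, MonoidHom.one_apply]
  have hcard : (Nat.card N : k) ≠ 0 := by
    have h1 : IsPGroup r N := fun n => ⟨1, by
      rw [pow_one]
      exact Subtype.ext (hNr n n.2)⟩
    obtain ⟨m, hm⟩ := IsPGroup.iff_card.1 h1
    rw [hm, Nat.cast_pow]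
    refine pow_ne_zero _ fun h => ?_
    rw [CharP.cast_eq_zero_iff k p] at h
    exact hrp ((Nat.prime_dvd_prime_iff_eq Fact.out hrprime).1 h).symm
  -- the space of exponents
  obtain ⟨W, hWsh, hW1, hW3⟩ := YKum_W hrp χ' hr'
    (MonoidHom.compHom' (MulAut.conjNormal (t ^ (1 : ZMod p).val)⁻¹ : MulAut N).toMonoidHom) (by
    intro c
    ext n
    show ((χ (MulAut.conjNormal (t ^ (c + 1).val)⁻¹ n) : kˣ) : k) =
      ((χ (MulAut.conjNormal (t ^ c.val)⁻¹ (MulAut.conjNormal (t ^ (1 : ZMod p).val)⁻¹ n)) :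
        kˣ) : k)
    congr 2
    apply Subtype.ext
    rw [MulAut.conjNormal_apply, MulAut.conjNormal_apply, MulAut.conjNormal_apply, add_comm,
      YKum_T_add htp]
    group)
  have hN1 : ∀ n : N, (∀ c, χ' c n = 1) → n = 1 := by
    set N0 : Subgroup G := (⨅ c, (χ' c).ker).map N.subtype with hN0def
    have hmem : ∀ n : N, (n : G) ∈ N0 ↔ ∀ c, χ' c n = 1 := by
      intro n
      rw [hN0def, Subgroup.mem_map]
      constructor
      · rintro ⟨x, hx, hxn⟩
        have h1 : x = n := Subtype.ext hxn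
        rw [h1, Subgroup.mem_iInf] at hx
        exact fun c => MonoidHom.mem_ker.1 (hx c)
      · intro h
        exact ⟨n, Subgroup.mem_iInf.2 fun c => MonoidHom.mem_ker.2 (h c), rfl⟩
    have hN0N : N0 ≤ N := by
      rw [hN0def]
      exact Subgroup.map_subtype_le _
    have hnorm : N0.Normal := by
      refine ⟨fun g hg h => ?_⟩
      have h1 := (hmem ⟨g, hN0N hg⟩).1 hg
      have h2 : h * g * h⁻¹ = ((MulAut.conjNormal h ⟨g, hN0N hg⟩ : N) : G) := by
        rw [MulAut.conjNormal_apply]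
      rw [h2, hmem]
      intro c
      rw [hχa]
      have h3 := h1 (c + Multiplicative.toAdd (i h⁻¹))
      rw [hχa] at h3
      have h4 : MulAut.conjNormal (t ^ c.val)⁻¹ (MulAut.conjNormal h ⟨g, hN0N hg⟩) =
          MulAut.conjNormal (t ^ (c + Multiplicative.toAdd (i h⁻¹)).val)⁻¹
            (⟨g, hN0N hg⟩ : N) := by
        apply Subtype.ext
        rw [MulAut.conjNormal_apply, MulAut.conjNormal_apply, MulAut.conjNormal_apply, inv_inv,
          inv_inv]
        set T1 := t ^ c.val with hT1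
        set T2 := t ^ (c + Multiplicative.toAdd (i h⁻¹)).val with hT2
        have h5 : T2⁻¹ * h⁻¹ * T1 ∈ i.ker := YKum_av i hit c h⁻¹
        have h6 : T2⁻¹ * g * T2 ∈ N := by
          have := (inferInstance : N.Normal).conj_mem g (hN0N hg) T2⁻¹
          rwa [inv_inv] at this
        have h7 := hNc _ h6 _ h5
        show T1⁻¹ * (h * g * h⁻¹) * T1 = T2⁻¹ * g * T2
        calc T1⁻¹ * (h * g * h⁻¹) * T1 =
            (T2⁻¹ * h⁻¹ * T1)⁻¹ * ((T2⁻¹ * g * T2) * (T2⁻¹ * h⁻¹ * T1)) := by group
          _ = T2⁻¹ * g * T2 := by rw [h7, inv_mul_cancel_left]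
      rw [h4]
      exact h3
    intro n hn
    rcases hmin N0 hnorm hN0N with h | h
    · have h1 := (hmem n).2 hn
      rw [h, Subgroup.mem_bot] at h1
      exact Subtype.ext h1
    · exfalso
      apply hχ1
      ext x
      have h1 : (x : G) ∈ N0 := by
        rw [h]
        exact x.2
      have h2 := (hmem x).1 h1 0
      rw [hχa] at h2
      have h3 : MulAut.conjNormal (t ^ (0 : ZMod p).val)⁻¹ x = x := by
        apply Subtype.ext
        rw [MulAut.conjNormal_apply, ZMod.val_zero, pow_zero]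
        group
      rw [h3] at h2
      rw [h2]
      rfl
  have hW2 : ∀ n : N, n ≠ 1 → ∃ e ∈ W, YKum_mon χ' e n ≠ 1 := by
    intro n hn
    by_contra hcon
    push Not at hcon
    apply hn
    apply hN1
    intro c
    obtain ⟨e', he', h1⟩ := hW3 (Pi.single c 1)
    have h2 := hcon e' he'
    rw [h1] at h2
    have h3 : YKum_mon χ' (Pi.single c (1 : ZMod r)) = χ' c := by
      unfold YKum_mon
      rw [Finset.prod_eq_single c]
      · rw [Pi.single_eq_same, ZMod.val_one, pow_one]
      · intro c' _ hne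
        rw [Pi.single_eq_of_ne hne, ZMod.val_zero, pow_zero]
      · intro h
        exact absurd (Finset.mem_univ _) h
    rwa [h3] at h2
  obtain ⟨L', _, _, _, ι, hG', hι, hιalg, hιsm, hfix, huniv, hβ⟩ :=
    YKum_main (r := r) (R := RatFunc k) i N hNi hNL hcomm hGal.inj (fun x hx => hGal.inv x fun g => by
      obtain ⟨g', rfl⟩ := QuotientGroup.mk_surjective g
      exact hx g') (fun g hg => hGal.unr (QuotientGroup.mk g) fun h =>
        hg ((QuotientGroup.eq_one_iff g).1 h)) cst ψ hψ0 hψ α' hα0 hαψ χ' hχψ hcard W hWsh hW1 hW2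
  refine ⟨L', inferInstance, inferInstance, inferInstance, ι, hG', hι, hιalg,
    fun g x => by rw [hιsm, hact], hfix, ?_, ?_⟩
  · intro T _ f b hb
    exact huniv T f (fun c => b c.val) fun c => hb c.val
  · obtain ⟨n, hn⟩ : ∃ n : N, n ≠ 1 := by
      by_contra hcon
      push Not at hcon
      apply hN0
      rw [eq_bot_iff]
      intro x hx
      rw [Subgroup.mem_bot]
      exact congrArg Subtype.val (hcon ⟨x, hx⟩)
    obtain ⟨e, he, hne⟩ := hW2 n hn
    obtain ⟨β, hβe⟩ := hβ e he
    refine ⟨fun c => (e c).val, β, ?_, ?_⟩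
    · by_contra hcon
      push Not at hcon
      have h1 : e = 0 := by
        funext c
        have h2 := Nat.eq_zero_of_dvd_of_lt (hcon c) (ZMod.val_lt _)
        exact (ZMod.val_eq_zero _).1 h2
      apply hne
      rw [h1, YKum_mon_zero, MonoidHom.one_apply]
    · rw [hβe]
      rfl

end MP7b0bad

end

section

set_option autoImplicit false

namespace MP7b0bad

open Polynomial

theorem YL0_tr {k : Type} [Field k] [IsAlgClosed k] {T : Type} [Field T] (c : k →+* T) (u : T)
    (hu : ∀ a, u ≠ c a) : ∀ f : k[X], f ≠ 0 → f.eval₂ c u ≠ 0 := by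
  have main : ∀ n : ℕ, ∀ f : k[X], f.natDegree = n → f ≠ 0 → f.eval₂ c u ≠ 0 := by
    intro n
    induction n with
    | zero =>
      intro f hn hf
      rw [eq_C_of_natDegree_eq_zero hn, eval₂_C]
      intro h0
      apply hf
      rw [eq_C_of_natDegree_eq_zero hn, (map_eq_zero c).1 h0, C_0]
    | succ n ih =>
      intro f hn hf
      obtain ⟨a, ha⟩ := IsAlgClosed.exists_root f (by
        intro h0
        rw [natDegree_eq_zero_iff_degree_le_zero.2 h0.le] at hn
        omega)
      obtain ⟨g, hg⟩ := dvd_iff_isRoot.2 ha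
      have hg0 : g ≠ 0 := by
        rintro rfl
        exact hf (by rw [hg, mul_zero])
      have hgn : g.natDegree = n := by
        rw [hg, natDegree_mul (X_sub_C_ne_zero a) hg0, natDegree_X_sub_C] at hn
        omega
      rw [hg, eval₂_mul, eval₂_sub, eval₂_X, eval₂_C]
      exact mul_ne_zero (sub_ne_zero.2 (hu a)) (ih g hgn hg0)
  intro f hf
  exact main _ f rfl hf

theorem YL0_X (k : Type) [Field k] (p : ℕ) [Fact p.Prime] (a : k) :
    (RatFunc.X : RatFunc k) ^ p - RatFunc.X ≠ RatFunc.C a := by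
  intro h
  have h1 : algebraMap k[X] (RatFunc k) (X ^ p - X) = algebraMap k[X] (RatFunc k) (C a) := by
    rw [map_sub, map_pow, RatFunc.algebraMap_X, RatFunc.algebraMap_C, h]
  have h2 := RatFunc.algebraMap_injective k h1
  have h3 := congrArg (fun q => coeff q p) h2
  have hp : 1 < p := (Fact.out : p.Prime).one_lt
  simp only [coeff_sub, coeff_X_pow, coeff_X, coeff_C, if_true] at h3
  rw [if_neg (by omega), if_neg (by omega)] at h3
  simp at h3

theorem YL0_Xc (k : Type) [Field k] (b a : k) :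
    (RatFunc.X : RatFunc k) + RatFunc.C b ≠ RatFunc.C a := by
  intro h
  have h1 : algebraMap k[X] (RatFunc k) (X + C b) = algebraMap k[X] (RatFunc k) (C a) := by
    rw [map_add, RatFunc.algebraMap_X, RatFunc.algebraMap_C, RatFunc.algebraMap_C, h]
  have h2 := RatFunc.algebraMap_injective k h1
  have h3 := congrArg (fun q => coeff q 1) h2
  simp [coeff_C] at h3

/-- value of the cast of `c : ZMod p` -/
theorem YL0_cast (p : ℕ) [Fact p.Prime] (R : Type) [CommRing R] [CharP R p] (a b : ZMod p) :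
    (((a + b).val : ℕ) : R) = (a.val : R) + (b.val : R) := by
  have h : ∀ x : ZMod p, ((x.val : ℕ) : R) = ZMod.castHom (dvd_refl p) R x := by
    intro x
    rw [ZMod.castHom_apply, ZMod.natCast_val]
  rw [h, h, h, map_add]

theorem YL0_pow (p : ℕ) [Fact p.Prime] (R : Type) [CommRing R] [CharP R p] (n : ℕ) :
    ((n : ℕ) : R) ^ p = n := by
  have h := ZMod.pow_card (n : ZMod p)
  have h2 := congrArg (ZMod.castHom (dvd_refl p) R) h
  rw [map_pow, map_natCast] at h2
  exact h2

/-- the core: everything through an isomorphism `e : k(y) ≃ L` -/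
theorem YL0_core (hYEv : YEv) (k : Type) [Field k] [IsAlgClosed k] (p : ℕ) [Fact p.Prime]
    [CharP k p] (σ : RatFunc k →+* RatFunc k) (hσC : ∀ a, σ (RatFunc.C a) = RatFunc.C a)
    (hσX : σ RatFunc.X = RatFunc.X ^ p - RatFunc.X)
    (τ : ZMod p → RatFunc k →+* RatFunc k) (hτC : ∀ g a, τ g (RatFunc.C a) = RatFunc.C a)
    (hτX : ∀ g, τ g RatFunc.X = RatFunc.X + RatFunc.C ((g.val : ℕ) : k))
    (L : Type) [Field L] [Algebra (RatFunc k) L] [MulSemiringAction (Multiplicative (ZMod p)) L]
    (e : RatFunc k ≃+* L) (he : ∀ a, algebraMap (RatFunc k) L a = e (σ a))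
    (hact : ∀ (g : Multiplicative (ZMod p)) x, g • e x = e (τ (Multiplicative.toAdd g) x)) :
    YTow k p 1 (Multiplicative (ZMod p)) (MonoidHom.id _) L (e RatFunc.X) := by
  classical
  have hpp := (Fact.out : p.Prime)
  have hchar : CharP (RatFunc k) p := charP_of_injective_ringHom (RatFunc.C : k →+* RatFunc k).injective p
  have hcharL : CharP L p := charP_of_injective_ringHom (e : RatFunc k →+* L).injective p
  -- y ↦ y + c
  have htr : ∀ g : Multiplicative (ZMod p), g • e RatFunc.X =
      e RatFunc.X + (((Multiplicative.toAdd g).val : ℕ) : L) := by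
    intro g
    rw [hact, hτX, map_add, map_natCast, map_natCast]
  have hcomm : ∀ (g : Multiplicative (ZMod p)) (a : RatFunc k),
      g • algebraMap (RatFunc k) L a = algebraMap (RatFunc k) L a := by
    intro g a
    rw [he, hact]
    congr 1
    have h := (hYEv k (RatFunc k) RatFunc.C (RatFunc.X ^ p - RatFunc.X)
      (YL0_tr _ _ (YL0_X k p))).2 ((τ (Multiplicative.toAdd g)).comp σ) σ
      (fun a => by rw [RingHom.comp_apply, hσC, hτC])
      (by
        rw [RingHom.comp_apply, hσX, map_sub, map_pow, hτX, add_pow_char, map_natCast, YL0_pow]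
        ring)
    rw [← RingHom.comp_apply, h]
  have has : (e RatFunc.X) ^ p - e RatFunc.X = algebraMap (RatFunc k) L RatFunc.X := by
    rw [he, hσX, map_sub, map_pow]
  have hloc : ∀ u : LaurentSeries k, (∀ a, u ≠ HahnSeries.C a) →
      ∃ j : L →+* LaurentSeries k, YEmb (e RatFunc.X) u j := by
    intro u hu
    obtain ⟨h, h1, h2⟩ := (hYEv k (LaurentSeries k) HahnSeries.C u (YL0_tr _ _ hu)).1
    refine ⟨h.comp (e.symm : L →+* RatFunc k), fun c => ?_, ?_⟩
    · rw [RingHom.comp_apply, he, hσC, RingEquiv.coe_toRingHom, RingEquiv.symm_apply_apply, h1]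
    · rw [RingHom.comp_apply, RingEquiv.coe_toRingHom, RingEquiv.symm_apply_apply, h2]
  refine ⟨⟨hcomm, (algebraMap (RatFunc k) L).injective, ?_, ?_⟩, has, htr, ?_, ?_, ?_⟩
  · -- invariants
    intro b hb
    -- L is generated by y
    set y := e RatFunc.X with hy
    set m : (RatFunc k)[X] := X ^ p - X - C RatFunc.X with hm
    have hmm : m.Monic := by
      rw [hm, sub_sub]
      apply monic_X_pow_sub
      refine (degree_add_le _ _).trans_lt (max_lt ?_ ?_)
      · rw [degree_X]
        exact_mod_cast hpp.one_lt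
      · exact degree_C_le.trans_lt (by exact_mod_cast hpp.pos)
    have hmd : m.natDegree = p := by
      rw [hm, sub_sub]
      apply natDegree_eq_of_degree_eq_some
      rw [degree_sub_eq_left_of_degree_lt, degree_X_pow]
      rw [degree_X_pow]
      refine (degree_add_le _ _).trans_lt (max_lt ?_ ?_)
      · rw [degree_X]
        exact_mod_cast hpp.one_lt
      · exact degree_C_le.trans_lt (by exact_mod_cast hpp.pos)
    have hmy : aeval y m = 0 := by
      rw [hm, map_sub, map_sub, map_pow, aeval_X, aeval_C, has, sub_self]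
    have hint : IsIntegral (RatFunc k) y := ⟨m, hmm, by rwa [← aeval_def]⟩
    have htop : IntermediateField.adjoin (RatFunc k) {y} = ⊤ := by
      rw [eq_top_iff]
      rintro x -
      obtain ⟨z, rfl⟩ := e.surjective x
      have hyin : y ∈ IntermediateField.adjoin (RatFunc k) {y} :=
        IntermediateField.mem_adjoin_simple_self _ _
      have hpoly : ∀ q : k[X], e (algebraMap k[X] (RatFunc k) q) ∈
          IntermediateField.adjoin (RatFunc k) {y} := by
        intro q
        induction q using Polynomial.induction_on' with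
        | add a b ha hb => rw [map_add, map_add]; exact add_mem ha hb
        | monomial n c =>
          rw [← C_mul_X_pow_eq_monomial, map_mul, map_pow, RatFunc.algebraMap_X,
            RatFunc.algebraMap_C, map_mul, map_pow]
          refine mul_mem ?_ (pow_mem hyin n)
          have : e (RatFunc.C c) = algebraMap (RatFunc k) L (RatFunc.C c) := by rw [he, hσC]
          rw [this]
          exact IntermediateField.algebraMap_mem _ _
      rw [← RatFunc.num_div_denom z, map_div₀]
      exact div_mem (hpoly _) (hpoly _)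
    have hb1 : b ∈ Algebra.adjoin (RatFunc k) {y} := by
      rw [← IntermediateField.adjoin_simple_toSubalgebra_of_isAlgebraic hint.isAlgebraic, htop]
      trivial
    rw [Algebra.adjoin_singleton_eq_range_aeval] at hb1
    obtain ⟨P0, hP0⟩ := hb1
    change aeval y P0 = b at hP0
    set P := P0 %ₘ m with hP
    have hPd : P.degree < p := by
      rw [← hmd, ← degree_eq_natDegree hmm.ne_zero]
      exact degree_modByMonic_lt _ hmm
    have hPy : aeval y P = b := by
      rw [← hP0]
      conv_rhs => rw [← modByMonic_add_div P0 m]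
      rw [map_add, map_mul, hmy, zero_mul, add_zero]
    set Q : L[X] := P.map (algebraMap (RatFunc k) L) - C b with hQ
    have hQ0 : Q = 0 := by
      by_contra hne
      have hdeg : Q.natDegree < p := by
        rw [natDegree_lt_iff_degree_lt hne]
        refine (degree_sub_le _ _).trans_lt (max_lt ?_ ?_)
        · exact degree_map_le.trans_lt hPd
        · exact degree_C_le.trans_lt (by exact_mod_cast hpp.pos)
      have hroot : ∀ g : ZMod p, Q.eval (y + ((g.val : ℕ) : L)) = 0 := by
        intro g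
        have h1 := hb (Multiplicative.ofAdd g)
        rw [← hPy, aeval_def, eval₂_eq_sum, Polynomial.sum, Finset.smul_sum] at h1
        rw [hQ, eval_sub, eval_C, eval_map, sub_eq_zero, eval₂_eq_sum, Polynomial.sum]
        rw [← hPy, aeval_def, eval₂_eq_sum, Polynomial.sum, ← h1]
        refine Finset.sum_congr rfl fun n _ => ?_
        rw [smul_mul', smul_pow', hcomm, htr]
        rfl
      have hcard : (Finset.univ.image (fun g : ZMod p => y + ((g.val : ℕ) : L))).card = p := by
        rw [Finset.card_image_of_injective, Finset.card_univ, ZMod.card]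
        intro g g' hgg
        have h1 : ((g.val : ℕ) : L) = ((g'.val : ℕ) : L) := add_left_cancel hgg
        have h2 : g.val ≡ g'.val [MOD p] := (CharP.natCast_eq_natCast L p).1 h1
        rw [← ZMod.natCast_eq_natCast_iff] at h2
        rwa [ZMod.natCast_zmod_val, ZMod.natCast_zmod_val] at h2
      have hsub : (Finset.univ.image (fun g : ZMod p => y + ((g.val : ℕ) : L))) ⊆
          Q.roots.toFinset := by
        intro z hz
        rw [Finset.mem_image] at hz
        obtain ⟨g, -, rfl⟩ := hz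
        rw [Multiset.mem_toFinset, mem_roots hne]
        exact hroot g
      have h3 := Finset.card_le_card hsub
      rw [hcard] at h3
      have h4 := (Multiset.toFinset_card_le Q.roots).trans (card_roots' Q)
      omega
    refine ⟨P.coeff 0, ?_⟩
    have h5 := congrArg (fun q => coeff q 0) hQ0
    simp only [hQ, coeff_sub, coeff_map, coeff_C_zero, coeff_zero] at h5
    exact sub_eq_zero.1 h5
  · -- unramified
    intro g hg
    apply Ideal.eq_top_of_isUnit_mem _ (x := e RatFunc.X - g • e RatFunc.X)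
    · exact Ideal.subset_span ⟨_, rfl⟩
    · rw [htr, isUnit_iff_ne_zero, sub_add_cancel_left, neg_ne_zero]
      intro h0
      apply hg
      have h1 := (CharP.cast_eq_zero_iff L p _).1 h0
      have h2 : (Multiplicative.toAdd g) = 0 := by
        rw [← ZMod.natCast_zmod_val (Multiplicative.toAdd g)]
        exact (ZMod.natCast_eq_zero_iff _ _).2 h1
      exact Multiplicative.toAdd.injective h2
  · intro y0 _
    apply hloc
    intro a h
    have h1 := congrArg (fun q => HahnSeries.coeff q 1) h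
    simp [HahnSeries.C_apply, HahnSeries.coeff_single] at h1
  · apply hloc
    intro a h
    have h1 := congrArg (fun q => HahnSeries.coeff q 1) h
    simp [HahnSeries.C_apply, HahnSeries.coeff_single] at h1
  · apply hloc
    intro a h
    have h1 := congrArg (fun q => HahnSeries.coeff q (-1)) h
    simp [HahnSeries.C_apply, HahnSeries.coeff_single] at h1

theorem prf_YL0 (hYEv : YEv) : YL0 := by
  intro k _ _ p _ _
  have hpp := (Fact.out : p.Prime)
  obtain ⟨σ, hσC, hσX⟩ := (hYEv k (RatFunc k) RatFunc.C (RatFunc.X ^ p - RatFunc.X)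
      (YL0_tr _ _ (YL0_X k p))).1
  have hτ : ∀ g : ZMod p, ∃ τ : RatFunc k →+* RatFunc k, (∀ a, τ (RatFunc.C a) = RatFunc.C a) ∧
      τ RatFunc.X = RatFunc.X + RatFunc.C ((g.val : ℕ) : k) := fun g =>
    (hYEv k (RatFunc k) RatFunc.C (RatFunc.X + RatFunc.C ((g.val : ℕ) : k))
      (YL0_tr _ _ (YL0_Xc k _))).1
  choose τ hτC hτX using hτ
  have hid : ∀ (f g : RatFunc k →+* RatFunc k) (c : k), (∀ a, f (RatFunc.C a) = RatFunc.C a) →
      (∀ a, g (RatFunc.C a) = RatFunc.C a) → f RatFunc.X = RatFunc.X + RatFunc.C c →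
      g RatFunc.X = RatFunc.X + RatFunc.C c → f = g := by
    intro f g c hf hg hfX hgX
    exact (hYEv k (RatFunc k) RatFunc.C (RatFunc.X + RatFunc.C c) (YL0_tr _ _ (YL0_Xc k _))).2
      f g (fun a => by rw [hf, hg]) (by rw [hfX, hgX])
  letI act : MulSemiringAction (Multiplicative (ZMod p)) (RatFunc k) :=
    { smul := fun g x => τ (Multiplicative.toAdd g) x
      one_smul := fun x => by
        have h : τ 0 = RingHom.id _ := hid _ _ 0 (hτC 0) (fun _ => rfl)
          (by rw [hτX, ZMod.val_zero, Nat.cast_zero]) (by simp)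
        change τ 0 x = x
        rw [h]
        rfl
      mul_smul := fun g g' x => by
        have h : τ (Multiplicative.toAdd g + Multiplicative.toAdd g') =
            (τ (Multiplicative.toAdd g)).comp (τ (Multiplicative.toAdd g')) :=
          hid _ _ _ (hτC _) (fun a => by rw [RingHom.comp_apply, hτC, hτC]) (hτX _) (by
            rw [RingHom.comp_apply, hτX, map_add, hτX, hτC, add_assoc, ← map_add, YL0_cast])
        change τ (Multiplicative.toAdd g + Multiplicative.toAdd g') x = _
        rw [h]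
        rfl
      smul_zero := fun g => map_zero _
      smul_add := fun g x y => map_add _ _ _
      smul_one := fun g => map_one _
      smul_mul := fun g x y => map_mul _ _ _ }
  exact ⟨RatFunc k, inferInstance, σ.toAlgebra, act, RingEquiv.refl _ RatFunc.X,
    @YL0_core hYEv k _ _ p _ _ σ hσC hσX τ hτC hτX (RatFunc k) _ σ.toAlgebra act
      (RingEquiv.refl _) (fun a => rfl) (fun g x => rfl)⟩

end MP7b0bad

end

section

set_option autoImplicit false

namespace MP7b0bad

open Polynomial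

/-- a Laurent series that is not a constant is transcendental (algebraically closed field) -/
theorem YLocX_trans {k : Type} [Field k] [IsAlgClosed k] (u : LaurentSeries k)
    (hu : ∀ a : k, u ≠ HahnSeries.C a) : ∀ (n : ℕ) (f : k[X]), f.natDegree = n → f ≠ 0 →
    f.eval₂ (HahnSeries.C : k →+* LaurentSeries k) u ≠ 0 := by
  intro n
  induction n with
  | zero =>
    intro f hf hf0 h
    rw [Polynomial.eq_C_of_natDegree_eq_zero hf, Polynomial.eval₂_C] at h
    have h1 : f.coeff 0 = 0 := by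
      have := (map_eq_zero (HahnSeries.C : k →+* LaurentSeries k)).1 h
      exact this
    apply hf0
    rw [Polynomial.eq_C_of_natDegree_eq_zero hf, h1, Polynomial.C_0]
  | succ n ih =>
    intro f hf hf0 h
    have hd : f.degree ≠ 0 := by
      intro h0
      have h1 : f.natDegree = 0 := Polynomial.natDegree_eq_zero_iff_degree_le_zero.2 h0.le
      omega
    obtain ⟨a, ha⟩ := IsAlgClosed.exists_root f hd
    obtain ⟨g, hg⟩ := Polynomial.dvd_iff_isRoot.2 ha
    have hg0 : g ≠ 0 := by
      rintro rfl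
      exact hf0 (by rw [hg, mul_zero])
    have hgn : g.natDegree = n := by
      have h1 := Polynomial.natDegree_mul (Polynomial.X_sub_C_ne_zero a) hg0
      rw [← hg, hf, Polynomial.natDegree_X_sub_C] at h1
      omega
    rw [hg, Polynomial.eval₂_mul, Polynomial.eval₂_sub, Polynomial.eval₂_X,
      Polynomial.eval₂_C] at h
    rcases mul_eq_zero.1 h with h | h
    · exact hu a (sub_eq_zero.1 h)
    · exact ih g hgn hg0 h

theorem YLocX_core (hYEv : YEv) {k : Type} [Field k] [IsAlgClosed k] (M : ℕ)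
    (L : Type) [Field L] [Algebra (RatFunc k) L] (ψ : RatFunc k →+* RatFunc k)
    (hψ : ∀ c, ψ (RatFunc.C c) = RatFunc.C c) (hψX : ψ RatFunc.X = RatFunc.X ^ M)
    (Lx : Type) [Field Lx] [Algebra (RatFunc k) Lx] (q : L →+* Lx)
    (hU : ∀ (T : Type) [CommRing T] (f : L →+* T) (h : RatFunc k →+* T),
      (∀ a, f (algebraMap (RatFunc k) L a) = h (ψ a)) →
      ∃ F : Lx →+* T, (∀ x, F (q x) = f x) ∧ ∀ a, F (algebraMap (RatFunc k) Lx a) = h a)
    (u : LaurentSeries k) (hu : ∀ a : k, u ≠ HahnSeries.C a) (f : L →+* LaurentSeries k)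
    (hfC : ∀ c : k, f (algebraMap (RatFunc k) L (RatFunc.C c)) = HahnSeries.C c)
    (hfX : f (algebraMap (RatFunc k) L RatFunc.X) = u ^ M) :
    ∃ j : Lx →+* LaurentSeries k, YEmb (algebraMap (RatFunc k) Lx RatFunc.X) u j := by
  obtain ⟨⟨h, hC, hX⟩, huniq⟩ := hYEv k (LaurentSeries k) HahnSeries.C u
    (fun f hf => YLocX_trans u hu _ f rfl hf)
  have hagree : f.comp (algebraMap (RatFunc k) L) = h.comp ψ := by
    apply huniq
    · intro a
      rw [RingHom.comp_apply, RingHom.comp_apply, hfC, hψ, hC]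
    · rw [RingHom.comp_apply, RingHom.comp_apply, hfX, hψX, map_pow, hX]
  obtain ⟨F, -, hF⟩ := hU (LaurentSeries k) f h (fun a => by
    have := RingHom.congr_fun hagree a
    rwa [RingHom.comp_apply, RingHom.comp_apply] at this)
  refine ⟨F, fun c => ?_, ?_⟩
  · rw [hF, hC]
  · rw [hF, hX]

theorem YLocX_coeff_C {k : Type} [Field k] (a : k) {m : ℤ} (hm : m ≠ 0) :
    (HahnSeries.C a : LaurentSeries k).coeff m = 0 := by
  rw [HahnSeries.C_apply]
  exact HahnSeries.coeff_single_of_ne hm

theorem prf_YLocX (hYEv : YEv) (hYPar : YPar) : YLocX := by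
  intro k _ _ p M _ _ hpM G _ _ i L _ _ _ y hT ψ hψ hψX Lx _ _ q hq hU
  obtain ⟨hP1, ⟨g0, hg01, hg02, hg03⟩, uI, huI, huIo, huIe⟩ := hYPar k p M hpM
  have hpp : p.Prime := Fact.out
  have core := YLocX_core hYEv M L ψ hψ hψX Lx q hU
  have hpow : ∀ n : ℕ, (HahnSeries.single (n : ℤ) (1 : k) : LaurentSeries k) =
      (HahnSeries.single (1 : ℤ) (1 : k)) ^ n := by
    intro n
    rw [HahnSeries.single_pow]
    simp
  constructor
  · intro x0
    have hne : ∀ a : k, (HahnSeries.C x0 + HahnSeries.single (1 : ℤ) (1 : k) :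
        LaurentSeries k) ≠ HahnSeries.C a := by
      intro a h
      have h1 := congrArg (fun v : LaurentSeries k => v.coeff 1) h
      simp only [HahnSeries.coeff_add, HahnSeries.coeff_single_same] at h1
      rw [YLocX_coeff_C x0 one_ne_zero, YLocX_coeff_C a one_ne_zero, zero_add] at h1
      exact one_ne_zero h1
    by_cases hx0 : x0 = 0
    · obtain ⟨j, hjC, hjy⟩ := hT.loc0
      obtain ⟨σ, hσC, hσX, -⟩ := prf_C2s k g0 1 one_pos (by exact_mod_cast hg01)
        (by intro m hm; exact hg02 m (by exact_mod_cast hm))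
      refine core _ hne (σ.comp j) (fun c => ?_) ?_
      · rw [RingHom.comp_apply, hjC, hσC]
      · rw [← hT.as, map_sub, map_pow, RingHom.comp_apply, hjy, hpow M, map_pow, hσX, hg03, hx0,
          map_zero, zero_add]
    · have hroot : ∃ y0 : k, y0 ^ p - y0 = x0 ^ M := by
        have hdeg : ((X : k[X]) ^ p - X - Polynomial.C (x0 ^ M)).degree ≠ 0 := by
          have h1 : ((X : k[X]) ^ p - X - Polynomial.C (x0 ^ M)).degree = (p : WithBot ℕ) := by
            rw [Polynomial.degree_sub_eq_left_of_degree_lt]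
            · rw [Polynomial.degree_sub_eq_left_of_degree_lt]
              · exact Polynomial.degree_X_pow p
              · rw [Polynomial.degree_X_pow, Polynomial.degree_X]
                exact_mod_cast hpp.one_lt
            · rw [Polynomial.degree_sub_eq_left_of_degree_lt]
              · rw [Polynomial.degree_X_pow]
                exact lt_of_le_of_lt Polynomial.degree_C_le (by exact_mod_cast hpp.pos)
              · rw [Polynomial.degree_X_pow, Polynomial.degree_X]
                exact_mod_cast hpp.one_lt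
          rw [h1]
          exact_mod_cast hpp.ne_zero
        obtain ⟨y0, hy0⟩ := IsAlgClosed.exists_root _ hdeg
        refine ⟨y0, ?_⟩
        rw [Polynomial.IsRoot.def, Polynomial.eval_sub, Polynomial.eval_sub, Polynomial.eval_pow,
          Polynomial.eval_X, Polynomial.eval_C] at hy0
        exact sub_eq_zero.1 hy0
      obtain ⟨y0, hy0⟩ := hroot
      obtain ⟨g, hg1, hg2, hg3⟩ := hP1 x0 y0 hx0 hy0
      obtain ⟨j, hjC, hjy⟩ := hT.loc y0 (by rw [hy0]; exact pow_ne_zero _ hx0)
      obtain ⟨σ, hσC, hσX, -⟩ := prf_C2s k g 1 one_pos (by exact_mod_cast hg1)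
        (by intro m hm; exact hg2 m (by exact_mod_cast hm))
      refine core _ hne (σ.comp j) (fun c => ?_) ?_
      · rw [RingHom.comp_apply, hjC, hσC]
      · rw [← hT.as, map_sub, map_pow, RingHom.comp_apply, hjy, map_add, hσC, hσX, hg3]
  · obtain ⟨j, hjC, hjy⟩ := hT.locI
    have hne : ∀ a : k, uI ≠ HahnSeries.C a := by
      intro a h
      have h1 : uI.coeff (-(p : ℤ)) ≠ 0 := by
        rw [← huIo]
        exact HahnSeries.coeff_order_eq_zero.not.2 huI
      rw [h] at h1
      exact h1 (YLocX_coeff_C a (by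
        have := hpp.pos
        omega))
    obtain ⟨F, hF⟩ := core uI hne j hjC (by rw [← hT.as, map_sub, map_pow, hjy, huIe])
    exact ⟨uI, F, huI, huIo, hF⟩

end MP7b0bad

end

section

set_option autoImplicit false

namespace MP7b0bad

open Module

/-- a product of `q` linear forms with values in `L`, followed by a `K`-linear functional, is a
homogeneous polynomial of degree `q` -/
theorem YNorm_poly {K L : Type} [Field K] [Field L] [Algebra K L] (pr : L →ₗ[K] K) (N q : ℕ)
    (c : Fin q → Fin N → L) : ∃ f : MvPolynomial (Fin N) K, f.IsHomogeneous q ∧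
      ∀ x : Fin N → K, MvPolynomial.eval x f = pr (∏ i, ∑ s, x s • c i s) := by
  refine ⟨∑ g : Fin q → Fin N, MvPolynomial.C (pr (∏ i, c i (g i))) *
    ∏ i, MvPolynomial.X (g i), ?_, fun x => ?_⟩
  · refine MvPolynomial.IsHomogeneous.sum _ _ _ fun g _ => ?_
    refine MvPolynomial.IsHomogeneous.C_mul ?_ _
    have := MvPolynomial.IsHomogeneous.prod (R := K) (Finset.univ : Finset (Fin q))
      (fun i => MvPolynomial.X (g i)) (fun _ => 1) fun i _ => MvPolynomial.isHomogeneous_X K (g i)
    simpa using this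
  · rw [map_sum, Finset.prod_univ_sum, map_sum]
    rw [Fintype.piFinset_univ]
    refine Finset.sum_congr rfl fun g _ => ?_
    rw [map_mul, MvPolynomial.eval_C, map_prod (MvPolynomial.eval x)]
    simp only [MvPolynomial.eval_X]
    have h1 : ∏ i, x (g i) • c i (g i) = (∏ i, x (g i)) • ∏ i, c i (g i) := by
      simp only [Algebra.smul_def, Finset.prod_mul_distrib, map_prod]
    rw [h1, map_smul, smul_eq_mul, mul_comm]

theorem prf_YNorm (hYTsen : YTsen) : YNorm := by
  intro k _ _ L _ _ _ σ q hq hσ a ha hσa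
  classical
  set H : Subgroup (L ≃ₐ[RatFunc k] L) := Subgroup.zpowers σ with hH
  set F := IntermediateField.fixedField H with hF
  have hmem : ∀ x : L, σ x = x → x ∈ F := by
    intro x hx
    rw [hF, IntermediateField.mem_fixedField_iff]
    intro f hf
    have h1 : H ≤ MulAction.stabilizer (L ≃ₐ[RatFunc k] L) x := by
      rw [hH, Subgroup.zpowers_le, MulAction.mem_stabilizer_iff]
      exact hx
    exact MulAction.mem_stabilizer_iff.mp (h1 hf)
  have hfix : ∀ x ∈ F, σ x = x := fun x hx =>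
    (IntermediateField.mem_fixedField_iff H x).mp hx σ (Subgroup.mem_zpowers σ)
  have hfixp : ∀ x ∈ F, ∀ i : ℕ, (σ ^ i) x = x := fun x hx i =>
    (IntermediateField.mem_fixedField_iff H x).mp hx _ (Subgroup.npow_mem_zpowers σ i)
  have hcard : finrank F L = q := by
    rw [hF, IntermediateField.finrank_fixedField_eq_card, hH, Nat.card_zpowers, hσ]
  set n := finrank (RatFunc k) F with hn
  have hnpos : 0 < n := finrank_pos
  have hmul : n * q = finrank (RatFunc k) L := by
    rw [← hcard, hn]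
    exact finrank_mul_finrank (RatFunc k) F L
  obtain ⟨pr, hpr⟩ := (F.val.toLinearMap : F →ₗ[RatFunc k] L).exists_leftInverse_of_injective
    (LinearMap.ker_eq_bot.mpr (by
      intro x y hxy
      exact Subtype.ext hxy))
  have hpr' : ∀ x : F, pr (x : L) = x := fun x => by
    have := LinearMap.congr_fun hpr x
    simpa using this
  let bL := finBasis (RatFunc k) L
  let bF := finBasis (RatFunc k) F
  set m := finrank (RatFunc k) L with hm
  let u : Fin (m + n) → L := Fin.append bL (fun _ => 0)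
  let v : Fin (m + n) → L := Fin.append (fun _ => 0) (fun t => (bF t : L))
  let A : (Fin (m + n) → RatFunc k) → L := fun x => ∑ s, x s • u s
  let B : (Fin (m + n) → RatFunc k) → L := fun x => ∑ s, x s • v s
  have h1 : ∀ j : Fin n, ∃ f : MvPolynomial (Fin (m + n)) (RatFunc k), f.IsHomogeneous q ∧
      ∀ x, MvPolynomial.eval x f = bF.repr (pr (∏ i ∈ Finset.range q, (σ ^ i) (A x) -
        a * B x ^ q)) j := by
    intro j
    obtain ⟨f1, hf1, hf1'⟩ := YNorm_poly ((bF.coord j).comp pr) (m + n) q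
      (fun i s => (σ ^ (i : ℕ)) (u s))
    obtain ⟨f2, hf2, hf2'⟩ := YNorm_poly ((bF.coord j).comp (pr.comp
      (LinearMap.mulLeft (RatFunc k) a))) (m + n) q (fun i s => v s)
    refine ⟨f1 - f2, hf1.sub hf2, fun x => ?_⟩
    rw [map_sub, hf1', hf2']
    have e1 : ∏ i : Fin q, ∑ s, x s • (σ ^ (i : ℕ)) (u s) =
        ∏ i ∈ Finset.range q, (σ ^ i) (A x) := by
      rw [Finset.prod_range]
      refine Finset.prod_congr rfl fun i _ => ?_
      simp only [A, map_sum, map_smul]
    have e2 : ∏ _i : Fin q, ∑ s, x s • v s = B x ^ q := by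
      rw [Finset.prod_const, Finset.card_univ, Fintype.card_fin]
    rw [e1, e2]
    simp only [LinearMap.comp_apply, LinearMap.mulLeft_apply, Basis.coord_apply, map_sub,
      Finsupp.sub_apply]
  choose f hf hf' using h1
  obtain ⟨x, hx0, hx⟩ := hYTsen k n (m + n) q hq.pos (by rw [hmul]; omega) f hf
  have hBF : B x ∈ F := by
    refine F.sum_mem fun s _ => ?_
    refine F.smul_mem ?_
    refine Fin.addCases (fun s => ?_) (fun s => ?_) s
    · simp only [v, Fin.append_left]
      exact F.zero_mem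
    · simp only [v, Fin.append_right]
      exact (bF s).2
  have hNF : ∏ i ∈ Finset.range q, (σ ^ i) (A x) ∈ F := by
    refine hmem _ ?_
    rw [map_prod]
    have e1 : ∀ i, σ ((σ ^ i) (A x)) = (σ ^ (i + 1)) (A x) := fun i => by
      rw [pow_succ']; rfl
    simp only [e1]
    have e2 := Finset.prod_range_succ (fun i => (σ ^ i) (A x)) q
    have e3 := Finset.prod_range_succ' (fun i => (σ ^ i) (A x)) q
    have e4 : σ ^ q = 1 := by rw [← hσ]; exact pow_orderOf_eq_one σ
    rw [e4] at e2
    rw [e2] at e3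
    rw [pow_zero] at e3
    simp only [AlgEquiv.one_apply] at e3
    by_cases hA : A x = 0
    · simp only [hA, map_zero, Finset.prod_const, Finset.card_range]
    · exact (mul_right_cancel₀ hA e3).symm
  have haF : a ∈ F := hmem a hσa
  have hZF : ∏ i ∈ Finset.range q, (σ ^ i) (A x) - a * B x ^ q ∈ F :=
    F.sub_mem hNF (F.mul_mem haF (pow_mem hBF q))
  have hZ : ∏ i ∈ Finset.range q, (σ ^ i) (A x) - a * B x ^ q = 0 := by
    have e1 : pr (∏ i ∈ Finset.range q, (σ ^ i) (A x) - a * B x ^ q) = 0 := by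
      apply bF.repr.injective
      rw [map_zero]
      ext j
      rw [← hf' j x, hx j]
      rfl
    have e2 := hpr' ⟨_, hZF⟩
    rw [e1] at e2
    exact (congrArg Subtype.val e2).symm
  have hB0 : B x ≠ 0 := by
    intro hB
    have e1 : ∏ i ∈ Finset.range q, (σ ^ i) (A x) = 0 := by
      rw [hB, zero_pow hq.pos.ne', mul_zero, sub_zero] at hZ
      exact hZ
    rw [Finset.prod_eq_zero_iff] at e1
    obtain ⟨i, -, hi⟩ := e1
    have hA : A x = 0 := (σ ^ i).injective (hi.trans (map_zero _).symm)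
    apply hx0
    have eA : ∑ s : Fin m, x (Fin.castAdd n s) • bL s = 0 := by
      have : A x = ∑ s : Fin m, x (Fin.castAdd n s) • bL s := by
        simp only [A, u, Fin.sum_univ_add, Fin.append_left, Fin.append_right, smul_zero,
          Finset.sum_const_zero, add_zero]
      rw [← this, hA]
    have eB : ∑ s : Fin n, x (Fin.natAdd m s) • bF s = 0 := by
      have : B x = ((∑ s : Fin n, x (Fin.natAdd m s) • bF s : F) : L) := by
        simp only [B, v, Fin.sum_univ_add, Fin.append_left, Fin.append_right, smul_zero,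
          Finset.sum_const_zero, zero_add]
        push_cast
        rfl
      apply Subtype.ext
      rw [← this, hB]
      rfl
    have fA := Fintype.linearIndependent_iff.mp bL.linearIndependent _ eA
    have fB := Fintype.linearIndependent_iff.mp bF.linearIndependent _ eB
    funext s
    exact Fin.addCases (fun s => fA s) (fun s => fB s) s
  refine ⟨A x / B x, ?_⟩
  have e1 : ∀ i ∈ Finset.range q, (σ ^ i) (A x / B x) = (σ ^ i) (A x) / B x := fun i _ => by
    rw [map_div₀, hfixp _ hBF]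
  rw [Finset.prod_congr rfl e1, Finset.prod_div_distrib, Finset.prod_const, Finset.card_range,
    div_eq_iff (pow_ne_zero q hB0)]
  exact sub_eq_zero.mp hZ

end MP7b0bad

end

section

set_option autoImplicit false

namespace MP7b0bad

open Polynomial

theorem YPar_hensel (k : Type) [Field k] (f : (PowerSeries k)[X]) (hf : f.Monic) (a0 : k)
    (h0 : PowerSeries.constantCoeff (f.eval (PowerSeries.C a0)) = 0)
    (h1 : PowerSeries.constantCoeff (f.derivative.eval (PowerSeries.C a0)) ≠ 0) :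
    ∃ a : PowerSeries k, f.eval a = 0 ∧ PowerSeries.constantCoeff a = a0 := by
  have hc := B5a_complete k
  have hh : HenselianRing (PowerSeries k) (Ideal.span {(PowerSeries.X : PowerSeries k)}) :=
    inferInstance
  obtain ⟨a, ha, ha'⟩ := hh.is_henselian f hf (PowerSeries.C a0)
    (by rw [Ideal.mem_span_singleton, PowerSeries.X_dvd_iff]; exact h0)
    (by exact (PowerSeries.isUnit_iff_constantCoeff.2 (isUnit_iff_ne_zero.2 h1)).map _)
  refine ⟨a, ha, ?_⟩
  rw [Ideal.mem_span_singleton, PowerSeries.X_dvd_iff, map_sub, sub_eq_zero] at ha'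
  rw [ha']
  simp

theorem YPar_coe (k : Type) [Field k] (f : PowerSeries k) :
    (∀ m : ℤ, m < 0 → (HahnSeries.ofPowerSeries ℤ k f).coeff m = 0) ∧
    (HahnSeries.ofPowerSeries ℤ k f).coeff 0 = PowerSeries.coeff 0 f ∧
    (HahnSeries.ofPowerSeries ℤ k f).coeff 1 = PowerSeries.coeff 1 f := by
  refine ⟨fun m hm => ?_, ?_, ?_⟩
  · rw [PowerSeries.coeff_coe, if_pos hm]
  · rw [PowerSeries.coeff_coe, if_neg (by omega)]
    rfl
  · rw [PowerSeries.coeff_coe, if_neg (by omega)]
    rfl

/-- first part -/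
theorem YPar_one (k : Type) [Field k] (p M : ℕ) [Fact p.Prime] [CharP k p] (hM : (M : k) ≠ 0)
    (x0 y0 : k) (hx0 : x0 ≠ 0) (hy : y0 ^ p - y0 = x0 ^ M) :
    ∃ g : LaurentSeries k, g.coeff 1 ≠ 0 ∧ (∀ m : ℤ, m < 1 → g.coeff m = 0) ∧
    (HahnSeries.C y0 + g) ^ p - (HahnSeries.C y0 + g) =
      (HahnSeries.C x0 + HahnSeries.single (1 : ℤ) (1 : k)) ^ M := by
  have hp : p.Prime := Fact.out
  set U : PowerSeries k := (PowerSeries.C x0 + PowerSeries.X) ^ M - PowerSeries.C (x0 ^ M) with hU
  set u : LaurentSeries k := HahnSeries.ofPowerSeries ℤ k U with hu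
  have hu' : u = (HahnSeries.C x0 + HahnSeries.single (1 : ℤ) (1 : k)) ^ M - HahnSeries.C (x0 ^ M) := by
    rw [hu, hU, map_sub, map_pow, map_add, HahnSeries.ofPowerSeries_C, HahnSeries.ofPowerSeries_X,
      HahnSeries.ofPowerSeries_C]
  have hU0 : PowerSeries.coeff 0 U = 0 := by
    rw [hU]
    simp
  have hU1 : PowerSeries.coeff 1 U = M * x0 ^ (M - 1) := by
    have e : ((Polynomial.C x0 + Polynomial.X : k[X]) ^ M : k[X]) = (Polynomial.X + Polynomial.C x0) ^ M := by
      rw [add_comm]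
    have h1 : (PowerSeries.C x0 + PowerSeries.X : PowerSeries k) ^ M =
        (((Polynomial.X + Polynomial.C x0 : k[X]) ^ M : k[X]) : PowerSeries k) := by
      rw [← e]
      simp
    rw [hU, map_sub, h1, Polynomial.coeff_coe, Polynomial.coeff_X_add_C_pow]
    rw [PowerSeries.coeff_C, if_neg one_ne_zero, sub_zero, Nat.choose_one_right, mul_comm]
  obtain ⟨h, h0, h1⟩ := prf_QSm0 k p u (by
    intro n hn
    rcases lt_or_eq_of_le hn with h | h
    · exact (YPar_coe k U).1 n h
    · rw [h, (YPar_coe k U).2.1, hU0])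
  set H : PowerSeries k := PowerSeries.mk (fun n => h.coeff n) with hH
  have hHh : HahnSeries.ofPowerSeries ℤ k H = h := by
    ext n
    rw [PowerSeries.coeff_coe]
    split_ifs with hn
    · exact (h0 n hn.le).symm
    · rw [hH, PowerSeries.coeff_mk]
      congr 1
      omega
  have hp1 : (h ^ p).coeff 1 = 0 := by
    rw [← hHh, ← map_pow, (YPar_coe k (H ^ p)).2.2, QSm0_pow, if_neg]
    intro hd
    exact hp.one_lt.ne' (Nat.dvd_one.1 hd)
  refine ⟨h, ?_, fun m hm => h0 m (by omega), ?_⟩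
  · intro hc
    have h2 : u.coeff 1 = 0 := by
      rw [h1, HahnSeries.coeff_sub, hp1, hc, sub_zero]
    rw [hu, (YPar_coe k U).2.2, hU1] at h2
    exact mul_ne_zero hM (pow_ne_zero _ hx0) h2
  · have : CharP (LaurentSeries k) p :=
      charP_of_injective_ringHom (f := (HahnSeries.C : k →+* LaurentSeries k))
        HahnSeries.C_injective p
    rw [add_pow_char]
    have h3 : h ^ p - h = (HahnSeries.C x0 + HahnSeries.single (1 : ℤ) (1 : k)) ^ M -
        HahnSeries.C (x0 ^ M) := by rw [← h1, hu']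
    rw [← hy] at h3
    rw [← map_pow]
    rw [map_sub] at h3
    linear_combination h3

/-- second part -/
theorem YPar_two (k : Type) [Field k] [IsAlgClosed k] (p M : ℕ) [Fact p.Prime] [CharP k p]
    (hM : (M : k) ≠ 0) (hM0 : M ≠ 0) :
    ∃ g : LaurentSeries k, g.coeff 1 ≠ 0 ∧ (∀ m : ℤ, m < 1 → g.coeff m = 0) ∧
    (g ^ M) ^ p - g ^ M = (HahnSeries.single (1 : ℤ) (1 : k)) ^ M := by
  have hp : p.Prime := Fact.out
  have hp2 : 2 ≤ p := hp.two_le
  have hpM : M * (p - 1) ≠ 0 := Nat.mul_ne_zero hM0 (by omega)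
  have hpM' : M * (p - 1) < M * p := Nat.mul_lt_mul_of_pos_left (by omega) (Nat.pos_of_ne_zero hM0)
  obtain ⟨v0, hv0⟩ := IsAlgClosed.exists_pow_nat_eq (-1 : k) (Nat.pos_of_ne_zero hM0)
  have hv00 : v0 ≠ 0 := by
    rintro rfl
    rw [zero_pow hM0] at hv0
    exact one_ne_zero (neg_eq_zero.1 hv0.symm)
  set f : (PowerSeries k)[X] := X ^ (M * p) + (X ^ (M * (p - 1)) - C (PowerSeries.X ^ (M * (p - 1))))
    with hf
  have hfm : f.Monic := by
    apply Polynomial.monic_X_pow_add
    refine lt_of_le_of_lt (Polynomial.degree_sub_le _ _) (max_lt ?_ ?_)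
    · rw [Polynomial.degree_X_pow]
      exact_mod_cast hpM'
    · refine lt_of_le_of_lt Polynomial.degree_C_le ?_
      exact_mod_cast (by omega : 0 < M * p)
  have hMp : M * p = M * (p - 1) + M := by
    obtain ⟨q, rfl⟩ : ∃ q, p = q + 1 := ⟨p - 1, by omega⟩
    rw [Nat.add_sub_cancel]
    ring
  obtain ⟨v, hv, hv'⟩ := YPar_hensel k f hfm v0 (by
    rw [hf, Polynomial.eval_add, Polynomial.eval_sub, Polynomial.eval_C, Polynomial.eval_pow,
      Polynomial.eval_pow, Polynomial.eval_X, hMp, pow_add]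
    simp only [map_add, map_sub, map_mul, map_pow, PowerSeries.constantCoeff_C,
      PowerSeries.constantCoeff_X]
    rw [hv0, zero_pow hpM]
    ring) (by
    rw [hf, Polynomial.derivative_add, Polynomial.derivative_sub, Polynomial.derivative_C,
      Polynomial.derivative_X_pow, Polynomial.derivative_X_pow]
    simp only [Polynomial.eval_add, Polynomial.eval_sub, Polynomial.eval_mul, Polynomial.eval_pow,
      Polynomial.eval_X, map_add, map_sub, map_mul, map_pow, PowerSeries.constantCoeff_C]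
    simp only [Polynomial.eval_zero, map_zero, sub_zero]
    have e1 : ((M * p : ℕ) : k) = 0 := by
      rw [CharP.cast_eq_zero_iff k p]
      exact Dvd.intro_left M rfl
    have e2 : ((M * (p - 1) : ℕ) : k) = - M := by
      rw [hMp, Nat.cast_add] at e1
      exact eq_neg_of_add_eq_zero_left e1
    have e3 : PowerSeries.constantCoeff (Polynomial.eval (PowerSeries.C v0)
        (Polynomial.C ((M * p : ℕ) : PowerSeries k))) = ((M * p : ℕ) : k) := by
      rw [Polynomial.eval_C, map_natCast]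
    have e4 : PowerSeries.constantCoeff (Polynomial.eval (PowerSeries.C v0)
        (Polynomial.C ((M * (p - 1) : ℕ) : PowerSeries k))) = ((M * (p - 1) : ℕ) : k) := by
      rw [Polynomial.eval_C, map_natCast]
    rw [e3, e4, e1, e2, zero_mul, zero_add]
    exact mul_ne_zero (neg_ne_zero.2 hM) (pow_ne_zero _ hv00))
  have hvu : IsUnit v := PowerSeries.isUnit_iff_constantCoeff.2
    (isUnit_iff_ne_zero.2 (by rw [hv']; exact hv00))
  obtain ⟨w, hw⟩ := hvu.exists_right_inv
  have hw0 : PowerSeries.constantCoeff w ≠ 0 := by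
    intro hc
    have := congrArg PowerSeries.constantCoeff hw
    rw [map_mul, hc, mul_zero, map_one] at this
    exact zero_ne_one this
  have key : (PowerSeries.X : PowerSeries k) ^ (M * (p - 1)) * w ^ (M * p) - w ^ M = 1 := by
    have h1 : v ^ (M * p) + (v ^ (M * (p - 1)) - PowerSeries.X ^ (M * (p - 1))) = 0 := by
      rw [hf, Polynomial.eval_add, Polynomial.eval_sub, Polynomial.eval_C, Polynomial.eval_pow,
        Polynomial.eval_pow, Polynomial.eval_X] at hv
      exact hv
    have h2 : v ^ (M * p) * w ^ (M * p) = 1 := by rw [← mul_pow, hw, one_pow]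
    have h3 : v ^ (M * (p - 1)) * w ^ (M * p) = w ^ M := by
      rw [hMp, pow_add, ← mul_assoc, ← mul_pow, hw, one_pow, one_mul]
    linear_combination (-w ^ (M * p)) * h1 + h2 + h3
  have key2 : ((PowerSeries.X * w : PowerSeries k) ^ M) ^ p - (PowerSeries.X * w) ^ M =
      PowerSeries.X ^ M := by
    have e1 : (((PowerSeries.X : PowerSeries k) * w) ^ M) ^ p =
        PowerSeries.X ^ M * (PowerSeries.X ^ (M * (p - 1)) * w ^ (M * p)) := by
      rw [← pow_mul, mul_pow, ← mul_assoc, ← pow_add, add_comm M, ← hMp]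
    rw [e1, mul_pow, ← mul_sub, key, mul_one]
  refine ⟨HahnSeries.ofPowerSeries ℤ k (PowerSeries.X * w), ?_, ?_, ?_⟩
  · rw [(YPar_coe k _).2.2]
    have : PowerSeries.coeff 1 (PowerSeries.X * w) = PowerSeries.constantCoeff w := by
      have := PowerSeries.coeff_succ_X_mul 0 w
      rw [zero_add] at this
      rw [this]
      simp
    rw [this]
    exact hw0
  · intro m hm
    rcases lt_or_eq_of_le (by omega : m ≤ 0) with h | h
    · exact (YPar_coe k _).1 m h
    · rw [h, (YPar_coe k _).2.1]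
      simp
  · rw [← map_pow, ← map_pow, ← map_sub, key2, map_pow, HahnSeries.ofPowerSeries_X]

/-- third part -/
theorem YPar_three (k : Type) [Field k] (p M : ℕ) [Fact p.Prime]
    (hM : (M : k) ≠ 0) (hM0 : M ≠ 0) :
    ∃ u : LaurentSeries k, u ≠ 0 ∧ u.order = -(p : ℤ) ∧
    (HahnSeries.single (-(M : ℤ)) (1 : k)) ^ p - HahnSeries.single (-(M : ℤ)) (1 : k) = u ^ M := by
  have hp : p.Prime := Fact.out
  have hp2 : 2 ≤ p := hp.two_le
  have hpM : M * (p - 1) ≠ 0 := Nat.mul_ne_zero hM0 (by omega)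
  set f : (PowerSeries k)[X] := X ^ M - C (1 - PowerSeries.X ^ (M * (p - 1))) with hf
  obtain ⟨e, he, he'⟩ := YPar_hensel k f (Polynomial.monic_X_pow_sub_C _ hM0) 1 (by
    rw [hf]
    simp [zero_pow hpM]) (by
    rw [hf, Polynomial.derivative_sub, Polynomial.derivative_C, Polynomial.derivative_X_pow]
    simp [hM])
  have he2 : e ^ M = 1 - PowerSeries.X ^ (M * (p - 1)) := by
    rw [hf, Polynomial.eval_sub, Polynomial.eval_pow, Polynomial.eval_X, Polynomial.eval_C] at he
    exact sub_eq_zero.1 he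
  set E : LaurentSeries k := HahnSeries.ofPowerSeries ℤ k e with hE
  have hE0 : E.coeff 0 = 1 := by
    rw [hE, (YPar_coe k e).2.1]
    simpa using he'
  have hEne : E ≠ 0 := by
    intro h
    rw [h] at hE0
    simp at hE0
  have hEo : E.order = 0 := by
    apply le_antisymm
    · apply HahnSeries.order_le_of_coeff_ne_zero
      rw [hE0]
      exact one_ne_zero
    · by_contra hc
      push Not at hc
      have h1 := (YPar_coe k e).1 _ hc
      exact hEne (HahnSeries.coeff_order_eq_zero.1 h1)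
  have hs : (HahnSeries.single (-(p : ℤ)) (1 : k)) ≠ 0 := by
    rw [Ne, HahnSeries.single_eq_zero_iff]
    exact one_ne_zero
  refine ⟨HahnSeries.single (-(p : ℤ)) (1 : k) * E, mul_ne_zero hs hEne, ?_, ?_⟩
  · rw [HahnSeries.order_mul hs hEne, HahnSeries.order_single one_ne_zero, hEo, add_zero]
  · have hEM : E ^ M = 1 - HahnSeries.single ((M * (p - 1) : ℕ) : ℤ) (1 : k) := by
      rw [hE, ← map_pow (HahnSeries.ofPowerSeries ℤ k) e M, he2, map_sub, map_one, map_pow,
        HahnSeries.ofPowerSeries_X, HahnSeries.single_pow, one_pow, nsmul_eq_mul, mul_one]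
    have hMp : (M * p : ℕ) = M * (p - 1) + M := by
      obtain ⟨q, rfl⟩ : ∃ q, p = q + 1 := ⟨p - 1, by omega⟩
      rw [Nat.add_sub_cancel]
      ring
    have hMp' : (p : ℤ) * M = ((M * (p - 1) : ℕ) : ℤ) + M := by
      have : ((M * p : ℕ) : ℤ) = ((M * (p - 1) + M : ℕ) : ℤ) := by rw [hMp]
      push_cast at this ⊢
      linarith
    have e1 : (p : ℕ) • (-(M : ℤ)) = -((p : ℤ) * M) := by
      rw [nsmul_eq_mul]
      ring
    have e2 : (M : ℕ) • (-(p : ℤ)) = -((p : ℤ) * M) := by
      rw [nsmul_eq_mul]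
      ring
    have e3 : -((p : ℤ) * M) + ((M * (p - 1) : ℕ) : ℤ) = -(M : ℤ) := by
      rw [hMp']
      ring
    rw [mul_pow, hEM, HahnSeries.single_pow, HahnSeries.single_pow, one_pow, one_pow, mul_sub,
      mul_one, HahnSeries.single_mul_single, mul_one, e1, e2, e3]

theorem prf_YPar : YPar := by
  intro k _ _ p M _ _ hM
  have hM0 : M ≠ 0 := by
    rintro rfl
    exact hM (dvd_zero p)
  have hMk : (M : k) ≠ 0 := by
    rw [Ne, CharP.cast_eq_zero_iff k p]
    exact hM
  exact ⟨fun x0 y0 hx0 hy => YPar_one k p M hMk x0 y0 hx0 hy, YPar_two k p M hMk hM0,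
    YPar_three k p M hMk hM0⟩

end MP7b0bad

end

section

set_option autoImplicit false

namespace MP7b0bad

open MvPolynomial

/-- translation by `x` -/
theorem YProj_height {k : Type} [Field k] [IsAlgClosed k] {n : ℕ} (x : Fin n → k) :
    (vanishingIdeal k ({x} : Set (Fin n → k)) : Ideal (MvPolynomial (Fin n) k)).height =
      (vanishingIdeal k ({0} : Set (Fin n → k)) : Ideal (MvPolynomial (Fin n) k)).height := by
  let e : MvPolynomial (Fin n) k ≃ₐ[k] MvPolynomial (Fin n) k :=
    AlgEquiv.ofAlgHom (aeval (fun i => X i + C (x i))) (aeval (fun i => X i - C (x i)))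
      (by ext i; simp) (by ext i; simp)
  have he : ∀ p : MvPolynomial (Fin n) k, aeval (0 : Fin n → k) (e p) = aeval x p := by
    intro p
    have : ((aeval (0 : Fin n → k) : MvPolynomial (Fin n) k →ₐ[k] k).comp e.toAlgHom) =
        (aeval x : MvPolynomial (Fin n) k →ₐ[k] k) := by
      ext i
      simp [e]
    exact DFunLike.congr_fun this p
  have hc : (vanishingIdeal k ({x} : Set (Fin n → k)) : Ideal (MvPolynomial (Fin n) k)) =
      (vanishingIdeal k ({0} : Set (Fin n → k)) : Ideal (MvPolynomial (Fin n) k)).comap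
        (e : MvPolynomial (Fin n) k ≃+* MvPolynomial (Fin n) k) := by
    ext p
    rw [Ideal.mem_comap, mem_vanishingIdeal_singleton_iff, mem_vanishingIdeal_singleton_iff]
    rw [← he p]
    rfl
  rw [hc]
  exact RingEquiv.height_comap (e : MvPolynomial (Fin n) k ≃+* MvPolynomial (Fin n) k) _

theorem prf_YProj : YProj := by
  classical
  intro k _ _ m n hmn f d hd hf
  by_contra hcon
  push Not at hcon
  let I : Ideal (MvPolynomial (Fin n) k) := Ideal.span (Set.range f)
  have hz : MvPolynomial.zeroLocus k I = {0} := by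
    ext x
    rw [mem_zeroLocus_iff, Set.mem_singleton_iff]
    constructor
    · intro h
      by_contra hx
      obtain ⟨i, hi⟩ := hcon x hx
      apply hi
      have := h (f i) (Ideal.subset_span ⟨i, rfl⟩)
      rwa [← MvPolynomial.coe_aeval_eq_eval]
    · rintro rfl p hp
      have hle : I ≤ RingHom.ker (aeval (0 : Fin n → k) : MvPolynomial (Fin n) k →ₐ[k] k) := by
        rw [Ideal.span_le]
        rintro _ ⟨i, rfl⟩
        rw [SetLike.mem_coe, RingHom.mem_ker]
        rw [MvPolynomial.aeval_zero, MvPolynomial.constantCoeff_eq]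
        have h0 : (f i).coeff 0 = 0 := (hf i).coeff_eq_zero (by simpa using (hd i).ne)
        rw [h0, map_zero]
      exact hle hp
  have hrad : I.radical = vanishingIdeal k ({0} : Set (Fin n → k)) := by
    rw [← MvPolynomial.vanishingIdeal_zeroLocus_eq_radical (K := k) I, hz]
  have hmin : (vanishingIdeal k ({0} : Set (Fin n → k)) : Ideal (MvPolynomial (Fin n) k)) ∈
      I.minimalPrimes := by
    refine ⟨⟨inferInstance, ?_⟩, ?_⟩
    · rw [← hrad]; exact Ideal.le_radical
    · rintro q ⟨hq, hIq⟩ _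
      rw [← hrad]
      exact (Ideal.IsPrime.radical_le_iff hq).mpr hIq
  have h1 : (vanishingIdeal k ({0} : Set (Fin n → k)) : Ideal (MvPolynomial (Fin n) k)).height ≤ m := by
    have hs : I = Ideal.span ((Finset.univ.image f : Finset (MvPolynomial (Fin n) k)) : Set (MvPolynomial (Fin n) k)) := by
      simp [I]
    rw [hs] at hmin
    refine (Ideal.height_le_card_of_mem_minimalPrimes_span_finset hmin).trans ?_
    have := Finset.card_image_le (s := (Finset.univ : Finset (Fin m))) (f := f)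
    rw [Finset.card_univ, Fintype.card_fin] at this
    exact_mod_cast this
  have h3 : ringKrullDim (MvPolynomial (Fin n) k) ≤ (m : ℕ) := by
    refine (ringKrullDim_le_iff_isMaximal_height_le _).mpr ?_
    intro p hp
    obtain ⟨x, hx⟩ := MvPolynomial.isMaximal_iff_eq_vanishingIdeal_singleton.mp hp
    rw [hx, YProj_height x]
    exact_mod_cast h1
  rw [MvPolynomial.ringKrullDim_of_isNoetherianRing, ringKrullDim_eq_zero_of_field, zero_add,
    Nat.card_eq_fintype_card, Fintype.card_fin] at h3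
  have : n ≤ m := by exact_mod_cast h3
  omega

end MP7b0bad

end

section

set_option autoImplicit false

namespace MP7b0bad

open Polynomial

theorem YPull_ext {L S : Type} [Field L] [CommRing S] (P : L[X]) (f1 f2 : AdjoinRoot P →+* S)
    (h1 : ∀ x, f1 (AdjoinRoot.of P x) = f2 (AdjoinRoot.of P x))
    (h2 : f1 (AdjoinRoot.root P) = f2 (AdjoinRoot.root P)) : f1 = f2 := by
  apply Ideal.Quotient.ringHom_ext
  apply Polynomial.ringHom_ext
  · intro a; exact h1 a
  · exact h2

/-- ring homomorphisms on rational functions -/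
theorem YPull_rat {k T : Type} [Field k] [CommRing T] (h h' : RatFunc k →+* T)
    (hC : ∀ c, h (RatFunc.C c) = h' (RatFunc.C c)) (hX : h RatFunc.X = h' RatFunc.X) : h = h' := by
  apply IsLocalization.ringHom_ext (nonZeroDivisors k[X])
  apply Polynomial.ringHom_ext
  · intro a
    show h (algebraMap k[X] (RatFunc k) (C a)) = h' (algebraMap k[X] (RatFunc k) (C a))
    rw [RatFunc.algebraMap_C]; exact hC a
  · show h (algebraMap k[X] (RatFunc k) X) = h' (algebraMap k[X] (RatFunc k) X)
    rw [RatFunc.algebraMap_X]; exact hX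

theorem YPull_deg {k : Type} [Field k] (a : RatFunc k) (ha : a ≠ 0) (n : ℕ) :
    (a ^ n).intDegree = n * a.intDegree := by
  induction n with
  | zero => simp
  | succ n ih =>
    rw [pow_succ, RatFunc.intDegree_mul (pow_ne_zero _ ha) ha, ih]
    push_cast
    ring

theorem YPull_irr (k : Type) [Field k] [IsAlgClosed k] (p M : ℕ) [Fact p.Prime] [CharP k p]
    (hM : ¬ p ∣ M) (G : Type) [Group G] [Finite G] (L : Type) [Field L] [Algebra (RatFunc k) L]
    [MulSemiringAction G L] (hG : GalAlg (RatFunc k) G L)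
    (hH : ∀ H : Subgroup G, H.Normal → ¬ p ∣ H.index → H = ⊤) :
    Irreducible (X ^ M - C (algebraMap (RatFunc k) L RatFunc.X) : L[X]) := by
  have hM0 : M ≠ 0 := by
    rintro rfl
    exact hM (dvd_zero p)
  have hMk : (M : k) ≠ 0 := by
    rw [Ne, CharP.cast_eq_zero_iff k p]
    exact hM
  obtain ⟨z, hz⟩ : ∃ z : L, z = algebraMap (RatFunc k) L RatFunc.X := ⟨_, rfl⟩
  rw [← hz]
  have hz0 : z ≠ 0 := by
    rw [hz]
    exact (map_ne_zero_iff _ hG.inj).mpr RatFunc.X_ne_zero
  have hmon : (X ^ M - C z : L[X]).Monic := monic_X_pow_sub_C z hM0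
  have hdeg : (X ^ M - C z : L[X]).natDegree = M := natDegree_X_pow_sub_C
  have hnu : ¬ IsUnit (X ^ M - C z : L[X]) := by
    intro hu
    have := natDegree_eq_zero_of_isUnit hu
    omega
  obtain ⟨P, hPm, hPi, hPd⟩ := Polynomial.exists_monic_irreducible_factor _ hnu
  have hfact : Fact (Irreducible P) := ⟨hPi⟩
  have hd0 : 0 < P.natDegree := hPi.natDegree_pos
  have hdM : P.natDegree ≤ M := by
    rw [← hdeg]
    exact natDegree_le_of_dvd hPd hmon.ne_zero
  have hroot : (AdjoinRoot.root P) ^ M = AdjoinRoot.of P z := by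
    have h1 : AdjoinRoot.mk P (X ^ M - C z) = 0 := AdjoinRoot.mk_eq_zero.mpr hPd
    rw [map_sub, map_pow, AdjoinRoot.mk_X, AdjoinRoot.mk_C, sub_eq_zero] at h1
    exact h1
  obtain ⟨l, hl⟩ : ∃ l : L, l = Algebra.norm L (AdjoinRoot.root P) := ⟨_, rfl⟩
  have hfin : Module.finrank L (AdjoinRoot P) = P.natDegree := by
    rw [(AdjoinRoot.powerBasis hPi.ne_zero).finrank, AdjoinRoot.powerBasis_dim]
  have hlM : l ^ M = z ^ P.natDegree := by
    rw [hl, ← map_pow, hroot, ← hfin]
    exact Algebra.norm_algebraMap z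
  have hl0 : l ≠ 0 := by
    intro h0
    rw [h0, zero_pow hM0] at hlM
    exact pow_ne_zero _ hz0 hlM.symm
  -- roots of unity
  have hprim : ∃ ζ : k, IsPrimitiveRoot ζ M := by
    have : NeZero (M : k) := ⟨hMk⟩
    exact (HasEnoughRootsOfUnity.exists_primitiveRoot k M)
  obtain ⟨ζ0, hζ0⟩ := hprim
  have hζ : IsPrimitiveRoot (algebraMap (RatFunc k) L (RatFunc.C ζ0)) M :=
    (hζ0.map_of_injective (RatFunc.C_injective)).map_of_injective hG.inj
  have hfix : ∀ u : L, u ^ M = 1 → ∀ g : G, g • u = u := by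
    intro u hu g
    have : NeZero M := ⟨hM0⟩
    obtain ⟨i, -, hi⟩ := hζ.eq_pow_of_pow_eq_one hu
    rw [← hi, ← map_pow, hG.comm]
  have hgz : ∀ g : G, g • z = z := fun g => by rw [hz, hG.comm]
  have hgl : ∀ g : G, (g • l / l) ^ M = 1 := by
    intro g
    rw [div_pow, ← smul_pow', hlM, smul_pow', hgz, div_self]
    exact pow_ne_zero _ hz0
  have hgl0 : ∀ g : G, g • l ≠ 0 := by
    intro g h0
    apply hl0
    have := congrArg (fun x => g⁻¹ • x) h0
    simpa using this
  let χ : G →* Lˣ := MonoidHom.mk' (fun g => Units.mk0 (g • l / l) (div_ne_zero (hgl0 g) hl0)) (by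
    intro g h
    ext
    show (g * h) • l / l = (g • l / l) * (h • l / l)
    have h1 : h • l = (h • l / l) * l := by rw [div_mul_cancel₀ _ hl0]
    rw [mul_smul]
    conv_lhs => rw [h1, smul_mul', hfix _ (hgl h) g]
    field_simp)
  have hχ : ∀ g, ((χ g : Lˣ) : L) = g • l / l := fun g => rfl
  have hidx : ¬ p ∣ χ.ker.index := by
    intro hdvd
    rw [Subgroup.index_ker] at hdvd
    have hfr : Finite χ.range := by
      rw [← SetLike.coe_sort_coe, MonoidHom.coe_range]
      exact (Set.finite_range χ).to_subtype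
    obtain ⟨u, hu⟩ := exists_prime_orderOf_dvd_card' (G := χ.range) p hdvd
    obtain ⟨g, hg⟩ := u.2
    have h1 : u ^ M = 1 := by
      apply Subtype.ext
      rw [Subgroup.coe_pow, ← hg]
      ext
      rw [Units.val_pow_eq_pow_val, hχ, hgl]
      rfl
    rw [← hu] at hM
    exact hM (orderOf_dvd_of_pow_eq_one h1)
  have htop := hH χ.ker inferInstance hidx
  have hlfix : ∀ g : G, g • l = l := by
    intro g
    have h1 : g ∈ χ.ker := by rw [htop]; exact Subgroup.mem_top g
    have h2 : ((χ g : Lˣ) : L) = 1 := by rw [MonoidHom.mem_ker.mp h1]; rfl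
    rw [hχ, div_eq_one_iff_eq hl0] at h2
    exact h2
  obtain ⟨a, ha⟩ := hG.inv l hlfix
  have ha0 : a ≠ 0 := by
    rintro rfl
    rw [map_zero] at ha
    exact hl0 ha.symm
  have haX : a ^ M = RatFunc.X ^ P.natDegree := by
    apply hG.inj
    rw [map_pow, map_pow, ha, hlM, hz]
  have hdeg2 : (M : ℤ) * a.intDegree = P.natDegree := by
    have h1 := congrArg RatFunc.intDegree haX
    rwa [YPull_deg a ha0, YPull_deg _ RatFunc.X_ne_zero, RatFunc.intDegree_X, mul_one] at h1
  have hdvd : M ∣ P.natDegree := by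
    have h1 : (M : ℤ) ∣ (P.natDegree : ℤ) := ⟨_, hdeg2.symm⟩
    exact_mod_cast h1
  have hle : M ≤ P.natDegree := Nat.le_of_dvd hd0 hdvd
  have heq : X ^ M - C z = P := by
    refine (Polynomial.eq_of_monic_of_dvd_of_natDegree_le hPm hmon hPd ?_)
    rw [hdeg]; exact hle
  rw [heq]
  exact hPi

/-- the evaluation at an element which is transcendental over the constants -/
theorem YPull_ev (k : Type) [Field k] [IsAlgClosed k] (T : Type) [Field T] (c : k →+* T) (u : T)
    (hu : ∀ a : k, u ≠ c a) :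
    ∃ h : RatFunc k →+* T, (∀ a, h (RatFunc.C a) = c a) ∧ h RatFunc.X = u := by
  have hne : ∀ f : k[X], f ≠ 0 → f.eval₂ c u ≠ 0 := by
    intro f hf h0
    have h1 := (IsAlgClosed.splits f).eq_prod_roots
    rw [h1, eval₂_mul, eval₂_C, eval₂_multiset_prod, mul_eq_zero] at h0
    rcases h0 with h0 | h0
    · rw [map_eq_zero, leadingCoeff_eq_zero] at h0
      exact hf h0
    · rw [Multiset.prod_eq_zero_iff] at h0
      simp only [Multiset.mem_map] at h0
      obtain ⟨q, ⟨a, -, rfl⟩, hq⟩ := h0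
      rw [eval₂_sub, eval₂_X, eval₂_C, sub_eq_zero] at hq
      exact hu a hq
  have hle : nonZeroDivisors k[X] ≤ (nonZeroDivisors T).comap (eval₂RingHom c u) := by
    intro f hf
    rw [Submonoid.mem_comap, mem_nonZeroDivisors_iff_ne_zero]
    exact hne f (nonZeroDivisors.ne_zero hf)
  refine ⟨RatFunc.liftRingHom (eval₂RingHom c u) hle, fun a => ?_, ?_⟩
  · rw [← RatFunc.algebraMap_C, RatFunc.liftRingHom_algebraMap]
    simp
  · rw [← RatFunc.algebraMap_X, RatFunc.liftRingHom_algebraMap]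
    simp

theorem prf_YPull' : YPull := by
  intro k _ _ p M _ _ hM G _ _ L _ _ _ hG hH ψ hψC hψX
  have hM0 : M ≠ 0 := by
    rintro rfl
    exact hM (dvd_zero p)
  obtain ⟨z, hz⟩ : ∃ z : L, z = algebraMap (RatFunc k) L RatFunc.X := ⟨_, rfl⟩
  have hirr := YPull_irr k p M hM G L hG hH
  rw [← hz] at hirr
  obtain ⟨P, hP⟩ : ∃ P : L[X], P = X ^ M - C z := ⟨_, rfl⟩
  rw [← hP] at hirr
  have hfact : Fact (Irreducible P) := ⟨hirr⟩
  have hPm : P.Monic := by rw [hP]; exact monic_X_pow_sub_C z hM0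
  have hgz : ∀ g : G, g • z = z := fun g => by rw [hz, hG.comm]
  have hroot : (AdjoinRoot.root P) ^ M = AdjoinRoot.of P z := by
    have h1 : AdjoinRoot.mk P (X ^ M - C z) = 0 := AdjoinRoot.mk_eq_zero.mpr (by rw [hP])
    rw [map_sub, map_pow, AdjoinRoot.mk_X, AdjoinRoot.mk_C, sub_eq_zero] at h1
    exact h1
  have hev : ∀ (S : Type) [CommRing S] (F : L →+* S) (r : S), P.eval₂ F r = r ^ M - F z := by
    intro S _ F r
    rw [hP, eval₂_sub, eval₂_pow, eval₂_X, eval₂_C]
  -- the action
  have hact : ∀ g : G, P.eval₂ ((AdjoinRoot.of P).comp (MulSemiringAction.toRingHom G L g))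
      (AdjoinRoot.root P) = 0 := by
    intro g
    rw [hev, hroot, sub_eq_zero]
    show AdjoinRoot.of P z = AdjoinRoot.of P (g • z)
    rw [hgz]
  let act : G → (AdjoinRoot P →+* AdjoinRoot P) := fun g =>
    AdjoinRoot.lift ((AdjoinRoot.of P).comp (MulSemiringAction.toRingHom G L g))
      (AdjoinRoot.root P) (hact g)
  have act_of : ∀ g x, act g (AdjoinRoot.of P x) = AdjoinRoot.of P (g • x) := by
    intro g x
    exact AdjoinRoot.lift_of (hact g)
  have act_root : ∀ g, act g (AdjoinRoot.root P) = AdjoinRoot.root P := by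
    intro g
    exact AdjoinRoot.lift_root (hact g)
  have act_one : act 1 = RingHom.id _ := by
    apply YPull_ext
    · intro x; rw [act_of, one_smul]; rfl
    · rw [act_root]; rfl
  have act_mul : ∀ g h, act (g * h) = (act g).comp (act h) := by
    intro g h
    apply YPull_ext
    · intro x
      rw [act_of, RingHom.comp_apply, act_of, act_of, mul_smul]
    · rw [act_root, RingHom.comp_apply, act_root, act_root]
  let iact : MulSemiringAction G (AdjoinRoot P) :=
    { smul := fun g x => act g x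
      one_smul := fun x => by
        show act 1 x = x
        rw [act_one]; rfl
      mul_smul := fun g h x => by
        show act (g * h) x = act g (act h x)
        rw [act_mul]; rfl
      smul_zero := fun g => map_zero (act g)
      smul_add := fun g x y => map_add (act g) x y
      smul_one := fun g => map_one (act g)
      smul_mul := fun g x y => map_mul (act g) x y }
  have hsm : ∀ (g : G) (x : AdjoinRoot P), g • x = act g x := fun g x => rfl
  -- the map from rational functions
  obtain ⟨h, hhC, hhX⟩ := YPull_ev k (AdjoinRoot P)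
    (((AdjoinRoot.of P).comp (algebraMap (RatFunc k) L)).comp RatFunc.C) (AdjoinRoot.root P) (by
      intro a ha
      have h1 : AdjoinRoot.of P z = AdjoinRoot.of P (algebraMap (RatFunc k) L (RatFunc.C (a ^ M))) := by
        rw [← hroot, ha]
        simp
      have h2 := hG.inj (hz ▸ (AdjoinRoot.of P).injective h1)
      have h3 := congrArg RatFunc.intDegree h2
      rw [RatFunc.intDegree_X, RatFunc.intDegree_C] at h3
      exact one_ne_zero h3)
  have hψ : ∀ a : RatFunc k, AdjoinRoot.of P (algebraMap (RatFunc k) L a) = h (ψ a) := by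
    have h1 : (AdjoinRoot.of P).comp (algebraMap (RatFunc k) L) = h.comp ψ := by
      apply YPull_rat
      · intro c
        rw [RingHom.comp_apply h ψ, hψC, hhC]
        rfl
      · rw [RingHom.comp_apply h ψ, hψX, map_pow, hhX, hroot, hz]
        rfl
    intro a
    exact congrArg (fun f => f a) h1
  let ialg : Algebra (RatFunc k) (AdjoinRoot P) := h.toAlgebra
  have hcomm : ∀ (g : G) (a : RatFunc k), act g (h a) = h a := by
    intro g a
    have h1 : (act g).comp h = h := by
      apply YPull_rat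
      · intro c
        rw [RingHom.comp_apply, hhC]
        show act g (AdjoinRoot.of P (algebraMap (RatFunc k) L (RatFunc.C c))) = _
        rw [act_of, hG.comm]
        rfl
      · rw [RingHom.comp_apply, hhX, act_root]
    exact congrArg (fun f => f a) h1
  refine ⟨AdjoinRoot P, inferInstance, ialg, iact, AdjoinRoot.of P, ⟨?_, ?_, ?_, ?_⟩, ?_, ?_, ?_⟩
  · intro g a
    exact hcomm g a
  · exact h.injective
  · -- invariants
    intro x hx
    obtain ⟨f0, hf0⟩ := AdjoinRoot.mk_surjective x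
    obtain ⟨f, hf⟩ : ∃ f : L[X], f = f0 %ₘ P := ⟨_, rfl⟩
    have hfx : AdjoinRoot.mk P f = x := by
      rw [← hf0, hf]
      rw [eq_comm, ← sub_eq_zero, ← map_sub, AdjoinRoot.mk_eq_zero]
      rw [Polynomial.modByMonic_eq_sub_mul_div, sub_sub_cancel]
      exact dvd_mul_right _ _
    have hfd : f.degree < P.degree := by
      rw [hf]; exact Polynomial.degree_modByMonic_lt _ hPm
    have hmap : ∀ g : G, act g (AdjoinRoot.mk P f) =
        AdjoinRoot.mk P (f.map (MulSemiringAction.toRingHom G L g)) := by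
      intro g
      have h1 : (act g).comp (AdjoinRoot.mk P) =
          (AdjoinRoot.mk P).comp (mapRingHom (MulSemiringAction.toRingHom G L g)) := by
        apply Polynomial.ringHom_ext
        · intro a
          rw [RingHom.comp_apply, RingHom.comp_apply, AdjoinRoot.mk_C, act_of]
          simp
        · rw [RingHom.comp_apply, RingHom.comp_apply, AdjoinRoot.mk_X, act_root]
          simp
      exact congrArg (fun F => F f) h1
    have hfix : ∀ (g : G) (n : ℕ), g • f.coeff n = f.coeff n := by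
      intro g n
      have h1 : act g x = x := hx g
      rw [← hfx, hmap g, ← sub_eq_zero, ← map_sub, AdjoinRoot.mk_eq_zero] at h1
      have h2 : f.map (MulSemiringAction.toRingHom G L g) - f = 0 := by
        refine Polynomial.eq_zero_of_dvd_of_degree_lt h1 ?_
        refine lt_of_le_of_lt (Polynomial.degree_sub_le _ _) (max_lt ?_ hfd)
        exact lt_of_le_of_lt Polynomial.degree_map_le hfd
      have h3 := congrArg (fun F => F.coeff n) (sub_eq_zero.mp h2)
      simp only [Polynomial.coeff_map] at h3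
      exact h3
    choose a ha using fun n => hG.inv (f.coeff n) (fun g => hfix g n)
    refine ⟨∑ i ∈ Finset.range (f.natDegree + 1), ψ (a i) * RatFunc.X ^ i, ?_⟩
    show h (∑ i ∈ Finset.range (f.natDegree + 1), ψ (a i) * RatFunc.X ^ i) = x
    rw [map_sum, ← hfx, f.as_sum_range_C_mul_X_pow, map_sum]
    refine Finset.sum_congr ?_ fun i _ => ?_
    · rw [← f.as_sum_range_C_mul_X_pow]
    · rw [map_mul, map_pow, hhX, ← hψ, ha, map_mul, map_pow, AdjoinRoot.mk_C, AdjoinRoot.mk_X]
  · intro σ hσ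
    have h1 := hG.unr σ hσ
    have h2 : ∃ b : L, b - σ • b ≠ 0 := by
      by_contra hcon
      push Not at hcon
      have h3 : {x : L | ∃ b : L, x = b - σ • b} ⊆ {0} := by
        rintro x ⟨b, rfl⟩
        exact hcon b
      have h4 := Ideal.span_mono h3
      rw [h1] at h4
      have h5 : (1 : L) ∈ Ideal.span ({0} : Set L) := h4 Submodule.mem_top
      rw [Ideal.mem_span_singleton, zero_dvd_iff] at h5
      exact one_ne_zero h5
    obtain ⟨b, hb⟩ := h2
    refine Ideal.eq_top_of_isUnit_mem _ (Ideal.subset_span ⟨AdjoinRoot.of P b, rfl⟩) ?_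
    rw [isUnit_iff_ne_zero]
    have h3 : (AdjoinRoot.of P b - σ • AdjoinRoot.of P b) = AdjoinRoot.of P (b - σ • b) := by
      rw [map_sub]
      congr 1
      exact act_of σ b
    rw [h3]
    exact (_root_.map_ne_zero _).mpr hb
  · intro a
    exact hψ a
  · intro g x
    exact (act_of g x).symm
  · intro T _ f h' hfh
    refine ⟨AdjoinRoot.lift f (h' RatFunc.X) ?_, fun x => ?_, ?_⟩
    · rw [hev, hz, hfh, hψX, map_pow, sub_self]
    · exact AdjoinRoot.lift_of _
    · intro a
      show AdjoinRoot.lift f (h' RatFunc.X) _ (h a) = h' a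
      have h1 : (AdjoinRoot.lift f (h' RatFunc.X) (by
          rw [hev, hz, hfh, hψX, map_pow, sub_self])).comp h
          = h' := by
        apply YPull_rat
        · intro c
          rw [RingHom.comp_apply, hhC]
          show AdjoinRoot.lift f (h' RatFunc.X) _ (AdjoinRoot.of P
            (algebraMap (RatFunc k) L (RatFunc.C c))) = _
          rw [AdjoinRoot.lift_of, hfh, hψC]
        · rw [RingHom.comp_apply, hhX, AdjoinRoot.lift_root]
      exact congrArg (fun F => F a) h1

theorem prf_YPull (_ : YComp) : YPull := prf_YPull'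

end MP7b0bad

end

section

set_option autoImplicit false

namespace MP7b0bad

/-- roots of power series by Hensel's lemma -/
theorem YRoot_ps (k : Type) [Field k] (r : ℕ) (hr : (r : k) ≠ 0) (d : k) (hd : d ≠ 0)
    (P : PowerSeries k) (hP : PowerSeries.constantCoeff P = d ^ r) : ∃ e : PowerSeries k, e ^ r = P := by
  have hr0 : r ≠ 0 := by
    rintro rfl
    exact hr Nat.cast_zero
  have hc := B5a_complete k
  have hh : HenselianRing (PowerSeries k) (Ideal.span {(PowerSeries.X : PowerSeries k)}) :=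
    inferInstance
  obtain ⟨a, ha, _⟩ := hh.is_henselian
    (Polynomial.X ^ r - Polynomial.C P)
    (Polynomial.monic_X_pow_sub_C _ hr0) (PowerSeries.C d)
    (by
      rw [Polynomial.eval_sub, Polynomial.eval_pow, Polynomial.eval_X, Polynomial.eval_C,
        Ideal.mem_span_singleton, PowerSeries.X_dvd_iff]
      simp [hP])
    (by
      have h1 : Polynomial.eval (PowerSeries.C d) (Polynomial.derivative (Polynomial.X ^ r -
          Polynomial.C P)) = PowerSeries.C ((r : k) * d ^ (r - 1)) := by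
        rw [Polynomial.derivative_sub, Polynomial.derivative_C, sub_zero,
          Polynomial.derivative_X_pow, Polynomial.eval_mul, Polynomial.eval_pow, Polynomial.eval_X]
        simp
      rw [h1]
      exact ((isUnit_iff_ne_zero.2 (mul_ne_zero hr (pow_ne_zero _ hd))).map
        (PowerSeries.C (R := k))).map _)
  refine ⟨a, ?_⟩
  rw [Polynomial.IsRoot, Polynomial.eval_sub, Polynomial.eval_pow, Polynomial.eval_X,
    Polynomial.eval_C] at ha
  exact sub_eq_zero.1 ha

theorem prf_YRoot : YRoot := by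
  intro k _ _ r hr u hu hdiv
  have hr0 : r ≠ 0 := by
    rintro rfl
    exact hr Nat.cast_zero
  obtain ⟨m, hm⟩ := hdiv
  have hc : u.coeff u.order ≠ 0 := HahnSeries.coeff_order_eq_zero.not.mpr hu
  obtain ⟨d, hd⟩ := IsAlgClosed.exists_pow_nat_eq (u.coeff u.order) (Nat.pos_of_ne_zero hr0)
  have hd0 : d ≠ 0 := by
    rintro rfl
    rw [zero_pow hr0] at hd
    exact hc hd.symm
  obtain ⟨e, he⟩ := YRoot_ps k r hr d hd0 u.powerSeriesPart (by
    rw [← PowerSeries.coeff_zero_eq_constantCoeff_apply, LaurentSeries.powerSeriesPart_coeff, hd]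
    simp)
  refine ⟨HahnSeries.single m (1 : k) * HahnSeries.ofPowerSeries ℤ k e, ?_⟩
  rw [mul_pow, HahnSeries.single_pow, one_pow, nsmul_eq_mul, ← hm, ← map_pow, he]
  exact LaurentSeries.single_order_mul_powerSeriesPart u

end MP7b0bad

end

section

set_option autoImplicit false

namespace MP7b0bad

open scoped commutatorElement

/-- action on units -/
noncomputable def YSplit_u {Q L : Type} [Group Q] [Field L] [MulSemiringAction Q L] (g : Q) :
    Lˣ →* Lˣ :=
  Units.map ((MulSemiringAction.toRingHom Q L g : L →+* L) : L →* L)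

theorem YSplit_u_coe {Q L : Type} [Group Q] [Field L] [MulSemiringAction Q L] (g : Q) (l : Lˣ) :
    ((YSplit_u g l : Lˣ) : L) = g • (l : L) := rfl

theorem YSplit_u_mul {Q L : Type} [Group Q] [Field L] [MulSemiringAction Q L] (g h : Q) (l : Lˣ) :
    YSplit_u (g * h) l = YSplit_u g (YSplit_u h l) := by
  apply Units.ext
  simp only [YSplit_u_coe, mul_smul]

theorem YSplit_u_one {Q L : Type} [Group Q] [Field L] [MulSemiringAction Q L] (l : Lˣ) :
    YSplit_u (1 : Q) l = l := by
  apply Units.ext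
  simp only [YSplit_u_coe, one_smul]

/-- a normal subgroup of prime index with a generator of the quotient -/
theorem YSplit_prime (Q : Type) [Group Q] [Finite Q] [Nontrivial Q] (h : Group.IsSolvable Q) :
    ∃ (M : Subgroup Q) (g0 : Q) (q : ℕ), M.Normal ∧ q.Prime ∧
      (∀ n : ℤ, g0 ^ n ∈ M ↔ (q : ℤ) ∣ n) ∧ (∀ g : Q, ∃ n : ℤ, g * (g0 ^ n)⁻¹ ∈ M) ∧
      g0 ∉ M := by
  classical
  have := h
  have h1 : commutator Q < ⊤ := Group.IsSolvable.commutator_lt_top_of_nontrivial Q
  obtain h2 | ⟨M, hM, hcM⟩ := eq_top_or_exists_le_coatom (commutator Q)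
  · exact absurd h2 h1.ne
  have hN : M.Normal := by
    constructor
    intro n hn g
    have h3 : ⁅g, n⁆ ∈ M := hcM (Subgroup.commutator_mem_commutator (Subgroup.mem_top g)
      (Subgroup.mem_top n))
    have h4 : g * n * g⁻¹ = ⁅g, n⁆ * n := by
      rw [commutatorElement_def]; group
    rw [h4]
    exact M.mul_mem h3 hn
  have hMt : M ≠ ⊤ := hM.1
  have hnt : Nontrivial (Q ⧸ M) := QuotientGroup.nontrivial_iff.2 hMt
  have hcard : Nat.card (Q ⧸ M) ≠ 1 := by
    intro h5
    have := Finite.one_lt_card (α := Q ⧸ M)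
    omega
  obtain ⟨q, hq, hqd⟩ := Nat.exists_prime_and_dvd hcard
  have : Fact q.Prime := ⟨hq⟩
  obtain ⟨x, hx⟩ := exists_prime_orderOf_dvd_card' q hqd
  obtain ⟨g0, rfl⟩ := QuotientGroup.mk_surjective x
  have hg0 : g0 ∉ M := by
    intro h6
    have h7 : ((g0 : Q) : Q ⧸ M) = 1 := (QuotientGroup.eq_one_iff g0).2 h6
    rw [h7, orderOf_one] at hx
    exact hq.one_lt.ne hx
  refine ⟨M, g0, q, hN, hq, ?_, ?_, hg0⟩
  · intro n
    rw [← QuotientGroup.eq_one_iff, QuotientGroup.mk_zpow, ← hx, orderOf_dvd_iff_zpow_eq_one]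
  · intro g
    have h8 : (Subgroup.zpowers ((g0 : Q) : Q ⧸ M)).comap (QuotientGroup.mk' M) = ⊤ := by
      apply hM.2
      refine lt_of_le_of_ne ?_ ?_
      · intro m hm
        rw [Subgroup.mem_comap]
        have : QuotientGroup.mk' M m = 1 := (QuotientGroup.eq_one_iff m).2 hm
        rw [this]
        exact Subgroup.one_mem _
      · intro h9
        apply hg0
        rw [h9, Subgroup.mem_comap]
        exact Subgroup.mem_zpowers _
    have h10 : g ∈ (Subgroup.zpowers ((g0 : Q) : Q ⧸ M)).comap (QuotientGroup.mk' M) := by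
      rw [h8]; exact Subgroup.mem_top g
    rw [Subgroup.mem_comap, Subgroup.mem_zpowers_iff] at h10
    obtain ⟨n, hn⟩ := h10
    refine ⟨n, ?_⟩
    rw [← QuotientGroup.eq_one_iff, QuotientGroup.mk_mul, QuotientGroup.mk_inv,
      QuotientGroup.mk_zpow, hn]
    exact mul_inv_cancel _

/-- Artin: an element acting trivially on the fixed field of `M` lies in `M` -/
theorem YSplit_artin (Q L : Type) [Group Q] [Finite Q] [Field L] [MulSemiringAction Q L]
    (hf : ∀ g : Q, g ≠ 1 → ∃ x : L, g • x ≠ x) (M : Subgroup Q) (g0 : Q)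
    (h : ∀ x : L, (∀ m ∈ M, m • x = x) → g0 • x = x) : g0 ∈ M := by
  classical
  have : FaithfulSMul M L := by
    constructor
    intro m m' hm
    by_contra hne
    have h1 : ((m : Q))⁻¹ * (m' : Q) ≠ 1 := by
      intro h2
      apply hne
      exact Subtype.ext (inv_mul_eq_one.1 h2)
    obtain ⟨x, hx⟩ := hf _ h1
    apply hx
    have h3 : (m : Q) • x = (m' : Q) • x := hm x
    rw [mul_smul, ← h3, inv_smul_smul]
  let f : L →ₐ[FixedPoints.subfield M L] L :=
    { MulSemiringAction.toRingHom Q L g0 with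
      commutes' := by
        intro r
        exact h _ (fun m hm => r.2 ⟨m, hm⟩) }
  obtain ⟨m, hm⟩ := (FixedPoints.toAlgHom_bijective M L).surjective f
  have h4 : ∀ x : L, (m : Q) • x = g0 • x := fun x => DFunLike.congr_fun hm x
  by_contra hne
  have h5 : ((m : Q))⁻¹ * g0 ≠ 1 := by
    intro h6
    apply hne
    have h7 : (m : Q) = g0 := inv_mul_eq_one.1 h6
    rw [← h7]
    exact m.2
  obtain ⟨x, hx⟩ := hf _ h5
  apply hx
  rw [mul_smul, ← h4, inv_smul_smul]

/-- fixed field of a subgroup as an intermediate field -/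
def YSplit_F {Q L : Type} [Group Q] [Field L] [MulSemiringAction Q L] {k : Type} [Field k]
    [Algebra (RatFunc k) L] (M : Subgroup Q)
    (hk : ∀ (g : Q) (a : RatFunc k), g • algebraMap (RatFunc k) L a = algebraMap (RatFunc k) L a) :
    IntermediateField (RatFunc k) L where
  carrier := {x | ∀ m ∈ M, m • x = x}
  mul_mem' := by
    intro a b ha hb m hm
    rw [smul_mul', ha m hm, hb m hm]
  add_mem' := by
    intro a b ha hb m hm
    rw [smul_add, ha m hm, hb m hm]
  algebraMap_mem' := by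
    intro r m _
    exact hk m r
  inv_mem' := by
    intro x hx m hm
    rw [smul_inv'', hx m hm]

theorem YSplit_mem_F {Q L : Type} [Group Q] [Field L] [MulSemiringAction Q L] {k : Type} [Field k]
    [Algebra (RatFunc k) L] (M : Subgroup Q)
    (hk : ∀ (g : Q) (a : RatFunc k), g • algebraMap (RatFunc k) L a = algebraMap (RatFunc k) L a)
    (x : L) : x ∈ YSplit_F M hk ↔ ∀ m ∈ M, m • x = x := Iff.rfl

/-- restriction of the action of a normalising element to the fixed field -/
noncomputable def YSplit_sig {Q L : Type} [Group Q] [Field L] [MulSemiringAction Q L] {k : Type}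
    [Field k] [Algebra (RatFunc k) L] (M : Subgroup Q) (hM : M.Normal)
    (hk : ∀ (g : Q) (a : RatFunc k), g • algebraMap (RatFunc k) L a = algebraMap (RatFunc k) L a)
    (g0 : Q) : YSplit_F M hk ≃ₐ[RatFunc k] YSplit_F M hk where
  toFun x := ⟨g0 • (x : L), by
    intro m hm
    have h1 : g0⁻¹ * m * g0 ∈ M := by
      have := hM.conj_mem m hm g0⁻¹
      rwa [inv_inv] at this
    have h2 := x.2 _ h1
    rw [← mul_smul]
    have h3 : m * g0 = g0 * (g0⁻¹ * m * g0) := by group
    rw [h3, mul_smul, h2]⟩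
  invFun x := ⟨g0⁻¹ • (x : L), by
    intro m hm
    have h1 : g0 * m * g0⁻¹ ∈ M := hM.conj_mem m hm g0
    have h2 := x.2 _ h1
    rw [← mul_smul]
    have h3 : m * g0⁻¹ = g0⁻¹ * (g0 * m * g0⁻¹) := by group
    rw [h3, mul_smul, h2]⟩
  left_inv x := Subtype.ext (inv_smul_smul g0 (x : L))
  right_inv x := Subtype.ext (smul_inv_smul g0 (x : L))
  map_mul' x y := Subtype.ext (smul_mul' g0 (x : L) (y : L))
  map_add' x y := Subtype.ext (smul_add g0 (x : L) (y : L))
  commutes' r := Subtype.ext (hk g0 r)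

theorem YSplit_sig_pow {Q L : Type} [Group Q] [Field L] [MulSemiringAction Q L] {k : Type}
    [Field k] [Algebra (RatFunc k) L] (M : Subgroup Q) (hM : M.Normal)
    (hk : ∀ (g : Q) (a : RatFunc k), g • algebraMap (RatFunc k) L a = algebraMap (RatFunc k) L a)
    (g0 : Q) (i : ℕ) (x : YSplit_F M hk) :
    (((YSplit_sig M hM hk g0) ^ i) x : L) = g0 ^ i • (x : L) := by
  induction i generalizing x with
  | zero => simp
  | succ i ih =>
    rw [pow_succ, AlgEquiv.mul_apply, ih, pow_succ, mul_smul]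
    rfl

/-- norms: an element of `Lˣ` fixed by `M` and `g0` is a norm from the fixed field of `M` -/
theorem YSplit_norm (hYNorm : YNorm) (k : Type) [Field k] [IsAlgClosed k] (L : Type) [Field L]
    [Algebra (RatFunc k) L] [FiniteDimensional (RatFunc k) L] (Q : Type) [Group Q] [Finite Q]
    [MulSemiringAction Q L] (hf : ∀ g : Q, g ≠ 1 → ∃ x : L, g • x ≠ x)
    (hk : ∀ (g : Q) (a : RatFunc k), g • algebraMap (RatFunc k) L a = algebraMap (RatFunc k) L a)
    (M : Subgroup Q) (hM : M.Normal) (g0 : Q) (q : ℕ) (hq : q.Prime)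
    (hg0 : g0 ∉ M) (hgq : g0 ^ q ∈ M) (a : Lˣ) (ha : ∀ m ∈ M, m • (a : L) = a)
    (ha0 : g0 • (a : L) = a) :
    ∃ l : Lˣ, (∀ m ∈ M, m • (l : L) = l) ∧ ∏ i ∈ Finset.range q, YSplit_u (g0 ^ i) l = a := by
  classical
  have hord : orderOf (YSplit_sig M hM hk g0) = q := by
    have : Fact q.Prime := ⟨hq⟩
    apply orderOf_eq_prime
    · apply AlgEquiv.ext
      intro x
      apply Subtype.ext
      rw [YSplit_sig_pow]
      exact x.2 _ hgq
    · intro h1
      apply hg0
      apply YSplit_artin Q L hf M g0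
      intro x hx
      have h2 := DFunLike.congr_fun h1 (⟨x, hx⟩ : YSplit_F M hk)
      exact congrArg Subtype.val h2
  let a1 : YSplit_F M hk := ⟨(a : L), ha⟩
  have ha1 : a1 ≠ 0 := by
    intro h3
    exact a.ne_zero (congrArg Subtype.val h3)
  have ha2 : YSplit_sig M hM hk g0 a1 = a1 := Subtype.ext ha0
  obtain ⟨l, hl⟩ := hYNorm k (YSplit_F M hk) (YSplit_sig M hM hk g0) q hq hord a1 ha1 ha2
  have hl0 : (l : L) ≠ 0 := by
    intro h4
    have h5 : l = 0 := Subtype.ext h4
    rw [h5] at hl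
    apply ha1
    rw [← hl]
    apply Finset.prod_eq_zero (Finset.mem_range.2 hq.pos)
    exact map_zero _
  refine ⟨Units.mk0 (l : L) hl0, fun m hm => l.2 m hm, ?_⟩
  apply Units.ext
  rw [Units.coe_prod]
  have h6 : ((∏ i ∈ Finset.range q, ((YSplit_sig M hM hk g0) ^ i) l : YSplit_F M hk) : L)
      = (a : L) := congrArg Subtype.val hl
  rw [← h6]
  have h7 : ((∏ i ∈ Finset.range q, ((YSplit_sig M hM hk g0) ^ i) l : YSplit_F M hk) : L)
      = ∏ i ∈ Finset.range q, ((((YSplit_sig M hM hk g0) ^ i) l : YSplit_F M hk) : L) :=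
    map_prod (YSplit_F M hk).val _ _
  rw [h7]
  apply Finset.prod_congr rfl
  intro i _
  rw [YSplit_sig_pow]
  rfl

/-- main induction -/
theorem YSplit_main (hYNorm : YNorm) (hYH90 : YH90) (k : Type) [Field k] [IsAlgClosed k]
    (L : Type) [Field L] [Algebra (RatFunc k) L] [FiniteDimensional (RatFunc k) L] :
    ∀ (N : ℕ) (Q : Type) [Group Q] [Finite Q]
  [MulSemiringAction Q L], Nat.card Q = N → Group.IsSolvable Q →
  (∀ g : Q, g ≠ 1 → ∃ x : L, g • x ≠ x) →
  (∀ (g : Q) (a : RatFunc k), g • algebraMap (RatFunc k) L a = algebraMap (RatFunc k) L a) →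
  ∀ (E : Type) [Group E] (ι : Lˣ →* E) (π : E →* Q), Function.Injective ι →
  Function.Surjective π → (∀ e : E, π e = 1 ↔ e ∈ ι.range) →
  (∀ (e : E) (l : Lˣ), e * ι l * e⁻¹ = ι (YSplit_u (π e) l)) →
  ∃ s : Q →* E, ∀ g, π (s g) = g := by
  intro N
  induction N using Nat.strong_induction_on with
  | _ N IH =>
  intro Q _ _ _ hcard hsol hf hk E _ ι π hι hπ hker hconj
  classical
  by_cases hnt : Nontrivial Q
  swap
  · have : Subsingleton Q := not_nontrivial_iff_subsingleton.1 hnt
    exact ⟨1, fun g => Subsingleton.elim _ _⟩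
  obtain ⟨M, g0, q, hM, hq, hgn, hgen, hg0⟩ := YSplit_prime Q hsol
  -- induction hypothesis for `M`
  have hMcard : Nat.card M < N := by
    rw [← hcard]
    apply lt_of_le_of_ne (Nat.le_of_dvd Nat.card_pos (Subgroup.card_subgroup_dvd_card M))
    intro h1
    apply hg0
    rw [Subgroup.eq_top_of_card_eq M h1]
    exact Subgroup.mem_top g0
  have hιM : ∀ l : Lˣ, ι l ∈ M.comap π := by
    intro l
    rw [Subgroup.mem_comap, (hker (ι l)).2 ⟨l, rfl⟩]
    exact M.one_mem
  obtain ⟨s0, hs0⟩ := IH (Nat.card M) hMcard M rfl inferInstance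
    (by
      intro g hg
      obtain ⟨x, hx⟩ := hf (g : Q) (fun h => hg (Subtype.ext h))
      exact ⟨x, hx⟩)
    (fun g a => hk (g : Q) a)
    (M.comap π) (ι.codRestrict (M.comap π) hιM) (π.subgroupComap M)
    (by
      intro l l' hll
      exact hι (congrArg Subtype.val hll))
    (by
      intro g
      obtain ⟨e, he⟩ := hπ (g : Q)
      refine ⟨⟨e, ?_⟩, ?_⟩
      · rw [Subgroup.mem_comap, he]; exact g.2
      · exact Subtype.ext he)
    (by
      intro e
      constructor
      · intro h1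
        have h2 : π (e : E) = 1 := congrArg Subtype.val h1
        obtain ⟨l, hl⟩ := (hker _).1 h2
        exact ⟨l, Subtype.ext hl⟩
      · rintro ⟨l, hl⟩
        apply Subtype.ext
        have h2 : ι l = (e : E) := congrArg Subtype.val hl
        exact (hker _).2 ⟨l, h2⟩)
    (by
      intro e l
      apply Subtype.ext
      exact hconj (e : E) l)
  let s1 : M →* E := (M.comap π).subtype.comp s0
  have hs1 : ∀ g : M, π (s1 g) = (g : Q) := fun g => congrArg Subtype.val (hs0 g)
  -- the kernel meets the section trivially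
  have hιπ : ∀ l : Lˣ, π (ι l) = 1 := fun l => (hker _).2 ⟨l, rfl⟩
  -- choose `e` over `g0` normalising the section
  obtain ⟨e0, he0⟩ := hπ g0
  have hA : ∃ e : E, π e = g0 ∧ ∀ g : M, ∀ g' : M, (g' : Q) = g0 * g * g0⁻¹ →
      e * s1 g * e⁻¹ = s1 g' := by
    have hc : ∀ g : M, g0⁻¹ * (g : Q) * g0 ∈ M := by
      intro g
      have := hM.conj_mem (g : Q) g.2 g0⁻¹
      rwa [inv_inv] at this
    have h1 : ∀ g : M, ∃ l : Lˣ, ι l = e0 * s1 ⟨_, hc g⟩ * e0⁻¹ * (s1 g)⁻¹ := by
      intro g
      apply (hker _).1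
      rw [map_mul, map_mul, map_mul, map_inv, map_inv, hs1, hs1, he0]
      group
    choose ψ hψ using h1
    have h2 : ∀ g h : M, ((ψ (g * h) : Lˣ) : L) = ψ g * (g • ((ψ h : Lˣ) : L)) := by
      intro g h
      have h3 : ψ (g * h) = ψ g * YSplit_u (g : Q) (ψ h) := by
        apply hι
        rw [map_mul, hψ (g * h)]
        have h4 : (⟨_, hc (g * h)⟩ : M) = ⟨_, hc g⟩ * ⟨_, hc h⟩ := by
          apply Subtype.ext
          simp only [Subgroup.coe_mul]
          group
        have h5 := hconj (s1 g) (ψ h)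
        rw [hs1] at h5
        rw [h4, ← h5, hψ g, hψ h, map_mul, map_mul]
        group
      rw [h3, Units.val_mul]
      rfl
    obtain ⟨a, ha⟩ := hYH90 M L (by
      intro g hg
      obtain ⟨x, hx⟩ := hf (g : Q) (fun h => hg (Subtype.ext h))
      exact ⟨x, hx⟩) ψ h2
    refine ⟨ι a * e0, ?_, ?_⟩
    · rw [map_mul, hιπ, one_mul, he0]
    · intro g g' hg'
      have h6 : g = ⟨_, hc g'⟩ := by
        apply Subtype.ext
        simp only [hg']
        group
      have h7 : YSplit_u (g' : Q) a = ψ g' * a := by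
        apply Units.ext
        exact ha g'
      have h8 := hconj (s1 g') a
      rw [hs1, h7, map_mul, hψ g', ← h6] at h8
      -- h8 : s1 g' * ι a * (s1 g')⁻¹ = e0 * s1 g * e0⁻¹ * (s1 g')⁻¹ * ι a
      have h9 : ψ g' * a = a * ψ g' := mul_comm _ _
      have h10 := congrArg ι h9
      rw [map_mul, map_mul, hψ g', ← h6] at h10
      rw [h10] at h8
      have h11 : s1 g' * ι a = ι a * (e0 * s1 g * e0⁻¹) := by
        calc s1 g' * ι a = (s1 g' * ι a * (s1 g')⁻¹) * s1 g' := by group
          _ = (ι a * (e0 * s1 g * e0⁻¹ * (s1 g')⁻¹)) * s1 g' := by rw [h8]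
          _ = _ := by group
      calc ι a * e0 * s1 g * (ι a * e0)⁻¹ = (ι a * (e0 * s1 g * e0⁻¹)) * (ι a)⁻¹ := by group
        _ = (s1 g' * ι a) * (ι a)⁻¹ := by rw [h11]
        _ = s1 g' := by group
  obtain ⟨e, he, hes⟩ := hA
  -- the subgroup of elements normalising the section
  let T : Subgroup E :=
    { carrier := {x | ∀ g g' : M, (g' : Q) = π x * g * (π x)⁻¹ → x * s1 g * x⁻¹ = s1 g'}
      one_mem' := by
        intro g g' h
        have h1 : g' = g := by
          apply Subtype.ext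
          rw [h, map_one]; group
        rw [h1]; group
      mul_mem' := by
        intro x y hx hy g g' h
        have h1 := hy g ⟨_, hM.conj_mem (g : Q) g.2 (π y)⟩ rfl
        have h2 := hx ⟨_, hM.conj_mem (g : Q) g.2 (π y)⟩ g' (by
          rw [h, map_mul]; simp only; group)
        rw [← h2, ← h1]; group
      inv_mem' := by
        intro x hx g g' h
        have h1 := hx g' g (by rw [h, map_inv]; group)
        rw [← h1]; group }
  have hTmem : ∀ x : E, x ∈ T ↔ ∀ g g' : M, (g' : Q) = π x * g * (π x)⁻¹ →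
      x * s1 g * x⁻¹ = s1 g' := fun x => Iff.rfl
  have heT : e ∈ T := by
    rw [hTmem, he]
    exact hes
  have hsT : ∀ h : M, s1 h ∈ T := by
    intro h
    rw [hTmem]
    intro g g' hg'
    rw [hs1] at hg'
    have h1 : g' = h * g * h⁻¹ := Subtype.ext hg'
    rw [h1, map_mul, map_mul, map_inv]
  have hgq : g0 ^ q ∈ M := by
    have := (hgn (q : ℤ)).2 dvd_rfl
    rwa [zpow_natCast] at this
  -- the element `e ^ q`
  obtain ⟨a, ha⟩ := (hker (e ^ q * (s1 ⟨_, hgq⟩)⁻¹)).1 (by
    rw [map_mul, map_inv, map_pow, he, hs1]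
    exact mul_inv_cancel _)
  have haT : ι a ∈ T := by
    rw [ha]
    exact T.mul_mem (T.pow_mem heT q) (T.inv_mem (hsT _))
  have hfixM : ∀ l : Lˣ, ι l ∈ T ↔ ∀ m ∈ M, YSplit_u m l = l := by
    intro l
    constructor
    · intro h m hm
      apply hι
      have h1 := hconj (s1 ⟨m, hm⟩) l
      rw [hs1] at h1
      have h2 := (hTmem _).1 h ⟨m, hm⟩ ⟨m, hm⟩ (by rw [hιπ]; simp)
      have h3 : ι l * s1 ⟨m, hm⟩ = s1 ⟨m, hm⟩ * ι l := by
        calc ι l * s1 ⟨m, hm⟩ = (ι l * s1 ⟨m, hm⟩ * (ι l)⁻¹) * ι l := by group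
          _ = _ := by rw [h2]
      calc ι (YSplit_u m l) = s1 ⟨m, hm⟩ * ι l * (s1 ⟨m, hm⟩)⁻¹ := h1.symm
        _ = ι l * s1 ⟨m, hm⟩ * (s1 ⟨m, hm⟩)⁻¹ := by rw [h3]
        _ = ι l := by group
    · intro h
      rw [hTmem]
      intro g g' hg'
      have h0 : g' = g := by
        apply Subtype.ext
        rw [hg', hιπ]; group
      have h1 := hconj (s1 g) l
      rw [hs1, h (g : Q) g.2] at h1
      rw [h0]
      have h3 : s1 g * ι l = ι l * s1 g := by
        calc s1 g * ι l = (s1 g * ι l * (s1 g)⁻¹) * s1 g := by group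
          _ = _ := by rw [h1]
      rw [← h3]; group
  have haM := (hfixM a).1 haT
  have hag0 : YSplit_u g0 a = a := by
    apply hι
    have h1 := hconj e a
    rw [he] at h1
    rw [← h1, ha]
    have h2 := hes ⟨_, hgq⟩ ⟨_, hgq⟩ (by simp only; group)
    calc e * (e ^ q * (s1 ⟨g0 ^ q, hgq⟩)⁻¹) * e⁻¹
        = e ^ q * (e * s1 ⟨g0 ^ q, hgq⟩ * e⁻¹)⁻¹ := by
          have h3 : e * e ^ q = e ^ q * e := (Commute.refl e).pow_right q
          rw [← mul_assoc, h3]; group
      _ = _ := by rw [h2]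
  have hinv : ∀ (g : Q), YSplit_u g a = a → YSplit_u g a⁻¹ = a⁻¹ := by
    intro g hg
    rw [map_inv, hg]
  obtain ⟨l, hlM, hlN⟩ := YSplit_norm hYNorm k L Q hf hk M hM g0 q hq hg0 hgq a⁻¹
    (fun m hm => congrArg Units.val (hinv m (haM m hm))) (congrArg Units.val (hinv g0 hag0))
  have hlM' : ∀ m ∈ M, YSplit_u m l = l := fun m hm => Units.ext (hlM m hm)
  have hlT : ι l ∈ T := (hfixM l).2 hlM'
  have hpow : ∀ n : ℕ, (ι l * e) ^ n = ι (∏ i ∈ Finset.range n, YSplit_u (g0 ^ i) l) * e ^ n := by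
    intro n
    induction n with
    | zero => simp
    | succ n ih =>
      have h1 := hconj (e ^ n) l
      rw [map_pow, he] at h1
      rw [pow_succ, ih, Finset.prod_range_succ, map_mul, ← h1, pow_succ]
      group
  have heq : (ι l * e) ^ q = s1 ⟨_, hgq⟩ := by
    rw [hpow, hlN, map_inv, ha]; group
  have he'T : ι l * e ∈ T := T.mul_mem hlT heT
  have he'π : π (ι l * e) = g0 := by rw [map_mul, hιπ, one_mul, he]
  generalize ι l * e = e' at heq he'T he'π
  -- moving powers of `e'` across the section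
  have hmove : ∀ (n : ℤ) (g : M), ∃ g' : M, e' ^ n * s1 g = s1 g' * e' ^ n := by
    intro n g
    have h1 := (hTmem _).1 (T.zpow_mem he'T n) g ⟨_, hM.conj_mem (g : Q) g.2 (π (e' ^ n))⟩ rfl
    exact ⟨_, by rw [← h1]; group⟩
  let H : Subgroup E :=
    { carrier := {x | ∃ (g : M) (n : ℤ), x = s1 g * e' ^ n}
      one_mem' := ⟨1, 0, by simp⟩
      mul_mem' := by
        rintro x y ⟨g, n, rfl⟩ ⟨g', m, rfl⟩
        obtain ⟨g'', h⟩ := hmove n g'
        refine ⟨g * g'', n + m, ?_⟩
        rw [map_mul, zpow_add]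
        calc s1 g * e' ^ n * (s1 g' * e' ^ m) = s1 g * (e' ^ n * s1 g') * e' ^ m := by group
          _ = _ := by rw [h]; group
      inv_mem' := by
        rintro x ⟨g, n, rfl⟩
        obtain ⟨g'', h⟩ := hmove (-n) g⁻¹
        refine ⟨g'', -n, ?_⟩
        rw [← h, map_inv]; group }
  have hH : ∀ x : H, ∃ (g : M) (n : ℤ), (x : E) = s1 g * e' ^ n := fun x => x.2
  have hbij : Function.Bijective (π.comp H.subtype) := by
    constructor
    · rw [injective_iff_map_eq_one]
      intro x hx
      obtain ⟨g, n, hgn'⟩ := hH x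
      apply Subtype.ext
      have h1 : (g : Q) * g0 ^ n = 1 := by
        have h2 : π (x : E) = 1 := hx
        rw [hgn', map_mul, hs1, map_zpow, he'π] at h2
        exact h2
      have h3 : g0 ^ n ∈ M := by
        have h4 : g0 ^ n = ((g : Q))⁻¹ := (inv_eq_of_mul_eq_one_right h1).symm
        rw [h4]
        exact M.inv_mem g.2
      obtain ⟨m, hm⟩ := (hgn n).1 h3
      have h5 : e' ^ n = s1 (⟨_, hgq⟩ ^ m) := by
        rw [hm, zpow_mul, zpow_natCast, heq, map_zpow]
      have h6 : g * (⟨_, hgq⟩ : M) ^ m = 1 := by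
        apply Subtype.ext
        rw [Subgroup.coe_mul, Subgroup.coe_zpow, Subgroup.coe_one, ← h1, hm, zpow_mul,
          zpow_natCast]
      rw [hgn', h5, ← map_mul, h6, map_one]
      rfl
    · intro g
      obtain ⟨n, hn⟩ := hgen g
      refine ⟨⟨s1 ⟨_, hn⟩ * e' ^ n, ⟨⟨_, hn⟩, n, rfl⟩⟩, ?_⟩
      rw [MonoidHom.comp_apply, Subgroup.subtype_apply, map_mul, hs1, map_zpow, he'π]
      group
  let Φ := MulEquiv.ofBijective (π.comp H.subtype) hbij
  refine ⟨H.subtype.comp Φ.symm.toMonoidHom, ?_⟩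
  intro g
  exact Φ.apply_symm_apply g

theorem prf_YSplit (hYNorm : YNorm) (hYH90 : YH90) : YSplit := by
  intro k _ _ L _ _ _ Q _ _ _ hsol hf hk E _ ι π hι hπ hker hconj
  exact YSplit_main hYNorm hYH90 k L (Nat.card Q) Q rfl hsol hf hk E ι π hι hπ hker
    (fun e l => hconj e l _ (YSplit_u_coe (π e) l))

end MP7b0bad

end
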