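import Pool.Agent.Work.MP_7b0bad_ag.Bd.B12
import Pool.Agent.Work.MP_7b0bad_ag.Bd.B06
import Pool.Agent.Work.MP_7b0bad_ag.Bd.B02
import Pool.Agent.Work.MP_7b0bad_ag.Bd.B09
import Pool.Agent.Work.MP_7b0bad_ag.Bd.B13
import Pool.Agent.Work.MP_7b0bad_ag.Bd.B11
import Pool.Agent.Work.MP_7b0bad_ag.Bd.B14

/-! Bundle of small proof modules (one section per former module). -/

section

/-!
# MP_7b0bad_ag, item YStep: Frattini steps of the tower (helper61)
-/

set_option autoImplicit false

namespace MP7b0bad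

open Polynomial

/-- a nontrivial character -/
theorem YStep_char (k : Type) [Field k] [IsAlgClosed k] (r : ℕ) (hr : r.Prime) (hrk : (r : k) ≠ 0)
    (N : Type) [Group N] [Finite N] [Nontrivial N] (hcomm : ∀ a b : N, a * b = b * a)
    (hexp : ∀ n : N, n ^ r = 1) : ∃ χ : N →* kˣ, χ ≠ 1 := by
  let _ : CommGroup N := { ‹Group N› with mul_comm := hcomm }
  obtain ⟨a, ha⟩ := exists_ne (1 : N)
  have hexp' : Monoid.exponent N ∣ r := Monoid.exponent_dvd_of_forall_pow_eq_one hexp
  have hne : Monoid.exponent N = r := by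
    rcases (Nat.dvd_prime hr).1 hexp' with h | h
    · exfalso
      apply ha
      have := Monoid.pow_exponent_eq_one a
      rwa [h, pow_one] at this
    · exact h
  have : NeZero ((Monoid.exponent N : ℕ) : k) := ⟨by rw [hne]; exact hrk⟩
  obtain ⟨χ, hχ⟩ := CommGroup.exists_apply_ne_one_of_hasEnoughRootsOfUnity N k ha
  exact ⟨χ, fun h => hχ (by rw [h]; rfl)⟩

/-- an element `y` with `y^p - y` transcendental is transcendental -/
theorem YStep_tr (k : Type) [Field k] [IsAlgClosed k] (L : Type) [Field L]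
    [Algebra (RatFunc k) L] (y : L) (p : ℕ)
    (hy : y ^ p - y = algebraMap (RatFunc k) L RatFunc.X) :
    ∀ (d : ℕ) (h : k[X]), h.natDegree ≤ d → h ≠ 0 →
      h.eval₂ ((algebraMap (RatFunc k) L).comp RatFunc.C) y ≠ 0 := by
  intro d
  induction d with
  | zero =>
    intro h hd h0
    have h1 : h = C (h.coeff 0) := eq_C_of_natDegree_eq_zero (Nat.le_zero.1 hd)
    rw [h1, eval₂_C]
    intro h2
    apply h0
    rw [h1]
    have h3 : h.coeff 0 = 0 :=
      ((algebraMap (RatFunc k) L).comp RatFunc.C).injective (by rw [h2, map_zero])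
    rw [h3, C_0]
  | succ d ih =>
    intro h hd h0
    by_cases hdeg : h.natDegree = 0
    · exact ih h (by omega) h0
    · obtain ⟨c, hc⟩ := IsAlgClosed.exists_root h (by
        intro h1
        apply hdeg
        exact natDegree_eq_zero_iff_degree_le_zero.2 h1.le)
      obtain ⟨g, hg⟩ := dvd_iff_isRoot.2 hc
      have hg0 : g ≠ 0 := by
        rintro rfl
        exact h0 (by rw [hg, mul_zero])
      rw [hg, eval₂_mul]
      apply mul_ne_zero
      · rw [eval₂_sub, eval₂_X, eval₂_C]
        intro h1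
        have h2 : y = algebraMap (RatFunc k) L (RatFunc.C c) := sub_eq_zero.1 h1
        rw [h2, ← map_pow, ← map_sub] at hy
        have h3 := (algebraMap (RatFunc k) L).injective hy
        rw [← map_pow, ← map_sub] at h3
        have h4 : (algebraMap k[X] (RatFunc k)) (C (c ^ p - c)) =
            (algebraMap k[X] (RatFunc k)) X := by
          rw [RatFunc.algebraMap_C, RatFunc.algebraMap_X]
          exact h3
        have h5 : (C (c ^ p - c) : k[X]) = X := IsFractionRing.injective k[X] (RatFunc k) h4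
        have h6 := congrArg natDegree h5
        rw [natDegree_C, natDegree_X] at h6
        exact absurd h6 (by norm_num)
      · apply ih g _ hg0
        rw [hg, natDegree_mul (X_sub_C_ne_zero c) hg0, natDegree_X_sub_C] at hd
        omega

theorem prf_YStep (hYCross : YCross) (hYH90 : YH90) (hYAdj : YAdj) (hYKum : YKum)
    (hYComp : YComp) (hYStp : YStp) : YStep := by
  intro k _ _ p M r _ _ hr hrp hM G _ _ i t hit htp hPG N _ hN hNbot hNA hNr hNmin hFr
    L _ _ _ y hT
  classical
  have hrk : (r : k) ≠ 0 := by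
    intro h
    have h1 : p ∣ r := (CharP.cast_eq_zero_iff k p r).1 h
    rcases (Nat.dvd_prime hr).1 h1 with h2 | h2
    · exact (Fact.out : p.Prime).one_lt.ne' h2
    · exact hrp h2.symm
  have hr0 : 0 < r := hr.pos
  -- the action of `A = ker i` on `L`
  let actA : MulSemiringAction i.ker L :=
    MulSemiringAction.compHom L ((QuotientGroup.mk' N).comp i.ker.subtype)
  have hact : ∀ (a : i.ker) (x : L), a • x = (QuotientGroup.mk (a : G) : G ⧸ N) • x :=
    fun a x => rfl
  have hfin : Module.Finite (RatFunc k) L := gal_finite hT.gal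
  have : FiniteDimensional (RatFunc k) L := hfin
  have : Fact r.Prime := ⟨hr⟩
  have : Group.IsNilpotent i.ker := hPG.isNilpotent
  have hsol : Group.IsSolvable i.ker := inferInstance
  have hcommG : ∀ (g : G ⧸ N) (a : RatFunc k), g • algebraMap (RatFunc k) L a =
    algebraMap (RatFunc k) L a := hT.gal.comm
  have hfaith : ∀ g : G ⧸ N, g ≠ 1 → ∃ x : L, g • x ≠ x := by
    intro g hg
    by_contra hcon
    push Not at hcon
    have h1 := hT.gal.unr g hg
    have h2 : {x : L | ∃ b : L, x = b - g • b} ⊆ {0} := by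
      rintro x ⟨b, rfl⟩
      rw [hcon b, sub_self]
      rfl
    have h3 : Ideal.span {x : L | ∃ b : L, x = b - g • b} ≤ ⊥ := by
      rw [Ideal.span_le]
      intro x hx
      exact h2 hx
    rw [h1] at h3
    exact bot_ne_top (top_le_iff.1 (h3.trans le_rfl) : (⊥ : Ideal L) = ⊤)
  -- the character
  have : Nontrivial N := (Subgroup.nontrivial_iff_ne_bot N).2 hNbot
  obtain ⟨χ, hχ⟩ := YStep_char k r hr hrk N
    (fun a b => Subtype.ext (hNA a a.2 b (hN b.2)))
    (fun n => Subtype.ext (hNr n n.2))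
  set NA : Subgroup i.ker := N.subgroupOf i.ker with hNAdef
  have hmemNA : ∀ a : i.ker, a ∈ NA ↔ (a : G) ∈ N := fun a => Subgroup.mem_subgroupOf
  let toN : NA →* N :=
    { toFun := fun n => ⟨((n : i.ker) : G), (hmemNA _).1 n.2⟩
      map_one' := rfl
      map_mul' := fun _ _ => rfl }
  let cst : kˣ →* Lˣ := Units.map ((algebraMap (RatFunc k) L).comp RatFunc.C : k →+* L).toMonoidHom
  have hcst : ∀ c : kˣ, ((cst c : Lˣ) : L) = algebraMap (RatFunc k) L (RatFunc.C (c : k)) :=
    fun c => rfl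
  let χA : NA →* Lˣ := cst.comp (χ.comp toN)
  obtain ⟨φ, hφ1, hφ2⟩ := hYCross k L i.ker NA hsol
    (by
      intro n hn x
      rw [hact, (QuotientGroup.eq_one_iff _).2 ((hmemNA n).1 hn), one_smul])
    (by
      intro g hg
      obtain ⟨x, hx⟩ := hfaith (QuotientGroup.mk (g : G)) (by
        intro h
        exact hg ((hmemNA g).2 ((QuotientGroup.eq_one_iff _).1 h)))
      exact ⟨x, hx⟩)
    (fun g a => by rw [hact]; exact hcommG _ _)
    χA
    (fun g n => by
      change g • ((cst (χ (toN n)) : Lˣ) : L) = ((cst (χ (toN n)) : Lˣ) : L)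
      rw [hcst, hact, hcommG])
    (fun g n n' h => by
      change cst (χ (toN n')) = cst (χ (toN n))
      have h1 : toN n' = toN n := by
        apply Subtype.ext
        change (((n' : i.ker) : G)) = ((n : i.ker) : G)
        rw [h]
        change (g : G) * ((n : i.ker) : G) * (g : G)⁻¹ = ((n : i.ker) : G)
        rw [← hNA _ ((hmemNA _).1 n.2) g g.2, mul_inv_cancel_right]
      rw [h1])
  -- values of `φ` on `N`
  have hφN : ∀ (n : N) (n' : i.ker), (n : G) = n' → ((φ n' : Lˣ) : L) =
      algebraMap (RatFunc k) L (RatFunc.C ((χ n : kˣ) : k)) := by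
    intro n n' h
    have h1 : n' ∈ NA := (hmemNA n').2 (h ▸ n.2)
    have h2 := hφ2 ⟨n', h1⟩
    change φ n' = cst (χ (toN ⟨n', h1⟩)) at h2
    have h3 : toN ⟨n', h1⟩ = n := Subtype.ext h.symm
    rw [h2, h3, hcst]
  -- invariance of `φ^r`
  have hinv : ∀ a a' : i.ker, (QuotientGroup.mk (a : G) : G ⧸ N) = QuotientGroup.mk (a' : G) →
      ((φ a : Lˣ) : L) ^ r = ((φ a' : Lˣ) : L) ^ r := by
    intro a a' h
    have h1 : (a : G)⁻¹ * a' ∈ N := QuotientGroup.eq.1 h
    have h2 : a' = a * (a⁻¹ * a') := by group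
    have h3 := hφ1 a (a⁻¹ * a')
    rw [← h2, hφN ⟨(a : G)⁻¹ * a', h1⟩ (a⁻¹ * a') rfl, hact, hcommG] at h3
    rw [h3, mul_pow, ← map_pow, ← map_pow]
    have h4 : (((χ ⟨(a : G)⁻¹ * a', h1⟩ : kˣ) : k)) ^ r = 1 := by
      rw [← Units.val_pow_eq_pow_val, ← map_pow]
      have h5 : (⟨(a : G)⁻¹ * a', h1⟩ : N) ^ r = 1 := Subtype.ext (hNr _ h1)
      rw [h5, map_one, Units.val_one]
    rw [h4, map_one, map_one, mul_one]
  -- Hilbert 90 for the image of `A`
  set Q : Subgroup (G ⧸ N) := (QuotientGroup.lift N i hN).ker with hQdef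
  have hlift : ∀ q : Q, ∃ a : i.ker, (QuotientGroup.mk (a : G) : G ⧸ N) = q := by
    rintro ⟨q, hq⟩
    obtain ⟨g, rfl⟩ := QuotientGroup.mk_surjective q
    exact ⟨⟨g, hq⟩, rfl⟩
  choose s hs using hlift
  have hmemQ : ∀ a : i.ker, (QuotientGroup.mk (a : G) : G ⧸ N) ∈ Q := fun a => a.2
  obtain ⟨α0, hα0⟩ := hYH90 Q L
    (by
      intro g hg
      obtain ⟨x, hx⟩ := hfaith (g : G ⧸ N) (fun h => hg (Subtype.ext h))
      exact ⟨x, hx⟩)
    (fun q => φ (s q) ^ r)
    (by
      intro g h
      change ((φ (s (g * h)) ^ r : Lˣ) : L) = ((φ (s g) ^ r : Lˣ) : L) *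
        ((g : G ⧸ N) • (((φ (s h)) ^ r : Lˣ) : L))
      have h1 : (QuotientGroup.mk ((s (g * h) : i.ker) : G) : G ⧸ N) =
          QuotientGroup.mk ((s g * s h : i.ker) : G) := by
        rw [hs]
        have h2 : (QuotientGroup.mk ((s g * s h : i.ker) : G) : G ⧸ N) =
            QuotientGroup.mk ((s g : i.ker) : G) * QuotientGroup.mk ((s h : i.ker) : G) := rfl
        rw [h2, hs, hs]
        rfl
      rw [Units.val_pow_eq_pow_val, hinv _ _ h1, hφ1, mul_pow, Units.val_pow_eq_pow_val,
        Units.val_pow_eq_pow_val, smul_pow', hact, hs])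
  have hα0' : ∀ a : i.ker, (QuotientGroup.mk (a : G) : G ⧸ N) • (α0 : L) =
      ((φ a : Lˣ) : L) ^ r * α0 := by
    intro a
    have h1 := hα0 ⟨QuotientGroup.mk (a : G), hmemQ a⟩
    change (QuotientGroup.mk (a : G) : G ⧸ N) • (α0 : L) = ((φ (s _) ^ r : Lˣ) : L) * α0 at h1
    rw [h1, Units.val_pow_eq_pow_val]
    congr 1
    exact hinv _ _ (hs _)
  -- adjusting
  obtain ⟨h, hh0, hh⟩ := hYAdj k p M r (G ⧸ N) (QuotientGroup.lift N i hN) L y hT hr0 α0
    α0.ne_zero (by
      intro a ha
      obtain ⟨g, rfl⟩ := QuotientGroup.mk_surjective a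
      exact ⟨(φ ⟨g, ha⟩ : Lˣ), hα0' ⟨g, ha⟩⟩)
  have hhy : h.eval₂ ((algebraMap (RatFunc k) L).comp RatFunc.C) y ≠ 0 :=
    YStep_tr k L y p hT.as h.natDegree h le_rfl hh0
  set α : Lˣ := α0 * Units.mk0 _ hhy with hαdef
  have hαval : (α : L) = α0 * h.eval₂ ((algebraMap (RatFunc k) L).comp RatFunc.C) y := by
    rw [hαdef, Units.val_mul, Units.val_mk0]
  have hyA : ∀ a : i.ker, (QuotientGroup.mk (a : G) : G ⧸ N) • y = y := by
    intro a
    rw [hT.tr]
    have h1 : QuotientGroup.lift N i hN (QuotientGroup.mk (a : G)) = 1 := a.2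
    rw [h1]
    simp
  have hhA : ∀ a : i.ker, (QuotientGroup.mk (a : G) : G ⧸ N) •
      h.eval₂ ((algebraMap (RatFunc k) L).comp RatFunc.C) y =
      h.eval₂ ((algebraMap (RatFunc k) L).comp RatFunc.C) y := by
    intro a
    have h1 := Polynomial.hom_eval₂ h ((algebraMap (RatFunc k) L).comp RatFunc.C)
      (MulSemiringAction.toRingHom (G ⧸ N) L (QuotientGroup.mk (a : G))) y
    change (QuotientGroup.mk (a : G) : G ⧸ N) •
      h.eval₂ ((algebraMap (RatFunc k) L).comp RatFunc.C) y = _ at h1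
    rw [h1]
    congr 1
    · ext c
      exact hcommG _ _
    · exact hyA a
  have hαA : ∀ a : i.ker, (QuotientGroup.mk (a : G) : G ⧸ N) • (α : L) =
      ((φ a : Lˣ) : L) ^ r * α := by
    intro a
    rw [hαval, smul_mul', hα0', hhA, mul_assoc]
  -- the Kummer algebra
  obtain ⟨L', iR, iA, iG, ι, hgal, hinj, halg, hequ, hNinv, hlift', -⟩ :=
    hYKum k p r hr hrp G i t hit htp N hN hNbot hNA hNr hNmin L hT.gal χ hχ φ
      (fun g h => hφ1 g h) hφN α hαA
  have : Nontrivial L' := ⟨⟨0, 1, fun h01 => by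
    have h1 : ι 0 = ι 1 := by rw [map_zero, map_one, h01]
    exact zero_ne_one (hinj h1)⟩⟩
  obtain ⟨𝔪, h𝔪⟩ := Ideal.exists_maximal L'
  obtain ⟨G₀, E, jF, jA, jG, π, hG₀, hgalE, hπs, hπ0, hπa, hπg, -, -, hfield, -, hNsup⟩ :=
    hYComp (RatFunc k) G L' hgal 𝔪 h𝔪.isPrime
  have htop : N ⊔ G₀ = ⊤ := by
    apply hNsup N inferInstance
    intro x x' hx hx' hxx
    obtain ⟨x1, rfl⟩ := hNinv x hx
    obtain ⟨x2, rfl⟩ := hNinv x' hx'
    rw [← map_mul] at hxx
    have h1 : x1 * x2 = 0 := hinj (by rw [hxx, map_zero])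
    rcases mul_eq_zero.1 h1 with h2 | h2
    · left; rw [h2, map_zero]
    · right; rw [h2, map_zero]
  have hG₀top : G₀ = ⊤ := hFr G₀ htop
  subst hG₀top
  obtain ⟨hIsF, -⟩ := hfield rfl
  have hπinj : Function.Injective π := by
    rw [injective_iff_map_eq_zero]
    intro x hx
    by_contra hne
    obtain ⟨z, hz⟩ := hIsF.mul_inv_cancel hne
    have h1 : x ∈ 𝔪 := (hπ0 x).1 hx
    exact h𝔪.ne_top ((Ideal.eq_top_iff_one _).2 (hz ▸ Ideal.mul_mem_right z 𝔪 h1))
  let actE : MulSemiringAction G E :=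
    MulSemiringAction.compHom E (Subgroup.topEquiv (G := G)).symm.toMonoidHom
  have hactE : ∀ (g : G) (x : E), g • x = (⟨g, Subgroup.mem_top g⟩ : (⊤ : Subgroup G)) • x :=
    fun g x => rfl
  have hπg' : ∀ (g : G) (x : L'), π (g • x) = g • π x := by
    intro g x
    rw [hactE]
    exact hπg ⟨g, Subgroup.mem_top g⟩ x
  have hgalE' : GalAlg (RatFunc k) G E :=
    { comm := fun g a => by rw [hactE]; exact hgalE.comm _ _
      inj := hgalE.inj
      inv := fun b hb => hgalE.inv b (fun g => hb g)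
      unr := fun σ hσ => by
        have h1 := hgalE.unr ⟨σ, Subgroup.mem_top σ⟩ (fun h2 => hσ (congrArg Subtype.val h2))
        exact h1 }
  -- the inverse of `π`
  let e : L' ≃+* E := RingEquiv.ofBijective π ⟨hπinj, hπs⟩
  have he : ∀ x, e.symm (π x) = x := fun x => e.symm_apply_apply x
  refine ⟨E, jF, jA, actE, π (ι y), ?_⟩
  have key := hYStp k p M r hr hrp hM G i t hit htp N hN hNA hNr hNmin L y hT E (π.comp ι) hgalE'
    (fun a => by rw [RingHom.comp_apply, halg, hπa])
    (fun g x => by rw [RingHom.comp_apply, RingHom.comp_apply, ← hπg', hequ])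
    α α.ne_zero
    (by
      intro T _ f b hb
      obtain ⟨F, hF⟩ := hlift' T f b hb
      refine ⟨F.comp e.symm.toRingHom, fun x => ?_⟩
      change F (e.symm (π (ι x))) = f x
      rw [he, hF])
    (by
      intro y0 hy0 j hj
      rw [hαval]
      exact hh y0 hy0 j hj)
  exact key

end MP7b0bad

end

section

set_option autoImplicit false

namespace MP7b0bad

open Polynomial

theorem YStp_natpow (p : ℕ) [Fact p.Prime] (R : Type) [CommRing R] [CharP R p] (n : ℕ) :
    ((n : ℕ) : R) ^ p = n := by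
  have h := ZMod.pow_card (n : ZMod p)
  have h2 := congrArg (ZMod.castHom (dvd_refl p) R) h
  rw [map_pow, map_natCast] at h2
  exact h2

theorem YStp_val (p : ℕ) [Fact p.Prime] (R : Type) [CommRing R] [CharP R p] (n : ℕ) :
    (((n : ZMod p).val : ℕ) : R) = n := by
  have h : (((n : ZMod p).val : ℕ) : R) = ZMod.castHom (dvd_refl p) R (n : ZMod p) := by
    rw [ZMod.castHom_apply, ZMod.natCast_val]
  rw [h, map_natCast]

theorem YStp_single_pow {k : Type} [Field k] (m n : ℕ) :
    (HahnSeries.single (m : ℤ) (1 : k) : LaurentSeries k) ^ n =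
      HahnSeries.single ((m * n : ℕ) : ℤ) (1 : k) := by
  rw [HahnSeries.single_pow, one_pow]
  congr 1
  rw [nsmul_eq_mul]
  push_cast
  ring

theorem prf_YStp (hYRoot : YRoot) (hYTrans : YTrans) : YStp := by
  intro k _ _ p M r _ _ hr hrp hM G _ _ i t hit htp N _ hN _ _ _ L _ _ _ y hT L' _ _ _ ι hgal
    hιa hιg α hα hUP hdiv
  have hpp := (Fact.out : p.Prime)
  have hrk : (r : k) ≠ 0 := by
    intro h0
    have h1 := (CharP.cast_eq_zero_iff k p r).1 h0
    exact hrp ((Nat.prime_dvd_prime_iff_eq hpp hr).1 h1).symm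
  -- general extension of homomorphisms
  have hext : ∀ (j : L →+* LaurentSeries k) (u : LaurentSeries k), YEmb y u j →
      (∀ c : ℕ, (r : ℤ) ∣ (j ((QuotientGroup.mk (t ^ c) : G ⧸ N) • α)).order) →
      ∃ F : L' →+* LaurentSeries k, YEmb (ι y) u F := by
    intro j u hj hd
    have hb : ∀ c : ℕ, ∃ b : LaurentSeries k,
        b ^ r = j ((QuotientGroup.mk (t ^ c) : G ⧸ N) • α) := by
      intro c
      refine hYRoot k r hrk _ ?_ (hd c)
      rw [Ne, map_eq_zero]
      intro h0
      apply hα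
      have h1 := congrArg (fun x => (QuotientGroup.mk (t ^ c) : G ⧸ N)⁻¹ • x) h0
      simpa using h1
    choose b hb using hb
    obtain ⟨F, hF⟩ := hUP (LaurentSeries k) j b hb
    refine ⟨F, fun c => ?_, ?_⟩
    · rw [← hιa, hF, hj.1]
    · rw [hF, hj.2]
  have hC2s : ∃ σ : LaurentSeries k →+* LaurentSeries k,
      (∀ c, σ (HahnSeries.C c) = HahnSeries.C c) ∧
      σ (HahnSeries.single (1 : ℤ) (1 : k)) = HahnSeries.single (r : ℤ) (1 : k) ∧
      ∀ a, a ≠ 0 → σ a ≠ 0 ∧ (σ a).order = r * a.order := by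
    refine prf_C2s k (HahnSeries.single (r : ℤ) (1 : k)) r hr.pos ?_ ?_
    · simp
    · intro m hm
      rw [HahnSeries.coeff_single_of_ne]
      omega
  obtain ⟨σ, hσC, hσ1, hσo⟩ := hC2s
  have hσM : σ (HahnSeries.single (M : ℤ) (1 : k)) = HahnSeries.single ((r * M : ℕ) : ℤ) (1 : k) := by
    have h1 : (HahnSeries.single (M : ℤ) (1 : k) : LaurentSeries k) =
        (HahnSeries.single (1 : ℤ) (1 : k)) ^ M := by
      have h := YStp_single_pow (k := k) 1 M
      rw [one_mul, Nat.cast_one] at h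
      exact h.symm
    rw [h1, map_pow, hσ1, YStp_single_pow]
  have hσj : ∀ (j : L →+* LaurentSeries k) (c : ℕ),
      (r : ℤ) ∣ ((σ.comp j) ((QuotientGroup.mk (t ^ c) : G ⧸ N) • α)).order := by
    intro j c
    rw [RingHom.comp_apply]
    by_cases h0 : j ((QuotientGroup.mk (t ^ c) : G ⧸ N) • α) = 0
    · rw [h0, map_zero, HahnSeries.order_zero]
      exact dvd_zero _
    · rw [(hσo _ h0).2]
      exact dvd_mul_right _ _
  refine ⟨hgal, ?_, ?_, ?_, ?_, ?_⟩
  · rw [← map_pow, ← map_sub, hT.as, hιa]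
  · intro g
    rw [hιg, hT.tr, map_add, map_natCast]
    rfl
  · intro y0 hy0
    obtain ⟨j, hj⟩ := hT.loc y0 hy0
    refine hext j _ hj fun c => ?_
    have h1 := hYTrans k p M (G ⧸ N) (QuotientGroup.lift N i hN) L y hT _ j
      (QuotientGroup.mk (t ^ c)) hj
    have h2 : (QuotientGroup.lift N i hN) (QuotientGroup.mk (t ^ c)) =
        Multiplicative.ofAdd (c : ZMod p) := by
      rw [QuotientGroup.lift_mk, map_pow, hit, ← ofAdd_nsmul, nsmul_one]
    rw [h2, toAdd_ofAdd, YStp_val, add_right_comm, ← map_add] at h1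
    refine hdiv (y0 + c) ?_ _ h1
    rw [add_pow_char, YStp_natpow]
    intro h3
    apply hy0
    linear_combination h3
  · obtain ⟨j, hj⟩ := hT.loc0
    refine hext (σ.comp j) _ ⟨fun c => ?_, ?_⟩ (hσj j)
    · rw [RingHom.comp_apply, hj.1, hσC]
    · rw [RingHom.comp_apply, hj.2, hσM]
  · obtain ⟨j, hj⟩ := hT.locI
    refine hext (σ.comp j) _ ⟨fun c => ?_, ?_⟩ (hσj j)
    · rw [RingHom.comp_apply, hj.1, hσC]
    · rw [RingHom.comp_apply, hj.2]
      have h1 : (HahnSeries.single (-(M : ℤ)) (1 : k) : LaurentSeries k) *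
          HahnSeries.single (M : ℤ) (1 : k) = 1 := by
        rw [HahnSeries.single_mul_single]
        simp
      have h2 := congrArg σ h1
      rw [map_mul, hσM] at h2
      have h3 : (HahnSeries.single (-((r * M : ℕ) : ℤ)) (1 : k) : LaurentSeries k) *
          HahnSeries.single ((r * M : ℕ) : ℤ) (1 : k) = 1 := by
        rw [HahnSeries.single_mul_single]
        simp
      have h4 : (HahnSeries.single ((r * M : ℕ) : ℤ) (1 : k) : LaurentSeries k) ≠ 0 := by
        intro h5
        rw [h5, mul_zero] at h3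
        exact zero_ne_one h3
      exact mul_right_cancel₀ h4 (h2.trans (σ.map_one.trans h3.symm))

end MP7b0bad

end

section

set_option autoImplicit false

namespace MP7b0bad

theorem prf_YTrans : YTrans := by
  intro k _ p M _ _ G _ i L _ _ _ y hT u j g hj
  refine ⟨?_, ?_⟩
  · intro c
    rw [RingHom.comp_apply, MulSemiringAction.toRingHom_apply, hT.gal.comm]
    exact hj.1 c
  · rw [RingHom.comp_apply, MulSemiringAction.toRingHom_apply, hT.tr, map_add, hj.2, map_natCast,
      map_natCast]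

end MP7b0bad

end

section

/-!
# Tsen's theorem for systems over `k(z)` (item YTsen)
-/

set_option autoImplicit false

namespace MP7b0bad

open Polynomial

section

variable {k : Type} [Field k] {σ : Type}

theorem YTsen_mul {F F' : Polynomial (MvPolynomial σ k)} {d d' : ℕ}
    (h : ∀ e, (F.coeff e).IsHomogeneous d) (h' : ∀ e, (F'.coeff e).IsHomogeneous d') :
    ∀ e, ((F * F').coeff e).IsHomogeneous (d + d') := by
  intro e
  rw [Polynomial.coeff_mul]
  exact MvPolynomial.IsHomogeneous.sum _ _ _ fun x _ => (h _).mul (h' _)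

theorem YTsen_one : ∀ e, ((1 : Polynomial (MvPolynomial σ k)).coeff e).IsHomogeneous 0 := by
  intro e
  rw [Polynomial.coeff_one]
  split_ifs
  · exact MvPolynomial.isHomogeneous_one _ _
  · exact MvPolynomial.isHomogeneous_zero _ _ _

theorem YTsen_pow {F : Polynomial (MvPolynomial σ k)} {d : ℕ}
    (h : ∀ e, (F.coeff e).IsHomogeneous d) (n : ℕ) :
    ∀ e, ((F ^ n).coeff e).IsHomogeneous (d * n) := by
  induction n with
  | zero =>
    rw [pow_zero, Nat.mul_zero]
    exact YTsen_one
  | succ n ih =>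
    rw [pow_succ, Nat.mul_succ]
    exact YTsen_mul ih h

theorem YTsen_prod {ι : Type} (s : Finset ι) (F : ι → Polynomial (MvPolynomial σ k)) (d : ι → ℕ)
    (h : ∀ i, ∀ e, ((F i).coeff e).IsHomogeneous (d i)) :
    ∀ e, ((∏ i ∈ s, F i).coeff e).IsHomogeneous (∑ i ∈ s, d i) := by
  classical
  induction s using Finset.induction_on with
  | empty =>
    rw [Finset.prod_empty, Finset.sum_empty]
    exact YTsen_one
  | insert a s ha ih =>
    rw [Finset.prod_insert ha, Finset.sum_insert ha]
    exact YTsen_mul (h a) ih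

/-- the generic polynomial of degree at most `s` -/
noncomputable def YTsen_xi (k : Type) [Field k] (N s : ℕ) (j : Fin N) :
    Polynomial (MvPolynomial (Fin N × Fin (s + 1)) k) :=
  ∑ l : Fin (s + 1), Polynomial.C (MvPolynomial.X (j, l)) * Polynomial.X ^ (l : ℕ)

theorem YTsen_xi_hom (N s : ℕ) (j : Fin N) :
    ∀ e, ((YTsen_xi k N s j).coeff e).IsHomogeneous 1 := by
  intro e
  unfold YTsen_xi
  rw [Polynomial.finsetSum_coeff]
  refine MvPolynomial.IsHomogeneous.sum _ _ _ fun l _ => ?_
  rw [Polynomial.coeff_C_mul_X_pow]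
  split_ifs
  · exact MvPolynomial.isHomogeneous_X _ _
  · exact MvPolynomial.isHomogeneous_zero _ _ _

theorem YTsen_xi_deg (N s : ℕ) (j : Fin N) : (YTsen_xi k N s j).natDegree ≤ s := by
  unfold YTsen_xi
  refine Polynomial.natDegree_sum_le_of_forall_le _ _ fun l _ => ?_
  exact (Polynomial.natDegree_C_mul_X_pow_le _ _).trans (Nat.lt_succ_iff.mp l.2)

/-- the substitution -/
noncomputable def YTsen_phi (k : Type) [Field k] (N s : ℕ) (g : MvPolynomial (Fin N) k[X]) :
    Polynomial (MvPolynomial (Fin N × Fin (s + 1)) k) :=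
  MvPolynomial.eval₂ (Polynomial.mapRingHom MvPolynomial.C) (YTsen_xi k N s) g

theorem YTsen_deg_eq {N q : ℕ} {g : MvPolynomial (Fin N) k[X]} (hg : g.IsHomogeneous q)
    {d : Fin N →₀ ℕ} (hd : d ∈ g.support) : ∑ i, d i = q := by
  have h := hg (MvPolynomial.mem_support_iff.mp hd)
  rw [Finsupp.weight_apply, Finsupp.sum_fintype _ _ (fun i => by simp)] at h
  simpa using h

theorem YTsen_phi_hom {N s q : ℕ} {g : MvPolynomial (Fin N) k[X]} (hg : g.IsHomogeneous q) :
    ∀ e, ((YTsen_phi k N s g).coeff e).IsHomogeneous q := by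
  intro e
  unfold YTsen_phi
  rw [MvPolynomial.eval₂_eq', Polynomial.finsetSum_coeff]
  refine MvPolynomial.IsHomogeneous.sum _ _ _ fun d hd => ?_
  have h1 : ∀ e, ((Polynomial.mapRingHom (MvPolynomial.C : k →+* MvPolynomial
      (Fin N × Fin (s + 1)) k) (g.coeff d)).coeff e).IsHomogeneous 0 := by
    intro e
    rw [Polynomial.coe_mapRingHom, Polynomial.coeff_map]
    exact MvPolynomial.isHomogeneous_C _ _
  have h2 := YTsen_prod Finset.univ (fun i => YTsen_xi k N s i ^ d i) (fun i => 1 * d i)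
    (fun i => YTsen_pow (YTsen_xi_hom N s i) (d i))
  have h3 := YTsen_mul h1 h2 e
  simp only [one_mul, YTsen_deg_eq hg hd, zero_add] at h3
  exact h3

theorem YTsen_phi_deg {N s q δ : ℕ} {g : MvPolynomial (Fin N) k[X]} (hg : g.IsHomogeneous q)
    (hδ : ∀ d, (g.coeff d).natDegree ≤ δ) : (YTsen_phi k N s g).natDegree ≤ q * s + δ := by
  unfold YTsen_phi
  rw [MvPolynomial.eval₂_eq']
  refine Polynomial.natDegree_sum_le_of_forall_le _ _ fun d hd => ?_
  refine Polynomial.natDegree_mul_le.trans ?_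
  have h1 : (Polynomial.mapRingHom (MvPolynomial.C : k →+* MvPolynomial
      (Fin N × Fin (s + 1)) k) (g.coeff d)).natDegree ≤ δ := by
    rw [Polynomial.coe_mapRingHom]
    exact Polynomial.natDegree_map_le.trans (hδ d)
  have h2 : (∏ i, YTsen_xi k N s i ^ d i).natDegree ≤ q * s := by
    refine (Polynomial.natDegree_prod_le _ _).trans ?_
    calc ∑ i, (YTsen_xi k N s i ^ d i).natDegree ≤ ∑ i, d i * s := by
          refine Finset.sum_le_sum fun i _ => ?_
          exact Polynomial.natDegree_pow_le.trans (Nat.mul_le_mul_left _ (YTsen_xi_deg N s i))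
      _ = q * s := by rw [← Finset.sum_mul, YTsen_deg_eq hg hd]
  omega

theorem YTsen_phi_eval {N s : ℕ} (g : MvPolynomial (Fin N) k[X])
    (x : Fin N × Fin (s + 1) → k) :
    (YTsen_phi k N s g).map (MvPolynomial.eval x) =
      MvPolynomial.eval (fun j => (YTsen_xi k N s j).map (MvPolynomial.eval x)) g := by
  unfold YTsen_phi
  have h := MvPolynomial.eval₂_comp_left (Polynomial.mapRingHom (MvPolynomial.eval x))
    (Polynomial.mapRingHom (MvPolynomial.C : k →+* MvPolynomial (Fin N × Fin (s + 1)) k))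
    (YTsen_xi k N s) g
  rw [Polynomial.coe_mapRingHom] at h
  rw [h]
  have h2 : (Polynomial.mapRingHom (MvPolynomial.eval x)).comp
      (Polynomial.mapRingHom (MvPolynomial.C : k →+* MvPolynomial (Fin N × Fin (s + 1)) k)) =
      RingHom.id _ := by
    rw [Polynomial.mapRingHom_comp]
    have h3 : (MvPolynomial.eval x).comp
        (MvPolynomial.C : k →+* MvPolynomial (Fin N × Fin (s + 1)) k) = RingHom.id k := by
      ext c
      simp
    rw [h3, Polynomial.mapRingHom_id]
  rw [h2]
  rfl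

theorem YTsen_xi_map {N s : ℕ} (x : Fin N × Fin (s + 1) → k) (j : Fin N) (l : Fin (s + 1)) :
    ((YTsen_xi k N s j).map (MvPolynomial.eval x)).coeff l = x (j, l) := by
  unfold YTsen_xi
  rw [Polynomial.coeff_map, Polynomial.finsetSum_coeff, Finset.sum_eq_single l]
  · rw [Polynomial.coeff_C_mul_X_pow, if_pos rfl, MvPolynomial.eval_X]
  · intro b _ hb
    rw [Polynomial.coeff_C_mul_X_pow, if_neg]
    intro h
    exact hb (Fin.ext h.symm)
  · intro h
    exact absurd (Finset.mem_univ _) h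

/-- clearing denominators -/
theorem YTsen_clear {N q : ℕ} (f : MvPolynomial (Fin N) (RatFunc k)) (hf : f.IsHomogeneous q) :
    ∃ (g : MvPolynomial (Fin N) k[X]) (b : RatFunc k), b ≠ 0 ∧ g.IsHomogeneous q ∧
      MvPolynomial.map (algebraMap k[X] (RatFunc k)) g = MvPolynomial.C b * f := by
  classical
  obtain ⟨b, hb⟩ := IsLocalization.exist_integer_multiples_of_finset (nonZeroDivisors k[X])
    (f.support.image fun d => f.coeff d)
  have hb0 : algebraMap k[X] (RatFunc k) b ≠ 0 := by
    intro h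
    exact nonZeroDivisors.ne_zero b.2 (RatFunc.algebraMap_injective k (by rw [h, map_zero]))
  have h1 : ∀ d ∈ f.support, ∃ c : k[X], algebraMap k[X] (RatFunc k) c =
      algebraMap k[X] (RatFunc k) b * f.coeff d := by
    intro d hd
    obtain ⟨c, hc⟩ := hb (f.coeff d) (Finset.mem_image_of_mem _ hd)
    exact ⟨c, by rw [hc, Algebra.smul_def]⟩
  choose! c hc using h1
  refine ⟨∑ d ∈ f.support, MvPolynomial.monomial d (c d), algebraMap k[X] (RatFunc k) b, hb0,
    ?_, ?_⟩
  · refine MvPolynomial.IsHomogeneous.sum _ _ _ fun d hd => ?_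
    exact MvPolynomial.isHomogeneous_monomial _ (by
      have h := hf (MvPolynomial.mem_support_iff.mp hd)
      rw [Finsupp.degree_eq_weight_one]
      exact h)
  · rw [map_sum]
    simp only [MvPolynomial.map_monomial]
    conv_rhs => rw [MvPolynomial.as_sum f, Finset.mul_sum]
    refine Finset.sum_congr rfl fun d hd => ?_
    rw [hc d hd, MvPolynomial.C_mul_monomial]

end

theorem prf_YTsen (hYProj : YProj) : YTsen := by
  classical
  intro k _ _ n N q hq hnN f hf
  choose g b hb hg hgf using fun i => YTsen_clear (f i) (hf i)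
  -- a bound for the degrees of the coefficients
  obtain ⟨δ, hδ⟩ : ∃ δ : ℕ, ∀ i d, ((g i).coeff d).natDegree ≤ δ := by
    refine ⟨∑ i, ∑ d ∈ (g i).support, ((g i).coeff d).natDegree, fun i d => ?_⟩
    by_cases hd : d ∈ (g i).support
    · calc ((g i).coeff d).natDegree ≤ ∑ d ∈ (g i).support, ((g i).coeff d).natDegree :=
            Finset.single_le_sum (f := fun d => ((g i).coeff d).natDegree)
              (fun _ _ => Nat.zero_le _) hd
        _ ≤ _ := Finset.single_le_sum
              (f := fun i => ∑ d ∈ (g i).support, ((g i).coeff d).natDegree)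
              (fun _ _ => Nat.zero_le _) (Finset.mem_univ i)
    · rw [MvPolynomial.notMem_support_iff.mp hd]
      simp
  set s : ℕ := n * δ + n with hs
  set E : ℕ := q * s + δ + 1 with hE
  have hlt : n * E < N * (s + 1) := by
    have h1 : (n * q + 1) * (s + 1) ≤ N * (s + 1) := Nat.mul_le_mul_right _ hnN
    have h2 : n * E = n * q * s + (n * δ + n) := by rw [hE]; ring
    have h3 : (n * q + 1) * (s + 1) = n * q * s + n * q + s + 1 := by ring
    omega
  let e1 : Fin n × Fin E ≃ Fin (n * E) := finProdFinEquiv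
  let e2 : Fin N × Fin (s + 1) ≃ Fin (N * (s + 1)) := finProdFinEquiv
  obtain ⟨x, hx0, hx⟩ := hYProj k (n * E) (N * (s + 1)) hlt
    (fun a => MvPolynomial.rename e2
      ((YTsen_phi k N s (g (e1.symm a).1)).coeff ((e1.symm a).2 : ℕ))) (fun _ => q)
    (fun _ => hq) (fun a => (YTsen_phi_hom (hg _) _).rename_isHomogeneous)
  set y : Fin N × Fin (s + 1) → k := x ∘ e2 with hy
  have hy1 : ∀ i, (YTsen_phi k N s (g i)).map (MvPolynomial.eval y) = 0 := by
    intro i
    ext e
    rw [Polynomial.coeff_map, Polynomial.coeff_zero]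
    by_cases he : e < E
    · have h := hx (e1 (i, ⟨e, he⟩))
      simp only [Equiv.symm_apply_apply] at h
      rw [MvPolynomial.eval_rename] at h
      exact h
    · rw [Polynomial.coeff_eq_zero_of_natDegree_lt, map_zero]
      have := YTsen_phi_deg (s := s) (hg i) (hδ i)
      omega
  refine ⟨fun j => algebraMap k[X] (RatFunc k)
    ((YTsen_xi k N s j).map (MvPolynomial.eval y)), ?_, fun i => ?_⟩
  · intro h0
    apply hx0
    funext a
    have h1 := congrFun h0 (e2.symm a).1
    rw [Pi.zero_apply] at h1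
    have h2 := RatFunc.algebraMap_injective k (h1.trans (map_zero _).symm)
    have h3 := YTsen_xi_map y (e2.symm a).1 (e2.symm a).2
    rw [h2, Polynomial.coeff_zero] at h3
    have h4 : y ((e2.symm a).1, (e2.symm a).2) = x a := by
      rw [hy]
      simp
    rw [h4] at h3
    rw [← h3]
    rfl
  · have h1 := hy1 i
    rw [YTsen_phi_eval] at h1
    have h2 : MvPolynomial.eval (fun j => algebraMap k[X] (RatFunc k)
        ((YTsen_xi k N s j).map (MvPolynomial.eval y)))
        (MvPolynomial.map (algebraMap k[X] (RatFunc k)) (g i)) = 0 := by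
      rw [MvPolynomial.eval_map]
      have h3 := MvPolynomial.eval₂_comp_left (algebraMap k[X] (RatFunc k)) (RingHom.id k[X])
        (fun j => (YTsen_xi k N s j).map (MvPolynomial.eval y)) (g i)
      rw [RingHom.comp_id] at h3
      have h4 : MvPolynomial.eval₂ (RingHom.id k[X])
          (fun j => (YTsen_xi k N s j).map (MvPolynomial.eval y)) (g i) = 0 := h1
      rw [h4, map_zero] at h3
      exact h3.symm
    rw [hgf i, map_mul, MvPolynomial.eval_C] at h2
    exact (mul_eq_zero.mp h2).resolve_left (hb i)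

end MP7b0bad

end

section

/-! # MP_7b0bad_ag, item GMain2 (helper71): `2`-solvable groups in characteristic `2` -/

set_option autoImplicit false

namespace MP7b0bad

/-- `Rel` has the properties of the reduction theorem, given the blocks -/
theorem GMain2_relAx (k : Type) [Field k] [IsAlgClosed k] (p : ℕ) [Fact p.Prime] [CharP k p]
    (hblk : ∀ (G : Type) [Group G] [Finite G] (r : ℕ) (A Φ : Subgroup G) (t : G),
      Blk p r G A Φ t → Rel k G (Subgroup.zpowers t)) :
    RelAx p (fun (G : Type) [Group G] (P : Subgroup G) => Rel k G P) where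
  iso := fun G G' _ _ φ P h => all_QIso k G G' φ P h
  pgr := fun P _ _ hP => all_QRP k p P hP
  join := fun G _ _ P N H P' hP hN h1 h2 h3 h4 => all_QR1 k p G P N H P' hP hN h1 h2 h3 h4
  emb := fun G _ _ N P _ hP h1 h2 h3 => all_QR2 k p G N P hP h1 h2 h3
  blk := hblk

theorem prf_GMain2 (hGB : GB) (hGBlk2 : GBlk2) : GMain2 := by
  intro k _ _ _ G _ _ P hS hP hcl
  have hp : Fact (Nat.Prime 2) := ⟨Nat.prime_two⟩
  have hax := GMain2_relAx k 2 (fun G _ _ r A Φ t h => hGBlk2 k G r A Φ t h)
  have h1 : Rel k G P := hGB 2 (fun (G : Type) [Group G] (P : Subgroup G) => Rel k G P) hax G P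
    hS hP hcl
  exact all_QOcc k 2 G P hP h1

end MP7b0bad

end

section

set_option autoImplicit false

/-!
# MP_7b0bad_ag: the general criterion for simple groups
-/

namespace MP7b0bad

/-- coprime action: the normal closure of `Q` in `A ⊔ Q` is a block -/
theorem HGenM_le (hGCop : GCop) (p : ℕ) [Fact p.Prime] {G : Type} [Group G] [Finite G]
    (A Q : Subgroup G) (hA : ¬ p ∣ Nat.card A) (hQ : IsPGroup p Q)
    (hQA : ∀ q ∈ Q, ∀ a ∈ A, q * a * q⁻¹ ∈ A) : nclIn (A ⊔ Q) Q ≤ Gam p Q := by
  obtain ⟨-, hcl, -⟩ := hGCop p G A Q hA hQ hQA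
  have hQH : Q ≤ A ⊔ Q := le_sup_right
  obtain ⟨Y, hY⟩ : ∃ Y : Subgroup G, Y = nclIn (A ⊔ Q) Q := ⟨_, rfl⟩
  have hYH : Y ≤ A ⊔ Q := by rw [hY]; exact GSC_le _ _ hQH
  have hYp : PSol p Y := by
    have h1 := (prf_GPS p (A ⊔ Q : Subgroup G) (HNor_sup A Q hA hQ hQA)).1
      (Y.subgroupOf (A ⊔ Q))
    exact HNor_surj h1 (Subgroup.subgroupOfEquivOfLe hYH).toMonoidHom
      (Subgroup.subgroupOfEquivOfLe hYH).surjective
  rw [← hY]
  rw [← hY] at hcl
  exact le_sSup ⟨Q, le_rfl, by rw [hY]; exact GSC_ge _ _, hcl, hYp⟩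

/-- elements commuting with `P` normalise `Gam` -/
theorem HGenM_cent (hHNor : HNor) (p : ℕ) [Fact p.Prime] {G : Type} [Group G] [Finite G]
    (P : Subgroup G) (hP : IsPGroup p P) (b : G) (hb : ∀ q ∈ P, b * q = q * b) :
    b ∈ Subgroup.normalizer ((Gam p P : Subgroup G) : Set G) := by
  have hb' : ∀ q ∈ P, b⁻¹ * q = q * b⁻¹ := by
    intro q hq
    rw [inv_mul_eq_iff_eq_mul, ← mul_assoc, hb q hq, mul_assoc, mul_inv_cancel, mul_one]
  rw [Subgroup.mem_normalizer_iff]
  intro h
  constructor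
  · intro hh
    exact (hHNor p G P hP).2.1 b hb h hh
  · intro hh
    have h2 := (hHNor p G P hP).2.1 b⁻¹ hb' _ hh
    have e : b⁻¹ * (b * h * b⁻¹) * b⁻¹⁻¹ = h := by group
    rwa [e] at h2

theorem prf_HGenM (hHNor : HNor) (hGCop : GCop) : HGenM := by
  intro p _ L _ _ hs hI X _ _ N u hN hiso hf ho hgen
  obtain ⟨e⟩ := hiso
  have hp : p.Prime := Fact.out
  have hup : u ^ p = 1 := by rw [← ho, pow_orderOf_eq_one]
  have hu1 : u ≠ 1 := by
    intro h
    rw [h, orderOf_one] at ho
    exact hp.one_lt.ne ho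
  have hP : IsPGroup p (Subgroup.zpowers u) := by
    rintro ⟨g, hg⟩
    obtain ⟨k, hk⟩ := Subgroup.mem_zpowers_iff.mp hg
    refine ⟨1, ?_⟩
    apply Subtype.ext
    simp only [pow_one, SubmonoidClass.mk_pow, OneMemClass.coe_one]
    rw [← hk, ← zpow_natCast, ← zpow_mul, mul_comm, zpow_mul, zpow_natCast, hup, one_zpow]
  obtain ⟨M, hM⟩ : ∃ M : Subgroup X, M = Gam p (Subgroup.zpowers u) := ⟨_, rfl⟩
  have huM : u ∈ M := by
    rw [hM]
    exact (hHNor p X (Subgroup.zpowers u) hP).1 (Subgroup.mem_zpowers u)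
  have hsimp : ∀ K : Subgroup X, (∀ n ∈ N, ∀ k ∈ K, n * k * n⁻¹ ∈ K) → N ⊓ K = ⊥ ∨ N ≤ K := by
    intro K hK
    have hn : (K.subgroupOf N).Normal := by
      constructor
      intro k hk n
      rw [Subgroup.mem_subgroupOf] at hk ⊢
      exact hK n n.2 k hk
    have := hs
    have : Nontrivial N := e.toEquiv.nontrivial
    have hs' : IsSimpleGroup N :=
      IsSimpleGroup.isSimpleGroup_of_surjective e.symm.toMonoidHom e.symm.surjective
    rcases hs'.eq_bot_or_eq_top_of_normal _ hn with h | h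
    · left
      rw [Subgroup.subgroupOf_eq_bot] at h
      exact (disjoint_iff.1 h.symm)
    · right
      exact Subgroup.subgroupOf_eq_top.1 h
  have hbad : (∀ n ∈ N, n * u * n⁻¹ * u⁻¹ = 1) → False := by
    intro h
    apply hu1
    apply hf
    intro l hl
    have := h l hl
    rw [mul_inv_eq_one, mul_inv_eq_iff_eq_mul] at this
    exact this.symm
  -- the automorphism of `L`
  let c : N ≃* N := MulAut.conjNormal u
  have hc : ∀ y : N, ((c y : N) : X) = u * y * u⁻¹ := fun y => MulAut.conjNormal_apply u y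
  let φ : L ≃* L := (e.symm.trans c).trans e
  have hφ : ∀ x : L, e.symm (φ x) = c (e.symm x) := by
    intro x
    simp only [φ, MulEquiv.trans_apply, MulEquiv.symm_apply_apply]
  have hφX : ∀ x : L, ((e.symm (φ x) : N) : X) = u * (e.symm x : X) * u⁻¹ := by
    intro x
    rw [hφ, hc]
  have hφk : ∀ (k : ℕ) (x : L), ((e.symm (φ^[k] x) : N) : X) =
      u ^ k * (e.symm x : X) * (u ^ k)⁻¹ := by
    intro k
    induction k with
    | zero => intro x; simp
    | succ k ih =>
      intro x
      rw [Function.iterate_succ_apply', hφX, ih, pow_succ']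
      group
  have hφp : ∀ x, φ^[p] x = x := by
    intro x
    apply e.symm.injective
    apply Subtype.ext
    rw [hφk, hup]
    group
  have hφ1 : ∃ x, φ x ≠ x := by
    by_contra hcon
    push Not at hcon
    apply hbad
    intro n hn
    have h1 := hφX (e ⟨n, hn⟩)
    rw [hcon, MulEquiv.symm_apply_apply] at h1
    have h2 : n = u * n * u⁻¹ := h1
    rw [eq_mul_inv_iff_mul_eq] at h2
    rw [mul_inv_eq_one, mul_inv_eq_iff_eq_mul]
    exact h2
  have hcl := hI φ hφp hφ1
  -- `N` normalises `M`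
  have hNK : N ≤ Subgroup.normalizer (M : Set X) := by
    have hmap : ∀ x ∈ Subgroup.closure {x : L | φ x = x ∨ ∃ A : Subgroup L, ¬ p ∣ Nat.card A ∧
        (∀ a ∈ A, φ a ∈ A) ∧ x ∈ A}, ((e.symm x : N) : X) ∈ Subgroup.normalizer (M : Set X) := by
      intro x hx
      induction hx using Subgroup.closure_induction with
      | mem x hx =>
        rcases hx with hx | ⟨A, hA, hAi, hxA⟩
        · rw [hM]
          refine HGenM_cent hHNor p _ hP _ ?_
          intro q hq
          obtain ⟨k, rfl⟩ := Subgroup.mem_zpowers_iff.1 hq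
          have h1 := hφX x
          rw [hx, eq_mul_inv_iff_mul_eq] at h1
          exact (Commute.zpow_right (show Commute (e.symm x : X) u from h1) k).eq
        · let ι : L →* X := N.subtype.comp e.symm.toMonoidHom
          have hι : Function.Injective ι := by
            intro a b hab
            exact e.symm.injective (Subtype.ext hab)
          have hιa : ∀ a : L, ι a = ((e.symm a : N) : X) := fun a => rfl
          have hcard : ¬ p ∣ Nat.card (A.map ι) := by
            rwa [Subgroup.card_map_of_injective hι]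
          have hu : ∀ a ∈ A.map ι, u * a * u⁻¹ ∈ A.map ι := by
            rintro _ ⟨a, ha, rfl⟩
            refine ⟨φ a, hAi a ha, ?_⟩
            rw [hιa, hιa, hφX]
          have hun : ∀ (k : ℕ), ∀ a ∈ A.map ι, u ^ k * a * (u ^ k)⁻¹ ∈ A.map ι := by
            intro k
            induction k with
            | zero => intro a ha; simpa using ha
            | succ k ih =>
              intro a ha
              have h := hu _ (ih a ha)
              have e1 : u * (u ^ k * a * (u ^ k)⁻¹) * u⁻¹ = u ^ (k + 1) * a * (u ^ (k + 1))⁻¹ := by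
                rw [pow_succ']
                group
              rwa [e1] at h
          have hinv : ∀ q ∈ Subgroup.zpowers u, ∀ a ∈ A.map ι, q * a * q⁻¹ ∈ A.map ι := by
            intro q hq a ha
            obtain ⟨k, rfl⟩ := mem_powers_iff_mem_zpowers.2 hq
            exact hun k a ha
          obtain ⟨h1, -, -⟩ := hGCop p X (A.map ι) (Subgroup.zpowers u) hcard hP hinv
          obtain ⟨d, hd, c', -, hc', hdc⟩ := h1 (ι x) ⟨x, hxA, rfl⟩
          have h2 : ι x ∈ Subgroup.normalizer (M : Set X) := by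
            rw [hdc]
            refine Subgroup.mul_mem _ ?_ ?_
            · apply Subgroup.le_normalizer
              rw [hM]
              exact HGenM_le hGCop p _ _ hcard hP hinv hd
            · rw [hM]
              exact HGenM_cent hHNor p _ hP _ hc'
          exact h2
      | one => rw [map_one]; exact Subgroup.one_mem _
      | mul x y _ _ hx hy => rw [map_mul]; exact Subgroup.mul_mem _ hx hy
      | inv x _ hx => rw [map_inv]; exact Subgroup.inv_mem _ hx
    intro n hn
    have h1 := hmap (e ⟨n, hn⟩) (by rw [hcl]; trivial)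
    rwa [MulEquiv.symm_apply_apply] at h1
  rw [← hM]
  rcases hsimp M (fun n hn k hk => (Subgroup.mem_normalizer_iff.1 (hNK hn) k).1 hk) with h | h
  · exfalso
    apply hbad
    intro n hn
    rw [← Subgroup.mem_bot, ← h, Subgroup.mem_inf]
    constructor
    · have : n * u * n⁻¹ * u⁻¹ = n * (u * n⁻¹ * u⁻¹) := by group
      rw [this]
      exact N.mul_mem hn (hN.conj_mem _ (N.inv_mem hn) u)
    · exact Subgroup.mul_mem _ ((Subgroup.mem_normalizer_iff.1 (hNK hn) u).1 huM)
        (Subgroup.inv_mem _ huM)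
  · exact h

end MP7b0bad

end

section

/-!
# MP_7b0bad_ag, item HMain2 (helper70): the purely wild inertia conjecture, `p = 2`,
composition factors cyclic, odd or alternating of degree different from 6
-/

set_option autoImplicit false

namespace MP7b0bad

/-- `StarL` is invariant under isomorphism. -/
theorem HMain2_star {p : ℕ} {L A : Type} [Group L] [Group A] (e : L ≃* A) (h : StarL p A) :
    StarL p L := by
  obtain ⟨⟨c, hc, hc2⟩, h2⟩ := h
  refine ⟨⟨e.symm c, ?_, ?_⟩, ?_⟩
  · rwa [e.symm.orderOf_eq]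
  · intro h3
    apply hc2
    have h4 : e.symm (c ^ 2) = e.symm 1 := by rw [map_pow, h3, map_one]
    exact e.symm.injective h4
  · intro X _ _ L' u hn he
    obtain ⟨e'⟩ := he
    exact h2 X L' u hn ⟨e'.trans e⟩

/-- `Rel k` satisfies the axioms used in the reduction, in characteristic `2`. -/
theorem HMain2_relAx (k : Type) [Field k] [IsAlgClosed k] [Fact (Nat.Prime 2)] [CharP k 2] :
    RelAx 2 (fun (G : Type) [Group G] (P : Subgroup G) => Rel k G P) where
  iso := fun G G' _ _ φ P h => all_QIso k G G' φ P h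
  pgr := fun P _ _ h => all_QRP k 2 P h
  join := fun G _ _ P N H P' h1 h2 h3 h4 h5 h6 => all_QR1 k 2 G P N H P' h1 h2 h3 h4 h5 h6
  emb := fun G _ _ N P _ h1 h2 h3 h4 => all_QR2 k 2 G N P h1 h2 h3 h4
  blk := fun G _ _ r A Φ t h => prf_GBlk2 all_QHP8L all_QIso k G r A Φ t h

theorem prf_HMain2 (hHRed : HRed) (hHCrit : HCrit) (hHAlt2 : HAlt2) : HMain2 := by
  intro k _ _ _ G _ _ P hP hn hC
  have : Fact (Nat.Prime 2) := ⟨Nat.prime_two⟩
  refine all_QOcc k 2 G P hP ?_
  refine hHCrit 2 (fun (G : Type) [Group G] (P : Subgroup G) => Rel k G P) (HMain2_relAx k) G P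
    hP ?_
  refine hHRed 2 G P hP hn ?_
  intro K _ N L hN hLN hLNn hs hp hab
  obtain ⟨n, hn5, hn6, ⟨e⟩⟩ := hC K N L hN hLN hLNn hs hp hab
  exact HMain2_star e (hHAlt2 n hn5 hn6)

end MP7b0bad

end

section

/-!
# MP_7b0bad_ag, item YMain (helper19): the purely wild inertia conjecture for `p`-solvable groups
-/

set_option autoImplicit false

namespace MP7b0bad

/-- `Rel k` satisfies the axioms used in the reduction. -/
theorem YMain_relAx (hQIso : QIso) (hQRP : QRP) (hQR1 : QR1) (hQR2 : QR2) (hYBlk : YBlk)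
    (k : Type) [Field k] [IsAlgClosed k] (p : ℕ) [Fact p.Prime] [CharP k p] :
    RelAx p (fun (G : Type) [Group G] (P : Subgroup G) => Rel k G P) where
  iso := fun G G' _ _ φ P h => hQIso k G G' φ P h
  pgr := fun P _ _ h => hQRP k p P h
  join := fun G _ _ P N H P' h1 h2 h3 h4 h5 h6 => hQR1 k p G P N H P' h1 h2 h3 h4 h5 h6
  emb := fun G _ _ N P _ h1 h2 h3 h4 => hQR2 k p G N P h1 h2 h3 h4
  blk := fun G _ _ r A Φ t h => hYBlk k p G r A Φ t h

theorem YMain_of (hQIso : QIso) (hQRP : QRP) (hQR1 : QR1) (hQR2 : QR2) (hQOcc : QOcc)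
    (hGB : GB) (hYBlk : YBlk) : YMain := by
  intro k _ _ p _ _ G _ _ P hPS hP hncl
  exact hQOcc k p G P hP (hGB p (fun (G : Type) [Group G] (P : Subgroup G) => Rel k G P)
    (YMain_relAx hQIso hQRP hQR1 hQR2 hYBlk k p) G P hPS hP hncl)

theorem prf_YMain (hGB : GB) (hYBlk : YBlk) : YMain :=
  YMain_of all_QIso all_QRP all_QR1 all_QR2 all_QOcc hGB hYBlk

end MP7b0bad

end

section

set_option autoImplicit false

namespace MP7b0bad

theorem all_GBlk2 : GBlk2 := prf_GBlk2 all_QHP8L all_QIso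
theorem all_GConj : GConj := prf_GConj
theorem all_GCop : GCop := prf_GCop
theorem all_GJoin : GJoin := prf_GJoin
theorem all_GPS : GPS := prf_GPS
theorem all_GPSE : GPSE := prf_GPSE
theorem all_GR3 : GR3 := prf_GR3 all_GJoin all_GConj all_GCop prf_GSC
theorem all_GSC : GSC := prf_GSC
theorem all_YAdj : YAdj := prf_YAdj prf_YConj
theorem all_YComp : YComp := prf_YComp
theorem all_YConj : YConj := prf_YConj
theorem all_YDim : YDim := prf_YDim
theorem all_YEt : YEt := prf_YEt
theorem all_YEv : YEv := prf_YEv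
theorem all_YGrp : YGrp := prf_YGrp
theorem all_YH90 : YH90 := prf_YH90
theorem all_YInf : YInf := prf_YInf all_YComp all_YDim
theorem all_YIso : YIso := prf_YIso
theorem all_YKum : YKum := prf_YKum
theorem all_YL0 : YL0 := prf_YL0 all_YEv
theorem all_YLocX : YLocX := prf_YLocX all_YEv prf_YPar
theorem all_YPar : YPar := prf_YPar
theorem all_YProj : YProj := prf_YProj
theorem all_YPull : YPull := prf_YPull all_YComp
theorem all_YRoot : YRoot := prf_YRoot
theorem all_YStp : YStp := prf_YStp all_YRoot prf_YTrans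
theorem all_YTrans : YTrans := prf_YTrans
theorem all_YTsen : YTsen := prf_YTsen all_YProj
theorem all_GB : GB := prf_GB all_GJoin all_GConj all_GCop all_GSC all_GR3 all_GPS
theorem all_GMain2 : GMain2 := prf_GMain2 all_GB all_GBlk2
theorem all_YBase : YBase :=
  prf_YBase all_YL0 all_YIso all_YGrp all_YKum all_YComp all_YStp all_YTrans
theorem all_YNorm : YNorm := prf_YNorm all_YTsen
theorem all_YSplit : YSplit := prf_YSplit all_YNorm all_YH90
theorem all_YCross : YCross := prf_YCross all_YSplit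
theorem all_YStep : YStep := prf_YStep all_YCross all_YH90 all_YAdj all_YKum all_YComp all_YStp
theorem all_YInd : YInd := prf_YInd all_YBase all_YStep all_YGrp
theorem all_YBlk : YBlk := prf_YBlk all_YInd all_YGrp all_YPull all_YEv all_YLocX all_YEt all_YInf
theorem all_YMain : YMain := prf_YMain all_GB all_YBlk

end MP7b0bad

end

section

/-!
# MP_7b0bad_ag, item HMain3: `p = 3`, composition factors cyclic, of order prime to 3 or alternating
-/

set_option autoImplicit false

namespace MP7b0bad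

/-- `StarL` is invariant under isomorphisms -/
theorem HMain3_starL {p : ℕ} {L M : Type} [Group L] [Group M] (e : L ≃* M) (h : StarL p M) :
    StarL p L := by
  obtain ⟨⟨c, hc1, hc2⟩, h2⟩ := h
  refine ⟨⟨e.symm c, ?_, ?_⟩, ?_⟩
  · rwa [MulEquiv.orderOf_eq]
  · rw [← map_pow]
    intro h0
    exact hc2 ((MulEquiv.map_eq_one_iff e.symm).1 h0)
  · intro X _ _ L' u hn hL' hc hu ht
    obtain ⟨f⟩ := hL'
    exact h2 X L' u hn ⟨f.trans e⟩ hc hu ht

theorem HMain3_cfac {p : ℕ} (hHAlt : ∀ n : ℕ, 5 ≤ n → StarL p (alternatingGroup (Fin n)))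
    {G : Type} [Group G]
    (h : CFac p (fun L _ => ∃ n : ℕ, 5 ≤ n ∧ Nonempty (L ≃* alternatingGroup (Fin n))) G) :
    CFac p (StarL p) G := by
  intro K _ N L h1 h2 h3 h4 h5 h6
  obtain ⟨n, hn, ⟨e⟩⟩ := h K N L h1 h2 h3 h4 h5 h6
  exact HMain3_starL e (hHAlt n hn)

theorem prf_HMain3 (hHRed : HRed) (hHCrit : HCrit) (hHAlt3 : HAlt3) (hYBlk : YBlk) : HMain3 := by
  intro k _ _ _ G _ _ P hP hncl hcf
  have : Fact (Nat.Prime 3) := ⟨Nat.prime_three⟩
  have hG : Gam 3 P = ⊤ := hHRed 3 G P hP hncl (HMain3_cfac hHAlt3 hcf)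
  exact all_QOcc k 3 G P hP (hHCrit 3 (fun (G : Type) [Group G] (P : Subgroup G) => Rel k G P)
    (YMain_relAx all_QIso all_QRP all_QR1 all_QR2 hYBlk k 3) G P hP hG)

end MP7b0bad

end
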