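import Mathlib.GroupTheory.SpecificGroups.Alternating.Centralizer
import Pool.Agent.Work.MP_7b0bad_ag.Bd.B09
import Pool.Agent.Work.MP_7b0bad_ag.Bd.B11
import Pool.Agent.Work.MP_7b0bad_ag.Bd.B06
import Pool.Agent.Work.MP_7b0bad_ag.Bd.B03
import Pool.Agent.Work.MP_7b0bad_ag.Bd.B07
import Pool.Agent.Work.MP_7b0bad_ag.Bd.B10
import Pool.Agent.Work.MP_7b0bad_ag.Bd.B08
import Pool.Agent.Work.MP_7b0bad_ag.Bd.B04

/-! Bundle of small proof modules (one section per former module). -/

section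

set_option autoImplicit false

namespace MP7b0bad

/-! # Group H: reduction to composition factors; alternating groups -/

/-- the subgroup generated by the `p`-solvable subgroups `Y` that are generated by the
`Y`-conjugates of a subgroup of `P` -/
def Gam (p : ℕ) {G : Type} [Group G] (P : Subgroup G) : Subgroup G :=
  sSup {Y : Subgroup G | ∃ P' : Subgroup G, P' ≤ P ∧ P' ≤ Y ∧ nclIn Y P' = Y ∧ PSol p Y}

/-- the property of a simple group used in the reduction -/
def StarL (p : ℕ) (L : Type) [Group L] : Prop :=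
  (∃ c : L, ¬ p ∣ orderOf c ∧ c ^ 2 ≠ 1) ∧
  ∀ (X : Type) [Group X] [Finite X] (L' : Subgroup X) (u : X), L'.Normal → Nonempty (L' ≃* L) →
    (∀ x : X, (∀ l ∈ L', x * l = l * x) → x = 1) → orderOf u = p →
    L' ⊔ Subgroup.zpowers u = ⊤ → L' ≤ Gam p (Subgroup.zpowers u)

/-- the nonabelian simple groups `L` of order divisible by `p` that are normal subgroups of normal
subgroups of quotients of `G` (these are composition factors of `G`) satisfy `Q` -/
def CFac (p : ℕ) (Q : ∀ (L : Type) [Group L], Prop) (G : Type) [Group G] : Prop :=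
  ∀ (K : Subgroup G) [K.Normal] (N L : Subgroup (G ⧸ K)), N.Normal → L ≤ N →
    (L.subgroupOf N).Normal → IsSimpleGroup L → p ∣ Nat.card L →
    (∃ a b : L, a * b ≠ b * a) → Q L

/-- criterion: joins of `p`-solvable blocks -/
def HCrit : Prop := ∀ (p : ℕ) [Fact p.Prime] (R : ∀ (G : Type) [Group G], Subgroup G → Prop),
  RelAx p R → ∀ (G : Type) [Group G] [Finite G] (P : Subgroup G), IsPGroup p P →
  Gam p P = ⊤ → R G P

/-- lifting of blocks -/
def HLift : Prop := ∀ (p : ℕ) [Fact p.Prime] (G : Type) [Group G] [Finite G] (P N : Subgroup G)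
  [N.Normal], IsPGroup p P → Gam p (P.map (QuotientGroup.mk' N)) = ⊤ → N ⊔ Gam p P = ⊤

/-- the normaliser of `Gam`; functoriality for subgroups -/
def HNor : Prop := ∀ (p : ℕ) [Fact p.Prime] (G : Type) [Group G] [Finite G] (P : Subgroup G),
  IsPGroup p P → P ≤ Gam p P ∧
  (∀ c : G, (∀ q ∈ P, c * q = q * c) → ∀ x ∈ Gam p P, c * x * c⁻¹ ∈ Gam p P) ∧
  (∀ (X P' : Subgroup G), P' ≤ P → P' ≤ X → (Gam p (P'.subgroupOf X)).map X.subtype ≤ Gam p P) ∧
  ∀ A Q : Subgroup G, Q ≤ P → ¬ p ∣ Nat.card A → (∀ q ∈ Q, ∀ a ∈ A, q * a * q⁻¹ ∈ A) →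
    ∀ a ∈ A, ∀ q ∈ Q, a⁻¹ * q * a * q⁻¹ ∈ Gam p P

/-- minimal normal subgroups that are `p`-groups or of order prime to `p` -/
def HAb : Prop := ∀ (p : ℕ) [Fact p.Prime] (G : Type) [Group G] [Finite G] (P N : Subgroup G),
  N.Normal → N ≠ ⊥ → (∀ K : Subgroup G, K.Normal → K ≤ N → K = ⊥ ∨ K = N) → IsPGroup p P →
  Subgroup.normalClosure (P : Set G) = ⊤ → (IsPGroup p N ∨ ¬ p ∣ Nat.card N) →
  N ⊔ Gam p P = ⊤ → Gam p P = ⊤

/-- structure of minimal normal subgroups -/
def HMin : Prop := ∀ (G : Type) [Group G] [Finite G] (N : Subgroup G), N.Normal → N ≠ ⊥ →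
  (∀ K : Subgroup G, K.Normal → K ≤ N → K = ⊥ ∨ K = N) → (∃ a ∈ N, ∃ b ∈ N, a * b ≠ b * a) →
  ∃ L : Subgroup G, L ≤ N ∧ (L.subgroupOf N).Normal ∧ IsSimpleGroup L ∧
    (∃ a b : L, a * b ≠ b * a) ∧ Nat.card N ∣ Nat.card L ^ Nat.card G ∧
    (∀ g : G, L.map (MulAut.conj g).toMonoidHom = L ∨
      ∀ x ∈ L, ∀ y ∈ L, x * (g * y * g⁻¹) = (g * y * g⁻¹) * x) ∧
    (∀ g : G, L.map (MulAut.conj g).toMonoidHom ≠ L → L ⊓ L.map (MulAut.conj g).toMonoidHom = ⊥) ∧
    (⨆ g : G, L.map (MulAut.conj g).toMonoidHom) = N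

/-- elements of `P` normalising `L` and acting nontrivially -/
def HB1 : Prop := ∀ (p : ℕ) [Fact p.Prime] (G : Type) [Group G] [Finite G] (P L : Subgroup G)
  (u : G), IsPGroup p P → u ∈ P → (∀ x ∈ L, u * x * u⁻¹ ∈ L) → (∃ x ∈ L, u * x ≠ x * u) →
  IsSimpleGroup L → (∃ a b : L, a * b ≠ b * a) → StarL p L → L ≤ Gam p P

/-- elements of `P` moving `L` when the stabiliser acts trivially -/
def HA1 : Prop := ∀ (p : ℕ) [Fact p.Prime] (G : Type) [Group G] [Finite G] (P L : Subgroup G)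
  (u : G), IsPGroup p P → u ∈ P →
  (∀ v ∈ P, (∀ x ∈ L, v * x * v⁻¹ ∈ L) → ∀ x ∈ L, v * x = x * v) →
  (∀ v ∈ P, (∀ x ∈ L, v * x * v⁻¹ ∈ L) ∨ ∀ x ∈ L, ∀ y ∈ L, x * (v * y * v⁻¹) = (v * y * v⁻¹) * x) →
  (∀ v ∈ P, (∃ x ∈ L, v * x * v⁻¹ ∉ L) → ∀ x ∈ L, v * x * v⁻¹ ∈ L → x = 1) →
  (∃ x ∈ L, u * x * u⁻¹ ∉ L) → IsSimpleGroup L → (∃ a b : L, a * b ≠ b * a) →
  (∃ c : L, ¬ p ∣ orderOf c ∧ c ^ 2 ≠ 1) → L ≤ Gam p P

/-- the reduction theorem -/
def HRed : Prop := ∀ (p : ℕ) [Fact p.Prime] (G : Type) [Group G] [Finite G] (P : Subgroup G),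
  IsPGroup p P → Subgroup.normalClosure (P : Set G) = ⊤ → CFac p (StarL p) G → Gam p P = ⊤

/-! ## Alternating groups -/

/-- automorphisms of alternating groups preserving the 3-cycles -/
def HAut3 : Prop := ∀ (n : ℕ), 5 ≤ n → ∀ φ : alternatingGroup (Fin n) ≃* alternatingGroup (Fin n),
  (∀ x : alternatingGroup (Fin n), (x : Equiv.Perm (Fin n)).IsThreeCycle →
    (φ x : Equiv.Perm (Fin n)).IsThreeCycle) →
  ∃ σ : Equiv.Perm (Fin n), ∀ x : alternatingGroup (Fin n),
    (φ x : Equiv.Perm (Fin n)) = σ * (x : Equiv.Perm (Fin n)) * σ⁻¹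

/-- 3-cycles are preserved by automorphisms, `n ≠ 6` -/
def HCyc : Prop := ∀ (n : ℕ), 5 ≤ n → n ≠ 6 →
  ∀ φ : alternatingGroup (Fin n) ≃* alternatingGroup (Fin n),
  ∀ x : alternatingGroup (Fin n), (x : Equiv.Perm (Fin n)).IsThreeCycle →
    (φ x : Equiv.Perm (Fin n)).IsThreeCycle

/-- `n = 6`: automorphisms of odd order preserve the 3-cycles -/
def HCyc6 : Prop := ∀ φ : alternatingGroup (Fin 6) ≃* alternatingGroup (Fin 6),
  (∀ x, φ (φ (φ x)) = x) →
  ∀ x : alternatingGroup (Fin 6), (x : Equiv.Perm (Fin 6)).IsThreeCycle →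
    (φ x : Equiv.Perm (Fin 6)).IsThreeCycle

/-- embedding of `L⟨u⟩` into the symmetric group -/
def HEmb : Prop := ∀ (n p : ℕ), 5 ≤ n → p.Prime → (n ≠ 6 ∨ p = 3) → ∀ (X : Type) [Group X]
  [Finite X] (L : Subgroup X) (u : X), L.Normal → Nonempty (L ≃* alternatingGroup (Fin n)) →
  (∀ x : X, (∀ l ∈ L, x * l = l * x) → x = 1) → orderOf u = p → L ⊔ Subgroup.zpowers u = ⊤ →
  ∃ f : X →* Equiv.Perm (Fin n), Function.Injective f ∧ L.map f = alternatingGroup (Fin n)

/-- `p = 2` -/
def HAlt2 : Prop := ∀ (n : ℕ), 5 ≤ n → n ≠ 6 → StarL 2 (alternatingGroup (Fin n))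

/-- elements of order three in alternating groups -/
def HThree : Prop := ∀ (n : ℕ), 5 ≤ n → ∀ u : alternatingGroup (Fin n), orderOf u = 3 →
  Gam 3 (Subgroup.zpowers u) = ⊤

/-- `p = 3` -/
def HAlt3 : Prop := ∀ (n : ℕ), 5 ≤ n → StarL 3 (alternatingGroup (Fin n))

/-- The purely wild inertia conjecture, `p = 2`, composition factors cyclic, of odd order or
alternating of degree different from 6 -/
def HMain2 : Prop := ∀ (k : Type) [Field k] [IsAlgClosed k] [CharP k 2] (G : Type) [Group G]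
  [Finite G] (P : Subgroup G), IsPGroup 2 P → Subgroup.normalClosure (P : Set G) = ⊤ →
  CFac 2 (fun L _ => ∃ n : ℕ, 5 ≤ n ∧ n ≠ 6 ∧ Nonempty (L ≃* alternatingGroup (Fin n))) G →
  Occurs k G P

/-- The purely wild inertia conjecture, `p = 3`, composition factors cyclic, of order prime to 3 or
alternating -/
def HMain3 : Prop := ∀ (k : Type) [Field k] [IsAlgClosed k] [CharP k 3] (G : Type) [Group G]
  [Finite G] (P : Subgroup G), IsPGroup 3 P → Subgroup.normalClosure (P : Set G) = ⊤ →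
  CFac 3 (fun L _ => ∃ n : ℕ, 5 ≤ n ∧ Nonempty (L ≃* alternatingGroup (Fin n))) G →
  Occurs k G P

end MP7b0bad

end

section

set_option autoImplicit false

namespace MP7b0bad

open Polynomial

theorem QIdS_J_TN {κ : Type} [Field κ] {D : Type} [CommRing D] [Algebra (LaurentSeries κ) D]
    (z : D) (h : QTN_J (κ := κ) z) : TN (κ := κ) z := by
  rw [QTN_key]
  exact ⟨1, one_pos, by rwa [pow_one]⟩

/-- monic equations over the Laurent series field -/
theorem QIdS_Q {κ : Type} [Field κ] {D : Type} [CommRing D] [Algebra (LaurentSeries κ) D]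
    (z : D) (P : (LaurentSeries κ)[X]) (hP : P.Monic) (h0 : 0 < P.natDegree)
    (hc : ∀ i < P.natDegree, ∀ m : ℤ, m < 0 → (P.coeff i).coeff m = 0)
    (hz : P.eval₂ (algebraMap (LaurentSeries κ) D) z = 0) : IntL (κ := κ) z := by
  refine ⟨P.natDegree, fun i => P.coeff (P.natDegree - 1 - (i : ℕ)), h0,
    fun i m hm => hc _ (by omega) m hm, ?_⟩
  rw [eval₂_eq_sum_range, Finset.sum_range_succ] at hz
  have h5 : P.coeff P.natDegree = 1 := hP
  rw [h5, map_one, one_mul, add_comm] at hz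
  rw [← hz]
  congr 1
  rw [← Finset.sum_range_reflect, Finset.sum_range]

/-- `ξ^r q(c)` is integral -/
theorem QIdS_int {κ : Type} [Field κ] {C D : Type} [CommRing C]
    [Algebra κ[X] C] [CommRing D] [Algebra (LaurentSeries κ) D] (q : C →+* D)
    (hq : ∀ f, q (algebraMap κ[X] C f) = algebraMap (LaurentSeries κ) D (atInf κ f)) (c : C)
    (hc : IsIntegral κ[X] c) : ∃ r : ℕ, ∀ s : ℕ, r ≤ s → (QTN_f κ D).IsIntegralElem
      (algebraMap (LaurentSeries κ) D (HahnSeries.single (s : ℤ) (1 : κ)) * q c) := by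
  obtain ⟨P, hP1, hP2⟩ := hc
  let r : ℕ := ∑ i ∈ Finset.range (P.natDegree + 1), (P.coeff i).natDegree
  refine ⟨r, fun s hs => ?_⟩
  have hr : ∀ i ≤ P.natDegree, (P.coeff i).natDegree ≤ s := fun i hi =>
    le_trans (Finset.single_le_sum (f := fun i => (P.coeff i).natDegree)
      (fun _ _ => Nat.zero_le _) (Finset.mem_range.2 (by omega))) hs
  rw [← QTN_intL]
  -- make the degree positive
  let P1 : κ[X][X] := P * X
  have hP1m : P1.Monic := hP1.mul monic_X
  have hP1d : P1.natDegree = P.natDegree + 1 := natDegree_mul_X hP1.ne_zero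
  have hP1z : P1.eval₂ (algebraMap κ[X] C) c = 0 := by
    rw [eval₂_mul, hP2, zero_mul]
  have hcoef : ∀ i ≤ P1.natDegree, (P1.coeff i).natDegree ≤ s := by
    intro i hi
    rw [hP1d] at hi
    rcases i with _ | i
    · simp [P1]
    · rw [coeff_mul_X]
      exact hr i (by omega)
  let P2 : (LaurentSeries κ)[X] := P1.map (atInf κ)
  have hP2m : P2.Monic := hP1m.map _
  have hP2d : P2.natDegree = P1.natDegree := hP1m.natDegree_map _
  have hP2z : P2.eval₂ (algebraMap (LaurentSeries κ) D) (q c) = 0 := by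
    have h1 : q (P1.eval₂ (algebraMap κ[X] C) c) = 0 := by rw [hP1z, map_zero]
    rw [hom_eval₂] at h1
    rw [eval₂_map, ← h1]
    congr 1
    ext f
    · simp [← hq]
    · simp [← hq]
  let t : LaurentSeries κ := HahnSeries.single (s : ℤ) (1 : κ)
  refine QIdS_Q _ (scaleRoots P2 t) ((monic_scaleRoots_iff _).2 hP2m) ?_ ?_ ?_
  · rw [natDegree_scaleRoots, hP2d, hP1d]
    omega
  · rw [natDegree_scaleRoots]
    intro i hi
    rw [coeff_scaleRoots, coeff_map]
    have h1 : E3_ge (-((P1.coeff i).natDegree : ℤ)) (atInf κ (P1.coeff i)) := E3_ge_atInf _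
    have h2 : t ^ (P2.natDegree - i) = t * t ^ (P2.natDegree - i - 1) := by
      rw [← pow_succ']
      congr 1
      omega
    have h3 : t ^ (P2.natDegree - i - 1) =
        HahnSeries.single (((P2.natDegree - i - 1) * s : ℕ) : ℤ) (1 : κ) := by
      rw [HahnSeries.single_pow, one_pow]
      congr 1
    have h4 : E3_ge (s : ℤ) t := E3_ge_single _ _
    have h5 : E3_ge (((P2.natDegree - i - 1) * s : ℕ) : ℤ) (t ^ (P2.natDegree - i - 1)) := by
      rw [h3]
      exact E3_ge_single _ _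
    rw [h2]
    have h6 := E3_ge_mul h1 (E3_ge_mul h4 h5)
    intro m hm
    refine h6 m (lt_of_lt_of_le hm ?_)
    have h7 : ((P1.coeff i).natDegree : ℤ) ≤ s := by
      exact_mod_cast hcoef i (by rw [hP2d] at hi; omega)
    have h8 : (0 : ℤ) ≤ (((P2.natDegree - i - 1) * s : ℕ) : ℤ) := Int.natCast_nonneg _
    linarith
  · exact scaleRoots_eval₂_eq_zero _ hP2z

section

variable {κ : Type} [Field κ] {C D : Type} [CommRing C] [Algebra κ[X] C] [CommRing D]
  [Algebra (LaurentSeries κ) D] (q : C →+* D) {n : ℕ} (c : Fin n → C)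

/-- elements of small lattices are topologically nilpotent -/
theorem QIdS_LatTN (hq : ∀ f, q (algebraMap κ[X] C f) = algebraMap (LaurentSeries κ) D (atInf κ f))
    (hc : ∀ l, IsIntegral κ[X] (c l)) : ∃ M : ℤ, ∀ m : ℤ, M ≤ m → ∀ z : D,
      Lat (κ := κ) q c m z → TN (κ := κ) z := by
  choose r hr using fun l => QIdS_int q hq (c l) (hc l)
  let s : ℕ := ∑ l, r l
  have hs : ∀ l, r l ≤ s := fun l => Finset.single_le_sum (f := r) (fun _ _ => Nat.zero_le _)
    (Finset.mem_univ l)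
  refine ⟨(s : ℤ) + 1, fun m hm z hz => QIdS_J_TN z ?_⟩
  obtain ⟨h, hh, rfl⟩ := hz
  refine Finset.sum_induction _ (QTN_J (κ := κ)) (fun a b => QTN_J_add a b) QTN_J_zero ?_
  intro l _
  set g : LaurentSeries κ := HahnSeries.single (-((s : ℤ) + 1)) (1 : κ) * h l with hg
  have hg0 : ∀ i : ℤ, i < 0 → g.coeff i = 0 := by
    have h1 := E3_ge_mul (E3_ge_single (-((s : ℤ) + 1)) (1 : κ)) (show E3_ge m (h l) from hh l)
    intro i hi
    exact h1 i (by omega)
  have hgl : h l = HahnSeries.single (1 : ℤ) (1 : κ) * (g * HahnSeries.single (s : ℤ) (1 : κ)) := by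
    have h2 : (HahnSeries.single (1 : ℤ) (1 : κ)) * (g * HahnSeries.single (s : ℤ) (1 : κ)) =
      (HahnSeries.single (1 : ℤ) (1 : κ) * HahnSeries.single (s : ℤ) (1 : κ) *
        HahnSeries.single (-((s : ℤ) + 1)) (1 : κ)) * h l := by
      rw [hg]; ring
    rw [h2, HahnSeries.single_mul_single, HahnSeries.single_mul_single]
    have h3 : (1 : ℤ) + s + -(s + 1) = 0 := by ring
    rw [h3]
    simp
  refine ⟨algebraMap (LaurentSeries κ) D g *
    (algebraMap (LaurentSeries κ) D (HahnSeries.single (s : ℤ) (1 : κ)) * q (c l)), ?_, ?_⟩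
  · refine RingHom.IsIntegralElem.mul _ ?_ (hr l s (hs l))
    have h4 : algebraMap (LaurentSeries κ) D g =
        QTN_f κ D (PowerSeries.mk fun i => g.coeff (i : ℤ)) := by
      change _ = algebraMap (LaurentSeries κ) D (HahnSeries.ofPowerSeries ℤ κ _)
      rw [QTN_ps g hg0]
    rw [h4]
    exact RingHom.isIntegralElem_map _
  · conv_lhs => rw [hgl, map_mul, map_mul]
    ring

end

theorem QIdS_deep {κ : Type} [Field κ] {D : Type} [CommRing D] [Algebra (LaurentSeries κ) D]
    (L : ℤ → D → Prop)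
    (hmono : ∀ (m m' : ℤ) (z : D), m' ≤ m → L m z → L m' z)
    (hadd : ∀ (m : ℤ) (z z' : D), L m z → L m z' → L m (z + z'))
    (hneg : ∀ (m : ℤ) (z : D), L m z → L m (-z))
    (hall : ∀ z : D, ∃ m : ℤ, L m z)
    (hsmul : ∀ (m m' : ℤ) (a : LaurentSeries κ) (z : D), (∀ i : ℤ, i < m → a.coeff i = 0) →
      L m' z → L (m + m') (algebraMap (LaurentSeries κ) D a * z))
    (z : D) (hz : TN (κ := κ) z) (M : ℤ) : ∃ e₀ : ℕ, ∀ e : ℕ, e₀ ≤ e → L M (z ^ e) := by
  rw [QTN_key] at hz
  obtain ⟨N, hN, w, ⟨P, hP1, hP2⟩, hzw⟩ := hz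
  -- a common lattice for the small monomials
  have hcommon : ∃ m : ℤ, ∀ i < P.natDegree + 1, ∀ b < N, L m (w ^ i * z ^ b) := by
    choose μ hμ using fun x : ℕ × ℕ => hall (w ^ x.1 * z ^ x.2)
    let S : Finset (ℕ × ℕ) := Finset.range (P.natDegree + 1) ×ˢ Finset.range N
    refine ⟨-∑ x ∈ S, |μ x|, fun i hi b hb => hmono (μ (i, b)) _ _ ?_ (hμ (i, b))⟩
    have h1 : |μ (i, b)| ≤ ∑ x ∈ S, |μ x| := Finset.single_le_sum (f := fun x => |μ x|)
      (fun _ _ => abs_nonneg _) (Finset.mem_product.2 ⟨Finset.mem_range.2 hi, Finset.mem_range.2 hb⟩)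
    have h2 := neg_abs_le (μ (i, b))
    linarith
  obtain ⟨m, hm⟩ := hcommon
  have hsum : ∀ (s : Finset ℕ) (f : ℕ → D), s.Nonempty → (∀ i ∈ s, L m (f i)) →
      L m (∑ i ∈ s, f i) := by
    intro s f hs hf
    exact Finset.sum_induction_nonempty f (L m) (hadd m) hs hf
  have hPow : ∀ s : ℕ, ∀ b < N, L m (w ^ s * z ^ b) := by
    intro s
    induction s using Nat.strong_induction_on with
    | _ s ih =>
      intro b hb
      rcases lt_or_ge s (P.natDegree + 1) with h | h
      · exact hm s h b hb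
      · rw [eval₂_eq_sum_range, Finset.sum_range_succ] at hP2
        have h5 : P.coeff P.natDegree = 1 := hP1
        rw [h5, map_one, one_mul] at hP2
        rcases Nat.eq_zero_or_pos P.natDegree with hd | hd
        · -- then `1 = 0`
          rw [hd] at hP2
          have h6 : (1 : D) = 0 := by simpa using hP2
          have h7 : w ^ s * z ^ b = w ^ 0 * z ^ b := by
            rw [← mul_one (w ^ s * z ^ b), ← mul_one (w ^ 0 * z ^ b), h6, mul_zero, mul_zero]
          rw [h7]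
          exact hm 0 (by omega) b hb
        · have h6 : w ^ s * z ^ b = -∑ i ∈ Finset.range P.natDegree,
              QTN_f κ D (P.coeff i) * (w ^ (s - P.natDegree + i) * z ^ b) := by
            have h7 : w ^ s = w ^ (s - P.natDegree) * w ^ P.natDegree := by
              rw [← pow_add]
              congr 1
              omega
            have h8 : w ^ P.natDegree = -∑ i ∈ Finset.range P.natDegree,
                QTN_f κ D (P.coeff i) * w ^ i := by
              linear_combination hP2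
            rw [h7, h8, mul_neg, neg_mul, Finset.mul_sum, Finset.sum_mul]
            congr 1
            refine Finset.sum_congr rfl fun i _ => ?_
            rw [pow_add]
            ring
          rw [h6]
          refine hneg _ _ (hsum _ _ ⟨0, Finset.mem_range.2 hd⟩ fun i hi => ?_)
          have hi' := Finset.mem_range.1 hi
          have h9 := hsmul 0 m (HahnSeries.ofPowerSeries ℤ κ (P.coeff i))
            (w ^ (s - P.natDegree + i) * z ^ b) (fun j hj => by
              rw [PowerSeries.coeff_coe (R := κ), if_pos hj])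
            (ih _ (by omega) b hb)
          rw [zero_add] at h9
          exact h9
  refine ⟨N * (M - m).toNat, fun e he => ?_⟩
  have h1 : z ^ e = algebraMap (LaurentSeries κ) D (HahnSeries.single ((e / N : ℕ) : ℤ) (1 : κ)) *
      (w ^ (e / N) * z ^ (e % N)) := by
    conv_lhs => rw [← Nat.div_add_mod e N]
    rw [pow_add, pow_mul, hzw, mul_pow, ← map_pow, HahnSeries.single_pow, one_pow]
    rw [mul_assoc]
    congr 3
    simp
  rw [h1]
  have h2 := hsmul ((e / N : ℕ) : ℤ) m (HahnSeries.single ((e / N : ℕ) : ℤ) (1 : κ))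
    (w ^ (e / N) * z ^ (e % N)) (E3_ge_single _ _) (hPow (e / N) (e % N) (Nat.mod_lt _ hN))
  refine hmono _ _ _ ?_ h2
  have h3 : (M - m).toNat ≤ e / N := by
    rw [Nat.le_div_iff_mul_le hN, mul_comm]
    exact he
  omega

theorem prf_QIdS (hQLat : QLat) (hQASL : QASL) (hQTN : QTN) (hQFree : QFree) : QIdS := by
  intro κ _ p _ _ Γ _ _ C D _ _ _ _ _ _ q hC hD hq hqγ
  have hfin : Module.Finite κ[X] C := gal_finite hC
  have hfree : Module.Free κ[X] C := hQFree κ Γ C hC
  have hnt : Nontrivial D := hD.inj.nontrivial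
  have hcL : CharP (LaurentSeries κ) p := charP_of_injective_ringHom
    (f := (HahnSeries.C : κ →+* LaurentSeries κ)) (HahnSeries.C : κ →+* LaurentSeries κ).injective p
  have hcD : CharP D p := charP_of_injective_ringHom hD.inj p
  have hp2 : 2 ≤ p := (Fact.out : p.Prime).two_le
  let c := Module.finBasis κ[X] C
  obtain ⟨r, l1, l2, l3, l4, l5, l6, l7, l8, l9⟩ := hQLat κ Γ C D q hC hD hq hqγ _ c
  obtain ⟨M₀, hM₀⟩ := hQASL κ p Γ C D q hC hD hq hqγ _ c
  obtain ⟨t1, t2, t3, t4, t5, t6, t7, t8, t9⟩ := hQTN κ Γ D hD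
  obtain ⟨M₁, hM₁⟩ := QIdS_LatTN (κ := κ) q c hq (fun l => Algebra.IsIntegral.isIntegral _)
  have hint1 : IntL (κ := κ) (1 : D) := by
    rw [QTN_intL]; exact RingHom.isIntegralElem_one _
  have hintpow : ∀ (z : D) (k : ℕ), IntL (κ := κ) z → IntL (κ := κ) (z ^ k) := by
    intro z k hz
    rw [QTN_intL] at hz ⊢
    exact QTN_pow z hz k
  have hTNneg : ∀ z : D, TN (κ := κ) z → TN (κ := κ) (-z) := by
    intro z hz
    have h := t3 z (-1) hz ((t1 1 1 hint1 hint1).2.2)
    rwa [mul_neg, mul_one] at h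
  have hTN0 : TN (κ := κ) (0 : D) := QIdS_J_TN _ QTN_J_zero
  have hTNpow : ∀ (z : D) (k : ℕ), 0 < k → TN (κ := κ) z → TN (κ := κ) (z ^ k) := by
    intro z k hk hz
    obtain ⟨k, rfl⟩ := Nat.exists_eq_succ_of_ne_zero hk.ne'
    rw [pow_succ']
    exact t3 z _ hz (hintpow z k (t4 z hz))
  have hAS : ∀ z : D, TN (κ := κ) z → ∃ h : D, TN (κ := κ) h ∧ h ^ p - h = z := by
    intro z hz
    obtain ⟨e₀, he₀⟩ := QIdS_deep (κ := κ) (Lat (κ := κ) q c) l1 l2 l3 l6 l7 z hz (max M₀ M₁)
    have he : e₀ ≤ p ^ e₀ := (Nat.lt_pow_self (by omega)).le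
    obtain ⟨h', hh1, hh2⟩ := ((hM₀ (max M₀ M₁) (le_max_left _ _)).1 _ (he₀ _ he)).2
    have hh3 : TN (κ := κ) h' := hM₁ _ (le_max_right _ _) _ hh1
    let S : D := ∑ j ∈ Finset.range e₀, z ^ p ^ j
    have hS : TN (κ := κ) S := by
      refine Finset.sum_induction _ (TN (κ := κ)) t2 hTN0 ?_
      intro j _
      exact hTNpow z _ (pow_pos (by omega) j) hz
    have hSp : S ^ p = S + z ^ p ^ e₀ - z := by
      have h1 : S ^ p = ∑ j ∈ Finset.range e₀, z ^ p ^ (j + 1) := by
        simp only [S]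
        rw [sum_pow_char]
        refine Finset.sum_congr rfl fun j _ => ?_
        rw [← pow_mul, pow_succ]
      have h2 : S + z ^ p ^ e₀ = ∑ j ∈ Finset.range (e₀ + 1), z ^ p ^ j := by
        rw [Finset.sum_range_succ]
      have h3 : ∑ j ∈ Finset.range (e₀ + 1), z ^ p ^ j =
          ∑ j ∈ Finset.range e₀, z ^ p ^ (j + 1) + z := by
        rw [Finset.sum_range_succ']
        simp
      rw [h1, h2, h3]
      ring
    refine ⟨h' - S, ?_, ?_⟩
    · rw [sub_eq_add_neg]
      exact t2 _ _ hh3 (hTNneg S hS)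
    · rw [sub_pow_char, hSp]
      linear_combination hh2
  refine ⟨hAS, ?_⟩
  intro b hb
  have hbI : IntL (κ := κ) b := t7 b hb
  have hsumI : ∀ (k : ℕ) (f : ℕ → D), (∀ i, IntL (κ := κ) (f i)) →
      IntL (κ := κ) (∑ i ∈ Finset.range k, f i) := by
    intro k f hf
    refine Finset.sum_induction _ (IntL (κ := κ)) (fun x y hx hy => (t1 x y hx hy).1) ?_
      (fun i _ => hf i)
    exact t4 0 hTN0
  have hfac : ∀ k : ℕ, TN (κ := κ) (b ^ (k + 1) - b) := by
    intro k
    have h1 : b ^ (k + 1) - b = (b * b - b) * ∑ i ∈ Finset.range k, b ^ i := by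
      have h2 := geom_sum_mul b k
      rw [pow_succ]
      linear_combination (-b) * h2
    rw [h1]
    exact t3 _ _ hb (hsumI k _ fun i => hintpow b i hbI)
  obtain ⟨h, hh1, hh2⟩ := hAS (b ^ p - b) (by
    have h3 := hfac (p - 1)
    rwa [Nat.sub_add_cancel (by omega)] at h3)
  have hu : (b - h) ^ p = b - h := by
    rw [sub_pow_char]
    linear_combination -hh2
  have huI : IntL (κ := κ) (b - h) := by
    rw [sub_eq_add_neg]
    exact (t1 _ _ hbI (t4 _ (hTNneg h hh1))).1
  refine ⟨(b - h) ^ (p - 1), ?_, ?_⟩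
  · have h4 : (b - h) ^ (p - 1) * (b - h) ^ (p - 1) = (b - h) ^ (p - 2) * (b - h) ^ p := by
      rw [← pow_add, ← pow_add]
      congr 1
      omega
    rw [h4, hu, ← pow_succ]
    congr 1
    omega
  · have h5 : (b - h) ^ (p - 1) - b = -h * (∑ i ∈ Finset.range (p - 1),
        (b - h) ^ i * b ^ (p - 1 - 1 - i)) + (b ^ (p - 1) - b) := by
      have h6 := geom_sum₂_mul (b - h) b (p - 1)
      linear_combination -h6
    rw [h5]
    refine t2 _ _ (t3 _ _ (hTNneg h hh1) (hsumI _ _ fun i =>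
      (t1 _ _ (hintpow _ _ huI) (hintpow _ _ hbI)).2.1)) ?_
    have h7 := hfac (p - 2)
    have h8 : p - 2 + 1 = p - 1 := by omega
    rwa [h8] at h7

end MP7b0bad

end

section

set_option autoImplicit false

/-! Item QR2: embedding problems with elementary abelian `p`-kernel. -/

namespace MP7b0bad

open Polynomial

/-- presentation of an elementary abelian normal subgroup, additive form -/
theorem QR2_pres0 (p : ℕ) [Fact p.Prime] (G : Type) [Group G] (N : Subgroup G)
    [N.Normal] (A : Type) [AddCommGroup A] [Finite A] [Module (ZMod p) A] (e : N → A)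
    (he : Function.Bijective e) (hadd : ∀ a b, e (a * b) = e a + e b) :
    ∃ (r : ℕ) (ρ : G → Matrix (Fin r) (Fin r) (ZMod p)) (ν : G → Fin r → ZMod p),
      ElExt p r G (G ⧸ N) (QuotientGroup.mk' N) ρ ν := by
  classical
  let β := Module.finBasis (ZMod p) A
  let E := Equiv.ofBijective e he
  have hE : ∀ x, e (E.symm x) = x := E.apply_symm_apply
  have hE' : ∀ x, E.symm (e x) = x := E.symm_apply_apply
  have hEadd : ∀ x y, E.symm (x + y) = E.symm x * E.symm y := fun x y =>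
    he.1 (by rw [hE, hadd, hE, hE])
  let cj0 : G → (A →+ A) := fun g => AddMonoidHom.mk'
    (fun x => e (MulAut.conjNormal (H := N) g (E.symm x)))
    (fun x y => by rw [hEadd, map_mul, hadd])
  let cj : G → (A →ₗ[ZMod p] A) := fun g => AddMonoidHom.toZModLinearMap p (cj0 g)
  have hcj : ∀ (g : G) (x : A), cj g x = e (MulAut.conjNormal (H := N) g (E.symm x)) :=
    fun g x => rfl
  have hker : (QuotientGroup.mk' N).ker = N := QuotientGroup.ker_mk' N
  refine ⟨_, fun g => LinearMap.toMatrix β β (cj g),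
    fun g => if h : g ∈ N then β.equivFun (e ⟨g, h⟩) else 0, ?_⟩
  refine ⟨QuotientGroup.mk'_surjective N, ?_, ?_, ?_, ?_, ?_, ?_⟩
  · intro g h
    rw [← LinearMap.toMatrix_comp]
    congr 1
    refine LinearMap.ext fun x => ?_
    rw [LinearMap.comp_apply, hcj, hcj, hcj, hE', map_mul]
    rfl
  · have : cj 1 = LinearMap.id := by
      refine LinearMap.ext fun x => ?_
      rw [hcj, map_one, MulAut.one_apply, hE, LinearMap.id_apply]
    rw [this, LinearMap.toMatrix_id]
  · intro n hn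
    rw [hker] at hn
    have : cj n = LinearMap.id := by
      refine LinearMap.ext fun x => ?_
      have h3 : MulAut.conjNormal (H := N) n (E.symm x) = E.symm x := by
        have h4 : (⟨n, hn⟩ : N) * E.symm x = E.symm x * ⟨n, hn⟩ := he.1 (by
          rw [hadd, hadd, add_comm])
        have h5 := congrArg (fun z : N => (z : G)) h4
        simp only [Subgroup.coe_mul] at h5
        refine Subtype.ext ?_
        rw [MulAut.conjNormal_apply, h5, mul_assoc, mul_inv_cancel, mul_one]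
      rw [hcj, h3, hE, LinearMap.id_apply]
    rw [this, LinearMap.toMatrix_id]
  · intro n hn n' hn'
    rw [hker] at hn hn'
    rw [dif_pos hn, dif_pos hn', dif_pos (N.mul_mem hn hn'), ← map_add, ← hadd]
    rfl
  · rw [hker]
    refine ⟨fun _ _ => Set.mem_univ _, ?_, ?_⟩
    · intro n hn n' hn' h
      have hn1 : n ∈ N := hn
      have hn2 : n' ∈ N := hn'
      simp only [dif_pos hn1, dif_pos hn2] at h
      have h3 := he.1 (β.equivFun.injective h)
      exact congrArg (fun z : N => (z : G)) h3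
    · intro v _
      refine ⟨((E.symm (β.equivFun.symm v) : N) : G), (E.symm (β.equivFun.symm v)).2, ?_⟩
      simp only [dif_pos (E.symm (β.equivFun.symm v)).2]
      rw [Subtype.coe_eta, hE, β.equivFun.apply_symm_apply]
  · intro g n hn
    rw [hker] at hn
    have hn2 : g * n * g⁻¹ ∈ N := (inferInstance : N.Normal).conj_mem n hn g
    rw [dif_pos hn, dif_pos hn2]
    have h3 := LinearMap.toMatrix_mulVec_repr β β (cj g) (e ⟨n, hn⟩)
    have h4 : cj g (e ⟨n, hn⟩) = e ⟨g * n * g⁻¹, hn2⟩ := by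
      rw [hcj, hE']
      rfl
    rw [h4] at h3
    exact h3.symm

/-- presentation of an elementary abelian normal subgroup -/
theorem QR2_pres (p : ℕ) [Fact p.Prime] (G : Type) [Group G] [Finite G] (N : Subgroup G)
    [N.Normal] (h1 : ∀ a ∈ N, a ^ p = 1) (h2 : ∀ a ∈ N, ∀ b ∈ N, a * b = b * a) :
    ∃ (r : ℕ) (ρ : G → Matrix (Fin r) (Fin r) (ZMod p)) (ν : G → Fin r → ZMod p),
      ElExt p r G (G ⧸ N) (QuotientGroup.mk' N) ρ ν := by
  let instA : AddCommGroup (Additive N) := { (inferInstance : AddGroup (Additive N)) with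
    add_comm := fun a b => by
      have h3 : Additive.toMul a * Additive.toMul b = Additive.toMul b * Additive.toMul a :=
        Subtype.ext (h2 _ (Additive.toMul a).2 _ (Additive.toMul b).2)
      exact h3 }
  have h4 : ∀ x : Additive N, p • x = 0 := by
    intro x
    have h3 : (Additive.toMul x) ^ p = 1 := Subtype.ext (by
      have := h1 (Additive.toMul x).1 (Additive.toMul x).2
      simpa using this)
    exact h3
  have hfA : Finite (Additive N) := inferInstanceAs (Finite N)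
  exact @QR2_pres0 p _ G _ N _ (Additive N) instA hfA (AddCommGroup.zmodModule h4)
    (fun x => Additive.ofMul x) Additive.ofMul.bijective (fun a b => rfl)

/-- twisted additive Hilbert 90 -/
theorem QR2_H90 {R : Type} [CommRing R] {p r : ℕ} [Fact p.Prime] {P : Type} [Group P] [Finite P]
    {E : Type} [CommRing E] [Algebra R E] [MulSemiringAction P E] (h : GalAlg R P E)
    (ρ : P → Matrix (Fin r) (Fin r) (ZMod p)) (c : P → Fin r → E)
    (hc : ∀ g g' : P, c (g * g') = c g + stA (ρ g) (fun x => g • x) (c g')) :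
    ∃ y : Fin r → E, ∀ g, stA (ρ g) (fun x => g • x) y = y + c g := by
  classical
  have := Fintype.ofFinite P
  obtain ⟨ϑ, hϑ⟩ := gal_trace_one h
  refine ⟨fun j => -∑ τ : P, c τ j * (τ • ϑ), fun g => ?_⟩
  funext j
  have h1 : ∀ l, g • (-∑ τ : P, c τ l * (τ • ϑ)) =
      -∑ τ : P, (g • c τ l) * ((g * τ) • ϑ) := by
    intro l
    rw [smul_neg, Finset.smul_sum]
    congr 1
    refine Finset.sum_congr rfl fun τ _ => ?_
    rw [smul_mul', smul_smul]
  have h2 : ∀ τ, ∑ l, (((ρ g j l).val : ℕ) : E) * (g • c τ l) = c (g * τ) j - c g j := by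
    intro τ
    rw [hc]
    simp only [Pi.add_apply, add_sub_cancel_left]
    rfl
  have h3 : ∑ τ : P, (c (g * τ) j - c g j) * ((g * τ) • ϑ) =
      ∑ τ : P, (c τ j - c g j) * (τ • ϑ) :=
    Fintype.sum_bijective (fun x => g * x) (Group.mulLeft_bijective g) _ _ fun x => rfl
  calc stA (ρ g) (fun x => g • x) (fun j => -∑ τ : P, c τ j * (τ • ϑ)) j
      = ∑ l, (((ρ g j l).val : ℕ) : E) * (-∑ τ : P, (g • c τ l) * ((g * τ) • ϑ)) := by
        unfold stA
        refine Finset.sum_congr rfl fun l _ => ?_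
        exact congrArg (fun z => (((ρ g j l).val : ℕ) : E) * z) (h1 l)
    _ = -∑ τ : P, (∑ l, (((ρ g j l).val : ℕ) : E) * (g • c τ l)) * ((g * τ) • ϑ) := by
        simp only [mul_neg, Finset.sum_neg_distrib, Finset.mul_sum, Finset.sum_mul]
        rw [Finset.sum_comm]
        congr 1
        refine Finset.sum_congr rfl fun τ _ => Finset.sum_congr rfl fun l _ => ?_
        ring
    _ = -∑ τ : P, (c τ j - c g j) * (τ • ϑ) := by
        rw [← h3]
        congr 1
        refine Finset.sum_congr rfl fun τ _ => ?_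
        rw [h2]
    _ = (-∑ τ : P, c τ j * (τ • ϑ)) + c g j := by
        simp only [sub_mul, Finset.sum_sub_distrib]
        rw [← Finset.mul_sum, hϑ]
        ring

/-- the invariants of the kernel -/
theorem QR2_inv (hQSub : QSub) {R : Type} [CommRing R] {Γ Γb : Type} [Group Γ] [Finite Γ]
    [Group Γb] (q : Γ →* Γb) (hq : Function.Surjective q) {Eb E : Type} [CommRing Eb]
    [Algebra R Eb] [MulSemiringAction Γb Eb] [CommRing E] [Algebra R E] [MulSemiringAction Γ E]
    (i : Eb →+* E) (hEb : GalAlg R Γb Eb) (hE : GalAlg R Γ E)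
    (hi : ∀ a : R, i (algebraMap R Eb a) = algebraMap R E a)
    (hia : ∀ (g : Γ) (e : Eb), g • i e = i (q g • e)) :
    Function.Injective i ∧ ∀ c : E, (∀ γ ∈ q.ker, γ • c = c) → ∃ e, i e = c := by
  classical
  have : Finite Γb := Finite.of_surjective q hq
  obtain ⟨B, _, _, _, i1, hB, hinj, halg, hact, hinv⟩ := hQSub R Γ Γb q E hq hE
  have hex : ∀ e : Eb, ∃ b : B, i1 b = i e := by
    intro e
    refine hinv _ fun γ hγ => ?_
    rw [hia, MonoidHom.mem_ker.1 hγ, one_smul]
  choose κ hκ using hex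
  let κ' : Eb →+* B :=
    { toFun := κ
      map_one' := hinj (by rw [hκ, map_one, map_one])
      map_mul' := fun a b => hinj (by rw [hκ, map_mul, map_mul, hκ, hκ])
      map_zero' := hinj (by rw [hκ, map_zero, map_zero])
      map_add' := fun a b => hinj (by rw [hκ, map_add, map_add, hκ, hκ]) }
  have hκ' : ∀ e, i1 (κ' e) = i e := hκ
  have hbij := gal_hom_bijective hEb hB κ'
    (fun a => hinj (by rw [hκ', hi, halg]))
    (fun g e => by
      obtain ⟨g, rfl⟩ := hq g
      exact hinj (by rw [hκ', hact, hκ', hia]))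
  constructor
  · intro a b hab
    refine hbij.1 (hinj ?_)
    rw [hκ', hκ', hab]
  · intro c hc
    obtain ⟨b, hb⟩ := hinv c hc
    obtain ⟨e, he⟩ := hbij.2 b
    exact ⟨e, by rw [← hκ', he, hb]⟩

theorem QR2_cancel {p r : ℕ} [Fact p.Prime] {S : Type} [CommRing S] [CharP S p]
    (M N : Matrix (Fin r) (Fin r) (ZMod p)) (hMN : N * M = 1) (v w : Fin r → S)
    (h : QASN_mv M v = QASN_mv M w) : v = w := by
  have h1 := congrArg (QASN_mv N) h
  rwa [← QASN_mv_mul, ← QASN_mv_mul, hMN, QASN_mv_one, QASN_mv_one] at h1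

theorem prf_QR2 (hQLL : QLL) (hQELN : QELN) (hQASN : QASN) (hQDenV : QDenV) (hQComp : QComp)
    (hQSub : QSub) : QR2 := by
  classical
  intro k _ _ p hpF _ G _ _ N P hNn hP hN1 hN2 hRel
  have hp : p.Prime := hpF.out
  obtain ⟨r, ρ, ν, hEx⟩ := QR2_pres p G N hN1 hN2
  have hker : (QuotientGroup.mk' N).ker = N := QuotientGroup.ker_mk' N
  generalize QuotientGroup.mk' N = q at hEx hRel hker
  obtain ⟨Bb, _, _, _, Eb, _, _, _, ιb, hBb, hBbd, hEb, hEbd, hιb, hιba⟩ := hRel
  have hK : CharP (LaurentSeries k) p :=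
    charP_of_injective_ringHom (HahnSeries.C_injective (Γ := ℤ) (R := k)) p
  obtain ⟨b, m, hb, hbn, hm⟩ := hQELN k[X] p r G (G ⧸ N) q ρ ν Bb hEx hBb
  -- the local field
  let qP : P →* P.map q := q.subgroupMap P
  have hqP : Function.Surjective qP := q.subgroupMap_surjective P
  have hqPc : ∀ g : P, ((qP g : P.map q) : G ⧸ N) = q g := fun g => rfl
  obtain ⟨E, _, _, _, i0, hEd, hE, hi0, hi0a⟩ := hQLL k p P (P.map q) qP Eb hP hqP hEbd hEb
  have hEc : CharP E p := charP_of_injective_ringHom hE.inj p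
  obtain ⟨hi0inj, hi0inv⟩ := QR2_inv hQSub qP hqP i0 hEb hE hi0 hi0a
  have hBbc : CharP Bb p := charP_of_injective_ringHom hBb.inj p
  have hEbc : CharP Eb p := charP_of_injective_ringHom hEb.inj p
  have hρi : ∀ g, ρ g⁻¹ * ρ g = 1 := fun g => by rw [← hEx.mul, inv_mul_cancel, hEx.one]
  have hρi' : ∀ g, ρ g * ρ g⁻¹ = 1 := fun g => by rw [← hEx.mul, mul_inv_cancel, hEx.one]
  let ψ : Bb →+* E := i0.comp ιb
  have hψ : ∀ (g : P) (e : Bb), ψ (q g • e) = g • ψ e := by
    intro g e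
    change i0 (ιb (((qP g : P.map q) : G ⧸ N) • e)) = g • i0 (ιb e)
    rw [hιba, hi0a]
  have hψst : ∀ (g : P) (v : Fin r → Bb) (j : Fin r),
      ψ (stA (ρ g) (fun x => q g • x) v j) = QASN_mv (ρ g) (fun l => g • ψ (v l)) j := by
    intro g v j
    rw [QASN_stA, QASN_mv_map]
    congr 1
    funext l
    exact hψ g (v l)
  -- twisted Hilbert 90
  obtain ⟨y0, hy0⟩ := QR2_H90 (p := p) (r := r) hE (fun g : P => ρ g)
    (fun (g : P) j => ψ (b g j)) (fun g g' => by
      funext j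
      have h1 := congrArg ψ (congrFun (hb g g') j)
      rw [Pi.add_apply, map_add, hψst] at h1
      exact h1)
  have hy0' : ∀ (g : P), QASN_mv (ρ g) (fun l => g • y0 l) = fun l => y0 l + ψ (b g l) := hy0
  have hρsub : ∀ (g : P) (v : Fin r → E) (j : Fin r), QASN_mv (ρ g) (fun l => g • (v l ^ p - v l)) j
      = QASN_mv (ρ g) (fun l => g • v l) j ^ p - QASN_mv (ρ g) (fun l => g • v l) j := by
    intro g v j
    rw [QASN_mv_pow, ← QASN_mv_sub]
    congr 1
    funext l
    rw [smul_sub, smul_pow']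
  -- the defect
  have hw0 : ∀ (g : P) (j : Fin r), QASN_mv (ρ g) (fun l => g • (y0 l ^ p - y0 l - ψ (m l))) j =
      y0 j ^ p - y0 j - ψ (m j) := by
    intro g j
    have h1 : (fun l => g • (y0 l ^ p - y0 l - ψ (m l))) =
        fun l => g • (y0 l ^ p - y0 l) - g • ψ (m l) := by
      funext l
      rw [smul_sub]
    rw [h1, QASN_mv_sub, hρsub, hy0', ← hψst]
    have h2 := congrArg ψ (hm g j)
    rw [map_sub, map_pow, map_sub] at h2
    simp only [add_pow_char]
    linear_combination h2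
  have hex : ∀ j, ∃ e : Eb, i0 e = y0 j ^ p - y0 j - ψ (m j) := by
    intro j
    refine hi0inv _ fun γ hγ => ?_
    have hγ2 : (γ : G) ∈ q.ker := by
      have h1 := congrArg (fun z : P.map q => (z : G ⧸ N)) (MonoidHom.mem_ker.1 hγ)
      exact h1
    have h1 := hw0 γ j
    rw [hEx.ker _ hγ2, QASN_mv_one] at h1
    exact h1
  choose w hw using hex
  -- the representation of the quotient
  let s : (G ⧸ N) → G := Function.surjInv hEx.surj
  have hs : ∀ x, q (s x) = x := Function.surjInv_eq hEx.surj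
  let ρb : (G ⧸ N) → Matrix (Fin r) (Fin r) (ZMod p) := fun x => ρ (s x)
  have hρb : ∀ g, ρb (q g) = ρ g := by
    intro g
    have h1 : g⁻¹ * s (q g) ∈ q.ker := by
      rw [MonoidHom.mem_ker, map_mul, map_inv, hs, inv_mul_cancel]
    have h2 : s (q g) = g * (g⁻¹ * s (q g)) := by group
    change ρ (s (q g)) = ρ g
    rw [h2, hEx.mul, hEx.ker _ h1, mul_one]
  have hρbm : ∀ x y, ρb (x * y) = ρb x * ρb y := by
    intro x y
    obtain ⟨g, rfl⟩ := hEx.surj x
    obtain ⟨g', rfl⟩ := hEx.surj y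
    rw [← map_mul, hρb, hρb, hρb, hEx.mul]
  have hρb1 : ρb 1 = 1 := by rw [← map_one q, hρb, hEx.one]
  have hi0st : ∀ (g : P) (v : Fin r → Eb) (j : Fin r),
      i0 (stA (ρb ((qP g : P.map q) : G ⧸ N)) (fun x => qP g • x) v j) =
        QASN_mv (ρ g) (fun l => g • i0 (v l)) j := by
    intro g v j
    rw [QASN_stA, QASN_mv_map, hqPc, hρb]
    congr 1
    funext l
    exact (hi0a g (v l)).symm
  obtain ⟨f, h, hf, hh, hwfh⟩ := hQDenV k p r (G ⧸ N) (P.map q) ρb Bb Eb ιb hρbm hρb1 hBb hEb hιb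
    hιba w (fun g => by
      obtain ⟨g, rfl⟩ := hqP g
      funext j
      refine hi0inj ?_
      rw [hi0st, hw]
      have h1 : (fun l => g • i0 (w l)) = fun l => g • (y0 l ^ p - y0 l - ψ (m l)) := by
        funext l
        rw [hw]
      rw [h1, hw0])
  -- the torsor
  have hm' : ∀ g j, b g j ^ p - b g j = stA (ρ g) (fun x => q g • x) (fun l => m l + f l) j -
      (m j + f j) := by
    intro g j
    have h1 := congrFun (hf (q g)) j
    rw [hρb, QASN_stA] at h1
    rw [hm, QASN_stA, QASN_stA]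
    have h2 : (fun l => q g • (m l + f l)) = fun l => q g • m l + q g • f l := by
      funext l
      rw [smul_add]
    rw [h2, QASN_mv_add, h1]
    ring
  obtain ⟨BB, _, _, _, i, y, hBB, hial, hiinj, hia, hyst, hyrel, huni, hext, hinvN⟩ :=
    hQASN k[X] p r G (G ⧸ N) q ρ ν Bb b (fun l => m l + f l) hEx hBb hb hbn hm'
  obtain ⟨F, hF1, hF2⟩ := huni E ψ (fun j => y0 j - i0 (h j)) (by
    intro j
    have h1 := hw j
    have h2 := congrArg i0 (hwfh j)
    rw [map_add, map_sub, map_pow] at h2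
    have h3 : ψ (m j + f j) = ψ (m j) + i0 (ιb (f j)) := by rw [map_add]; rfl
    rw [h3, sub_pow_char]
    linear_combination h2 - h1)
  -- equivariance
  have hh' : ∀ (g : P) (j : Fin r), QASN_mv (ρ g) (fun l => g • i0 (h l)) j = i0 (h j) := by
    intro g j
    rw [← hi0st, hh]
  have hFa : ∀ (g : P) (z : BB), F ((g : G) • z) = g • F z := by
    intro g z
    have h1 : F.comp (MulSemiringAction.toRingHom G BB (g : G)) =
        (MulSemiringAction.toRingHom P E g).comp F := by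
      refine hext E _ _ (fun e => ?_) fun j => ?_
      · change F ((g : G) • i e) = g • F (i e)
        rw [hia, hF1, hF1, hψ]
      · change F ((g : G) • y j) = g • F (y j)
        have h2 : (fun l => F ((g : G) • y l)) = fun l => g • F (y l) := by
          refine QR2_cancel (ρ g) (ρ (g : G)⁻¹) (hρi g) _ _ ?_
          funext l
          rw [← QASN_mv_map F]
          have h3 := hyst g l
          rw [QASN_stA] at h3
          rw [h3, map_add, hF2, hF1]
          have h4 : (fun l => g • F (y l)) = fun l => g • y0 l - g • i0 (h l) := by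
            funext l
            rw [hF2, smul_sub]
          rw [h4, QASN_mv_sub, hh', hy0']
          ring
        exact congrFun h2 j
    exact congrArg (fun H : BB →+* E => H z) h1
  have hFalg : ∀ a : k[X], F (algebraMap k[X] BB a) = algebraMap (LaurentSeries k) E (atInf k a) := by
    intro a
    rw [← hial, hF1]
    change i0 (ιb (algebraMap k[X] Bb a)) = _
    rw [hιb, hi0]
  -- the component
  obtain ⟨G', B', _, _, _, q', ι', hPG, hB', hB'd, hq's, hq'alg, hq'a, hι'q, hι'inj, hNtop⟩ :=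
    hQComp k G BB E F P (MulSemiringAction.toRingAut P E) hBB
      (fun a a' haa => by
        simp only [hFalg] at haa
        exact E7_atInf_inj k (hE.inj haa))
      (fun g z => by
        rw [hFa]
        rfl)
  refine ⟨G', hPG, hNtop N hNn fun z z' hz hz' hzz => ?_, ?_⟩
  · obtain ⟨e, rfl⟩ := hinvN z (by rw [hker]; exact hz)
    obtain ⟨e', rfl⟩ := hinvN z' (by rw [hker]; exact hz')
    rw [← map_mul] at hzz
    have h1 : e * e' = 0 := hiinj (by rw [hzz, map_zero])
    rcases mul_eq_zero.1 h1 with h2 | h2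
    · left; rw [h2, map_zero]
    · right; rw [h2, map_zero]
  · let eP : P.subgroupOf G' ≃* P := Subgroup.subgroupOfEquivOfLe hPG
    have heP : ∀ g : P.subgroupOf G', ((eP g : P) : G) = ((g : G') : G) := fun g => rfl
    let instM : MulSemiringAction (P.subgroupOf G') E :=
      MulSemiringAction.compHom E eP.toMonoidHom
    have hsm : ∀ (g : P.subgroupOf G') (x : E), g • x = eP g • x := fun g x => rfl
    refine ⟨B', inferInstance, inferInstance, inferInstance, E, inferInstance, inferInstance,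
      instM, ι', hB', hB'd, ⟨?_, hE.inj, ?_, ?_⟩, hEd, ?_, ?_⟩
    · intro g a
      rw [hsm, hE.comm]
    · intro x hx
      refine hE.inv x fun g => ?_
      have h1 := hx (eP.symm g)
      rwa [hsm, eP.apply_symm_apply] at h1
    · intro σ hσ
      have h1 : eP σ ≠ 1 := fun h => hσ (eP.injective (by rw [h, map_one]))
      exact hE.unr (eP σ) h1
    · intro a
      rw [← hq'alg, hι'q, hFalg]
    · intro g z
      obtain ⟨z, rfl⟩ := hq's z
      rw [← hq'a, hι'q, hι'q, hsm, ← hFa, heP]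

end MP7b0bad

end

section

set_option autoImplicit false

namespace MP7b0bad

open Polynomial

/-! # Group Y: `r`-by-`p` blocks through tame covers of the `y`-line, `y^p - y = x^M` -/

/-! ## Tsen's theorem -/

/-- projective dimension theorem -/
def YProj : Prop := ∀ (k : Type) [Field k] [IsAlgClosed k] (m n : ℕ), m < n →
  ∀ (f : Fin m → MvPolynomial (Fin n) k) (d : Fin m → ℕ), (∀ i, 0 < d i) →
  (∀ i, (f i).IsHomogeneous (d i)) → ∃ x : Fin n → k, x ≠ 0 ∧ ∀ i, MvPolynomial.eval x (f i) = 0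

/-- Tsen's theorem for systems -/
def YTsen : Prop := ∀ (k : Type) [Field k] [IsAlgClosed k] (n N q : ℕ), 0 < q → n * q < N →
  ∀ f : Fin n → MvPolynomial (Fin N) (RatFunc k), (∀ i, (f i).IsHomogeneous q) →
  ∃ x : Fin N → RatFunc k, x ≠ 0 ∧ ∀ i, MvPolynomial.eval x (f i) = 0

/-- norms of cyclic extensions of prime degree are surjective -/
def YNorm : Prop := ∀ (k : Type) [Field k] [IsAlgClosed k] (L : Type) [Field L]
  [Algebra (RatFunc k) L] [FiniteDimensional (RatFunc k) L] (σ : L ≃ₐ[RatFunc k] L) (q : ℕ),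
  q.Prime → orderOf σ = q → ∀ a : L, a ≠ 0 → σ a = a →
  ∃ l : L, ∏ i ∈ Finset.range q, (σ ^ i) l = a

/-- Hilbert 90 -/
def YH90 : Prop := ∀ (Q : Type) [Group Q] [Finite Q] (L : Type) [Field L] [MulSemiringAction Q L],
  (∀ g : Q, g ≠ 1 → ∃ x : L, g • x ≠ x) → ∀ φ : Q → Lˣ,
  (∀ g h : Q, ((φ (g * h) : Lˣ) : L) = φ g * (g • ((φ h : Lˣ) : L))) →
  ∃ a : Lˣ, ∀ g : Q, g • (a : L) = φ g * a

/-- group extensions by `L^*` split -/
def YSplit : Prop := ∀ (k : Type) [Field k] [IsAlgClosed k] (L : Type) [Field L]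
  [Algebra (RatFunc k) L] [FiniteDimensional (RatFunc k) L] (Q : Type) [Group Q] [Finite Q]
  [MulSemiringAction Q L], Group.IsSolvable Q → (∀ g : Q, g ≠ 1 → ∃ x : L, g • x ≠ x) →
  (∀ (g : Q) (a : RatFunc k), g • algebraMap (RatFunc k) L a = algebraMap (RatFunc k) L a) →
  ∀ (E : Type) [Group E] (ι : Lˣ →* E) (π : E →* Q), Function.Injective ι →
  Function.Surjective π → (∀ e : E, π e = 1 ↔ e ∈ ι.range) →
  (∀ (e : E) (l l' : Lˣ), (l' : L) = π e • (l : L) → e * ι l * e⁻¹ = ι l') →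
  ∃ s : Q →* E, ∀ g, π (s g) = g

/-- crossed homomorphisms extending a character of the kernel -/
def YCross : Prop := ∀ (k : Type) [Field k] [IsAlgClosed k] (L : Type) [Field L]
  [Algebra (RatFunc k) L] [FiniteDimensional (RatFunc k) L] (A : Type) [Group A] [Finite A]
  [MulSemiringAction A L] (N : Subgroup A) [N.Normal], Group.IsSolvable A →
  (∀ n ∈ N, ∀ x : L, n • x = x) → (∀ g : A, g ∉ N → ∃ x : L, g • x ≠ x) →
  (∀ (g : A) (a : RatFunc k), g • algebraMap (RatFunc k) L a = algebraMap (RatFunc k) L a) →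
  ∀ χ : N →* Lˣ, (∀ (g : A) (n : N), g • ((χ n : Lˣ) : L) = χ n) →
  (∀ (g : A) (n n' : N), (n' : A) = g * n * g⁻¹ → χ n' = χ n) →
  ∃ φ : A → Lˣ, (∀ g h : A, ((φ (g * h) : Lˣ) : L) = φ g * (g • ((φ h : Lˣ) : L))) ∧
    ∀ n : N, φ n = χ n

/-! ## Towers over the `y`-line -/

/-- homomorphisms to Laurent series with prescribed value at `y` -/
def YEmb {k : Type} [Field k] {L : Type} [CommRing L] [Algebra (RatFunc k) L] (y : L)
    (u : LaurentSeries k) (j : L →+* LaurentSeries k) : Prop :=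
  (∀ c : k, j (algebraMap (RatFunc k) L (RatFunc.C c)) = HahnSeries.C c) ∧ j y = u

/-- `G`-Galois extension `L` of `k(z)` containing `y` with `y^p - y = z`, tamely ramified with
indices dividing `M` over `y ∈ F_p` and `y = ∞`, and unramified elsewhere over the `y`-line -/
structure YTow (k : Type) [Field k] (p M : ℕ) (G : Type) [Group G]
    (i : G →* Multiplicative (ZMod p)) (L : Type) [Field L] [Algebra (RatFunc k) L]
    [MulSemiringAction G L] (y : L) : Prop where
  gal : GalAlg (RatFunc k) G L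
  as : y ^ p - y = algebraMap (RatFunc k) L RatFunc.X
  tr : ∀ g : G, g • y = y + (((Multiplicative.toAdd (i g)).val : ℕ) : L)
  loc : ∀ y0 : k, y0 ^ p - y0 ≠ 0 → ∃ j : L →+* LaurentSeries k,
    YEmb y (HahnSeries.C y0 + HahnSeries.single (1 : ℤ) (1 : k)) j
  loc0 : ∃ j : L →+* LaurentSeries k, YEmb y (HahnSeries.single (M : ℤ) (1 : k)) j
  locI : ∃ j : L →+* LaurentSeries k, YEmb y (HahnSeries.single (-(M : ℤ)) (1 : k)) j

/-- roots of Laurent series -/
def YRoot : Prop := ∀ (k : Type) [Field k] [IsAlgClosed k] (r : ℕ), (r : k) ≠ 0 →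
  ∀ u : LaurentSeries k, u ≠ 0 → (r : ℤ) ∣ u.order → ∃ v : LaurentSeries k, v ^ r = u

/-- homomorphisms with the same value at `y` are conjugate -/
def YConj : Prop := ∀ (k : Type) [Field k] (p M : ℕ) [Fact p.Prime] [CharP k p] (G : Type)
  [Group G] [Finite G] (i : G →* Multiplicative (ZMod p)) (L : Type) [Field L]
  [Algebra (RatFunc k) L] [MulSemiringAction G L] (y : L), YTow k p M G i L y →
  ∀ (u : LaurentSeries k) (j j' : L →+* LaurentSeries k), YEmb y u j → YEmb y u j' →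
  ∃ a : G, i a = 1 ∧ ∀ x, j' x = j (a • x)

/-- translates of embeddings -/
def YTrans : Prop := ∀ (k : Type) [Field k] (p M : ℕ) [Fact p.Prime] [CharP k p] (G : Type)
  [Group G] (i : G →* Multiplicative (ZMod p)) (L : Type) [Field L]
  [Algebra (RatFunc k) L] [MulSemiringAction G L] (y : L), YTow k p M G i L y →
  ∀ (u : LaurentSeries k) (j : L →+* LaurentSeries k) (g : G), YEmb y u j →
  YEmb y (u + HahnSeries.C ((((Multiplicative.toAdd (i g)).val : ℕ) : k)))
    (j.comp (MulSemiringAction.toRingHom G L g))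

/-- adjusting by a polynomial in `y` -/
def YAdj : Prop := ∀ (k : Type) [Field k] [IsAlgClosed k] (p M r : ℕ) [Fact p.Prime] [CharP k p]
  (G : Type) [Group G] [Finite G] (i : G →* Multiplicative (ZMod p)) (L : Type) [Field L]
  [Algebra (RatFunc k) L] [MulSemiringAction G L] (y : L), YTow k p M G i L y → 0 < r →
  ∀ α : L, α ≠ 0 → (∀ a : G, i a = 1 → ∃ b : L, a • α = b ^ r * α) →
  ∃ h : k[X], h ≠ 0 ∧ ∀ y0 : k, y0 ^ p - y0 ≠ 0 → ∀ j : L →+* LaurentSeries k,
    YEmb y (HahnSeries.C y0 + HahnSeries.single (1 : ℤ) (1 : k)) j →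
    (r : ℤ) ∣ (j (α * h.eval₂ ((algebraMap (RatFunc k) L).comp RatFunc.C) y)).order

/-- the Kummer algebra -/
def YKum : Prop := ∀ (k : Type) [Field k] [IsAlgClosed k] (p r : ℕ) [Fact p.Prime] [CharP k p],
  r.Prime → r ≠ p → ∀ (G : Type) [Group G] [Finite G] (i : G →* Multiplicative (ZMod p)) (t : G),
  i t = Multiplicative.ofAdd 1 → t ^ p = 1 → ∀ (N : Subgroup G) [N.Normal], N ≤ i.ker → N ≠ ⊥ →
  (∀ n ∈ N, ∀ a ∈ i.ker, n * a = a * n) → (∀ n ∈ N, n ^ r = 1) →
  (∀ K : Subgroup G, K.Normal → K ≤ N → K = ⊥ ∨ K = N) →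
  ∀ (L : Type) [Field L] [Algebra (RatFunc k) L] [MulSemiringAction (G ⧸ N) L],
  GalAlg (RatFunc k) (G ⧸ N) L →
  ∀ (χ : N →* kˣ), χ ≠ 1 → ∀ (φ : i.ker → Lˣ),
  (∀ g h : i.ker, ((φ (g * h) : Lˣ) : L) = φ g * ((QuotientGroup.mk (g : G) : G ⧸ N) •
    ((φ h : Lˣ) : L))) →
  (∀ (n : N) (n' : i.ker), (n : G) = n' → ((φ n' : Lˣ) : L) =
    algebraMap (RatFunc k) L (RatFunc.C ((χ n : kˣ) : k))) →
  ∀ α : Lˣ, (∀ a : i.ker, (QuotientGroup.mk (a : G) : G ⧸ N) • (α : L) = (φ a : L) ^ r * α) →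
  ∃ (L' : Type) (_ : CommRing L') (_ : Algebra (RatFunc k) L') (_ : MulSemiringAction G L')
    (ι : L →+* L'), GalAlg (RatFunc k) G L' ∧ Function.Injective ι ∧
    (∀ a, ι (algebraMap (RatFunc k) L a) = algebraMap (RatFunc k) L' a) ∧
    (∀ (g : G) (x : L), g • ι x = ι ((QuotientGroup.mk g : G ⧸ N) • x)) ∧
    (∀ x : L', (∀ n ∈ N, n • x = x) → ∃ x', ι x' = x) ∧
    (∀ (T : Type) [CommRing T] (f : L →+* T) (b : ℕ → T),
      (∀ c, b c ^ r = f ((QuotientGroup.mk (t ^ c) : G ⧸ N) • (α : L))) →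
      ∃ F : L' →+* T, ∀ x, F (ι x) = f x) ∧
    ∃ (e : ZMod p → ℕ) (β : L'), (∃ c, ¬ r ∣ e c) ∧
      β ^ r = ι (∏ c : ZMod p, ((QuotientGroup.mk (t ^ c.val) : G ⧸ N) • (α : L)) ^ e c)

/-- components of Galois algebras over a field -/
def YComp : Prop := ∀ (F : Type) [Field F] (G : Type) [Group G] [Finite G] (C : Type) [CommRing C]
  [Algebra F C] [MulSemiringAction G C], GalAlg F G C → ∀ 𝔪 : Ideal C, 𝔪.IsPrime →
  ∃ (G₀ : Subgroup G) (E : Type) (_ : Field E) (_ : Algebra F E) (_ : MulSemiringAction G₀ E)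
    (π : C →+* E), (∀ g : G, g ∈ G₀ ↔ ∀ x : C, x ∈ 𝔪 ↔ g • x ∈ 𝔪) ∧ GalAlg F G₀ E ∧
    Function.Surjective π ∧ (∀ x, π x = 0 ↔ x ∈ 𝔪) ∧
    (∀ a, π (algebraMap F C a) = algebraMap F E a) ∧ (∀ (g : G₀) (x : C), π ((g : G) • x) = g • π x) ∧
    Module.finrank F E = Nat.card G₀ ∧ FiniteDimensional F E ∧
    (G₀ = ⊤ → IsField C ∧ IsDomain C) ∧
    (∀ 𝔪' : Ideal C, 𝔪'.IsPrime → ∃ g : G, ∀ x : C, x ∈ 𝔪' ↔ g • x ∈ 𝔪) ∧
    ∀ N : Subgroup G, N.Normal → (∀ x x' : C, (∀ n ∈ N, n • x = x) → (∀ n ∈ N, n • x' = x') →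
      x * x' = 0 → x = 0 ∨ x' = 0) → N ⊔ G₀ = ⊤

/-- the bottom of the tower -/
def YL0 : Prop := ∀ (k : Type) [Field k] [IsAlgClosed k] (p : ℕ) [Fact p.Prime] [CharP k p],
  ∃ (L : Type) (_ : Field L) (_ : Algebra (RatFunc k) L)
    (_ : MulSemiringAction (Multiplicative (ZMod p)) L) (y : L),
    YTow k p 1 (Multiplicative (ZMod p)) (MonoidHom.id _) L y

/-- transport of towers -/
def YIso : Prop := ∀ (k : Type) [Field k] (p M : ℕ) (G G' : Type) [Group G] [Group G']
  (ψ : G' ≃* G) (i : G →* Multiplicative (ZMod p)) (L : Type) [Field L] [Algebra (RatFunc k) L]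
  [MulSemiringAction G L] (y : L), YTow k p M G i L y →
  ∃ _ : MulSemiringAction G' L, YTow k p M G' (i.comp ψ.toMonoidHom) L y

/-- one step of the tower, without connectedness -/
def YStp : Prop := ∀ (k : Type) [Field k] [IsAlgClosed k] (p M r : ℕ) [Fact p.Prime] [CharP k p],
  r.Prime → r ≠ p → 0 < M → ∀ (G : Type) [Group G] [Finite G]
  (i : G →* Multiplicative (ZMod p)) (t : G),
  i t = Multiplicative.ofAdd 1 → t ^ p = 1 → ∀ (N : Subgroup G) [N.Normal] (hN : N ≤ i.ker),
  (∀ n ∈ N, ∀ a ∈ i.ker, n * a = a * n) → (∀ n ∈ N, n ^ r = 1) →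
  (∀ K : Subgroup G, K.Normal → K ≤ N → K = ⊥ ∨ K = N) →
  ∀ (L : Type) [Field L] [Algebra (RatFunc k) L] [MulSemiringAction (G ⧸ N) L] (y : L),
  YTow k p M (G ⧸ N) (QuotientGroup.lift N i hN) L y →
  ∀ (L' : Type) [Field L'] [Algebra (RatFunc k) L'] [MulSemiringAction G L'] (ι : L →+* L'),
  GalAlg (RatFunc k) G L' →
  (∀ a, ι (algebraMap (RatFunc k) L a) = algebraMap (RatFunc k) L' a) →
  (∀ (g : G) (x : L), g • ι x = ι ((QuotientGroup.mk g : G ⧸ N) • x)) →
  ∀ α : L, α ≠ 0 →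
  (∀ (T : Type) [CommRing T] (f : L →+* T) (b : ℕ → T),
      (∀ c, b c ^ r = f ((QuotientGroup.mk (t ^ c) : G ⧸ N) • α)) →
      ∃ F : L' →+* T, ∀ x, F (ι x) = f x) →
  (∀ y0 : k, y0 ^ p - y0 ≠ 0 → ∀ j : L →+* LaurentSeries k,
    YEmb y (HahnSeries.C y0 + HahnSeries.single (1 : ℤ) (1 : k)) j → (r : ℤ) ∣ (j α).order) →
  YTow k p (r * M) G i L' (ι y)

/-- Frattini steps of the tower -/
def YStep : Prop := ∀ (k : Type) [Field k] [IsAlgClosed k] (p M r : ℕ) [Fact p.Prime] [CharP k p],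
  r.Prime → r ≠ p → 0 < M → ∀ (G : Type) [Group G] [Finite G]
  (i : G →* Multiplicative (ZMod p)) (t : G),
  i t = Multiplicative.ofAdd 1 → t ^ p = 1 → IsPGroup r i.ker →
  ∀ (N : Subgroup G) [N.Normal] (hN : N ≤ i.ker), N ≠ ⊥ →
  (∀ n ∈ N, ∀ a ∈ i.ker, n * a = a * n) → (∀ n ∈ N, n ^ r = 1) →
  (∀ K : Subgroup G, K.Normal → K ≤ N → K = ⊥ ∨ K = N) →
  (∀ G₀ : Subgroup G, N ⊔ G₀ = ⊤ → G₀ = ⊤) →
  ∀ (L : Type) [Field L] [Algebra (RatFunc k) L] [MulSemiringAction (G ⧸ N) L] (y : L),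
  YTow k p M (G ⧸ N) (QuotientGroup.lift N i hN) L y →
  ∃ (L' : Type) (_ : Field L') (_ : Algebra (RatFunc k) L') (_ : MulSemiringAction G L') (y' : L'),
    YTow k p (r * M) G i L' y'

/-- the first step -/
def YBase : Prop := ∀ (k : Type) [Field k] [IsAlgClosed k] (p r : ℕ) [Fact p.Prime] [CharP k p]
  (G : Type) [Group G] [Finite G] (A : Subgroup G) (t : G), Blk p r G A ⊥ t →
  ∀ i : G →* Multiplicative (ZMod p), i.ker = A → i t = Multiplicative.ofAdd 1 →
  ∃ (L : Type) (_ : Field L) (_ : Algebra (RatFunc k) L) (_ : MulSemiringAction G L) (y : L),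
    YTow k p r G i L y

/-- group theory of blocks -/
def YGrp : Prop := ∀ (p r : ℕ) [Fact p.Prime] (G : Type) [Group G] [Finite G] (A Φ : Subgroup G)
  (t : G), Blk p r G A Φ t →
  (∃ i : G →* Multiplicative (ZMod p), i.ker = A ∧ i t = Multiplicative.ofAdd 1) ∧
  (Φ ≠ ⊥ → ∃ (N : Subgroup G) (_ : N.Normal), N ≠ ⊥ ∧ N ≤ Φ ∧
    (∀ n ∈ N, ∀ a ∈ A, n * a = a * n) ∧ (∀ n ∈ N, n ^ r = 1) ∧
    (∀ K : Subgroup G, K.Normal → K ≤ N → K = ⊥ ∨ K = N) ∧
    (∀ G₀ : Subgroup G, N ⊔ G₀ = ⊤ → G₀ = ⊤) ∧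
    Blk p r (G ⧸ N) (A.map (QuotientGroup.mk' N)) (Φ.map (QuotientGroup.mk' N))
      (QuotientGroup.mk' N t)) ∧
  (Φ = ⊥ → (∀ n ∈ A, ∀ a ∈ A, n * a = a * n) ∧ (∀ n ∈ A, n ^ r = 1) ∧
    ∀ K : Subgroup G, K.Normal → K ≤ A → K = ⊥ ∨ K = A)

/-- existence of towers -/
def YInd : Prop := ∀ (k : Type) [Field k] [IsAlgClosed k] (p r : ℕ) [Fact p.Prime] [CharP k p]
  (G : Type) [Group G] [Finite G] (A Φ : Subgroup G) (t : G), Blk p r G A Φ t →
  ∀ i : G →* Multiplicative (ZMod p), i.ker = A → i t = Multiplicative.ofAdd 1 →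
  ∃ (s : ℕ) (L : Type) (_ : Field L) (_ : Algebra (RatFunc k) L) (_ : MulSemiringAction G L)
    (y : L), YTow k p (r ^ s) G i L y

/-! ## From the `y`-line to the `x`-line -/

/-- base change `z = x^M` -/
def YPull : Prop := ∀ (k : Type) [Field k] [IsAlgClosed k] (p M : ℕ) [Fact p.Prime] [CharP k p],
  ¬ p ∣ M → ∀ (G : Type) [Group G] [Finite G] (L : Type) [Field L] [Algebra (RatFunc k) L]
  [MulSemiringAction G L], GalAlg (RatFunc k) G L →
  (∀ H : Subgroup G, H.Normal → ¬ p ∣ H.index → H = ⊤) →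
  ∀ (ψ : RatFunc k →+* RatFunc k), (∀ c, ψ (RatFunc.C c) = RatFunc.C c) →
  ψ RatFunc.X = RatFunc.X ^ M →
  ∃ (Lx : Type) (_ : Field Lx) (_ : Algebra (RatFunc k) Lx) (_ : MulSemiringAction G Lx)
    (q : L →+* Lx), GalAlg (RatFunc k) G Lx ∧
    (∀ a, q (algebraMap (RatFunc k) L a) = algebraMap (RatFunc k) Lx (ψ a)) ∧
    (∀ (g : G) (x : L), q (g • x) = g • q x) ∧
    ∀ (T : Type) [CommRing T] (f : L →+* T) (h : RatFunc k →+* T),
      (∀ a, f (algebraMap (RatFunc k) L a) = h (ψ a)) →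
      ∃ F : Lx →+* T, (∀ x, F (q x) = f x) ∧ ∀ a, F (algebraMap (RatFunc k) Lx a) = h a

/-- evaluation of rational functions -/
def YEv : Prop := ∀ (k : Type) [Field k] (T : Type) [Field T] (c : k →+* T) (u : T),
  (∀ f : k[X], f ≠ 0 → f.eval₂ c u ≠ 0) →
  (∃ h : RatFunc k →+* T, (∀ a, h (RatFunc.C a) = c a) ∧ h RatFunc.X = u) ∧
  ∀ h h' : RatFunc k →+* T, (∀ a, h (RatFunc.C a) = h' (RatFunc.C a)) →
    h RatFunc.X = h' RatFunc.X → h = h'

/-- local parameters -/
def YPar : Prop := ∀ (k : Type) [Field k] [IsAlgClosed k] (p M : ℕ) [Fact p.Prime] [CharP k p],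
  ¬ p ∣ M →
  (∀ x0 y0 : k, x0 ≠ 0 → y0 ^ p - y0 = x0 ^ M → ∃ g : LaurentSeries k, g.coeff 1 ≠ 0 ∧
    (∀ m : ℤ, m < 1 → g.coeff m = 0) ∧
    (HahnSeries.C y0 + g) ^ p - (HahnSeries.C y0 + g) =
      (HahnSeries.C x0 + HahnSeries.single (1 : ℤ) (1 : k)) ^ M) ∧
  (∃ g : LaurentSeries k, g.coeff 1 ≠ 0 ∧ (∀ m : ℤ, m < 1 → g.coeff m = 0) ∧
    (g ^ M) ^ p - g ^ M = (HahnSeries.single (1 : ℤ) (1 : k)) ^ M) ∧
  ∃ u : LaurentSeries k, u ≠ 0 ∧ u.order = -(p : ℤ) ∧
    (HahnSeries.single (-(M : ℤ)) (1 : k)) ^ p - HahnSeries.single (-(M : ℤ)) (1 : k) = u ^ M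

/-- local embeddings over the `x`-line -/
def YLocX : Prop := ∀ (k : Type) [Field k] [IsAlgClosed k] (p M : ℕ) [Fact p.Prime] [CharP k p],
  ¬ p ∣ M → ∀ (G : Type) [Group G] [Finite G] (i : G →* Multiplicative (ZMod p))
  (L : Type) [Field L] [Algebra (RatFunc k) L] [MulSemiringAction G L] (y : L),
  YTow k p M G i L y → ∀ (ψ : RatFunc k →+* RatFunc k), (∀ c, ψ (RatFunc.C c) = RatFunc.C c) →
  ψ RatFunc.X = RatFunc.X ^ M → ∀ (Lx : Type) [Field Lx] [Algebra (RatFunc k) Lx]
  (q : L →+* Lx), (∀ a, q (algebraMap (RatFunc k) L a) = algebraMap (RatFunc k) Lx (ψ a)) →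
  (∀ (T : Type) [CommRing T] (f : L →+* T) (h : RatFunc k →+* T),
      (∀ a, f (algebraMap (RatFunc k) L a) = h (ψ a)) →
      ∃ F : Lx →+* T, (∀ x, F (q x) = f x) ∧ ∀ a, F (algebraMap (RatFunc k) Lx a) = h a) →
  (∀ x0 : k, ∃ j : Lx →+* LaurentSeries k, YEmb (algebraMap (RatFunc k) Lx RatFunc.X)
    (HahnSeries.C x0 + HahnSeries.single (1 : ℤ) (1 : k)) j) ∧
  ∃ (u : LaurentSeries k) (j : Lx →+* LaurentSeries k), u ≠ 0 ∧ u.order = -(p : ℤ) ∧
    YEmb (algebraMap (RatFunc k) Lx RatFunc.X) u j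

/-- étale algebras from local embeddings -/
def YEt : Prop := ∀ (k : Type) [Field k] [IsAlgClosed k] (G : Type) [Group G] [Finite G]
  (F : Type) [Field F] [Algebra (RatFunc k) F] [MulSemiringAction G F],
  GalAlg (RatFunc k) G F →
  (∀ x0 : k, ∃ j : F →+* LaurentSeries k, YEmb (algebraMap (RatFunc k) F RatFunc.X)
    (HahnSeries.C x0 + HahnSeries.single (1 : ℤ) (1 : k)) j) →
  ∃ (B : Type) (_ : CommRing B) (_ : Algebra k[X] B) (_ : MulSemiringAction G B) (ι : B →+* F),
    GalAlg k[X] G B ∧ IsDomain B ∧ Function.Injective ι ∧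
    (∀ a : k[X], ι (algebraMap k[X] B a) =
      algebraMap (RatFunc k) F (algebraMap k[X] (RatFunc k) a)) ∧
    (∀ (g : G) (b : B), ι (g • b) = g • ι b) ∧
    ∀ (x : F) (n : ℕ) (c : Fin n → k[X]), 0 < n →
      x ^ n + ∑ l, algebraMap (RatFunc k) F (algebraMap k[X] (RatFunc k) (c l)) * x ^ (l : ℕ) = 0 →
      ∃ b, ι b = x

/-- the degree of `k((s))` over `k((g))` -/
def YDim : Prop := ∀ (k : Type) [Field k] (σ : LaurentSeries k →+* LaurentSeries k) (n : ℕ),
  0 < n → (∀ c, σ (HahnSeries.C c) = HahnSeries.C c) →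
  (∀ a, a ≠ 0 → σ a ≠ 0 ∧ (σ a).order = n * a.order) →
  ∀ f : LaurentSeries k, ∃ h : Fin n → LaurentSeries k,
    f = ∑ l, σ (h l) * HahnSeries.single ((l : ℕ) : ℤ) (1 : k)

/-- the inertia group at infinity -/
def YInf : Prop := ∀ (k : Type) [Field k] [IsAlgClosed k] (p M : ℕ) [Fact p.Prime] [CharP k p],
  ¬ p ∣ M → ∀ (G : Type) [Group G] [Finite G] (P : Subgroup G), Nat.card P = p →
  ¬ p ^ 2 ∣ Nat.card G → ∀ (B : Type) [CommRing B] [Algebra k[X] B] [MulSemiringAction G B],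
  GalAlg k[X] G B → IsDomain B → (∃ y : B, y ^ p - y = algebraMap k[X] B (X ^ M)) →
  ∀ (u : LaurentSeries k) (j : B →+* LaurentSeries k), u ≠ 0 → u.order = -(p : ℤ) →
  (∀ c, j (algebraMap k[X] B (C c)) = HahnSeries.C c) → j (algebraMap k[X] B X) = u →
  Rel k G P

/-- blocks -/
def YBlk : Prop := ∀ (k : Type) [Field k] [IsAlgClosed k] (p : ℕ) [Fact p.Prime] [CharP k p]
  (G : Type) [Group G] [Finite G] (r : ℕ) (A Φ : Subgroup G) (t : G), Blk p r G A Φ t →
  Rel k G (Subgroup.zpowers t)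

/-- the purely wild inertia conjecture for `p`-solvable groups -/
def YMain : Prop := ∀ (k : Type) [Field k] [IsAlgClosed k] (p : ℕ) [Fact p.Prime] [CharP k p]
  (G : Type) [Group G] [Finite G] (P : Subgroup G), PSol p G → IsPGroup p P →
  Subgroup.normalClosure (P : Set G) = ⊤ → Occurs k G P

end MP7b0bad

end

section

set_option autoImplicit false

namespace MP7b0bad

theorem all_QASN : QASN := prf_QASN
theorem all_QASX : QASX := prf_QASX prf_B1 all_B2 prf_B4 all_B8
theorem all_QB1 : QB1 := prf_QB1 prf_QGL prf_QFree prf_QP2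
theorem all_QB2 : QB2 := prf_QB2 prf_QGL prf_QFree prf_QP1 prf_QC2a prf_QVad
theorem all_QBC : QBC := prf_QBC
theorem all_QC2a : QC2a := prf_QC2a
theorem all_QC2b : QC2b := prf_QC2b
theorem all_QC2c : QC2c := prf_QC2c all_QC2a all_QC2b prf_QVad
theorem all_QComp : QComp := prf_QComp
theorem all_QD3 : QD3 := prf_QD3 all_QB1 prf_QP2
theorem all_QDF : QDF := prf_QDF
theorem all_QDenT : QDenT := prf_QDenT prf_QSm0
theorem all_QDenk : QDenk := prf_QDenk prf_QSm0
theorem all_QDiscs : QDiscs := prf_QDiscs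
theorem all_QDomB : QDomB := prf_QDomB prf_QGL prf_QFree
theorem all_QEL : QEL := prf_QEL
theorem all_QELN : QELN := prf_QELN
theorem all_QF1 : QF1 := prf_QF1 prf_QFree
theorem all_QF7 : QF7 := prf_QF7
theorem all_QFree : QFree := prf_QFree
theorem all_QGL : QGL := prf_QGL
theorem all_QHP7L : QHP7L := prf_QHP7L all_QASX all_B7
theorem all_QHP8L : QHP8L := prf_QHP8L all_QHP7L prf_QHQL prf_QIso
theorem all_QHQL : QHQL := prf_QHQL
theorem all_QIdem : QIdem := prf_QIdem
theorem all_QIso : QIso := prf_QIso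
theorem all_QLL : QLL := prf_QLL all_QEL all_QASX prf_QSm0
theorem all_QLat : QLat := prf_QLat all_QGL
theorem all_QLoc : QLoc := prf_QLoc
theorem all_QOTS : QOTS := prf_QOTS all_QEL all_QASX all_QLoc
theorem all_QP1 : QP1 := prf_QP1
theorem all_QP2 : QP2 := prf_QP2
theorem all_QPsi : QPsi := prf_QPsi
theorem all_QQuo : QQuo := prf_QQuo
theorem all_QSF : QSF := prf_QSF
theorem all_QSTN : QSTN := prf_QSTN
theorem all_QSm0 : QSm0 := prf_QSm0
theorem all_QSmall : QSmall := prf_QSmall all_QLat all_QGL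
theorem all_QSpr : QSpr := prf_QSpr all_QFree
theorem all_QSub : QSub := prf_QSub
theorem all_QT1 : QT1 := prf_QT1
theorem all_QTN : QTN := prf_QTN
theorem all_QTR : QTR := prf_QTR all_B7
theorem all_QTRk : QTRk := prf_QTRk
theorem all_QTen : QTen := prf_QTen
theorem all_QTenG : QTenG := prf_QTenG
theorem all_QTh : QTh := prf_QTh all_QGL all_QC2a all_QC2c all_QB2 all_QP1
theorem all_QTrunc : QTrunc := prf_QTrunc all_QLat
theorem all_QV1 : QV1 := prf_QV1 all_QB2
theorem all_QV2 : QV2 := prf_QV2 all_QB1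
theorem all_QV3 : QV3 := prf_QV3 all_QV1 all_QV2
theorem all_QV4R : QV4R := prf_QV4R all_QP2
theorem all_QV4S : QV4S := prf_QV4S all_QP1
theorem all_QV5 : QV5 := prf_QV5 all_QT1 all_QV3 all_QV4R all_QV4S
theorem all_QVad : QVad := prf_QVad
theorem all_QASL : QASL := prf_QASL all_QLat
theorem all_QCBG : QCBG :=
  prf_QCBG all_QBC all_QIdem all_QGL all_QFree all_QLat all_QTrunc all_QSmall
theorem all_QCInf : QCInf := prf_QCInf all_QLat all_QTrunc all_QSmall all_QFree
theorem all_QDenV : QDenV := prf_QDenV all_QBC all_QGL all_QFree all_QLat all_QASL all_QSF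
theorem all_QDes : QDes := prf_QDes all_QSpr all_QBC
theorem all_QGeo : QGeo := prf_QGeo all_QBC all_QGL all_QTR
theorem all_QIdS : QIdS := prf_QIdS all_QLat all_QASL all_QTN all_QFree
theorem all_QOTG : QOTG := prf_QOTG all_QOTS
theorem all_QOcc : QOcc := prf_QOcc all_QF1 all_QCBG all_QTRk all_QF7
theorem all_QOuter : QOuter := prf_QOuter all_QOTG all_QDenT all_QDF all_QBC all_QTR
theorem all_QR2 : QR2 := prf_QR2 all_QLL all_QELN all_QASN all_QDenV all_QComp all_QSub
theorem all_QS3 : QS3 := prf_QS3 all_QTh all_QP1 all_QC2c all_QVad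
theorem all_QT4 : QT4 := prf_QT4 all_QTh
theorem all_QV6 : QV6 := prf_QV6 all_QS3 all_QD3
theorem all_QV7 : QV7 := prf_QV7 all_QS3 all_QD3 all_QC2a
theorem all_QCR : QCR :=
  prf_QCR all_QBC all_QSub all_QSTN all_QIdS all_QTN all_QQuo all_QDomB all_QTR
theorem all_QCertK : QCertK := prf_QCertK all_QTen all_QTenG all_QBC all_QIdem all_QCInf all_QGeo
theorem all_QKG : QKG := prf_QKG all_QOTG all_QDenk
theorem all_QLocD : QLocD := prf_QLocD all_QKG all_QPsi all_QBC all_QDF
theorem all_QPT : QPT := prf_QPT all_QT1 all_QT4 all_QV5 all_QV6 all_QV7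
theorem all_QR1 : QR1 :=
  prf_QR1 all_QDiscs all_QDF all_QLocD all_QOuter all_QPT all_QCertK all_QDes all_QCR
theorem all_QRP : QRP := prf_QRP all_QLL all_QKG

end MP7b0bad

end

section

/-! # MP_7b0bad_ag, item GB (helper71): `p`-solvable groups -/

set_option autoImplicit false

namespace MP7b0bad

open Subgroup

theorem GB_ncl {G : Type} [Group G] (H P' : Subgroup G) (hPH : P' ≤ H) (hn : nclIn H P' = H) :
    normalClosure ((P'.subgroupOf H : Subgroup H) : Set H) = ⊤ := by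
  have h2 : nclIn H P' ≤ (normalClosure ((P'.subgroupOf H : Subgroup H) : Set H)).map H.subtype := by
    rw [nclIn, Subgroup.closure_le]
    rintro g ⟨x, hx, q, hq, rfl⟩
    refine ⟨⟨x, hx⟩ * ⟨q, hPH hq⟩ * ⟨x, hx⟩⁻¹, ?_, rfl⟩
    exact Subgroup.normalClosure_normal.conj_mem _
      (Subgroup.subset_normalClosure (Subgroup.mem_subgroupOf.2 hq)) _
  rw [eq_top_iff]
  rintro ⟨h, hh⟩ -
  obtain ⟨y, hy, he⟩ := h2 (hn.symm ▸ hh)
  have : y = ⟨h, hh⟩ := Subtype.ext he
  rwa [← this]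

theorem GB_card {G : Type} [Group G] [Finite G] (H : Subgroup G) (hH : H ≠ ⊤) :
    Nat.card H < Nat.card G :=
  lt_of_le_of_ne (Subgroup.card_le_card_group H) fun h => hH (Subgroup.eq_top_of_card_eq H h)

/-- the induction hypothesis gives the statement for proper subgroups -/
theorem GB_zero {p : ℕ} [Fact p.Prime] (R : ∀ (G : Type) [Group G], Subgroup G → Prop)
    (hGPS : GPS) {G : Type} [Group G] [Finite G] (P : Subgroup G) (hS : PSol p G)
    (hP : IsPGroup p P)
    (IH : ∀ (G' : Type) [Group G'] [Finite G'], Nat.card G' < Nat.card G →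
      ∀ P' : Subgroup G', PSol p G' → IsPGroup p P' →
      normalClosure (P' : Set G') = ⊤ → R G' P')
    (H P' : Subgroup G) (hH : H ≠ ⊤) (hP' : P' ≤ P) (hPH : P' ≤ H) (hn : nclIn H P' = H) :
    RH R P H :=
  ⟨P', hP', hPH, IH H (GB_card H hH) (P'.subgroupOf H) ((hGPS p G hS).1 H)
    ((hP.to_le hP').comap_subtype) (GB_ncl H P' hPH hn)⟩

/-- minimal normal `p`-subgroups are elementary abelian -/
theorem GB_elem {p : ℕ} [hp : Fact p.Prime] {G : Type} [Group G] [Finite G] (N : Subgroup G)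
    (hN : N.Normal) (hNp : IsPGroup p N) (hN1 : N ≠ ⊥)
    (hmin : ∀ X : Subgroup G, X.Normal → X ≤ N → X ≠ ⊥ → X = N) :
    (∀ a ∈ N, a ^ p = 1) ∧ (∀ a ∈ N, ∀ b ∈ N, a * b = b * a) := by
  let W : Subgroup G :=
    { carrier := {a | a ∈ N ∧ (∀ b ∈ N, a * b = b * a) ∧ a ^ p = 1}
      one_mem' := ⟨N.one_mem, by simp, by simp⟩
      mul_mem' := by
        rintro a b ⟨ha, ha2, ha3⟩ ⟨hb, hb2, hb3⟩
        refine ⟨N.mul_mem ha hb, fun c hc => ?_, ?_⟩
        · rw [mul_assoc, hb2 c hc, ← mul_assoc, ha2 c hc, mul_assoc]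
        · have : Commute a b := ha2 b hb
          rw [this.mul_pow, ha3, hb3, one_mul]
      inv_mem' := by
        rintro a ⟨ha, ha2, ha3⟩
        refine ⟨N.inv_mem ha, fun c hc => ?_, ?_⟩
        · have : Commute a c := ha2 c hc
          exact this.inv_left
        · rw [inv_pow, ha3, inv_one] }
  have hWn : W.Normal := by
    refine ⟨fun a ha g => ?_⟩
    obtain ⟨ha, ha2, ha3⟩ := ha
    refine ⟨hN.conj_mem a ha g, fun b hb => ?_, ?_⟩
    · have h1 := ha2 (g⁻¹ * b * g) (by simpa using hN.conj_mem b hb g⁻¹)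
      calc g * a * g⁻¹ * b = g * (a * (g⁻¹ * b * g)) * g⁻¹ := by group
        _ = g * ((g⁻¹ * b * g) * a) * g⁻¹ := by rw [h1]
        _ = b * (g * a * g⁻¹) := by group
    · rw [conj_pow, ha3]; group
  have hW1 : W ≠ ⊥ := by
    have : Nontrivial N := (Subgroup.nontrivial_iff_ne_bot N).2 hN1
    have h1 : Nontrivial (center N) := hNp.center_nontrivial
    have h2 : IsPGroup p (center N) := hNp.to_subgroup _
    obtain ⟨n, hn, hc⟩ := h2.nontrivial_iff_card.1 h1
    have h3 : p ∣ Nat.card (center N) := by rw [hc]; exact dvd_pow_self p hn.ne'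
    obtain ⟨x, hx⟩ := exists_prime_orderOf_dvd_card' p h3
    intro hbot
    have h4 : (((x : N) : G)) ∈ W := by
      refine ⟨(x : N).2, fun b hb => ?_, ?_⟩
      · have := (Subgroup.mem_center_iff.1 x.2) ⟨b, hb⟩
        exact (congrArg Subtype.val this).symm
      · have h5 : x ^ p = 1 := by rw [← hx]; exact pow_orderOf_eq_one x
        have h6 : ((x : N)) ^ p = 1 := by
          have := congrArg Subtype.val h5
          simpa using this
        have := congrArg Subtype.val h6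
        simpa using this
    rw [hbot, Subgroup.mem_bot] at h4
    have h7 : x = 1 := Subtype.ext (Subtype.ext h4)
    rw [h7, orderOf_one] at hx
    exact hp.out.one_lt.ne hx
  have hWN : W = N := hmin W hWn (fun a ha => ha.1) hW1
  constructor
  · intro a ha
    rw [← hWN] at ha
    exact ha.2.2
  · intro a ha b hb
    rw [← hWN] at ha
    exact ha.2.1 b hb

/-- a `p`-group acting on a nontrivial normal `p`-subgroup has a nontrivial fixed point -/
theorem GB_fix {p : ℕ} [hp : Fact p.Prime] {G : Type} [Group G] [Finite G] (N P : Subgroup G)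
    [hN : N.Normal] (hNp : IsPGroup p N) (hN1 : N ≠ ⊥) (hP : IsPGroup p P) :
    ∃ n ∈ N, n ≠ 1 ∧ ∀ q ∈ P, n * q = q * n := by
  letI : MulAction P N := MulAction.compHom N ((MulAut.conjNormal (H := N)).comp P.subtype)
  have hact : ∀ (q : P) (x : N), ((q • x : N) : G) = (q : G) * (x : G) * (q : G)⁻¹ := by
    intro q x
    rfl
  have hnt : Nontrivial N := (Subgroup.nontrivial_iff_ne_bot N).2 hN1
  obtain ⟨n, hn, hc⟩ := hNp.nontrivial_iff_card.1 hnt
  have h3 : p ∣ Nat.card N := by rw [hc]; exact dvd_pow_self p hn.ne'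
  have h1 : (1 : N) ∈ MulAction.fixedPoints P N := by
    intro q
    apply Subtype.ext
    rw [hact]
    simp
  obtain ⟨b, hb, hne⟩ := hP.exists_fixed_point_of_prime_dvd_card_of_fixed_point N h3 h1
  refine ⟨b, b.2, fun h => hne (Subtype.ext h.symm), fun q hq => ?_⟩
  have h4 := congrArg Subtype.val (hb ⟨q, hq⟩)
  rw [hact] at h4
  have h5 : q * (b : G) * q⁻¹ = b := h4
  calc (b : G) * q = q * (b : G) * q⁻¹ * q := by rw [h5]
    _ = q * b := by group

/-- case 1 -/
theorem GB_case1 (hGJoin : GJoin) (hGConj : GConj) (hGPS : GPS) {p : ℕ} [hp : Fact p.Prime]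
    (R : ∀ (G : Type) [Group G], Subgroup G → Prop) (hR : RelAx p R)
    {G : Type} [Group G] [Finite G] (P : Subgroup G) (hS : PSol p G) (hP : IsPGroup p P)
    (hcl : normalClosure (P : Set G) = ⊤)
    (IH : ∀ (G' : Type) [Group G'] [Finite G'], Nat.card G' < Nat.card G →
      ∀ P' : Subgroup G', PSol p G' → IsPGroup p P' →
      normalClosure (P' : Set G') = ⊤ → R G' P')
    (hJ : sSup {H : Subgroup G | RH R P H} ≠ ⊤)
    (K : Subgroup G) (hK : K.Normal) (hKp : IsPGroup p K) (hK1 : K ≠ ⊥) : R G P := by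
  obtain ⟨N, hN⟩ := (Set.toFinite {N : Subgroup G | N.Normal ∧ N ≠ ⊥ ∧ N ≤ K}).exists_minimal
    ⟨K, hK, hK1, le_rfl⟩
  obtain ⟨⟨hNn, hN1, hNK⟩, hNmin⟩ := hN
  have hmin : ∀ X : Subgroup G, X.Normal → X ≤ N → X ≠ ⊥ → X = N := fun X hX hXN hX1 =>
    le_antisymm hXN (hNmin ⟨hX, hX1, hXN.trans hNK⟩ hXN)
  have hNp : IsPGroup p N := hKp.to_le hNK
  obtain ⟨hexp, hcomm⟩ := GB_elem N hNn hNp hN1 hmin
  have hcard : Nat.card (G ⧸ N) < Nat.card G := by
    have h1 : N.index * Nat.card N = Nat.card G := by rw [mul_comm]; exact N.card_mul_index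
    have h2 : 1 < Nat.card N := by
      have : Nontrivial N := (Subgroup.nontrivial_iff_ne_bot N).2 hN1
      exact Finite.one_lt_card
    have h3 : 0 < N.index := Nat.pos_of_ne_zero N.index_ne_zero_of_finite
    change N.index < _
    rw [← h1]
    exact lt_mul_of_one_lt_right h3 h2
  have hq : R (G ⧸ N) (P.map (QuotientGroup.mk' N)) := by
    apply IH (G ⧸ N) hcard _ ((hGPS p G hS).2 N) (hP.map _)
    have h1 := Subgroup.map_normalClosure (P : Set G) (QuotientGroup.mk' N)
      (QuotientGroup.mk'_surjective N)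
    rw [hcl, Subgroup.map_top_of_surjective _ (QuotientGroup.mk'_surjective N)] at h1
    rw [Subgroup.coe_map]
    exact h1.symm
  obtain ⟨G', hPG', hNG', hRG'⟩ := hR.emb G N P hP hexp hcomm hq
  by_cases ht : G' = ⊤
  · subst ht
    exact (hGConj p R hR G P).2.1 hRG'
  exfalso
  set J : Subgroup G := sSup {H : Subgroup G | RH R P H} with hJdef
  have hRH' : RH R P G' := ⟨P, le_rfl, hPG', hRG'⟩
  have hG'J : G' ≤ J := le_sSup hRH'
  -- decomposition
  have hdec : ∀ x : G, ∃ n ∈ N, ∃ g ∈ G', x = n * g := fun x =>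
    GR3_mem N G' (fun q _ a ha => hNn.conj_mem a ha q) x (hNG' ▸ Subgroup.mem_top x)
  have hJN : J ⊓ N = ⊥ := by
    by_contra hne
    have hnorm : (J ⊓ N).Normal := by
      refine ⟨fun a ha x => ?_⟩
      obtain ⟨n, hn, g, hg, rfl⟩ := hdec x
      have h1 : g * a * g⁻¹ ∈ J ⊓ N :=
        ⟨J.mul_mem (J.mul_mem (hG'J hg) ha.1) (J.inv_mem (hG'J hg)), hNn.conj_mem a ha.2 g⟩
      have h2 : n * g * a * (n * g)⁻¹ = n * (g * a * g⁻¹) * n⁻¹ := by group
      have h3 : n * (g * a * g⁻¹) = (g * a * g⁻¹) * n := hcomm n hn _ h1.2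
      rw [h2, h3, mul_inv_cancel_right]
      exact h1
    have h4 := hmin (J ⊓ N) hnorm inf_le_right hne
    apply hJ
    rw [eq_top_iff, ← hNG']
    exact sup_le (h4 ▸ inf_le_left) hG'J
  have hJG' : J = G' := by
    refine le_antisymm (fun x hx => ?_) hG'J
    obtain ⟨n, hn, g, hg, rfl⟩ := hdec x
    have h1 : n ∈ J ⊓ N := by
      refine ⟨?_, hn⟩
      have := J.mul_mem hx (J.inv_mem (hG'J hg))
      rwa [mul_inv_cancel_right] at this
    rw [hJN, Subgroup.mem_bot] at h1
    rw [h1, one_mul]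
    exact hg
  have hG'N : ∀ x, x ∈ G' → x ∈ N → x = 1 := by
    intro x hx hx'
    have : x ∈ J ⊓ N := ⟨hG'J hx, hx'⟩
    rwa [hJN, Subgroup.mem_bot] at this
  obtain ⟨n, hnN, hn1, hnP⟩ := GB_fix N P hNp hN1 hP
  have h1 : RH R P (G'.map (MulAut.conj n).toMonoidHom) := (hGConj p R hR G P).1 n G' hnP hRH'
  have h2 : G'.map (MulAut.conj n).toMonoidHom ≤ G' := by
    have : G'.map (MulAut.conj n).toMonoidHom ≤ J := le_sSup h1
    rwa [hJG'] at this
  have hng : ∀ g ∈ G', n * g = g * n := by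
    intro g hg
    have h3 : n * g * n⁻¹ ∈ G' := h2 ⟨g, hg, rfl⟩
    have h4 : n * g * n⁻¹ * g⁻¹ ∈ G' := G'.mul_mem h3 (G'.inv_mem hg)
    have h5 : n * g * n⁻¹ * g⁻¹ ∈ N := by
      have : n * g * n⁻¹ * g⁻¹ = n * (g * n⁻¹ * g⁻¹) := by group
      rw [this]
      exact N.mul_mem hnN (hNn.conj_mem _ (N.inv_mem hnN) g)
    have h6 := hG'N _ h4 h5
    calc n * g = (n * g * n⁻¹ * g⁻¹) * (g * n) := by group
      _ = g * n := by rw [h6, one_mul]
  have hnc : ∀ x : G, x * n = n * x := by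
    intro x
    obtain ⟨m, hm, g, hg, rfl⟩ := hdec x
    rw [mul_assoc, ← hng g hg, ← mul_assoc, hcomm m hm n hnN, mul_assoc]
  have hzn : (zpowers n).Normal := by
    refine ⟨fun a ha x => ?_⟩
    obtain ⟨k, rfl⟩ := ha
    have : Commute x n := hnc x
    have h3 : x * n ^ k * x⁻¹ = n ^ k := by
      rw [(this.zpow_right k).eq, mul_inv_cancel_right]
    simp only
    rw [h3]
    exact ⟨k, rfl⟩
  have hzN : zpowers n = N := by
    apply hmin _ hzn
    · rw [Subgroup.zpowers_le]; exact hnN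
    · rw [ne_eq, Subgroup.zpowers_eq_bot]; exact hn1
  have hNc : ∀ m ∈ N, ∀ x : G, x * m = m * x := by
    intro m hm x
    rw [← hzN] at hm
    obtain ⟨k, rfl⟩ := hm
    have : Commute x n := hnc x
    exact (this.zpow_right k).eq
  have hG'n : G'.Normal := by
    refine ⟨fun a ha x => ?_⟩
    obtain ⟨m, hm, g, hg, rfl⟩ := hdec x
    have h3 : m * g * a * (m * g)⁻¹ = m * (g * a * g⁻¹) * m⁻¹ := by group
    rw [h3, ← hNc m hm (g * a * g⁻¹), mul_inv_cancel_right]
    exact G'.mul_mem (G'.mul_mem hg ha) (G'.inv_mem hg)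
  apply ht
  rw [eq_top_iff, ← hcl]
  exact Subgroup.normalClosure_le_normal hPG'

/-- case 2 -/
theorem GB_case2 (hGJoin : GJoin) (hGConj : GConj) (hGCop : GCop) (hGSC : GSC) (hGR3 : GR3)
    (hGPS : GPS) {p : ℕ} [hp : Fact p.Prime]
    (R : ∀ (G : Type) [Group G], Subgroup G → Prop) (hR : RelAx p R)
    {G : Type} [Group G] [Finite G] (P : Subgroup G) (hS : PSol p G) (hP : IsPGroup p P)
    (hcl : normalClosure (P : Set G) = ⊤) (hPt : P ≠ ⊤)
    (IH : ∀ (G' : Type) [Group G'] [Finite G'], Nat.card G' < Nat.card G →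
      ∀ P' : Subgroup G', PSol p G' → IsPGroup p P' →
      normalClosure (P' : Set G') = ⊤ → R G' P')
    (hJ : sSup {H : Subgroup G | RH R P H} ≠ ⊤)
    (hno : ∀ K : Subgroup G, K.Normal → IsPGroup p K → K = ⊥) : False := by
  obtain ⟨M, hM⟩ := (Set.toFinite {N : Subgroup G | N.Normal ∧ ¬ p ∣ Nat.card N}).exists_maximal
    ⟨⊥, inferInstance, by rw [Subgroup.card_bot]; exact hp.out.one_lt.not_ge ∘ Nat.le_of_dvd one_pos⟩
  obtain ⟨⟨hMn, hMp⟩, hMmax⟩ := hM
  have hMt : M ≠ ⊤ := by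
    rintro rfl
    have hPb : P = ⊥ := by
      rw [eq_bot_iff]
      intro x hx
      exact GR3_disj hMp hP x (Subgroup.mem_top x) hx
    apply hPt
    rw [← hcl, hPb]
    have : (((⊥ : Subgroup G) : Set G)) = {1} := Subgroup.coe_bot
    refine le_antisymm bot_le ?_
    exact Subgroup.normalClosure_le_normal (le_refl _)
  obtain ⟨T, hTn, hMT, hTi⟩ := hS M hMn hMt
  have hcT : Nat.card M * M.relIndex T = Nat.card T := by
    have h1 := (M.subgroupOf T).card_mul_index
    rw [← h1]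
    congr 1
    exact Nat.card_congr (Subgroup.subgroupOfEquivOfLe hMT.le).toEquiv.symm
  have hTi' : ∃ n : ℕ, M.relIndex T = p ^ n := by
    rcases hTi with h | h
    · exact h
    · exfalso
      have h1 : ¬ p ∣ Nat.card T := by
        rw [← hcT]
        intro h2
        rcases (Nat.Prime.dvd_mul hp.out).1 h2 with h3 | h3
        · exact hMp h3
        · exact h h3
      exact hMT.not_ge (hMmax ⟨hTn, h1⟩ hMT.le)
  obtain ⟨n, hn⟩ := hTi'
  obtain ⟨S⟩ : Nonempty (Sylow p T) := inferInstance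
  set Q : Subgroup G := (S : Subgroup T).map T.subtype with hQ
  have hQT : Q ≤ T := by
    rintro _ ⟨x, _, rfl⟩
    exact x.2
  have hQp : IsPGroup p Q := S.isPGroup'.map _
  have hQrel : ¬ p ∣ Q.relIndex T := by
    have h1 : Q.subgroupOf T = (S : Subgroup T) := by
      rw [hQ]
      exact Subgroup.comap_map_eq_self_of_injective T.subtype_injective _
    rw [Subgroup.relIndex, h1]
    exact S.not_dvd_index
  have hMQT : T ≤ M ⊔ Q := by
    rw [← Subgroup.relIndex_eq_one]
    have h1 : (M ⊔ Q).relIndex T ∣ p ^ n := by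
      rw [← hn]
      exact Subgroup.relIndex_dvd_of_le_left T le_sup_left
    have h2 : (M ⊔ Q).relIndex T ∣ Q.relIndex T := Subgroup.relIndex_dvd_of_le_left T le_sup_right
    obtain ⟨k, _, hk⟩ := (Nat.dvd_prime_pow hp.out).1 h1
    rcases k with _ | k
    · rw [hk, pow_zero]
    · exfalso
      apply hQrel
      refine dvd_trans ?_ h2
      rw [hk]
      exact dvd_pow_self p (Nat.succ_ne_zero k)
  have hfr : normalizer (Q : Set G) ⊔ T = ⊤ := Sylow.normalizer_sup_eq_top S
  set Z : Subgroup G := normalizer (Q : Set G) with hZ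
  have hQZ : Q ≤ Z := Subgroup.le_normalizer
  have hZM : Z ⊔ M = ⊤ := by
    rw [eq_top_iff, ← hfr]
    refine sup_le le_sup_left (hMQT.trans (sup_le le_sup_right (hQZ.trans le_sup_left)))
  have hZi : ¬ p ∣ Z.index := fun h => hMp (h.trans (GCop_index_dvd M Z hZM))
  have hZt : Z ≠ ⊤ := by
    intro h
    have hQn : Q.Normal := Subgroup.normalizer_eq_top_iff.1 h
    have hQb := hno Q hQn hQp
    apply hMT.not_ge
    rw [hQb, sup_bot_eq] at hMQT
    exact hMQT
  -- a conjugate of `Z` contains `P`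
  obtain ⟨g, hg⟩ : ∃ g : G, ∀ q ∈ P, g⁻¹ * q * g ∈ Z := by
    obtain ⟨x, hx⟩ := hP.nonempty_fixed_point_of_prime_not_dvd_card (G ⧸ Z)
      (by rwa [Subgroup.index] at hZi)
    induction x using QuotientGroup.induction_on with
    | H g =>
      refine ⟨g, fun q hq => ?_⟩
      have h1 := hx ⟨q⁻¹, P.inv_mem hq⟩
      have h2 : ((q⁻¹ * g : G) : G ⧸ Z) = (g : G ⧸ Z) := h1
      rw [QuotientGroup.eq] at h2
      have h3 : (q⁻¹ * g)⁻¹ * g = g⁻¹ * q * g := by group
      rwa [h3] at h2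
  set Y0 : Subgroup G := Z.map (MulAut.conj g).toMonoidHom with hY0
  have hPY0 : P ≤ Y0 := by
    intro q hq
    refine ⟨g⁻¹ * q * g, hg q hq, ?_⟩
    show g * (g⁻¹ * q * g) * g⁻¹ = q
    group
  have hMY0 : M ⊔ Y0 = ⊤ := by
    have h1 : (Z ⊔ M).map (MulAut.conj g).toMonoidHom = ⊤ := by
      rw [hZM]
      exact Subgroup.map_top_of_surjective _ (MulAut.conj g).surjective
    rw [Subgroup.map_sup] at h1
    rw [eq_top_iff, ← h1]
    refine sup_le le_sup_right (le_trans ?_ le_sup_left)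
    rintro _ ⟨m, hm, rfl⟩
    exact hMn.conj_mem m hm g
  have hY0t : Y0 ≠ ⊤ := by
    intro h
    apply hZt
    apply Subgroup.eq_top_of_card_eq
    have h1 : Nat.card Y0 = Nat.card Z := by
      rw [hY0]
      exact (Nat.card_congr (Z.equivMapOfInjective _ (MulAut.conj g).injective).toEquiv).symm
    rw [← h1, h, Subgroup.card_top]
  obtain ⟨Y, hPY, hYY0, hYn, hYM⟩ := hGSC G Y0 P hPY0
  have hMPcl : normalClosure ((P : Set G) ∪ M) = ⊤ := by
    rw [eq_top_iff, ← hcl]
    exact Subgroup.normalClosure_mono Set.subset_union_left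
  have hMY : M ⊔ Y = ⊤ := hYM M hMn hMY0 hMPcl
  have hYt : Y ≠ ⊤ := by
    rintro rfl
    exact hY0t (top_le_iff.1 hYY0)
  set J : Subgroup G := sSup {H : Subgroup G | RH R P H} with hJdef
  have hYJ : Y ≤ J := le_sSup (GB_zero R hGPS P hS hP IH Y P hYt le_rfl hPY hYn)
  obtain ⟨hc1, hc2, -⟩ := hGCop p G M P hMp hP (fun q _ a ha => hMn.conj_mem a ha q)
  set L : Subgroup G := nclIn (M ⊔ P) P with hL
  have hPL : P ≤ L := GSC_ge _ _
  have hLMP : L ≤ M ⊔ P := GSC_le _ _ le_sup_right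
  have hLJ : L ≤ J := by
    apply le_sSup
    refine ⟨P, le_rfl, hPL, ?_⟩
    have hn1 : (M.subgroupOf L).Normal := hMn.subgroupOf L
    refine hGR3 p R hR L (M.subgroupOf L) (P.subgroupOf L) hn1 ?_ hP.comap_subtype ?_
      (GB_ncl L P hPL hc2)
    · intro h
      apply hMp
      refine h.trans ?_
      let f : (M.subgroupOf L) →* M :=
        (L.subtype.comp (M.subgroupOf L).subtype).codRestrict M fun x => x.2
      refine Subgroup.card_dvd_of_injective f fun x y hxy => ?_
      have h3 : ((x : L) : G) = ((y : L) : G) := congrArg (fun a : M => (a : G)) hxy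
      exact Subtype.ext (Subtype.ext h3)
    · rw [eq_top_iff]
      rintro ⟨x, hx⟩ -
      obtain ⟨m, hm, q, hq, rfl⟩ := GR3_mem M P (fun q _ a ha => hMn.conj_mem a ha q) x (hLMP hx)
      have hmL : m ∈ L := by
        have := L.mul_mem hx (L.inv_mem (hPL hq))
        rwa [mul_inv_cancel_right] at this
      have h1 : (⟨m * q, hx⟩ : L) = ⟨m, hmL⟩ * ⟨q, hPL hq⟩ := rfl
      rw [h1]
      exact Subgroup.mul_mem_sup (Subgroup.mem_subgroupOf.2 hm) (Subgroup.mem_subgroupOf.2 hq)
  -- `J` is normal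
  have hcJ : ∀ c : G, (∀ q ∈ P, c * q = q * c) → ∀ x ∈ J, c * x * c⁻¹ ∈ J := by
    intro c hc
    have h1 : J ≤ J.comap (MulAut.conj c).toMonoidHom := by
      refine sSup_le fun H hH => ?_
      rw [← Subgroup.map_le_iff_le_comap]
      exact le_sSup ((hGConj p R hR G P).1 c H hc hH)
    intro x hx
    exact h1 hx
  have hMJ : ∀ m ∈ M, ∀ x ∈ J, m * x * m⁻¹ ∈ J := by
    intro m hm x hx
    obtain ⟨d, hd, c, _, hcP, rfl⟩ := hc1 m hm
    have h1 := hcJ c hcP x hx
    have h2 : d ∈ J := hLJ hd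
    have h3 : d * c * x * (d * c)⁻¹ = d * (c * x * c⁻¹) * d⁻¹ := by group
    rw [h3]
    exact J.mul_mem (J.mul_mem h2 h1) (J.inv_mem h2)
  have hJn : J.Normal := by
    refine ⟨fun a ha x => ?_⟩
    obtain ⟨m, hm, y, hy, rfl⟩ := GR3_mem M Y (fun q _ a ha => hMn.conj_mem a ha q) x
      (hMY ▸ Subgroup.mem_top x)
    have h1 : y * a * y⁻¹ ∈ J := J.mul_mem (J.mul_mem (hYJ hy) ha) (J.inv_mem (hYJ hy))
    have h2 : m * y * a * (m * y)⁻¹ = m * (y * a * y⁻¹) * m⁻¹ := by group
    rw [h2]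
    exact hMJ m hm _ h1
  apply hJ
  rw [eq_top_iff, ← hcl]
  exact Subgroup.normalClosure_le_normal (hPY.trans hYJ)

theorem prf_GB (hGJoin : GJoin) (hGConj : GConj) (hGCop : GCop) (hGSC : GSC) (hGR3 : GR3)
    (hGPS : GPS) : GB := by
  intro p hp R hR
  have key : ∀ (n : ℕ) (G : Type) [Group G] [Finite G], Nat.card G < n → ∀ (P : Subgroup G),
      PSol p G → IsPGroup p P → normalClosure (P : Set G) = ⊤ → R G P := by
    intro n
    induction n with
    | zero =>
      intro G _ _ h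
      omega
    | succ n ih =>
      intro G _ _ hn P hS hP hcl
      have IH : ∀ (G' : Type) [Group G'] [Finite G'], Nat.card G' < Nat.card G →
          ∀ P' : Subgroup G', PSol p G' → IsPGroup p P' →
          normalClosure (P' : Set G') = ⊤ → R G' P' := fun G' _ _ h => ih G' (by omega)
      by_cases hPt : P = ⊤
      · subst hPt
        apply hR.pgr G
        exact hP.of_surjective (⊤ : Subgroup G).subtype fun x => ⟨⟨x, Subgroup.mem_top x⟩, rfl⟩
      by_cases hJ : sSup {H : Subgroup G | RH R P H} = ⊤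
      · exact (hGJoin p R hR G P hP).2 hJ
      by_cases hno : ∀ K : Subgroup G, K.Normal → IsPGroup p K → K = ⊥
      · exact (GB_case2 hGJoin hGConj hGCop hGSC hGR3 hGPS R hR P hS hP hcl hPt IH hJ hno).elim
      · push Not at hno
        obtain ⟨K, hK, hKp, hK1⟩ := hno
        exact GB_case1 hGJoin hGConj hGPS R hR P hS hP hcl IH hJ K hK hKp hK1
  intro G _ _ P hS hP hcl
  exact key (Nat.card G + 1) G (Nat.lt_succ_self _) P hS hP hcl

end MP7b0bad

end

section

set_option autoImplicit false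

namespace MP7b0bad

/-- A conjugation invariant set with a nontrivial element generates a simple group. -/
theorem HA1_gen {L : Type} [Group L] [IsSimpleGroup L] {S : Set L}
    (hS : ∀ c ∈ S, ∀ g : L, g * c * g⁻¹ ∈ S) {c : L} (hc : c ∈ S) (hc1 : c ≠ 1)
    (T : Subgroup L) (hT : ∀ c ∈ S, c ∈ T) : T = ⊤ := by
  have h1 : Subgroup.normalClosure S = ⊤ := by
    rcases (Subgroup.normalClosure_normal (s := S)).eq_bot_or_eq_top with h | h
    · exfalso
      apply hc1
      have h2 : c ∈ Subgroup.normalClosure S := Subgroup.subset_normalClosure hc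
      rwa [h, Subgroup.mem_bot] at h2
    · exact h
  rw [eq_top_iff, ← h1]
  unfold Subgroup.normalClosure
  rw [Subgroup.closure_le]
  intro x hx
  obtain ⟨a, ha, hax⟩ := Group.mem_conjugatesOfSet_iff.1 hx
  obtain ⟨g, hg⟩ := isConj_iff.1 hax
  rw [← hg]
  exact hT _ (hS a ha g)

/-- Goursat type lemma. -/
theorem HA1_goursat {L : Type} [Group L] [IsSimpleGroup L] (hna : ∃ a b : L, a * b ≠ b * a)
    {S : Set L} (hS : ∀ c ∈ S, ∀ g : L, g * c * g⁻¹ ∈ S) (D : Subgroup (L × L))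
    (hD : ∀ c ∈ S, ((c⁻¹, c) : L × L) ∈ D) {c : L} (hc : c ∈ S) (hc2 : c ^ 2 ≠ 1) (a : L) :
    ((a, 1) : L × L) ∈ D := by
  have hc1 : c ≠ 1 := by
    rintro rfl
    exact hc2 (one_pow 2)
  have hgen := fun T hT => HA1_gen hS hc hc1 T hT
  have h1 : D.map (MonoidHom.fst L L) = ⊤ := by
    refine hgen _ fun x hx => ?_
    have h := Subgroup.mem_map_of_mem (MonoidHom.fst L L) (D.inv_mem (hD x hx))
    simpa using h
  have h2 : D.map (MonoidHom.snd L L) = ⊤ := by
    refine hgen _ fun x hx => ?_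
    have h := Subgroup.mem_map_of_mem (MonoidHom.snd L L) (hD x hx)
    simpa using h
  have e1 : ∀ x : L, ∃ y, ((x, y) : L × L) ∈ D := by
    intro x
    have h : x ∈ D.map (MonoidHom.fst L L) := by rw [h1]; trivial
    obtain ⟨z, hz, hz'⟩ := Subgroup.mem_map.1 h
    refine ⟨z.2, ?_⟩
    have h3 : z.1 = x := by simpa using hz'
    rw [← h3]
    exact hz
  have e2 : ∀ x : L, ∃ y, ((y, x) : L × L) ∈ D := by
    intro x
    have h : x ∈ D.map (MonoidHom.snd L L) := by rw [h2]; trivial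
    obtain ⟨z, hz, hz'⟩ := Subgroup.mem_map.1 h
    refine ⟨z.1, ?_⟩
    have h3 : z.2 = x := by simpa using hz'
    rw [← h3]
    exact hz
  let K : Subgroup L := D.comap (MonoidHom.inr L L)
  have hK : ∀ x, x ∈ K ↔ ((1, x) : L × L) ∈ D := fun x => Iff.rfl
  have hKn : K.Normal := by
    constructor
    intro n hn g
    rw [hK] at hn ⊢
    obtain ⟨y, hy⟩ := e2 g
    have h := D.mul_mem (D.mul_mem hy hn) (D.inv_mem hy)
    simpa using h
  rcases hKn.eq_bot_or_eq_top with h | h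
  · exfalso
    -- the second component is equal to the first one
    have key : ∀ g g' : L, ((g, g') : L × L) ∈ D → g' = g := by
      intro g g' hg
      have hcom : ∀ x ∈ S, x ∈ Subgroup.centralizer ({g⁻¹ * g'} : Set L) := by
        intro x hx
        rw [Subgroup.mem_centralizer_singleton_iff]
        have m1 := D.mul_mem (D.mul_mem hg (hD x hx)) (D.inv_mem hg)
        have m2 := hD _ (hS x hx g)
        have m3 := D.mul_mem (D.inv_mem m2) m1
        have m4 : ((1, (g * x * g⁻¹)⁻¹ * (g' * x * g'⁻¹)) : L × L) ∈ D := by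
          have e : ((1, (g * x * g⁻¹)⁻¹ * (g' * x * g'⁻¹)) : L × L) =
              ((g * x * g⁻¹)⁻¹, g * x * g⁻¹)⁻¹ * ((g, g') * (x⁻¹, x) * (g, g')⁻¹) := by
            ext
            · simp
            · simp
          rw [e]
          exact m3
        rw [← hK, h, Subgroup.mem_bot] at m4
        have m5 : g * x * g⁻¹ = g' * x * g'⁻¹ := inv_mul_eq_one.1 m4
        have m6 : g⁻¹ * (g * x * g⁻¹) * g' = g⁻¹ * (g' * x * g'⁻¹) * g' := by rw [m5]
        have m7 : x * (g⁻¹ * g') = g⁻¹ * g' * x := by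
          calc x * (g⁻¹ * g') = g⁻¹ * (g * x * g⁻¹) * g' := by group
            _ = g⁻¹ * (g' * x * g'⁻¹) * g' := m6
            _ = g⁻¹ * g' * x := by group
        exact m7
      have htop := hgen _ hcom
      have hcen : g⁻¹ * g' ∈ Subgroup.center L := by
        rw [Subgroup.mem_center_iff]
        intro y
        have hy : y ∈ Subgroup.centralizer ({g⁻¹ * g'} : Set L) := by rw [htop]; trivial
        rw [Subgroup.mem_centralizer_singleton_iff] at hy
        exact hy
      rcases (inferInstance : (Subgroup.center L).Normal).eq_bot_or_eq_top with hb | ht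
      · rw [hb, Subgroup.mem_bot] at hcen
        have := congrArg (fun t => g * t) hcen
        simpa using this
      · exfalso
        obtain ⟨x, y, hxy⟩ := hna
        apply hxy
        have hx : y ∈ Subgroup.center L := by rw [ht]; trivial
        exact Subgroup.mem_center_iff.1 hx x
    have h3 := key _ _ (hD c hc)
    apply hc2
    rw [pow_two]
    nth_rewrite 1 [h3]
    exact inv_mul_cancel c
  · obtain ⟨b, hb⟩ := e1 a
    have h3 : ((1, b) : L × L) ∈ D := by
      rw [← hK, h]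
      trivial
    have h4 := D.mul_mem hb (D.inv_mem h3)
    simpa using h4

/-- An abelian group generated by elements of order prime to `p`. -/
theorem HA1_card {p : ℕ} [Fact p.Prime] {G : Type} [Group G] [Finite G] {k : Set G} {m : ℕ}
    (hm : ¬ p ∣ m) (hk : ∀ x ∈ k, x ^ m = 1) (hcomm : ∀ x ∈ k, ∀ y ∈ k, x * y = y * x) :
    ¬ p ∣ Nat.card (Subgroup.closure k) := by
  intro hp
  have hc1 : Subgroup.closure k ≤ Subgroup.centralizer (Subgroup.closure k : Set G) := by
    rw [Subgroup.closure_le]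
    intro x hx
    rw [SetLike.mem_coe, Subgroup.mem_centralizer_iff]
    intro y hy
    induction hy using Subgroup.closure_induction with
    | mem y hy => exact hcomm y hy x hx
    | one => simp
    | mul y z _ _ hy hz => rw [mul_assoc, hz, ← mul_assoc, hy, mul_assoc]
    | inv y _ hy =>
      rw [inv_mul_eq_iff_eq_mul, ← mul_assoc, hy, mul_inv_cancel_right]
  have hpow : ∀ x ∈ Subgroup.closure k, x ^ m = 1 := by
    intro x hx
    induction hx using Subgroup.closure_induction with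
    | mem y hy => exact hk y hy
    | one => exact one_pow m
    | mul y z hy hz hy1 hz1 =>
      have hcm : Commute y z := by
        have := (Subgroup.mem_centralizer_iff.1 (hc1 hz)) y hy
        exact this
      rw [hcm.mul_pow, hy1, hz1, one_mul]
    | inv y _ hy => rw [inv_pow, hy, inv_one]
  obtain ⟨x, hx⟩ := exists_prime_orderOf_dvd_card' p hp
  apply hm
  rw [← hx]
  apply orderOf_dvd_of_pow_eq_one
  apply Subtype.ext
  rw [Subgroup.coe_pow, Subgroup.coe_one]
  exact hpow x.1 x.2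

theorem prf_HA1 (hHNor : HNor) : HA1 := by
  intro p _ G _ _ P L u hP hu h3 h4 _ h6 hL hna h9
  have hcom : ∀ x ∈ L, ∀ y ∈ L, x * (u * y * u⁻¹) = (u * y * u⁻¹) * x := by
    rcases h4 u hu with h | h
    · obtain ⟨x, hx, hx'⟩ := h6
      exact absurd (h x hx) hx'
    · exact h
  -- step 1
  have step1 : ∀ c ∈ L, ¬ p ∣ orderOf c → c⁻¹ * (u * c * u⁻¹) ∈ Gam p P := by
    intro c hc hpc
    let k : Set G := {x | ∃ i : ℤ, x = u ^ i * c * (u ^ i)⁻¹}
    have hk1 : ∀ x ∈ k, x ^ (orderOf c) = 1 := by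
      rintro x ⟨i, rfl⟩
      rw [conj_pow, pow_orderOf_eq_one, mul_one, mul_inv_cancel]
    have hk2 : ∀ x ∈ k, ∀ y ∈ k, x * y = y * x := by
      rintro x ⟨i, rfl⟩ y ⟨j, rfl⟩
      have hv : u ^ (i - j) ∈ P := P.zpow_mem hu _
      have hi : u ^ i = u ^ j * u ^ (i - j) := by
        rw [← zpow_add]
        congr 1
        ring
      rcases h4 _ hv with h | h
      · have hcc := h3 _ hv h c hc
        have e : u ^ i * c * (u ^ i)⁻¹ = u ^ j * c * (u ^ j)⁻¹ := by
          rw [hi]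
          calc u ^ j * u ^ (i - j) * c * (u ^ j * u ^ (i - j))⁻¹
              = u ^ j * (u ^ (i - j) * c) * (u ^ j * u ^ (i - j))⁻¹ := by rw [mul_assoc (u ^ j)]
            _ = u ^ j * (c * u ^ (i - j)) * (u ^ j * u ^ (i - j))⁻¹ := by rw [hcc]
            _ = u ^ j * c * (u ^ j)⁻¹ := by group
        rw [e]
      · have hcc := h c hc c hc
        have e : u ^ i * c * (u ^ i)⁻¹ =
            u ^ j * (u ^ (i - j) * c * (u ^ (i - j))⁻¹) * (u ^ j)⁻¹ := by
          rw [hi]
          group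
        rw [e]
        calc u ^ j * (u ^ (i - j) * c * (u ^ (i - j))⁻¹) * (u ^ j)⁻¹ *
              (u ^ j * c * (u ^ j)⁻¹)
            = u ^ j * ((u ^ (i - j) * c * (u ^ (i - j))⁻¹) * c) * (u ^ j)⁻¹ := by group
          _ = u ^ j * (c * (u ^ (i - j) * c * (u ^ (i - j))⁻¹)) * (u ^ j)⁻¹ := by rw [hcc]
          _ = u ^ j * c * (u ^ j)⁻¹ *
              (u ^ j * (u ^ (i - j) * c * (u ^ (i - j))⁻¹) * (u ^ j)⁻¹) := by group
    have hcard := HA1_card hpc hk1 hk2
    have hQ : Subgroup.zpowers u ≤ P := by rwa [Subgroup.zpowers_le]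
    have hnorm : ∀ q ∈ Subgroup.zpowers u, ∀ a ∈ Subgroup.closure k,
        q * a * q⁻¹ ∈ Subgroup.closure k := by
      intro q hq a ha
      obtain ⟨j, rfl⟩ := Subgroup.mem_zpowers_iff.1 hq
      induction ha using Subgroup.closure_induction with
      | mem y hy =>
        obtain ⟨i, rfl⟩ := hy
        refine Subgroup.subset_closure ⟨j + i, ?_⟩
        rw [zpow_add]
        group
      | one => simp
      | mul y z _ _ hy hz =>
        have e : u ^ j * (y * z) * (u ^ j)⁻¹ =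
            (u ^ j * y * (u ^ j)⁻¹) * (u ^ j * z * (u ^ j)⁻¹) := by group
        rw [e]
        exact Subgroup.mul_mem _ hy hz
      | inv y _ hy =>
        have e : u ^ j * y⁻¹ * (u ^ j)⁻¹ = (u ^ j * y * (u ^ j)⁻¹)⁻¹ := by group
        rw [e]
        exact Subgroup.inv_mem _ hy
    have hfin := (hHNor p G P hP).2.2.2 (Subgroup.closure k) (Subgroup.zpowers u) hQ hcard hnorm
      c (Subgroup.subset_closure ⟨0, by simp⟩) u (Subgroup.mem_zpowers u)
    have e : c⁻¹ * (u * c * u⁻¹) = c⁻¹ * u * c * u⁻¹ := by group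
    rwa [e]
  -- step 2
  let f1 : L →* G := L.subtype
  let f2 : L →* G := (MulAut.conj u).toMonoidHom.comp L.subtype
  let φ : L × L →* G := MonoidHom.noncommCoprod f1 f2 (fun m n => hcom m.1 m.2 n.1 n.2)
  have hφ : ∀ a b : L, φ (a, b) = (a : G) * (u * (b : G) * u⁻¹) := fun a b => rfl
  obtain ⟨c, hpc, hc2⟩ := h9
  intro a ha
  have hmain := HA1_goursat (L := L) hna (S := {c : L | ¬ p ∣ orderOf c})
    (by
      intro x hx g
      have e : orderOf (g * x * g⁻¹) = orderOf x := by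
        have := MulEquiv.orderOf_eq (MulAut.conj g) x
        rwa [MulAut.conj_apply] at this
      change ¬ p ∣ orderOf (g * x * g⁻¹)
      rw [e]
      exact hx)
    ((Gam p P).comap φ)
    (by
      intro x hx
      rw [Subgroup.mem_comap, hφ]
      have h := step1 x.1 x.2 (by rwa [Subgroup.orderOf_coe])
      simpa using h)
    hpc hc2 ⟨a, ha⟩
  rw [Subgroup.mem_comap, hφ] at hmain
  simpa using hmain

end MP7b0bad

end

section

/-!
# MP_7b0bad_ag, item HAb (helper27): minimal normal subgroups that are p-groups or p'-groups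
-/

set_option autoImplicit false

namespace MP7b0bad

open Subgroup

theorem HAb_key {G : Type} [Group G] (P N Γ : Subgroup G) (hN : N.Normal) (hPΓ : P ≤ Γ)
    (hP : Subgroup.normalClosure (P : Set G) = ⊤) (hsup : N ⊔ Γ = ⊤)
    (hnor : ∀ n ∈ N, ∀ x ∈ Γ, n * x * n⁻¹ ∈ Γ) : Γ = ⊤ := by
  have hΓn : Γ.Normal := by
    refine ⟨fun x hx g => ?_⟩
    have hg : g ∈ N ⊔ Γ := by rw [hsup]; exact mem_top g
    obtain ⟨n, hn, y, hy, rfl⟩ := mem_sup_of_normal_left.1 hg
    have h1 : y * x * y⁻¹ ∈ Γ := mul_mem (mul_mem hy hx) (inv_mem hy)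
    have h2 := hnor n hn _ h1
    have h3 : n * y * x * (n * y)⁻¹ = n * (y * x * y⁻¹) * n⁻¹ := by group
    rw [h3]; exact h2
  refine top_le_iff.1 ?_
  rw [← hP]
  exact normalClosure_le_normal (by intro x hx; exact hPΓ hx)

theorem HAb_fix {p : ℕ} [Fact p.Prime] {G : Type} [Group G] [Finite G] (P N : Subgroup G)
    (hN : N.Normal) (hne : N ≠ ⊥) (hP : IsPGroup p P) (hNp : IsPGroup p N) :
    ∃ c ∈ N, c ≠ 1 ∧ ∀ q ∈ P, c * q = q * c := by
  haveI := hN
  letI : MulAction P N :=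
    MulAction.compHom N ((MulAut.conjNormal (H := N)).comp P.subtype)
  have hsm : ∀ (q : P) (n : N), ((q • n : N) : G) = (q : G) * n * (q : G)⁻¹ := by
    intro q n
    rfl
  have hdvd : p ∣ Nat.card N := by
    obtain ⟨k, hk⟩ := IsPGroup.iff_card.1 hNp
    rcases Nat.eq_zero_or_pos k with h0 | h0
    · exfalso
      rw [h0, pow_zero] at hk
      exact hne (Subgroup.eq_bot_of_card_eq N hk)
    · rw [hk]
      exact dvd_pow_self p (by omega)
  have h1 : (1 : N) ∈ MulAction.fixedPoints P N := by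
    intro q
    apply Subtype.ext
    rw [hsm]
    simp
  obtain ⟨b, hb, hb1⟩ := hP.exists_fixed_point_of_prime_dvd_card_of_fixed_point N hdvd h1
  refine ⟨b, b.2, ?_, ?_⟩
  · intro h
    apply hb1
    apply Subtype.ext
    rw [h]; rfl
  · intro q hq
    have h2 := congrArg Subtype.val (hb ⟨q, hq⟩)
    rw [hsm] at h2
    have h3 : q * (b : G) * q⁻¹ = b := h2
    have h4 : q * (b : G) = b * q := by
      rw [mul_inv_eq_iff_eq_mul] at h3
      exact h3
    exact h4.symm

theorem HAb_abelian {p : ℕ} [Fact p.Prime] {G : Type} [Group G] [Finite G] (N : Subgroup G)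
    (hN : N.Normal) (hne : N ≠ ⊥)
    (hmin : ∀ K : Subgroup G, K.Normal → K ≤ N → K = ⊥ ∨ K = N) (hNp : IsPGroup p N) :
    ∀ a ∈ N, ∀ b ∈ N, a * b = b * a := by
  haveI : Nontrivial N := (Subgroup.nontrivial_iff_ne_bot N).2 hne
  have hc : Nontrivial (Subgroup.center N) := hNp.center_nontrivial
  obtain ⟨Z, hZ⟩ : ∃ Z : Subgroup G, Z = (Subgroup.center N).map N.subtype := ⟨_, rfl⟩
  have hZn : Z.Normal := by
    rw [hZ]
    haveI := hN
    exact ConjAct.normal_of_characteristic_of_normal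
  have hZN : Z ≤ N := by
    rw [hZ]
    rintro _ ⟨x, -, rfl⟩
    exact x.2
  rcases hmin Z hZn hZN with h | h
  · exfalso
    obtain ⟨⟨x, hx⟩, hx1⟩ := exists_ne (1 : Subgroup.center N)
    have h1 : (x : G) ∈ Z := by rw [hZ]; exact ⟨x, hx, rfl⟩
    rw [h, mem_bot] at h1
    apply hx1
    apply Subtype.ext
    apply Subtype.ext
    exact h1
  · intro a ha b hb
    rw [← h, hZ] at ha
    obtain ⟨x, hx, rfl⟩ := ha
    have h1 := Subgroup.mem_center_iff.1 hx ⟨b, hb⟩
    have h2 := congrArg Subtype.val h1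
    exact h2.symm

theorem prf_HAb (hHNor : HNor) (hGCop : GCop) : HAb := by
  intro p _ G _ _ P N hN hne hmin hP hncl hcase hsup
  obtain ⟨h1, h2, -, h4⟩ := hHNor p G P hP
  obtain ⟨Γ, hΓ⟩ : ∃ Γ : Subgroup G, Γ = Gam p P := ⟨_, rfl⟩
  rw [← hΓ] at h1 h2 h4 hsup ⊢
  haveI := hN
  rcases hcase with hNp | hNp'
  · -- p-group
    have hab := HAb_abelian N hN hne hmin hNp
    have hinfn : (N ⊓ Γ).Normal := by
      refine ⟨fun x hx g => ?_⟩
      have hg : g ∈ N ⊔ Γ := by rw [hsup]; exact mem_top g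
      obtain ⟨n, hn, y, hy, rfl⟩ := mem_sup_of_normal_left.1 hg
      have h5 : y * x * y⁻¹ ∈ Γ := mul_mem (mul_mem hy hx.2) (inv_mem hy)
      have h6 : y * x * y⁻¹ ∈ N := hN.conj_mem x hx.1 y
      have h7 : n * y * x * (n * y)⁻¹ = y * x * y⁻¹ := by
        have h8 : n * y * x * (n * y)⁻¹ = n * (y * x * y⁻¹) * n⁻¹ := by group
        rw [h8, hab n hn _ h6, mul_inv_cancel_right]
      rw [h7]
      exact ⟨h6, h5⟩
    rcases hmin (N ⊓ Γ) hinfn inf_le_left with h | h
    · obtain ⟨c, hc, hc1, hcP⟩ := HAb_fix P N hN hne hP hNp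
      have hcΓ : ∀ g ∈ Γ, c * g = g * c := by
        intro g hg
        have h5 : c * g * c⁻¹ * g⁻¹ ∈ Γ := mul_mem (h2 c hcP g hg) (inv_mem hg)
        have h6 : c * g * c⁻¹ * g⁻¹ ∈ N := by
          have h7 : c * g * c⁻¹ * g⁻¹ = c * (g * c⁻¹ * g⁻¹) := by group
          rw [h7]
          exact mul_mem hc (hN.conj_mem _ (inv_mem hc) g)
        have h7 : c * g * c⁻¹ * g⁻¹ ∈ N ⊓ Γ := ⟨h6, h5⟩
        rw [h, mem_bot] at h7
        have h8 : c * g * c⁻¹ = g := mul_inv_eq_one.1 h7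
        exact mul_inv_eq_iff_eq_mul.1 h8
      have hcG : ∀ g : G, c * g = g * c := by
        intro g
        have hg : g ∈ N ⊔ Γ := by rw [hsup]; exact mem_top g
        obtain ⟨n, hn, y, hy, rfl⟩ := mem_sup_of_normal_left.1 hg
        rw [← mul_assoc, hab c hc n hn, mul_assoc, hcΓ y hy, mul_assoc]
      have hzn : (Subgroup.zpowers c).Normal := by
        refine ⟨fun x hx g => ?_⟩
        obtain ⟨k, rfl⟩ := Subgroup.mem_zpowers_iff.1 hx
        have h5 : Commute c g := hcG g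
        have h6 : g * c ^ k * g⁻¹ = c ^ k := by
          have h7 : Commute (c ^ k) g := h5.zpow_left k
          rw [← h7.eq, mul_inv_cancel_right]
        rw [h6]
        exact hx
      have hzN : Subgroup.zpowers c ≤ N := by
        rw [Subgroup.zpowers_le]; exact hc
      rcases hmin _ hzn hzN with h5 | h5
      · exfalso
        exact hc1 (Subgroup.zpowers_eq_bot.1 h5)
      · refine HAb_key P N Γ hN h1 hncl hsup ?_
        intro n hn x hx
        rw [← h5] at hn
        obtain ⟨k, rfl⟩ := Subgroup.mem_zpowers_iff.1 hn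
        have h6 : Commute c x := hcG x
        have h7 : Commute (c ^ k) x := h6.zpow_left k
        rw [h7.eq, mul_inv_cancel_right]
        exact hx
    · have h5 : N ≤ Γ := by
        rw [← h]; exact inf_le_right
      rw [← hsup]
      exact (sup_eq_right.2 h5).symm
  · -- p'-group
    obtain ⟨h5, -, -⟩ := hGCop p G N P hNp' hP (fun q _ a ha => hN.conj_mem a ha q)
    have hle : nclIn (N ⊔ P) P ≤ Γ := by
      refine (closure_le _).2 ?_
      rintro _ ⟨x, hx, q, hq, rfl⟩
      obtain ⟨n, hn, y, hy, rfl⟩ := mem_sup_of_normal_left.1 hx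
      have h6 : y * q * y⁻¹ ∈ P := mul_mem (mul_mem hy hq) (inv_mem hy)
      have h7 := h4 N P le_rfl hNp' (fun q _ a ha => hN.conj_mem a ha q) n⁻¹ (inv_mem hn) _ h6
      have h8 := mul_mem h7 (h1 h6)
      have h9 : n * y * q * (n * y)⁻¹ =
          n⁻¹⁻¹ * (y * q * y⁻¹) * n⁻¹ * (y * q * y⁻¹)⁻¹ * (y * q * y⁻¹) := by group
      show n * y * q * (n * y)⁻¹ ∈ Γ
      rw [h9]
      exact h8
    refine HAb_key P N Γ hN h1 hncl hsup ?_
    intro n hn x hx
    obtain ⟨d, hd, c, hc, hcP, rfl⟩ := h5 n hn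
    have h6 := h2 c hcP x hx
    have h7 := mul_mem (mul_mem (hle hd) h6) (inv_mem (hle hd))
    have h8 : d * c * x * (d * c)⁻¹ = d * (c * x * c⁻¹) * d⁻¹ := by group
    rw [h8]
    exact h7

end MP7b0bad

end

section

set_option autoImplicit false

/-!
Alternating groups satisfy `StarL 2`.
-/

namespace MP7b0bad

open Equiv Equiv.Perm

theorem HAlt2_sign {n : ℕ} (w : Perm (Fin n)) (hw : Odd (orderOf w)) :
    w ∈ alternatingGroup (Fin n) := by
  rw [mem_alternatingGroup]
  rcases Int.units_eq_one_or (sign w) with h | h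
  · exact h
  · have h1 : sign (w ^ orderOf w) = 1 := by rw [pow_orderOf_eq_one, Perm.sign_one]
    rw [map_pow, h, Odd.neg_one_pow hw] at h1
    exact absurd h1 (by decide)

theorem HAlt2_inv (hHNor : HNor) {X : Type} [Group X] [Finite X] (u x : X) (hu : orderOf u = 2)
    (hx : Odd (orderOf x)) (hux : u * x * u⁻¹ = x⁻¹) : x ∈ Gam 2 (Subgroup.zpowers u) := by
  have : Fact (Nat.Prime 2) := ⟨Nat.prime_two⟩
  have hu2 : u ^ 2 = 1 := by rw [← hu, pow_orderOf_eq_one]
  have hP : IsPGroup 2 (Subgroup.zpowers u) := by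
    rintro ⟨g, hg⟩
    obtain ⟨k, hk⟩ := Subgroup.mem_zpowers_iff.mp hg
    refine ⟨1, ?_⟩
    apply Subtype.ext
    simp only [pow_one, SubmonoidClass.mk_pow, OneMemClass.coe_one]
    rw [← hk, ← zpow_natCast, ← zpow_mul, mul_comm, zpow_mul, zpow_natCast, hu2, one_zpow]
  have hcard : ¬ 2 ∣ Nat.card (Subgroup.zpowers x) := by
    rw [Nat.card_zpowers]
    intro h
    exact (Nat.not_even_iff_odd.mpr hx) (even_iff_two_dvd.mpr h)
  have hnorm : u ∈ Subgroup.normalizer ((Subgroup.zpowers x : Subgroup X) : Set X) := by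
    rw [Subgroup.mem_normalizer_iff]
    have h1 : ∀ h ∈ Subgroup.zpowers x, u * h * u⁻¹ ∈ Subgroup.zpowers x := by
      intro h hh
      obtain ⟨k, rfl⟩ := Subgroup.mem_zpowers_iff.mp hh
      rw [← conj_zpow, hux]
      exact Subgroup.zpow_mem _ (inv_mem (Subgroup.mem_zpowers x)) k
    intro h
    constructor
    · exact h1 h
    · intro hh
      have h2 := h1 _ hh
      have h3 : u * (u * h * u⁻¹) * u⁻¹ = h := by
        have : u * (u * h * u⁻¹) * u⁻¹ = u ^ 2 * h * (u ^ 2)⁻¹ := by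
          simp only [pow_succ, pow_zero, one_mul, mul_inv_rev, mul_assoc]
        rw [this, hu2]
        simp
      rwa [h3] at h2
  have h2 := (hHNor 2 X (Subgroup.zpowers u) hP).2.2.2 (Subgroup.zpowers x) (Subgroup.zpowers u)
    le_rfl hcard
    (by
      intro q hq a ha
      have : Subgroup.zpowers u ≤ Subgroup.normalizer ((Subgroup.zpowers x : Subgroup X) : Set X) := by
        rw [Subgroup.zpowers_le]; exact hnorm
      exact (Subgroup.mem_normalizer_iff.mp (this hq) a).mp ha)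
    x (Subgroup.mem_zpowers x) u (Subgroup.mem_zpowers u)
  have h3 : x⁻¹ * u * x * u⁻¹ = (x ^ 2)⁻¹ := by
    have : x⁻¹ * u * x * u⁻¹ = x⁻¹ * (u * x * u⁻¹) := by group
    rw [this, hux]
    group
  rw [h3] at h2
  have h4 : x ^ 2 ∈ Gam 2 (Subgroup.zpowers u) := by
    have := inv_mem h2
    rwa [inv_inv] at this
  obtain ⟨m, hm⟩ := hx
  have h5 : x = (x ^ 2) ^ (m + 1) := by
    rw [← pow_mul]
    have : 2 * (m + 1) = orderOf x + 1 := by omega
    rw [this, pow_succ, pow_orderOf_eq_one, one_mul]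
  rw [h5]
  exact pow_mem h4 _

theorem prf_HAlt2 (hHEmb : HEmb) (hHNor : HNor) : HAlt2 := by
  intro n hn hn6
  constructor
  · have h1 : (⟨0, by omega⟩ : Fin n) ≠ ⟨1, by omega⟩ := by
      intro h; have := congrArg Fin.val h; simp at this
    have h2 : (⟨0, by omega⟩ : Fin n) ≠ ⟨2, by omega⟩ := by
      intro h; have := congrArg Fin.val h; simp at this
    have h3 : (⟨1, by omega⟩ : Fin n) ≠ ⟨2, by omega⟩ := by
      intro h; have := congrArg Fin.val h; simp at this
    have hc := isThreeCycle_swap_mul_swap_same h1 h2 h3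
    have ho := hc.orderOf
    refine ⟨⟨_, hc.mem_alternatingGroup⟩, ?_, ?_⟩
    · rw [← Subgroup.orderOf_coe]
      simp only
      rw [ho]
      decide
    · intro h
      have h4 := congrArg Subtype.val h
      simp only [SubmonoidClass.mk_pow, OneMemClass.coe_one] at h4
      have h5 := orderOf_dvd_of_pow_eq_one h4
      rw [ho] at h5
      omega
  · intro X _ _ L u hL hiso hf ho hgen
    obtain ⟨f, hfi, hfL⟩ := hHEmb n 2 hn Nat.prime_two (Or.inl hn6) X L u hL hiso hf ho hgen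
    have ht2 : orderOf (f u) = 2 := by rw [orderOf_injective f hfi, ho]
    have htt : f u * f u = 1 := by rw [← pow_two, ← ht2, pow_orderOf_eq_one]
    have ht : ∀ x, (f u) ((f u) x) = x := fun x => by
      have := congrArg (fun p : Perm (Fin n) => p x) htt
      simpa using this
    have ht1 : f u ≠ 1 := by
      intro h
      rw [h, orderOf_one] at ht2
      omega
    obtain ⟨a, ha⟩ : ∃ a, (f u) a ≠ a := by
      by_contra hcon
      push Not at hcon
      exact ht1 (Equiv.ext hcon)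
    have hJ : J2_P (f u) ((Gam 2 (Subgroup.zpowers u)).map f) := by
      intro w hw htw
      have hwA := HAlt2_sign w hw
      rw [← hfL] at hwA
      obtain ⟨x, hxL, rfl⟩ := hwA
      refine ⟨x, HAlt2_inv hHNor u x ho ?_ ?_, rfl⟩
      · rwa [orderOf_injective f hfi] at hw
      · apply hfi
        rw [map_mul, map_mul, map_inv, map_inv]
        exact htw
    have halt : alternatingGroup (Fin n) ≤ (Gam 2 (Subgroup.zpowers u)).map f := by
      apply J2_alt hJ ht ha
      intro c _ _ _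
      have hcard : ({a, (f u) a, c, (f u) c} : Finset (Fin n)).card < Fintype.card (Fin n) := by
        rw [Fintype.card_fin]
        exact lt_of_le_of_lt Finset.card_le_four (by omega)
      obtain ⟨e, he⟩ : ∃ e, e ∉ ({a, (f u) a, c, (f u) c} : Finset (Fin n)) := by
        by_contra hcon
        push Not at hcon
        have := Finset.eq_univ_iff_forall.mpr hcon
        rw [this, Finset.card_univ] at hcard
        omega
      simp only [Finset.mem_insert, Finset.mem_singleton, not_or] at he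
      exact ⟨e, he⟩
    intro l hl
    have h1 : f l ∈ (Gam 2 (Subgroup.zpowers u)).map f := by
      apply halt
      rw [← hfL]
      exact ⟨l, hl, rfl⟩
    obtain ⟨g, hg, hgl⟩ := h1
    rwa [← hfi hgl]

end MP7b0bad

end

section

set_option autoImplicit false

namespace MP7b0bad

/-! Item HAlt3 (helper49) -/

/-- quotients of `p`-solvable groups -/
theorem HAlt3_surj {p : ℕ} {G H : Type} [Group G] [Group H] (hG : PSol p G) (f : G →* H)
    (hs : Function.Surjective f) : PSol p H := by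
  intro K hK hKt
  have hn : (K.comap f).Normal := hK.comap _
  have ht : K.comap f ≠ ⊤ := by
    intro h
    apply hKt
    rw [← Subgroup.map_comap_eq_self_of_surjective hs K, h]
    exact Subgroup.map_top_of_surjective _ hs
  obtain ⟨M, hM, hlt, hi⟩ := hG _ hn ht
  refine ⟨M.map f, hM.map _ hs, ?_, ?_⟩
  · constructor
    · rw [← Subgroup.map_comap_eq_self_of_surjective hs K]
      exact Subgroup.map_mono hlt.le
    · intro h
      exact hlt.not_ge (Subgroup.map_le_iff_le_comap.1 h)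
  · rwa [Subgroup.relIndex_comap] at hi

/-- images of `Gam` -/
theorem HAlt3_map (p : ℕ) {G H : Type} [Group G] [Group H] (P : Subgroup G) (f : G →* H) :
    (Gam p P).map f ≤ Gam p (P.map f) := by
  rw [Subgroup.map_le_iff_le_comap]
  refine sSup_le ?_
  rintro Y ⟨P', h1, h2, h3, h4⟩
  rw [← Subgroup.map_le_iff_le_comap]
  refine le_sSup ⟨P'.map f, Subgroup.map_mono h1, Subgroup.map_mono h2, ?_, ?_⟩
  · have h5 : nclIn (Y.map f) (P'.map f) = (nclIn Y P').map f := by
      unfold nclIn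
      rw [MonoidHom.map_closure]
      congr 1
      ext g
      constructor
      · rintro ⟨x, hx, q, hq, rfl⟩
        obtain ⟨x', hx', rfl⟩ := hx
        obtain ⟨q', hq', rfl⟩ := hq
        refine ⟨x' * q' * x'⁻¹, ⟨x', hx', q', hq', rfl⟩, ?_⟩
        rw [map_mul, map_mul, map_inv]
      · rintro ⟨_, ⟨x', hx', q', hq', rfl⟩, rfl⟩
        refine ⟨f x', Subgroup.mem_map_of_mem f hx', f q', Subgroup.mem_map_of_mem f hq', ?_⟩
        rw [map_mul, map_mul, map_inv]
    rw [h5, h3]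
  · exact HAlt3_surj h4 (f.subgroupMap Y) (f.subgroupMap_surjective Y)

/-- a 5-cycle -/
theorem HAlt3_five (n : ℕ) (hn : 5 ≤ n) :
    ∃ c : alternatingGroup (Fin n), ¬ 3 ∣ orderOf c ∧ c ^ 2 ≠ 1 := by
  set l : List (Fin n) := [⟨0, by omega⟩, ⟨1, by omega⟩, ⟨2, by omega⟩, ⟨3, by omega⟩,
    ⟨4, by omega⟩] with hl
  have hnd : l.Nodup := by
    rw [hl]
    simp
  have hc : l.formPerm.IsCycle := List.isCycle_formPerm hnd (by simp [hl])
  have hsup : l.formPerm.support.card = 5 := by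
    rw [List.support_formPerm_of_nodup l hnd (by
      intro x hx
      have := congrArg List.length hx
      simp [hl] at this), List.toFinset_card_of_nodup hnd]
    simp [hl]
  have hsign : l.formPerm ∈ alternatingGroup (Fin n) := by
    rw [Equiv.Perm.mem_alternatingGroup, hc.sign, hsup]
    decide
  have hord : orderOf (⟨l.formPerm, hsign⟩ : alternatingGroup (Fin n)) = 5 := by
    rw [← Subgroup.orderOf_coe, hc.orderOf, hsup]
  refine ⟨⟨l.formPerm, hsign⟩, ?_, ?_⟩
  · rw [hord]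
    norm_num
  · intro h
    have := orderOf_dvd_of_pow_eq_one h
    rw [hord] at this
    revert this
    norm_num

theorem prf_HAlt3 (hHEmb : HEmb) (_hHNor : HNor) (hHThree : HThree) : HAlt3 := by
  intro n hn
  refine ⟨HAlt3_five n hn, ?_⟩
  intro X _ _ L u hL he hfaith hu htop
  obtain ⟨f, hf, hfL⟩ := hHEmb n 3 hn Nat.prime_three (Or.inr rfl) X L u hL he hfaith hu htop
  have hu3 : u ^ 3 = 1 := by rw [← hu]; exact pow_orderOf_eq_one u
  have hfu : f u ∈ alternatingGroup (Fin n) := by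
    rw [Equiv.Perm.mem_alternatingGroup]
    have h1 : (Equiv.Perm.sign (f u)) ^ 3 = 1 := by
      rw [← map_pow, ← map_pow, hu3, map_one, map_one]
    rcases Int.units_eq_one_or (Equiv.Perm.sign (f u)) with h2 | h2
    · exact h2
    · rw [h2] at h1
      exact absurd h1 (by decide)
  have hle : L ⊔ Subgroup.zpowers u ≤ (alternatingGroup (Fin n)).comap f := by
    refine sup_le ?_ ?_
    · rw [← Subgroup.map_le_iff_le_comap, hfL]
    · rw [Subgroup.zpowers_le]
      exact hfu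
  have hmem : ∀ x, f x ∈ alternatingGroup (Fin n) := by
    intro x
    have : x ∈ L ⊔ Subgroup.zpowers u := by rw [htop]; trivial
    exact hle this
  let f' : X →* alternatingGroup (Fin n) := f.codRestrict (alternatingGroup (Fin n)) hmem
  have hbij : Function.Bijective f' := by
    constructor
    · intro x y hxy
      exact hf (congrArg Subtype.val hxy)
    · rintro ⟨τ, hτ⟩
      have : τ ∈ L.map f := by rw [hfL]; exact hτ
      obtain ⟨x, _, hx⟩ := this
      exact ⟨x, Subtype.ext hx⟩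
  let E : X ≃* alternatingGroup (Fin n) := MulEquiv.ofBijective f' hbij
  have hEu : orderOf (E u) = 3 := by
    rw [MulEquiv.orderOf_eq]
    exact hu
  have h1 := hHThree n hn (E u) hEu
  have h2 := HAlt3_map 3 (Subgroup.zpowers (E u)) (E.symm : alternatingGroup (Fin n) →* X)
  rw [h1, Subgroup.map_top_of_surjective _ E.symm.surjective, MonoidHom.map_zpowers] at h2
  have h3 : (E.symm : alternatingGroup (Fin n) →* X) (E u) = u := E.symm_apply_apply u
  rw [h3] at h2
  exact le_top.trans h2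

end MP7b0bad

end

section

set_option autoImplicit false

namespace MP7b0bad

open Equiv Equiv.Perm

/-- the 3-cycle `a → b → c → a` -/
def HAut3_cyc {α : Type} [DecidableEq α] (a b c : α) : Perm α := swap a c * swap a b

theorem HAut3_a {α : Type} [DecidableEq α] {a b c : α} (hab : a ≠ b) (hbc : b ≠ c) :
    HAut3_cyc a b c a = b := by
  show swap a c (swap a b a) = b
  rw [swap_apply_left, swap_apply_of_ne_of_ne hab.symm hbc]

theorem HAut3_b {α : Type} [DecidableEq α] (a b c : α) : HAut3_cyc a b c b = c := by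
  show swap a c (swap a b b) = c
  rw [swap_apply_right, swap_apply_left]

theorem HAut3_c {α : Type} [DecidableEq α] {a b c : α} (hac : a ≠ c) (hbc : b ≠ c) :
    HAut3_cyc a b c c = a := by
  show swap a c (swap a b c) = a
  rw [swap_apply_of_ne_of_ne hac.symm hbc.symm, swap_apply_right]

theorem HAut3_o {α : Type} [DecidableEq α] {a b c x : α} (ha : x ≠ a) (hb : x ≠ b) (hc : x ≠ c) :
    HAut3_cyc a b c x = x := by
  show swap a c (swap a b x) = x
  rw [swap_apply_of_ne_of_ne ha hb, swap_apply_of_ne_of_ne ha hc]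

theorem HAut3_three {α : Type} [Fintype α] [DecidableEq α] {a b c : α} (hab : a ≠ b) (hac : a ≠ c)
    (hbc : b ≠ c) : (HAut3_cyc a b c).IsThreeCycle :=
  isThreeCycle_swap_mul_swap_same hac hab hbc.symm

theorem HAut3_conj {α : Type} [DecidableEq α] (σ : Perm α) (a b c : α) :
    σ * HAut3_cyc a b c * σ⁻¹ = HAut3_cyc (σ a) (σ b) (σ c) := by
  unfold HAut3_cyc
  rw [Equiv.swap_apply_apply, Equiv.swap_apply_apply]
  group

/-- the structure of a 3-cycle -/
theorem HAut3_str {α : Type} [Fintype α] [DecidableEq α] {f : Perm α} (hf : f.IsThreeCycle)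
    {a : α} (ha : f a ≠ a) :
    f (f (f a)) = a ∧ f (f a) ≠ a ∧ f (f a) ≠ f a ∧ (∀ x, x ≠ a → x ≠ f a → x ≠ f (f a) → f x = x) := by
  have h3 : f ^ 3 = 1 := by rw [← hf.orderOf]; exact pow_orderOf_eq_one f
  have e1 : f (f (f a)) = a := by
    have := congrArg (fun g : Perm α => g a) h3
    simpa [pow_succ] using this
  have e2 : f (f a) ≠ a := by
    intro h
    rw [h] at e1
    exact ha e1
  have e3 : f (f a) ≠ f a := fun h => ha (f.injective h)
  refine ⟨e1, e2, e3, ?_⟩
  have hcard : f.support.card = 3 := hf.card_support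
  have hsub : ({a, f a, f (f a)} : Finset α) ⊆ f.support := by
    intro x hx
    simp only [Finset.mem_insert, Finset.mem_singleton] at hx
    rw [mem_support]
    rcases hx with rfl | rfl | rfl
    · exact ha
    · exact e3
    · rw [e1]; exact e2.symm
  have hc : ({a, f a, f (f a)} : Finset α).card = 3 := by
    rw [Finset.card_eq_three]
    exact ⟨a, f a, f (f a), ha.symm, e2.symm, e3.symm, rfl⟩
  have heq := Finset.eq_of_subset_of_card_le hsub (by rw [hc, hcard])
  intro x h1 h2 h4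
  have hx : x ∉ f.support := by
    rw [← heq]
    simp [h1, h2, h4]
  rwa [mem_support, not_not] at hx

/-- the 3-cycle is determined -/
theorem HAut3_eq {α : Type} [Fintype α] [DecidableEq α] {f : Perm α} (hf : f.IsThreeCycle)
    {a : α} (ha : f a ≠ a) : f = HAut3_cyc a (f a) (f (f a)) := by
  obtain ⟨e1, e2, e3, e4⟩ := HAut3_str hf ha
  ext x
  by_cases h1 : x = a
  · rw [h1, HAut3_a ha.symm e3.symm]
  by_cases h2 : x = f a
  · rw [h2, HAut3_b]
  by_cases h3 : x = f (f a)
  · rw [h3, e1, HAut3_c e2.symm e3.symm]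
  rw [e4 x h1 h2 h3, HAut3_o h1 h2 h3]

/-- two 3-cycles whose product has order 2 -/
theorem HAut3_pair {α : Type} [Fintype α] [DecidableEq α] {f g : Perm α} (hf : f.IsThreeCycle)
    (hg : g.IsThreeCycle) (hfg : ∀ x, f (g (f (g x))) = x) (hne : f ≠ g) (hne' : ∃ x, f (g x) ≠ x) :
    ∃ p, f p = g p ∧ g p ≠ p ∧ f (f p) ≠ g (g p) := by
  have hs : ∃ s, g s ≠ s ∧ f s = s := by
    by_contra hcon
    push Not at hcon
    have hsub : g.support ⊆ f.support := by
      intro x hx
      rw [mem_support] at hx ⊢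
      exact hcon x hx
    have heq := Finset.eq_of_subset_of_card_le hsub (by rw [hf.card_support, hg.card_support])
    obtain ⟨a, ha⟩ : ∃ a, a ∈ g.support := by
      rw [← Finset.Nonempty, ← Finset.card_pos, hg.card_support]
      norm_num
    have hga : g a ≠ a := mem_support.mp ha
    have hfa : f a ≠ a := hcon a hga
    obtain ⟨e1, e2, e3, e4⟩ := HAut3_str hf hfa
    obtain ⟨d1, d2, d3, d4⟩ := HAut3_str hg hga
    have hgf : g a = f a ∨ g a = f (f a) := by
      by_contra hh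
      push Not at hh
      have h5 := e4 (g a) hga hh.1 hh.2
      exact hcon _ d3 h5
    rcases hgf with h | h
    · have h6 : g (g a) = f (f a) := by
        by_contra hh
        have h7 : f (g (g a)) = g (g a) := e4 _ d2 (by rw [← h]; exact d3) hh
        have h8 : g (g (g a)) ≠ g (g a) := by rw [d1]; exact d2.symm
        exact hcon _ h8 h7
      apply hne
      rw [HAut3_eq hf hfa, HAut3_eq hg hga, h6, h]
    · have h6 : g (g a) = f a := by
        by_contra hh
        have h7 : f (g (g a)) = g (g a) := e4 _ d2 hh (by rw [← h]; exact d3)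
        have h8 : g (g (g a)) ≠ g (g a) := by rw [d1]; exact d2.symm
        exact hcon _ h8 h7
      obtain ⟨x, hx⟩ := hne'
      apply hx
      by_cases hxa : x = a
      · rw [hxa, h, e1]
      by_cases hxb : x = g a
      · rw [hxb, h6, ← h]
      by_cases hxc : x = g (g a)
      · rw [hxc, d1, h6]
      · rw [d4 x hxa hxb hxc]
        exact e4 x hxa (by rw [← h6]; exact hxc) (by rw [← h]; exact hxb)
  obtain ⟨s, hs1, hs2⟩ := hs
  obtain ⟨d1, d2, d3, d4⟩ := HAut3_str hg hs1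
  -- p = g s, q = g (g s)
  have h1 := hfg (g (g s))
  rw [d1, hs2] at h1
  refine ⟨g s, h1, d3, ?_⟩
  intro h2
  rw [d1] at h2
  have h3 : f s = f (f (g s)) := by rw [h2, hs2]
  have h3' : s = f (f (g s)) := h2.symm
  have h4 : f (g s) = s := by
    apply f.injective
    rw [← h3', hs2]
  rw [h1] at h4
  exact d2 h4

/-- three 3-cycles whose products have order 2 -/
theorem HAut3_triple {α : Type} [Fintype α] [DecidableEq α] {f g h : Perm α} (hf : f.IsThreeCycle)
    (hg : g.IsThreeCycle) (hh : h.IsThreeCycle) {p : α} (hp : f p = g p) (hp1 : g p ≠ p)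
    (hp2 : f (f p) ≠ g (g p)) (hhf : ∃ p, h p = f p ∧ f p ≠ p ∧ h (h p) ≠ f (f p))
    (hhg : ∃ p, h p = g p ∧ g p ≠ p ∧ h (h p) ≠ g (g p)) : h p = g p := by
  obtain ⟨u, hu1, hu2, hu3⟩ := hhf
  obtain ⟨v, hv1, hv2, hv3⟩ := hhg
  have hfp : f p ≠ p := by rw [hp]; exact hp1
  obtain ⟨f1, f2, f3, f4⟩ := HAut3_str hf hfp
  obtain ⟨g1, g2, g3, g4⟩ := HAut3_str hg hp1
  have hgr : g (f (f p)) = f (f p) := by
    apply g4
    · exact f2
    · rw [← hp]; exact f3
    · exact hp2
  have hhu : h u ≠ u := by rw [hu1]; exact hu2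
  have hhv : h v ≠ v := by rw [hv1]; exact hv2
  obtain ⟨h1, h2, h3, h4⟩ := HAut3_str hh hhu
  have hu : u = p ∨ u = f p ∨ u = f (f p) := by
    by_contra hcon
    push Not at hcon
    exact hu2 (f4 u hcon.1 hcon.2.1 hcon.2.2)
  have hv : v = u ∨ v = h u ∨ v = h (h u) := by
    by_contra hcon
    push Not at hcon
    exact hhv (h4 v hcon.1 hcon.2.1 hcon.2.2)
  rcases hu with hu | hu | hu
  · rw [← hu, hu1, hu, hp]
  · exfalso
    subst hu
    rcases hv with hv | hv | hv
    · subst hv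
      rw [hu1] at hv1
      exact hp2 (by rw [hv1, hp])
    · subst hv
      rw [hu1] at hv2
      exact hv2 hgr
    · subst hv
      rw [h1] at hv1
      have h5 : g (h (h (f p))) = g p := by rw [← hv1, hp]
      have h6 := g.injective h5
      apply hu3
      rw [h6, f1]
  · exfalso
    subst hu
    rw [f1] at hu1
    rw [hu1] at hv h2 h3 hu3 h1
    rcases hv with hv | hv | hv
    · subst hv
      exact hv2 hgr
    · subst hv
      rw [f1] at hu3
      apply hu3
      rw [hv1, hp]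
    · subst hv
      rw [h1] at hv1
      have h5 : g (h p) = g (f (f p)) := by rw [← hv1, hgr]
      exact h2 (g.injective h5)

/-- generation of the alternating group by the 3-cycles through two points -/
theorem HAut3_gen {α : Type} [Fintype α] [DecidableEq α] (hα : 5 ≤ Fintype.card α) (o e : α)
    (hoe : o ≠ e) (F : Subgroup (Perm α)) (hF : ∀ k, k ≠ o → k ≠ e → HAut3_cyc o e k ∈ F) :
    alternatingGroup α ≤ F := by
  have hconj : ∀ (a b c : α) (g : Perm α), g ∈ F → HAut3_cyc a b c ∈ F →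
      HAut3_cyc (g a) (g b) (g c) ∈ F := by
    intro a b c g hg h
    rw [← HAut3_conj]
    exact F.mul_mem (F.mul_mem hg h) (F.inv_mem hg)
  have c1 : ∀ i j, i ≠ o → i ≠ e → j ≠ o → j ≠ e → i ≠ j → HAut3_cyc e j i ∈ F := by
    intro i j hio hie hjo hje hij
    have h := hconj o e i _ (hF j hjo hje) (hF i hio hie)
    rwa [HAut3_a hoe hje.symm, HAut3_b, HAut3_o hio hie hij] at h
  have c2 : ∀ j l, j ≠ o → j ≠ e → l ≠ o → l ≠ e → j ≠ l → HAut3_cyc o j l ∈ F := by
    intro j l hjo hje hlo hle hjl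
    obtain ⟨i, hi⟩ : ∃ i, i ∉ ({o, e, j, l} : Finset α) := by
      by_contra hcon
      push Not at hcon
      have h1 : (Finset.univ : Finset α) ⊆ {o, e, j, l} := fun x _ => hcon x
      have h2 := Finset.card_le_card h1
      rw [Finset.card_univ] at h2
      have h3 := Finset.card_le_four (a := o) (b := e) (c := j) (d := l)
      omega
    simp only [Finset.mem_insert, Finset.mem_singleton, not_or] at hi
    obtain ⟨hio, hie, hij, hil⟩ := hi
    have h := hconj o e l _ (c1 i j hio hie hjo hje hij) (hF l hlo hle)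
    rwa [HAut3_o hoe (Ne.symm hjo) (Ne.symm hio), HAut3_a (Ne.symm hje) (Ne.symm hij),
      HAut3_o hle (Ne.symm hjl) (Ne.symm hil)] at h
  have c3 : ∀ m j l, m ≠ o → m ≠ e → j ≠ o → j ≠ e → l ≠ o → l ≠ e → m ≠ j → m ≠ l → j ≠ l →
      HAut3_cyc m j l ∈ F := by
    intro m j l hmo hme hjo hje hlo hle hmj hml hjl
    have h := hconj o j l _ (F.inv_mem (hF m hmo hme)) (c2 j l hjo hje hlo hle hjl)
    have e1 : (HAut3_cyc o e m)⁻¹ o = m := by
      rw [Perm.inv_eq_iff_eq, HAut3_c hmo.symm hme.symm]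
    have e2 : (HAut3_cyc o e m)⁻¹ j = j := by
      rw [Perm.inv_eq_iff_eq, HAut3_o hjo hje hmj.symm]
    have e3 : (HAut3_cyc o e m)⁻¹ l = l := by
      rw [Perm.inv_eq_iff_eq, HAut3_o hlo hle hml.symm]
    rwa [e1, e2, e3] at h
  rw [← closure_three_cycles_eq_alternating, Subgroup.closure_le]
  intro f hf
  have hf3 : f.IsThreeCycle := hf
  -- the subgroup contains `f` if `f o = e`, or ...
  have k1 : ∀ f : Perm α, f.IsThreeCycle → f o = e → f ∈ F := by
    intro f hf3 h
    have hfo : f o ≠ o := by rw [h]; exact hoe.symm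
    obtain ⟨e1, e2, e3, e4⟩ := HAut3_str hf3 hfo
    rw [HAut3_eq hf3 hfo, h]
    rw [h] at e2 e3
    exact hF _ e2 e3
  have k2 : ∀ f : Perm α, f.IsThreeCycle → f e = o → f ∈ F := by
    intro f hf3 h
    have h5 : f⁻¹ ∈ F := by
      apply k1 _ (hf3.inv)
      rw [Perm.inv_eq_iff_eq, h]
    simpa using F.inv_mem h5
  by_cases ho : f o = o
  · by_cases he : f e = e
    · obtain ⟨a, ha⟩ : ∃ a, a ∈ f.support := by
        rw [← Finset.Nonempty, ← Finset.card_pos, hf3.card_support]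
        norm_num
      have hfa : f a ≠ a := mem_support.mp ha
      obtain ⟨e1, e2, e3, e4⟩ := HAut3_str hf3 hfa
      have ne : ∀ x y, f x ≠ x → f y = y → x ≠ y := by
        intro x y h1 h2 h3
        rw [h3] at h1
        exact h1 h2
      have h5 : f (f (f a)) ≠ f (f a) := by rw [e1]; exact e2.symm
      show f ∈ F
      rw [HAut3_eq hf3 hfa]
      exact c3 _ _ _ (ne _ _ hfa ho) (ne _ _ hfa he) (ne _ _ e3 ho) (ne _ _ e3 he)
        (ne _ _ h5 ho) (ne _ _ h5 he) hfa.symm e2.symm e3.symm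
    · obtain ⟨e1, e2, e3, e4⟩ := HAut3_str hf3 he
      have ne : ∀ x, f x ≠ x → x ≠ o := by
        intro x h1 h3
        rw [h3] at h1
        exact h1 ho
      have h5 : f (f (f e)) ≠ f (f e) := by rw [e1]; exact e2.symm
      show f ∈ F
      rw [HAut3_eq hf3 he]
      exact c1 _ _ (ne _ h5) e2 (ne _ e3) he e3
  · obtain ⟨e1, e2, e3, e4⟩ := HAut3_str hf3 ho
    by_cases he : f o = e
    · exact k1 f hf3 he
    by_cases he' : f (f o) = e
    · apply k2 f hf3
      rw [← he', e1]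
    · show f ∈ F
      rw [HAut3_eq hf3 ho]
      exact c2 _ _ ho he e2 he' e3.symm

theorem HAut3_main {α : Type} [Fintype α] [DecidableEq α] (hα : 5 ≤ Fintype.card α)
    (φ : alternatingGroup α ≃* alternatingGroup α)
    (hφ : ∀ x : alternatingGroup α, (x : Perm α).IsThreeCycle → (φ x : Perm α).IsThreeCycle) :
    ∃ σ : Perm α, ∀ x : alternatingGroup α, (φ x : Perm α) = σ * (x : Perm α) * σ⁻¹ := by
  obtain ⟨o, e, i0, j0, hoe, hoi, hoj, hei, hej, hij⟩ : ∃ o e i0 j0 : α, o ≠ e ∧ i0 ≠ o ∧ j0 ≠ o ∧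
      i0 ≠ e ∧ j0 ≠ e ∧ i0 ≠ j0 := by
    have h1 : 4 ≤ (Finset.univ : Finset α).card := by rw [Finset.card_univ]; omega
    obtain ⟨t, ht, htc⟩ := Finset.exists_subset_card_eq h1
    obtain ⟨a, b, c, d, hab, hac, had, hbc, hbd, hcd, -⟩ := Finset.card_eq_four.mp htc
    exact ⟨a, b, c, d, hab, hac.symm, had.symm, hbc.symm, hbd.symm, hcd⟩
  -- the 3-cycles `x k`
  have hx3 : ∀ k, k ≠ o → k ≠ e → (HAut3_cyc o e k).IsThreeCycle := fun k h1 h2 =>
    HAut3_three hoe h1.symm h2.symm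
  let x : ∀ k, k ≠ o → k ≠ e → alternatingGroup α := fun k h1 h2 =>
    ⟨HAut3_cyc o e k, (hx3 k h1 h2).mem_alternatingGroup⟩
  have hxc : ∀ k h1 h2, ((x k h1 h2 : alternatingGroup α) : Perm α) = HAut3_cyc o e k :=
    fun k h1 h2 => rfl
  have hxx : ∀ k h1 h2 l h3 h4, k ≠ l → x k h1 h2 * x l h3 h4 * (x k h1 h2 * x l h3 h4) = 1 := by
    intro k h1 h2 l h3 h4 hkl
    ext1
    ext t
    rw [Subgroup.coe_mul, Subgroup.coe_mul, hxc k h1 h2, hxc l h3 h4]
    show HAut3_cyc o e k (HAut3_cyc o e l (HAut3_cyc o e k (HAut3_cyc o e l t))) = t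
    by_cases ho : t = o
    · rw [ho, HAut3_a hoe h4.symm, HAut3_b, HAut3_o h1 h2 hkl, HAut3_c h1.symm h2.symm]
    by_cases he : t = e
    · rw [he, HAut3_b, HAut3_o h3 h4 hkl.symm, HAut3_c h3.symm h4.symm, HAut3_a hoe h2.symm]
    by_cases hl : t = l
    · rw [hl, HAut3_c h3.symm h4.symm, HAut3_a hoe h2.symm, HAut3_b, HAut3_o h3 h4 hkl.symm]
    by_cases hk : t = k
    · rw [hk, HAut3_o h1 h2 hkl, HAut3_c h1.symm h2.symm, HAut3_a hoe h4.symm, HAut3_b]
    · rw [HAut3_o ho he hl, HAut3_o ho he hk, HAut3_o ho he hl, HAut3_o ho he hk]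
  have hxne : ∀ k h1 h2 l h3 h4, k ≠ l → x k h1 h2 ≠ x l h3 h4 := by
    intro k h1 h2 l h3 h4 hkl heq
    have h5 := congrArg (fun z : alternatingGroup α => (z : Perm α) e) heq
    simp only [hxc, HAut3_b] at h5
    exact hkl h5
  have hxne' : ∀ k h1 h2 l h3 h4, k ≠ l → x k h1 h2 * x l h3 h4 ≠ 1 := by
    intro k h1 h2 l h3 h4 hkl heq
    have h5 := congrArg (fun z : alternatingGroup α => (z : Perm α) o) heq
    simp only [Subgroup.coe_mul, hxc, Subgroup.coe_one, Perm.mul_apply, Perm.one_apply,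
      HAut3_a hoe h4.symm, HAut3_b] at h5
    exact h1 h5
  -- their images
  let y : ∀ k, k ≠ o → k ≠ e → Perm α := fun k h1 h2 => (φ (x k h1 h2) : Perm α)
  have hy3 : ∀ k h1 h2, (y k h1 h2).IsThreeCycle := fun k h1 h2 => hφ _ (hx3 k h1 h2)
  have hpair : ∀ k h1 h2 l h3 h4, k ≠ l → ∃ p, y k h1 h2 p = y l h3 h4 p ∧ y l h3 h4 p ≠ p ∧
      y k h1 h2 (y k h1 h2 p) ≠ y l h3 h4 (y l h3 h4 p) := by
    intro k h1 h2 l h3 h4 hkl
    apply HAut3_pair (hy3 k h1 h2) (hy3 l h3 h4)
    · intro t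
      have h5 := congrArg φ (hxx k h1 h2 l h3 h4 hkl)
      rw [map_mul, map_mul, map_one] at h5
      have h6 := congrArg (fun z : alternatingGroup α => (z : Perm α) t) h5
      simpa using h6
    · intro h5
      exact hxne k h1 h2 l h3 h4 hkl (φ.injective (Subtype.ext h5))
    · by_contra hcon
      push Not at hcon
      apply hxne' k h1 h2 l h3 h4 hkl
      apply φ.injective
      rw [map_mul, map_one]
      ext1
      ext t
      exact hcon t
  obtain ⟨p, hp1, hp2, hp3⟩ := hpair i0 hoi hei j0 hoj hej hij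
  obtain ⟨q, hq⟩ : ∃ q, q = y j0 hoj hej p := ⟨_, rfl⟩
  have hyp : ∀ k h1 h2, y k h1 h2 p = q := by
    intro k h1 h2
    by_cases hki : k = i0
    · subst hki; rw [hp1, hq]
    by_cases hkj : k = j0
    · subst hkj; rw [hq]
    rw [hq]
    exact HAut3_triple (hy3 i0 hoi hei) (hy3 j0 hoj hej) (hy3 k h1 h2) hp1 hp2 hp3
      (hpair k h1 h2 i0 hoi hei hki) (hpair k h1 h2 j0 hoj hej hkj)
  have hqp : q ≠ p := by rw [hq]; exact hp2
  have hyne : ∀ k h1 h2, y k h1 h2 p ≠ p := fun k h1 h2 => by rw [hyp k h1 h2]; exact hqp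
  have hyeq : ∀ k h1 h2, y k h1 h2 = HAut3_cyc p q (y k h1 h2 q) := by
    intro k h1 h2
    have h3 := HAut3_eq (hy3 k h1 h2) (hyne k h1 h2)
    rw [hyp k h1 h2] at h3
    exact h3
  have hyq : ∀ k h1 h2, y k h1 h2 q ≠ p ∧ y k h1 h2 q ≠ q := by
    intro k h1 h2
    obtain ⟨e1, e2, e3, e4⟩ := HAut3_str (hy3 k h1 h2) (hyne k h1 h2)
    rw [hyp k h1 h2] at e2 e3
    exact ⟨e2, e3⟩
  -- the permutation
  let s : α → α := fun k => if h1 : k = o then p else if h2 : k = e then q else y k h1 h2 q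
  have so : s o = p := by simp [s]
  have se : s e = q := by simp [s, hoe.symm]
  have sk : ∀ k h1 h2, s k = y k h1 h2 q := by
    intro k h1 h2
    simp [s, h1, h2]
  have sinj : Function.Injective s := by
    intro k l hkl
    by_cases ko : k = o
    · by_cases lo : l = o
      · rw [ko, lo]
      by_cases le : l = e
      · exfalso
        rw [ko, le, so, se] at hkl
        exact hqp hkl.symm
      · exfalso
        rw [ko, so, sk l lo le] at hkl
        exact (hyq l lo le).1 hkl.symm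
    by_cases ke : k = e
    · by_cases lo : l = o
      · exfalso
        rw [ke, lo, so, se] at hkl
        exact hqp hkl
      by_cases le : l = e
      · rw [ke, le]
      · exfalso
        rw [ke, se, sk l lo le] at hkl
        exact (hyq l lo le).2 hkl.symm
    by_cases lo : l = o
    · exfalso
      rw [lo, so, sk k ko ke] at hkl
      exact (hyq k ko ke).1 hkl
    by_cases le : l = e
    · exfalso
      rw [le, se, sk k ko ke] at hkl
      exact (hyq k ko ke).2 hkl
    rw [sk k ko ke, sk l lo le] at hkl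
    by_contra hne
    apply hxne k ko ke l lo le hne
    apply φ.injective
    apply Subtype.ext
    show y k ko ke = y l lo le
    rw [hyeq k ko ke, hyeq l lo le, hkl]
  let σ : Perm α := Equiv.ofBijective s (Finite.injective_iff_bijective.mp sinj)
  have hσ : ∀ k, σ k = s k := fun k => rfl
  refine ⟨σ, ?_⟩
  -- the subgroup where both homomorphisms agree
  let F0 : Subgroup (alternatingGroup α) :=
    { carrier := {z | (φ z : Perm α) = σ * (z : Perm α) * σ⁻¹}
      one_mem' := by simp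
      mul_mem' := by
        intro a b ha hb
        show (φ (a * b) : Perm α) = σ * ((a * b : alternatingGroup α) : Perm α) * σ⁻¹
        have ha' : (φ a : Perm α) = σ * (a : Perm α) * σ⁻¹ := ha
        have hb' : (φ b : Perm α) = σ * (b : Perm α) * σ⁻¹ := hb
        rw [map_mul, Subgroup.coe_mul, ha', hb', Subgroup.coe_mul]
        group
      inv_mem' := by
        intro a ha
        show (φ a⁻¹ : Perm α) = σ * ((a⁻¹ : alternatingGroup α) : Perm α) * σ⁻¹
        have ha' : (φ a : Perm α) = σ * (a : Perm α) * σ⁻¹ := ha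
        rw [map_inv, Subgroup.coe_inv, ha', Subgroup.coe_inv]
        group }
  have hgen := HAut3_gen hα o e hoe (F0.map (alternatingGroup α).subtype) (by
    intro k h1 h2
    refine ⟨x k h1 h2, ?_, rfl⟩
    show (φ (x k h1 h2) : Perm α) = σ * ((x k h1 h2 : alternatingGroup α) : Perm α) * σ⁻¹
    rw [hxc k h1 h2, HAut3_conj, hσ, hσ, hσ, so, se, sk k h1 h2]
    exact hyeq k h1 h2)
  intro z
  obtain ⟨w, hw, hwz⟩ := hgen z.2
  have h5 : w = z := Subtype.ext hwz
  rw [← h5]
  exact hw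

theorem prf_HAut3 : HAut3 := by
  intro n hn φ hφ
  exact HAut3_main (by rw [Fintype.card_fin]; exact hn) φ hφ

end MP7b0bad

end

section

set_option autoImplicit false

namespace MP7b0bad

open scoped commutatorElement

/-! # Elements of `P` normalising `L` and acting nontrivially (helper61) -/

/-- choice of `v` -/
theorem HB1_v (p : ℕ) {G : Type} [Group G] (P L : Subgroup G) (u : G)
    (hP : IsPGroup p P) (hu : u ∈ P) (hn : ∀ x ∈ L, u * x * u⁻¹ ∈ L)
    (hc : ∃ x ∈ L, u * x ≠ x * u) :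
    ∃ v ∈ P, (∀ x ∈ L, v * x * v⁻¹ ∈ L) ∧ (∃ x ∈ L, v * x ≠ x * v) ∧
      ∀ x ∈ L, v ^ p * x = x * v ^ p := by
  classical
  have hex : ∃ N : ℕ, ∀ x ∈ L, u ^ p ^ N * x = x * u ^ p ^ N := by
    obtain ⟨N, hN⟩ := hP ⟨u, hu⟩
    refine ⟨N, fun x _ => ?_⟩
    have h : u ^ p ^ N = 1 := congrArg Subtype.val hN
    rw [h, one_mul, mul_one]
  have hne : Nat.find hex ≠ 0 := by
    intro h0
    have h := Nat.find_spec hex
    rw [h0, pow_zero, pow_one] at h
    obtain ⟨x, hx, hxx⟩ := hc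
    exact hxx (h x hx)
  obtain ⟨j, hj⟩ := Nat.exists_eq_succ_of_ne_zero hne
  have h1 := Nat.find_spec hex
  have h2 : ¬ ∀ x ∈ L, u ^ p ^ j * x = x * u ^ p ^ j := Nat.find_min hex (by omega)
  push Not at h2
  refine ⟨u ^ p ^ j, P.pow_mem hu _, ?_, h2, ?_⟩
  · have h3 : ∀ n : ℕ, ∀ x ∈ L, u ^ n * x * (u ^ n)⁻¹ ∈ L := by
      intro n
      induction n with
      | zero => intro x hx; simpa using hx
      | succ n ih =>
        intro x hx
        have h := hn _ (ih x hx)
        have e : u * (u ^ n * x * (u ^ n)⁻¹) * u⁻¹ = u ^ (n + 1) * x * (u ^ (n + 1))⁻¹ := by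
          rw [pow_succ']
          group
        rwa [e] at h
    exact h3 _
  · rw [hj, Nat.succ_eq_add_one, pow_succ, pow_mul] at h1
    exact h1

theorem HB1_top (hHNor : HNor) (hHLift : HLift) (p : ℕ) [Fact p.Prime] (L0 : Type) [Group L0]
    (hS : StarL p L0) (X : Type) [Group X] [Finite X] (L : Subgroup X) [L.Normal]
    (hiso : Nonempty (L ≃* L0)) (v : X) (hgen : L ⊔ Subgroup.zpowers v = ⊤)
    (hv : IsPGroup p (Subgroup.zpowers v)) (hc : ∀ x ∈ L, (∀ y ∈ L, x * y = y * x) → x = 1)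
    (hperf : L ≤ ⁅L, L⁆) (hv1 : ∃ x ∈ L, v * x ≠ x * v) (hv2 : ∀ x ∈ L, v ^ p * x = x * v ^ p) :
    L ≤ Gam p (Subgroup.zpowers v) := by
  have hp : p.Prime := Fact.out
  -- the centraliser
  obtain ⟨C, hCdef⟩ : ∃ C : Subgroup X, C = Subgroup.centralizer (L : Set X) := ⟨_, rfl⟩
  have hCn : C.Normal := by rw [hCdef]; infer_instance
  have memC : ∀ x : X, x ∈ C ↔ ∀ l ∈ L, x * l = l * x := by
    intro x
    rw [hCdef, Subgroup.mem_centralizer_iff]
    exact ⟨fun h l hl => (h l hl).symm, fun h l hl => (h l hl).symm⟩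
  have hLC : ∀ x ∈ L, x ∈ C → x = 1 := by
    intro x hx hxC
    exact hc x hx ((memC x).1 hxC)
  have hLn : L.Normal := inferInstance
  -- `C` is central
  have hCv : ∀ c ∈ C, v * c = c * v := by
    intro c hcC
    have hct : c ∈ L ⊔ Subgroup.zpowers v := by rw [hgen]; trivial
    rw [Subgroup.mem_sup_of_normal_left] at hct
    obtain ⟨l, hl, w, hw, hlw⟩ := hct
    obtain ⟨i, rfl⟩ := Subgroup.mem_zpowers_iff.1 hw
    have h1 : v * c * v⁻¹ * c⁻¹ ∈ L := by
      have e : v * c * v⁻¹ * c⁻¹ = (v * l * v⁻¹) * l⁻¹ := by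
        rw [← hlw]
        group
      rw [e]
      exact L.mul_mem (hLn.conj_mem l hl v) (L.inv_mem hl)
    have h2 : v * c * v⁻¹ * c⁻¹ ∈ C := C.mul_mem (hCn.conj_mem c hcC v) (C.inv_mem hcC)
    have h3 := hLC _ h1 h2
    rw [mul_inv_eq_one, mul_inv_eq_iff_eq_mul] at h3
    exact h3
  have hCz : ∀ c ∈ C, ∀ x : X, x * c = c * x := by
    intro c hcC x
    have h1 : (⊤ : Subgroup X) ≤ Subgroup.centralizer {c} := by
      rw [← hgen]
      refine sup_le ?_ ?_
      · intro l hl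
        rw [Subgroup.mem_centralizer_singleton_iff]
        exact ((memC c).1 hcC l hl).symm
      · rw [Subgroup.zpowers_le, Subgroup.mem_centralizer_singleton_iff]
        exact hCv c hcC
    have := h1 (Subgroup.mem_top x)
    rwa [Subgroup.mem_centralizer_singleton_iff] at this
  -- the quotient
  have hker : ∀ x y : X, (QuotientGroup.mk' C) x = (QuotientGroup.mk' C) y → x * y⁻¹ ∈ C := by
    intro x y h
    rw [← QuotientGroup.eq_one_iff (N := C)]
    change (QuotientGroup.mk' C) (x * y⁻¹) = 1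
    rw [map_mul, map_inv, h, mul_inv_cancel]
  have hone : ∀ x : X, (QuotientGroup.mk' C) x = 1 ↔ x ∈ C := fun x => QuotientGroup.eq_one_iff x
  have hsurj : Function.Surjective (QuotientGroup.mk' C) := QuotientGroup.mk'_surjective C
  have hLb : (L.map (QuotientGroup.mk' C)).Normal := hLn.map _ hsurj
  have hIso : Nonempty ((L.map (QuotientGroup.mk' C)) ≃* L0) := by
    obtain ⟨e⟩ := hiso
    have hinj : Function.Injective ((QuotientGroup.mk' C).comp L.subtype) := by
      rw [injective_iff_map_eq_one]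
      intro x hx
      exact Subtype.ext (hLC _ x.2 ((hone _).1 hx))
    have e1 := MonoidHom.ofInjective hinj
    have e2 : ((QuotientGroup.mk' C).comp L.subtype).range = L.map (QuotientGroup.mk' C) := by
      rw [MonoidHom.range_comp, Subgroup.range_subtype]
    rw [e2] at e1
    exact ⟨e1.symm.trans e⟩
  have hub : orderOf ((QuotientGroup.mk' C) v) = p := by
    apply orderOf_eq_prime
    · rw [← map_pow, hone, memC]
      exact hv2
    · rw [Ne, hone, memC]
      intro h
      obtain ⟨x, hx, hxx⟩ := hv1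
      exact hxx (h x hx)
  have hgenb : L.map (QuotientGroup.mk' C) ⊔ Subgroup.zpowers ((QuotientGroup.mk' C) v) = ⊤ := by
    rw [← MonoidHom.map_zpowers, ← Subgroup.map_sup, hgen, ← MonoidHom.range_eq_map]
    exact MonoidHom.range_eq_top.2 hsurj
  have hcb : ∀ x : X ⧸ C, (∀ l ∈ L.map (QuotientGroup.mk' C), x * l = l * x) → x = 1 := by
    intro x hx
    obtain ⟨y, rfl⟩ := hsurj x
    rw [hone, memC]
    intro l hl
    have h1 := hx _ ⟨l, hl, rfl⟩
    rw [← map_mul, ← map_mul] at h1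
    have h2 := hker _ _ h1
    have e : y * l * (l * y)⁻¹ = (y * l * y⁻¹) * l⁻¹ := by group
    have h3 : y * l * (l * y)⁻¹ ∈ L := by
      rw [e]
      exact L.mul_mem (hLn.conj_mem l hl y) (L.inv_mem hl)
    have h4 := hLC _ h3 h2
    rwa [mul_inv_eq_one] at h4
  have hstar := hS.2 (X ⧸ C) (L.map (QuotientGroup.mk' C)) ((QuotientGroup.mk' C) v) hLb hIso hcb
    hub hgenb
  have hpz : IsPGroup p (Subgroup.zpowers ((QuotientGroup.mk' C) v)) := by
    rw [← MonoidHom.map_zpowers]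
    exact hv.map _
  have h5 : Gam p ((Subgroup.zpowers v).map (QuotientGroup.mk' C)) = ⊤ := by
    rw [MonoidHom.map_zpowers, eq_top_iff, ← hgenb]
    exact sup_le hstar (hHNor p (X ⧸ C) _ hpz).1
  have h6 := hHLift p X (Subgroup.zpowers v) C hv h5
  -- commutators
  have h7 : ∀ x y : X, ⁅x, y⁆ ∈ Gam p (Subgroup.zpowers v) := by
    intro x y
    have hx : x ∈ C ⊔ Gam p (Subgroup.zpowers v) := by rw [h6]; trivial
    have hy : y ∈ C ⊔ Gam p (Subgroup.zpowers v) := by rw [h6]; trivial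
    rw [Subgroup.mem_sup_of_normal_left] at hx hy
    obtain ⟨c, hcC, g, hg, rfl⟩ := hx
    obtain ⟨d, hdC, h, hh, rfl⟩ := hy
    have e : ⁅c * g, d * h⁆ = ⁅g, h⁆ := by
      rw [commutatorElement_def, commutatorElement_def]
      have e1 : c * g * (d * h) * (c * g)⁻¹ * (d * h)⁻¹ =
          c * (g * d) * h * g⁻¹ * c⁻¹ * h⁻¹ * d⁻¹ := by group
      rw [e1, hCz d hdC g]
      have e2 : c * (d * g) * h * g⁻¹ * c⁻¹ * h⁻¹ * d⁻¹ = (c * d) * (g * h * g⁻¹) * c⁻¹ * h⁻¹ * d⁻¹ := by
        group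
      rw [e2, ← hCz (c * d) (C.mul_mem hcC hdC) (g * h * g⁻¹)]
      have e3 : g * h * g⁻¹ * (c * d) * c⁻¹ * h⁻¹ * d⁻¹ = g * h * g⁻¹ * (c * d * c⁻¹ * h⁻¹) * d⁻¹ := by
        group
      rw [e3]
      have e4 : c * d = d * c := hCz d hdC c
      rw [e4]
      have e5 : d * c * c⁻¹ * h⁻¹ = d * h⁻¹ := by group
      rw [e5, ← hCz d hdC h⁻¹]
      group
    rw [e, commutatorElement_def]
    exact Subgroup.mul_mem _ (Subgroup.mul_mem _ (Subgroup.mul_mem _ hg hh)
      (Subgroup.inv_mem _ hg)) (Subgroup.inv_mem _ hh)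
  refine hperf.trans ?_
  rw [Subgroup.commutator_le]
  intro x _ y _
  exact h7 x y

theorem prf_HB1 (hHNor : HNor) (hHLift : HLift) : HB1 := by
  intro p _ G _ _ P L u hP hu hn hc hsim hnab hS
  obtain ⟨v, hvP, hvn, hv1, hv2⟩ := HB1_v p P L u hP hu hn hc
  -- perfect and centreless
  have hcen : ∀ x ∈ L, (∀ y ∈ L, x * y = y * x) → x = 1 := by
    intro x hx hxy
    rcases hsim.eq_bot_or_eq_top_of_normal (Subgroup.center L) inferInstance with h | h
    · have h1 : (⟨x, hx⟩ : L) ∈ Subgroup.center L := by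
        rw [Subgroup.mem_center_iff]
        intro y
        exact Subtype.ext (hxy y y.2).symm
      rw [h, Subgroup.mem_bot] at h1
      exact congrArg Subtype.val h1
    · obtain ⟨a, b, hab⟩ := hnab
      exfalso
      have h1 : a ∈ Subgroup.center L := by rw [h]; trivial
      rw [Subgroup.mem_center_iff] at h1
      exact hab (h1 b).symm
  have hperf : L ≤ ⁅L, L⁆ := by
    have h1 : commutator L = ⊤ := by
      rcases hsim.eq_bot_or_eq_top_of_normal (commutator L) inferInstance with h | h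
      · obtain ⟨a, b, hab⟩ := hnab
        exfalso
        have h2 : ⁅a, b⁆ ∈ commutator L :=
          Subgroup.commutator_mem_commutator (Subgroup.mem_top a) (Subgroup.mem_top b)
        rw [h, Subgroup.mem_bot, commutatorElement_eq_one_iff_mul_comm] at h2
        exact hab h2
      · exact h
    have h2 : (commutator L).map L.subtype = ⁅L, L⁆ := by
      rw [commutator_def, Subgroup.map_commutator, ← MonoidHom.range_eq_map,
        Subgroup.range_subtype]
    rw [← h2, h1, ← MonoidHom.range_eq_map, Subgroup.range_subtype]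
  -- the subgroup
  obtain ⟨X, hX⟩ : ∃ X : Subgroup G, X = L ⊔ Subgroup.zpowers v := ⟨_, rfl⟩
  have hLX : L ≤ X := by rw [hX]; exact le_sup_left
  have hvX : v ∈ X := by
    have h3 : Subgroup.zpowers v ≤ X := by rw [hX]; exact le_sup_right
    exact h3 (Subgroup.mem_zpowers v)
  have hvz : Subgroup.zpowers v ≤ P := by rwa [Subgroup.zpowers_le]
  have hvzX : Subgroup.zpowers v ≤ X := by rwa [Subgroup.zpowers_le]
  have hXn : X ≤ Subgroup.normalizer (L : Set G) := by
    rw [hX]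
    refine sup_le Subgroup.le_normalizer ?_
    rw [Subgroup.zpowers_le]
    have h1 : L.map (MulAut.conj v).toMonoidHom ≤ L := by
      rintro _ ⟨x, hx, rfl⟩
      exact hvn x hx
    have h2 : L.map (MulAut.conj v).toMonoidHom = L := by
      refine Subgroup.eq_of_le_of_card_ge h1 (le_of_eq ?_)
      exact Nat.card_congr (L.equivMapOfInjective _ (MulAut.conj v).injective).toEquiv
    rw [Subgroup.mem_normalizer_iff]
    intro h
    refine ⟨hvn h, fun hh => ?_⟩
    have h3 : v * h * v⁻¹ ∈ L.map (MulAut.conj v).toMonoidHom := by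
      rw [h2]
      exact hh
    obtain ⟨y, hy, hyv⟩ := h3
    have h4 : v * y * v⁻¹ = v * h * v⁻¹ := hyv
    have h5 : y = h := mul_left_cancel (mul_right_cancel h4)
    rwa [← h5]
  have hLXn : (L.subgroupOf X).Normal := by
    constructor
    intro x hx n
    rw [Subgroup.mem_subgroupOf] at hx ⊢
    exact ((Subgroup.mem_normalizer_iff.1 (hXn n.2)) x).1 hx
  have hzz : Subgroup.zpowers (⟨v, hvX⟩ : X) = (Subgroup.zpowers v).subgroupOf X := by
    ext x
    rw [Subgroup.mem_subgroupOf, Subgroup.mem_zpowers_iff, Subgroup.mem_zpowers_iff]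
    constructor
    · rintro ⟨i, rfl⟩
      exact ⟨i, rfl⟩
    · rintro ⟨i, hi⟩
      exact ⟨i, Subtype.ext hi⟩
  have hfin := HB1_top hHNor hHLift p L hS X (L.subgroupOf X)
    ⟨Subgroup.subgroupOfEquivOfLe hLX⟩ ⟨v, hvX⟩ (by
      apply Subgroup.map_injective X.subtype_injective
      rw [Subgroup.map_sup, hzz, Subgroup.map_subgroupOf_eq_of_le hLX,
        Subgroup.map_subgroupOf_eq_of_le hvzX, ← MonoidHom.range_eq_map, Subgroup.range_subtype,
        hX]) (by
      rw [hzz]
      exact (hP.to_le hvz).comap_subtype) (by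
      intro x hx hxy
      rw [Subgroup.mem_subgroupOf] at hx
      apply Subtype.ext
      refine hcen x hx fun y hy => ?_
      exact congrArg Subtype.val (hxy ⟨y, hLX hy⟩ (by rwa [Subgroup.mem_subgroupOf]))) (by
      rw [← Subgroup.map_le_map_iff_of_injective X.subtype_injective, Subgroup.map_commutator,
        Subgroup.map_subgroupOf_eq_of_le hLX]
      exact hperf) (by
      obtain ⟨x, hx, hxx⟩ := hv1
      refine ⟨⟨x, hLX hx⟩, by rwa [Subgroup.mem_subgroupOf], fun h => hxx ?_⟩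
      exact congrArg Subtype.val h) (by
      intro x hx
      rw [Subgroup.mem_subgroupOf] at hx
      exact Subtype.ext (hv2 x hx))
  rw [hzz] at hfin
  have h8 := Subgroup.map_mono (f := X.subtype) hfin
  rw [Subgroup.map_subgroupOf_eq_of_le hLX] at h8
  exact h8.trans ((hHNor p G P hP).2.2.1 X (Subgroup.zpowers v) hvz hvzX)

end MP7b0bad

end

section

/-!
# MP_7b0bad, item HCrit: joins of `p`-solvable blocks
-/

set_option autoImplicit false

namespace MP7b0bad

/-- translation of `nclIn Y P' = Y` into a statement about the group `Y` -/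
theorem HCrit_ncl {G : Type} [Group G] (Y P' : Subgroup G) (h2 : P' ≤ Y) (h3 : nclIn Y P' = Y) :
    Subgroup.normalClosure ((P'.subgroupOf Y : Subgroup Y) : Set Y) = ⊤ := by
  have h5 : nclIn Y P' ≤ (Subgroup.normalClosure ((P'.subgroupOf Y : Subgroup Y) : Set Y)).map
      Y.subtype := by
    unfold nclIn
    rw [Subgroup.closure_le]
    rintro g ⟨x, hx, q, hq, rfl⟩
    refine ⟨⟨x, hx⟩ * ⟨q, h2 hq⟩ * (⟨x, hx⟩ : Y)⁻¹, ?_, rfl⟩
    refine Subgroup.normalClosure_normal.conj_mem _ ?_ _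
    exact Subgroup.subset_normalClosure (Subgroup.mem_subgroupOf.2 hq)
  rw [eq_top_iff]
  intro y _
  have h6 : (y : G) ∈ nclIn Y P' := by
    rw [h3]; exact y.2
  obtain ⟨z, hz, hzy⟩ := h5 h6
  have h7 : z = y := Subtype.ext hzy
  rw [← h7]
  exact hz

theorem prf_HCrit (hGB : GB) (hGJoin : GJoin) : HCrit := by
  intro p _ R hR G _ _ P hP hG
  refine (hGJoin p R hR G P hP).2 ?_
  rw [eq_top_iff, ← hG]
  refine sSup_le fun Y hY => le_sSup ?_
  obtain ⟨P', h1, h2, h3, h4⟩ := hY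
  refine ⟨P', h1, h2, hGB p R hR Y (P'.subgroupOf Y) h4 ?_ (HCrit_ncl Y P' h2 h3)⟩
  exact (hP.to_le h1).of_equiv (Subgroup.subgroupOfEquivOfLe h2).symm

end MP7b0bad

end

section

set_option autoImplicit false

namespace MP7b0bad

open Nat in
theorem HCyc_ind (m : ℕ) (hm : 3 ≤ m) : 2 * 3 ^ m * m ! < 3 * (3 * m - 3)! := by
  induction m, hm using Nat.le_induction with
  | base => decide
  | succ m hm ih =>
    obtain ⟨k, rfl⟩ : ∃ k, m = k + 3 := ⟨m - 3, by omega⟩
    have e1 : 3 * (k + 3 + 1) - 3 = (3 * (k + 3) - 3) + 1 + 1 + 1 := by omega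
    have e2 : 3 * (k + 3) - 3 = 3 * k + 6 := by omega
    rw [e2] at ih
    rw [e1, e2, Nat.factorial_succ (3 * k + 6 + 1 + 1), Nat.factorial_succ (3 * k + 6 + 1),
      Nat.factorial_succ (3 * k + 6), Nat.factorial_succ (k + 3), pow_succ]
    have h0 : 2 ≤ (3 * k + 6 + 1 + 1) * (3 * k + 6 + 1) :=
      le_trans (by norm_num : 2 ≤ 2 * 1) (Nat.mul_le_mul (by omega) (by omega))
    have h1 : 3 * (k + 3 + 1) ≤ (3 * k + 6 + 1 + 1 + 1) * ((3 * k + 6 + 1 + 1) * (3 * k + 6 + 1)) :=
      le_trans (by omega : 3 * (k + 3 + 1) ≤ (3 * k + 6 + 1 + 1 + 1) * 2) (Nat.mul_le_mul_left _ h0)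
    calc 2 * (3 ^ (k + 3) * 3) * ((k + 3 + 1) * (k + 3)!)
        = (2 * 3 ^ (k + 3) * (k + 3)!) * (3 * (k + 3 + 1)) := by ring
      _ < (3 * (3 * k + 6)!) * ((3 * k + 6 + 1 + 1 + 1) * ((3 * k + 6 + 1 + 1) * (3 * k + 6 + 1))) :=
          Nat.mul_lt_mul_of_lt_of_le ih h1 (by positivity)
      _ = _ := by ring

open Nat in
theorem HCyc_num (m d : ℕ) (hm : 2 ≤ m) (h : 3 * m + d ≠ 6) :
    2 * (d ! * (3 ^ m * m !)) < 3 * (3 * m + d - 3)! := by
  rcases Nat.lt_or_ge 2 m with h3 | h3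
  · have h1 := HCyc_ind m h3
    have h2 : (3 * m - 3)! * d ! ≤ (3 * m - 3 + d)! :=
      Nat.le_of_dvd (Nat.factorial_pos _) (Nat.factorial_mul_factorial_dvd_factorial_add _ _)
    have e : 3 * m + d - 3 = 3 * m - 3 + d := by omega
    rw [e]
    calc 2 * (d ! * (3 ^ m * m !)) = (2 * 3 ^ m * m !) * d ! := by ring
      _ < (3 * (3 * m - 3)!) * d ! := Nat.mul_lt_mul_of_pos_right h1 (Nat.factorial_pos _)
      _ = 3 * ((3 * m - 3)! * d !) := by ring
      _ ≤ _ := Nat.mul_le_mul_left _ h2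
  · obtain rfl : m = 2 := le_antisymm h3 hm
    obtain ⟨k, rfl⟩ : ∃ k, d = k + 1 := ⟨d - 1, by omega⟩
    have e : 3 * 2 + (k + 1) - 3 = (k + 1) + 1 + 1 + 1 := by omega
    rw [e, Nat.factorial_succ (k + 1 + 1 + 1), Nat.factorial_succ (k + 1 + 1),
      Nat.factorial_succ (k + 1)]
    have h2 : 2 ! = 2 := rfl
    rw [h2]
    have hp : 0 < (k + 1)! := Nat.factorial_pos _
    have h5 : 24 ≤ (k + 1 + 1 + 1 + 1) * ((k + 1 + 1 + 1) * (k + 1 + 1)) :=
      le_trans (by norm_num : 24 ≤ 4 * (3 * 2))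
        (Nat.mul_le_mul (by omega) (Nat.mul_le_mul (by omega) (by omega)))
    calc 2 * ((k + 1)! * (3 ^ 2 * 2)) = 36 * (k + 1)! := by ring
      _ < 3 * (24 * (k + 1)!) := by omega
      _ ≤ 3 * (((k + 1 + 1 + 1 + 1) * ((k + 1 + 1 + 1) * (k + 1 + 1))) * (k + 1)!) :=
        Nat.mul_le_mul_left _ (Nat.mul_le_mul_right _ h5)
      _ = _ := by ring

theorem HCyc_card {n : ℕ} (hn : 5 ≤ n) (x : alternatingGroup (Fin n)) :
    Nat.card (Subgroup.centralizer {(x : Equiv.Perm (Fin n))}) ≤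
      2 * Nat.card (Subgroup.centralizer {x}) ∧
    Nat.card (Subgroup.centralizer {x}) ≤
      Nat.card (Subgroup.centralizer {(x : Equiv.Perm (Fin n))}) := by
  have : Nontrivial (Fin n) := Fin.nontrivial_iff_two_le.mpr (by omega)
  set K := Subgroup.centralizer {(x : Equiv.Perm (Fin n))} with hK
  have h1 : Subgroup.centralizer {x} = K.subgroupOf (alternatingGroup (Fin n)) := by
    ext y
    rw [Subgroup.mem_subgroupOf, hK, Subgroup.mem_centralizer_iff, Subgroup.mem_centralizer_iff]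
    simp only [Set.mem_singleton_iff, forall_eq]
    exact Subtype.ext_iff
  have h2 : Nat.card (K.subgroupOf (alternatingGroup (Fin n))) =
      Nat.card ((alternatingGroup (Fin n)).subgroupOf K) := by
    rw [← Subgroup.card_map_of_injective (alternatingGroup (Fin n)).subtype_injective,
      ← Subgroup.card_map_of_injective K.subtype_injective, Subgroup.subgroupOf_map_subtype,
      Subgroup.subgroupOf_map_subtype, inf_comm]
  have h3 : Nat.card ((alternatingGroup (Fin n)).subgroupOf K) *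
      (alternatingGroup (Fin n)).relIndex K = Nat.card K :=
    Subgroup.card_mul_index ((alternatingGroup (Fin n)).subgroupOf K)
  have h4 : (alternatingGroup (Fin n)).relIndex K ∣ 2 := by
    have := Subgroup.relIndex_dvd_index_of_normal (alternatingGroup (Fin n)) K
    rwa [alternatingGroup.index_eq_two] at this
  have h5 : (alternatingGroup (Fin n)).relIndex K ≤ 2 := Nat.le_of_dvd two_pos h4
  have h6 : 0 < (alternatingGroup (Fin n)).relIndex K := Nat.pos_of_dvd_of_pos h4 two_pos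
  rw [h1, h2, ← h3]
  constructor
  · rw [mul_comm]
    exact Nat.mul_le_mul_right _ h5
  · exact Nat.le_mul_of_pos_right _ h6

theorem prf_HCyc : HCyc := by
  intro n hn h6 φ x hx
  have hox : orderOf (x : Equiv.Perm (Fin n)) = 3 := hx.orderOf
  have hoy : orderOf ((φ x : alternatingGroup (Fin n)) : Equiv.Perm (Fin n)) = 3 := by
    rw [Subgroup.orderOf_coe, MulEquiv.orderOf_eq, ← Subgroup.orderOf_coe, hox]
  obtain ⟨m, hm⟩ := Equiv.Perm.cycleType_prime_order
    (σ := ((φ x : alternatingGroup (Fin n)) : Equiv.Perm (Fin n))) (by rw [hoy]; exact Nat.prime_three)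
  rw [hoy] at hm
  rcases Nat.eq_zero_or_pos m with h0 | h0
  · subst h0
    rw [Equiv.Perm.IsThreeCycle, hm]
    rfl
  exfalso
  have hc : Nat.card (Subgroup.centralizer {x}) = Nat.card (Subgroup.centralizer {φ x}) := by
    refine Nat.card_congr (φ.toEquiv.subtypeEquiv fun a => ?_)
    rw [Subgroup.mem_centralizer_iff, Subgroup.mem_centralizer_iff]
    simp only [Set.mem_singleton_iff, forall_eq, MulEquiv.toEquiv_eq_coe, EquivLike.coe_coe,
      ← map_mul, φ.injective.eq_iff]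
  have h1 := (HCyc_card hn x).1
  have h2 := (HCyc_card hn (φ x)).2
  rw [hc] at h1
  have h3 := h1.trans (Nat.mul_le_mul_left 2 h2)
  rw [Equiv.Perm.nat_card_centralizer, Equiv.Perm.nat_card_centralizer, hm,
    show (x : Equiv.Perm (Fin n)).cycleType = {3} from hx] at h3
  have hsum : 3 * (m + 1) ≤ n := by
    have := Equiv.Perm.sum_cycleType ((φ x : alternatingGroup (Fin n)) : Equiv.Perm (Fin n))
    rw [hm, Multiset.sum_replicate, smul_eq_mul] at this
    have h5 := Finset.card_le_univ ((φ x : alternatingGroup (Fin n)) : Equiv.Perm (Fin n)).support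
    rw [← this, Fintype.card_fin] at h5
    omega
  obtain ⟨d, rfl⟩ := Nat.exists_eq_add_of_le hsum
  have h7 := HCyc_num (m + 1) d (by omega) h6
  simp only [Multiset.sum_singleton, Multiset.prod_singleton, Multiset.toFinset_singleton,
    Finset.prod_singleton, Multiset.count_singleton_self, Nat.factorial_one, mul_one,
    Fintype.card_fin, Multiset.sum_replicate, smul_eq_mul,
    Multiset.prod_replicate, Multiset.toFinset_replicate, Multiset.count_replicate_self,
    Nat.succ_ne_zero, if_false] at h3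
  have e : 3 * (m + 1) + d - (m + 1) * 3 = d := by omega
  rw [e] at h3
  rw [← mul_assoc (Nat.factorial d)] at h7
  omega

end MP7b0bad

end

section

set_option autoImplicit false

namespace MP7b0bad

theorem HCyc6_conj (y1 y2 : alternatingGroup (Fin 6))
    (h1 : (y1 : Equiv.Perm (Fin 6)).cycleType = {3, 3})
    (h2 : (y2 : Equiv.Perm (Fin 6)).cycleType = {3, 3}) :
    ∃ a : alternatingGroup (Fin 6), a * y1 * a⁻¹ = y2 := by
  have hc : IsConj (y1 : Equiv.Perm (Fin 6)) (y2 : Equiv.Perm (Fin 6)) :=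
    Equiv.Perm.isConj_of_cycleType_eq (h1.trans h2.symm)
  obtain ⟨σ, hσ⟩ := isConj_iff.mp hc
  by_cases hs : σ ∈ alternatingGroup (Fin 6)
  · refine ⟨⟨σ, hs⟩, ?_⟩
    ext1
    exact hσ
  · have hn : ¬ Subgroup.centralizer {(y1 : Equiv.Perm (Fin 6))} ≤ alternatingGroup (Fin 6) := by
      intro hle
      have h3 := Equiv.Perm.count_le_one_of_centralizer_le_alternating hle 3
      rw [h1] at h3
      revert h3
      decide
    obtain ⟨τ, hτ, hτ'⟩ := SetLike.not_le_iff_exists.mp hn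
    have hcomm : (y1 : Equiv.Perm (Fin 6)) * τ = τ * y1 := by
      rw [Subgroup.mem_centralizer_iff] at hτ
      exact hτ _ (Set.mem_singleton _)
    have hmem : σ * τ ∈ alternatingGroup (Fin 6) := by
      rw [Equiv.Perm.mem_alternatingGroup] at hs hτ' ⊢
      rw [map_mul]
      rcases Int.units_eq_one_or (Equiv.Perm.sign σ) with h | h
      · exact absurd h hs
      · rcases Int.units_eq_one_or (Equiv.Perm.sign τ) with h' | h'
        · exact absurd h' hτ'
        · rw [h, h']; decide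
    refine ⟨⟨σ * τ, hmem⟩, ?_⟩
    ext1
    show σ * τ * (y1 : Equiv.Perm (Fin 6)) * (σ * τ)⁻¹ = y2
    rw [mul_assoc σ τ, ← hcomm, ← hσ]
    group

theorem HCyc6_ord (x : alternatingGroup (Fin 6)) (hx : orderOf x = 3) :
    (x : Equiv.Perm (Fin 6)).IsThreeCycle ∨ (x : Equiv.Perm (Fin 6)).cycleType = {3, 3} := by
  have h1 : orderOf (x : Equiv.Perm (Fin 6)) = 3 := by rw [Subgroup.orderOf_coe, hx]
  obtain ⟨n, hn⟩ := Equiv.Perm.cycleType_prime_order (σ := (x : Equiv.Perm (Fin 6)))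
    (by rw [h1]; exact Nat.prime_three)
  rw [h1] at hn
  have h2 : (x : Equiv.Perm (Fin 6)).cycleType.sum ≤ 6 := by
    rw [Equiv.Perm.sum_cycleType]
    exact (Finset.card_le_univ _).trans (by simp)
  rw [hn, Multiset.sum_replicate, smul_eq_mul] at h2
  have h3 : n = 0 ∨ n = 1 := by omega
  rcases h3 with h3 | h3
  · left
    rw [h3] at hn
    exact hn
  · right
    rw [h3] at hn
    rw [hn]
    rfl

theorem prf_HCyc6 : HCyc6 := by
  intro φ hφ x hx
  have hox : orderOf x = 3 := by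
    rw [← Subgroup.orderOf_coe]; exact hx.orderOf
  have ho : ∀ y, orderOf (φ y) = orderOf y := fun y => MulEquiv.orderOf_eq φ y
  by_contra hcon
  have hy : (φ x : Equiv.Perm (Fin 6)).cycleType = {3, 3} := by
    rcases HCyc6_ord (φ x) (by rw [ho, hox]) with h | h
    · exact absurd h hcon
    · exact h
  have hx3 : ((φ (φ (φ x)) : alternatingGroup (Fin 6)) : Equiv.Perm (Fin 6)).cycleType = {3} := by
    rw [hφ]; exact hx
  have key : ((φ (φ (φ x)) : alternatingGroup (Fin 6)) : Equiv.Perm (Fin 6)).cycleType = {3, 3} := by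
    rcases HCyc6_ord (φ (φ x)) (by rw [ho, ho, hox]) with h | h
    · -- both `x` and `φ (φ x)` are 3-cycles
      have hc : IsConj x (φ (φ x)) :=
        alternatingGroup.isThreeCycle_isConj (by simp) hx h
      obtain ⟨b, hb⟩ := isConj_iff.mp hc
      have h4 : φ (φ (φ x)) = φ b * φ x * (φ b)⁻¹ := by rw [← hb]; simp
      rw [h4, Subgroup.coe_mul, Subgroup.coe_mul, Subgroup.coe_inv, Equiv.Perm.cycleType_conj]
      exact hy
    · obtain ⟨a, ha⟩ := HCyc6_conj (φ x) (φ (φ x)) hy h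
      have h4 : φ (φ (φ x)) = φ a * φ (φ x) * (φ a)⁻¹ := by
        conv_lhs => rw [← ha]
        simp
      rw [h4, Subgroup.coe_mul, Subgroup.coe_mul, Subgroup.coe_inv, Equiv.Perm.cycleType_conj]
      exact h
  rw [hx3] at key
  revert key
  decide

end MP7b0bad

end

section

set_option autoImplicit false

namespace MP7b0bad

/-! Item HEmb (helper49) -/

theorem HEmb_ex {n : ℕ} (S : Finset (Fin n)) (h : S.card < n) : ∃ w, w ∉ S := by
  by_contra hc
  push Not at hc
  have : S = Finset.univ := Finset.eq_univ_iff_forall.2 hc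
  rw [this, Finset.card_univ, Fintype.card_fin] at h
  exact lt_irrefl _ h

/-- only the identity commutes with the alternating group -/
theorem HEmb_cent {n : ℕ} (hn : 5 ≤ n) (g : Equiv.Perm (Fin n))
    (hg : ∀ c : alternatingGroup (Fin n), g * (c : Equiv.Perm (Fin n)) = c * g) : g = 1 := by
  ext1 a
  rw [Equiv.Perm.one_apply]
  by_contra hne
  obtain ⟨b, hb⟩ := HEmb_ex ({a, g a} : Finset (Fin n))
    (lt_of_le_of_lt Finset.card_le_two (by omega))
  obtain ⟨c, hc⟩ := HEmb_ex ({a, g a, b} : Finset (Fin n))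
    (lt_of_le_of_lt Finset.card_le_three (by omega))
  simp only [Finset.mem_insert, Finset.mem_singleton, not_or] at hb hc
  have h3 : (Equiv.swap (g a) b * Equiv.swap (g a) c).IsThreeCycle :=
    Equiv.Perm.isThreeCycle_swap_mul_swap_same (Ne.symm hb.2) (Ne.symm hc.2.1) (Ne.symm hc.2.2)
  have h4 := DFunLike.congr_fun (hg ⟨_, h3.mem_alternatingGroup⟩) a
  simp only [Equiv.Perm.mul_apply] at h4
  rw [Equiv.swap_apply_of_ne_of_ne (Ne.symm hne) (Ne.symm hc.1),
    Equiv.swap_apply_of_ne_of_ne (Ne.symm hne) (Ne.symm hb.1), Equiv.swap_apply_left,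
    Equiv.swap_apply_of_ne_of_ne hc.2.1 hc.2.2] at h4
  exact hc.2.1 h4.symm

theorem HEmb_uniq {n : ℕ} (hn : 5 ≤ n) (s t : Equiv.Perm (Fin n))
    (h : ∀ c : alternatingGroup (Fin n), s * (c : Equiv.Perm (Fin n)) * s⁻¹ = t * c * t⁻¹) :
    s = t := by
  have h1 : t⁻¹ * s = 1 := by
    apply HEmb_cent hn
    intro c
    have h2 : s * (c : Equiv.Perm (Fin n)) = t * c * t⁻¹ * s := by
      rw [← h c]
      group
    rw [mul_assoc, h2]
    group
  have h3 : t * (t⁻¹ * s) = t * 1 := by rw [h1]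
  rwa [mul_inv_cancel_left, mul_one] at h3

theorem HEmb_conj3 {n : ℕ} (g c : Equiv.Perm (Fin n)) (h : c.IsThreeCycle) :
    (g * c * g⁻¹).IsThreeCycle := by
  unfold Equiv.Perm.IsThreeCycle at h ⊢
  rw [Equiv.Perm.cycleType_conj, h]

theorem prf_HEmb (hHAut3 : HAut3) (hHCyc : HCyc) (hHCyc6 : HCyc6) : HEmb := by
  intro n p hn hp hnp X _ _ L u hL he hfaith hu htop
  obtain ⟨e⟩ := he
  set Φ : X →* MulAut (alternatingGroup (Fin n)) :=
    (MulAut.congr e).toMonoidHom.comp (MulAut.conjNormal : X →* MulAut L) with hΦ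
  have hΦa : ∀ (x : X) (c : alternatingGroup (Fin n)),
      Φ x c = e (MulAut.conjNormal x (e.symm c)) := fun x c => rfl
  -- elements of `L`
  have hΦL : ∀ (l : L) (c : alternatingGroup (Fin n)), Φ (l : X) c = e l * c * (e l)⁻¹ := by
    intro l c
    have h1 : MulAut.conjNormal (l : X) (e.symm c) = l * e.symm c * l⁻¹ := by
      apply Subtype.ext
      rw [MulAut.conjNormal_apply]
      rfl
    rw [hΦa, h1, map_mul, map_mul, MulEquiv.apply_symm_apply, map_inv]
  have h3 : ∀ (x : X) (c : alternatingGroup (Fin n)), (c : Equiv.Perm (Fin n)).IsThreeCycle →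
      (Φ x c : Equiv.Perm (Fin n)).IsThreeCycle := by
    by_cases h6 : n = 6
    · have hp3 : p = 3 := hnp.resolve_left (fun h => h h6)
      have hu3 : u ^ 3 = 1 := by rw [← hp3, ← hu]; exact pow_orderOf_eq_one u
      have hLx : ∀ (l : L) (c : alternatingGroup (Fin n)),
          (c : Equiv.Perm (Fin n)).IsThreeCycle →
          (Φ (l : X) c : Equiv.Perm (Fin n)).IsThreeCycle := by
        intro l c hc
        rw [hΦL]
        exact HEmb_conj3 (e l : Equiv.Perm (Fin n)) c hc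
      have hux : ∀ (c : alternatingGroup (Fin n)), (c : Equiv.Perm (Fin n)).IsThreeCycle →
          (Φ u c : Equiv.Perm (Fin n)).IsThreeCycle := by
        subst h6
        refine hHCyc6 (Φ u) ?_
        intro x
        have : Φ u (Φ u (Φ u x)) = Φ (u ^ 3) x := by
          rw [map_pow, pow_succ, pow_two]
          rfl
        rw [this, hu3, map_one]
        rfl
      have hupow : ∀ (k : ℕ) (c : alternatingGroup (Fin n)),
          (c : Equiv.Perm (Fin n)).IsThreeCycle →
          (Φ (u ^ k) c : Equiv.Perm (Fin n)).IsThreeCycle := by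
        intro k
        induction k with
        | zero =>
          intro c hc
          rw [pow_zero, map_one]
          exact hc
        | succ k ih =>
          intro c hc
          rw [pow_succ, map_mul]
          exact ih _ (hux c hc)
      intro x c hc
      have hx : x ∈ L ⊔ Subgroup.zpowers u := by rw [htop]; trivial
      rw [Subgroup.mem_sup_of_normal_left] at hx
      obtain ⟨y, hy, z, hz, hyz⟩ := hx
      obtain ⟨k, hk⟩ := (mem_powers_iff_mem_zpowers.2 hz)
      have hk' : u ^ k = z := hk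
      rw [← hyz, ← hk', map_mul]
      exact hLx ⟨y, hy⟩ _ (hupow k c hc)
    · exact fun x c hc => hHCyc n hn h6 (Φ x) c hc
  choose σ hσ using fun x => hHAut3 n hn (Φ x) (h3 x)
  have hone : σ 1 = 1 := by
    apply HEmb_uniq hn
    intro c
    rw [← hσ, map_one]
    simp
  have hmul : ∀ x y, σ (x * y) = σ x * σ y := by
    intro x y
    apply HEmb_uniq hn
    intro c
    rw [← hσ, map_mul]
    have : (Φ x * Φ y) c = Φ x (Φ y c) := rfl
    rw [this, hσ x, hσ y]
    group
  let f : X →* Equiv.Perm (Fin n) := { toFun := σ, map_one' := hone, map_mul' := hmul }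
  have hfL : ∀ l : L, f (l : X) = (e l : Equiv.Perm (Fin n)) := by
    intro l
    apply HEmb_uniq hn
    intro c
    have h5 : (Φ (l : X) c : Equiv.Perm (Fin n)) = σ (l : X) * c * (σ (l : X))⁻¹ := hσ l c
    have h6 : (Φ (l : X) c : Equiv.Perm (Fin n)) =
        (e l : Equiv.Perm (Fin n)) * c * (e l : Equiv.Perm (Fin n))⁻¹ := by
      rw [hΦL]
      rfl
    exact h5.symm.trans h6
  refine ⟨f, ?_, ?_⟩
  · rw [injective_iff_map_eq_one]
    intro x hx
    have hx' : σ x = 1 := hx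
    apply hfaith
    intro l hl
    have h5 : Φ x (e ⟨l, hl⟩) = e ⟨l, hl⟩ := by
      apply Subtype.ext
      rw [hσ, hx']
      simp
    rw [hΦa, MulEquiv.symm_apply_apply] at h5
    have h6 := congrArg Subtype.val (e.injective h5)
    rw [MulAut.conjNormal_apply] at h6
    have h7 : x * l * x⁻¹ = l := h6
    calc x * l = x * l * x⁻¹ * x := by group
      _ = l * x := by rw [h7]
  · ext τ
    rw [Subgroup.mem_map]
    constructor
    · rintro ⟨l, hl, rfl⟩
      rw [show f l = f ((⟨l, hl⟩ : L) : X) from rfl, hfL]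
      exact (e ⟨l, hl⟩).2
    · intro hτ
      refine ⟨(e.symm ⟨τ, hτ⟩ : L), (e.symm ⟨τ, hτ⟩).2, ?_⟩
      rw [hfL, MulEquiv.apply_symm_apply]

end MP7b0bad

end
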