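import Pool.Agent.Work.MP_7b0bad_ag.Bd.B13
import Pool.Agent.Work.MP_7b0bad_ag.Bd.B06
import Pool.Agent.Work.MP_7b0bad_ag.Bd.B15

/-! Bundle of small proof modules (one section per former module). -/

section

set_option autoImplicit false

namespace MP7b0bad

/-! # Group H, fourth part: `SL_n` -/

/-- the unipotent radical of the stabiliser of `W`: the `g` that act trivially on `W` and on `V/W` -/
def urad {F : Type} [Field F] {n : ℕ} (W : Submodule F (Fin n → F)) :
    Set (Matrix.SpecialLinearGroup (Fin n) F) :=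
  {g | (∀ w ∈ W, (g : Matrix (Fin n) (Fin n) F).mulVec w = w) ∧
    ∀ v, (g : Matrix (Fin n) (Fin n) F).mulVec v - v ∈ W}

/-- opposite unipotent radicals generate -/
def HSL1 : Prop := ∀ (F : Type) [Field F] (n : ℕ) (W W' : Submodule F (Fin n → F)),
  IsCompl W W' → W ≠ ⊥ → W' ≠ ⊥ → Subgroup.closure (urad W ∪ urad W') = ⊤

/-- normal subgroups containing a nontrivial element of a unipotent radical -/
def HSL2 : Prop := ∀ (F : Type) [Field F] (n : ℕ) (W : Submodule F (Fin n → F))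
  (N : Subgroup (Matrix.SpecialLinearGroup (Fin n) F)), N.Normal → 3 ≤ n →
  (∃ g ∈ N, g ∈ urad W ∧ g ≠ 1) → N = ⊤

/-- `p`-elements of `SL_n(F)` outside the centre that leave a proper nonzero subspace invariant,
`p` not the characteristic of `F` -/
def HSL3 : Prop := ∀ (p : ℕ) [Fact p.Prime] (F : Type) [Field F] [Finite F] (n : ℕ),
  (p : F) ≠ 0 → ∀ (s : Matrix.SpecialLinearGroup (Fin n) F) (W : Submodule F (Fin n → F)),
  IsPGroup p (Subgroup.zpowers s) → s ∉ Subgroup.center (Matrix.SpecialLinearGroup (Fin n) F) →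
  W ≠ ⊥ → W ≠ ⊤ → (∀ w ∈ W, (s : Matrix (Fin n) (Fin n) F).mulVec w ∈ W) →
  Gam p (Subgroup.zpowers s) = ⊤

end MP7b0bad

end

section

set_option autoImplicit false

namespace MP7b0bad

open Matrix

/-- conjugation by an invertible matrix -/
noncomputable def HSL1_conj {F : Type} [Field F] {n : ℕ} (P Q : Matrix (Fin n) (Fin n) F)
    (h : P * Q = 1) : SpecialLinearGroup (Fin n) F →* SpecialLinearGroup (Fin n) F where
  toFun g := ⟨P * (g : Matrix (Fin n) (Fin n) F) * Q, by
    have h1 : P.det * Q.det = 1 := by rw [← det_mul, h, det_one]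
    rw [det_mul, det_mul, g.2, mul_one, h1]⟩
  map_one' := by
    apply Subtype.ext
    show P * (1 : Matrix (Fin n) (Fin n) F) * Q = 1
    rw [mul_one, h]
  map_mul' g g' := by
    apply Subtype.ext
    show P * ((g : Matrix (Fin n) (Fin n) F) * (g' : Matrix (Fin n) (Fin n) F)) * Q =
      (P * (g : Matrix (Fin n) (Fin n) F) * Q) * (P * (g' : Matrix (Fin n) (Fin n) F) * Q)
    have h2 : Q * P = 1 := mul_eq_one_comm.1 h
    calc P * ((g : Matrix (Fin n) (Fin n) F) * (g' : Matrix (Fin n) (Fin n) F)) * Q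
        = (P * (g : Matrix (Fin n) (Fin n) F)) * 1 * ((g' : Matrix (Fin n) (Fin n) F) * Q) := by
          rw [mul_one]; simp only [Matrix.mul_assoc]
      _ = _ := by rw [← h2]; simp only [Matrix.mul_assoc]

theorem HSL1_conj_coe {F : Type} [Field F] {n : ℕ} (P Q : Matrix (Fin n) (Fin n) F)
    (h : P * Q = 1) (g : SpecialLinearGroup (Fin n) F) :
    ((HSL1_conj P Q h g : SpecialLinearGroup (Fin n) F) : Matrix (Fin n) (Fin n) F) =
      P * (g : Matrix (Fin n) (Fin n) F) * Q := rfl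

/-- a conjugated transvection -/
theorem HSL1_tv {F : Type} [Field F] {n : ℕ} (b : Module.Basis (Fin n) F (Fin n → F))
    (i j : Fin n) (x : F) (v : Fin n → F) :
    ((Pi.basisFun F (Fin n)).toMatrix b * Matrix.transvection i j x *
      b.toMatrix (Pi.basisFun F (Fin n))).mulVec v = v + (x * b.repr v j) • b i := by
  have hQ : (b.toMatrix (Pi.basisFun F (Fin n))).mulVec v = b.repr v := by
    have h1 := Module.Basis.toMatrix_mulVec_repr (Pi.basisFun F (Fin n)) b v
    have h2 : ((Pi.basisFun F (Fin n)).repr v : Fin n → F) = v := by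
      ext k
      simp
    rw [h2] at h1
    exact h1
  have hPQ : (Pi.basisFun F (Fin n)).toMatrix b * b.toMatrix (Pi.basisFun F (Fin n)) = 1 :=
    Module.Basis.toMatrix_mul_toMatrix_flip _ _
  rw [← Matrix.mulVec_mulVec, ← Matrix.mulVec_mulVec, hQ]
  unfold Matrix.transvection
  rw [Matrix.add_mulVec, Matrix.one_mulVec, Matrix.mulVec_add]
  congr 1
  · rw [← hQ, Matrix.mulVec_mulVec, hPQ, Matrix.one_mulVec]
  · rw [show (single i j x).mulVec (b.repr v : Fin n → F) = Pi.single i (x * b.repr v j) by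
      rw [Matrix.single_mulVec]
      ext k
      simp [Function.update_apply, Pi.single_apply]]
    ext k
    rw [Matrix.mulVec_single]
    simp [Module.Basis.toMatrix_apply, mul_comm]

theorem prf_HSL1 : HSL1 := by
  intro F _ n W W' hc hW hW'
  classical
  -- the basis
  let e : (W × W') ≃ₗ[F] (Fin n → F) := Submodule.prodEquivOfIsCompl W W' hc
  let bW := Module.finBasis F W
  let bW' := Module.finBasis F W'
  let b0 := (bW.prod bW').map e
  let s := b0.indexEquiv (Pi.basisFun F (Fin n))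
  let b : Module.Basis (Fin n) F (Fin n → F) := b0.reindex s
  have hb1 : ∀ i, b (s (Sum.inl i)) = (bW i : Fin n → F) := by
    intro i
    simp [b, b0, e]
  have hb2 : ∀ i, b (s (Sum.inr i)) = (bW' i : Fin n → F) := by
    intro i
    simp [b, b0, e]
  have hr1 : ∀ w ∈ W, ∀ i, b.repr w (s (Sum.inr i)) = 0 := by
    intro w hw i
    have h1 : e.symm w = (⟨w, hw⟩, 0) := by
      rw [LinearEquiv.symm_apply_eq]
      simp [e]
    simp [b, b0, h1]
  have hr2 : ∀ w ∈ W', ∀ i, b.repr w (s (Sum.inl i)) = 0 := by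
    intro w hw i
    have h1 : e.symm w = (0, ⟨w, hw⟩) := by
      rw [LinearEquiv.symm_apply_eq]
      simp [e]
    simp [b, b0, h1]
  have hPQ : (Pi.basisFun F (Fin n)).toMatrix b * b.toMatrix (Pi.basisFun F (Fin n)) = 1 :=
    Module.Basis.toMatrix_mul_toMatrix_flip _ _
  have hQP : b.toMatrix (Pi.basisFun F (Fin n)) * (Pi.basisFun F (Fin n)).toMatrix b = 1 :=
    Module.Basis.toMatrix_mul_toMatrix_flip _ _
  set Φ := HSL1_conj _ _ hPQ with hΦ
  set K := Subgroup.closure (urad W ∪ urad W') with hK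
  have hΦt : ∀ (i j : Fin n) (hij : i ≠ j) (x : F) (v : Fin n → F),
      ((Φ (SpecialLinearGroup.transvection hij x) : SpecialLinearGroup (Fin n) F) :
        Matrix (Fin n) (Fin n) F).mulVec v = v + (x * b.repr v j) • b i := by
    intro i j hij x v
    rw [hΦ, HSL1_conj_coe]
    exact HSL1_tv b i j x v
  have h12 : ∀ (i : Fin _) (j : Fin _) (hij : s (Sum.inl i) ≠ s (Sum.inr j)) (x : F),
      Φ (SpecialLinearGroup.transvection hij x) ∈ K := by
    intro i j hij x
    apply Subgroup.subset_closure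
    left
    refine ⟨fun w hw => ?_, fun v => ?_⟩
    · rw [hΦt, hr1 w hw, mul_zero, zero_smul, add_zero]
    · rw [hΦt, add_sub_cancel_left, hb1]
      exact W.smul_mem _ (bW i).2
  have h21 : ∀ (i : Fin _) (j : Fin _) (hij : s (Sum.inr i) ≠ s (Sum.inl j)) (x : F),
      Φ (SpecialLinearGroup.transvection hij x) ∈ K := by
    intro i j hij x
    apply Subgroup.subset_closure
    right
    refine ⟨fun w hw => ?_, fun v => ?_⟩
    · rw [hΦt, hr2 w hw, mul_zero, zero_smul, add_zero]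
    · rw [hΦt, add_sub_cancel_left, hb2]
      exact W'.smul_mem _ (bW' i).2
  have hn1 : Nonempty (Fin (Module.finrank F W)) := by
    rw [← Fin.pos_iff_nonempty]
    exact Module.finrank_pos_iff.2 ((Submodule.nontrivial_iff_ne_bot).2 hW)
  have hn2 : Nonempty (Fin (Module.finrank F W')) := by
    rw [← Fin.pos_iff_nonempty]
    exact Module.finrank_pos_iff.2 ((Submodule.nontrivial_iff_ne_bot).2 hW')
  obtain ⟨i0⟩ := hn1
  obtain ⟨j0⟩ := hn2
  have hcomm : ∀ (i l j : Fin n) (hil : i ≠ l) (hlj : l ≠ j) (hij : i ≠ j) (x : F),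
      (∀ y, Φ (SpecialLinearGroup.transvection hil y) ∈ K) →
      (∀ y, Φ (SpecialLinearGroup.transvection hlj y) ∈ K) →
      Φ (SpecialLinearGroup.transvection hij x) ∈ K := by
    intro i l j hil hlj hij x h1 h2
    rw [← J4_comm i l j hil hlj hij x, map_mul, map_mul, map_mul, map_inv, map_inv]
    exact K.mul_mem (K.mul_mem (K.mul_mem (h1 _) (h2 _)) (K.inv_mem (h1 _))) (K.inv_mem (h2 _))
  have hne : ∀ i j, s (Sum.inl i) ≠ s (Sum.inr j) := by
    intro i j h
    have := s.injective h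
    simp at this
  have hall : ∀ (i j : Fin n) (hij : i ≠ j) (x : F),
      Φ (SpecialLinearGroup.transvection hij x) ∈ K := by
    intro i j
    obtain ⟨i', rfl⟩ := s.surjective i
    obtain ⟨j', rfl⟩ := s.surjective j
    intro hij x
    rcases i' with i' | i' <;> rcases j' with j' | j'
    · exact hcomm _ (s (Sum.inr j0)) _ (hne _ _) (hne _ _).symm hij x (fun y => h12 _ _ _ y)
        (fun y => h21 _ _ _ y)
    · exact h12 _ _ _ x
    · exact h21 _ _ _ x
    · exact hcomm _ (s (Sum.inl i0)) _ (hne _ _).symm (hne _ _) hij x (fun y => h21 _ _ _ y)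
        (fun y => h12 _ _ _ y)
  haveI : Nontrivial (Fin n) := ⟨⟨s (Sum.inl i0), s (Sum.inr j0), hne _ _⟩⟩
  have hgen := J4_gen (n := Fin n) (F := F) (K.comap Φ) (fun i j hij x => hall i j hij x)
  rw [eq_top_iff]
  intro g _
  have h3 := hgen (HSL1_conj _ _ hQP g)
  rw [Subgroup.mem_comap] at h3
  have h4 : Φ (HSL1_conj _ _ hQP g) = g := by
    apply Subtype.ext
    rw [hΦ, HSL1_conj_coe, HSL1_conj_coe]
    calc _ = ((Pi.basisFun F (Fin n)).toMatrix b * b.toMatrix (Pi.basisFun F (Fin n))) *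
          (g : Matrix (Fin n) (Fin n) F) *
          ((Pi.basisFun F (Fin n)).toMatrix b * b.toMatrix (Pi.basisFun F (Fin n))) := by
            simp only [Matrix.mul_assoc]
      _ = _ := by rw [hPQ, one_mul, mul_one]
  rwa [h4] at h3

end MP7b0bad

end

section

set_option autoImplicit false

/-! # `HSL2`: normal subgroups of `SL_n(F)`, `n ≥ 3`, containing a nontrivial element of a
unipotent radical -/

namespace MP7b0bad

open Matrix

section

variable {F : Type} [Field F] {n : ℕ}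

theorem HSL2_ext {g h : Matrix.SpecialLinearGroup (Fin n) F}
    (H : ∀ x, (g : Matrix (Fin n) (Fin n) F).mulVec x = (h : Matrix (Fin n) (Fin n) F).mulVec x) :
    g = h := by
  apply Subtype.ext
  exact Matrix.ext_of_mulVec_single fun i => H _

theorem HSL2_det (v φ : Fin n → F) (h : φ ⬝ᵥ v = 0) :
    (1 + Matrix.vecMulVec v φ : Matrix (Fin n) (Fin n) F).det = 1 := by
  rw [Matrix.vecMulVec_eq Unit, Matrix.det_one_add_replicateCol_mul_replicateRow, h, add_zero]

/-- the transvection `x ↦ x + φ(x) v` -/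
def HSL2_tv (v φ : Fin n → F) (h : φ ⬝ᵥ v = 0) : Matrix.SpecialLinearGroup (Fin n) F :=
  ⟨1 + Matrix.vecMulVec v φ, HSL2_det v φ h⟩

theorem HSL2_tv_apply (v φ : Fin n → F) (h : φ ⬝ᵥ v = 0) (x : Fin n → F) :
    (HSL2_tv v φ h : Matrix (Fin n) (Fin n) F).mulVec x = x + (φ ⬝ᵥ x) • v := by
  change (1 + Matrix.vecMulVec v φ : Matrix (Fin n) (Fin n) F).mulVec x = _
  rw [Matrix.add_mulVec, Matrix.one_mulVec, Matrix.vecMulVec_mulVec]
  ext i
  simp [mul_comm]

/-- the basic commutator computation -/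
theorem HSL2_comm (N : Subgroup (Matrix.SpecialLinearGroup (Fin n) F)) (hN : N.Normal)
    (W : Submodule F (Fin n → F)) (g : Matrix.SpecialLinearGroup (Fin n) F) (hg : g ∈ urad W)
    (u : Fin n → F) (hu : u ∈ W) (ψ : Fin n → F) (hψ : ψ ⬝ᵥ u = 0)
    (hgN : g ∈ N ∨ HSL2_tv u ψ hψ ∈ N) :
    ∃ T ∈ N, ∀ x, (T : Matrix (Fin n) (Fin n) F).mulVec x =
      x + (ψ ⬝ᵥ ((g : Matrix (Fin n) (Fin n) F).mulVec x - x)) • u := by
  obtain ⟨h1, h2⟩ := hg
  set t := HSL2_tv u ψ hψ with ht
  refine ⟨t * g * t⁻¹ * g⁻¹, ?_, ?_⟩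
  · rcases hgN with h | h
    · exact N.mul_mem (hN.conj_mem g h t) (N.inv_mem h)
    · have := N.mul_mem h (hN.conj_mem _ (N.inv_mem h) g)
      have e : t * g * t⁻¹ * g⁻¹ = t * (g * t⁻¹ * g⁻¹) := by group
      rw [e]; exact this
  · have e : ∀ x, ((t * g * t⁻¹ * g⁻¹ : Matrix.SpecialLinearGroup (Fin n) F) :
        Matrix (Fin n) (Fin n) F).mulVec
        (((g * t : Matrix.SpecialLinearGroup (Fin n) F) : Matrix (Fin n) (Fin n) F).mulVec x) =
        ((t * g : Matrix.SpecialLinearGroup (Fin n) F) : Matrix (Fin n) (Fin n) F).mulVec x := by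
      intro x
      have e0 : t * g * t⁻¹ * g⁻¹ * (g * t) = t * g := by group
      rw [Matrix.mulVec_mulVec, ← Matrix.SpecialLinearGroup.coe_mul, e0]
    intro y
    obtain ⟨x, hx⟩ : ∃ x, ((g * t : Matrix.SpecialLinearGroup (Fin n) F) :
        Matrix (Fin n) (Fin n) F).mulVec x = y := by
      refine ⟨(((g * t)⁻¹ : Matrix.SpecialLinearGroup (Fin n) F) :
        Matrix (Fin n) (Fin n) F).mulVec y, ?_⟩
      rw [Matrix.mulVec_mulVec, ← Matrix.SpecialLinearGroup.coe_mul, mul_inv_cancel,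
        Matrix.SpecialLinearGroup.coe_one, Matrix.one_mulVec]
    rw [← hx, e x]
    have gx : (g : Matrix (Fin n) (Fin n) F).mulVec ((g : Matrix (Fin n) (Fin n) F).mulVec x) =
        (g : Matrix (Fin n) (Fin n) F).mulVec x + ((g : Matrix (Fin n) (Fin n) F).mulVec x - x) := by
      have := h1 _ (h2 x)
      rw [Matrix.mulVec_sub] at this
      rw [← this]; abel
    rw [Matrix.SpecialLinearGroup.coe_mul, Matrix.SpecialLinearGroup.coe_mul,
      ← Matrix.mulVec_mulVec, ← Matrix.mulVec_mulVec, ht, HSL2_tv_apply, HSL2_tv_apply,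
      Matrix.mulVec_add, Matrix.mulVec_smul, h1 u hu, Matrix.mulVec_add, Matrix.mulVec_smul,
      h1 u hu, gx]
    rw [dotProduct_sub, dotProduct_add, dotProduct_add, dotProduct_add, dotProduct_sub]
    ext i
    simp only [Pi.add_apply, Pi.smul_apply, smul_eq_mul]
    ring

theorem HSL2_dual (a b : Fin n → F) (h : ∀ c : F, b ≠ c • a) :
    ∃ c : Fin n → F, c ⬝ᵥ a = 0 ∧ c ⬝ᵥ b = 1 := by
  by_cases ha : a = 0
  · have hb : b ≠ 0 := by
      intro hb; exact h 0 (by rw [hb, zero_smul])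
    obtain ⟨k, hk⟩ := Function.ne_iff.mp hb
    refine ⟨Pi.single k (b k)⁻¹, by rw [ha, dotProduct_zero], ?_⟩
    rw [single_dotProduct]
    exact inv_mul_cancel₀ hk
  · obtain ⟨i, hi⟩ := Function.ne_iff.mp ha
    simp only [Pi.zero_apply] at hi
    obtain ⟨k, hk⟩ : ∃ k, a i * b k - a k * b i ≠ 0 := by
      by_contra hcon
      push Not at hcon
      apply h (b i / a i)
      ext k
      have := hcon k
      simp only [Pi.smul_apply, smul_eq_mul]
      field_simp
      linear_combination this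
    refine ⟨(a i * b k - a k * b i)⁻¹ • (Pi.single k (a i) - Pi.single i (a k)), ?_, ?_⟩
    · rw [smul_dotProduct, sub_dotProduct, single_dotProduct, single_dotProduct,
        mul_comm (a i) (a k), sub_self, smul_zero]
    · rw [smul_dotProduct, sub_dotProduct, single_dotProduct, single_dotProduct, smul_eq_mul]
      exact inv_mul_cancel₀ hk

theorem HSL2_two (hn : 3 ≤ n) (a b : Fin n → F) : ∃ x : Fin n → F, x ≠ 0 ∧ a ⬝ᵥ x = 0 ∧
    b ⬝ᵥ x = 0 := by
  let L : (Fin n → F) →ₗ[F] F × F :=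
    { toFun := fun x => (a ⬝ᵥ x, b ⬝ᵥ x)
      map_add' := fun x y => by simp [dotProduct_add]
      map_smul' := fun c x => by simp [dotProduct_smul] }
  have h : LinearMap.ker L ≠ ⊥ := by
    apply LinearMap.ker_ne_bot_of_finrank_lt
    rw [Module.finrank_prod, Module.finrank_self, Module.finrank_fintype_fun_eq_card,
      Fintype.card_fin]
    omega
  obtain ⟨x, hx, hx0⟩ := (Submodule.ne_bot_iff _).mp h
  have hx' : L x = 0 := hx
  exact ⟨x, hx0, congrArg Prod.fst hx', congrArg Prod.snd hx'⟩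

theorem HSL2_move (hn : 3 ≤ n) (Q : (Fin n → F) → (Fin n → F) → Prop)
    (h0 : ∀ y, Q 0 y)
    (step : ∀ x y x' c, y ⬝ᵥ x = 0 → y ⬝ᵥ x' = 0 → c ⬝ᵥ x' = 0 → c ⬝ᵥ x = 1 → Q x y → Q x' y)
    (x y x' : Fin n → F) (hx : x ≠ 0) (h1 : y ⬝ᵥ x = 0) (h2 : y ⬝ᵥ x' = 0) (hQ : Q x y) :
    Q x' y := by
  have direct : ∀ x x', y ⬝ᵥ x = 0 → y ⬝ᵥ x' = 0 → (∀ c : F, x ≠ c • x') → Q x y → Q x' y := by
    intro x x' h1 h2 h3 hQ
    obtain ⟨c, hc1, hc2⟩ := HSL2_dual x' x h3
    exact step x y x' c h1 h2 hc1 hc2 hQ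
  by_cases hx' : x' = 0
  · rw [hx']; exact h0 y
  by_cases hp : ∃ c : F, x = c • x'
  · obtain ⟨c, hc⟩ := hp
    have hc0 : c ≠ 0 := by
      rintro rfl; exact hx (by rw [hc, zero_smul])
    obtain ⟨i, hi⟩ := Function.ne_iff.mp hx'
    simp only [Pi.zero_apply] at hi
    obtain ⟨z, hz0, hz1, hz2⟩ := HSL2_two hn y (Pi.single i (1 : F))
    rw [single_dotProduct, one_mul] at hz2
    have hQz : Q z y := by
      apply direct x z h1 hz1 _ hQ
      intro d hd
      have := congrFun hd i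
      rw [hc] at this
      simp only [Pi.smul_apply, smul_eq_mul, hz2, mul_zero] at this
      rcases mul_eq_zero.mp this with h | h
      · exact hc0 h
      · exact hi h
    apply direct z x' hz1 h2 _ hQz
    intro d hd
    have := congrFun hd i
    simp only [Pi.smul_apply, smul_eq_mul, hz2] at this
    rcases mul_eq_zero.mp this.symm with h | h
    · apply hz0; rw [hd, h, zero_smul]
    · exact hi h
  · push Not at hp
    exact direct x x' h1 h2 hp hQ

/-- all transvections from one -/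
theorem HSL2_all (hn : 3 ≤ n) (N : Subgroup (Matrix.SpecialLinearGroup (Fin n) F))
    (hN : N.Normal) (v φ : Fin n → F) (hv : v ≠ 0) (hφ : φ ≠ 0) (hvφ : φ ⬝ᵥ v = 0)
    (h : HSL2_tv v φ hvφ ∈ N) (u ψ : Fin n → F) (huψ : ψ ⬝ᵥ u = 0) : HSL2_tv u ψ huψ ∈ N := by
  let P : (Fin n → F) → (Fin n → F) → Prop := fun x y =>
    ∃ T ∈ N, ∀ z, (T : Matrix (Fin n) (Fin n) F).mulVec z = z + (y ⬝ᵥ z) • x
  have P0 : ∀ y, P 0 y := fun y => ⟨1, N.one_mem, fun z => by
    rw [Matrix.SpecialLinearGroup.coe_one, Matrix.one_mulVec, smul_zero, add_zero]⟩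
  have P0' : ∀ x, P x 0 := fun x => ⟨1, N.one_mem, fun z => by
    rw [Matrix.SpecialLinearGroup.coe_one, Matrix.one_mulVec, zero_dotProduct, zero_smul,
      add_zero]⟩
  have Ptv : ∀ x y (hxy : y ⬝ᵥ x = 0), P x y → HSL2_tv x y hxy ∈ N := by
    rintro x y hxy ⟨T, hT, hT'⟩
    have : HSL2_tv x y hxy = T := by
      apply HSL2_ext
      intro z
      rw [hT' z, HSL2_tv_apply]
    rw [this]; exact hT
  have ker : ∀ (y : Fin n → F), ∃ W : Submodule F (Fin n → F), ∀ z, z ∈ W ↔ y ⬝ᵥ z = 0 := by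
    intro y
    refine ⟨{ carrier := {z | y ⬝ᵥ z = 0}
              add_mem' := fun {a b} ha hb => by
                simp only [Set.mem_ofPred_eq] at *
                rw [dotProduct_add, ha, hb, add_zero]
              zero_mem' := by simp
              smul_mem' := fun c a ha => by
                simp only [Set.mem_ofPred_eq] at *
                rw [dotProduct_smul, ha, smul_zero] }, fun z => Iff.rfl⟩
  have hur : ∀ (x y : Fin n → F) (hxy : y ⬝ᵥ x = 0) (W : Submodule F (Fin n → F)),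
      (∀ z, z ∈ W ↔ y ⬝ᵥ z = 0) → HSL2_tv x y hxy ∈ urad W := by
    intro x y hxy W hW
    refine ⟨fun w hw => ?_, fun z => ?_⟩
    · rw [HSL2_tv_apply, (hW w).mp hw, zero_smul, add_zero]
    · rw [HSL2_tv_apply, add_sub_cancel_left, hW, dotProduct_smul, hxy, smul_zero]
  have step1 : ∀ x y x' c, y ⬝ᵥ x = 0 → y ⬝ᵥ x' = 0 → c ⬝ᵥ x' = 0 → c ⬝ᵥ x = 1 →
      P x y → P x' y := by
    intro x y x' c h1 h2 h3 h4 h5
    obtain ⟨W, hW⟩ := ker y
    obtain ⟨T, hT, hT'⟩ := HSL2_comm N hN W (HSL2_tv x y h1) (hur x y h1 W hW) x'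
      ((hW x').mpr h2) c h3 (Or.inl (Ptv x y h1 h5))
    refine ⟨T, hT, fun z => ?_⟩
    rw [hT' z, HSL2_tv_apply, add_sub_cancel_left, dotProduct_smul, h4, smul_eq_mul, mul_one]
  have step2 : ∀ x y x' c, y ⬝ᵥ x = 0 → y ⬝ᵥ x' = 0 → c ⬝ᵥ x' = 0 → c ⬝ᵥ x = 1 →
      P y x → P y x' := by
    intro x y x' c h1 h2 h3 h4 h5
    rw [dotProduct_comm] at h1 h2 h3 h4
    obtain ⟨W, hW⟩ := ker x'
    obtain ⟨T, hT, hT'⟩ := HSL2_comm N hN W (HSL2_tv c x' h3) (hur c x' h3 W hW) y
      ((hW y).mpr h2) x h1 (Or.inr (Ptv y x h1 h5))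
    refine ⟨T, hT, fun z => ?_⟩
    rw [hT' z, HSL2_tv_apply, add_sub_cancel_left, dotProduct_smul, h4, smul_eq_mul, mul_one]
  have m1 := HSL2_move hn P P0 step1
  have m2 := HSL2_move hn (fun x y => P y x) P0' step2
  have hP : P v φ := ⟨_, h, HSL2_tv_apply v φ hvφ⟩
  apply Ptv
  obtain ⟨w, hw0, hw1, hw2⟩ := HSL2_two hn φ ψ
  have q1 : P w φ := m1 v φ w hv hvφ hw1 hP
  have q2 : P w ψ := m2 φ w ψ hφ (by rw [dotProduct_comm]; exact hw1)
    (by rw [dotProduct_comm]; exact hw2) q1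
  exact m1 w ψ u hw0 hw2 huψ q2

theorem HSL2_smul_apply (g : Matrix.SpecialLinearGroup (Fin n) F) (x : Fin n → F) :
    g • x = (g : Matrix (Fin n) (Fin n) F).mulVec x := rfl

theorem HSL2_tr_apply {i j : Fin n} (hij : i ≠ j) (c : F) (x : Fin n → F) :
    (Matrix.SpecialLinearGroup.transvection hij c : Matrix (Fin n) (Fin n) F).mulVec x =
      x + Pi.single i (c * x j) := by
  rw [Matrix.SpecialLinearGroup.transvection_coe, Matrix.add_mulVec, Matrix.one_mulVec]
  congr 1
  ext k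
  rw [Matrix.mulVec, dotProduct]
  by_cases hk : k = i
  · subst hk
    rw [Finset.sum_eq_single j]
    · simp
    · intro b _ hb
      rw [Matrix.single_apply_of_ne _ _ _ _ _ (by tauto), zero_mul]
    · simp
  · rw [Pi.single_eq_of_ne hk]
    apply Finset.sum_eq_zero
    intro b _
    rw [Matrix.single_apply_of_ne _ _ _ _ _ (by tauto), zero_mul]

theorem HSL2_diag_apply {i j : Fin n} (hij : i ≠ j) (a : F) (ha : a ≠ 0) (x : Fin n → F) :
    (Matrix.SpecialLinearGroup.diag2n hij a ha : Matrix (Fin n) (Fin n) F).mulVec x =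
      fun k => (if k = i then a else if k = j then a⁻¹ else 1) * x k := by
  rw [Matrix.SpecialLinearGroup.diag2n_coe]
  ext k
  rw [Matrix.mulVec_diagonal]

theorem HSL2_diag {i j : Fin n} (hij : i ≠ j) (a : F) (ha : a ≠ 0) :
    Matrix.SpecialLinearGroup.diag2n hij a ha =
      Matrix.SpecialLinearGroup.transvection hij a *
      Matrix.SpecialLinearGroup.transvection hij.symm (- a⁻¹) *
      Matrix.SpecialLinearGroup.transvection hij a *
      Matrix.SpecialLinearGroup.transvection hij (-1) *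
      Matrix.SpecialLinearGroup.transvection hij.symm 1 *
      Matrix.SpecialLinearGroup.transvection hij (-1) := by
  apply HSL2_ext
  intro x
  simp only [Matrix.SpecialLinearGroup.coe_mul, ← Matrix.mulVec_mulVec, HSL2_tr_apply,
    HSL2_diag_apply]
  ext k
  by_cases hki : k = i
  · subst hki
    simp [hij, hij.symm]
    field_simp
    ring
  · by_cases hkj : k = j
    · subst hkj
      simp [hij, hij.symm]
      field_simp
      ring
    · simp [hki, hkj]

/-- a subgroup of `SL_n(F)`, `n ≥ 2`, that contains the elementary transvections is everything -/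
theorem HSL2_gen (hn : 2 ≤ n) (N : Subgroup (Matrix.SpecialLinearGroup (Fin n) F))
    (h : ∀ (i j : Fin n) (hij : i ≠ j) (c : F),
      Matrix.SpecialLinearGroup.transvection hij c ∈ N) : N = ⊤ := by
  have : Nontrivial (Fin n) := Fin.nontrivial_iff_two_le.mpr hn
  rw [eq_top_iff]
  intro M _
  refine Matrix.SpecialLinearGroup.diagonal_transvection_induction' (fun g => g ∈ N) M ?_ h
    (fun A B => N.mul_mem)
  intro i j hij c hc
  change Matrix.SpecialLinearGroup.diag2n hij c hc ∈ N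
  rw [HSL2_diag hij c hc]
  exact N.mul_mem (N.mul_mem (N.mul_mem (N.mul_mem (N.mul_mem (h _ _ _ _) (h _ _ _ _))
    (h _ _ _ _)) (h _ _ _ _)) (h _ _ _ _)) (h _ _ _ _)

theorem HSL2_main (W : Submodule F (Fin n → F))
    (N : Subgroup (Matrix.SpecialLinearGroup (Fin n) F)) (hN : N.Normal) (hn : 3 ≤ n)
    (h : ∃ g ∈ N, g ∈ urad W ∧ g ≠ 1) : N = ⊤ := by
  obtain ⟨g, hgN, hg, hg1⟩ := h
  -- a vector moved by `g`
  obtain ⟨x, hx⟩ : ∃ x, (g : Matrix (Fin n) (Fin n) F).mulVec x ≠ x := by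
    by_contra hcon
    push Not at hcon
    apply hg1
    apply HSL2_ext
    intro x
    rw [hcon x, Matrix.SpecialLinearGroup.coe_one, Matrix.one_mulVec]
  obtain ⟨h1, h2⟩ := id hg
  set w0 := (g : Matrix (Fin n) (Fin n) F).mulVec x - x with hw0
  have hw0' : w0 ≠ 0 := sub_ne_zero.mpr hx
  have hw0W : w0 ∈ W := h2 x
  -- a nontrivial transvection in `N`
  have key : ∃ (v φ : Fin n → F) (hvφ : φ ⬝ᵥ v = 0), v ≠ 0 ∧ φ ≠ 0 ∧ HSL2_tv v φ hvφ ∈ N := by
    have hdot : ∀ ψ : Fin n → F, ∃ φ : Fin n → F, ∀ z,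
        φ ⬝ᵥ z = ψ ⬝ᵥ ((g : Matrix (Fin n) (Fin n) F).mulVec z - z) := by
      intro ψ
      refine ⟨Matrix.vecMul ψ (g : Matrix (Fin n) (Fin n) F) - ψ, fun z => ?_⟩
      rw [sub_dotProduct, dotProduct_sub, Matrix.dotProduct_mulVec]
    by_cases hW : ∃ u ∈ W, u ≠ 0 ∧ ∀ c : F, w0 ≠ c • u
    · obtain ⟨u, hu, hu0, hcu⟩ := hW
      obtain ⟨ψ, hψ1, hψ2⟩ := HSL2_dual u w0 hcu
      obtain ⟨T, hT, hT'⟩ := HSL2_comm N hN W g hg u hu ψ hψ1 (Or.inl hgN)
      obtain ⟨φ, hφ⟩ := hdot ψ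
      have hφu : φ ⬝ᵥ u = 0 := by
        rw [hφ, h1 u hu, sub_self, dotProduct_zero]
      refine ⟨u, φ, hφu, hu0, ?_, ?_⟩
      · rintro rfl
        have := hφ x
        rw [zero_dotProduct, ← hw0, hψ2] at this
        exact zero_ne_one this
      · have e : HSL2_tv u φ hφu = T := by
          apply HSL2_ext
          intro z
          rw [hT' z, HSL2_tv_apply, hφ]
        rw [e]; exact hT
    · push Not at hW
      obtain ⟨c, -, hc⟩ := HSL2_dual 0 w0 (fun c => by rw [smul_zero]; exact hw0')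
      obtain ⟨φ, hφ⟩ := hdot c
      have hφ0 : φ ⬝ᵥ w0 = 0 := by
        rw [hφ, h1 w0 hw0W, sub_self, dotProduct_zero]
      refine ⟨w0, φ, hφ0, hw0', ?_, ?_⟩
      · rintro rfl
        have := hφ x
        rw [zero_dotProduct, ← hw0, hc] at this
        exact zero_ne_one this
      · have e : HSL2_tv w0 φ hφ0 = g := by
          apply HSL2_ext
          intro z
          rw [HSL2_tv_apply, hφ]
          set y := (g : Matrix (Fin n) (Fin n) F).mulVec z - z with hy
          have hyW : y ∈ W := h2 z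
          obtain ⟨d, hd⟩ : ∃ d : F, y = d • w0 := by
            by_cases hy0 : y = 0
            · exact ⟨0, by rw [hy0, zero_smul]⟩
            · obtain ⟨d, hd⟩ := hW y hyW hy0
              have hd0 : d ≠ 0 := by
                rintro rfl; exact hw0' (by rw [hd, zero_smul])
              exact ⟨d⁻¹, by rw [hd, smul_smul, inv_mul_cancel₀ hd0, one_smul]⟩
          have : c ⬝ᵥ y = d := by
            rw [hd, dotProduct_smul, hc, smul_eq_mul, mul_one]
          rw [this, ← hd, hy]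
          abel
        rw [e]; exact hgN
  obtain ⟨v, φ, hvφ, hv, hφ, hmem⟩ := key
  apply HSL2_gen (by omega)
  intro i j hij c
  have h0 : (Pi.single j c : Fin n → F) ⬝ᵥ Pi.single i (1 : F) = 0 := by
    rw [single_dotProduct, Pi.single_eq_of_ne hij.symm, mul_zero]
  have e : Matrix.SpecialLinearGroup.transvection hij c = HSL2_tv (Pi.single i 1) (Pi.single j c)
      h0 := by
    apply HSL2_ext
    intro z
    rw [HSL2_tr_apply, HSL2_tv_apply, single_dotProduct, ← Pi.single_smul, smul_eq_mul, mul_one]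
  rw [e]
  exact HSL2_all hn N hN v φ hv hφ hvφ hmem _ _ h0

end

theorem prf_HSL2 : HSL2 := fun F _ n W N hN hn h => HSL2_main W N hN hn h

end MP7b0bad

end

section

set_option autoImplicit false

/-!
# MP_7b0bad_ag: `p`-elements of `SL_n(F)` acting reducibly
-/

namespace MP7b0bad

open Matrix Polynomial

theorem HSL3_mul {F : Type} [Field F] {n : ℕ} (g h : SpecialLinearGroup (Fin n) F)
    (v : Fin n → F) :
    ((g * h : SpecialLinearGroup (Fin n) F) : Matrix (Fin n) (Fin n) F).mulVec v =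
      (g : Matrix (Fin n) (Fin n) F).mulVec ((h : Matrix (Fin n) (Fin n) F).mulVec v) := by
  rw [Matrix.mulVec_mulVec]
  rfl

theorem HSL3_one {F : Type} [Field F] {n : ℕ} (v : Fin n → F) :
    ((1 : SpecialLinearGroup (Fin n) F) : Matrix (Fin n) (Fin n) F).mulVec v = v := by
  exact Matrix.one_mulVec v

theorem HSL3_ext {F : Type} [Field F] {n : ℕ} {g h : SpecialLinearGroup (Fin n) F}
    (H : ∀ v, (g : Matrix (Fin n) (Fin n) F).mulVec v =
      (h : Matrix (Fin n) (Fin n) F).mulVec v) : g = h := by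
  apply Subtype.ext
  apply Matrix.toLin'.injective
  apply LinearMap.ext
  intro v
  rw [Matrix.toLin'_apply, Matrix.toLin'_apply]
  exact H v

theorem HSL3_inv {F : Type} [Field F] {n : ℕ} (g : SpecialLinearGroup (Fin n) F)
    (v : Fin n → F) : ((g⁻¹ : SpecialLinearGroup (Fin n) F) : Matrix (Fin n) (Fin n) F).mulVec
      ((g : Matrix (Fin n) (Fin n) F).mulVec v) = v := by
  rw [← HSL3_mul, inv_mul_cancel, HSL3_one]

theorem HSL3_inv' {F : Type} [Field F] {n : ℕ} (g : SpecialLinearGroup (Fin n) F)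
    (v : Fin n → F) : (g : Matrix (Fin n) (Fin n) F).mulVec
      (((g⁻¹ : SpecialLinearGroup (Fin n) F) : Matrix (Fin n) (Fin n) F).mulVec v) = v := by
  rw [← HSL3_mul, mul_inv_cancel, HSL3_one]

/-- `urad W` as a subgroup -/
def HSL3_A {F : Type} [Field F] {n : ℕ} (W : Submodule F (Fin n → F)) :
    Subgroup (SpecialLinearGroup (Fin n) F) where
  carrier := urad W
  one_mem' := ⟨fun w _ => HSL3_one w, fun v => by rw [HSL3_one, sub_self]; exact W.zero_mem⟩
  mul_mem' := by
    rintro a b ⟨ha1, ha2⟩ ⟨hb1, hb2⟩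
    refine ⟨fun w hw => ?_, fun v => ?_⟩
    · rw [HSL3_mul, hb1 w hw, ha1 w hw]
    · rw [HSL3_mul]
      have h1 := W.add_mem (ha2 ((b : Matrix (Fin n) (Fin n) F).mulVec v)) (hb2 v)
      rwa [sub_add_sub_cancel] at h1
  inv_mem' := by
    rintro a ⟨ha1, ha2⟩
    have h1 : ∀ w ∈ W, ((a⁻¹ : SpecialLinearGroup (Fin n) F) :
        Matrix (Fin n) (Fin n) F).mulVec w = w := by
      intro w hw
      nth_rw 1 [← ha1 w hw]
      exact HSL3_inv a w
    refine ⟨h1, fun v => ?_⟩
    have h2 := h1 _ (ha2 v)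
    rw [Matrix.mulVec_sub, HSL3_inv] at h2
    have h3 : ((a⁻¹ : SpecialLinearGroup (Fin n) F) : Matrix (Fin n) (Fin n) F).mulVec v - v =
        -((a : Matrix (Fin n) (Fin n) F).mulVec v - v) := by
      rw [← h2]; abel
    rw [h3]
    exact W.neg_mem (ha2 v)

theorem HSL3_mem {F : Type} [Field F] {n : ℕ} {W : Submodule F (Fin n → F)}
    {g : SpecialLinearGroup (Fin n) F} : g ∈ HSL3_A W ↔ g ∈ urad W := Iff.rfl

/-- powers of elements of `urad W` -/
theorem HSL3_pow {F : Type} [Field F] {n : ℕ} {W : Submodule F (Fin n → F)}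
    {g : SpecialLinearGroup (Fin n) F} (hg : g ∈ HSL3_A W) (m : ℕ) (v : Fin n → F) :
    ((g ^ m : SpecialLinearGroup (Fin n) F) : Matrix (Fin n) (Fin n) F).mulVec v =
      v + (m : F) • ((g : Matrix (Fin n) (Fin n) F).mulVec v - v) := by
  induction m with
  | zero => rw [pow_zero, HSL3_one, Nat.cast_zero, zero_smul, add_zero]
  | succ m ih =>
    rw [pow_succ', HSL3_mul, ih, Matrix.mulVec_add, Matrix.mulVec_smul,
      hg.1 _ (hg.2 v)]
    push_cast
    rw [add_smul, one_smul]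
    abel

theorem HSL3_card (p : ℕ) [Fact p.Prime] {F : Type} [Field F] [Finite F] {n : ℕ}
    (hp : (p : F) ≠ 0) (W : Submodule F (Fin n → F)) : ¬ p ∣ Nat.card (HSL3_A W) := by
  intro h
  obtain ⟨x, hx⟩ := exists_prime_orderOf_dvd_card' p h
  obtain ⟨r, hr⟩ := CharP.exists F
  have hr0 : ((x : SpecialLinearGroup (Fin n) F) ^ r) = 1 := by
    apply HSL3_ext
    intro v
    rw [HSL3_pow x.2, HSL3_one, CharP.cast_eq_zero, zero_smul, add_zero]
  have hr1 : x ^ r = 1 := Subtype.ext (by push_cast; exact hr0)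
  have h1 : p ∣ r := by rw [← hx]; exact orderOf_dvd_of_pow_eq_one hr1
  have hrp : r.Prime := by
    rcases CharP.char_is_prime_or_zero F r with h2 | h2
    · exact h2
    · exfalso
      subst h2
      have := CharP.charP_to_charZero F
      exact not_finite F
  have h3 : p = r := (Nat.prime_dvd_prime_iff_eq Fact.out hrp).1 h1
  apply hp
  rw [h3]
  exact CharP.cast_eq_zero F r

/-- the group generated by `s` leaves `W` invariant -/
theorem HSL3_zp {F : Type} [Field F] [Finite F] {n : ℕ} (s : SpecialLinearGroup (Fin n) F)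
    (W : Submodule F (Fin n → F))
    (hs : ∀ w ∈ W, (s : Matrix (Fin n) (Fin n) F).mulVec w ∈ W)
    (q : SpecialLinearGroup (Fin n) F) (hq : q ∈ Subgroup.zpowers s) :
    ∀ w ∈ W, (q : Matrix (Fin n) (Fin n) F).mulVec w ∈ W := by
  rw [← mem_powers_iff_mem_zpowers] at hq
  obtain ⟨k, rfl⟩ := hq
  show ∀ w ∈ W, ((s ^ k : SpecialLinearGroup (Fin n) F) :
    Matrix (Fin n) (Fin n) F).mulVec w ∈ W
  induction k with
  | zero => intro w hw; rw [pow_zero, HSL3_one]; exact hw
  | succ k ih => intro w hw; rw [pow_succ', HSL3_mul]; exact hs _ (ih w hw)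

theorem HSL3_conj {F : Type} [Field F] [Finite F] {n : ℕ} (s : SpecialLinearGroup (Fin n) F)
    (W : Submodule F (Fin n → F))
    (hs : ∀ w ∈ W, (s : Matrix (Fin n) (Fin n) F).mulVec w ∈ W)
    (q : SpecialLinearGroup (Fin n) F) (hq : q ∈ Subgroup.zpowers s)
    (a : SpecialLinearGroup (Fin n) F) (ha : a ∈ HSL3_A W) : q * a * q⁻¹ ∈ HSL3_A W := by
  have h1 := HSL3_zp s W hs q hq
  have h2 := HSL3_zp s W hs q⁻¹ (Subgroup.inv_mem _ hq)
  refine ⟨fun w hw => ?_, fun v => ?_⟩
  · rw [HSL3_mul, HSL3_mul, ha.1 _ (h2 w hw), HSL3_inv']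
  · have h3 := h1 _ (ha.2 (((q⁻¹ : SpecialLinearGroup (Fin n) F) :
      Matrix (Fin n) (Fin n) F).mulVec v))
    rw [Matrix.mulVec_sub, HSL3_inv'] at h3
    rw [HSL3_mul, HSL3_mul]
    exact h3

/-- existence of an invariant complement -/
theorem HSL3_compl (p : ℕ) [Fact p.Prime] {F : Type} [Field F] [Finite F] {n : ℕ}
    (hp : (p : F) ≠ 0) (s : SpecialLinearGroup (Fin n) F)
    (hsP : IsPGroup p (Subgroup.zpowers s)) (W : Submodule F (Fin n → F))
    (hs : ∀ w ∈ W, (s : Matrix (Fin n) (Fin n) F).mulVec w ∈ W) :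
    ∃ W' : Submodule F (Fin n → F), IsCompl W W' ∧
      ∀ w ∈ W', (s : Matrix (Fin n) (Fin n) F).mulVec w ∈ W' := by
  obtain ⟨k, hk⟩ := hsP ⟨s, Subgroup.mem_zpowers s⟩
  have hk' : s ^ p ^ k = 1 := by
    have := congrArg Subtype.val hk
    simpa using this
  let f : Module.End F (Fin n → F) := Matrix.toLin' (s : Matrix (Fin n) (Fin n) F)
  have hf : ∀ v, f v = (s : Matrix (Fin n) (Fin n) F).mulVec v := fun v => Matrix.toLin'_apply _ v
  have hfk : ∀ (m : ℕ) v, (f ^ m) v =
      ((s ^ m : SpecialLinearGroup (Fin n) F) : Matrix (Fin n) (Fin n) F).mulVec v := by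
    intro m
    induction m with
    | zero => intro v; rw [pow_zero, pow_zero, HSL3_one]; rfl
    | succ m ih => intro v; rw [pow_succ', pow_succ', HSL3_mul, Module.End.mul_apply, ih, hf]
  have hN : ((p ^ k : ℕ) : F) ≠ 0 := by
    push_cast
    exact pow_ne_zero _ hp
  have hss : f.IsSemisimple := by
    apply Module.End.isSemisimple_of_squarefree_aeval_eq_zero
      (p := (X ^ (p ^ k) - 1 : F[X])) ((X_pow_sub_one_separable_iff.2 hN).squarefree)
    rw [map_sub, map_pow, aeval_X, map_one]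
    apply LinearMap.ext
    intro v
    rw [LinearMap.sub_apply, hfk, hk', HSL3_one]
    exact sub_self v
  obtain ⟨W', hW', hc⟩ := Module.End.isSemisimple_iff.1 hss W
    ((Module.End.mem_invtSubmodule f).2 (fun w hw => by
      rw [Submodule.mem_comap, hf]; exact hs w hw))
  refine ⟨W', hc, fun w hw => ?_⟩
  have := (Module.End.mem_invtSubmodule f).1 hW' hw
  rw [Submodule.mem_comap, hf] at this
  exact this

/-- the unipotent radical normalises `Gam` -/
theorem HSL3_le (hHNor : HNor) (hGCop : GCop) (p : ℕ) [Fact p.Prime] {F : Type} [Field F]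
    [Finite F] {n : ℕ} (hp : (p : F) ≠ 0) (s : SpecialLinearGroup (Fin n) F)
    (hsP : IsPGroup p (Subgroup.zpowers s)) (W : Submodule F (Fin n → F))
    (hs : ∀ w ∈ W, (s : Matrix (Fin n) (Fin n) F).mulVec w ∈ W) :
    HSL3_A W ≤ Subgroup.normalizer
      ((Gam p (Subgroup.zpowers s) : Subgroup (SpecialLinearGroup (Fin n) F)) : Set _) := by
  intro a ha
  have hcard := HSL3_card p hp W
  have hinv := HSL3_conj s W hs
  obtain ⟨h1, -, -⟩ := hGCop p _ (HSL3_A W) (Subgroup.zpowers s) hcard hsP hinv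
  obtain ⟨d, hd, c, -, hc, rfl⟩ := h1 a ha
  refine Subgroup.mul_mem _ ?_ ?_
  · apply Subgroup.le_normalizer
    exact HGenM_le hGCop p _ _ hcard hsP hinv hd
  · exact HGenM_cent hHNor p _ hsP _ hc

/-- `n = 2`: commutators with `s` fill the unipotent radical -/
theorem HSL3_two {F : Type} [Field F] [Finite F] {n : ℕ} (s : SpecialLinearGroup (Fin n) F)
    (W W' : Submodule F (Fin n → F)) (hc : IsCompl W W')
    (hs : ∀ w ∈ W, (s : Matrix (Fin n) (Fin n) F).mulVec w ∈ W) (l l' : F) (hl : l ≠ l')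
    (h1 : ∀ w ∈ W, (s : Matrix (Fin n) (Fin n) F).mulVec w = l • w)
    (h2 : ∀ w ∈ W', (s : Matrix (Fin n) (Fin n) F).mulVec w = l' • w) (a)
    (ha : a ∈ HSL3_A W) : ∃ b ∈ HSL3_A W, b * s * b⁻¹ * s⁻¹ = a := by
  have hq := HSL3_conj s W hs s (Subgroup.mem_zpowers s)
  let φ : HSL3_A W → HSL3_A W := fun b => ⟨(b : SpecialLinearGroup (Fin n) F) * s *
    (b : SpecialLinearGroup (Fin n) F)⁻¹ * s⁻¹, by
      have e : (b : SpecialLinearGroup (Fin n) F) * s *
          (b : SpecialLinearGroup (Fin n) F)⁻¹ * s⁻¹ = (b : SpecialLinearGroup (Fin n) F) *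
          (s * (b : SpecialLinearGroup (Fin n) F)⁻¹ * s⁻¹) := by group
      rw [e]
      exact Subgroup.mul_mem _ b.2 (hq _ (Subgroup.inv_mem _ b.2))⟩
  have hφ : Function.Injective φ := by
    intro b c hbc
    have h3 : (b : SpecialLinearGroup (Fin n) F) * s *
      (b : SpecialLinearGroup (Fin n) F)⁻¹ * s⁻¹ = (c : SpecialLinearGroup (Fin n) F) * s *
      (c : SpecialLinearGroup (Fin n) F)⁻¹ * s⁻¹ := congrArg Subtype.val hbc
    have h4 : (b : SpecialLinearGroup (Fin n) F) * s *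
      (b : SpecialLinearGroup (Fin n) F)⁻¹ = (c : SpecialLinearGroup (Fin n) F) * s *
      (c : SpecialLinearGroup (Fin n) F)⁻¹ := mul_right_cancel h3
    have h5 : ((c : SpecialLinearGroup (Fin n) F)⁻¹ * b) * s =
        s * ((c : SpecialLinearGroup (Fin n) F)⁻¹ * b) := by
      have e1 : ((c : SpecialLinearGroup (Fin n) F)⁻¹ * b) * s =
        (c : SpecialLinearGroup (Fin n) F)⁻¹ * ((b : SpecialLinearGroup (Fin n) F) * s *
      (b : SpecialLinearGroup (Fin n) F)⁻¹) * b := by group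
      rw [e1, h4]
      group
    obtain ⟨g, hg⟩ : ∃ g, g = (c : SpecialLinearGroup (Fin n) F)⁻¹ * b := ⟨_, rfl⟩
    have hgA : g ∈ HSL3_A W := by
      rw [hg]
      exact Subgroup.mul_mem _ (Subgroup.inv_mem _ c.2) b.2
    rw [← hg] at h5
    have hg1 : g = 1 := by
      apply HSL3_ext
      intro v
      rw [HSL3_one]
      obtain ⟨w, w', hw, hw', rfl⟩ : ∃ w w', w ∈ W ∧ w' ∈ W' ∧ w + w' = v := by
        have : v ∈ W ⊔ W' := by rw [hc.sup_eq_top]; trivial
        obtain ⟨w, hw, w', hw', e⟩ := Submodule.mem_sup.1 this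
        exact ⟨w, w', hw, hw', e⟩
      rw [Matrix.mulVec_add, hgA.1 w hw]
      have h6 : (g : Matrix (Fin n) (Fin n) F).mulVec w' - w' = 0 := by
        have h7 := h1 _ (hgA.2 w')
        rw [Matrix.mulVec_sub, ← HSL3_mul, ← h5, HSL3_mul, h2 w' hw', Matrix.mulVec_smul,
          ← smul_sub] at h7
        have h8 : (l - l') • ((g : Matrix (Fin n) (Fin n) F).mulVec w' - w') = 0 := by
          rw [sub_smul, ← h7, sub_self]
        rcases smul_eq_zero.1 h8 with h9 | h9
        · exact absurd (sub_eq_zero.1 h9) hl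
        · exact h9
      rw [sub_eq_zero.1 h6]
    rw [hg, inv_mul_eq_one] at hg1
    exact Subtype.ext hg1.symm
  obtain ⟨b, hb⟩ := Finite.injective_iff_surjective.1 hφ ⟨a, ha⟩
  exact ⟨b, b.2, congrArg Subtype.val hb⟩

theorem HSL3_line {F : Type} [Field F] {n : ℕ} (s : SpecialLinearGroup (Fin n) F)
    (W : Submodule F (Fin n → F)) (h1 : Module.finrank F W = 1)
    (hs : ∀ w ∈ W, (s : Matrix (Fin n) (Fin n) F).mulVec w ∈ W) :
    ∃ l : F, ∀ w ∈ W, (s : Matrix (Fin n) (Fin n) F).mulVec w = l • w := by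
  obtain ⟨w, -, hw⟩ := finrank_eq_one_iff'.1 h1
  obtain ⟨l, hl⟩ := hw ⟨_, hs w w.2⟩
  refine ⟨l, fun u hu => ?_⟩
  obtain ⟨c, hc⟩ := hw ⟨u, hu⟩
  have e1 : (s : Matrix (Fin n) (Fin n) F).mulVec (w : Fin n → F) = l • (w : Fin n → F) := by
    have := congrArg Subtype.val hl
    exact this.symm
  have e2 : c • (w : Fin n → F) = u := congrArg Subtype.val hc
  rw [← e2, Matrix.mulVec_smul, e1, smul_comm]

theorem prf_HSL3 (hHNor : HNor) (hGCop : GCop) (hHSL1 : HSL1) (hHSL2 : HSL2) : HSL3 := by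
  intro p _ F _ _ n hp s W hsP hsc hW0 hW1 hs
  obtain ⟨W', hc, hs'⟩ := HSL3_compl p hp s hsP W hs
  have hW'0 : W' ≠ ⊥ := by
    rintro rfl
    apply hW1
    have := hc.sup_eq_top
    rwa [sup_bot_eq] at this
  obtain ⟨Γ, hΓ⟩ : ∃ Γ, Γ = Gam p (Subgroup.zpowers s) := ⟨_, rfl⟩
  have hK1 := HSL3_le hHNor hGCop p hp s hsP W hs
  have hK2 := HSL3_le hHNor hGCop p hp s hsP W' hs'
  have hcl := hHSL1 F n W W' hc hW0 hW'0
  rw [← hΓ] at hK1 hK2
  have hn : Γ.Normal := by
    rw [← Subgroup.normalizer_eq_top_iff, eq_top_iff, ← hcl, Subgroup.closure_le]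
    exact Set.union_subset (fun a ha => hK1 ha) (fun a ha => hK2 ha)
  have hsΓ : s ∈ Γ := by
    rw [hΓ]
    exact (hHNor p _ (Subgroup.zpowers s) hsP).1 (Subgroup.mem_zpowers s)
  have hcomΓ : ∀ a : SpecialLinearGroup (Fin n) F, a * s * a⁻¹ * s⁻¹ ∈ Γ := fun a =>
    Γ.mul_mem (hn.conj_mem s hsΓ a) (Γ.inv_mem hsΓ)
  rw [← hΓ]
  have hf := Submodule.finrank_add_eq_of_isCompl hc
  rw [Module.finrank_fin_fun] at hf
  have hf1 : 0 < Module.finrank F W :=
    Module.finrank_pos_iff.2 ((Submodule.nontrivial_iff_ne_bot).2 hW0)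
  have hf2 : 0 < Module.finrank F W' :=
    Module.finrank_pos_iff.2 ((Submodule.nontrivial_iff_ne_bot).2 hW'0)
  rcases Nat.lt_or_ge n 3 with h3 | h3
  · -- `n = 2`
    have hf3 : Module.finrank F W = 1 := by omega
    have hf4 : Module.finrank F W' = 1 := by omega
    obtain ⟨l, hl⟩ := HSL3_line s W hf3 hs
    obtain ⟨l', hl'⟩ := HSL3_line s W' hf4 hs'
    have hll : l ≠ l' := by
      rintro rfl
      apply hsc
      have hall : ∀ v, (s : Matrix (Fin n) (Fin n) F).mulVec v = l • v := by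
        intro v
        have : v ∈ W ⊔ W' := by rw [hc.sup_eq_top]; trivial
        obtain ⟨w, hw, w', hw', rfl⟩ := Submodule.mem_sup.1 this
        rw [Matrix.mulVec_add, hl w hw, hl' w' hw', smul_add]
      rw [Subgroup.mem_center_iff]
      intro g
      apply HSL3_ext
      intro v
      rw [HSL3_mul, HSL3_mul, hall, hall, Matrix.mulVec_smul]
    rw [eq_top_iff, ← hcl, Subgroup.closure_le]
    apply Set.union_subset
    · intro a ha
      obtain ⟨b, -, rfl⟩ := HSL3_two s W W' hc hs l l' hll hl hl' a ha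
      exact hcomΓ b
    · intro a ha
      obtain ⟨b, -, rfl⟩ := HSL3_two s W' W hc.symm hs' l' l (Ne.symm hll) hl' hl a ha
      exact hcomΓ b
  · by_contra hne
    have key : ∀ U : Submodule F (Fin n → F),
        (∀ w ∈ U, (s : Matrix (Fin n) (Fin n) F).mulVec w ∈ U) →
        ∀ a ∈ urad U, a * s = s * a := by
      intro U hU a ha
      by_contra hcon
      apply hne
      refine hHSL2 F n U Γ hn h3 ⟨a * s * a⁻¹ * s⁻¹, hcomΓ a, ?_, ?_⟩
      · have e : a * s * a⁻¹ * s⁻¹ = a * (s * a⁻¹ * s⁻¹) := by group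
        rw [e]
        exact Subgroup.mul_mem (HSL3_A U) ha
          (HSL3_conj s U hU s (Subgroup.mem_zpowers s) _ (Subgroup.inv_mem (HSL3_A U) ha))
      · intro h
        apply hcon
        rw [mul_inv_eq_one, mul_inv_eq_iff_eq_mul] at h
        exact h
    apply hsc
    have hle : (⊤ : Subgroup (SpecialLinearGroup (Fin n) F)) ≤ Subgroup.centralizer {s} := by
      rw [← hcl, Subgroup.closure_le]
      apply Set.union_subset
      · intro a ha
        exact Subgroup.mem_centralizer_singleton_iff.2 (key W hs a ha)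
      · intro a ha
        exact Subgroup.mem_centralizer_singleton_iff.2 (key W' hs' a ha)
    rw [Subgroup.mem_center_iff]
    intro g
    exact Subgroup.mem_centralizer_singleton_iff.1 (hle (Subgroup.mem_top g))

end MP7b0bad

end
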