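import Mathlib.GroupTheory.GroupAction.Jordan
import Mathlib.GroupTheory.GroupAction.MultipleTransitivity
import Pool.Agent.Work.MP_7b0bad_ag.Bd.B13
import Pool.Agent.Work.MP_7b0bad_ag.Bd.B12

/-! Bundle of small proof modules (one section per former module). -/

section

/-!
# MP_7b0bad_ag, item HA1O: elements of `P` moving `L`, `p` odd
-/

set_option autoImplicit false

namespace MP7b0bad

/-- step 1 of `prf_HA1` -/
theorem HA1O_step1 (hHNor : HNor) {p : ℕ} [Fact p.Prime] {G : Type} [Group G] [Finite G]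
    {P L : Subgroup G} {u : G} (hP : IsPGroup p P) (hu : u ∈ P)
    (h3 : ∀ v ∈ P, (∀ x ∈ L, v * x * v⁻¹ ∈ L) → ∀ x ∈ L, v * x = x * v)
    (h4 : ∀ v ∈ P, (∀ x ∈ L, v * x * v⁻¹ ∈ L) ∨
      ∀ x ∈ L, ∀ y ∈ L, x * (v * y * v⁻¹) = (v * y * v⁻¹) * x) :
    ∀ c ∈ L, ¬ p ∣ orderOf c → c⁻¹ * (u * c * u⁻¹) ∈ Gam p P := by
  intro c hc hpc
  let k : Set G := {x | ∃ i : ℤ, x = u ^ i * c * (u ^ i)⁻¹}
  have hk1 : ∀ x ∈ k, x ^ (orderOf c) = 1 := by
    rintro x ⟨i, rfl⟩
    rw [conj_pow, pow_orderOf_eq_one, mul_one, mul_inv_cancel]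
  have hk2 : ∀ x ∈ k, ∀ y ∈ k, x * y = y * x := by
    rintro x ⟨i, rfl⟩ y ⟨j, rfl⟩
    have hv : u ^ (i - j) ∈ P := P.zpow_mem hu _
    have hi : u ^ i = u ^ j * u ^ (i - j) := by
      rw [← zpow_add]
      congr 1
      ring
    rcases h4 _ hv with h | h
    · have hcc := h3 _ hv h c hc
      have e : u ^ i * c * (u ^ i)⁻¹ = u ^ j * c * (u ^ j)⁻¹ := by
        rw [hi]
        calc u ^ j * u ^ (i - j) * c * (u ^ j * u ^ (i - j))⁻¹
            = u ^ j * (u ^ (i - j) * c) * (u ^ j * u ^ (i - j))⁻¹ := by rw [mul_assoc (u ^ j)]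
          _ = u ^ j * (c * u ^ (i - j)) * (u ^ j * u ^ (i - j))⁻¹ := by rw [hcc]
          _ = u ^ j * c * (u ^ j)⁻¹ := by group
      rw [e]
    · have hcc := h c hc c hc
      have e : u ^ i * c * (u ^ i)⁻¹ =
          u ^ j * (u ^ (i - j) * c * (u ^ (i - j))⁻¹) * (u ^ j)⁻¹ := by
        rw [hi]
        group
      rw [e]
      calc u ^ j * (u ^ (i - j) * c * (u ^ (i - j))⁻¹) * (u ^ j)⁻¹ *
            (u ^ j * c * (u ^ j)⁻¹)
          = u ^ j * ((u ^ (i - j) * c * (u ^ (i - j))⁻¹) * c) * (u ^ j)⁻¹ := by group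
        _ = u ^ j * (c * (u ^ (i - j) * c * (u ^ (i - j))⁻¹)) * (u ^ j)⁻¹ := by rw [hcc]
        _ = u ^ j * c * (u ^ j)⁻¹ *
            (u ^ j * (u ^ (i - j) * c * (u ^ (i - j))⁻¹) * (u ^ j)⁻¹) := by group
  have hcard := HA1_card hpc hk1 hk2
  have hQ : Subgroup.zpowers u ≤ P := by rwa [Subgroup.zpowers_le]
  have hnorm : ∀ q ∈ Subgroup.zpowers u, ∀ a ∈ Subgroup.closure k,
      q * a * q⁻¹ ∈ Subgroup.closure k := by
    intro q hq a ha
    obtain ⟨j, rfl⟩ := Subgroup.mem_zpowers_iff.1 hq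
    induction ha using Subgroup.closure_induction with
    | mem y hy =>
      obtain ⟨i, rfl⟩ := hy
      refine Subgroup.subset_closure ⟨j + i, ?_⟩
      rw [zpow_add]
      group
    | one => simp
    | mul y z _ _ hy hz =>
      have e : u ^ j * (y * z) * (u ^ j)⁻¹ =
          (u ^ j * y * (u ^ j)⁻¹) * (u ^ j * z * (u ^ j)⁻¹) := by group
      rw [e]
      exact Subgroup.mul_mem _ hy hz
    | inv y _ hy =>
      have e : u ^ j * y⁻¹ * (u ^ j)⁻¹ = (u ^ j * y * (u ^ j)⁻¹)⁻¹ := by group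
      rw [e]
      exact Subgroup.inv_mem _ hy
  have hfin := (hHNor p G P hP).2.2.2 (Subgroup.closure k) (Subgroup.zpowers u) hQ hcard hnorm
    c (Subgroup.subset_closure ⟨0, by simp⟩) u (Subgroup.mem_zpowers u)
  have e : c⁻¹ * (u * c * u⁻¹) = c⁻¹ * u * c * u⁻¹ := by group
  rwa [e]

/-- a nonabelian simple group has nontrivial elements of order prime to `p` -/
theorem HA1O_exists {p : ℕ} [Fact p.Prime] {L : Type} [Group L] [Finite L] [IsSimpleGroup L]
    (hna : ∃ a b : L, a * b ≠ b * a) : ∃ c : L, ¬ p ∣ orderOf c ∧ c ≠ 1 := by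
  by_contra hcon
  push Not at hcon
  have hpg : IsPGroup p L := by
    intro g
    obtain ⟨k, m, hm, he⟩ := Nat.exists_eq_pow_mul_and_not_dvd (orderOf_pos g).ne' p
      (Fact.out : p.Prime).ne_one
    refine ⟨k, hcon _ ?_⟩
    rw [orderOf_pow, he, Nat.gcd_eq_right (Dvd.intro _ rfl),
      Nat.mul_div_cancel_left _ (pow_pos (Fact.out : p.Prime).pos k)]
    exact hm
  have hc := hpg.center_nontrivial
  rcases (inferInstance : (Subgroup.center L).Normal).eq_bot_or_eq_top with hb | ht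
  · rw [Subgroup.nontrivial_iff_ne_bot] at hc
    exact hc hb
  · obtain ⟨x, y, hxy⟩ := hna
    apply hxy
    have hx : y ∈ Subgroup.center L := by rw [ht]; trivial
    exact Subgroup.mem_center_iff.1 hx x

/-- a nonabelian simple group has noncommuting elements of order prime to `p` -/
theorem HA1O_pair {p : ℕ} [Fact p.Prime] {L : Type} [Group L] [Finite L] [IsSimpleGroup L]
    (hna : ∃ a b : L, a * b ≠ b * a) :
    ∃ a b : L, ¬ p ∣ orderOf a ∧ ¬ p ∣ orderOf b ∧ a * b ≠ b * a := by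
  by_contra hcon
  push Not at hcon
  obtain ⟨c, hc, hc1⟩ := HA1O_exists (p := p) hna
  have hS : ∀ c ∈ {c : L | ¬ p ∣ orderOf c}, ∀ g : L, g * c * g⁻¹ ∈ {c : L | ¬ p ∣ orderOf c} := by
    intro x hx g
    have e : orderOf (g * x * g⁻¹) = orderOf x := by
      have := MulEquiv.orderOf_eq (MulAut.conj g) x
      rwa [MulAut.conj_apply] at this
    change ¬ p ∣ orderOf (g * x * g⁻¹)
    rw [e]
    exact hx
  have h1 := HA1_gen hS (show c ∈ {c : L | ¬ p ∣ orderOf c} from hc) hc1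
    (Subgroup.centralizer {c : L | ¬ p ∣ orderOf c}) (by
      intro x hx
      rw [Subgroup.mem_centralizer_iff]
      intro y hy
      exact hcon y x hy hx)
  have h2 := HA1_gen hS (show c ∈ {c : L | ¬ p ∣ orderOf c} from hc) hc1
    (Subgroup.center L) (by
      intro x hx
      rw [Subgroup.mem_center_iff]
      intro y
      have hy : y ∈ Subgroup.centralizer {c : L | ¬ p ∣ orderOf c} := by rw [h1]; trivial
      exact ((Subgroup.mem_centralizer_iff.1 hy) x hx).symm)
  obtain ⟨x, y, hxy⟩ := hna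
  apply hxy
  have hx : y ∈ Subgroup.center L := by rw [h2]; trivial
  exact Subgroup.mem_center_iff.1 hx x

theorem prf_HA1O (hHNor : HNor) : HA1O := by
  intro p _ G _ _ P L u hp2 hP hu h3 h4 _ h6 hL hna
  have hu' : u⁻¹ ∈ P := P.inv_mem hu
  -- powers
  have hpow : ∀ v : G, (∀ x ∈ L, v * x * v⁻¹ ∈ L) → ∀ n : ℕ, ∀ x ∈ L, v ^ n * x * (v ^ n)⁻¹ ∈ L := by
    intro v hv n
    induction n with
    | zero => intro x hx; simpa using hx
    | succ n ih =>
      intro x hx
      have e : v ^ (n + 1) * x * (v ^ (n + 1))⁻¹ = v * (v ^ n * x * (v ^ n)⁻¹) * v⁻¹ := by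
        rw [pow_succ']
        group
      rw [e]
      exact hv _ (ih x hx)
  have hcom : ∀ x ∈ L, ∀ y ∈ L, x * (u * y * u⁻¹) = (u * y * u⁻¹) * x := by
    rcases h4 u hu with h | h
    · obtain ⟨x, hx, hx'⟩ := h6
      exact absurd (h x hx) hx'
    · exact h
  -- the order of `u` is a power of `p`
  obtain ⟨k, hk⟩ : ∃ k : ℕ, u ^ p ^ k = 1 := by
    obtain ⟨k, hk⟩ := hP ⟨u, hu⟩
    exact ⟨k, by simpa using congrArg Subtype.val hk⟩
  have hpk : 0 < p ^ k := pow_pos (Fact.out : p.Prime).pos k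
  have hcom' : ∀ x ∈ L, ∀ y ∈ L, x * (u⁻¹ * y * u) = (u⁻¹ * y * u) * x := by
    rcases h4 u⁻¹ hu' with h | h
    · exfalso
      obtain ⟨x, hx, hx'⟩ := h6
      apply hx'
      have h7 := hpow u⁻¹ h (p ^ k - 1) x hx
      have e : (u⁻¹) ^ (p ^ k - 1) = u := by
        have e1 : u ^ (p ^ k - 1) * u = 1 := by
          rw [← pow_succ, Nat.sub_add_cancel hpk, hk]
        rw [inv_pow]
        exact inv_eq_of_mul_eq_one_right e1
      rwa [e] at h7
    · intro x hx y hy
      have := h x hx y hy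
      rwa [inv_inv] at this
  have hcom2 : ∀ x ∈ L, ∀ y ∈ L, (u⁻¹ * x * u) * (u * y * u⁻¹) = (u * y * u⁻¹) * (u⁻¹ * x * u) := by
    rcases h4 (u ^ 2) (P.pow_mem hu 2) with h | h
    · exfalso
      obtain ⟨x, hx, hx'⟩ := h6
      apply hx'
      have hodd : Odd (p ^ k) := ((Fact.out : p.Prime).odd_of_ne_two hp2).pow
      obtain ⟨j, hj⟩ := hodd
      have h7 := hpow (u ^ 2) h (j + 1) x hx
      have e : (u ^ 2) ^ (j + 1) = u := by
        rw [← pow_mul, mul_add, mul_one, show 2 * j + 2 = (2 * j + 1) + 1 from rfl, ← hj, pow_succ,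
          hk, one_mul]
      rwa [e] at h7
    · intro x hx y hy
      have h8 := h x hx y hy
      rw [pow_two] at h8
      calc (u⁻¹ * x * u) * (u * y * u⁻¹)
          = u⁻¹ * (x * (u * u * y * (u * u)⁻¹)) * u := by group
        _ = u⁻¹ * ((u * u * y * (u * u)⁻¹) * x) * u := by rw [h8]
        _ = (u * y * u⁻¹) * (u⁻¹ * x * u) := by group
  have s1 := HA1O_step1 hHNor hP hu h3 h4
  have s2 := HA1O_step1 hHNor hP hu' h3 h4
  -- commutators
  have hcomm : ∀ a ∈ L, ∀ b ∈ L, ¬ p ∣ orderOf a → ¬ p ∣ orderOf b →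
      a⁻¹ * b⁻¹ * a * b ∈ Gam p P := by
    intro a ha b hb hpa hpb
    have m1 := s1 a ha hpa
    have m2 := s2 b hb hpb
    rw [inv_inv] at m2
    have m3 := (Gam p P).mul_mem ((Gam p P).mul_mem m1 m2)
      ((Gam p P).mul_mem ((Gam p P).inv_mem m1) ((Gam p P).inv_mem m2))
    have e : a⁻¹ * (u * a * u⁻¹) * (b⁻¹ * (u⁻¹ * b * u)) *
        ((a⁻¹ * (u * a * u⁻¹))⁻¹ * (b⁻¹ * (u⁻¹ * b * u))⁻¹) = a⁻¹ * b⁻¹ * a * b := by
      have c1 : Commute (u * a * u⁻¹) (b⁻¹ * (u⁻¹ * b * u)) := by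
        have d1 : Commute (u * a * u⁻¹) b := (hcom b hb a ha).symm
        have d2 : Commute (u * a * u⁻¹) (u⁻¹ * b * u) := (hcom2 b hb a ha).symm
        exact d1.inv_right.mul_right d2
      have c2 : Commute (u⁻¹ * b * u) a := (hcom' a ha b hb).symm
      have c1' : (u * a * u⁻¹) * (b⁻¹ * (u⁻¹ * b * u)) = (b⁻¹ * (u⁻¹ * b * u)) * (u * a * u⁻¹) := c1
      have c2' : (u⁻¹ * b * u) * a = a * (u⁻¹ * b * u) := c2
      calc a⁻¹ * (u * a * u⁻¹) * (b⁻¹ * (u⁻¹ * b * u)) *
            ((a⁻¹ * (u * a * u⁻¹))⁻¹ * (b⁻¹ * (u⁻¹ * b * u))⁻¹)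
          = a⁻¹ * ((u * a * u⁻¹) * (b⁻¹ * (u⁻¹ * b * u))) *
            ((u * a * u⁻¹)⁻¹ * a * (u⁻¹ * b * u)⁻¹ * b) := by group
        _ = a⁻¹ * ((b⁻¹ * (u⁻¹ * b * u)) * (u * a * u⁻¹)) *
            ((u * a * u⁻¹)⁻¹ * a * (u⁻¹ * b * u)⁻¹ * b) := by rw [c1']
        _ = a⁻¹ * b⁻¹ * ((u⁻¹ * b * u) * a) * (u⁻¹ * b * u)⁻¹ * b := by group
        _ = a⁻¹ * b⁻¹ * (a * (u⁻¹ * b * u)) * (u⁻¹ * b * u)⁻¹ * b := by rw [c2']
        _ = a⁻¹ * b⁻¹ * a * b := by group
    rwa [e] at m3
  let K : Subgroup L := (Gam p P).subgroupOf L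
  have hK : ∀ x : L, x ∈ K ↔ (x : G) ∈ Gam p P := fun x => Subgroup.mem_subgroupOf
  have hS : ∀ c ∈ {c : L | ¬ p ∣ orderOf c}, ∀ g : L, g * c * g⁻¹ ∈ {c : L | ¬ p ∣ orderOf c} := by
    intro x hx g
    have e : orderOf (g * x * g⁻¹) = orderOf x := by
      have := MulEquiv.orderOf_eq (MulAut.conj g) x
      rwa [MulAut.conj_apply] at this
    change ¬ p ∣ orderOf (g * x * g⁻¹)
    rw [e]
    exact hx
  obtain ⟨c0, hc0, hc01⟩ := HA1O_exists (p := p) hna
  have hconj : ∀ c : L, ¬ p ∣ orderOf c → ∀ x ∈ K, c⁻¹ * x * c ∈ K := by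
    intro c hc x hx
    rw [hK] at hx ⊢
    have m1 := s1 c.1 c.2 (by rwa [Subgroup.orderOf_coe])
    have m2 := (Gam p P).mul_mem ((Gam p P).mul_mem m1 hx) ((Gam p P).inv_mem m1)
    have d := hcom x.1 x.2 c.1 c.2
    have e : (c : G)⁻¹ * (u * c * u⁻¹) * x * ((c : G)⁻¹ * (u * c * u⁻¹))⁻¹ = (c : G)⁻¹ * x * c := by
      calc (c : G)⁻¹ * (u * c * u⁻¹) * x * ((c : G)⁻¹ * (u * c * u⁻¹))⁻¹
          = (c : G)⁻¹ * ((u * c * u⁻¹) * x) * ((u * c * u⁻¹)⁻¹ * c) := by group
        _ = (c : G)⁻¹ * (x * (u * c * u⁻¹)) * ((u * c * u⁻¹)⁻¹ * c) := by rw [d]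
        _ = (c : G)⁻¹ * x * c := by group
    rw [e] at m2
    simpa using m2
  have hnorm : Subgroup.normalizer (K : Set L) = ⊤ := by
    refine HA1_gen hS (show c0 ∈ {c : L | ¬ p ∣ orderOf c} from hc0) hc01 _ ?_
    intro c hc
    have hc' : ¬ p ∣ orderOf c⁻¹ := by rwa [orderOf_inv]
    rw [Subgroup.mem_normalizer_iff]
    intro x
    constructor
    · intro hx
      have := hconj c⁻¹ hc' x hx
      rwa [inv_inv] at this
    · intro hx
      have := hconj c hc _ hx
      have e : c⁻¹ * (c * x * c⁻¹) * c = x := by group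
      rwa [e] at this
  have hKn : K.Normal := Subgroup.normalizer_eq_top_iff.1 hnorm
  have hKt : K = ⊤ := by
    rcases hKn.eq_bot_or_eq_top with h | h
    · exfalso
      obtain ⟨a, b, hpa, hpb, hab⟩ := HA1O_pair (p := p) hna
      have h7 := hcomm a.1 a.2 b.1 b.2 (by rwa [Subgroup.orderOf_coe]) (by rwa [Subgroup.orderOf_coe])
      have h8 : a⁻¹ * b⁻¹ * a * b ∈ K := by
        rw [hK]
        simpa using h7
      rw [h, Subgroup.mem_bot] at h8
      apply hab
      have h9 : b * a * (a⁻¹ * b⁻¹ * a * b) = b * a * 1 := by rw [h8]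
      have e : b * a * (a⁻¹ * b⁻¹ * a * b) = a * b := by group
      rw [e, mul_one] at h9
      exact h9
    · exact h
  intro x hx
  have : (⟨x, hx⟩ : L) ∈ K := by rw [hKt]; trivial
  exact (hK _).1 this

end MP7b0bad

end

section

set_option autoImplicit false

namespace MP7b0bad

open scoped commutatorElement

/-! # Elements of `P` normalising `L` and acting nontrivially (helper61) -/

/-- choice of `v` -/
theorem HB1M_v (p : ℕ) {G : Type} [Group G] (P L : Subgroup G) (u : G)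
    (hP : IsPGroup p P) (hu : u ∈ P) (hn : ∀ x ∈ L, u * x * u⁻¹ ∈ L)
    (hc : ∃ x ∈ L, u * x ≠ x * u) :
    ∃ v ∈ P, (∀ x ∈ L, v * x * v⁻¹ ∈ L) ∧ (∃ x ∈ L, v * x ≠ x * v) ∧
      ∀ x ∈ L, v ^ p * x = x * v ^ p := by
  classical
  have hex : ∃ N : ℕ, ∀ x ∈ L, u ^ p ^ N * x = x * u ^ p ^ N := by
    obtain ⟨N, hN⟩ := hP ⟨u, hu⟩
    refine ⟨N, fun x _ => ?_⟩
    have h : u ^ p ^ N = 1 := congrArg Subtype.val hN
    rw [h, one_mul, mul_one]
  have hne : Nat.find hex ≠ 0 := by
    intro h0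
    have h := Nat.find_spec hex
    rw [h0, pow_zero, pow_one] at h
    obtain ⟨x, hx, hxx⟩ := hc
    exact hxx (h x hx)
  obtain ⟨j, hj⟩ := Nat.exists_eq_succ_of_ne_zero hne
  have h1 := Nat.find_spec hex
  have h2 : ¬ ∀ x ∈ L, u ^ p ^ j * x = x * u ^ p ^ j := Nat.find_min hex (by omega)
  push Not at h2
  refine ⟨u ^ p ^ j, P.pow_mem hu _, ?_, h2, ?_⟩
  · have h3 : ∀ n : ℕ, ∀ x ∈ L, u ^ n * x * (u ^ n)⁻¹ ∈ L := by
      intro n
      induction n with
      | zero => intro x hx; simpa using hx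
      | succ n ih =>
        intro x hx
        have h := hn _ (ih x hx)
        have e : u * (u ^ n * x * (u ^ n)⁻¹) * u⁻¹ = u ^ (n + 1) * x * (u ^ (n + 1))⁻¹ := by
          rw [pow_succ']
          group
        rwa [e] at h
    exact h3 _
  · rw [hj, Nat.succ_eq_add_one, pow_succ, pow_mul] at h1
    exact h1

theorem HB1M_top (hHNor : HNor) (hHLift : HLift) (p : ℕ) [Fact p.Prime] (L0 : Type) [Group L0]
    (hS : StarM p L0) (X : Type) [Group X] [Finite X] (L : Subgroup X) [L.Normal]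
    (hiso : Nonempty (L ≃* L0)) (v : X) (hgen : L ⊔ Subgroup.zpowers v = ⊤)
    (hv : IsPGroup p (Subgroup.zpowers v)) (hc : ∀ x ∈ L, (∀ y ∈ L, x * y = y * x) → x = 1)
    (hperf : L ≤ ⁅L, L⁆) (hv1 : ∃ x ∈ L, v * x ≠ x * v) (hv2 : ∀ x ∈ L, v ^ p * x = x * v ^ p) :
    L ≤ Gam p (Subgroup.zpowers v) := by
  have hp : p.Prime := Fact.out
  -- the centraliser
  obtain ⟨C, hCdef⟩ : ∃ C : Subgroup X, C = Subgroup.centralizer (L : Set X) := ⟨_, rfl⟩
  have hCn : C.Normal := by rw [hCdef]; infer_instance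
  have memC : ∀ x : X, x ∈ C ↔ ∀ l ∈ L, x * l = l * x := by
    intro x
    rw [hCdef, Subgroup.mem_centralizer_iff]
    exact ⟨fun h l hl => (h l hl).symm, fun h l hl => (h l hl).symm⟩
  have hLC : ∀ x ∈ L, x ∈ C → x = 1 := by
    intro x hx hxC
    exact hc x hx ((memC x).1 hxC)
  have hLn : L.Normal := inferInstance
  -- `C` is central
  have hCv : ∀ c ∈ C, v * c = c * v := by
    intro c hcC
    have hct : c ∈ L ⊔ Subgroup.zpowers v := by rw [hgen]; trivial
    rw [Subgroup.mem_sup_of_normal_left] at hct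
    obtain ⟨l, hl, w, hw, hlw⟩ := hct
    obtain ⟨i, rfl⟩ := Subgroup.mem_zpowers_iff.1 hw
    have h1 : v * c * v⁻¹ * c⁻¹ ∈ L := by
      have e : v * c * v⁻¹ * c⁻¹ = (v * l * v⁻¹) * l⁻¹ := by
        rw [← hlw]
        group
      rw [e]
      exact L.mul_mem (hLn.conj_mem l hl v) (L.inv_mem hl)
    have h2 : v * c * v⁻¹ * c⁻¹ ∈ C := C.mul_mem (hCn.conj_mem c hcC v) (C.inv_mem hcC)
    have h3 := hLC _ h1 h2
    rw [mul_inv_eq_one, mul_inv_eq_iff_eq_mul] at h3
    exact h3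
  have hCz : ∀ c ∈ C, ∀ x : X, x * c = c * x := by
    intro c hcC x
    have h1 : (⊤ : Subgroup X) ≤ Subgroup.centralizer {c} := by
      rw [← hgen]
      refine sup_le ?_ ?_
      · intro l hl
        rw [Subgroup.mem_centralizer_singleton_iff]
        exact ((memC c).1 hcC l hl).symm
      · rw [Subgroup.zpowers_le, Subgroup.mem_centralizer_singleton_iff]
        exact hCv c hcC
    have := h1 (Subgroup.mem_top x)
    rwa [Subgroup.mem_centralizer_singleton_iff] at this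
  -- the quotient
  have hker : ∀ x y : X, (QuotientGroup.mk' C) x = (QuotientGroup.mk' C) y → x * y⁻¹ ∈ C := by
    intro x y h
    rw [← QuotientGroup.eq_one_iff (N := C)]
    change (QuotientGroup.mk' C) (x * y⁻¹) = 1
    rw [map_mul, map_inv, h, mul_inv_cancel]
  have hone : ∀ x : X, (QuotientGroup.mk' C) x = 1 ↔ x ∈ C := fun x => QuotientGroup.eq_one_iff x
  have hsurj : Function.Surjective (QuotientGroup.mk' C) := QuotientGroup.mk'_surjective C
  have hLb : (L.map (QuotientGroup.mk' C)).Normal := hLn.map _ hsurj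
  have hIso : Nonempty ((L.map (QuotientGroup.mk' C)) ≃* L0) := by
    obtain ⟨e⟩ := hiso
    have hinj : Function.Injective ((QuotientGroup.mk' C).comp L.subtype) := by
      rw [injective_iff_map_eq_one]
      intro x hx
      exact Subtype.ext (hLC _ x.2 ((hone _).1 hx))
    have e1 := MonoidHom.ofInjective hinj
    have e2 : ((QuotientGroup.mk' C).comp L.subtype).range = L.map (QuotientGroup.mk' C) := by
      rw [MonoidHom.range_comp, Subgroup.range_subtype]
    rw [e2] at e1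
    exact ⟨e1.symm.trans e⟩
  have hub : orderOf ((QuotientGroup.mk' C) v) = p := by
    apply orderOf_eq_prime
    · rw [← map_pow, hone, memC]
      exact hv2
    · rw [Ne, hone, memC]
      intro h
      obtain ⟨x, hx, hxx⟩ := hv1
      exact hxx (h x hx)
  have hgenb : L.map (QuotientGroup.mk' C) ⊔ Subgroup.zpowers ((QuotientGroup.mk' C) v) = ⊤ := by
    rw [← MonoidHom.map_zpowers, ← Subgroup.map_sup, hgen, ← MonoidHom.range_eq_map]
    exact MonoidHom.range_eq_top.2 hsurj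
  have hcb : ∀ x : X ⧸ C, (∀ l ∈ L.map (QuotientGroup.mk' C), x * l = l * x) → x = 1 := by
    intro x hx
    obtain ⟨y, rfl⟩ := hsurj x
    rw [hone, memC]
    intro l hl
    have h1 := hx _ ⟨l, hl, rfl⟩
    rw [← map_mul, ← map_mul] at h1
    have h2 := hker _ _ h1
    have e : y * l * (l * y)⁻¹ = (y * l * y⁻¹) * l⁻¹ := by group
    have h3 : y * l * (l * y)⁻¹ ∈ L := by
      rw [e]
      exact L.mul_mem (hLn.conj_mem l hl y) (L.inv_mem hl)
    have h4 := hLC _ h3 h2
    rwa [mul_inv_eq_one] at h4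
  have hstar := hS (X ⧸ C) (L.map (QuotientGroup.mk' C)) ((QuotientGroup.mk' C) v) hLb hIso hcb
    hub hgenb
  have hpz : IsPGroup p (Subgroup.zpowers ((QuotientGroup.mk' C) v)) := by
    rw [← MonoidHom.map_zpowers]
    exact hv.map _
  have h5 : Gam p ((Subgroup.zpowers v).map (QuotientGroup.mk' C)) = ⊤ := by
    rw [MonoidHom.map_zpowers, eq_top_iff, ← hgenb]
    exact sup_le hstar (hHNor p (X ⧸ C) _ hpz).1
  have h6 := hHLift p X (Subgroup.zpowers v) C hv h5
  -- commutators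
  have h7 : ∀ x y : X, ⁅x, y⁆ ∈ Gam p (Subgroup.zpowers v) := by
    intro x y
    have hx : x ∈ C ⊔ Gam p (Subgroup.zpowers v) := by rw [h6]; trivial
    have hy : y ∈ C ⊔ Gam p (Subgroup.zpowers v) := by rw [h6]; trivial
    rw [Subgroup.mem_sup_of_normal_left] at hx hy
    obtain ⟨c, hcC, g, hg, rfl⟩ := hx
    obtain ⟨d, hdC, h, hh, rfl⟩ := hy
    have e : ⁅c * g, d * h⁆ = ⁅g, h⁆ := by
      rw [commutatorElement_def, commutatorElement_def]
      have e1 : c * g * (d * h) * (c * g)⁻¹ * (d * h)⁻¹ =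
          c * (g * d) * h * g⁻¹ * c⁻¹ * h⁻¹ * d⁻¹ := by group
      rw [e1, hCz d hdC g]
      have e2 : c * (d * g) * h * g⁻¹ * c⁻¹ * h⁻¹ * d⁻¹ = (c * d) * (g * h * g⁻¹) * c⁻¹ * h⁻¹ * d⁻¹ := by
        group
      rw [e2, ← hCz (c * d) (C.mul_mem hcC hdC) (g * h * g⁻¹)]
      have e3 : g * h * g⁻¹ * (c * d) * c⁻¹ * h⁻¹ * d⁻¹ = g * h * g⁻¹ * (c * d * c⁻¹ * h⁻¹) * d⁻¹ := by
        group
      rw [e3]
      have e4 : c * d = d * c := hCz d hdC c
      rw [e4]
      have e5 : d * c * c⁻¹ * h⁻¹ = d * h⁻¹ := by group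
      rw [e5, ← hCz d hdC h⁻¹]
      group
    rw [e, commutatorElement_def]
    exact Subgroup.mul_mem _ (Subgroup.mul_mem _ (Subgroup.mul_mem _ hg hh)
      (Subgroup.inv_mem _ hg)) (Subgroup.inv_mem _ hh)
  refine hperf.trans ?_
  rw [Subgroup.commutator_le]
  intro x _ y _
  exact h7 x y

theorem prf_HB1M (hHNor : HNor) (hHLift : HLift) : HB1M := by
  intro p _ G _ _ P L u hP hu hn hc hsim hnab hS
  obtain ⟨v, hvP, hvn, hv1, hv2⟩ := HB1M_v p P L u hP hu hn hc
  -- perfect and centreless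
  have hcen : ∀ x ∈ L, (∀ y ∈ L, x * y = y * x) → x = 1 := by
    intro x hx hxy
    rcases hsim.eq_bot_or_eq_top_of_normal (Subgroup.center L) inferInstance with h | h
    · have h1 : (⟨x, hx⟩ : L) ∈ Subgroup.center L := by
        rw [Subgroup.mem_center_iff]
        intro y
        exact Subtype.ext (hxy y y.2).symm
      rw [h, Subgroup.mem_bot] at h1
      exact congrArg Subtype.val h1
    · obtain ⟨a, b, hab⟩ := hnab
      exfalso
      have h1 : a ∈ Subgroup.center L := by rw [h]; trivial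
      rw [Subgroup.mem_center_iff] at h1
      exact hab (h1 b).symm
  have hperf : L ≤ ⁅L, L⁆ := by
    have h1 : commutator L = ⊤ := by
      rcases hsim.eq_bot_or_eq_top_of_normal (commutator L) inferInstance with h | h
      · obtain ⟨a, b, hab⟩ := hnab
        exfalso
        have h2 : ⁅a, b⁆ ∈ commutator L :=
          Subgroup.commutator_mem_commutator (Subgroup.mem_top a) (Subgroup.mem_top b)
        rw [h, Subgroup.mem_bot, commutatorElement_eq_one_iff_mul_comm] at h2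
        exact hab h2
      · exact h
    have h2 : (commutator L).map L.subtype = ⁅L, L⁆ := by
      rw [commutator_def, Subgroup.map_commutator, ← MonoidHom.range_eq_map,
        Subgroup.range_subtype]
    rw [← h2, h1, ← MonoidHom.range_eq_map, Subgroup.range_subtype]
  -- the subgroup
  obtain ⟨X, hX⟩ : ∃ X : Subgroup G, X = L ⊔ Subgroup.zpowers v := ⟨_, rfl⟩
  have hLX : L ≤ X := by rw [hX]; exact le_sup_left
  have hvX : v ∈ X := by
    have h3 : Subgroup.zpowers v ≤ X := by rw [hX]; exact le_sup_right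
    exact h3 (Subgroup.mem_zpowers v)
  have hvz : Subgroup.zpowers v ≤ P := by rwa [Subgroup.zpowers_le]
  have hvzX : Subgroup.zpowers v ≤ X := by rwa [Subgroup.zpowers_le]
  have hXn : X ≤ Subgroup.normalizer (L : Set G) := by
    rw [hX]
    refine sup_le Subgroup.le_normalizer ?_
    rw [Subgroup.zpowers_le]
    have h1 : L.map (MulAut.conj v).toMonoidHom ≤ L := by
      rintro _ ⟨x, hx, rfl⟩
      exact hvn x hx
    have h2 : L.map (MulAut.conj v).toMonoidHom = L := by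
      refine Subgroup.eq_of_le_of_card_ge h1 (le_of_eq ?_)
      exact Nat.card_congr (L.equivMapOfInjective _ (MulAut.conj v).injective).toEquiv
    rw [Subgroup.mem_normalizer_iff]
    intro h
    refine ⟨hvn h, fun hh => ?_⟩
    have h3 : v * h * v⁻¹ ∈ L.map (MulAut.conj v).toMonoidHom := by
      rw [h2]
      exact hh
    obtain ⟨y, hy, hyv⟩ := h3
    have h4 : v * y * v⁻¹ = v * h * v⁻¹ := hyv
    have h5 : y = h := mul_left_cancel (mul_right_cancel h4)
    rwa [← h5]
  have hLXn : (L.subgroupOf X).Normal := by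
    constructor
    intro x hx n
    rw [Subgroup.mem_subgroupOf] at hx ⊢
    exact ((Subgroup.mem_normalizer_iff.1 (hXn n.2)) x).1 hx
  have hzz : Subgroup.zpowers (⟨v, hvX⟩ : X) = (Subgroup.zpowers v).subgroupOf X := by
    ext x
    rw [Subgroup.mem_subgroupOf, Subgroup.mem_zpowers_iff, Subgroup.mem_zpowers_iff]
    constructor
    · rintro ⟨i, rfl⟩
      exact ⟨i, rfl⟩
    · rintro ⟨i, hi⟩
      exact ⟨i, Subtype.ext hi⟩
  have hfin := HB1M_top hHNor hHLift p L hS X (L.subgroupOf X)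
    ⟨Subgroup.subgroupOfEquivOfLe hLX⟩ ⟨v, hvX⟩ (by
      apply Subgroup.map_injective X.subtype_injective
      rw [Subgroup.map_sup, hzz, Subgroup.map_subgroupOf_eq_of_le hLX,
        Subgroup.map_subgroupOf_eq_of_le hvzX, ← MonoidHom.range_eq_map, Subgroup.range_subtype,
        hX]) (by
      rw [hzz]
      exact (hP.to_le hvz).comap_subtype) (by
      intro x hx hxy
      rw [Subgroup.mem_subgroupOf] at hx
      apply Subtype.ext
      refine hcen x hx fun y hy => ?_
      exact congrArg Subtype.val (hxy ⟨y, hLX hy⟩ (by rwa [Subgroup.mem_subgroupOf]))) (by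
      rw [← Subgroup.map_le_map_iff_of_injective X.subtype_injective, Subgroup.map_commutator,
        Subgroup.map_subgroupOf_eq_of_le hLX]
      exact hperf) (by
      obtain ⟨x, hx, hxx⟩ := hv1
      refine ⟨⟨x, hLX hx⟩, by rwa [Subgroup.mem_subgroupOf], fun h => hxx ?_⟩
      exact congrArg Subtype.val h) (by
      intro x hx
      rw [Subgroup.mem_subgroupOf] at hx
      exact Subtype.ext (hv2 x hx))
  rw [hzz] at hfin
  have h8 := Subgroup.map_mono (f := X.subtype) hfin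
  rw [Subgroup.map_subgroupOf_eq_of_le hLX] at h8
  exact h8.trans ((hHNor p G P hP).2.2.1 X (Subgroup.zpowers v) hvz hvzX)

end MP7b0bad

end

section

set_option autoImplicit false

namespace MP7b0bad

/-- embedding of `L⟨u⟩` when conjugation by `u` preserves the 3-cycles -/
theorem HEmbG (hHAut3 : HAut3) (n : ℕ) (hn : 5 ≤ n) (X : Type) [Group X]
    [Finite X] (L : Subgroup X) [L.Normal] (u : X) (e : L ≃* alternatingGroup (Fin n))
    (hfaith : ∀ x : X, (∀ l ∈ L, x * l = l * x) → x = 1) (htop : L ⊔ Subgroup.zpowers u = ⊤)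
    (hpres : ∀ c : alternatingGroup (Fin n), (c : Equiv.Perm (Fin n)).IsThreeCycle →
      (e (MulAut.conjNormal u (e.symm c)) : Equiv.Perm (Fin n)).IsThreeCycle) :
    ∃ f : X →* Equiv.Perm (Fin n), Function.Injective f ∧ L.map f = alternatingGroup (Fin n) := by
  set Φ : X →* MulAut (alternatingGroup (Fin n)) :=
    (MulAut.congr e).toMonoidHom.comp (MulAut.conjNormal : X →* MulAut L) with hΦ
  have hΦa : ∀ (x : X) (c : alternatingGroup (Fin n)),
      Φ x c = e (MulAut.conjNormal x (e.symm c)) := fun x c => rfl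
  -- elements of `L`
  have hΦL : ∀ (l : L) (c : alternatingGroup (Fin n)), Φ (l : X) c = e l * c * (e l)⁻¹ := by
    intro l c
    have h1 : MulAut.conjNormal (l : X) (e.symm c) = l * e.symm c * l⁻¹ := by
      apply Subtype.ext
      rw [MulAut.conjNormal_apply]
      rfl
    rw [hΦa, h1, map_mul, map_mul, MulEquiv.apply_symm_apply, map_inv]
  have h3 : ∀ (x : X) (c : alternatingGroup (Fin n)), (c : Equiv.Perm (Fin n)).IsThreeCycle →
      (Φ x c : Equiv.Perm (Fin n)).IsThreeCycle := by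
    have hLx : ∀ (l : L) (c : alternatingGroup (Fin n)),
        (c : Equiv.Perm (Fin n)).IsThreeCycle →
        (Φ (l : X) c : Equiv.Perm (Fin n)).IsThreeCycle := by
      intro l c hc
      rw [hΦL]
      exact HEmb_conj3 (e l : Equiv.Perm (Fin n)) c hc
    have hupow : ∀ (k : ℕ) (c : alternatingGroup (Fin n)),
        (c : Equiv.Perm (Fin n)).IsThreeCycle →
        (Φ (u ^ k) c : Equiv.Perm (Fin n)).IsThreeCycle := by
      intro k
      induction k with
      | zero =>
        intro c hc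
        rw [pow_zero, map_one]
        exact hc
      | succ k ih =>
        intro c hc
        rw [pow_succ, map_mul]
        exact ih _ (hpres c hc)
    intro x c hc
    have hx : x ∈ L ⊔ Subgroup.zpowers u := by rw [htop]; trivial
    rw [Subgroup.mem_sup_of_normal_left] at hx
    obtain ⟨y, hy, z, hz, hyz⟩ := hx
    obtain ⟨k, hk⟩ := (mem_powers_iff_mem_zpowers.2 hz)
    have hk' : u ^ k = z := hk
    rw [← hyz, ← hk', map_mul]
    exact hLx ⟨y, hy⟩ _ (hupow k c hc)
  choose σ hσ using fun x => hHAut3 n hn (Φ x) (h3 x)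
  have hone : σ 1 = 1 := by
    apply HEmb_uniq hn
    intro c
    rw [← hσ, map_one]
    simp
  have hmul : ∀ x y, σ (x * y) = σ x * σ y := by
    intro x y
    apply HEmb_uniq hn
    intro c
    rw [← hσ, map_mul]
    have : (Φ x * Φ y) c = Φ x (Φ y c) := rfl
    rw [this, hσ x, hσ y]
    group
  let f : X →* Equiv.Perm (Fin n) := { toFun := σ, map_one' := hone, map_mul' := hmul }
  have hfL : ∀ l : L, f (l : X) = (e l : Equiv.Perm (Fin n)) := by
    intro l
    apply HEmb_uniq hn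
    intro c
    have h5 : (Φ (l : X) c : Equiv.Perm (Fin n)) = σ (l : X) * c * (σ (l : X))⁻¹ := hσ l c
    have h6 : (Φ (l : X) c : Equiv.Perm (Fin n)) =
        (e l : Equiv.Perm (Fin n)) * c * (e l : Equiv.Perm (Fin n))⁻¹ := by
      rw [hΦL]
      rfl
    exact h5.symm.trans h6
  refine ⟨f, ?_, ?_⟩
  · rw [injective_iff_map_eq_one]
    intro x hx
    have hx' : σ x = 1 := hx
    apply hfaith
    intro l hl
    have h5 : Φ x (e ⟨l, hl⟩) = e ⟨l, hl⟩ := by
      apply Subtype.ext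
      rw [hσ, hx']
      simp
    rw [hΦa, MulEquiv.symm_apply_apply] at h5
    have h6 := congrArg Subtype.val (e.injective h5)
    rw [MulAut.conjNormal_apply] at h6
    have h7 : x * l * x⁻¹ = l := h6
    calc x * l = x * l * x⁻¹ * x := by group
      _ = l * x := by rw [h7]
  · ext τ
    rw [Subgroup.mem_map]
    constructor
    · rintro ⟨l, hl, rfl⟩
      rw [show f l = f ((⟨l, hl⟩ : L) : X) from rfl, hfL]
      exact (e ⟨l, hl⟩).2
    · intro hτ
      refine ⟨(e.symm ⟨τ, hτ⟩ : L), (e.symm ⟨τ, hτ⟩).2, ?_⟩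
      rw [hfL, MulEquiv.apply_symm_apply]

end MP7b0bad

end

section

set_option autoImplicit false

/-!
# MP_7b0bad_ag: simple groups in which no element of order 4 is inverted by an involutory automorphism
-/

namespace MP7b0bad

/-- no element of order 4 is inverted by an automorphism whose square is the identity -/
def Inv4 (L : Type) [Group L] : Prop :=
  ∀ φ : L ≃* L, (∀ x, φ (φ x) = x) → ∀ x : L, orderOf x = 4 → φ x ≠ x⁻¹

def HInv : Prop := ∀ (L : Type) [Group L] [Finite L], IsSimpleGroup L →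
  (∃ a b : L, a * b ≠ b * a) → Inv4 L → StarL 2 L

/-- a nonabelian simple group has an element of odd order whose square is not trivial -/
theorem HInv_odd (L : Type) [Group L] [Finite L] (hs : IsSimpleGroup L)
    (hab : ∃ a b : L, a * b ≠ b * a) : ∃ c : L, ¬ 2 ∣ orderOf c ∧ c ^ 2 ≠ 1 := by
  classical
  have : Fact (Nat.Prime 2) := ⟨Nat.prime_two⟩
  by_contra hcon
  push Not at hcon
  have hP : IsPGroup 2 L := by
    rw [IsPGroup.iff_card]
    refine ⟨(Nat.card L).factorization 2, ?_⟩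
    have hne : Nat.card L ≠ 0 := Nat.card_pos.ne'
    refine Nat.eq_of_factorization_eq hne (by positivity) ?_
    intro q
    by_cases hq : q.Prime
    · have : Fact q.Prime := ⟨hq⟩
      by_cases h2 : q = 2
      · subst h2
        rw [Nat.factorization_pow, Nat.Prime.factorization Nat.prime_two]
        simp
      · have hnd : ¬ q ∣ Nat.card L := by
          intro hd
          obtain ⟨c, hc⟩ := exists_prime_orderOf_dvd_card' q hd
          have h3 : ¬ 2 ∣ orderOf c := by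
            rw [hc]
            intro h
            exact h2 ((Nat.prime_dvd_prime_iff_eq Nat.prime_two hq).1 h).symm
          have h4 := hcon c h3
          have h5 := orderOf_dvd_of_pow_eq_one h4
          rw [hc] at h5
          exact h2 ((Nat.prime_dvd_prime_iff_eq hq Nat.prime_two).1 h5)
        rw [Nat.factorization_eq_zero_of_not_dvd hnd, Nat.factorization_eq_zero_of_not_dvd]
        intro hd
        exact h2 ((Nat.prime_dvd_prime_iff_eq hq Nat.prime_two).1 (hq.dvd_of_dvd_pow hd))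
    · rw [Nat.factorization_eq_zero_of_not_prime _ hq, Nat.factorization_eq_zero_of_not_prime _ hq]
  have : Nontrivial L := hs.toNontrivial
  have hcn := hP.center_nontrivial
  have hct : Subgroup.center L = ⊤ := by
    rcases hs.eq_bot_or_eq_top_of_normal (Subgroup.center L) inferInstance with h | h
    · rw [h] at hcn
      exact absurd hcn (not_nontrivial _)
    · exact h
  obtain ⟨a, b, hab⟩ := hab
  apply hab
  have : a ∈ Subgroup.center L := by rw [hct]; trivial
  exact (Subgroup.mem_center_iff.1 this b).symm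

/-- if `x` is inverted by the involution `u` and its order is not divisible by 4 then `u * x`
normalises `Gam` -/
theorem HInv_norm (hHNor : HNor) {X : Type} [Group X] [Finite X] (u x : X) (hu : orderOf u = 2)
    (hx : ¬ 4 ∣ orderOf x) (hux : u * x * u⁻¹ = x⁻¹) :
    u * x ∈ Subgroup.normalizer ((Gam 2 (Subgroup.zpowers u) : Subgroup X) : Set X) := by
  have : Fact (Nat.Prime 2) := ⟨Nat.prime_two⟩
  have hu2 : u ^ 2 = 1 := by rw [← hu, pow_orderOf_eq_one]
  have hP : IsPGroup 2 (Subgroup.zpowers u) := by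
    rintro ⟨g, hg⟩
    obtain ⟨k, hk⟩ := Subgroup.mem_zpowers_iff.mp hg
    refine ⟨1, ?_⟩
    apply Subtype.ext
    simp only [pow_one, SubmonoidClass.mk_pow, OneMemClass.coe_one]
    rw [← hk, ← zpow_natCast, ← zpow_mul, mul_comm, zpow_mul, zpow_natCast, hu2, one_zpow]
  obtain ⟨M, hM⟩ : ∃ M : Subgroup X, M = Gam 2 (Subgroup.zpowers u) := ⟨_, rfl⟩
  -- an odd `m` with `x ^ (2 * m) = 1`
  obtain ⟨m, hm, hxm⟩ : ∃ m : ℕ, Odd m ∧ x ^ (2 * m) = 1 := by
    rcases Nat.even_or_odd (orderOf x) with h | h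
    · obtain ⟨m, hm⟩ := h
      refine ⟨m, ?_, ?_⟩
      · rw [← Nat.not_even_iff_odd]
        rintro ⟨j, hj⟩
        exact hx ⟨j, by omega⟩
      · rw [two_mul, ← hm, pow_orderOf_eq_one]
    · exact ⟨orderOf x, h, by rw [mul_comm, pow_mul, pow_orderOf_eq_one, one_pow]⟩
  obtain ⟨j, hj⟩ := hm
  -- `x = a * c ^ 2`
  have huz : ∀ k : ℤ, u * x ^ k * u⁻¹ = (x ^ k)⁻¹ := by
    intro k
    rw [← conj_zpow, hux, inv_zpow]
  set a := x ^ (m : ℤ) with ha
  set c := x ^ (-(j : ℤ) * (m + 1 : ℤ)) with hc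
  have hx2 : x ^ (2 * (m : ℤ)) = 1 := by
    have := hxm
    rw [← zpow_natCast] at this
    simpa using this
  have hac : a * c ^ 2 = x := by
    rw [ha, hc, ← zpow_natCast, ← zpow_mul, ← zpow_add]
    have h1 : (m : ℤ) + -(j : ℤ) * (m + 1 : ℤ) * ((2 : ℕ) : ℤ) = 2 * (m : ℤ) * (-(j : ℤ)) + 1 := by
      rw [hj]; push_cast; ring
    rw [h1, zpow_add, zpow_mul, hx2, one_zpow, one_mul, zpow_one]
  have ha2 : a⁻¹ = a := by
    rw [inv_eq_iff_mul_eq_one, ha, ← zpow_add, ← two_mul, hx2]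
  have hcm : c ^ m = 1 := by
    rw [hc, ← zpow_natCast, ← zpow_mul]
    have h1 : -(j : ℤ) * (m + 1 : ℤ) * (m : ℤ) = 2 * (m : ℤ) * (-(j : ℤ) * ((j : ℤ) + 1)) := by
      rw [hj]; push_cast; ring
    rw [h1, zpow_mul, hx2, one_zpow]
  have hco : Odd (orderOf c) := by
    have h1 : orderOf c ∣ m := orderOf_dvd_of_pow_eq_one hcm
    rw [← Nat.not_even_iff_odd]
    intro h2
    have h3 : Even m := by
      rw [even_iff_two_dvd] at h2 ⊢
      exact h2.trans h1
    rw [hj] at h3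
    exact (Nat.not_even_iff_odd.2 ⟨j, rfl⟩) h3
  have hcM : c ∈ M := by
    rw [hM]
    exact HAlt2_inv hHNor u c hu hco (huz _)
  -- `u * a` commutes with `u`
  have huu : u * u = 1 := by rw [← pow_two, hu2]
  have hui : u⁻¹ = u := by rw [inv_eq_iff_mul_eq_one, huu]
  have hua : u * a = a * u := by
    have h1 := huz (m : ℤ)
    rw [← ha, ha2] at h1
    rw [mul_inv_eq_iff_eq_mul] at h1
    exact h1
  have hcomm : ∀ q ∈ Subgroup.zpowers u, ∀ b : X, b * u = u * b → b * q = q * b := by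
    intro q hq b hb
    obtain ⟨k, rfl⟩ := Subgroup.mem_zpowers_iff.1 hq
    exact (Commute.zpow_right (show Commute b u from hb) k).eq
  have hcent : ∀ b : X, b * u = u * b → b ∈ Subgroup.normalizer (M : Set X) := by
    intro b hb
    have hb' : b⁻¹ * u = u * b⁻¹ := by
      rw [inv_mul_eq_iff_eq_mul, ← mul_assoc, hb, mul_assoc, mul_inv_cancel, mul_one]
    rw [Subgroup.mem_normalizer_iff]
    intro h
    rw [hM]
    constructor
    · intro hh
      exact (hHNor 2 X (Subgroup.zpowers u) hP).2.1 b (fun q hq => hcomm q hq b hb) h hh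
    · intro hh
      have h2 := (hHNor 2 X (Subgroup.zpowers u) hP).2.1 b⁻¹ (fun q hq => hcomm q hq b⁻¹ hb') _ hh
      have e : b⁻¹ * (b * h * b⁻¹) * b⁻¹⁻¹ = h := by group
      rwa [e] at h2
  have hcN : c ∈ Subgroup.normalizer (M : Set X) := Subgroup.le_normalizer hcM
  have key : u * x = c⁻¹ * (u * a) * c := by
    have h1 : u * c = c⁻¹ * u := by
      have h2 := huz (-(j : ℤ) * (m + 1 : ℤ))
      rw [← hc, mul_inv_eq_iff_eq_mul] at h2
      exact h2
    have hcac : a * c = c * a := by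
      rw [ha, hc, ← zpow_add, ← zpow_add, add_comm]
    calc u * x = u * (a * c ^ 2) := by rw [hac]
      _ = u * (c * a) * c := by rw [← hcac, pow_two]; simp only [mul_assoc]
      _ = (u * c) * a * c := by group
      _ = (c⁻¹ * u) * a * c := by rw [h1]
      _ = c⁻¹ * (u * a) * c := by group
  rw [← hM, key]
  refine Subgroup.mul_mem _ (Subgroup.mul_mem _ (Subgroup.inv_mem _ hcN) (hcent _ ?_)) hcN
  rw [mul_assoc, ← hua]

theorem prf_HInv (hHNor : HNor) : HInv := by
  intro L _ _ hs hab hI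
  refine ⟨HInv_odd L hs hab, ?_⟩
  intro X _ _ N u hN hiso hf ho hgen
  obtain ⟨e⟩ := hiso
  have : Fact (Nat.Prime 2) := ⟨Nat.prime_two⟩
  have hu2 : u ^ 2 = 1 := by rw [← ho, pow_orderOf_eq_one]
  have huu : u * u = 1 := by rw [← pow_two, hu2]
  have hui : u⁻¹ = u := by rw [inv_eq_iff_mul_eq_one, huu]
  have hu1 : u ≠ 1 := by
    intro h
    rw [h, orderOf_one] at ho
    omega
  have hP : IsPGroup 2 (Subgroup.zpowers u) := by
    rintro ⟨g, hg⟩
    obtain ⟨k, hk⟩ := Subgroup.mem_zpowers_iff.mp hg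
    refine ⟨1, ?_⟩
    apply Subtype.ext
    simp only [pow_one, SubmonoidClass.mk_pow, OneMemClass.coe_one]
    rw [← hk, ← zpow_natCast, ← zpow_mul, mul_comm, zpow_mul, zpow_natCast, hu2, one_zpow]
  obtain ⟨M, hM⟩ : ∃ M : Subgroup X, M = Gam 2 (Subgroup.zpowers u) := ⟨_, rfl⟩
  have huM : u ∈ M := by
    rw [hM]
    exact (hHNor 2 X (Subgroup.zpowers u) hP).1 (Subgroup.mem_zpowers u)
  -- conjugation by `u` on `N`
  have hsimp : ∀ K : Subgroup X, (∀ n ∈ N, ∀ k ∈ K, n * k * n⁻¹ ∈ K) → N ⊓ K = ⊥ ∨ N ≤ K := by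
    intro K hK
    have hn : (K.subgroupOf N).Normal := by
      constructor
      intro k hk n
      rw [Subgroup.mem_subgroupOf] at hk ⊢
      exact hK n n.2 k hk
    haveI := hs
    haveI : Nontrivial N := e.toEquiv.nontrivial
    have hs' : IsSimpleGroup N :=
      IsSimpleGroup.isSimpleGroup_of_surjective e.symm.toMonoidHom e.symm.surjective
    rcases hs'.eq_bot_or_eq_top_of_normal _ hn with h | h
    · left
      rw [Subgroup.subgroupOf_eq_bot] at h
      exact (disjoint_iff.1 h.symm)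
    · right
      exact Subgroup.subgroupOf_eq_top.1 h
  -- elements of `N` inverted by `u`
  have hord : ∀ x ∈ N, u * x * u⁻¹ = x⁻¹ → ¬ 4 ∣ orderOf x := by
    intro x hx hux h4
    obtain ⟨k, hk⟩ := h4
    have hk0 : k ≠ 0 := by
      rintro rfl
      exact (orderOf_pos x).ne' (by rw [hk])
    let φ : N ≃* N := MulAut.conjNormal u
    have hφ : ∀ y : N, ((φ y : N) : X) = u * y * u⁻¹ := fun y => MulAut.conjNormal_apply u y
    refine hI ((e.symm.trans φ).trans e) ?_ (e (⟨x, hx⟩ ^ k)) ?_ ?_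
    · intro y
      simp only [MulEquiv.trans_apply, MulEquiv.symm_apply_apply]
      have : φ (φ (e.symm y)) = e.symm y := by
        apply Subtype.ext
        rw [hφ, hφ, hui]
        calc u * (u * (e.symm y : X) * u) * u = (u * u) * (e.symm y : X) * (u * u) := by group
          _ = (e.symm y : X) := by rw [huu]; group
      rw [this, MulEquiv.apply_symm_apply]
    · rw [e.orderOf_eq, ← Subgroup.orderOf_coe]
      simp only [SubmonoidClass.mk_pow]
      rw [orderOf_pow_of_dvd hk0 ⟨4, by rw [hk, mul_comm]⟩, hk]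
      exact Nat.mul_div_cancel _ (Nat.pos_of_ne_zero hk0)
    · simp only [MulEquiv.trans_apply, MulEquiv.symm_apply_apply]
      rw [← map_inv]
      congr 1
      apply Subtype.ext
      rw [hφ]
      simp only [SubmonoidClass.mk_pow, InvMemClass.coe_inv]
      rw [← conj_pow, hux, inv_pow]
  -- conjugates of `u` normalise `M`
  have hconj : ∀ g : X, g * u * g⁻¹ ∈ Subgroup.normalizer (M : Set X) := by
    intro g
    have hg : g ∈ N ⊔ Subgroup.zpowers u := by rw [hgen]; trivial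
    rw [Subgroup.mem_sup_of_normal_left] at hg
    obtain ⟨n, hn, w, hw, hgw⟩ := hg
    obtain ⟨k, rfl⟩ := Subgroup.mem_zpowers_iff.1 hw
    have h1 : g * u * g⁻¹ = n * u * n⁻¹ := by
      rw [← hgw]
      have : u ^ k * u = u * u ^ k := ((Commute.refl u).zpow_left k).eq
      calc n * u ^ k * u * (n * u ^ k)⁻¹ = n * (u ^ k * u) * (u ^ k)⁻¹ * n⁻¹ := by group
        _ = n * (u * u ^ k) * (u ^ k)⁻¹ * n⁻¹ := by rw [this]
        _ = n * u * n⁻¹ := by group
    have h2 : n * u * n⁻¹ = u * (u * n * u⁻¹ * n⁻¹) := by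
      rw [hui]
      calc n * u * n⁻¹ = (u * u) * n * u * n⁻¹ := by rw [huu, one_mul]
        _ = u * (u * n * u * n⁻¹) := by group
    rw [h1, h2, hM]
    have hxN : u * n * u⁻¹ * n⁻¹ ∈ N := N.mul_mem (hN.conj_mem n hn u) (N.inv_mem hn)
    have hxi : u * (u * n * u⁻¹ * n⁻¹) * u⁻¹ = (u * n * u⁻¹ * n⁻¹)⁻¹ := by
      rw [hui]
      calc u * (u * n * u * n⁻¹) * u = (u * u) * n * u * n⁻¹ * u := by group
        _ = n * u * n⁻¹ * u := by rw [huu, one_mul]
        _ = n * u⁻¹ * n⁻¹ * u⁻¹ := by rw [hui]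
        _ = (u * n * u * n⁻¹)⁻¹ := by group
    exact HInv_norm hHNor u _ ho (hord _ hxN hxi) hxi
  have hnc : Subgroup.normalClosure ({u} : Set X) ≤ Subgroup.normalizer (M : Set X) := by
    rw [Subgroup.normalClosure, Subgroup.closure_le]
    intro y hy
    rw [Group.mem_conjugatesOfSet_iff] at hy
    obtain ⟨a, ha, hay⟩ := hy
    rw [Set.mem_singleton_iff] at ha
    subst ha
    obtain ⟨g, rfl⟩ := isConj_iff.1 hay
    exact hconj g
  have hZn : (Subgroup.normalClosure ({u} : Set X)).Normal := inferInstance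
  have huZ : u ∈ Subgroup.normalClosure ({u} : Set X) :=
    Subgroup.subset_normalClosure (Set.mem_singleton u)
  have hbad : (∀ n ∈ N, n * u * n⁻¹ * u⁻¹ = 1) → False := by
    intro h
    apply hu1
    apply hf
    intro l hl
    have := h l hl
    rw [mul_inv_eq_one, mul_inv_eq_iff_eq_mul] at this
    exact this.symm
  have hNZ : N ≤ Subgroup.normalClosure ({u} : Set X) := by
    rcases hsimp _ (fun n _ k hk => hZn.conj_mem k hk n) with h | h
    · exfalso
      apply hbad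
      intro n hn
      rw [← Subgroup.mem_bot, ← h, Subgroup.mem_inf]
      constructor
      · have : n * u * n⁻¹ * u⁻¹ = n * (u * n⁻¹ * u⁻¹) := by group
        rw [this]
        exact N.mul_mem hn (hN.conj_mem _ (N.inv_mem hn) u)
      · exact Subgroup.mul_mem _ (hZn.conj_mem u huZ n) (Subgroup.inv_mem _ huZ)
    · exact h
  rw [← hM]
  rcases hsimp M (fun n hn k hk =>
    (Subgroup.mem_normalizer_iff.1 (hnc (hNZ hn)) k).1 hk) with h | h
  · exfalso
    apply hbad
    intro n hn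
    rw [← Subgroup.mem_bot, ← h, Subgroup.mem_inf]
    constructor
    · have : n * u * n⁻¹ * u⁻¹ = n * (u * n⁻¹ * u⁻¹) := by group
      rw [this]
      exact N.mul_mem hn (hN.conj_mem _ (N.inv_mem hn) u)
    · exact Subgroup.mul_mem _ ((Subgroup.mem_normalizer_iff.1 (hnc (hNZ hn)) u).1 huM)
        (Subgroup.inv_mem _ huM)
  · exact h

end MP7b0bad

end

section

set_option autoImplicit false

namespace MP7b0bad

theorem HSixA_conj3 {x y : alternatingGroup (Fin 6)}
    (h : (x : Equiv.Perm (Fin 6)).IsThreeCycle) (g : alternatingGroup (Fin 6))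
    (hy : g * x * g⁻¹ = y) : (y : Equiv.Perm (Fin 6)).IsThreeCycle := by
  have h1 : (y : Equiv.Perm (Fin 6)) = (g : Equiv.Perm (Fin 6)) * x * (g : Equiv.Perm (Fin 6))⁻¹ := by
    rw [← hy]; rfl
  unfold Equiv.Perm.IsThreeCycle at h ⊢
  rw [h1, Equiv.Perm.cycleType_conj, h]

theorem prf_HSixA : HSixA := by
  rintro φ hφ ⟨c, hc, hc'⟩ x hx
  have ho : ∀ y, orderOf (φ y) = orderOf y := fun y => MulEquiv.orderOf_eq φ y
  have hoc : orderOf c = 3 := by
    rw [← Subgroup.orderOf_coe]; exact hc.orderOf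
  constructor
  · intro h3 h4
    have hic : IsConj c x := alternatingGroup.isThreeCycle_isConj (by simp) hc h3
    obtain ⟨g, hg⟩ := isConj_iff.mp hic
    apply hc'
    refine HSixA_conj3 h4 (φ g)⁻¹ ?_
    rw [← hg]
    simp only [map_mul, map_inv]
    group
  · intro h4
    by_contra h3
    apply h4
    have hx33 : (x : Equiv.Perm (Fin 6)).cycleType = {3, 3} := by
      rcases HCyc6_ord x hx with h | h
      · exact absurd h h3
      · exact h
    have hc33 : (φ c : Equiv.Perm (Fin 6)).cycleType = {3, 3} := by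
      rcases HCyc6_ord (φ c) (by rw [ho, hoc]) with h | h
      · exact absurd h hc'
      · exact h
    obtain ⟨a, ha⟩ := HCyc6_conj _ _ hc33 hx33
    refine HSixA_conj3 hc (φ a) ?_
    rw [← ha]
    simp only [map_mul, map_inv, hφ]

end MP7b0bad

end

section

set_option autoImplicit false

namespace MP7b0bad

theorem HSixB_mem {G : Type} [Group G] [Finite G] (P : Subgroup G) (g : G) (hg : orderOf g = 5)
    (hP : P.index ≤ 4) : g ∈ P := by
  have h1 : orderOf (MulAction.toPermHom G (G ⧸ P) g) ∣ 5 := by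
    rw [← hg]
    exact orderOf_map_dvd _ g
  have h2 : orderOf (MulAction.toPermHom G (G ⧸ P) g) ∣ Nat.card (Equiv.Perm (G ⧸ P)) :=
    orderOf_dvd_natCard _
  rw [Nat.card_perm] at h2
  have h3 : Nat.card (G ⧸ P) ≤ 4 := hP
  rcases (Nat.dvd_prime (by norm_num)).1 h1 with h | h
  · rw [orderOf_eq_one_iff] at h
    have h4 : MulAction.toPermHom G (G ⧸ P) g ((1 : G) : G ⧸ P) = ((1 : G) : G ⧸ P) := by
      rw [h]
      rfl
    rw [MulAction.toPermHom_apply, MulAction.toPerm_apply, MulAction.Quotient.smul_coe] at h4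
    rw [QuotientGroup.eq] at h4
    simp only [smul_eq_mul, mul_one] at h4
    exact (Subgroup.inv_mem_iff P).1 h4
  · rw [h] at h2
    have h5 : 5 ≤ Nat.card (G ⧸ P) := (Nat.Prime.dvd_factorial (by norm_num)).1 h2
    omega

theorem HSixB_zp {G : Type} [Group G] [Finite G] (C : Subgroup G) (f g : G) (hf : f ∈ C)
    (hg : g ∈ C) (hfo : orderOf f = 5) (hgo : orderOf g = 5) (hC : Nat.card C ≤ 20) :
    g ∈ Subgroup.zpowers f := by
  have h1 : orderOf (⟨f, hf⟩ : C) = 5 := by rw [Subgroup.orderOf_mk, hfo]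
  have h2 : orderOf (⟨g, hg⟩ : C) = 5 := by rw [Subgroup.orderOf_mk, hgo]
  have h3 : (Subgroup.zpowers (⟨f, hf⟩ : C)).index ≤ 4 := by
    have h4 := Subgroup.card_mul_index (Subgroup.zpowers (⟨f, hf⟩ : C))
    rw [Nat.card_zpowers, h1] at h4
    omega
  have h5 := HSixB_mem _ _ h2 h3
  rw [Subgroup.mem_zpowers_iff] at h5 ⊢
  obtain ⟨k, hk⟩ := h5
  refine ⟨k, ?_⟩
  have h6 := congrArg (fun x : C => (x : G)) hk
  simpa using h6

theorem HSixB_three (x : Equiv.Perm (Fin 6)) (i : Fin 6) (hi : x i = i) (hx : orderOf x = 3) :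
    x.IsThreeCycle := by
  obtain ⟨n, hn⟩ := Equiv.Perm.cycleType_prime_order (σ := x) (by rw [hx]; norm_num)
  rw [hx] at hn
  have h1 : x.cycleType.sum = x.support.card := Equiv.Perm.sum_cycleType x
  have h2 : x.support.card < 6 := by
    have h3 : i ∉ x.support := by
      rw [Equiv.Perm.mem_support]
      simpa using hi
    have h4 : x.support.card < (Finset.univ : Finset (Fin 6)).card := by
      apply Finset.card_lt_card
      rw [Finset.ssubset_univ_iff]
      intro h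
      rw [h] at h3
      exact h3 (Finset.mem_univ i)
    simpa using h4
  rw [hn, Multiset.sum_replicate] at h1
  have h3 : n = 0 := by
    have : (n + 1) • 3 = (n + 1) * 3 := rfl
    rw [this] at h1
    omega
  rw [h3] at hn
  rw [Equiv.Perm.IsThreeCycle, hn]
  rfl

theorem HSixB_card : Nat.card (alternatingGroup (Fin 6)) = 360 := by
  have h := two_mul_nat_card_alternatingGroup (α := Fin 6)
  rw [Nat.card_perm, Nat.card_fin] at h
  have h2 : Nat.factorial 6 = 720 := rfl
  omega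

theorem HSixB_idx (i : Fin 6) :
    (MulAction.stabilizer (alternatingGroup (Fin 6)) i).index = 6 := by
  have : MulAction.IsPretransitive (alternatingGroup (Fin 6)) (Fin 6) :=
    alternatingGroup.isPretransitive_of_three_le_card (Fin 6) (by simp)
  rw [MulAction.index_stabilizer_of_transitive]
  simp

theorem prf_HSixB (hHSixA : HSixA) : HSixB := by
  intro φ hφ hc i
  have hA := hHSixA φ hφ hc
  have hcard := HSixB_card
  set A : Subgroup (alternatingGroup (Fin 6)) :=
    MulAction.stabilizer (alternatingGroup (Fin 6)) i with hAdef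
  have hAi : A.index = 6 := HSixB_idx i
  have hmemA : ∀ x : alternatingGroup (Fin 6), x ∈ A ↔ (x : Equiv.Perm (Fin 6)) i = i := by
    intro x
    rw [hAdef, MulAction.mem_stabilizer_iff]
    rfl
  set B : Subgroup (alternatingGroup (Fin 6)) := A.map φ.toMonoidHom with hBdef
  have hBi : B.index = 6 := by
    have h := Subgroup.index_map_equiv A φ
    exact h.trans hAi
  have hcA : Nat.card A = 60 := by
    have h := Subgroup.card_mul_index A
    rw [hAi, hcard] at h
    omega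
  have hCi : (A ⊓ B).index ≤ 36 := by
    have h := Subgroup.index_inf_le (H := A) (K := B)
    rw [hAi, hBi] at h
    exact h
  have hcC : Nat.card (A ⊓ B : Subgroup (alternatingGroup (Fin 6))) * (A ⊓ B).index = 360 := by
    rw [Subgroup.card_mul_index, hcard]
  have hcd : Nat.card (A ⊓ B : Subgroup (alternatingGroup (Fin 6))) ∣ 60 := by
    rw [← hcA]
    exact Subgroup.card_dvd_of_le inf_le_left
  have hge : 10 ≤ Nat.card (A ⊓ B : Subgroup (alternatingGroup (Fin 6))) := by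
    by_contra h
    have h1 : Nat.card (A ⊓ B : Subgroup (alternatingGroup (Fin 6))) ≤ 9 := by omega
    have h2 := Nat.mul_le_mul h1 hCi
    omega
  -- no elements of order three
  have h3 : ¬ 3 ∣ Nat.card (A ⊓ B : Subgroup (alternatingGroup (Fin 6))) := by
    intro h
    have : Fact (Nat.Prime 3) := ⟨by norm_num⟩
    obtain ⟨x, hx⟩ := exists_prime_orderOf_dvd_card' 3 h
    have hxo : orderOf (x : alternatingGroup (Fin 6)) = 3 := by
      rw [← hx]
      exact Subgroup.orderOf_coe x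
    obtain ⟨hxA, hxB⟩ := Subgroup.mem_inf.1 x.2
    have h4 : ((x : alternatingGroup (Fin 6)) : Equiv.Perm (Fin 6)).IsThreeCycle := by
      apply HSixB_three _ i ((hmemA _).1 hxA)
      rw [Subgroup.orderOf_coe]
      exact hxo
    obtain ⟨y, hyA, hyx⟩ := Subgroup.mem_map.1 hxB
    have hyx' : φ y = (x : alternatingGroup (Fin 6)) := hyx
    have hyo : orderOf y = 3 := by
      rw [← hxo, ← hyx']
      exact (MulEquiv.orderOf_eq φ y).symm
    have h5 : (y : Equiv.Perm (Fin 6)).IsThreeCycle := by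
      apply HSixB_three _ i ((hmemA _).1 hyA)
      rw [Subgroup.orderOf_coe]
      exact hyo
    have h6 := (hA y hyo).1 h5
    rw [hyx'] at h6
    exact h6 h4
  have hle : Nat.card (A ⊓ B : Subgroup (alternatingGroup (Fin 6))) ≤ 20 ∧
      5 ∣ Nat.card (A ⊓ B : Subgroup (alternatingGroup (Fin 6))) := by
    generalize Nat.card (A ⊓ B : Subgroup (alternatingGroup (Fin 6))) = n at hcd hge h3
    have hn : n ∈ Nat.divisors 60 := Nat.mem_divisors.2 ⟨hcd, by norm_num⟩
    have hd : Nat.divisors 60 = {1, 2, 3, 4, 5, 6, 10, 12, 15, 20, 30, 60} := by decide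
    rw [hd] at hn
    simp only [Finset.mem_insert, Finset.mem_singleton] at hn
    omega
  have : Fact (Nat.Prime 5) := ⟨by norm_num⟩
  obtain ⟨x, hx⟩ := exists_prime_orderOf_dvd_card' 5 hle.2
  have hxo : orderOf (x : alternatingGroup (Fin 6)) = 5 := by
    rw [← hx]
    exact Subgroup.orderOf_coe x
  obtain ⟨hxA, hxB⟩ := Subgroup.mem_inf.1 x.2
  refine ⟨x, hxo, (hmemA _).1 hxA, ?_⟩
  apply HSixB_zp (A ⊓ B) _ _ x.2 _ hxo _ hle.1
  · rw [Subgroup.mem_inf]
    constructor
    · obtain ⟨y, hyA, hyx⟩ := Subgroup.mem_map.1 hxB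
      have hyx' : φ y = (x : alternatingGroup (Fin 6)) := hyx
      rw [← hyx', hφ]
      exact hyA
    · exact Subgroup.mem_map.2 ⟨x, hxA, rfl⟩
  · rw [MulEquiv.orderOf_eq, hxo]

end MP7b0bad

end

section

set_option autoImplicit false

namespace MP7b0bad

theorem HSixC_pow (f : Equiv.Perm (Fin 6)) (hf : orderOf f = 5) (i a b : Fin 6) (hi : f i = i)
    (ha : a ≠ i) (hb : b ≠ i) : ∃ k : ℕ, (f ^ k) a = b := by
  classical
  have hcyc : f.IsCycle := by
    apply Equiv.Perm.isCycle_of_prime_order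
    · rw [hf]; norm_num
    · rw [hf]
      have : f.support.card ≤ 6 := by
        simpa using Finset.card_le_univ f.support
      omega
  have hcard : f.support.card = 5 := by
    rw [← hf]; exact hcyc.orderOf.symm
  have hsub : f.support ⊆ ({i}ᶜ : Finset (Fin 6)) := by
    intro x hx
    rw [Finset.mem_compl, Finset.mem_singleton]
    rintro rfl
    exact (Equiv.Perm.mem_support.mp hx) hi
  have heq : f.support = ({i}ᶜ : Finset (Fin 6)) := by
    apply Finset.eq_of_subset_of_card_le hsub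
    rw [Finset.card_compl, hcard]
    simp
  have ha' : f a ≠ a := by
    rw [← Equiv.Perm.mem_support, heq]; simpa using ha
  have hb' : f b ≠ b := by
    rw [← Equiv.Perm.mem_support, heq]; simpa using hb
  exact hcyc.exists_pow_eq ha' hb'

theorem HSixC_exists (a b : Fin 6) : ∃ i : Fin 6, a ≠ i ∧ b ≠ i := by
  revert a b; decide

theorem HSixC_two (G' : Subgroup (Equiv.Perm (Fin 6)))
    (h : ∀ i : Fin 6, ∃ f ∈ G', orderOf f = 5 ∧ f i = i) :
    MulAction.IsMultiplyPretransitive G' (Fin 6) 2 := by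
  rw [MulAction.is_two_pretransitive_iff]
  intro a b c d hab hcd
  have htr : ∀ a c : Fin 6, ∃ g ∈ G', g a = c := by
    intro a c
    obtain ⟨i, hai, hci⟩ := HSixC_exists a c
    obtain ⟨f, hf, ho, hi⟩ := h i
    obtain ⟨k, hk⟩ := HSixC_pow f ho i a c hi hai hci
    exact ⟨f ^ k, G'.pow_mem hf k, hk⟩
  obtain ⟨g, hg, hga⟩ := htr a c
  obtain ⟨f, hf, ho, hi⟩ := h c
  have hgb : g b ≠ c := by
    rw [← hga]
    exact fun h => hab (g.injective h).symm
  obtain ⟨k, hk⟩ := HSixC_pow f ho c (g b) d hi hgb hcd.symm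
  refine ⟨⟨f ^ k * g, G'.mul_mem (G'.pow_mem hf k) hg⟩, ?_, ?_⟩
  · change (f ^ k * g) a = c
    rw [Equiv.Perm.mul_apply, hga]
    exact Equiv.Perm.pow_apply_eq_self_of_apply_eq_self hi k
  · change (f ^ k * g) b = d
    rw [Equiv.Perm.mul_apply, hk]

theorem prf_HSixC : HSixC := by
  classical
  intro H hH
  set G' : Subgroup (Equiv.Perm (Fin 6)) := H.map (alternatingGroup (Fin 6)).subtype with hG'
  have h1 : ∀ i : Fin 6, ∃ f ∈ G', orderOf f = 5 ∧ f i = i := by
    intro i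
    obtain ⟨f, hf, ho, hi⟩ := hH i
    refine ⟨(f : Equiv.Perm (Fin 6)), ⟨f, hf, rfl⟩, ?_, hi⟩
    rw [← ho]
    exact Subgroup.orderOf_coe f
  have h2 := HSixC_two G' h1
  constructor
  · have h3 : MulAction.IsPretransitive G' (Fin 6) :=
      MulAction.isPretransitive_of_is_two_pretransitive
    have h4 : (MulAction.stabilizer G' (0 : Fin 6)).index = 6 := by
      rw [MulAction.index_stabilizer_of_transitive]
      simp
    have h5 : 6 ∣ Nat.card G' := by
      have h5' := Subgroup.index_dvd_card (MulAction.stabilizer G' (0 : Fin 6))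
      rwa [h4] at h5'
    have h6 : Nat.card G' = Nat.card H := by
      rw [hG']
      exact Subgroup.card_map_of_injective (alternatingGroup (Fin 6)).subtype_injective
    rw [h6] at h5
    exact dvd_trans (by norm_num) h5
  · rintro ⟨c, hc, hc3⟩
    have h7 : alternatingGroup (Fin 6) ≤ G' :=
      Equiv.Perm.alternatingGroup_le_of_isPreprimitive_of_isThreeCycle_mem
        (MulAction.isPreprimitive_of_is_two_pretransitive h2) hc3 ⟨c, hc, rfl⟩
    rw [eq_top_iff]
    intro x _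
    obtain ⟨y, hy, hyx⟩ := h7 x.2
    have : y = x := Subtype.ext hyx
    rw [← this]
    exact hy

end MP7b0bad

end

section

/-!
# MP_7b0bad_ag, item HSixM: the exotic involutions of the alternating group of degree 6
-/

set_option autoImplicit false

namespace MP7b0bad

theorem HSixM_pgrp {X : Type} [Group X] (u : X) (hu : orderOf u = 2) :
    IsPGroup 2 (Subgroup.zpowers u) := by
  have hu2 : u ^ 2 = 1 := by rw [← hu, pow_orderOf_eq_one]
  rintro ⟨g, hg⟩
  obtain ⟨k, hk⟩ := Subgroup.mem_zpowers_iff.mp hg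
  refine ⟨1, ?_⟩
  apply Subtype.ext
  simp only [pow_one, SubmonoidClass.mk_pow, OneMemClass.coe_one]
  rw [← hk, ← zpow_natCast, ← zpow_mul, mul_comm, zpow_mul, zpow_natCast, hu2, one_zpow]

/-- invariant subgroups of odd order normalise `Gam` -/
theorem HSixM_norm (hHNor : HNor) {X : Type} [Group X] [Finite X] (u : X) (hu : orderOf u = 2)
    (A : Subgroup X) (hA : ¬ 2 ∣ Nat.card A) (h : ∀ a ∈ A, u * a * u⁻¹ ∈ A) :
    A ≤ Subgroup.normalizer ((Gam 2 (Subgroup.zpowers u) : Subgroup X) : Set X) := by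
  have : Fact (Nat.Prime 2) := ⟨Nat.prime_two⟩
  have hu2 : u * u = 1 := by rw [← pow_two, ← hu, pow_orderOf_eq_one]
  have hui : u⁻¹ = u := inv_eq_of_mul_eq_one_left hu2
  have hP := HSixM_pgrp u hu
  have hq : ∀ q ∈ Subgroup.zpowers u, q = 1 ∨ q = u := by
    intro q hq
    obtain ⟨k, rfl⟩ := Subgroup.mem_zpowers_iff.mp hq
    rcases Int.even_or_odd' k with ⟨m, hm | hm⟩
    · left; rw [hm, zpow_mul, zpow_ofNat, pow_two, hu2, one_zpow]
    · right; rw [hm, zpow_add, zpow_mul, zpow_ofNat, pow_two, hu2, one_zpow, one_mul, zpow_one]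
  have hQA : ∀ q ∈ Subgroup.zpowers u, ∀ a ∈ A, q * a * q⁻¹ ∈ A := by
    intro q hq' a ha
    rcases hq q hq' with rfl | rfl
    · simpa using ha
    · exact h a ha
  obtain ⟨hdec, hcl, -⟩ := prf_GCop 2 X A (Subgroup.zpowers u) hA hP hQA
  have hQH : Subgroup.zpowers u ≤ A ⊔ Subgroup.zpowers u := le_sup_right
  have hYH : nclIn (A ⊔ Subgroup.zpowers u) (Subgroup.zpowers u) ≤ A ⊔ Subgroup.zpowers u :=
    GSC_le _ _ hQH
  have hYp : PSol 2 (nclIn (A ⊔ Subgroup.zpowers u) (Subgroup.zpowers u)) := by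
    have h1 := (prf_GPS 2 (A ⊔ Subgroup.zpowers u : Subgroup X)
      (HNor_sup A (Subgroup.zpowers u) hA hP hQA)).1
      ((nclIn (A ⊔ Subgroup.zpowers u) (Subgroup.zpowers u)).subgroupOf (A ⊔ Subgroup.zpowers u))
    exact HNor_surj h1 (Subgroup.subgroupOfEquivOfLe hYH).toMonoidHom
      (Subgroup.subgroupOfEquivOfLe hYH).surjective
  have hle : nclIn (A ⊔ Subgroup.zpowers u) (Subgroup.zpowers u) ≤ Gam 2 (Subgroup.zpowers u) :=
    le_sSup ⟨Subgroup.zpowers u, le_rfl, GSC_ge _ _, hcl, hYp⟩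
  have key : ∀ a ∈ A, ∀ x ∈ Gam 2 (Subgroup.zpowers u), a * x * a⁻¹ ∈ Gam 2 (Subgroup.zpowers u) := by
    intro a ha x hx
    obtain ⟨d, hd, c, -, hc, rfl⟩ := hdec a ha
    have h1 := (hHNor 2 X (Subgroup.zpowers u) hP).2.1 c hc x hx
    have h2 := hle hd
    have h3 : d * c * x * (d * c)⁻¹ = d * (c * x * c⁻¹) * d⁻¹ := by group
    rw [h3]
    exact Subgroup.mul_mem _ (Subgroup.mul_mem _ h2 h1) (Subgroup.inv_mem _ h2)
  intro a ha
  rw [Subgroup.mem_normalizer_iff]
  intro x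
  constructor
  · exact key a ha x
  · intro hx
    have h1 := key a⁻¹ (Subgroup.inv_mem _ ha) _ hx
    have h2 : a⁻¹ * (a * x * a⁻¹) * a⁻¹⁻¹ = x := by group
    rwa [h2] at h1

theorem prf_HSixM (hHNor : HNor) (hHSixA : HSixA) (hHSixB : HSixB) (hHSixC : HSixC) : HSixM := by
  intro X _ _ L _ u e hf ho hgen hex
  have : Fact (Nat.Prime 2) := ⟨Nat.prime_two⟩
  have hu2 : u * u = 1 := by rw [← pow_two, ← ho, pow_orderOf_eq_one]
  have hP := HSixM_pgrp u ho
  obtain ⟨Γ, hΓ⟩ : ∃ Γ, Γ = Gam 2 (Subgroup.zpowers u) := ⟨_, rfl⟩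
  rw [← hΓ]
  obtain ⟨K, hK⟩ : ∃ K : Subgroup X, K = Subgroup.normalizer (Γ : Set X) := ⟨_, rfl⟩
  have huΓ : u ∈ Γ := by
    rw [hΓ]
    exact (hHNor 2 X (Subgroup.zpowers u) hP).1 (Subgroup.mem_zpowers u)
  have huK : u ∈ K := by rw [hK]; exact Subgroup.le_normalizer huΓ
  have hAK : ∀ A : Subgroup X, ¬ 2 ∣ Nat.card A → (∀ a ∈ A, u * a * u⁻¹ ∈ A) → A ≤ K := by
    intro A hA h
    rw [hK, hΓ]
    exact HSixM_norm hHNor u ho A hA h
  -- the automorphism
  obtain ⟨φ, hφ⟩ : ∃ φ : alternatingGroup (Fin 6) ≃* alternatingGroup (Fin 6),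
      ∀ y, φ y = e (MulAut.conjNormal u (e.symm y)) :=
    ⟨(e.symm.trans (MulAut.conjNormal u : L ≃* L)).trans e, fun y => rfl⟩
  have hφc : ∀ y, ((e.symm (φ y) : L) : X) = u * ((e.symm y : L) : X) * u⁻¹ := by
    intro y
    rw [hφ, MulEquiv.symm_apply_apply, MulAut.conjNormal_apply]
  have hφ2 : ∀ y, φ (φ y) = y := by
    intro y
    apply e.symm.injective
    apply Subtype.ext
    rw [hφc, hφc]
    have h1 : u * (u * ((e.symm y : L) : X) * u⁻¹) * u⁻¹ = (u * u) * ((e.symm y : L) : X) * (u * u)⁻¹ := by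
      group
    rw [h1, hu2]
    simp
  have hex' : ∃ c : alternatingGroup (Fin 6), (c : Equiv.Perm (Fin 6)).IsThreeCycle ∧
      ¬ (φ c : Equiv.Perm (Fin 6)).IsThreeCycle := by
    obtain ⟨c, hc, hc'⟩ := hex
    exact ⟨c, hc, by rw [hφ]; exact hc'⟩
  obtain ⟨H, hH⟩ : ∃ H : Subgroup (alternatingGroup (Fin 6)),
      ∀ y, y ∈ H ↔ ((e.symm y : L) : X) ∈ K :=
    ⟨K.comap (L.subtype.comp e.symm.toMonoidHom), fun y => Iff.rfl⟩
  have hHφ : ∀ y ∈ H, φ y ∈ H := by
    intro y hy
    rw [hH] at hy ⊢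
    rw [hφc]
    exact K.mul_mem (K.mul_mem huK hy) (K.inv_mem huK)
  have h5 : ∀ f : alternatingGroup (Fin 6), orderOf f = 5 → φ f ∈ Subgroup.zpowers f → f ∈ H := by
    intro f hf5 hfz
    rw [hH]
    have hord : orderOf ((e.symm f : L) : X) = 5 := by
      rw [Subgroup.orderOf_coe, MulEquiv.orderOf_eq, hf5]
    refine hAK (Subgroup.zpowers ((e.symm f : L) : X)) ?_ ?_ (Subgroup.mem_zpowers _)
    · rw [Nat.card_zpowers, hord]; decide
    · intro a ha
      obtain ⟨k, rfl⟩ := Subgroup.mem_zpowers_iff.mp ha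
      obtain ⟨j, hj⟩ := Subgroup.mem_zpowers_iff.mp hfz
      rw [← conj_zpow, ← hφc, ← hj, map_zpow]
      rw [Subgroup.coe_zpow]
      exact Subgroup.zpow_mem _ (Subgroup.zpow_mem _ (Subgroup.mem_zpowers _) _) _
  have hC := hHSixC H (fun i => by
    obtain ⟨f, hf5, hfi, hfz⟩ := hHSixB φ hφ2 hex' i
    exact ⟨f, h5 f hf5 hfz, hf5, hfi⟩)
  have htop : H = ⊤ := by
    apply hC.2
    have : Fact (Nat.Prime 3) := ⟨Nat.prime_three⟩
    obtain ⟨x, hx⟩ := exists_prime_orderOf_dvd_card' 3 hC.1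
    have hx3 : orderOf (x : alternatingGroup (Fin 6)) = 3 := by rw [Subgroup.orderOf_coe]; exact hx
    have hA := hHSixA φ hφ2 hex' x hx3
    by_cases h : ((x : alternatingGroup (Fin 6)) : Equiv.Perm (Fin 6)).IsThreeCycle
    · exact ⟨x, x.2, h⟩
    · refine ⟨φ x, hHφ _ x.2, ?_⟩
      by_contra h'
      exact h (hA.2 h')
  have hLK : L ≤ K := by
    intro l hl
    have h1 : e ⟨l, hl⟩ ∈ H := by rw [htop]; exact Subgroup.mem_top _
    rw [hH, MulEquiv.symm_apply_apply] at h1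
    exact h1
  have hn : (Γ.subgroupOf L).Normal := by
    refine ⟨fun n hn g => ?_⟩
    rw [Subgroup.mem_subgroupOf] at hn ⊢
    have h1 := hLK g.2
    rw [hK, Subgroup.mem_normalizer_iff] at h1
    exact (h1 _).1 hn
  have hsA : IsSimpleGroup (alternatingGroup (Fin 6)) := alternatingGroup.isSimpleGroup (by simp)
  have hsL : IsSimpleGroup L := (MulEquiv.isSimpleGroup_congr e).2 hsA
  rcases hsL.eq_bot_or_eq_top_of_normal _ hn with hb | ht
  · exfalso
    have hcomm : ∀ l ∈ L, u * l = l * u := by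
      intro l hl
      have h1 : l * u * l⁻¹ * u⁻¹ ∈ L := by
        have h2 : u * l⁻¹ * u⁻¹ ∈ L := (inferInstance : L.Normal).conj_mem _ (L.inv_mem hl) u
        have h3 : l * u * l⁻¹ * u⁻¹ = l * (u * l⁻¹ * u⁻¹) := by group
        rw [h3]
        exact L.mul_mem hl h2
      have h4 : l * u * l⁻¹ * u⁻¹ ∈ Γ := by
        have h5 := hLK hl
        rw [hK, Subgroup.mem_normalizer_iff] at h5
        exact Γ.mul_mem ((h5 u).1 huΓ) (Γ.inv_mem huΓ)
      have h6 : (⟨l * u * l⁻¹ * u⁻¹, h1⟩ : L) ∈ Γ.subgroupOf L := by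
        rw [Subgroup.mem_subgroupOf]; exact h4
      rw [hb, Subgroup.mem_bot] at h6
      have h7 : l * u * l⁻¹ * u⁻¹ = 1 := congrArg Subtype.val h6
      have h8 : l * u * l⁻¹ = u := mul_inv_eq_one.1 h7
      have h9 : l * u = u * l := mul_inv_eq_iff_eq_mul.1 h8
      exact h9.symm
    have hu1 := hf u hcomm
    rw [hu1, orderOf_one] at ho
    omega
  · exact Subgroup.subgroupOf_eq_top.1 ht

end MP7b0bad

end

section

set_option autoImplicit false

namespace MP7b0bad

/-! # Group H, third part: `PSL_2` -/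

/-- the number of Sylow subgroups in the defining characteristic -/
def HPSL1 : Prop := ∀ (r : ℕ) [Fact r.Prime] (F : Type) [Field F] [Finite F] [CharP F r],
  Nat.card (Sylow r (Matrix.ProjectiveSpecialLinearGroup (Fin 2) F)) = Nat.card F + 1

/-- two different Sylow subgroups in the defining characteristic generate the group -/
def HPSL2 : Prop := ∀ (r : ℕ) [Fact r.Prime] (F : Type) [Field F] [Finite F] [CharP F r]
  (S S' : Sylow r (Matrix.ProjectiveSpecialLinearGroup (Fin 2) F)), S ≠ S' →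
  (S : Subgroup (Matrix.ProjectiveSpecialLinearGroup (Fin 2) F)) ⊔ S' = ⊤

def HPSL3 : Prop := ∀ (p : ℕ) [Fact p.Prime], p ≠ 2 → ∀ (F : Type) [Field F] [Finite F],
  p ∣ Nat.card F - 1 → InvGen p (Matrix.ProjectiveSpecialLinearGroup (Fin 2) F)

end MP7b0bad

end

section

set_option autoImplicit false

namespace MP7b0bad

open Equiv Equiv.Perm

/-- the involutions of `X` when `X` embeds into the symmetric group -/
theorem HAlt2M_emb (hHNor : HNor) (n : ℕ) (hn : 5 ≤ n) (X : Type) [Group X] [Finite X]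
    (L : Subgroup X) (u : X) (ho : orderOf u = 2) (f : X →* Perm (Fin n))
    (hfi : Function.Injective f) (hfL : L.map f = alternatingGroup (Fin n)) :
    L ≤ Gam 2 (Subgroup.zpowers u) := by
  have ht2 : orderOf (f u) = 2 := by rw [orderOf_injective f hfi, ho]
  have htt : f u * f u = 1 := by rw [← pow_two, ← ht2, pow_orderOf_eq_one]
  have ht : ∀ x, (f u) ((f u) x) = x := fun x => by
    have := congrArg (fun p : Perm (Fin n) => p x) htt
    simpa using this
  have ht1 : f u ≠ 1 := by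
    intro h
    rw [h, orderOf_one] at ht2
    omega
  obtain ⟨a, ha⟩ : ∃ a, (f u) a ≠ a := by
    by_contra hcon
    push Not at hcon
    exact ht1 (Equiv.ext hcon)
  have hJ : J2_P (f u) ((Gam 2 (Subgroup.zpowers u)).map f) := by
    intro w hw htw
    have hwA := HAlt2_sign w hw
    rw [← hfL] at hwA
    obtain ⟨x, hxL, rfl⟩ := hwA
    refine ⟨x, HAlt2_inv hHNor u x ho ?_ ?_, rfl⟩
    · rwa [orderOf_injective f hfi] at hw
    · apply hfi
      rw [map_mul, map_mul, map_inv, map_inv]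
      exact htw
  have halt : alternatingGroup (Fin n) ≤ (Gam 2 (Subgroup.zpowers u)).map f := by
    apply J2_alt hJ ht ha
    intro c _ _ _
    have hcard : ({a, (f u) a, c, (f u) c} : Finset (Fin n)).card < Fintype.card (Fin n) := by
      rw [Fintype.card_fin]
      exact lt_of_le_of_lt Finset.card_le_four (by omega)
    obtain ⟨e, he⟩ : ∃ e, e ∉ ({a, (f u) a, c, (f u) c} : Finset (Fin n)) := by
      by_contra hcon
      push Not at hcon
      have := Finset.eq_univ_iff_forall.mpr hcon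
      rw [this, Finset.card_univ] at hcard
      omega
    simp only [Finset.mem_insert, Finset.mem_singleton, not_or] at he
    exact ⟨e, he⟩
  intro l hl
  have h1 : f l ∈ (Gam 2 (Subgroup.zpowers u)).map f := by
    apply halt
    rw [← hfL]
    exact ⟨l, hl, rfl⟩
  obtain ⟨g, hg, hgl⟩ := h1
  rwa [← hfi hgl]

theorem prf_HAlt2M (hHEmb : HEmb) (hHNor : HNor) (hHAut3 : HAut3) (hHSixM : HSixM) : HAlt2M := by
  intro n hn X _ _ L u hL hiso hf ho hgen
  by_cases h6 : n = 6
  · subst h6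
    obtain ⟨e⟩ := hiso
    by_cases hex : ∃ c : alternatingGroup (Fin 6), (c : Equiv.Perm (Fin 6)).IsThreeCycle ∧
        ¬ (e (MulAut.conjNormal u (e.symm c)) : Equiv.Perm (Fin 6)).IsThreeCycle
    · exact hHSixM X L u e hf ho hgen hex
    · push Not at hex
      obtain ⟨f, hfi, hfL⟩ := HEmbG hHAut3 6 hn X L u e hf hgen hex
      exact HAlt2M_emb hHNor 6 hn X L u ho f hfi hfL
  · obtain ⟨f, hfi, hfL⟩ := hHEmb n 2 hn Nat.prime_two (Or.inl h6) X L u hL hiso hf ho hgen
    exact HAlt2M_emb hHNor n hn X L u ho f hfi hfL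

end MP7b0bad

end

section

set_option autoImplicit false

namespace MP7b0bad

/-! # The number of Sylow subgroups of `PSL_2(F)` in the defining characteristic -/

section

variable {F : Type} [Field F]

theorem HPSL1_mul (a b : Matrix.SpecialLinearGroup (Fin 2) F) (i j : Fin 2) :
    (a * b) i j = a i 0 * b 0 j + a i 1 * b 1 j := by
  rw [Matrix.SpecialLinearGroup.coe_mul, Matrix.mul_apply, Fin.sum_univ_two]

theorem HPSL1_inv (a : Matrix.SpecialLinearGroup (Fin 2) F) :
    a⁻¹ 0 0 = a 1 1 ∧ a⁻¹ 0 1 = - a 0 1 ∧ a⁻¹ 1 0 = - a 1 0 ∧ a⁻¹ 1 1 = a 0 0 := by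
  rw [Matrix.SpecialLinearGroup.coe_inv, Matrix.adjugate_fin_two]
  simp

theorem HPSL1_det (g : Matrix.SpecialLinearGroup (Fin 2) F) :
    g 0 0 * g 1 1 - g 0 1 * g 1 0 = 1 := by
  have h := g.det_coe
  rwa [Matrix.det_fin_two] at h

theorem HPSL1_ext (g h : Matrix.SpecialLinearGroup (Fin 2) F) (h00 : g 0 0 = h 0 0)
    (h01 : g 0 1 = h 0 1) (h10 : g 1 0 = h 1 0) (h11 : g 1 1 = h 1 1) : g = h := by
  ext i j
  fin_cases i <;> fin_cases j
  · exact h00
  · exact h01
  · exact h10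
  · exact h11

end

/-- the upper triangular matrices -/
def HPSL1_B (F : Type) [Field F] : Subgroup (Matrix.SpecialLinearGroup (Fin 2) F) where
  carrier := {g | g 1 0 = 0}
  one_mem' := by
    change (1 : Matrix.SpecialLinearGroup (Fin 2) F) 1 0 = 0
    rw [Matrix.SpecialLinearGroup.coe_one]
    exact Matrix.one_apply_ne (by decide)
  mul_mem' {a b} ha hb := by
    change (a * b) 1 0 = 0
    change a 1 0 = 0 at ha
    change b 1 0 = 0 at hb
    rw [HPSL1_mul, ha, hb]
    ring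
  inv_mem' {a} ha := by
    change a⁻¹ 1 0 = 0
    change a 1 0 = 0 at ha
    rw [(HPSL1_inv a).2.2.1, ha, neg_zero]

section

variable {F : Type} [Field F]

theorem HPSL1_memB (g : Matrix.SpecialLinearGroup (Fin 2) F) :
    g ∈ HPSL1_B F ↔ g 1 0 = 0 := Iff.rfl

/-- the matrix `(1 b; 0 1)` -/
def HPSL1_t (b : F) : Matrix.SpecialLinearGroup (Fin 2) F :=
  ⟨!![1, b; 0, 1], by simp [Matrix.det_fin_two]⟩

theorem HPSL1_t_00 (b : F) : (HPSL1_t b) 0 0 = 1 := rfl
theorem HPSL1_t_01 (b : F) : (HPSL1_t b) 0 1 = b := rfl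
theorem HPSL1_t_10 (b : F) : (HPSL1_t b) 1 0 = 0 := rfl
theorem HPSL1_t_11 (b : F) : (HPSL1_t b) 1 1 = 1 := rfl

theorem HPSL1_t_add (b c : F) : HPSL1_t (b + c) = HPSL1_t b * HPSL1_t c := by
  apply HPSL1_ext <;>
    rw [HPSL1_mul] <;>
    simp only [HPSL1_t_00, HPSL1_t_01, HPSL1_t_10, HPSL1_t_11] <;> ring

theorem HPSL1_t_zero : HPSL1_t (0 : F) = 1 := by
  have h := HPSL1_t_add (0 : F) 0
  rw [add_zero] at h
  exact (mul_eq_left.1 h.symm)

end

/-- the hom from the additive group -/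
def HPSL1_th (F : Type) [Field F] : Multiplicative F →* Matrix.SpecialLinearGroup (Fin 2) F where
  toFun b := HPSL1_t (Multiplicative.toAdd b)
  map_one' := HPSL1_t_zero
  map_mul' a b := HPSL1_t_add _ _

/-- the projection -/
def HPSL1_pi (F : Type) [Field F] :
    Matrix.SpecialLinearGroup (Fin 2) F →* Matrix.ProjectiveSpecialLinearGroup (Fin 2) F :=
  QuotientGroup.mk' _

theorem HPSL1_pi_surj (F : Type) [Field F] : Function.Surjective (HPSL1_pi F) :=
  QuotientGroup.mk'_surjective _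

theorem HPSL1_pi_ker (F : Type) [Field F] (g : Matrix.SpecialLinearGroup (Fin 2) F)
    (h : HPSL1_pi F g = 1) : g 1 0 = 0 := by
  rw [← MonoidHom.mem_ker] at h
  unfold HPSL1_pi at h
  rw [QuotientGroup.ker_mk', Matrix.SpecialLinearGroup.mem_center_iff] at h
  obtain ⟨r, -, h⟩ := h
  rw [← h]
  simp

/-- the unipotent subgroup of `PSL_2(F)` -/
def HPSL1_U (F : Type) [Field F] : Subgroup (Matrix.ProjectiveSpecialLinearGroup (Fin 2) F) :=
  ((HPSL1_pi F).comp (HPSL1_th F)).range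

theorem HPSL1_mem_U {F : Type} [Field F] (x : Matrix.ProjectiveSpecialLinearGroup (Fin 2) F) :
    x ∈ HPSL1_U F ↔ ∃ b : F, HPSL1_pi F (HPSL1_t b) = x := by
  unfold HPSL1_U
  rw [MonoidHom.mem_range]
  constructor
  · rintro ⟨b, hb⟩
    exact ⟨Multiplicative.toAdd b, hb⟩
  · rintro ⟨b, hb⟩
    exact ⟨Multiplicative.ofAdd b, hb⟩

theorem HPSL1_pgroup (r : ℕ) [Fact r.Prime] (F : Type) [Field F] [CharP F r] :
    IsPGroup r (HPSL1_U F) := by
  rintro ⟨x, hx⟩
  refine ⟨1, ?_⟩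
  apply Subtype.ext
  rw [pow_one]
  change x ^ r = 1
  obtain ⟨b, hb⟩ := hx
  rw [← hb, ← map_pow]
  have : b ^ r = 1 := by
    apply Multiplicative.toAdd.injective
    rw [toAdd_pow, toAdd_one]
    rw [nsmul_eq_mul, CharP.cast_eq_zero, zero_mul]
  rw [this, map_one]

open Classical in
/-- the invariant of a coset of the upper triangular group -/
noncomputable def HPSL1_f {F : Type} [Field F] (g : Matrix.SpecialLinearGroup (Fin 2) F) :
    Option F :=
  if g 1 0 = 0 then none else some (g 0 0 / g 1 0)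

theorem HPSL1_f_eq {F : Type} [Field F] (g h : Matrix.SpecialLinearGroup (Fin 2) F) :
    HPSL1_f g = HPSL1_f h ↔ g⁻¹ * h ∈ HPSL1_B F := by
  have hg := HPSL1_det g
  have hh := HPSL1_det h
  have key : (g⁻¹ * h) 1 0 = g 0 0 * h 1 0 - g 1 0 * h 0 0 := by
    rw [HPSL1_mul, (HPSL1_inv g).2.2.1, (HPSL1_inv g).2.2.2]
    ring
  rw [HPSL1_memB, key]
  unfold HPSL1_f
  by_cases h1 : g 1 0 = 0
  · by_cases h2 : h 1 0 = 0
    · rw [if_pos h1, if_pos h2, h1, h2]
      simp
    · rw [if_pos h1, if_neg h2, h1]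
      rw [h1] at hg
      have h3 : g 0 0 ≠ 0 := by
        intro h4
        rw [h4] at hg
        simp at hg
      constructor
      · intro h
        exact absurd h (by simp)
      · intro h
        rw [zero_mul, sub_zero] at h
        exact absurd h (mul_ne_zero h3 h2)
  · by_cases h2 : h 1 0 = 0
    · rw [if_neg h1, if_pos h2, h2]
      rw [h2] at hh
      have h3 : h 0 0 ≠ 0 := by
        intro h4
        rw [h4] at hh
        simp at hh
      constructor
      · intro h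
        exact absurd h (by simp)
      · intro h
        rw [mul_zero, zero_sub, neg_eq_zero] at h
        exact absurd h (mul_ne_zero h1 h3)
    · rw [if_neg h1, if_neg h2, Option.some_inj, div_eq_div_iff h1 h2]
      constructor
      · intro h3
        linear_combination h3
      · intro h3
        linear_combination h3

/-- a matrix with first column `(x, 1)` -/
def HPSL1_s {F : Type} [Field F] (x : F) : Matrix.SpecialLinearGroup (Fin 2) F :=
  ⟨!![x, -1; 1, 0], by simp [Matrix.det_fin_two]⟩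

theorem HPSL1_index_B (F : Type) [Field F] [Finite F] : (HPSL1_B F).index = Nat.card F + 1 := by
  have e : (Matrix.SpecialLinearGroup (Fin 2) F ⧸ HPSL1_B F) ≃ Option F := by
    refine Equiv.ofBijective (fun x => Quotient.liftOn' x HPSL1_f ?_) ⟨?_, ?_⟩
    · intro a b hab
      rw [HPSL1_f_eq]
      exact QuotientGroup.leftRel_apply.1 hab
    · intro x y
      induction x using QuotientGroup.induction_on with
      | H a => ?_
      induction y using QuotientGroup.induction_on with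
      | H b => ?_
      intro hab
      rw [QuotientGroup.eq]
      exact (HPSL1_f_eq a b).1 hab
    · intro x
      cases x with
      | none =>
        refine ⟨QuotientGroup.mk 1, ?_⟩
        change HPSL1_f 1 = none
        unfold HPSL1_f
        have h1 : (1 : Matrix.SpecialLinearGroup (Fin 2) F) 1 0 = 0 := (HPSL1_B F).one_mem
        rw [if_pos h1]
      | some x =>
        refine ⟨QuotientGroup.mk (HPSL1_s x), ?_⟩
        change HPSL1_f _ = some x
        unfold HPSL1_f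
        have h1 : (HPSL1_s x) 1 0 = 1 := rfl
        have h2 : (HPSL1_s x) 0 0 = x := rfl
        rw [if_neg, h1, h2, div_one]
        rw [h1]
        exact one_ne_zero
  unfold Subgroup.index
  rw [Nat.card_congr e, Finite.card_option]

theorem HPSL1_comap (F : Type) [Field F] :
    (Subgroup.normalizer (HPSL1_U F : Set (Matrix.ProjectiveSpecialLinearGroup (Fin 2) F))).comap
      (HPSL1_pi F) = HPSL1_B F := by
  have hB : ∀ g ∈ HPSL1_B F, ∀ b : F, ∃ c : F, g * HPSL1_t b * g⁻¹ = HPSL1_t c := by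
    intro g hg b
    have hd := HPSL1_det g
    rw [HPSL1_memB] at hg
    rw [hg] at hd
    refine ⟨g 0 0 * g 0 0 * b, ?_⟩
    obtain ⟨i00, i01, i10, i11⟩ := HPSL1_inv g
    apply HPSL1_ext <;>
      simp only [HPSL1_mul, i00, i01, i10, i11, hg, HPSL1_t_00, HPSL1_t_01, HPSL1_t_10,
        HPSL1_t_11] <;> first | linear_combination hd | ring
  have hU : ∀ g ∈ HPSL1_B F, ∀ x ∈ HPSL1_U F, HPSL1_pi F g * x * (HPSL1_pi F g)⁻¹ ∈ HPSL1_U F := by
    intro g hg x hx
    rw [HPSL1_mem_U] at hx ⊢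
    obtain ⟨b, rfl⟩ := hx
    obtain ⟨c, hc⟩ := hB g hg b
    refine ⟨c, ?_⟩
    rw [← hc, map_mul, map_mul, map_inv]
  ext g
  rw [Subgroup.mem_comap]
  constructor
  · intro h
    have h1 := (h (HPSL1_pi F (HPSL1_t 1))).1 ((HPSL1_mem_U _).2 ⟨1, rfl⟩)
    rw [SetLike.mem_coe, HPSL1_mem_U] at h1
    obtain ⟨b, hb⟩ := h1
    have h2 : HPSL1_pi F ((HPSL1_t b)⁻¹ * (g * HPSL1_t 1 * g⁻¹)) = 1 := by
      rw [map_mul, map_mul, map_mul, map_inv, map_inv, hb]
      group
    have h4 := HPSL1_pi_ker F _ h2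
    have h5 : ((HPSL1_t b)⁻¹ * (g * HPSL1_t 1 * g⁻¹) : Matrix.SpecialLinearGroup (Fin 2) F) 1 0 =
        - (g 1 0 * g 1 0) := by
      obtain ⟨i00, i01, i10, i11⟩ := HPSL1_inv g
      obtain ⟨j00, j01, j10, j11⟩ := HPSL1_inv (HPSL1_t b)
      simp only [HPSL1_mul, i00, i01, i10, i11, j00, j01, j10, j11, HPSL1_t_00, HPSL1_t_01,
        HPSL1_t_10, HPSL1_t_11]
      ring
    rw [h5, neg_eq_zero, mul_self_eq_zero] at h4
    exact h4
  · intro hg x
    constructor
    · intro hx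
      exact hU g hg x hx
    · intro hx
      have h1 := hU g⁻¹ (inv_mem hg) _ hx
      rw [map_inv] at h1
      have h2 : (HPSL1_pi F g)⁻¹ * (HPSL1_pi F g * x * (HPSL1_pi F g)⁻¹) * (HPSL1_pi F g)⁻¹⁻¹ =
        x := by group
      rwa [h2] at h1

/-- the diagonal entry -/
def HPSL1_d (F : Type) [Field F] : HPSL1_B F →* F where
  toFun g := g.1 0 0
  map_one' := by
    change (1 : Matrix.SpecialLinearGroup (Fin 2) F) 0 0 = 1
    rw [Matrix.SpecialLinearGroup.coe_one]
    exact Matrix.one_apply_eq _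
  map_mul' a b := by
    have hb := b.2
    rw [HPSL1_memB] at hb
    change (a.1 * b.1) 0 0 = _
    rw [HPSL1_mul, hb]
    ring

theorem HPSL1_not_dvd (r : ℕ) [Fact r.Prime] (F : Type) [Field F] [Finite F] [CharP F r] :
    ¬ r ∣ (HPSL1_U F).index := by
  have hq : r ∣ Nat.card F := by
    have := Fintype.ofFinite F
    rw [Nat.card_eq_fintype_card]
    obtain ⟨n, hn, h⟩ := FiniteField.card F r
    rw [h]
    exact dvd_pow_self r n.ne_zero
  have hq0 : 0 < Nat.card F := Nat.card_pos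
  have hr : r.Prime := Fact.out
  rw [← Subgroup.index_comap_of_surjective _ (HPSL1_pi_surj F)]
  have hle : (HPSL1_U F).comap (HPSL1_pi F) ≤ HPSL1_B F := by
    intro g hg
    rw [Subgroup.mem_comap, HPSL1_mem_U] at hg
    obtain ⟨b, hb⟩ := hg
    have h2 : HPSL1_pi F ((HPSL1_t b)⁻¹ * g) = 1 := by
      rw [map_mul, map_inv, hb]
      group
    have h3 := HPSL1_pi_ker F _ h2
    have h4 : g = HPSL1_t b * ((HPSL1_t b)⁻¹ * g) := by group
    rw [HPSL1_memB, h4, HPSL1_mul, h3, HPSL1_t_10]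
    ring
  rw [← Subgroup.relIndex_mul_index hle, HPSL1_index_B]
  intro h
  rcases (hr.dvd_mul).1 h with h | h
  · -- the relative index divides `q - 1`
    have hd : ((HPSL1_U F).comap (HPSL1_pi F)).relIndex (HPSL1_B F) ∣ Nat.card Fˣ := by
      have h1 : (HPSL1_d F).toHomUnits.ker ≤
          ((HPSL1_U F).comap (HPSL1_pi F)).subgroupOf (HPSL1_B F) := by
        intro g hg
        rw [MonoidHom.mem_ker] at hg
        have hg1 : g.1 0 0 = 1 := congrArg Units.val hg
        have hg2 : g.1 1 0 = 0 := g.2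
        have hg3 := HPSL1_det g.1
        rw [hg1, hg2] at hg3
        rw [Subgroup.mem_subgroupOf, Subgroup.mem_comap, HPSL1_mem_U]
        refine ⟨g.1 0 1, ?_⟩
        congr 1
        apply HPSL1_ext
        · rw [hg1, HPSL1_t_00]
        · rw [HPSL1_t_01]
        · rw [hg2, HPSL1_t_10]
        · rw [HPSL1_t_11]
          linear_combination -hg3
      have h2 := Subgroup.index_dvd_of_le h1
      have h3 : (HPSL1_d F).toHomUnits.ker.index ∣ Nat.card Fˣ := by
        rw [Subgroup.index_ker]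
        exact Subgroup.card_subgroup_dvd_card _
      exact h2.trans h3
    have hc : Nat.card Fˣ = Nat.card F - 1 := Nat.card_units F
    rw [hc] at hd
    have h1 : r ∣ Nat.card F - 1 := h.trans hd
    have h2 : r ∣ 1 := by
      have := Nat.dvd_sub hq h1
      rwa [Nat.sub_sub_self hq0] at this
    exact hr.one_lt.ne' (Nat.dvd_one.1 h2)
  · have h2 : r ∣ 1 := (Nat.dvd_add_right hq).1 h
    exact hr.one_lt.ne' (Nat.dvd_one.1 h2)

theorem prf_HPSL1 : HPSL1 := by
  intro r _ F _ _ _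
  have : Finite (Matrix.ProjectiveSpecialLinearGroup (Fin 2) F) :=
    Finite.of_surjective _ (HPSL1_pi_surj F)
  have h1 := Sylow.card_eq_index_normalizer ((HPSL1_pgroup r F).toSylow (HPSL1_not_dvd r F))
  rw [h1]
  have h2 := HPSL1_comap F
  have h3 := Subgroup.index_comap_of_surjective
    (Subgroup.normalizer (HPSL1_U F : Set (Matrix.ProjectiveSpecialLinearGroup (Fin 2) F)))
    (HPSL1_pi_surj F)
  rw [h2, HPSL1_index_B] at h3
  rw [h3]
  rfl

end MP7b0bad

end

section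

/-! # MP_7b0bad_ag, item HPSL2 (helper71): two Sylow subgroups generate `PSL_2(F)` -/

set_option autoImplicit false

namespace MP7b0bad

open Matrix

/-- upper unitriangular matrices -/
def HPSL2_up {F : Type} [Field F] (x : F) : SpecialLinearGroup (Fin 2) F :=
  ⟨!![1, x; 0, 1], by simp [Matrix.det_fin_two]⟩

/-- lower unitriangular matrices -/
def HPSL2_lo {F : Type} [Field F] (x : F) : SpecialLinearGroup (Fin 2) F :=
  ⟨!![1, 0; x, 1], by simp [Matrix.det_fin_two]⟩

theorem HPSL2_gen {F : Type} [Field F] (H : Subgroup (SpecialLinearGroup (Fin 2) F))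
    (h1 : ∀ x, HPSL2_up x ∈ H) (h2 : ∀ x, HPSL2_lo x ∈ H) : H = ⊤ := by
  have key : ∀ g : SpecialLinearGroup (Fin 2) F, g.1 1 0 ≠ 0 → g ∈ H := by
    intro g hg
    have hd : g.1 0 0 * g.1 1 1 - g.1 0 1 * g.1 1 0 = 1 := by
      rw [← Matrix.det_fin_two]; exact g.2
    have he : g = HPSL2_up ((g.1 0 0 - 1) / g.1 1 0) * HPSL2_lo (g.1 1 0) *
        HPSL2_up ((g.1 1 1 - 1) / g.1 1 0) := by
      apply Subtype.ext
      show g.1 = !![1, (g.1 0 0 - 1) / g.1 1 0; 0, 1] * !![1, 0; g.1 1 0, 1] *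
        !![1, (g.1 1 1 - 1) / g.1 1 0; 0, 1]
      rw [Matrix.mul_fin_two, Matrix.mul_fin_two]
      ext i j
      fin_cases i <;> fin_cases j
      · show g.1 0 0 = _
        simp
        field_simp
        ring
      · show g.1 0 1 = _
        simp
        field_simp
        linear_combination (-1 : F) * hd
      · show g.1 1 0 = _
        simp
      · show g.1 1 1 = _
        simp
        field_simp
        ring
    rw [he]
    exact H.mul_mem (H.mul_mem (h1 _) (h2 _)) (h1 _)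
  rw [eq_top_iff]
  intro g _
  by_cases hg : g.1 1 0 = 0
  · have hd : g.1 0 0 * g.1 1 1 - g.1 0 1 * g.1 1 0 = 1 := by
      rw [← Matrix.det_fin_two]; exact g.2
    rw [hg, mul_zero, sub_zero] at hd
    have h3 : g.1 1 1 ≠ 0 := by
      intro h
      rw [h, mul_zero] at hd
      exact zero_ne_one hd
    have h4 : (g * HPSL2_lo 1).1 1 0 ≠ 0 := by
      have : (g * HPSL2_lo 1).1 1 0 = g.1 1 0 * 1 + g.1 1 1 * 1 := by
        show (g.1 * (!![1, 0; 1, 1] : Matrix (Fin 2) (Fin 2) F)) 1 0 = _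
        rw [Matrix.mul_apply, Fin.sum_univ_two]
        rfl
      rw [this, hg]
      simpa using h3
    have h5 := H.mul_mem (key _ h4) (H.inv_mem (h2 1))
    rwa [mul_inv_cancel_right] at h5
  · exact key g hg

/-- the stabiliser of a vector -/
def HPSL2_SV {F : Type} [Field F] (v : Fin 2 → F) : Subgroup (SpecialLinearGroup (Fin 2) F) where
  carrier := {g | g.1.mulVec v = v}
  one_mem' := by
    show (1 : Matrix (Fin 2) (Fin 2) F).mulVec v = v
    exact Matrix.one_mulVec v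
  mul_mem' := by
    intro a b ha hb
    show (a.1 * b.1).mulVec v = v
    rw [← Matrix.mulVec_mulVec]
    have h1 : b.1.mulVec v = v := hb
    have h2 : a.1.mulVec v = v := ha
    rw [h1, h2]
  inv_mem' := by
    intro a ha
    have h1 : a.1.mulVec v = v := ha
    show (a⁻¹).1.mulVec v = v
    conv_lhs => rw [← h1]
    rw [Matrix.mulVec_mulVec]
    have h2 : (a⁻¹).1 * a.1 = 1 := by
      have : ((a⁻¹ * a : SpecialLinearGroup (Fin 2) F)).1 = 1 := by
        rw [inv_mul_cancel]; rfl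
      exact this
    rw [h2, Matrix.one_mulVec]

/-- a matrix with given columns -/
def HPSL2_h {F : Type} [Field F] (v w : Fin 2 → F) (h : v 0 * w 1 - w 0 * v 1 = 1) :
    SpecialLinearGroup (Fin 2) F :=
  ⟨!![v 0, w 0; v 1, w 1], by rw [Matrix.det_fin_two]; simpa using h⟩

theorem HPSL2_h1 {F : Type} [Field F] (v w : Fin 2 → F) (h : v 0 * w 1 - w 0 * v 1 = 1) :
    (HPSL2_h v w h).1.mulVec ![1, 0] = v := by
  ext i
  fin_cases i <;> simp [HPSL2_h, Matrix.mulVec, dotProduct, Fin.sum_univ_two]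

theorem HPSL2_h2 {F : Type} [Field F] (v w : Fin 2 → F) (h : v 0 * w 1 - w 0 * v 1 = 1) :
    (HPSL2_h v w h).1.mulVec ![0, 1] = w := by
  ext i
  fin_cases i <;> simp [HPSL2_h, Matrix.mulVec, dotProduct, Fin.sum_univ_two]

theorem HPSL2_inv {F : Type} [Field F] (g : SpecialLinearGroup (Fin 2) F) (e v : Fin 2 → F)
    (h : g.1.mulVec e = v) : (g⁻¹).1.mulVec v = e := by
  rw [← h, Matrix.mulVec_mulVec]
  have h2 : (g⁻¹).1 * g.1 = 1 := by
    have : ((g⁻¹ * g : SpecialLinearGroup (Fin 2) F)).1 = 1 := by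
      rw [inv_mul_cancel]; rfl
    exact this
  rw [h2, Matrix.one_mulVec]

theorem HPSL2_up_of {F : Type} [Field F] (k : SpecialLinearGroup (Fin 2) F)
    (h : k.1.mulVec ![1, 0] = ![1, 0]) : ∃ x, k = HPSL2_up x := by
  have h0 := congrFun h 0
  have h1 := congrFun h 1
  simp [Matrix.mulVec, dotProduct, Fin.sum_univ_two] at h0 h1
  have hd : k.1 0 0 * k.1 1 1 - k.1 0 1 * k.1 1 0 = 1 := by
    rw [← Matrix.det_fin_two]; exact k.2
  have h0' : k.1 0 0 = 1 := h0
  have h1' : k.1 1 0 = 0 := h1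
  rw [h0', h1', one_mul, mul_zero, sub_zero] at hd
  refine ⟨k.1 0 1, ?_⟩
  apply Subtype.ext
  show k.1 = !![1, k.1 0 1; 0, 1]
  ext i j
  fin_cases i <;> fin_cases j
  · exact h0'
  · rfl
  · exact h1'
  · exact hd

theorem HPSL2_up_mul {F : Type} [Field F] (x y : F) :
    HPSL2_up x * HPSL2_up y = HPSL2_up (x + y) := by
  apply Subtype.ext
  show !![1, x; 0, 1] * !![1, y; 0, 1] = !![1, x + y; 0, 1]
  rw [Matrix.mul_fin_two]
  simp [add_comm]

theorem HPSL2_up_pow {F : Type} [Field F] (x : F) (n : ℕ) :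
    HPSL2_up x ^ n = HPSL2_up (n * x) := by
  induction n with
  | zero =>
    rw [pow_zero]
    apply Subtype.ext
    show (1 : Matrix (Fin 2) (Fin 2) F) = !![1, (0 : ℕ) * x; 0, 1]
    rw [Nat.cast_zero, zero_mul]
    exact Matrix.one_fin_two
  | succ n ih =>
    rw [pow_succ, ih, HPSL2_up_mul]
    push_cast
    ring_nf

theorem HPSL2_pg {F : Type} [Field F] {r : ℕ} [CharP F r] (v : Fin 2 → F) (hv : v ≠ 0) :
    IsPGroup r (HPSL2_SV v) := by
  obtain ⟨w, hw⟩ : ∃ w : Fin 2 → F, v 0 * w 1 - w 0 * v 1 = 1 := by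
    by_cases h0 : v 0 = 0
    · have h1 : v 1 ≠ 0 := by
        intro h1
        apply hv
        ext i
        fin_cases i
        · exact h0
        · exact h1
      refine ⟨![-(v 1)⁻¹, 0], ?_⟩
      simp [h1]
    · refine ⟨![0, (v 0)⁻¹], ?_⟩
      simp [h0]
  rintro ⟨g, hg⟩
  refine ⟨1, ?_⟩
  apply Subtype.ext
  show g ^ (r ^ 1) = 1
  set h := HPSL2_h v w hw with hh
  have h1 : (h⁻¹ * g * h).1.mulVec ![1, 0] = ![1, 0] := by
    show ((h⁻¹).1 * g.1 * h.1).mulVec ![1, 0] = ![1, 0]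
    rw [← Matrix.mulVec_mulVec, ← Matrix.mulVec_mulVec, HPSL2_h1]
    have hg' : g.1.mulVec v = v := hg
    rw [hg']
    exact HPSL2_inv h _ _ (HPSL2_h1 v w hw)
  obtain ⟨x, hx⟩ := HPSL2_up_of _ h1
  have h2 : (h⁻¹ * g * h) ^ r = 1 := by
    rw [hx, HPSL2_up_pow, CharP.cast_eq_zero, zero_mul]
    have h3 := HPSL2_up_pow (0 : F) 0
    rw [pow_zero, mul_zero] at h3
    exact h3.symm
  have h4 : (h⁻¹ * g * h) ^ r = h⁻¹ * g ^ r * h := by
    have := conj_pow (a := h⁻¹) (b := g) (i := r)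
    rw [inv_inv] at this
    exact this
  rw [h4] at h2
  rw [pow_one]
  have h5 : g ^ r = h * (h⁻¹ * g ^ r * h) * h⁻¹ := by group
  rw [h5, h2]
  group

theorem HPSL2_syl {F : Type} [Field F] [Finite F] {r : ℕ} [Fact r.Prime] [CharP F r]
    (T : Sylow r (SpecialLinearGroup (Fin 2) F)) :
    ∃ v : Fin 2 → F, v ≠ 0 ∧ (T : Subgroup (SpecialLinearGroup (Fin 2) F)) = HPSL2_SV v := by
  letI : MulAction T (Fin 2 → F) :=
    { smul := fun g v => (g : SpecialLinearGroup (Fin 2) F).1.mulVec v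
      one_smul := fun v => Matrix.one_mulVec v
      mul_smul := fun a b v => (Matrix.mulVec_mulVec v _ _).symm }
  have hsm : ∀ (g : T) (v : Fin 2 → F), g • v = (g : SpecialLinearGroup (Fin 2) F).1.mulVec v :=
    fun _ _ => rfl
  have hdvd : r ∣ Nat.card (Fin 2 → F) := by
    have h1 : r ∣ Nat.card F := by
      have := Fintype.ofFinite F
      rw [Nat.card_eq_fintype_card]
      exact (CharP.cast_eq_zero_iff F r _).1 (Nat.cast_card_eq_zero F)
    rw [Nat.card_fun]
    exact h1.trans (dvd_pow_self _ (by simp))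
  have h0 : (0 : Fin 2 → F) ∈ MulAction.fixedPoints T (Fin 2 → F) := by
    intro g
    rw [hsm, Matrix.mulVec_zero]
  obtain ⟨v, hv, hne⟩ := T.isPGroup'.exists_fixed_point_of_prime_dvd_card_of_fixed_point
    (Fin 2 → F) hdvd h0
  refine ⟨v, hne.symm, ?_⟩
  have hle : (T : Subgroup (SpecialLinearGroup (Fin 2) F)) ≤ HPSL2_SV v := by
    intro g hg
    exact hv ⟨g, hg⟩
  exact (T.is_maximal' (HPSL2_pg v hne.symm) hle).symm

theorem HPSL2_scal {F : Type} [Field F] (v : Fin 2 → F) (c : F) (hc : c ≠ 0) :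
    HPSL2_SV (c • v) = HPSL2_SV v := by
  ext g
  show g.1.mulVec (c • v) = c • v ↔ g.1.mulVec v = v
  rw [Matrix.mulVec_smul]
  constructor
  · intro h
    exact (smul_right_injective (Fin 2 → F) hc) h
  · intro h
    rw [h]

theorem HPSL2_two {F : Type} [Field F] (v w : Fin 2 → F) (hv : v ≠ 0) (hw : w ≠ 0)
    (hne : HPSL2_SV v ≠ HPSL2_SV w) : HPSL2_SV v ⊔ HPSL2_SV w = ⊤ := by
  have hD : v 0 * w 1 - w 0 * v 1 ≠ 0 := by
    intro hD
    apply hne
    obtain ⟨c, hc⟩ : ∃ c : F, w = c • v := by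
      by_cases h0 : v 0 = 0
      · have h1 : v 1 ≠ 0 := by
          intro h1
          apply hv
          ext i
          fin_cases i
          · exact h0
          · exact h1
        have h2 : w 0 = 0 := by
          rw [h0, zero_mul, zero_sub, neg_eq_zero] at hD
          exact (mul_eq_zero.1 hD).resolve_right h1
        refine ⟨w 1 / v 1, ?_⟩
        ext i
        fin_cases i
        · simp [h0, h2]
        · simp [h1]
      · refine ⟨w 0 / v 0, ?_⟩
        ext i
        fin_cases i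
        · simp [h0]
        · simp
          field_simp
          linear_combination hD
    have hc0 : c ≠ 0 := by
      rintro rfl
      exact hw (by rw [hc, zero_smul])
    rw [hc, HPSL2_scal v c hc0]
  set D := v 0 * w 1 - w 0 * v 1 with hDdef
  set w' : Fin 2 → F := D⁻¹ • w with hw'
  have h1 : HPSL2_SV w' = HPSL2_SV w := HPSL2_scal w _ (inv_ne_zero hD)
  rw [← h1]
  have hdet : v 0 * w' 1 - w' 0 * v 1 = 1 := by
    rw [hw']
    simp only [Pi.smul_apply, smul_eq_mul]
    have : v 0 * (D⁻¹ * w 1) - D⁻¹ * w 0 * v 1 = D⁻¹ * D := by rw [hDdef]; ring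
    rw [this, inv_mul_cancel₀ hD]
  set h := HPSL2_h v w' hdet with hh
  have hup : ∀ x : F, (HPSL2_up x).1.mulVec ![1, 0] = ![1, 0] := by
    intro x
    ext i
    fin_cases i <;> simp [HPSL2_up, Matrix.mulVec, dotProduct, Fin.sum_univ_two]
  have hlo : ∀ x : F, (HPSL2_lo x).1.mulVec ![0, 1] = ![0, 1] := by
    intro x
    ext i
    fin_cases i <;> simp [HPSL2_lo, Matrix.mulVec, dotProduct, Fin.sum_univ_two]
  have hcj : ∀ (k : SpecialLinearGroup (Fin 2) F) (e u : Fin 2 → F), h.1.mulVec e = u →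
      k.1.mulVec e = e → h * k * h⁻¹ ∈ HPSL2_SV u := by
    intro k e u hu hk
    show (h.1 * k.1 * (h⁻¹).1).mulVec u = u
    rw [← Matrix.mulVec_mulVec, ← Matrix.mulVec_mulVec, HPSL2_inv h e u hu, hk, hu]
  have htop : (HPSL2_SV v ⊔ HPSL2_SV w').comap (MulAut.conj h).toMonoidHom = ⊤ := by
    apply HPSL2_gen
    · intro x
      show h * HPSL2_up x * h⁻¹ ∈ HPSL2_SV v ⊔ HPSL2_SV w'
      exact (le_sup_left : HPSL2_SV v ≤ _) (hcj _ _ _ (HPSL2_h1 v w' hdet) (hup x))
    · intro x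
      show h * HPSL2_lo x * h⁻¹ ∈ HPSL2_SV v ⊔ HPSL2_SV w'
      exact (le_sup_right : HPSL2_SV w' ≤ _) (hcj _ _ _ (HPSL2_h2 v w' hdet) (hlo x))
  exact Subgroup.comap_injective (MulAut.conj h).surjective (htop.trans (Subgroup.comap_top _).symm)

theorem prf_HPSL2 : HPSL2 := by
  intro r _ F _ _ _ S S' hne
  have hs : Function.Surjective
      (QuotientGroup.mk' (Subgroup.center (SpecialLinearGroup (Fin 2) F))) :=
    QuotientGroup.mk'_surjective _
  obtain ⟨T, rfl⟩ := Sylow.mapSurjective_surjective hs r S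
  obtain ⟨T', rfl⟩ := Sylow.mapSurjective_surjective hs r S'
  obtain ⟨v, hv, hT⟩ := HPSL2_syl T
  obtain ⟨w, hw, hT'⟩ := HPSL2_syl T'
  have h1 : HPSL2_SV v ≠ HPSL2_SV w := by
    intro h
    apply hne
    have : T = T' := Sylow.ext (by rw [hT, hT', h])
    rw [this]
  have h2 := HPSL2_two v w hv hw h1
  have h3 := congrArg
    (Subgroup.map (QuotientGroup.mk' (Subgroup.center (SpecialLinearGroup (Fin 2) F)))) h2
  rw [Subgroup.map_sup, Subgroup.map_top_of_surjective _ hs] at h3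
  rw [← h3, ← hT, ← hT']
  rfl

end MP7b0bad

end

section

set_option autoImplicit false

namespace MP7b0bad

/-! # Automorphisms of order `p` of `PSL_2`, `p ∣ |F| - 1` (helper61) -/

open scoped Pointwise in
theorem HPSL3_two (p r : ℕ) [Fact p.Prime] (L : Type) [Group L] [Finite L]
    (φ : MulAut L) (hφ : ∀ x, φ^[p] x = x) (n : ℕ) (hn : Nat.card (Sylow r L) = n + 2)
    (hpn : p ∣ n) (hp2 : p ≠ 2) :
    ∃ S S' : Sylow r L, S ≠ S' ∧ (∀ a ∈ (S : Subgroup L), φ a ∈ (S : Subgroup L)) ∧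
      ∀ a ∈ (S' : Subgroup L), φ a ∈ (S' : Subgroup L) := by
  have hp : p.Prime := Fact.out
  have hp3 : 3 ≤ p := by
    have := hp.two_le
    omega
  have hpow : φ ^ p = 1 := by
    ext x
    have h1 : ∀ k : ℕ, (φ ^ k) x = φ^[k] x := by
      intro k
      induction k with
      | zero => rfl
      | succ k ih => rw [pow_succ', MulAut.mul_apply, ih, Function.iterate_succ_apply']
    rw [h1, hφ]
    rfl
  have hpG : IsPGroup p (Subgroup.zpowers φ) := by
    rintro ⟨g, hg⟩
    refine ⟨1, Subtype.ext ?_⟩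
    obtain ⟨i, rfl⟩ := Subgroup.mem_zpowers_iff.1 hg
    change (φ ^ i) ^ p ^ 1 = 1
    rw [pow_one, ← zpow_natCast, ← zpow_mul, mul_comm, zpow_mul, zpow_natCast, hpow, one_zpow]
  have h1 := hpG.card_modEq_card_fixedPoints (Sylow r L)
  rw [hn] at h1
  have h2 : 2 ≡ Nat.card (MulAction.fixedPoints (Subgroup.zpowers φ) (Sylow r L)) [MOD p] := by
    refine Nat.ModEq.trans ?_ h1
    have h3 : 0 ≡ n [MOD p] := (Nat.modEq_zero_iff_dvd.2 hpn).symm
    have := h3.add_right 2
    rwa [Nat.zero_add] at this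
  have h3 : 1 < Nat.card (MulAction.fixedPoints (Subgroup.zpowers φ) (Sylow r L)) := by
    by_contra h4
    obtain ⟨N, hN⟩ : ∃ N, N = Nat.card (MulAction.fixedPoints (Subgroup.zpowers φ)
      (Sylow r L)) := ⟨_, rfl⟩
    rw [← hN] at h2 h4
    have h5 := h2.symm
    unfold Nat.ModEq at h5
    rw [Nat.mod_eq_of_lt (show N < p by omega), Nat.mod_eq_of_lt (show 2 < p by omega)] at h5
    omega
  rw [Finite.one_lt_card_iff_nontrivial] at h3
  obtain ⟨⟨S, hS⟩, ⟨S', hS'⟩, hne⟩ := h3.exists_pair_ne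
  have key : ∀ T : Sylow r L, T ∈ MulAction.fixedPoints (Subgroup.zpowers φ) (Sylow r L) →
      ∀ a ∈ (T : Subgroup L), φ a ∈ (T : Subgroup L) := by
    intro T hT a ha
    have h4 : φ • T = T := hT ⟨φ, Subgroup.mem_zpowers φ⟩
    have h5 : φ • (T : Subgroup L) = (T : Subgroup L) := congrArg Sylow.toSubgroup h4
    rw [← h5]
    exact Subgroup.smul_mem_pointwise_smul a φ _ ha
  exact ⟨S, S', fun h => hne (Subtype.ext h), key S hS, key S' hS'⟩

theorem HPSL3_le (p r : ℕ) [Fact p.Prime] [Fact r.Prime] (hpr : p ≠ r) (L : Type) [Group L]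
    [Finite L] (φ : L ≃* L) (S : Sylow r L)
    (hS : ∀ a ∈ (S : Subgroup L), φ a ∈ (S : Subgroup L)) :
    (S : Subgroup L) ≤ Subgroup.closure {x : L | φ x = x ∨ ∃ A : Subgroup L,
      ¬ p ∣ Nat.card A ∧ (∀ a ∈ A, φ a ∈ A) ∧ x ∈ A} := by
  intro x hx
  refine Subgroup.subset_closure (Or.inr ⟨S, ?_, hS, hx⟩)
  intro hdvd
  obtain ⟨k, hk⟩ := S.isPGroup'.exists_card_eq
  rw [hk] at hdvd
  have hp : p.Prime := Fact.out
  have hr : r.Prime := Fact.out
  exact hpr ((Nat.prime_dvd_prime_iff_eq hp hr).1 (hp.dvd_of_dvd_pow hdvd))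

theorem prf_HPSL3 (hHPSL1 : HPSL1) (hHPSL2 : HPSL2) : HPSL3 := by
  intro p _ hp2 F _ _ hdiv φ hφ _
  have hp : p.Prime := Fact.out
  obtain ⟨r, hr⟩ := CharP.exists F
  have hrp : r.Prime := CharP.char_is_prime F r
  have hrF : Fact r.Prime := ⟨hrp⟩
  have hcard : ∃ n : ℕ, 0 < n ∧ Nat.card F = r ^ n := by
    have := Fintype.ofFinite F
    obtain ⟨n, -, hn⟩ := FiniteField.card F r
    exact ⟨n, n.pos, by rw [Nat.card_eq_fintype_card, hn]⟩
  have hF2 : 2 ≤ Nat.card F := by
    have := Finite.one_lt_card (α := F)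
    omega
  have hpr : p ≠ r := by
    rintro rfl
    obtain ⟨n, hn0, hn⟩ := hcard
    have h1 : p ∣ Nat.card F := by
      rw [hn]
      exact dvd_pow_self p (by omega)
    have h2 : p ∣ Nat.card F - (Nat.card F - 1) := Nat.dvd_sub h1 hdiv
    have h3 : Nat.card F - (Nat.card F - 1) = 1 := by omega
    rw [h3] at h2
    exact hp.one_lt.ne' (Nat.dvd_one.1 h2)
  have hS := hHPSL1 r F
  obtain ⟨S, S', hne, h1, h2⟩ := HPSL3_two p r (Matrix.ProjectiveSpecialLinearGroup (Fin 2) F) φ hφ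
    (Nat.card F - 1) (by rw [hS]; omega) hdiv hp2
  rw [eq_top_iff, ← hHPSL2 r F S S' hne]
  exact sup_le (HPSL3_le p r hpr _ φ S h1) (HPSL3_le p r hpr _ φ S' h2)

end MP7b0bad

end

section

set_option autoImplicit false

namespace MP7b0bad

theorem HRedM_starIso {p : ℕ} (L L' : Type) [Group L] [Group L'] (e : L ≃* L')
    (h : StarM p L) : StarM p L' := by
  intro X _ _ L₀ u hn ⟨f⟩ hX hu hg
  exact h X L₀ u hn ⟨f.trans e.symm⟩ hX hu hg

theorem HRedM_aux (hHLift : HLift) (hHAb : HAb) (hHMin : HMin) (hHB1M : HB1M)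
    (hHA1 : HA1) (hHA1O : HA1O) (p : ℕ) [Fact p.Prime] : ∀ (n : ℕ) (G : Type) [Group G] [Finite G]
    (P : Subgroup G), Nat.card G = n → IsPGroup p P → Subgroup.normalClosure (P : Set G) = ⊤ →
    CFac p (StarM p) G → Gam p P = ⊤ := by
  intro n
  induction n using Nat.strong_induction_on with
  | _ n ih =>
  intro G _ _ P hn hP hcl hCF
  cases subsingleton_or_nontrivial G with
  | inl hsub => exact Subsingleton.elim _ _
  | inr hnt =>
  obtain ⟨N, hN, hN0, hmin⟩ := HRed_min (G := G)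
  haveI := hN
  have hsurj : Function.Surjective (QuotientGroup.mk' N) := QuotientGroup.mk'_surjective N
  -- induction for the quotient
  have hlt : Nat.card (G ⧸ N) < n := by
    rw [← hn, Subgroup.card_eq_card_quotient_mul_card_subgroup N]
    have h1 : 1 < Nat.card N := by
      rw [Subgroup.one_lt_card_iff_ne_bot]
      exact hN0
    have h2 : 0 < Nat.card (G ⧸ N) := Nat.card_pos
    nlinarith
  have hq : Gam p (P.map (QuotientGroup.mk' N)) = ⊤ := by
    refine ih _ hlt (G ⧸ N) _ rfl (hP.map _) ?_ (HRed_quot HRedM_starIso hCF N)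
    have h1 := Subgroup.map_normalClosure (P : Set G) (QuotientGroup.mk' N) hsurj
    rw [hcl, Subgroup.map_top_of_surjective _ hsurj] at h1
    rw [Subgroup.coe_map, ← h1]
  have hNG : N ⊔ Gam p P = ⊤ := hHLift p G P N hP hq
  by_cases hcase : IsPGroup p N ∨ ¬ p ∣ Nat.card N
  · exact hHAb p G P N hN hN0 hmin hP hcl hcase hNG
  rw [not_or, not_not] at hcase
  obtain ⟨hc1, hc2⟩ := hcase
  have hnab : ∃ a ∈ N, ∃ b ∈ N, a * b ≠ b * a := by
    by_contra hcon
    push Not at hcon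
    exact hc1 (HRed_ab N hN hmin hc2 hcon)
  obtain ⟨L, hLN, hLn, hLs, hLab, hcard, hA, hB, hsup⟩ := hHMin G N hN hN0 hmin hnab
  have hpL : p ∣ Nat.card L := (Fact.out : p.Prime).dvd_of_dvd_pow (hc2.trans hcard)
  have hstar : StarM p L := HRed_surj HRedM_starIso (MonoidHom.id G) Function.surjective_id hCF
    N L hN hLN hLn hLs hpL hLab
  -- some conjugate is not centralised
  have hex : ∃ g : G, ∃ u ∈ P, ∃ x ∈ L.map (MulAut.conj g).toMonoidHom, u * x ≠ x * u := by
    by_contra hcon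
    push Not at hcon
    have h1 : N ≤ Subgroup.centralizer (P : Set G) := by
      rw [← hsup]
      refine iSup_le fun g x hx => ?_
      rw [Subgroup.mem_centralizer_iff]
      intro u hu
      exact hcon g u hu x hx
    have h2 : P ≤ Subgroup.centralizer (N : Set G) := by
      intro u hu
      rw [Subgroup.mem_centralizer_iff]
      intro x hx
      exact (Subgroup.mem_centralizer_iff.1 (h1 hx) u hu).symm
    have h3 : (Subgroup.centralizer (N : Set G)) = ⊤ := by
      rw [eq_top_iff, ← hcl]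
      exact Subgroup.normalClosure_le_normal h2
    obtain ⟨a, ha, b, hb, hne⟩ := hnab
    have h4 : b ∈ Subgroup.centralizer (N : Set G) := by
      rw [h3]
      exact Subgroup.mem_top _
    exact hne (Subgroup.mem_centralizer_iff.1 h4 a ha)
  obtain ⟨g, u, hu, x, hx, hux⟩ := hex
  obtain ⟨e1⟩ := HRed_conjEquiv L g
  -- properties of L
  have hA' : ∀ w : G, (∀ y ∈ L, w * y * w⁻¹ ∈ L) ∨
      ∀ x ∈ L, ∀ y ∈ L, x * (w * y * w⁻¹) = (w * y * w⁻¹) * x := by
    intro w
    rcases hA w with h | h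
    · left
      intro y hy
      rw [← h]
      exact (HRed_memConj L w _).2 ⟨y, hy, rfl⟩
    · exact Or.inr h
  have hB' : ∀ w : G, (∃ y ∈ L, w * y * w⁻¹ ∉ L) → ∀ y ∈ L, w * y * w⁻¹ ∈ L → y = 1 := by
    rintro w ⟨z, hz, hz'⟩ y hy hy'
    have hne : L.map (MulAut.conj w).toMonoidHom ≠ L := by
      intro h
      apply hz'
      rw [← h]
      exact (HRed_memConj L w _).2 ⟨z, hz, rfl⟩
    have h1 : w * y * w⁻¹ ∈ L ⊓ L.map (MulAut.conj w).toMonoidHom :=
      ⟨hy', (HRed_memConj L w _).2 ⟨y, hy, rfl⟩⟩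
    rw [hB w hne, Subgroup.mem_bot, conj_eq_one_iff] at h1
    exact h1
  set L1 : Subgroup G := L.map (MulAut.conj g).toMonoidHom with hL1
  have hm1 : ∀ z : G, z ∈ L1 ↔ ∃ y ∈ L, z = g * y * g⁻¹ := HRed_memConj L g
  have hm2 : ∀ z : G, g * z * g⁻¹ ∈ L1 ↔ z ∈ L := by
    intro z
    rw [hm1]
    constructor
    · rintro ⟨y, hy, h⟩
      have : z = y := by
        simpa using h
      rwa [this]
    · intro hz
      exact ⟨z, hz, rfl⟩
  haveI := hLs
  have hs1 : IsSimpleGroup L1 := by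
    haveI : Nontrivial L1 := e1.symm.toEquiv.nontrivial
    exact IsSimpleGroup.isSimpleGroup_of_surjective e1.toMonoidHom e1.surjective
  have hab1 : ∃ a b : L1, a * b ≠ b * a := by
    obtain ⟨a, b, h⟩ := hLab
    refine ⟨e1 a, e1 b, ?_⟩
    rw [← map_mul, ← map_mul]
    intro h'
    exact h (e1.injective h')
  have hst1 : StarM p L1 := HRedM_starIso _ _ e1 hstar
  have hA1' : ∀ v : G, (∀ y ∈ L1, v * y * v⁻¹ ∈ L1) ∨
      ∀ x ∈ L1, ∀ y ∈ L1, x * (v * y * v⁻¹) = (v * y * v⁻¹) * x := by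
    intro v
    rcases hA' (g⁻¹ * v * g) with h | h
    · left
      intro z hz
      obtain ⟨y, hy, rfl⟩ := (hm1 z).1 hz
      have := (hm2 _).2 (h y hy)
      have h3 : v * (g * y * g⁻¹) * v⁻¹ = g * (g⁻¹ * v * g * y * (g⁻¹ * v * g)⁻¹) * g⁻¹ := by
        group
      rwa [h3]
    · right
      intro z hz z' hz'
      obtain ⟨y, hy, rfl⟩ := (hm1 z).1 hz
      obtain ⟨y', hy', rfl⟩ := (hm1 z').1 hz'
      have h2 := h y hy y' hy'
      have h3 : v * (g * y' * g⁻¹) * v⁻¹ = g * (g⁻¹ * v * g * y' * (g⁻¹ * v * g)⁻¹) * g⁻¹ := by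
        group
      rw [h3]
      calc g * y * g⁻¹ * (g * (g⁻¹ * v * g * y' * (g⁻¹ * v * g)⁻¹) * g⁻¹)
          = g * (y * (g⁻¹ * v * g * y' * (g⁻¹ * v * g)⁻¹)) * g⁻¹ := by group
        _ = g * ((g⁻¹ * v * g * y' * (g⁻¹ * v * g)⁻¹) * y) * g⁻¹ := by rw [h2]
        _ = g * (g⁻¹ * v * g * y' * (g⁻¹ * v * g)⁻¹) * g⁻¹ * (g * y * g⁻¹) := by group
  have hB1' : ∀ v : G, (∃ y ∈ L1, v * y * v⁻¹ ∉ L1) → ∀ y ∈ L1, v * y * v⁻¹ ∈ L1 → y = 1 := by
    rintro v ⟨z, hz, hz'⟩ z1 hz1 hz1'
    obtain ⟨y, hy, rfl⟩ := (hm1 z).1 hz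
    obtain ⟨y1, hy1, rfl⟩ := (hm1 z1).1 hz1
    have h3 : ∀ y : G, v * (g * y * g⁻¹) * v⁻¹ =
        g * (g⁻¹ * v * g * y * (g⁻¹ * v * g)⁻¹) * g⁻¹ := by
      intro y
      group
    rw [h3, hm2] at hz' hz1'
    rw [conj_eq_one_iff]
    exact hB' (g⁻¹ * v * g) ⟨y, hy, hz'⟩ y1 hy1 hz1'
  -- L1 is contained in Gam
  have hL1G : L1 ≤ Gam p P := by
    by_cases hc : ∃ v ∈ P, (∀ x ∈ L1, v * x * v⁻¹ ∈ L1) ∧ ∃ x ∈ L1, v * x ≠ x * v
    · obtain ⟨v, hv, hv1, hv2⟩ := hc
      exact hHB1M p G P L1 v hP hv hv1 hv2 hs1 hab1 hst1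
    · push Not at hc
      have hmov : ∃ x ∈ L1, u * x * u⁻¹ ∉ L1 := by
        by_contra hcon
        push Not at hcon
        exact hux (hc u hu hcon x hx)
      by_cases hp2 : p = 2
      · refine hHA1 p G P L1 u hP hu hc (fun v _ => hA1' v) (fun v _ => hB1' v) hmov hs1 hab1 ?_
        rw [hp2]
        exact HInv_odd L1 hs1 hab1
      · exact hHA1O p G P L1 u hp2 hP hu hc (fun v _ => hA1' v) (fun v _ => hB1' v) hmov hs1 hab1
  -- N normalises L1
  have hnorm : ∀ m ∈ N, ∀ z ∈ L1, m * z * m⁻¹ ∈ L1 := by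
    intro m hm z hz
    obtain ⟨y, hy, rfl⟩ := (hm1 z).1 hz
    have h3 : m * (g * y * g⁻¹) * m⁻¹ = g * ((g⁻¹ * m * g) * y * (g⁻¹ * m * g)⁻¹) * g⁻¹ := by
      group
    rw [h3, hm2]
    refine (Subgroup.normal_subgroupOf_iff hLN).1 hLn _ _ hy ?_
    have := hN.conj_mem m hm g⁻¹
    rwa [inv_inv] at this
  have hNle : N ≤ Gam p P := by
    rw [← hsup]
    refine iSup_le fun g' z hz => ?_
    obtain ⟨y, hy, rfl⟩ := (HRed_memConj L g' z).1 hz
    have h1 : g' * g⁻¹ ∈ Gam p P ⊔ N := by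
      rw [sup_comm, hNG]
      exact Subgroup.mem_top _
    rw [← SetLike.mem_coe, Subgroup.mul_normal, Set.mem_mul] at h1
    obtain ⟨γ, hγ, m, hm, hγm⟩ := h1
    have h2 : g' * y * g'⁻¹ = γ * (m * (g * y * g⁻¹) * m⁻¹) * γ⁻¹ := by
      have h5 : g' = γ * m * g := by
        rw [hγm]
        group
      rw [h5]
      group
    rw [h2]
    exact (Gam p P).mul_mem ((Gam p P).mul_mem hγ
      (hL1G (hnorm m hm _ ((hm2 y).2 hy)))) ((Gam p P).inv_mem hγ)
  rw [eq_top_iff, ← hNG]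
  exact sup_le hNle le_rfl

theorem prf_HRedM (hHLift : HLift) (hHAb : HAb) (hHMin : HMin) (hHB1M : HB1M)
    (hHA1 : HA1) (hHA1O : HA1O) : HRedM := by
  intro p _ G _ _ P hP hcl hCF
  exact HRedM_aux hHLift hHAb hHMin hHB1M hHA1 hHA1O p _ G P rfl hP hcl hCF

end MP7b0bad

end
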